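import Pool.Agent.P.MP_de3acd_gt.FH.Defs2

/-! Definitions for compactness, gluing and counting. -/

open Set Filter Topology MeasureTheory
open scoped ContDiff NNReal ENNReal RealInnerProductSpace

namespace Pool.Agent.P.MP_de3acd_gt.FH

noncomputable section

section

variable {F : Type} [NormedAddCommGroup F] [NormedSpace ℝ F]
  {C : Type} [NormedAddCommGroup C] [NormedSpace ℝ C]

/-- Convergence with all derivatives on bounded parts of the cylinder. -/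
def LocC {N : Type} (l : Filter N) (f : N → Pl → F) (g : Pl → F) : Prop :=
  ∀ (k : ℕ) (R ε : ℝ), 0 < ε → ∀ᶠ n in l, Cn k (f n - g) (Icc (-R) R) ε

/-- Convergence in `W²`. -/
def WC {N : Type} (l : Filter N) (f g : N → Pl → F) : Prop :=
  Tendsto (fun n => nrm 2 (f n - g n) univ) l (𝓝 0)

/-- Additive pregluing of `g₁` at `-ϱ₁` and `g₂` at `ϱ₂` over the loop `y`. -/
def pre (ϱ₁ ϱ₂ : ℝ) (g₁ g₂ : Pl → F) (y : ℝ → F) : Pl → F :=
  tsl (ϱ₁, 0) g₁ + tsl (-ϱ₂, 0) g₂ - lp y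

/-- Translated frames of the pieces. -/
def gl {k : ℕ} {α : Fin k → Type} (σ : Fin k → ℝ) (K : ∀ i, α i → Pl → F) (a : Σ i, α i) :
    Pl → F := tsl (-σ a.1, 0) (K a.1 a.2)

/-- The region between the pieces `j - 1` and `j`. -/
def mid {k : ℕ} (σ : Fin k → ℝ) (j : Fin (k + 1)) (S : ℝ) : Set ℝ :=
  {s | ∀ i, (i.castSucc < j → σ i + S ≤ s) ∧ (j ≤ i.castSucc → s ≤ σ i - S)}

/-- The field at a constant control. -/
def cfz (𝕏 : ℝ → C × F → F) (a : C) : ℝ → F → F := fun t z => 𝕏 t (a, z)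

/-- Loops in the ball of radius `A`. -/
def InB (A : ℝ) (x : ℝ → F) : Prop := ∀ t, ‖x t‖ ≤ A

/-- The gluing rule with given universal signs. -/
def Glu (Ω : F → F → ℝ) (Γ : Subgroup (Equiv.Perm F)) (o : ∀ a b, Op F a b → ℤˣ)
    (η : ℕ → ℕ → ℕ → ℕ → ℤˣ) : Prop :=
  ∀ a b a' b' (T : Op F a b) (T' : Op F a' b'), Ok Ω Γ T → Ok Ω Γ T' → T.γ = T'.γ → T.y = T'.x →
    (∃ R, ∀ s ≥ R, ∀ s' ≥ R, ∀ t, T.j (s, t) = T'.j (-s', t) ∧ T.S (s, t) = T'.S (-s', t)) →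
      ∀ᶠ R in atTop, o _ _ (glue R T T') = η a b a' b' * o a b T * o a' b' T'

theorem Coh.exists_glu {Ω : F → F → ℝ} {Γ : Subgroup (Equiv.Perm F)} {o : ∀ a b, Op F a b → ℤˣ}
    (h : Coh Ω Γ o) : ∃ η, Glu Ω Γ o η := h.glu

/-- Signed count. -/
def scnt {ι : Type} (M : Set ι) (s : ι → ℤˣ) : ℤ :=
  ({m ∈ M | s m = 1}.ncard : ℤ) - {m ∈ M | s m = -1}.ncard

variable (Ω : F → F → ℝ) (Γ : Subgroup (Equiv.Perm F)) (o : ∀ a b, Op F a b → ℤˣ)
  (γ : Equiv.Perm F) (J : ℝ → F → F →L[ℝ] F)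

/-- Rigid cylinders. -/
def SolT (X : Pl → F → F) (x y : ℝ → F) : Set (Pl → F) :=
  {u | Cyl Ω γ J X x y u ∧ Ok Ω Γ (lop γ J X x y u ![] ![] ![])}

/-- Their number, with the signs of the empty frame. -/
def nT0 (X : Pl → F → F) (x y : ℝ → F) : ℤ :=
  scnt (SolT Ω Γ γ J X x y) fun u => o 0 0 (lop γ J X x y u ![] ![] ![])

/-- Their number, with the signs of the trivial frame of type `(1, 1)`. -/
def nT1 (X : Pl → F → F) (x y : ℝ → F) : ℤ :=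
  scnt (SolT Ω Γ γ J X x y) fun u => o 1 1 (lop γ J X x y u ![0] ![0] ![![1]])

/-- Rigid cylinders in a one-parameter family. -/
def SolK (X : ℝ → Pl → F → F) (x y : ℝ → F) : Set (ℝ × (Pl → F)) :=
  {m | Cyl Ω γ J (X m.1) x y m.2 ∧
    Ok Ω Γ (lop γ J (X m.1) x y m.2 ![var J (dX X m.1 1) m.2] ![] ![])}

/-- Their number. -/
def nK (X : ℝ → Pl → F → F) (x y : ℝ → F) : ℤ :=
  scnt (SolK Ω Γ γ J X x y) fun m =>
    o 1 0 (lop γ J (X m.1) x y m.2 ![var J (dX X m.1 1) m.2] ![] ![])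

/-- Index one cylinders of sign `σ`. -/
def SolN (Y : ℝ → F → F) (x y : ℝ → F) (σ : ℤˣ) : Set (Pl → F) :=
  {u | Cyl Ω γ J (sta Y) x y u ∧ ∃ l, 0 < pair Ω (ds u) l ∧
    Ok Ω Γ (lop γ J (sta Y) x y u ![] ![l] ![![]]) ∧
      o 0 1 (lop γ J (sta Y) x y u ![] ![l] ![![]]) = σ}

/-- The translates of a map. -/
def cls (u : Pl → F) : Set (Pl → F) := range fun s : ℝ => tsl (s, 0) u

/-- The number of index one cylinders modulo translation. -/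
def nN (Y : ℝ → F → F) (x y : ℝ → F) : ℤ :=
  ((cls '' SolN Ω Γ o γ J Y x y 1).ncard : ℤ) - (cls '' SolN Ω Γ o γ J Y x y (-1)).ncard

/-- The index of the linearisation, by frames. -/
def EIdx (X : Pl → F → F) (x y : ℝ → F) (u : Pl → F) (d : ℤ) : Prop :=
  ∃ (a b : ℕ) (K : Fin a → Pl → F) (l : Fin b → Pl → F) (M : Fin b → Fin a → ℝ),
    Ok Ω Γ (lop γ J X x y u K l M) ∧ d = (b : ℤ) - a

end

section

variable {V : Type} [NormedAddCommGroup V] [InnerProductSpace ℝ V] [Sym V]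
  {C : Type} [NormedAddCommGroup C] [NormedSpace ℝ C]

/-- All orbits in the ball of radius `A` are nondegenerate. -/
def NdB (Y : ℝ → V → V) (A : ℝ) : Prop := ∀ x, Orb 1 Y x → InB A x → GOrb Ω0 1 Y x

/-- Limit data: controls `κ i` at the marks, constant controls `a i` between them. -/
structure CData (J : ℝ → V → V →L[ℝ] V) (𝕏 : ℝ → C × V → V) {q : ℕ} (κ : Fin q → Pl → C)
    (a : Fin (q + 1) → C) (R A : ℝ) : Prop where
  pos : 0 < q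
  acs : ACS Ω0 J
  sp : SP 𝕏
  nonneg : 0 ≤ R
  bdd : ∀ i, Bdd (κ i) ∧ Per (κ i)
  ends : ∀ i (p : Pl), (p.1 ≤ -R → κ i p = a i.castSucc) ∧ (R ≤ p.1 → κ i p = a i.succ)
  nd : ∀ i, NdB (cfz 𝕏 (a i)) A

/-- Bounded sequences of solutions for controls that converge to the limit data. -/
structure CSeq (J : ℝ → V → V →L[ℝ] V) (𝕏 : ℝ → C × V → V) {q : ℕ} (κ : Fin q → Pl → C)
    (a : Fin (q + 1) → C) (A : ℝ) (x y : ℝ → V) (κ' : ℕ → Pl → C) (τ : ℕ → Fin q → ℝ)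
    (u : ℕ → Pl → V) : Prop where
  gap : Gap atTop τ
  bdd : ∀ n, Bdd (κ' n) ∧ Per (κ' n)
  conv : ∀ m, PrC m atTop τ κ' κ
  agree : ∀ i x', Orb 1 (cfz 𝕏 (a i)) x' → InB A x' → ∃ δ > 0, ∃ S, ∀ᶠ n in atTop, ∀ (p : Pl) z,
    p.1 ∈ mid (τ n) i S → ‖z - x' p.2‖ ≤ δ → 𝕏 p.2 (κ' n p, z) = 𝕏 p.2 (a i, z)
  ox : Orb 1 (cfz 𝕏 (a 0)) x
  oy : Orb 1 (cfz 𝕏 (a (Fin.last q))) y
  nice : ∀ n, Nice J (ctl 𝕏 (κ' n)) x y (u n)
  bound : ∀ n, Cn 1 (u n) univ A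
  energy : ∃ e < ⊤, ∀ n, nrm 0 (ds (u n)) univ ≤ e

/-- The combinatorics of a broken limit: `k` pieces with controls `κ''`, the marks `m`, the
levels of the intermediate loops. -/
structure CShape {q k : ℕ} (κ : Fin q → Pl → C) (a : Fin (q + 1) → C) (m : Fin q ↪o Fin k)
    (lev : Fin (k + 1) → Fin (q + 1)) (κ'' : Fin k → Pl → C) : Prop where
  lt : ∀ i j, i.castSucc < lev j ↔ (m i).castSucc < j
  mark : ∀ i, κ'' (m i) = κ i
  free : ∀ j, j ∉ range m → κ'' j = fun _ => a (lev j.castSucc)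

/-- Convergence to a broken solution. -/
structure Brk (J : ℝ → V → V →L[ℝ] V) (X : ℕ → Pl → V → V) (u : ℕ → Pl → V) (x y : ℝ → V) (A : ℝ)
    {k : ℕ} (σ : ℕ → Fin k → ℝ) (X' : Fin k → Pl → V → V) (z : Fin (k + 1) → ℝ → V)
    (g : Fin k → Pl → V) : Prop where
  pos : 0 < k
  gap : Gap atTop σ
  zero : z 0 = x
  last : z (Fin.last k) = y
  inB : ∀ j, InB A (z j)
  smooth : ∀ j, ContDiff ℝ ∞ (z j) ∧ ∀ t, z j (t + 1) = z j t
  pth : ∀ n, Pth x y (u n)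
  nice : ∀ j, Nice J (X' j) (z j.castSucc) (z j.succ) (g j)
  bound : ∀ j, Cn 1 (g j) univ A
  prw : PrW atTop σ u g
  prc : ∀ m, PrC m atTop σ u g
  coef : ∀ n, Coef 1 (cJ J (u n)) (cS J (X n) (u n))
  ell : ∀ j, Ell 1 (cJ J (g j)) (cS J (X' j) (g j))
  cj : PrC 1 atTop σ (fun n => cJ J (u n)) fun j => cJ J (g j)
  cs : PrC 1 atTop σ (fun n => cS J (X n) (u n)) fun j => cS J (X' j) (g j)

end

end

end Pool.Agent.P.MP_de3acd_gt.FH
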