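import Pool.Agent.P.MP_de3acd_gt.FH.JetN
import Pool.Agent.P.MP_de3acd_gt.FH.Defs3

/-! Arzela-Ascoli with all derivatives, and the calculus of LocC.
Sketch: the functions are uniformly bounded and uniformly Lipschitz; on each compact Icc (-R) R ×ˢ Icc 0 1 use
BoundedContinuousFunction.arzela_ascoli, and a diagonal argument; or at once: the product over a countable dense set of compact
balls is sequentially compact, and an equi-Lipschitz sequence that converges on a dense set converges locally uniformly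
(ArzelaAscoli.isCompact_of_equicontinuous in C(Pl, F), which is first countable/metrizable, is another route).
cn_interp for f n - f m (cut the set I = Icc (-R) R) shows that all derivatives are uniformly Cauchy on strips; by induction on k
(for all sequences) the limit is C^k: hasFDerivAt_of_tendstoLocallyUniformlyOn, fderiv_eq_ds_dt. -/

open Set Filter Topology MeasureTheory
open scoped ContDiff NNReal ENNReal RealInnerProductSpace

namespace Pool.Agent.P.MP_de3acd_gt.FH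

noncomputable section

variable {F F₁ F₂ : Type} [NormedAddCommGroup F] [NormedSpace ℝ F] [NormedAddCommGroup F₁]
  [NormedSpace ℝ F₁] [NormedAddCommGroup F₂] [NormedSpace ℝ F₂]
variable {C Λ : Type} [NormedAddCommGroup C] [NormedSpace ℝ C] [FiniteDimensional ℝ C]
  [NormedAddCommGroup Λ] [NormedSpace ℝ Λ] [FiniteDimensional ℝ Λ]

variable {N : Type} {l : Filter N}

theorem cn_eps_AA {I : Set ℝ} {A : ℝ} (k : ℕ) : ∀ g : Pl → F,
    (∀ ε > 0, Cn k g I (A + ε)) → Cn k g I A := by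
  induction k with
  | zero => exact fun g h p hp => le_of_forall_pos_le_add fun ε hε => h ε hε p hp
  | succ k ih =>
    exact fun g h => ⟨fun p hp => le_of_forall_pos_le_add fun ε hε => (h ε hε).1 p hp,
      ih _ fun ε hε => (h ε hε).2.1, ih _ fun ε hε => (h ε hε).2.2⟩

theorem cn_lim_AA [l.NeBot] {f : N → Pl → F} {g : Pl → F} (h : LocC l f g)
    (hf : ∀ n, ContDiff ℝ ∞ (f n)) (hg : ContDiff ℝ ∞ g) {k : ℕ} {I : Set ℝ} {A : ℝ}
    (e : ∀ s ∈ I, ∀ᶠ n in l, Cn k (f n) {s} A) : Cn k g I A := by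
  refine cn_of_forall fun s hs => cn_eps_AA k g fun ε hε => ?_
  obtain ⟨n, h1, h2⟩ := ((e s hs).and (h k |s| ε hε)).exists
  have := Cn.sub (f := f n) (g := f n - g) (hf n) ((hf n).sub hg) h1
    (h2.mono le_rfl (singleton_subset_iff.2 ⟨neg_abs_le s, le_abs_self s⟩) le_rfl)
  rwa [sub_sub_cancel] at this

omit [NormedSpace ℝ F] in
theorem pt_AA {f : N → Pl → F} {g : Pl → F} (h : ∀ R ε : ℝ, 0 < ε → ∀ᶠ n in l, ∀ p : Pl,
    p.1 ∈ Icc (-R) R → ‖(f n - g) p‖ ≤ ε) (p : Pl) : Tendsto (fun n => f n p) l (𝓝 (g p)) := by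
  refine Metric.tendsto_nhds.2 fun ε hε => (h |p.1| (ε / 2) (half_pos hε)).mono fun n hn => ?_
  rw [dist_eq_norm]
  exact (hn p ⟨neg_abs_le _, le_abs_self _⟩).trans_lt (half_lt_self hε)

theorem fd_le_AA {f : Pl → F} {I : Set ℝ} {ε : ℝ} (hf : ContDiff ℝ ∞ f) (h : Cn 1 f I ε) {p : Pl}
    (hp : p.1 ∈ I) : ‖fderiv ℝ f p‖ ≤ 2 * ε := by
  have := h.iteratedFDeriv_le hf hp
  rwa [norm_iteratedFDeriv_one, pow_one] at this

theorem aa0_AA [FiniteDimensional ℝ F] {f : ℕ → Pl → F} (hf : ∀ n, ContDiff ℝ ∞ (f n) ∧ Per (f n))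
    {A : ℝ} (h : ∀ n, Cn 1 (f n) univ A) : ∃ (φ : ℕ → ℕ) (g : Pl → F), StrictMono φ ∧ Per g ∧
      ∀ R ε : ℝ, 0 < ε → ∀ᶠ n in atTop, Cn 0 (f (φ n) - g) (Icc (-R) R) ε := by
  let S : Set C(Pl, F) := {u | LipschitzWith (2 * A).toNNReal u ∧ ∀ p, u p ∈ Metric.closedBall 0 A}
  have hS : IsCompact S := by
    refine ArzelaAscoli.isCompact_of_equicontinuous S ?_
      (LipschitzWith.uniformEquicontinuous _ (2 * A).toNNReal fun u => u.2.1).equicontinuous
    have e : ContinuousMap.toFun '' S = (univ.pi fun _ : Pl => Metric.closedBall (0 : F) A) ∩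
        {u : Pl → F | LipschitzWith (2 * A).toNNReal u} := by
      ext u
      exact ⟨fun ⟨v, hv, e⟩ => e ▸ ⟨fun p _ => hv.2 p, hv.1⟩,
        fun hu => ⟨⟨u, hu.2.continuous⟩, ⟨hu.2, fun p => hu.1 p trivial⟩, rfl⟩⟩
    rw [e]
    exact (isCompact_univ_pi fun _ => isCompact_closedBall _ _).inter_right
      (isClosed_setOfPred_lipschitzWith _)
  obtain ⟨g, -, φ, hφ, hg⟩ := hS.tendsto_subseq (x := fun n => ⟨f n, (hf n).1.continuous⟩)
    fun n => ⟨lipschitzWith_of_nnnorm_fderiv_le (𝕜 := ℝ) (f := f n)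
      ((hf n).1.differentiable (by simp)) fun p =>
      NNReal.coe_le_coe.1 ((fd_le_AA (hf n).1 (h n) (mem_univ p.1)).trans
        (Real.le_coe_toNNReal _)), fun p =>
          mem_closedBall_zero_iff.2 ((h n).1 p trivial)⟩
  rw [ContinuousMap.tendsto_iff_forall_isCompact_tendstoUniformlyOn] at hg
  have hp : Per g := fun s t => by
    refine tendsto_nhds_unique ((hg _ isCompact_singleton).tendsto_at (mem_singleton (s, t + 1)))
      (((hg _ isCompact_singleton).tendsto_at (mem_singleton (s, t))).congr fun n => ?_)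
    exact ((hf (φ n)).2 s t).symm
  refine ⟨φ, g, hφ, hp, fun R ε hε => ?_⟩
  filter_upwards [Metric.tendstoUniformlyOn_iff.1
    (hg _ ((isCompact_Icc (a := -R) (b := R)).prod (isCompact_Icc (a := (0 : ℝ)) (b := 1)))) ε hε]
    with n hn p hp'
  have h1 := hn (p.1, Int.fract p.2) ⟨hp', Int.fract_nonneg _, (Int.fract_lt_one _).le⟩
  have e : p = (p.1, Int.fract p.2 + ⌊p.2⌋) := by rw [Int.fract_add_floor]
  rw [Pi.sub_apply, e, (hf (φ n)).2.int, hp.int, ← dist_eq_norm, dist_comm]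
  exact h1.le

theorem step_AA [FiniteDimensional ℝ F] {f : ℕ → Pl → F} {g : Pl → F}
    (hf : ∀ n, ContDiff ℝ ∞ (f n)) {A : ℝ} (h : ∀ n, Cn 2 (f n) univ A)
    (e : ∀ R ε : ℝ, 0 < ε → ∀ᶠ n in atTop, Cn 0 (f n - g) (Icc (-R) R) ε) :
    Differentiable ℝ g ∧ ∀ v : Pl, ‖v‖ ≤ 1 → ∀ R ε : ℝ, 0 < ε → ∀ᶠ n in atTop,
      Cn 0 ((fun p => fderiv ℝ (f n) p v) - fun p => fderiv ℝ g p v) (Icc (-R) R) ε := by
  have := FiniteDimensional.complete ℝ F
  have hd := fun n => (hf n).differentiable (by simp)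
  have c : ∀ R ε : ℝ, 0 < ε → ∃ M, ∀ n ≥ M, ∀ m ≥ M, ∀ p : Pl, p.1 ∈ Icc (-R) R →
      ‖fderiv ℝ (f n) p - fderiv ℝ (f m) p‖ ≤ ε := by
    intro R ε hε
    obtain ⟨δ, hδ, H⟩ := cn_interp (F := F) 1 (A + A) (half_pos hε)
    obtain ⟨M, hM⟩ := eventually_atTop.1 (e (R + 1) (δ / 2) (half_pos hδ))
    refine ⟨M, fun n hn m hm p hp => ?_⟩
    have c1 : ContDiff ℝ ∞ (f n - f m) := (hf n).sub (hf m)
    have h1 := fd_le_AA c1 (H _ (Icc (-R) R) c1 ((h n).sub (hf n) (hf m) (h m)) ?_) hp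
    · rw [fderiv_sub (hd n p) (hd m p)] at h1
      linarith only [h1]
    · rintro q ⟨s, hs, hq⟩
      have h2 := abs_le.1 hq
      have h3 : q.1 ∈ Icc (-(R + 1)) (R + 1) :=
        ⟨by linarith only [hs.1, h2.1], by linarith only [hs.2, h2.2]⟩
      have h4 := norm_sub_le_of_le (hM n hn q h3) (hM m hm q h3)
      rwa [Pi.sub_apply, Pi.sub_apply, sub_sub_sub_cancel_right, add_halves] at h4
  choose g' hg' using fun p : Pl => cauchySeq_tendsto_of_complete
    (u := fun n => fderiv ℝ (f n) p) (Metric.cauchySeq_iff.2 fun ε hε => by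
      obtain ⟨M, hM⟩ := c |p.1| (ε / 2) (half_pos hε)
      refine ⟨M, fun n hn m hm => ?_⟩
      rw [dist_eq_norm]
      exact (hM n hn m hm p ⟨neg_abs_le _, le_abs_self _⟩).trans_lt (half_lt_self hε))
  have c' : ∀ R ε : ℝ, 0 < ε → ∀ᶠ n in atTop, ∀ p : Pl, p.1 ∈ Icc (-R) R →
      ‖fderiv ℝ (f n) p - g' p‖ ≤ ε := by
    intro R ε hε
    obtain ⟨M, hM⟩ := c R ε hε
    filter_upwards [eventually_ge_atTop M] with n hn p hp
    exact le_of_tendsto ((hg' p).const_sub _).norm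
      ((eventually_ge_atTop M).mono fun m hm => hM n hn m hm p hp)
  have hg : ∀ p, HasFDerivAt g (g' p) p := fun p => by
    refine hasFDerivAt_of_tendstoUniformlyOn (l := atTop) (f := f) (f' := fun n => fderiv ℝ (f n))
      (s := Prod.fst ⁻¹' Ioo (-(|p.1| + 1)) (|p.1| + 1)) (isOpen_Ioo.preimage continuous_fst)
      (Metric.tendstoUniformlyOn_iff.2 fun ε hε => ?_) (fun n q _ => (hd n q).hasFDerivAt)
      (fun q _ => pt_AA e q)
      ⟨by linarith only [neg_abs_le p.1], by linarith only [le_abs_self p.1]⟩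
    refine (c' (|p.1| + 1) (ε / 2) (half_pos hε)).mono fun n hn q hq => ?_
    rw [dist_comm, dist_eq_norm]
    exact (hn q (Ioo_subset_Icc_self hq)).trans_lt (half_lt_self hε)
  refine ⟨fun p => (hg p).differentiableAt, fun v hv R ε hε => (c' R ε hε).mono fun n hn p hp => ?_⟩
  rw [Pi.sub_apply, (hg p).fderiv]
  exact ((fderiv ℝ (f n) p - g' p).le_opNorm v).trans
    ((mul_le_of_le_one_right (norm_nonneg _) hv).trans (hn p hp))

theorem smooth_AA [FiniteDimensional ℝ F] (k : ℕ) : ∀ (f : ℕ → Pl → F) (g : Pl → F),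
    (∀ n, ContDiff ℝ ∞ (f n)) → (∀ k, ∃ A, ∀ n, Cn k (f n) univ A) →
    (∀ R ε : ℝ, 0 < ε → ∀ᶠ n in atTop, Cn 0 (f n - g) (Icc (-R) R) ε) → ContDiff ℝ k g := by
  induction k with
  | zero => exact fun f g hf h e => contDiff_zero.2 (step_AA hf (h 2).choose_spec e).1.continuous
  | succ k ih =>
    intro f g hf h e
    obtain ⟨h1, h2⟩ := step_AA hf (h 2).choose_spec e
    have hs := ih (fun n => ds (f n)) (ds g) (fun n => contDiff_ds (hf n))
      (fun k => (h (k + 1)).imp fun A hA n => (hA n).2.1) (h2 (1, 0) (by simp [Prod.norm_def]))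
    have ht := ih (fun n => dt (f n)) (dt g) (fun n => contDiff_dt (hf n))
      (fun k => (h (k + 1)).imp fun A hA n => (hA n).2.2) (h2 (0, 1) (by simp [Prod.norm_def]))
    rw [Nat.cast_succ, contDiff_succ_iff_fderiv_apply]
    refine ⟨h1, by simp, fun v => ?_⟩
    simp only [fderiv_eq_ds_dt]
    exact (hs.const_smul v.1).add (ht.const_smul v.2)

theorem conv_AA [FiniteDimensional ℝ F] (k : ℕ) : ∀ (f : ℕ → Pl → F) (g : Pl → F),
    (∀ n, ContDiff ℝ ∞ (f n)) → ContDiff ℝ ∞ g → (∀ k, ∃ A, ∀ n, Cn k (f n) univ A) →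
    (∀ R ε : ℝ, 0 < ε → ∀ᶠ n in atTop, Cn 0 (f n - g) (Icc (-R) R) ε) →
    ∀ R ε : ℝ, 0 < ε → ∀ᶠ n in atTop, Cn k (f n - g) (Icc (-R) R) ε := by
  induction k with
  | zero => exact fun f g _ _ _ e => e
  | succ k ih =>
    intro f g hf hg h e R ε hε
    obtain ⟨-, h2⟩ := step_AA hf (h 2).choose_spec e
    have hs := ih (fun n => ds (f n)) (ds g) (fun n => contDiff_ds (hf n)) (contDiff_ds hg)
      (fun k => (h (k + 1)).imp fun A hA n => (hA n).2.1) (h2 (1, 0) (by simp [Prod.norm_def]))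
    have ht := ih (fun n => dt (f n)) (dt g) (fun n => contDiff_dt (hf n)) (contDiff_dt hg)
      (fun k => (h (k + 1)).imp fun A hA n => (hA n).2.2) (h2 (0, 1) (by simp [Prod.norm_def]))
    filter_upwards [e R ε hε, hs R ε hε, ht R ε hε] with n a b c
    rw [cn_succ, ds_sub_JetC (hf n) hg, dt_sub_JetC (hf n) hg]
    exact ⟨a, b, c⟩

theorem aa [FiniteDimensional ℝ F] {f : ℕ → Pl → F} (hf : ∀ n, ContDiff ℝ ∞ (f n) ∧ Per (f n))
    (h : ∀ k, ∃ A, ∀ n, Cn k (f n) univ A) :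
    ∃ (φ : ℕ → ℕ) (g : Pl → F), StrictMono φ ∧ Bdd g ∧ Per g ∧ LocC atTop (fun n => f (φ n)) g := by
  obtain ⟨φ, g, hφ, hp, e⟩ := aa0_AA hf (h 1).choose_spec
  have h1 := fun n => (hf (φ n)).1
  have h2 := fun k => (h k).imp fun A hA n => hA (φ n)
  have hg : ContDiff ℝ ∞ g := contDiff_infty.2 fun k => smooth_AA k _ g h1 h2 e
  have hl : LocC atTop (fun n => f (φ n)) g := fun k => conv_AA k _ g h1 hg h2 e
  exact ⟨φ, g, hφ, bdd_iff.2 ⟨hg, fun k => (h2 k).imp fun A hA => cn_lim_AA hl h1 hg fun s _ =>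
    Eventually.of_forall fun n => (hA n).mono le_rfl (subset_univ _) le_rfl⟩, hp, hl⟩

theorem LocC.tendsto {f : N → Pl → F} {g : Pl → F} (h : LocC l f g) (p : Pl) :
    Tendsto (fun n => f n p) l (𝓝 (g p)) := pt_AA (h 0) p

theorem LocC.comp_tendsto {N' : Type} {l' : Filter N'} {φ : N' → N} {f : N → Pl → F} {g : Pl → F}
    (h : LocC l f g) (e : Tendsto φ l' l) : LocC l' (fun n => f (φ n)) g := fun k R ε hε =>
  e.eventually (h k R ε hε)

theorem LocC.ds {f : N → Pl → F} {g : Pl → F} (h : LocC l f g) (hf : ∀ n, ContDiff ℝ ∞ (f n))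
    (hg : ContDiff ℝ ∞ g) : LocC l (fun n => ds (f n)) (ds g) := fun k R ε hε =>
  (h (k + 1) R ε hε).mono fun n hn => by
    have := hn.2.1
    rwa [ds_sub_JetC (hf n) hg] at this

theorem LocC.dt {f : N → Pl → F} {g : Pl → F} (h : LocC l f g) (hf : ∀ n, ContDiff ℝ ∞ (f n))
    (hg : ContDiff ℝ ∞ g) : LocC l (fun n => dt (f n)) (dt g) := fun k R ε hε =>
  (h (k + 1) R ε hε).mono fun n hn => by
    have := hn.2.2
    rwa [dt_sub_JetC (hf n) hg] at this

theorem LocC.prod {f : N → Pl → F} {g : Pl → F} {f' : N → Pl → F₁} {g' : Pl → F₁} (h : LocC l f g)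
    (h' : LocC l f' g') (hf : ∀ n, ContDiff ℝ ∞ (f n)) (hg : ContDiff ℝ ∞ g)
    (hf' : ∀ n, ContDiff ℝ ∞ (f' n)) (hg' : ContDiff ℝ ∞ g') :
    LocC l (fun n p => (f n p, f' n p)) fun p => (g p, g' p) := fun k R ε hε =>
  ((h k R ε hε).and (h' k R ε hε)).mono fun n hn =>
    Cn.prod (f := f n - g) (g := f' n - g') ((hf n).sub hg) ((hf' n).sub hg') hn.1 hn.2

theorem LocC.comp {f : N → Pl → C} {g : Pl → C} (h : LocC l f g) (hf : ∀ n, ContDiff ℝ ∞ (f n))
    (hg : Bdd g) {G : ℝ → C → F} (hG : SP G) :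
    LocC l (fun n p => G p.2 (f n p)) fun p => G p.2 (g p) := by
  intro k R ε hε
  obtain ⟨A, hA⟩ := (bdd_iff.1 hg).2 k
  obtain ⟨L, hL, H⟩ := cn_comp_sub hG k (1 + A)
  refine (h k R (min 1 (ε / (L + 1))) (by positivity)).mono fun n hn => ?_
  have h0 := Cn.add (f := f n - g) ((hf n).sub hg.1) hg.1
    (hn.mono le_rfl subset_rfl (min_le_left _ _)) (hA.mono le_rfl (subset_univ _) le_rfl)
  rw [sub_add_cancel] at h0
  refine (H (f n) g (Icc (-R) R) (ε / (L + 1)) (hf n) hg.1 h0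
    (hA.mono le_rfl (subset_univ _) (by linarith only []))
    (hn.mono le_rfl subset_rfl (min_le_right _ _))).mono le_rfl subset_rfl ?_
  rw [← mul_div_assoc, div_le_iff₀ (by positivity)]
  nlinarith only [hε]

theorem LocC.cn [l.NeBot] {f : N → Pl → F} {g : Pl → F} (h : LocC l f g)
    (hf : ∀ n, ContDiff ℝ ∞ (f n)) (hg : ContDiff ℝ ∞ g) {k : ℕ} {I : Set ℝ} {A : ℝ}
    (e : ∀ s ∈ I, ∀ᶠ n in l, Cn k (f n) {s} A) : Cn k g I A := cn_lim_AA h hf hg e

theorem LocC.nrm {f : N → Pl → F} {g : Pl → F} (h : LocC l f g) (k : ℕ) (a b : ℝ) :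
    Tendsto (fun n => nrm k (f n - g) (Icc a b)) l (𝓝 0) := by
  have t : Tendsto (fun δ : ℝ => ENNReal.ofReal (3 ^ k * δ ^ 2) * volume (Icc a b)) (𝓝[>] 0)
      (𝓝 0) := by
    have c : Continuous fun δ : ℝ => ENNReal.ofReal (3 ^ k * δ ^ 2) :=
      ENNReal.continuous_ofReal.comp (by fun_prop)
    have := ENNReal.Tendsto.mul_const (b := volume (Icc a b))
      ((c.tendsto' 0 0 (by simp)).mono_left (nhdsWithin_le_nhds (s := Ioi 0)))
      (Or.inr measure_Icc_lt_top.ne)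
    rwa [zero_mul] at this
  refine ENNReal.tendsto_nhds_zero.2 fun ε hε => ?_
  obtain ⟨δ, h1, h2⟩ := ((ENNReal.tendsto_nhds_zero.1 t ε hε).and self_mem_nhdsWithin).exists
  refine (h k (max |a| |b|) δ h2).mono fun n hn => (Cn.nrm_le measurableSet_Icc
    (hn.mono le_rfl (Icc_subset_Icc ?_ ?_) le_rfl)).trans h1
  · exact (neg_le_neg (le_max_left _ _)).trans (neg_abs_le a)
  · exact (le_abs_self b).trans (le_max_right _ _)

theorem LocC.nrm_le [l.NeBot] {f : N → Pl → F} {g : Pl → F} (h : LocC l f g)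
    (hf : ∀ n, ContDiff ℝ ∞ (f n)) (hg : ContDiff ℝ ∞ g) {k : ℕ} {a b : ℝ} {e : ℝ≥0∞}
    (he : ∀ᶠ n in l, FH.nrm k (f n) (Icc a b) ≤ e) : FH.nrm k g (Icc a b) ≤ 2 * e := by
  have t := (ENNReal.Tendsto.const_mul (a := 2) (h.nrm k a b) (Or.inr (by simp))).const_add (2 * e)
  rw [mul_zero, add_zero] at t
  refine ge_of_tendsto t (he.mono fun n hn => ?_)
  have := nrm_sub_le k (f := f n) (g := f n - g) (hf n) ((hf n).sub hg) (Icc a b)
  rw [sub_sub_cancel] at this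
  exact this.trans (add_le_add (mul_le_mul_right hn _) le_rfl)

theorem LocC.nrm_supp {f : N → Pl → F} {g : Pl → F} (h : LocC l f g) (k : ℕ) {R : ℝ}
    (e : ∀ᶠ n in l, ∀ p : Pl, R ≤ |p.1| → f n p = g p) :
    Tendsto (fun n => FH.nrm k (f n - g) univ) l (𝓝 0) := by
  refine (h.nrm k (-R) R).congr' (e.mono fun n hn =>
    (nrm_eq_of_supp k isClosed_Icc fun p hp => ?_).symm)
  exact sub_eq_zero.2 (hn p (not_lt.1 fun h => hp ⟨(abs_lt.1 h).1.le, (abs_lt.1 h).2.le⟩))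

theorem LocC.cr [l.NeBot] [FiniteDimensional ℝ F] {J : ℝ → F → F →L[ℝ] F} (hJ : SP J)
    {𝕏 : ℝ → C × F → F} (hX : SP 𝕏) {κ : N → Pl → C} {κ' : Pl → C} {u : N → Pl → F} {g : Pl → F}
    (hκ : ∀ p, Tendsto (fun n => κ n p) l (𝓝 (κ' p))) (h : LocC l u g)
    (hu : ∀ n, ContDiff ℝ ∞ (u n)) (hg : ContDiff ℝ ∞ g) (p : Pl)
    (e : ∀ᶠ n in l, FH.cr J (ctl 𝕏 (κ n)) (u n) p = 0) : FH.cr J (ctl 𝕏 κ') g p = 0 := by
  have c : Continuous fun q : (F × F) × C × F =>
      q.1.1 + J p.2 q.2.2 (q.1.2 - 𝕏 p.2 q.2) :=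
    continuous_fst.fst.add ((hJ.1.continuous.comp (continuous_const.prodMk
      continuous_snd.snd)).clm_apply (continuous_fst.snd.sub
        (hX.1.continuous.comp (continuous_const.prodMk continuous_snd))))
  exact tendsto_nhds_unique ((c.tendsto _).comp ((((h.ds hu hg).tendsto p).prodMk_nhds
    ((h.dt hu hg).tendsto p)).prodMk_nhds ((hκ p).prodMk_nhds (h.tendsto p))))
      (tendsto_const_nhds.congr' (e.mono fun n hn => hn.symm))

end

end Pool.Agent.P.MP_de3acd_gt.FH
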