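import Pool.Agent.P.MP_de3acd_gt.FH.Defs6

/-! A Lipschitz function that stays near a discrete set outside a set of bounded measure is bounded.
Sketch: the interval between f₀ and f s (open at f₀) lies in the range of f (intermediate value theorem, IsPreconnected.intermediate_value_Iii or so), hence in
f '' S ∪ N, N the δ-neighbourhood of T + Z1. volume (f '' S) ≤ A * volume S (LipschitzWith.hausdorffMeasure_image_le, hausdorffMeasure_real). An interval of length ℓ meets
at most ℓ / (2 π) + 2 of the intervals around a + Z1; with δ = 1 / (card T + 1) the measure of N in it is at most ℓ / π + 4. -/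

open Set Filter Topology MeasureTheory
open scoped ContDiff NNReal ENNReal RealInnerProductSpace

namespace Pool.Agent.P.MP_de3acd_gt.FH

noncomputable section

theorem cover_Chain (T : Finset ℝ) {δ : ℝ} (h1 : δ ≤ 1) (x : ℝ) (M : ℕ) :
    volume (Ioo x (x + 2 * Real.pi * M) ∩ {t | ∃ a ∈ T, ∃ l ∈ Z1, |t - a - l| ≤ δ}) ≤
      (T.card : ℝ≥0∞) * ((M + 2 : ℕ) * ENNReal.ofReal (2 * δ)) := by
  have hπ : 3 < Real.pi := Real.pi_gt_three
  have hsub : Ioo x (x + 2 * Real.pi * M) ∩ {t | ∃ a ∈ T, ∃ l ∈ Z1, |t - a - l| ≤ δ} ⊆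
      ⋃ a ∈ T, ⋃ k ∈ Finset.range (M + 2),
        Metric.closedBall (a + 2 * Real.pi * ((⌊(x - a) / (2 * Real.pi)⌋ : ℤ) + (k : ℝ))) δ := by
    rintro t ⟨⟨ht1, ht2⟩, a, ha, l, hl, h⟩
    obtain ⟨j, rfl⟩ := AddSubgroup.mem_zmultiples_iff.1 hl
    rw [zsmul_eq_mul] at h
    have f1 := Int.floor_le ((x - a) / (2 * Real.pi))
    have f2 := Int.lt_floor_add_one ((x - a) / (2 * Real.pi))
    refine mem_iUnion₂.2 ⟨a, ha, ?_⟩
    generalize ⌊(x - a) / (2 * Real.pi)⌋ = k0 at f1 f2 ⊢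
    rw [le_div_iff₀ (by positivity)] at f1
    rw [div_lt_iff₀ (by positivity)] at f2
    obtain ⟨h2, h3⟩ := abs_le.1 h
    have g1 : (k0 : ℝ) - 1 < j := by
      refine lt_of_mul_lt_mul_right ?_ (by positivity : 0 ≤ 2 * Real.pi)
      linarith
    have g2 : (j : ℝ) < k0 + M + 2 := by
      refine lt_of_mul_lt_mul_right ?_ (by positivity : 0 ≤ 2 * Real.pi)
      linarith
    have g3 : k0 - 1 < j := by exact_mod_cast g1
    have g4 : j < k0 + M + 2 := by exact_mod_cast g2
    obtain ⟨k, rfl⟩ : ∃ k : ℕ, j = k0 + k := ⟨(j - k0).toNat, by omega⟩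
    refine mem_iUnion₂.2 ⟨k, Finset.mem_range.2 (by omega), ?_⟩
    rw [Metric.mem_closedBall, Real.dist_eq, abs_le]
    push_cast at h2 h3
    exact ⟨by linarith, by linarith⟩
  refine (measure_mono hsub).trans ((measure_biUnion_finset_le _ _).trans ?_)
  rw [← nsmul_eq_mul]
  refine Finset.sum_le_card_nsmul _ _ _ (fun a _ => (measure_biUnion_finset_le _ _).trans ?_)
  simp only [Real.volume_closedBall, Finset.sum_const, Finset.card_range, nsmul_eq_mul, le_refl]

theorem chain (T : Finset ℝ) : ∃ δ > 0, ∀ A L : ℝ≥0, ∃ D, ∀ (f : ℝ → ℝ) (S : Set ℝ) (f₀ : ℝ),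
    LipschitzWith A f → volume S ≤ L → (∀ s ∉ S, ∃ a ∈ T, ∃ l ∈ Z1, |f s - a - l| ≤ δ) →
      Tendsto f atBot (𝓝 f₀) → ∀ s, |f s - f₀| ≤ D := by
  have hπ : 3 < Real.pi := Real.pi_gt_three
  have hc : (0 : ℝ) < T.card + 1 := by positivity
  refine ⟨1 / (T.card + 1), by positivity, fun A L => ?_⟩
  obtain ⟨M, hM⟩ := exists_nat_gt ((A : ℝ) * L + 4)
  refine ⟨2 * Real.pi * M, fun f S f₀ hf hS hN h0 s => ?_⟩
  have hδ : 1 / ((T.card : ℝ) + 1) ≤ 1 := by
    rw [div_le_one hc]
    linarith [Nat.cast_nonneg (α := ℝ) T.card]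
  have key : ∀ x, ¬ Ioo x (x + 2 * Real.pi * M) ⊆ range f := by
    intro x hx
    have h1 : Ioo x (x + 2 * Real.pi * M) ⊆ f '' S ∪ (Ioo x (x + 2 * Real.pi * M) ∩
        {t | ∃ a ∈ T, ∃ l ∈ Z1, |t - a - l| ≤ 1 / ((T.card : ℝ) + 1)}) := by
      intro t ht
      obtain ⟨r, rfl⟩ := hx ht
      by_cases hr : r ∈ S
      · exact Or.inl ⟨r, hr, rfl⟩
      · exact Or.inr ⟨ht, hN r hr⟩
    have h2 : volume (f '' S) ≤ (A : ℝ≥0∞) * L := by
      have := hf.hausdorffMeasure_image_le zero_le_one S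
      rw [hausdorffMeasure_real, ENNReal.rpow_one] at this
      exact this.trans (mul_le_mul_right hS _)
    have h3 := (measure_mono h1).trans ((measure_union_le _ _).trans
      (add_le_add h2 (cover_Chain T hδ x M)))
    rw [Real.volume_Ioo, add_sub_cancel_left] at h3
    have h4 := ENNReal.toReal_mono (by finiteness) h3
    rw [ENNReal.toReal_ofReal (by positivity), ENNReal.toReal_add (by finiteness) (by finiteness),
      ENNReal.toReal_mul, ENNReal.toReal_mul, ENNReal.toReal_mul,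
      ENNReal.toReal_ofReal (by positivity), ENNReal.coe_toReal, ENNReal.coe_toReal,
      ENNReal.toReal_natCast, ENNReal.toReal_natCast] at h4
    have h5 : (T.card : ℝ) * (1 / ((T.card : ℝ) + 1)) ≤ 1 := by
      rw [mul_one_div, div_le_one hc]
      linarith
    have h6 : (0 : ℝ) ≤ M := Nat.cast_nonneg M
    push_cast at h4
    nlinarith
  by_contra hD
  rcases lt_abs.1 (not_le.1 hD) with h | h
  · refine key f₀ (fun t ht => ?_)
    obtain ⟨r, hr⟩ := (h0.eventually (gt_mem_nhds ht.1)).exists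
    exact intermediate_value_univ r s hf.continuous ⟨hr.le, by linarith [ht.2]⟩
  · refine key (f s) (fun t ht => ?_)
    obtain ⟨r, hr⟩ := (h0.eventually (lt_mem_nhds (by linarith [ht.2] : t < f₀))).exists
    exact intermediate_value_univ s r hf.continuous ⟨ht.1.le, hr.le⟩

end

end Pool.Agent.P.MP_de3acd_gt.FH
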