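import Pool.Agent.P.MP_de3acd_gt.FH.JetC

/-! Cut-off functions.
Sketch: smoothTransition is smooth, constant on Iic 0 and Ici 1, so all its derivatives are bounded
(bdd_of_ends for p ↦ smoothTransition p.1). stp a L p = g ((p.1 - a) / L); by induction on k, for L ≥ 1 and every
smooth g with bounded derivatives, Cn k of p ↦ g ((p.1 - a) / L) is bounded by the maximum of the sup norms,
because ds of it is L⁻¹ • g' ((p.1 - a) / L) and dt is 0. -/

open Set Filter Topology MeasureTheory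
open scoped ContDiff NNReal ENNReal RealInnerProductSpace

namespace Pool.Agent.P.MP_de3acd_gt.FH

noncomputable section

private theorem st_smooth : ContDiff ℝ ∞ Real.smoothTransition := Real.smoothTransition.contDiff

private theorem aff_smooth {g : ℝ → ℝ} (hg : ContDiff ℝ ∞ g) (a L : ℝ) :
    ContDiff ℝ ∞ fun p : Pl => g ((p.1 - a) / L) :=
  hg.comp ((contDiff_fst.sub contDiff_const).div_const L)

private theorem ds_aff {g : ℝ → ℝ} (hg : ContDiff ℝ ∞ g) (a L : ℝ) :
    ds (fun p : Pl => g ((p.1 - a) / L)) = fun p : Pl => L⁻¹ * deriv g ((p.1 - a) / L) :=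
  funext fun p => by
    have h1 := hasDerivAt_ds (s := p.1) (t := p.2)
      ((aff_smooth hg a L).differentiable (by simp) (p.1, p.2))
    have h2 : HasDerivAt (fun s : ℝ => (s - a) / L) (1 / L) p.1 :=
      ((hasDerivAt_id p.1).sub_const a).div_const L
    have h3 := ((hg.differentiable (by simp) ((p.1 - a) / L)).hasDerivAt).comp p.1 h2
    rw [h1.unique h3]
    ring

private theorem dt_aff {g : ℝ → ℝ} (hg : ContDiff ℝ ∞ g) (a L : ℝ) :
    dt (fun p : Pl => g ((p.1 - a) / L)) = fun _ => 0 :=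
  funext fun p => (hasDerivAt_dt (s := p.1) (t := p.2)
    ((aff_smooth hg a L).differentiable (by simp) (p.1, p.2))).unique
      (hasDerivAt_const p.2 (g ((p.1 - a) / L)))

private theorem ds_fst {g : ℝ → ℝ} (hg : ContDiff ℝ ∞ g) :
    ds (fun p : Pl => g p.1) = fun p : Pl => deriv g p.1 := by
  simpa using ds_aff hg 0 1

private theorem cn_mul {k : ℕ} {f : Pl → ℝ} {A : ℝ} (c : ℝ) (hf : ContDiff ℝ ∞ f)
    (h : Cn k f univ A) : Cn k (fun p => c * f p) univ (|c| * A) := by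
  have h0 : 0 ≤ A := (norm_nonneg _).trans (h.le (p := 0) (mem_univ _))
  refine (Cn.clm (c • ContinuousLinearMap.id ℝ ℝ) hf h).up_JetC
    (mul_le_mul_of_nonneg_right ?_ h0)
  rw [norm_smul, Real.norm_eq_abs]
  exact mul_le_of_le_one_right (abs_nonneg c) ContinuousLinearMap.norm_id_le

private theorem cn_aff (a L M : ℝ) (hM : 1 ≤ M) (hL : |L⁻¹| ≤ M) (k : ℕ) :
    ∀ (g : ℝ → ℝ) (A : ℝ), ContDiff ℝ ∞ g → Cn k (fun p : Pl => g p.1) univ A →
      Cn k (fun p : Pl => g ((p.1 - a) / L)) univ (M ^ k * A) := by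
  induction k with
  | zero =>
    intro g A _ h p _
    rw [pow_zero, one_mul]
    exact h ((p.1 - a) / L, 0) (mem_univ _)
  | succ k ih =>
    intro g A hg h
    have h0 : 0 ≤ A := (norm_nonneg _).trans (h.le (p := 0) (mem_univ _))
    have hd : ContDiff ℝ ∞ (deriv g) := hg.deriv' (n := ∞)
    have hM0 : 0 ≤ M := zero_le_one.trans hM
    refine ⟨fun p _ => (h.1 ((p.1 - a) / L, 0) (mem_univ _)).trans
      (le_mul_of_one_le_left h0 (one_le_pow₀ hM)), ?_, ?_⟩
    · rw [ds_aff hg]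
      have h1 := h.2.1
      rw [ds_fst hg] at h1
      refine (cn_mul L⁻¹ (aff_smooth hd a L) (ih _ A hd h1)).up_JetC ?_
      rw [pow_succ', mul_assoc]
      exact mul_le_mul_of_nonneg_right hL (by positivity)
    · rw [dt_aff hg]
      exact (cn_const k (0 : ℝ) univ).up_JetC (by rw [norm_zero]; positivity)

private theorem bdd_st : Bdd fun p : Pl => Real.smoothTransition p.1 :=
  bdd_of_ends (st_smooth.comp contDiff_fst) (fun _ _ => rfl) (R := 1)
    (fun s _ hs => by
      simp only [Real.smoothTransition.one_of_one_le hs, Real.smoothTransition.one])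
    (fun s _ hs => by
      simp only [Real.smoothTransition.zero_of_nonpos (show s ≤ 0 by linarith),
        Real.smoothTransition.zero_of_nonpos (show (-1 : ℝ) ≤ 0 by norm_num)])

private theorem stp_smooth (a L : ℝ) : ContDiff ℝ ∞ (stp a L) := aff_smooth st_smooth a L

private theorem ds_stp (a L : ℝ) :
    ds (stp a L) = fun p : Pl => L⁻¹ * deriv Real.smoothTransition ((p.1 - a) / L) :=
  ds_aff st_smooth a L

private theorem plat_eq (a b L : ℝ) : plat a b L = fun p =>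
    ContinuousLinearMap.mul ℝ ℝ (stp (a - L) L p) (((fun _ => 1) - stp b L : Pl → ℝ) p) := rfl

private theorem ds_one_sub (b L : ℝ) :
    ds ((fun _ => 1) - stp b L : Pl → ℝ) = -ds (stp b L) := by
  rw [ds_sub_JetC contDiff_const (stp_smooth b L)]
  funext p
  simp [ds]

private theorem one_sub_smooth (b L : ℝ) : ContDiff ℝ ∞ ((fun _ => 1) - stp b L : Pl → ℝ) :=
  contDiff_const.sub (stp_smooth b L)

private theorem ds_plat (a b L : ℝ) : ds (plat a b L) =
    (fun p => ContinuousLinearMap.mul ℝ ℝ (ds (stp (a - L) L) p)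
      (((fun _ => 1) - stp b L : Pl → ℝ) p)) +
    fun p => ContinuousLinearMap.mul ℝ ℝ (stp (a - L) L p) ((-ds (stp b L)) p) := by
  funext p
  rw [plat_eq, ds_bil _ ((stp_smooth _ _).differentiable (by simp) p)
    ((one_sub_smooth b L).differentiable (by simp) p), ds_one_sub]
  rfl

theorem stp_mem (a L : ℝ) (p : Pl) : stp a L p ∈ Icc (0 : ℝ) 1 :=
  ⟨Real.smoothTransition.nonneg _, Real.smoothTransition.le_one _⟩

theorem plat_mem (a b L : ℝ) (p : Pl) : plat a b L p ∈ Icc (0 : ℝ) 1 := by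
  have h1 := stp_mem (a - L) L p
  have h2 := stp_mem b L p
  exact ⟨mul_nonneg h1.1 (sub_nonneg.2 h2.2),
    mul_le_one₀ h1.2 (sub_nonneg.2 h2.2) (sub_le_self _ h2.1)⟩

theorem stp_eq_zero {a L : ℝ} (hL : 0 < L) {p : Pl} (h : p.1 ≤ a) : stp a L p = 0 :=
  Real.smoothTransition.zero_of_nonpos (div_nonpos_of_nonpos_of_nonneg (sub_nonpos.2 h) hL.le)

theorem stp_eq_one {a L : ℝ} (hL : 0 < L) {p : Pl} (h : a + L ≤ p.1) : stp a L p = 1 :=
  Real.smoothTransition.one_of_one_le ((one_le_div hL).2 (by linarith))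

theorem plat_eq_one {a b L : ℝ} (hL : 0 < L) {p : Pl} (h : p.1 ∈ Icc a b) : plat a b L p = 1 := by
  rw [plat, stp_eq_one hL (by linarith [h.1]), stp_eq_zero hL h.2]
  norm_num

theorem plat_eq_zero {a b L : ℝ} (hL : 0 < L) {p : Pl} (h : p.1 ∉ Ioo (a - L) (b + L)) :
    plat a b L p = 0 := by
  rw [plat]
  by_cases h1 : p.1 ≤ a - L
  · rw [stp_eq_zero hL h1, zero_mul]
  · rw [stp_eq_one (a := b) hL (not_lt.1 fun h2 => h ⟨not_le.1 h1, h2⟩), sub_self, mul_zero]

theorem tsl_stp (a L : ℝ) (v : Pl) : tsl v (stp a L) = stp (a - v.1) L := funext fun p => by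
  simp only [tsl, stp, Prod.fst_add]
  congr 2
  ring

theorem tsl_plat (a b L : ℝ) (v : Pl) : tsl v (plat a b L) = plat (a - v.1) (b - v.1) L :=
  funext fun p => by
    have h1 := congrFun (tsl_stp (a - L) L v) p
    have h2 := congrFun (tsl_stp b L v) p
    simp only [tsl] at h1 h2
    simp only [tsl, plat, h1, h2, sub_right_comm a L v.1]

theorem bdd_stp (a L : ℝ) : Bdd (stp a L) :=
  bdd_iff.2 ⟨stp_smooth a L, fun k => by
    obtain ⟨A, -, hA⟩ := bdd_st.cn k
    exact ⟨_, cn_aff a L (max 1 |L⁻¹|) (le_max_left _ _) (le_max_right _ _) k _ A st_smooth hA⟩⟩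

theorem bdd_plat (a b L : ℝ) : Bdd (plat a b L) := by
  rw [plat_eq]
  exact (bdd_stp _ _).bil ((bdd_const (1 : ℝ)).sub (bdd_stp b L)) _

theorem plat_mem_Dsub (a b : ℝ) {L : ℝ} (hL : 0 < L) : plat a b L ∈ Dsub ℝ := by
  refine ⟨(bdd_plat a b L).1, per_plat a b L, |a - L| + |b + L|, fun p hp => ?_⟩
  refine plat_eq_zero hL fun h => ?_
  have h1 := neg_abs_le (a - L)
  have h2 := le_abs_self (b + L)
  have h3 := abs_nonneg (a - L)
  have h4 := abs_nonneg (b + L)
  exact absurd hp (not_le.2 (abs_lt.2 ⟨by linarith [h.1], by linarith [h.2]⟩))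

theorem dt_stp (a L : ℝ) : dt (stp a L) = 0 := dt_aff st_smooth a L

theorem dt_plat (a b L : ℝ) : dt (plat a b L) = 0 :=
  funext fun p => (hasDerivAt_dt (s := p.1) (t := p.2)
    ((bdd_plat a b L).1.differentiable (by simp) (p.1, p.2))).unique
      (hasDerivAt_const p.2 (plat a b L p))

theorem ds_stp_nonneg (a : ℝ) {L : ℝ} (hL : 0 < L) (p : Pl) : 0 ≤ ds (stp a L) p := by
  rw [ds_stp]
  exact mul_nonneg (inv_nonneg.2 hL.le) Real.smoothTransition.monotone.deriv_nonneg

theorem ds_stp_eq_zero {a L : ℝ} (hL : 0 < L) {p : Pl} (h : p.1 ∉ Ioo a (a + L)) :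
    ds (stp a L) p = 0 := by
  rw [ds_stp]
  refine mul_eq_zero_of_right _ ?_
  by_cases h1 : p.1 ≤ a
  · refine IsLocalMin.deriv_eq_zero (Eventually.of_forall fun x => ?_)
    exact (stp_eq_zero hL h1).trans_le (Real.smoothTransition.nonneg x)
  · refine IsLocalMax.deriv_eq_zero (Eventually.of_forall fun x => ?_)
    exact (Real.smoothTransition.le_one x).trans_eq
      (stp_eq_one hL (not_lt.1 fun h2 => h ⟨not_le.1 h1, h2⟩)).symm

theorem ds_plat_eq_zero {a b L : ℝ} (hL : 0 < L) (hab : a ≤ b) {p : Pl}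
    (h : p.1 ∉ Ioo (a - L) a) (h' : p.1 ∉ Ioo b (b + L)) : ds (plat a b L) p = 0 := by
  have h1 : ds (stp (a - L) L) p = 0 := ds_stp_eq_zero hL (by rwa [sub_add_cancel])
  have h2 : ds (stp b L) p = 0 := ds_stp_eq_zero hL h'
  rw [ds_plat]
  simp [h1, h2]

theorem cn_stp (k : ℕ) : ∃ A, 1 ≤ A ∧ ∀ a L : ℝ, 1 ≤ L → Cn k (stp a L) univ A ∧
    Cn k (ds (stp a L)) univ (A / L) := by
  obtain ⟨A, h0, hA⟩ := bdd_st.cn (k + 1)
  refine ⟨max 1 A, le_max_left _ _, fun a L hL => ?_⟩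
  have hL0 : 0 < L := one_pos.trans_le hL
  have hi : |L⁻¹| ≤ 1 := by
    rw [abs_of_pos (inv_pos.2 hL0)]
    exact inv_le_one_of_one_le₀ hL
  have hd : ContDiff ℝ ∞ (deriv Real.smoothTransition) := st_smooth.deriv' (n := ∞)
  constructor
  · refine (cn_aff a L 1 le_rfl hi k _ A st_smooth hA.pred_JetC).up_JetC ?_
    rw [one_pow, one_mul]
    exact le_max_right _ _
  · have h1 := hA.2.1
    rw [ds_fst st_smooth] at h1
    rw [ds_stp]
    refine (cn_mul L⁻¹ (aff_smooth hd a L) (cn_aff a L 1 le_rfl hi k _ A hd h1)).up_JetC ?_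
    rw [one_pow, one_mul, abs_of_pos (inv_pos.2 hL0), div_eq_inv_mul]
    exact mul_le_mul_of_nonneg_left (le_max_right _ _) (inv_pos.2 hL0).le

theorem cn_plat (k : ℕ) : ∃ A, 1 ≤ A ∧ ∀ a b L : ℝ, 1 ≤ L → Cn k (plat a b L) univ A ∧
    Cn k (ds (plat a b L)) univ (A / L) := by
  obtain ⟨A, h1, hA⟩ := cn_stp k
  set B := ContinuousLinearMap.mul ℝ ℝ with hB
  have h0 : 0 ≤ A := zero_le_one.trans h1
  refine ⟨max 1 (2 ^ k * ‖B‖ * A * (1 + A) + 2 ^ k * ‖B‖ * A * A), le_max_left _ _,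
    fun a b L hL => ?_⟩
  have hL0 : 0 < L := one_pos.trans_le hL
  have k1 : Cn k ((fun _ => 1) - stp b L : Pl → ℝ) univ (1 + A) := by
    simpa using Cn.sub contDiff_const (stp_smooth b L) (cn_const k (1 : ℝ) univ) (hA b L hL).1
  constructor
  · rw [plat_eq]
    refine (Cn.bil B (stp_smooth _ _) (one_sub_smooth b L) (hA (a - L) L hL).1 k1).up_JetC
      (le_max_of_le_right (le_add_of_nonneg_right ?_))
    positivity
  · rw [ds_plat]
    have s1 := contDiff_ds (stp_smooth (a - L) L)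
    have s2 : ContDiff ℝ ∞ (-ds (stp b L)) := (contDiff_ds (stp_smooth b L)).neg
    refine (Cn.add (contDiff_bil_JetC B s1 (one_sub_smooth b L))
      (contDiff_bil_JetC B (stp_smooth _ _) s2)
      (Cn.bil B s1 (one_sub_smooth b L) (hA (a - L) L hL).2 k1)
      (Cn.bil B (stp_smooth _ _) s2 (hA (a - L) L hL).1 (hA b L hL).2.neg)).up_JetC ?_
    refine le_trans (le_of_eq ?_) (div_le_div_of_nonneg_right (le_max_right _ _) hL0.le)
    ring

/-- A bounded function that is the identity on `[-R, R]` and keeps the ends. -/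
theorem exists_clamp {R : ℝ} (hR : 0 ≤ R) : ∃ ρ : ℝ → ℝ, Bdd (fun p : Pl => ρ p.1) ∧ (∀ s, |s| ≤ R → ρ s = s) ∧
    (∀ s, R ≤ s → R ≤ ρ s) ∧ (∀ s, s ≤ -R → ρ s ≤ -R) ∧ (∀ s, R + 1 ≤ s → ρ s = R + 1) ∧
      ∀ s, s ≤ -(R + 1) → ρ s = -(R + 1) := by
  let ρ : ℝ → ℝ := fun s => s + Real.smoothTransition (s - R) * (R + 1 - s) +
    Real.smoothTransition (-s - R) * (-(R + 1) - s)
  have e1 : ∀ s, -R ≤ s → ρ s = s + Real.smoothTransition (s - R) * (R + 1 - s) := fun s hs => by
    simp only [ρ, Real.smoothTransition.zero_of_nonpos (show -s - R ≤ 0 by linarith), zero_mul,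
      add_zero]
  have e2 : ∀ s, s ≤ R → ρ s = s + Real.smoothTransition (-s - R) * (-(R + 1) - s) :=
    fun s hs => by
      simp only [ρ, Real.smoothTransition.zero_of_nonpos (show s - R ≤ 0 by linarith), zero_mul,
        add_zero]
  have e3 : ∀ s, R + 1 ≤ s → ρ s = R + 1 := fun s hs => by
    rw [e1 s (by linarith), Real.smoothTransition.one_of_one_le (by linarith)]
    ring
  have e4 : ∀ s, s ≤ -(R + 1) → ρ s = -(R + 1) := fun s hs => by
    rw [e2 s (by linarith), Real.smoothTransition.one_of_one_le (by linarith)]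
    ring
  have hs : ContDiff ℝ ∞ ρ :=
    (contDiff_id.add ((st_smooth.comp (contDiff_id.sub contDiff_const)).mul
      (contDiff_const.sub contDiff_id))).add
      ((st_smooth.comp (contDiff_id.neg.sub contDiff_const)).mul (contDiff_const.sub contDiff_id))
  refine ⟨ρ, bdd_of_ends (hs.comp contDiff_fst) (fun _ _ => rfl) (R := R + 1)
    (fun s _ h => (e3 s h).trans (e3 _ le_rfl).symm)
    (fun s _ h => (e4 s h).trans (e4 _ le_rfl).symm), fun s h => ?_, fun s h => ?_,
    fun s h => ?_, e3, e4⟩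
  · rw [e1 s (abs_le.1 h).1,
      Real.smoothTransition.zero_of_nonpos (show s - R ≤ 0 by linarith [(abs_le.1 h).2])]
    ring
  · rw [e1 s (by linarith)]
    have a1 := Real.smoothTransition.nonneg (s - R)
    have a2 := Real.smoothTransition.le_one (s - R)
    nlinarith [mul_nonneg (sub_nonneg.2 a2) (sub_nonneg.2 h)]
  · rw [e2 s (by linarith)]
    have a1 := Real.smoothTransition.nonneg (-s - R)
    have a2 := Real.smoothTransition.le_one (-s - R)
    nlinarith [mul_nonneg (sub_nonneg.2 a2) (sub_nonneg.2 h)]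

theorem bdd_ref {F : Type} [NormedAddCommGroup F] [NormedSpace ℝ F] {x y : ℝ → F}
    (hx : ContDiff ℝ ∞ x) (hy : ContDiff ℝ ∞ y) (px : ∀ t, x (t + 1) = x t)
    (py : ∀ t, y (t + 1) = y t) : Bdd (ref x y) ∧ Per (ref x y) ∧
      (∀ p : Pl, p.1 ≤ 0 → ref x y p = x p.2) ∧ ∀ p : Pl, 1 ≤ p.1 → ref x y p = y p.2 := by
  have e1 : ∀ p : Pl, p.1 ≤ 0 → ref x y p = x p.2 := fun p hp => by
    rw [ref, Real.smoothTransition.zero_of_nonpos hp, zero_smul, add_zero]
  have e2 : ∀ p : Pl, 1 ≤ p.1 → ref x y p = y p.2 := fun p hp => by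
    rw [ref, Real.smoothTransition.one_of_one_le hp, one_smul, add_sub_cancel]
  have hp : Per (ref x y) := fun s t => by simp only [ref, px t, py t]
  have hs : ContDiff ℝ ∞ (ref x y) :=
    (hx.comp contDiff_snd).add ((st_smooth.comp contDiff_fst).smul
      ((hy.comp contDiff_snd).sub (hx.comp contDiff_snd)))
  refine ⟨bdd_of_ends hs hp (R := 1) (fun s t h => (e2 (s, t) h).trans (e2 (1, t) le_rfl).symm)
    (fun s t h => (e1 (s, t) (show s ≤ 0 by linarith)).trans
      (e1 (-1, t) (show (-1 : ℝ) ≤ 0 by norm_num)).symm), hp, e1, e2⟩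

end

end Pool.Agent.P.MP_de3acd_gt.FH
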