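import Pool.Agent.P.MP_de3acd_gt.FH.Ops

/-! Integration by parts and translation invariance on the strip.
Sketch: St = univ ×ˢ Icc 0 1, volume = prod, setIntegral_prod / integral_prod (integrableOn_St gives integrability).
ds f (s,t) is the derivative of s ↦ f (s,t); integral_eq_zero_of_hasDerivAt_of_integrable or intervalIntegral FTC.
For dt use integral_prod_symm order: inner integral over t in Icc 0 1 is f (s,1) - f (s,0) = 0 by Per.
Without completeness of G all integrals vanish (integral_of_not_completeSpace).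
ip_ds, ip_dt: apply the first two to p ↦ ⟪φ p, g p⟫.
Translation: lintegral_prod, translation invariance in s (lintegral_add_right_eq_self with indicator), and for a
one-periodic function of t the integral over Icc 0 1 of g (t + a) is that of g (AddCircle / IsAddFundamentalDomain
of Ioc, or Function.Periodic.intervalIntegral_add_eq; for lintegral cut Ioc a (a+1) by hand after reducing a mod 1).
integral_tsl: St and St + a are both fundamental domains of the action of zmultiples (0,1)
(IsAddFundamentalDomain.setIntegral_eq), or treat the integrable and the non integrable case separately. -/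

open Set Filter Topology MeasureTheory
open scoped ContDiff NNReal ENNReal RealInnerProductSpace

namespace Pool.Agent.P.MP_de3acd_gt.FH

noncomputable section

variable {F F₁ F₂ : Type} [NormedAddCommGroup F] [NormedSpace ℝ F] [NormedAddCommGroup F₁]
  [NormedSpace ℝ F₁] [NormedAddCommGroup F₂] [NormedSpace ℝ F₂]
variable {U U₁ U₂ : Type} [NormedAddCommGroup U] [InnerProductSpace ℝ U] [NormedAddCommGroup U₁]
  [InnerProductSpace ℝ U₁] [NormedAddCommGroup U₂] [InnerProductSpace ℝ U₂]

theorem line_Ibp {g g' : ℝ → F} (hd : ∀ x, HasDerivAt g (g' x) x) (hc : Continuous g') {R : ℝ}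
    (h : ∀ x, R ≤ |x| → g x = 0 ∧ g' x = 0) : ∫ x, g' x = 0 := by
  have k : ∀ x, x ∉ Icc (-R) R → R ≤ |x| := fun x hx => le_of_not_gt fun hlt =>
    hx ⟨(abs_lt.1 hlt).1.le, (abs_lt.1 hlt).2.le⟩
  refine integral_eq_zero_of_hasDerivAt_of_integrable hd ?_ ?_
  · exact hc.integrable_of_hasCompactSupport
      (HasCompactSupport.intro isCompact_Icc fun x hx => (h x (k x hx)).2)
  · exact (continuous_iff_continuousAt.2 fun x => (hd x).continuousAt).integrable_of_hasCompactSupport
      (HasCompactSupport.intro isCompact_Icc fun x hx => (h x (k x hx)).1)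

theorem cont_Ibp {f : Pl → F} (hf : ContDiff ℝ 1 f) (v : Pl) :
    Continuous fun p => fderiv ℝ f p v :=
  (hf.continuous_fderiv one_ne_zero).clm_apply continuous_const

theorem St_Ibp : (volume : Measure Pl).restrict St =
    (volume : Measure ℝ).prod (volume.restrict (Icc 0 1)) := by
  rw [St, Measure.volume_eq_prod, ← Measure.prod_restrict, Measure.restrict_univ]

theorem fd_Ibp (c : ℝ) : IsAddFundamentalDomain (AddSubgroup.zmultiples ((0, 1) : Pl))
    ((univ : Set ℝ) ×ˢ Ioc c (c + 1)) volume := by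
  refine IsAddFundamentalDomain.mk'
    (MeasurableSet.univ.prod measurableSet_Ioc).nullMeasurableSet fun x => ?_
  have hi : Function.Injective fun n : ℤ => n • ((0, 1) : Pl) := fun a b h => by
    simpa using congrArg Prod.snd h
  have : Function.Bijective (codRestrict (fun n : ℤ => n • ((0, 1) : Pl))
      (AddSubgroup.zmultiples ((0, 1) : Pl)) fun n => ⟨n, rfl⟩) :=
    (Equiv.ofInjective _ hi).bijective
  refine this.existsUnique_iff.2 ?_
  refine (existsUnique_congr fun m => ?_).1 (existsUnique_add_zsmul_mem_Ioc one_pos x.2 c)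
  change _ ↔ m • ((0, 1) : Pl) + x ∈ _
  rw [mem_prod, add_comm x.2]
  exact ⟨fun h => ⟨mem_univ _, h⟩, fun h => h.2⟩

theorem inv_Ibp {α : Type} {f : Pl → α} (hp : Per f)
    (g : AddSubgroup.zmultiples ((0, 1) : Pl)) (x : Pl) : f (g +ᵥ x) = f x := by
  obtain ⟨g, m, rfl⟩ := g
  change f (m • ((0, 1) : Pl) + x) = f (x.1, x.2)
  rw [← hp.int x.1 x.2 m]
  exact congrArg f (Prod.ext (by simp) (by simp [add_comm]))

theorem ioc_Ibp (I : Set ℝ) : (volume : Measure Pl).restrict (I ×ˢ Icc 0 1) =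
    volume.restrict (I ×ˢ Ioc 0 (0 + 1)) := by
  rw [zero_add, Measure.volume_eq_prod, ← Measure.prod_restrict, ← Measure.prod_restrict,
    Measure.restrict_congr_set (Ioc_ae_eq_Icc (μ := (volume : Measure ℝ)) (a := 0) (b := 1))]

theorem pre_Ibp (a : Pl) (I : Set ℝ) : ((fun s => s + a.1) ⁻¹' I) ×ˢ Ioc 0 (0 + 1) =
    (fun p : Pl => p + a) ⁻¹' (I ×ˢ Ioc a.2 (a.2 + 1)) := by
  ext p
  simp only [mem_prod, mem_preimage, mem_Ioc, Prod.fst_add, Prod.snd_add]
  exact and_congr_right fun _ => ⟨fun h => ⟨by linarith [h.1], by linarith [h.2]⟩,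
    fun h => ⟨by linarith [h.1], by linarith [h.2]⟩⟩

theorem St1_Ibp : (volume : Measure Pl).restrict St =
    volume.restrict ((univ : Set ℝ) ×ˢ Ioc 0 (0 + 1)) := ioc_Ibp univ

theorem St2_Ibp (a : Pl) : (volume : Measure Pl).restrict St =
    volume.restrict ((fun p : Pl => p + a) ⁻¹' ((univ : Set ℝ) ×ˢ Ioc a.2 (a.2 + 1))) := by
  rw [← pre_Ibp, preimage_univ, St1_Ibp]

theorem integral_ds_eq_zero {f : Pl → F} (hf : ContDiff ℝ 1 f) {R : ℝ}
    (h : ∀ p : Pl, R ≤ |p.1| → f p = 0) : ∫ p in St, ds f p = 0 := by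
  have hz : ∀ p : Pl, R + 1 ≤ |p.1| → ds f p = 0 := fun p hp => by
    simp [ds, fderiv_eq_zero_of_supp h p hp]
  have hi : IntegrableOn (ds f) St := integrableOn_St (cont_Ibp hf _) hz
  rw [IntegrableOn, St_Ibp] at hi
  rw [St_Ibp, integral_prod_symm _ hi]
  have : ∀ t, ∫ s, ds f (s, t) = 0 := fun t =>
    line_Ibp (g := fun s => f (s, t)) (R := R + 1)
      (fun s => hasDerivAt_ds (hf.differentiable one_ne_zero _))
      ((cont_Ibp hf _).comp (continuous_id.prodMk continuous_const))
      fun s hs => ⟨h _ (by dsimp only; linarith), hz _ hs⟩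
  simp only [this, integral_zero]

theorem integral_dt_eq_zero {f : Pl → F} (hf : ContDiff ℝ 1 f) (hp : Per f) {R : ℝ}
    (h : ∀ p : Pl, R ≤ |p.1| → f p = 0) : ∫ p in St, dt f p = 0 := by
  by_cases hE : CompleteSpace F
  swap
  · exact integral_of_not_completeSpace hE
  have hz : ∀ p : Pl, R + 1 ≤ |p.1| → dt f p = 0 := fun p hp => by
    simp [dt, fderiv_eq_zero_of_supp h p hp]
  have hi : IntegrableOn (dt f) St := integrableOn_St (cont_Ibp hf _) hz
  rw [IntegrableOn, St_Ibp] at hi
  rw [St_Ibp, integral_prod _ hi]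
  have : ∀ s, ∫ t in Icc (0 : ℝ) 1, dt f (s, t) = 0 := fun s => by
    rw [integral_Icc_eq_integral_Ioc, ← intervalIntegral.integral_of_le zero_le_one,
      intervalIntegral.integral_eq_sub_of_hasDerivAt (f := fun t => f (s, t))
        (fun t _ => hasDerivAt_dt (hf.differentiable one_ne_zero _))
        (((cont_Ibp hf _).comp (continuous_const.prodMk continuous_id)).intervalIntegrable _ _)]
    have := hp s 0
    rw [zero_add] at this
    rw [this, sub_self]
  simp only [this, integral_zero]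

theorem integral_ds_plane {f : Pl → F} (hf : ContDiff ℝ 1 f) (h : HasCompactSupport f) :
    ∫ p, ds f p = 0 := by
  have h' : HasCompactSupport (ds f) := h.fderiv_apply ℝ _
  obtain ⟨R, -, hR⟩ := h.exists_pos_le_norm
  obtain ⟨R', -, hR'⟩ := h'.exists_pos_le_norm
  have hi : Integrable (ds f) := (cont_Ibp hf _).integrable_of_hasCompactSupport h'
  rw [Measure.volume_eq_prod] at hi ⊢
  rw [integral_prod_symm _ hi]
  have : ∀ t, ∫ s, ds f (s, t) = 0 := fun t =>
    line_Ibp (g := fun s => f (s, t)) (R := max R R')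
      (fun s => hasDerivAt_ds (hf.differentiable one_ne_zero _))
      ((cont_Ibp hf _).comp (continuous_id.prodMk continuous_const))
      fun s hs => ⟨hR _ (((le_max_left _ _).trans hs).trans (norm_fst_le (s, t))),
        hR' _ (((le_max_right _ _).trans hs).trans (norm_fst_le (s, t)))⟩
  simp only [this, integral_zero]

theorem integral_dt_plane {f : Pl → F} (hf : ContDiff ℝ 1 f) (h : HasCompactSupport f) :
    ∫ p, dt f p = 0 := by
  have h' : HasCompactSupport (dt f) := h.fderiv_apply ℝ _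
  obtain ⟨R, -, hR⟩ := h.exists_pos_le_norm
  obtain ⟨R', -, hR'⟩ := h'.exists_pos_le_norm
  have hi : Integrable (dt f) := (cont_Ibp hf _).integrable_of_hasCompactSupport h'
  rw [Measure.volume_eq_prod] at hi ⊢
  rw [integral_prod _ hi]
  have : ∀ s, ∫ t, dt f (s, t) = 0 := fun s =>
    line_Ibp (g := fun t => f (s, t)) (R := max R R')
      (fun t => hasDerivAt_dt (hf.differentiable one_ne_zero _))
      ((cont_Ibp hf _).comp (continuous_const.prodMk continuous_id))
      fun t ht => ⟨hR _ (((le_max_left _ _).trans ht).trans (norm_snd_le (s, t))),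
        hR' _ (((le_max_right _ _).trans ht).trans (norm_snd_le (s, t)))⟩
  simp only [this, integral_zero]

theorem ip_ds {φ g : Pl → U} (hφ : φ ∈ Dsub U) (hg : ContDiff ℝ ∞ g) :
    ip 0 (ds φ) g = -ip 0 φ (ds g) := by
  obtain ⟨R, hR⟩ := hφ.2.2
  have h1 : ContDiff ℝ 1 fun p => ⟪φ p, g p⟫ :=
    (hφ.1.of_le (by exact_mod_cast le_top)).inner ℝ (hg.of_le (by exact_mod_cast le_top))
  have h2 := integral_ds_eq_zero h1 (R := R) fun p hp => by rw [hR p hp, inner_zero_left]
  have e : ∀ p, ds (fun p => ⟪φ p, g p⟫) p = ⟪ds φ p, g p⟫ + ⟪φ p, ds g p⟫ := fun p =>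
    ds_bil (innerSL ℝ) (hφ.1.differentiable (by simp) p) (hg.differentiable (by simp) p)
  simp only [e] at h2
  rw [integral_add (integrableOn_inner (ds_mem hφ) hg.continuous)
    (integrableOn_inner hφ (contDiff_ds hg).continuous)] at h2
  exact eq_neg_of_add_eq_zero_left h2

theorem ip_dt {φ g : Pl → U} (hφ : φ ∈ Dsub U) (hg : ContDiff ℝ ∞ g) (hp : Per g) :
    ip 0 (dt φ) g = -ip 0 φ (dt g) := by
  obtain ⟨R, hR⟩ := hφ.2.2
  have h1 : ContDiff ℝ 1 fun p => ⟪φ p, g p⟫ :=
    (hφ.1.of_le (by exact_mod_cast le_top)).inner ℝ (hg.of_le (by exact_mod_cast le_top))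
  have h2 := integral_dt_eq_zero h1 (fun s t => by rw [hφ.2.1 s t, hp s t]) (R := R)
    fun p hp => by rw [hR p hp, inner_zero_left]
  have e : ∀ p, dt (fun p => ⟪φ p, g p⟫) p = ⟪dt φ p, g p⟫ + ⟪φ p, dt g p⟫ := fun p =>
    dt_bil (innerSL ℝ) (hφ.1.differentiable (by simp) p) (hg.differentiable (by simp) p)
  simp only [e] at h2
  rw [integral_add (integrableOn_inner (dt_mem hφ) hg.continuous)
    (integrableOn_inner hφ (contDiff_dt hg).continuous)] at h2
  exact eq_neg_of_add_eq_zero_left h2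

theorem lintegral_tsl {f : Pl → ℝ≥0∞} (hf : Measurable f) (hp : Per f) (a : Pl) {I : Set ℝ}
    (hI : MeasurableSet I) : ∫⁻ p in ((fun s => s + a.1) ⁻¹' I) ×ˢ Icc 0 1, f (p + a) =
      ∫⁻ p in I ×ˢ Icc 0 1, f p := by
  have _ := hf
  rw [ioc_Ibp, ioc_Ibp, pre_Ibp, (measurePreserving_add_right volume a).setLIntegral_comp_preimage_emb
    (measurableEmbedding_addRight a) f]
  have hm : MeasurableSet (I ×ˢ (univ : Set ℝ)) := hI.prod MeasurableSet.univ
  have e : ∀ c : ℝ, ∫⁻ p in I ×ˢ Ioc c (c + 1), f p =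
      ∫⁻ p in (univ : Set ℝ) ×ˢ Ioc c (c + 1), (I ×ˢ (univ : Set ℝ)).indicator f p := fun c => by
    rw [lintegral_indicator hm, Measure.restrict_restrict hm, prod_inter_prod, inter_univ,
      univ_inter]
  have hp' : Per ((I ×ˢ (univ : Set ℝ)).indicator f) := fun s t => by
    by_cases hs : s ∈ I
    · rw [indicator_of_mem (show (s, t + 1) ∈ I ×ˢ (univ : Set ℝ) from ⟨hs, mem_univ _⟩),
        indicator_of_mem (show (s, t) ∈ I ×ˢ (univ : Set ℝ) from ⟨hs, mem_univ _⟩), hp s t]
    · rw [indicator_of_notMem (show (s, t + 1) ∉ I ×ˢ (univ : Set ℝ) from fun h => hs h.1),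
        indicator_of_notMem (show (s, t) ∉ I ×ˢ (univ : Set ℝ) from fun h => hs h.1)]
  rw [e, e]
  exact (fd_Ibp a.2).setLIntegral_eq (fd_Ibp 0) _ (inv_Ibp hp')

theorem integral_tsl {f : Pl → F} (hf : Continuous f) (hp : Per f) (a : Pl) :
    ∫ p in St, f (p + a) = ∫ p in St, f p := by
  have _ := hf
  conv_lhs => rw [St2_Ibp a]
  rw [(measurePreserving_add_right volume a).setIntegral_preimage_emb
    (measurableEmbedding_addRight a) f, St1_Ibp]
  exact (fd_Ibp a.2).setIntegral_eq (fd_Ibp 0) (inv_Ibp hp)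

theorem integrableOn_tsl {f : Pl → F} (hf : Continuous f) (hp : Per f) (a : Pl) :
    IntegrableOn (fun p => f (p + a)) St ↔ IntegrableOn f St := by
  have _ := hf
  have h1 := (measurePreserving_add_right volume a).integrableOn_comp_preimage
    (measurableEmbedding_addRight a) (f := f) (s := (univ : Set ℝ) ×ˢ Ioc a.2 (a.2 + 1))
  have h2 := (fd_Ibp a.2).integrableOn_iff (fd_Ibp 0) (inv_Ibp hp)
  unfold IntegrableOn at h1 h2 ⊢
  rw [← St2_Ibp] at h1
  rw [← St1_Ibp] at h2
  exact h1.trans h2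

/-- A continuous periodic function that is orthogonal to all test functions vanishes. -/
theorem eq_zero_of_ip {f : Pl → U} (hf : Continuous f) (hp : Per f)
    (h : ∀ ψ ∈ Dsub U, ip 0 f ψ = 0) : f = 0 := by
  funext q
  by_contra hq
  have hq' : f q ≠ 0 := hq
  obtain ⟨g, hg⟩ : ∃ g : Pl → ℝ, g = fun p => ⟪f p, f q⟫ := ⟨_, rfl⟩
  obtain ⟨G, hG⟩ : ∃ G : Pl → ℝ,
      G = fun p => (p.1 - q.1) ^ 2 + (1 - Real.cos (2 * Real.pi * (p.2 - q.2))) := ⟨_, rfl⟩
  have gc : Continuous g := by rw [hg]; exact hf.inner continuous_const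
  have gp : Per g := fun s t => by rw [hg]; dsimp only; rw [hp s t]
  have gq : 0 < g q := by rw [hg]; exact real_inner_self_pos.2 hq'
  have Gs : ContDiff ℝ ∞ G := by rw [hG]; fun_prop
  have Gp : Per G := fun s t => by
    rw [hG]
    dsimp only
    rw [show 2 * Real.pi * (t + 1 - q.2) = 2 * Real.pi * (t - q.2) + 2 * Real.pi by ring,
      Real.cos_add_two_pi]
  have G1 : ∀ p : Pl, (p.1 - q.1) ^ 2 ≤ G p := fun p => by
    rw [hG]
    dsimp only
    linarith [Real.cos_le_one (2 * Real.pi * (p.2 - q.2))]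
  have Gq : G q = 0 := by rw [hG]; simp
  have hK : IsCompact ((Icc (q.1 - 1) (q.1 + 1) ×ˢ Icc (q.2 - 1 / 2) (q.2 + 1 / 2)) ∩
      {p : Pl | g p ≤ 0}) :=
    (isCompact_Icc.prod isCompact_Icc).inter_right (isClosed_le gc continuous_const)
  obtain ⟨d, d0, hd⟩ := hK.exists_forall_le' Gs.continuous.continuousOn (a := 0) fun p hp => by
    refine lt_of_le_of_ne ((sq_nonneg _).trans (G1 p)) fun h0 => ?_
    have h1 : p.1 - q.1 = 0 := by
      have := G1 p
      rw [← h0] at this
      exact pow_eq_zero_iff two_ne_zero |>.1 (le_antisymm this (sq_nonneg _))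
    have h2 : Real.cos (2 * Real.pi * (p.2 - q.2)) = 1 := by
      rw [hG] at h0
      dsimp only at h0
      rw [h1] at h0
      linarith
    have h3 := hp.1.2
    have pi0 := Real.pi_pos
    rw [Real.cos_eq_one_iff_of_lt_of_lt (by nlinarith [h3.1]) (by nlinarith [h3.2])] at h2
    have h4 : p.2 - q.2 = 0 := (mul_eq_zero.1 h2).resolve_left (by positivity)
    have h5 : p = q := Prod.ext (sub_eq_zero.1 h1) (sub_eq_zero.1 h4)
    have h6 : g p ≤ 0 := hp.2
    rw [h5] at h6
    linarith
  have key : ∀ p : Pl, G p < min d 1 → 0 < g p := fun p hlt => by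
    by_contra hn
    have e1 := gp.int p.1 p.2 (-⌊p.2 - q.2 + 1 / 2⌋)
    have e2 := Gp.int p.1 p.2 (-⌊p.2 - q.2 + 1 / 2⌋)
    have f1 := Int.floor_le (p.2 - q.2 + 1 / 2)
    have f2 := Int.lt_floor_add_one (p.2 - q.2 + 1 / 2)
    have b1 : (p.1 - q.1) ^ 2 < 1 := (G1 p).trans_lt (hlt.trans_le (min_le_right _ _))
    have b2 := abs_lt.1 ((sq_lt_one_iff_abs_lt_one _).1 b1)
    have := hd (p.1, p.2 + ((-⌊p.2 - q.2 + 1 / 2⌋ : ℤ) : ℝ)) ⟨⟨⟨by linarith [b2.1], by linarith [b2.2]⟩,
      ⟨by push_cast; linarith, by push_cast; linarith⟩⟩, by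
        change g _ ≤ 0
        rw [e1]
        exact le_of_not_gt hn⟩
    rw [e2] at this
    exact absurd (hlt.trans_le (min_le_left _ _)) (not_lt.2 this)
  have m0 : 0 < min d 1 := lt_min d0 one_pos
  obtain ⟨χ, hχ⟩ : ∃ χ : Pl → ℝ, χ = fun p => expNegInvGlue (min d 1 - G p) := ⟨_, rfl⟩
  have χs : ContDiff ℝ ∞ χ := by
    rw [hχ]
    exact expNegInvGlue.contDiff.comp (contDiff_const.sub Gs)
  have χp : Per χ := fun s t => by rw [hχ]; dsimp only; rw [Gp s t]
  have χz : ∀ p : Pl, |q.1| + 1 ≤ |p.1| → χ p = 0 := fun p hp => by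
    rw [hχ]
    refine expNegInvGlue.zero_of_nonpos ?_
    have h1 : 1 ≤ |p.1 - q.1| := by linarith [abs_sub_abs_le_abs_sub p.1 q.1]
    have h2 : 1 ≤ (p.1 - q.1) ^ 2 := (one_le_sq_iff_one_le_abs _).2 h1
    linarith [G1 p, min_le_right d 1]
  have h0 := h (fun p => χ p • f q) ⟨χs.smul contDiff_const, fun s t => by dsimp only; rw [χp s t],
    |q.1| + 1, fun p hp => by dsimp only; rw [χz p hp, zero_smul]⟩
  have e0 : ∀ p, ⟪f p, χ p • f q⟫ = χ p * g p := fun p => by rw [hg, real_inner_smul_right]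
  rw [ip_zero] at h0
  simp only [e0] at h0
  have uc : Continuous fun p => χ p * g p := χs.continuous.mul gc
  have up : Per fun p => χ p * g p := fun s t => by dsimp only; rw [χp s t, gp s t]
  have u0 : ∀ p, 0 ≤ χ p * g p := fun p => by
    by_cases hlt : G p < min d 1
    · exact mul_nonneg (by rw [hχ]; exact expNegInvGlue.nonneg _) (key p hlt).le
    · have : χ p = 0 := by
        rw [hχ]
        exact expNegInvGlue.zero_of_nonpos (by linarith [not_lt.1 hlt])
      rw [this, zero_mul]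
  have ui : IntegrableOn (fun p => χ p * g p) St :=
    integrableOn_St uc fun p hp => by rw [χz p hp, zero_mul]
  rw [← integral_tsl uc up (0, q.2 - 1 / 2)] at h0
  have h1 := (setIntegral_pos_iff_support_of_nonneg_ae (Eventually.of_forall fun p => u0 _)
    ((integrableOn_tsl uc up (0, q.2 - 1 / 2)).2 ui)).2 ?_
  · exact h1.ne' h0
  · have ho : IsOpen (Function.support (fun p : Pl => χ (p + (0, q.2 - 1 / 2)) *
        g (p + (0, q.2 - 1 / 2))) ∩ (univ : Set ℝ) ×ˢ Ioo 0 1) :=
      (uc.comp (continuous_id.add continuous_const)).isOpen_support.inter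
        (isOpen_univ.prod isOpen_Ioo)
    refine (ho.measure_pos volume ⟨(q.1, 1 / 2), ?_, mem_univ _, by norm_num, by norm_num⟩).trans_le
      (measure_mono (inter_subset_inter_right _ (prod_mono le_rfl Ioo_subset_Icc_self)))
    have e : ((q.1, 1 / 2) : Pl) + (0, q.2 - 1 / 2) = q := Prod.ext (by simp) (by simp)
    change χ _ * g _ ≠ 0
    rw [e, hχ]
    refine (mul_pos (expNegInvGlue.pos_of_pos ?_) gq).ne'
    rw [Gq, sub_zero]
    exact m0

end

end Pool.Agent.P.MP_de3acd_gt.FH
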