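import Pool.Agent.P.MP_de3acd_gt.FH.JetC
import Pool.Agent.P.MP_de3acd_gt.FH.Ibp

/-! Calculus of the Sobolev quantities nrm.
Sketch: induction on k generalizing the functions, nrm_succ; at k = 0 monotonicity of lintegral
(lintegral_mono_set, setLIntegral_mono', lintegral_union_le, lintegral_add_left, lintegral_const_mul).
‖a + b‖^2 ≤ 2‖a‖^2 + 2‖b‖^2. nrm_bil: C (k+1) = 1 + 8 C k works (ds (B c f) = B (ds c) f + B c (ds f)).
nrm_tail: dominated convergence / tendsto_measure_iInter for withDensity; nrm_le_of_exhaust: lintegral_iSup or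
setLIntegral_iUnion_of_directed. -/

open Set Filter Topology MeasureTheory
open scoped ContDiff NNReal ENNReal RealInnerProductSpace

namespace Pool.Agent.P.MP_de3acd_gt.FH

noncomputable section

variable {F F₁ F₂ : Type} [NormedAddCommGroup F] [NormedSpace ℝ F] [NormedAddCommGroup F₁]
  [NormedSpace ℝ F₁] [NormedAddCommGroup F₂] [NormedSpace ℝ F₂]
variable {U U₁ U₂ : Type} [NormedAddCommGroup U] [InnerProductSpace ℝ U] [NormedAddCommGroup U₁]
  [InnerProductSpace ℝ U₁] [NormedAddCommGroup U₂] [InnerProductSpace ℝ U₂]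

private theorem en_sq {G : Type} [NormedAddCommGroup G] (x : G) :
    ‖x‖ₑ ^ 2 = ENNReal.ofReal (‖x‖ ^ 2) := by
  rw [← ofReal_norm_eq_enorm, ENNReal.ofReal_pow (norm_nonneg _)]

private theorem en_le {G G' : Type} [NormedAddCommGroup G] [NormedAddCommGroup G'] {x : G}
    {y : G'} {c : ℝ} (h : ‖x‖ ≤ c * ‖y‖) : ‖x‖ₑ ^ 2 ≤ ENNReal.ofReal (c ^ 2) * ‖y‖ₑ ^ 2 := by
  rw [en_sq, en_sq, ← ENNReal.ofReal_mul (sq_nonneg _), ← mul_pow]
  exact ENNReal.ofReal_le_ofReal (pow_le_pow_left₀ (norm_nonneg _) h 2)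

private theorem meas_sq {G : Type} [NormedAddCommGroup G] {f : Pl → G} (hf : Continuous f) :
    Measurable fun p => ‖f p‖ₑ ^ 2 := hf.enorm.measurable.pow_const 2

private theorem ds_neg (f : Pl → F) : ds (-f) = -ds f := funext fun p => by
  simp only [ds, Pi.neg_apply, fderiv_neg]
  rfl

private theorem dt_neg (f : Pl → F) : dt (-f) = -dt f := funext fun p => by
  simp only [dt, Pi.neg_apply, fderiv_neg]
  rfl

private theorem ds_clm (A : F →L[ℝ] F₁) {f : Pl → F} (hf : ContDiff ℝ ∞ f) :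
    ds (fun p => A (f p)) = fun p => A (ds f p) := funext fun p => by
  have := (A.hasFDerivAt.comp p (hf.differentiable (by simp) p).hasFDerivAt).fderiv
  exact congrArg (fun T : Pl →L[ℝ] F₁ => T (1, 0)) this

private theorem dt_clm (A : F →L[ℝ] F₁) {f : Pl → F} (hf : ContDiff ℝ ∞ f) :
    dt (fun p => A (f p)) = fun p => A (dt f p) := funext fun p => by
  have := (A.hasFDerivAt.comp p (hf.differentiable (by simp) p).hasFDerivAt).fderiv
  exact congrArg (fun T : Pl →L[ℝ] F₁ => T (0, 1)) this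

private theorem nrm_empty (k : ℕ) (f : Pl → F) : nrm k f ∅ = 0 := by
  induction k generalizing f with
  | zero => simp [nrm]
  | succ k ih => simp [nrm, ih]

theorem nrm_mono {k k' : ℕ} (f : Pl → F) {I I' : Set ℝ} (hk : k' ≤ k) (hI : I' ⊆ I) :
    nrm k' f I' ≤ nrm k f I := by
  have h0 : ∀ f : Pl → F, nrm 0 f I' ≤ nrm 0 f I := fun f =>
    lintegral_mono_set (prod_mono hI le_rfl)
  induction k' generalizing k f with
  | zero =>
    refine (h0 f).trans ?_
    cases k with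
    | zero => exact le_rfl
    | succ k =>
      rw [nrm_succ, add_assoc]
      exact le_self_add
  | succ k' ih =>
    obtain ⟨j, rfl⟩ : ∃ j, k = j + 1 := ⟨k - 1, by omega⟩
    rw [nrm_succ, nrm_succ]
    exact add_le_add (add_le_add (h0 f) (ih _ (by omega))) (ih _ (by omega))

theorem nrm_union_le (k : ℕ) (f : Pl → F) (I I' : Set ℝ) :
    nrm k f (I ∪ I') ≤ nrm k f I + nrm k f I' := by
  have h0 : ∀ f : Pl → F, nrm 0 f (I ∪ I') ≤ nrm 0 f I + nrm 0 f I' := fun f => by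
    rw [nrm_zero, union_prod]
    exact lintegral_union_le _ _ _
  induction k generalizing f with
  | zero => exact h0 f
  | succ k ih =>
    rw [nrm_succ, nrm_succ, nrm_succ]
    refine (add_le_add (add_le_add (h0 f) (ih _)) (ih _)).trans (le_of_eq ?_)
    ring

theorem nrm_biUnion_le {ι : Type} (k : ℕ) (f : Pl → F) (s : Finset ι) (I : ι → Set ℝ) :
    nrm k f (⋃ i ∈ s, I i) ≤ ∑ i ∈ s, nrm k f (I i) := by
  classical
  induction s using Finset.induction_on with
  | empty => simp [nrm_empty]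
  | insert i s hi ih =>
    rw [Finset.set_biUnion_insert, Finset.sum_insert hi]
    exact (nrm_union_le k f _ _).trans (add_le_add le_rfl ih)

theorem nrm_congr (k : ℕ) {f g : Pl → F} {I : Set ℝ} (hI : MeasurableSet I)
    (e : ∀ p : Pl, p.1 ∈ I → f =ᶠ[𝓝 p] g) : nrm k f I = nrm k g I := by
  have h0 : ∀ {f g : Pl → F}, (∀ p : Pl, p.1 ∈ I → f =ᶠ[𝓝 p] g) → nrm 0 f I = nrm 0 g I :=
    fun {f g} e => setLIntegral_congr_fun (hI.prod measurableSet_Icc) fun p hp => by
      simp only [(e p hp.1).eq_of_nhds]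
  induction k generalizing f g with
  | zero => exact h0 e
  | succ k ih =>
    have e1 : ∀ p : Pl, p.1 ∈ I → ds f =ᶠ[𝓝 p] ds g := fun p hp =>
      ((e p hp).fderiv (𝕜 := ℝ)).mono fun q hq => congrArg (fun T : Pl →L[ℝ] F => T (1, 0)) hq
    have e2 : ∀ p : Pl, p.1 ∈ I → dt f =ᶠ[𝓝 p] dt g := fun p hp =>
      ((e p hp).fderiv (𝕜 := ℝ)).mono fun q hq => congrArg (fun T : Pl →L[ℝ] F => T (0, 1)) hq
    rw [nrm_succ, nrm_succ, h0 e, ih e1, ih e2]

theorem nrm_zero_fun (k : ℕ) (I : Set ℝ) : nrm k (0 : Pl → F) I = 0 := by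
  have e1 : ds (0 : Pl → F) = 0 := funext fun p => by simp [ds]
  have e2 : dt (0 : Pl → F) = 0 := funext fun p => by simp [dt]
  induction k with
  | zero => simp [nrm]
  | succ k ih => simp [nrm, e1, e2, ih]

theorem nrm_neg (k : ℕ) (f : Pl → F) (I : Set ℝ) : nrm k (-f) I = nrm k f I := by
  induction k generalizing f with
  | zero => simp [nrm]
  | succ k ih => simp [nrm, ds_neg, dt_neg, ih]

theorem nrm_sub_comm (k : ℕ) (f g : Pl → F) (I : Set ℝ) : nrm k (f - g) I = nrm k (g - f) I := by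
  rw [← nrm_neg, neg_sub]

theorem nrm_add_le (k : ℕ) {f g : Pl → F} (hf : ContDiff ℝ ∞ f) (hg : ContDiff ℝ ∞ g) (I : Set ℝ) :
    nrm k (f + g) I ≤ 2 * nrm k f I + 2 * nrm k g I := by
  have h0 : ∀ {f g : Pl → F}, Continuous f →
      nrm 0 (f + g) I ≤ 2 * nrm 0 f I + 2 * nrm 0 g I := fun {f g} hf => by
    rw [nrm_zero, nrm_zero, nrm_zero, ← lintegral_const_mul' _ _ (by simp),
      ← lintegral_const_mul' _ _ (by simp),
      ← lintegral_add_left ((meas_sq hf).const_mul 2)]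
    refine lintegral_mono fun p => ?_
    have h2 : (2 : ℝ≥0∞) = ENNReal.ofReal 2 := by simp
    rw [en_sq, en_sq, en_sq]
    conv_rhs => rw [h2]
    rw [← ENNReal.ofReal_mul (by norm_num), ← ENNReal.ofReal_mul (by norm_num),
      ← ENNReal.ofReal_add (by positivity) (by positivity)]
    refine ENNReal.ofReal_le_ofReal ?_
    have h3 := pow_le_pow_left₀ (norm_nonneg _) (norm_add_le (f p) (g p)) 2
    rw [Pi.add_apply]
    nlinarith [sq_nonneg (‖f p‖ - ‖g p‖)]
  induction k generalizing f g with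
  | zero => exact h0 hf.continuous
  | succ k ih =>
    rw [nrm_succ, nrm_succ, nrm_succ, ds_add hf hg, dt_add hf hg]
    refine (add_le_add (add_le_add (h0 hf.continuous) (ih (contDiff_ds hf) (contDiff_ds hg)))
      (ih (contDiff_dt hf) (contDiff_dt hg))).trans (le_of_eq ?_)
    ring

theorem nrm_sub_le (k : ℕ) {f g : Pl → F} (hf : ContDiff ℝ ∞ f) (hg : ContDiff ℝ ∞ g) (I : Set ℝ) :
    nrm k (f - g) I ≤ 2 * nrm k f I + 2 * nrm k g I := by
  rw [sub_eq_add_neg, ← nrm_neg k g]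
  exact nrm_add_le k hf hg.neg I

theorem nrm_smul (k : ℕ) (c : ℝ) {f : Pl → F} (hf : ContDiff ℝ ∞ f) (I : Set ℝ) :
    nrm k (c • f) I = ENNReal.ofReal (c ^ 2) * nrm k f I := by
  have h0 : ∀ f : Pl → F, nrm 0 (c • f) I = ENNReal.ofReal (c ^ 2) * nrm 0 f I := fun f => by
    rw [nrm_zero, nrm_zero, ← lintegral_const_mul' _ _ ENNReal.ofReal_ne_top]
    refine lintegral_congr fun p => ?_
    rw [en_sq, en_sq, ← ENNReal.ofReal_mul (sq_nonneg _), Pi.smul_apply, norm_smul, mul_pow,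
      Real.norm_eq_abs, sq_abs]
  induction k generalizing f with
  | zero => exact h0 f
  | succ k ih =>
    rw [nrm_succ, nrm_succ, ds_smul c hf, dt_smul c hf, h0, ih (contDiff_ds hf),
      ih (contDiff_dt hf), mul_add, mul_add]

theorem nrm_clm (k : ℕ) (A : F →L[ℝ] F₁) {f : Pl → F} (hf : ContDiff ℝ ∞ f) (I : Set ℝ) :
    nrm k (fun p => A (f p)) I ≤ ENNReal.ofReal (‖A‖ ^ 2) * nrm k f I := by
  have h0 : ∀ f : Pl → F,
      nrm 0 (fun p => A (f p)) I ≤ ENNReal.ofReal (‖A‖ ^ 2) * nrm 0 f I := fun f => by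
    rw [nrm_zero, nrm_zero, ← lintegral_const_mul' _ _ ENNReal.ofReal_ne_top]
    exact lintegral_mono fun p => en_le (A.le_opNorm _)
  induction k generalizing f with
  | zero => exact h0 f
  | succ k ih =>
    rw [nrm_succ, nrm_succ, ds_clm A hf, dt_clm A hf, mul_add, mul_add]
    exact add_le_add (add_le_add (h0 f) (ih (contDiff_ds hf))) (ih (contDiff_dt hf))

theorem nrm_bil (k : ℕ) (B : F →L[ℝ] F₁ →L[ℝ] F₂) {c : Pl → F} {f : Pl → F₁} {I : Set ℝ} {a : ℝ}
    (hI : MeasurableSet I) (hc : ContDiff ℝ ∞ c) (hf : ContDiff ℝ ∞ f) (h : Cn k c I a) :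
    nrm k (fun p => B (c p) (f p)) I ≤ ENNReal.ofReal (9 ^ k * (‖B‖ * a) ^ 2) * nrm k f I := by
  have h0 : ∀ (c : Pl → F) (f : Pl → F₁), Cn 0 c I a → nrm 0 (fun p => B (c p) (f p)) I ≤
      ENNReal.ofReal ((‖B‖ * a) ^ 2) * nrm 0 f I := fun c f h => by
    rw [nrm_zero, nrm_zero, ← lintegral_const_mul' _ _ ENNReal.ofReal_ne_top]
    refine setLIntegral_mono' (hI.prod measurableSet_Icc) fun p hp => en_le ?_
    refine (B.le_opNorm₂ _ _).trans ?_
    exact mul_le_mul_of_nonneg_right (mul_le_mul_of_nonneg_left (h p hp.1) B.opNorm_nonneg)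
      (norm_nonneg _)
  have sm : ∀ {c : Pl → F} {f : Pl → F₁}, ContDiff ℝ ∞ c → ContDiff ℝ ∞ f →
      ContDiff ℝ ∞ fun p => B (c p) (f p) := fun hc hf =>
    (B.contDiff.comp hc).clm_apply hf
  induction k generalizing c f with
  | zero => simpa using h0 c f h
  | succ k ih =>
    have hk : Cn k c I a := h.mono (Nat.le_succ k) le_rfl le_rfl
    have e1 : ds (fun p => B (c p) (f p)) =
        (fun p => B (ds c p) (f p)) + fun p => B (c p) (ds f p) := funext fun p =>
      ds_bil B (hc.differentiable (by simp) p) (hf.differentiable (by simp) p)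
    have e2 : dt (fun p => B (c p) (f p)) =
        (fun p => B (dt c p) (f p)) + fun p => B (c p) (dt f p) := funext fun p =>
      dt_bil B (hc.differentiable (by simp) p) (hf.differentiable (by simp) p)
    have i1 := ih (contDiff_ds hc) hf h.2.1
    have i2 := ih hc (contDiff_ds hf) hk
    have i3 := ih (contDiff_dt hc) hf h.2.2
    have i4 := ih hc (contDiff_dt hf) hk
    have i0 := h0 c f h.1
    have a1 := nrm_add_le k (sm (contDiff_ds hc) hf) (sm hc (contDiff_ds hf)) I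
    have a2 := nrm_add_le k (sm (contDiff_dt hc) hf) (sm hc (contDiff_dt hf)) I
    have m0 : nrm 0 f I ≤ nrm (k + 1) f I := nrm_mono f (Nat.zero_le _) le_rfl
    have m1 : nrm k f I ≤ nrm (k + 1) f I := nrm_mono f (Nat.le_succ k) le_rfl
    have m2 : nrm k (ds f) I ≤ nrm (k + 1) f I := by
      rw [nrm_succ]
      exact le_add_right le_add_self
    have m3 : nrm k (dt f) I ≤ nrm (k + 1) f I := by
      rw [nrm_succ]
      exact le_add_self
    have k0 : ENNReal.ofReal ((‖B‖ * a) ^ 2) ≤ ENNReal.ofReal (9 ^ k * (‖B‖ * a) ^ 2) :=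
      ENNReal.ofReal_le_ofReal
        (le_mul_of_one_le_left (sq_nonneg _) (one_le_pow₀ (by norm_num)))
    have k1 : ENNReal.ofReal (9 ^ (k + 1) * (‖B‖ * a) ^ 2) =
        9 * ENNReal.ofReal (9 ^ k * (‖B‖ * a) ^ 2) := by
      rw [pow_succ', mul_assoc, ENNReal.ofReal_mul (by norm_num)]
      simp
    rw [nrm_succ k (fun p => B (c p) (f p)), e1, e2, k1]
    generalize ENNReal.ofReal (9 ^ k * (‖B‖ * a) ^ 2) = K at *
    generalize nrm (k + 1) f I = N at *
    have j0 := i0.trans (mul_le_mul' k0 m0)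
    have j1 := i1.trans (mul_le_mul' le_rfl m1)
    have j2 := i2.trans (mul_le_mul' le_rfl m2)
    have j3 := i3.trans (mul_le_mul' le_rfl m1)
    have j4 := i4.trans (mul_le_mul' le_rfl m3)
    have b1 := a1.trans (add_le_add (mul_le_mul' le_rfl j1) (mul_le_mul' le_rfl j2))
    have b2 := a2.trans (add_le_add (mul_le_mul' le_rfl j3) (mul_le_mul' le_rfl j4))
    refine (add_le_add (add_le_add j0 b1) b2).trans (le_of_eq ?_)
    ring

theorem nrm_tsl (k : ℕ) {f : Pl → F} (hf : ContDiff ℝ ∞ f) (hp : Per f) (a : Pl) {I : Set ℝ}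
    (hI : MeasurableSet I) : nrm k (tsl a f) ((fun s => s + a.1) ⁻¹' I) = nrm k f I := by
  have h0 : ∀ {f : Pl → F}, ContDiff ℝ ∞ f → Per f →
      nrm 0 (tsl a f) ((fun s => s + a.1) ⁻¹' I) = nrm 0 f I := fun {f} hf hp =>
    lintegral_tsl (f := fun p => ‖f p‖ₑ ^ 2) (meas_sq hf.continuous)
      (fun s t => by simp only [hp s t]) a hI
  induction k generalizing f with
  | zero => exact h0 hf hp
  | succ k ih =>
    rw [nrm_succ, nrm_succ, ds_tsl, dt_tsl, h0 hf hp, ih (contDiff_ds hf) hp.ds,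
      ih (contDiff_dt hf) hp.dt]

theorem Cn.nrm_le {k : ℕ} {f : Pl → F} {I : Set ℝ} {ε : ℝ} (hI : MeasurableSet I)
    (h : Cn k f I ε) : nrm k f I ≤ ENNReal.ofReal (3 ^ k * ε ^ 2) * volume I := by
  have h0 : ∀ f : Pl → F, Cn 0 f I ε → nrm 0 f I ≤ ENNReal.ofReal (ε ^ 2) * volume I :=
    fun f h => by
      have h1 : nrm 0 f I ≤ ∫⁻ _ in I ×ˢ Icc (0 : ℝ) 1, ENNReal.ofReal (ε ^ 2) := by
        refine setLIntegral_mono' (hI.prod measurableSet_Icc) fun p hp => ?_
        rw [en_sq]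
        exact ENNReal.ofReal_le_ofReal (pow_le_pow_left₀ (norm_nonneg _) (h p hp.1) 2)
      rw [setLIntegral_const, Measure.volume_eq_prod, Measure.prod_prod] at h1
      simpa using h1
  induction k generalizing f with
  | zero => simpa using h0 f h
  | succ k ih =>
    have k0 : ENNReal.ofReal (ε ^ 2) ≤ ENNReal.ofReal (3 ^ k * ε ^ 2) :=
      ENNReal.ofReal_le_ofReal
        (le_mul_of_one_le_left (sq_nonneg _) (one_le_pow₀ (by norm_num)))
    have k1 : ENNReal.ofReal (3 ^ (k + 1) * ε ^ 2) = 3 * ENNReal.ofReal (3 ^ k * ε ^ 2) := by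
      rw [pow_succ', mul_assoc, ENNReal.ofReal_mul (by norm_num)]
      simp
    rw [nrm_succ, k1]
    refine (add_le_add (add_le_add ((h0 f h.1).trans (mul_le_mul' k0 le_rfl)) (ih h.2.1))
      (ih h.2.2)).trans (le_of_eq ?_)
    ring

theorem nrm_Icc_lt_top (k : ℕ) {f : Pl → F} (hf : ContDiff ℝ ∞ f) (a b : ℝ) :
    nrm k f (Icc a b) < ⊤ := by
  have h0 : ∀ {f : Pl → F}, Continuous f → nrm 0 f (Icc a b) < ⊤ := fun {f} hf => by
    have hc : IsCompact (Icc a b ×ˢ Icc (0 : ℝ) 1) := isCompact_Icc.prod isCompact_Icc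
    have := setLIntegral_lt_top_of_isCompact hc.measure_lt_top.ne hc
      (f := fun p => ‖f p‖₊ ^ 2) (μ := volume) (hf.nnnorm.pow 2)
    simpa [nrm, enorm_eq_nnnorm] using this
  induction k generalizing f with
  | zero => exact h0 hf.continuous
  | succ k ih =>
    rw [nrm_succ]
    exact ENNReal.add_lt_top.2 ⟨ENNReal.add_lt_top.2 ⟨h0 hf.continuous, ih (contDiff_ds hf)⟩,
      ih (contDiff_dt hf)⟩

private theorem eq_of_supp (k : ℕ) {f : Pl → F} {I : Set ℝ} (hI : IsClosed I)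
    (h : ∀ p : Pl, p.1 ∉ I → f p = 0) : nrm k f univ = nrm k f I := by
  refine le_antisymm ?_ (nrm_mono f le_rfl (subset_univ _))
  have h1 : nrm k f Iᶜ = nrm k (0 : Pl → F) Iᶜ := by
    refine nrm_congr k hI.measurableSet.compl fun p hp => ?_
    have : ∀ᶠ q : Pl in 𝓝 p, q.1 ∈ Iᶜ :=
      (continuous_fst.tendsto p).eventually (hI.isOpen_compl.mem_nhds hp)
    exact this.mono fun q hq => h q hq
  have h2 := nrm_union_le k f I Iᶜ
  rwa [union_compl_self, h1, nrm_zero_fun, add_zero] at h2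

theorem nrm_lt_top_of_mem (k : ℕ) {φ : Pl → F} (h : φ ∈ Dsub F) : nrm k φ univ < ⊤ := by
  obtain ⟨h1, -, R, h3⟩ := h
  rw [eq_of_supp k (I := Icc (-R) R) isClosed_Icc fun p hp =>
    h3 p (le_of_not_gt fun hlt => hp ⟨(abs_lt.1 hlt).1.le, (abs_lt.1 hlt).2.le⟩)]
  exact nrm_Icc_lt_top k h1 _ _

/-- A function that vanishes outside `I` (a closed set). -/
theorem nrm_eq_of_supp (k : ℕ) {f : Pl → F} {I : Set ℝ} (hI : IsClosed I)
    (h : ∀ p : Pl, p.1 ∉ I → f p = 0) : nrm k f univ = nrm k f I := eq_of_supp k hI h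

private theorem nrm_dens (f : Pl → F) {I : Set ℝ} (hI : MeasurableSet I) : nrm 0 f I =
    (volume : Measure Pl).withDensity (fun p => ‖f p‖ₑ ^ 2) (I ×ˢ Icc (0 : ℝ) 1) :=
  (withDensity_apply _ (hI.prod measurableSet_Icc)).symm

theorem nrm_tail (k : ℕ) {f : Pl → F} (hf : ContDiff ℝ ∞ f) {I : Set ℝ} (hI : MeasurableSet I)
    (h : nrm k f I < ⊤) : Tendsto (fun R : ℝ => nrm k f (I ∩ {s | R ≤ |s|})) atTop (𝓝 0) := by
  have hm : ∀ R : ℝ, MeasurableSet (I ∩ {s : ℝ | R ≤ |s|}) := fun R =>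
    hI.inter (isClosed_le continuous_const continuous_abs).measurableSet
  have h0 : ∀ f : Pl → F, nrm 0 f I < ⊤ →
      Tendsto (fun R : ℝ => nrm 0 f (I ∩ {s | R ≤ |s|})) atTop (𝓝 0) := fun f h => by
    have := tendsto_measure_iInter_atTop
      (μ := (volume : Measure Pl).withDensity fun p => ‖f p‖ₑ ^ 2)
      (s := fun R : ℝ => (I ∩ {s : ℝ | R ≤ |s|}) ×ˢ Icc (0 : ℝ) 1)
      (fun R => ((hm R).prod measurableSet_Icc).nullMeasurableSet)
      (fun R R' hR => prod_mono (inter_subset_inter_right _ fun s hs => hR.trans hs) le_rfl)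
      ⟨0, by
        rw [← nrm_dens f (hm 0)]
        exact ((nrm_mono f le_rfl inter_subset_left).trans_lt h).ne⟩
    have e : ⋂ R : ℝ, (I ∩ {s : ℝ | R ≤ |s|}) ×ˢ Icc (0 : ℝ) 1 = ∅ := by
      refine eq_empty_of_forall_notMem fun p hp => ?_
      have : |p.1| + 1 ≤ |p.1| := (mem_iInter.1 hp (|p.1| + 1)).1.2
      linarith
    rw [e, measure_empty] at this
    exact this.congr fun R => (nrm_dens f (hm R)).symm
  induction k generalizing f with
  | zero => exact h0 f h
  | succ k ih =>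
    rw [nrm_succ] at h
    obtain ⟨h1, h3⟩ := ENNReal.add_lt_top.1 h
    obtain ⟨h1, h2⟩ := ENNReal.add_lt_top.1 h1
    have := ((h0 f h1).add (ih (contDiff_ds hf) h2)).add (ih (contDiff_dt hf) h3)
    rw [add_zero, add_zero] at this
    exact this

theorem nrm_le_of_exhaust (k : ℕ) {f : Pl → F} (hf : ContDiff ℝ ∞ f) {I : Set ℝ}
    (hI : MeasurableSet I) {A : ℝ≥0∞} (h : ∀ R : ℝ, nrm k f (I ∩ Icc (-R) R) ≤ A) :
    nrm k f I ≤ A := by
  have hm : ∀ R : ℝ, MeasurableSet (I ∩ Icc (-R) R) := fun R => hI.inter measurableSet_Icc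
  have h0 : ∀ f : Pl → F,
      Tendsto (fun R : ℝ => nrm 0 f (I ∩ Icc (-R) R)) atTop (𝓝 (nrm 0 f I)) := fun f => by
    have := tendsto_measure_iUnion_atTop
      (μ := (volume : Measure Pl).withDensity fun p => ‖f p‖ₑ ^ 2)
      (s := fun R : ℝ => (I ∩ Icc (-R) R) ×ˢ Icc (0 : ℝ) 1)
      (fun R R' hR => prod_mono (inter_subset_inter_right _
        (Icc_subset_Icc (neg_le_neg hR) hR)) le_rfl)
    have e : ⋃ R : ℝ, (I ∩ Icc (-R) R) ×ˢ Icc (0 : ℝ) 1 = I ×ˢ Icc (0 : ℝ) 1 := by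
      refine Subset.antisymm (iUnion_subset fun R => prod_mono inter_subset_left le_rfl)
        fun p hp => mem_iUnion.2 ⟨|p.1|, ⟨hp.1, neg_abs_le _, le_abs_self _⟩, hp.2⟩
    rw [e, ← nrm_dens f hI] at this
    exact this.congr fun R => (nrm_dens f (hm R)).symm
  have h1 : ∀ (k : ℕ) (f : Pl → F),
      Tendsto (fun R : ℝ => nrm k f (I ∩ Icc (-R) R)) atTop (𝓝 (nrm k f I)) := by
    intro k
    induction k with
    | zero => exact h0
    | succ k ih => exact fun f => ((h0 f).add (ih (ds f))).add (ih (dt f))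
  exact le_of_tendsto' (h1 k f) h

theorem nrm_zero_lt_top_iff {f : Pl → F} (hf : Continuous f) :
    nrm 0 f univ < ⊤ ↔ MemLp f 2 (volume.restrict St) := by
  have hc : Continuous fun p => ‖f p‖ ^ 2 := hf.norm.pow 2
  rw [memLp_two_iff_integrable_sq_norm hf.aestronglyMeasurable, Integrable,
    and_iff_right hc.aestronglyMeasurable, hasFiniteIntegral_iff_enorm, nrm_zero]
  simp only [enorm_pow, enorm_norm]
  rfl

theorem nrm_eq_ip (k : ℕ) {φ : Pl → U} (h : φ ∈ Dsub U) :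
    nrm k φ univ = ENNReal.ofReal (ip k φ φ) := by
  have h0 : ∀ {φ : Pl → U}, φ ∈ Dsub U → nrm 0 φ univ = ENNReal.ofReal (ip 0 φ φ) :=
    fun {φ} h => by
      rw [ip_zero, ofReal_integral_eq_lintegral_ofReal (integrableOn_inner h h.1.continuous)
        (Eventually.of_forall fun p => real_inner_self_nonneg), nrm_zero]
      refine lintegral_congr fun p => ?_
      rw [en_sq, real_inner_self_eq_norm_sq]
  induction k generalizing φ with
  | zero => exact h0 h
  | succ k ih =>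
    rw [nrm_succ, ip_succ, h0 h, ih (ds_mem h), ih (dt_mem h),
      ENNReal.ofReal_add (add_nonneg (ip_nonneg _ _) (ip_nonneg _ _)) (ip_nonneg _ _),
      ENNReal.ofReal_add (ip_nonneg _ _) (ip_nonneg _ _)]

theorem nrm_co (k : ℕ) (φ : Dsub U) : nrm k φ.1 univ = ENNReal.ofReal (‖co k φ‖ ^ 2) := by
  rw [norm_co_sq, nrm_eq_ip k φ.2]

theorem eq_zero_of_nrm {f : Pl → F} (hf : Continuous f) (hp : Per f) (h : nrm 0 f univ = 0) :
    f = 0 := by
  rw [nrm_zero, lintegral_eq_zero_iff (meas_sq hf)] at h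
  have h1 : f =ᵐ[volume.restrict (univ ×ˢ Icc (0 : ℝ) 1)] fun _ => 0 :=
    h.mono fun p hp => by simpa using hp
  have h2 : EqOn f (fun _ => 0) (univ ×ˢ Icc (0 : ℝ) 1) := by
    refine Measure.eqOn_of_ae_eq h1 hf.continuousOn continuousOn_const ?_
    rw [interior_prod_eq, closure_prod_eq, interior_univ, closure_univ, interior_Icc,
      closure_Ioo zero_ne_one]
  funext p
  have h3 := hp.int p.1 (Int.fract p.2) ⌊p.2⌋
  rw [Int.fract_add_floor] at h3
  exact h3.trans (h2 ⟨mem_univ _, Int.fract_nonneg _, (Int.fract_lt_one _).le⟩)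

end

end Pool.Agent.P.MP_de3acd_gt.FH
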