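import Pool.Agent.P.MP_de3acd_gt.FH.OpsA
import Pool.Agent.P.MP_de3acd_gt.FH.JetN

/-! Multiplication by bounded smooth functions.
Sketch: for fixed c the map φ ↦ co k (B c φ) (bil_mem) is linear with norm at most 9 ‖B‖ a when Cn k c univ a
(nrm_bil, nrm_co; 9^k ≤ 81), so exists_ext gives T c; c ↦ T c is linear by W.ext_co and bounded by Cb.cn,
LinearMap.mkContinuous. Everything else on test functions, then density. -/

open Set Filter Topology MeasureTheory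
open scoped ContDiff NNReal ENNReal RealInnerProductSpace

namespace Pool.Agent.P.MP_de3acd_gt.FH

noncomputable section

variable {U U₁ U₂ : Type} [NormedAddCommGroup U] [InnerProductSpace ℝ U] [NormedAddCommGroup U₁]
  [InnerProductSpace ℝ U₁] [NormedAddCommGroup U₂] [InnerProductSpace ℝ U₂]
variable {F F₁ F₂ : Type} [NormedAddCommGroup F] [NormedSpace ℝ F] [NormedAddCommGroup F₁]
  [NormedSpace ℝ F₁] [NormedAddCommGroup F₂] [NormedSpace ℝ F₂]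

theorem le_of_sq_le_sq₀_Mul {a b : ℝ} (hb : 0 ≤ b) (h : a ^ 2 ≤ b ^ 2) : a ≤ b :=
  (le_abs_self a).trans ((sq_le_sq.1 h).trans (abs_of_nonneg hb).le)

/-- The product of a bounded function and a test function. -/
def bm_Mul (B : F →L[ℝ] U₁ →L[ℝ] U₂) (c : Cb F) : Dsub U₁ →ₗ[ℝ] Dsub U₂ where
  toFun φ := ⟨fun p => B (Cb.fn c p) (φ.1 p), bil_mem c.bdd.1 c.per φ.2 B⟩
  map_add' φ ψ := Subtype.ext (funext fun p => (B (Cb.fn c p)).map_add (φ.1 p) (ψ.1 p))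
  map_smul' r φ := Subtype.ext (funext fun p => (B (Cb.fn c p)).map_smul r (φ.1 p))

theorem nonneg_Mul {k : ℕ} {f : Pl → F} {a : ℝ} (h : Cn k f univ a) : 0 ≤ a :=
  (norm_nonneg _).trans (h.le (p := 0) (mem_univ _))

theorem norm_bm_Mul {k : ℕ} (hk : k ≤ 2) (B : F →L[ℝ] U₁ →L[ℝ] U₂) (c : Cb F) {a : ℝ}
    (h : Cn k (Cb.fn c) univ a) (φ : Dsub U₁) :
    ‖co k (bm_Mul B c φ)‖ ≤ 9 * ‖B‖ * a * ‖co k φ‖ := by
  have ha := nonneg_Mul h
  have h1 := nrm_bil k B MeasurableSet.univ c.bdd.1 φ.2.1 h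
  have h2 : nrm k (fun p => B (Cb.fn c p) (φ.1 p)) univ =
      ENNReal.ofReal (‖co k (bm_Mul B c φ)‖ ^ 2) := nrm_co k (bm_Mul B c φ)
  rw [h2, nrm_co, ← ENNReal.ofReal_mul (by positivity),
    ENNReal.ofReal_le_ofReal_iff (by positivity)] at h1
  have h9 : (9 : ℝ) ^ k ≤ 9 ^ 2 := pow_le_pow_right₀ (by norm_num) hk
  refine le_of_sq_le_sq₀_Mul (by positivity) (h1.trans ?_)
  calc (9 : ℝ) ^ k * (‖B‖ * a) ^ 2 * ‖co k φ‖ ^ 2 ≤ 9 ^ 2 * (‖B‖ * a) ^ 2 * ‖co k φ‖ ^ 2 := by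
        gcongr
    _ = _ := by ring

theorem exists_Mul {k : ℕ} (hk : k ≤ 2) (B : F →L[ℝ] U₁ →L[ℝ] U₂) :
    ∃ T : Cb F →L[ℝ] W k U₁ →L[ℝ] W k U₂, ∀ (c : Cb F) (φ : Dsub U₁) (ψ : Dsub U₂),
      (∀ p, ψ.1 p = B (Cb.fn c p) (φ.1 p)) → T c (co _ φ) = co _ ψ := by
  have hc : ∀ c : Cb F, Cn k (Cb.fn c) univ ‖c‖ := fun c => c.cn.mono hk subset_rfl le_rfl
  choose T hT hT' using fun c : Cb F => exists_ext k ((co k).comp (bm_Mul B c))
    (C := 9 * ‖B‖ * ‖c‖) (by positivity) (norm_bm_Mul hk B c (hc c))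
  let L : Cb F →ₗ[ℝ] W k U₁ →L[ℝ] W k U₂ :=
    { toFun := T
      map_add' := fun c c' => W.ext_co fun φ => by
        rw [add_apply, hT, hT, hT, LinearMap.comp_apply, LinearMap.comp_apply,
          LinearMap.comp_apply, ← map_add]
        refine congrArg _ (Subtype.ext (funext fun p => ?_))
        change B (Cb.fn (c + c') p) (φ.1 p) = B (Cb.fn c p) (φ.1 p) + B (Cb.fn c' p) (φ.1 p)
        rw [map_add, Pi.add_apply, map_add, add_apply]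
      map_smul' := fun r c => W.ext_co fun φ => by
        rw [smul_apply, hT, hT, LinearMap.comp_apply, LinearMap.comp_apply,
          RingHom.id_apply, ← map_smul]
        refine congrArg _ (Subtype.ext (funext fun p => ?_))
        change B (Cb.fn (r • c) p) (φ.1 p) = r • B (Cb.fn c p) (φ.1 p)
        rw [map_smul, Pi.smul_apply, map_smul, smul_apply] }
  refine ⟨L.mkContinuous (9 * ‖B‖) hT', fun c φ ψ e => ?_⟩
  change T c (co k φ) = _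
  rw [hT, LinearMap.comp_apply]
  exact congrArg _ (Subtype.ext (funext fun p => (e p).symm))

theorem mul_co_Mul {k : ℕ} (hk : k ≤ 2) (B : F →L[ℝ] U₁ →L[ℝ] U₂) (c : Cb F) (φ : Dsub U₁)
    (ψ : Dsub U₂) (e : ∀ p, ψ.1 p = B (Cb.fn c p) (φ.1 p)) : mul k B c (co k φ) = co k ψ :=
  Classical.epsilon_spec (exists_Mul hk B) c φ ψ e

theorem mul_co {k : ℕ} (hk : k ≤ 2) (B : F →L[ℝ] U₁ →L[ℝ] U₂) (c : Cb F) (φ : Dsub U₁) :
    mul k B c (co k φ) = co k ⟨fun p => B (Cb.fn c p) (φ.1 p), bil_mem c.bdd.1 c.per φ.2 B⟩ :=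
  mul_co_Mul hk B c φ _ fun _ => rfl

theorem norm_mul_le {k : ℕ} (hk : k ≤ 2) (B : F →L[ℝ] U₁ →L[ℝ] U₂) (c : Cb F) {a : ℝ}
    (h : Cn k (Cb.fn c) univ a) (ξ : W k U₁) : ‖mul k B c ξ‖ ≤ 9 * ‖B‖ * a * ‖ξ‖ := by
  refine W.induction (P := fun ξ => ‖mul k B c ξ‖ ≤ 9 * ‖B‖ * a * ‖ξ‖)
    (isClosed_le (mul k B c).continuous.norm (continuous_const.mul continuous_norm)) (fun φ => ?_) ξ
  rw [mul_co hk]
  exact norm_bm_Mul hk B c h φ

theorem opNorm_mul_le {k : ℕ} (hk : k ≤ 2) (B : F →L[ℝ] U₁ →L[ℝ] U₂) (c : Cb F) {a : ℝ}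
    (h : Cn k (Cb.fn c) univ a) : ‖mul k B c‖ ≤ 9 * ‖B‖ * a :=
  ContinuousLinearMap.opNorm_le_bound _ (by have := nonneg_Mul h; positivity)
    (norm_mul_le hk B c h)

theorem mul_congr {k : ℕ} (hk : k ≤ 2) {B : F →L[ℝ] U₁ →L[ℝ] U₂} {B' : F₁ →L[ℝ] U₁ →L[ℝ] U₂}
    {c : Cb F} {c' : Cb F₁} (h : ∀ p v, B (Cb.fn c p) v = B' (Cb.fn c' p) v) :
    mul k B c = mul k B' c' :=
  W.ext_co fun φ => by
    rw [mul_co hk B' c' φ]
    exact mul_co_Mul hk B c φ _ fun p => (h p _).symm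

theorem mul_eq_clm_id {k : ℕ} (hk : k ≤ 2) {B : F →L[ℝ] U →L[ℝ] U} {c : Cb F} {r : ℝ}
    (h : ∀ p v, B (Cb.fn c p) v = r • v) (ξ : W k U) : mul k B c ξ = r • ξ := by
  refine W.induction (P := fun ξ => mul k B c ξ = r • ξ)
    (isClosed_eq (mul k B c).continuous (continuous_const_smul r)) (fun φ => ?_) ξ
  rw [← map_smul]
  exact mul_co_Mul hk B c φ _ fun p => (h p _).symm

theorem mul_mul {k : ℕ} (hk : k ≤ 2) {B : F →L[ℝ] U₁ →L[ℝ] U₂} {B' : F₁ →L[ℝ] U →L[ℝ] U₁}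
    {B'' : F₂ →L[ℝ] U →L[ℝ] U₂} {c : Cb F} {c' : Cb F₁} {c'' : Cb F₂}
    (h : ∀ p v, B (Cb.fn c p) (B' (Cb.fn c' p) v) = B'' (Cb.fn c'' p) v) (ξ : W k U) :
    mul k B c (mul k B' c' ξ) = mul k B'' c'' ξ := by
  refine W.induction (P := fun ξ => mul k B c (mul k B' c' ξ) = mul k B'' c'' ξ)
    (isClosed_eq ((mul k B c).continuous.comp (mul k B' c').continuous) (mul k B'' c'').continuous)
    (fun φ => ?_) ξ
  rw [mul_co hk B' c' φ, mul_co hk B'' c'' φ]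
  exact mul_co_Mul hk B c _ _ fun p => (h p _).symm

theorem inc_mul {k : ℕ} (hk : k ≤ 1) (B : F →L[ℝ] U₁ →L[ℝ] U₂) (c : Cb F) (ξ : W (k + 1) U₁) :
    inc k (mul (k + 1) B c ξ) = mul k B c (inc k ξ) := by
  refine W.induction (P := fun ξ => inc k (mul (k + 1) B c ξ) = mul k B c (inc k ξ))
    (isClosed_eq ((inc k).continuous.comp (mul (k + 1) B c).continuous)
      ((mul k B c).continuous.comp (inc k).continuous)) (fun φ => ?_) ξ
  rw [mul_co (by omega), inc_co, inc_co, mul_co (by omega)]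

theorem to0_mul {k : ℕ} (hk : k ≤ 2) (B : F →L[ℝ] U₁ →L[ℝ] U₂) (c : Cb F) (ξ : W k U₁) :
    to0 k (mul k B c ξ) = mul 0 B c (to0 k ξ) := by
  refine W.induction (P := fun ξ => to0 k (mul k B c ξ) = mul 0 B c (to0 k ξ))
    (isClosed_eq ((to0 k).continuous.comp (mul k B c).continuous)
      ((mul 0 B c).continuous.comp (to0 k).continuous)) (fun φ => ?_) ξ
  rw [mul_co hk, to0_co, to0_co, mul_co (by omega)]

theorem dS_mul {k : ℕ} (hk : k ≤ 1) (B : F →L[ℝ] U₁ →L[ℝ] U₂) (c : Cb F) (ξ : W (k + 1) U₁) :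
    dS k (mul (k + 1) B c ξ) =
      mul k B (toCb (ds (Cb.fn c))) (inc k ξ) + mul k B c (dS k ξ) := by
  refine W.induction (P := fun ξ => dS k (mul (k + 1) B c ξ) =
      mul k B (toCb (ds (Cb.fn c))) (inc k ξ) + mul k B c (dS k ξ))
    (isClosed_eq ((dS k).continuous.comp (mul (k + 1) B c).continuous)
      (((mul k B _).continuous.comp (inc k).continuous).add
        ((mul k B c).continuous.comp (dS k).continuous))) (fun φ => ?_) ξ
  rw [mul_co (by omega), dS_co, inc_co, dS_co, mul_co (by omega), mul_co (by omega), ← map_add]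
  refine congrArg _ (Subtype.ext (funext fun p => ?_))
  change ds (fun p => B (Cb.fn c p) (φ.1 p)) p =
    B (Cb.fn (toCb (ds (Cb.fn c))) p) (φ.1 p) + B (Cb.fn c p) (ds φ.1 p)
  rw [fn_toCb c.bdd.ds c.per.ds]
  exact ds_bil B (c.bdd.1.differentiable (by simp) p) (φ.2.1.differentiable (by simp) p)

theorem dT_mul {k : ℕ} (hk : k ≤ 1) (B : F →L[ℝ] U₁ →L[ℝ] U₂) (c : Cb F) (ξ : W (k + 1) U₁) :
    dT k (mul (k + 1) B c ξ) =
      mul k B (toCb (dt (Cb.fn c))) (inc k ξ) + mul k B c (dT k ξ) := by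
  refine W.induction (P := fun ξ => dT k (mul (k + 1) B c ξ) =
      mul k B (toCb (dt (Cb.fn c))) (inc k ξ) + mul k B c (dT k ξ))
    (isClosed_eq ((dT k).continuous.comp (mul (k + 1) B c).continuous)
      (((mul k B _).continuous.comp (inc k).continuous).add
        ((mul k B c).continuous.comp (dT k).continuous))) (fun φ => ?_) ξ
  rw [mul_co (by omega), dT_co, inc_co, dT_co, mul_co (by omega), mul_co (by omega), ← map_add]
  refine congrArg _ (Subtype.ext (funext fun p => ?_))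
  change dt (fun p => B (Cb.fn c p) (φ.1 p)) p =
    B (Cb.fn (toCb (dt (Cb.fn c))) p) (φ.1 p) + B (Cb.fn c p) (dt φ.1 p)
  rw [fn_toCb c.bdd.dt c.per.dt]
  exact dt_bil B (c.bdd.1.differentiable (by simp) p) (φ.2.1.differentiable (by simp) p)

theorem trW_mul {k : ℕ} (hk : k ≤ 2) (B : F →L[ℝ] U₁ →L[ℝ] U₂) (c : Cb F) (a : Pl) (ξ : W k U₁) :
    trW k a (mul k B c ξ) = mul k B (toCb (tsl a (Cb.fn c))) (trW k a ξ) := by
  refine W.induction (P := fun ξ => trW k a (mul k B c ξ) =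
      mul k B (toCb (tsl a (Cb.fn c))) (trW k a ξ))
    (isClosed_eq ((trW k a).continuous.comp (mul k B c).continuous)
      ((mul k B _).continuous.comp (trW k a).continuous)) (fun φ => ?_) ξ
  rw [mul_co hk, trW_co, trW_co]
  refine (mul_co_Mul hk B _ _ _ fun p => ?_).symm
  rw [fn_toCb (c.bdd.tsl a) (c.per.tsl a)]
  rfl

theorem inner_mul {B : F →L[ℝ] U₁ →L[ℝ] U₂} {B' : F₁ →L[ℝ] U₂ →L[ℝ] U₁} {c : Cb F} {c' : Cb F₁}
    (h : ∀ p u v, ⟪B (Cb.fn c p) u, v⟫ = ⟪u, B' (Cb.fn c' p) v⟫) (ξ : W 0 U₁) (η : W 0 U₂) :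
    ⟪mul 0 B c ξ, η⟫ = ⟪ξ, mul 0 B' c' η⟫ := by
  refine W.induction (P := fun ξ => ⟪mul 0 B c ξ, η⟫ = ⟪ξ, mul 0 B' c' η⟫)
    (isClosed_eq ((mul 0 B c).continuous.inner continuous_const)
      (continuous_id.inner continuous_const)) (fun φ => ?_) ξ
  refine W.induction (P := fun η => ⟪mul 0 B c (co 0 φ), η⟫ = ⟪co 0 φ, mul 0 B' c' η⟫)
    (isClosed_eq (continuous_const.inner continuous_id)
      (continuous_const.inner (mul 0 B' c').continuous)) (fun ψ => ?_) η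
  rw [mul_co (by omega), mul_co (by omega), inner_co, inner_co, ip_zero, ip_zero]
  exact congrArg _ (funext fun p => h p _ _)

/-- A pointwise lower bound integrates. -/
theorem inner_mul_ge {B : F →L[ℝ] U →L[ℝ] U} {c : Cb F} {r : ℝ}
    (h : ∀ p v, r * ‖v‖ ^ 2 ≤ ⟪v, B (Cb.fn c p) v⟫) (ξ : W 0 U) :
    r * ‖ξ‖ ^ 2 ≤ ⟪ξ, mul 0 B c ξ⟫ := by
  refine W.induction (P := fun ξ => r * ‖ξ‖ ^ 2 ≤ ⟪ξ, mul 0 B c ξ⟫)
    (isClosed_le (continuous_const.mul (continuous_norm.pow 2))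
      (continuous_id.inner (mul 0 B c).continuous)) (fun φ => ?_) ξ
  rw [mul_co (by omega), inner_co, norm_co_sq, ip_zero, ip_zero, ← integral_const_mul]
  refine integral_mono ((integrableOn_inner φ.2 φ.2.1.continuous).const_mul r)
    (integrableOn_inner φ.2 (bil_mem c.bdd.1 c.per φ.2 B).1.continuous) fun p => ?_
  have := h p (φ.1 p)
  rw [← real_inner_self_eq_norm_sq] at this
  exact this

theorem toCb_add {f g : Pl → F} (hf : Bdd f) (hf' : Per f) (hg : Bdd g) (hg' : Per g) :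
    toCb (f + g) = toCb f + toCb g := by
  have h := (Cbs F).add_mem (show f ∈ Cbs F from ⟨hf, hf'⟩) (show g ∈ Cbs F from ⟨hg, hg'⟩)
  refine Cb.ext ?_
  rw [map_add, fn_toCb h.1 h.2, fn_toCb hf hf', fn_toCb hg hg']

theorem toCb_sub {f g : Pl → F} (hf : Bdd f) (hf' : Per f) (hg : Bdd g) (hg' : Per g) :
    toCb (f - g) = toCb f - toCb g := by
  have h := (Cbs F).sub_mem (show f ∈ Cbs F from ⟨hf, hf'⟩) (show g ∈ Cbs F from ⟨hg, hg'⟩)
  refine Cb.ext ?_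
  rw [map_sub, fn_toCb h.1 h.2, fn_toCb hf hf', fn_toCb hg hg']

theorem sc_co {k : ℕ} (hk : k ≤ 2) {χ : Pl → ℝ} (h : Bdd χ) (hp : Per χ) (φ ψ : Dsub U)
    (e : ∀ p, ψ.1 p = χ p • φ.1 p) : sc k χ (co k φ) = co k ψ :=
  mul_co_Mul hk _ _ φ ψ fun p => by rw [fn_toCb h hp]; exact e p

theorem norm_sc_le {k : ℕ} (hk : k ≤ 2) {χ : Pl → ℝ} (h : Bdd χ) (hp : Per χ) {a : ℝ}
    (ha : Cn k χ univ a) (ξ : W k U) : ‖sc k χ ξ‖ ≤ 9 * a * ‖ξ‖ := by
  have h1 := norm_mul_le hk (ContinuousLinearMap.lsmul ℝ ℝ : ℝ →L[ℝ] U →L[ℝ] U) (toCb χ) (a := a)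
    (by rw [fn_toCb h hp]; exact ha) ξ
  have h2 : ‖(ContinuousLinearMap.lsmul ℝ ℝ : ℝ →L[ℝ] U →L[ℝ] U)‖ ≤ 1 :=
    ContinuousLinearMap.opNorm_lsmul_le
  have h3 := nonneg_Mul ha
  refine h1.trans ?_
  calc 9 * ‖(ContinuousLinearMap.lsmul ℝ ℝ : ℝ →L[ℝ] U →L[ℝ] U)‖ * a * ‖ξ‖ ≤ 9 * 1 * a * ‖ξ‖ := by
        gcongr
    _ = _ := by rw [mul_one]

theorem sc_sc {k : ℕ} (hk : k ≤ 2) {χ χ' : Pl → ℝ} (h : Bdd χ) (hp : Per χ) (h' : Bdd χ')
    (hp' : Per χ') (ξ : W k U) : sc k χ (sc k χ' ξ) = sc k (χ * χ') ξ := by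
  have hb : Bdd (χ * χ') := h.bil h' (ContinuousLinearMap.mul ℝ ℝ)
  have hq : Per (χ * χ') := fun s t => by simp only [Pi.mul_apply, hp s t, hp' s t]
  refine mul_mul hk (fun p v => ?_) ξ
  rw [fn_toCb h hp, fn_toCb h' hp', fn_toCb hb hq]
  exact (mul_smul (χ p) (χ' p) v).symm

theorem sc_add {k : ℕ} {χ χ' : Pl → ℝ} (h : Bdd χ) (hp : Per χ) (h' : Bdd χ') (hp' : Per χ')
    (ξ : W k U) : sc k (χ + χ') ξ = sc k χ ξ + sc k χ' ξ := by
  rw [sc, toCb_add h hp h' hp', map_add]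
  rfl

theorem sc_one {k : ℕ} (hk : k ≤ 2) (ξ : W k U) : sc k 1 ξ = ξ := by
  have e : Cb.fn (toCb (1 : Pl → ℝ)) = 1 := fn_toCb (bdd_const (1 : ℝ)) fun _ _ => rfl
  refine (mul_eq_clm_id hk (r := 1) (fun p v => ?_) ξ).trans (one_smul ℝ ξ)
  rw [e]
  rfl

theorem sc_zero {k : ℕ} (ξ : W k U) : sc k 0 ξ = 0 := by
  have e : toCb (0 : Pl → ℝ) = 0 := toCb_fn (0 : Cb ℝ)
  rw [sc, e, map_zero]
  rfl

theorem sc_mul {k : ℕ} (hk : k ≤ 2) {χ : Pl → ℝ} (h : Bdd χ) (hp : Per χ)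
    (B : F →L[ℝ] U₁ →L[ℝ] U₂) (c : Cb F) (ξ : W k U₁) :
    sc k χ (mul k B c ξ) = mul k B c (sc k χ ξ) := by
  have _ := h
  have _ := hp
  refine W.induction (P := fun ξ => sc k χ (mul k B c ξ) = mul k B c (sc k χ ξ))
    (isClosed_eq ((sc k χ).continuous.comp (mul k B c).continuous)
      ((mul k B c).continuous.comp (sc k χ).continuous)) (fun φ => ?_) ξ
  rw [mul_co hk, sc, sc, mul_co hk, mul_co hk]
  refine (mul_co_Mul hk B c _ _ fun p => ?_).symm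
  exact ((B (Cb.fn c p)).map_smul (Cb.fn (toCb χ) p) (φ.1 p)).symm

end

end Pool.Agent.P.MP_de3acd_gt.FH
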