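import Pool.Agent.P.MP_de3acd_gt.FH.OpsA
import Pool.Agent.P.MP_de3acd_gt.FH.JetN

/-! Sobolev embedding of W 2 into continuous functions.
Sketch of sob_loc: one variable, g smooth on [a, a+1], x in it: ‖g x‖^2 ≤ 2 ∫‖g‖^2 + 2 ∫‖g'‖^2 (‖g x‖ ≤ ‖g y‖ + ∫‖g'‖,
integrate in y, Cauchy-Schwarz). Apply it in t on a unit interval (reduce p.2 to [0,1] by Per.int), then in s to
f (·,t) and dt f (·,t); lintegral_prod. The terms are f, ds f, dt f, ds (dt f), all in nrm 2.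
ev: exists_ext. Hoelder: for |h| ≤ 1 apply the one variable inequality in t to f (s+h, ·) - f (s, ·), and
‖f (s+h,t) - f (s,t)‖^2 ≤ |h| ∫‖ds f‖^2 ds, the same for dt f; symmetric in t with the roles exchanged
(periodicity, intervals of length 1). fn_tendsto: uniform limit of test functions. -/

open Set Filter Topology MeasureTheory
open scoped ContDiff NNReal ENNReal RealInnerProductSpace

namespace Pool.Agent.P.MP_de3acd_gt.FH

noncomputable section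

variable {U U₁ U₂ : Type} [NormedAddCommGroup U] [InnerProductSpace ℝ U] [NormedAddCommGroup U₁]
  [InnerProductSpace ℝ U₁] [NormedAddCommGroup U₂] [InnerProductSpace ℝ U₂]
variable {F F₁ F₂ : Type} [NormedAddCommGroup F] [NormedSpace ℝ F] [NormedAddCommGroup F₁]
  [NormedSpace ℝ F₁] [NormedAddCommGroup F₂] [NormedSpace ℝ F₂]

private theorem cs_Sob {μ : Measure ℝ} {h : ℝ → ℝ≥0∞} (hh : Measurable h) :
    (∫⁻ s, h s ∂μ) ^ 2 ≤ μ univ * ∫⁻ s, h s ^ 2 ∂μ := by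
  have h1 := ENNReal.lintegral_mul_le_Lp_mul_Lq μ Real.HolderConjugate.two_two
    (f := fun _ => (1 : ℝ≥0∞)) (g := h) aemeasurable_const hh.aemeasurable
  simp only [Pi.mul_apply, lintegral_const, ENNReal.rpow_two, one_pow, one_mul] at h1
  refine (pow_le_pow_left' h1 2).trans_eq ?_
  have e : ∀ x : ℝ≥0∞, (x ^ (1 / 2 : ℝ)) ^ 2 = x := fun x => by
    rw [← ENNReal.rpow_two, ← ENNReal.rpow_mul]
    norm_num
  rw [mul_pow, e, e]

private theorem sq_add_Sob (u v : F) : ‖u + v‖ₑ ^ 2 ≤ 2 * ‖u‖ₑ ^ 2 + 2 * ‖v‖ₑ ^ 2 := by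
  have h1 := ENNReal.rpow_add_le_mul_rpow_add_rpow ‖u‖ₑ ‖v‖ₑ (p := 2) one_le_two
  have e : (2 : ℝ) - 1 = 1 := by norm_num
  rw [e, ENNReal.rpow_one] at h1
  simp only [ENNReal.rpow_two] at h1
  exact (pow_le_pow_left' (enorm_add_le u v) 2).trans (h1.trans_eq (mul_add _ _ _))

private theorem meas_Sob {α : Type} [TopologicalSpace α] [MeasurableSpace α]
    [OpensMeasurableSpace α] {h : α → F} (hh : Continuous h) : Measurable fun p => ‖h p‖ₑ ^ 2 :=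
  hh.enorm.measurable.pow_const 2

private theorem diff_Sob [CompleteSpace F] {g g' : ℝ → F} (hg : ∀ x, HasDerivAt g (g' x) x)
    (hc : Continuous g') {x y : ℝ} {I : Set ℝ} (hI : uIcc x y ⊆ I) :
    ‖g x - g y‖ₑ ^ 2 ≤ ENNReal.ofReal |x - y| * ∫⁻ s in I, ‖g' s‖ₑ ^ 2 := by
  wlog h : y ≤ x generalizing x y
  · have h1 := this (x := y) (y := x) (by rwa [uIcc_comm]) (le_of_not_ge h)
    rwa [enorm_sub_rev, abs_sub_comm]
  rw [← intervalIntegral.integral_eq_sub_of_hasDerivAt (fun s _ => hg s)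
    (hc.intervalIntegrable y x), intervalIntegral.integral_of_le h]
  refine (pow_le_pow_left' (enorm_integral_le_lintegral_enorm _) 2).trans
    ((cs_Sob hc.enorm.measurable).trans ?_)
  rw [Measure.restrict_apply_univ, Real.volume_Ioc, abs_of_nonneg (sub_nonneg.2 h)]
  refine mul_le_mul_right (lintegral_mono_set (Ioc_subset_Icc_self.trans ?_)) _
  rwa [uIcc_of_ge h] at hI

private theorem one_Sob [CompleteSpace F] {g g' : ℝ → F} (hg : ∀ x, HasDerivAt g (g' x) x)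
    (hc : Continuous g') {x a : ℝ} (hx : x ∈ Icc a (a + 1)) :
    ‖g x‖ₑ ^ 2 ≤ 2 * (∫⁻ s in Icc a (a + 1), ‖g s‖ₑ ^ 2) +
      2 * ∫⁻ s in Icc a (a + 1), ‖g' s‖ₑ ^ 2 := by
  have hgc : Continuous g := continuous_iff_continuousAt.2 fun x => (hg x).continuousAt
  have hv : volume (Icc a (a + 1)) = 1 := by simp
  have h1 : ∀ y ∈ Icc a (a + 1), ‖g x‖ₑ ^ 2 ≤
      2 * ‖g y‖ₑ ^ 2 + 2 * ∫⁻ s in Icc a (a + 1), ‖g' s‖ₑ ^ 2 := by
    intro y hy
    have h2 := diff_Sob hg hc (uIcc_subset_Icc hx hy)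
    have h3 : ENNReal.ofReal |x - y| ≤ 1 := by
      rw [ENNReal.ofReal_le_one, abs_le]
      constructor <;> linarith [hx.1, hx.2, hy.1, hy.2]
    have h4 := sq_add_Sob (g y) (g x - g y)
    rw [add_sub_cancel] at h4
    refine h4.trans (add_le_add_right (mul_le_mul_right (h2.trans ?_) _) _)
    exact mul_le_of_le_one_left' h3
  calc ‖g x‖ₑ ^ 2 = ∫⁻ _ in Icc a (a + 1), ‖g x‖ₑ ^ 2 := by rw [setLIntegral_const, hv, mul_one]
    _ ≤ ∫⁻ y in Icc a (a + 1), (2 * ‖g y‖ₑ ^ 2 + 2 * ∫⁻ s in Icc a (a + 1), ‖g' s‖ₑ ^ 2) :=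
      setLIntegral_mono' measurableSet_Icc h1
    _ = _ := by
      rw [lintegral_add_right _ measurable_const, setLIntegral_const, hv, mul_one,
        lintegral_const_mul _ (meas_Sob hgc)]

private theorem fub_Sob {h : Pl → F} (hh : Continuous h) (I : Set ℝ) :
    nrm 0 h I = ∫⁻ s in I, ∫⁻ t in Icc 0 1, ‖h (s, t)‖ₑ ^ 2 :=
  setLIntegral_prod (μ := volume) (ν := volume) _ (meas_Sob hh).aemeasurable

private theorem fub'_Sob {h : Pl → F} (hh : Continuous h) (I : Set ℝ) :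
    nrm 0 h I = ∫⁻ t in Icc 0 1, ∫⁻ s in I, ‖h (s, t)‖ₑ ^ 2 := by
  rw [nrm_zero, Measure.volume_eq_prod, ← Measure.prod_restrict,
    lintegral_prod_symm _ (meas_Sob hh).aemeasurable]

private theorem hds_Sob {h : Pl → F} (hh : ContDiff ℝ ∞ h) (t s : ℝ) :
    HasDerivAt (fun s => h (s, t)) (ds h (s, t)) s :=
  hasDerivAt_ds (hh.differentiable (by simp) _)

private theorem hdt_Sob {h : Pl → F} (hh : ContDiff ℝ ∞ h) (s t : ℝ) :
    HasDerivAt (fun t => h (s, t)) (dt h (s, t)) t :=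
  hasDerivAt_dt (hh.differentiable (by simp) _)

private theorem cs'_Sob {h : Pl → F} (hh : Continuous h) (t : ℝ) : Continuous fun s => h (s, t) :=
  hh.comp (continuous_id.prodMk continuous_const)

private theorem ct_Sob {h : Pl → F} (hh : Continuous h) (s : ℝ) : Continuous fun t => h (s, t) :=
  hh.comp (continuous_const.prodMk continuous_id)

private theorem slice_Sob [CompleteSpace F] {h : Pl → F} (hh : ContDiff ℝ ∞ h) {s a : ℝ}
    (hs : s ∈ Icc a (a + 1)) : ∫⁻ t in Icc 0 1, ‖h (s, t)‖ₑ ^ 2 ≤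
      2 * nrm 0 h (Icc a (a + 1)) + 2 * nrm 0 (ds h) (Icc a (a + 1)) := by
  have m1 : Measurable fun t => ∫⁻ s in Icc a (a + 1), ‖h (s, t)‖ₑ ^ 2 :=
    (meas_Sob hh.continuous).lintegral_prod_left'
  have m2 : Measurable fun t => ∫⁻ s in Icc a (a + 1), ‖ds h (s, t)‖ₑ ^ 2 :=
    (meas_Sob (contDiff_ds hh).continuous).lintegral_prod_left'
  rw [fub'_Sob hh.continuous, fub'_Sob (contDiff_ds hh).continuous, ← lintegral_const_mul _ m1,
    ← lintegral_const_mul _ m2, ← lintegral_add_left (m1.const_mul 2)]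
  exact lintegral_mono fun t => one_Sob (hds_Sob hh t) (cs'_Sob (contDiff_ds hh).continuous t) hs

private theorem fract_Sob {α : Type} {f : Pl → α} (hp : Per f) (s t : ℝ) :
    f (s, t) = f (s, Int.fract t) := by
  rw [← hp.int s (Int.fract t) ⌊t⌋, Int.fract_add_floor]

private theorem mem_Sob (t : ℝ) : Int.fract t ∈ Icc (0 : ℝ) (0 + 1) :=
  ⟨Int.fract_nonneg t, by rw [zero_add]; exact (Int.fract_lt_one t).le⟩

private theorem two_Sob (f : Pl → F) (I : Set ℝ) : nrm 2 f I = nrm 0 f I +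
    (nrm 0 (ds f) I + nrm 0 (ds (ds f)) I + nrm 0 (dt (ds f)) I) +
      (nrm 0 (dt f) I + nrm 0 (ds (dt f)) I + nrm 0 (dt (dt f)) I) := rfl

private theorem loc_Sob [CompleteSpace F] {f : Pl → F} (hf : ContDiff ℝ ∞ f) (hp : Per f) {p : Pl}
    {a : ℝ} (h : p.1 ∈ Icc a (a + 1)) : ‖f p‖ₑ ^ 2 ≤ 4 * nrm 2 f (Icc a (a + 1)) := by
  obtain ⟨s, t⟩ := p
  have h1 := one_Sob (hdt_Sob hf s) (ct_Sob (contDiff_dt hf).continuous s) (mem_Sob t)
  rw [zero_add] at h1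
  rw [fract_Sob hp]
  refine h1.trans ((add_le_add (mul_le_mul_right (slice_Sob hf h) _)
    (mul_le_mul_right (slice_Sob (contDiff_dt hf) h) _)).trans ?_)
  rw [two_Sob]
  refine le_iff_exists_add.2 ⟨4 * (nrm 0 (ds (ds f)) (Icc a (a + 1)) +
    nrm 0 (dt (ds f)) (Icc a (a + 1)) + nrm 0 (dt (dt f)) (Icc a (a + 1))), by ring⟩

private theorem incs_Sob [CompleteSpace F] {h : Pl → F} (hh : ContDiff ℝ ∞ h) (s s' : ℝ) :
    ∫⁻ t in Icc 0 1, ‖h (s, t) - h (s', t)‖ₑ ^ 2 ≤ ENNReal.ofReal |s - s'| * nrm 0 (ds h) univ := by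
  have m2 : Measurable fun t => ∫⁻ s in univ, ‖ds h (s, t)‖ₑ ^ 2 :=
    (meas_Sob (contDiff_ds hh).continuous).lintegral_prod_left'
  rw [fub'_Sob (contDiff_ds hh).continuous, ← lintegral_const_mul _ m2]
  exact lintegral_mono fun t =>
    diff_Sob (hds_Sob hh t) (cs'_Sob (contDiff_ds hh).continuous t) (subset_univ _)

private theorem inct_Sob [CompleteSpace F] {h : Pl → F} (hh : ContDiff ℝ ∞ h) {t t' : ℝ}
    (ht : t ∈ Icc (0 : ℝ) 1) (ht' : t' ∈ Icc (0 : ℝ) 1) (I : Set ℝ) :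
    ∫⁻ s in I, ‖h (s, t) - h (s, t')‖ₑ ^ 2 ≤ ENNReal.ofReal |t - t'| * nrm 0 (dt h) univ := by
  have m2 : Measurable fun s => ∫⁻ t in Icc (0 : ℝ) 1, ‖dt h (s, t)‖ₑ ^ 2 :=
    (meas_Sob (contDiff_dt hh).continuous).lintegral_prod_right'
  refine le_trans ?_ (mul_le_mul_right (nrm_mono (dt h) (le_refl 0) (subset_univ I)) _)
  rw [fub_Sob (contDiff_dt hh).continuous, ← lintegral_const_mul _ m2]
  exact lintegral_mono fun s =>
    diff_Sob (hdt_Sob hh s) (ct_Sob (contDiff_dt hh).continuous s) (uIcc_subset_Icc ht ht')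

private theorem hols_Sob [CompleteSpace F] {f : Pl → F} (hf : ContDiff ℝ ∞ f) (hp : Per f)
    (s s' t : ℝ) :
    ‖f (s, t) - f (s', t)‖ₑ ^ 2 ≤ 2 * ENNReal.ofReal |s - s'| * nrm 2 f univ := by
  have h1 := one_Sob (fun t => (hdt_Sob hf s t).sub (hdt_Sob hf s' t))
    ((ct_Sob (contDiff_dt hf).continuous s).sub (ct_Sob (contDiff_dt hf).continuous s'))
    (mem_Sob t)
  rw [zero_add] at h1
  rw [fract_Sob hp s, fract_Sob hp s']
  refine h1.trans ((add_le_add (mul_le_mul_right (incs_Sob hf s s') _)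
    (mul_le_mul_right (incs_Sob (contDiff_dt hf) s s') _)).trans ?_)
  rw [two_Sob]
  refine le_iff_exists_add.2 ⟨2 * ENNReal.ofReal |s - s'| * (nrm 0 f univ +
    nrm 0 (ds (ds f)) univ + nrm 0 (dt (ds f)) univ + nrm 0 (dt f) univ +
      nrm 0 (dt (dt f)) univ), by ring⟩

private theorem holt0_Sob [CompleteSpace F] {f : Pl → F} (hf : ContDiff ℝ ∞ f) (s : ℝ) {t t' : ℝ}
    (ht : t ∈ Icc (0 : ℝ) 1) (ht' : t' ∈ Icc (0 : ℝ) 1) :
    ‖f (s, t) - f (s, t')‖ₑ ^ 2 ≤ 2 * ENNReal.ofReal |t - t'| * nrm 2 f univ := by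
  have h1 := one_Sob (fun s => (hds_Sob hf t s).sub (hds_Sob hf t' s))
    ((cs'_Sob (contDiff_ds hf).continuous t).sub (cs'_Sob (contDiff_ds hf).continuous t'))
    (left_mem_Icc.2 (le_add_of_nonneg_right zero_le_one) : s ∈ Icc s (s + 1))
  refine h1.trans ((add_le_add (mul_le_mul_right (inct_Sob hf ht ht' _) _)
    (mul_le_mul_right (inct_Sob (contDiff_ds hf) ht ht' _) _)).trans ?_)
  rw [two_Sob]
  refine le_iff_exists_add.2 ⟨2 * ENNReal.ofReal |t - t'| * (nrm 0 f univ +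
    nrm 0 (ds f) univ + nrm 0 (ds (ds f)) univ + nrm 0 (ds (dt f)) univ +
      nrm 0 (dt (dt f)) univ), by ring⟩

private theorem holt_Sob [CompleteSpace F] {f : Pl → F} (hf : ContDiff ℝ ∞ f) (hp : Per f)
    (s : ℝ) {t t' : ℝ} (h : |t - t'| ≤ 1) :
    ‖f (s, t) - f (s, t')‖ₑ ^ 2 ≤ 2 * ENNReal.ofReal |t - t'| * nrm 2 f univ := by
  have h0 := abs_le.1 h
  have h1 := holt0_Sob (contDiff_tsl hf (0, min t t')) s (t := t - min t t') (t' := t' - min t t')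
    ⟨sub_nonneg.2 (min_le_left _ _), by
      rcases min_choice t t' with e | e <;> rw [e] <;> linarith [h0.1, h0.2]⟩
    ⟨sub_nonneg.2 (min_le_right _ _), by
      rcases min_choice t t' with e | e <;> rw [e] <;> linarith [h0.1, h0.2]⟩
  have h2 := nrm_tsl 2 hf hp (0, min t t') MeasurableSet.univ
  rw [preimage_univ] at h2
  rw [h2, sub_sub_sub_cancel_right] at h1
  simpa only [tsl, Prod.mk_add_mk, add_zero, sub_add_cancel] using h1

private theorem real_Sob {v : F} {b : ℝ} (hb : 0 ≤ b) (h : ‖v‖ₑ ^ 2 ≤ ENNReal.ofReal (b ^ 2)) :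
    ‖v‖ ≤ b := by
  rw [← ofReal_norm, ← ENNReal.ofReal_pow (norm_nonneg _),
    ENNReal.ofReal_le_ofReal_iff (sq_nonneg _)] at h
  exact (pow_le_pow_iff_left₀ (norm_nonneg _) hb two_ne_zero).1 h

private theorem sup_Sob [CompleteSpace U] (φ : Dsub U) (p : Pl) : ‖φ.1 p‖ ≤ 2 * ‖co 2 φ‖ := by
  refine real_Sob (by positivity) ((loc_Sob φ.2.1 φ.2.2.1
    (left_mem_Icc.2 (le_add_of_nonneg_right zero_le_one))).trans
      ((mul_le_mul_right (nrm_mono φ.1 le_rfl (subset_univ _)) _).trans_eq ?_))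
  rw [nrm_co, mul_pow, ENNReal.ofReal_mul (by positivity)]
  norm_num

private theorem conv_Sob (φ : Dsub U) {v : U} {x d : ℝ} (hx : |x| ≤ d)
    (h : ‖v‖ₑ ^ 2 ≤ 2 * ENNReal.ofReal |x| * nrm 2 φ.1 univ) : ‖v‖ ≤ 2 * ‖co 2 φ‖ * √d := by
  have hd : 0 ≤ d := (abs_nonneg x).trans hx
  refine real_Sob (by positivity) (h.trans ?_)
  rw [nrm_co, ← ENNReal.ofReal_ofNat 2, ← ENNReal.ofReal_mul (by positivity),
    ← ENNReal.ofReal_mul (by positivity)]
  refine ENNReal.ofReal_le_ofReal ?_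
  rw [mul_pow, mul_pow, Real.sq_sqrt hd]
  nlinarith [sq_nonneg ‖co 2 φ‖, abs_nonneg x, mul_le_mul_of_nonneg_right hx (sq_nonneg ‖co 2 φ‖),
    mul_nonneg hd (sq_nonneg ‖co 2 φ‖)]

private theorem hol_Sob [CompleteSpace U] (φ : Dsub U) (p q : Pl) :
    ‖φ.1 p - φ.1 q‖ ≤ 4 * ‖co 2 φ‖ * √(dist p q) := by
  rcases le_total (dist p q) 1 with h | h
  · obtain ⟨s, t⟩ := p
    obtain ⟨s', t'⟩ := q
    have hs : |s - s'| ≤ dist (s, t) (s', t') := by
      rw [Prod.dist_eq, ← Real.dist_eq]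
      exact le_max_left _ _
    have ht : |t - t'| ≤ dist (s, t) (s', t') := by
      rw [Prod.dist_eq, ← Real.dist_eq]
      exact le_max_right _ _
    have h1 := conv_Sob φ hs (hols_Sob φ.2.1 φ.2.2.1 s s' t)
    have h2 := conv_Sob φ ht (holt_Sob φ.2.1 φ.2.2.1 s' (ht.trans h))
    have h3 := norm_sub_le_norm_sub_add_norm_sub (φ.1 (s, t)) (φ.1 (s', t)) (φ.1 (s', t'))
    linarith
  · have h1 := sup_Sob φ p
    have h2 := sup_Sob φ q
    have h3 := norm_sub_le (φ.1 p) (φ.1 q)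
    have h4 : 1 ≤ √(dist p q) := Real.one_le_sqrt.2 h
    have h5 : 4 * ‖co 2 φ‖ ≤ 4 * ‖co 2 φ‖ * √(dist p q) :=
      le_mul_of_one_le_right (by positivity) h4
    linarith

theorem sob_loc [CompleteSpace F] : ∃ c : ℝ≥0, ∀ (f : Pl → F) (p : Pl) (a : ℝ), ContDiff ℝ ∞ f →
    Per f → p.1 ∈ Icc a (a + 1) → ‖f p‖ₑ ^ 2 ≤ c * nrm 2 f (Icc a (a + 1)) := by
  exact ⟨4, fun f p a hf hp h => by simpa using loc_Sob hf hp h⟩

variable [CompleteSpace U]

theorem ev_co (p : Pl) (φ : Dsub U) : ev p (co 2 φ) = φ.1 p := by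
  obtain ⟨T, hT, -⟩ := exists_ext 2 ((LinearMap.proj p).comp (Dsub U).subtype) zero_le_two
    fun φ => sup_Sob φ p
  exact Classical.epsilon_spec (p := fun T : W 2 U →L[ℝ] U => ∀ φ, T (co _ φ) = φ.1 p) ⟨T, hT⟩ φ

theorem fn_co (φ : Dsub U) : fn (co 2 φ) = φ.1 := by
  exact funext fun p => ev_co p φ

theorem fn_add (ξ η : W 2 U) : fn (ξ + η) = fn ξ + fn η := by
  exact funext fun p => map_add (ev p) ξ η

theorem fn_sub (ξ η : W 2 U) : fn (ξ - η) = fn ξ - fn η := by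
  exact funext fun p => map_sub (ev p) ξ η

theorem fn_smul (r : ℝ) (ξ : W 2 U) : fn (r • ξ) = r • fn ξ := by
  exact funext fun p => map_smul (ev p) r ξ

theorem fn_zero : fn (0 : W 2 U) = 0 := by
  exact funext fun p => map_zero (ev p)

theorem sob : ∃ c, 0 < c ∧ ∀ (ξ : W 2 U) (p q : Pl), ‖fn ξ p‖ ≤ c * ‖ξ‖ ∧
    ‖fn ξ p - fn ξ q‖ ≤ c * ‖ξ‖ * √(dist p q) := by
  refine ⟨4, by norm_num, fun ξ p q => ⟨?_, ?_⟩⟩
  · refine W.induction (P := fun ξ : W 2 U => ‖ev p ξ‖ ≤ 4 * ‖ξ‖)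
      (isClosed_le (by fun_prop) (by fun_prop)) (fun φ => ?_) ξ
    have h1 := sup_Sob φ p
    have h2 := norm_nonneg (co 2 φ)
    change ‖ev p (co 2 φ)‖ ≤ 4 * ‖co 2 φ‖
    rw [ev_co]
    linarith
  · refine W.induction (P := fun ξ : W 2 U => ‖ev p ξ - ev q ξ‖ ≤ 4 * ‖ξ‖ * √(dist p q))
      (isClosed_le (by fun_prop) (by fun_prop)) (fun φ => ?_) ξ
    change ‖ev p (co 2 φ) - ev q (co 2 φ)‖ ≤ 4 * ‖co 2 φ‖ * √(dist p q)
    rw [ev_co, ev_co]
    exact hol_Sob φ p q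

theorem continuous_fn (ξ : W 2 U) : Continuous (fn ξ) := by
  obtain ⟨c, -, hc⟩ := sob (U := U)
  refine continuous_iff_continuousAt.2 fun q => ?_
  refine tendsto_iff_norm_sub_tendsto_zero.2 (squeeze_zero (fun _ => norm_nonneg _)
    (fun p => (hc ξ p q).2) ?_)
  have h1 : Continuous fun p : Pl => c * ‖ξ‖ * √(dist p q) := by fun_prop
  simpa using h1.tendsto q

theorem per_fn (ξ : W 2 U) : Per (fn ξ) := by
  intro s t
  refine W.induction (P := fun ξ : W 2 U => ev (s, t + 1) ξ = ev (s, t) ξ)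
    (isClosed_eq (by fun_prop) (by fun_prop)) (fun φ => ?_) ξ
  change ev (s, t + 1) (co 2 φ) = ev (s, t) (co 2 φ)
  rw [ev_co, ev_co]
  exact φ.2.2.1 s t

theorem fn_trW (a : Pl) (ξ : W 2 U) : fn (trW 2 a ξ) = tsl a (fn ξ) := by
  funext p
  refine W.induction (P := fun ξ : W 2 U => ev p (trW 2 a ξ) = ev (p + a) ξ)
    (isClosed_eq (by fun_prop) (by fun_prop)) (fun φ => ?_) ξ
  change ev p (trW 2 a (co 2 φ)) = ev (p + a) (co 2 φ)
  rw [trW_co, ev_co, ev_co]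
  rfl

theorem fn_tendsto (ξ : W 2 U) {ε : ℝ} (hε : 0 < ε) : ∃ R, ∀ p : Pl, R ≤ |p.1| → ‖fn ξ p‖ ≤ ε := by
  obtain ⟨c, hc0, hc⟩ := sob (U := U)
  obtain ⟨φ, hφ⟩ := (denseRange_co (U := U) 2).exists_dist_lt ξ (div_pos hε hc0)
  obtain ⟨R, hR⟩ := φ.2.2.2
  refine ⟨R, fun p hp => ?_⟩
  have h1 := (hc (ξ - co 2 φ) p p).1
  rw [fn_sub, fn_co, Pi.sub_apply, hR p hp, sub_zero, ← dist_eq_norm] at h1
  have h2 := (lt_div_iff₀' hc0).1 hφ
  linarith

end

end Pool.Agent.P.MP_de3acd_gt.FH
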