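import Pool.Agent.P.MP_de3acd_gt.FH.Inj
import Pool.Agent.P.MP_de3acd_gt.FH.Mul
import Pool.Agent.P.MP_de3acd_gt.FH.Sob
import Pool.Agent.P.MP_de3acd_gt.FH.Cut

/-! Smooth functions with finite Sobolev norm as elements of W k.
Sketch: Rep.mul by inner_mul with B' = id and c' p = adjoint (B (c p)) (finite dimension; adjoint is a continuous
linear map), to0_mul, mul_co. tendsto_cut: the operators are uniformly bounded (norm_sc_le, cn_plat) and eventually
fix each test function. Rep.cut: Rep.mul and Rep.unique. Rep.nrm_eq: nrm k f (Icc (-T) T) ≤ nrm of the cut function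
(nrm_congr on the open interval or with T - 1) = ‖sc ξ‖^2 → ‖ξ‖^2, nrm_le_of_exhaust; this gives nrm k f < ⊤, and then
nrm k (f - cut f) → 0 (nrm_bil, nrm_tail, nrm_eq_of_supp), which gives the other inequality (sqrt of nrm is
subadditive up to (1+δ), or use integrals: ip k of the cut functions converges by dominated convergence).
rep_toW: the cut functions are Cauchy in W k by the tail estimate; the limit is represented by f. -/

open Set Filter Topology MeasureTheory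
open scoped ContDiff NNReal ENNReal RealInnerProductSpace

namespace Pool.Agent.P.MP_de3acd_gt.FH

noncomputable section

variable {U U₁ U₂ : Type} [NormedAddCommGroup U] [InnerProductSpace ℝ U] [NormedAddCommGroup U₁]
  [InnerProductSpace ℝ U₁] [NormedAddCommGroup U₂] [InnerProductSpace ℝ U₂]
variable {F F₁ F₂ : Type} [NormedAddCommGroup F] [NormedSpace ℝ F] [NormedAddCommGroup F₁]
  [NormedSpace ℝ F₁] [NormedAddCommGroup F₂] [NormedSpace ℝ F₂]

variable [FiniteDimensional ℝ U] [FiniteDimensional ℝ U₁] [FiniteDimensional ℝ U₂]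

theorem Rep.mul {k : ℕ} (hk : k ≤ 2) {ξ : W k U₁} {f : Pl → U₁} (h : Rep k ξ f)
    (B : F →L[ℝ] U₁ →L[ℝ] U₂) (c : Cb F) : Rep k (mul k B c ξ) fun p => B (Cb.fn c p) (f p) := by
  have := FiniteDimensional.complete ℝ U₁
  have := FiniteDimensional.complete ℝ U₂
  obtain ⟨B', hB'⟩ : ∃ B' : F →L[ℝ] U₂ →L[ℝ] U₁, ∀ x, B' x = ContinuousLinearMap.adjoint (B x) :=
    ⟨LinearMap.mkContinuous
      { toFun := fun x => ContinuousLinearMap.adjoint (B x)
        map_add' := fun x y => by rw [map_add, map_add]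
        map_smul' := fun r x => by rw [map_smul, LinearIsometryEquiv.map_smulₛₗ]; rfl } ‖B‖
      (fun x => by
        change ‖ContinuousLinearMap.adjoint (B x)‖ ≤ _
        rw [LinearIsometryEquiv.norm_map]
        exact B.le_opNorm x), fun _ => rfl⟩
  have e : ∀ p u v, ⟪B (Cb.fn c p) u, v⟫ = ⟪u, B' (Cb.fn c p) v⟫ := fun p u v => by
    rw [hB', ContinuousLinearMap.adjoint_inner_right]
  intro ψ
  rw [to0_mul hk, inner_mul e, mul_co (Nat.zero_le 2), h]
  simp only [ip_zero, e]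

theorem Rep.sc {k : ℕ} (hk : k ≤ 2) {ξ : W k U} {f : Pl → U} (h : Rep k ξ f) {χ : Pl → ℝ}
    (hχ : Bdd χ) (hp : Per χ) : Rep k (sc k χ ξ) fun p => χ p • f p := by
  have := h.mul hk (ContinuousLinearMap.lsmul ℝ ℝ) (toCb χ)
  rw [fn_toCb hχ hp] at this
  exact this

theorem tendsto_cut {k : ℕ} (hk : k ≤ 2) (ξ : W k U) :
    Tendsto (fun T : ℝ => sc k (plat (-T) T 1) ξ) atTop (𝓝 ξ) := by
  obtain ⟨A, hA, hAc⟩ := cn_plat k
  refine Metric.tendsto_nhds.2 fun ε hε => ?_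
  have hpos : 0 < 9 * A + 1 := by linarith
  obtain ⟨φ, hφ⟩ := (denseRange_co (U := U) k).exists_dist_lt ξ (div_pos hε hpos)
  obtain ⟨R, hR⟩ := φ.2.2.2
  filter_upwards [eventually_ge_atTop R] with T hT
  have e : sc k (plat (-T) T 1) (co k φ) = co k φ := by
    refine sc_co hk (bdd_plat _ _ _) (per_plat _ _ _) φ φ fun p => ?_
    by_cases hp : R ≤ |p.1|
    · rw [hR p hp, smul_zero]
    · have := abs_lt.1 ((lt_of_not_ge hp).trans_le hT)
      rw [plat_eq_one one_pos ⟨this.1.le, this.2.le⟩, one_smul]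
  have e2 : sc k (plat (-T) T 1) ξ - ξ = sc k (plat (-T) T 1) (ξ - co k φ) - (ξ - co k φ) := by
    rw [map_sub, e]
    abel
  have h1 := norm_sc_le hk (bdd_plat (-T) T 1) (per_plat _ _ _) (hAc (-T) T 1 le_rfl).1
    (ξ - co k φ)
  rw [dist_eq_norm, lt_div_iff₀ hpos] at hφ
  rw [dist_eq_norm, e2]
  refine (norm_sub_le _ _).trans_lt ?_
  linarith

theorem cut_mem {f : Pl → F} (hf : ContDiff ℝ ∞ f) (hp : Per f) {χ : Pl → ℝ} (hχ : χ ∈ Dsub ℝ) :
    (fun p => χ p • f p) ∈ Dsub F := by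
  obtain ⟨h1, h2, R, h3⟩ := hχ
  exact ⟨h1.smul hf, fun s t => by simp only [h2 s t, hp s t], R,
    fun p hp => by simp only [h3 p hp, zero_smul]⟩

theorem Rep.tendsto {k : ℕ} (hk : k ≤ 2) {ξ : W k U} {f : Pl → U} (h : Rep k ξ f)
    (hf : ContDiff ℝ ∞ f) (hp : Per f) : Tendsto (fun T : ℝ =>
      co k ⟨_, cut_mem hf hp (plat_mem_Dsub (-T) T one_pos)⟩) atTop (𝓝 ξ) := by
  refine (tendsto_cut hk ξ).congr fun T => ?_
  exact (h.sc hk (bdd_plat _ _ _) (per_plat _ _ _)).unique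
    (rep_co k ⟨_, cut_mem hf hp (plat_mem_Dsub (-T) T one_pos)⟩)

omit [FiniteDimensional ℝ U] in
theorem nrm_cut_le_RepEx {k : ℕ} (hk : k ≤ 2) {f : Pl → U} (hf : ContDiff ℝ ∞ f) {χ : Pl → ℝ}
    (hχ : ContDiff ℝ ∞ χ) {a : ℝ} (h0 : 0 ≤ a) {I : Set ℝ} (hI : MeasurableSet I)
    (ha : Cn k χ I a) :
    nrm k (fun p => χ p • f p) I ≤ ENNReal.ofReal (81 * a ^ 2) * nrm k f I := by
  refine (nrm_bil k (ContinuousLinearMap.lsmul ℝ ℝ) hI hχ hf ha).trans ?_
  refine mul_le_mul_left (ENNReal.ofReal_le_ofReal ?_) _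
  have h1 : (9 : ℝ) ^ k ≤ 9 ^ 2 := pow_le_pow_right₀ (by norm_num) hk
  have h2 : ‖(ContinuousLinearMap.lsmul ℝ ℝ : ℝ →L[ℝ] U →L[ℝ] U)‖ ≤ 1 :=
    ContinuousLinearMap.opNorm_lsmul_le
  have h3 : ‖(ContinuousLinearMap.lsmul ℝ ℝ : ℝ →L[ℝ] U →L[ℝ] U)‖ * a ≤ a :=
    mul_le_of_le_one_left h0 h2
  have h4 := pow_le_pow_left₀ (mul_nonneg (ContinuousLinearMap.opNorm_nonneg _) h0) h3 2
  calc _ ≤ 9 ^ 2 * a ^ 2 := mul_le_mul h1 h4 (sq_nonneg _) (by norm_num)
    _ = _ := by norm_num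

omit [FiniteDimensional ℝ U] in
theorem nrm_cut_eq_RepEx (k : ℕ) (f : Pl → U) {R T : ℝ} (hT : R < T) :
    nrm k (fun p => plat (-T) T 1 p • f p) (Icc (-R) R) = nrm k f (Icc (-R) R) := by
  refine nrm_congr k measurableSet_Icc fun p hp => ?_
  have : ∀ᶠ q : Pl in 𝓝 p, q.1 ∈ Ioo (-T) T :=
    continuous_fst.continuousAt.eventually_mem
      (Ioo_mem_nhds (by linarith [hp.1]) (by linarith [hp.2]))
  filter_upwards [this] with q hq
  rw [plat_eq_one one_pos ⟨hq.1.le, hq.2.le⟩, one_smul]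

theorem isClosed_tail_RepEx (R : ℝ) : IsClosed {s : ℝ | R ≤ |s|} :=
  isClosed_le continuous_const continuous_abs

omit [FiniteDimensional ℝ U] in
theorem tail_RepEx (k : ℕ) {f : Pl → U} (hf : ContDiff ℝ ∞ f) (h : nrm k f univ < ⊤) (C : ℝ) :
    Tendsto (fun R : ℝ => ENNReal.ofReal C * nrm k f {s | R ≤ |s|}) atTop (𝓝 0) := by
  have h1 := nrm_tail k hf MeasurableSet.univ h
  simp only [univ_inter] at h1
  have := ENNReal.Tendsto.const_mul (a := ENNReal.ofReal C) h1 (Or.inr ENNReal.ofReal_ne_top)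
  rwa [mul_zero] at this

theorem Rep.nrm_eq {k : ℕ} (hk : k ≤ 2) {ξ : W k U} {f : Pl → U} (h : Rep k ξ f)
    (hf : ContDiff ℝ ∞ f) (hp : Per f) : nrm k f univ = ENNReal.ofReal (‖ξ‖ ^ 2) := by
  have h1 : Tendsto (fun T : ℝ => nrm k (fun p => plat (-T) T 1 p • f p) univ) atTop
      (𝓝 (ENNReal.ofReal (‖ξ‖ ^ 2))) := by
    refine (ENNReal.tendsto_ofReal ((h.tendsto hk hf hp).norm.pow 2)).congr fun T => ?_
    exact (nrm_co k ⟨_, cut_mem hf hp (plat_mem_Dsub (-T) T one_pos)⟩).symm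
  have h2 : nrm k f univ ≤ ENNReal.ofReal (‖ξ‖ ^ 2) := by
    refine nrm_le_of_exhaust k hf MeasurableSet.univ fun R => ?_
    rw [univ_inter]
    refine ge_of_tendsto h1 ?_
    filter_upwards [eventually_gt_atTop R] with T hT
    rw [← nrm_cut_eq_RepEx k f hT]
    exact nrm_mono _ le_rfl (subset_univ _)
  refine le_antisymm h2 ?_
  obtain ⟨A, hA, hAc⟩ := cn_plat k
  have h3 := ((tail_RepEx k hf (h2.trans_lt ENNReal.ofReal_lt_top) (81 * A ^ 2)).comp
    (tendsto_atTop_add_const_right atTop (-1) tendsto_id)).const_add (nrm k f univ)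
  rw [add_zero] at h3
  refine le_of_tendsto_of_tendsto' h1 h3 fun T => ?_
  have e : (univ : Set ℝ) = Icc (-(T + -1)) (T + -1) ∪ {s | T + -1 ≤ |s|} := by
    refine (eq_univ_of_forall fun s => ?_).symm
    rcases le_total |s| (T + -1) with hs | hs
    · exact Or.inl (abs_le.1 hs)
    · exact Or.inr hs
  calc nrm k (fun p => plat (-T) T 1 p • f p) univ
      = nrm k (fun p => plat (-T) T 1 p • f p) (Icc (-(T + -1)) (T + -1) ∪ {s | T + -1 ≤ |s|}) := by
        rw [← e]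
    _ ≤ _ := nrm_union_le k _ _ _
    _ ≤ _ := by
        refine add_le_add ?_ ?_
        · rw [nrm_cut_eq_RepEx k f (by linarith)]
          exact nrm_mono _ le_rfl (subset_univ _)
        · exact nrm_cut_le_RepEx hk hf (bdd_plat _ _ _).1 (by linarith)
            (isClosed_tail_RepEx _).measurableSet
            ((hAc (-T) T 1 le_rfl).1.mono le_rfl (subset_univ _) le_rfl)

theorem rep_toW {k : ℕ} (hk : k ≤ 2) {f : Pl → U} (hf : ContDiff ℝ ∞ f) (hp : Per f)
    (h : nrm k f univ < ⊤) : Rep k (toW k f) f := by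
  obtain ⟨A, hA, hAc⟩ := cn_plat k
  obtain ⟨φ, hφ⟩ : ∃ φ : ℝ → Dsub U, ∀ T p, (φ T).1 p = plat (-T) T 1 p • f p :=
    ⟨fun T => ⟨_, cut_mem hf hp (plat_mem_Dsub (-T) T one_pos)⟩, fun _ _ => rfl⟩
  have hc : CauchySeq fun T => co k (φ T) := by
    refine Metric.cauchySeq_iff'.2 fun ε hε => ?_
    have h1 := (tail_RepEx k hf h (81 * (A + A) ^ 2)).eventually
      (gt_mem_nhds (ENNReal.ofReal_pos.2 (pow_pos hε 2)))
    obtain ⟨R, hR⟩ := h1.exists
    refine ⟨R, fun T hT => ?_⟩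
    rw [dist_eq_norm, ← map_sub]
    have e : (φ T - φ R).1 = fun p => (plat (-T) T 1 - plat (-R) R 1) p • f p := by
      funext p
      rw [Submodule.coe_sub, Pi.sub_apply, hφ, hφ, Pi.sub_apply, sub_smul]
    have h2 := nrm_co k (φ T - φ R)
    rw [e, nrm_eq_of_supp k (isClosed_tail_RepEx R) fun p hp => by
      have := abs_lt.1 (lt_of_not_ge (show ¬R ≤ |p.1| from hp))
      rw [Pi.sub_apply, plat_eq_one one_pos ⟨by linarith [this.1], by linarith [this.2]⟩,
        plat_eq_one one_pos ⟨this.1.le, this.2.le⟩, sub_self, zero_smul]] at h2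
    have h3 := nrm_cut_le_RepEx hk hf ((bdd_plat (-T) T 1).sub (bdd_plat (-R) R 1)).1
      (by linarith : 0 ≤ A + A) (isClosed_tail_RepEx R).measurableSet
      ((Cn.sub (bdd_plat (-T) T 1).1 (bdd_plat (-R) R 1).1 (hAc (-T) T 1 le_rfl).1
        (hAc (-R) R 1 le_rfl).1).mono le_rfl (subset_univ _) le_rfl)
    rw [h2] at h3
    have h4 := (ENNReal.ofReal_lt_ofReal_iff (pow_pos hε 2)).1 (h3.trans_lt hR)
    exact lt_of_pow_lt_pow_left₀ 2 hε.le h4
  obtain ⟨ξ, hξ⟩ := cauchySeq_tendsto_of_complete hc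
  have hr : Rep k ξ f := by
    intro ψ
    have h1 : Tendsto (fun T => ⟪to0 k (co k (φ T)), co 0 ψ⟫) atTop (𝓝 ⟪to0 k ξ, co 0 ψ⟫) :=
      (((to0 k).continuous.tendsto ξ).comp hξ).inner tendsto_const_nhds
    obtain ⟨R, hR⟩ := ψ.2.2.2
    refine tendsto_nhds_unique h1 (tendsto_const_nhds.congr' ?_)
    filter_upwards [eventually_ge_atTop R] with T hT
    rw [rep_co k (φ T) ψ, ip_zero, ip_zero]
    refine congrArg _ (funext fun p => ?_)
    by_cases hp : R ≤ |p.1|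
    · rw [hR p hp, inner_zero_right, inner_zero_right]
    · have := abs_lt.1 ((lt_of_not_ge hp).trans_le hT)
      rw [hφ, plat_eq_one one_pos ⟨this.1.le, this.2.le⟩, one_smul]
  rw [hr.toW_eq]
  exact hr

theorem norm_toW_le {k : ℕ} (hk : k ≤ 2) {f : Pl → U} (hf : ContDiff ℝ ∞ f) (hp : Per f) {ε : ℝ}
    (hε : 0 ≤ ε) (h : nrm k f univ ≤ ENNReal.ofReal (ε ^ 2)) : ‖toW k f‖ ≤ ε := by
  rw [(rep_toW hk hf hp (h.trans_lt ENNReal.ofReal_lt_top)).nrm_eq hk hf hp,
    ENNReal.ofReal_le_ofReal_iff (sq_nonneg ε)] at h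
  exact le_of_pow_le_pow_left₀ two_ne_zero hε h

theorem tendsto_toW {N : Type} {l : Filter N} {k : ℕ} (hk : k ≤ 2) {f : N → Pl → U}
    (hf : ∀ n, ContDiff ℝ ∞ (f n)) (hp : ∀ n, Per (f n))
    (h : Tendsto (fun n => nrm k (f n) univ) l (𝓝 0)) :
    Tendsto (fun n => toW k (f n)) l (𝓝 0) := by
  refine Metric.tendsto_nhds.2 fun ε hε => ?_
  filter_upwards [h.eventually
    (gt_mem_nhds (ENNReal.ofReal_pos.2 (pow_pos (half_pos hε) 2)))] with n hn
  rw [dist_zero_right]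
  exact (norm_toW_le hk (hf n) (hp n) (half_pos hε).le hn.le).trans_lt (half_lt_self hε)

theorem Rep.inner {ξ η : W 0 U} {f g : Pl → U} (h : Rep 0 ξ f) (h' : Rep 0 η g)
    (hf : ContDiff ℝ ∞ f) (pf : Per f) (hg : ContDiff ℝ ∞ g) (pg : Per g) :
    ⟪ξ, η⟫ = ip 0 f g := by
  have k0 : (0 : ℕ) ≤ 2 := Nat.zero_le 2
  have mf : MemLp f 2 (volume.restrict St) := (nrm_zero_lt_top_iff hf.continuous).1
    (by rw [h.nrm_eq k0 hf pf]; exact ENNReal.ofReal_lt_top)
  have mg : MemLp g 2 (volume.restrict St) := (nrm_zero_lt_top_iff hg.continuous).1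
    (by rw [h'.nrm_eq k0 hg pg]; exact ENNReal.ofReal_lt_top)
  have h1 := (tendsto_const_nhds (x := ξ)).inner (𝕜 := ℝ) (h'.tendsto k0 hg pg)
  refine tendsto_nhds_unique h1 ?_
  have h2 : Tendsto (fun T : ℝ => ∫ p in St, ⟪f p, plat (-T) T 1 p • g p⟫) atTop
      (𝓝 (∫ p in St, ⟪f p, g p⟫)) := by
    refine tendsto_integral_filter_of_dominated_convergence (fun p => ‖f p‖ * ‖g p‖)
      (Eventually.of_forall fun T => ?_) (Eventually.of_forall fun T => ae_of_all _ fun p => ?_)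
      (mf.norm.integrable_mul mg.norm) (ae_of_all _ fun p => ?_)
    · exact (hf.continuous.inner
        ((bdd_plat (-T) T 1).1.continuous.smul hg.continuous)).aestronglyMeasurable
    · refine (norm_inner_le_norm _ _).trans (mul_le_mul_of_nonneg_left ?_ (norm_nonneg _))
      have := plat_mem (-T) T 1 p
      rw [norm_smul, Real.norm_of_nonneg this.1]
      exact mul_le_of_le_one_left (norm_nonneg _) this.2
    · refine tendsto_const_nhds.congr' ?_
      filter_upwards [eventually_ge_atTop |p.1|] with T hT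
      rw [plat_eq_one one_pos (abs_le.1 hT), one_smul]
  refine h2.congr fun T => ?_
  exact (h ⟨_, cut_mem hg pg (plat_mem_Dsub (-T) T one_pos)⟩).symm

theorem rep_fn (ξ : W 2 U) : Rep 2 ξ (fn ξ) := by
  have := FiniteDimensional.complete ℝ U
  intro ψ
  obtain ⟨c, hc, hs⟩ := sob (U := U)
  obtain ⟨R, hR⟩ := ψ.2.2.2
  have hcont : Continuous fun ζ : W 2 U => ip 0 (fn ζ) ψ.1 := by
    refine continuous_iff_continuousAt.2 fun ζ => ?_
    refine continuousAt_of_dominated (bound := fun p => c * (‖ζ‖ + 1) * ‖ψ.1 p‖)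
      (Eventually.of_forall fun ζ' => ?_) ?_ ?_ (ae_of_all _ fun p => ?_)
    · exact ((continuous_fn ζ').inner ψ.2.1.continuous).aestronglyMeasurable
    · filter_upwards [(continuous_norm.tendsto ζ).eventually (gt_mem_nhds (lt_add_one ‖ζ‖))]
        with ζ' hζ'
      refine ae_of_all _ fun p => (norm_inner_le_norm _ _).trans ?_
      exact mul_le_mul_of_nonneg_right ((hs ζ' p p).1.trans
        (mul_le_mul_of_nonneg_left hζ'.le hc.le)) (norm_nonneg _)
    · exact (integrableOn_St ψ.2.1.continuous.norm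
        (fun p hp => by rw [hR p hp, norm_zero])).const_mul _
    · exact ((ev p).continuous.inner continuous_const).continuousAt
  refine W.induction (P := fun ζ : W 2 U => ⟪to0 2 ζ, co 0 ψ⟫ = ip 0 (fn ζ) ψ.1)
    (isClosed_eq ((to0 2).continuous.inner continuous_const) hcont) (fun φ => ?_) ξ
  rw [fn_co]
  exact rep_co 2 φ ψ

theorem Rep.eq_fn {ξ : W 2 U} {f : Pl → U} (h : Rep 2 ξ f) (hf : Continuous f) (hp : Per f) :
    fn ξ = f := by
  have := FiniteDimensional.complete ℝ U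
  exact (rep_fn ξ).eq_fun h (continuous_fn ξ) (per_fn ξ) hf hp

/-- The norm of a localised element is controlled by the local norm of its representative. -/
theorem Rep.norm_sc_le {k : ℕ} (hk : k ≤ 2) {ξ : W k U} {f : Pl → U} (h : Rep k ξ f)
    (hf : ContDiff ℝ ∞ f) (hp : Per f) {χ : Pl → ℝ} (hχ : Bdd χ) (hχp : Per χ) {a : ℝ}
    (ha : Cn k χ univ a) {I : Set ℝ} (hI : IsClosed I) (h0 : ∀ p : Pl, p.1 ∉ I → χ p = 0) :
    ENNReal.ofReal (‖FH.sc k χ ξ‖ ^ 2) ≤ ENNReal.ofReal (81 * a ^ 2) * nrm k f I := by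
  rw [← (h.sc hk hχ hχp).nrm_eq hk (hχ.1.smul hf)
      (fun s t => by simp only [hχp s t, hp s t]),
    nrm_eq_of_supp k hI fun p hp => by rw [h0 p hp, zero_smul]]
  exact nrm_cut_le_RepEx hk hf hχ.1 ((norm_nonneg _).trans (ha.le (p := 0) (mem_univ _)))
    hI.measurableSet (ha.mono le_rfl (subset_univ _) le_rfl)

end

end Pool.Agent.P.MP_de3acd_gt.FH
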