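import Pool.Agent.P.MP_de3acd_gt.FH.FF
import Pool.Agent.P.MP_de3acd_gt.FH.RepEx

/-! Existence of the Floer map, with uniform bounds.
Sketch: Φ (ζ, a) = η₀ + mul 1 B (nemC g (c₀ + ι a) - nemC g (c₀ + ι a₀)) (co 1 χ) + G (c₀ + ι a, ζ), where G is the
universal map for 𝕁 t (κ, z) = J t z on the control space Λ × C, c₀ = toCb (p ↦ ((0, κ p), w p, dt w p)), ι from exists_cst,
η₀ = toW 1 (cr J (X a₀) w), g t ((a, κ), w, w') = -J t w (𝕏 t ((a, κ), w)), χ = plat (s₀ - A) (s₀ + A) 1, B u r = r • u.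
The derivative does not see η₀ and the a₀ term; the rest is H (b + L (ζ, a - a₀)) for the BS map
H (c, x, ζ) = mul 1 B (nemC g c) x + G (c, ζ) and b = (c₀ + ι a₀, co 1 χ, 0), bounded in terms of A (‖co 1 χ‖ does not depend
on s₀: norm_trW, tsl_plat); BS.lip. Fam.ctl: κ p = ρ p.1 with exists_clamp, 𝕏 t ((a, σ), z) = X a (σ, t) z. -/

open Set Filter Topology MeasureTheory
open scoped ContDiff NNReal ENNReal RealInnerProductSpace

namespace Pool.Agent.P.MP_de3acd_gt.FH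

noncomputable section

variable {V : Type} [NormedAddCommGroup V] [InnerProductSpace ℝ V] [Sym V]
variable {C Λ : Type} [NormedAddCommGroup C] [NormedSpace ℝ C] [FiniteDimensional ℝ C]
  [NormedAddCommGroup Λ] [NormedSpace ℝ Λ] [FiniteDimensional ℝ Λ]

theorem contDiff_cr {F : Type} [NormedAddCommGroup F] [NormedSpace ℝ F] {J : ℝ → F → F →L[ℝ] F}
    {X : Λ → Pl → F → F} (hJ : SP J) (hX : SmX X) {u : Pl → F} (hu : ContDiff ℝ ∞ u) :
    ContDiff ℝ ∞ fun q : Λ × Pl => cr J (X q.1) u q.2 := by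
  have h1 : ContDiff ℝ ∞ fun q : Λ × Pl => u q.2 := hu.comp contDiff_snd
  have h2 : ContDiff ℝ ∞ fun q : Λ × Pl => J q.2.2 (u q.2) :=
    hJ.1.comp (contDiff_snd.snd.prodMk h1)
  have h3 : ContDiff ℝ ∞ fun q : Λ × Pl => X q.1 q.2 (u q.2) :=
    hX.1.comp (contDiff_fst.prodMk (contDiff_snd.prodMk h1))
  exact ((contDiff_ds hu).comp contDiff_snd).add
    (h2.clm_apply (((contDiff_dt hu).comp contDiff_snd).sub h3))

theorem per_cr {F : Type} [NormedAddCommGroup F] [NormedSpace ℝ F] {J : ℝ → F → F →L[ℝ] F}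
    {X : Pl → F → F} (hJ : SP J) (hX : Per X) {u : Pl → F} (hu : Per u) : Per (cr J X u) :=
  fun s t => by
    simp only [cr, hu.ds s t, hu.dt s t, hu s t, hX s t, hJ.2 t]

theorem smX_ctl {𝕏 : ℝ → (Λ × C) × V → V} (hX : SP 𝕏) {κ : Pl → C} (hκ : ContDiff ℝ ∞ κ)
    (pκ : Per κ) : SmX fun a : Λ => ctl 𝕏 fun p => (a, κ p) := by
  refine ⟨?_, fun a s t => ?_⟩
  · have h1 : ContDiff ℝ ∞ fun q : Λ × Pl × V => κ q.2.1 := hκ.comp contDiff_snd.fst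
    exact hX.1.comp (contDiff_snd.fst.snd.prodMk ((contDiff_fst.prodMk h1).prodMk contDiff_snd.snd))
  · funext z
    simp only [ctl, pκ s t, hX.2 t]

theorem continuous_ffn_UF {𝕁 : ℝ → C × V → V →L[ℝ] V} {𝕏 : ℝ → C × V → V} (hJ : SP 𝕁)
    (hX : SP 𝕏) {c : Pl → C × V × V} (hc : Continuous c) {φ : Pl → V} (hφ : ContDiff ℝ ∞ φ) :
    Continuous (ffn 𝕁 𝕏 c φ) := by
  have a1 : Continuous fun p : Pl => (p.2, ((c p).1, (c p).2.1 + φ p)) :=
    continuous_snd.prodMk (hc.fst.prodMk (hc.snd.fst.add hφ.continuous))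
  have a2 : Continuous fun p : Pl => (p.2, ((c p).1, (c p).2.1)) :=
    continuous_snd.prodMk (hc.fst.prodMk hc.snd.fst)
  exact ((contDiff_ds hφ).continuous.add ((hJ.1.continuous.comp a1).clm_apply
    ((hc.snd.snd.add (contDiff_dt hφ).continuous).sub (hX.1.continuous.comp a1)))).sub
    ((hJ.1.continuous.comp a2).clm_apply (hc.snd.snd.sub (hX.1.continuous.comp a2)))

theorem norm_plat_UF (A s₀ : ℝ) : ‖co 1 ⟨plat (s₀ - A) (s₀ + A) 1, plat_mem_Dsub _ _ one_pos⟩‖ =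
    ‖co 1 ⟨plat (-A) A 1, plat_mem_Dsub _ _ one_pos⟩‖ := by
  rw [← norm_trW 1 (s₀, 0), trW_co]
  congr 3
  rw [tsl_plat]
  congr 1 <;> ring

theorem exists_F_unif {J : ℝ → V → V →L[ℝ] V} (hJ : SP J) {𝕏 : ℝ → (Λ × C) × V → V} (hX : SP 𝕏)
    (A : ℝ) : ∃ L : ℝ≥0, ∀ (κ : Pl → C) (w : Pl → V) (a₀ : Λ) (s₀ : ℝ), Bdd κ → Per κ → Bdd w →
      Per w → Cn 2 κ univ A → Cn 3 w univ A → ‖a₀‖ ≤ A → (∀ (a : Λ) (p : Pl), A ≤ |p.1 - s₀| →
        𝕏 p.2 ((a, κ p), w p) = 𝕏 p.2 ((a₀, κ p), w p)) →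
      nrm 1 (cr J (ctl 𝕏 fun p => (a₀, κ p)) w) univ < ⊤ →
        ∃ Φ, IsF J (fun a => ctl 𝕏 fun p => (a, κ p)) w Φ ∧
          LipschitzOnWith L (fderiv ℝ Φ) (Metric.closedBall (0, a₀) 1) := by
  have hJ' : SP fun (t : ℝ) (q : (Λ × C) × V) => J t q.2 :=
    ⟨hJ.1.comp (contDiff_fst.prodMk contDiff_snd.snd), fun t => by simp only [hJ.2 t]⟩
  obtain ⟨G, hG, hG'⟩ := exists_FF hJ' hX
  let g : ℝ → (Λ × C) × V × V → V := fun t d => -J t d.2.1 (𝕏 t (d.1, d.2.1))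
  have hg : SP g := ⟨((hJ.1.comp (contDiff_fst.prodMk contDiff_snd.snd.fst)).clm_apply
    (hX.1.comp (contDiff_fst.prodMk (contDiff_snd.fst.prodMk contDiff_snd.snd.fst)))).neg,
    fun t => by simp only [g, hJ.2 t, hX.2 t]⟩
  let B : V →L[ℝ] ℝ →L[ℝ] V := (ContinuousLinearMap.lsmul ℝ ℝ).flip
  obtain ⟨ι, hι⟩ := exists_cst ((ContinuousLinearMap.inl ℝ (Λ × C) (V × V)).comp
    (ContinuousLinearMap.inl ℝ Λ C))
  let H : Cb ((Λ × C) × V × V) × W 1 ℝ × W 2 V → W 1 V := fun q =>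
    mul 1 B (nemC g q.1) q.2.1 + G (q.1, q.2.2)
  have hH : BS H := fun n => by
    have f1 := bsn_clm n (ContinuousLinearMap.fst ℝ (Cb ((Λ × C) × V × V)) (W 1 ℝ × W 2 V))
    have f2 := bsn_clm n (ContinuousLinearMap.snd ℝ (Cb ((Λ × C) × V × V)) (W 1 ℝ × W 2 V))
    exact (((bs_nemC hg n).comp f1).bil (f2.clm (ContinuousLinearMap.fst ℝ _ _)) (mul 1 B)).add
      ((hG n).comp (f1.prod (f2.clm (ContinuousLinearMap.snd ℝ _ _))))
  let L : W 2 V × Λ →L[ℝ] Cb ((Λ × C) × V × V) × W 1 ℝ × W 2 V :=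
    (ι.comp (ContinuousLinearMap.snd ℝ _ _)).prod
      ((0 : W 2 V × Λ →L[ℝ] W 1 ℝ).prod (ContinuousLinearMap.fst ℝ _ _))
  obtain ⟨K, hK⟩ := hH.lip L
    (max (max A ‖co 1 ⟨plat (-A) A 1, plat_mem_Dsub _ _ one_pos⟩‖) 1)
  refine ⟨K, fun κ w a₀ s₀ bκ pκ bw pw cκ cw ha hs hn => ?_⟩
  have A0 : 0 ≤ A := (norm_nonneg _).trans ha
  have b1 : Bdd fun p => ((a₀, κ p), w p, dt w p) :=
    ((bdd_const a₀).prod bκ).prod (bw.prod bw.dt)
  have p1 : Per fun p => ((a₀, κ p), w p, dt w p) := fun s t => by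
    simp only [pκ s t, pw s t, pw.dt s t]
  let c₁ := toCb fun p => ((a₀, κ p), w p, dt w p)
  have e1 : Cb.fn c₁ = fun p => ((a₀, κ p), w p, dt w p) := fn_toCb b1 p1
  have n1 : ‖c₁‖ ≤ A := by
    refine c₁.norm_le A0 ?_
    rw [e1]
    exact Cn.prod ((bdd_const a₀).prod bκ).1 (bw.prod bw.dt).1
      (Cn.prod contDiff_const bκ.1 ((cn_const 2 a₀ univ).mono le_rfl Subset.rfl ha) cκ)
      (Cn.prod bw.1 bw.dt.1 (cw.mono (by norm_num) Subset.rfl le_rfl) cw.2.2)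
  let χ : Dsub ℝ := ⟨plat (s₀ - A) (s₀ + A) 1, plat_mem_Dsub _ _ one_pos⟩
  have hb := hK (c₁, co 1 χ, 0) (by
    rw [Prod.norm_mk, Prod.norm_mk, norm_zero, norm_plat_UF]
    exact max_le (le_max_of_le_left (n1.trans (le_max_left _ _)))
      (max_le (le_max_of_le_left (le_max_right _ _)) (le_max_of_le_right zero_le_one)))
  have sm := smX_ctl hX bκ.1 pκ
  have s0 : ContDiff ℝ ∞ (cr J (ctl 𝕏 fun p => (a₀, κ p)) w) :=
    (contDiff_cr hJ sm bw.1).comp ((contDiff_const (c := a₀)).prodMk contDiff_id)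
  have r0 := rep_toW (k := 1) (by norm_num) s0 (per_cr hJ (sm.2 a₀) pw) hn
  generalize toW 1 (cr J (ctl 𝕏 fun p => (a₀, κ p)) w) = η at r0
  refine ⟨fun z => η - mul 1 B (nemC g c₁) (co 1 χ) + H ((c₁, co 1 χ, 0) + L (z - (0, a₀))),
    ⟨contDiff_const.add (hH.contDiff.comp (contDiff_const.add
      (L.contDiff.comp (contDiff_id.sub contDiff_const)))), fun φ a => ?_⟩, ?_⟩
  · have e2 : ((c₁, co 1 χ, 0) + L ((co 2 φ, a) - (0, a₀)) :
        Cb ((Λ × C) × V × V) × W 1 ℝ × W 2 V) = (c₁ + ι (a - a₀), co 1 χ, co 2 φ) := by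
      simp [L]
    have e3 : Cb.fn (c₁ + ι (a - a₀)) = fun p => ((a, κ p), w p, dt w p) := by
      funext p
      rw [map_add, Pi.add_apply, e1, hι]
      simp
    have ct : ∀ c, Continuous fun p => B (Cb.fn (nemC g c) p) (χ.1 p) := fun c =>
      (B.continuous.comp (nemC g c).bdd.1.continuous).clm_apply χ.2.1.continuous
    have cf := continuous_ffn_UF hJ' hX (c₁ + ι (a - a₀)).bdd.1.continuous φ.2.1
    have r1 := (r0.sub ((rep_co 1 χ).mul (by norm_num) B (nemC g c₁)) s0.continuous (ct _)).add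
      (((rep_co 1 χ).mul (by norm_num) B (nemC g (c₁ + ι (a - a₀)))).add
        (hG' (c₁ + ι (a - a₀)) φ) (ct _) cf) (s0.continuous.sub (ct _)) ((ct _).add cf)
    change Rep 1 (_ + H _) _
    rw [e2]
    refine (congrArg (Rep 1 _) ?_).mp r1
    funext p
    simp only [Pi.add_apply, Pi.sub_apply, fn_nemC hg, e1, e3, cr, ctl, ffn, g, B,
      ContinuousLinearMap.flip_apply, ContinuousLinearMap.lsmul_apply, ds_add bw.1 φ.2.1,
      dt_add bw.1 φ.2.1, map_sub (J p.2 (w p))]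
    by_cases hp : A ≤ |p.1 - s₀|
    · rw [hs a p hp]
      module
    · have : χ.1 p = 1 := plat_eq_one one_pos
        ⟨by linarith [(abs_lt.1 (not_le.1 hp)).1], by linarith [(abs_lt.1 (not_le.1 hp)).2]⟩
      rw [this]
      module
  · intro x hx y hy
    have m : ∀ x ∈ Metric.closedBall ((0, a₀) : W 2 V × Λ) 1, x - (0, a₀) ∈ Metric.closedBall
        (0 : W 2 V × Λ) (max (max A ‖co 1 ⟨plat (-A) A 1, plat_mem_Dsub _ _ one_pos⟩‖) 1) :=
      fun x hx => mem_closedBall_zero_iff.2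
        ((mem_closedBall_iff_norm.1 hx).trans (le_max_right _ _))
    have := hb (m x hx) (m y hy)
    rw [edist_sub_right] at this
    rw [fderiv_const_add, fderiv_const_add,
      fderiv_comp_sub (f := fun z => H ((c₁, co 1 χ, 0) + L z)),
      fderiv_comp_sub (f := fun z => H ((c₁, co 1 χ, 0) + L z))]
    exact this

theorem Fam.ctl {F : Type} [NormedAddCommGroup F] [NormedSpace ℝ F] {X : Λ → Pl → F → F} {R : ℝ}
    (h : Fam X R) : ∃ (𝕏 : ℝ → (Λ × ℝ) × F → F) (ρ : ℝ → ℝ), SP 𝕏 ∧ Bdd (fun p : Pl => ρ p.1) ∧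
      (∀ s, R + 1 ≤ s → ρ s = R + 1) ∧ (∀ s, s ≤ -(R + 1) → ρ s = -(R + 1)) ∧
        (∀ t a σ z, 𝕏 t ((a, σ), z) = X a (σ, t) z) ∧
          ∀ a, X a = FH.ctl 𝕏 fun p => (a, ρ p.1) := by
  obtain ⟨ρ, h1, h2, h3, h4, h5, h6⟩ := exists_clamp h.nonneg
  refine ⟨fun t q => X q.1.1 (q.1.2, t) q.2, ρ, ⟨h.smooth.comp (contDiff_snd.fst.fst.prodMk
    ((contDiff_snd.fst.snd.prodMk contDiff_fst).prodMk contDiff_snd.snd)), fun t => ?_⟩, h1, h5, h6,
    fun _ _ _ _ => rfl, fun a => ?_⟩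
  · funext q
    exact congrFun (h.per q.1.1 q.1.2 t) q.2
  · funext p
    change X a (p.1, p.2) = X a (ρ p.1, p.2)
    rcases le_total R p.1 with e | e
    · exact congrFun ((h.right a _ e).trans (h.right a _ (h3 _ e)).symm) p.2
    rcases le_total p.1 (-R) with e' | e'
    · exact congrFun ((h.left a _ e').trans (h.left a _ (h4 _ e')).symm) p.2
    · rw [h2 _ (abs_le.2 ⟨e', e⟩)]

theorem exists_F {J : ℝ → V → V →L[ℝ] V} (hJ : SP J) {X : Λ → Pl → V → V} {R : ℝ} (hX : Fam X R)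
    {w : Pl → V} (hw : Bdd w) (pw : Per w) {a₀ : Λ} {R' : ℝ}
    (h : ∀ (a : Λ) (p : Pl), R' ≤ |p.1| → X a p (w p) = X a₀ p (w p))
    (h' : nrm 1 (cr J (X a₀) w) univ < ⊤) : ∃ Φ, IsF J X w Φ := by
  obtain ⟨𝕏, ρ, h1, h2, -, -, -, h3⟩ := hX.ctl
  obtain ⟨A₁, -, c1⟩ := h2.cn 2
  obtain ⟨A₂, -, c2⟩ := hw.cn 3
  obtain ⟨L, hL⟩ := exists_F_unif hJ h1 (max (max A₁ A₂) (max ‖a₀‖ R'))
  obtain ⟨Φ, hΦ, -⟩ := hL (fun p => ρ p.1) w a₀ 0 h2 (fun _ _ => rfl) hw pw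
    (c1.mono le_rfl Subset.rfl (le_max_of_le_left (le_max_left _ _)))
    (c2.mono le_rfl Subset.rfl (le_max_of_le_left (le_max_right _ _)))
    (le_max_of_le_right (le_max_left _ _)) (fun a p hp => by
      rw [sub_zero] at hp
      have := h a p ((le_max_of_le_right (le_max_right _ _)).trans hp)
      rw [h3 a, h3 a₀] at this
      exact this) (by rw [← h3 a₀]; exact h')
  exact ⟨Φ, by rw [show X = _ from funext h3]; exact hΦ⟩

end

end Pool.Agent.P.MP_de3acd_gt.FH
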