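import Pool.Agent.P.MP_de3acd_gt.FH.Ener
import Pool.Agent.P.MP_de3acd_gt.FH.Chain
import Pool.Agent.P.MP_de3acd_gt.FH.UF

/-! The a priori bound.
Sketch: gb bounds ds u, dt u in nm. orb_fin for ham H and ham G gives finitely many points z i; every orbit starts at g (z i) = B m (z i) + l, l ∈ Z6, tau shifted by m
(wind, Good.aff). For δ > 0 take ε from ps for both fields; outside S ∪ {s | ε / 3 ≤ e s}, of measure at most L + 3 A / ε (mul_meas_ge_le_integral_of_nonneg, slices,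
slice), u (s, 0) is δ-close in nm to such a point. First apply chain to the coordinate s ↦ (u (s, 0)).2.1.1 (base_le; Lipschitz by lipschitzWith_of_nnnorm_deriv_le). Then
tau is bounded, so is m, nm is comparable with the norm (nm_cmp); apply chain to the other coordinates with T = the coordinates of B m (z i), |m| bounded, and a new δ.
Then path in the t-direction, Gau.bound, ds_upu, dt_upu, periodicity of c.dnu u (per_upu_iff, Per.int); nrm 0 (ds) ≤ const * en (gj_cmp, ofReal_integral_eq_lintegral_ofReal).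
apb_fam: Fam.ctl, Bdd.cn, Cn.prod, cn_const. apb_nk: the control space ℝ × ℝ; repeat the proof of nk_ctl of Pre for E (exists_clamp, cn_tsl). -/

open Set Filter Topology MeasureTheory
open scoped ContDiff NNReal ENNReal RealInnerProductSpace

namespace Pool.Agent.P.MP_de3acd_gt.FH

noncomputable section

variable {Γ : Subgroup (Equiv.Perm E)} {B : ℝ → E →L[ℝ] E} {J : ℝ → E → E →L[ℝ] E}
  {H G K K' : ℝ → E → ℝ} {Y Y' Z : ℝ → E → E} {γ g : Equiv.Perm E} {x y w : ℝ → E} {u : Pl → E}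
variable {C : Type} [NormedAddCommGroup C] [NormedSpace ℝ C] [FiniteDimensional ℝ C]
variable {Λ : Type} [NormedAddCommGroup Λ] [NormedSpace ℝ Λ] [FiniteDimensional ℝ Λ]

variable {d R : ℝ}

theorem coord_APB (φ : E →L[ℝ] ℝ) (hφ : ∀ l ∈ Z6, φ l ∈ Z1) {T : Set E} (hT : T.Finite) :
    ∃ δ > 0, ∀ (A : ℝ) (L : ℝ≥0), ∃ D, ∀ (u : Pl → E) (S : Set ℝ) (x₀ : E), ContDiff ℝ ∞ u →
      (∀ s, |φ (ds u (s, 0))| ≤ A) → volume S ≤ L →
      (∀ s ∉ S, ∃ a ∈ T, ∃ l ∈ Z6, |φ (u (s, 0) - (a + l))| ≤ δ) →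
      Tendsto (fun s => u (s, 0)) atBot (𝓝 x₀) → ∀ s, |φ (u (s, 0))| ≤ D + |φ x₀| := by
  obtain ⟨δ, hδ, H⟩ := chain (hT.image φ).toFinset
  refine ⟨δ, hδ, fun A L => ?_⟩
  obtain ⟨D, hD⟩ := H A.toNNReal L
  refine ⟨D, fun u S x₀ hu hA hS hc hl s => ?_⟩
  have hd : ∀ s, HasDerivAt (fun s => φ (u (s, 0))) (φ (ds u (s, 0))) s := fun s =>
    φ.hasFDerivAt.comp_hasDerivAt s (hasDerivAt_ds (hu.differentiable (by simp) _))
  have h1 := hD (fun s => φ (u (s, 0))) S (φ x₀)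
    (lipschitzWith_of_nnnorm_deriv_le (fun s => (hd s).differentiableAt) fun s => by
      rw [(hd s).deriv, ← NNReal.coe_le_coe, coe_nnnorm]
      exact (hA s).trans (Real.le_coe_toNNReal A))
    hS (fun s hs => by
      obtain ⟨a, ha, l, hl, e⟩ := hc s hs
      exact ⟨φ a, (Set.Finite.mem_toFinset _).2 ⟨a, ha, rfl⟩, φ l, hφ l hl,
        by rwa [map_sub, map_add, ← sub_sub] at e⟩)
    ((φ.continuous.tendsto _).comp hl) s
  linarith only [h1, abs_sub_abs_le_abs_sub (φ (u (s, 0))) (φ x₀)]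

theorem dec_APB (h : Fr Γ B) (hg : g ∈ Γ) :
    ∃ (m : ℤ) (l : E), l ∈ Z6 ∧ ∀ z, g z = B m z + l ∧ tau (g z) = tau z + m := by
  obtain ⟨m, h1, h2⟩ := h.wind g hg
  obtain ⟨L, b, -, -, hb, e⟩ := h.good.aff g hg
  refine ⟨m, g 0, by rw [e, map_zero, zero_add]; exact hb, fun z => ⟨?_, h2 z⟩⟩
  rw [← h1, lin, sub_add_cancel]

theorem tau_APB (z : E) : |tau z| ≤ |z.2.1.1| := by
  have h : 1 ≤ 2 * Real.pi := by linarith only [Real.pi_gt_three]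
  rw [tau, abs_div, abs_neg, abs_of_pos (a := 2 * Real.pi) (by linarith only [h])]
  exact div_le_self (abs_nonneg _) h

theorem abs_APB (h : Fr Γ B) {Z : Set E} (hZ : Z.Finite) (x₀ : E) (A : ℝ) (U : Set (Pl → E))
    (h1 : ∀ u ∈ U, ContDiff ℝ ∞ u ∧ (∀ p, nm B (u p) (ds u p) ≤ A) ∧
      Tendsto (fun s => u (s, 0)) atBot (𝓝 x₀))
    (h2 : ∀ δ > 0, ∃ L : ℝ≥0, ∀ u ∈ U, ∃ S, volume S ≤ L ∧
      ∀ s ∉ S, ∃ z ∈ Z, ∃ g ∈ Γ, nm B (g z) (u (s, 0) - g z) ≤ δ) :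
    ∃ A', ∀ u ∈ U, ∀ s, ‖u (s, 0)‖ ≤ A' := by
  let p₁ := ContinuousLinearMap.fst ℝ ℝ ℝ
  let p₂ := ContinuousLinearMap.snd ℝ ℝ ℝ
  let q₁ : E →L[ℝ] Pl := ContinuousLinearMap.fst ℝ Pl (Pl × Pl)
  let q₂ : E →L[ℝ] Pl :=
    (ContinuousLinearMap.fst ℝ Pl Pl).comp (ContinuousLinearMap.snd ℝ Pl (Pl × Pl))
  let q₃ : E →L[ℝ] Pl :=
    (ContinuousLinearMap.snd ℝ Pl Pl).comp (ContinuousLinearMap.snd ℝ Pl (Pl × Pl))
  have b₀ : ∀ z v : E, |v.2.1.1| ≤ nm B z v := fun z v =>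
    (norm_fst_le v.2.1).trans (h.base_le z v).2
  obtain ⟨τ, hτ⟩ : ∃ τ, ∀ u ∈ U, ∀ s, |tau (u (s, 0))| ≤ τ := by
    obtain ⟨δ, hδ, H⟩ := coord_APB (p₁.comp q₂) (fun l hl => hl.2.1.1) hZ
    obtain ⟨L, hL⟩ := h2 δ hδ
    obtain ⟨D, hD⟩ := H A L
    refine ⟨D + |p₁.comp q₂ x₀|, fun u hu s => (tau_APB _).trans ?_⟩
    obtain ⟨S, hS, hc⟩ := hL u hu
    refine hD u S x₀ (h1 u hu).1 (fun s => (b₀ _ _).trans ((h1 u hu).2.1 _)) hS
      (fun s hs => ?_) (h1 u hu).2.2 s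
    obtain ⟨z, hz, g, hg, e⟩ := hc s hs
    obtain ⟨m, l, hl, e'⟩ := dec_APB h hg
    refine ⟨z, hz, l, hl, le_trans (le_of_eq ?_) ((b₀ _ _).trans e)⟩
    rw [(e' z).1]
    show |(u (s, 0)).2.1.1 - (z.2.1.1 + l.2.1.1)| =
      |(u (s, 0)).2.1.1 - ((B m z).2.1.1 + l.2.1.1)|
    rw [(h.base m z).2]
  obtain ⟨M, hM⟩ := (hZ.image fun z => |tau z|).bddAbove
  obtain ⟨N, hN⟩ := exists_nat_ge (τ + 1 + M)
  obtain ⟨D₁, hD₁, hc₁⟩ := h.nm_cmp (τ + 1)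
  have hT : (image2 (fun (m : ℤ) z => B m z) (Icc (-(N : ℤ)) N) Z).Finite :=
    (finite_Icc _ _).image2 _ hZ
  have key : ∀ φ : E →L[ℝ] ℝ, (∀ l ∈ Z6, φ l ∈ Z1) → (∀ v, |φ v| ≤ ‖v‖) →
      ∃ D, ∀ u ∈ U, ∀ s, |φ (u (s, 0))| ≤ D := by
    intro φ hφ bφ
    obtain ⟨δ, hδ, H⟩ := coord_APB φ hφ hT
    have D0 : 0 < D₁ := by linarith only [hD₁]
    obtain ⟨L, hL⟩ := h2 (min 1 (δ / D₁)) (by positivity)
    obtain ⟨D, hD⟩ := H (D₁ * A) L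
    refine ⟨D + |φ x₀|, fun u hu s => ?_⟩
    obtain ⟨S, hS, hc⟩ := hL u hu
    refine hD u S x₀ (h1 u hu).1 (fun s => (bφ _).trans
      ((hc₁ _ _ ((hτ u hu s).trans (by linarith only []))).2.trans
        (mul_le_mul_of_nonneg_left ((h1 u hu).2.1 _) D0.le))) hS (fun s hs => ?_) (h1 u hu).2.2 s
    obtain ⟨z, hz, g, hg, e⟩ := hc s hs
    obtain ⟨m, l, hl, e'⟩ := dec_APB h hg
    have t0 : tau (g z) = tau (u (s, 0)) - tau (u (s, 0) - g z) := by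
      simp only [tau, Prod.fst_sub, Prod.snd_sub]
      ring
    have t1 : |tau (g z)| ≤ τ + 1 := by
      rw [t0]
      exact (abs_sub _ _).trans (add_le_add (hτ u hu s)
        ((tau_APB _).trans ((b₀ _ _).trans (e.trans (min_le_left _ _)))))
    have t2 : m ∈ Icc (-(N : ℤ)) N := by
      have t3 : |tau z| ≤ M := hM ⟨z, hz, rfl⟩
      have t4 : |(m : ℝ)| ≤ (N : ℝ) := by
        rw [show (m : ℝ) = tau (g z) - tau z by rw [(e' z).2]; ring]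
        exact (abs_sub _ _).trans (by linarith only [t1, t3, hN])
      exact abs_le.1 (by exact_mod_cast t4)
    refine ⟨B m z, mem_image2_of_mem t2 hz, l, hl, ?_⟩
    rw [← (e' z).1]
    refine (bφ _).trans ((hc₁ _ _ t1).2.trans ?_)
    rw [mul_comm, ← le_div_iff₀ D0]
    exact e.trans (min_le_right _ _)
  obtain ⟨a₁, k₁⟩ := key (p₁.comp q₁) (fun l hl => hl.1.1) fun v =>
    (norm_fst_le v.1).trans (norm_fst_le v)
  obtain ⟨a₂, k₂⟩ := key (p₂.comp q₁) (fun l hl => hl.1.2) fun v =>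
    (norm_snd_le v.1).trans (norm_fst_le v)
  obtain ⟨a₃, k₃⟩ := key (p₁.comp q₂) (fun l hl => hl.2.1.1) fun v =>
    (norm_fst_le v.2.1).trans ((norm_fst_le v.2).trans (norm_snd_le v))
  obtain ⟨a₄, k₄⟩ := key (p₂.comp q₂) (fun l hl => hl.2.1.2) fun v =>
    (norm_snd_le v.2.1).trans ((norm_fst_le v.2).trans (norm_snd_le v))
  obtain ⟨a₅, k₅⟩ := key (p₁.comp q₃) (fun l hl => hl.2.2.1) fun v =>
    (norm_fst_le v.2.2).trans ((norm_snd_le v.2).trans (norm_snd_le v))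
  obtain ⟨a₆, k₆⟩ := key (p₂.comp q₃) (fun l hl => hl.2.2.2) fun v =>
    (norm_snd_le v.2.2).trans ((norm_snd_le v.2).trans (norm_snd_le v))
  exact ⟨max (max a₁ a₂) (max (max a₃ a₄) (max a₅ a₆)), fun u hu s =>
    max_le_max (max_le_max (k₁ u hu s) (k₂ u hu s))
      (max_le_max (max_le_max (k₃ u hu s) (k₄ u hu s)) (max_le_max (k₅ u hu s) (k₆ u hu s)))⟩

theorem Dat.apb0 (D : Dat Γ B J H G d) (x₀ : E) (A L : ℝ) : ∃ A', ∀ γ ∈ Γ,
    ∀ (Y : ℝ → E → E) (X : Pl → E → E) (x y : ℝ → E) (u : Pl → E) (β₀ β₁ v η : ℝ), ClY Γ J G Y →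
      Cls J H G Y X β₀ β₁ v η L → Cyl om γ J X x y u → x 0 = x₀ → en om J u ≤ A →
        (∀ p, nm B (u p) (ds u p) ≤ A) → ∀ s, ‖u (s, 0)‖ ≤ A' := by
  have h := D.fr
  have hJ := (Reg.ij D.reg)
  have eH : EndF om Γ (ham H) := (Reg.ih D.reg).endF h D.reg.nd
  have eG : EndF om Γ (ham G) := D.ih.endF h D.nd
  obtain ⟨T₁, f₁, -, o₁⟩ := h.orb_fin eH
  obtain ⟨T₂, f₂, -, o₂⟩ := h.orb_fin eG
  obtain ⟨A', hA'⟩ := abs_APB h ((f₁.union f₂).image fun q => q.2 0) x₀ A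
    {u | ∃ γ ∈ Γ, ∃ (Y : ℝ → E → E) (X : Pl → E → E) (x y : ℝ → E) (β₀ β₁ v η : ℝ),
      ClY Γ J G Y ∧ Cls J H G Y X β₀ β₁ v η L ∧ Cyl om γ J X x y u ∧ x 0 = x₀ ∧ en om J u ≤ A ∧
        ∀ p, nm B (u p) (ds u p) ≤ A}
    (by
      rintro u ⟨γ, -, Y, X, x, y, β₀, β₁, v, η, -, -, hu, rfl, -, hb⟩
      exact ⟨hu.smooth, hb, hu.left.tendsto_at (left_mem_Icc.2 zero_le_one)⟩)
    (by
      intro δ hδ
      obtain ⟨ε₁, p₁, k₁⟩ := h.ps hJ eH.1 hδ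
      obtain ⟨ε₂, p₂, k₂⟩ := h.ps hJ eG.1 hδ
      have hε : 0 < min ε₁ ε₂ := lt_min p₁ p₂
      refine ⟨L.toNNReal + (3 / min ε₁ ε₂ * A).toNNReal, ?_⟩
      rintro u ⟨γ, hγ, Y, X, x, y, β₀, β₁, v, η, hY, hc, hu, -, he, -⟩
      obtain ⟨S, hS, hs⟩ := D.slice hY hc
      obtain ⟨-, i₁, i₂, i₃⟩ := h.slices hJ hγ hu
      refine ⟨S ∪ {s | 1 ≤ 3 / min ε₁ ε₂ *
        ∫ t in (0 : ℝ)..1, gj om J t (u (s, t)) (ds u (s, t))}, ?_, fun s hs' => ?_⟩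
      · refine (measure_union_le _ _).trans ?_
        rw [ENNReal.coe_add]
        refine add_le_add hS (((i₁.const_mul (3 / min ε₁ ε₂)).measure_le_integral
          (Eventually.of_forall fun s => mul_nonneg (by positivity) (i₂ s)) fun s hs => hs).trans ?_)
        rw [integral_const_mul, i₃]
        exact ENNReal.ofReal_le_ofReal (mul_le_mul_of_nonneg_left he (by positivity))
      · rw [mem_union, not_or, mem_ofPred_eq, not_le, div_mul_eq_mul_div, div_lt_one hε] at hs'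
        obtain ⟨K, hK, e⟩ := hs γ hγ x y u hu s hs'.1
        have tw : Tw γ fun t => u (s, t) :=
          ⟨hu.smooth.comp (contDiff_const.prodMk contDiff_id), hu.tw s⟩
        have hd : ∀ t, deriv (fun t => u (s, t)) t = dt u (s, t) := fun t =>
          (hasDerivAt_dt (hu.smooth.differentiable (by simp) _)).deriv
        rcases hK with rfl | rfl
        · obtain ⟨x', ox, hx⟩ := k₁ γ hγ _ tw (by
            simp only [hd]
            exact e.trans (hs'.2.le.trans (min_le_left _ _)))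
          obtain ⟨q, hq, g, hg, -, rfl⟩ := o₁ γ hγ x' ox
          exact ⟨q.2 0, ⟨q, Or.inl hq, rfl⟩, g, hg, hx 0 (left_mem_Icc.2 zero_le_one)⟩
        · obtain ⟨x', ox, hx⟩ := k₂ γ hγ _ tw (by
            simp only [hd]
            exact e.trans (hs'.2.le.trans (min_le_right _ _)))
          obtain ⟨q, hq, g, hg, -, rfl⟩ := o₂ γ hγ x' ox
          exact ⟨q.2 0, ⟨q, Or.inr hq, rfl⟩, g, hg, hx 0 (left_mem_Icc.2 zero_le_one)⟩)
  exact ⟨A', fun γ hγ Y X x y u β₀ β₁ v η a₁ a₂ a₃ a₄ a₅ a₆ =>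
    hA' u ⟨γ, hγ, Y, X, x, y, β₀, β₁, v, η, a₁, a₂, a₃, a₄, a₅, a₆⟩⟩

theorem chart_APB (h : Fr Γ B) (hJ : IJ om Γ J) (c : Ch γ) (A : ℝ) : ∃ A', ∀ (X : Pl → E → E)
    (x y : ℝ → E) (u : Pl → E), Cyl om γ J X x y u → en om J u ≤ A →
      (∀ p, nm B (u p) (ds u p) ≤ A ∧ nm B (u p) (dt u p) ≤ A) → (∀ s, ‖u (s, 0)‖ ≤ A) →
        Bnd A' (c.dnu u) := by
  obtain ⟨A₃, h₃⟩ := h.path A A
  obtain ⟨D, hD, h₄⟩ := h.nm_cmp A₃
  obtain ⟨D', hD', h₅⟩ := h.gj_cmp hJ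
  obtain ⟨K, hK, h₆⟩ := c.bound
  refine ⟨max (max (K * (A₃ + K)) (max (K * (D * A)) (K * (D * A + K + K * (K * (A₃ + K))))))
    ((K * D) ^ 2 * D' * A), fun X x y u hu he hb h0 => ?_⟩
  have K0 : 0 ≤ K := by linarith only [hK]
  have D0 : 0 ≤ D := by linarith only [hD]
  have D0' : 0 ≤ D' := by linarith only [hD']
  have b₁ : ∀ p : Pl, p.2 ∈ Icc (0 : ℝ) 1 → ‖u p‖ ≤ A₃ := fun p hp => by
    have hd : ∀ t, deriv (fun t => u (p.1, t)) t = dt u (p.1, t) := fun t =>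
      (hasDerivAt_dt (hu.smooth.differentiable (by simp) _)).deriv
    refine h₃ (fun t => u (p.1, t)) 0 1 (hu.smooth.comp (contDiff_const.prodMk contDiff_id))
      zero_le_one (h0 _) ?_ p.2 hp
    have := intervalIntegral.norm_integral_le_of_norm_le_const (a := 0) (b := 1) (C := A)
      (f := fun t => nm B (u (p.1, t)) (deriv (fun t => u (p.1, t)) t)) fun t _ => by
        rw [hd, Real.norm_of_nonneg (nm_nonneg _ _ _)]
        exact (hb _).2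
    rw [sub_zero, abs_one, mul_one] at this
    exact (le_abs_self _).trans this
  have b₂ : ∀ (p : Pl) (v : E), p.2 ∈ Icc (0 : ℝ) 1 → ‖v‖ ≤ D * nm B (u p) v := fun p v hp =>
    (h₄ _ _ ((abs_tau_le _).trans (b₁ p hp))).2
  have bQ : ∀ (t : ℝ) (v : E) (r : ℝ), t ∈ Icc (0 : ℝ) 1 → ‖v‖ ≤ r → ‖c.Q t v‖ ≤ K * r :=
    fun t v r ht hv => (c.Q t).le_of_opNorm_le_of_le (h₆ t ht).2.1 hv
  generalize hw : c.dnu u = w
  have e : c.upu w = u := by rw [← hw, c.upu_dnu]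
  have sw : ContDiff ℝ ∞ w := c.contDiff_upu_iff.1 (e ▸ hu.smooth)
  have pw : Per w := c.per_upu_iff.1 (e ▸ hu.tw)
  have e₁ : ∀ p, ds w p = c.Q p.2 (ds u p) := fun p => by
    rw [← e, c.ds_upu sw, Gau.vec, c.QP]
  have e₂ : ∀ p, dt w p = c.Q p.2 (dt u p - deriv c.x0 p.2 - deriv c.P p.2 (w p)) := fun p => by
    rw [← e, c.dt_upu sw, show ∀ a b c : E, a + b + c - a - b = c from fun a b c => by abel, c.QP]
  have c₀ : ∀ p : Pl, p.2 ∈ Icc (0 : ℝ) 1 → ‖w p‖ ≤ K * (A₃ + K) := fun p hp => by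
    rw [← hw]
    exact bQ _ _ _ hp ((norm_sub_le _ _).trans (add_le_add (b₁ p hp) (h₆ _ hp).2.2.2.1))
  have ext : ∀ {f : Pl → V6} {r r' : ℝ}, Per f → (∀ p : Pl, p.2 ∈ Icc (0 : ℝ) 1 → ‖f p‖ ≤ r) →
      r ≤ r' → Cn 0 f univ r' := fun {f r r'} pf bf hr p _ => by
    have := pf.int p.1 (Int.fract p.2) ⌊p.2⌋
    rw [Int.fract_add_floor] at this
    exact (congrArg norm this).le.trans
      ((bf _ ⟨Int.fract_nonneg _, (Int.fract_lt_one _).le⟩).trans hr)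
  refine ⟨⟨ext pw c₀ (le_max_of_le_left (le_max_left _ _)),
    ext pw.ds (fun p hp => ?_) (le_max_of_le_left (le_max_of_le_right (le_max_left _ _))),
    ext pw.dt (fun p hp => ?_) (le_max_of_le_left (le_max_of_le_right (le_max_right _ _)))⟩, ?_⟩
  · rw [e₁]
    exact bQ _ _ _ hp ((b₂ p _ hp).trans (mul_le_mul_of_nonneg_left (hb p).1 D0))
  · rw [e₂]
    exact bQ _ _ _ hp ((norm_sub_le _ _).trans (add_le_add ((norm_sub_le _ _).trans (add_le_add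
      ((b₂ p _ hp).trans (mul_le_mul_of_nonneg_left (hb p).2 D0)) (h₆ _ hp).2.2.2.2))
      ((deriv c.P p.2).le_of_opNorm_le_of_le (h₆ _ hp).2.2.1 (c₀ p hp))))
  · have g0 : ∀ p : Pl, 0 ≤ gj om J p.2 (u p) (ds u p) := fun p =>
      nonneg_of_mul_nonneg_right ((sq_nonneg _).trans (h₅ _ _ _).1) (by linarith only [hD'])
    have i₁ : IntegrableOn (fun p : Pl => (K * D) ^ 2 * D' * gj om J p.2 (u p) (ds u p)) St :=
      hu.en.const_mul _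
    have i₂ := ofReal_integral_eq_lintegral_ofReal i₁
      (Eventually.of_forall fun p => mul_nonneg (by positivity) (g0 p))
    rw [integral_const_mul] at i₂
    refine le_trans ?_ (i₂.symm.le.trans (ENNReal.ofReal_le_ofReal (le_max_of_le_right
      (mul_le_mul_of_nonneg_left he (by positivity)))))
    refine setLIntegral_mono' (MeasurableSet.univ.prod measurableSet_Icc) fun p hp => ?_
    rw [en_EstL, e₁]
    refine ENNReal.ofReal_le_ofReal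
      ((pow_le_pow_left₀ (norm_nonneg _) (bQ _ _ _ hp.2 (b₂ p _ hp.2)) 2).trans ?_)
    rw [← mul_assoc, mul_pow, mul_assoc _ D']
    exact mul_le_mul_of_nonneg_left (h₅ _ _ _).1 (sq_nonneg _)

theorem Dat.apb (D : Dat Γ B J H G d) {𝕏 : ℝ → C × E → E} (hX : SP 𝕏)
    (inv : ∀ t k, Ivf Γ fun z => 𝕏 t (k, z)) (hγ : γ ∈ Γ) (c : Ch γ) (x : ℝ → E) (A L : ℝ) :
    ∃ A', ∀ (κ : Pl → C) (Y : ℝ → E → E) (y : ℝ → E) (u : Pl → E) (β₀ β₁ v η : ℝ), ContDiff ℝ ∞ κ →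
      Cn 5 κ univ A → ClY Γ J G Y → Cls J H G Y (ctl 𝕏 κ) β₀ β₁ v η L →
        Cyl om γ J (ctl 𝕏 κ) x y u → en om J u ≤ A → Bnd A' (c.dnu u) := by
  obtain ⟨A₁, h₁⟩ := D.fr.gb (Reg.ij D.reg) hX inv A
  obtain ⟨A₂, h₂⟩ := D.apb0 (x 0) (max A A₁) L
  obtain ⟨A₃, h₃⟩ := chart_APB D.fr (Reg.ij D.reg) c (max (max A A₁) A₂)
  refine ⟨A₃, fun κ Y y u β₀ β₁ v η hκ cκ hY hc hu he => ?_⟩
  have hb := h₁ γ hγ κ x y u hκ cκ hu he
  exact h₃ _ x y u hu (le_max_of_le_left (le_max_of_le_left he))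
    (fun p => ⟨le_max_of_le_left (le_max_of_le_right (hb p).1),
      le_max_of_le_left (le_max_of_le_right (hb p).2)⟩) fun s => le_max_of_le_right
    (h₂ γ hγ Y _ x y u β₀ β₁ v η hY hc hu rfl (le_max_of_le_left he)
      (fun p => le_max_of_le_right (hb p).1) s)

theorem Dat.apb_fam (D : Dat Γ B J H G d) {X : Λ → Pl → E → E} (hX : Fam X R)
    (inv : ∀ a q, Ivf Γ (X a q)) (hγ : γ ∈ Γ) (c : Ch γ) (x : ℝ → E) (A L : ℝ) :
    ∃ A', ∀ (a : Λ) (Y : ℝ → E → E) (y : ℝ → E) (u : Pl → E) (β₀ β₁ v η : ℝ), ‖a‖ ≤ A →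
      ClY Γ J G Y → Cls J H G Y (X a) β₀ β₁ v η L → Cyl om γ J (X a) x y u → en om J u ≤ A →
        Bnd A' (c.dnu u) := by
  obtain ⟨𝕏, ρ, h1, h2, -, -, h3, h4⟩ := hX.ctl
  obtain ⟨A₀, -, c₀⟩ := h2.cn 5
  obtain ⟨A', hA'⟩ := D.apb h1 (fun t k => by
    simp only [show ∀ z, 𝕏 t (k, z) = X k.1 (k.2, t) z from h3 t k.1 k.2]
    exact inv _ _) hγ c x (max A A₀) L
  refine ⟨A', fun a Y y u β₀ β₁ v η ha hY hc hu he => ?_⟩
  rw [h4 a] at hc hu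
  exact hA' _ Y y u β₀ β₁ v η (contDiff_const.prodMk h2.1) (Cn.prod contDiff_const h2.1
    ((cn_const 5 a univ).mono le_rfl Subset.rfl (le_max_of_le_left ha))
    (c₀.mono le_rfl Subset.rfl (le_max_right _ _))) hY hc hu (le_max_of_le_left he)

theorem Dat.apb_nk (D : Dat Γ B J H G d) {X₁ X₂ : Pl → E → E} (h₁ : Fld X₁ R) (h₂ : Fld X₂ R)
    (e₁ : frz X₁ R = Y') (e₂ : frz X₂ (-R) = Y') (i₁ : ∀ q, Ivf Γ (X₁ q)) (i₂ : ∀ q, Ivf Γ (X₂ q))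
    (hγ : γ ∈ Γ) (c : Ch γ) (x : ℝ → E) (A L : ℝ) :
    ∃ A', ∀ (a b : ℝ) (Y : ℝ → E → E) (y : ℝ → E) (u : Pl → E) (β₀ β₁ v η : ℝ), ClY Γ J G Y →
      Cls J H G Y (nk X₁ X₂ Y' a b) β₀ β₁ v η L → Cyl om γ J (nk X₁ X₂ Y' a b) x y u →
        en om J u ≤ A → Bnd A' (c.dnu u) := by
  obtain ⟨ρ, h1, h2, h3, h4, -, -⟩ := exists_clamp h₁.nonneg
  have hY' : SP Y' := e₁ ▸ Fam.sp_frz h₁ 0 R
  have k : ∀ {X : Pl → E → E}, Fld X R → ∀ s, frz X (ρ s) = frz X s := fun h s => by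
    rcases le_total R s with e | e
    · exact (h.right 0 _ (h3 _ e)).trans (h.right 0 _ e).symm
    rcases le_total s (-R) with e' | e'
    · exact (h.left 0 _ (h4 _ e')).trans (h.left 0 _ e').symm
    · rw [h2 _ (abs_le.2 ⟨e', e⟩)]
  have sm : ∀ {X : Pl → E → E}, Fld X R → ∀ {f : ℝ × (ℝ × ℝ) × E → ℝ}, ContDiff ℝ ∞ f →
      ContDiff ℝ ∞ fun q : ℝ × (ℝ × ℝ) × E => frz X (f q) q.1 q.2.2 := fun h f hf =>
    h.smooth.comp ((contDiff_const (c := (0 : ℝ))).prodMk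
      ((hf.prodMk contDiff_fst).prodMk contDiff_snd.snd))
  let 𝕏 : ℝ → (ℝ × ℝ) × E → E := fun t q => frz X₁ q.1.1 t q.2 + frz X₂ q.1.2 t q.2 - Y' t q.2
  have hX : SP 𝕏 := ⟨((sm h₁ contDiff_snd.fst.fst).add (sm h₂ contDiff_snd.fst.snd)).sub
    (hY'.1.comp (contDiff_fst.prodMk contDiff_snd.snd)), fun t => by
      funext q
      simp only [𝕏, (Fam.sp_frz h₁ 0 _).2 t, (Fam.sp_frz h₂ 0 _).2 t, hY'.2 t]⟩
  have inv : ∀ t k, Ivf Γ fun z => 𝕏 t (k, z) := fun t k g hg z => by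
    obtain ⟨M, hM⟩ := D.fr.aff hg
    have i₃ : Y' t (g z) = lin g (Y' t z) := by
      rw [← e₁]
      exact i₁ _ g hg z
    simp only [𝕏, frz, i₁ _ g hg z, i₂ _ g hg z, i₃, hM, map_add, map_sub]
  have e : ∀ a b, nk X₁ X₂ Y' a b = ctl 𝕏 fun p => (ρ (p.1 + a), ρ (p.1 + -b)) := fun a b => by
    funext p z
    simp only [ctl, 𝕏, k h₁, k h₂]
    simp only [nk, tsl, sta, frz, Pi.sub_apply, Pi.add_apply]
    congr 3 <;> exact Prod.ext rfl (add_zero _)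
  obtain ⟨A₀, -, c₀⟩ := h1.cn 5
  have cρ : ∀ a : ℝ, ContDiff ℝ ∞ fun p : Pl => ρ (p.1 + a) := fun a => contDiff_tsl h1.1 (a, 0)
  have bρ : ∀ a : ℝ, Cn 5 (fun p : Pl => ρ (p.1 + a)) univ (max A A₀) := fun a =>
    ((cn_tsl (a, 0)).2 c₀).mono le_rfl (fun _ _ => mem_univ _) (le_max_right _ _)
  obtain ⟨A', hA'⟩ := D.apb hX inv hγ c x (max A A₀) L
  refine ⟨A', fun a b Y y u β₀ β₁ v η hY hc hu he => ?_⟩
  rw [e] at hc hu
  exact hA' _ Y y u β₀ β₁ v η ((cρ _).prodMk (cρ _)) (Cn.prod (cρ _) (cρ _) (bρ _) (bρ _)) hY hc hu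
    (le_max_of_le_left he)

end

end Pool.Agent.P.MP_de3acd_gt.FH
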