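import Pool.Agent.P.MP_de3acd_gt.FH.Defs4

/-! The structure of an end, abstractly.
Sketch: h ϱ z = f ϱ z - c ϱ. Adjustment lemma: for every η > 0 there is δ > 0 such that for large ϱ and dist z (w ϱ) ≤ δ there is ϱ' with
|ϱ' - ϱ| ≤ η and h ϱ' z = 0 (small, mono, intermediate value theorem), and the sign of ϱ' - ϱ is that of h ϱ z. Injectivity: if z is ε-close to
w ϱ and to w ϱ' with h ϱ z = h ϱ' z = 0, then |ϱ - ϱ'| ≤ δ (sep) and ϱ = ϱ' (mono). By ex and uniq, for ϱ ≥ ϱ* every slice point within ε is within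
ε / 4; this gives room for openness: near such a point z', mono applies at z' with the same ϱ, h (·) z' changes sign on a small interval
around ϱ by continuity, unif controls w. Closedness: if z n ∈ EndS tends to z ∈ Z then the ϱ n are bounded (sep), take a limit ϱ ≥ ϱ₀
(w is continuous by unif); it can be phrased with mem_closure_iff_seq_limit. -/

open Set Filter Topology MeasureTheory
open scoped ContDiff NNReal ENNReal RealInnerProductSpace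

namespace Pool.Agent.P.MP_de3acd_gt.FH

noncomputable section

variable {F F₁ F₂ : Type} [NormedAddCommGroup F] [NormedSpace ℝ F] [NormedAddCommGroup F₁]
  [NormedSpace ℝ F₁] [NormedAddCommGroup F₂] [NormedSpace ℝ F₂]

theorem ivt_AbsEnd {g : ℝ → ℝ} (hg : Continuous g) {ϱ η : ℝ} (hη : 0 ≤ η) (h₁ : g (ϱ + η) ≤ 0)
    (h₂ : 0 ≤ g (ϱ - η)) : ∃ ϱ', |ϱ' - ϱ| ≤ η ∧ g ϱ' = 0 := by
  obtain ⟨ϱ', k, e⟩ := intermediate_value_Icc' (a := ϱ - η) (b := ϱ + η) (by linarith)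
    hg.continuousOn ⟨h₁, h₂⟩
  exact ⟨ϱ', abs_le.2 ⟨by linarith [k.1], by linarith [k.2]⟩, e⟩

theorem EndH.pack {Z : Set F} {w : ℝ → F} {f : ℝ → F →L[ℝ] ℝ} {c : ℝ → ℝ} (h : EndH Z w f c) :
    ∀ᶠ ε in 𝓝[>] (0 : ℝ), ∀ᶠ ϱ₀ in atTop, ∃ b ∈ Z, dist b (w ϱ₀) ≤ ε ∧ b ∉ EndS Z w f c ε ϱ₀ ∧
      (∀ᶠ z in 𝓝 b, z ∈ Z → (z ∈ EndS Z w f c ε ϱ₀ ↔ f ϱ₀ b < f ϱ₀ z)) ∧
      (∀ z ∈ EndS Z w f c ε ϱ₀, ∀ᶠ z' in 𝓝 z, z' ∈ Z → z' ∈ EndS Z w f c ε ϱ₀) ∧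
      (∀ z ∈ Z, z ∉ EndS Z w f c ε ϱ₀ → z ≠ b → ∀ᶠ z' in 𝓝 z, z' ∉ EndS Z w f c ε ϱ₀) ∧
      ∀ (z : ℕ → F) (ϱ : ℕ → ℝ), (∀ n, z n ∈ Z) → Tendsto ϱ atTop atTop →
        Tendsto (fun n => dist (z n) (w (ϱ n))) atTop (𝓝 0) →
          ∀ᶠ n in atTop, z n ∈ EndS Z w f c ε ϱ₀ := by
  obtain ⟨εu, hεu, hu⟩ := h.uniq
  obtain ⟨δ, hδ, κ, hκ, hm⟩ := h.mono
  obtain ⟨εs, hεs, hs⟩ := h.sep δ hδ
  obtain ⟨Ru, hu⟩ := eventually_atTop.1 hu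
  obtain ⟨Rm, hm⟩ := eventually_atTop.1 hm
  have cw : Continuous w := (Metric.uniformContinuous_iff_le.2 fun ε hε =>
    (h.unif ε hε).imp fun _ k => ⟨k.1, fun {a b} e => k.2 a b e⟩).continuous
  have c1 : ∀ z, Continuous fun ϱ => f ϱ z - c ϱ := fun z =>
    h.cont.comp (continuous_id.prodMk continuous_const)
  have two : ∀ ϱ ≥ Rm, ∀ z, dist z (w ϱ) ≤ δ → ∀ η, 0 ≤ η → η ≤ δ →
      f (ϱ + η) z - c (ϱ + η) + κ * η ≤ f ϱ z - c ϱ ∧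
        f ϱ z - c ϱ + κ * η ≤ f (ϱ - η) z - c (ϱ - η) := fun ϱ hϱ z hz η h0 h1 => by
    have a := hm ϱ hϱ z hz ϱ (ϱ + η) (by linarith) (by linarith) (by linarith)
    have b := hm ϱ hϱ z hz (ϱ - η) ϱ (by linarith) (by linarith) (by linarith)
    rw [add_sub_cancel_left] at a
    rw [sub_sub_cancel] at b
    exact ⟨a, b⟩
  filter_upwards [Ioc_mem_nhdsGT (lt_min hεu (lt_min hδ (show 0 < εs / 4 by positivity)))]
    with ε hε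
  obtain ⟨h0, hε⟩ := hε
  simp only [le_min_iff] at hε
  obtain ⟨e1, e2, e3⟩ := hε
  obtain ⟨Re, he⟩ := eventually_atTop.1 (h.ex (ε / 4) (by positivity))
  obtain ⟨δu, hδu, hw⟩ := h.unif (ε / 4) (by positivity)
  have C : ∀ ϱ ≥ Rm, ∀ z, dist z (w ϱ) ≤ ε / 4 → f ϱ z = c ϱ → ∀ η > 0, ∀ᶠ z' in 𝓝 z,
      ∃ ϱ', |ϱ' - ϱ| ≤ η ∧ dist z' (w ϱ') ≤ ε ∧ f ϱ' z' = c ϱ' := by
    intro ϱ hϱ z hz e η hη
    obtain ⟨θ, t0, t1, t2, t3⟩ : ∃ θ > 0, θ ≤ η ∧ θ ≤ δ ∧ θ ≤ δu :=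
      ⟨min η (min δ δu), lt_min hη (lt_min hδ hδu), min_le_left _ _,
        (min_le_right _ _).trans (min_le_left _ _), (min_le_right _ _).trans (min_le_right _ _)⟩
    obtain ⟨a, b⟩ := two ϱ hϱ z (by linarith) θ t0.le t2
    have p := mul_pos hκ t0
    filter_upwards [Metric.closedBall_mem_nhds z (show 0 < ε / 4 by positivity),
      (f (ϱ + θ)).continuous.continuousAt.eventually_lt_const (show f (ϱ + θ) z < c (ϱ + θ) by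
        linarith), (f (ϱ - θ)).continuous.continuousAt.eventually_const_lt
          (show c (ϱ - θ) < f (ϱ - θ) z by linarith)] with z' k0 k1 k2
    obtain ⟨ϱ', k3, k4⟩ := ivt_AbsEnd (c1 z') t0.le (sub_nonpos.2 k1.le) (sub_nonneg.2 k2.le)
    refine ⟨ϱ', k3.trans t1, ?_, sub_eq_zero.1 k4⟩
    have := dist_triangle4 z' z (w ϱ) (w ϱ')
    have := hw ϱ' ϱ (k3.trans t3)
    rw [dist_comm] at this
    linarith [Metric.mem_closedBall.1 k0]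
  obtain ⟨θ, t0, t1, t2, t3⟩ : ∃ θ > 0, θ ≤ 1 ∧ θ ≤ δ ∧ θ ≤ δu :=
    ⟨min 1 (min δ δu), lt_min one_pos (lt_min hδ hδu), min_le_left _ _,
      (min_le_right _ _).trans (min_le_left _ _), (min_le_right _ _).trans (min_le_right _ _)⟩
  obtain ⟨δ₁, hδ₁, hsm⟩ := h.small (κ * θ) (mul_pos hκ t0)
  filter_upwards [eventually_ge_atTop Ru, eventually_ge_atTop Rm, eventually_ge_atTop Re]
    with ϱ₀ r1 r2 r3
  obtain ⟨b, bZ, bd, bf⟩ := he ϱ₀ r3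
  have bd' : dist b (w ϱ₀) ≤ ε := by linarith
  have B : ∀ z ϱ, dist z (w ϱ₀) ≤ ε → dist z (w ϱ) ≤ ε → f ϱ z = c ϱ →
      (ϱ₀ < ϱ ↔ c ϱ₀ < f ϱ₀ z) := by
    intro z ϱ d0 d1 e
    have := dist_triangle_left (w ϱ) (w ϱ₀) z
    obtain ⟨a1, a2⟩ := abs_le.1 (hs ϱ ϱ₀ (by linarith))
    refine ⟨fun k => ?_, fun k => lt_of_not_ge fun k' => ?_⟩
    · have := hm ϱ₀ r2 z (d0.trans e2) ϱ₀ ϱ (by linarith) k.le (by linarith)
      linarith [mul_pos hκ (sub_pos.2 k)]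
    · have := hm ϱ₀ r2 z (d0.trans e2) ϱ ϱ₀ (by linarith) k' (by linarith)
      linarith [mul_nonneg hκ.le (sub_nonneg.2 k')]
  refine ⟨b, bZ, bd', fun ⟨_, ϱ, k, d, e⟩ => ((B b ϱ bd' d e).1 k).ne' bf, ?_, ?_, ?_, ?_⟩
  · filter_upwards [C ϱ₀ r2 b bd bf 1 one_pos,
      Metric.closedBall_mem_nhds b (show 0 < ε / 4 by positivity)] with z ⟨ϱ, _, d, e⟩ k hz
    have d0 : dist z (w ϱ₀) ≤ ε := by
      linarith [dist_triangle z b (w ϱ₀), Metric.mem_closedBall.1 k]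
    rw [bf]
    exact ⟨fun ⟨_, ϱ', k', d', e'⟩ => (B z ϱ' d0 d' e').1 k',
      fun k' => ⟨hz, ϱ, (B z ϱ d0 d e).2 k', d, e⟩⟩
  · rintro z ⟨hz, ϱ, k, d, e⟩
    obtain ⟨y, yZ, yd, yf⟩ := he ϱ (r3.trans k.le)
    obtain rfl := hu ϱ (r1.trans k.le) z hz y yZ (d.trans e1) (by linarith) (e.trans yf.symm)
    filter_upwards [C ϱ (r2.trans k.le) z yd e ((ϱ - ϱ₀) / 2) (by linarith [k.lt])]
      with z' ⟨ϱ', a, d', e'⟩ hz'
    exact ⟨hz', ϱ', by linarith [(abs_le.1 a).1, k.lt], d', e'⟩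
  · intro z hz hn hb
    have near : ∀ z' ∈ Metric.closedBall z ε, ∀ ϱ, dist z' (w ϱ) ≤ ε → dist z (w ϱ) ≤ 2 * ε :=
      fun z' k ϱ d => by linarith [dist_triangle_left z (w ϱ) z', Metric.mem_closedBall.1 k]
    by_cases ex : ∃ ϱ₁, dist z (w ϱ₁) ≤ 2 * ε
    · obtain ⟨ϱ₁, d₁⟩ := ex
      have cl : IsClosed {q : F × ℝ | dist q.1 (w q.2) ≤ ε ∧ f q.2 q.1 - c q.2 = 0} :=
        (isClosed_le (continuous_fst.dist (cw.comp continuous_snd)) continuous_const).inter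
          (isClosed_eq (h.cont.comp continuous_swap) continuous_const)
      have op : ∀ ϱ ∈ Icc ϱ₀ (ϱ₁ + δ), ¬(dist z (w ϱ) ≤ ε ∧ f ϱ z - c ϱ = 0) := by
        rintro ϱ k ⟨d, e⟩
        rcases k.1.eq_or_lt with rfl | l
        · exact hb (hu _ r1 z hz b bZ (d.trans e1) (bd'.trans e1) ((sub_eq_zero.1 e).trans bf.symm))
        · exact hn ⟨hz, ϱ, l, d, sub_eq_zero.1 e⟩
      filter_upwards [Metric.closedBall_mem_nhds z h0,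
        isCompact_Icc.eventually_forall_of_forall_eventually (x₀ := z)
          (P := fun z' ϱ => ¬(dist z' (w ϱ) ≤ ε ∧ f ϱ z' - c ϱ = 0)) fun ϱ k =>
            cl.isOpen_compl.mem_nhds (op ϱ k)] with z' k k' ⟨_, ϱ, l, d, e⟩
      have := dist_triangle_left (w ϱ) (w ϱ₁) z
      have := (abs_le.1 (hs ϱ ϱ₁ (by linarith [near z' k ϱ d]))).2
      exact k' ϱ ⟨l.le, by linarith⟩ ⟨d, sub_eq_zero.2 e⟩
    · filter_upwards [Metric.closedBall_mem_nhds z h0] with z' k ⟨_, ϱ, _, d, _⟩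
      exact ex ⟨ϱ, near z' k ϱ d⟩
  · intro z ϱ hz hϱ hd
    filter_upwards [hϱ.eventually hsm, hϱ.eventually_gt_atTop (ϱ₀ + 1),
      hd.eventually_le_const hδ₁, hd.eventually_le_const (show 0 < ε / 4 by positivity)]
      with n k1 k2 k3 k4
    obtain ⟨a, b⟩ := two (ϱ n) (by linarith) (z n) (by linarith) θ t0.le t2
    obtain ⟨a', b'⟩ := abs_le.1 (k1 _ k3)
    obtain ⟨ϱ', k5, k6⟩ := ivt_AbsEnd (c1 (z n)) (ϱ := ϱ n) t0.le (by linarith) (by linarith)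
    refine ⟨hz n, ϱ', by linarith [(abs_le.1 k5).1], ?_, sub_eq_zero.1 k6⟩
    linarith [dist_triangle_right (z n) (w ϱ') (w (ϱ n)), hw ϱ' (ϱ n) (k5.trans t3)]

end

end Pool.Agent.P.MP_de3acd_gt.FH
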