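import Pool.Agent.P.MP_de3acd_gt.FH.Idx

/-! Consequences of the inverse function theorem.
Sketch: trIFT: apply ContDiffAt.toOpenPartialHomeomorph / ContDiffAt.to_localInverse to (a, x) ↦ (a, G (a, x)), whose
derivative is invertible (triangular), or use ContDiffAt.implicitFunction from Mathlib.Analysis.Calculus.ImplicitContDiff;
near a₀, γ a is the second component of the local inverse at (a, y). eventually_eq_of_injective: with the bound
‖x‖ ≤ c ‖T x‖ and the little-o estimate. newton: ‖fderiv Φ z - T‖ ≤ L ε ≤ 1/(2c) on the ball, so Φ approximates T⁻¹-linearly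
(ApproximatesLinearOn, Convex.norm_image_sub_le_of_norm_hasFDerivWithin_le'); injOn and
surjOn_closedBall_of_nonlinearRightInverse, or the contraction z ↦ z - T⁻¹ (Φ z) on the small closed ball
(ContractingWith.exists_fixedPoint'); Bij.perturb. -/

open Set Filter Topology MeasureTheory
open scoped ContDiff NNReal ENNReal RealInnerProductSpace

namespace Pool.Agent.P.MP_de3acd_gt.FH

noncomputable section

variable {X Y Z : Type} [NormedAddCommGroup X] [NormedSpace ℝ X] [NormedAddCommGroup Y]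
  [NormedSpace ℝ Y] [NormedAddCommGroup Z] [NormedSpace ℝ Z]

variable [CompleteSpace X] [CompleteSpace Y]

theorem equiv_IFT {T : X →L[ℝ] Y} (h : Function.Bijective T) :
    ∃ e : X ≃L[ℝ] Y, (e : X →L[ℝ] Y) = T :=
  ⟨ContinuousLinearEquiv.ofBijective T (LinearMap.ker_eq_bot.2 h.1)
    (LinearMap.range_eq_top.2 h.2), rfl⟩

theorem loc_IFT {F : X → Y} (hF : ContDiff ℝ ∞ F) {z : X}
    (h : Function.Bijective (fderiv ℝ F z)) : ∃ e : OpenPartialHomeomorph X Y, ⇑e = F ∧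
      z ∈ e.source ∧ (∀ x ∈ e.source, Function.Bijective (fderiv ℝ F x)) ∧
        ∀ y ∈ e.target, ContDiffAt ℝ ∞ e.symm y := by
  have hd : ∀ x, HasFDerivAt F (fderiv ℝ F x) x := fun x =>
    (hF.differentiable (by simp) x).hasFDerivAt
  have hV : IsOpen {x | Function.Bijective (fderiv ℝ F x)} :=
    isOpen_iff_mem_nhds.2 fun x hx =>
      (hF.continuous_fderiv (by simp)).continuousAt.eventually (bijective_open hx)
  obtain ⟨T, hT⟩ := equiv_IFT h
  have h1 : HasFDerivAt F (T : X →L[ℝ] Y) z := hT ▸ hd z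
  let e := (hF.contDiffAt.toOpenPartialHomeomorph F h1 (by simp)).restrOpen _ hV
  refine ⟨e, rfl, ⟨hF.contDiffAt.mem_toOpenPartialHomeomorph_source h1 (by simp), h⟩,
    fun x hx => hx.2, fun y hy => ?_⟩
  obtain ⟨T', hT'⟩ := equiv_IFT (e.map_target hy).2
  exact e.contDiffAt_symm (f₀' := T') hy (hT' ▸ hd _) hF.contDiffAt

theorem trIFT [CompleteSpace Z] {G : Z × X → Y} (hG : ContDiff ℝ ∞ G) {γ : Z → X} {a₀ : Z} {y : Y}
    (hγ : ContinuousAt γ a₀) (e : ∀ᶠ a in 𝓝 a₀, G (a, γ a) = y) (h : Function.Bijective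
      ((fderiv ℝ G (a₀, γ a₀)).comp (ContinuousLinearMap.inr ℝ Z X))) (n : ℕ) :
    ContDiffAt ℝ n γ a₀ := by
  have hd : HasFDerivAt (fun w : Z × X => (w.1, G w))
      ((ContinuousLinearMap.fst ℝ Z X).prod (fderiv ℝ G (a₀, γ a₀))) (a₀, γ a₀) :=
    hasFDerivAt_fst.prodMk (hG.differentiable (by simp) _).hasFDerivAt
  have hs : ∀ w : Z × X, fderiv ℝ G (a₀, γ a₀) w
      = fderiv ℝ G (a₀, γ a₀) (w.1, 0) + fderiv ℝ G (a₀, γ a₀) (0, w.2) := fun w => by
    rw [← map_add, Prod.mk_add_mk, add_zero, zero_add]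
  obtain ⟨φ, h1, h2, -, h3⟩ := loc_IFT (F := fun w : Z × X => (w.1, G w))
    (contDiff_fst.prodMk hG) (z := (a₀, γ a₀)) (by
      rw [hd.fderiv]
      refine ⟨(injective_iff_map_eq_zero _).2 fun w hw => ?_, fun v => ?_⟩
      · have e1 : w.1 = 0 := congrArg Prod.fst hw
        have e2 : fderiv ℝ G (a₀, γ a₀) w = 0 := congrArg Prod.snd hw
        rw [hs, e1, Prod.mk_zero_zero, map_zero, zero_add] at e2
        exact Prod.ext e1 ((injective_iff_map_eq_zero _).1 h.1 _ e2)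
      · obtain ⟨x, hx⟩ := h.2 (v.2 - fderiv ℝ G (a₀, γ a₀) (v.1, 0))
        refine ⟨(v.1, x), Prod.ext rfl ?_⟩
        change fderiv ℝ G (a₀, γ a₀) (v.1, x) = v.2
        rw [hs]
        exact add_eq_of_eq_sub' hx)
  have h4 : φ (a₀, γ a₀) = (a₀, y) := by rw [h1]; exact Prod.ext rfl e.self_of_nhds
  have h5 : ContDiffAt ℝ ∞ (fun a => (φ.symm (a, y)).2) a₀ :=
    ((h3 _ (h4 ▸ φ.map_source h2)).comp a₀ (contDiffAt_id.prodMk contDiffAt_const)).snd
  refine (h5.of_le (by exact_mod_cast le_top)).congr_of_eventuallyEq ?_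
  filter_upwards [e, (continuousAt_id.prodMk hγ).eventually (φ.open_source.mem_nhds h2)]
    with a e1 e2
  have e3 : φ (a, γ a) = (a, y) := by rw [h1]; exact Prod.ext rfl e1
  rw [← e3, φ.left_inv (show (a, γ a) ∈ φ.source from e2)]

theorem eventually_eq_of_bijective {Φ : X → Y} {T : X →L[ℝ] Y} {z : X} (h : HasFDerivAt Φ T z)
    (hT : Function.Bijective T) : ∀ᶠ z' in 𝓝 z, Φ z' = Φ z → z' = z := by
  obtain ⟨c, hc, hb⟩ := bij_of_bijective hT
  filter_upwards [h.isLittleO.def (show 0 < 1 / (2 * c) by positivity)] with z' h1 h2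
  rw [h2, sub_self, zero_sub, norm_neg] at h1
  have h3 := hb.2 (z' - z)
  have h4 : c * ‖T (z' - z)‖ ≤ c * (1 / (2 * c) * ‖z' - z‖) := mul_le_mul_of_nonneg_left h1 hc.le
  have h5 : c * (1 / (2 * c) * ‖z' - z‖) = ‖z' - z‖ / 2 := by field_simp
  exact sub_eq_zero.1 (norm_le_zero_iff.1 (by linarith))

theorem newton {Φ : X → Y} (hΦ : Differentiable ℝ Φ) {z₀ : X} {c ε : ℝ} {L : ℝ≥0} (hc : 0 < c)
    (hT : Bij (fderiv ℝ Φ z₀) c) (hL : LipschitzOnWith L (fderiv ℝ Φ) (Metric.closedBall z₀ 1))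
    (hε : 0 ≤ ε) (hε1 : ε ≤ 1) (e : 2 * c * L * ε ≤ 1) :
    (∀ z ∈ Metric.closedBall z₀ ε, Bij (fderiv ℝ Φ z) (2 * c)) ∧
      InjOn Φ (Metric.closedBall z₀ ε) ∧ ∀ y, 2 * c * ‖Φ z₀ - y‖ ≤ ε →
        ∃ z ∈ Metric.closedBall z₀ (2 * c * ‖Φ z₀ - y‖), Φ z = y := by
  have h1 : ∀ z ∈ Metric.closedBall z₀ ε, ‖fderiv ℝ Φ z - fderiv ℝ Φ z₀‖ ≤ L * ε := fun z hz => by
    have := hL.norm_sub_le (Metric.closedBall_subset_closedBall hε1 hz)
      (Metric.mem_closedBall_self zero_le_one)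
    exact this.trans (mul_le_mul_of_nonneg_left (mem_closedBall_iff_norm.1 hz) L.2)
  have h2 : L * ε ≤ 1 / (2 * c) := by
    rw [le_div_iff₀ (by positivity)]
    linarith
  have h3 : ∀ x ∈ Metric.closedBall z₀ ε, ∀ y ∈ Metric.closedBall z₀ ε,
      ‖Φ x - Φ y - fderiv ℝ Φ z₀ (x - y)‖ ≤ 1 / (2 * c) * ‖x - y‖ := fun x hx y hy =>
    (convex_closedBall z₀ ε).norm_image_sub_le_of_norm_fderiv_le' (fun z _ => hΦ z)
      (fun z hz => (h1 z hz).trans h2) hy hx
  refine ⟨fun z hz => hT.perturb hc.le ?_, fun x hx y hy hxy => ?_, fun y hy => ?_⟩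
  · have := mul_le_mul_of_nonneg_left (h1 z hz) (show 0 ≤ 2 * c by positivity)
    linarith
  · have h4 := h3 x hx y hy
    rw [hxy, sub_self, zero_sub, norm_neg] at h4
    have h5 := hT.2 (x - y)
    have h6 := mul_le_mul_of_nonneg_left h4 hc.le
    have h7 : c * (1 / (2 * c) * ‖x - y‖) = ‖x - y‖ / 2 := by field_simp
    exact sub_eq_zero.1 (norm_le_zero_iff.1 (by linarith))
  · choose g hg using hT.1.2
    let G : (fderiv ℝ Φ z₀).NonlinearRightInverse :=
      ⟨g, ⟨c, hc.le⟩, fun y => (hT.2 (g y)).trans_eq (by rw [hg]; rfl), hg⟩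
    have ha : ApproximatesLinearOn Φ (fderiv ℝ Φ z₀) (Metric.closedBall z₀ ε)
        ⟨1 / (2 * c), by positivity⟩ := h3
    refine ha.surjOn_closedBall_of_nonlinearRightInverse G (by positivity)
      (Metric.closedBall_subset_closedBall hy) ?_
    rw [mem_closedBall_iff_norm']
    refine le_of_eq ?_
    change _ = (c⁻¹ - 1 / (2 * c)) * _
    field_simp
    ring

/-- A chart of the zero set at a point where the derivative is onto with finite-dimensional
kernel. -/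
theorem exists_chart_zero {Φ : X → Y} (hΦ : ContDiff ℝ ∞ Φ) {z : X}
    (hs : Function.Surjective (fderiv ℝ Φ z)) {d : ℕ} (hd : HasIdx (fderiv ℝ Φ z) d) :
    ∃ (ψ : (Fin d → ℝ) → X) (π : X →L[ℝ] (Fin d → ℝ)) (U : Set (Fin d → ℝ)) (O : Set X),
      IsOpen U ∧ IsOpen O ∧ z ∈ O ∧ ContDiffOn ℝ ∞ ψ U ∧ (∀ a ∈ U, ψ a ∈ O ∧ Φ (ψ a) = Φ z ∧
        π (ψ a) = a ∧ Function.Bijective ((fderiv ℝ Φ (ψ a)).prod π)) ∧
          ∀ x ∈ O, Φ x = Φ z → π x ∈ U ∧ ψ (π x) = x := by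
  have := hd.finiteDimensional
  obtain ⟨b, f, -, hb⟩ := exists_functionals hs (P := univ) fun x hx => by
    obtain ⟨f, hf⟩ := SeparatingDual.exists_ne_zero (R := ℝ) hx
    exact ⟨f, trivial, hf⟩
  have h1 := (hd.prod (ContinuousLinearMap.pi f)).unique (hasIdx_zero_of_bijective hb)
  rw [Module.finrank_fin_fun] at h1
  obtain rfl : d = b := by omega
  generalize ContinuousLinearMap.pi f = π at hb
  have h2 : ∀ x, fderiv ℝ (fun x => (Φ x, π x)) x = (fderiv ℝ Φ x).prod π := fun x =>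
    ((hΦ.differentiable (by simp) x).hasFDerivAt.prodMk π.hasFDerivAt).fderiv
  obtain ⟨φ, h3, h4, h5, h6⟩ := loc_IFT (F := fun x => (Φ x, π x)) (hΦ.prodMk π.contDiff)
    (z := z) (h2 z ▸ hb)
  refine ⟨fun a => φ.symm (Φ z, a), π, {a | (Φ z, a) ∈ φ.target}, φ.source,
    φ.open_target.preimage (by fun_prop), φ.open_source, h4, fun a ha =>
      ((h6 _ ha).comp a (contDiffAt_const.prodMk contDiffAt_id)).contDiffWithinAt,
    fun a ha => ?_, fun x hx e => ?_⟩
  · have h7 := φ.right_inv ha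
    rw [h3] at h7
    exact ⟨φ.map_target ha, congrArg Prod.fst h7, congrArg Prod.snd h7,
      h2 _ ▸ h5 _ (φ.map_target ha)⟩
  · have h7 : φ x = (Φ z, π x) := by rw [h3, ← e]
    exact ⟨show (Φ z, π x) ∈ φ.target from h7 ▸ φ.map_source hx, by
      change φ.symm (Φ z, π x) = x
      rw [← h7, φ.left_inv hx]⟩

end

end Pool.Agent.P.MP_de3acd_gt.FH
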