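import Pool.Agent.P.MP_de3acd_gt.FH.SC1
import Pool.Agent.P.MP_de3acd_gt.FH.IFT

/-! The signed count of boundary points for a zero set in a Banach space.
Sketch: Z = {z ∈ O | Φ z = 0}. For z ∈ Z let τ z be a positive kernel vector (HasIdx.ker_one, neg) and
R z = ⨅ over f with 0 < f (τ z) of 𝓝[Z ∩ {z' | f z < f z'}] z, L z likewise with >; or choose one functional g z with
g z (τ z) = 1 (exists_dual_vector) and R z = 𝓝[Z ∩ {z' | g z z < g z z'}] z. exists_chart_zero with d = 1 gives a curve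
c t = ψ (fun _ => ± (t + π z 0)) in Z, injective, with map c (𝓝 t) = 𝓝[Z] (c t), derivative c' t ≠ 0 in the kernel,
continuous in t; choose the sign so that Pos z (c' 0), and shrink δ so that Pos (c t) (c' t) (cont). For any f with
0 < f (c' t), f (c s) - f (c t) has the sign of s - t near t, which identifies map c (𝓝[>] t) with R (c t).
Bp = {b ∈ B | 0 < f b (τ b)}, Bm the rest; apply signed_count_top. -/

open Set Filter Topology MeasureTheory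
open scoped ContDiff NNReal ENNReal RealInnerProductSpace

namespace Pool.Agent.P.MP_de3acd_gt.FH

noncomputable section

variable {X Y Z : Type} [NormedAddCommGroup X] [NormedSpace ℝ X] [NormedAddCommGroup Y]
  [NormedSpace ℝ Y] [NormedAddCommGroup Z] [NormedSpace ℝ Z]

theorem side_SC2 {c : ℝ → X} {v : X} {t : ℝ} {S : Set X} (hc : HasDerivAt c v t)
    (hm : map c (𝓝 t) = 𝓝[S] (c t)) {g : X →L[ℝ] ℝ} (hg : 0 < g v) :
    map c (𝓝[>] t) = 𝓝[S ∩ {x | g (c t) < g x}] (c t) ∧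
      map c (𝓝[<] t) = 𝓝[S ∩ {x | g x < g (c t)}] (c t) := by
  have h1 : HasDerivAt (fun s => g (c s) - g (c t)) (g v) t :=
    (g.hasFDerivAt.comp_hasDerivAt t hc).sub_const _
  have h2 := eventually_nhdsWithin_sign_eq_of_deriv_pos (f := fun s => g (c s) - g (c t)) (x₀ := t)
    (h1.deriv.symm ▸ hg) (sub_self _)
  have h3 : ∀ {I : Set ℝ} {A : Set X}, I =ᶠ[𝓝 t] c ⁻¹' A → map c (𝓝[I] t) = 𝓝[S ∩ A] (c t) :=
    fun h => by
      rw [nhdsWithin_inter', ← hm, ← map_inf_principal_preimage, nhdsWithin_eq_iff_eventuallyEq.2 h]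
      rfl
  refine ⟨h3 (eventuallyEq_set.2 (h2.mono fun s hs => ?_)),
    h3 (eventuallyEq_set.2 (h2.mono fun s hs => ?_))⟩
  · rw [mem_Ioi, mem_preimage, mem_ofPred_eq, ← sub_pos, ← sign_eq_one_iff, ← hs, sign_eq_one_iff,
      sub_pos]
  · rw [mem_Iio, mem_preimage, mem_ofPred_eq, ← sub_neg, ← sign_eq_neg_one_iff, ← hs,
      sign_eq_neg_one_iff, sub_neg]

theorem curve_SC2 [CompleteSpace X] [CompleteSpace Y] {Φ : X → Y} (hΦ : ContDiff ℝ ∞ Φ)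
    {O : Set X} (hO : IsOpen O) {z : X} (hz : z ∈ O) (h0 : Φ z = 0)
    (hs : Function.Surjective (fderiv ℝ Φ z)) (hd : HasIdx (fderiv ℝ Φ z) 1) :
    ∃ v : X, ∀ σ : ℝ, σ * σ = 1 → ∃ (c c' : ℝ → X) (p : X → ℝ), c 0 = z ∧ c' 0 = σ • v ∧
      ContinuousAt c' 0 ∧ ∀ᶠ t in 𝓝 0, (c t ∈ O ∧ Φ (c t) = 0) ∧ HasDerivAt c (c' t) t ∧ c' t ≠ 0 ∧
        fderiv ℝ Φ (c t) (c' t) = 0 ∧ p (c t) = t ∧
          map c (𝓝 t) = 𝓝[{x | x ∈ O ∧ Φ x = 0}] (c t) := by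
  obtain ⟨ψ, π, U, O', hU, hO', hz', hψ, h1, h2⟩ := exists_chart_zero hΦ hs (d := 1) hd
  rw [h0] at h1 h2
  refine ⟨fderiv ℝ ψ (π z) 1, fun σ hσ => ?_⟩
  have hσ0 : σ ≠ 0 := left_ne_zero_of_mul_eq_one hσ
  let l : ℝ → Fin 1 → ℝ := fun t => π z + t • σ • 1
  have l0 : l 0 = π z := by simp only [l, zero_smul, add_zero]
  have ld : ∀ t, HasDerivAt l (σ • 1) t := fun t =>
    (((hasDerivAt_id t).smul_const (σ • (1 : Fin 1 → ℝ))).const_add (π z)).congr_deriv (one_smul _ _)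
  have lc : Continuous l := continuous_iff_continuousAt.2 fun t => (ld t).continuousAt
  let p : X → ℝ := fun x => σ * (π x 0 - π z 0)
  have pc : Continuous p := by fun_prop
  have pl : ∀ x, l (p x) = π x := fun x => funext fun i => by
    obtain rfl : i = 0 := Subsingleton.elim _ _
    change π z 0 + σ * (π x 0 - π z 0) * (σ * 1) = _
    linear_combination (π x 0 - π z 0) * hσ
  have lp : ∀ t, l t ∈ U → p (ψ (l t)) = t := fun t ht => by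
    change σ * (π (ψ (l t)) 0 - π z 0) = t
    rw [(h1 _ ht).2.2.1]
    change σ * (π z 0 + t * (σ * 1) - π z 0) = t
    linear_combination t * hσ
  have hd : ∀ t, l t ∈ U → HasDerivAt (fun t => ψ (l t)) (fderiv ℝ ψ (l t) (σ • 1)) t :=
    fun t ht => ((hψ.contDiffAt (hU.mem_nhds ht)).differentiableAt
      (by simp)).hasFDerivAt.comp_hasDerivAt t (ld t)
  have hU0 : l 0 ∈ U := l0 ▸ (h2 z hz' h0).1
  have c0 : ψ (l 0) = z := l0 ▸ (h2 z hz' h0).2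
  have hI : ∀ᶠ t in 𝓝 0, l t ∈ U ∧ ψ (l t) ∈ O :=
    (lc.continuousAt.eventually_mem (hU.mem_nhds hU0)).and
      ((hd 0 hU0).continuousAt.eventually_mem (hO.mem_nhds (c0.symm ▸ hz)))
  refine ⟨fun t => ψ (l t), fun t => fderiv ℝ ψ (l t) (σ • 1), p, c0, by simp only [l0, map_smul], ?_,
    hI.eventually_nhds.mono fun t ht => ?_⟩
  · exact ((((hψ.continuousOn_fderiv_of_isOpen hU (by simp)).continuousAt
      (hU.mem_nhds hU0)).comp lc.continuousAt).clm_apply continuousAt_const)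
  have ht0 := ht.self_of_nhds
  have hd0 := hd t ht0.1
  refine ⟨⟨ht0.2, (h1 _ ht0.1).2.1⟩, hd0, fun e => ?_, ?_, lp t ht0.1, le_antisymm ?_ ?_⟩
  · have h3 := (π.hasFDerivAt.comp_hasDerivAt t hd0).unique ((ld t).congr_of_eventuallyEq
      (ht.mono fun s hs => (h1 _ hs.1).2.2.1))
    rw [show fderiv ℝ ψ (l t) (σ • 1) = 0 from e, map_zero] at h3
    exact hσ0 (by simpa using (congrFun h3 0).symm)
  · exact (((hΦ.differentiable (by simp)) _).hasFDerivAt.comp_hasDerivAt t hd0).unique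
      ((hasDerivAt_const t (0 : Y)).congr_of_eventuallyEq (ht.mono fun s hs => (h1 _ hs.1).2.1))
  · exact tendsto_nhdsWithin_iff.2 ⟨hd0.continuousAt, ht.mono fun s hs => ⟨hs.2, (h1 _ hs.1).2.1⟩⟩
  · have h3 : Tendsto p (𝓝[{x | x ∈ O ∧ Φ x = 0}] (ψ (l t))) (𝓝 t) := by
      have h4 := pc.tendsto (ψ (l t))
      rw [lp t ht0.1] at h4
      exact h4.mono_left nhdsWithin_le_nhds
    have h4 : (fun t => ψ (l t)) ∘ p =ᶠ[𝓝[{x | x ∈ O ∧ Φ x = 0}] (ψ (l t))] id := by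
      filter_upwards [self_mem_nhdsWithin,
        mem_nhdsWithin_of_mem_nhds (hO'.mem_nhds (h1 _ ht0.1).1)] with x hx hx'
      change ψ (l (p x)) = x
      rw [pl, (h2 x hx' hx.2).2]
    exact tendsto_id'.1 ((tendsto_map.comp h3).congr' h4)

theorem signed_count [CompleteSpace X] [CompleteSpace Y] {Φ : X → Y} (hΦ : ContDiff ℝ ∞ Φ)
    {O K B : Set X} (hO : IsOpen O) (hK : IsCompact K) (hZ : ∀ z ∈ K, z ∈ O ∧ Φ z = 0)
    (hr : ∀ z ∈ O, Φ z = 0 → Function.Surjective (fderiv ℝ Φ z) ∧ HasIdx (fderiv ℝ Φ z) 1)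
    {Pos : X → X → Prop}
    (neg : ∀ z ∈ O, Φ z = 0 → ∀ τ, τ ≠ 0 → fderiv ℝ Φ z τ = 0 → (Pos z τ ↔ ¬Pos z (-τ)))
    (ray : ∀ z τ (r : ℝ), 0 < r → Pos z τ → Pos z (r • τ))
    (cont : ∀ z ∈ K, ∀ τ, τ ≠ 0 → fderiv ℝ Φ z τ = 0 → Pos z τ → ∀ᶠ q : X × X in 𝓝 (z, τ),
      q.1 ∈ O → Φ q.1 = 0 → fderiv ℝ Φ q.1 q.2 = 0 → Pos q.1 q.2)
    (fB : B.Finite) (sB : B ⊆ K) {f : X → X →L[ℝ] ℝ}
    (hB : ∀ b ∈ B, (∀ τ, τ ≠ 0 → fderiv ℝ Φ b τ = 0 → f b τ ≠ 0) ∧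
      ∀ᶠ z in 𝓝 b, z ∈ O → Φ z = 0 → (z ∈ K ↔ f b z ≤ f b b))
    (hi : ∀ z ∈ K, z ∉ B → ∀ᶠ z' in 𝓝 z, z' ∈ O → Φ z' = 0 → z' ∈ K) :
    {b ∈ B | ∃ τ, fderiv ℝ Φ b τ = 0 ∧ Pos b τ ∧ 0 < f b τ}.ncard =
      {b ∈ B | ∃ τ, fderiv ℝ Φ b τ = 0 ∧ Pos b τ ∧ f b τ < 0}.ncard := by
  let S : Set X := {x | x ∈ O ∧ Φ x = 0}
  let P : X → (X →L[ℝ] ℝ) → Prop := fun z g => ∃ τ, fderiv ℝ Φ z τ = 0 ∧ Pos z τ ∧ 0 < g τ
  have hP : ∀ z ∈ S, ∀ v, v ≠ 0 → fderiv ℝ Φ z v = 0 → Pos z v → ∀ g, P z g → 0 < g v := by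
    rintro z hz v hv0 hv hp g ⟨τ, hτ, hp', hg⟩
    obtain ⟨u, -, -, hu⟩ := (hr z hz.1 hz.2).2.ker_one (hr z hz.1 hz.2).1
    obtain ⟨a, rfl⟩ := hu v hv
    obtain ⟨b, hb⟩ := hu τ hτ
    have ha : a ≠ 0 := left_ne_zero_of_smul hv0
    have e : τ = (b / a) • a • u := by rw [smul_smul, div_mul_cancel₀ _ ha, hb]
    generalize b / a = r at e
    generalize a • u = v at e hv0 hv hp
    have hτ0 : τ ≠ 0 := fun h => by rw [h, map_zero] at hg; exact lt_irrefl _ hg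
    rcases lt_trichotomy r 0 with h | h | h
    · have h1 := ray z v (-r) (neg_pos.2 h) hp
      rw [neg_smul, ← e] at h1
      exact absurd h1 ((neg z hz.1 hz.2 τ hτ0 hτ).1 hp')
    · rw [h, zero_smul] at e
      exact absurd e hτ0
    · rw [e, map_smul, smul_eq_mul] at hg
      exact pos_of_mul_pos_left (mul_comm r _ ▸ hg) h.le
  have hc : ∀ z ∈ K, ∃ (c c' : ℝ → X) (δ : ℝ), 0 < δ ∧ c 0 = z ∧ InjOn c (Ioo (-δ) δ) ∧
      ∀ t ∈ Ioo (-δ) δ, map c (𝓝 t) = 𝓝[S] (c t) ∧ c' t ≠ 0 ∧ fderiv ℝ Φ (c t) (c' t) = 0 ∧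
        Pos (c t) (c' t) ∧ ∀ g, P (c t) g → map c (𝓝[>] t) = 𝓝[S ∩ {x | g (c t) < g x}] (c t) ∧
          map c (𝓝[<] t) = 𝓝[S ∩ {x | g x < g (c t)}] (c t) := fun z hz => by
    obtain ⟨hzO, hz0⟩ := hZ z hz
    obtain ⟨v, hv⟩ := curve_SC2 hΦ hO hzO hz0 (hr z hzO hz0).1 (hr z hzO hz0).2
    obtain ⟨σ, hσ, hp⟩ : ∃ σ : ℝ, σ * σ = 1 ∧ Pos z (σ • v) := by
      obtain ⟨c, c', p, e1, e2, -, h⟩ := hv 1 (one_mul 1)
      obtain ⟨-, -, h1, h2, -⟩ := h.self_of_nhds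
      rw [e1] at h2
      rw [e2] at h1 h2
      by_cases h3 : Pos z ((1 : ℝ) • v)
      · exact ⟨1, one_mul 1, h3⟩
      · refine ⟨-1, by norm_num, ?_⟩
        rw [neg_smul]
        exact not_not.1 (mt (neg z hzO hz0 _ h1 h2).2 h3)
    obtain ⟨c, c', p, e1, e2, h1, h⟩ := hv σ hσ
    obtain ⟨-, h2, h3, h4, -⟩ := h.self_of_nhds
    have h5 := (h2.continuousAt.prodMk h1).eventually
      (cont (c 0) (e1.symm ▸ hz) (c' 0) h3 h4 (by rw [e1, e2]; exact hp))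
    obtain ⟨δ, hδ, h6⟩ := Metric.eventually_nhds_iff_ball.1 (h.and h5)
    rw [Real.ball_eq_Ioo, zero_sub, zero_add] at h6
    refine ⟨c, c', δ, hδ, e1, fun s hs t ht e => ?_, fun t ht => ?_⟩
    · rw [← (h6 s hs).1.2.2.2.2.1, e, (h6 t ht).1.2.2.2.2.1]
    · obtain ⟨⟨i1, i2, i3, i4, -, i5⟩, i6⟩ := h6 t ht
      have i7 := i6 i1.1 i1.2 i4
      exact ⟨i5, i3, i4, i7, fun g hg => side_SC2 i2 i5 (hP _ i1 _ i3 i4 i7 g hg)⟩
  let g : X → X →L[ℝ] ℝ := fun z => Classical.epsilon (P z)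
  have hg : ∀ z v, v ≠ 0 → fderiv ℝ Φ z v = 0 → Pos z v → P z (g z) := fun z v h1 h2 h3 => by
    obtain ⟨g', hg'⟩ := SeparatingDual.exists_eq_one (R := ℝ) h1
    exact Classical.epsilon_spec ⟨g', v, h2, h3, hg'.symm ▸ one_pos⟩
  let R : X → Filter X := fun z => 𝓝[S ∩ {x | g z z < g z x}] z
  let L : X → Filter X := fun z => 𝓝[S ∩ {x | g z x < g z z}] z
  have hRL : ∀ z ∈ K, ∀ g', P z g' → R z = 𝓝[S ∩ {x | g' z < g' x}] z ∧
      L z = 𝓝[S ∩ {x | g' x < g' z}] z := fun z hz g' hg' => by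
    obtain ⟨c, c', δ, hδ, rfl, -, h⟩ := hc z hz
    obtain ⟨-, h1, h2, h3, h4⟩ := h 0 ⟨neg_lt_zero.2 hδ, hδ⟩
    exact ⟨(h4 _ (hg _ _ h1 h2 h3)).1.symm.trans (h4 _ hg').1,
      (h4 _ (hg _ _ h1 h2 h3)).2.symm.trans (h4 _ hg').2⟩
  have hin : ∀ b ∈ B, K ∈ 𝓝[S ∩ {x | f b x < f b b}] b ∧ Kᶜ ∈ 𝓝[S ∩ {x | f b b < f b x}] b :=
    fun b hb => by
      constructor
      · filter_upwards [self_mem_nhdsWithin, mem_nhdsWithin_of_mem_nhds (hB b hb).2] with x hx hx'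
        exact (hx' hx.1.1 hx.1.2).2 (le_of_lt hx.2)
      · filter_upwards [self_mem_nhdsWithin, mem_nhdsWithin_of_mem_nhds (hB b hb).2] with x hx hx'
        exact fun h => not_lt.2 ((hx' hx.1.1 hx.1.2).1 h) hx.2
  refine signed_count_top (Z := S) (R := R) (L := L) hK hZ (fun z hz => ?_)
    (fB.subset fun _ h => h.1) (fB.subset fun _ h => h.1) (fun _ h => sB h.1) (fun _ h => sB h.1)
    (fun z hz => ?_) (fun z hz => ?_) (fun z hz h1 h2 => ?_)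
  · obtain ⟨c, c', δ, hδ, e, h1, h⟩ := hc z hz
    refine ⟨c, δ, hδ, e, h1, fun t ht => ?_⟩
    obtain ⟨h0, h1, h2, h3, h4⟩ := h t ht
    exact ⟨h0, h4 _ (hg _ _ h1 h2 h3)⟩
  · obtain ⟨e1, e2⟩ := hRL z (sB hz.1) (f z) hz.2
    rw [e1, e2]
    exact hin z hz.1
  · obtain ⟨hb, τ, h1, h2, h3⟩ := hz
    obtain ⟨e1, e2⟩ := hRL z (sB hb) (-f z) ⟨τ, h1, h2, neg_pos.2 h3⟩
    rw [e1, e2]
    simpa only [neg_apply, neg_lt_neg_iff] using hin z hb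
  · have hb : z ∉ B := fun hb => by
      obtain ⟨c, c', δ, hδ, rfl, -, h⟩ := hc z hz
      obtain ⟨-, i1, i2, i3, -⟩ := h 0 ⟨neg_lt_zero.2 hδ, hδ⟩
      rcases ((hB _ hb).1 _ i1 i2).lt_or_gt with h | h
      · exact h2 ⟨hb, _, i2, i3, h⟩
      · exact h1 ⟨hb, _, i2, i3, h⟩
    filter_upwards [self_mem_nhdsWithin, mem_nhdsWithin_of_mem_nhds (hi z hz hb)] with x hx hx'
    exact hx' hx.1 hx.2

end

end Pool.Agent.P.MP_de3acd_gt.FH
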