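import Pool.Agent.P.MP_de3acd_gt.FH.AbsEnd
import Pool.Agent.P.MP_de3acd_gt.FH.SC2

/-! The boundary count for a one-parameter family with finitely many ends, abstractly.
Sketch: Z = {z ∈ O | Φ z = 0}. Choose ε small and ϱ₀ large for all ends at once (EndH.pack, hs, hsep, hπ; eventually_all): the sets
E i = EndS .. ε ϱ₀ and the points b i satisfy 0 < π < 1, b i ∉ E j, b i ≠ b j. K = {z ∈ Z | π z ∈ Icc 0 1, ∀ i, z ∉ E i} is sequentially compact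
(hc, openness of E i in Z, absorption), so compact. B₀, B₁ = K ∩ {π = 0}, K ∩ {π = 1} are finite: closed in K, and discrete by
eventually_eq_of_bijective for (Φ, π) (HasIdx.bijective_prod, HasIdx.ker_one). Apply signed_count with B = B₀ ∪ B₁ ∪ range b and the
functional -π on B₀, π on B₁, f i ϱ₀ at b i; at each boundary point exactly one of the two alternatives holds (neg, ray, ker_one). -/

open Set Filter Topology MeasureTheory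
open scoped ContDiff NNReal ENNReal RealInnerProductSpace

namespace Pool.Agent.P.MP_de3acd_gt.FH

noncomputable section

variable {X Y Z : Type} [NormedAddCommGroup X] [NormedSpace ℝ X] [NormedAddCommGroup Y]
  [NormedSpace ℝ Y] [NormedAddCommGroup Z] [NormedSpace ℝ Z]

theorem scnt_AbsHom {ι : Type} {M : Set ι} (hM : M.Finite) (s : ι → ℤˣ) :
    scnt M s = ∑ᶠ m ∈ M, (s m : ℤ) := by
  classical
  lift M to Finset ι using hM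
  rw [finsum_mem_coe_finset, scnt]
  simp only [Finset.mem_coe]
  rw [← Finset.coe_filter, ← Finset.coe_filter, ncard_coe_finset, ncard_coe_finset,
    Finset.card_filter, Finset.card_filter]
  push_cast
  rw [← Finset.sum_sub_distrib]
  refine Finset.sum_congr rfl fun m _ => ?_
  rcases Int.units_eq_one_or (s m) with h | h <;> simp [h]

theorem fin_AbsHom {A : Type} [TopologicalSpace A] {S : Set A} (hS : IsCompact S)
    (h : ∀ z ∈ S, ∀ᶠ z' in 𝓝 z, z' ∈ S → z' = z) : S.Finite := by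
  obtain ⟨t, -, hc⟩ := hS.elim_nhds_subcover (fun z => {z' | z' ∈ S → z' = z}) h
  refine t.finite_toSet.subset fun z hz => ?_
  obtain ⟨y, hy, e⟩ := mem_iUnion₂.1 (hc hz)
  exact e hz ▸ hy

theorem glue_AbsHom {A ι T : Type} {p : A → ℝ} {b : ι → A} (hb : Function.Injective b)
    (h : ∀ i, p (b i) ∈ Ioo (0 : ℝ) 1) (a₀ a₁ : A → T) (a : ι → T) : ∃ g : A → T,
      (∀ z, p z = 0 → g z = a₀ z) ∧ (∀ z, p z = 1 → g z = a₁ z) ∧ ∀ i, g (b i) = a i :=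
  ⟨fun z => if p z = 0 then a₀ z else if p z = 1 then a₁ z else Function.extend b a a₀ z,
    fun _ e => if_pos e, fun _ e => (if_neg (e.trans_ne one_ne_zero)).trans (if_pos e),
    fun i => (if_neg (h i).1.ne').trans ((if_neg (h i).2.ne).trans (hb.extend_apply _ _ i))⟩

theorem sign_AbsHom {D : X →L[ℝ] Y} {P : X → Prop} {g : X →L[ℝ] ℝ} {σ : ℤˣ}
    (h0 : ∃ τ, τ ≠ 0 ∧ D τ = 0) (neg : ∀ τ, τ ≠ 0 → D τ = 0 → (P τ ↔ ¬P (-τ)))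
    (h : ∀ τ, τ ≠ 0 → D τ = 0 → g τ ≠ 0 ∧ (0 < g τ → (P τ ↔ σ = 1))) :
    ((∃ τ, D τ = 0 ∧ P τ ∧ 0 < g τ) ↔ σ = 1) ∧ ((∃ τ, D τ = 0 ∧ P τ ∧ g τ < 0) ↔ σ = -1) := by
  have hn : ∀ τ, D τ = 0 → D (-τ) = 0 := fun τ e => by rw [map_neg, e, neg_zero]
  have hz : ∀ τ, g τ ≠ 0 → τ ≠ 0 := fun τ e e' => e (by rw [e', map_zero])
  have h1 : ∃ τ, D τ = 0 ∧ 0 < g τ := by
    obtain ⟨τ, a, b⟩ := h0
    rcases (h τ a b).1.lt_or_gt with e | e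
    · exact ⟨-τ, hn τ b, by rwa [map_neg, neg_pos]⟩
    · exact ⟨τ, b, e⟩
  obtain ⟨τ₀, a, b⟩ := h1
  have c := (h τ₀ (hz _ b.ne') a).2 b
  refine ⟨⟨fun ⟨τ, d, e, k⟩ => ((h τ (hz _ k.ne') d).2 k).1 e, fun e => ⟨τ₀, a, c.2 e, b⟩⟩,
    fun ⟨τ, d, e, k⟩ => (Int.units_eq_one_or σ).resolve_left fun e' => ?_,
    fun e => ⟨-τ₀, hn _ a, ?_, by rwa [map_neg, neg_lt_zero]⟩⟩
  · have k' : 0 < g (-τ) := by rwa [map_neg, neg_pos]
    exact (neg τ (hz _ k.ne) d).1 e (((h _ (hz _ k'.ne') (hn τ d)).2 k').2 e')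
  · by_contra k
    have := c.1 ((neg τ₀ (hz _ b.ne') a).2 k)
    rw [e] at this
    exact absurd this (by decide)

theorem near_AbsHom (π : X →L[ℝ] ℝ) {r : ℝ} (hr : r ∈ Ioo (0 : ℝ) 1) :
    ∀ᶠ ε in 𝓝[>] (0 : ℝ), ∀ z y, π y = r → dist z y ≤ ε → π z ∈ Ioo (0 : ℝ) 1 := by
  have h1 : ContinuousAt (fun ε : ℝ => ‖π‖ * ε) 0 := by fun_prop
  refine (h1.eventually_lt_const (by simpa using lt_min hr.1 (sub_pos.2 hr.2) :
    ‖π‖ * 0 < min r (1 - r))).filter_mono nhdsWithin_le_nhds |>.mono fun ε e z y hy d => ?_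
  have h2 := (π.dist_le_opNorm z y).trans (mul_le_mul_of_nonneg_left d (norm_nonneg π))
  rw [hy, Real.dist_eq, abs_le] at h2
  exact ⟨by linarith [h2.1, (lt_min_iff.1 e).1], by linarith [h2.2, (lt_min_iff.1 e).2]⟩

theorem abs_hom [CompleteSpace X] [CompleteSpace Y] {Φ : X → Y} (hΦ : ContDiff ℝ ∞ Φ) {O : Set X}
    (hO : IsOpen O)
    (hr : ∀ z ∈ O, Φ z = 0 → Function.Surjective (fderiv ℝ Φ z) ∧ HasIdx (fderiv ℝ Φ z) 1)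
    {Pos : X → X → Prop}
    (neg : ∀ z ∈ O, Φ z = 0 → ∀ τ, τ ≠ 0 → fderiv ℝ Φ z τ = 0 → (Pos z τ ↔ ¬Pos z (-τ)))
    (ray : ∀ z τ (r : ℝ), 0 < r → Pos z τ → Pos z (r • τ))
    (cont : ∀ z ∈ O, Φ z = 0 → ∀ τ, τ ≠ 0 → fderiv ℝ Φ z τ = 0 → Pos z τ →
      ∀ᶠ q : X × X in 𝓝 (z, τ), q.1 ∈ O → Φ q.1 = 0 → fderiv ℝ Φ q.1 q.2 = 0 → Pos q.1 q.2)
    (π : X →L[ℝ] ℝ) {t : X → ℤˣ} (ht : ∀ z ∈ O, Φ z = 0 → π z = 0 ∨ π z = 1 → ∀ τ, τ ≠ 0 →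
      fderiv ℝ Φ z τ = 0 → π τ ≠ 0 ∧ (0 < π τ → (Pos z τ ↔ t z = 1)))
    {ι : Type} [Fintype ι] {w : ι → ℝ → X} {f : ι → ℝ → X →L[ℝ] ℝ} {c : ι → ℝ → ℝ} {s : ι → ℤˣ}
    (he : ∀ i, EndH {z ∈ O | Φ z = 0} (w i) (f i) (c i))
    (hπ : ∀ i, ∃ r ∈ Ioo (0 : ℝ) 1, ∀ ϱ, π (w i ϱ) = r)
    (hs : ∀ i, ∃ ε > 0, ∀ᶠ ϱ in atTop, ∀ z ∈ O, Φ z = 0 → dist z (w i ϱ) ≤ ε → ∀ τ, τ ≠ 0 →
      fderiv ℝ Φ z τ = 0 → f i ϱ τ ≠ 0 ∧ (0 < f i ϱ τ → (Pos z τ ↔ s i = 1)))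
    (hsep : ∀ i j, i ≠ j → ∃ ε > 0, ∃ ϱ₀, ∀ ϱ ≥ ϱ₀, ∀ ϱ' ≥ ϱ₀, ε < dist (w i ϱ) (w j ϱ'))
    (hc : ∀ z : ℕ → X, (∀ n, z n ∈ O ∧ Φ (z n) = 0 ∧ π (z n) ∈ Icc (0 : ℝ) 1) →
      ∃ φ : ℕ → ℕ, StrictMono φ ∧ ((∃ z₀ ∈ O, Tendsto (fun n => z (φ n)) atTop (𝓝 z₀)) ∨
        ∃ i, ∃ ϱ : ℕ → ℝ, Tendsto ϱ atTop atTop ∧
          Tendsto (fun n => dist (z (φ n)) (w i (ϱ n))) atTop (𝓝 0))) :
    {z ∈ O | Φ z = 0 ∧ π z = 0}.Finite ∧ {z ∈ O | Φ z = 0 ∧ π z = 1}.Finite ∧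
      scnt {z ∈ O | Φ z = 0 ∧ π z = 1} t - scnt {z ∈ O | Φ z = 0 ∧ π z = 0} t + ∑ i, (s i : ℤ) = 0 := by
  have e1 := eventually_all.2 fun i => (he i).pack
  have e2 : ∀ᶠ ε in 𝓝[>] (0 : ℝ), ∀ i z ϱ, dist z (w i ϱ) ≤ ε → π z ∈ Ioo (0 : ℝ) 1 :=
    eventually_all.2 fun i => by
      obtain ⟨r, h1, h2⟩ := hπ i
      exact (near_AbsHom π h1).mono fun ε h z ϱ => h z _ (h2 ϱ)
  have e3 : ∀ᶠ ε in 𝓝[>] (0 : ℝ), ∀ i, ∀ᶠ ϱ in atTop, ∀ z ∈ O, Φ z = 0 → dist z (w i ϱ) ≤ ε →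
      ∀ τ, τ ≠ 0 → fderiv ℝ Φ z τ = 0 → f i ϱ τ ≠ 0 ∧ (0 < f i ϱ τ → (Pos z τ ↔ s i = 1)) :=
    eventually_all.2 fun i => by
      obtain ⟨ε, h1, h2⟩ := hs i
      filter_upwards [Ioc_mem_nhdsGT h1] with ε' k
      exact h2.mono fun ϱ h z a b d => h z a b (d.trans k.2)
  have e4 : ∀ᶠ ε in 𝓝[>] (0 : ℝ), ∀ i j, ∀ᶠ ϱ₀ in atTop, i ≠ j → ∀ ϱ ≥ ϱ₀, ∀ ϱ' ≥ ϱ₀,
      2 * ε < dist (w i ϱ) (w j ϱ') := eventually_all.2 fun i => eventually_all.2 fun j => by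
    by_cases hij : i = j
    · exact .of_forall fun _ => .of_forall fun _ h => absurd hij h
    · obtain ⟨ε, h1, ϱ₀, h2⟩ := hsep i j hij
      filter_upwards [Ioc_mem_nhdsGT (half_pos h1)] with ε' k
      filter_upwards [eventually_ge_atTop ϱ₀] with ϱ₁ k' _ ϱ a ϱ' b
      linarith [h2 ϱ (k'.trans a) ϱ' (k'.trans b), k.2]
  obtain ⟨ε, e1, e2, e3, e4⟩ := (e1.and (e2.and (e3.and e4))).exists
  obtain ⟨ϱ₀, e1, e3, e4⟩ := ((eventually_all.2 e1).and ((eventually_all.2 e3).and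
    (eventually_all.2 fun i => eventually_all.2 (e4 i)))).exists
  choose b bZ bd bE p1 p2 p3 p4 using e1
  obtain ⟨E, hE⟩ : ∃ E : ι → Set X,
    ∀ i, EndS {z ∈ O | Φ z = 0} (w i) (f i) (c i) ε ϱ₀ = E i := ⟨_, fun _ => rfl⟩
  have bπ : ∀ i, π (b i) ∈ Ioo (0 : ℝ) 1 := fun i => e2 i _ _ (bd i)
  have far : ∀ i j, i ≠ j → ∀ ϱ ≥ ϱ₀, ¬dist (b i) (w j ϱ) ≤ ε := fun i j h ϱ k d => by
    linarith [e4 i j h ϱ₀ le_rfl ϱ k, dist_triangle_left (w i ϱ₀) (w j ϱ) (b i), bd i]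
  have binj : Function.Injective b := fun i j e => by
    by_contra h
    exact far i j h ϱ₀ le_rfl (e ▸ bd j)
  have Eπ : ∀ i, ∀ z ∈ E i, π z ∈ Ioo (0 : ℝ) 1 := fun i z hz => by
    obtain ⟨-, ϱ, -, d, -⟩ := hE i ▸ hz
    exact e2 i z ϱ d
  have bE' : ∀ i j, b i ∉ E j := fun i j hz => by
    rcases eq_or_ne i j with rfl | h
    · exact bE i (hE i ▸ hz)
    · obtain ⟨-, ϱ, k, d, -⟩ := hE j ▸ hz
      exact far i j h ϱ k.le d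
  simp only [hE] at p1 p2 p3 p4
  obtain ⟨K, hK⟩ : ∃ K : Set X, ∀ z, z ∈ K ↔
    (z ∈ O ∧ Φ z = 0) ∧ π z ∈ Icc (0 : ℝ) 1 ∧ ∀ i, z ∉ E i := ⟨{z | _}, fun _ => Iff.rfl⟩
  have cK : IsCompact K := IsSeqCompact.isCompact fun x hx => by
    have hx' := fun n => (hK _).1 (hx n)
    obtain ⟨φ, hφ, ⟨z, hz, h⟩ | ⟨i, ϱ, h1, h2⟩⟩ :=
      hc x fun n => ⟨(hx' n).1.1, (hx' n).1.2, (hx' n).2.1⟩
    · refine ⟨z, (hK z).2 ⟨⟨hz, ?_⟩, ?_, fun i hi => ?_⟩, φ, hφ, h⟩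
      · exact (isClosed_eq hΦ.continuous continuous_const).mem_of_tendsto h
          (.of_forall fun n => (hx' _).1.2)
      · exact (isClosed_Icc.preimage π.continuous).mem_of_tendsto h
          (.of_forall fun n => (hx' _).2.1)
      · obtain ⟨n, hn⟩ := (h.eventually (p2 i z hi)).exists
        exact (hx' _).2.2 i (hn (hx' _).1)
    · obtain ⟨n, hn⟩ := (p4 i (fun n => x (φ n)) ϱ (fun n => (hx' _).1) h1 h2).exists
      exact absurd hn ((hx' _).2.2 i)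
  have nE : ∀ z, π z = 0 ∨ π z = 1 → π z ∈ Icc (0 : ℝ) 1 ∧ π z ∉ Ioo (0 : ℝ) 1 := by
    rintro z (e | e) <;> simp [e]
  have sK : ∀ z ∈ O, Φ z = 0 → π z = 0 ∨ π z = 1 → z ∈ K := fun z a a' e =>
    (hK z).2 ⟨⟨a, a'⟩, (nE z e).1, fun i hi => (nE z e).2 (Eπ i z hi)⟩
  have fin : ∀ r : ℝ, r = 0 ∨ r = 1 → {z ∈ O | Φ z = 0 ∧ π z = r}.Finite := fun r h => by
    refine (fin_AbsHom (cK.inter_right (isClosed_eq π.continuous continuous_const :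
      IsClosed {z | π z = r})) fun z hz => ?_).subset fun z hz =>
        ⟨sK z hz.1 hz.2.1 (hz.2.2 ▸ h), hz.2.2⟩
    obtain ⟨a, a'⟩ := ((hK z).1 hz.1).1
    obtain ⟨τ, k0, k1, -⟩ := (hr z a a').2.ker_one (hr z a a').1
    filter_upwards [eventually_eq_of_bijective
      (((hΦ.differentiable (by simp)) z).hasFDerivAt.prodMk π.hasFDerivAt)
      ((hr z a a').2.bijective_prod (hr z a a').1 k1 (ht z a a' (hz.2.symm ▸ h) τ k0 k1).1)]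
      with z' k hz'
    exact k (Prod.ext (((hK z').1 hz'.1).1.2.trans a'.symm) (hz'.2.trans hz.2.symm))
  have f0 := fin 0 (.inl rfl)
  have f1 := fin 1 (.inr rfl)
  refine ⟨f0, f1, ?_⟩
  obtain ⟨g, g0, g1, g2⟩ := glue_AbsHom binj bπ (fun _ => -π) (fun _ => π) fun i => f i ϱ₀
  obtain ⟨u, u0, u1, u2⟩ := glue_AbsHom binj bπ (fun z => -t z) t s
  have fB := (f0.union f1).union (finite_range b)
  have out : ∀ z ∈ O, Φ z = 0 → π z = 0 ∨ π z = 1 → ∀ᶠ z' in 𝓝 z, ∀ i, z' ∉ E i :=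
    fun z a a' e => eventually_all.2 fun i => p3 i z ⟨a, a'⟩
      (((hK z).1 (sK z a a' e)).2.2 i) fun e' => (nE z e).2 (e' ▸ bπ i)
  have H : ∀ z ∈ {z ∈ O | Φ z = 0 ∧ π z = 0} ∪ {z ∈ O | Φ z = 0 ∧ π z = 1} ∪ range b,
      (z ∈ O ∧ Φ z = 0) ∧ ∀ τ, τ ≠ 0 → fderiv ℝ Φ z τ = 0 →
        g z τ ≠ 0 ∧ (0 < g z τ → (Pos z τ ↔ u z = 1)) := by
    rintro z ((⟨a, a', e⟩ | ⟨a, a', e⟩) | ⟨i, rfl⟩)
    · refine ⟨⟨a, a'⟩, fun τ k0 k1 => ?_⟩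
      rw [g0 z e, u0 z e]
      refine ⟨neg_ne_zero.2 (ht z a a' (.inl e) τ k0 k1).1, fun k => ?_⟩
      rw [neg z a a' τ k0 k1, (ht z a a' (.inl e) (-τ) (neg_ne_zero.2 k0)
        (by rw [map_neg, k1, neg_zero])).2 (by rwa [map_neg])]
      rcases Int.units_eq_one_or (t z) with h | h <;> simp [h]
    · rw [g1 z e, u1 z e]
      exact ⟨⟨a, a'⟩, ht z a a' (.inr e)⟩
    · rw [g2, u2]
      exact ⟨bZ i, e3 i _ (bZ i).1 (bZ i).2 (bd i)⟩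
  have key := signed_count hΦ hO cK (fun z hz => ((hK z).1 hz).1) hr neg ray
    (fun z hz => cont z ((hK z).1 hz).1.1 ((hK z).1 hz).1.2) fB (f := g) ?_
    (fun z hz => ⟨fun τ k0 k1 => ((H z hz).2 τ k0 k1).1, ?_⟩) ?_
  · have S := fun z hz => sign_AbsHom
      (((hr z (H z hz).1.1 (H z hz).1.2).2.ker_one (hr z (H z hz).1.1 (H z hz).1.2).1).imp
        fun τ k => ⟨k.1, k.2.1⟩) (neg z (H z hz).1.1 (H z hz).1.2) (H z hz).2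
    rw [sep_ext_iff.2 fun z hz => (S z hz).1, sep_ext_iff.2 fun z hz => (S z hz).2] at key
    have k1 := scnt_AbsHom fB u
    rw [scnt, key, sub_self, finsum_mem_union _ (f0.union f1) (finite_range b),
      finsum_mem_union _ f0 f1, finsum_mem_range binj, finsum_eq_sum_of_fintype (α := ι),
      finsum_mem_congr (s := {z ∈ O | Φ z = 0 ∧ π z = 0}) rfl fun z hz =>
        congrArg Units.val (u0 z hz.2.2),
      finsum_mem_congr (s := {z ∈ O | Φ z = 0 ∧ π z = 1}) rfl fun z hz =>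
        congrArg Units.val (u1 z hz.2.2)] at k1
    · simp only [u2, Units.val_neg, finsum_mem_neg_distrib _ f0] at k1
      rw [scnt_AbsHom f0, scnt_AbsHom f1]
      linarith
    · exact disjoint_left.2 fun z h h' => zero_ne_one (h.2.2.symm.trans h'.2.2)
    · refine disjoint_right.2 ?_
      rintro _ ⟨i, rfl⟩ h
      exact (nE _ (h.imp (·.2.2) (·.2.2))).2 (bπ i)
  · rintro z ((⟨a, a', e⟩ | ⟨a, a', e⟩) | ⟨i, rfl⟩)
    · exact sK z a a' (.inl e)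
    · exact sK z a a' (.inr e)
    · exact (hK _).2 ⟨bZ i, Ioo_subset_Icc_self (bπ i), bE' i⟩
  · obtain (⟨a, a', e⟩ | ⟨a, a', e⟩) | ⟨i, rfl⟩ := hz
    · filter_upwards [out z a a' (.inl e), π.continuous.continuousAt.eventually_lt_const
        (e.trans_lt zero_lt_one)] with z' k k' b1 b2
      rw [hK, g0 z e, neg_apply, neg_apply, neg_le_neg_iff, e]
      exact ⟨fun h => h.2.1.1, fun h => ⟨⟨b1, b2⟩, ⟨h, k'.le⟩, k⟩⟩
    · filter_upwards [out z a a' (.inr e), π.continuous.continuousAt.eventually_const_lt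
        (zero_lt_one.trans_eq e.symm)] with z' k k' b1 b2
      rw [hK, g1 z e, e]
      exact ⟨fun h => h.2.1.2, fun h => ⟨⟨b1, b2⟩, ⟨k'.le, h⟩, k⟩⟩
    · have o : ∀ᶠ z' in 𝓝 (b i), ∀ j, j ≠ i → z' ∉ E j := eventually_all.2 fun j => by
        by_cases h : j = i
        · exact .of_forall fun _ h' => absurd h h'
        · exact (p3 j _ (bZ i) (bE' i j) fun e => h (binj e).symm).mono fun _ k _ => k
      filter_upwards [o, p1 i, π.continuous.continuousAt.eventually_mem (Ioo_mem_nhds (bπ i).1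
        (bπ i).2)] with z' k k' k'' b1 b2
      rw [hK, g2, ← not_lt, ← k' ⟨b1, b2⟩]
      refine ⟨fun h => h.2.2 i, fun h => ⟨⟨b1, b2⟩, Ioo_subset_Icc_self k'', fun j => ?_⟩⟩
      rcases eq_or_ne j i with rfl | e
      · exact h
      · exact k j e
  · intro z hz hB
    obtain ⟨a, a', a''⟩ := (hK z).1 hz
    filter_upwards [eventually_all.2 fun i => p3 i z a (a'' i) fun e => hB (.inr ⟨i, e.symm⟩),
      π.continuous.continuousAt.eventually_mem (Ioo_mem_nhds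
        (a'.1.lt_of_ne' fun e => hB (.inl (.inl ⟨a.1, a.2, e⟩)))
        (a'.2.lt_of_ne fun e => hB (.inl (.inr ⟨a.1, a.2, e⟩))))] with z' k k' b1 b2
    exact (hK z').2 ⟨⟨b1, b2⟩, Ioo_subset_Icc_self k', k⟩

end

end Pool.Agent.P.MP_de3acd_gt.FH
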