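import Pool.Agent.P.MP_de3acd_gt.FH.PS

/-! The action functional.
Sketch: act_shift: g z = L z + l; om is bilinear and invariant; ∫ om l (L x') = om l (L (x 1 - x 0)); the difference is (om (M L⁻¹ l) b - om b' l) / 2 with lattice vectors
(Good.aff for g, g⁻¹, γ and their products; L⁻¹ l = -g⁻¹ 0, b = γ 0, b' = (g γ g⁻¹) 0), and om of two lattice vectors is in 4 π² ℤ. gap_fin: orb_fin twice; the gaps lie in
a finite set plus 2 π² ℤ. hasDerivAt_act: differentiate under the integral (hasDerivAt_integral_of_dominated_loc_of_deriv_le, or ContDiff of parametric interval integrals), integrate by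
parts in t (integral_eq_sub_of_hasDerivAt, ds_dt_comm), use u (s, 1) = γ (u (s, 0)). act_lim: om u u' - om x x' = om (u - x) u' + om x' (u - x) + (om x (u - x))'. -/

open Set Filter Topology MeasureTheory
open scoped ContDiff NNReal ENNReal RealInnerProductSpace

namespace Pool.Agent.P.MP_de3acd_gt.FH

noncomputable section

variable {Γ : Subgroup (Equiv.Perm E)} {B : ℝ → E →L[ℝ] E} {J : ℝ → E → E →L[ℝ] E}
  {H G K K' : ℝ → E → ℝ} {Y Y' Z : ℝ → E → E} {γ g : Equiv.Perm E} {x y w : ℝ → E} {u : Pl → E}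

/-- The symplectic form as a continuous bilinear map. -/
def om_Act : E →L[ℝ] E →L[ℝ] ℝ :=
  (LinearMap.mk₂ ℝ om (fun a b c => by simp only [om, ar, Prod.fst_add, Prod.snd_add]; ring)
    (fun r a b => by simp only [om, ar, Prod.smul_fst, Prod.smul_snd, smul_eq_mul]; ring)
    (fun a b c => by simp only [om, ar, Prod.fst_add, Prod.snd_add]; ring)
    (fun r a b => by
      simp only [om, ar, Prod.smul_fst, Prod.smul_snd, smul_eq_mul]; ring)).toContinuousBilinearMap

theorem om_eq_Act (a b : E) : om a b = om_Act a b := rfl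

theorem anti_Act (a b : E) : om_Act a b = -om_Act b a := by
  simp only [← om_eq_Act, om, ar]
  ring

theorem lat_Act {a b : E} (ha : a ∈ Z6) (hb : b ∈ Z6) : ∃ k : ℤ, om a b = 4 * Real.pi ^ 2 * k := by
  obtain ⟨⟨⟨a1, h1⟩, ⟨a2, h2⟩⟩, ⟨⟨a3, h3⟩, ⟨a4, h4⟩⟩, ⟨a5, h5⟩, ⟨a6, h6⟩⟩ := ha
  obtain ⟨⟨⟨b1, g1⟩, ⟨b2, g2⟩⟩, ⟨⟨b3, g3⟩, ⟨b4, g4⟩⟩, ⟨b5, g5⟩, ⟨b6, g6⟩⟩ := hb
  refine ⟨a1 * b2 - a2 * b1 + (a3 * b4 - a4 * b3) + (a5 * b6 - a6 * b5), ?_⟩
  simp only [zsmul_eq_mul] at h1 h2 h3 h4 h5 h6 g1 g2 g3 g4 g5 g6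
  simp only [om, ar, ← h1, ← h2, ← h3, ← h4, ← h5, ← h6, ← g1, ← g2, ← g3, ← g4, ← g5, ← g6]
  push_cast
  ring

theorem zero_mem_Act (h : Fr Γ B) (hg : g ∈ Γ) : g 0 ∈ Z6 := by
  obtain ⟨L, l, -, -, hl, e⟩ := h.good.aff g hg
  rw [e, map_zero, zero_add]
  exact hl

theorem par_Act {f : Pl → ℝ} (hf : ContDiff ℝ ∞ f) (s : ℝ) :
    HasDerivAt (fun s => ∫ t in (0 : ℝ)..1, f (s, t)) (∫ t in (0 : ℝ)..1, ds f (s, t)) s := by
  have hc := (contDiff_ds hf).continuous
  obtain ⟨C, hC⟩ := ((isCompact_closedBall s 1).prod (isCompact_Icc (a := (0 : ℝ)) (b := 1))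
    ).exists_bound_of_continuousOn hc.continuousOn
  refine (intervalIntegral.hasDerivAt_integral_of_dominated_loc_of_deriv_le (μ := volume)
    (F := fun s t => f (s, t)) (F' := fun s t => ds f (s, t)) (bound := fun _ => C)
    (Metric.closedBall_mem_nhds s one_pos) ?_ ?_ ?_ ?_ intervalIntegrable_const ?_).2
  · exact .of_forall fun r =>
      (hf.continuous.comp (Continuous.prodMk_right r)).aestronglyMeasurable
  · exact (hf.continuous.comp (Continuous.prodMk_right s)).intervalIntegrable _ _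
  · exact (hc.comp (Continuous.prodMk_right s)).aestronglyMeasurable
  · refine .of_forall fun t ht r hr => hC (r, t) ⟨hr, ?_⟩
    rw [uIoc_of_le zero_le_one] at ht
    exact Ioc_subset_Icc_self ht
  · exact .of_forall fun t _ r _ => hasDerivAt_ds (hf.differentiable (by simp) _)

theorem dom_Act {Φ : ℝ × E → ℝ} (hΦ : Continuous Φ) (hx : Continuous x) {w : ℕ → ℝ → E}
    (hw : ∀ n, Continuous (w n)) (e : TendstoUniformlyOn w x atTop (Icc 0 1)) :
    Tendsto (fun n => ∫ t in (0 : ℝ)..1, Φ (t, w n t)) atTop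
      (𝓝 (∫ t in (0 : ℝ)..1, Φ (t, x t))) := by
  obtain ⟨R, hR⟩ := (isCompact_Icc (a := (0 : ℝ)) (b := 1)).exists_bound_of_continuousOn
    hx.continuousOn
  obtain ⟨C, hC⟩ := ((isCompact_Icc (a := (0 : ℝ)) (b := 1)).prod
    (isCompact_closedBall (0 : E) (R + 1))).exists_bound_of_continuousOn hΦ.continuousOn
  refine intervalIntegral.tendsto_integral_filter_of_dominated_convergence (fun _ => C) ?_ ?_
    intervalIntegrable_const ?_
  · exact .of_forall fun n => (hΦ.comp (continuous_id.prodMk (hw n))).aestronglyMeasurable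
  · filter_upwards [Metric.tendstoUniformlyOn_iff.1 e 1 one_pos] with n hn
    refine .of_forall fun t ht => ?_
    rw [uIoc_of_le zero_le_one] at ht
    have ht' := Ioc_subset_Icc_self ht
    refine hC (t, w n t) ⟨ht', mem_closedBall_zero_iff.2 ?_⟩
    have h1 := hn t ht'
    rw [dist_eq_norm] at h1
    have h2 := norm_sub_norm_le (w n t) (x t)
    rw [norm_sub_rev] at h2
    linarith [hR t ht']
  · refine .of_forall fun t ht => ?_
    rw [uIoc_of_le zero_le_one] at ht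
    exact (hΦ.tendsto _).comp
      (tendsto_const_nhds.prodMk_nhds (e.tendsto_at (Ioc_subset_Icc_self ht)))

theorem fin_Act (c a b : ℝ) :
    {e ∈ Icc a b | ∃ k : ℤ, e = c + 2 * Real.pi ^ 2 * k}.Finite := by
  have hp : 0 < 2 * Real.pi ^ 2 := by positivity
  refine ((Set.finite_Icc ⌈(a - c) / (2 * Real.pi ^ 2)⌉ ⌊(b - c) / (2 * Real.pi ^ 2)⌋).image
    fun k : ℤ => c + 2 * Real.pi ^ 2 * k).subset ?_
  rintro e ⟨⟨h1, h2⟩, k, rfl⟩
  refine ⟨k, ⟨Int.ceil_le.2 ?_, Int.le_floor.2 ?_⟩, rfl⟩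
  · rw [div_le_iff₀ hp]
    linarith
  · rw [le_div_iff₀ hp]
    linarith

theorem Fr.act_shift (h : Fr Γ B) (hg : g ∈ Γ) (hγ : γ ∈ Γ) : ∃ k : ℤ, ∀ K x, IH Γ K → Tw γ x →
    act (g * γ * g⁻¹) K (g ∘ x) = act γ K x + 2 * Real.pi ^ 2 * k := by
  obtain ⟨L, l, hL, -, hl, eg⟩ := h.good.aff g hg
  obtain ⟨M, b, hM, hMZ, hb, eγ⟩ := h.good.aff γ hγ
  have hn : g⁻¹ 0 ∈ Z6 := zero_mem_Act h (Γ.inv_mem hg)
  have hb' : (g * γ * g⁻¹) 0 ∈ Z6 :=
    zero_mem_Act h (Γ.mul_mem (Γ.mul_mem hg hγ) (Γ.inv_mem hg))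
  obtain ⟨m, hm⟩ : ∃ m, m = -(g⁻¹ 0) := ⟨_, rfl⟩
  have hmZ : m ∈ Z6 := hm ▸ Z6.neg_mem hn
  have hLm : L m = l := by
    have h1 : g (g⁻¹ 0) = 0 := by simp
    rw [eg] at h1
    rw [hm, map_neg]
    exact neg_eq_of_add_eq_zero_right h1
  have eb' : (g * γ * g⁻¹) 0 = L (b - M m + m) := by
    have h1 : g⁻¹ 0 = -m := by rw [hm, neg_neg]
    rw [Equiv.Perm.mul_apply, Equiv.Perm.mul_apply, h1, eγ, eg, ← hLm, ← map_add, map_neg]
    congr 1
    abel
  obtain ⟨k₁, hk₁⟩ := lat_Act hb' hl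
  obtain ⟨k₂, hk₂⟩ := lat_Act (hMZ m hmZ) hb
  refine ⟨k₁ - k₂, fun K x hK hx => ?_⟩
  have hd : ∀ t, HasDerivAt x (deriv x t) t := fun t =>
    (hx.1.differentiable (by simp) t).hasDerivAt
  have hc : Continuous (deriv x) := hx.1.continuous_deriv (by simp)
  have h1 : ∀ t, deriv (g ∘ x) t = L (deriv x t) := by
    intro t
    rw [(h.hasDerivAt hg (hd t)).deriv, lin, eg, eg, map_zero]
    abel
  have h2 : ∀ t, om ((g ∘ x) t) (deriv (g ∘ x) t) =
      om_Act (x t) (deriv x t) + om_Act m (deriv x t) := by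
    intro t
    rw [h1, Function.comp_apply, eg, ← hLm, ← map_add, hL, om_eq_Act, map_add,
      ContinuousLinearMap.add_apply]
  have h3 : ∫ t in (0 : ℝ)..1, om_Act m (deriv x t) = om_Act m (x 1) - om_Act m (x 0) :=
    intervalIntegral.integral_eq_sub_of_hasDerivAt (f := fun t => om_Act m (x t))
      (fun t _ => (om_Act m).hasFDerivAt.comp_hasDerivAt t (hd t))
      (((om_Act m).continuous.comp hc).intervalIntegrable _ _)
  have h4 : x 1 = M (x 0) + b := by
    have := hx.2 0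
    rwa [zero_add, eγ] at this
  have h5 : om ((g * γ * g⁻¹) 0) ((g ∘ x) 1) =
      om_Act (b - M m + m) (x 1) + 4 * Real.pi ^ 2 * k₁ := by
    rw [← hk₁, Function.comp_apply, eg, om_eq_Act, map_add, ← om_eq_Act, ← om_eq_Act]
    congr 1
    rw [eb', hL, om_eq_Act]
  have h6 : om_Act (M m) (x 1) = om_Act m (x 0) + 4 * Real.pi ^ 2 * k₂ := by
    rw [h4, map_add, ← om_eq_Act, ← om_eq_Act, hM, hk₂, om_eq_Act]
  have h7 : γ 0 = b := by rw [eγ, map_zero, zero_add]
  have h8 : ∀ t, K t ((g ∘ x) t) = K t (x t) := fun t => hK.2 g hg t _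
  have i1 : IntervalIntegrable (fun t => om_Act (x t) (deriv x t)) volume 0 1 :=
    (om_Act.continuous₂.comp (hx.1.continuous.prodMk hc)).intervalIntegrable _ _
  have i2 : IntervalIntegrable (fun t => om_Act m (deriv x t)) volume 0 1 :=
    ((om_Act m).continuous.comp hc).intervalIntegrable _ _
  unfold act
  simp only [h2, h8]
  rw [intervalIntegral.integral_add i1 i2, h3, h5, h7]
  simp only [om_eq_Act, map_add, map_sub, ContinuousLinearMap.add_apply,
    ContinuousLinearMap.sub_apply, h6]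
  push_cast
  ring

theorem Fr.gap_smul (h : Fr Γ B) (hg : g ∈ Γ) (hγ : γ ∈ Γ) (hK : IH Γ K) (hK' : IH Γ K')
    (hx : Tw γ x) (hy : Tw γ y) : act (g * γ * g⁻¹) K (g ∘ x) - act (g * γ * g⁻¹) K' (g ∘ y) =
      act γ K x - act γ K' y := by
  obtain ⟨k, hk⟩ := h.act_shift hg hγ
  rw [hk K x hK hx, hk K' y hK' hy]
  ring

theorem Fr.gap_fin (h : Fr Γ B) (hY : EndF om Γ Y) (hY' : EndF om Γ Y') (hK : IH Γ K)
    (hK' : IH Γ K') (a b : ℝ) : {e ∈ Icc a b | ∃ γ ∈ Γ, ∃ x y, Orb γ Y x ∧ Orb γ Y' y ∧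
      e = act γ K x - act γ K' y}.Finite := by
  obtain ⟨T, hT, hT1, hT2⟩ := h.orb_fin hY
  obtain ⟨T', hT', hT1', hT2'⟩ := h.orb_fin hY'
  refine (hT.biUnion fun q _ => hT'.biUnion fun q' _ =>
    fin_Act (act q.1 K q.2 - act q'.1 K' q'.2) a b).subset ?_
  rintro e ⟨he, γ, hγ, x, y, hx, hy, rfl⟩
  obtain ⟨q, hq, g, hg, e1, rfl⟩ := hT2 γ hγ x hx
  obtain ⟨q', hq', g', hg', e2, rfl⟩ := hT2' γ hγ y hy
  obtain ⟨k, hk⟩ := h.act_shift hg (hT1 q hq).1
  obtain ⟨k', hk'⟩ := h.act_shift hg' (hT1' q' hq').1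
  have a1 := hk K q.2 hK (Orb.tw hY.1.1 (hT1 q hq).2)
  have a2 := hk' K' q'.2 hK' (Orb.tw hY'.1.1 (hT1' q' hq').2)
  rw [← e1] at a1
  rw [← e2] at a2
  refine mem_biUnion hq (mem_biUnion hq' ⟨he, k - k', ?_⟩)
  rw [a1, a2]
  push_cast
  ring

theorem Fr.hasDerivAt_act (h : Fr Γ B) (hγ : γ ∈ Γ) (hH : SP H) (hG : SP G) {β : ℝ → ℝ}
    (hβ : ContDiff ℝ ∞ β) (hu : ContDiff ℝ ∞ u) (tw : ∀ s t, u (s, t + 1) = γ (u (s, t))) (s : ℝ) :
    HasDerivAt (fun s => act γ (mix H G (β s)) fun t => u (s, t))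
      (-∫ t in (0 : ℝ)..1, (om (ds u (s, t)) (dt u (s, t) - ham (mix H G (β s)) t (u (s, t))) +
        deriv β s * (G t (u (s, t)) - H t (u (s, t))))) s := by
  obtain ⟨M, b, hM, -, -, eγ⟩ := h.good.aff γ hγ
  have hdu : ∀ p, DifferentiableAt ℝ u p := hu.differentiable (by simp)
  have hds := contDiff_ds hu
  have hdt := contDiff_dt hu
  have f1 : ContDiff ℝ ∞ fun p => om_Act (u p) (dt u p) :=
    (om_Act.contDiff.comp hu).clm_apply hdt
  have f2 : ContDiff ℝ ∞ fun p => om_Act (u p) (ds u p) :=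
    (om_Act.contDiff.comp hu).clm_apply hds
  have f3 : ContDiff ℝ ∞ fun p => om_Act (ds u p) (dt u p) :=
    (om_Act.contDiff.comp hds).clm_apply hdt
  have fH : ContDiff ℝ ∞ fun p : Pl => H p.2 (u p) := hH.1.comp (contDiff_snd.prodMk hu)
  have fG : ContDiff ℝ ∞ fun p : Pl => G p.2 (u p) := hG.1.comp (contDiff_snd.prodMk hu)
  have f4 : ContDiff ℝ ∞ fun p : Pl => mix H G (β p.1) p.2 (u p) :=
    fH.add ((hβ.comp contDiff_fst).mul (fG.sub fH))
  have hdv : ∀ r t, deriv (fun t => u (r, t)) t = dt u (r, t) := fun r t =>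
    (hasDerivAt_dt (hdu _)).deriv
  have e1 : ∀ p, ds (fun p => om_Act (u p) (dt u p)) p =
      dt (fun p => om_Act (u p) (ds u p)) p + 2 * om_Act (ds u p) (dt u p) := by
    intro p
    rw [ds_bil om_Act (hdu p) (hdt.differentiable (by simp) p),
      dt_bil om_Act (hdu p) (hds.differentiable (by simp) p), ds_dt_comm hu,
      anti_Act (dt u p) (ds u p)]
    ring
  have e2 : ∫ t in (0 : ℝ)..1, dt (fun p => om_Act (u p) (ds u p)) (s, t) =
      om_Act (u (s, 1)) (ds u (s, 1)) - om_Act (u (s, 0)) (ds u (s, 0)) :=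
    intervalIntegral.integral_eq_sub_of_hasDerivAt
      (f := fun t => om_Act (u (s, t)) (ds u (s, t)))
      (fun t _ => hasDerivAt_dt (f := fun p => om_Act (u p) (ds u p))
        (f2.differentiable (by simp) _))
      (((contDiff_dt f2).continuous.comp (Continuous.prodMk_right s)).intervalIntegrable _ _)
  have e3 : ∀ r, u (r, 1) = M (u (r, 0)) + b := fun r => by
    have := tw r 0
    rwa [zero_add, eγ] at this
  have e4 : ds u (s, 1) = M (ds u (s, 0)) := by
    have h1 := hasDerivAt_ds (hdu (s, 1))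
    have h2 := ((LinearMap.toContinuousLinearMap M).hasFDerivAt.comp_hasDerivAt s
      (hasDerivAt_ds (hdu (s, 0)))).add_const b
    simp only [e3] at h1
    exact h1.unique h2
  have e5 : om_Act (u (s, 1)) (ds u (s, 1)) =
      om_Act (u (s, 0)) (ds u (s, 0)) + om_Act b (ds u (s, 1)) := by
    rw [e3, map_add, ContinuousLinearMap.add_apply]
    congr 1
    rw [e4, ← om_eq_Act, hM, om_eq_Act]
  have hK : ∀ {K : ℝ → E → ℝ}, SP K → ∀ t, HasDerivAt (fun r => K t (u (r, t)))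
      (om_Act (ham K t (u (s, t))) (ds u (s, t))) s := by
    intro K hK t
    rw [← om_eq_Act, om_ham]
    have : DifferentiableAt ℝ (K t) (u (s, t)) :=
      (hK.1.comp (contDiff_const.prodMk contDiff_id)).differentiable (by simp) _
    exact this.hasFDerivAt.comp_hasDerivAt s (hasDerivAt_ds (hdu _))
  have e6 : ∀ t, ds (fun p : Pl => mix H G (β p.1) p.2 (u p)) (s, t) =
      -om_Act (ds u (s, t)) (ham (mix H G (β s)) t (u (s, t))) +
        deriv β s * (G t (u (s, t)) - H t (u (s, t))) := by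
    intro t
    have h1 := hasDerivAt_ds (f4.differentiable (by simp) (s, t))
    have h2 := (hK hH t).add (((hβ.differentiable (by simp) s).hasDerivAt).mul
      ((hK hG t).sub (hK hH t)))
    rw [h1.unique h2, ← anti_Act, ham_mix hH hG]
    simp only [map_add, map_smul, map_sub, ContinuousLinearMap.add_apply,
      ContinuousLinearMap.smul_apply, ContinuousLinearMap.sub_apply, smul_eq_mul, Pi.sub_apply]
    ring
  have h7 : γ 0 = b := by rw [eγ, map_zero, zero_add]
  have d3 : HasDerivAt (fun r => om_Act b (u (r, 1))) (om_Act b (ds u (s, 1))) s :=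
    (om_Act b).hasFDerivAt.comp_hasDerivAt s (hasDerivAt_ds (hdu _))
  have key := ((((par_Act f1 s).div_const 2).sub (d3.div_const 2)).add (par_Act f4 s)).neg
  have i2 : IntervalIntegrable (fun t => dt (fun p => om_Act (u p) (ds u p)) (s, t)) volume 0 1 :=
    ((contDiff_dt f2).continuous.comp (Continuous.prodMk_right s)).intervalIntegrable _ _
  have i3 : IntervalIntegrable (fun t => om_Act (ds u (s, t)) (dt u (s, t))) volume 0 1 :=
    (f3.continuous.comp (Continuous.prodMk_right s)).intervalIntegrable _ _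
  have i4 : IntervalIntegrable (fun t => ds (fun p : Pl => mix H G (β p.1) p.2 (u p)) (s, t))
      volume 0 1 :=
    ((contDiff_ds f4).continuous.comp (Continuous.prodMk_right s)).intervalIntegrable _ _
  have e7 : ∀ t, om (ds u (s, t)) (dt u (s, t) - ham (mix H G (β s)) t (u (s, t))) +
      deriv β s * (G t (u (s, t)) - H t (u (s, t))) = om_Act (ds u (s, t)) (dt u (s, t)) +
        ds (fun p : Pl => mix H G (β p.1) p.2 (u p)) (s, t) := by
    intro t
    rw [e6, om_eq_Act, map_sub]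
    ring
  simp only [e7]
  rw [intervalIntegral.integral_add i3 i4]
  simp only [e1] at key
  rw [intervalIntegral.integral_add i2 (i3.const_mul 2), e2, e5,
    intervalIntegral.integral_const_mul] at key
  unfold act
  simp only [hdv, h7, om_eq_Act]
  refine key.congr_deriv ?_
  ring

theorem Fr.act_lim (h : Fr Γ B) (hγ : γ ∈ Γ) (hK : SP K) (hx : Tw γ x) {w : ℕ → ℝ → E}
    (hw : ∀ n, Tw γ (w n)) (e : TendstoUniformlyOn w x atTop (Icc 0 1)) {A : ℝ}
    (hA : ∀ n, ∫ t in (0 : ℝ)..1, ‖deriv (w n) t‖ ≤ A) :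
    Tendsto (fun n => act γ K (w n)) atTop (𝓝 (act γ K x)) := by
  have hd : ∀ {v : ℝ → E}, ContDiff ℝ ∞ v → ∀ t, HasDerivAt v (deriv v t) t := fun hv t =>
    (hv.differentiable (by simp) t).hasDerivAt
  have hc : ∀ {v : ℝ → E}, ContDiff ℝ ∞ v → Continuous (deriv v) := fun hv =>
    hv.continuous_deriv (by simp)
  have cx := hx.1.continuous
  have cw : ∀ n, Continuous (w n) := fun n => (hw n).1.continuous
  have ii : ∀ {v v' : ℝ → E}, Continuous v → Continuous v' →
      IntervalIntegrable (fun t => om_Act (v t) (v' t)) volume 0 1 := fun hv hv' =>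
    (om_Act.continuous₂.comp (hv.prodMk hv')).intervalIntegrable _ _
  have t0 : Tendsto (fun n => w n 0) atTop (𝓝 (x 0)) := e.tendsto_at ⟨le_rfl, zero_le_one⟩
  have t1 : Tendsto (fun n => w n 1) atTop (𝓝 (x 1)) := e.tendsto_at ⟨zero_le_one, le_rfl⟩
  have l1 := dom_Act hK.1.continuous cx cw e
  have l2 := dom_Act (Φ := fun q : ℝ × E => om_Act (deriv x q.1) q.2)
    (om_Act.continuous₂.comp (((hc hx.1).comp continuous_fst).prodMk continuous_snd)) cx cw e
  have l3 : Tendsto (fun n => ∫ t in (0 : ℝ)..1, om_Act (w n t - x t) (deriv (w n) t)) atTop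
      (𝓝 0) := by
    rw [Metric.tendsto_nhds]
    intro ε hε
    have hA0 : 0 ≤ A := (intervalIntegral.integral_nonneg zero_le_one
      fun t _ => norm_nonneg _).trans (hA 0)
    have hD : 0 < ‖om_Act‖ * A + 1 := by positivity
    filter_upwards [Metric.tendstoUniformlyOn_iff.1 e (ε / (‖om_Act‖ * A + 1)) (by positivity)]
      with n hn
    rw [dist_zero_right]
    have h1 : ‖∫ t in (0 : ℝ)..1, om_Act (w n t - x t) (deriv (w n) t)‖ ≤
        ∫ t in (0 : ℝ)..1, ‖om_Act‖ * (ε / (‖om_Act‖ * A + 1)) * ‖deriv (w n) t‖ := by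
      refine intervalIntegral.norm_integral_le_of_norm_le zero_le_one (.of_forall fun t ht => ?_)
        (((hc (hw n).1).norm.const_mul _).intervalIntegrable _ _)
      refine (om_Act.le_opNorm₂ _ _).trans ?_
      have h2 := hn t (Ioc_subset_Icc_self ht)
      rw [dist_comm, dist_eq_norm] at h2
      gcongr
    rw [intervalIntegral.integral_const_mul] at h1
    refine h1.trans_lt (lt_of_le_of_lt (mul_le_mul_of_nonneg_left (hA n) (by positivity)) ?_)
    rw [mul_right_comm, ← mul_div_assoc, div_lt_iff₀ hD]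
    nlinarith
  have e1 : ∀ {v : ℝ → E}, ContDiff ℝ ∞ v → ∫ t in (0 : ℝ)..1, om_Act (x t) (deriv v t) =
      om_Act (x 1) (v 1) - om_Act (x 0) (v 0) - ∫ t in (0 : ℝ)..1, om_Act (deriv x t) (v t) := by
    intro v hv
    have h1 : ∫ t in (0 : ℝ)..1, (om_Act (deriv x t) (v t) + om_Act (x t) (deriv v t)) =
        om_Act (x 1) (v 1) - om_Act (x 0) (v 0) :=
      intervalIntegral.integral_eq_sub_of_hasDerivAt (f := fun t => om_Act (x t) (v t))
        (fun t _ => (om_Act.hasFDerivAt.comp_hasDerivAt t (hd hx.1 t)).clm_apply (hd hv t))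
        ((ii (hc hx.1) hv.continuous).add (ii cx (hc hv)))
    rw [intervalIntegral.integral_add (ii (hc hx.1) hv.continuous) (ii cx (hc hv))] at h1
    linarith
  have e2 : ∀ n, ∫ t in (0 : ℝ)..1, om_Act (w n t) (deriv (w n) t) =
      (∫ t in (0 : ℝ)..1, om_Act (w n t - x t) (deriv (w n) t)) + (om_Act (x 1) (w n 1) -
        om_Act (x 0) (w n 0) - ∫ t in (0 : ℝ)..1, om_Act (deriv x t) (w n t)) := by
    intro n
    rw [← e1 (hw n).1, ← intervalIntegral.integral_add
      (ii (v := fun t => w n t - x t) ((cw n).sub cx) (hc (hw n).1))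
      (ii cx (hc (hw n).1))]
    congr 1
    funext t
    simp
  have l4 := l3.add (((((om_Act (x 1)).continuous.tendsto _).comp t1).sub
    (((om_Act (x 0)).continuous.tendsto _).comp t0)).sub l2)
  rw [zero_add, ← e1 hx.1] at l4
  unfold act
  simp only [om_eq_Act, e2]
  exact (((l4.div_const 2).sub
    ((((om_Act (γ 0)).continuous.tendsto _).comp t1).div_const 2)).add l1).neg

end

end Pool.Agent.P.MP_de3acd_gt.FH
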