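import Pool.Agent.P.MP_de3acd_gt.FH.Defs6

/-! From equivariant kernels to matrices over the Novikov ring.
Sketch: for a kernel n with shift w put mat n c d = ∑ over the finite set {y | n (σ c) y ≠ 0 ∧ gap + w ≤ b} with π' y = d of single (Real.toNNReal (gap + w)) (n (σ c) y); its coefficient
at e ≤ b is the finsum of n (σ c) y over π' y = d, gap + w = e. ker_mul: coefficients at e ≤ b of a product only depend on coefficients at exponents ≤ b (HahnSeries.coeff_mul,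
or write M = mat + M' with M' vanishing up to b), so one may assume that M, N are the finite sums; single_mul_single, Finset.sum_comm, Finset.sum_fiberwise, reindex with eqv.
alg1: A = η₀ • mat φ, B = mat ψ, K = η₁ • mat k, K' = -η₂ • mat k. -/

open Set Filter Topology MeasureTheory
open scoped ContDiff NNReal ENNReal RealInnerProductSpace

namespace Pool.Agent.P.MP_de3acd_gt.FH

noncomputable section

variable {𝔽 : Type} [Field 𝔽] {X Y Z C D C' : Type} {π : X → C} {σ : C → X} {π' : Y → D} {σ' : D → Y}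
  {π'' : Z → C'} {a : X → ℝ} {a' : Y → ℝ} {a'' : Z → ℝ}

theorem fs_eq_Alg1 {α : Type} (S : Set α) (T : Finset α) (f : α → 𝔽) (h1 : ∀ z ∈ T, z ∈ S)
    (h2 : ∀ z ∈ S, f z ≠ 0 → z ∈ T) : ∑ᶠ z ∈ S, f z = ∑ z ∈ T, f z :=
  finsum_mem_eq_sum_of_inter_support_eq f
    (Set.ext fun z => ⟨fun h => ⟨h2 z h.1 h.2, h.2⟩, fun h => ⟨h1 z h.1, h.2⟩⟩)

theorem coeff_zero_Alg1 {A B : HahnSeries ℝ≥0 𝔽} {e : ℝ≥0} (h : ∀ i ≤ e, A.coeff i = 0) :
    (A * B).coeff e = 0 := by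
  by_contra hne
  obtain ⟨i, hi, j, -, hij⟩ := HahnSeries.support_mul_subset hne
  exact hi (h i (le_of_le_of_eq le_self_add hij))

theorem coeff_congr_Alg1 {A A' B : HahnSeries ℝ≥0 𝔽} {e : ℝ≥0}
    (h : ∀ i ≤ e, A.coeff i = A'.coeff i) : (A * B).coeff e = (A' * B).coeff e := by
  rw [← sub_eq_zero, ← HahnSeries.coeff_sub, ← sub_mul]
  exact coeff_zero_Alg1 fun i hi => by rw [HahnSeries.coeff_sub, h i hi, sub_self]

theorem shift_Alg1 {n : X → Y → ℤ} {w b : ℝ} (h : Ker π σ π' a a' n w b) (x : X) (d : D) (e : ℝ) :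
    ∑ᶠ y ∈ {y | π' y = d ∧ a (σ (π x)) - a' y + w = e}, (n (σ (π x)) y : 𝔽) =
      ∑ᶠ y ∈ {y | π' y = d ∧ a x - a' y + w = e}, (n x y : 𝔽) := by
  obtain ⟨f, hf⟩ := h.eqv x
  rw [finsum_mem_def, finsum_mem_def, ← finsum_comp_equiv f]
  symm
  rw [← finsum_comp_equiv f]
  symm
  rw [finsum_comp_equiv f]
  refine finsum_congr fun y => ?_
  obtain ⟨h1, h2, h3⟩ := hf y
  by_cases h0 : n (σ (π x)) y = 0
  · rw [indicator_apply_eq_zero.2 fun _ => by simp [h0],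
      indicator_apply_eq_zero.2 fun _ => by simp [h2, h0]]
  · by_cases hy : y ∈ {y | π' y = d ∧ a (σ (π x)) - a' y + w = e}
    · rw [indicator_of_mem hy, indicator_of_mem, h2]
      exact ⟨h1.trans hy.1, by rw [h3 h0]; exact hy.2⟩
    · rw [indicator_of_notMem hy, indicator_of_notMem]
      exact fun hy' => hy ⟨h1.symm.trans hy'.1, by rw [← h3 h0]; exact hy'.2⟩

theorem Ker.exists_mat {n : X → Y → ℤ} {w : ℝ} {b : ℝ≥0} (h : Ker π σ π' a a' n w b) :
    ∃ M : Matrix C D (HahnSeries ℝ≥0 𝔽), ∀ c d, ∀ e ≤ b,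
      (M c d).coeff e = ∑ᶠ y ∈ {y | π' y = d ∧ a (σ c) - a' y + w = e}, (n (σ c) y : 𝔽) := by
  classical
  refine ⟨fun c d => ⟨fun e => if e ≤ b then
    ∑ᶠ y ∈ {y | π' y = d ∧ a (σ c) - a' y + w = e}, (n (σ c) y : 𝔽) else 0, ?_⟩,
    fun c d e he => if_pos he⟩
  refine Set.Finite.isPWO (((h.fin (σ c)).image
    fun y => Real.toNNReal (a (σ c) - a' y + w)).subset fun e he => ?_)
  by_contra hn
  refine he ?_
  dsimp only
  split_ifs with hb
  · refine finsum_mem_eq_zero_of_forall_eq_zero fun y hy => ?_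
    by_contra h0
    refine hn ⟨y, ⟨fun e0 => h0 (by simp [e0]), ?_⟩, ?_⟩
    · rw [hy.2]
      exact_mod_cast hb
    · simp [hy.2]
  · rfl

theorem Ker.finite_mul {n : X → Y → ℤ} {n' : Y → Z → ℤ} {w w' b : ℝ} (h : Ker π σ π' a a' n w b)
    (h' : Ker π' σ' π'' a' a'' n' w' b) {x : X} {z : Z} (e : a x - a'' z + w + w' ≤ b) :
    (Function.support fun y => n x y * n' y z).Finite := by
  refine (h.fin x).subset fun y hy => ⟨left_ne_zero_of_mul hy, ?_⟩
  have := h'.low y z (right_ne_zero_of_mul hy)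
  linarith

theorem Ker.coeff_mul [Fintype D] {n : X → Y → ℤ} {n' : Y → Z → ℤ} {w w' : ℝ} {b : ℝ≥0}
    (h : Ker π σ π' a a' n w b) (h' : Ker π' σ' π'' a' a'' n' w' b)
    {M : Matrix C D (HahnSeries ℝ≥0 𝔽)} {N : Matrix D C' (HahnSeries ℝ≥0 𝔽)}
    (hM : ∀ c d, ∀ e ≤ b,
      (M c d).coeff e = ∑ᶠ y ∈ {y | π' y = d ∧ a (σ c) - a' y + w = e}, (n (σ c) y : 𝔽))
    (hN : ∀ d c, ∀ e ≤ b,
      (N d c).coeff e = ∑ᶠ z ∈ {z | π'' z = c ∧ a' (σ' d) - a'' z + w' = e}, (n' (σ' d) z : 𝔽))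
    (c : C) (c' : C') {e : ℝ≥0} (he : e ≤ b) :
    {z | a (σ c) - a'' z + w + w' = e ∧ ∃ y, n (σ c) y * n' y z ≠ 0}.Finite ∧ ((M * N) c c').coeff e =
      ∑ᶠ z ∈ {z | π'' z = c' ∧ a (σ c) - a'' z + w + w' = e},
        ((∑ᶠ y, n (σ c) y * n' y z : ℤ) : 𝔽) := by
  classical
  have heb : (e : ℝ) ≤ b := by exact_mod_cast he
  set x := σ c with hx
  have hfin : {z | a x - a'' z + w + w' = e ∧ ∃ y, n x y * n' y z ≠ 0}.Finite := by
    refine ((h.fin x).biUnion fun y _ => h'.fin y).subset ?_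
    rintro z ⟨hz, y, hy⟩
    have l1 := h.low x y (left_ne_zero_of_mul hy)
    have l2 := h'.low y z (right_ne_zero_of_mul hy)
    exact mem_biUnion (x := y) ⟨left_ne_zero_of_mul hy, by linarith⟩
      ⟨right_ne_zero_of_mul hy, by linarith⟩
  refine ⟨hfin, ?_⟩
  set F := (h.fin x).toFinset with hF
  have memF : ∀ y, y ∈ F ↔ n x y ≠ 0 ∧ a x - a' y + w ≤ b := fun y => by simp [hF]
  let g : Y → ℝ≥0 := fun y => Real.toNNReal (a x - a' y + w)
  have hg : ∀ y ∈ F, (g y : ℝ) = a x - a' y + w := fun y hy =>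
    Real.coe_toNNReal _ (h.low x y ((memF y).1 hy).1)
  have h1 : ∀ d, (M c d * N d c').coeff e =
      ∑ y ∈ F with π' y = d, (HahnSeries.single (g y) (n x y : 𝔽) * N (π' y) c').coeff e := by
    intro d
    rw [coeff_congr_Alg1 (A' := ∑ y ∈ F with π' y = d, HahnSeries.single (g y) (n x y : 𝔽)),
      Finset.sum_mul, HahnSeries.coeff_sum]
    · exact Finset.sum_congr rfl fun y hy => by rw [(Finset.mem_filter.1 hy).2]
    intro i hi
    have hib : (i : ℝ) ≤ b := by exact_mod_cast hi.trans he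
    rw [hM c d i (hi.trans he), HahnSeries.coeff_sum,
      fs_eq_Alg1 _ ((F.filter fun y => π' y = d).filter fun y => i = g y), Finset.sum_filter]
    · exact Finset.sum_congr rfl fun y _ => by
        rw [HahnSeries.coeff_single]
        split_ifs <;> rfl
    · intro y hy
      simp only [Finset.mem_filter] at hy
      exact ⟨hy.1.2, by rw [hy.2, hg y hy.1.1]⟩
    · intro y hy h0
      have hyF : y ∈ F := (memF y).2
        ⟨fun e0 => h0 (by rw [show n (σ c) y = 0 from e0, Int.cast_zero]), hy.2.le.trans hib⟩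
      simp only [Finset.mem_filter]
      exact ⟨⟨hyF, hy.1⟩, NNReal.eq (by rw [hg y hyF]; exact hy.2.symm)⟩
  set T := hfin.toFinset.filter fun z => π'' z = c' with hT
  have memT : ∀ z, z ∈ T ↔ (a x - a'' z + w + w' = e ∧ ∃ y, n x y * n' y z ≠ 0) ∧ π'' z = c' :=
    fun z => by simp only [hT, Finset.mem_filter, Set.Finite.mem_toFinset, mem_ofPred_eq]
  have h2 : ∀ y ∈ F, (HahnSeries.single (g y) (n x y : 𝔽) * N (π' y) c').coeff e =
      ∑ z ∈ T, ((n x y * n' y z : ℤ) : 𝔽) := by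
    intro y hy
    have n0 := ((memF y).1 hy).1
    by_cases hle : g y ≤ e
    · obtain ⟨i, hi⟩ := exists_add_of_le hle
      have hi' : (e : ℝ) = a x - a' y + w + i := by rw [← hg y hy, hi]; simp
      have hib : i ≤ b := le_trans (by rw [hi]; exact le_add_self) he
      conv_lhs => rw [hi, add_comm]
      rw [HahnSeries.coeff_single_mul_add, hN _ _ i hib, shift_Alg1 h' y, fs_eq_Alg1 _ T,
        Finset.mul_sum]
      · simp
      · intro z hz
        have := (memT z).1 hz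
        exact ⟨this.2, by linarith [this.1.1]⟩
      · intro z hz h0
        exact (memT z).2 ⟨⟨by linarith [hz.2], y,
          mul_ne_zero n0 fun e0 => h0 (by simp [e0])⟩, hz.1⟩
    · rw [coeff_zero_Alg1 fun i hi =>
        HahnSeries.coeff_single_of_ne fun e0 : i = g y => hle (e0 ▸ hi)]
      refine (Finset.sum_eq_zero fun z hz => ?_).symm
      have h3 : n' y z = 0 := by
        by_contra h0
        have l2 := h'.low y z h0
        refine hle (NNReal.coe_le_coe.1 ?_)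
        rw [hg y hy]
        linarith [((memT z).1 hz).1.1]
      simp [h3]
  rw [Matrix.mul_apply, HahnSeries.coeff_sum]
  refine (Finset.sum_congr rfl fun d _ => h1 d).trans ((Finset.sum_fiberwise F π' _).trans
    ((Finset.sum_congr rfl h2).trans ?_))
  rw [Finset.sum_comm, fs_eq_Alg1 _ T]
  · refine Finset.sum_congr rfl fun z hz => ?_
    rw [finsum_eq_sum_of_support_subset (s := F), Int.cast_sum]
    intro y hy
    have l2 := h'.low y z (right_ne_zero_of_mul hy)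
    exact (memF y).2 ⟨left_ne_zero_of_mul hy, by linarith [((memT z).1 hz).1.1]⟩
  · intro z hz
    exact ⟨((memT z).1 hz).2, ((memT z).1 hz).1.1⟩
  · intro z hz h0
    refine (memT z).2 ⟨⟨hz.2, ?_⟩, hz.1⟩
    by_contra hc
    push Not at hc
    exact h0 (by simp [hc])

open Classical in
theorem alg1 [Fintype C] [Fintype D] {φ : X → Y → ℤ} {ψ : Y → X → ℤ} {δ k : X → X → ℤ} {ε : ℝ≥0}
    (hσ : ∀ c, π (σ c) = c) (hφ : Ker π σ π' a a' φ (ε / 2) ε) (hψ : Ker π' σ' π a' a ψ (ε / 2) ε)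
    (hδ : Ker π σ π a a δ 0 ε) (hk : Ker π σ π a a k ε ε) (u : X → ℤˣ) (η₀ η₁ η₂ : ℤˣ)
    (id : ∀ x z, a x - a z ≤ 0 → η₀ * ∑ᶠ y, φ x y * ψ y z =
      (if x = z then (u x : ℤ) else 0) - η₁ * ∑ᶠ y, δ x y * k y z + η₂ * ∑ᶠ y, k x y * δ y z)
    {M : Matrix C C (HahnSeries ℝ≥0 𝔽)} (hM : ∀ c c', ∀ e ≤ ε,
      (M c c').coeff e = ∑ᶠ y ∈ {y | π y = c' ∧ a (σ c) - a y = e}, (δ (σ c) y : 𝔽)) :
    ∃ (A : Matrix C D (HahnSeries ℝ≥0 𝔽)) (B : Matrix D C (HahnSeries ℝ≥0 𝔽))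
      (K K' : Matrix C C (HahnSeries ℝ≥0 𝔽)) (u' : C → 𝔽), (∀ c, u' c ≠ 0) ∧ ∀ c c', ∀ e ≤ ε,
        ((A * B + M * K + K' * M) c c').coeff e = if c = c' ∧ e = ε then u' c else 0 := by
  obtain ⟨Φ, hΦ⟩ := hφ.exists_mat (𝔽 := 𝔽)
  obtain ⟨Ψ, hΨ⟩ := hψ.exists_mat (𝔽 := 𝔽)
  obtain ⟨L, hL⟩ := hk.exists_mat (𝔽 := 𝔽)
  have hM' : ∀ c c', ∀ e ≤ ε,
      (M c c').coeff e = ∑ᶠ y ∈ {y | π y = c' ∧ a (σ c) - a y + 0 = e}, (δ (σ c) y : 𝔽) := by
    simpa only [add_zero] using hM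
  refine ⟨HahnSeries.single (0 : ℝ≥0) ((η₀ : ℤ) : 𝔽) • Φ, Ψ,
    HahnSeries.single (0 : ℝ≥0) ((η₁ : ℤ) : 𝔽) • L, HahnSeries.single (0 : ℝ≥0) (-((η₂ : ℤ) : 𝔽)) • L,
    fun c => ((u (σ c) : ℤ) : 𝔽), fun c => ((u (σ c)).isUnit.map (Int.castRingHom 𝔽)).ne_zero,
    fun c c' e he => ?_⟩
  have heb : (e : ℝ) ≤ ε := by exact_mod_cast he
  obtain ⟨f1, e1⟩ := hφ.coeff_mul hψ hΦ hΨ c c' he
  obtain ⟨f2, e2⟩ := hδ.coeff_mul hk hM' hL c c' he
  obtain ⟨f3, e3⟩ := hk.coeff_mul hδ hL hM' c c' he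
  simp only [add_zero, add_assoc, add_halves] at f1 f2 f3 e1 e2 e3
  set x := σ c with hx
  set T := (((f1.union f2).union f3).insert x).toFinset.filter
    fun z => π z = c' ∧ a x - a z + ε = e with hT
  have sT : ∀ z ∈ T, z ∈ {z | π z = c' ∧ a x - a z + ε = e} := fun z hz =>
    (Finset.mem_filter.1 hz).2
  have ex : ∀ {W : Type} (f : W → ℤ), ((∑ᶠ y, f y : ℤ) : 𝔽) ≠ 0 → ∃ y, f y ≠ 0 := fun f h0 => by
    by_contra hc
    push Not at hc
    exact h0 (by simp [hc])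
  rw [fs_eq_Alg1 _ T _ sT fun z hz h0 => Finset.mem_filter.2 ⟨(Set.Finite.mem_toFinset _).2
    (Or.inr (Or.inl (Or.inl ⟨hz.2, ex _ h0⟩))), hz⟩] at e1
  rw [fs_eq_Alg1 _ T _ sT fun z hz h0 => Finset.mem_filter.2 ⟨(Set.Finite.mem_toFinset _).2
    (Or.inr (Or.inl (Or.inr ⟨hz.2, ex _ h0⟩))), hz⟩] at e2
  rw [fs_eq_Alg1 _ T _ sT fun z hz h0 => Finset.mem_filter.2 ⟨(Set.Finite.mem_toFinset _).2
    (Or.inr (Or.inr ⟨hz.2, ex _ h0⟩)), hz⟩] at e3
  rw [Matrix.smul_mul, Matrix.mul_smul, Matrix.smul_mul]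
  simp only [Matrix.add_apply, Matrix.smul_apply, HahnSeries.coeff_add, smul_eq_mul,
    HahnSeries.coeff_single_zero_mul]
  rw [e1, e2, e3, Finset.mul_sum, Finset.mul_sum, Finset.mul_sum, ← Finset.sum_add_distrib,
    ← Finset.sum_add_distrib, Finset.sum_congr rfl
      (g := fun z => if x = z then ((u x : ℤ) : 𝔽) else 0), Finset.sum_ite_eq]
  · refine if_congr ⟨fun h0 => ?_, fun h0 => ?_⟩ rfl rfl
    · have := sT x h0
      exact ⟨(hσ c).symm.trans this.1, NNReal.eq (by linarith [this.2])⟩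
    · exact Finset.mem_filter.2 ⟨(Set.Finite.mem_toFinset _).2 (Or.inl rfl),
        (hσ c).trans h0.1, by rw [h0.2]; ring⟩
  · intro z hz
    have h1 := congrArg (Int.cast : ℤ → 𝔽) (id x z (by linarith [(sT z hz).2]))
    push_cast at h1
    linear_combination h1

end

end Pool.Agent.P.MP_de3acd_gt.FH
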