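import Pool.Agent.P.MP_de3acd_gt.FH.FDefs

/-! The rank estimate over the Novikov ring.
Sketch: mem_ideal_iff: a nonzero f whose coefficients vanish up to ε has order e > ε and is single e 1 times the shifted series (support PWO via the order embedding
x ↦ x + e, or use HahnSeries.embDomain / define the coefficients g ↦ f.coeff (g + e)). Let r be the last spanFinrank. The image is finitely generated, so it is spanned by
r elements (Submodule.FG.exists_span_set_encard_eq_spanFinrank or generators); lift them to the rows of a matrix W (Fin r × C): M = P W + M', entries of M' in the ideal (membership in I • ⊤ for Pi types: evaluate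
at a coordinate, Submodule.smul_induction_on). N = A B + P W K + K' P W has the same coefficients up to ε. vecMul by N is injective: for x ≠ 0 take c with x c of minimal order ω and look at the
coefficient of ω + ε in (x ᵥ* N) c (coeff_mul; all other terms vanish). It factors through D ⊕ Fin r ⊕ Fin r, so card C ≤ card D + 2 r (LinearMap.finrank_le_finrank_of_injective, Module.finrank_pi,
or card_le_of_injective). The first spanFinrank is at least r (Submodule.spanFinrank_map_le_of_fg or similar). -/

open Set Filter Topology MeasureTheory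
open scoped ContDiff NNReal ENNReal RealInnerProductSpace

namespace Pool.Agent.P.MP_de3acd_gt.FH

noncomputable section

variable {𝔽 : Type} [Field 𝔽]

theorem coeff_mul_zero_Alg2 (ε : ℝ≥0) (g f : HahnSeries ℝ≥0 𝔽) (hf : ∀ e ≤ ε, f.coeff e = 0) :
    ∀ e ≤ ε, (g * f).coeff e = 0 := by
  intro e he
  rw [HahnSeries.coeff_mul]
  refine Finset.sum_eq_zero fun ij hij => ?_
  rw [Finset.mem_antidiagonal] at hij
  have h2 : ij.2 ≤ ε := by
    refine le_trans ?_ he
    rw [← hij.2.2]
    exact le_add_self
  rw [hf _ h2, mul_zero]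

theorem mem_ideal_iff (ε : ℝ≥0) (f : HahnSeries ℝ≥0 𝔽) :
    f ∈ Ideal.span ((fun e => HahnSeries.single e (1 : 𝔽)) '' Ioi ε) ↔ ∀ e ≤ ε, f.coeff e = 0 := by
  constructor
  · intro hf
    induction hf using Submodule.span_induction with
    | mem x hx =>
      obtain ⟨a, ha, rfl⟩ := hx
      intro e he
      have hne : e ≠ a := ne_of_lt (lt_of_le_of_lt he ha)
      simp [hne]
    | zero => intro e _; simp
    | add x y _ _ hx hy => intro e he; simp [hx e he, hy e he]
    | smul a x _ hx => exact coeff_mul_zero_Alg2 ε a x hx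
  · intro hf
    by_cases h0 : f = 0
    · rw [h0]; exact Ideal.zero_mem _
    have hord : ε < f.order := by
      by_contra hcon
      exact h0 (HahnSeries.coeff_order_eq_zero.1 (hf _ (not_lt.1 hcon)))
    let g : HahnSeries ℝ≥0 𝔽 :=
      { coeff := fun a => f.coeff (a + f.order)
        isPWO_support' := by
          refine Set.partiallyWellOrderedOn_iff_exists_lt.2 fun s hs => ?_
          obtain ⟨m, n, hmn, hle⟩ := f.isPWO_support.exists_lt (f := fun n => s n + f.order) hs
          exact ⟨m, n, hmn, le_of_add_le_add_right hle⟩ }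
    have hg : f = g * HahnSeries.single f.order (1 : 𝔽) := by
      ext a
      by_cases ha : f.order ≤ a
      · obtain ⟨b, hb⟩ := exists_add_of_le ha
        have hb' : a = b + f.order := by rw [hb, add_comm]
        have h1 := HahnSeries.coeff_mul_single_add (x := g) (r := (1 : 𝔽)) (a := b) (b := f.order)
        rw [← hb'] at h1
        rw [h1, mul_one, hb']
      · rw [HahnSeries.coeff_eq_zero_of_lt_order (not_le.1 ha), HahnSeries.coeff_mul]
        symm
        refine Finset.sum_eq_zero fun ij hij => ?_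
        rw [Finset.mem_antidiagonal] at hij
        have h2 : ij.2 ≠ f.order := by
          intro h
          apply ha
          rw [← hij.2.2, h]
          exact le_add_self
        simp [h2]
    rw [hg]
    exact Ideal.mul_mem_left _ _ (Ideal.subset_span ⟨f.order, hord, rfl⟩)

theorem coeff_mul_low_Alg2 (w ε : ℝ≥0) (g f : HahnSeries ℝ≥0 𝔽) (hg : ∀ a < w, g.coeff a = 0)
    (hf : ∀ e < ε, f.coeff e = 0) : (g * f).coeff (w + ε) = g.coeff w * f.coeff ε := by
  rw [HahnSeries.coeff_mul, Finset.sum_eq_single (w, ε)]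
  · intro ij hij hne
    rw [Finset.mem_antidiagonal] at hij
    by_cases h1 : ij.1 < w
    · rw [hg _ h1, zero_mul]
    by_cases h2 : ij.2 < ε
    · rw [hf _ h2, mul_zero]
    exfalso
    apply hne
    have h1' := not_lt.1 h1
    have h2' := not_lt.1 h2
    have h3 := hij.2.2
    have e1 : ij.1 = w := by
      refine le_antisymm ?_ h1'
      have : ij.1 + ε ≤ w + ε := by rw [← h3]; gcongr
      exact le_of_add_le_add_right this
    have e2 : ij.2 = ε := by
      rw [e1] at h3
      exact add_left_cancel h3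
    exact Prod.ext e1 e2
  · intro hn
    rw [Finset.mem_antidiagonal] at hn
    by_contra hcon
    apply hn
    exact ⟨left_ne_zero_of_mul hcon, right_ne_zero_of_mul hcon, rfl⟩

theorem vecMul_inj_Alg2 {C : Type} [Fintype C] [DecidableEq C] (ε : ℝ≥0)
    (N : Matrix C C (HahnSeries ℝ≥0 𝔽)) (u : C → 𝔽) (hu : ∀ c, u c ≠ 0)
    (h : ∀ c c', ∀ e ≤ ε, (N c c').coeff e = if c = c' ∧ e = ε then u c else 0)
    (x : C → HahnSeries ℝ≥0 𝔽) (hx : Matrix.vecMul x N = 0) : x = 0 := by
  classical
  by_contra hne
  have hs : (Finset.univ.filter fun c => x c ≠ 0).Nonempty := by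
    obtain ⟨c, hc⟩ := Function.ne_iff.1 hne
    exact ⟨c, by simpa using hc⟩
  obtain ⟨c, hc, hmin⟩ := Finset.exists_min_image _ (fun c => (x c).order) hs
  have hc0 : x c ≠ 0 := by simpa using hc
  have hlow : ∀ c', ∀ a < (x c).order, (x c').coeff a = 0 := by
    intro c' a ha
    by_cases h0 : x c' = 0
    · simp [h0]
    · exact HahnSeries.coeff_eq_zero_of_lt_order (lt_of_lt_of_le ha (hmin c' (by simpa using h0)))
  have hN : ∀ c', ∀ e < ε, (N c' c).coeff e = 0 := by
    intro c' e he
    rw [h c' c e he.le, if_neg (fun hh => he.ne hh.2)]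
  have key : (Matrix.vecMul x N c).coeff ((x c).order + ε) = (x c).coeff (x c).order * u c := by
    simp only [Matrix.vecMul, dotProduct]
    rw [HahnSeries.coeff_sum, Finset.sum_eq_single c]
    · rw [coeff_mul_low_Alg2 _ _ _ _ (hlow c) (hN c), h c c ε le_rfl, if_pos ⟨rfl, rfl⟩]
    · intro c' _ hc'
      rw [coeff_mul_low_Alg2 _ _ _ _ (hlow c') (hN c'), h c' c ε le_rfl,
        if_neg (fun hh => hc' hh.1), mul_zero]
    · intro hn; exact absurd (Finset.mem_univ c) hn
  rw [hx] at key
  have h1 : (x c).coeff (x c).order ≠ 0 := fun hh => hc0 (HahnSeries.coeff_order_eq_zero.1 hh)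
  exact mul_ne_zero h1 (hu c) (by simpa using key.symm)

theorem factor_Alg2 {R : Type} [CommRing R] {C : Type} [Fintype C] (I : Ideal R)
    (M : Matrix C C R) :
    ∃ (s : Type) (_ : Fintype s) (P : Matrix C s R) (W : Matrix s C R),
      Fintype.card s = ((Submodule.span R (range (M : C → C → R))).map (Submodule.mkQ
        (I • (⊤ : Submodule R (C → R))))).spanFinrank ∧ ∀ c c', (M - P * W) c c' ∈ I := by
  classical
  have hfg : ((Submodule.span R (range (M : C → C → R))).map (Submodule.mkQ
        (I • (⊤ : Submodule R (C → R))))).FG :=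
    (Submodule.fg_span (finite_range _)).map _
  obtain ⟨s, hs, hspan⟩ := hfg.exists_span_finset_card_eq_spanFinrank
  have hW : ∀ y : s, ∃ w : C → R, Submodule.mkQ (I • (⊤ : Submodule R (C → R))) w = y :=
    fun y => Submodule.mkQ_surjective _ _
  choose W hW using hW
  have hP : ∀ c, ∃ p : s → R, ∑ y : s, p y • (y : (C → R) ⧸ (I • (⊤ : Submodule R (C → R)))) =
      Submodule.mkQ (I • (⊤ : Submodule R (C → R))) (M c) := by
    intro c
    have hmem : Submodule.mkQ (I • (⊤ : Submodule R (C → R))) (M c) ∈ Submodule.span R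
        (s : Set ((C → R) ⧸ (I • (⊤ : Submodule R (C → R))))) := by
      rw [hspan]
      exact Submodule.mem_map_of_mem (Submodule.subset_span ⟨c, rfl⟩)
    exact (Submodule.mem_span_finset' ).1 hmem
  choose P hP using hP
  refine ⟨s, inferInstance, Matrix.of P, Matrix.of W, by simpa using hs, fun c c' => ?_⟩
  have hmem : (M - Matrix.of P * Matrix.of W) c ∈ I • (⊤ : Submodule R (C → R)) := by
    have h1 : (M - Matrix.of P * Matrix.of W) c = M c - ∑ y : s, P c y • W y := by
      ext c''
      simp [Matrix.mul_apply, Finset.sum_apply]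
    rw [h1, ← Submodule.Quotient.mk_eq_zero, ← Submodule.mkQ_apply, map_sub, map_sum, ← hP c]
    simp only [map_smul, hW, sub_self]
  generalize (M - Matrix.of P * Matrix.of W) c = v at hmem ⊢
  refine Submodule.smul_induction_on hmem (fun r hr n _ => ?_) (fun a b ha hb => ?_)
  · exact I.mul_mem_right _ hr
  · exact I.add_mem ha hb

theorem alg2 {C D : Type} [Fintype C] [Fintype D] [DecidableEq C] (ε : ℝ≥0)
    (M : Matrix C C (HahnSeries ℝ≥0 𝔽)) (A : Matrix C D (HahnSeries ℝ≥0 𝔽))
    (B : Matrix D C (HahnSeries ℝ≥0 𝔽)) (K K' : Matrix C C (HahnSeries ℝ≥0 𝔽)) (u : C → 𝔽)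
    (hu : ∀ c, u c ≠ 0) (h : ∀ c c', ∀ e ≤ ε,
      ((A * B + M * K + K' * M) c c').coeff e = if c = c' ∧ e = ε then u c else 0) :
    Fintype.card C - (Submodule.span (HahnSeries ℝ≥0 𝔽)
      (range (M : C → C → HahnSeries ℝ≥0 𝔽))).spanFinrank -
      ((Submodule.span (HahnSeries ℝ≥0 𝔽) (range (M : C → C → HahnSeries ℝ≥0 𝔽))).map (Submodule.mkQ
        (Ideal.span ((fun e => HahnSeries.single e (1 : 𝔽)) '' Ioi ε) • ⊤))).spanFinrank ≤
      Fintype.card D := by
  classical
  obtain ⟨s, _, P, W, hs, hPW⟩ := factor_Alg2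
    (Ideal.span ((fun e => HahnSeries.single e (1 : 𝔽)) '' Ioi ε)) M
  have hle := Submodule.spanFinrank_map_le_of_fg (Submodule.mkQ
        (Ideal.span ((fun e => HahnSeries.single e (1 : 𝔽)) '' Ioi ε) •
          (⊤ : Submodule (HahnSeries ℝ≥0 𝔽) (C → HahnSeries ℝ≥0 𝔽))))
    (p := Submodule.span (HahnSeries ℝ≥0 𝔽) (range (M : C → C → HahnSeries ℝ≥0 𝔽)))
    (Submodule.fg_span (finite_range _))
  have hN : ∀ c c', ∀ e ≤ ε, ((A * B + P * W * K + K' * (P * W)) c c').coeff e =
      if c = c' ∧ e = ε then u c else 0 := by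
    intro c c' e he
    rw [← h c c' e he]
    have h1 : A * B + M * K + K' * M =
        (A * B + P * W * K + K' * (P * W)) + ((M - P * W) * K + K' * (M - P * W)) := by
      rw [Matrix.sub_mul, Matrix.mul_sub]; abel
    have h2 : ((M - P * W) * K + K' * (M - P * W)) c c' ∈
        Ideal.span ((fun e => HahnSeries.single e (1 : 𝔽)) '' Ioi ε) := by
      rw [Matrix.add_apply, Matrix.mul_apply, Matrix.mul_apply]
      exact Ideal.add_mem _ (Ideal.sum_mem _ fun j _ => Ideal.mul_mem_right _ _ (hPW c j))
        (Ideal.sum_mem _ fun j _ => Ideal.mul_mem_left _ _ (hPW j c'))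
    rw [h1, Matrix.add_apply (A * B + P * W * K + K' * (P * W)), HahnSeries.coeff_add,
      (mem_ideal_iff ε _).1 h2 e he, add_zero]
  let L : (C → HahnSeries ℝ≥0 𝔽) →ₗ[HahnSeries ℝ≥0 𝔽]
      (D → HahnSeries ℝ≥0 𝔽) × (s → HahnSeries ℝ≥0 𝔽) × (s → HahnSeries ℝ≥0 𝔽) :=
    (Matrix.vecMulLinear A).prod ((Matrix.vecMulLinear P).prod (Matrix.vecMulLinear (K' * P)))
  have hL : Function.Injective L := by
    refine (injective_iff_map_eq_zero L).2 fun x hx => ?_
    have h1 : Matrix.vecMul x A = 0 := congrArg Prod.fst hx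
    have h2 : Matrix.vecMul x P = 0 := congrArg (fun z => z.2.1) hx
    have h3 : Matrix.vecMul x (K' * P) = 0 := congrArg (fun z => z.2.2) hx
    refine vecMul_inj_Alg2 ε _ u hu hN x ?_
    rw [Matrix.vecMul_add, Matrix.vecMul_add, ← Matrix.mul_assoc K' P W, Matrix.mul_assoc P W K,
      ← Matrix.vecMul_vecMul, ← Matrix.vecMul_vecMul x P, ← Matrix.vecMul_vecMul x (K' * P),
      h1, h2, h3]
    simp
  have hcard := LinearMap.finrank_le_finrank_of_injective hL
  simp only [Module.finrank_prod, Module.finrank_fintype_fun_eq_card] at hcard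
  omega

end

end Pool.Agent.P.MP_de3acd_gt.FH
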