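import Pool.Agent.P.MP_de3acd_gt.FH.Defs3

/-! Hypothesis packages for gluing, counting and transversality. -/

open Set Filter Topology MeasureTheory
open scoped ContDiff NNReal ENNReal RealInnerProductSpace

namespace Pool.Agent.P.MP_de3acd_gt.FH

noncomputable section

section

variable {F : Type} [NormedAddCommGroup F] [NormedSpace ℝ F]

/-- The field of the piece `j` when the piece `i` carries the field `X`. -/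
def pc {k : ℕ} (Y Y' : ℝ → F → F) (X : Pl → F → F) (i j : Fin k) : Pl → F → F :=
  if j < i then sta Y else if j = i then X else sta Y'

/-- The glued field. -/
def nk (X₁ X₂ : Pl → F → F) (Y : ℝ → F → F) (ϱ₁ ϱ₂ : ℝ) : Pl → F → F :=
  tsl (ϱ₁, 0) X₁ + tsl (-ϱ₂, 0) X₂ - sta Y

/-- Translation of a framed operator. -/
def trOp {a b : ℕ} (s : ℝ) (T : Op F a b) : Op F a b :=
  ⟨T.γ, T.x, T.y, tsl (s, 0) T.j, tsl (s, 0) T.S, fun i => tsl (s, 0) (T.K i),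
    fun i => tsl (s, 0) (T.l i), T.M⟩

/-- The variation in the homotopy parameter. -/
def kr (J : ℝ → F → F →L[ℝ] F) (X : ℝ → Pl → F → F) (r : ℝ) (u : Pl → F) : Pl → F :=
  var J (dX X r 1) u

/-- An end of the set `Z`: approximate points `w ϱ` and slices `f ϱ = c ϱ`. -/
structure EndH (Z : Set F) (w : ℝ → F) (f : ℝ → F →L[ℝ] ℝ) (c : ℝ → ℝ) : Prop where
  cont : Continuous fun q : ℝ × F => f q.1 q.2 - c q.1
  unif : ∀ ε > 0, ∃ δ > 0, ∀ ϱ ϱ', |ϱ - ϱ'| ≤ δ → dist (w ϱ) (w ϱ') ≤ ε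
  sep : ∀ δ > 0, ∃ ε > 0, ∀ ϱ ϱ', dist (w ϱ) (w ϱ') ≤ ε → |ϱ - ϱ'| ≤ δ
  uniq : ∃ ε > 0, ∀ᶠ ϱ in atTop, ∀ z ∈ Z, ∀ z' ∈ Z, dist z (w ϱ) ≤ ε → dist z' (w ϱ) ≤ ε →
    f ϱ z = f ϱ z' → z = z'
  ex : ∀ ε > 0, ∀ᶠ ϱ in atTop, ∃ z ∈ Z, dist z (w ϱ) ≤ ε ∧ f ϱ z = c ϱ
  small : ∀ ε > 0, ∃ δ > 0, ∀ᶠ ϱ in atTop, ∀ z, dist z (w ϱ) ≤ δ → |f ϱ z - c ϱ| ≤ ε
  mono : ∃ δ > 0, ∃ κ > 0, ∀ᶠ ϱ in atTop, ∀ z, dist z (w ϱ) ≤ δ → ∀ ϱ₁ ϱ₂, ϱ - δ ≤ ϱ₁ → ϱ₁ ≤ ϱ₂ →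
    ϱ₂ ≤ ϱ + δ → f ϱ₂ z - c ϱ₂ + κ * (ϱ₂ - ϱ₁) ≤ f ϱ₁ z - c ϱ₁

/-- The part of the end beyond `ϱ₀`. -/
def EndS (Z : Set F) (w : ℝ → F) (f : ℝ → F →L[ℝ] ℝ) (c : ℝ → ℝ) (ε ϱ₀ : ℝ) : Set F :=
  {z ∈ Z | ∃ ϱ > ϱ₀, dist z (w ϱ) ≤ ε ∧ f ϱ z = c ϱ}

/-- The family `X + ∑ μ i • Z i`. -/
def pert {ι : Type} [Fintype ι] (X : ℝ → Pl → F → F) (Z : ι → ℝ → Pl → F → F)
    (a : ℝ × (ι → ℝ)) : Pl → F → F := X a.1 + ∑ i, a.2 i • Z i a.1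

end

section

variable {V : Type} [NormedAddCommGroup V] [InnerProductSpace ℝ V] [Sym V]
  {Λ : Type} [NormedAddCommGroup Λ] [NormedSpace ℝ Λ]

/-- The coordinate of a path. -/
def xi (x y : ℝ → V) (u : Pl → V) : W 2 V := toW 2 (u - ref x y)

/-- Solutions of index zero in a one-parameter family, as points of `W² × ℝ`. -/
def Z0 (J : ℝ → V → V →L[ℝ] V) (X : ℝ → Pl → V → V) (x y : ℝ → V) : Set (W 2 V × ℝ) :=
  {q | ∃ u, Nice J (X q.2) x y u ∧ q.1 = xi x y u ∧ HasIdx (Du J (X q.2) u) 0}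

/-- All orbits are nondegenerate. -/
def NdA (Y : ℝ → V → V) : Prop := ∀ x, Orb 1 Y x → GOrb Ω0 1 Y x

/-- The fields `Y a` agree with `Y₀` near the loop `x`. -/
def Agr (Y : Λ → ℝ → V → V) (Y₀ : ℝ → V → V) (x : ℝ → V) : Prop :=
  ∃ δ > 0, ∀ a t z, ‖z - x t‖ ≤ δ → Y a t z = Y₀ t z

/-- A family of fields whose ends agree with `Y`, `Y'` near the orbits `x`, `y`. -/
structure PData (J : ℝ → V → V →L[ℝ] V) (X : Λ → Pl → V → V) (R : ℝ) (Y Y' : ℝ → V → V)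
    (x y : ℝ → V) : Prop where
  acs : ACS Ω0 J
  fam : Fam X R
  spl : SP Y
  spr : SP Y'
  ox : GOrb Ω0 1 Y x
  oy : GOrb Ω0 1 Y' y
  agl : Agr (fun a => frz (X a) (-R)) Y x
  agr : Agr (fun a => frz (X a) R) Y' y

/-- A family of fields whose ends agree with `Y`, `Y'` near all orbits. -/
structure FData (J : ℝ → V → V →L[ℝ] V) (X : Λ → Pl → V → V) (R : ℝ) (Y Y' : ℝ → V → V) : Prop where
  acs : ACS Ω0 J
  fam : Fam X R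
  spl : SP Y
  spr : SP Y'
  ndl : NdA Y
  ndr : NdA Y'
  agl : ∀ x, Orb 1 Y x → Agr (fun a => frz (X a) (-R)) Y x
  agr : ∀ y, Orb 1 Y' y → Agr (fun a => frz (X a) R) Y' y

theorem FData.pData {J : ℝ → V → V →L[ℝ] V} {X : Λ → Pl → V → V} {R : ℝ} {Y Y' : ℝ → V → V}
    (h : FData J X R Y Y') {x y : ℝ → V} (hx : Orb 1 Y x) (hy : Orb 1 Y' y) : PData J X R Y Y' x y :=
  ⟨h.acs, h.fam, h.spl, h.spr, h.ndl x hx, h.ndr y hy, h.agl x hx, h.agr y hy⟩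

/-- The action decreases along nonconstant solutions. -/
def Dec (J : ℝ → V → V →L[ℝ] V) (Y : ℝ → V → V) (A : (ℝ → V) → ℝ) : Prop :=
  ∀ x y u, Orb 1 Y x → Orb 1 Y y → Nice J (sta Y) x y u → ds u ≠ 0 → A y < A x

/-- The action increases by at most `c`. -/
def Low (J : ℝ → V → V →L[ℝ] V) (X : Pl → V → V) (Y Y' : ℝ → V → V) (A A' : (ℝ → V) → ℝ) (c : ℝ) :
    Prop := ∀ x y u, Orb 1 Y x → Orb 1 Y' y → Nice J X x y u → -c ≤ A x - A' y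

/-- Nonconstant solutions with action gap at most `b` have positive index. -/
def Lo (J : ℝ → V → V →L[ℝ] V) (Y : ℝ → V → V) (A : (ℝ → V) → ℝ) (b : ℝ) : Prop :=
  ∀ x y u d, Orb 1 Y x → Orb 1 Y y → Nice J (sta Y) x y u → ds u ≠ 0 → A x - A y ≤ b →
    HasIdx (Du J (sta Y) u) d → 1 ≤ d

/-- All solutions are regular. -/
def RegA (J : ℝ → V → V →L[ℝ] V) (Y : ℝ → V → V) : Prop :=
  ∀ x y u, Orb 1 Y x → Orb 1 Y y → Nice J (sta Y) x y u → Function.Surjective (Du J (sta Y) u)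

/-- The basic bound for a map. -/
def Bnd (B : ℝ) (u : Pl → V) : Prop := Cn 1 u univ B ∧ nrm 0 (ds u) univ ≤ ENNReal.ofReal B

/-- Regularity of the solutions of index at most zero. -/
def Good0 (J : ℝ → V → V →L[ℝ] V) (X : Pl → V → V) (x y : ℝ → V) : Prop :=
  ∀ u d, Nice J X x y u → HasIdx (Du J X u) d → d ≤ 0 → Function.Surjective (Du J X u)

/-- Regularity of the solutions of index at most zero in a one-parameter family. -/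
def Good1 (J : ℝ → V → V →L[ℝ] V) (X : ℝ → Pl → V → V) (x y : ℝ → V) : Prop :=
  ∀ r u d, Nice J (X r) x y u → HasIdx (Du J (X r) u) d → d ≤ 0 →
    Function.Surjective ((Du J (X r) u).coprod (kmap ![kr J X r u]))

/-- The same with additional directions `v`. -/
def GoodV {α : Type} [Fintype α] (J : ℝ → V → V →L[ℝ] V) (X : ℝ × Λ → Pl → V → V) (v : α → Λ)
    (x y : ℝ → V) (a : Λ) : Prop :=
  ∀ r u d, Nice J (X (r, a)) x y u → HasIdx (Du J (X (r, a)) u) d → d ≤ 0 →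
    Function.Surjective ((Du J (X (r, a)) u).coprod (kmap fun i : Option α =>
      var J (dX X (r, a) (i.elim (1, 0) fun i => (0, v i))) u))

/-- The family is constant in the homotopy parameter outside `[0, 1]`. -/
def Clamp {α β : Type} (X : ℝ × α → β) : Prop :=
  ∀ r a, (r ≤ 0 → X (r, a) = X (0, a)) ∧ (1 ≤ r → X (r, a) = X (1, a))

/-- Sequences of irregular solutions converge up to the translations in `𝒮`. -/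
def SeqC (J : ℝ → V → V →L[ℝ] V) (X : ℝ × Λ → Pl → V → V) (𝒮 : Set ℝ) (x y : ℝ → V) : Prop :=
  ∀ (r : ℕ → ℝ) (a : ℕ → Λ) (u : ℕ → Pl → V) (d : ℕ → ℤ), Tendsto a atTop (𝓝 0) →
    (∀ n, r n ∈ Icc (0 : ℝ) 1 ∧ Nice J (X (r n, a n)) x y (u n) ∧
      HasIdx (Du J (X (r n, a n)) (u n)) (d n) ∧ d n ≤ 0 ∧
        ¬Function.Surjective ((Du J (X (r n, a n)) (u n)).coprod
          (kmap ![kr J (fun r => X (r, a n)) (r n) (u n)]))) →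
      ∃ (φ : ℕ → ℕ) (s : ℕ → ℝ) (r₀ : ℝ) (g : Pl → V), StrictMono φ ∧ (∀ n, s n ∈ 𝒮) ∧
        Tendsto (fun n => r (φ n)) atTop (𝓝 r₀) ∧ Nice J (X (r₀, 0)) x y g ∧
          WC atTop (fun n => tsl (s n, 0) (u (φ n))) fun _ => g

/-- The data of the homotopy from the constant family. -/
structure HData (J : ℝ → V → V →L[ℝ] V) (X : ℝ → Pl → V → V) (R : ℝ) (Y : ℝ → V → V)
    (A : (ℝ → V) → ℝ) (c : ℝ) : Prop where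
  acs : ACS Ω0 J
  fam : Fam X R
  left : ∀ r, frz (X r) (-R) = Y
  right : ∀ r, frz (X r) R = Y
  zero : ∀ r ≤ 0, X r = sta Y
  one : ∀ r ≥ 1, X r = X 1
  nonneg : 0 ≤ c
  nd : NdA Y
  reg : RegA J Y
  dec : Dec J Y A
  low : ∀ r, Low J (X r) Y Y A A c
  good : ∀ x y, Orb 1 Y x → Orb 1 Y y → A x - A y ≤ 0 → Good1 J X x y
  apb : ∀ x, Orb 1 Y x → ∃ B, ∀ r y u, Orb 1 Y y → Nice J (X r) x y u → A x - A y ≤ c → Bnd B u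
  cyl : ∀ r x y u, Orb 1 Y x → Orb 1 Y y → Cyl Ω0 1 J (X r) x y u → Bdd u

/-- The data of the two continuation fields. -/
structure NData (J : ℝ → V → V →L[ℝ] V) (X₁ X₂ : Pl → V → V) (R : ℝ) (Y₀ Y Y₂ : ℝ → V → V)
    (A₀ A A₂ : (ℝ → V) → ℝ) (c : ℝ) : Prop where
  acs : ACS Ω0 J
  fld₁ : Fld X₁ R
  fld₂ : Fld X₂ R
  e₀ : frz X₁ (-R) = Y₀
  e₁ : frz X₁ R = Y
  e₁' : frz X₂ (-R) = Y
  e₂ : frz X₂ R = Y₂
  nonneg : 0 ≤ c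
  nd₀ : NdA Y₀
  nd : NdA Y
  nd₂ : NdA Y₂
  dec₀ : Dec J Y₀ A₀
  dec : Dec J Y A
  dec₂ : Dec J Y₂ A₂
  low₁ : Low J X₁ Y₀ Y A₀ A c
  low₂ : Low J X₂ Y Y₂ A A₂ c
  lo₀ : Lo J Y₀ A₀ (2 * c)
  lo : Lo J Y A (2 * c)
  lo₂ : Lo J Y₂ A₂ (2 * c)
  good₁ : ∀ x y, Orb 1 Y₀ x → Orb 1 Y y → A₀ x - A y ≤ c → Good0 J X₁ x y
  good₂ : ∀ y z, Orb 1 Y y → Orb 1 Y₂ z → A y - A₂ z ≤ c → Good0 J X₂ y z
  apb₁ : ∀ x, Orb 1 Y₀ x → ∃ B, ∀ y u, Orb 1 Y y → Nice J X₁ x y u → A₀ x - A y ≤ c → Bnd B u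
  apb₂ : ∀ y, Orb 1 Y y → ∃ B, ∀ z u, Orb 1 Y₂ z → Nice J X₂ y z u → A y - A₂ z ≤ c → Bnd B u
  apb : ∀ x z, Orb 1 Y₀ x → Orb 1 Y₂ z → ∃ B, ∀ᶠ r in atTop, ∀ u,
    Nice J (nk X₁ X₂ Y r r) x z u → Bnd B u
  cyl₁ : ∀ x y u, Orb 1 Y₀ x → Orb 1 Y y → Cyl Ω0 1 J X₁ x y u → Bdd u
  cyl₂ : ∀ y z u, Orb 1 Y y → Orb 1 Y₂ z → Cyl Ω0 1 J X₂ y z u → Bdd u
  cyl : ∀ x z, Orb 1 Y₀ x → Orb 1 Y₂ z → ∀ᶠ r in atTop, ∀ u,
    Cyl Ω0 1 J (nk X₁ X₂ Y r r) x z u → Bdd u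

end

end

end Pool.Agent.P.MP_de3acd_gt.FH
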