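import Pool.Agent.P.MP_de3acd_gt.FH.Cpt
import Pool.Agent.P.MP_de3acd_gt.FH.JetN

/-! The basic L² estimate for the first order part, on the cylinder and in the plane.
Sketch: with g = Ω(·, j ·): g(a + j b, a + j b) = g(a,a) + g(b,b) - 2 Ω a b (Cpt.add_sq; for σ = -1 use a = -ds φ), and
∫ Ω (ds φ) (dt φ) = 0: it is the integral of ds [Ω φ (dt φ)] - dt [Ω φ (ds φ)] up to the factor 2 (ds_bil, dt_bil,
ds_dt_comm, Form.anti), integral_ds_eq_zero etc. Compare g with the norm by cpt_bounds. Work with real integrals of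
continuous compactly supported functions (where j is only continuous on D and tsupport φ ⊆ D, or avoid continuity:
pointwise ‖a‖^2 + ‖b‖^2 ≤ δ⁻¹ (g(a+jb) + 2 Ω a b) ≤ δ⁻¹ (δ⁻¹ ‖a + j b‖^2 + 2 Ω a b); if the right lintegral is finite
pass to integrals by ofReal_integral_eq_lintegral_ofReal; measurability from ContinuousOn). -/

open Set Filter Topology MeasureTheory
open scoped ContDiff NNReal ENNReal RealInnerProductSpace

namespace Pool.Agent.P.MP_de3acd_gt.FH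

noncomputable section

variable {F F₁ F₂ : Type} [NormedAddCommGroup F] [NormedSpace ℝ F] [NormedAddCommGroup F₁]
  [NormedSpace ℝ F₁] [NormedAddCommGroup F₂] [NormedSpace ℝ F₂]
variable {V : Type} [NormedAddCommGroup V] [InnerProductSpace ℝ V] [Sym V]

theorem form_EstL {Ω : F → F → ℝ} (h : Form Ω) {B : F →L[ℝ] F →L[ℝ] ℝ} (hB : ∀ u v, Ω u v = B u v)
    {φ : Pl → F} (hφ : ContDiff ℝ ∞ φ) {μ : Measure Pl}
    (i1 : Integrable (ds fun p => B (φ p) (dt φ p)) μ)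
    (i2 : Integrable (dt fun p => B (φ p) (ds φ p)) μ)
    (e1 : ∫ p, ds (fun p => B (φ p) (dt φ p)) p ∂μ = 0)
    (e2 : ∫ p, dt (fun p => B (φ p) (ds φ p)) p ∂μ = 0) : ∫ p, Ω (ds φ p) (dt φ p) ∂μ = 0 := by
  have e : ∀ p, Ω (ds φ p) (dt φ p) = 2⁻¹ * (ds (fun p => B (φ p) (dt φ p)) p -
      dt (fun p => B (φ p) (ds φ p)) p) := fun p => by
    rw [ds_bil B (hφ.differentiable (by simp) p) ((contDiff_dt hφ).differentiable (by simp) p),
      dt_bil B (hφ.differentiable (by simp) p) ((contDiff_ds hφ).differentiable (by simp) p),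
      ds_dt_comm hφ, ← hB (ds φ p), ← hB (dt φ p), h.anti (dt φ p)]
    ring
  simp only [e]
  rw [integral_const_mul, integral_sub i1 i2, e1, e2, sub_zero, mul_zero]

theorem integral_form_plane {Ω : F → F → ℝ} (h : Form Ω) {φ : Pl → F} (hφ : ContDiff ℝ ∞ φ)
    (hc : HasCompactSupport φ) : ∫ p, Ω (ds φ p) (dt φ p) = 0 := by
  obtain ⟨B, hB, -⟩ := id h
  have k : ∀ g : Pl → F, HasCompactSupport fun p => B (φ p) (g p) := fun g =>
    hc.mono fun p hp e => hp (by simp only [e, map_zero, zero_apply])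
  have s1 := contDiff_bil_JetC B hφ (contDiff_dt hφ)
  have s2 := contDiff_bil_JetC B hφ (contDiff_ds hφ)
  exact form_EstL h hB hφ
    ((contDiff_ds s1).continuous.integrable_of_hasCompactSupport ((k _).fderiv_apply ℝ _))
    ((contDiff_dt s2).continuous.integrable_of_hasCompactSupport ((k _).fderiv_apply ℝ _))
    (integral_ds_plane (s1.of_le (by simp)) (k _)) (integral_dt_plane (s2.of_le (by simp)) (k _))

theorem integral_form_cyl {Ω : F → F → ℝ} (h : Form Ω) {φ : Pl → F} (hφ : φ ∈ Dsub F) :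
    ∫ p in St, Ω (ds φ p) (dt φ p) = 0 := by
  obtain ⟨B, hB, -⟩ := id h
  have m1 := bil_mem hφ.1 hφ.2.1 (dt_mem hφ) B
  have m2 := bil_mem hφ.1 hφ.2.1 (ds_mem hφ) B
  obtain ⟨a1, -, R1, b1⟩ := ds_mem m1
  obtain ⟨a2, -, R2, b2⟩ := dt_mem m2
  obtain ⟨c1, -, R3, d1⟩ := m1
  obtain ⟨c2, p2, R4, d2⟩ := m2
  exact form_EstL h hB hφ.1 (integrableOn_St a1.continuous b1) (integrableOn_St a2.continuous b2)
    (integral_ds_eq_zero (c1.of_le (by simp)) d1) (integral_dt_eq_zero (c2.of_le (by simp)) p2 d2)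

theorem en_EstL {G : Type} [NormedAddCommGroup G] (x : G) : ‖x‖ₑ ^ 2 = ENNReal.ofReal (‖x‖ ^ 2) := by
  rw [← ofReal_norm, ENNReal.ofReal_pow (norm_nonneg _)]

theorem core_EstL {Ω : F → F → ℝ} (h : Form Ω) {δ : ℝ} (hδ : 0 < δ) {μ : Measure Pl}
    {a b : Pl → F} {j : Pl → F →L[ℝ] F} (ha : Continuous a) (hb : Continuous b) (hj : Continuous j)
    (hi : ∀ g : Pl → ℝ, Continuous g → (∀ p, a p = 0 → b p = 0 → g p = 0) → Integrable g μ)
    (h0 : ∫ p, Ω (a p) (b p) ∂μ = 0)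
    (hp : ∀ p, a p = 0 ∧ b p = 0 ∨ Cpt Ω (j p) ∧
      ∀ v, δ * ‖v‖ ^ 2 ≤ Ω v (j p v) ∧ Ω v (j p v) ≤ δ⁻¹ * ‖v‖ ^ 2) :
    ∫⁻ p, ‖a p‖ₑ ^ 2 + ‖b p‖ₑ ^ 2 ∂μ ≤
      (δ⁻¹ * δ⁻¹).toNNReal * ∫⁻ p, ‖a p + j p (b p)‖ₑ ^ 2 ∂μ := by
  obtain ⟨B, hB, hB0⟩ := id h
  have i1 := hi (fun p => ‖a p‖ ^ 2 + ‖b p‖ ^ 2) (by fun_prop) fun p e e' => by simp [e, e']
  have i2 := hi (fun p => ‖a p + j p (b p)‖ ^ 2) ((ha.add (hj.clm_apply hb)).norm.pow 2)
    fun p e e' => by simp [e, e']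
  have i3 := hi (fun p => Ω (a p) (b p))
    (by simpa only [hB, Function.comp] using (B.continuous.comp ha).clm_apply hb) fun p e e' => by
      simp only [e, e', hB0]
  have hi' : 0 < δ⁻¹ := inv_pos.2 hδ
  have k : ∫ p, ‖a p‖ ^ 2 + ‖b p‖ ^ 2 ∂μ ≤
      ∫ p, δ⁻¹ * δ⁻¹ * ‖a p + j p (b p)‖ ^ 2 + δ⁻¹ * 2 * Ω (a p) (b p) ∂μ := by
    refine integral_mono i1 ((i2.const_mul _).add (i3.const_mul _)) fun p => ?_
    rcases hp p with ⟨e, e'⟩ | ⟨c, e⟩
    · simp [e, e', hB0]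
    · have t1 := (e (a p)).1
      have t2 := (e (b p)).1
      have t3 := (e (a p + j p (b p))).2
      rw [Cpt.add_sq h c] at t3
      have t4 : δ * (‖a p‖ ^ 2 + ‖b p‖ ^ 2) ≤
          δ⁻¹ * ‖a p + j p (b p)‖ ^ 2 + 2 * Ω (a p) (b p) := by linarith
      have t5 := mul_le_mul_of_nonneg_left t4 hi'.le
      rw [← mul_assoc, inv_mul_cancel₀ hδ.ne', one_mul] at t5
      refine t5.trans (le_of_eq ?_)
      ring
  rw [integral_add (i2.const_mul _) (i3.const_mul _), integral_const_mul, integral_const_mul, h0,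
    mul_zero, add_zero] at k
  simp only [en_EstL, ← ENNReal.ofReal_add (sq_nonneg _) (sq_nonneg _)]
  rw [← ofReal_integral_eq_lintegral_ofReal i1 (Eventually.of_forall fun p => by positivity),
    ← ofReal_integral_eq_lintegral_ofReal i2 (Eventually.of_forall fun p => by positivity)]
  exact (ENNReal.ofReal_le_ofReal k).trans (le_of_eq (ENNReal.ofReal_mul (by positivity)))

theorem plEll_of_cpt [FiniteDimensional ℝ F] {Ω : F → F → ℝ} (h : Form Ω) (A : ℝ) : ∃ c : ℝ≥0,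
    ∀ (j : Pl → F →L[ℝ] F) (D : Set Pl), Continuous j → (∀ p ∈ D, Cpt Ω (j p) ∧ ‖j p‖ ≤ A) →
      PlEll j D c := by
  obtain ⟨δ, hδ, k⟩ := cpt_bounds h A
  refine ⟨(δ⁻¹ * δ⁻¹).toNNReal, fun j D hj hD φ hφ hc hs => ?_⟩
  have z : ∀ p, p ∉ tsupport φ → ds φ p = 0 ∧ dt φ p = 0 := fun p hp => by
    have : fderiv ℝ φ p = 0 := by
      by_contra e
      exact hp (support_fderiv_subset ℝ e)
    simp only [ds, dt, this, zero_apply, and_self]
  refine core_EstL h hδ (contDiff_ds hφ).continuous (contDiff_dt hφ).continuous hj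
    (fun g hg e => hg.integrable_of_hasCompactSupport
      (HasCompactSupport.intro hc fun p hp => e p (z p hp).1 (z p hp).2))
    (integral_form_plane h hφ hc) fun p => ?_
  by_cases hp : p ∈ tsupport φ
  · exact Or.inr ⟨(hD p (hs hp)).1, k _ (hD p (hs hp)).1 (hD p (hs hp)).2⟩
  · exact Or.inl (z p hp)

theorem est_cyl (A : ℝ) : ∃ c : ℝ≥0, ∀ (σ : ℝ) (j : Pl → V →L[ℝ] V), σ = 1 ∨ σ = -1 →
    Continuous j → ∀ φ ∈ Dsub V, (∀ p, φ =ᶠ[𝓝 p] 0 ∨ Cpt Ω0 (j p) ∧ ‖j p‖ ≤ A) →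
      nrm 0 (ds φ) univ + nrm 0 (dt φ) univ ≤
        c * nrm 0 (fun p => σ • ds φ p + j p (dt φ p)) univ := by
  obtain ⟨δ, hδ, k⟩ := cpt_bounds (form_Ω0 (V := V)) A
  refine ⟨(δ⁻¹ * δ⁻¹).toNNReal, fun σ j hσ hj φ hφ hD => ?_⟩
  obtain ⟨h1, -, R, h3⟩ := id hφ
  have c1 := (contDiff_ds h1).continuous
  have z : ∀ p, fderiv ℝ φ p = 0 → σ • ds φ p = 0 ∧ dt φ p = 0 := fun p e => by
    simp only [ds, dt, e, zero_apply, smul_zero, and_self]
  have n1 : ∀ p, ‖σ • ds φ p‖ₑ = ‖ds φ p‖ₑ := fun p => by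
    rcases hσ with rfl | rfl <;> simp
  have e0 : ∫ p in St, Ω0 (σ • ds φ p) (dt φ p) = 0 := by
    simp only [Ω0, map_smul, real_inner_smul_left]
    rw [integral_const_mul]
    exact mul_eq_zero_of_right _ (integral_form_cyl form_Ω0 hφ)
  have key := core_EstL (μ := volume.restrict St) (a := fun p => σ • ds φ p) form_Ω0 hδ
    (c1.const_smul σ) (contDiff_dt h1).continuous hj
    (fun g hg e => integrableOn_St hg (R := R + 1) fun p hp =>
      e p (z p (fderiv_eq_zero_of_supp h3 p hp)).1 (z p (fderiv_eq_zero_of_supp h3 p hp)).2)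
    e0 fun p => (hD p).imp (fun e => z p (by rw [e.fderiv_eq]; simp))
      fun e => ⟨e.1, k _ e.1 e.2⟩
  simp only [n1] at key
  rw [lintegral_add_left (c1.enorm.measurable.pow_const 2)] at key
  exact key

end

end Pool.Agent.P.MP_de3acd_gt.FH
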