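import Pool.Agent.P.MP_de3acd_gt.FH.IE1
import Pool.Agent.P.MP_de3acd_gt.FH.EstL

/-! Interior estimates of all orders, by prolongation.
Sketch of ck_of_c1: induction on k, for all finite-dimensional C, F and all 𝕁, 𝔽, r, c₀, A (state an auxiliary lemma with these
quantified inside; k + 2 is the order). Step: U = (u, ds u, dt u) solves ds U + 𝕁' (κ', U) (dt U) = 𝔽' (κ', U) with
κ' = (κ, ds κ, dt κ), 𝕁' = the diagonal map (prodMap three times), 𝔽' = (𝔽, D𝔽 (ds κ, U₁) - D𝕁 (ds κ, U₁) U₂,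
D𝔽 (dt κ, U₂) - D𝕁 (dt κ, U₂) U₂); PlEll passes to the diagonal system with constant 3 c₀ (componentwise, sup norm); c2_of_c1 on
the balls of radius r/2 bounds fderiv U on ball p (r/2); ‖D^(k+1) u‖ ≤ 2 ‖D^k U‖. ie_floer: control
κ' q = (q.2 - ⌊p.2⌋, κ q), 𝕁 ((t, a), z) = J t z, 𝔽 = J t z (𝕏 t (a, z)), plEll_of_cpt (J is bounded on bounded sets). -/

open Set Filter Topology MeasureTheory
open scoped ContDiff NNReal ENNReal RealInnerProductSpace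

namespace Pool.Agent.P.MP_de3acd_gt.FH

noncomputable section

variable {F F₁ F₂ : Type} [NormedAddCommGroup F] [NormedSpace ℝ F] [NormedAddCommGroup F₁]
  [NormedSpace ℝ F₁] [NormedAddCommGroup F₂] [NormedSpace ℝ F₂]
variable {V : Type} [NormedAddCommGroup V] [InnerProductSpace ℝ V] [Sym V]
variable {C Λ : Type} [NormedAddCommGroup C] [NormedSpace ℝ C] [FiniteDimensional ℝ C]
  [NormedAddCommGroup Λ] [NormedSpace ℝ Λ] [FiniteDimensional ℝ Λ]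

theorem pair_IE2 {f : Pl → F₁} {g : Pl → F₂} (hf : ContDiff ℝ ∞ f) (hg : ContDiff ℝ ∞ g) (i : ℕ)
    (q : Pl) : ‖iteratedFDeriv ℝ i (fun q => (f q, g q)) q‖ =
      max ‖iteratedFDeriv ℝ i f q‖ ‖iteratedFDeriv ℝ i g q‖ := by
  rw [iteratedFDeriv_prodMk hf.contDiffAt hg.contDiffAt (by exact_mod_cast le_top),
    ContinuousMultilinearMap.opNorm_prod]

theorem dir_IE2 {f : Pl → F} (hf : ContDiff ℝ ∞ f) {v : Pl} (hv : ‖v‖ = 1) (i : ℕ) (q : Pl) :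
    ‖iteratedFDeriv ℝ i (fun q => fderiv ℝ f q v) q‖ ≤ ‖iteratedFDeriv ℝ (i + 1) f q‖ := by
  have := norm_iteratedFDeriv_clm_apply_const (N := ∞) (n := i) (c := v) (x := q)
    (hf.fderiv_right (m := ∞) le_rfl).contDiffAt (by exact_mod_cast le_top)
  rwa [hv, one_mul, norm_iteratedFDeriv_fderiv] at this

/-- The one-jet. -/
def jet_IE2 (u : Pl → F) (q : Pl) : F × F × F := (u q, ds u q, dt u q)

theorem cd_jet_IE2 {u : Pl → F} (hu : ContDiff ℝ ∞ u) : ContDiff ℝ ∞ (jet_IE2 u) :=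
  hu.prodMk ((contDiff_ds hu).prodMk (contDiff_dt hu))

theorem jet_le_IE2 {u : Pl → F} (hu : ContDiff ℝ ∞ u) (i : ℕ) (q : Pl) {A : ℝ}
    (h : ‖iteratedFDeriv ℝ i u q‖ ≤ A) (h' : ‖iteratedFDeriv ℝ (i + 1) u q‖ ≤ A) :
    ‖iteratedFDeriv ℝ i (jet_IE2 u) q‖ ≤ A := by
  refine (pair_IE2 hu ((contDiff_ds hu).prodMk (contDiff_dt hu)) i q).trans_le (max_le h ?_)
  rw [pair_IE2 (contDiff_ds hu) (contDiff_dt hu)]
  exact max_le ((dir_IE2 hu (by simp) i q).trans h') ((dir_IE2 hu (by simp) i q).trans h')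

variable (F) in
theorem le_jet_IE2 : ∃ c : ℝ, 0 ≤ c ∧ ∀ u : Pl → F, ContDiff ℝ ∞ u → ∀ (i : ℕ) (q : Pl),
    ‖iteratedFDeriv ℝ (i + 1) u q‖ ≤ c * ‖iteratedFDeriv ℝ i (jet_IE2 u) q‖ := by
  obtain ⟨L, hL⟩ : ∃ L : F × F × F →L[ℝ] Pl →L[ℝ] F, ∀ (z : F × F × F) (a : Pl),
      L z a = a.1 • z.2.1 + a.2 • z.2.2 :=
    ⟨((ContinuousLinearMap.smulRightL ℝ Pl F (ContinuousLinearMap.fst ℝ ℝ ℝ)).coprod
      (ContinuousLinearMap.smulRightL ℝ Pl F (ContinuousLinearMap.snd ℝ ℝ ℝ))).comp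
        (ContinuousLinearMap.snd ℝ F (F × F)), fun _ _ => rfl⟩
  refine ⟨‖L‖, L.opNorm_nonneg, fun u hu i q => ?_⟩
  have e : fderiv ℝ u = L ∘ jet_IE2 u := funext fun q => ContinuousLinearMap.ext fun a =>
    (fderiv_eq_ds_dt u q a).trans (hL (jet_IE2 u q) a).symm
  rw [← norm_iteratedFDeriv_fderiv, e]
  exact L.norm_iteratedFDeriv_comp_left (N := ∞) (cd_jet_IE2 hu).contDiffAt
    (by exact_mod_cast le_top)

omit [NormedSpace ℝ F₁] [NormedSpace ℝ F₂] in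
theorem en_prod_IE2 (a : F₁) (b : F₂) : ‖(a, b)‖ₑ ^ 2 ≤ ‖a‖ₑ ^ 2 + ‖b‖ₑ ^ 2 := by
  rw [← ofReal_norm, Prod.norm_mk]
  rcases max_choice ‖a‖ ‖b‖ with h | h <;> rw [h, ofReal_norm]
  exacts [le_self_add, le_add_self]

theorem prod_IE2 {j₁ : Pl → F₁ →L[ℝ] F₁} {j₂ : Pl → F₂ →L[ℝ] F₂} {D : Set Pl} {c₁ c₂ : ℝ≥0}
    (h₁ : PlEll j₁ D c₁) (h₂ : PlEll j₂ D c₂) :
    PlEll (fun p => (j₁ p).prodMap (j₂ p)) D (c₁ + c₂) := by
  intro φ hφ hc hs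
  have c1 : ContDiff ℝ ∞ fun p => (φ p).1 := hφ.fst
  have c2 : ContDiff ℝ ∞ fun p => (φ p).2 := hφ.snd
  have e : ∀ v p, fderiv ℝ φ p v =
      (fderiv ℝ (fun p => (φ p).1) p v, fderiv ℝ (fun p => (φ p).2) p v) :=
    fun v p => congrFun (fd_prod_JetC c1 c2 v) p
  have k1 := h₁ _ c1 (hc.comp_left (g := Prod.fst) rfl)
    ((tsupport_comp_subset (g := Prod.fst) rfl φ).trans hs)
  have k2 := h₂ _ c2 (hc.comp_left (g := Prod.snd) rfl)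
    ((tsupport_comp_subset (g := Prod.snd) rfl φ).trans hs)
  have m : Measurable fun p => ‖ds (fun p => (φ p).1) p‖ₑ ^ 2 + ‖dt (fun p => (φ p).1) p‖ₑ ^ 2 :=
    (((contDiff_ds c1).continuous.enorm.measurable).pow_const 2).add
      (((contDiff_dt c1).continuous.enorm.measurable).pow_const 2)
  have le : ∀ {a : ℝ} {b : ℝ}, a ≤ b → ENNReal.ofReal a ^ 2 ≤ ENNReal.ofReal b ^ 2 :=
    fun h => pow_le_pow_left' (ENNReal.ofReal_le_ofReal h) 2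
  calc _ ≤ ∫⁻ p, (‖ds (fun p => (φ p).1) p‖ₑ ^ 2 + ‖dt (fun p => (φ p).1) p‖ₑ ^ 2) +
        (‖ds (fun p => (φ p).2) p‖ₑ ^ 2 + ‖dt (fun p => (φ p).2) p‖ₑ ^ 2) :=
        lintegral_mono fun p => by
          rw [add_add_add_comm]
          simp only [ds, dt, e _ p]
          exact add_le_add (en_prod_IE2 _ _) (en_prod_IE2 _ _)
    _ ≤ _ := by
        rw [lintegral_add_left m, ENNReal.coe_add, add_mul]
        refine add_le_add (k1.trans (mul_le_mul_right (lintegral_mono fun p => ?_) _))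
          (k2.trans (mul_le_mul_right (lintegral_mono fun p => ?_) _))
        · simp only [ds, dt, e _ p, ← ofReal_norm]
          exact le (le_max_left _ _)
        · simp only [ds, dt, e _ p, ← ofReal_norm]
          exact le (le_max_right _ _)

omit [FiniteDimensional ℝ C] in
theorem diff_IE2 {𝕁 : C × F → F →L[ℝ] F} {𝔽 : C × F → F} (hJ : ContDiff ℝ ∞ 𝕁)
    (hF : ContDiff ℝ ∞ 𝔽) {κ : Pl → C} {u : Pl → F} (hκ : ContDiff ℝ ∞ κ) (hu : ContDiff ℝ ∞ u)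
    {q : Pl} (e : ∀ᶠ q in 𝓝 q, ds u q + 𝕁 (κ q, u q) (dt u q) = 𝔽 (κ q, u q)) (v : Pl) :
    fderiv ℝ (ds u) q v + 𝕁 (κ q, u q) (fderiv ℝ (dt u) q v) =
      fderiv ℝ 𝔽 (κ q, u q) (fderiv ℝ κ q v, fderiv ℝ u q v) -
        fderiv ℝ 𝕁 (κ q, u q) (fderiv ℝ κ q v, fderiv ℝ u q v) (dt u q) := by
  have w := (hκ.differentiable (by simp) q).hasFDerivAt.prodMk
    (hu.differentiable (by simp) q).hasFDerivAt
  have a := ((contDiff_ds hu).differentiable (by simp) q).hasFDerivAt.add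
    (((hJ.differentiable (by simp) _).hasFDerivAt.comp q w).clm_apply
      ((contDiff_dt hu).differentiable (by simp) q).hasFDerivAt)
  have b := ((hF.differentiable (by simp) _).hasFDerivAt.comp q w).congr_of_eventuallyEq e
  have := congrArg (fun T : Pl →L[ℝ] F => T v) (a.unique b)
  rw [eq_sub_iff_add_eq, add_assoc]
  exact this

theorem ck_IE2 (k : ℕ) : ∀ (C F : Type) [NormedAddCommGroup C] [NormedSpace ℝ C]
    [FiniteDimensional ℝ C] [NormedAddCommGroup F] [NormedSpace ℝ F] [FiniteDimensional ℝ F]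
    (𝕁 : C × F → F →L[ℝ] F) (𝔽 : C × F → F), ContDiff ℝ ∞ 𝕁 → ContDiff ℝ ∞ 𝔽 → ∀ r : ℝ, 0 < r →
    ∀ (c₀ : ℝ≥0) (A : ℝ), ∃ A', ∀ (κ : Pl → C) (u : Pl → F) (p : Pl), ContDiff ℝ ∞ κ →
      ContDiff ℝ ∞ u → PlEll (fun q => 𝕁 (κ q, u q)) (Metric.ball p r) c₀ →
      (∀ q ∈ Metric.ball p r,
        ds u q + 𝕁 (κ q, u q) (dt u q) = 𝔽 (κ q, u q) ∧ ‖u q‖ ≤ A ∧ ‖fderiv ℝ u q‖ ≤ A ∧
          ∀ i ≤ k + 3, ‖iteratedFDeriv ℝ i κ q‖ ≤ A) → ‖iteratedFDeriv ℝ k u p‖ ≤ A' := by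
  induction k with
  | zero =>
    intro C F _ _ _ _ _ _ 𝕁 𝔽 _ _ r hr _ A
    exact ⟨A, fun κ u p _ _ _ h =>
      norm_iteratedFDeriv_zero.trans_le (h p (Metric.mem_ball_self hr)).2.1⟩
  | succ k ih =>
    intro C F _ _ _ _ _ _ 𝕁 𝔽 hJ hF r hr c₀ A
    obtain ⟨A₂, h₂⟩ := c2_of_c1 hJ hF (half_pos hr) c₀ A
    obtain ⟨c, hc, hL⟩ := le_jet_IE2 F
    have b : ContDiff ℝ ∞ fun x : (C × (Pl →L[ℝ] C)) × F × F × F => (x.1.1, x.2.1) :=
      contDiff_fst.fst.prodMk contDiff_snd.fst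
    have pm : ∀ {X G G' : Type} [NormedAddCommGroup X] [NormedSpace ℝ X] [NormedAddCommGroup G]
        [NormedSpace ℝ G] [NormedAddCommGroup G'] [NormedSpace ℝ G'] {f : X → G →L[ℝ] G}
        {g : X → G' →L[ℝ] G'}, ContDiff ℝ ∞ f → ContDiff ℝ ∞ g →
          ContDiff ℝ ∞ fun x => (f x).prodMap (g x) := fun {X G G' _ _ _ _ _ _ _ _} hf hg =>
      (ContinuousLinearMap.prodMapL ℝ G G G' G').contDiff.comp (hf.prodMk hg)
    have g : ∀ (v : Pl) {w : (C × (Pl →L[ℝ] C)) × F × F × F → F}, ContDiff ℝ ∞ w →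
        ContDiff ℝ ∞ fun x : (C × (Pl →L[ℝ] C)) × F × F × F =>
          fderiv ℝ 𝔽 (x.1.1, x.2.1) (x.1.2 v, w x) -
            fderiv ℝ 𝕁 (x.1.1, x.2.1) (x.1.2 v, w x) x.2.2.2 := fun v w hw =>
      (((hF.fderiv_right (m := ∞) le_rfl).comp b).clm_apply
        ((contDiff_fst.snd.clm_apply contDiff_const).prodMk hw)).sub
        ((((hJ.fderiv_right (m := ∞) le_rfl).comp b).clm_apply
          ((contDiff_fst.snd.clm_apply contDiff_const).prodMk hw)).clm_apply contDiff_snd.snd.snd)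
    obtain ⟨A', hA⟩ := ih _ _ _ _ (pm (hJ.comp b) (pm (hJ.comp b) (hJ.comp b)))
      ((hF.comp b).prodMk ((g (1, 0) contDiff_snd.snd.fst).prodMk (g (0, 1) contDiff_snd.snd.snd)))
      (r / 2) (half_pos hr) (c₀ + (c₀ + c₀)) (max A A₂)
    refine ⟨c * A', fun κ u p hκ hu he h => (hL u hu k p).trans
      (mul_le_mul_of_nonneg_left ?_ hc)⟩
    have hκ' : ContDiff ℝ ∞ (fderiv ℝ κ) := hκ.fderiv_right (m := ∞) le_rfl
    have s : Metric.ball p (r / 2) ⊆ Metric.ball p r := Metric.ball_subset_ball (half_le_self hr.le)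
    refine hA (fun q => (κ q, fderiv ℝ κ q)) (jet_IE2 u) p (hκ.prodMk hκ') (cd_jet_IE2 hu)
      ((prod_IE2 he (prod_IE2 he he)).mono s) fun q hq => ?_
    obtain ⟨e0, b0, b1, b2⟩ := h q (s hq)
    have e : ∀ᶠ q in 𝓝 q, ds u q + 𝕁 (κ q, u q) (dt u q) = 𝔽 (κ q, u q) :=
      (Metric.isOpen_ball.eventually_mem (s hq)).mono fun q hq => (h q hq).1
    have s' : Metric.ball q (r / 2) ⊆ Metric.ball p r :=
      Metric.ball_subset (by rw [sub_half]; exact (Metric.mem_ball.1 hq).le)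
    have b3 := h₂ κ u q hκ hu (he.mono s') fun q' hq' =>
      ⟨(h q' (s' hq')).1, (h q' (s' hq')).2.1, (h q' (s' hq')).2.2.1,
        fun i hi => (h q' (s' hq')).2.2.2 i (by omega)⟩
    rw [← norm_iteratedFDeriv_zero (𝕜 := ℝ)] at b0
    rw [← norm_iteratedFDeriv_one] at b1
    refine ⟨?_, ?_, ?_, fun i hi => ?_⟩
    · have d : ∀ v, fderiv ℝ (jet_IE2 u) q v =
          (fderiv ℝ u q v, fderiv ℝ (ds u) q v, fderiv ℝ (dt u) q v) := fun v =>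
        (congrFun (fd_prod_JetC hu ((contDiff_ds hu).prodMk (contDiff_dt hu)) v) q).trans
          (congrArg _ (congrFun (fd_prod_JetC (contDiff_ds hu) (contDiff_dt hu) v) q))
      have e1 := diff_IE2 hJ hF hκ hu e (1, 0)
      have e2 := diff_IE2 hJ hF hκ hu e (0, 1)
      have cm : fderiv ℝ (dt u) q (1, 0) = fderiv ℝ (ds u) q (0, 1) := congrFun (ds_dt_comm hu) q
      rw [cm] at e1
      rw [← cm] at e2
      rw [ds, dt, d, d]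
      exact Prod.ext e0 (Prod.ext e1 e2)
    · rw [← norm_iteratedFDeriv_zero (𝕜 := ℝ)]
      exact (jet_le_IE2 hu 0 q b0 b1).trans (le_max_left _ _)
    · rw [← norm_iteratedFDeriv_one]
      exact jet_le_IE2 hu 1 q (b1.trans (le_max_left _ _)) (b3.trans (le_max_right _ _))
    · rw [pair_IE2 hκ hκ', norm_iteratedFDeriv_fderiv]
      exact le_max_of_le_left (max_le (b2 _ (by omega)) (b2 _ (by omega)))

theorem lin_IE2 (m : ℝ) (i : ℕ) (q : Pl) :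
    ‖iteratedFDeriv ℝ i (fun q : Pl => q.2 - m) q‖ ≤ max |q.2 - m| 1 := by
  rcases i with _ | i
  · rw [norm_iteratedFDeriv_zero]
    exact le_max_left _ _
  · have e : fderiv ℝ (fun q : Pl => q.2 - m) = fun _ => ContinuousLinearMap.snd ℝ ℝ ℝ :=
      funext fun q => (hasFDerivAt_snd.sub_const m).fderiv
    rw [← norm_iteratedFDeriv_fderiv, e]
    refine le_max_of_le_right ?_
    rcases i with _ | i
    · rw [norm_iteratedFDeriv_zero]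
      exact ContinuousLinearMap.norm_snd_le _ _ _
    · rw [iteratedFDeriv_succ_const]
      simp

theorem ck_of_c1 [FiniteDimensional ℝ F] {𝕁 : C × F → F →L[ℝ] F} {𝔽 : C × F → F}
    (hJ : ContDiff ℝ ∞ 𝕁) (hF : ContDiff ℝ ∞ 𝔽) (k : ℕ) {r : ℝ} (hr : 0 < r) (c₀ : ℝ≥0) (A : ℝ) :
    ∃ A', ∀ (κ : Pl → C) (u : Pl → F) (p : Pl), ContDiff ℝ ∞ κ → ContDiff ℝ ∞ u →
      PlEll (fun q => 𝕁 (κ q, u q)) (Metric.ball p r) c₀ → (∀ q ∈ Metric.ball p r,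
        ds u q + 𝕁 (κ q, u q) (dt u q) = 𝔽 (κ q, u q) ∧ ‖u q‖ ≤ A ∧ ‖fderiv ℝ u q‖ ≤ A ∧
          ∀ i ≤ k + 3, ‖iteratedFDeriv ℝ i κ q‖ ≤ A) → ‖iteratedFDeriv ℝ k u p‖ ≤ A' :=
  ck_IE2 k C F 𝕁 𝔽 hJ hF r hr c₀ A

theorem ie_floer [FiniteDimensional ℝ F] {Ω : F → F → ℝ} (hΩ : Form Ω) {J : ℝ → F → F →L[ℝ] F}
    (hJ : ACS Ω J) {𝕏 : ℝ → C × F → F} (hX : SP 𝕏) (k : ℕ) {r : ℝ} (hr : 0 < r) (A : ℝ) :
    ∃ A', ∀ (κ : Pl → C) (u : Pl → F) (p : Pl), ContDiff ℝ ∞ κ → ContDiff ℝ ∞ u →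
      (∀ q ∈ Metric.ball p r, cr J (ctl 𝕏 κ) u q = 0 ∧ ‖u q‖ ≤ A ∧ ‖fderiv ℝ u q‖ ≤ A ∧
        ∀ i ≤ k + 3, ‖iteratedFDeriv ℝ i κ q‖ ≤ A) → ‖iteratedFDeriv ℝ k u p‖ ≤ A' := by
  obtain ⟨M, -, hM⟩ := hJ.1.bound_JetC A
  obtain ⟨c₀, hc⟩ := plEll_of_cpt hΩ M
  have j : ContDiff ℝ ∞ fun x : (ℝ × C) × F => J x.1.1 x.2 :=
    hJ.1.1.comp (contDiff_fst.fst.prodMk contDiff_snd)
  obtain ⟨A', hA⟩ := ck_of_c1 j (j.clm_apply (hX.1.comp (contDiff_fst.fst.prodMk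
    (contDiff_fst.snd.prodMk contDiff_snd)))) k hr c₀ (max A (r + 1))
  refine ⟨A', fun κ u p hκ hu h => ?_⟩
  have l : ContDiff ℝ ∞ fun q : Pl => q.2 - (⌊p.2⌋ : ℝ) := contDiff_snd.sub contDiff_const
  have pJ : ∀ t, J (t - (⌊p.2⌋ : ℝ)) = J t := fun t => by
    simpa using Function.Periodic.sub_int_mul_eq (f := J) (x := t) hJ.1.2 ⌊p.2⌋
  have pX : ∀ t, 𝕏 (t - (⌊p.2⌋ : ℝ)) = 𝕏 t := fun t => by
    simpa using Function.Periodic.sub_int_mul_eq (f := 𝕏) (x := t) hX.2 ⌊p.2⌋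
  refine hA (fun q => (q.2 - (⌊p.2⌋ : ℝ), κ q)) u p (l.prodMk hκ) hu
    (hc _ _ (j.continuous.comp ((l.prodMk hκ).prodMk hu).continuous) fun q hq =>
      ⟨hJ.2 _ _, hM _ _ (h q hq).2.1⟩) fun q hq => ?_
  obtain ⟨e, b0, b1, b2⟩ := h q hq
  refine ⟨?_, b0.trans (le_max_left _ _), b1.trans (le_max_left _ _), fun i hi => ?_⟩
  · simp only [Function.comp, pJ, pX]
    rw [cr, map_sub, ← add_sub_assoc, sub_eq_zero] at e
    exact e
  · rw [pair_IE2 l hκ]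
    refine max_le ((lin_IE2 _ i q).trans (le_max_of_le_right (max_le ?_ (by linarith))))
      ((b2 i hi).trans (le_max_left _ _))
    have := abs_lt.1 ((le_max_right _ _).trans_lt (Metric.mem_ball.1 hq))
    have f1 := Int.floor_le p.2
    have f2 := Int.lt_floor_add_one p.2
    exact abs_le.2 ⟨by linarith [this.1], by linarith [this.2]⟩

theorem cn_of_c1 {J : ℝ → V → V →L[ℝ] V} (hJ : ACS Ω0 J) {𝕏 : ℝ → C × V → V} (hX : SP 𝕏) (k : ℕ)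
    (A : ℝ) : ∃ A', ∀ (κ : Pl → C) (u : Pl → V), ContDiff ℝ ∞ κ → ContDiff ℝ ∞ u →
      (∀ p, cr J (ctl 𝕏 κ) u p = 0) → Cn 1 u univ A → Cn (k + 3) κ univ A → Cn k u univ A' := by
  choose B hB using fun i : ℕ => ie_floer form_Ω0 hJ hX i one_pos (2 ^ (k + 3) * max A 0)
  refine ⟨∑ i ∈ Finset.range (k + 1), |B i|, fun κ u hκ hu e h h' =>
    cn_of_iteratedFDeriv hu fun i hi p _ => ?_⟩
  have m : ∀ n ≤ k + 3, 2 ^ n * A ≤ 2 ^ (k + 3) * max A 0 := fun n hn =>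
    (mul_le_mul_of_nonneg_left (le_max_left _ _) (by positivity)).trans
      (mul_le_mul_of_nonneg_right (pow_le_pow_right₀ one_le_two hn) (le_max_right _ _))
  have b : ∀ n ≤ 1, ∀ q, ‖iteratedFDeriv ℝ n u q‖ ≤ 2 ^ (k + 3) * max A 0 := fun n hn q =>
    ((h.mono hn subset_rfl le_rfl).iteratedFDeriv_le hu (mem_univ _)).trans (m n (by omega))
  refine (hB i κ u p hκ hu fun q _ => ⟨e q, ?_, ?_, fun n hn => ?_⟩).trans ((le_abs_self _).trans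
    (Finset.single_le_sum (f := fun i => |B i|) (fun _ _ => abs_nonneg _)
      (Finset.mem_range.2 (by omega))))
  · exact norm_iteratedFDeriv_zero.symm.trans_le (b 0 zero_le_one q)
  · exact (norm_iteratedFDeriv_one u).symm.trans_le (b 1 le_rfl q)
  · exact ((h'.mono (k' := n) (by omega) subset_rfl le_rfl).iteratedFDeriv_le hκ
      (mem_univ _)).trans (m n (by omega))

theorem bdd_of_c1 {J : ℝ → V → V →L[ℝ] V} (hJ : ACS Ω0 J) {𝕏 : ℝ → C × V → V} (hX : SP 𝕏)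
    {κ : Pl → C} {u : Pl → V} (hκ : Bdd κ) (hu : ContDiff ℝ ∞ u) (e : ∀ p, cr J (ctl 𝕏 κ) u p = 0)
    {A : ℝ} (h : Cn 1 u univ A) : Bdd u := by
  refine bdd_iff.2 ⟨hu, fun k => ?_⟩
  obtain ⟨B, -, hB⟩ := hκ.cn (k + 3)
  obtain ⟨A', hA⟩ := cn_of_c1 hJ hX k (max A B)
  exact ⟨A', hA κ u hκ.1 hu e (h.up_JetC (le_max_left _ _)) (hB.up_JetC (le_max_right _ _))⟩

end

end Pool.Agent.P.MP_de3acd_gt.FH
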