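import Pool.Agent.P.MP_de3acd_gt.FH.RegNl
import Pool.Agent.P.MP_de3acd_gt.FH.AA
import Pool.Agent.P.MP_de3acd_gt.FH.IE2
import Pool.Agent.P.MP_de3acd_gt.FH.Defs4

/-! The Floer map for a pair of orbits, in the coordinate xi.
Sketch: gorb: near the orbit the fields agree, so Orb and fderiv agree (EventuallyEq.fderiv_eq). exists_F: exists_F of UF at
w = ref x y (bdd_ref, cr_ref_mem, nrm_lt_top_of_mem). rep_xi: Pth.nrm_sub, pth_ref, rep_toW. var_mem: for |s| large u is δ/2-close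
to the orbit (Pth.cn) and a ↦ X a p (u p) is constant, so dX vanishes. fderiv_xi: IsF.d1_eq, IsF.rep_d2, Rep.toW_eq,
fderiv_eq_coprod, coef_fld. var_tendsto: write X = ctl 𝕏 (a, ρ) (Fam.ctl); var J (dX X a v) u p = G p.2 ((a, ρ p.1), u p) with G SP;
cn_comp_sub, uniform compact support, Cn.nrm_le, nrm_eq_of_supp (or LocC.comp, LocC.nrm_supp).
isolated: eventually_eq_of_bijective for z ↦ (Φ z, lmap l z.1 + mmap M ...). -/

open Set Filter Topology MeasureTheory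
open scoped ContDiff NNReal ENNReal RealInnerProductSpace

namespace Pool.Agent.P.MP_de3acd_gt.FH

noncomputable section

variable {V : Type} [NormedAddCommGroup V] [InnerProductSpace ℝ V] [Sym V]
variable {Λ : Type} [NormedAddCommGroup Λ] [NormedSpace ℝ Λ] [FiniteDimensional ℝ Λ]
variable {α β : Type} [Fintype α] [Fintype β]

variable {J : ℝ → V → V →L[ℝ] V} {X : Λ → Pl → V → V} {R : ℝ} {Y Y' : ℝ → V → V} {x y : ℝ → V}
  {u u' : Pl → V} {Φ : W 2 V × Λ → W 1 V}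

omit [FiniteDimensional ℝ Λ] in
theorem gorb_PD {Y₀ Y₁ : ℝ → V → V} {x : ℝ → V} (h : GOrb Ω0 1 Y₀ x) {δ : ℝ} (hδ : 0 < δ)
    (e : ∀ t z, ‖z - x t‖ ≤ δ → Y₁ t z = Y₀ t z) : GOrb Ω0 1 Y₁ x := by
  have e1 : ∀ t, Y₁ t =ᶠ[𝓝 (x t)] Y₀ t := fun t => by
    filter_upwards [Metric.closedBall_mem_nhds (x t) hδ] with z hz
    exact e t z (by rwa [Metric.mem_closedBall, dist_eq_norm] at hz)
  have e2 : ∀ t, fderiv ℝ (Y₁ t) (x t) = fderiv ℝ (Y₀ t) (x t) := fun t => (e1 t).fderiv_eq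
  refine ⟨⟨fun t => ?_, h.1.2⟩, fun t u v => ?_, ?_⟩
  · rw [(e1 t).eq_of_nhds]
    exact h.1.1 t
  · rw [e2]
    exact h.2.1 t u v
  · simp only [e2]
    exact h.2.2

omit [FiniteDimensional ℝ Λ] in
theorem ends_PD (h : PData J X R Y Y' x y) : ∃ δ > 0, ∀ (a : Λ) (p : Pl) (z : V),
    (p.1 ≤ -R → ‖z - x p.2‖ ≤ δ → X a p z = Y p.2 z) ∧
      (R ≤ p.1 → ‖z - y p.2‖ ≤ δ → X a p z = Y' p.2 z) := by
  obtain ⟨δ, hδ, e⟩ := h.agl
  obtain ⟨δ', hδ', e'⟩ := h.agr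
  refine ⟨min δ δ', lt_min hδ hδ', fun a p z => ⟨fun hp hz => ?_, fun hp hz => ?_⟩⟩
  · exact (congrFun (congrFun (h.fam.left a p.1 hp) p.2) z).trans
      (e a p.2 z (hz.trans (min_le_left _ _)))
  · exact (congrFun (congrFun (h.fam.right a p.1 hp) p.2) z).trans
      (e' a p.2 z (hz.trans (min_le_right _ _)))

omit [Sym V] [FiniteDimensional ℝ Λ] in
theorem fam_dX_PD (h : Fam X R) (v : Λ) : Fam (fun a => dX X a v) R := by
  have key : ∀ (a : Λ) (p q : Pl), (∀ b, X b p = X b q) → dX X a v p = dX X a v q :=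
    fun a p q e => funext fun z => by simp only [dX, e]
  refine ⟨h.nonneg, ?_, fun a s t => key a _ _ fun b => h.per b s t,
    fun a s hs => funext fun t => key a _ _ fun b => congrFun (h.left b s hs) t,
    fun a s hs => funext fun t => key a _ _ fun b => congrFun (h.right b s hs) t⟩
  have h1 : ContDiff ℝ ∞ (Function.uncurry fun (q : Λ × Pl × V) (a : Λ) => X a q.2.1 q.2.2) :=
    h.smooth.comp (contDiff_snd.prodMk (contDiff_snd.comp contDiff_fst))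
  exact (h1.fderiv (n := ∞) contDiff_fst le_rfl).clm_apply contDiff_const

theorem var_ctl_PD (hJ : SP J) (h : Fam X R) (v : Λ) : ∃ (G : ℝ → (Λ × ℝ) × V → V) (ρ : Pl → ℝ),
    SP G ∧ Bdd ρ ∧ Per ρ ∧ ∀ (a : Λ) (w : Pl → V),
      var J (dX X a v) w = fun p => G p.2 ((a, ρ p), w p) := by
  obtain ⟨𝕏, ρ, h1, h2, -, -, -, h3⟩ := (fam_dX_PD h v).ctl
  refine ⟨fun t q => -J t q.2 (𝕏 t q), fun p => ρ p.1, ⟨?_, fun t => ?_⟩, h2, fun _ _ => rfl,
    fun a w => funext fun p => ?_⟩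
  · exact ((hJ.1.comp (contDiff_fst.prodMk (contDiff_snd.comp contDiff_snd))).clm_apply h1.1).neg
  · simp only [hJ.2 t, h1.2 t]
  · rw [var, h3 a]
    rfl

theorem var_smooth_PD (hJ : SP J) (h : Fam X R) (a v : Λ) {w : Pl → V} (hw : ContDiff ℝ ∞ w) :
    ContDiff ℝ ∞ (var J (dX X a v) w) ∧ (Per w → Per (var J (dX X a v) w)) := by
  obtain ⟨G, ρ, h1, h2, h3, h4⟩ := var_ctl_PD hJ h v
  rw [h4]
  exact ⟨h1.contDiff_comp ((contDiff_const.prodMk h2.1).prodMk hw),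
    fun pw => h1.per_comp fun s t => by simp only [h3 s t, pw s t]⟩

omit [FiniteDimensional ℝ Λ] in
theorem var_zero_PD (h : PData J X R Y Y' x y) : ∃ δ > 0, ∀ (a v : Λ) (w : Pl → V) (p : Pl),
    (p.1 ≤ -R ∧ ‖w p - x p.2‖ ≤ δ) ∨ (R ≤ p.1 ∧ ‖w p - y p.2‖ ≤ δ) →
      var J (dX X a v) w p = 0 := by
  obtain ⟨δ, hδ, e⟩ := ends_PD h
  refine ⟨δ, hδ, fun a v w p hp => ?_⟩
  rcases hp with hp | hp
  · simp [var, dX, fun b => (e b p (w p)).1 hp.1 hp.2]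
  · simp [var, dX, fun b => (e b p (w p)).2 hp.1 hp.2]

theorem comp_PD {G : ℝ → (Λ × ℝ) × V → V} (hG : SP G) {ρ : Pl → ℝ} (hρ : Bdd ρ) {N : Type}
    {l : Filter N} {a : N → Λ} {a₀ : Λ} {f : N → Pl → V} (ha : Tendsto a l (𝓝 a₀))
    (hf : ∀ n, ContDiff ℝ ∞ (f n)) (hu : Bdd u) {k : ℕ} {I : Set ℝ}
    (e : ∀ ε > 0, ∀ᶠ n in l, Cn k (f n - u) I ε) (ε : ℝ) (hε : 0 < ε) : ∀ᶠ n in l,
      Cn k (fun p => G p.2 ((a n, ρ p), f n p) - G p.2 ((a₀, ρ p), u p)) I ε := by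
  have hc : Bdd fun p => ((a₀, ρ p), u p) := ((bdd_const a₀).prod hρ).prod hu
  obtain ⟨A, -, hA⟩ := hc.cn k
  obtain ⟨L, hL, H⟩ := cn_comp_sub hG k (1 + A)
  have hη : 0 < min 1 (ε / (L + 1)) := lt_min one_pos (by positivity)
  filter_upwards [e _ hη, (tendsto_iff_norm_sub_tendsto_zero.1 ha).eventually (ge_mem_nhds hη)]
    with n h1 h2
  have s1 : ContDiff ℝ ∞ fun p => ((a n, ρ p), f n p) :=
    (contDiff_const.prodMk hρ.1).prodMk (hf n)
  have d : Cn k ((fun p => ((a n, ρ p), f n p)) - fun p => ((a₀, ρ p), u p)) I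
      (min 1 (ε / (L + 1))) := by
    have e1 : ((fun p => ((a n, ρ p), f n p)) - fun p => ((a₀, ρ p), u p)) =
        fun p => ((a n - a₀, (0 : ℝ)), (f n - u) p) := funext fun p => by simp
    rw [e1]
    refine Cn.prod contDiff_const ((hf n).sub hu.1) ((cn_const k _ I).up_JetC ?_) h1
    simpa using h2
  have b : Cn k (fun p => ((a n, ρ p), f n p)) I (1 + A) := by
    have := Cn.add (s1.sub hc.1) hc.1 (d.up_JetC (min_le_left _ _))
      (hA.mono le_rfl (subset_univ I) le_rfl)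
    exact (sub_add_cancel (fun p => ((a n, ρ p), f n p)) fun p => ((a₀, ρ p), u p)) ▸ this
  refine (H _ _ I _ s1 hc.1 b (hA.mono le_rfl (subset_univ I) (by linarith)) d).up_JetC ?_
  calc L * min 1 (ε / (L + 1)) ≤ (L + 1) * (ε / (L + 1)) :=
        mul_le_mul (by linarith) (min_le_right _ _) hη.le (by linarith)
    _ = ε := by field_simp

omit [Sym V] in
theorem supp_PD {N : Type} {l : Filter N} {g : N → Pl → V} {k : ℕ} {T : ℝ}
    (h : ∀ ε > 0, ∀ᶠ n in l, Cn k (g n) (Icc (-T) T) ε)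
    (h0 : ∀ᶠ n in l, ∀ p : Pl, T ≤ |p.1| → g n p = 0) :
    Tendsto (fun n => nrm k (g n) univ) l (𝓝 0) := by
  have t1 : Tendsto (fun ε : ℝ => ENNReal.ofReal (3 ^ k * ε ^ 2) * volume (Icc (-T) T)) (𝓝[>] 0)
      (𝓝 0) := by
    have c : Tendsto (fun ε : ℝ => 3 ^ k * ε ^ 2) (𝓝[>] 0) (𝓝 0) := by
      have : Continuous fun ε : ℝ => (3 : ℝ) ^ k * ε ^ 2 := by fun_prop
      simpa using (this.tendsto 0).mono_left nhdsWithin_le_nhds
    simpa using ENNReal.Tendsto.mul_const (ENNReal.tendsto_ofReal c)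
      (Or.inr (measure_Icc_lt_top (μ := volume) (a := -T) (b := T)).ne)
  refine ENNReal.tendsto_nhds_zero.2 fun η hη => ?_
  obtain ⟨ε, h1, h2⟩ :=
    ((ENNReal.tendsto_nhds_zero.1 t1 η hη).and self_mem_nhdsWithin).exists
  filter_upwards [h ε h2, h0] with n a b
  rw [nrm_eq_of_supp k isClosed_Icc fun p hp => b p (le_of_not_gt fun hl =>
    hp ⟨(abs_lt.1 hl).1.le, (abs_lt.1 hl).2.le⟩)]
  exact (a.nrm_le measurableSet_Icc).trans h1

omit [Sym V] in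
theorem per_sub_PD {f g : Pl → V} (hf : Per f) (hg : Per g) : Per (f - g) := fun s t => by
  simp only [Pi.sub_apply, hf s t, hg s t]

theorem PData.gorb (h : PData J X R Y Y' x y) (a : Λ) :
    GOrb Ω0 1 (frz (X a) (-R)) x ∧ GOrb Ω0 1 (frz (X a) R) y := by
  obtain ⟨δ, hδ, e⟩ := h.agl
  obtain ⟨δ', hδ', e'⟩ := h.agr
  exact ⟨gorb_PD h.ox hδ (e a), gorb_PD h.oy hδ' (e' a)⟩

theorem PData.loops (h : PData J X R Y Y' x y) : ContDiff ℝ ∞ x ∧ ContDiff ℝ ∞ y ∧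
    (∀ t, x (t + 1) = x t) ∧ ∀ t, y (t + 1) = y t :=
  ⟨Orb.contDiff h.spl.1 h.ox.1, Orb.contDiff h.spr.1 h.oy.1, Orb.per h.ox.1, Orb.per h.oy.1⟩

theorem PData.comp {Λ' : Type} [NormedAddCommGroup Λ'] [NormedSpace ℝ Λ'] (h : PData J X R Y Y' x y)
    {g : Λ' → Λ} (hg : ContDiff ℝ ∞ g) : PData J (fun a => X (g a)) R Y Y' x y := by
  obtain ⟨δ, hδ, e⟩ := h.agl
  obtain ⟨δ', hδ', e'⟩ := h.agr
  exact ⟨h.acs, ⟨h.fam.nonneg, h.fam.smooth.comp ((hg.comp contDiff_fst).prodMk contDiff_snd),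
    fun a => h.fam.per _, fun a => h.fam.left _, fun a => h.fam.right _⟩, h.spl, h.spr, h.ox, h.oy,
    ⟨δ, hδ, fun a => e _⟩, ⟨δ', hδ', fun a => e' _⟩⟩

theorem pData_fld {X : Pl → V → V} (hJ : ACS Ω0 J) (hX : Fld X R) (hx : GOrb Ω0 1 (frz X (-R)) x)
    (hy : GOrb Ω0 1 (frz X R) y) : PData J (fun _ : Λ => X) R (frz X (-R)) (frz X R) x y :=
  ⟨hJ, ⟨hX.nonneg, hX.smooth.comp ((contDiff_const (c := (0 : ℝ))).prodMk contDiff_snd),
    fun _ => hX.per 0, fun _ => hX.left 0, fun _ => hX.right 0⟩, Fam.sp_frz hX 0 _,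
    Fam.sp_frz hX 0 _, hx, hy, ⟨1, one_pos, fun _ _ _ _ => rfl⟩, ⟨1, one_pos, fun _ _ _ _ => rfl⟩⟩

theorem PData.exists_F (h : PData J X R Y Y' x y) : ∃ Φ, IsF J X (ref x y) Φ := by
  obtain ⟨hx, hy, px, py⟩ := h.loops
  obtain ⟨b1, b2, b3, b4⟩ := bdd_ref hx hy px py
  obtain ⟨δ, hδ, e⟩ := ends_PD h
  have hR := h.fam.nonneg
  refine FH.exists_F h.acs.1 h.fam b1 b2 (a₀ := 0) (R' := R + 1) (fun a p hp => ?_)
    (nrm_lt_top_of_mem 1 (cr_ref_mem h.acs.1 (h.fam.fld 0) (h.gorb 0).1.1 (h.gorb 0).2.1))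
  rcases le_abs'.1 hp with hp | hp
  · have z : ‖ref x y p - x p.2‖ ≤ δ := by simp [b3 p (by linarith), hδ.le]
    rw [(e a p _).1 (by linarith) z, (e 0 p _).1 (by linarith) z]
  · have z : ‖ref x y p - y p.2‖ ≤ δ := by simp [b4 p (by linarith), hδ.le]
    rw [(e a p _).2 (by linarith) z, (e 0 p _).2 (by linarith) z]

theorem PData.ell (h : PData J X R Y Y' x y) (hu : Pth x y u) (a : Λ) :
    Ell 1 (cJ J u) (cS J (X a) u) :=
  ell_fld h.acs (h.fam.fld a) (h.gorb a).1 (h.gorb a).2 hu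

theorem ref_PD (h : PData J X R Y Y' x y) : Pth x y (ref x y) :=
  pth_ref h.loops.1 h.loops.2.1 h.loops.2.2.1 h.loops.2.2.2

theorem PData.rep_xi (h : PData J X R Y Y' x y) (hu : Pth x y u) :
    Rep 2 (xi x y u) (u - ref x y) ∧ ref x y + fn (xi x y u) = u := by
  have r := ref_PD h
  have s : ContDiff ℝ ∞ (u - ref x y) := hu.bdd.1.sub r.bdd.1
  have e : Rep 2 (xi x y u) (u - ref x y) :=
    rep_toW le_rfl s (per_sub_PD hu.per r.per) (hu.nrm_sub r h.loops.1 h.loops.2.1)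
  exact ⟨e, by rw [e.eq_fn s.continuous (per_sub_PD hu.per r.per), add_sub_cancel]⟩

theorem PData.nrm_xi (h : PData J X R Y Y' x y) (hu : Pth x y u) (hu' : Pth x y u') :
    Rep 2 (xi x y u - xi x y u') (u - u') ∧
      nrm 2 (u - u') univ = ENNReal.ofReal (‖xi x y u - xi x y u'‖ ^ 2) := by
  have r := ref_PD h
  have e := (h.rep_xi hu).1.sub (h.rep_xi hu').1 (hu.bdd.1.sub r.bdd.1).continuous
    (hu'.bdd.1.sub r.bdd.1).continuous
  rw [sub_sub_sub_cancel_right] at e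
  exact ⟨e, e.nrm_eq le_rfl (hu.bdd.1.sub hu'.bdd.1) (per_sub_PD hu.per hu'.per)⟩

theorem PData.nrm_le_iff (h : PData J X R Y Y' x y) (hu : Pth x y u) (hu' : Pth x y u') {ε : ℝ}
    (hε : 0 ≤ ε) : nrm 2 (u - u') univ ≤ ENNReal.ofReal (ε ^ 2) ↔ dist (xi x y u) (xi x y u') ≤ ε := by
  rw [(h.nrm_xi hu hu').2, ENNReal.ofReal_le_ofReal_iff (sq_nonneg _), dist_eq_norm,
    sq_le_sq₀ (norm_nonneg _) hε]

theorem PData.wc_iff (h : PData J X R Y Y' x y) {N : Type} {l : Filter N} {f g : N → Pl → V}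
    (hf : ∀ n, Pth x y (f n)) (hg : ∀ n, Pth x y (g n)) :
    WC l f g ↔ Tendsto (fun n => dist (xi x y (f n)) (xi x y (g n))) l (𝓝 0) := by
  have e : WC l f g ↔ Tendsto (fun n =>
      ENNReal.ofReal (dist (xi x y (f n)) (xi x y (g n)) ^ 2)) l (𝓝 0) := by
    simp only [WC, fun n => (h.nrm_xi (hf n) (hg n)).2, dist_eq_norm]
  rw [e]
  constructor
  · intro t
    have t1 := (Real.continuous_sqrt.tendsto _).comp
      ((ENNReal.tendsto_toReal ENNReal.zero_ne_top).comp t)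
    simpa [Function.comp_def, Real.sqrt_sq dist_nonneg] using t1
  · intro t
    simpa using ENNReal.tendsto_ofReal (t.pow 2)

theorem PData.var_mem (h : PData J X R Y Y' x y) (hu : Pth x y u) (a v : Λ) :
    var J (dX X a v) u ∈ Dsub V := by
  obtain ⟨hx, hy, px, py⟩ := h.loops
  obtain ⟨δ, hδ, e⟩ := var_zero_PD h
  obtain ⟨T, t1, t2⟩ := hu.cn hx hy px py 0 hδ
  have s := var_smooth_PD h.acs.1 h.fam a v hu.bdd.1
  refine ⟨s.1, s.2 hu.per, max R T, fun p hp => e a v u p ?_⟩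
  rcases le_abs'.1 hp with hp | hp
  · exact Or.inl ⟨hp.trans (neg_le_neg (le_max_left _ _)),
      t1 p (hp.trans (neg_le_neg (le_max_right _ _)))⟩
  · exact Or.inr ⟨(le_max_left _ _).trans hp, t2 p ((le_max_right _ _).trans hp)⟩

theorem PData.zero_iff (h : PData J X R Y Y' x y) (hΦ : IsF J X (ref x y) Φ) (hu : Pth x y u)
    (a : Λ) : Φ (xi x y u, a) = 0 ↔ Nice J (X a) x y u := by
  have r := ref_PD h
  rw [hΦ.eq_zero_iff h.acs.1 h.fam.smX r.bdd.1 r.per (h.rep_xi hu).1 (hu.bdd.1.sub r.bdd.1)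
    (per_sub_PD hu.per r.per), add_sub_cancel]
  exact ⟨hu.nice, fun e => e.eq⟩

theorem PData.fderiv_xi (h : PData J X R Y Y' x y) (hΦ : IsF J X (ref x y) Φ) (hu : Pth x y u)
    (a : Λ) : d1 Φ (xi x y u, a) = Du J (X a) u ∧ ∀ ζ v,
      fderiv ℝ Φ (xi x y u, a) (ζ, v) = Du J (X a) u ζ + toW 1 (var J (dX X a v) u) := by
  have r := ref_PD h
  have c := coef_fld h.acs (h.fam.fld a) hu.bdd hu.per
  have e0 : ref x y + (u - ref x y) = u := add_sub_cancel _ _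
  have e1 : d1 Φ (xi x y u, a) = Du J (X a) u := by
    have := hΦ.d1_eq h.acs.1 h.fam.smX r.bdd.1 r.per (h.rep_xi hu).1 (hu.bdd.1.sub r.bdd.1)
      (per_sub_PD hu.per r.per) (a := a) (by rw [e0]; exact c.bj) (by rw [e0]; exact c.bS)
    rwa [e0] at this
  refine ⟨e1, fun ζ v => ?_⟩
  have e2 := hΦ.rep_d2 h.acs.1 h.fam.smX r.bdd.1 r.per (h.rep_xi hu).1 (hu.bdd.1.sub r.bdd.1)
    (per_sub_PD hu.per r.per) a v
  rw [e0] at e2
  rw [e2.toW_eq, ← e1, d1, ContinuousLinearMap.comp_apply, ContinuousLinearMap.inl_apply, ← map_add,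
    Prod.mk_add_mk, add_zero, zero_add]

theorem PData.nice_of_zero (h : PData J X R Y Y' x y) (hΦ : IsF J X (ref x y) Φ) {q : W 2 V × Λ}
    (e : Φ q = 0) {K : α → Pl → V} {l : β → Pl → V} (hl : TF l) {M : β → α → ℝ}
    (hb : Function.Bijective (frm (d1 Φ q) K l M)) :
    Nice J (X q.2) x y (ref x y + fn q.1) ∧ xi x y (ref x y + fn q.1) = q.1 := by
  refine ⟨hΦ.nice h.acs.1 (h.fam.fld q.2) (h.gorb q.2).1.1 (h.gorb q.2).2.1 (ref_PD h) e hl hb, ?_⟩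
  rw [xi, add_sub_cancel_left]
  exact (rep_fn q.1).toW_eq

theorem PData.tendsto_Du (h : PData J X R Y Y' x y) {N : Type} {l : Filter N} {a : N → Λ} {a₀ : Λ}
    {f : N → Pl → V} (ha : Tendsto a l (𝓝 a₀)) (hf : ∀ n, Pth x y (f n)) (hu : Pth x y u)
    (e : WC l f fun _ => u) : Tendsto (fun n => Du J (X (a n)) (f n)) l (𝓝 (Du J (X a₀) u)) ∧
      ∀ v, Tendsto (fun n => toW 1 (var J (dX X (a n) v) (f n))) l
        (𝓝 (toW 1 (var J (dX X a₀ v) u))) := by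
  obtain ⟨Φ, hΦ⟩ := h.exists_F
  have t : Tendsto (fun n => (xi x y (f n), a n)) l (𝓝 (xi x y u, a₀)) :=
    (tendsto_iff_dist_tendsto_zero.2 ((h.wc_iff hf fun _ => hu).1 e)).prodMk_nhds ha
  constructor
  · have := (hΦ.continuous_d1.tendsto _).comp t
    simpa only [Function.comp_def, fun n => (h.fderiv_xi hΦ (hf n) (a n)).1,
      (h.fderiv_xi hΦ hu a₀).1] using this
  · intro v
    have c : Continuous fun z => fderiv ℝ Φ z (0, v) :=
      (hΦ.1.continuous_fderiv (by simp)).clm_apply continuous_const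
    have := (c.tendsto _).comp t
    simpa only [Function.comp_def, fun n => (h.fderiv_xi hΦ (hf n) (a n)).2,
      (h.fderiv_xi hΦ hu a₀).2, map_zero, zero_add] using this

theorem PData.var_tendsto (h : PData J X R Y Y' x y) {N : Type} {l : Filter N} {a : N → Λ} {a₀ : Λ}
    {f : N → Pl → V} (ha : Tendsto a l (𝓝 a₀)) (hf : ∀ n, ContDiff ℝ ∞ (f n)) (hu : Pth x y u)
    {k : ℕ} (e : ∀ ε > 0, ∀ᶠ n in l, Cn k (f n - u) univ ε) (v : Λ) :
    Tendsto (fun n => nrm k (var J (dX X (a n) v) (f n) - var J (dX X a₀ v) u) univ) l (𝓝 0) := by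
  obtain ⟨hx, hy, px, py⟩ := h.loops
  obtain ⟨δ, hδ, z⟩ := var_zero_PD h
  obtain ⟨T, t1, t2⟩ := hu.cn hx hy px py 0 (half_pos hδ)
  obtain ⟨G, ρ, g1, g2, -, g4⟩ := var_ctl_PD h.acs.1 h.fam v
  refine supp_PD (T := max R T) (fun ε hε => ?_) ?_
  · simp only [g4]
    exact comp_PD g1 g2 ha hf hu.bdd (fun η hη => (e η hη).mono fun n hn =>
      hn.mono le_rfl (subset_univ _) le_rfl) ε hε
  · filter_upwards [e _ (half_pos hδ)] with n hn p hp
    have b : ‖f n p - u p‖ ≤ δ / 2 := hn.le (mem_univ p.1)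
    rw [Pi.sub_apply, z (a n) v (f n) p, z a₀ v u p, sub_zero]
    · rcases le_abs'.1 hp with hp | hp
      · exact Or.inl ⟨hp.trans (neg_le_neg (le_max_left _ _)),
          (t1 p (hp.trans (neg_le_neg (le_max_right _ _)))).trans (half_le_self hδ.le)⟩
      · exact Or.inr ⟨(le_max_left _ _).trans hp,
          (t2 p ((le_max_right _ _).trans hp)).trans (half_le_self hδ.le)⟩
    · rcases le_abs'.1 hp with hp | hp
      · refine Or.inl ⟨hp.trans (neg_le_neg (le_max_left _ _)), ?_⟩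
        have c : ‖u p - x p.2‖ ≤ δ / 2 := t1 p (hp.trans (neg_le_neg (le_max_right _ _)))
        linarith [norm_sub_le_norm_sub_add_norm_sub (f n p) (u p) (x p.2)]
      · refine Or.inr ⟨(le_max_left _ _).trans hp, ?_⟩
        have c : ‖u p - y p.2‖ ≤ δ / 2 := t2 p ((le_max_right _ _).trans hp)
        linarith [norm_sub_le_norm_sub_add_norm_sub (f n p) (u p) (y p.2)]

theorem var_tendsto_loc (hJ : SP J) (h : Fam X R) {v : Λ}
    (hv : ∀ (a : Λ) (p : Pl) (z : V), R ≤ |p.1| → dX X a v p z = 0) {N : Type} {l : Filter N}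
    {a : N → Λ} {a₀ : Λ} {f : N → Pl → V} (ha : Tendsto a l (𝓝 a₀))
    (hf : ∀ n, ContDiff ℝ ∞ (f n) ∧ Per (f n)) (hu : Bdd u) (pu : Per u) (e : LocC l f u) :
    Tendsto (fun n => toW 1 (var J (dX X (a n) v) (f n)) - toW 1 (var J (dX X a₀ v) u)) l (𝓝 0) := by
  have z : ∀ (b : Λ) (w : Pl → V) (p : Pl), R ≤ |p.1| → var J (dX X b v) w p = 0 :=
    fun b w p hp => by simp [var, hv b p _ hp]
  have m : ∀ (b : Λ) {w : Pl → V}, ContDiff ℝ ∞ w → Per w → var J (dX X b v) w ∈ Dsub V :=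
    fun b w hw pw => ⟨(var_smooth_PD hJ h b v hw).1, (var_smooth_PD hJ h b v hw).2 pw, R, z b w⟩
  have m' : ∀ n, var J (dX X (a n) v) (f n) - var J (dX X a₀ v) u ∈ Dsub V := fun n =>
    sub_mem (m _ (hf n).1 (hf n).2) (m _ hu.1 pu)
  have e1 : ∀ n, toW 1 (var J (dX X (a n) v) (f n)) - toW 1 (var J (dX X a₀ v) u) =
      toW 1 (var J (dX X (a n) v) (f n) - var J (dX X a₀ v) u) := fun n =>
    ((rep_toW_of_mem 1 (m _ (hf n).1 (hf n).2)).sub (rep_toW_of_mem 1 (m _ hu.1 pu))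
      (m _ (hf n).1 (hf n).2).1.continuous (m _ hu.1 pu).1.continuous).toW_eq.symm
  simp only [e1]
  refine tendsto_toW one_le_two (fun n => (m' n).1) (fun n => (m' n).2.1)
    (supp_PD (T := R) (fun ε hε => ?_) (Eventually.of_forall fun n p hp => ?_))
  · obtain ⟨G, ρ, g1, g2, -, g4⟩ := var_ctl_PD hJ h v
    simp only [g4]
    exact comp_PD g1 g2 ha (fun n => (hf n).1) hu (e 1 R) ε hε
  · rw [Pi.sub_apply, z _ _ p hp, z _ _ p hp, sub_zero]

/-- Solutions that are `W²`-close are `C¹`-close when they are uniformly `C¹`-bounded. -/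
theorem PData.cn_of_wc (h : PData J X R Y Y' x y) {N : Type} {l : Filter N} {a : N → Λ} {a₀ : Λ}
    {f : N → Pl → V} (ha : Tendsto a l (𝓝 a₀)) {B : ℝ}
    (hf : ∀ᶠ n in l, Nice J (X (a n)) x y (f n) ∧ Cn 1 (f n) univ B) (hu : Pth x y u)
    (e : WC l f fun _ => u) (k : ℕ) {ε : ℝ} (hε : 0 < ε) : ∀ᶠ n in l, Cn k (f n - u) univ ε := by
  obtain ⟨𝕏, ρ, h1, h2, -, -, -, h3⟩ := h.fam.ctl
  obtain ⟨A, -, hA⟩ := h2.cn (k + 1 + 3)
  obtain ⟨A', H⟩ := cn_of_c1 h.acs h1 (k + 1) (max B (max (‖a₀‖ + 1) A))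
  obtain ⟨A'', -, hA''⟩ := hu.bdd.cn (k + 1)
  obtain ⟨δ, hδ, H'⟩ := cn_interp (F := V) k (A' + A'') hε
  obtain ⟨c, hc, S⟩ := sob (U := V)
  have hη : 0 < δ / c := div_pos hδ hc
  filter_upwards [hf, ha.norm.eventually (ge_mem_nhds (lt_add_one ‖a₀‖)),
    ENNReal.tendsto_nhds_zero.1 e (ENNReal.ofReal ((δ / c) ^ 2))
      (ENNReal.ofReal_pos.2 (pow_pos hη 2))] with n hn an wn
  have s : ContDiff ℝ ∞ (f n - u) := hn.1.bdd.1.sub hu.bdd.1
  refine H' _ _ s (Cn.sub hn.1.bdd.1 hu.bdd.1 (H (fun p => (a n, ρ p.1)) (f n)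
    (contDiff_const.prodMk h2.1) hn.1.bdd.1 (h3 (a n) ▸ hn.1.eq)
    (hn.2.up_JetC (le_max_left _ _)) (Cn.prod contDiff_const h2.1
      ((cn_const _ _ _).up_JetC (le_max_of_le_right (le_max_of_le_left an)))
      (hA.up_JetC (le_max_of_le_right (le_max_right _ _))))) hA'') fun p _ => ?_
  have d := (h.nrm_le_iff hn.1.pth hu hη.le).1 wn
  rw [dist_eq_norm, le_div_iff₀' hc] at d
  rw [← (h.nrm_xi hn.1.pth hu).1.eq_fn s.continuous (per_sub_PD hn.1.per hu.per)]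
  exact (S _ p p).1.trans d

/-- A solution with an invertible frame along the family is isolated in its slice. -/
theorem PData.isolated {X : (α → ℝ) → Pl → V → V} [DecidableEq α] (h : PData J X R Y Y' x y)
    {a₀ : α → ℝ} (hu : Nice J (X a₀) x y u) {l : β → Pl → V} (hl : TF l) {M : β → α → ℝ}
    (hb : Function.Bijective
      (frm (Du J (X a₀) u) (fun i => var J (dX X a₀ (Pi.single i 1)) u) l M)) :
    ∃ ε > 0, ∀ a u', Nice J (X a) x y u' → nrm 2 (u' - u) univ ≤ ENNReal.ofReal (ε ^ 2) →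
      ‖a - a₀‖ ≤ ε → (∀ i, pair Ω0 (u' - u) (l i) + ∑ i', M i i' * (a - a₀) i' = 0) →
        u' = u ∧ a = a₀ := by
  obtain ⟨Φ, hΦ⟩ := h.exists_F
  have F := (h.fderiv_xi hΦ hu.pth a₀).2
  have e1 : fderiv ℝ Φ (xi x y u, a₀) =
      (Du J (X a₀) u).coprod (kmap fun i => var J (dX X a₀ (Pi.single i 1)) u) := by
    refine ContinuousLinearMap.ext fun q => ?_
    have e2 : q = (q.1, 0) + ∑ i, q.2 i • ((0 : W 2 V), (Pi.single i 1 : α → ℝ)) := by
      refine Prod.ext ?_ ?_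
      · simp [Prod.fst_sum]
      · simp only [Prod.snd_add, Prod.snd_sum, Prod.smul_snd, zero_add]
        exact pi_eq_sum_univ' q.2
    have e3 : fderiv ℝ Φ (xi x y u, a₀) (q.1, 0) = Du J (X a₀) u q.1 := by
      rw [← (h.fderiv_xi hΦ hu.pth a₀).1]
      rfl
    conv_lhs => rw [e2]
    rw [map_add, map_sum, e3, ContinuousLinearMap.coprod_apply, kmap_apply]
    refine congrArg _ (Finset.sum_congr rfl fun i _ => ?_)
    rw [map_smul, F, map_zero, zero_add]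
  have D : HasFDerivAt (fun z => (Φ z, ((lmap l).coprod (mmap M)) z))
      (frm (Du J (X a₀) u) (fun i => var J (dX X a₀ (Pi.single i 1)) u) l M) (xi x y u, a₀) := by
    have := (hΦ.1.differentiable (by simp) (xi x y u, a₀)).hasFDerivAt
    rw [e1] at this
    exact this.prodMk ((lmap l).coprod (mmap M)).hasFDerivAt
  obtain ⟨ε, hε, H⟩ := Metric.eventually_nhds_iff.1 (eventually_eq_of_bijective D hb)
  refine ⟨ε / 2, half_pos hε, fun a u' hu' n1 n2 n3 => ?_⟩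
  have d := (h.nrm_le_iff hu'.pth hu.pth (half_pos hε).le).1 n1
  have e := H (y := (xi x y u', a)) (by
    rw [Prod.dist_eq, max_lt_iff]
    exact ⟨d.trans_lt (half_lt_self hε), (dist_eq_norm a a₀).trans_lt
      (n2.trans_lt (half_lt_self hε))⟩) (Prod.ext (((h.zero_iff hΦ hu'.pth a).2 hu').trans
        ((h.zero_iff hΦ hu.pth a₀).2 hu).symm) (by
      refine sub_eq_zero.1 ?_
      rw [← map_sub, Prod.mk_sub_mk, ContinuousLinearMap.coprod_apply]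
      funext i
      rw [Pi.add_apply, lmap_apply, mmap_apply, (h.nrm_xi hu'.pth hu.pth).1.prW (hl i)]
      exact n3 i))
  refine ⟨?_, congrArg Prod.snd e⟩
  rw [← (h.rep_xi hu'.pth).2, ← (h.rep_xi hu.pth).2]
  exact congrArg (fun ξ => ref x y + fn ξ) (congrArg Prod.fst e)

end

end Pool.Agent.P.MP_de3acd_gt.FH
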