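import Pool.Agent.P.MP_de3acd_gt.FH.BLg
import Pool.Agent.P.MP_de3acd_gt.FH.PD

/-! Broken limits under index and action constraints. -/

open Set Filter Topology MeasureTheory
open scoped ContDiff NNReal ENNReal RealInnerProductSpace

namespace Pool.Agent.P.MP_de3acd_gt.FH

noncomputable section

variable {V : Type} [NormedAddCommGroup V] [InnerProductSpace ℝ V] [Sym V]
variable {Λ : Type} [NormedAddCommGroup Λ] [NormedSpace ℝ Λ] [FiniteDimensional ℝ Λ]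

variable {J : ℝ → V → V →L[ℝ] V} {x y : ℝ → V} {u : ℕ → Pl → V} {B R c : ℝ} {d : ℕ → ℤ}

theorem tele_BL {k : ℕ} (α : Fin (k + 1) → ℝ) :
    ∑ j : Fin k, (α j.castSucc - α j.succ) = α 0 - α (Fin.last k) := by
  have h1 := Fin.sum_univ_castSucc α
  have h2 := Fin.sum_univ_succ α
  rw [Finset.sum_sub_distrib]
  linarith

theorem two_BL {ι M : Type} [Fintype ι] [AddCommMonoid M] [PartialOrder M] [IsOrderedAddMonoid M]
    (γ : ι → M) {i j : ι} (hij : i ≠ j) (h : ∀ l, l ≠ i → l ≠ j → 0 ≤ γ l) :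
    γ i + γ j ≤ ∑ l, γ l := by
  classical
  rw [← Finset.sum_pair hij]
  refine Finset.sum_le_sum_of_subset_of_nonneg (Finset.subset_univ _) fun l _ hl => ?_
  simp only [Finset.mem_insert, Finset.mem_singleton, not_or] at hl
  exact h l hl.1 hl.2

theorem three_BL {ι M : Type} [Fintype ι] [AddCommMonoid M] [PartialOrder M]
    [IsOrderedAddMonoid M] (γ : ι → M) {i j m : ι} (hij : i ≠ j) (hi : m ≠ i) (hj : m ≠ j)
    (h : ∀ l, l ≠ i → l ≠ j → 0 ≤ γ l) : γ m + (γ i + γ j) ≤ ∑ l, γ l := by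
  classical
  rw [← Finset.sum_pair hij, ← Finset.sum_insert (by simp [hi, hj])]
  refine Finset.sum_le_sum_of_subset_of_nonneg (Finset.subset_univ _) fun l _ hl => ?_
  simp only [Finset.mem_insert, Finset.mem_singleton, not_or] at hl
  exact h l hl.2.1 hl.2.2

theorem one_BL {ι : Type} [Fintype ι] (γ : ι → ℤ) {i : ι} (h : ∀ j, j = i) : ∑ j, γ j = γ i :=
  Finset.sum_eq_single i (fun j _ hj => absurd (h j) hj) fun hi => absurd (Finset.mem_univ i) hi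

omit [Sym V] in
theorem free_BL {Y : ℝ → V → V} {A : (ℝ → V) → ℝ} (dec : Dec J Y A) {X : Pl → V → V}
    {g : Pl → V} {γ : ℝ} {n : ℤ} (e : X = sta Y) (hx : Orb 1 Y x) (hy : Orb 1 Y y)
    (eγ : γ = A x - A y) (hg : Nice J X x y g) (h0 : ds g ≠ 0) (hn : HasIdx (Du J X g) n) :
    0 < γ ∧ (∀ b, Lo J Y A b → γ ≤ b → 1 ≤ n) ∧ (RegA J Y → Function.Surjective (Du J X g)) := by
  subst e eγ
  exact ⟨sub_pos.2 (dec x y g hx hy hg h0), fun b lo hb => lo x y g n hx hy hg h0 hb hn,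
    fun hr => hr x y g hx hy hg⟩

theorem tsl0_BL {α : Type} {s : ℝ} (h : s = 0) (f : Pl → α) :
    tsl (s, 0) f = f ∧ tsl (-s, 0) f = f := by
  subst h
  rw [neg_zero]
  exact ⟨tsl_zero f, tsl_zero f⟩

theorem pick_BL {v : Pl → V} (h : Pth x y v) (hx : ContDiff ℝ ∞ x) (hy : ContDiff ℝ ∞ y)
    (px : ∀ t, x (t + 1) = x t) (py : ∀ t, y (t + 1) = y t) {δ : ℝ} (hδ : 0 < δ)
    (e : δ ≤ ‖x 0 - y 0‖) : ∃ s : ℝ, ‖v (s, 0) - x 0‖ = δ / 2 := by
  obtain ⟨S, h1, h2⟩ := h.cn hx hy px py 0 (half_pos hδ)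
  have c : Continuous fun s : ℝ => ‖v (s, 0) - x 0‖ :=
    ((h.bdd.1.continuous.comp (continuous_id.prodMk continuous_const)).sub continuous_const).norm
  have e1 : ‖v (-S, 0) - x 0‖ ≤ δ / 2 := h1 (-S, 0) (mem_Iic.2 le_rfl)
  have e2 : ‖v (S, 0) - y 0‖ ≤ δ / 2 := h2 (S, 0) (mem_Ici.2 le_rfl)
  have e3 := norm_sub_le_norm_sub_add_norm_sub (x 0) (v (S, 0)) (y 0)
  rw [norm_sub_rev (x 0) (v (S, 0))] at e3
  exact intermediate_value_univ (-S) S c ⟨e1, by linarith⟩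

theorem bl1 {X : Λ → Pl → V → V} {Y Y' : ℝ → V → V} {A A' : (ℝ → V) → ℝ} (h : FData J X R Y Y')
    {a₀ : Λ} (e : frz (X a₀) (-R) = Y) (e' : frz (X a₀) R = Y') (hx : Orb 1 Y x) (hy : Orb 1 Y' y)
    (dec : Dec J Y A) (dec' : Dec J Y' A') (low : Low J (X a₀) Y Y' A A' c)
    (lo : Lo J Y A (A x - A' y + c)) (lo' : Lo J Y' A' (A x - A' y + c)) {m : ℤ}
    (hm : ∀ x' y' g d, Orb 1 Y x' → Orb 1 Y' y' → Nice J (X a₀) x' y' g →
      A x' - A' y' < A x - A' y → HasIdx (Du J (X a₀) g) d → m ≤ d)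
    {a : ℕ → Λ} (ha : Tendsto a atTop (𝓝 a₀)) (hu : ∀ n, Nice J (X (a n)) x y (u n) ∧ Bnd B (u n) ∧
      HasIdx (Du J (X (a n)) (u n)) (d n) ∧ d n ≤ m + 1) : ∃ φ : ℕ → ℕ, StrictMono φ ∧
    ((∃ g, Nice J (X a₀) x y g ∧ (WC atTop (fun n => u (φ n)) fun _ => g) ∧
        ∀ᶠ n in atTop, HasIdx (Du J (X a₀) g) (d (φ n))) ∨
      (∀ᶠ n in atTop, d (φ n) = m + 1) ∧ ∃ (x' : ℝ → V) (v g : Pl → V) (ϱ : ℕ → ℝ),
        Tendsto ϱ atTop atTop ∧ ds v ≠ 0 ∧ HasIdx (Du J (X a₀) g) m ∧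
          LocC atTop (fun n => u (φ n)) g ∧
          (∀ (K : Pl → V) (K' : ℕ → Pl → V), K ∈ Dsub V → RegA J Y → RegA J Y' →
            Function.Surjective ((Du J (X a₀) g).coprod (kmap ![K])) →
            Tendsto (fun n => toW 1 (K' n) - toW 1 K) atTop (𝓝 0) → ∀ᶠ n in atTop,
              Function.Surjective ((Du J (X (a (φ n))) (u (φ n))).coprod (kmap ![K' n]))) ∧
          ((Orb 1 Y x' ∧ Nice J (sta Y) x x' v ∧ HasIdx (Du J (sta Y) v) 1 ∧ Nice J (X a₀) x' y g ∧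
              WC atTop (fun n => u (φ n)) fun n => pre (ϱ n) 0 v g x') ∨
            (Orb 1 Y' x' ∧ Nice J (sta Y') x' y v ∧ HasIdx (Du J (sta Y') v) 1 ∧
              Nice J (X a₀) x x' g ∧ WC atTop (fun n => u (φ n)) fun n => pre 0 (ϱ n) g v x'))) := by
  obtain ⟨φ, k, σ, i, z, g, hφ, hσ, hz, hg, b⟩ :=
    blgen h e e' hx hy ha fun n => ⟨(hu n).1, (hu n).2.1⟩
  have ex : ∀ j, ∃ n, HasIdx (Du J (pc Y Y' (X a₀) i j) (g j)) n := fun j =>
    (b.ell j).exists_hasIdx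
  choose dd hdd using ex
  have hd : ∀ᶠ n in atTop, d (φ n) = ∑ j, dd j :=
    (b.idx hdd).mono fun n hn => (hu (φ n)).2.2.1.unique hn
  have pi : pc Y Y' (X a₀) i i = X a₀ := by simp [pc]
  have hi := hdd i
  have ni := b.nice i
  rw [pi] at hi ni
  refine ⟨φ, hφ, ?_⟩
  by_cases h1 : ∀ j, j = i
  · obtain ⟨n1, w1⟩ := b.wc_one i h1
    rw [pi] at n1
    simp only [fun n => (tsl0_BL (hσ n) (g i)).2] at w1
    exact Or.inl ⟨g i, n1, w1, hd.mono fun n hn => by rwa [hn, one_BL dd h1]⟩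
  obtain ⟨j, hj⟩ := not_forall.1 h1
  obtain ⟨α, hα⟩ : ∃ α : Fin (k + 1) → ℝ, ∀ l, (l ≤ i.castSucc → α l = A (z l)) ∧
      (i.castSucc < l → α l = A' (z l)) :=
    ⟨fun l => if l ≤ i.castSucc then A (z l) else A' (z l), fun l =>
      ⟨fun hl => if_pos hl, fun hl => if_neg hl.not_ge⟩⟩
  have T := tele_BL α
  rw [(hα 0).1 (Fin.zero_le _), (hα _).2 (Fin.castSucc_lt_last i), b.zero, b.last] at T
  have pl : ∀ l, l < i → pc Y Y' (X a₀) i l = sta Y := fun l hl => if_pos hl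
  have pr : ∀ l, i < l → pc Y Y' (X a₀) i l = sta Y' := fun l hl =>
    (if_neg hl.not_gt).trans (if_neg hl.ne')
  have P : ∀ l, l ≠ i → 0 < α l.castSucc - α l.succ ∧
      (α l.castSucc - α l.succ ≤ A x - A' y + c → 1 ≤ dd l) ∧ (RegA J Y → RegA J Y' →
        Function.Surjective (Du J (pc Y Y' (X a₀) i l) (g l))) := fun l hl => by
    rcases hl.lt_or_gt with h2 | h2
    · have c1 : l.castSucc ≤ i.castSucc := Fin.castSucc_le_castSucc_iff.2 h2.le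
      have c2 : l.succ ≤ i.castSucc := Fin.succ_le_castSucc_iff.2 h2
      obtain ⟨q1, q2, q3⟩ := free_BL dec (pl l h2) ((hz _).1 c1) ((hz _).1 c2)
        (congrArg₂ (· - ·) ((hα _).1 c1) ((hα _).1 c2)) (b.nice l) (hg l hl) (hdd l)
      exact ⟨q1, q2 _ lo, fun r _ => q3 r⟩
    · have c1 : i.castSucc < l.castSucc := Fin.castSucc_lt_castSucc_iff.2 h2
      have c2 : i.castSucc < l.succ := c1.trans Fin.castSucc_lt_succ
      obtain ⟨q1, q2, q3⟩ := free_BL dec' (pr l h2) ((hz _).2 c1) ((hz _).2 c2)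
        (congrArg₂ (· - ·) ((hα _).2 c1) ((hα _).2 c2)) (b.nice l) (hg l hl) (hdd l)
      exact ⟨q1, q2 _ lo', fun _ r => q3 r⟩
  have o1 := (hz _).1 (le_refl i.castSucc)
  have o2 := (hz i.succ).2 Fin.castSucc_lt_succ
  have l1 := low _ _ _ o1 o2 ni
  have a1 := (hα _).1 (le_refl i.castSucc)
  have a2 := (hα i.succ).2 Fin.castSucc_lt_succ
  have G : ∀ l, l ≠ i → α i.castSucc - α i.succ + (α l.castSucc - α l.succ) ≤ A x - A' y :=
    fun l hl => (two_BL (fun l : Fin k => α l.castSucc - α l.succ) hl.symm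
      fun l' h' _ => (P l' h').1.le).trans T.le
  have D : ∀ l, l ≠ i → 1 ≤ dd l := fun l hl => (P l hl).2.1 (by linarith [G l hl])
  have D0 : ∀ l, l ≠ i → l ≠ j → 0 ≤ dd l := fun l hl _ => zero_le_one.trans (D l hl)
  have Dm : m ≤ dd i := hm _ _ _ _ o1 o2 ni (by linarith [G j hj, (P j hj).1]) hi
  have Ds : ∑ l, dd l ≤ m + 1 := by
    obtain ⟨n, hn⟩ := hd.exists
    exact hn ▸ (hu (φ n)).2.2.2
  have D2 := two_BL dd (Ne.symm hj) D0
  have Dj := D j hj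
  have only : ∀ l, l = i ∨ l = j := fun l => by
    by_contra hl
    have := three_BL dd (Ne.symm hj) (not_or.1 hl).1 (not_or.1 hl).2 D0
    have := D l (not_or.1 hl).1
    omega
  have hj' := hdd j
  rw [show dd i = m by omega] at hi
  rw [show dd j = 1 by omega] at hj'
  have lc := b.locC i
  simp only [fun n => (tsl0_BL (hσ n) (u (φ n))).1] at lc
  have on : ∀ (K : Pl → V) (K' : ℕ → Pl → V), K ∈ Dsub V → RegA J Y → RegA J Y' →
      Function.Surjective ((Du J (X a₀) (g i)).coprod (kmap ![K])) →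
      Tendsto (fun n => toW 1 (K' n) - toW 1 K) atTop (𝓝 0) → ∀ᶠ n in atTop,
        Function.Surjective ((Du J (X (a (φ n))) (u (φ n))).coprod (kmap ![K' n])) := by
    intro K K' hK r r' hs ht
    refine b.onto i (K := ![K]) (Fin.forall_fin_one.2 hK) (by rwa [pi])
      (fun l hl => (P l hl).2.2 r r') (K' := fun n => ![K' n]) (Fin.forall_fin_one.2 ?_)
    simp only [fun n => (tsl0_BL (hσ n) ((![K] : Fin 1 → Pl → V) 0)).2]
    exact ht
  refine Or.inr ⟨hd.mono fun n hn => by omega, ?_⟩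
  rcases Ne.lt_or_gt hj with h2 | h2
  · obtain ⟨n1, n2, t, w⟩ := b.wc_two j i h2 fun l => (only l).symm
    rw [pl j h2] at n1 hj'
    rw [pi] at n2
    simp only [hσ, zero_sub] at t w
    exact ⟨_, g j, g i, _, t, hg j hj, hi, lc, on,
      Or.inl ⟨(hz _).1 (Fin.succ_le_castSucc_iff.2 h2), n1, hj', n2, w⟩⟩
  · obtain ⟨n1, n2, t, w⟩ := b.wc_two i j h2 only
    rw [pr j h2] at n2 hj'
    rw [pi] at n1
    simp only [hσ, sub_zero, neg_zero] at t w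
    exact ⟨_, g j, g i, _, t, hg j hj, hi, lc, on, Or.inr ⟨o2, n2, hj', n1, w⟩⟩

theorem bl0 {Y : Λ → ℝ → V → V} {a₀ : Λ} {A : (ℝ → V) → ℝ}
    (h : FData J (fun a => sta (Y a)) 0 (Y a₀) (Y a₀)) (hx : Orb 1 (Y a₀) x) (hy : Orb 1 (Y a₀) y)
    (hxy : x ≠ y) (dec : Dec J (Y a₀) A) (lo : ∀ b < A x - A y, Lo J (Y a₀) A b) {a : ℕ → Λ}
    (ha : Tendsto a atTop (𝓝 a₀)) (hu : ∀ n, Nice J (sta (Y (a n))) x y (u n) ∧ Bnd B (u n) ∧
      HasIdx (Du J (sta (Y (a n))) (u n)) (d n) ∧ d n ≤ 1) :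
    ∃ (φ : ℕ → ℕ) (s : ℕ → ℝ) (g : Pl → V), StrictMono φ ∧ Nice J (sta (Y a₀)) x y g ∧
      (WC atTop (fun n => tsl (s n, 0) (u (φ n))) fun _ => g) ∧
        ∀ᶠ n in atTop, HasIdx (Du J (sta (Y a₀)) g) (d (φ n)) := by
  have sx := Orb.contDiff h.spl.1 hx
  have sy := Orb.contDiff h.spl.1 hy
  obtain ⟨δ, hδ, sep⟩ := NdB.sep h.spl (A := B) fun x hx _ => h.ndl x hx
  obtain ⟨bx, by'⟩ := (hu 0).1.pth.inB sx sy hx.2 hy.2 fun p => (hu 0).2.1.1.le (mem_univ _)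
  have far : δ ≤ ‖x 0 - y 0‖ := le_of_not_ge fun e => hxy (sep x y hx bx hy by' 0 e)
  choose s hs using fun n => pick_BL (hu n).1.pth sx sy hx.2 hy.2 hδ far
  obtain ⟨φ, k, σ, i, z, g, hφ, hσ, hz, hg, b⟩ :=
    blgen (u := fun n => tsl (s n, 0) (u n)) (A := B) h rfl rfl hx hy ha fun n =>
      ⟨(hu n).1.tsl sx sy _, (cn_tsl (I := univ) (s n, 0)).2 (hu n).2.1.1, by
        rw [ds_tsl]
        exact (nrm_tsl_Pth 0 (s n) _ univ).trans_le (hu n).2.1.2⟩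
  have pa : ∀ j, pc (Y a₀) (Y a₀) (sta (Y a₀)) i j = sta (Y a₀) := fun j => by simp [pc]
  have oz : ∀ j, Orb 1 (Y a₀) (z j) := fun j => (le_or_gt j i.castSucc).elim (hz j).1 (hz j).2
  have ex : ∀ j, ∃ n, HasIdx (Du J (pc (Y a₀) (Y a₀) (sta (Y a₀)) i j) (g j)) n := fun j =>
    (b.ell j).exists_hasIdx
  choose dd hdd using ex
  have hd : ∀ᶠ n in atTop, d (φ n) = ∑ j, dd j := (b.idx hdd).mono fun n hn => by
    refine (hu (φ n)).2.2.1.unique ?_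
    rw [Du, cJ_tsl, ← tsl_sta (Y (a (φ n))) (s (φ n)), cS_tsl] at hn
    exact (hasIdx_tsl (coef_fld h.acs (h.fam.fld _) (hu _).1.bdd (hu _).1.per) _).1 hn
  have gi : ds (g i) ≠ 0 := fun e => by
    have lc := (b.locC i).tendsto (0, 0)
    simp only [fun n => (tsl0_BL (hσ n) (tsl (s (φ n), 0) (u (φ n)))).1] at lc
    have l2 := (lc.sub_const (x 0)).norm
    have e2 : ∀ n, ‖tsl (s (φ n), 0) (u (φ n)) (0, 0) - x 0‖ = δ / 2 := fun n => by
      rw [← hs (φ n), tsl, Prod.mk_add_mk, zero_add, zero_add]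
    simp only [e2] at l2
    have e3 := tendsto_nhds_unique l2 tendsto_const_nhds
    rw [((b.nice i).pth.eq_of_ds (b.smooth _).1 (b.smooth _).1 (b.smooth _).2 (b.smooth _).2
      e).1] at e3
    have e4 : ‖z i.castSucc 0 - x 0‖ = δ / 2 := e3
    rw [sep _ x (oz _) (b.inB _) hx bx 0 (by linarith), sub_self, norm_zero] at e4
    linarith
  have P := fun j => free_BL dec (pa j) (oz _) (oz _) rfl (b.nice j)
    (if hj : j = i then hj ▸ gi else hg j hj) (hdd j)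
  have T := tele_BL fun j => A (z j)
  rw [b.zero, b.last] at T
  have h1 : ∀ j, j = i := fun j => by
    by_contra hj
    have D : ∀ l l', l ≠ l' → 1 ≤ dd l := fun l l' hl => by
      have := (two_BL (fun l : Fin k => A (z l.castSucc) - A (z l.succ)) hl
        fun l _ _ => (P l).1.le).trans T.le
      exact (P l).2.1 _ (lo _ (by linarith [(P l').1])) le_rfl
    have := two_BL dd hj fun l hl _ => zero_le_one.trans (D l j hl)
    obtain ⟨n, hn⟩ := hd.exists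
    have := (hu (φ n)).2.2.2
    have := D j i hj
    have := D i j (Ne.symm hj)
    omega
  obtain ⟨n1, w1⟩ := b.wc_one i h1
  have hi := hdd i
  rw [pa] at n1 hi
  simp only [fun n => (tsl0_BL (hσ n) (g i)).2] at w1
  exact ⟨φ, fun n => s (φ n), g i, hφ, n1, w1, hd.mono fun n hn => by rwa [hn, one_BL dd h1]⟩

theorem bl2 {X₁ X₂ : Pl → V → V} {Y₀ Y Y₂ : ℝ → V → V} {A₀ A A₂ : (ℝ → V) → ℝ}
    (h : NData J X₁ X₂ R Y₀ Y Y₂ A₀ A A₂ c) (hx : Orb 1 Y₀ x) (hy : Orb 1 Y₂ y)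
    (hg : A₀ x - A₂ y ≤ 0) {r : ℕ → ℝ} (hr : Tendsto r atTop atTop)
    (hu : ∀ n, Nice J (nk X₁ X₂ Y (r n) (r n)) x y (u n) ∧
      HasIdx (Du J (nk X₁ X₂ Y (r n) (r n)) (u n)) (d n) ∧ d n ≤ 0) :
    ∃ (φ : ℕ → ℕ) (x' : ℝ → V) (g₁ g₂ : Pl → V), StrictMono φ ∧ Orb 1 Y x' ∧ Nice J X₁ x x' g₁ ∧
      Nice J X₂ x' y g₂ ∧ Function.Bijective (Du J X₁ g₁) ∧ Function.Bijective (Du J X₂ g₂) ∧
        WC atTop (fun n => u (φ n)) fun n => pre (r (φ n)) (r (φ n)) g₁ g₂ x' := by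
  obtain ⟨B, hB⟩ := h.apb x y hx hy
  obtain ⟨N, hN⟩ := eventually_atTop.1 (hr.eventually hB)
  obtain ⟨φ, k, σ, i₁, i₂, X', z, g, hφ, h12, hσ, x1, x2, hX, hz, hg', b⟩ :=
    blneck (u := fun n => u (n + N)) (r := fun n => r (n + N)) (A := B) h.acs h.fld₁ h.fld₂ h.e₀
      h.e₁ h.e₁' h.e₂ h.nd₀ h.nd h.nd₂ hx hy (hr.comp (tendsto_add_atTop_nat N)) fun n =>
        ⟨(hu _).1, hN _ (Nat.le_add_left N n) _ (hu _).1⟩
  have ex : ∀ j, ∃ n, HasIdx (Du J (X' j) (g j)) n := fun j => (b.ell j).exists_hasIdx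
  choose dd hdd using ex
  have Ds : ∑ l, dd l ≤ 0 := by
    obtain ⟨n, hn⟩ := (b.idx hdd).exists
    exact (hu (φ n + N)).2.1.unique hn ▸ (hu _).2.2
  have c12 : i₁.castSucc < i₂.castSucc := Fin.castSucc_lt_castSucc_iff.2 h12
  obtain ⟨α, hα⟩ : ∃ α : Fin (k + 1) → ℝ, ∀ l, (l ≤ i₁.castSucc → α l = A₀ (z l)) ∧
      (i₁.castSucc < l → l ≤ i₂.castSucc → α l = A (z l)) ∧ (i₂.castSucc < l → α l = A₂ (z l)) :=
    ⟨fun l => if l ≤ i₁.castSucc then A₀ (z l) else if l ≤ i₂.castSucc then A (z l) else A₂ (z l),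
      fun l => ⟨fun hl => if_pos hl, fun hl hl' => (if_neg hl.not_ge).trans (if_pos hl'),
        fun hl => (if_neg (c12.trans hl).not_ge).trans (if_neg hl.not_ge)⟩⟩
  have T := tele_BL α
  rw [(hα 0).1 (Fin.zero_le _), (hα _).2.2 (Fin.castSucc_lt_last i₂), b.zero, b.last] at T
  have P : ∀ l, l ≠ i₁ → l ≠ i₂ → 0 < α l.castSucc - α l.succ ∧
      (α l.castSucc - α l.succ ≤ 2 * c → 1 ≤ dd l) := fun l hl hl' => by
    rcases hl.lt_or_gt with h2 | h2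
    · have c1 : l.castSucc ≤ i₁.castSucc := Fin.castSucc_le_castSucc_iff.2 h2.le
      have c2 : l.succ ≤ i₁.castSucc := Fin.succ_le_castSucc_iff.2 h2
      obtain ⟨q1, q2, -⟩ := free_BL h.dec₀ ((hX l).1 h2) ((hz _).1 c1) ((hz _).1 c2)
        (congrArg₂ (· - ·) ((hα _).1 c1) ((hα _).1 c2)) (b.nice l) (hg' l hl hl') (hdd l)
      exact ⟨q1, q2 _ h.lo₀⟩
    rcases hl'.lt_or_gt with h3 | h3
    · have c1 : i₁.castSucc < l.castSucc := Fin.castSucc_lt_castSucc_iff.2 h2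
      have c2 : i₁.castSucc < l.succ := c1.trans Fin.castSucc_lt_succ
      have c3 : l.castSucc ≤ i₂.castSucc := Fin.castSucc_le_castSucc_iff.2 h3.le
      have c4 : l.succ ≤ i₂.castSucc := Fin.succ_le_castSucc_iff.2 h3
      obtain ⟨q1, q2, -⟩ := free_BL h.dec ((hX l).2.1 h2 h3) ((hz _).2.1 c1 c3) ((hz _).2.1 c2 c4)
        (congrArg₂ (· - ·) ((hα _).2.1 c1 c3) ((hα _).2.1 c2 c4)) (b.nice l) (hg' l hl hl') (hdd l)
      exact ⟨q1, q2 _ h.lo⟩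
    · have c1 : i₂.castSucc < l.castSucc := Fin.castSucc_lt_castSucc_iff.2 h3
      have c2 : i₂.castSucc < l.succ := c1.trans Fin.castSucc_lt_succ
      obtain ⟨q1, q2, -⟩ := free_BL h.dec₂ ((hX l).2.2 h3) ((hz _).2.2 c1) ((hz _).2.2 c2)
        (congrArg₂ (· - ·) ((hα _).2.2 c1) ((hα _).2.2 c2)) (b.nice l) (hg' l hl hl') (hdd l)
      exact ⟨q1, q2 _ h.lo₂⟩
  have c3 : i₁.succ ≤ i₂.castSucc := Fin.succ_le_castSucc_iff.2 h12
  have o1 := (hz _).1 (le_refl i₁.castSucc)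
  have o2 := (hz i₁.succ).2.1 Fin.castSucc_lt_succ c3
  have o3 := (hz _).2.1 c12 le_rfl
  have o4 := (hz i₂.succ).2.2 Fin.castSucc_lt_succ
  have a1 := (hα _).1 (le_refl i₁.castSucc)
  have a2 := (hα i₁.succ).2.1 Fin.castSucc_lt_succ c3
  have a3 := (hα _).2.1 c12 le_rfl
  have a4 := (hα i₂.succ).2.2 Fin.castSucc_lt_succ
  obtain ⟨n1, n2, -, w⟩ : Nice J X₁ (z i₁.castSucc) (z i₁.succ) (g i₁) ∧
      Nice J X₂ (z i₂.castSucc) (z i₂.succ) (g i₂) ∧ True ∧ HasIdx (Du J X₁ (g i₁)) (dd i₁) ∧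
        HasIdx (Du J X₂ (g i₂)) (dd i₂) :=
    ⟨x1 ▸ b.nice i₁, x2 ▸ b.nice i₂, trivial, x1 ▸ hdd i₁, x2 ▸ hdd i₂⟩
  have l1 := h.low₁ _ _ _ o1 o2 n1
  have l2 := h.low₂ _ _ _ o3 o4 n2
  have G := (two_BL (fun l : Fin k => α l.castSucc - α l.succ) h12.ne
    fun l hl hl' => (P l hl hl').1.le).trans T.le
  have s1 := h.good₁ _ _ o1 o2 (by linarith) _ _ n1 w.1
  have s2 := h.good₂ _ _ o3 o4 (by linarith) _ _ n2 w.2
  have d1 : 0 ≤ dd i₁ := le_of_not_gt fun e => (w.1.nonneg (s1 e.le)).not_gt e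
  have d2 : 0 ≤ dd i₂ := le_of_not_gt fun e => (w.2.nonneg (s2 e.le)).not_gt e
  have D : ∀ l, l ≠ i₁ → l ≠ i₂ → 1 ≤ dd l := fun l hl hl' => by
    have := (three_BL (fun l : Fin k => α l.castSucc - α l.succ) h12.ne hl hl'
      fun l hl hl' => (P l hl hl').1.le).trans T.le
    exact (P l hl hl').2 (by linarith)
  have D0 : ∀ l, l ≠ i₁ → l ≠ i₂ → 0 ≤ dd l := fun l hl hl' => zero_le_one.trans (D l hl hl')
  have D2 := two_BL dd h12.ne D0
  have only : ∀ l, l = i₁ ∨ l = i₂ := fun l => by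
    by_contra hl
    have := three_BL dd h12.ne (not_or.1 hl).1 (not_or.1 hl).2 D0
    have := D l (not_or.1 hl).1 (not_or.1 hl).2
    omega
  obtain ⟨m1, m2, -, wc⟩ := b.wc_two i₁ i₂ h12 only
  rw [x1] at m1
  rw [x2] at m2
  simp only [fun n => (hσ n).1, fun n => (hσ n).2, neg_neg] at wc
  have e1 : dd i₁ = 0 := by omega
  have e2 : dd i₂ = 0 := by omega
  exact ⟨fun n => φ n + N, _, g i₁, g i₂, hφ.add_const N, o2, m1, m2,
    (e1 ▸ w.1).bijective_iff.1.1 (s1 e1.le), (e2 ▸ w.2).bijective_iff.1.1 (s2 e2.le), wc⟩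

end

end Pool.Agent.P.MP_de3acd_gt.FH
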