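import Pool.Agent.P.MP_de3acd_gt.FH.FinA
import Pool.Agent.P.MP_de3acd_gt.FH.BL

/-! Finiteness of the counted sets.
Sketch: IsN.isolated: exists_slice, Nice.tsl, PData.isolated with α = Fin 0 (constant family, pData_fld). exists_reps: if x = y every solution is
constant (Dec, Pth.eq_of_ds) and has index 0 (bijective_const), T = ∅. Otherwise the set of classes cls v is finite: else take v n in pairwise
different classes (Set.Infinite.natEmbedding), bl0 for the constant family (Λ = ℝ; RegA.lo), exists_isN and IsN.isolated show that two of them agree.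
Choose representatives; cls v = cls v' iff v is a translate of v' (tsl_tsl); mem_solN, IsN.sign, IsN.tsl, scnt_eq_sum or ncard_image_of_injOn.
finite_isK: r ∈ Ioo 0 1 by kr_eq_zero (coprod with toW 1 0 = 0 is not injective); an injective sequence has a subsequence with r converging; bl1 with m = -1
(HasIdx.coprod, HasIdx.nonneg), second alternative impossible; PData.isolated with α = Fin 1 and the family fun a => X (a 0) (PData.comp).
finite_solT: bl1 for the constant family with m = 0. -/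

open Set Filter Topology MeasureTheory
open scoped ContDiff NNReal ENNReal RealInnerProductSpace

namespace Pool.Agent.P.MP_de3acd_gt.FH

noncomputable section

variable {V : Type} [NormedAddCommGroup V] [InnerProductSpace ℝ V] [Sym V]

variable {J : ℝ → V → V →L[ℝ] V} {R B c : ℝ} {Y Y' : ℝ → V → V} {x y : ℝ → V} {v l : Pl → V}
  {o : ∀ a b, Op V a b → ℤˣ} {A A' : (ℝ → V) → ℝ}

theorem finite_FinN {α β : Type} {S : Set α} (f : α → β) (h : ∀ a : ℕ → α, (∀ n, a n ∈ S) →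
    ∃ φ : ℕ → ℕ, StrictMono φ ∧ ∃ b, ∀ᶠ n in atTop, f (a (φ n)) = b) : (f '' S).Finite := by
  by_contra hi
  choose a ha e using fun n => (Set.Infinite.natEmbedding _ hi n).2
  obtain ⟨φ, hφ, b, hb⟩ := h a ha
  obtain ⟨N, hN⟩ := eventually_atTop.1 hb
  have := (hN N le_rfl).trans (hN (N + 1) (Nat.le_succ N)).symm
  rw [e, e] at this
  exact (hφ (Nat.lt_succ_self N)).ne ((Set.Infinite.natEmbedding _ hi).injective (Subtype.ext this))

theorem fData_FinN {X : Pl → V → V} (hJ : ACS Ω0 J) (hX : Fld X R) (e : frz X (-R) = Y)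
    (e' : frz X R = Y') (nd : NdA Y) (nd' : NdA Y') : FData J (fun _ : ℝ => X) R Y Y' :=
  ⟨hJ, hX, e ▸ hX.sp_frz 0 (-R), e' ▸ hX.sp_frz 0 R, nd, nd',
    fun _ _ => ⟨1, one_pos, fun _ _ _ _ => by rw [e]⟩,
    fun _ _ => ⟨1, one_pos, fun _ _ _ _ => by rw [e']⟩⟩

omit [Sym V] in
theorem wc_FinN {f g : ℕ → Pl → V} (h : WC atTop f g) {ε : ℝ} (hε : 0 < ε) :
    ∀ᶠ n in atTop, nrm 2 (f n - g n) univ ≤ ENNReal.ofReal (ε ^ 2) :=
  h.eventually (eventually_le_nhds (ENNReal.ofReal_pos.2 (by positivity)))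

omit [NormedAddCommGroup V] [InnerProductSpace ℝ V] [Sym V] in
theorem cls_tsl_FinN (s : ℝ) (u : Pl → V) : cls (tsl (s, 0) u) = cls u := by
  ext w
  constructor
  · rintro ⟨t, rfl⟩
    exact ⟨t + s, by simp only [tsl_tsl, Prod.mk_add_mk, add_zero]⟩
  · rintro ⟨t, rfl⟩
    exact ⟨t - s, by simp only [tsl_tsl, Prod.mk_add_mk, add_zero, sub_add_cancel]⟩

theorem IsN.isolated (hJ : ACS Ω0 J) (hY : SP Y) (hx : GOrb Ω0 1 Y x) (hy : GOrb Ω0 1 Y y)
    (h : IsN J Y x y v l) : ∃ ε > 0, ∀ u, Nice J (sta Y) x y u →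
      nrm 2 (u - v) univ ≤ ENNReal.ofReal (ε ^ 2) → ∃ s : ℝ, v = FH.tsl (s, 0) u := by
  have P : PData J (fun _ : Fin 0 → ℝ => sta Y) 0 Y Y x y := pData_fld hJ (fld_sta hY le_rfl) hx hy
  obtain ⟨sx, sy, px, py⟩ := P.loops
  obtain ⟨-, hl, hb⟩ := (ok_lop_iff hJ (fld_sta hY le_rfl) hx hy h.nice.pth _ _ _).1 h.ok
  obtain ⟨ε, hε, iso⟩ := P.isolated (a₀ := 0) h.nice hl (M := ![![]])
    ((frm_noK _ _ _ _).2 ((frm_noK _ _ _ _).1 hb))
  obtain ⟨δ, hδ, sl⟩ := exists_slice h.nice.pth sx sy px py (hl 0) h.pos hε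
  refine ⟨δ, hδ, fun u hu e => ?_⟩
  obtain ⟨s, e1, e2⟩ := sl u hu.pth e
  exact ⟨s, (iso 0 _ (hu.tsl sx sy s) e2 (by rw [sub_self, norm_zero]; exact hε.le) fun i => by
    fin_cases i
    simpa using e1).1.symm⟩

theorem exists_reps (ho : Coh Ω0 ⊥ o) (hJ : ACS Ω0 J) (hY : SP Y) (nd : NdA Y) (reg : RegA J Y)
    (dec : Dec J Y A) (hx : Orb 1 Y x) (hy : Orb 1 Y y) (hB : ∀ u, Nice J (sta Y) x y u → Bnd B u)
    (hc : ∀ u, Cyl Ω0 1 J (sta Y) x y u → Bdd u) : ∃ T L, Reps o J Y x y T L := by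
  have gx := nd x hx
  have gy := nd y hy
  have sx := Orb.contDiff hY.1 hx
  have sy := Orb.contDiff hY.1 hy
  obtain ⟨S, hS⟩ : ∃ S : Set (Pl → V), ∀ v,
    v ∈ S ↔ Nice J (sta Y) x y v ∧ HasIdx (Du J (sta Y) v) 1 := ⟨{v | _}, fun _ => Iff.rfl⟩
  have ex : ∀ v, ∃ l, v ∈ S → IsN J Y x y v l := fun v => by
    by_cases hv : v ∈ S
    · obtain ⟨h1, h2⟩ := (hS v).1 hv
      exact (exists_isN hJ hY gx gy h1 h2 (reg x y v hx hy h1)).imp fun _ h _ => h
    · exact ⟨0, fun h => absurd h hv⟩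
  choose L hL using ex
  have fin : (cls '' S).Finite := finite_FinN _ fun a ha => by
    have hxy : x ≠ y := by
      rintro rfl
      obtain ⟨h1, h2⟩ := (hS _).1 (ha 0)
      have e : ds (a 0) = 0 := by_contra fun e => lt_irrefl _ (dec x x _ hx hx h1 e)
      rw [(h1.pth.eq_of_ds sx sx hx.2 hx.2 e).1] at h2
      exact one_ne_zero (h2.unique (hasIdx_zero_of_bijective (bijective_const hJ hY gx)))
    obtain ⟨φ, s, g, hφ, ng, wc, ig⟩ := bl0 (Y := fun _ : ℝ => Y) (a₀ := 0) (B := B)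
      (fData_FinN hJ (fld_sta hY le_rfl) rfl rfl nd nd) hx hy hxy dec
      (fun b _ => reg.lo hJ hY A b) (a := fun _ => 0) tendsto_const_nhds (u := a)
      (d := fun _ => 1) fun n =>
        ⟨((hS _).1 (ha n)).1, hB _ ((hS _).1 (ha n)).1, ((hS _).1 (ha n)).2, le_rfl⟩
    obtain ⟨ε, hε, iso⟩ := (hL g ((hS g).2 ⟨ng, ig.exists.choose_spec⟩)).isolated hJ hY gx gy
    refine ⟨φ, hφ, cls g, (wc_FinN wc hε).mono fun n hn => ?_⟩
    obtain ⟨t, ht⟩ := iso _ (((hS _).1 (ha (φ n))).1.tsl sx sy _) hn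
    rw [ht, cls_tsl_FinN, cls_tsl_FinN]
  obtain ⟨T, hT, hb⟩ := (surjOn_image cls S).exists_bijOn_subset
  have fT := hb.finite_iff_finite.2 fin
  have all : ∀ v ∈ S, ∃ v' ∈ T, ∃ s : ℝ, v = tsl (s, 0) v' := fun v hv => by
    obtain ⟨v', h1, h2⟩ := hb.surjOn (mem_image_of_mem cls hv)
    obtain ⟨s, hs⟩ : v ∈ cls v' := h2 ▸ ⟨0, tsl_zero v⟩
    exact ⟨v', h1, s, hs.symm⟩
  refine ⟨fT.toFinset, L, fun v hv => hL v (hT (fT.mem_toFinset.1 hv)), fun v h1 h2 => ?_,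
    fun v hv v' hv' s e => ?_, ?_⟩
  · simpa only [fT.mem_toFinset] using all v ((hS v).2 ⟨h1, h2⟩)
  · exact hb.injOn (fT.mem_toFinset.1 hv) (fT.mem_toFinset.1 hv') (by rw [e, cls_tsl_FinN])
  have key : ∀ σ, (cls '' SolN Ω0 ⊥ o 1 J Y x y σ).ncard =
      {v ∈ T | o 0 1 (lop 1 J (sta Y) x y v ![] ![L v] ![![]]) = σ}.ncard := fun σ => by
    rw [← (hb.injOn.mono (sep_subset _ _)).ncard_image]
    refine congrArg _ (Subset.antisymm ?_ (image_mono fun v hv =>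
      (mem_solN hJ hY gx gy hc).2 ⟨L v, hL v (hT hv.1), hv.2⟩))
    rintro _ ⟨v, hv, rfl⟩
    obtain ⟨l, h1, h2⟩ := (mem_solN hJ hY gx gy hc).1 hv
    obtain ⟨v', h3, s, rfl⟩ := all v ((hS v).2 ⟨h1.nice, (h1.props hJ hY gx gy).2.2.1⟩)
    obtain ⟨h4, h5⟩ := (hL v' (hT h3)).tsl ho hY hx hy s
    exact ⟨v', ⟨h3, by rw [← h5, IsN.sign ho hJ hY gx gy h4 h1, h2]⟩, (cls_tsl_FinN s v').symm⟩
  rw [← scnt_eq_sum fT.toFinset (fun _ => fT.mem_toFinset), nN, key, key, scnt]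

theorem HData.finite_isK {X : ℝ → Pl → V → V} (h : HData J X R Y A c) (hx : Orb 1 Y x)
    (hy : Orb 1 Y y) (hg : A x - A y ≤ 0) :
    {m : ℝ × (Pl → V) | IsK J X x y m.1 m.2}.Finite ∧ ∀ r g, IsK J X x y r g → r ∈ Ioo (0 : ℝ) 1 := by
  have F := h.kData.fData
  have P := F.pData hx hy
  have two : ∀ r g, IsK J X x y r g → r ∈ Ioo (0 : ℝ) 1 := fun r g hk => by_contra fun hr => by
    obtain ⟨-, h1, h2⟩ := P.isK_iff'.1 hk
    rw [kr_eq_zero h.fam.smX (fun r hr => (h.zero r hr).trans (h.zero 0 le_rfl).symm) h.one hr,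
      surjective_kmap_zero] at h2
    exact absurd (h1.nonneg h2) (by norm_num)
  refine ⟨?_, two⟩
  rw [← image_id {m : ℝ × (Pl → V) | _}]
  refine finite_FinN _ fun m hm => ?_
  obtain ⟨r, -, ψ, hψ, hr⟩ := isCompact_Icc.tendsto_subseq (x := fun n => (m n).1)
    fun n => Ioo_subset_Icc_self (two _ _ (hm n))
  obtain ⟨B, hB⟩ := h.apb x hx
  obtain ⟨φ, hφ, alt⟩ := bl1 F (a₀ := r) (h.left r) (h.right r) hx hy h.dec h.dec (h.low r)
    (h.reg.lo h.acs F.spl A _) (h.reg.lo h.acs F.spl A _) (m := -1)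
    (fun x' y' g d hx' hy' ng lt ig => by_contra fun hd => by
      have := (ig.coprod _).nonneg (h.good x' y' hx' hy' (lt.le.trans hg) r g d ng ig (by omega))
      simp only [Module.finrank_fin_fun, Nat.cast_one] at this
      omega)
    (a := fun n => (m (ψ n)).1) hr (u := fun n => (m (ψ n)).2) (B := B) (d := fun _ => -1)
    fun n => ⟨(hm _).nice, hB _ y _ hy (hm _).nice (hg.trans h.nonneg),
      (P.isK_iff'.1 (hm _)).2.1, by norm_num⟩
  rcases alt with ⟨g, ng, wc, ig⟩ | ⟨e, -⟩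
  swap
  · exact absurd e.exists.choose_spec (by norm_num)
  have ig' : HasIdx (Du J (X r) g) (-1) := ig.exists.choose_spec
  have hb := (P.isK_iff.1 (P.isK_iff'.2
    ⟨ng, ig', h.good x y hx hy hg r g _ ng ig' (by norm_num)⟩)).2
  have e : (fun i => var J (dX (fun a : Fin 1 → ℝ => X (a 0)) (fun _ => r) (Pi.single i 1)) g) =
      ![kr J X r g] := by
    funext i
    fin_cases i
    refine congrArg (var J · g) (funext fun p => funext fun z => ?_)
    have hd : DifferentiableAt ℝ (fun r => X r p z) r :=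
      ((h.fam.smooth.comp (contDiff_id.prodMk (contDiff_const (c := (p, z))))).differentiable
        (by simp)) r
    have := (HasFDerivAt.comp (fun _ : Fin 1 => r) (g := fun r => X r p z) hd.hasFDerivAt
      (ContinuousLinearMap.proj (R := ℝ) (φ := fun _ : Fin 1 => ℝ) 0).hasFDerivAt).fderiv
    exact congrArg (· (Pi.single 0 1)) this
  obtain ⟨ε, hε, iso⟩ := (P.comp (g := fun a : Fin 1 → ℝ => a 0) (contDiff_apply ℝ ℝ 0)).isolated
    (a₀ := fun _ => r) ng (l := ![]) (fun i => i.elim0) (M := ![])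
    (by rw [e]; exact (frm_noL _ _ _ _).2 hb)
  refine ⟨ψ ∘ φ, hψ.comp hφ, (r, g), ?_⟩
  filter_upwards [wc_FinN wc hε, (hr.comp hφ.tendsto_atTop).eventually
    (Metric.closedBall_mem_nhds r hε)] with n h1 h2
  obtain ⟨h3, h4⟩ := iso (fun _ => (m (ψ (φ n))).1) _ (hm _).nice h1
    ((pi_norm_le_iff_of_nonneg hε.le).2 fun _ => h2) fun i => i.elim0
  exact Prod.ext (congrFun h4 0) h3

theorem finite_bij {X : Pl → V → V} (hJ : ACS Ω0 J) (hX : Fld X R) (e : frz X (-R) = Y)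
    (e' : frz X R = Y') (nd : NdA Y) (nd' : NdA Y') (hx : Orb 1 Y x) (hy : Orb 1 Y' y)
    (dec : Dec J Y A) (dec' : Dec J Y' A') (low : Low J X Y Y' A A' c)
    (lo : Lo J Y A (A x - A' y + c)) (lo' : Lo J Y' A' (A x - A' y + c))
    (good : ∀ x' y', Orb 1 Y x' → Orb 1 Y' y' → A x' - A' y' ≤ A x - A' y → Good0 J X x' y')
    (hB : ∀ u, Nice J X x y u → Bnd B u) :
    {u | Nice J X x y u ∧ Function.Bijective (Du J X u)}.Finite := by
  rw [← image_id {u | _}]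
  refine finite_FinN _ fun u hu => ?_
  obtain ⟨φ, hφ, alt⟩ := bl1 (fData_FinN hJ hX e e' nd nd') (a₀ := 0) e e' hx hy dec dec' low lo lo'
    (m := 0) (fun x' y' g d hx' hy' ng lt ig => by_contra fun hd =>
      hd (ig.nonneg (good x' y' hx' hy' lt.le g d ng ig (by omega))))
    (a := fun _ => 0) tendsto_const_nhds (u := u) (B := B) (d := fun _ => 0)
    fun n => ⟨(hu n).1, hB _ (hu n).1, hasIdx_zero_of_bijective (hu n).2, by norm_num⟩
  rcases alt with ⟨g, ng, wc, ig⟩ | ⟨e, -⟩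
  swap
  · exact absurd e.exists.choose_spec (by norm_num)
  have ig' : HasIdx (Du J X g) 0 := ig.exists.choose_spec
  obtain ⟨ε, hε, iso⟩ := (pData_fld (Λ := Fin 0 → ℝ) hJ hX (e ▸ nd x hx) (e' ▸ nd' y hy)).isolated
    (a₀ := 0) ng (l := ![]) (fun i => i.elim0) (M := ![])
    ((frm_empty _ _ _ _).2.2 (ig'.bijective_iff.1.1 (good x y hx hy le_rfl g 0 ng ig' le_rfl)))
  exact ⟨φ, hφ, g, (wc_FinN wc hε).mono fun n hn =>
    (iso 0 _ (hu _).1 hn (by rw [sub_self, norm_zero]; exact hε.le) fun i => i.elim0).1⟩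

end

end Pool.Agent.P.MP_de3acd_gt.FH
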