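import Pool.Agent.P.MP_de3acd_gt.FH.KerE
import Pool.Agent.P.MP_de3acd_gt.FH.FinN

/-! The matrix of the differential.
Sketch: cnt_eq: put q = σ c = (γ₀, x₀). The counted set is the image under w ↦ (fun u => pr Γ ∘ u) '' w of the disjoint union over the lifts y (π y = c', y.1.1 = γ₀, gap e) of cls '' SolN γ₀ x₀ y σ'. Given (γ, x, y, u, l), rel_of_pr gives g
moving (γ, x) to q; solN_iff, gap_smul, energy_eq (the pairing in cnt is en om J u). Injectivity: if pr ∘ u' = pr ∘ tsl s u then u' = g ∘ tsl s u (Fr.lift), the left limits at t = 0 give g (x₀ 0) = x₀ 0, g = 1; the right limits give y = y' (orb_eq).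
Finiteness: fin_y with cls_H and clY_zero; finite_solN: chart, exists_reps (Gau.coh, Dat.regA, Dat.decH, Dat.bnd, Dat.bdd), Reps.finite, finite_solN_iff. isPWO: the support lies in the set of gaps, whose intersection with every Icc is
finite (gap_fin); a subset of ℝ≥0 with finite initial segments is well founded (Set.IsWF, Set.IsWF.isPWO, Set.isWF_iff_no_descending_seq). -/

open Set Filter Topology MeasureTheory
open scoped ContDiff NNReal ENNReal RealInnerProductSpace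

namespace Pool.Agent.P.MP_de3acd_gt.FH

noncomputable section

variable {Γ : Subgroup (Equiv.Perm E)} {B : ℝ → E →L[ℝ] E} {J : ℝ → E → E →L[ℝ] E}
  {H G K K' : ℝ → E → ℝ} {Y Y' Z : ℝ → E → E} {γ g : Equiv.Perm E} {x y w : ℝ → E} {u : Pl → E}
variable {X p p₁ p₂ : Pl → E → E} {Y₀ Y₁ : ℝ → E → E} {d R β₀ β₁ v η L b : ℝ}
  {o : ∀ a b, Op E a b → ℤˣ}

theorem Dat.finite_solN (D : Dat Γ B J H G d) (ho : Coh om Γ o) (hγ : γ ∈ Γ) (hx : Orb γ (ham H) x)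
    (hy : Orb γ (ham H) y) (σ : ℤˣ) : (cls '' SolN om Γ o γ J (ham H) x y σ).Finite := by
  obtain ⟨c⟩ := D.fr.chart hγ
  obtain ⟨x, rfl⟩ := c.up_bijective.2 x
  obtain ⟨y, rfl⟩ := c.up_bijective.2 y
  have hY := D.endH
  have fx := c.orb_iff.1 hx
  have fy := c.orb_iff.1 hy
  have hf : Fld (sta (ham H)) 0 := fld_sta hY.1.1 le_rfl
  have inv : ∀ q, Ivf Γ (sta (ham H) q) := fun q => hY.1.2 q.2
  have hc : ∀ u, Cyl Ω0 1 (c.pJ J) (sta (c.pY (ham H))) x y u → Bdd u := fun u hu =>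
    D.bdd c (clY_zero D.fr) (cls_H J H G 0) hf inv hγ hu
  obtain ⟨A, hA⟩ := D.bnd c (X := fun _ : ℝ => sta (ham H)) hf (fun _ => inv) hγ
    (Orb.tw hY.1.1 hx) 0 0 0 0 0 0 (c.pA (mix H G 0) x - c.pA (mix H G 0) y)
  have nd := Gau.ndA (c := c) hγ hY
  obtain ⟨T, L, hT⟩ := exists_reps (c.coh hγ ho) (c.acs hγ D.ij) (c.sp hγ hY.1) nd (D.regA c hγ)
    (D.decH c hγ) fx fy (fun u hu => hA 0 0 y u (by simp) (clY_zero D.fr) (cls_H J H G 0)
      (Orb.tw hY.1.1 hy) hu le_rfl) hc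
  exact (c.finite_solN_iff (one_mem ⊥) hγ D.ij.diff (fun _ _ _ _ _ => rfl) hY.1.diff σ).2
    (hT.finite (c.acs hγ D.ij) (c.sp hγ hY.1) (nd x fx) (nd y fy) hc σ)

theorem im_cls_Alg3 (Γ : Subgroup (Equiv.Perm E)) (u : Pl → E) :
    (fun v => pr Γ ∘ v) '' cls u = range fun (s : ℝ) (p : Pl) => pr Γ (u (p.1 + s, p.2)) := by
  rw [cls, ← range_comp]
  congr 1
  funext s p
  exact congrArg (fun z => pr Γ (u z)) (Prod.ext rfl (add_zero _))

theorem inj_Alg3 (h : Fr Γ B) (hY : IY Γ Y) {y' : ℝ → E} {u' : Pl → E} (hy : Orb γ Y y)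
    (hy' : Orb γ Y y') (hu : Cyl om γ J X x y u) (hu' : Cyl om γ J X x y' u')
    (e : (fun v => pr Γ ∘ v) '' cls u = (fun v => pr Γ ∘ v) '' cls u') :
    cls u = cls u' ∧ y = y' := by
  have h0 : u' ∈ cls u' := ⟨0, funext fun p => congrArg u' (add_zero p)⟩
  obtain ⟨_, ⟨s, rfl⟩, h1⟩ : pr Γ ∘ u' ∈ (fun v => pr Γ ∘ v) '' cls u := e ▸ mem_image_of_mem _ h0
  obtain ⟨g, hg, h2⟩ := h.lift (f := tsl (s, 0) u)
    (hu.smooth.continuous.comp (continuous_id.add continuous_const)) hu'.smooth.continuous h1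
  have z : (0 : ℝ) ∈ Icc (0 : ℝ) 1 := ⟨le_rfl, zero_le_one⟩
  have h3 : ∀ r : ℝ, u' (r, 0) = g (u (r + s, 0)) := fun r => by
    rw [h2]
    exact congrArg (fun z => g (u z)) (Prod.ext rfl (add_zero _))
  have h4 : g (x 0) = x 0 := by
    refine tendsto_nhds_unique ?_ (hu'.left.tendsto_at z)
    simp only [h3]
    exact ((h.contDiff hg).continuous.tendsto _).comp
      ((hu.left.tendsto_at z).comp (tendsto_atBot_add_const_right _ s tendsto_id))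
  obtain rfl := h.good.free g hg _ h4
  refine ⟨?_, h.orb_eq hY hy hy' (t := 0) ?_⟩
  · rw [h2]
    exact (cls_tsl_FinN s u).symm
  · refine tendsto_nhds_unique ?_ (hu'.right.tendsto_at z)
    simp only [h3]
    exact (hu.right.tendsto_at z).comp (tendsto_atTop_add_const_right _ s tendsto_id)

variable {π : LO Γ (ham H) → gens Γ H} {σ : gens Γ H → LO Γ (ham H)}

theorem Dat.key_Alg3 (D : Dat Γ B J H G d) (ho : Coh om Γ o) (hπ : ∀ q, (π q).1 = pr Γ ∘ q.1.2)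
    (q : LO Γ (ham H)) (c' : gens Γ H) (e : ℝ) : ∃ T : Finset (LO Γ (ham H)),
      (∀ y ∈ T, π y = c' ∧ la H q - la H y = e) ∧
      (∀ y, π y = c' ∧ la H q - la H y = e → lk (fun γ => nN om Γ o γ J (ham H)) q y ≠ 0 → y ∈ T) ∧
      (cnt Γ o H J (pr Γ ∘ q.1.2) c' e 1 : ℤ) - cnt Γ o H J (pr Γ ∘ q.1.2) c' e (-1) =
        ∑ y ∈ T, lk (fun γ => nN om Γ o γ J (ham H)) q y := by
  have hY := D.endH
  have hf : Fld (sta (ham H)) 0 := fld_sta hY.1.1 le_rfl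
  have inv : ∀ q, Ivf Γ (sta (ham H) q) := fun q => hY.1.2 q.2
  have hE : ∀ {γ x y u}, γ ∈ Γ → Orb γ (ham H) x → Orb γ (ham H) y →
      Cyl om γ J (sta (ham H)) x y u → en om J u = act γ H x - act γ H y := fun hγ hx hy hu =>
    D.fr.energy_eq D.ij (Reg.ih D.reg) hγ (Orb.tw hY.1.1 hx) (Orb.tw hY.1.1 hy) hu
  set S : Set (LO Γ (ham H)) := {y | (π y = c' ∧ la H q - la H y = e) ∧ q.1.1 = y.1.1 ∧
    ∃ u, Cyl om q.1.1 J (sta (ham H)) q.1.2 y.1.2 u} with hS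
  have so : ∀ y ∈ S, Orb q.1.1 (ham H) y.1.2 := fun y hy => hy.2.1 ▸ y.2.2
  have se : ∀ y ∈ S, ∀ u, Cyl om q.1.1 J (sta (ham H)) q.1.2 y.1.2 u → en om J u = e :=
    fun y hy u hu => by rw [hE q.2.1 q.2.2 (so y hy) hu, ← hy.1.2, la, la, hy.2.1]
  have si : InjOn (fun y : LO Γ (ham H) => y.1.2) S := fun y hy y' hy' h =>
    Subtype.ext (Prod.ext (hy.2.1.symm.trans hy'.2.1) h)
  have sf : S.Finite := by
    refine Finite.of_injOn (fun y hy => ?_) si (D.fin_y (X := fun _ : ℝ => sta (ham H)) hf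
      (fun _ => inv) hY q.2.1 q.1.2 |e| 0)
    obtain ⟨u, hu⟩ := hy.2.2
    exact ⟨so y hy, 0, 0, u, 0, 0, 0, 0, by simp, clY_zero D.fr, cls_H J H G 0, hu,
      (se y hy u hu).le.trans (le_abs_self e)⟩
  have count : ∀ s : ℤˣ, cnt Γ o H J (pr Γ ∘ q.1.2) c' e s =
      ∑ y ∈ sf.toFinset, (cls '' SolN om Γ o q.1.1 J (ham H) q.1.2 y.1.2 s).ncard := fun s => by
    have fin := fun y hy => D.finite_solN ho q.2.1 q.2.2 (so y hy) s
    rw [← finsum_mem_eq_finite_toFinset_sum, finsum_mem_congr rfl fun y hy =>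
      (InjOn.ncard_image (f := fun w => (fun v => pr Γ ∘ v) '' w) (by
        rintro _ ⟨u, hu, rfl⟩ _ ⟨u', hu', rfl⟩ h
        exact (inj_Alg3 D.fr hY.1 (so y hy) (so y hy) hu.1 hu'.1 h).1)).symm,
      ← sf.ncard_biUnion (fun y hy => (fin y hy).image _) (fun y hy y' hy' ne => by
        refine disjoint_left.2 ?_
        rintro _ ⟨_, ⟨u, hu, rfl⟩, rfl⟩ ⟨_, ⟨u', hu', rfl⟩, h⟩
        exact ne (si hy hy' (inj_Alg3 D.fr hY.1 (so y hy) (so y' hy') hu.1 hu'.1 h.symm).2)), cnt]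
    congr 1
    ext w
    simp only [mem_iUnion₂]
    constructor
    · rintro ⟨γ, x, y, u, l, hx, hy, ex, ey, hu, he, h1, h2, h3, rfl⟩
      have hγ : γ ∈ Γ := h2.1.mem
      obtain ⟨g, hg, eg⟩ := D.fr.rel_of_pr ⟨(γ, x), hγ, hx⟩ q ex.symm
      have e1 : q.1.1 = g * γ * g⁻¹ := congrArg Prod.fst eg
      have e2 : q.1.2 = g ∘ x := congrArg Prod.snd eg
      have pg : ∀ z, pr Γ (g z) = pr Γ z := fun z => pr_eq_iff.2 ⟨g, hg, rfl⟩
      have hs : g ∘ u ∈ SolN om Γ o q.1.1 J (ham H) q.1.2 (g ∘ y) s := by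
        rw [e1, e2]
        exact (D.fr.solN_iff hg hγ D.ij ho hY.1 s).2 ⟨hu, l, h1, h2, h3⟩
      refine ⟨⟨(g * γ * g⁻¹, g ∘ y), mem_InvE hg hγ, (D.fr.orb_iff hg hγ hY.1.2).2 hy⟩,
        ⟨⟨Subtype.ext ?_, ?_⟩, e1, _, hs.1⟩, _, ⟨_, hs, rfl⟩, ?_⟩
      · rw [hπ, ey]
        exact funext fun t => pg _
      · rw [la, la, e1, e2, D.fr.gap_smul hg hγ (Reg.ih D.reg) (Reg.ih D.reg) (Orb.tw hY.1.1 hx)
          (Orb.tw hY.1.1 hy), ← hE hγ hx hy hu]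
        exact he
      · simp only [im_cls_Alg3, Function.comp_apply, pg]
    · rintro ⟨y, hy, _, ⟨u, ⟨hu, l, h1, h2, h3⟩, rfl⟩, rfl⟩
      exact ⟨q.1.1, q.1.2, y.1.2, u, l, q.2.2, so y hy, rfl, by rw [← hy.1.1, hπ], hu,
        se y hy u hu, h1, h2, h3, im_cls_Alg3 Γ u⟩
  refine ⟨sf.toFinset, fun y hy => (sf.mem_toFinset.1 hy).1, fun y hy h0 => sf.mem_toFinset.2 ?_,
    ?_⟩
  · have e1 : q.1.1 = y.1.1 := by_contra fun h => h0 (if_neg h)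
    refine ⟨hy, e1, by_contra fun h => h0 ?_⟩
    have e2 : ∀ s, SolN om Γ o q.1.1 J (ham H) q.1.2 y.1.2 s = ∅ := fun s =>
      eq_empty_of_forall_notMem fun u hu => h ⟨u, hu.1⟩
    rw [lk, if_pos e1, nN, e2, e2, sub_self]
  · rw [count, count, Nat.cast_sum, Nat.cast_sum, ← Finset.sum_sub_distrib]
    exact Finset.sum_congr rfl fun y hy => by rw [lk, if_pos (sf.mem_toFinset.1 hy).2.1, nN]

theorem Dat.cnt_eq (D : Dat Γ B J H G d) (ho : Coh om Γ o) (hπ : ∀ q, (π q).1 = pr Γ ∘ q.1.2)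
    (hσ : ∀ c, π (σ c) = c) (c c' : gens Γ H) (e : ℝ) :
    (cnt Γ o H J c c' e 1 : ℤ) - cnt Γ o H J c c' e (-1) =
      ∑ᶠ y ∈ {y | π y = c' ∧ la H (σ c) - la H y = e},
        lk (fun γ => nN om Γ o γ J (ham H)) (σ c) y := by
  obtain ⟨T, h1, h2, h3⟩ := D.key_Alg3 ho hπ (σ c) c' e
  rw [← hπ, hσ] at h3
  rw [h3]
  exact (finsum_mem_eq_sum_of_inter_support_eq _ (Set.ext fun y =>
    ⟨fun h => ⟨h2 y h.1 h.2, h.2⟩, fun h => ⟨h1 y h.1, h.2⟩⟩)).symm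

theorem Dat.isPWO (D : Dat Γ B J H G d) (𝔽 : Type) [Field 𝔽] (c c' : gens Γ H) :
    (Function.support fun e : ℝ≥0 =>
      (cnt Γ o H J c c' e 1 : 𝔽) - cnt Γ o H J c c' e (-1)).IsPWO := by
  have hY := D.endH
  have key : ∀ (e : ℝ) (s : ℤˣ), cnt Γ o H J c c' e s ≠ 0 → ∃ γ ∈ Γ, ∃ x y, Orb γ (ham H) x ∧
      Orb γ (ham H) y ∧ e = act γ H x - act γ H y := fun e s h => by
    obtain ⟨_, γ, x, y, u, l, hx, hy, -, -, hu, he, -, h2, -⟩ := nonempty_of_ncard_ne_zero h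
    exact ⟨γ, h2.1.mem, x, y, hx, hy, he.symm.trans (D.fr.energy_eq D.ij (Reg.ih D.reg) h2.1.mem
      (Orb.tw hY.1.1 hx) (Orb.tw hY.1.1 hy) hu)⟩
  refine IsWF.isPWO (isWF_iff_no_descending_seq.2 fun f hf h => ?_)
  refine infinite_of_injective_forall_mem (NNReal.coe_injective.comp hf.injective) (fun n => ?_)
    (D.fr.gap_fin hY hY (Reg.ih D.reg) (Reg.ih D.reg) 0 (f 0))
  refine ⟨⟨(f n).2, hf.antitone (Nat.zero_le n)⟩, by_contra fun h0 => h n ?_⟩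
  have e : ∀ s, cnt Γ o H J c c' (f n) s = 0 := fun s => by_contra fun h1 => h0 (key _ s h1)
  simp only [e, sub_self, Nat.cast_zero]

theorem Dat.bd_coeff (D : Dat Γ B J H G d) (ho : Coh om Γ o) (hπ : ∀ q, (π q).1 = pr Γ ∘ q.1.2)
    (hσ : ∀ c, π (σ c) = c) (𝔽 : Type) [Field 𝔽] (c c' : gens Γ H) (e : ℝ≥0) :
    (bd 𝔽 Γ o H J c c').coeff e = ∑ᶠ y ∈ {y | π y = c' ∧ la H (σ c) - la H y = e},
      (lk (fun γ => nN om Γ o γ J (ham H)) (σ c) y : 𝔽) := by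
  obtain ⟨T, h1, h2, h3⟩ := D.key_Alg3 ho hπ (σ c) c' e
  rw [← hπ, hσ] at h3
  rw [bd, dif_pos (D.isPWO 𝔽 c c'), finsum_mem_eq_sum_of_inter_support_eq (t := T)
    (s := {y | π y = c' ∧ la H (σ c) - la H y = e}) _
    (Set.ext fun y => ⟨fun h => ⟨h2 y h.1 fun h0 => h.2 (by simp only [h0, Int.cast_zero]), h.2⟩,
      fun h => ⟨h1 y h.1, h.2⟩⟩), ← Int.cast_sum, ← h3, Int.cast_sub, Int.cast_natCast,
    Int.cast_natCast]

end

end Pool.Agent.P.MP_de3acd_gt.FH
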