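import Pool.Agent.P.MP_de3acd_gt.FH.Ops

/-! Abstract lemmas on block operators, indices and inverse bounds.
Sketch: if blk D K l M is bijective, then ker D and the cokernel (Y ⧸ range D) are finite-dimensional and
finrank ker D - finrank coker D = finrank B - finrank A (pure linear algebra: filter X × A by ker; e.g. for
T = coprod D K, which is onto, ker T ≃ B via coprod l M, and the exact sequence 0 → ker D → ker T → A → coker D → 0).
This gives uniqueness. Conversely of_bij: choose bases of A, B. coprod: frame (D.coprod K) by K₀ and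
(x, a) ↦ (l x, a). Openness: units of the Banach algebra / ContinuousLinearEquiv.isOpen, or Bij.perturb.
Bij.perturb: T' = T (1 - T⁻¹ (T - T')), Neumann series (Units.oneSub) on the complete space X.
surjective_open: exists_preimage_norm_le and successive approximation, or ContinuousLinearMap API on open maps. -/

open Set Filter Topology MeasureTheory
open scoped ContDiff NNReal ENNReal RealInnerProductSpace

namespace Pool.Agent.P.MP_de3acd_gt.FH

noncomputable section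

variable {X Y Z : Type} [NormedAddCommGroup X] [NormedSpace ℝ X] [NormedAddCommGroup Y]
  [NormedSpace ℝ Y] [NormedAddCommGroup Z] [NormedSpace ℝ Z]
variable {A B : Type} [NormedAddCommGroup A] [NormedSpace ℝ A] [NormedAddCommGroup B]
  [NormedSpace ℝ B]

theorem inj_Idx {T : X →L[ℝ] Y} {c : ℝ} (h : ∀ x, ‖x‖ ≤ c * ‖T x‖) : Function.Injective T :=
  (injective_iff_map_eq_zero T).2 fun x hx => by
    have := h x
    rw [hx, norm_zero, mul_zero] at this
    exact norm_le_zero_iff.1 this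

theorem surj_close_Idx [CompleteSpace X] {T T' : X →L[ℝ] Y} {c : ℝ} (hc : 0 ≤ c)
    (h : ∀ y, ∃ x, T x = y ∧ ‖x‖ ≤ c * ‖y‖) (e : c * ‖T' - T‖ < 1) : Function.Surjective T' := by
  intro y
  rcases hc.eq_or_lt with rfl | hc
  · obtain ⟨x, hx, hx'⟩ := h y
    rw [zero_mul, norm_le_zero_iff] at hx'
    exact ⟨0, by rw [← hx, hx', map_zero, map_zero]⟩
  choose g hg hg' using h
  let G : T.NonlinearRightInverse := ⟨g, ⟨c, hc.le⟩, hg', hg⟩
  have ha : ApproximatesLinearOn T' T univ ‖T' - T‖₊ := fun x _ y _ => by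
    rw [← map_sub]
    exact (T' - T).le_opNorm (x - y)
  have hp : 0 < c⁻¹ - ‖T' - T‖ := by
    rw [sub_pos, ← one_div, lt_div_iff₀' hc]
    exact e
  have hy : y ∈ Metric.closedBall (T' 0) ((c⁻¹ - ‖T' - T‖) * (‖y‖ / (c⁻¹ - ‖T' - T‖))) := by
    rw [map_zero, mem_closedBall_zero_iff, mul_div_cancel₀ _ hp.ne']
  obtain ⟨x, -, hx⟩ := ha.surjOn_closedBall_of_nonlinearRightInverse G (b := 0)
    (ε := ‖y‖ / (c⁻¹ - ‖T' - T‖)) (div_nonneg (norm_nonneg _) hp.le) (subset_univ _) hy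
  exact ⟨x, hx⟩

theorem small_Idx (T : X →L[ℝ] Y) (c : ℝ) : ∀ᶠ T' in 𝓝 T, c * ‖T' - T‖ < 1 := by
  have : Continuous fun T' : X →L[ℝ] Y => c * ‖T' - T‖ := by fun_prop
  exact this.continuousAt.eventually_lt continuousAt_const (by simp)

theorem lin_Idx {X Y A B : Type} [AddCommGroup X] [Module ℝ X] [AddCommGroup Y] [Module ℝ Y]
    [AddCommGroup A] [Module ℝ A] [AddCommGroup B] [Module ℝ B] [FiniteDimensional ℝ A]
    [FiniteDimensional ℝ B] (e : (X × A) ≃ₗ[ℝ] (Y × B)) (D : X →ₗ[ℝ] Y)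
    (hD : D = (LinearMap.fst ℝ Y B ∘ₗ e.toLinearMap) ∘ₗ LinearMap.inl ℝ X A) :
    FiniteDimensional ℝ D.ker ∧ FiniteDimensional ℝ (Y ⧸ D.range) ∧
      D.index = (Module.finrank ℝ B : ℤ) - Module.finrank ℝ A := by
  have q : ((X × A) ⧸ (LinearMap.inl ℝ X A).range) ≃ₗ[ℝ] A :=
    (Submodule.quotEquivOfEq _ _ (LinearMap.range_inl ℝ X A)).trans
      ((LinearMap.snd ℝ X A).quotKerEquivOfSurjective LinearMap.snd_surjective)
  have r : B ≃ₗ[ℝ] (LinearMap.fst ℝ Y B).ker :=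
    (LinearEquiv.ofInjective _ LinearMap.inr_injective).trans
      (LinearEquiv.ofEq _ _ (LinearMap.range_inr ℝ Y B))
  have i1 : FiniteDimensional ℝ (LinearMap.inl ℝ X A).ker := by
    rw [LinearMap.ker_eq_bot.2 LinearMap.inl_injective]; infer_instance
  have i2 : FiniteDimensional ℝ ((X × A) ⧸ (LinearMap.inl ℝ X A).range) := q.symm.finiteDimensional
  have i3 : FiniteDimensional ℝ e.toLinearMap.ker := by
    rw [LinearEquiv.ker]; infer_instance
  have i4 : FiniteDimensional ℝ ((Y × B) ⧸ e.toLinearMap.range) := by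
    rw [LinearEquiv.range]; infer_instance
  have i5 : FiniteDimensional ℝ (LinearMap.fst ℝ Y B).ker := r.finiteDimensional
  have i6 : FiniteDimensional ℝ (Y ⧸ (LinearMap.fst ℝ Y B).range) := by
    rw [LinearMap.range_eq_top.2 LinearMap.fst_surjective]; infer_instance
  have i7 : FiniteDimensional ℝ (LinearMap.fst ℝ Y B ∘ₗ e.toLinearMap).ker := by
    rw [LinearMap.ker_comp]; infer_instance
  have i8 : FiniteDimensional ℝ (Y ⧸ (LinearMap.fst ℝ Y B ∘ₗ e.toLinearMap).range) := by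
    rw [LinearMap.range_comp]; infer_instance
  subst hD
  refine ⟨?_, ?_, ?_⟩
  · rw [LinearMap.ker_comp]; infer_instance
  · rw [LinearMap.range_comp]; infer_instance
  · rw [LinearMap.index_comp, LinearMap.index_comp, LinearEquiv.index_eq_zero,
      LinearMap.index_of_surjective LinearMap.fst_surjective,
      LinearMap.index_of_injective LinearMap.inl_injective, q.finrank_eq, ← r.finrank_eq]
    ring

theorem core_Idx {D : X →L[ℝ] Y} {n : ℤ} (h : HasIdx D n) :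
    FiniteDimensional ℝ D.ker ∧ FiniteDimensional ℝ (Y ⧸ D.range) ∧ D.toLinearMap.index = n := by
  obtain ⟨a, b, K, l, M, h, rfl⟩ := h
  have := lin_Idx (LinearEquiv.ofBijective (blk D K l M).toLinearMap h) D.toLinearMap
    (LinearMap.ext fun x => by
      change D x = D x + K 0
      rw [map_zero, add_zero])
  rwa [Module.finrank_fin_fun, Module.finrank_fin_fun] at this

theorem subseq_Idx [CompleteSpace X] {T : X →L[ℝ] Y} {K : X →L[ℝ] Z} {c : ℝ}
    (h : ∀ x, ‖x‖ ≤ c * (‖T x‖ + ‖K x‖)) (hK : ∀ (x : ℕ → X) (M : ℝ), (∀ n, ‖x n‖ ≤ M) →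
      ∃ φ : ℕ → ℕ, StrictMono φ ∧ CauchySeq fun n => K (x (φ n))) (x : ℕ → X) (M : ℝ)
    (hx : ∀ n, ‖x n‖ ≤ M) (hT : Tendsto (fun n => T (x n)) atTop (𝓝 0)) :
    ∃ (φ : ℕ → ℕ) (a : X), StrictMono φ ∧ Tendsto (fun n => x (φ n)) atTop (𝓝 a) ∧ T a = 0 := by
  obtain ⟨φ, hφ, hc⟩ := hK x M hx
  have hT' : Tendsto (fun n => T (x (φ n))) atTop (𝓝 0) := hT.comp hφ.tendsto_atTop
  have ha : AntilipschitzWith (2 * ‖c‖₊) (T.prod K) :=
    (T.prod K).antilipschitz_of_bound fun y => by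
      have h1 : ‖T y‖ ≤ ‖T.prod K y‖ := norm_fst_le (T.prod K y)
      have h2 : ‖K y‖ ≤ ‖T.prod K y‖ := norm_snd_le (T.prod K y)
      have h3 : c ≤ ‖c‖ := le_abs_self c
      calc ‖y‖ ≤ c * (‖T y‖ + ‖K y‖) := h y
        _ ≤ ‖c‖ * (‖T.prod K y‖ + ‖T.prod K y‖) := by gcongr
        _ = _ := by push_cast; ring
  have hu := ha.isUniformInducing (T.prod K).uniformContinuous
  have hcs : CauchySeq fun n => x (φ n) := hu.cauchy_map_iff.1 (hT'.cauchySeq.prodMk hc)
  obtain ⟨a, ha⟩ := cauchySeq_tendsto_of_complete hcs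
  exact ⟨φ, a, hφ, ha, tendsto_nhds_unique ((T.continuous.tendsto a).comp ha) hT'⟩

theorem Bij.mono {T : X →L[ℝ] Y} {c c' : ℝ} (h : Bij T c) (hc : c ≤ c') : Bij T c' :=
  ⟨h.1, fun x => (h.2 x).trans (mul_le_mul_of_nonneg_right hc (norm_nonneg _))⟩

theorem bij_of_bijective [CompleteSpace X] [CompleteSpace Y] {T : X →L[ℝ] Y}
    (h : Function.Bijective T) : ∃ c > 0, Bij T c := by
  obtain ⟨C, hC, hT⟩ := T.exists_preimage_norm_le h.2
  refine ⟨C, hC, h, fun x => ?_⟩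
  obtain ⟨x', hx, hx'⟩ := hT (T x)
  rwa [h.1 hx] at hx'

theorem Bij.perturb [CompleteSpace X] {T T' : X →L[ℝ] Y} {c : ℝ} (h : Bij T c) (hc : 0 ≤ c)
    (e : 2 * c * ‖T' - T‖ ≤ 1) : Bij T' (2 * c) := by
  have hb : ∀ x, ‖x‖ ≤ 2 * c * ‖T' x‖ := fun x => by
    have h1 := h.2 x
    have h2 : ‖T x‖ ≤ ‖T' x‖ + ‖T' - T‖ * ‖x‖ := by
      have e1 : T x = T' x - (T' - T) x := by simp
      rw [e1]
      exact (norm_sub_le _ _).trans (add_le_add le_rfl ((T' - T).le_opNorm x))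
    have h3 := mul_le_mul_of_nonneg_left h2 hc
    have h4 := mul_le_mul_of_nonneg_right e (norm_nonneg x)
    linarith
  refine ⟨⟨inj_Idx hb, surj_close_Idx (T := T) hc (fun y => ?_) (by linarith)⟩, hb⟩
  obtain ⟨x, rfl⟩ := h.1.2 y
  exact ⟨x, rfl, h.2 x⟩

theorem Bij.eventually [CompleteSpace X] {N : Type} {l : Filter N} {T T' : N → X →L[ℝ] Y} {c : ℝ}
    (hc : 0 ≤ c) (h : ∀ᶠ n in l, Bij (T n) c) (e : Tendsto (fun n => ‖T' n - T n‖) l (𝓝 0)) :
    ∀ᶠ n in l, Bij (T' n) (2 * c) := by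
  have e' : Tendsto (fun n => 2 * c * ‖T' n - T n‖) l (𝓝 (2 * c * 0)) := e.const_mul _
  rw [mul_zero] at e'
  filter_upwards [h, e'.eventually (eventually_lt_nhds zero_lt_one)] with n h1 h2
  exact h1.perturb hc h2.le

/-- An approximate two-sided inverse. -/
theorem bij_of_approx [CompleteSpace X] [CompleteSpace Y] {T : X →L[ℝ] Y} {Q Q' : Y →L[ℝ] X}
    (h : ∀ x, ‖Q (T x) - x‖ ≤ 1 / 2 * ‖x‖) (h' : ∀ y, ‖T (Q' y) - y‖ ≤ 1 / 2 * ‖y‖) :
    Bij T (2 * ‖Q‖) := by
  have hb : ∀ x, ‖x‖ ≤ 2 * ‖Q‖ * ‖T x‖ := fun x => by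
    have h1 := h x
    have h2 := Q.le_opNorm (T x)
    have h3 := norm_sub_norm_le x (Q (T x))
    rw [norm_sub_rev] at h3
    linarith
  refine ⟨⟨inj_Idx hb, ?_⟩, hb⟩
  have hn : ‖T.comp Q' - ContinuousLinearMap.id ℝ Y‖ ≤ 1 / 2 :=
    ContinuousLinearMap.opNorm_le_bound _ (by norm_num) h'
  have hs : Function.Surjective (T.comp Q') :=
    surj_close_Idx (T := ContinuousLinearMap.id ℝ Y) zero_le_one
      (fun y => ⟨y, rfl, (one_mul _).ge⟩) (by linarith)
  exact Function.Surjective.of_comp (g := Q') hs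

theorem surjective_open [CompleteSpace X] [CompleteSpace Y] {T : X →L[ℝ] Y}
    (h : Function.Surjective T) : ∀ᶠ T' : X →L[ℝ] Y in 𝓝 T, Function.Surjective T' := by
  obtain ⟨C, hC, hT⟩ := T.exists_preimage_norm_le h
  exact (small_Idx T C).mono fun T' hT' => surj_close_Idx hC.le hT hT'

theorem bijective_open [CompleteSpace X] [CompleteSpace Y] {T : X →L[ℝ] Y}
    (h : Function.Bijective T) : ∀ᶠ T' : X →L[ℝ] Y in 𝓝 T, Function.Bijective T' := by
  obtain ⟨C, hC, hT⟩ := bij_of_bijective h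
  exact (small_Idx T (2 * C)).mono fun T' hT' => (hT.perturb hC.le hT'.le).1

theorem norm_blk_sub_le (D D' : X →L[ℝ] Y) (K K' : A →L[ℝ] Y) (l l' : X →L[ℝ] B)
    (M M' : A →L[ℝ] B) : ‖blk D K l M - blk D' K' l' M'‖ ≤
      ‖D - D'‖ + ‖K - K'‖ + ‖l - l'‖ + ‖M - M'‖ := by
  refine ContinuousLinearMap.opNorm_le_bound _ (by positivity) fun z => ?_
  have e : (blk D K l M - blk D' K' l' M') z =
      ((D - D') z.1 + (K - K') z.2, (l - l') z.1 + (M - M') z.2) := by
    simp only [sub_apply, blk_apply, Prod.mk_sub_mk, add_sub_add_comm]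
  have h1 := (D - D').le_of_opNorm_le_of_le le_rfl (norm_fst_le z)
  have h2 := (K - K').le_of_opNorm_le_of_le le_rfl (norm_snd_le z)
  have h3 := (l - l').le_of_opNorm_le_of_le le_rfl (norm_fst_le z)
  have h4 := (M - M').le_of_opNorm_le_of_le le_rfl (norm_snd_le z)
  have h5 := norm_add_le ((D - D') z.1) ((K - K') z.2)
  have h6 := norm_add_le ((l - l') z.1) ((M - M') z.2)
  have h7 := norm_nonneg ((D - D') z.1)
  have h8 := norm_nonneg ((K - K') z.2)
  have h9 := norm_nonneg ((l - l') z.1)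
  have h10 := norm_nonneg ((M - M') z.2)
  rw [e, Prod.norm_mk, max_le_iff]
  constructor <;> linarith

theorem surjective_coprod_of_blk {D : X →L[ℝ] Y} {K : A →L[ℝ] Y} {l : X →L[ℝ] B} {M : A →L[ℝ] B}
    (h : Function.Surjective (blk D K l M)) : Function.Surjective (D.coprod K) := fun y => by
  obtain ⟨z, hz⟩ := h (y, 0)
  exact ⟨z, congrArg Prod.fst hz⟩

theorem hasIdx_of_bij [FiniteDimensional ℝ A] [FiniteDimensional ℝ B] {D : X →L[ℝ] Y}
    {K : A →L[ℝ] Y} {l : X →L[ℝ] B} {M : A →L[ℝ] B} (h : Function.Bijective (blk D K l M)) :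
    HasIdx D ((Module.finrank ℝ B : ℤ) - Module.finrank ℝ A) := by
  let eA : A ≃L[ℝ] (Fin (Module.finrank ℝ A) → ℝ) := (Module.finBasis ℝ A).equivFunL
  let eB : B ≃L[ℝ] (Fin (Module.finrank ℝ B) → ℝ) := (Module.finBasis ℝ B).equivFunL
  refine ⟨_, _, K.comp (eA.symm : _ →L[ℝ] A), (eB : B →L[ℝ] _).comp l,
    (eB : B →L[ℝ] _).comp (M.comp (eA.symm : _ →L[ℝ] A)), ?_, rfl⟩
  have e : ⇑(blk D (K.comp (eA.symm : _ →L[ℝ] A)) ((eB : B →L[ℝ] _).comp l)
      ((eB : B →L[ℝ] _).comp (M.comp (eA.symm : _ →L[ℝ] A)))) =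
      Prod.map id eB ∘ blk D K l M ∘ Prod.map id eA.symm :=
    funext fun z => Prod.ext rfl (map_add eB _ _).symm
  rw [e]
  exact (Function.bijective_id.prodMap eB.bijective).comp
    (h.comp (Function.bijective_id.prodMap eA.symm.bijective))

theorem HasIdx.unique {D : X →L[ℝ] Y} {m n : ℤ} (h : HasIdx D m) (h' : HasIdx D n) : m = n :=
  (core_Idx h).2.2.symm.trans (core_Idx h').2.2

theorem HasIdx.eventually [CompleteSpace X] [CompleteSpace Y] {D : X →L[ℝ] Y} {n : ℤ}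
    (h : HasIdx D n) : ∀ᶠ D' in 𝓝 D, HasIdx D' n := by
  obtain ⟨a, b, K, l, M, h, rfl⟩ := h
  obtain ⟨C, hC, hT⟩ := bij_of_bijective h
  refine (small_Idx D (2 * C)).mono fun D' hD' => ⟨a, b, K, l, M, (hT.perturb hC.le ?_).1, rfl⟩
  have := norm_blk_sub_le D' D K K l l M M
  simp only [sub_self, norm_zero, add_zero] at this
  exact (mul_le_mul_of_nonneg_left this (by positivity)).trans hD'.le

theorem HasIdx.coprod [FiniteDimensional ℝ A] {D : X →L[ℝ] Y} {n : ℤ} (h : HasIdx D n)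
    (K : A →L[ℝ] Y) : HasIdx (D.coprod K) (n + Module.finrank ℝ A) := by
  obtain ⟨a, b, K₀, l, M, h, rfl⟩ := h
  have hb : Function.Bijective (blk (D.coprod K) K₀
      ((l.comp (ContinuousLinearMap.fst ℝ X A)).prod (ContinuousLinearMap.snd ℝ X A))
      (M.prod (0 : _ →L[ℝ] A))) := by
    refine ⟨(injective_iff_map_eq_zero _).2 fun z hz => ?_, fun w => ?_⟩
    · have h1 : D z.1.1 + K z.1.2 + K₀ z.2 = 0 := congrArg Prod.fst hz
      have h2 : l z.1.1 + M z.2 = 0 := congrArg (fun w => w.2.1) hz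
      have h3 : z.1.2 + 0 = 0 := congrArg (fun w => w.2.2) hz
      rw [add_zero] at h3
      rw [h3, map_zero, add_zero] at h1
      have h4 : (z.1.1, z.2) = 0 := (injective_iff_map_eq_zero _).1 h.1 _ (Prod.ext h1 h2)
      exact Prod.ext (Prod.ext (Prod.mk.inj h4).1 h3) (Prod.mk.inj h4).2
    · obtain ⟨z, hz⟩ := h.2 (w.1 - K w.2.2, w.2.1)
      have h1 : D z.1 + K₀ z.2 = w.1 - K w.2.2 := congrArg Prod.fst hz
      refine ⟨((z.1, w.2.2), z.2), Prod.ext ?_ (Prod.ext (congrArg Prod.snd hz) (add_zero _))⟩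
      change D z.1 + K w.2.2 + K₀ z.2 = w.1
      rw [add_right_comm, h1, sub_add_cancel]
  have := hasIdx_of_bij hb
  rw [Module.finrank_prod, Module.finrank_fin_fun, Module.finrank_fin_fun] at this
  convert this using 1
  push_cast
  ring

theorem HasIdx.prod [FiniteDimensional ℝ B] {D : X →L[ℝ] Y} {n : ℤ} (h : HasIdx D n)
    (l : X →L[ℝ] B) : HasIdx (D.prod l) (n - Module.finrank ℝ B) := by
  obtain ⟨a, b, K, l₀, M, h, rfl⟩ := h
  have hb : Function.Bijective (blk (D.prod l) (K.prodMap (ContinuousLinearMap.id ℝ B)) l₀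
      (M.comp (ContinuousLinearMap.fst ℝ _ B))) := by
    refine ⟨(injective_iff_map_eq_zero _).2 fun z hz => ?_, fun w => ?_⟩
    · have h1 : D z.1 + K z.2.1 = 0 := congrArg (fun w => w.1.1) hz
      have h2 : l z.1 + z.2.2 = 0 := congrArg (fun w => w.1.2) hz
      have h3 : l₀ z.1 + M z.2.1 = 0 := congrArg Prod.snd hz
      have h4 : (z.1, z.2.1) = 0 := (injective_iff_map_eq_zero _).1 h.1 _ (Prod.ext h1 h3)
      have h5 : z.1 = 0 := congrArg Prod.fst h4
      rw [h5, map_zero, zero_add] at h2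
      exact Prod.ext h5 (Prod.ext (congrArg Prod.snd h4) h2)
    · obtain ⟨z, hz⟩ := h.2 (w.1.1, w.2)
      exact ⟨(z.1, z.2, w.1.2 - l z.1), Prod.ext (Prod.ext (Prod.mk.inj hz).1
        (add_sub_cancel _ _)) (Prod.mk.inj hz).2⟩
  have := hasIdx_of_bij hb
  rw [Module.finrank_prod, Module.finrank_fin_fun, Module.finrank_fin_fun] at this
  convert this using 1
  push_cast
  ring

theorem HasIdx.conj {X' Y' : Type} [NormedAddCommGroup X'] [NormedSpace ℝ X']
    [NormedAddCommGroup Y'] [NormedSpace ℝ Y'] {D : X →L[ℝ] Y} {D' : X' →L[ℝ] Y'} {n : ℤ}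
    (h : HasIdx D n) (e : X ≃L[ℝ] X') (e' : Y ≃L[ℝ] Y') (he : ∀ x, D' (e x) = e' (D x)) :
    HasIdx D' n := by
  obtain ⟨a, b, K, l, M, h, rfl⟩ := h
  refine ⟨a, b, (e' : Y →L[ℝ] Y').comp K, l.comp (e.symm : X' →L[ℝ] X), M, ?_, rfl⟩
  have e1 : ⇑(blk D' ((e' : Y →L[ℝ] Y').comp K) (l.comp (e.symm : X' →L[ℝ] X)) M) =
      Prod.map e' id ∘ blk D K l M ∘ Prod.map e.symm id := funext fun z => Prod.ext (by
    change D' z.1 + e' (K z.2) = e' (D (e.symm z.1) + K z.2)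
    rw [map_add, ← he, e.apply_symm_apply]) rfl
  rw [e1]
  exact (e'.bijective.prodMap Function.bijective_id).comp
    (h.comp (e.symm.bijective.prodMap Function.bijective_id))

theorem hasIdx_zero_of_bijective {D : X →L[ℝ] Y} (h : Function.Bijective D) : HasIdx D 0 := by
  refine ⟨0, 0, 0, 0, 0, ⟨fun z w hz => ?_, fun w => ?_⟩, rfl⟩
  · have h1 : D z.1 + 0 = D w.1 + 0 := congrArg Prod.fst hz
    exact Prod.ext (h.1 (add_right_cancel h1)) (Subsingleton.elim _ _)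
  · obtain ⟨x, hx⟩ := h.2 w.1
    exact ⟨(x, 0), Prod.ext ((add_zero _).trans hx) (Subsingleton.elim _ _)⟩

theorem HasIdx.finiteDimensional {D : X →L[ℝ] Y} {n : ℤ} (h : HasIdx D n) :
    FiniteDimensional ℝ D.ker := (core_Idx h).1

theorem HasIdx.finrank_ker {D : X →L[ℝ] Y} {n : ℤ} (h : HasIdx D n) (hs : Function.Surjective D) :
    (Module.finrank ℝ D.ker : ℤ) = n :=
  (LinearMap.index_of_surjective (f := D.toLinearMap) hs).symm.trans (core_Idx h).2.2

theorem HasIdx.nonneg {D : X →L[ℝ] Y} {n : ℤ} (h : HasIdx D n) (hs : Function.Surjective D) :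
    0 ≤ n := h.finrank_ker hs ▸ Int.natCast_nonneg _

theorem HasIdx.one_le {D : X →L[ℝ] Y} {n : ℤ} (h : HasIdx D n) (hs : Function.Surjective D) {x : X}
    (hx : x ≠ 0) (e : D x = 0) : 1 ≤ n := by
  have := h.finiteDimensional
  have h1 : 0 < Module.finrank ℝ D.ker :=
    Module.finrank_pos_iff_exists_ne_zero.2 ⟨⟨x, e⟩, fun h0 => hx (congrArg Subtype.val h0)⟩
  have h2 := h.finrank_ker hs
  omega

theorem HasIdx.bijective_iff {D : X →L[ℝ] Y} (h : HasIdx D 0) :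
    (Function.Surjective D ↔ Function.Bijective D) ∧
      (Function.Injective D ↔ Function.Bijective D) := by
  obtain ⟨i1, i2, i3⟩ := core_Idx h
  refine ⟨⟨fun hs => ⟨?_, hs⟩, fun hb => hb.2⟩, ⟨fun hi => ⟨hi, ?_⟩, fun hb => hb.1⟩⟩
  · have h1 : Module.finrank ℝ D.ker = 0 := by exact_mod_cast h.finrank_ker hs
    exact LinearMap.ker_eq_bot.1 (Submodule.finrank_eq_zero.1 h1)
  · rw [LinearMap.index_of_injective (f := D.toLinearMap) hi] at i3
    have h1 : Module.finrank ℝ (Y ⧸ D.range) = 0 := by omega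
    exact LinearMap.range_eq_top.1
      (Submodule.Quotient.subsingleton_iff.1 (Module.finrank_zero_iff.1 h1))

theorem HasIdx.ker_one {D : X →L[ℝ] Y} (h : HasIdx D 1) (hs : Function.Surjective D) :
    ∃ τ, τ ≠ 0 ∧ D τ = 0 ∧ ∀ x, D x = 0 → ∃ r : ℝ, x = r • τ := by
  have h1 : Module.finrank ℝ D.ker = 1 := by exact_mod_cast h.finrank_ker hs
  obtain ⟨v, hv, hw⟩ := finrank_eq_one_iff'.1 h1
  refine ⟨v.1, fun h0 => hv (Subtype.ext h0), v.2, fun x hx => ?_⟩
  obtain ⟨r, hr⟩ := hw ⟨x, hx⟩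
  exact ⟨r, (congrArg Subtype.val hr).symm⟩

theorem HasIdx.bijective_prod {D : X →L[ℝ] Y} (h : HasIdx D 1) (hs : Function.Surjective D) {τ : X}
    (e : D τ = 0) {f : X →L[ℝ] ℝ} (hf : f τ ≠ 0) : Function.Bijective (D.prod f) := by
  have h1 := h.prod f
  rw [Module.finrank_self, Nat.cast_one, sub_self] at h1
  refine h1.bijective_iff.1.1 fun w => ?_
  obtain ⟨x, hx⟩ := hs w.1
  refine ⟨x + ((w.2 - f x) / f τ) • τ, Prod.ext ?_ ?_⟩
  · change D _ = _
    rw [map_add, map_smul, e, smul_zero, add_zero, hx]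
  · change f _ = _
    rw [map_add, map_smul, smul_eq_mul, div_mul_cancel₀ _ hf, add_sub_cancel]

/-- A surjective operator with finite-dimensional kernel is completed by functionals from a
separating family. -/
theorem exists_functionals {T : X →L[ℝ] Y} (hs : Function.Surjective T)
    [FiniteDimensional ℝ T.ker] {P : Set (X →L[ℝ] ℝ)} (hP : ∀ x, x ≠ 0 → ∃ f ∈ P, f x ≠ 0) :
    ∃ (b : ℕ) (f : Fin b → X →L[ℝ] ℝ), (∀ i, f i ∈ P) ∧
      Function.Bijective (T.prod (ContinuousLinearMap.pi f)) := by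
  let v : P → Module.Dual ℝ T.ker := fun f => f.1.toLinearMap ∘ₗ T.ker.subtype
  obtain ⟨κ, a, -, hsp, hli⟩ := exists_linearIndependent' ℝ v
  have := hli.finite
  obtain ⟨b, ⟨e⟩⟩ := Finite.exists_equiv_fin κ
  let L : T.ker →ₗ[ℝ] (Fin b → ℝ) := LinearMap.pi fun i => v (a (e.symm i))
  have hi : Function.Injective L := (injective_iff_map_eq_zero L).2 fun x hx => by
    by_contra h0
    obtain ⟨f, hf, hfx⟩ := hP x.1 fun h1 => h0 (Subtype.ext h1)
    have h1 : Submodule.span ℝ (range (v ∘ a)) ≤ LinearMap.ker (Module.Dual.eval ℝ _ x) := by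
      rw [Submodule.span_le]
      rintro _ ⟨k, rfl⟩
      obtain ⟨i, rfl⟩ := e.symm.surjective k
      exact congrFun hx i
    rw [hsp] at h1
    exact hfx (h1 (Submodule.subset_span ⟨⟨f, hf⟩, rfl⟩))
  have h1 := LinearMap.finrank_le_finrank_of_injective hi
  have h2 := (hli.comp e.symm e.symm.injective).fintype_card_le_finrank
  rw [Subspace.dual_finrank_eq, Fintype.card_fin] at h2
  have hs' : Function.Surjective L :=
    (LinearMap.injective_iff_surjective_of_finrank_eq_finrank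
      (le_antisymm h1 (by rwa [Module.finrank_fin_fun]))).1 hi
  refine ⟨b, fun i => (a (e.symm i)).1, fun i => (a (e.symm i)).2,
    (injective_iff_map_eq_zero _).2 fun x hx => ?_, fun w => ?_⟩
  · exact congrArg Subtype.val ((injective_iff_map_eq_zero L).1 hi ⟨x, congrArg Prod.fst hx⟩
      (congrArg Prod.snd hx))
  · obtain ⟨x, hx⟩ := hs w.1
    obtain ⟨u, hu⟩ := hs' (w.2 - fun i => (a (e.symm i)).1 x)
    have hu0 : T u.1 = 0 := u.2
    refine ⟨x + u.1, Prod.ext ?_ (funext fun i => ?_)⟩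
    · change T _ = _
      rw [map_add, hu0, add_zero, hx]
    · have h3 : (a (e.symm i)).1 u.1 = w.2 i - (a (e.symm i)).1 x := congrFun hu i
      change (a (e.symm i)).1 _ = _
      rw [map_add, h3, add_sub_cancel]

/-- Semi-Fredholm estimates. -/
theorem semiFred [CompleteSpace X] {T : X →L[ℝ] Y} {K : X →L[ℝ] Z} {c : ℝ}
    (h : ∀ x, ‖x‖ ≤ c * (‖T x‖ + ‖K x‖)) (hK : ∀ (x : ℕ → X) (M : ℝ), (∀ n, ‖x n‖ ≤ M) →
      ∃ φ : ℕ → ℕ, StrictMono φ ∧ CauchySeq fun n => K (x (φ n))) :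
    FiniteDimensional ℝ T.ker ∧ IsClosed (range T) ∧ ∀ N : Submodule ℝ X, IsClosed (N : Set X) →
      (∀ x ∈ N, T x = 0 → x = 0) → ∃ c' > 0, ∀ x ∈ N, ‖x‖ ≤ c' * ‖T x‖ := by
  have key := subseq_Idx h hK
  have h1 : FiniteDimensional ℝ T.ker := by
    refine FiniteDimensional.of_isCompact_closedBall₀ ℝ zero_lt_one
      (IsSeqCompact.isCompact fun x hx => ?_)
    have h0 : (fun n => T (x n).1) = fun _ => 0 := funext fun n => (x n).2
    obtain ⟨φ, a, hφ, ha, hTa⟩ := key (fun n => (x n).1) 1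
      (fun n => mem_closedBall_zero_iff.1 (hx n)) (by rw [h0]; exact tendsto_const_nhds)
    have ha' : Tendsto (x ∘ φ) atTop (𝓝 ⟨a, hTa⟩) := tendsto_subtype_rng.2 ha
    exact ⟨⟨a, hTa⟩, Metric.isClosed_closedBall.mem_of_tendsto ha'
      (Eventually.of_forall fun n => hx _), φ, hφ, ha'⟩
  have h3 : ∀ N : Submodule ℝ X, IsClosed (N : Set X) →
      (∀ x ∈ N, T x = 0 → x = 0) → ∃ c' > 0, ∀ x ∈ N, ‖x‖ ≤ c' * ‖T x‖ := fun N hN hN' => by
    by_contra hcon
    have h4 : ∀ n : ℕ, ∃ u ∈ N, ‖u‖ = 1 ∧ ‖T u‖ ≤ 1 / ((n : ℝ) + 1) := fun n => by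
      have hn : (0 : ℝ) < n + 1 := by positivity
      by_contra h5
      refine hcon ⟨_, hn, fun x hx => ?_⟩
      by_contra h6
      rw [not_le] at h6
      have h7 : 0 < ‖x‖ := lt_of_le_of_lt (by positivity) h6
      refine h5 ⟨‖x‖⁻¹ • x, N.smul_mem _ hx, norm_smul_inv_norm (norm_pos_iff.1 h7), ?_⟩
      rw [map_smul, norm_smul, norm_inv, norm_norm, inv_mul_eq_div, div_le_div_iff₀ h7 hn]
      linarith
    choose u hu hu1 hu2 using h4
    obtain ⟨φ, a, hφ, ha, hTa⟩ := key u 1 (fun n => (hu1 n).le)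
      (squeeze_zero_norm hu2 tendsto_one_div_add_atTop_nhds_zero_nat)
    have h5 : a = 0 := hN' a (hN.mem_of_tendsto ha (Eventually.of_forall fun n => hu _)) hTa
    have h6 := ha.norm
    simp only [hu1, h5, norm_zero] at h6
    exact one_ne_zero (tendsto_nhds_unique tendsto_const_nhds h6)
  refine ⟨h1, ?_, h3⟩
  obtain ⟨N, hN, hc⟩ := (Submodule.ClosedComplemented.of_finiteDimensional T.ker).exists_isClosed_isCompl
  obtain ⟨c', hc', hb⟩ := h3 N hN fun x hx h0 => (Submodule.disjoint_def.1 hc.disjoint) x h0 hx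
  have := hN.completeSpace_coe
  have ha : AntilipschitzWith ⟨c', hc'.le⟩ (T.comp N.subtypeL) :=
    (T.comp N.subtypeL).antilipschitz_of_bound fun y => hb y.1 y.2
  have e : range T = range (T.comp N.subtypeL) := by
    refine Subset.antisymm ?_ ?_
    · rintro _ ⟨x, rfl⟩
      obtain ⟨y, hy, z, hz, rfl⟩ := Submodule.mem_sup.1 (hc.sup_eq_top.ge (Submodule.mem_top (x := x)))
      have hy0 : T y = 0 := hy
      exact ⟨⟨z, hz⟩, by rw [map_add, hy0, zero_add]; rfl⟩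
    · rintro _ ⟨x, rfl⟩
      exact ⟨x.1, rfl⟩
  rw [e]
  exact ha.isClosed_range (T.comp N.subtypeL).uniformContinuous

end

end Pool.Agent.P.MP_de3acd_gt.FH
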