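import Pool.Agent.P.MP_de3acd_gt.FH.DopA
import Pool.Agent.P.MP_de3acd_gt.FH.Idx

/-! Frames: kmap, lmap, frm.
Sketch: toW_co, rep_toW_of_mem, Rep.sum, trW_co, inner_trW. The map p ↦ -J0 (l p) is a test function (bil_mem or directly).
frm_tsl: conjugate by the isometric equivalences trW a × id (inverse trW (-a)). frm_reindex: conjugate by
funLeft along the equivalences, which are isometries for the sup norm. Ell.tsl: nrm_tsl, dop commutes with tsl. -/

open Set Filter Topology MeasureTheory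
open scoped ContDiff NNReal ENNReal RealInnerProductSpace

namespace Pool.Agent.P.MP_de3acd_gt.FH

noncomputable section

variable {V : Type} [NormedAddCommGroup V] [InnerProductSpace ℝ V] [Sym V]
variable {α β : Type} [Fintype α] [Fintype β]

theorem J0_mem {l : Pl → V} (h : l ∈ Dsub V) : (fun p => -Sym.J0 (l p)) ∈ Dsub V := by
  obtain ⟨h1, h2, R, h3⟩ := h
  exact ⟨((Sym.J0 : V →L[ℝ] V).contDiff.comp h1).neg, fun s t => by simp only [h2 s t], R,
    fun p hp => by simp only [h3 p hp, map_zero, neg_zero]⟩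

theorem kmap_apply (K : α → Pl → V) (μ : α → ℝ) : kmap K μ = ∑ i, μ i • toW 1 (K i) := by
  simp [kmap, ContinuousLinearMap.sum_apply]

theorem lmap_apply (l : β → Pl → V) (ξ : W 2 V) (i : β) : lmap l ξ i = prW (l i) ξ := rfl

theorem mmap_apply (M : β → α → ℝ) (μ : α → ℝ) (i : β) : mmap M μ i = ∑ i', M i i' * μ i' := by
  simp [mmap, ContinuousLinearMap.sum_apply]

theorem exists_mmap (M : (α → ℝ) →L[ℝ] (β → ℝ)) : ∃ M', mmap M' = M := by
  classical
  refine ⟨fun i i' => M (Pi.single i' 1) i, ContinuousLinearMap.ext fun μ => funext fun i => ?_⟩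
  rw [mmap_apply]
  conv_rhs => rw [pi_eq_sum_univ' μ]
  rw [map_sum, Finset.sum_apply]
  refine Finset.sum_congr rfl fun i' _ => ?_
  rw [map_smul, Pi.smul_apply, smul_eq_mul, mul_comm]

theorem frm_apply (D : W 2 V →L[ℝ] W 1 V) (K : α → Pl → V) (l : β → Pl → V) (M : β → α → ℝ)
    (z : W 2 V × (α → ℝ)) : frm D K l M z =
      (D z.1 + ∑ i, z.2 i • toW 1 (K i), fun i => prW (l i) z.1 + ∑ i', M i i' * z.2 i') := by
  rw [frm, blk_apply, kmap_apply]
  refine Prod.ext rfl (funext fun i => ?_)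
  change prW (l i) z.1 + mmap M z.2 i = _
  rw [mmap_apply]

theorem rep_kmap {K : α → Pl → V} (h : TF K) (μ : α → ℝ) :
    Rep 1 (kmap K μ) fun p => ∑ i, μ i • K i p := by
  have e : (fun p => ∑ i, μ i • K i p) = ∑ i, μ i • K i := funext fun p => by
    simp only [Finset.sum_apply, Pi.smul_apply]
  rw [e, kmap_apply]
  exact Rep.sum _ (fun i _ => (rep_toW_of_mem 1 (h i)).smul (μ i))
    fun i _ => (h i).1.continuous.const_smul (μ i)

theorem sum_mem {K : α → Pl → V} (h : TF K) (μ : α → ℝ) : (fun p => ∑ i, μ i • K i p) ∈ Dsub V := by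
  have e : (fun p => ∑ i, μ i • K i p) = ∑ i, μ i • K i := funext fun p => by
    simp only [Finset.sum_apply, Pi.smul_apply]
  rw [e]
  exact Submodule.sum_mem _ fun i _ => Submodule.smul_mem _ _ (h i)

theorem prW_apply_Frm {l : Pl → V} (hl : l ∈ Dsub V) (ξ : W 2 V) :
    prW l ξ = ⟪to0 2 ξ, co 0 ⟨_, J0_mem hl⟩⟫ := by
  rw [← toW_co, real_inner_comm]
  rfl

theorem Rep.prW {ξ : W 2 V} {f l : Pl → V} (h : Rep 2 ξ f) (hl : l ∈ Dsub V) :
    prW l ξ = pair Ω0 f l := by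
  rw [prW_apply_Frm hl, h, ip_zero, pair]
  refine integral_congr_ae (Eventually.of_forall fun p => ?_)
  simp only [Ω0, inner_neg_right, inner_J0_left]

theorem prW_apply {l : Pl → V} (hl : l ∈ Dsub V) (ξ : W 2 V) :
    prW l ξ = ⟪to0 2 ξ, co 0 ⟨_, J0_mem hl⟩⟫ := prW_apply_Frm hl ξ

theorem prW_zero : prW (0 : Pl → V) = 0 := by
  ext ξ
  have e : (⟨_, J0_mem (Dsub V).zero_mem⟩ : Dsub V) = 0 := Subtype.ext (funext fun p => by simp)
  rw [prW_apply (Dsub V).zero_mem, e, map_zero, inner_zero_right]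
  rfl

theorem prW_add {l l' : Pl → V} (hl : l ∈ Dsub V) (hl' : l' ∈ Dsub V) :
    prW (l + l') = prW l + prW l' := by
  ext ξ
  have e : (⟨_, J0_mem ((Dsub V).add_mem hl hl')⟩ : Dsub V) = ⟨_, J0_mem hl⟩ + ⟨_, J0_mem hl'⟩ :=
    Subtype.ext (funext fun p => by simp [add_comm])
  rw [ContinuousLinearMap.add_apply, prW_apply ((Dsub V).add_mem hl hl'), prW_apply hl,
    prW_apply hl', e, map_add, inner_add_right]

theorem prW_smul (r : ℝ) {l : Pl → V} (hl : l ∈ Dsub V) : prW (r • l) = r • prW l := by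
  ext ξ
  have e : (⟨_, J0_mem ((Dsub V).smul_mem r hl)⟩ : Dsub V) = r • ⟨_, J0_mem hl⟩ :=
    Subtype.ext (funext fun p => by simp)
  rw [ContinuousLinearMap.smul_apply, prW_apply ((Dsub V).smul_mem r hl), prW_apply hl, e,
    map_smul, real_inner_smul_right, smul_eq_mul]

theorem norm_prW_le {l : Pl → V} (hl : l ∈ Dsub V) : ‖prW l‖ ≤ ‖toW 0 l‖ := by
  have e : ‖co 0 (⟨_, J0_mem hl⟩ : Dsub V)‖ = ‖toW 0 l‖ := by
    rw [toW_co 0 ⟨l, hl⟩, ← sq_eq_sq₀ (norm_nonneg _) (norm_nonneg _), norm_co_sq, norm_co_sq,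
      ip_zero, ip_zero]
    simp only [inner_neg_neg, Sym.iso]
  refine ContinuousLinearMap.opNorm_le_bound _ (norm_nonneg _) fun ξ => ?_
  rw [prW_apply hl, mul_comm, ← e]
  exact (norm_inner_le_norm _ _).trans
    (mul_le_mul_of_nonneg_right (norm_to0_le 2 ξ) (norm_nonneg _))

theorem exists_prW_pos {ξ : W 2 V} (h : ξ ≠ 0) : ∃ l ∈ Dsub V, 0 < prW l ξ := by
  by_contra hc
  push Not at hc
  refine h (eq_zero_of_inner_co fun ψ => ?_)
  have h1 := J0_mem ψ.2
  have h2 := (Dsub V).smul_mem (-1 : ℝ) h1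
  have e : (⟨_, J0_mem h2⟩ : Dsub V) = ψ := Subtype.ext (funext fun p => by simp [Sym.sq])
  have a1 := hc _ h1
  have a2 := hc _ h2
  have a3 := prW_apply h2 ξ
  rw [e] at a3
  rw [← a3]
  rw [prW_smul _ h1, ContinuousLinearMap.smul_apply, smul_eq_mul] at a2 ⊢
  linarith

theorem toW_tsl (k : ℕ) {φ : Pl → V} (h : φ ∈ Dsub V) (a : Pl) :
    toW k (tsl a φ) = trW k a (toW k φ) := by
  rw [toW_co k ⟨φ, h⟩, trW_co]
  exact toW_co k ⟨_, tsl_mem h a⟩

theorem prW_tsl {l : Pl → V} (hl : l ∈ Dsub V) (a : Pl) (ξ : W 2 V) :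
    prW (tsl a l) (trW 2 a ξ) = prW l ξ := by
  rw [prW_apply (tsl_mem hl a), prW_apply hl, to0_trW, ← inner_trW 0 a (to0 2 ξ), trW_co]
  rfl

theorem prW_sc {l : Pl → V} (hl : l ∈ Dsub V) {χ : Pl → ℝ} (hχ : Bdd χ) (hp : Per χ) {r : ℝ}
    (e : ∀ p, l p ≠ 0 → χ p = r) (ξ : W 2 V) : prW l (sc 2 χ ξ) = r * prW l ξ := by
  have e1 : sc 0 χ (co 0 (⟨_, J0_mem hl⟩ : Dsub V)) = co 0 (r • ⟨_, J0_mem hl⟩) := by
    refine sc_co (by norm_num) hχ hp _ _ fun p => ?_
    by_cases h : l p = 0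
    · simp [h]
    · simp [e p h]
  rw [prW_apply hl, prW_apply hl, sc, to0_mul le_rfl,
    inner_mul (B' := ContinuousLinearMap.lsmul ℝ ℝ) (c' := toCb χ) (fun p u v => by
      simp [real_inner_smul_left, real_inner_smul_right]), ← sc, e1, map_smul,
    real_inner_smul_right]

theorem sc_toW {k : ℕ} (hk : k ≤ 2) {φ : Pl → V} (h : φ ∈ Dsub V) {χ : Pl → ℝ} (hχ : Bdd χ)
    (hp : Per χ) {r : ℝ} (e : ∀ p, φ p ≠ 0 → χ p = r) : sc k χ (toW k φ) = r • toW k φ := by
  rw [toW_co k ⟨φ, h⟩, ← map_smul]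
  refine sc_co hk hχ hp _ _ fun p => ?_
  by_cases h : φ p = 0
  · simp [h]
  · simp [e p h]

theorem norm_kmap_sub_le (K K' : α → Pl → V) :
    ‖kmap K - kmap K'‖ ≤ ∑ i, ‖toW 1 (K i) - toW 1 (K' i)‖ := by
  refine ContinuousLinearMap.opNorm_le_bound _ (Finset.sum_nonneg fun _ _ => norm_nonneg _)
    fun μ => ?_
  rw [ContinuousLinearMap.sub_apply, kmap_apply, kmap_apply, ← Finset.sum_sub_distrib,
    Finset.sum_mul]
  refine norm_sum_le_of_le _ fun i _ => ?_
  rw [← smul_sub, norm_smul, mul_comm]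
  exact mul_le_mul_of_nonneg_left (norm_le_pi_norm μ i) (norm_nonneg _)

theorem norm_lmap_sub_le {l l' : β → Pl → V} (h : TF l) (h' : TF l') :
    ‖lmap l - lmap l'‖ ≤ ∑ i, ‖toW 0 (l i) - toW 0 (l' i)‖ := by
  have h0 : 0 ≤ ∑ i, ‖toW 0 (l i) - toW 0 (l' i)‖ := Finset.sum_nonneg fun _ _ => norm_nonneg _
  refine ContinuousLinearMap.opNorm_le_bound _ h0 fun ξ => ?_
  refine (pi_norm_le_iff_of_nonneg (mul_nonneg h0 (norm_nonneg _))).2 fun i => ?_
  have hm := (Dsub V).sub_mem (h i) (h' i)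
  have e1 : prW (l i) = prW (l i - l' i) + prW (l' i) := by
    rw [← prW_add hm (h' i), sub_add_cancel]
  have e2 : toW 0 (l i - l' i) = toW 0 (l i) - toW 0 (l' i) := by
    rw [toW_co 0 ⟨l i, h i⟩, toW_co 0 ⟨l' i, h' i⟩, ← map_sub]
    exact toW_co 0 ⟨_, hm⟩
  have e3 : (lmap l - lmap l') ξ i = prW (l i - l' i) ξ := by
    change prW (l i) ξ - prW (l' i) ξ = _
    rw [e1, ContinuousLinearMap.add_apply, add_sub_cancel_right]
  rw [e3]
  refine ((prW (l i - l' i)).le_opNorm ξ).trans (mul_le_mul_of_nonneg_right ?_ (norm_nonneg _))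
  refine (norm_prW_le hm).trans ?_
  rw [e2]
  exact Finset.single_le_sum (f := fun i => ‖toW 0 (l i) - toW 0 (l' i)‖)
    (fun _ _ => norm_nonneg _) (Finset.mem_univ i)

theorem norm_mmap_sub_le (M M' : β → α → ℝ) : ‖mmap M - mmap M'‖ ≤ Fintype.card α * ‖M - M'‖ := by
  have h0 : 0 ≤ Fintype.card α * ‖M - M'‖ := by positivity
  refine ContinuousLinearMap.opNorm_le_bound _ h0 fun μ => ?_
  refine (pi_norm_le_iff_of_nonneg (mul_nonneg h0 (norm_nonneg _))).2 fun i => ?_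
  rw [ContinuousLinearMap.sub_apply, Pi.sub_apply, mmap_apply, mmap_apply,
    ← Finset.sum_sub_distrib]
  refine (norm_sum_le_of_le (n := fun _ => ‖M - M'‖ * ‖μ‖) _ fun i' _ => ?_).trans ?_
  · rw [← sub_mul, norm_mul]
    exact mul_le_mul ((norm_le_pi_norm ((M - M') i) i').trans (norm_le_pi_norm (M - M') i))
      (norm_le_pi_norm μ i') (norm_nonneg _) (norm_nonneg _)
  · rw [Finset.sum_const, Finset.card_univ, nsmul_eq_mul, mul_assoc]

theorem hasIdx_of_frm {D : W 2 V →L[ℝ] W 1 V} {K : α → Pl → V} {l : β → Pl → V} {M : β → α → ℝ}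
    (h : Function.Bijective (frm D K l M)) : HasIdx D ((Fintype.card β : ℤ) - Fintype.card α) := by
  have := hasIdx_of_bij h
  rwa [Module.finrank_fintype_fun_eq_card, Module.finrank_fintype_fun_eq_card] at this

theorem bij_conj_Frm {X Y X' Y' : Type} [NormedAddCommGroup X] [NormedSpace ℝ X]
    [NormedAddCommGroup Y] [NormedSpace ℝ Y] [NormedAddCommGroup X'] [NormedSpace ℝ X']
    [NormedAddCommGroup Y'] [NormedSpace ℝ Y'] {T : X →L[ℝ] Y} {T' : X' →L[ℝ] Y'} {c : ℝ}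
    (e : X → X') (e' : Y → Y') (he : Function.Bijective e) (he' : Function.Bijective e')
    (n : ∀ x, ‖e x‖ = ‖x‖) (n' : ∀ y, ‖e' y‖ = ‖y‖) (h : ∀ x, T' (e x) = e' (T x)) :
    Bij T' c ↔ Bij T c := by
  have h1 : T' ∘ e = e' ∘ T := funext h
  refine and_congr ?_ ?_
  · rw [← he.of_comp_iff, h1, Function.Bijective.of_comp_iff' he']
  · rw [he.2.forall]
    simp only [h, n, n']

theorem frm_reindex {α' β' : Type} [Fintype α'] [Fintype β'] (e : α' ≃ α) (e' : β' ≃ β)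
    (D : W 2 V →L[ℝ] W 1 V) (K : α → Pl → V) (l : β → Pl → V) (M : β → α → ℝ) (c : ℝ) :
    Bij (frm D (K ∘ e) (l ∘ e') fun i i' => M (e' i) (e i')) c ↔ Bij (frm D K l M) c := by
  have nm : ∀ {a a' : Type} [Fintype a] [Fintype a'] (e : a' ≃ a) (μ : a → ℝ), ‖μ ∘ e‖ = ‖μ‖ :=
    fun e μ => e.surjective.pi_norm_comp μ
  refine bij_conj_Frm (Prod.map id fun μ => μ ∘ e) (Prod.map id fun ν => ν ∘ e')
    (Function.bijective_id.prodMap (e.symm.arrowCongr (Equiv.refl ℝ)).bijective)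
    (Function.bijective_id.prodMap (e'.symm.arrowCongr (Equiv.refl ℝ)).bijective)
    (fun z => ?_) (fun z => ?_) fun z => ?_
  · simp only [Prod.norm_def, Prod.map_fst, Prod.map_snd, id, nm]
  · simp only [Prod.norm_def, Prod.map_fst, Prod.map_snd, id, nm]
  · rw [frm_apply, frm_apply]
    refine Prod.ext ?_ (funext fun i => ?_)
    · exact congrArg (D z.1 + ·) (e.sum_comp fun i => z.2 i • toW 1 (K i))
    · exact congrArg (prW (l (e' i)) z.1 + ·) (e.sum_comp fun i' => M (e' i) i' * z.2 i')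

theorem frm_empty [IsEmpty α] [IsEmpty β] (D : W 2 V →L[ℝ] W 1 V) (K : α → Pl → V)
    (l : β → Pl → V) (M : β → α → ℝ) :
    (Function.Surjective (frm D K l M) ↔ Function.Surjective D) ∧
      (Function.Bijective (frm D K l M) ↔ Function.Bijective D) := by
  have h : ∀ z : W 2 V × (α → ℝ), frm D K l M z = (D z.1, 0) := fun z => by
    rw [frm_apply]
    exact Prod.ext (by simp) (Subsingleton.elim _ _)
  have hs : Function.Surjective (frm D K l M) ↔ Function.Surjective D := by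
    refine ⟨fun hs y => ?_, fun hs y => ?_⟩
    · obtain ⟨z, hz⟩ := hs (y, 0)
      rw [h] at hz
      exact ⟨z.1, congrArg Prod.fst hz⟩
    · obtain ⟨x, hx⟩ := hs y.1
      exact ⟨(x, 0), by rw [h]; exact Prod.ext hx (Subsingleton.elim _ _)⟩
  refine ⟨hs, and_congr ⟨fun hi x y e => ?_, fun hi z w e => ?_⟩ hs⟩
  · have : frm D K l M (x, 0) = frm D K l M (y, 0) := by rw [h, h, e]
    exact congrArg Prod.fst (hi this)
  · rw [h, h] at e
    exact Prod.ext (hi (congrArg Prod.fst e)) (Subsingleton.elim _ _)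

variable {σ : ℝ} {j S : Pl → V →L[ℝ] V}

theorem endEst_tsl_Frm (h : Coef σ j S) (e : EndEst σ j S) (a : Pl) :
    EndEst σ (tsl a j) (tsl a S) := by
  obtain ⟨R, c, hc⟩ := e
  refine ⟨R + |a.1|, c, fun φ hφ h0 => ?_⟩
  have hψ := tsl_mem hφ (-a)
  have e1 : tsl a (tsl (-a) φ) = φ := by rw [tsl_tsl, add_neg_cancel, tsl_zero]
  have e2 : dop σ (tsl a j) (tsl a S) (tsl a (tsl (-a) φ)) = tsl a (dop σ j S (tsl (-a) φ)) :=
    funext fun p => by
      rw [dop, ds_tsl a, dt_tsl a]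
      rfl
  have h1 := nrm_tsl 1 hψ.1 hψ.2.1 a MeasurableSet.univ
  have h2 := nrm_tsl 0 (contDiff_dop h hψ.1) (per_dop h hψ.2.1) a MeasurableSet.univ
  rw [preimage_univ] at h1 h2
  rw [← e2, e1] at h2
  rw [e1] at h1
  rw [h1, h2]
  refine hc _ hψ fun p hp => h0 _ ?_
  have := abs_add_le p.1 (-a.1)
  rw [abs_neg] at this
  change |p.1 + -a.1| ≤ _
  linarith

theorem Ell.tsl (h : Ell σ j S) (a : Pl) : Ell σ (tsl a j) (tsl a S) := by
  refine ⟨h.toCoef.tsl a, endEst_tsl_Frm h.toCoef h.est a, ?_⟩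
  have e : adS (FH.tsl a j) (FH.tsl a S) = FH.tsl a (adS j S) := funext fun p => by
    rw [adS, dt_tsl]
    rfl
  rw [e]
  exact endEst_tsl_Frm h.toCoef.adj h.est' a

/-- Translation as an equivalence. -/
def trE_Frm (k : ℕ) (a : Pl) : W k V ≃L[ℝ] W k V :=
  ContinuousLinearEquiv.equivOfInverse (trW k a) (trW k (-a))
    (fun ξ => by rw [← trW_add, neg_add_cancel, trW_zero])
    fun ξ => by rw [← trW_add, add_neg_cancel, trW_zero]

theorem frm_tsl (h : Coef σ j S) {K : α → Pl → V} {l : β → Pl → V} (hK : TF K) (hl : TF l)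
    (M : β → α → ℝ) (a : Pl) {c : ℝ} (e : Bij (frm (Dop 1 σ j S) K l M) c) :
    Bij (frm (Dop 1 σ (tsl a j) (tsl a S)) (fun i => tsl a (K i)) (fun i => tsl a (l i)) M) c := by
  refine (bij_conj_Frm (Prod.map (trW 2 a) id) (Prod.map (trW 1 a) id)
    ((trE_Frm 2 a).bijective.prodMap Function.bijective_id)
    ((trE_Frm 1 a).bijective.prodMap Function.bijective_id)
    (fun z => ?_) (fun z => ?_) fun z => ?_).2 e
  · simp only [Prod.norm_def, Prod.map_fst, Prod.map_snd, id, norm_trW]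
  · simp only [Prod.norm_def, Prod.map_fst, Prod.map_snd, id, norm_trW]
  · rw [frm_apply, frm_apply]
    refine Prod.ext ?_ (funext fun i => ?_)
    · simp only [Prod.map_fst, Prod.map_snd, id, map_add, map_sum, map_smul, trW_Dop le_rfl h,
        toW_tsl 1 (hK _)]
    · simp only [Prod.map_fst, Prod.map_snd, id, prW_tsl (hl _)]

theorem hasIdx_tsl (h : Coef σ j S) (a : Pl) {n : ℤ} :
    HasIdx (Dop 1 σ (tsl a j) (tsl a S)) n ↔ HasIdx (Dop 1 σ j S) n := by
  have e : ∀ ξ, Dop 1 σ (tsl a j) (tsl a S) (trE_Frm 2 a ξ) = trE_Frm 1 a (Dop 1 σ j S ξ) :=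
    fun ξ => (trW_Dop le_rfl h a ξ).symm
  refine ⟨fun h' => h'.conj (trE_Frm 2 a).symm (trE_Frm 1 a).symm fun ξ => ?_,
    fun h' => h'.conj (trE_Frm 2 a) (trE_Frm 1 a) e⟩
  rw [ContinuousLinearEquiv.eq_symm_apply, ← e, ContinuousLinearEquiv.apply_symm_apply]

theorem surjective_tsl (h : Coef σ j S) (a : Pl) {A : Type} [NormedAddCommGroup A] [NormedSpace ℝ A]
    (K : A →L[ℝ] W 1 V) :
    Function.Surjective ((Dop 1 σ (tsl a j) (tsl a S)).coprod ((trW 1 a).comp K)) ↔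
      Function.Surjective ((Dop 1 σ j S).coprod K) := by
  have e : ((Dop 1 σ (tsl a j) (tsl a S)).coprod ((trW 1 a).comp K)) ∘ Prod.map (trW 2 a) id =
      trW 1 a ∘ (Dop 1 σ j S).coprod K := funext fun z => by
    simp only [Function.comp, ContinuousLinearMap.coprod_apply, Prod.map_fst, Prod.map_snd, id,
      map_add, trW_Dop le_rfl h, ContinuousLinearMap.comp_apply]
  have b : Function.Bijective (Prod.map (trW 2 a : W 2 V → W 2 V) (id : A → A)) :=
    (trE_Frm 2 a).bijective.prodMap Function.bijective_id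
  have b' : Function.Bijective (trW 1 a : W 1 V → W 1 V) := (trE_Frm 1 a).bijective
  rw [← Function.Surjective.of_comp_iff _ b.2, e, Function.Surjective.of_comp_iff' b']

end

end Pool.Agent.P.MP_de3acd_gt.FH
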