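import Pool.Agent.P.MP_de3acd_gt.FH.Fred
import Pool.Agent.P.MP_de3acd_gt.FH.Frm

/-! Surjectivity of framed operators, existence of frames.
Sketch of surjective_blk: D' is the adjoint operator. If T = blk D K (lmap l) M is not onto, there is a nonzero LINEAR
functional (Λ, ν) vanishing on the range (Submodule.exists_le_ker_of_lt_top). On ker D: ∑ ν i * prW (l i) n = 0, so
λ = ∑ ν i • toW 1 (-J0 l i) is orthogonal to ker D = ker D'' and -λ = D' ζ₁ (Ell.adj.mem_range_iff, adJ_adJ, adS_adS).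
Λ - ⟪·, ζ₁⟫ vanishes on range D, the common kernel of the finitely many functionals ⟪·, ζ⟫, ζ in a basis of ker D';
mem_span_of_iInf_ker_le_ker gives Λ = ⟪·, ζ₁ + ζ₀⟫. The hypothesis for ζ = ζ₀ + ζ₁ gives Λ = 0, ν = 0.
exists_K: the linear map Dsub V → Dual (ker D'), ψ ↦ ⟪co ψ, ·⟫; pick finitely many ψ whose common annihilator in ker D'
is 0 (induction on finrank, eq_zero_of_inner_co; exists_functionals for the zero map on ker D' also does it).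
exists_l: exists_functionals for T = D.coprod K and P = {(prW l).coprod m}, exists_prW_pos. -/

open Set Filter Topology MeasureTheory
open scoped ContDiff NNReal ENNReal RealInnerProductSpace

namespace Pool.Agent.P.MP_de3acd_gt.FH

noncomputable section

section alg

variable {X Y N : Type} [AddCommGroup X] [Module ℝ X] [AddCommGroup Y] [Module ℝ Y]
  [AddCommGroup N] [Module ℝ N]

theorem fun_FrOnto (b : Y →ₗ[ℝ] X →ₗ[ℝ] ℝ) (D D' : X →ₗ[ℝ] Y) [FiniteDimensional ℝ D'.ker]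
    (hr : ∀ y, (∀ z, D' z = 0 → b y z = 0) → ∃ x, D x = y) (Λ : Y →ₗ[ℝ] ℝ)
    (hΛ : ∀ x, Λ (D x) = 0) : ∃ z, D' z = 0 ∧ ∀ y, Λ y = b y z := by
  let v := Module.finBasis ℝ D'.ker
  have h1 : Λ ∈ Submodule.span ℝ (range fun i => b.flip (v i).1) := by
    refine mem_span_of_iInf_ker_le_ker fun y hy => ?_
    obtain ⟨x, rfl⟩ := hr y fun z hz => by
      have e : (b y).comp D'.ker.subtype = 0 := v.ext fun i => (Submodule.mem_iInf _).1 hy i
      exact LinearMap.congr_fun e ⟨z, hz⟩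
    exact hΛ x
  have h2 : Submodule.span ℝ (range fun i => b.flip (v i).1) ≤ D'.ker.map b.flip :=
    Submodule.span_le.2 (range_subset_iff.2 fun i => ⟨(v i).1, (v i).2, rfl⟩)
  obtain ⟨z, hz, rfl⟩ := h2 h1
  exact ⟨z, hz, fun _ => rfl⟩

theorem top_FrOnto (b : Y →ₗ[ℝ] X →ₗ[ℝ] ℝ) (D D' : X →ₗ[ℝ] Y) [FiniteDimensional ℝ D'.ker]
    (hr : ∀ y, (∀ z, D' z = 0 → b y z = 0) → ∃ x, D x = y) (P : Submodule ℝ Y)
    (hP : ∀ z, D' z = 0 → (∀ y ∈ P, b y z = 0) → z = 0) (η : Y) : ∃ x, ∃ y ∈ P, D x + y = η := by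
  have : D.range ⊔ P = ⊤ := by
    by_contra hne
    obtain ⟨f, f0, hf⟩ := Submodule.exists_le_ker_of_lt_top _ (lt_top_iff_ne_top.2 hne)
    obtain ⟨z, hz, e⟩ := fun_FrOnto b D D' hr f fun x => hf (Submodule.mem_sup_left ⟨x, rfl⟩)
    have := hP z hz fun y hy => (e y).symm.trans (hf (Submodule.mem_sup_right hy))
    exact f0 (LinearMap.ext fun y => by rw [e, this, map_zero, LinearMap.zero_apply])
  obtain ⟨_, ⟨x, rfl⟩, y, hy, e⟩ := Submodule.mem_sup.1 (this.ge (Submodule.mem_top (x := η)))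
  exact ⟨x, y, hy, e⟩

theorem fin_FrOnto [FiniteDimensional ℝ N] {ι : Type} (φ : ι → N →ₗ[ℝ] ℝ)
    (h : ∀ x, x ≠ 0 → ∃ i, φ i x ≠ 0) : ∃ s : Finset ι, ∀ x, (∀ i ∈ s, φ i x = 0) → x = 0 := by
  classical
  obtain ⟨_, ⟨s, rfl⟩, hs⟩ := IsArtinian.set_has_minimal (R := ℝ) (M := N)
    (range fun s : Finset ι => ⨅ i ∈ s, (φ i).ker) (range_nonempty _)
  refine ⟨s, fun x hx => by_contra fun h0 => ?_⟩
  obtain ⟨i, hi⟩ := h x h0
  refine hs _ ⟨insert i s, rfl⟩ (lt_of_le_of_ne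
    (biInf_mono fun i hi => Finset.mem_insert_of_mem hi) fun e => hi ?_)
  have h1 : x ∈ ⨅ i ∈ s, (φ i).ker := by
    simp only [Submodule.mem_iInf]
    exact hx
  have h2 : x ∈ ⨅ i' ∈ insert i s, (φ i').ker := e.ge h1
  simp only [Submodule.mem_iInf] at h2
  exact h2 i (Finset.mem_insert_self i s)

theorem blk_FrOnto {A β : Type} [AddCommGroup A] [Module ℝ A] [Fintype β] (b : Y →ₗ[ℝ] X →ₗ[ℝ] ℝ)
    (D D' : X →ₗ[ℝ] Y) [FiniteDimensional ℝ D'.ker]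
    (hr : ∀ y, (∀ z, D' z = 0 → b y z = 0) → ∃ x, D x = y)
    (hr' : ∀ y, (∀ z, D z = 0 → b y z = 0) → ∃ x, D' x = y)
    (ha : ∀ x z, b (D x) z = b (D' z) x) (K : A →ₗ[ℝ] Y) (w : β → Y) (M : A →ₗ[ℝ] β → ℝ)
    (e : ∀ (z : X) (ν : β → ℝ), D' z + ∑ i, ν i • w i = 0 →
      (∀ a, b (K a) z + ∑ i, ν i * M a i = 0) → z = 0 ∧ ν = 0)
    (T : X × A →ₗ[ℝ] Y × (β → ℝ))
    (hT : ∀ x a, T (x, a) = (D x + K a, fun i => b (w i) x + M a i)) : Function.Surjective T := by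
  classical
  by_contra hne
  rw [← LinearMap.range_eq_top] at hne
  obtain ⟨f, f0, hf⟩ := Submodule.exists_le_ker_of_lt_top _ (lt_top_iff_ne_top.2 hne)
  obtain ⟨Λ, hΛ⟩ : ∃ Λ : Y →ₗ[ℝ] ℝ, ∀ y, Λ y = f (y, 0) :=
    ⟨f.comp (LinearMap.inl ℝ _ _), fun _ => rfl⟩
  obtain ⟨ν, hν⟩ : ∃ ν : β → ℝ, ∀ μ, f (0, μ) = ∑ i, ν i * μ i :=
    ⟨fun i => f (0, fun j => if i = j then 1 else 0), fun μ => by
      have := LinearMap.pi_apply_eq_sum_univ (f.comp (LinearMap.inr ℝ _ _)) μ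
      simp only [LinearMap.comp_apply, LinearMap.inr_apply, smul_eq_mul] at this
      rw [this]
      exact Finset.sum_congr rfl fun i _ => mul_comm _ _⟩
  have hf' : ∀ y μ, f (y, μ) = Λ y + ∑ i, ν i * μ i := fun y μ => by
    rw [hΛ, ← hν, ← map_add, Prod.mk_add_mk, add_zero, zero_add]
  have key : ∀ x a, Λ (D x) + Λ (K a) + (b (∑ i, ν i • w i) x + ∑ i, ν i * M a i) = 0 := by
    intro x a
    have : f (T (x, a)) = 0 := hf ⟨_, rfl⟩
    rw [hT, hf', map_add] at this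
    rw [← this, map_sum, LinearMap.sum_apply, ← Finset.sum_add_distrib]
    refine congrArg _ (Finset.sum_congr rfl fun i _ => ?_)
    rw [map_smul, LinearMap.smul_apply, smul_eq_mul, mul_add]
  have k1 : ∀ x, Λ (D x) + b (∑ i, ν i • w i) x = 0 := fun x => by simpa using key x 0
  have k2 : ∀ a, Λ (K a) + ∑ i, ν i * M a i = 0 := fun a => by simpa using key 0 a
  obtain ⟨z₁, h1⟩ := hr' (-∑ i, ν i • w i) fun z hz => by
    have := k1 z
    rw [hz, map_zero, zero_add] at this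
    rw [map_neg, LinearMap.neg_apply, this, neg_zero]
  obtain ⟨z₀, h0, h2⟩ := fun_FrOnto b D D' hr (Λ - b.flip z₁) fun x => by
    rw [LinearMap.sub_apply, LinearMap.flip_apply, ha, h1, map_neg, LinearMap.neg_apply,
      sub_neg_eq_add, k1]
  have h3 : ∀ y, Λ y = b y (z₀ + z₁) := fun y => by
    rw [map_add, ← h2, LinearMap.sub_apply, LinearMap.flip_apply, sub_add_cancel]
  obtain ⟨e1, e2⟩ := e (z₀ + z₁) ν (by rw [map_add, h0, h1, zero_add, neg_add_cancel])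
    fun a => by rw [← h3, k2]
  refine f0 (LinearMap.ext fun p => ?_)
  rw [show p = (p.1, p.2) from rfl, hf', h3, e1, e2]
  simp

theorem ker_FrOnto {A : Type} [AddCommGroup A] [Module ℝ A] [FiniteDimensional ℝ A]
    (D : X →ₗ[ℝ] Y) [FiniteDimensional ℝ D.ker] (T : X × A →ₗ[ℝ] Y) (hT : ∀ x, T (x, 0) = D x) :
    FiniteDimensional ℝ T.ker := by
  refine Module.Finite.iff_fg.2 (Submodule.fg_of_fg_map_of_fg_inf_ker (LinearMap.snd ℝ X A)
    (Submodule.FG.of_finite) ?_)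
  have : T.ker ⊓ (LinearMap.snd ℝ X A).ker = D.ker.map (LinearMap.inl ℝ X A) := by
    ext ⟨x, a⟩
    constructor
    · rintro ⟨h1, h2⟩
      obtain rfl : a = 0 := h2
      exact ⟨x, (hT x).symm.trans h1, rfl⟩
    · rintro ⟨x', h1, h2⟩
      rw [← h2]
      exact ⟨(hT x').trans h1, rfl⟩
  rw [this]
  exact (Module.Finite.iff_fg.1 inferInstance).map _

end alg

variable {V : Type} [NormedAddCommGroup V] [InnerProductSpace ℝ V] [Sym V]
variable {α β : Type} [Fintype α] [Fintype β]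
variable {A B : Type} [NormedAddCommGroup A] [NormedSpace ℝ A] [NormedAddCommGroup B]
  [NormedSpace ℝ B]

variable {σ : ℝ} {j S : Pl → V →L[ℝ] V}

/-- The pairing. -/
def pr_FrOnto : W 1 V →ₗ[ℝ] W 2 V →ₗ[ℝ] ℝ :=
  (innerₗ (W 0 V)).compl₁₂ (to0 1 : W 1 V →L[ℝ] W 0 V).toLinearMap
    (to0 2 : W 2 V →L[ℝ] W 0 V).toLinearMap

theorem hr_FrOnto (h : Ell σ j S) (y : W 1 V) (e : ∀ z,
    (Dop 1 (-σ) (adJ j) (adS j S)).toLinearMap z = 0 → pr_FrOnto y z = 0) :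
    ∃ x, (Dop 1 σ j S).toLinearMap x = y := (h.mem_range_iff y).2 e

theorem hr'_FrOnto (h : Ell σ j S) (y : W 1 V) (e : ∀ z,
    (Dop 1 σ j S).toLinearMap z = 0 → pr_FrOnto y z = 0) :
    ∃ x, (Dop 1 (-σ) (adJ j) (adS j S)).toLinearMap x = y := by
  refine (h.adj.mem_range_iff y).2 ?_
  rw [neg_neg, adJ_adJ, adS_adS h.bj.1]
  exact e

theorem ha_FrOnto (h : Ell σ j S) (x z : W 2 V) : pr_FrOnto ((Dop 1 σ j S).toLinearMap x) z =
    pr_FrOnto ((Dop 1 (-σ) (adJ j) (adS j S)).toLinearMap z) x :=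
  (inner_Dop₁ h.toCoef x z).trans (real_inner_comm _ _)

theorem finset_FrOnto (h : Ell σ j S) {ι : Type} (k : ι → W 1 V) (e : ∀ ζ : W 2 V,
    Dop 1 (-σ) (adJ j) (adS j S) ζ = 0 → ζ ≠ 0 → ∃ i, ⟪to0 1 (k i), to0 2 ζ⟫ ≠ 0) :
    ∃ s : Finset ι, ∀ η : W 1 V, ∃ (ξ : W 2 V) (μ : ι → ℝ),
      Dop 1 σ j S ξ + ∑ i ∈ s, μ i • k i = η := by
  have := h.adj.finiteDimensional
  obtain ⟨s, hs⟩ := fin_FrOnto (N := (Dop 1 (-σ) (adJ j) (adS j S)).ker)
    (fun i => (pr_FrOnto (k i)).comp (Submodule.subtype _))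
    fun x hx => e x.1 x.2 fun h0 => hx (Subtype.ext h0)
  refine ⟨s, fun η => ?_⟩
  obtain ⟨x, y, hy, e'⟩ := top_FrOnto pr_FrOnto _ _ (hr_FrOnto h) (Submodule.span ℝ (k '' s))
    (fun z hz hP => congrArg Subtype.val (hs ⟨z, hz⟩ fun i hi =>
      hP _ (Submodule.subset_span ⟨i, hi, rfl⟩))) η
  obtain ⟨μ, rfl⟩ := (Submodule.mem_span_image_finset_iff_exists_fun' ℝ).1 hy
  exact ⟨x, μ, e'⟩

theorem Ell.surjective_blk (h : Ell σ j S) (K : A →L[ℝ] W 1 V) {l : β → Pl → V} (hl : TF l)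
    (M : A →L[ℝ] (β → ℝ)) (e : ∀ (ζ : W 2 V) (ν : β → ℝ),
      Dop 1 (-σ) (adJ j) (adS j S) ζ + ∑ i, ν i • toW 1 (fun p => -Sym.J0 (l i p)) = 0 →
        (∀ a, ⟪to0 1 (K a), to0 2 ζ⟫ + ∑ i, ν i * M a i = 0) → ζ = 0 ∧ ν = 0) :
    Function.Surjective (blk (Dop 1 σ j S) K (lmap l) M) := by
  have := h.adj.finiteDimensional
  refine blk_FrOnto pr_FrOnto _ _ (hr_FrOnto h) (hr'_FrOnto h) (ha_FrOnto h) K.toLinearMap
    (fun i => toW 1 fun p => -Sym.J0 (l i p)) M.toLinearMap e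
    (blk (Dop 1 σ j S) K (lmap l) M).toLinearMap fun x a => Prod.ext rfl (funext fun i => ?_)
  change prW (l i) x + M a i = ⟪to0 1 (toW 1 fun p => -Sym.J0 (l i p)), to0 2 x⟫ + M a i
  rw [prW_apply (hl i), toW_co 1 ⟨_, J0_mem (hl i)⟩, to0_co, real_inner_comm]

theorem Ell.surjective_coprod_iff (h : Ell σ j S) (K : A →L[ℝ] W 1 V) :
    Function.Surjective ((Dop 1 σ j S).coprod K) ↔ ∀ ζ : W 2 V,
      Dop 1 (-σ) (adJ j) (adS j S) ζ = 0 → (∀ a, ⟪to0 1 (K a), to0 2 ζ⟫ = 0) → ζ = 0 := by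
  constructor
  · intro hs ζ h0 hK
    refine eq_zero_of_inner_co fun ψ => ?_
    obtain ⟨⟨x, a⟩, e⟩ := hs (co 1 ψ)
    rw [ContinuousLinearMap.coprod_apply] at e
    rw [real_inner_comm, ← to0_co 1 ψ, ← e, map_add, inner_add_left, hK, inner_Dop₁ h.toCoef, h0,
      map_zero, inner_zero_right, add_zero]
  · intro e η
    have := h.adj.finiteDimensional
    obtain ⟨x, _, ⟨a, rfl⟩, e'⟩ := top_FrOnto pr_FrOnto _ _ (hr_FrOnto h) K.toLinearMap.range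
      (fun z hz hP => e z hz fun a => hP _ ⟨a, rfl⟩) η
    exact ⟨(x, a), e'⟩

theorem Ell.exists_K (h : Ell σ j S) : ∃ (a : ℕ) (K : Fin a → Pl → V), TF K ∧
    Function.Surjective ((Dop 1 σ j S).coprod (kmap K)) := by
  obtain ⟨s, hs⟩ := finset_FrOnto h (fun ψ : Dsub V => co 1 ψ) fun ζ _ h0 => by
    by_contra hc
    refine h0 (eq_zero_of_inner_co fun ψ => ?_)
    rw [real_inner_comm, ← to0_co 1 ψ]
    exact by_contra fun h1 => hc ⟨ψ, h1⟩
  refine ⟨s.card, fun i => (s.equivFin.symm i).1.1, fun i => (s.equivFin.symm i).1.2, fun η => ?_⟩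
  obtain ⟨ξ, μ, e⟩ := hs η
  refine ⟨(ξ, fun i => μ (s.equivFin.symm i).1), ?_⟩
  rw [ContinuousLinearMap.coprod_apply, kmap_apply, ← e, ← Finset.sum_coe_sort s,
    ← Equiv.sum_comp s.equivFin.symm]
  exact congrArg _ (Finset.sum_congr rfl fun i _ => by rw [toW_co])

theorem Ell.exists_l (h : Ell σ j S) {K : α → Pl → V}
    (e : Function.Surjective ((Dop 1 σ j S).coprod (kmap K))) :
    ∃ (b : ℕ) (l : Fin b → Pl → V) (M : Fin b → α → ℝ), TF l ∧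
      Function.Bijective (frm (Dop 1 σ j S) K l M) := by
  classical
  have := h.finiteDimensional
  have : FiniteDimensional ℝ ((Dop 1 σ j S).coprod (kmap K)).ker :=
    ker_FrOnto (Dop 1 σ j S).toLinearMap _ fun x => by
      change Dop 1 σ j S x + kmap K 0 = Dop 1 σ j S x
      rw [map_zero, add_zero]
  obtain ⟨b, f, hf, hb⟩ := exists_functionals e (P := {f | ∃ l ∈ Dsub V, ∃ m : α → ℝ,
      ∀ z, f z = prW l z.1 + ∑ i, m i * z.2 i}) fun z hz => by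
    by_cases h1 : z.1 = 0
    · obtain ⟨i, hi⟩ : ∃ i, z.2 i ≠ 0 :=
        Function.ne_iff.1 fun h2 => hz (Prod.ext h1 h2)
      refine ⟨(ContinuousLinearMap.proj i).comp (ContinuousLinearMap.snd ℝ _ _),
        ⟨0, zero_mem _, Pi.single i 1, fun z => ?_⟩, hi⟩
      rw [prW_zero]
      simp [Pi.single_apply]
    · obtain ⟨l, hl, hp⟩ := exists_prW_pos h1
      exact ⟨(prW l).comp (ContinuousLinearMap.fst ℝ _ _), ⟨l, hl, 0, fun z => by simp⟩, hp.ne'⟩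
  choose l hl M hM using hf
  refine ⟨b, l, M, hl, ?_⟩
  have e' : frm (Dop 1 σ j S) K l M =
      ((Dop 1 σ j S).coprod (kmap K)).prod (ContinuousLinearMap.pi f) := by
    refine ContinuousLinearMap.ext fun z => Prod.ext rfl (funext fun i => ?_)
    change prW (l i) z.1 + mmap M z.2 i = f i z
    rw [mmap_apply, hM]
  rw [e']
  exact hb

theorem Ell.exists_frame (h : Ell σ j S) : ∃ (a b : ℕ) (K : Fin a → Pl → V) (l : Fin b → Pl → V)
    (M : Fin b → Fin a → ℝ), TF K ∧ TF l ∧ Function.Bijective (frm (Dop 1 σ j S) K l M) := by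
  obtain ⟨a, K, hK, e⟩ := h.exists_K
  obtain ⟨b, l, M, hl, e'⟩ := h.exists_l e
  exact ⟨a, b, K, l, M, hK, hl, e'⟩

theorem Ell.exists_hasIdx (h : Ell σ j S) : ∃ n, HasIdx (Dop 1 σ j S) n := by
  obtain ⟨a, b, K, l, M, -, -, e⟩ := h.exists_frame
  exact ⟨_, a, b, kmap K, lmap l, mmap M, e, rfl⟩

/-- Finitely many directions from a family that separates the cokernel make the operator onto. -/
theorem Ell.exists_finset (h : Ell σ j S) {ι : Type} (k : ι → W 1 V) (e : ∀ ζ : W 2 V,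
    Dop 1 (-σ) (adJ j) (adS j S) ζ = 0 → ζ ≠ 0 → ∃ i, ⟪to0 1 (k i), to0 2 ζ⟫ ≠ 0) :
    ∃ s : Finset ι, ∀ η : W 1 V, ∃ (ξ : W 2 V) (μ : ι → ℝ),
      Dop 1 σ j S ξ + ∑ i ∈ s, μ i • k i = η := finset_FrOnto h k e

end

end Pool.Agent.P.MP_de3acd_gt.FH
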