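import Pool.Agent.P.MP_de3acd_gt.FH.LG
import Pool.Agent.P.MP_de3acd_gt.FH.FrOnto

/-! Consequences of linear gluing: additivity of the index, surjectivity, two pieces.
Sketch: idx_glue: Ell.exists_frame for each piece, linGlue, hasIdx_of_frm, HasIdx.unique, Fintype.card_sigma.
onto_glue: α i = α if i = i₀ and empty otherwise (e.g. α i = {a : α // i = i₀}); Ell.exists_l for each piece; linGlue;
Bij.eventually to replace the translated K by K' n (norm_blk_sub_le); read off surjectivity.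
linGlue₂: k = 2, frm_reindex along Fin (a + a') ≃ Σ i : Fin 2, Fin (![a, a'] i) (finSumFinEquiv, finSigmaFinEquiv or by hand);
it may be easier to index by α i = Fin (if i = 0 then a else a') or by pattern matching on i. -/

open Set Filter Topology MeasureTheory
open scoped ContDiff NNReal ENNReal RealInnerProductSpace

namespace Pool.Agent.P.MP_de3acd_gt.FH

noncomputable section

variable {V : Type} [NormedAddCommGroup V] [InnerProductSpace ℝ V] [Sym V]
variable {α β : Type} [Fintype α] [Fintype β]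

theorem surj_comp_LG2 {α' : Type} [Fintype α'] (D : W 2 V →L[ℝ] W 1 V) (K : α → Pl → V)
    (f : α' → α) (h : Function.Surjective (D.coprod (kmap (K ∘ f)))) :
    Function.Surjective (D.coprod (kmap K)) := by
  classical
  intro y
  obtain ⟨⟨ξ, μ⟩, rfl⟩ := h y
  refine ⟨(ξ, fun a => ∑ a' with f a' = a, μ a'), ?_⟩
  simp only [ContinuousLinearMap.coprod_apply, kmap_apply, Finset.sum_smul, Function.comp_apply]
  rw [← Finset.sum_fiberwise Finset.univ f]
  congr 1
  refine Finset.sum_congr rfl fun a _ => Finset.sum_congr rfl fun a' ha' => ?_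
  rw [(Finset.mem_filter.1 ha').2]

theorem surj_frm_LG2 {D : W 2 V →L[ℝ] W 1 V} {K : α → Pl → V} {l : β → Pl → V} {M : β → α → ℝ}
    (h : Function.Surjective (frm D K l M)) : Function.Surjective (D.coprod (kmap K)) :=
  surjective_coprod_of_blk h

theorem congr_LG2 {D : W 2 V →L[ℝ] W 1 V} {K K' : α → Pl → V} {l l' : β → Pl → V}
    {M M' : β → α → ℝ} {c : ℝ} (h : Bij (frm D K l M) c) (eK : K' = K) (el : l' = l)
    (eM : M' = M) : Bij (frm D K' l' M') c := by
  rwa [eK, el, eM]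

/-- Two summands as a sigma type. -/
def sum_LG2 (a a' : ℕ) : Fin a ⊕ Fin a' ≃ Σ i : Fin 2, Fin (![a, a'] i) where
  toFun := Sum.elim (fun x => ⟨0, x⟩) fun x => ⟨1, x⟩
  invFun := fun
    | ⟨0, x⟩ => .inl x
    | ⟨1, x⟩ => .inr x
  left_inv := by rintro (x | x) <;> rfl
  right_inv := fun
    | ⟨0, _⟩ => rfl
    | ⟨1, _⟩ => rfl

/-- Two blocks as a sigma type. -/
def sig_LG2 (a a' : ℕ) : Fin (a + a') ≃ Σ i : Fin 2, Fin (![a, a'] i) :=
  finSumFinEquiv.symm.trans (sum_LG2 a a')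

theorem sigL_LG2 (a a' : ℕ) (i : Fin a) : sig_LG2 a a' (Fin.castAdd a' i) = ⟨0, i⟩ := by
  rw [sig_LG2, Equiv.trans_apply, finSumFinEquiv_symm_apply_castAdd]; rfl

theorem sigR_LG2 (a a' : ℕ) (i : Fin a') : sig_LG2 a a' (Fin.natAdd a i) = ⟨1, i⟩ := by
  rw [sig_LG2, Equiv.trans_apply, finSumFinEquiv_symm_apply_natAdd]; rfl

theorem idx_glue {N : Type} {l : Filter N} {k : ℕ} (hk : 0 < k) {σ : N → Fin k → ℝ} (hσ : Gap l σ)
    {j S : Fin k → Pl → V →L[ℝ] V} (he : ∀ i, Ell 1 (j i) (S i)) {d : Fin k → ℤ}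
    (hd : ∀ i, HasIdx (Dop 1 1 (j i) (S i)) (d i)) {j' S' : N → Pl → V →L[ℝ] V}
    (hc' : ∀ n, Coef 1 (j' n) (S' n)) (ej : PrC 1 l σ j' j) (eS : PrC 1 l σ S' S) :
    ∀ᶠ n in l, HasIdx (Dop 1 1 (j' n) (S' n)) (∑ i, d i) := by
  choose a b K L M hK hL hb using fun i => (he i).exists_frame
  obtain ⟨c, -, h⟩ := linGlue hk hσ (α := fun i => Fin (a i)) (β := fun i => Fin (b i))
    (fun i => (he i).toCoef) hK hL (M := M) hb hc' ej eS
  have e : ∑ i, d i =
      (Fintype.card (Σ i, Fin (b i)) : ℤ) - Fintype.card (Σ i, Fin (a i)) := by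
    simp only [Fintype.card_sigma, Nat.cast_sum, ← Finset.sum_sub_distrib]
    exact Finset.sum_congr rfl fun i _ => (hd i).unique (hasIdx_of_frm (hb i))
  exact h.mono fun n hn => e ▸ hasIdx_of_frm hn.1

theorem onto_glue {N : Type} {l : Filter N} {k : ℕ} {σ : N → Fin k → ℝ} (hσ : Gap l σ)
    {j S : Fin k → Pl → V →L[ℝ] V} (he : ∀ i, Ell 1 (j i) (S i)) (i₀ : Fin k) {K : α → Pl → V}
    (hK : TF K) (h₀ : Function.Surjective ((Dop 1 1 (j i₀) (S i₀)).coprod (kmap K)))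
    (h : ∀ i, i ≠ i₀ → Function.Surjective (Dop 1 1 (j i) (S i))) {j' S' : N → Pl → V →L[ℝ] V}
    (hc' : ∀ n, Coef 1 (j' n) (S' n)) (ej : PrC 1 l σ j' j) (eS : PrC 1 l σ S' S)
    {K' : N → α → Pl → V} (eK : ∀ a, Tendsto
      (fun n => toW 1 (K' n a) - toW 1 (tsl (-σ n i₀, 0) (K a))) l (𝓝 0)) :
    ∀ᶠ n in l, Function.Surjective ((Dop 1 1 (j' n) (S' n)).coprod (kmap (K' n))) := by
  have hs : ∀ i, Function.Surjective ((Dop 1 1 (j i) (S i)).coprod
      (kmap fun a : {_a : α // i = i₀} => K a.1)) := by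
    intro i
    by_cases hi : i = i₀
    · subst hi
      exact surj_comp_LG2 _ _ (fun a : α => ⟨a, rfl⟩) h₀
    · intro y
      obtain ⟨ξ, rfl⟩ := h i hi y
      exact ⟨(ξ, 0), by simp⟩
  choose b L M hL hb using fun i => (he i).exists_l (hs i)
  obtain ⟨c, hc, H⟩ := linGlue i₀.pos hσ (α := fun i => {_a : α // i = i₀})
    (β := fun i => Fin (b i)) (fun i => (he i).toCoef) (K := fun _ a => K a.1)
    (fun _ a => hK a.1) hL (M := M) hb hc' ej eS
  have H' := Bij.eventually (T' := fun n => frm (Dop 1 1 (j' n) (S' n))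
    (K' n ∘ fun a : Σ i, {_a : α // i = i₀} => a.2.1) (gl (σ n) L) (Matrix.blockDiagonal' M))
    hc.le H ?_
  · exact H'.mono fun n hn => surj_comp_LG2 _ (K' n) _ (surj_frm_LG2 hn.1.2)
  · have e : Tendsto (fun n => ∑ a : Σ i, {_a : α // i = i₀},
        ‖toW 1 (K' n a.2.1) - toW 1 (tsl (-σ n a.1, 0) (K a.2.1))‖) l (𝓝 0) := by
      have := tendsto_finsetSum (Finset.univ : Finset (Σ i, {_a : α // i = i₀}))
        fun a _ => (eK a.2.1).norm
      simp only [norm_zero, Finset.sum_const_zero] at this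
      refine this.congr fun n => Finset.sum_congr rfl fun a _ => ?_
      rw [show σ n a.1 = σ n i₀ from congrArg _ a.2.2]
    refine squeeze_zero (fun _ => norm_nonneg _) (fun n => ?_) e
    refine (norm_blk_sub_le _ _ _ _ _ _ _ _).trans ?_
    simp only [sub_self, norm_zero, zero_add, add_zero]
    exact norm_kmap_sub_le _ _

theorem linGlue₂ {N : Type} {l : Filter N} {ϱ₁ ϱ₂ : N → ℝ}
    (hϱ : Tendsto (fun n => ϱ₁ n + ϱ₂ n) l atTop) {a b a' b' : ℕ} {T : Op V a b} {T' : Op V a' b'}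
    (hc : Coef 1 T.j T.S) (hc' : Coef 1 T'.j T'.S) (hK : TF T.K) (hl : TF T.l) (hK' : TF T'.K)
    (hl' : TF T'.l) (hb : Function.Bijective (hil T)) (hb' : Function.Bijective (hil T'))
    {j S : N → Pl → V →L[ℝ] V} (h : ∀ n, Coef 1 (j n) (S n))
    (ej : PrC 1 l (fun n => ![-ϱ₁ n, ϱ₂ n]) j ![T.j, T'.j])
    (eS : PrC 1 l (fun n => ![-ϱ₁ n, ϱ₂ n]) S ![T.S, T'.S]) : ∃ c > 0, ∀ᶠ n in l,
      Bij (frm (Dop 1 1 (j n) (S n))
        (Fin.append (fun i => tsl (ϱ₁ n, 0) (T.K i)) fun i => tsl (-ϱ₂ n, 0) (T'.K i))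
        (Fin.append (fun i => tsl (ϱ₁ n, 0) (T.l i)) fun i => tsl (-ϱ₂ n, 0) (T'.l i))
        (Fin.append (fun i => Fin.append (T.M i) 0) fun i => Fin.append 0 (T'.M i))) c := by
  have hσ : Gap l fun n => ![-ϱ₁ n, ϱ₂ n] := by
    intro i i' hi
    fin_cases i <;> fin_cases i' <;> simp at hi
    exact hϱ.congr fun n => by simp [add_comm]
  obtain ⟨c, hc0, H⟩ := linGlue two_pos hσ (α := fun i => Fin (![a, a'] i))
    (β := fun i => Fin (![b, b'] i)) (j := ![T.j, T'.j]) (S := ![T.S, T'.S])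
    (fun | 0 => hc | 1 => hc') (K := fun | 0 => T.K | 1 => T'.K) (L := fun | 0 => T.l | 1 => T'.l)
    (fun | 0 => hK | 1 => hK') (fun | 0 => hl | 1 => hl') (M := fun | 0 => T.M | 1 => T'.M)
    (fun | 0 => hb | 1 => hb') h ej eS
  refine ⟨c, hc0, H.mono fun n hn => ?_⟩
  refine congr_LG2 ((frm_reindex (sig_LG2 a a') (sig_LG2 b b') _ _ _ _ _).2 hn) ?_ ?_ ?_
  · funext i
    refine Fin.addCases (fun i => ?_) (fun i => ?_) i
    · rw [Fin.append_left, Function.comp_apply, sigL_LG2]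
      exact congrArg (fun r => tsl (r, 0) (T.K i)) (neg_neg _).symm
    · rw [Fin.append_right, Function.comp_apply, sigR_LG2]; rfl
  · funext i
    refine Fin.addCases (fun i => ?_) (fun i => ?_) i
    · rw [Fin.append_left, Function.comp_apply, sigL_LG2]
      exact congrArg (fun r => tsl (r, 0) (T.l i)) (neg_neg _).symm
    · rw [Fin.append_right, Function.comp_apply, sigR_LG2]; rfl
  · funext i i'
    refine Fin.addCases (fun i => ?_) (fun i => ?_) i <;>
      refine Fin.addCases (fun i' => ?_) (fun i' => ?_) i' <;>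
      simp only [Fin.append_left, Fin.append_right, sigL_LG2, sigR_LG2] <;> rfl

end

end Pool.Agent.P.MP_de3acd_gt.FH
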