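import Pool.Agent.P.MP_de3acd_gt.FH.Cmp3
import Pool.Agent.P.MP_de3acd_gt.FH.LG2
import Pool.Agent.P.MP_de3acd_gt.FH.UF
import Pool.Agent.P.MP_de3acd_gt.FH.Defs4

/-! Broken limits: index additivity, and compactness for a family with one mark and for the neck.
Sketch: the Brk lemmas are idx_glue, onto_glue, locC_of_prC, wc_of_prW_one, wc_of_prW_two. blgen: Fam.ctl gives 𝕏, ρ; apply
CSeq.compact with q = 1, κ = ![(a₀, ρ)], a = ![(a₀, -(R+1)), (a₀, R+1)], τ = 0; i = m 0; lev j = 0 iff j ≤ i.castSucc.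
blneck: Fam.ctl for the constant families X₁, X₂ (or exists_clamp directly); control space ℝ × ℝ,
𝕏 t ((σ₁, σ₂), z) = X₁ (σ₁, t) z + X₂ (σ₂, t) z - Y t z, κ' n p = (ρ (p.1 + r n), ρ (p.1 - r n)), marks τ n = ![-r n, r n],
κ = ![(ρ, -(R+1)), (R+1, ρ)], a = ![(-,-), (+,-), (+,+)] with entries ±(R+1). -/

open Set Filter Topology MeasureTheory
open scoped ContDiff NNReal ENNReal RealInnerProductSpace

namespace Pool.Agent.P.MP_de3acd_gt.FH

noncomputable section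

variable {V : Type} [NormedAddCommGroup V] [InnerProductSpace ℝ V] [Sym V]
variable {Λ : Type} [NormedAddCommGroup Λ] [NormedSpace ℝ Λ] [FiniteDimensional ℝ Λ]
variable {α β : Type} [Fintype α] [Fintype β]

variable {J : ℝ → V → V →L[ℝ] V} {x y : ℝ → V} {u : ℕ → Pl → V} {A R : ℝ}

section

variable {X : ℕ → Pl → V → V} {k : ℕ} {σ : ℕ → Fin k → ℝ} {X' : Fin k → Pl → V → V}
  {z : Fin (k + 1) → ℝ → V} {g : Fin k → Pl → V}

theorem Brk.idx (h : Brk J X u x y A σ X' z g) {d : Fin k → ℤ}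
    (hd : ∀ j, HasIdx (Du J (X' j) (g j)) (d j)) :
    ∀ᶠ n in atTop, HasIdx (Du J (X n) (u n)) (∑ j, d j) :=
  idx_glue h.pos h.gap h.ell hd h.coef h.cj h.cs

theorem Brk.onto (h : Brk J X u x y A σ X' z g) (i : Fin k) {K : α → Pl → V} (hK : TF K)
    (h₀ : Function.Surjective ((Du J (X' i) (g i)).coprod (kmap K)))
    (h₁ : ∀ j, j ≠ i → Function.Surjective (Du J (X' j) (g j))) {K' : ℕ → α → Pl → V}
    (eK : ∀ a, Tendsto (fun n => toW 1 (K' n a) - toW 1 (tsl (-σ n i, 0) (K a))) atTop (𝓝 0)) :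
    ∀ᶠ n in atTop, Function.Surjective ((Du J (X n) (u n)).coprod (kmap (K' n))) :=
  onto_glue h.gap h.ell i hK h₀ h₁ h.coef h.cj h.cs eK

theorem Brk.locC (h : Brk J X u x y A σ X' z g) (i : Fin k) :
    LocC atTop (fun n => tsl (σ n i, 0) (u n)) (g i) := locC_of_prC h.prc h.gap i

theorem Brk.wc_one (h : Brk J X u x y A σ X' z g) (i : Fin k) (hi : ∀ j, j = i) :
    Nice J (X' i) x y (g i) ∧ WC atTop u fun n => tsl (-σ n i, 0) (g i) := by
  obtain rfl : k = 1 := by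
    have h1 := congrArg Fin.val (hi ⟨0, h.pos⟩)
    have h2 := congrArg Fin.val (hi ⟨k - 1, by have := h.pos; omega⟩)
    have := h.pos
    simp only at h1 h2
    omega
  obtain rfl : i = 0 := Subsingleton.elim _ _
  refine ⟨?_, wc_of_prW_one h.prw⟩
  rw [← h.zero, ← h.last]
  exact h.nice 0

theorem Brk.wc_two (h : Brk J X u x y A σ X' z g) (i j : Fin k) (hij : i < j)
    (hi : ∀ m, m = i ∨ m = j) : Nice J (X' i) x (z i.succ) (g i) ∧ Nice J (X' j) (z i.succ) y (g j) ∧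
      Tendsto (fun n => σ n j - σ n i) atTop atTop ∧
        WC atTop u fun n => pre (-σ n i) (σ n j) (g i) (g j) (z i.succ) := by
  have h0 : i.val < j.val := hij
  have hv : ∀ m (hm : m < k), m = i.val ∨ m = j.val := fun m hm =>
    (hi ⟨m, hm⟩).imp (congrArg Fin.val) (congrArg Fin.val)
  have hj := j.isLt
  have h1 := hv 0 h.pos
  have h2 := hv 1 (by omega)
  have h3 := hv (k - 1) (by omega)
  obtain rfl : k = 2 := by omega
  obtain rfl : i = 0 := Fin.ext (by change i.val = 0; omega)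
  obtain rfl : j = 1 := Fin.ext (by change j.val = 1; omega)
  have n0 : Nice J (X' 0) x (z 1) (g 0) := h.zero ▸ h.nice 0
  have n1 : Nice J (X' 1) (z 1) y (g 1) := h.last ▸ h.nice 1
  have eg : g = ![g 0, g 1] := by
    funext m
    fin_cases m <;> rfl
  exact ⟨n0, n1, h.gap 0 1 hij, wc_of_prW_two n0.pth n1.pth (h.zero ▸ (h.smooth 0).1)
    (h.smooth 1).1 (h.last ▸ (h.smooth _).1) h.gap (fun n => (h.pth n).bdd.1) (eg ▸ h.prw)⟩

end

theorem blgen {X : Λ → Pl → V → V} {Y Y' : ℝ → V → V} (h : FData J X R Y Y') {a₀ : Λ}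
    (e : frz (X a₀) (-R) = Y) (e' : frz (X a₀) R = Y') (hx : Orb 1 Y x) (hy : Orb 1 Y' y)
    {a : ℕ → Λ} (ha : Tendsto a atTop (𝓝 a₀)) (hu : ∀ n, Nice J (X (a n)) x y (u n) ∧ Bnd A (u n)) :
    ∃ (φ : ℕ → ℕ) (k : ℕ) (σ : ℕ → Fin k → ℝ) (i : Fin k) (z : Fin (k + 1) → ℝ → V)
      (g : Fin k → Pl → V), StrictMono φ ∧ (∀ n, σ n i = 0) ∧
        (∀ j, (j ≤ i.castSucc → Orb 1 Y (z j)) ∧ (i.castSucc < j → Orb 1 Y' (z j))) ∧
        (∀ j, j ≠ i → ds (g j) ≠ 0) ∧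
          Brk J (fun n => X (a (φ n))) (fun n => u (φ n)) x y A σ (pc Y Y' (X a₀) i) z g := by
  obtain ⟨𝕏, ρ, h1, h2, h3, h4, h5, h6⟩ := h.fam.ctl
  have hR := h.fam.nonneg
  have c0 : ∀ b, cfz 𝕏 (b, -(R + 1)) = frz (X b) (-R) := fun b => by
    rw [← h.fam.left b (-(R + 1)) (by linarith)]
    funext t z
    exact h5 _ _ _ _
  have c1 : ∀ b, cfz 𝕏 (b, R + 1) = frz (X b) R := fun b => by
    rw [← h.fam.right b (R + 1) (by linarith)]
    funext t z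
    exact h5 _ _ _ _
  have d0 := (c0 a₀).trans e
  have d1 := (c1 a₀).trans e'
  have hb : ∀ b : Λ, Bdd (fun p : Pl => (b, ρ p.1)) ∧ Per (fun p : Pl => (b, ρ p.1)) :=
    fun b => ⟨(bdd_const b).prod h2, fun _ _ => rfl⟩
  have hd : CData J 𝕏 (fun _ : Fin 1 => fun p => (a₀, ρ p.1)) ![(a₀, -(R + 1)), (a₀, R + 1)]
      (R + 1) A := by
    refine ⟨one_pos, h.acs, h1, by linarith, fun _ => hb a₀, fun i p => ?_, fun i => ?_⟩
    · obtain rfl : i = 0 := Subsingleton.elim _ _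
      exact ⟨fun hp => congrArg (Prod.mk a₀) (h4 _ hp), fun hp => congrArg (Prod.mk a₀) (h3 _ hp)⟩
    · fin_cases i
      · change NdB (cfz 𝕏 (a₀, -(R + 1))) A
        rw [d0]
        exact fun x hx _ => h.ndl x hx
      · change NdB (cfz 𝕏 (a₀, R + 1)) A
        rw [d1]
        exact fun x hx _ => h.ndr x hx
  have hs : CSeq J 𝕏 (fun _ : Fin 1 => fun p => (a₀, ρ p.1)) ![(a₀, -(R + 1)), (a₀, R + 1)] A x y
      (fun n p => (a n, ρ p.1)) (fun _ _ => 0) u := by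
    refine ⟨fun i i' hi => absurd (Subsingleton.elim i i') hi.ne, fun n => hb _,
      fun m ε hε => ⟨0, ?_⟩, fun i x' hx' _ => ?_, d0 ▸ hx, d1 ▸ hy, fun n => h6 (a n) ▸ (hu n).1,
      fun n => (hu n).2.1, _, ENNReal.ofReal_lt_top, fun n => (hu n).2.2⟩
    · filter_upwards [Metric.tendsto_nhds.1 ha ε hε] with n hn i
      have e1 : ((fun p : Pl => (a n, ρ p.1)) - tsl (-0, 0) fun p : Pl => (a₀, ρ p.1)) =
          fun _ => (a n - a₀, 0) := by
        funext p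
        simp [tsl]
      rw [e1]
      refine (cn_const m _ _).mono le_rfl Subset.rfl ?_
      rw [dist_eq_norm] at hn
      rw [Prod.norm_def, norm_zero]
      exact max_le hn.le hε.le
    · fin_cases i
      · obtain ⟨δ, hδ, e1⟩ := h.agl x' (d0 ▸ hx')
        refine ⟨δ, hδ, R + 1, Eventually.of_forall fun n p z hp hz => ?_⟩
        have := h4 p.1 (by simpa using (hp 0).2 le_rfl)
        change cfz 𝕏 (a n, ρ p.1) p.2 z = cfz 𝕏 (a₀, -(R + 1)) p.2 z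
        rw [this, c0, d0]
        exact e1 _ _ _ hz
      · obtain ⟨δ, hδ, e1⟩ := h.agr x' (d1 ▸ hx')
        refine ⟨δ, hδ, R + 1, Eventually.of_forall fun n p z hp hz => ?_⟩
        have := h3 p.1 (by simpa using (hp 0).1 (by decide))
        change cfz 𝕏 (a n, ρ p.1) p.2 z = cfz 𝕏 (a₀, R + 1) p.2 z
        rw [this, c1, d1]
        exact e1 _ _ _ hz
  obtain ⟨φ, k, σ, m, lev, κ'', z, g, hφ, sh, hσ, ho, hg, hB⟩ := CSeq.compact hd hs
  have l0 : ∀ j, j ≤ (m 0).castSucc → lev j = 0 := fun j hj =>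
    le_antisymm (not_lt.1 fun h' => hj.not_gt ((sh.lt 0 j).1 h')) (Fin.zero_le _)
  have l1 : ∀ j, (m 0).castSucc < j → lev j = 1 := fun j hj =>
    le_antisymm (Fin.le_last _) ((sh.lt 0 j).2 hj)
  have hm : ∀ j, j ≠ m 0 → j ∉ range m := by
    rintro j hj ⟨i, rfl⟩
    exact hj (congrArg m (Subsingleton.elim _ _))
  refine ⟨φ, k, σ, m 0, z, g, hφ, fun n => hσ n 0, fun j => ⟨fun hj => ?_, fun hj => ?_⟩,
    fun j hj => hg j (hm j hj), ?_⟩
  · have := ho j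
    rw [l0 j hj] at this
    exact d0 ▸ this
  · have := ho j
    rw [l1 j hj] at this
    exact d1 ▸ this
  · have e1 : (fun n => X (a (φ n))) = fun n => ctl 𝕏 fun p => (a (φ n), ρ p.1) :=
      funext fun n => h6 _
    have e2 : pc Y Y' (X a₀) (m 0) = fun j => ctl 𝕏 (κ'' j) := by
      funext j
      rcases lt_trichotomy j (m 0) with hj | hj | hj
      · rw [pc, if_pos hj, sh.free j (hm j hj.ne), l0 _ (Fin.castSucc_le_castSucc_iff.2 hj.le), ← d0]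
        rfl
      · rw [pc, if_neg hj.not_lt, if_pos hj, hj, sh.mark, ← h6]
      · rw [pc, if_neg hj.not_gt, if_neg hj.ne', sh.free j (hm j hj.ne'),
          l1 _ (Fin.castSucc_lt_castSucc_iff.2 hj), ← d1]
        rfl
    rw [e1, e2]
    exact hB

omit [Sym V] in
theorem clamp_BLg {X : Pl → V → V} (h : Fld X R) : ∃ ρ : ℝ → ℝ, Bdd (fun p : Pl => ρ p.1) ∧
    (∀ s, R + 1 ≤ s → ρ s = R + 1) ∧ (∀ s, s ≤ -(R + 1) → ρ s = -(R + 1)) ∧
      (∀ s t, X (ρ s, t) = X (s, t)) ∧ (∀ t, X (-(R + 1), t) = frz X (-R) t) ∧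
        ∀ t, X (R + 1, t) = frz X R t := by
  obtain ⟨𝕏, ρ, -, h2, h3, h4, h5, h6⟩ := Fam.ctl h
  refine ⟨ρ, h2, h3, h4, fun s t => funext fun z => ?_,
    congrFun (h.left 0 (-(R + 1)) (by linarith)), congrFun (h.right 0 (R + 1) (by linarith))⟩
  exact (h5 t 0 (ρ s) z).symm.trans (congrFun (congrFun (h6 0) (s, t)) z).symm

theorem blneck {X₁ X₂ : Pl → V → V} {Y₀ Y Y₂ : ℝ → V → V} (hJ : ACS Ω0 J) (h₁ : Fld X₁ R)
    (h₂ : Fld X₂ R) (e₀ : frz X₁ (-R) = Y₀) (e₁ : frz X₁ R = Y) (e₁' : frz X₂ (-R) = Y)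
    (e₂ : frz X₂ R = Y₂) (n₀ : NdA Y₀) (n₁ : NdA Y) (n₂ : NdA Y₂) (hx : Orb 1 Y₀ x)
    (hy : Orb 1 Y₂ y) {r : ℕ → ℝ} (hr : Tendsto r atTop atTop)
    (hu : ∀ n, Nice J (nk X₁ X₂ Y (r n) (r n)) x y (u n) ∧ Bnd A (u n)) :
    ∃ (φ : ℕ → ℕ) (k : ℕ) (σ : ℕ → Fin k → ℝ) (i₁ i₂ : Fin k) (X' : Fin k → Pl → V → V)
      (z : Fin (k + 1) → ℝ → V) (g : Fin k → Pl → V), StrictMono φ ∧ i₁ < i₂ ∧
        (∀ n, σ n i₁ = -r (φ n) ∧ σ n i₂ = r (φ n)) ∧ X' i₁ = X₁ ∧ X' i₂ = X₂ ∧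
        (∀ j, (j < i₁ → X' j = sta Y₀) ∧ (i₁ < j → j < i₂ → X' j = sta Y) ∧
          (i₂ < j → X' j = sta Y₂)) ∧
        (∀ j, (j ≤ i₁.castSucc → Orb 1 Y₀ (z j)) ∧ (i₁.castSucc < j → j ≤ i₂.castSucc →
          Orb 1 Y (z j)) ∧ (i₂.castSucc < j → Orb 1 Y₂ (z j))) ∧
        (∀ j, j ≠ i₁ → j ≠ i₂ → ds (g j) ≠ 0) ∧
          Brk J (fun n => nk X₁ X₂ Y (r (φ n)) (r (φ n))) (fun n => u (φ n)) x y A σ X' z g := by
  obtain ⟨ρ₁, a2, a3, a4, a5, a6, a7⟩ := clamp_BLg h₁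
  obtain ⟨ρ₂, b2, b3, b4, b5, b6, b7⟩ := clamp_BLg h₂
  rw [e₀] at a6
  rw [e₁] at a7
  rw [e₁'] at b6
  rw [e₂] at b7
  have hR := h₁.nonneg
  have hY : SP Y := e₁ ▸ Fam.sp_frz h₁ 0 R
  obtain ⟨𝕏, h𝕏⟩ : ∃ 𝕏 : ℝ → (ℝ × ℝ) × V → V,
      𝕏 = fun t q => X₁ (q.1.1, t) q.2 + X₂ (q.1.2, t) q.2 - Y t q.2 := ⟨_, rfl⟩
  have sp : SP 𝕏 := by
    rw [h𝕏]
    refine ⟨((h₁.smooth.comp ((contDiff_const (c := (0 : ℝ))).prodMk
      ((contDiff_snd.fst.fst.prodMk contDiff_fst).prodMk contDiff_snd.snd))).add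
      (h₂.smooth.comp ((contDiff_const (c := (0 : ℝ))).prodMk
      ((contDiff_snd.fst.snd.prodMk contDiff_fst).prodMk contDiff_snd.snd)))).sub
      (hY.1.comp (contDiff_fst.prodMk contDiff_snd.snd)), fun t => funext fun q => ?_⟩
    beta_reduce
    rw [show X₁ (q.1.1, t + 1) = _ from h₁.per 0 q.1.1 t,
      show X₂ (q.1.2, t + 1) = _ from h₂.per 0 q.1.2 t, hY.2]
  have d0 : cfz 𝕏 (-(R + 1), -(R + 1)) = Y₀ := by
    funext t z
    simp only [cfz, h𝕏, a6, b6, add_sub_cancel_right]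
  have d1 : cfz 𝕏 (R + 1, -(R + 1)) = Y := by
    funext t z
    simp only [cfz, h𝕏, a7, b6, add_sub_cancel_right]
  have d2 : cfz 𝕏 (R + 1, R + 1) = Y₂ := by
    funext t z
    simp only [cfz, h𝕏, a7, b7, add_sub_cancel_left]
  have f1 : ctl 𝕏 (fun p => (ρ₁ p.1, -(R + 1))) = X₁ := by
    funext p z
    simp only [ctl, h𝕏, a5, b6, add_sub_cancel_right]
  have f2 : ctl 𝕏 (fun p => (R + 1, ρ₂ p.1)) = X₂ := by
    funext p z
    simp only [ctl, h𝕏, a7, b5, add_sub_cancel_left]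
  have f3 : ∀ s, nk X₁ X₂ Y s s = ctl 𝕏 (fun p => (ρ₁ (p.1 + s), ρ₂ (p.1 + -s))) := fun s => by
    funext p z
    have e1 : ∀ s' : ℝ, p + (s', 0) = (p.1 + s', p.2) := fun s' => Prod.ext rfl (add_zero _)
    simp only [ctl, h𝕏, a5, b5, nk, tsl, sta, Pi.add_apply, Pi.sub_apply, e1]
  have hd : CData J 𝕏 ![fun p => (ρ₁ p.1, -(R + 1)), fun p => (R + 1, ρ₂ p.1)]
      ![(-(R + 1), -(R + 1)), (R + 1, -(R + 1)), (R + 1, R + 1)] (R + 1) A := by
    refine ⟨two_pos, hJ, sp, by linarith, fun i => ?_, fun i p => ?_, fun i => ?_⟩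
    · fin_cases i
      · exact ⟨a2.prod (bdd_const _), fun _ _ => rfl⟩
      · exact ⟨(bdd_const _).prod b2, fun _ _ => rfl⟩
    · fin_cases i
      · exact ⟨fun hp => Prod.ext (a4 _ hp) rfl, fun hp => Prod.ext (a3 _ hp) rfl⟩
      · exact ⟨fun hp => Prod.ext rfl (b4 _ hp), fun hp => Prod.ext rfl (b3 _ hp)⟩
    · fin_cases i
      · change NdB (cfz 𝕏 (-(R + 1), -(R + 1))) A
        rw [d0]
        exact fun x hx _ => n₀ x hx
      · change NdB (cfz 𝕏 (R + 1, -(R + 1))) A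
        rw [d1]
        exact fun x hx _ => n₁ x hx
      · change NdB (cfz 𝕏 (R + 1, R + 1)) A
        rw [d2]
        exact fun x hx _ => n₂ x hx
  have hs : CSeq J 𝕏 ![fun p => (ρ₁ p.1, -(R + 1)), fun p => (R + 1, ρ₂ p.1)]
      ![(-(R + 1), -(R + 1)), (R + 1, -(R + 1)), (R + 1, R + 1)] A x y
      (fun n p => (ρ₁ (p.1 + r n), ρ₂ (p.1 + -r n))) (fun n => ![-r n, r n]) u := by
    refine ⟨fun i i' hi => ?_, fun n => ⟨(a2.tsl (r n, 0)).prod (b2.tsl (-r n, 0)), fun _ _ => rfl⟩,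
      fun m ε hε => ⟨R + 2, Eventually.of_forall fun n i => ?_⟩,
      fun i x' _ _ => ⟨1, one_pos, R + 1, Eventually.of_forall fun n p z hp _ => ?_⟩, d0 ▸ hx,
      d2 ▸ hy, fun n => f3 (r n) ▸ (hu n).1, fun n => (hu n).2.1, _, ENNReal.ofReal_lt_top,
      fun n => (hu n).2.2⟩
    · fin_cases i <;> fin_cases i' <;> try exact absurd hi (by decide)
      change Tendsto (fun n => r n - -r n) atTop atTop
      simpa using hr.atTop_add_atTop hr
    · refine ((cn_const m 0 _).congr fun p hp => ?_).mono le_rfl Subset.rfl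
        (by rw [norm_zero]; exact hε.le)
      fin_cases i
      · have h1 : p.1 ≤ r n - (R + 2) := (hp 1).2 (by decide)
        filter_upwards [(isOpen_lt continuous_fst continuous_const).mem_nhds
          (show p.1 < r n - (R + 1) by linarith)] with p' hp'
        have h2 : p'.1 < r n - (R + 1) := hp'
        change 0 = (ρ₁ (p'.1 + r n) - ρ₁ (p'.1 + - -r n), ρ₂ (p'.1 + -r n) - -(R + 1))
        rw [neg_neg, b4 _ (by linarith), sub_self, sub_self]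
        rfl
      · have h1 : -r n + (R + 2) ≤ p.1 := (hp 0).1 (by decide)
        filter_upwards [(isOpen_lt continuous_const continuous_fst).mem_nhds
          (show -r n + (R + 1) < p.1 by linarith)] with p' hp'
        have h2 : -r n + (R + 1) < p'.1 := hp'
        change 0 = (ρ₁ (p'.1 + r n) - (R + 1), ρ₂ (p'.1 + -r n) - ρ₂ (p'.1 + -r n))
        rw [a3 _ (by linarith), sub_self, sub_self]
        rfl
    · refine congrArg (fun c => 𝕏 p.2 (c, z)) ?_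
      fin_cases i
      · have h1 : p.1 ≤ -r n - (R + 1) := (hp 0).2 (by decide)
        have h2 : p.1 ≤ r n - (R + 1) := (hp 1).2 (by decide)
        exact Prod.ext (a4 _ (by linarith)) (b4 _ (by linarith))
      · have h1 : -r n + (R + 1) ≤ p.1 := (hp 0).1 (by decide)
        have h2 : p.1 ≤ r n - (R + 1) := (hp 1).2 (by decide)
        exact Prod.ext (a3 _ (by linarith)) (b4 _ (by linarith))
      · have h1 : -r n + (R + 1) ≤ p.1 := (hp 0).1 (by decide)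
        have h2 : r n + (R + 1) ≤ p.1 := (hp 1).1 (by decide)
        exact Prod.ext (a3 _ (by linarith)) (b3 _ (by linarith))
  obtain ⟨φ, k, σ, m, lev, κ'', z, g, hφ, sh, hσ, ho, hg, hB⟩ := CSeq.compact hd hs
  have l0 : ∀ j, j ≤ (m 0).castSucc → lev j = 0 := fun j hj =>
    le_antisymm (not_lt.1 fun h' => hj.not_gt ((sh.lt 0 j).1 h')) (Fin.zero_le _)
  have l1 : ∀ j, (m 0).castSucc < j → j ≤ (m 1).castSucc → lev j = 1 := fun j hj hj' =>
    le_antisymm (not_lt.1 fun h' => hj'.not_gt ((sh.lt 1 j).1 h')) ((sh.lt 0 j).2 hj)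
  have l2 : ∀ j, (m 1).castSucc < j → lev j = 2 := fun j hj =>
    le_antisymm (Fin.le_last _) ((sh.lt 1 j).2 hj)
  have h01 : m 0 < m 1 := m.strictMono (by decide)
  have hm : ∀ j, j ≠ m 0 → j ≠ m 1 → j ∉ range m := by
    rintro j hj hj' ⟨i, rfl⟩
    fin_cases i
    · exact hj rfl
    · exact hj' rfl
  refine ⟨φ, k, σ, m 0, m 1, fun j => ctl 𝕏 (κ'' j), z, g, hφ, h01, fun n => ⟨hσ n 0, hσ n 1⟩,
    ?_, ?_, fun j => ⟨fun hj => ?_, fun hj hj' => ?_, fun hj => ?_⟩,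
    fun j => ⟨fun hj => ?_, fun hj hj' => ?_, fun hj => ?_⟩, fun j hj hj' => hg j (hm j hj hj'), ?_⟩
  · exact (congrArg (ctl 𝕏) (sh.mark 0)).trans f1
  · exact (congrArg (ctl 𝕏) (sh.mark 1)).trans f2
  · beta_reduce
    rw [sh.free j (hm j hj.ne (hj.trans h01).ne), l0 _ (Fin.castSucc_le_castSucc_iff.2 hj.le), ← d0]
    rfl
  · beta_reduce
    rw [sh.free j (hm j hj.ne' hj'.ne), l1 _ (Fin.castSucc_lt_castSucc_iff.2 hj)
      (Fin.castSucc_le_castSucc_iff.2 hj'.le), ← d1]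
    rfl
  · beta_reduce
    rw [sh.free j (hm j (h01.trans hj).ne' hj.ne'), l2 _ (Fin.castSucc_lt_castSucc_iff.2 hj), ← d2]
    rfl
  · have := ho j
    rw [l0 j hj] at this
    exact d0 ▸ this
  · have := ho j
    rw [l1 j hj hj'] at this
    exact d1 ▸ this
  · have := ho j
    rw [l2 j hj] at this
    exact d2 ▸ this
  · rw [show (fun n => nk X₁ X₂ Y (r (φ n)) (r (φ n))) = _ from funext fun n => f3 _]
    exact hB

end

end Pool.Agent.P.MP_de3acd_gt.FH
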