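import Pool.Agent.P.MP_de3acd_gt.FH.Defs2

/-! Calculus of maps that are smooth and bounded on bounded sets; two extension principles. -/

open Set Filter Topology MeasureTheory
open scoped ContDiff NNReal ENNReal RealInnerProductSpace

namespace Pool.Agent.P.MP_de3acd_gt.FH

noncomputable section

variable {X Y Z : Type} [NormedAddCommGroup X] [NormedSpace ℝ X] [NormedAddCommGroup Y]
  [NormedSpace ℝ Y] [NormedAddCommGroup Z] [NormedSpace ℝ Z]

theorem BSn.mono {m n : ℕ} {f : X → Y} (h : BSn n f) (e : m ≤ n) : BSn m f :=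
  ⟨h.1.of_le (by exact_mod_cast e), fun k hk => h.2 k (hk.trans e)⟩

theorem BSn.bound {n : ℕ} {f : X → Y} (h : BSn n f) (R : ℝ) : ∃ A, ∀ x, ‖x‖ ≤ R → ‖f x‖ ≤ A := by
  obtain ⟨A, hA⟩ := h.2 0 (Nat.zero_le _) R
  exact ⟨A, fun x hx => by simpa using hA x hx⟩

theorem unif_BSC {n : ℕ} {f : X → Y} (h : BSn n f) (R : ℝ) :
    ∃ A, 1 ≤ A ∧ ∀ k ≤ n, ∀ x, ‖x‖ ≤ R → ‖iteratedFDeriv ℝ k f x‖ ≤ A := by
  choose! A hA using fun k hk => h.2 k hk R
  refine ⟨1 + ∑ k ∈ Finset.range (n + 1), |A k|,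
    le_add_of_nonneg_right (Finset.sum_nonneg fun _ _ => abs_nonneg _), fun k hk x hx => ?_⟩
  have h1 : |A k| ≤ ∑ k ∈ Finset.range (n + 1), |A k| :=
    Finset.single_le_sum (f := fun k => |A k|) (fun _ _ => abs_nonneg _)
      (Finset.mem_range.2 (Nat.lt_succ_of_le hk))
  linarith [hA k hk x hx, le_abs_self (A k)]

theorem bsn_zero_iff {f : X → Y} :
    BSn 0 f ↔ Continuous f ∧ ∀ R : ℝ, ∃ A, ∀ x, ‖x‖ ≤ R → ‖f x‖ ≤ A := by
  refine ⟨fun h => ⟨h.1.continuous, h.bound⟩, fun h => ⟨contDiff_zero.2 h.1, fun k hk R => ?_⟩⟩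
  obtain rfl := Nat.le_zero.1 hk
  obtain ⟨A, hA⟩ := h.2 R
  exact ⟨A, fun x hx => by simpa using hA x hx⟩

theorem bsn_succ_iff {n : ℕ} {f : X → Y} : BSn (n + 1) f ↔
    (∀ R : ℝ, ∃ A, ∀ x, ‖x‖ ≤ R → ‖f x‖ ≤ A) ∧ Differentiable ℝ f ∧ BSn n (fderiv ℝ f) := by
  constructor
  · intro h
    have h1 : ContDiff ℝ ((n : WithTop ℕ∞) + 1) f := by exact_mod_cast h.1
    rw [contDiff_succ_iff_fderiv] at h1
    refine ⟨h.bound, h1.1, h1.2.2, fun k hk R => ?_⟩
    obtain ⟨A, hA⟩ := h.2 (k + 1) (by omega) R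
    exact ⟨A, fun x hx => by rw [norm_iteratedFDeriv_fderiv]; exact hA x hx⟩
  · rintro ⟨h0, h1, h2⟩
    have h3 : ContDiff ℝ ((n : WithTop ℕ∞) + 1) f :=
      contDiff_succ_iff_fderiv.2 ⟨h1, fun h => absurd h (by simp), h2.1⟩
    refine ⟨by exact_mod_cast h3, fun k hk R => ?_⟩
    cases k with
    | zero =>
      obtain ⟨A, hA⟩ := h0 R
      exact ⟨A, fun x hx => by simpa using hA x hx⟩
    | succ k =>
      obtain ⟨A, hA⟩ := h2.2 k (by omega) R
      exact ⟨A, fun x hx => by rw [← norm_iteratedFDeriv_fderiv]; exact hA x hx⟩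

theorem bsn_succ_of_hasFDerivAt {n : ℕ} {f : X → Y} {f' : X → X →L[ℝ] Y}
    (h : ∀ x, HasFDerivAt f (f' x) x) (h' : BSn n f') : BSn (n + 1) f := by
  have e : fderiv ℝ f = f' := funext fun x => (h x).fderiv
  refine bsn_succ_iff.2 ⟨fun R => ?_, fun x => (h x).differentiableAt, e ▸ h'⟩
  obtain ⟨A, hA⟩ := h'.bound R
  refine ⟨‖f 0‖ + |A| * R, fun x hx => ?_⟩
  have h1 : ‖f x - f 0‖ ≤ |A| * ‖x - 0‖ :=
    (convex_closedBall (0 : X) R).norm_image_sub_le_of_norm_hasFDerivWithin_le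
      (fun y _ => (h y).hasFDerivWithinAt)
      (fun y hy => (hA y (mem_closedBall_zero_iff.1 hy)).trans (le_abs_self A))
      (Metric.mem_closedBall_self ((norm_nonneg x).trans hx)) (mem_closedBall_zero_iff.2 hx)
  rw [sub_zero] at h1
  have h2 : |A| * ‖x‖ ≤ |A| * R := mul_le_mul_of_nonneg_left hx (abs_nonneg A)
  linarith [norm_sub_norm_le (f x) (f 0)]

theorem bsn_const (n : ℕ) (y : Y) : BSn n fun _ : X => y := by
  refine ⟨contDiff_const, fun k _ _ => ⟨‖y‖, fun x _ => ?_⟩⟩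
  cases k with
  | zero => simp
  | succ k => simp [iteratedFDeriv_succ_const]

theorem bsn_clm (n : ℕ) (L : X →L[ℝ] Y) : BSn n L :=
  (bsn_succ_of_hasFDerivAt (fun _ => L.hasFDerivAt) (bsn_const n L)).mono n.le_succ

theorem BSn.add {n : ℕ} {f g : X → Y} (hf : BSn n f) (hg : BSn n g) : BSn n fun x => f x + g x := by
  refine ⟨hf.1.add hg.1, fun k hk R => ?_⟩
  obtain ⟨A, hA⟩ := hf.2 k hk R
  obtain ⟨B, hB⟩ := hg.2 k hk R
  refine ⟨A + B, fun x hx => ?_⟩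
  rw [show (fun x => f x + g x) = f + g from rfl,
    iteratedFDeriv_add_apply (hf.1.of_le (by exact_mod_cast hk)).contDiffAt
      (hg.1.of_le (by exact_mod_cast hk)).contDiffAt]
  exact norm_add_le_of_le (hA x hx) (hB x hx)

theorem clm_BSC {n : ℕ} {f : X → Y} (hf : BSn n f) (L : Y →L[ℝ] Z) : BSn n fun x => L (f x) := by
  refine ⟨L.contDiff.comp hf.1, fun k hk R => ?_⟩
  obtain ⟨A, hA⟩ := hf.2 k hk R
  exact ⟨‖L‖ * A, fun x hx => (L.norm_iteratedFDeriv_comp_left hf.1.contDiffAt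
    (by exact_mod_cast hk)).trans (mul_le_mul_of_nonneg_left (hA x hx) (norm_nonneg _))⟩

theorem BSn.sub {n : ℕ} {f g : X → Y} (hf : BSn n f) (hg : BSn n g) : BSn n fun x => f x - g x := by
  simpa [sub_eq_add_neg] using hf.add (clm_BSC hg (-ContinuousLinearMap.id ℝ Y))

theorem BSn.sum {ι : Type} {n : ℕ} (s : Finset ι) {f : ι → X → Y} (hf : ∀ i ∈ s, BSn n (f i)) :
    BSn n fun x => ∑ i ∈ s, f i x := by
  classical
  induction s using Finset.induction_on with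
  | empty => simpa using bsn_const n (0 : Y)
  | insert a s ha ih =>
    simp only [Finset.sum_insert ha]
    exact (hf a (Finset.mem_insert_self _ _)).add
      (ih fun i hi => hf i (Finset.mem_insert_of_mem hi))

theorem BSn.prod {n : ℕ} {f : X → Y} {g : X → Z} (hf : BSn n f) (hg : BSn n g) :
    BSn n fun x => (f x, g x) := by
  simpa using (clm_BSC hf (ContinuousLinearMap.inl ℝ Y Z)).add
    (clm_BSC hg (ContinuousLinearMap.inr ℝ Y Z))

theorem BSn.comp {n : ℕ} {g : Y → Z} {f : X → Y} (hg : BSn n g) (hf : BSn n f) :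
    BSn n fun x => g (f x) := by
  refine ⟨hg.1.comp hf.1, fun k hk R => ?_⟩
  obtain ⟨D, hD1, hD⟩ := unif_BSC hf R
  obtain ⟨C, -, hC⟩ := unif_BSC hg D
  refine ⟨k.factorial * C * D ^ k, fun x hx => ?_⟩
  refine norm_iteratedFDeriv_comp_le hg.1 hf.1 (by exact_mod_cast hk) x
    (fun i hi => hC i (hi.trans hk) _ ?_) fun i hi hi' => ?_
  · simpa using hD 0 (Nat.zero_le _) x hx
  · exact (hD i (hi'.trans hk) x hx).trans (le_self_pow₀ hD1 (by omega))

theorem BSn.clm {n : ℕ} {f : X → Y} (hf : BSn n f) (L : Y →L[ℝ] Z) : BSn n fun x => L (f x) :=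
  clm_BSC hf L

theorem BSn.bil {Y' : Type} [NormedAddCommGroup Y'] [NormedSpace ℝ Y'] {n : ℕ} {f : X → Y}
    {g : X → Y'} (hf : BSn n f) (hg : BSn n g) (B : Y →L[ℝ] Y' →L[ℝ] Z) :
    BSn n fun x => B (f x) (g x) := by
  refine ⟨(B.contDiff.comp hf.1).clm_apply hg.1, fun k hk R => ?_⟩
  obtain ⟨C, hC1, hC⟩ := unif_BSC hf R
  obtain ⟨D, -, hD⟩ := unif_BSC hg R
  refine ⟨‖B‖ * ∑ i ∈ Finset.range (k + 1), (k.choose i : ℝ) * C * D, fun x hx => ?_⟩
  refine (B.norm_iteratedFDeriv_le_of_bilinear hf.1 hg.1 x (by exact_mod_cast hk)).trans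
    (mul_le_mul_of_nonneg_left (Finset.sum_le_sum fun i hi => ?_) B.opNorm_nonneg)
  have hi' : i ≤ k := Nat.le_of_lt_succ (Finset.mem_range.1 hi)
  exact mul_le_mul (mul_le_mul_of_nonneg_left (hC i (hi'.trans hk) x hx) (Nat.cast_nonneg _))
    (hD _ ((Nat.sub_le _ _).trans hk) x hx) (norm_nonneg _)
    (mul_nonneg (Nat.cast_nonneg _) (zero_le_one.trans hC1))

theorem BSn.clm_apply {n : ℕ} {f : X → Y →L[ℝ] Z} {g : X → Y} (hf : BSn n f) (hg : BSn n g) :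
    BSn n fun x => f x (g x) :=
  hf.bil hg (ContinuousLinearMap.id ℝ (Y →L[ℝ] Z))

theorem BS.contDiff {f : X → Y} (h : BS f) : ContDiff ℝ ∞ f :=
  contDiff_infty.2 fun n => (h n).1

theorem bs_of_contDiff [FiniteDimensional ℝ X] {f : X → Y} (h : ContDiff ℝ ∞ f) : BS f := by
  have : ProperSpace X := FiniteDimensional.proper_real X
  refine fun n => ⟨h.of_le (by exact_mod_cast le_top), fun k _ R => ?_⟩
  obtain ⟨A, hA⟩ := (isCompact_closedBall (0 : X) R).exists_bound_of_continuousOn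
    (h.continuous_iteratedFDeriv (m := k) (by exact_mod_cast le_top)).continuousOn
  exact ⟨A, fun x hx => hA x (mem_closedBall_zero_iff.2 hx)⟩

theorem BS.lip {f : X → Y} (h : BS f) (L : Z →L[ℝ] X) (R : ℝ) : ∃ A : ℝ≥0, ∀ b : X, ‖b‖ ≤ R →
    LipschitzOnWith A (fderiv ℝ fun z => f (b + L z)) (Metric.closedBall 0 R) := by
  obtain ⟨-, h1, h2⟩ := bsn_succ_iff.1 (h 2)
  obtain ⟨-, h3, h4⟩ := bsn_succ_iff.1 h2
  obtain ⟨A, hA⟩ := h4.bound (R + ‖L‖ * R)
  refine ⟨⟨|A| * ‖L‖ * ‖L‖, by positivity⟩, fun b hb => ?_⟩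
  have e : ∀ z, fderiv ℝ (fun z => f (b + L z)) z = (fderiv ℝ f (b + L z)).comp L := fun z =>
    ((h1 (b + L z)).hasFDerivAt.comp z (L.hasFDerivAt.const_add b)).fderiv
  have hm : ∀ z ∈ Metric.closedBall (0 : Z) R, b + L z ∈ Metric.closedBall (0 : X) (R + ‖L‖ * R) :=
    fun z hz => mem_closedBall_zero_iff.2 (norm_add_le_of_le hb ((L.le_opNorm z).trans
      (mul_le_mul_of_nonneg_left (mem_closedBall_zero_iff.1 hz) (norm_nonneg _))))
  refine LipschitzOnWith.of_dist_le_mul fun z hz w hw => ?_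
  have h5 : ‖fderiv ℝ f (b + L z) - fderiv ℝ f (b + L w)‖ ≤ |A| * ‖b + L z - (b + L w)‖ :=
    (convex_closedBall (0 : X) (R + ‖L‖ * R)).norm_image_sub_le_of_norm_fderiv_le
      (fun y _ => h3 y) (fun y hy => (hA y (mem_closedBall_zero_iff.1 hy)).trans (le_abs_self A))
      (hm w hw) (hm z hz)
  rw [add_sub_add_left_eq_sub, ← map_sub] at h5
  rw [e, e, dist_eq_norm, dist_eq_norm, ← ContinuousLinearMap.sub_comp]
  calc _ ≤ ‖fderiv ℝ f (b + L z) - fderiv ℝ f (b + L w)‖ * ‖L‖ :=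
        ContinuousLinearMap.opNorm_comp_le _ _
    _ ≤ |A| * (‖L‖ * ‖z - w‖) * ‖L‖ :=
        mul_le_mul_of_nonneg_right (h5.trans (mul_le_mul_of_nonneg_left (L.le_opNorm _)
          (abs_nonneg A))) (norm_nonneg _)
    _ = |A| * ‖L‖ * ‖L‖ * ‖z - w‖ := by ring

theorem hasFDerivAt_of_dense {f : X → Y} {f' : X → X →L[ℝ] Y} (hf : Continuous f)
    (hf' : Continuous f') {P : Set X} (hP : Dense P) (h : ∀ z ∈ P, ∀ w ∈ P, ∀ τ : ℝ,
      HasDerivAt (fun τ : ℝ => f (z + τ • (w - z))) (f' (z + τ • (w - z)) (w - z)) τ) (x : X) :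
    HasFDerivAt f (f' x) x := by
  rw [hasFDerivAt_iff_isLittleO, Asymptotics.isLittleO_iff]
  intro ε hε
  obtain ⟨δ, hδ, hb⟩ := Metric.continuousAt_iff.1 (hf'.continuousAt (x := x)) ε hε
  have key : ∀ z ∈ Metric.ball x δ ∩ P, ∀ w ∈ Metric.ball x δ ∩ P,
      ‖f w - f z - f' x (w - z)‖ ≤ ε * ‖w - z‖ := by
    intro z hz w hw
    have h1 : ∀ τ : ℝ, HasDerivAt (fun τ : ℝ => f (z + τ • (w - z)) - τ • f' x (w - z))
        (f' (z + τ • (w - z)) (w - z) - f' x (w - z)) τ := fun τ => by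
      simpa using (h z hz.2 w hw.2 τ).fun_sub ((hasDerivAt_id' τ).smul_const (f' x (w - z)))
    have h2 := norm_image_sub_le_of_norm_deriv_le_segment_01' (C := ε * ‖w - z‖)
      (fun τ _ => (h1 τ).hasDerivWithinAt) fun τ hτ => by
        rw [← sub_apply]
        refine (ContinuousLinearMap.le_opNorm _ _).trans
          (mul_le_mul_of_nonneg_right ?_ (norm_nonneg _))
        rw [← dist_eq_norm]
        exact (hb ((convex_ball x δ).add_smul_sub_mem hz.1 hw.1 ⟨hτ.1, hτ.2.le⟩)).le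
    simp only [one_smul, zero_smul, add_zero, sub_zero, add_sub_cancel] at h2
    rwa [sub_right_comm]
  have hcl : IsClosed {p : X × X | ‖f p.2 - f p.1 - f' x (p.2 - p.1)‖ ≤ ε * ‖p.2 - p.1‖} :=
    isClosed_le (by fun_prop) (by fun_prop)
  have hsub : closure ((Metric.ball x δ ∩ P) ×ˢ (Metric.ball x δ ∩ P)) ⊆ _ :=
    hcl.closure_subset_iff.2 fun p hp => key p.1 hp.1 p.2 hp.2
  rw [closure_prod_eq] at hsub
  filter_upwards [Metric.ball_mem_nhds x hδ] with w hw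
  exact hsub (a := (x, w)) ⟨hP.open_subset_closure_inter Metric.isOpen_ball (Metric.mem_ball_self hδ),
    hP.open_subset_closure_inter Metric.isOpen_ball hw⟩

theorem exists_continuous_ext [CompleteSpace Y] {D : Type} {e : D → X} (he : DenseRange e)
    {g : D → Y} (h : ∀ R : ℝ, ∃ L, ∀ a b, ‖e a‖ ≤ R → ‖e b‖ ≤ R → ‖g a - g b‖ ≤ L * ‖e a - e b‖) :
    ∃ G : X → Y, Continuous G ∧ ∀ a, G (e a) = g a := by
  let : TopologicalSpace D := TopologicalSpace.induced e inferInstance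
  have di : IsDenseInducing e := ⟨⟨rfl⟩, he⟩
  have key : ∀ x : X, ∀ ε > 0, ∃ δ > 0, ∀ a b, e a ∈ Metric.ball x δ → e b ∈ Metric.ball x δ →
      dist (g a) (g b) < ε := by
    intro x ε hε
    obtain ⟨L, hL⟩ := h (‖x‖ + 1)
    have hp : 0 < 2 * (|L| + 1) := by positivity
    refine ⟨min 1 (ε / (2 * (|L| + 1))), lt_min one_pos (div_pos hε hp), fun a b ha hb => ?_⟩
    have hn : ∀ y ∈ Metric.ball x (min 1 (ε / (2 * (|L| + 1)))), ‖y‖ ≤ ‖x‖ + 1 := fun y hy => by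
      have := (mem_ball_iff_norm.1 hy).trans_le (min_le_left _ _)
      linarith [norm_sub_norm_le y x]
    have h1 := hL a b (hn _ ha) (hn _ hb)
    have h2 : ‖e a - e b‖ ≤ 2 * (ε / (2 * (|L| + 1))) := by
      rw [← dist_eq_norm]
      linarith [dist_triangle_right (e a) (e b) x, (Metric.mem_ball.1 ha).trans_le (min_le_right _ _),
        (Metric.mem_ball.1 hb).trans_le (min_le_right _ _)]
    have h3 : L * ‖e a - e b‖ ≤ |L| * (2 * (ε / (2 * (|L| + 1)))) :=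
      mul_le_mul (le_abs_self L) h2 (norm_nonneg _) (abs_nonneg L)
    have h4 : (|L| + 1) * (2 * (ε / (2 * (|L| + 1)))) = ε := by field_simp
    have h5 : 0 < 2 * (ε / (2 * (|L| + 1))) := by positivity
    rw [dist_eq_norm]
    linarith
  refine ⟨di.extend g, di.continuous_extend_of_cauchy fun x => ?_,
    fun a => di.extend_eq_of_tendsto ?_⟩
  · have := di.comap_nhds_neBot x
    refine Metric.cauchy_iff.2 ⟨inferInstance, fun ε hε => ?_⟩
    obtain ⟨δ, hδ, hd⟩ := key x ε hε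
    refine ⟨g '' (e ⁻¹' Metric.ball x δ),
      image_mem_map (preimage_mem_comap (Metric.ball_mem_nhds x hδ)), ?_⟩
    rintro _ ⟨a, ha, rfl⟩ _ ⟨b, hb, rfl⟩
    exact hd a b ha hb
  · refine Metric.tendsto_nhds.2 fun ε hε => ?_
    obtain ⟨δ, hδ, hd⟩ := key (e a) ε hε
    filter_upwards [preimage_mem_comap (Metric.ball_mem_nhds (e a) hδ)] with b hb
    exact hd b a hb (Metric.mem_ball_self hδ)

end

end Pool.Agent.P.MP_de3acd_gt.FH
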