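import Pool.Agent.P.MP_de3acd_gt.FH.EndG

/-! The ends of the moduli space of the homotopy.
Sketch: for q = (ξ, r) put h ϱ q = eF σ l ϱ q - eC σ x z v l ϱ. For ξ = xi x z u it is σ (pair u (tsl (σ ϱ) l) - pair v l) (rep_xi, Rep.prW, pair_sub). At
u = pw σ v g y ϱ and the parameter ϱ' it is σ (pair (tsl (σ (ϱ - ϱ')) v) l - pair v l) + σ pair (g - lp y) (tsl (σ ϱ') l) (pair_tsl); the derivative in ϱ' is
-pair (tsl (σ (ϱ - ϱ')) (ds v)) l + pair (g - lp y) (tsl (σ ϱ') (ds l)) (hasDerivAt_pair_tsl, σ² = 1), at most -κ for ϱ' near ϱ and ϱ large (EData.small);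
the rest σ prW (tsl (σ ϱ') l) (ξ - xi (pw ..)) is handled by norm_prW_tsl_le. pw ϱ - pw ϱ' is a translate of tsl (σ (ϱ - ϱ')) v - v (nrm_tsl, tendsto_nrm_tsl,
sep_tsl, nrm_le_iff, Prod.dist_eq). uniq and ex: EData.glue, ok_lop_iff, hasIdx_of_frm.
sep: by contradiction sequences ϱ n, ϱ' n → ∞ (exists_seq_tendsto or choose with 1/(n+1), n); WC.tendsto, EData.locC give g = g'; Pth.unique; eq_tsl_of_close. -/

open Set Filter Topology MeasureTheory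
open scoped ContDiff NNReal ENNReal RealInnerProductSpace

namespace Pool.Agent.P.MP_de3acd_gt.FH

noncomputable section

variable {V : Type} [NormedAddCommGroup V] [InnerProductSpace ℝ V] [Sym V]

variable {J : ℝ → V → V →L[ℝ] V} {X : ℝ → Pl → V → V} {R σ r₀ : ℝ} {Y : ℝ → V → V} {x y z : ℝ → V}
  {v l g : Pl → V} {o : ∀ a b, Op V a b → ℤˣ}

theorem facts_EndV (h : KData J X R Y) (hx : Orb 1 Y x) (hz : Orb 1 Y z)
    (e : EData J X Y x z σ y v l r₀ g) : |σ| = 1 ∧ l ∈ Dsub V ∧ 0 < pair Ω0 (ds v) l ∧ Bdd g ∧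
      Per g ∧ ∃ a b, Orb 1 Y a ∧ Orb 1 Y b ∧ a ≠ b ∧ Pth a b v := by
  have hY := h.fData.spl
  obtain ⟨rfl, a, b, c⟩ | ⟨rfl, a, c, b⟩ := e.side
  · exact ⟨abs_one, (b.props h.acs hY (h.nd x hx) (h.nd y e.oy)).1, b.pos, c.nice.bdd, c.nice.per,
      x, y, hx, e.oy, a, b.nice.pth⟩
  · exact ⟨by simp, (b.props h.acs hY (h.nd y e.oy) (h.nd z hz)).1, b.pos, c.nice.bdd, c.nice.per,
      y, z, e.oy, hz, a, b.nice.pth⟩

theorem key_EndV {Y' : ℝ → V → V} (P : PData J X R Y Y' x z) (hl : l ∈ Dsub V) {u : Pl → V}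
    (hu : Pth x z u) (ϱ : ℝ) (q : W 2 V × ℝ) : eF σ l ϱ q - eC σ x z v l ϱ =
      σ * (pair Ω0 u (tsl (σ * ϱ, 0) l) - pair Ω0 v l) +
        σ * prW (tsl (σ * ϱ, 0) l) (q.1 - xi x z u) := by
  obtain ⟨a, b, c, d⟩ := P.loops
  rw [map_sub, (P.rep_xi hu).1.prW (tsl_mem hl _),
    pair_sub hu.bdd.1.continuous (bdd_ref a b c d).1.1.continuous (tsl_mem hl _), eC]
  change σ * prW (tsl (σ * ϱ, 0) l) q.1 - _ = _
  ring

theorem tsl_EndV {α : Type} (f : Pl → α) (a b : ℝ) :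
    tsl (a, 0) (tsl (b, 0) f) = tsl (a + b, 0) f := by
  rw [tsl_tsl, Prod.mk_add_mk, add_zero]

theorem pair_EndV (hv : ContDiff ℝ ∞ v) (pv : Per v) (hg : Continuous (g - lp y))
    (hl : l ∈ Dsub V) (ϱ ϱ' : ℝ) : pair Ω0 (pw σ v g y ϱ) (tsl (σ * ϱ', 0) l) =
      pair Ω0 (tsl (σ * (ϱ - ϱ'), 0) v) l + pair Ω0 (g - lp y) (tsl (σ * ϱ', 0) l) := by
  rw [pw, add_sub_assoc, pair_add (contDiff_tsl hv _).continuous hg (tsl_mem hl _),
    ← pair_tsl (contDiff_tsl hv _).continuous (pv.tsl _) hl (σ * ϱ', 0), tsl_EndV, ← mul_add,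
    add_sub_cancel]

theorem dist_EndV (h : KData J X R Y) (hx : Orb 1 Y x) (hz : Orb 1 Y z)
    (e : EData J X Y x z σ y v l r₀ g) (ϱ ϱ' : ℝ) {ε : ℝ} (hε : 0 ≤ ε) :
    dist (xi x z (pw σ v g y ϱ), r₀) (xi x z (pw σ v g y ϱ'), r₀) ≤ ε ↔
      nrm 2 (tsl (σ * (ϱ - ϱ'), 0) v - v) univ ≤ ENNReal.ofReal (ε ^ 2) := by
  have e1 : pw σ v g y ϱ - pw σ v g y ϱ' = tsl (σ * ϱ', 0) (tsl (σ * (ϱ - ϱ'), 0) v - v) := by
    change _ = tsl (σ * ϱ', 0) (tsl (σ * (ϱ - ϱ'), 0) v) - tsl (σ * ϱ', 0) v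
    rw [tsl_EndV, ← mul_add, add_sub_cancel, pw, pw]
    abel
  rw [dist_prod_same_right, ← (h.fData.pData hx hz).nrm_le_iff (e.pth h hx hz ϱ)
    (e.pth h hx hz ϱ') hε, e1, ← nrm_tsl_Pth 2 (σ * ϱ') (_ - v) univ, preimage_univ]

theorem EData.endH (ho : Coh Ω0 ⊥ o) (h : KData J X R Y) (hx : Orb 1 Y x) (hz : Orb 1 Y z)
    (e : EData J X Y x z σ y v l r₀ g) :
    EndH (Z0 J X x z) (fun ϱ => (xi x z (pw σ v g y ϱ), r₀)) (eF σ l) (eC σ x z v l) := by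
  obtain ⟨hσ, hl, hp, bg, -, a, b, ha, hb, hab, hv⟩ := facts_EndV h hx hz e
  have P := h.fData.pData hx hz
  have ca := Orb.contDiff P.spl.1 ha
  have cb := Orb.contDiff P.spl.1 hb
  have cg : ContDiff ℝ ∞ (g - lp y) := bg.1.sub (lp_Pth (Orb.contDiff P.spl.1 e.oy))
  have pg : Per (g - lp y) := fun s t => by
    obtain ⟨-, -, -, -, pg, -⟩ := facts_EndV h hx hz e
    simp only [Pi.sub_apply, lp, pg s t, Orb.per e.oy t]
  have hσ2 : σ * σ = 1 := by rw [← abs_mul_abs_self, hσ, one_mul]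
  have hw := e.pth h hx hz
  obtain ⟨η, hη⟩ := Coh.exists_glu ho
  obtain ⟨ε₀, h0, g1, g2, g3⟩ := e.glue ho hη h hx hz
  obtain ⟨C, C0, hC⟩ := norm_prW_tsl_le hl
  have nz : ∀ {q : W 2 V × ℝ} {ξ : W 2 V} {δ : ℝ}, dist q (ξ, r₀) ≤ δ → ‖q.1 - ξ‖ ≤ δ :=
    fun d => (dist_eq_norm _ _).symm.trans_le ((le_max_left _ _).trans d)
  refine ⟨?_, fun ε hε => ?_, fun δ hδ => ?_, ⟨ε₀, h0, ?_⟩, fun ε hε => ?_, fun ε hε => ?_, ?_⟩
  · obtain ⟨c1, c2, c3, c4⟩ := P.loops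
    have k1 : Continuous fun s : ℝ => pair Ω0 (ref x z) (tsl (s, 0) l) :=
      continuous_iff_continuousAt.2 fun s => (hasDerivAt_pair_tsl' (bdd_ref c1 c2 c3 c4).1.1
        (bdd_ref c1 c2 c3 c4).2.1 hl s).continuousAt
    exact (continuous_const.mul ((continuous_prW_tsl hl).comp ((continuous_const.mul
      continuous_fst).prodMk continuous_snd.fst))).sub (continuous_const.mul
        (continuous_const.sub (k1.comp (continuous_const.mul continuous_fst))))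
  · obtain ⟨δ, hδ, k⟩ := Metric.eventually_nhds_iff.1 (ENNReal.tendsto_nhds_zero.1
      (tendsto_nrm_tsl hv ca cb ha.2 hb.2) _ (ENNReal.ofReal_pos.2 (pow_pos hε 2)))
    refine ⟨δ / 2, half_pos hδ, fun ϱ ϱ' d => (dist_EndV h hx hz e ϱ ϱ' hε.le).2 (k ?_)⟩
    rw [Real.dist_0_eq_abs, abs_mul, hσ]
    linarith
  · obtain ⟨ε, hε, k⟩ := sep_tsl hv ca cb ha.2 hb.2 hab hδ
    refine ⟨ε, hε, fun ϱ ϱ' d => ?_⟩
    simpa only [abs_mul, hσ, one_mul] using k _ ((dist_EndV h hx hz e ϱ ϱ' hε.le).1 d)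
  · filter_upwards [g2] with ϱ k
    rintro ⟨_, r⟩ ⟨u, n, rfl, -⟩ ⟨_, r'⟩ ⟨u', n', rfl, -⟩ d d' e1
    have e2 := (key_EndV (σ := σ) (v := v) P hl n.pth ϱ (xi x z u, r)).symm.trans
      ((congrArg (· - eC σ x z v l ϱ) e1).trans (key_EndV P hl n'.pth ϱ _))
    simp only [sub_self, map_zero, mul_zero, add_zero] at e2
    obtain ⟨rfl, rfl⟩ := k u r u' r' n n'
      ((P.nrm_le_iff n.pth (hw ϱ) h0.le).2 ((le_max_left _ _).trans d)) ((le_max_right _ _).trans d)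
      ((P.nrm_le_iff n'.pth (hw ϱ) h0.le).2 ((le_max_left _ _).trans d'))
      ((le_max_right _ _).trans d')
      (sub_left_inj.1 (mul_left_cancel₀ (abs_ne_zero.1 (hσ.trans_ne one_ne_zero)) e2))
    rfl
  · filter_upwards [g1, g3 _ (lt_min hε h0)] with ϱ k ⟨u, r, n, d, d', e1⟩
    have m0 := (lt_min hε h0).le
    refine ⟨(xi x z u, r), ⟨u, n, rfl, ?_⟩, max_le (((P.nrm_le_iff n.pth (hw ϱ) m0).1 d).trans
      (min_le_left _ _)) (d'.trans (min_le_left _ _)), sub_eq_zero.1 ?_⟩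
    · simpa using hasIdx_of_frm ((ok_lop_iff h.acs (h.fam.fld r) (P.gorb r).1 (P.gorb r).2 n.pth
        _ _ _).1 (k u r n.pth (d.trans (ENNReal.ofReal_le_ofReal
          (pow_le_pow_left₀ m0 (min_le_right _ _) 2))) (d'.trans (min_le_right _ _))).1).2.2
    · rw [key_EndV P hl n.pth, e1]
      simp
  · refine ⟨ε / 2 / (C + 1), by positivity, ?_⟩
    filter_upwards [(e.small h hx hz hl).eventually (Metric.closedBall_mem_nhds 0 (half_pos hε))]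
      with ϱ k q d
    rw [key_EndV P hl (hw ϱ), pair_EndV hv.bdd.1 hv.per cg.continuous hl, sub_self, mul_zero,
      Prod.mk_zero_zero, tsl_zero, add_sub_cancel_left, ← mul_add, abs_mul, hσ, one_mul]
    have k1 := ((prW (tsl (σ * ϱ, 0) l)).le_opNorm (q.1 - xi x z (pw σ v g y ϱ))).trans
      (mul_le_mul ((hC _ 0).1.trans (le_add_of_nonneg_right zero_le_one)) (nz d) (norm_nonneg _)
        (by positivity))
    rw [mul_div_cancel₀ _ (by positivity), Real.norm_eq_abs] at k1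
    rw [Real.dist_0_eq_abs] at k
    linarith [abs_add_le (pair Ω0 (g - lp y) (tsl (σ * ϱ, 0) l))
      (prW (tsl (σ * ϱ, 0) l) (q.1 - xi x z (pw σ v g y ϱ)))]
  · obtain ⟨p₀, e0⟩ : ∃ p₀, pair Ω0 (ds v) l = 4 * p₀ := ⟨pair Ω0 (ds v) l / 4, by ring⟩
    have p0 : 0 < p₀ := by linarith
    obtain ⟨δ₁, hδ₁, k1⟩ := Metric.eventually_nhds_iff.1
      ((hasDerivAt_pair_tsl (contDiff_ds hv.bdd.1) hv.per.ds hl 0).continuousAt.eventually_const_lt
        (show 3 * p₀ < _ by simp only [Prod.mk_zero_zero, tsl_zero]; linarith))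
    obtain ⟨T, k2⟩ := eventually_atTop.1 ((e.small h hx hz (ds_mem hl)).eventually_le_const p0)
    obtain ⟨δ, hδ, d1, d2⟩ : ∃ δ > 0, δ < δ₁ ∧ δ ≤ p₀ / (C + 1) :=
      ⟨min (δ₁ / 2) (p₀ / (C + 1)), by positivity, (min_le_left _ _).trans_lt (half_lt_self hδ₁),
        min_le_right _ _⟩
    refine ⟨δ, hδ, p₀, p0, ?_⟩
    filter_upwards [eventually_ge_atTop (T + δ)] with ϱ k q d ϱ₁ ϱ₂ r1 r2 r3
    have hd : ∀ t : ℝ, HasDerivAt (fun t : ℝ => σ * (pair Ω0 (tsl (σ * (ϱ - t), 0) v) l +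
        pair Ω0 (g - lp y) (tsl (σ * t, 0) l))) (-pair Ω0 (tsl (σ * (ϱ - t), 0) (ds v)) l +
          pair Ω0 (g - lp y) (tsl (σ * t, 0) (ds l))) t := fun t => by
      refine ((((hasDerivAt_pair_tsl hv.bdd.1 hv.per hl _).comp t
        (((hasDerivAt_id t).const_sub ϱ).const_mul σ)).add ((hasDerivAt_pair_tsl' cg pg hl _).comp t
          ((hasDerivAt_id t).const_mul σ))).const_mul σ).congr_deriv ?_
      simp only [id]
      linear_combination (pair Ω0 (g - lp y) (tsl (σ * t, 0) (ds l)) -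
        pair Ω0 (tsl (σ * (ϱ - t), 0) (ds v)) l) * hσ2
    have k3 := (convex_Icc (ϱ - δ) (ϱ + δ)).image_sub_le_mul_sub_of_deriv_le (C := -(2 * p₀))
      (fun t _ => (hd t).continuousAt.continuousWithinAt)
      (fun t _ => (hd t).differentiableAt.differentiableWithinAt) (fun t ht => by
        obtain ⟨t1, t2⟩ := interior_subset ht
        have := k1 (y := σ * (ϱ - t)) (by
          rw [Real.dist_0_eq_abs, abs_mul, hσ, one_mul, abs_lt]
          constructor <;> linarith)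
        rw [(hd t).deriv]
        linarith [k2 t (by linarith)]) ϱ₁ ⟨r1, r2.trans r3⟩ ϱ₂ ⟨r1.trans r2, r3⟩ r2
    have k4 := ((prW (tsl (σ * ϱ₂, 0) l) - prW (tsl (σ * ϱ₁, 0) l)).le_opNorm
      (q.1 - xi x z (pw σ v g y ϱ))).trans (mul_le_mul (hC _ _).2 ((nz d).trans d2) (norm_nonneg _)
        (by positivity))
    rw [← mul_sub, abs_mul, hσ, one_mul, abs_of_nonneg (sub_nonneg.2 r2), Real.norm_eq_abs,
      ← one_mul |_|, ← hσ, ← abs_mul, sub_apply, mul_sub, hσ] at k4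
    have k5 : C * (ϱ₂ - ϱ₁) * (p₀ / (C + 1)) ≤ p₀ * (ϱ₂ - ϱ₁) := by
      rw [← mul_div_assoc, div_le_iff₀ (by positivity)]
      nlinarith [mul_nonneg p0.le (sub_nonneg.2 r2)]
    rw [key_EndV P hl (hw ϱ), key_EndV P hl (hw ϱ), pair_EndV hv.bdd.1 hv.per cg.continuous hl,
      pair_EndV hv.bdd.1 hv.per cg.continuous hl]
    linarith [(abs_le.1 k4).2]

theorem EData.sep (h : KData J X R Y) (hx : Orb 1 Y x) (hz : Orb 1 Y z)
    (e : EData J X Y x z σ y v l r₀ g) {σ' r₀' : ℝ} {y' : ℝ → V} {v' l' g' : Pl → V}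
    (e' : EData J X Y x z σ' y' v' l' r₀' g')
    (hn : ¬(σ = σ' ∧ y = y' ∧ r₀ = r₀' ∧ g = g' ∧ ∃ s : ℝ, v = tsl (s, 0) v')) :
    ∃ ε > 0, ∃ ϱ₀ : ℝ, ∀ ϱ ≥ ϱ₀, ∀ ϱ' ≥ ϱ₀,
      ε < dist (xi x z (pw σ v g y ϱ), r₀) (xi x z (pw σ' v' g' y' ϱ'), r₀') := by
  by_contra hc
  push Not at hc
  choose ϱ h1 ϱ' h2 h3 using fun n : ℕ => hc (1 / ((n : ℝ) + 1)) Nat.one_div_pos_of_nat n
  have t1 := tendsto_atTop_mono h1 tendsto_natCast_atTop_atTop
  have t2 := tendsto_atTop_mono h2 tendsto_natCast_atTop_atTop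
  have t0 := tendsto_one_div_add_atTop_nhds_zero_nat (𝕜 := ℝ)
  have P := h.fData.pData hx hz
  have c := fun (a : ℝ → V) (ha : Orb 1 Y a) => Orb.contDiff P.spl.1 ha
  have hr : r₀ = r₀' :=
    dist_le_zero.1 (ge_of_tendsto' t0 fun n => (le_max_right _ _).trans (h3 n))
  have wc := fun ε => ((P.wc_iff (fun n => e.pth h hx hz (ϱ n)) fun n => e'.pth h hx hz (ϱ' n)).2
    (squeeze_zero (fun _ => dist_nonneg) (fun n => (le_max_left _ _).trans (h3 n)) t0)).tendsto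
      (fun n => ⟨(e.pth h hx hz _).bdd.1, (e.pth h hx hz _).per⟩)
      (fun n => ⟨(e'.pth h hx hz _).bdd.1, (e'.pth h hx hz _).per⟩) (ε := ε)
  obtain rfl : g = g' := by
    funext p
    refine dist_le_zero.1 (le_of_forall_pos_le_add fun ε hε => ?_)
    have hε' : 0 < ε / 3 := by positivity
    obtain ⟨n, a, b, d⟩ := ((wc _ hε').and ((t1.eventually (e.locC h hx hz 0 |p.1| _ hε')).and
      (t2.eventually (e'.locC h hx hz 0 |p.1| _ hε')))).exists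
    have b' := b p (abs_le.1 le_rfl)
    have d' := d p (abs_le.1 le_rfl)
    have a' := a p
    rw [Pi.sub_apply, ← dist_eq_norm] at b' d'
    rw [← dist_eq_norm] at a'
    linarith [dist_triangle_left (g p) (g' p) (pw σ v g y (ϱ n) p),
      dist_triangle (pw σ v g y (ϱ n) p) (pw σ' v' g' y' (ϱ' n) p) (g' p)]
  have fin : σ = σ' → y = y' → ∀ a b, Orb 1 Y a → Orb 1 Y b → a ≠ b → Pth a b v → Pth a b v' →
      False := by
    rintro rfl rfl a b ha hb hab hv hv'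
    obtain ⟨-, s, -, -, k⟩ := eq_tsl_of_close hv hv' (c a ha) (c b hb) ha.2 hb.2 hab
      (s := fun n => σ * ϱ' n - σ * ϱ n) fun ε hε => (wc ε hε).mono fun n k p => by
        have := k (p - (σ * ϱ n, 0))
        simp only [pw, Pi.sub_apply, Pi.add_apply, tsl, sub_add_cancel, sub_sub_sub_cancel_right,
          add_sub_add_right_eq_sub] at this
        rwa [sub_add_eq_add_sub, add_sub_assoc, Prod.mk_sub_mk, sub_zero] at this
    exact hn ⟨rfl, rfl, hr, rfl, s, k⟩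
  obtain ⟨s1, a1, b1, c1⟩ | ⟨s1, a1, c1, b1⟩ := e.side <;>
    obtain ⟨s2, a2, b2, c2⟩ | ⟨s2, a2, c2, b2⟩ := e'.side
  · obtain ⟨rfl, -⟩ := c1.nice.pth.unique c2.nice.pth (c _ e.oy) (c _ hz) e.oy.2 hz.2
      (c _ e'.oy) (c _ hz) e'.oy.2 hz.2
    exact fin (s1.trans s2.symm) rfl x y hx e.oy a1 b1.nice.pth b2.nice.pth
  · exact a1 (c1.nice.pth.unique c2.nice.pth (c _ e.oy) (c _ hz) e.oy.2 hz.2
      (c _ hx) (c _ e'.oy) hx.2 e'.oy.2).1.symm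
  · exact a1 (c1.nice.pth.unique c2.nice.pth (c _ hx) (c _ e.oy) hx.2 e.oy.2
      (c _ e'.oy) (c _ hz) e'.oy.2 hz.2).2
  · obtain ⟨-, rfl⟩ := c1.nice.pth.unique c2.nice.pth (c _ hx) (c _ e.oy) hx.2 e.oy.2
      (c _ hx) (c _ e'.oy) hx.2 e'.oy.2
    exact fin (s1.trans s2.symm) rfl y z e.oy hz a1 b1.nice.pth b2.nice.pth

end

end Pool.Agent.P.MP_de3acd_gt.FH
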