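import Pool.Agent.P.MP_de3acd_gt.FH.Defs4

/-! Ends of the moduli space of the homotopy, representatives and orientations. -/

open Set Filter Topology MeasureTheory
open scoped ContDiff NNReal ENNReal RealInnerProductSpace

namespace Pool.Agent.P.MP_de3acd_gt.FH

noncomputable section

variable {V : Type} [NormedAddCommGroup V] [InnerProductSpace ℝ V] [Sym V]

/-- The preglued map with `g` in the middle and `v` far on the left (`σ = 1`) or right (`σ = -1`). -/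
def pw (σ : ℝ) (v g : Pl → V) (y : ℝ → V) (ϱ : ℝ) : Pl → V := tsl (σ * ϱ, 0) v + g - lp y

/-- The slice functional of an end. -/
def eF (σ : ℝ) (l : Pl → V) (ϱ : ℝ) : W 2 V × ℝ →L[ℝ] ℝ :=
  σ • (prW (tsl (σ * ϱ, 0) l)).comp (ContinuousLinearMap.fst ℝ (W 2 V) ℝ)

/-- The slice value of an end. -/
def eC (σ : ℝ) (x z : ℝ → V) (v l : Pl → V) (ϱ : ℝ) : ℝ :=
  σ * (pair Ω0 v l - pair Ω0 (ref x z) (tsl (σ * ϱ, 0) l))

/-- A framed solution of index one. -/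
structure IsN (J : ℝ → V → V →L[ℝ] V) (Y : ℝ → V → V) (x y : ℝ → V) (v l : Pl → V) : Prop where
  nice : Nice J (sta Y) x y v
  pos : 0 < pair Ω0 (ds v) l
  ok : Ok Ω0 ⊥ (lop 1 J (sta Y) x y v ![] ![l] ![![]])

/-- A regular solution of index minus one. -/
structure IsK (J : ℝ → V → V →L[ℝ] V) (X : ℝ → Pl → V → V) (x y : ℝ → V) (r : ℝ) (g : Pl → V) :
    Prop where
  nice : Nice J (X r) x y g
  ok : Ok Ω0 ⊥ (lop 1 J (X r) x y g ![kr J X r g] ![] ![])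

/-- A broken configuration from `x` to `z`. -/
structure EData (J : ℝ → V → V →L[ℝ] V) (X : ℝ → Pl → V → V) (Y : ℝ → V → V) (x z : ℝ → V) (σ : ℝ)
    (y : ℝ → V) (v l : Pl → V) (r : ℝ) (g : Pl → V) : Prop where
  oy : Orb 1 Y y
  side : σ = 1 ∧ x ≠ y ∧ IsN J Y x y v l ∧ IsK J X y z r g ∨
    σ = -1 ∧ y ≠ z ∧ IsK J X x y r g ∧ IsN J Y y z v l

/-- A family with fixed ends. -/
structure KData (J : ℝ → V → V →L[ℝ] V) (X : ℝ → Pl → V → V) (R : ℝ) (Y : ℝ → V → V) : Prop where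
  acs : ACS Ω0 J
  fam : Fam X R
  left : ∀ r, frz (X r) (-R) = Y
  right : ∀ r, frz (X r) R = Y
  nd : NdA Y

theorem HData.kData {J : ℝ → V → V →L[ℝ] V} {X : ℝ → Pl → V → V} {R c : ℝ} {Y : ℝ → V → V}
    {A : (ℝ → V) → ℝ} (h : HData J X R Y A c) : KData J X R Y :=
  ⟨h.acs, h.fam, h.left, h.right, h.nd⟩

/-- Representatives of the solutions of index one modulo translation. -/
structure Reps (o : ∀ a b, Op V a b → ℤˣ) (J : ℝ → V → V →L[ℝ] V) (Y : ℝ → V → V) (x y : ℝ → V)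
    (T : Finset (Pl → V)) (L : (Pl → V) → Pl → V) : Prop where
  mem : ∀ v ∈ T, IsN J Y x y v (L v)
  all : ∀ v, Nice J (sta Y) x y v → HasIdx (Du J (sta Y) v) 1 → ∃ v' ∈ T, ∃ s : ℝ, v = tsl (s, 0) v'
  inj : ∀ v ∈ T, ∀ v' ∈ T, ∀ s : ℝ, v = tsl (s, 0) v' → v = v'
  sum : nN Ω0 ⊥ o 1 J Y x y = ∑ v ∈ T, (o 0 1 (lop 1 J (sta Y) x y v ![] ![L v] ![![]]) : ℤ)

/-- The oriented one-manifold of solutions of index zero. -/
structure Ori (o : ∀ a b, Op V a b → ℤˣ) (J : ℝ → V → V →L[ℝ] V) (X : ℝ → Pl → V → V) (x z : ℝ → V)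
    (Φ : W 2 V × ℝ → W 1 V) (O : Set (W 2 V × ℝ)) (Pos : W 2 V × ℝ → W 2 V × ℝ → Prop) : Prop where
  smooth : ContDiff ℝ ∞ Φ
  isOpen : IsOpen O
  eq : {q ∈ O | Φ q = 0} = Z0 J X x z
  reg : ∀ q ∈ O, Φ q = 0 → Function.Surjective (fderiv ℝ Φ q) ∧ HasIdx (fderiv ℝ Φ q) 1
  neg : ∀ q ∈ O, Φ q = 0 → ∀ τ, τ ≠ 0 → fderiv ℝ Φ q τ = 0 → (Pos q τ ↔ ¬Pos q (-τ))
  ray : ∀ q τ (r : ℝ), 0 < r → Pos q τ → Pos q (r • τ)
  cont : ∀ q ∈ O, Φ q = 0 → ∀ τ, τ ≠ 0 → fderiv ℝ Φ q τ = 0 → Pos q τ →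
    ∀ᶠ p : (W 2 V × ℝ) × W 2 V × ℝ in 𝓝 (q, τ), p.1 ∈ O → Φ p.1 = 0 → fderiv ℝ Φ p.1 p.2 = 0 →
      Pos p.1 p.2
  frame : ∀ (u : Pl → V) (r : ℝ) (l : Pl → V) (m : ℝ), Nice J (X r) x z u →
    Ok Ω0 ⊥ (lop 1 J (X r) x z u ![kr J X r u] ![l] ![![m]]) → ∀ τ, τ ≠ 0 →
      fderiv ℝ Φ (xi x z u, r) τ = 0 → prW l τ.1 + m * τ.2 ≠ 0 ∧ (0 < prW l τ.1 + m * τ.2 →
        (Pos (xi x z u, r) τ ↔ o 1 1 (lop 1 J (X r) x z u ![kr J X r u] ![l] ![![m]]) = 1))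

end

end Pool.Agent.P.MP_de3acd_gt.FH
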