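import Pool.Agent.P.MP_de3acd_gt.FH.Pth

/-! The estimate on long necks near a nondegenerate orbit, and Floer cylinders versus nice solutions.
Sketch of neck: ξ = u - lp x, j₀ t = J t (x t), B t = fderiv (Y t) (x t). The equation reads
ds ξ + J(u) (dt ξ - (Y u - Y x)) = 0, so ‖ds ξ + j₀ (dt ξ - B ξ)‖ ≤ C δ (‖dt ξ‖ + ‖ξ‖) pointwise on the neck. With χ = plat a b 1
(dt χ = 0) apply stat_est to χ • ξ and absorb (nrm 1 (χ • ξ) < ⊤): nrm 1 ξ (Icc a b) ≤ C (nrm 0 ξ on the two collars). For second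
derivatives v = ds ξ or dt ξ: ‖ds v + J(u) dt v‖ ≤ C (‖ξ‖ + ‖ds ξ‖ + ‖dt ξ‖) on the neck (differentiate
ds ξ + G (t, ξ, dt ξ) = 0 where G (t, 0, 0) = 0 and G is affine in dt ξ with linear part J); est_cyl for χ • v.
nice_of_cyl: Bdd by bdd_of_c1 is a hypothesis here; uniform convergence on Icc 0 1 and Per give uniform smallness of u - lp y on
Ici T, cn_interp gives Cn 1 δ, neck on Icc T T' with collars bounded uniformly in T' (Cn.nrm_le), nrm_le_of_exhaust. -/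

open Set Filter Topology MeasureTheory
open scoped ContDiff NNReal ENNReal RealInnerProductSpace

namespace Pool.Agent.P.MP_de3acd_gt.FH

noncomputable section

variable {V : Type} [NormedAddCommGroup V] [InnerProductSpace ℝ V] [Sym V]

variable {J : ℝ → V → V →L[ℝ] V} {x y : ℝ → V} {u : Pl → V}

theorem three_Neck {g ξ : Pl → V} (hξ : ContDiff ℝ ∞ ξ) {I : Set ℝ} (hI : IsClosed I) {K : ℝ}
    (h : ∀ p : Pl, p.1 ∈ I → ‖g p‖ ≤ K * (‖ξ p‖ + ‖ds ξ p‖ + ‖dt ξ p‖))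
    (h0 : ∀ p : Pl, p.1 ∉ I → g p = 0) :
    nrm 0 g univ ≤ (3 * K ^ 2).toNNReal * nrm 1 ξ I := by
  have m1 : Measurable fun p => ‖ξ p‖ₑ ^ 2 := hξ.continuous.enorm.measurable.pow_const 2
  have m2 : Measurable fun p => ‖ds ξ p‖ₑ ^ 2 :=
    (contDiff_ds hξ).continuous.enorm.measurable.pow_const 2
  rw [nrm_eq_of_supp 0 hI h0, nrm_succ]
  simp only [nrm_zero]
  rw [← lintegral_add_left m1, ← lintegral_add_left (m1.fun_add m2),
    ← lintegral_const_mul' _ _ ENNReal.coe_ne_top]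
  refine setLIntegral_mono' (hI.measurableSet.prod measurableSet_Icc) fun p hp => ?_
  simp only [enorm_eq_nnnorm]
  norm_cast
  rw [← NNReal.coe_le_coe]
  push_cast
  rw [Real.coe_toNNReal _ (by positivity)]
  refine (pow_le_pow_left₀ (norm_nonneg _) (h p hp.1) 2).trans ?_
  nlinarith [sq_nonneg (K * ‖ξ p‖ - K * ‖ds ξ p‖), sq_nonneg (K * ‖ξ p‖ - K * ‖dt ξ p‖),
    sq_nonneg (K * ‖ds ξ p‖ - K * ‖dt ξ p‖)]

theorem eq_Neck {f g : Pl → V} {a b : ℝ} (h : ∀ p : Pl, p.1 ∈ Icc a b → f p = g p) :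
    nrm 0 f (Icc a b) ≤ nrm 0 g univ := by
  refine le_trans (le_of_eq ?_) (nrm_mono g le_rfl (subset_univ (Icc a b)))
  exact setLIntegral_congr_fun (measurableSet_Icc.prod measurableSet_Icc) fun p hp => by
    simp only [h p hp.1]

theorem cut_Neck {f : Pl → V} (hf : ContDiff ℝ ∞ f) (pf : Per f) {a b : ℝ} (hab : a ≤ b) :
    ∃ ψ ∈ Dsub V, (∀ p, ψ p = plat a b 1 p • f p) ∧
      (∀ p, ds ψ p = ds (plat a b 1) p • f p + plat a b 1 p • ds f p) ∧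
      (∀ p, dt ψ p = plat a b 1 p • dt f p) ∧ nrm 0 f (Icc a b) ≤ nrm 0 ψ univ ∧
      nrm 0 (ds f) (Icc a b) ≤ nrm 0 (ds ψ) univ ∧ nrm 0 (dt f) (Icc a b) ≤ nrm 0 (dt ψ) univ := by
  have hχ := (bdd_plat a b 1).1.differentiable (by simp)
  have hd := hf.differentiable (by simp)
  have h1 : ∀ p, ds (fun p => plat a b 1 p • f p) p =
      ds (plat a b 1) p • f p + plat a b 1 p • ds f p := fun p =>
    ds_bil (ContinuousLinearMap.lsmul ℝ ℝ) (hχ p) (hd p)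
  have h2 : ∀ p, dt (fun p => plat a b 1 p • f p) p = plat a b 1 p • dt f p := fun p => by
    have := dt_bil (ContinuousLinearMap.lsmul ℝ ℝ) (hχ p) (hd p)
    rw [dt_plat] at this
    simpa using this
  refine ⟨fun p => plat a b 1 p • f p,
    bil_mem hf pf (plat_mem_Dsub a b one_pos) (ContinuousLinearMap.lsmul ℝ ℝ).flip,
    fun _ => rfl, h1, h2, eq_Neck fun p hp => ?_, eq_Neck fun p hp => ?_, eq_Neck fun p hp => ?_⟩
  · rw [plat_eq_one one_pos hp, one_smul]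
  · rw [h1, plat_eq_one one_pos hp, one_smul, ds_plat_eq_zero one_pos hab
      (fun e => absurd e.2 (not_lt.2 hp.1)) (fun e => absurd e.1 (not_lt.2 hp.2)), zero_smul,
      zero_add]
  · rw [h2, plat_eq_one one_pos hp, one_smul]

theorem alg_Neck {j j0 : V →L[ℝ] V} {s d r ξ b : V} {L δ : ℝ} (hL : 1 ≤ L) (hδ : 0 ≤ δ)
    (e : s + j (d - r) = 0) (h1 : ‖j - j0‖ ≤ L * δ) (h2 : ‖j0‖ ≤ L) (h3 : ‖r‖ ≤ L * ‖ξ‖)
    (h4 : ‖r - b‖ ≤ L * δ * ‖ξ‖) : ‖s + j0 (d - b)‖ ≤ 2 * L ^ 2 * δ * (‖ξ‖ + ‖d‖) := by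
  have e' : s + j0 (d - b) = j0 (r - b) - (j - j0) (d - r) := by
    rw [eq_neg_of_add_eq_zero_left e]
    simp only [map_sub, ContinuousLinearMap.sub_apply]
    abel
  rw [e']
  have h5 : ‖j0 (r - b)‖ ≤ L * (L * δ * ‖ξ‖) := j0.le_of_opNorm_le_of_le h2 h4
  have h6 : ‖(j - j0) (d - r)‖ ≤ L * δ * (‖d‖ + L * ‖ξ‖) :=
    (j - j0).le_of_opNorm_le_of_le h1 (norm_sub_le_of_le le_rfl h3)
  refine (norm_sub_le_of_le h5 h6).trans ?_
  nlinarith [mul_nonneg (mul_nonneg (mul_nonneg hδ (norm_nonneg d)) (zero_le_one.trans hL))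
    (show 0 ≤ 2 * L - 1 by linarith)]

theorem const_Neck (hJ : SP J) {Y : ℝ → V → V} (hY : SP Y) (A : ℝ) : ∃ L, 1 ≤ L ∧ A ≤ L ∧
    (∀ t z, ‖z‖ ≤ A → ‖J t z‖ ≤ L ∧ ‖tot_JetC Y t z‖ ≤ L) ∧
    (∀ t z z', ‖z‖ ≤ A → ‖z'‖ ≤ A → ‖J t z - J t z'‖ ≤ L * ‖z - z'‖ ∧
      ‖Y t z - Y t z'‖ ≤ L * ‖z - z'‖ ∧ ‖fderiv ℝ (Y t) z - fderiv ℝ (Y t) z'‖ ≤ L * ‖z - z'‖ ∧
      ‖tot_JetC Y t z - tot_JetC Y t z'‖ ≤ L * ‖z - z'‖) ∧
    ∀ (c : Pl → V) (I : Set ℝ), ContDiff ℝ ∞ c → Cn 1 c I A → Cn 1 (cJ J c) I L := by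
  have hg : SP fun t z => (J t z, Y t z, fderiv ℝ (Y t) z, tot_JetC Y t z) :=
    ⟨hJ.1.prodMk (hY.1.prodMk (hY.fderiv.1.prodMk hY.tot_JetC.1)), fun t => by
      funext z
      simp only [hJ.2 t, hY.2 t, hY.tot_JetC.2 t]⟩
  obtain ⟨M₁, -, h1⟩ := hg.bound_JetC A
  obtain ⟨M₂, -, h2⟩ := hg.lip_JetC A
  obtain ⟨M₃, h3⟩ := cn_comp hJ 1 A
  obtain ⟨L, l1, l2, l3, l4, l5⟩ : ∃ L, 1 ≤ L ∧ A ≤ L ∧ M₁ ≤ L ∧ M₂ ≤ L ∧ M₃ ≤ L :=
    ⟨max (max 1 A) (max M₁ (max M₂ M₃)), by simp, by simp, by simp, by simp, by simp⟩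
  refine ⟨L, l1, l2, fun t z hz => ?_, fun t z z' hz hz' => ?_,
    fun c I hc h => (h3 c I hc h).up_JetC l5⟩
  · have := (h1 t z hz).trans l3
    simp only [Prod.norm_mk, max_le_iff] at this
    exact ⟨this.1, this.2.2.2⟩
  · have := (h2 t z z' hz hz').trans (mul_le_mul_of_nonneg_right l4 (norm_nonneg _))
    simpa only [Prod.mk_sub_mk, Prod.norm_mk, max_le_iff] using this

theorem cr_Neck {Y : ℝ → V → V} (hY : SP Y) (hx : Orb 1 Y x) (hu : ContDiff ℝ ∞ u) (p : Pl) :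
    cr J (sta Y) u p = ds (u - lp x) p +
      cJ J u p (dt (u - lp x) p - (Y p.2 (u p) - Y p.2 (lp x p))) := by
  have cx := Orb.contDiff hY.1 hx
  rw [ds_sub_JetC hu (lp_Pth cx), dt_sub_JetC hu (lp_Pth cx), ds_lp_Pth cx, sub_zero, Pi.sub_apply,
    dt_lp_Pth hY hx]
  exact congrArg (fun z => ds u p + J p.2 (u p) z) (sub_sub_sub_cancel_right _ _ _).symm

theorem der_Neck (hJ : SP J) {Y : ℝ → V → V} (hY : SP Y) (hx : Orb 1 Y x) (hu : ContDiff ℝ ∞ u)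
    {p : Pl} (e : cr J (sta Y) u =ᶠ[𝓝 p] fun _ => 0) (w : Pl) (hw : ‖w.2‖ ≤ 1) {L : ℝ}
    (hL : 1 ≤ L) (h1 : ‖cJ J u p‖ ≤ L) (h2 : ‖fderiv ℝ (cJ J u) p w‖ ≤ L)
    (h3 : ‖Y p.2 (u p) - Y p.2 (lp x p)‖ ≤ L * ‖(u - lp x) p‖)
    (h4 : ‖tot_JetC Y p.2 (u p)‖ ≤ L)
    (h5 : ‖tot_JetC Y p.2 (u p) - tot_JetC Y p.2 (lp x p)‖ ≤ L * ‖(u - lp x) p‖)
    (h6 : ‖fderiv ℝ (lp x) p w‖ ≤ L) :
    ‖fderiv ℝ (ds (u - lp x)) p w + cJ J u p (fderiv ℝ (dt (u - lp x)) p w)‖ ≤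
      2 * L ^ 3 * (‖(u - lp x) p‖ + ‖fderiv ℝ (u - lp x) p w‖ + ‖dt (u - lp x) p‖) := by
  have cx := lp_Pth (Orb.contDiff hY.1 hx)
  have cξ : ContDiff ℝ ∞ (u - lp x) := hu.sub cx
  have d1 := ((contDiff_ds cξ).differentiable (by simp) p).hasFDerivAt
  have d2 := ((contDiff_dt cξ).differentiable (by simp) p).hasFDerivAt
  have d3 : HasFDerivAt (cJ J u) _ p :=
    ((hJ.contDiff_comp hu).differentiable (by simp) p).hasFDerivAt
  have d4 := ((hY.contDiff_comp hu).differentiable (by simp) p).hasFDerivAt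
  have d5 := ((hY.contDiff_comp cx).differentiable (by simp) p).hasFDerivAt
  have d6 : HasFDerivAt (cr J (sta Y) u) _ p :=
    (d1.add (d3.clm_apply (d2.sub (d4.sub d5)))).congr_of_eventuallyEq
      (Eventually.of_forall (cr_Neck hY hx hu))
  have d7 := congrArg (fun T : Pl →L[ℝ] V => T w) (d6.fderiv.symm.trans e.fderiv_eq)
  have d8 : fderiv ℝ u p w = fderiv ℝ (u - lp x) p w + fderiv ℝ (lp x) p w := by
    rw [fderiv_sub (hu.differentiable (by simp) p) (cx.differentiable (by simp) p)]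
    simp
  simp only [ContinuousLinearMap.add_apply, ContinuousLinearMap.comp_apply,
    ContinuousLinearMap.sub_apply, ContinuousLinearMap.flip_apply, fderiv_fun_const,
    Pi.zero_apply, ContinuousLinearMap.zero_apply, congrFun (fd_comp_JetC hY hu w) p,
    congrFun (fd_comp_JetC hY cx w) p, d8, Pi.sub_apply (dt (u - lp x))] at d7
  have d9 : fderiv ℝ (ds (u - lp x)) p w + cJ J u p (fderiv ℝ (dt (u - lp x)) p w) =
      cJ J u p ((tot_JetC Y p.2 (u p) - tot_JetC Y p.2 (lp x p)) (w.2, fderiv ℝ (lp x) p w) +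
        tot_JetC Y p.2 (u p) (0, fderiv ℝ (u - lp x) p w)) -
      fderiv ℝ (cJ J u) p w (dt (u - lp x) p - (Y p.2 (u p) - Y p.2 (lp x p))) := by
    have e2 : (w.2, fderiv ℝ (u - lp x) p w + fderiv ℝ (lp x) p w) =
        (w.2, fderiv ℝ (lp x) p w) + (0, fderiv ℝ (u - lp x) p w) := by
      rw [Prod.mk_add_mk, add_zero, add_comm]
    rw [e2] at d7
    rw [eq_neg_of_add_eq_zero_left d7]
    simp only [map_sub, map_add, ContinuousLinearMap.sub_apply]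
    change _ = _ - (fderiv ℝ (fun p : Pl => J p.2 (u p)) p w _ -
      (fderiv ℝ (fun p : Pl => J p.2 (u p)) p w _ - fderiv ℝ (fun p : Pl => J p.2 (u p)) p w _))
    simp only [Pi.sub_apply, map_sub]
    abel
  rw [d9]
  have b1 : ‖(w.2, fderiv ℝ (lp x) p w)‖ ≤ L := by
    rw [Prod.norm_mk]
    exact max_le (hw.trans hL) h6
  have b2 : ‖((0 : ℝ), fderiv ℝ (u - lp x) p w)‖ ≤ ‖fderiv ℝ (u - lp x) p w‖ := by
    rw [Prod.norm_mk]
    exact max_le (by simp) le_rfl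
  have b3 := (cJ J u p).le_of_opNorm_le_of_le h1 (norm_add_le_of_le
    (ContinuousLinearMap.le_of_opNorm_le_of_le _ h5 b1)
    (ContinuousLinearMap.le_of_opNorm_le_of_le _ h4 b2))
  have b4 := (fderiv ℝ (cJ J u) p w).le_of_opNorm_le_of_le h2
    (norm_sub_le_of_le (le_refl ‖dt (u - lp x) p‖) h3)
  refine (norm_sub_le_of_le b3 b4).trans ?_
  have l2 : L ≤ L ^ 2 := by nlinarith
  have l3 : L ^ 2 ≤ L ^ 3 := by nlinarith
  nlinarith [mul_le_mul_of_nonneg_right l3 (norm_nonneg ((u - lp x) p)),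
    mul_le_mul_of_nonneg_right l3 (norm_nonneg (fderiv ℝ (u - lp x) p w)),
    mul_le_mul_of_nonneg_right (l2.trans l3) (norm_nonneg (dt (u - lp x) p)),
    mul_nonneg (pow_nonneg (zero_le_one.trans hL) 3) (norm_nonneg (fderiv ℝ (u - lp x) p w)),
    mul_nonneg (pow_nonneg (zero_le_one.trans hL) 3) (norm_nonneg (dt (u - lp x) p))]

theorem snd_Neck (L K : ℝ) (hK : 0 ≤ K) : ∃ c : ℝ≥0, ∀ (j : Pl → V →L[ℝ] V) (ξ v : Pl → V)
    (a b : ℝ), a ≤ b → Continuous j → ContDiff ℝ ∞ ξ → ContDiff ℝ ∞ v → Per v →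
      (∀ p : Pl, p.1 ∈ Icc (a - 1) (b + 1) → Cpt Ω0 (j p) ∧ ‖j p‖ ≤ L) →
      (∀ p, ‖v p‖ ≤ ‖ξ p‖ + ‖ds ξ p‖ + ‖dt ξ p‖) →
      (∀ p : Pl, p.1 ∈ Ioo (a - 1) (b + 1) →
        ‖ds v p + j p (dt v p)‖ ≤ K * (‖ξ p‖ + ‖ds ξ p‖ + ‖dt ξ p‖)) →
      nrm 0 (ds v) (Icc a b) + nrm 0 (dt v) (Icc a b) ≤ c * nrm 1 ξ (Icc (a - 1) (b + 1)) := by
  obtain ⟨c, hc⟩ := est_cyl (V := V) L
  obtain ⟨A, hA1, hA⟩ := cn_plat 0
  refine ⟨c * (3 * (A + K) ^ 2).toNNReal, fun j ξ v a b hab hj hξ hv pv h1 h2 h3 => ?_⟩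
  obtain ⟨ψ, hψ, e1, e2, e3, -, n2, n3⟩ := cut_Neck hv pv hab
  have h4 := hc 1 j (Or.inl rfl) hj ψ hψ fun p => by
    by_cases hp : p.1 ∈ Icc (a - 1) (b + 1)
    · exact Or.inr (h1 p hp)
    · refine Or.inl ?_
      filter_upwards [(isClosed_Icc.isOpen_compl.preimage continuous_fst).mem_nhds hp] with q hq
      rw [e1, plat_eq_zero one_pos fun e => hq (Ioo_subset_Icc_self e), zero_smul]
      rfl
  have e4 : ∀ p, (1 : ℝ) • ds ψ p + j p (dt ψ p) =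
      ds (plat a b 1) p • v p + plat a b 1 p • (ds v p + j p (dt v p)) := fun p => by
    rw [one_smul, e2, e3, map_smul, smul_add, add_assoc]
  refine (add_le_add n2 n3).trans (h4.trans ?_)
  rw [ENNReal.coe_mul, mul_assoc]
  refine mul_le_mul_right (three_Neck hξ isClosed_Icc (fun p _ => ?_) fun p hp => ?_) _
  · rw [e4, add_mul]
    refine norm_add_le_of_le ?_ ?_
    · rw [norm_smul]
      exact mul_le_mul (by simpa using (hA a b 1 le_rfl).2 p trivial) (h2 p) (norm_nonneg _)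
        (zero_le_one.trans hA1)
    · by_cases hp : p.1 ∈ Ioo (a - 1) (b + 1)
      · rw [norm_smul, Real.norm_of_nonneg (plat_mem a b 1 p).1]
        exact (mul_le_of_le_one_left (norm_nonneg _) (plat_mem a b 1 p).2).trans (h3 p hp)
      · rw [plat_eq_zero one_pos hp, zero_smul, norm_zero]
        positivity
  · rw [e4, plat_eq_zero one_pos fun e => hp (Ioo_subset_Icc_self e),
      ds_plat_eq_zero one_pos hab (fun e => hp ⟨e.1.le, by linarith [e.2]⟩)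
        (fun e => hp ⟨by linarith [e.1], e.2.le⟩), zero_smul, zero_smul, add_zero]

theorem fst_Neck {j B : ℝ → V →L[ℝ] V} (hj : Continuous j) (pj : ∀ t, j (t + 1) = j t)
    (hc : ∀ t, Cpt Ω0 (j t)) (hB : Continuous B) (pB : ∀ t, B (t + 1) = B t) (h : SNd Ω0 1 B) :
    ∃ η > 0, ∃ c : ℝ≥0, ∀ (ξ : Pl → V) (a b : ℝ), a ≤ b → ContDiff ℝ ∞ ξ → Per ξ →
      (∀ p : Pl, p.1 ∈ Icc (a - 1) (b + 1) →
        ‖ds ξ p + j p.2 (dt ξ p - B p.2 (ξ p))‖ ≤ η * (‖ξ p‖ + ‖dt ξ p‖)) →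
      nrm 1 ξ (Icc a b) ≤ c * (nrm 1 ξ (Icc (a - 1) a) + nrm 1 ξ (Icc b (b + 1))) := by
  obtain ⟨c, hs⟩ := stat_est hj pj hc hB pB h
  obtain ⟨η, hη0, hη⟩ : ∃ η > (0 : ℝ), c * (3 * η ^ 2) ≤ 1 / 2 := by
    refine ⟨1 / (3 * (c + 1)), by positivity, ?_⟩
    have : (0 : ℝ) ≤ c := c.2
    rw [div_pow, mul_div_assoc', mul_div_assoc', div_le_div_iff₀ (by positivity) two_pos]
    nlinarith
  obtain ⟨A, hA1, hA⟩ := cn_plat 0
  refine ⟨η, hη0, 2 * c * (3 * 1 ^ 2 : ℝ).toNNReal * (3 * A ^ 2).toNNReal,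
    fun ξ a b hab hξ pξ h1 => ?_⟩
  obtain ⟨ψ, hψ, e1, e2, e3, n1, n2, n3⟩ := cut_Neck hξ pξ hab
  have h2 := absorb_EndB hψ (a := 1) (r := fun p => ds (plat a b 1) p • ξ p)
    (hs 1 (Or.inl rfl) ψ hψ) hη fun p => by
      have e4 : (1 : ℝ) • ds ψ p + j p.2 (dt ψ p - B p.2 (ψ p)) = ds (plat a b 1) p • ξ p +
          plat a b 1 p • (ds ξ p + j p.2 (dt ξ p - B p.2 (ξ p))) := by
        rw [one_smul, e1, e2, e3, map_smul, ← smul_sub, map_smul, smul_add, add_assoc]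
      rw [e4, one_mul]
      refine norm_add_le_of_le le_rfl ?_
      by_cases hp : p.1 ∈ Ioo (a - 1) (b + 1)
      · rw [e1, e3, norm_smul, norm_smul, norm_smul, ← mul_add, mul_left_comm]
        exact mul_le_mul_of_nonneg_left (h1 p (Ioo_subset_Icc_self hp)) (norm_nonneg _)
      · rw [plat_eq_zero one_pos hp, zero_smul, norm_zero]
        positivity
  have h3 : nrm 1 ξ (Icc a b) ≤ nrm 1 ψ univ := by
    rw [nrm_succ, nrm_succ]
    exact add_le_add (add_le_add n1 n2) n3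
  refine h3.trans (h2.trans ?_)
  refine (mul_le_mul_right ((three_Neck (K := A) hξ ((isClosed_Icc (a := a - 1) (b := a)).union
    (isClosed_Icc (a := b) (b := b + 1))) (fun p _ => ?_) fun p hp => ?_).trans
      (mul_le_mul_right (nrm_union_le 1 ξ _ _) _)) _).trans (le_of_eq (by push_cast; ring))
  · rw [norm_smul]
    refine mul_le_mul (by simpa using (hA a b 1 le_rfl).2 p trivial) ?_ (norm_nonneg _)
      (zero_le_one.trans hA1)
    linarith [norm_nonneg (ds ξ p), norm_nonneg (dt ξ p)]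
  · rw [ds_plat_eq_zero one_pos hab (fun e => hp (Or.inl (Ioo_subset_Icc_self e)))
      (fun e => hp (Or.inr (Ioo_subset_Icc_self e))), zero_smul]

theorem neck (hJ : ACS Ω0 J) {Y : ℝ → V → V} (hY : SP Y) (hx : GOrb Ω0 1 Y x) :
    ∃ δ > 0, ∃ c : ℝ≥0, ∀ (u : Pl → V) (a b : ℝ), a ≤ b → ContDiff ℝ ∞ u → Per u →
      (∀ p : Pl, p.1 ∈ Icc (a - 1) (b + 1) → cr J (sta Y) u p = 0) →
        Cn 1 (u - lp x) (Icc (a - 1) (b + 1)) δ → nrm 2 (u - lp x) (Icc a b) ≤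
          c * (nrm 1 (u - lp x) (Icc (a - 1) a) + nrm 1 (u - lp x) (Icc b (b + 1))) := by
  have cx := Orb.contDiff hY.1 hx.1
  obtain ⟨bx, px, -⟩ := bdd_lp cx hx.1.2
  obtain ⟨A, hA0, hA⟩ := bx.cn 1
  obtain ⟨L, hL, hAL, b1, b2, b3⟩ := const_Neck hJ.1 hY (A + 1)
  obtain ⟨η, hη, c₁, H₁⟩ := fst_Neck (j := fun t => J t (x t)) (B := fun t => fderiv ℝ (Y t) (x t))
    (hJ.1.1.continuous.comp (continuous_id.prodMk cx.continuous))
    (fun t => by simp only [hJ.1.2 t, Orb.per hx.1 t]) (fun t => hJ.2 _ _)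
    (hY.fderiv.1.continuous.comp (continuous_id.prodMk cx.continuous))
    (fun t => by simp only [hY.2 t, Orb.per hx.1 t]) hx.2
  obtain ⟨c₂, H₂⟩ := snd_Neck (V := V) L (4 * L ^ 3) (by positivity)
  obtain ⟨δ, hδ, hδ1, hδ2⟩ : ∃ δ > (0 : ℝ), δ ≤ 1 ∧ 2 * L ^ 2 * δ ≤ η := by
    refine ⟨min 1 (η / (2 * L ^ 2)), by positivity, min_le_left _ _, ?_⟩
    rw [mul_comm, ← le_div_iff₀ (by positivity)]
    exact min_le_right _ _
  refine ⟨δ, hδ, c₁ + 2 * c₂ * (c₁ + 1), fun u a b hab hu pu he hc => ?_⟩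
  have cξ : ContDiff ℝ ∞ (u - lp x) := hu.sub bx.1
  have pξ : Per (u - lp x) := fun s t => by simp only [Pi.sub_apply, pu s t, px s t]
  have hcu : Cn 1 u (Icc (a - 1) (b + 1)) (A + 1) := by
    have := Cn.add bx.1 cξ (hA.mono le_rfl (subset_univ _) le_rfl) (hc.up_JetC hδ1)
    rwa [add_sub_cancel] at this
  have hcj := b3 u _ hu hcu
  have nx : ∀ p, ‖lp x p‖ ≤ A + 1 := fun p => (hA.1 p trivial).trans (by linarith)
  have s1 := H₁ (u - lp x) a b hab cξ pξ fun p hp => by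
    have h0 := he p hp
    rw [cr_Neck hY hx.1 hu] at h0
    have h1 := b2 p.2 _ _ (hcu.1 p hp) (nx p)
    have h2 : ‖u p - lp x p‖ ≤ δ := hc.1 p hp
    refine (alg_Neck hL hδ.le h0 (h1.1.trans (mul_le_mul_of_nonneg_left h2 (by linarith)))
      (b1 _ _ (nx p)).1 h1.2.1 ?_).trans (mul_le_mul_of_nonneg_right hδ2 (by positivity))
    refine (convex_closedBall (lp x p) δ).norm_image_sub_le_of_norm_fderiv_le' (𝕜 := ℝ)
      (f := Y p.2) (fun z _ => ?_) (fun z hz => ?_) (Metric.mem_closedBall_self hδ.le)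
      (mem_closedBall_iff_norm.2 h2)
    · exact (hY.1.comp (contDiff_const.prodMk contDiff_id)).differentiable (by simp) z
    · have h3 := mem_closedBall_iff_norm.1 hz
      have h4 : ‖z‖ ≤ A + 1 := by
        have := norm_add_le (lp x p) (z - lp x p)
        rw [add_sub_cancel] at this
        linarith [hA.1 p trivial]
      exact (b2 p.2 _ _ h4 (nx p)).2.2.1.trans (mul_le_mul_of_nonneg_left h3 (by linarith))
  have key : ∀ w : Pl, w = (1, 0) ∨ w = (0, 1) → ∀ p : Pl, p.1 ∈ Ioo (a - 1) (b + 1) →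
      ‖fderiv ℝ (ds (u - lp x)) p w + cJ J u p (fderiv ℝ (dt (u - lp x)) p w)‖ ≤
        4 * L ^ 3 * (‖(u - lp x) p‖ + ‖ds (u - lp x) p‖ + ‖dt (u - lp x) p‖) := by
    intro w hw p hp
    have hp' := Ioo_subset_Icc_self hp
    have h1 := b2 p.2 _ _ (hcu.1 p hp') (nx p)
    have h2 : ‖w.2‖ ≤ 1 ∧ ‖fderiv ℝ (cJ J u) p w‖ ≤ L ∧ ‖fderiv ℝ (lp x) p w‖ ≤ A ∧
        ‖fderiv ℝ (u - lp x) p w‖ ≤ ‖ds (u - lp x) p‖ + ‖dt (u - lp x) p‖ := by
      rcases hw with rfl | rfl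
      · exact ⟨by simp, hcj.2.1 p hp', hA.2.1 p trivial, le_add_of_nonneg_right (norm_nonneg _)⟩
      · exact ⟨by simp, hcj.2.2 p hp', hA.2.2 p trivial, le_add_of_nonneg_left (norm_nonneg _)⟩
    refine (der_Neck hJ.1 hY hx.1 hu ?_ w h2.1 hL (hcj.1 p hp') h2.2.1 h1.2.1
      (b1 _ _ (hcu.1 p hp')).2 h1.2.2.2 (by linarith [h2.2.2.1])).trans ?_
    · filter_upwards [(isOpen_Ioo.preimage continuous_fst).mem_nhds hp] with q hq
      exact he q (Ioo_subset_Icc_self hq)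
    · have h3 : 0 ≤ L ^ 3 := by positivity
      nlinarith [mul_le_mul_of_nonneg_left h2.2.2.2 h3, mul_nonneg h3 (norm_nonneg ((u - lp x) p)),
        mul_nonneg h3 (norm_nonneg (ds (u - lp x) p))]
  have hj : Continuous (cJ J u) := (hJ.1.contDiff_comp hu).continuous
  have hj' : ∀ p : Pl, p.1 ∈ Icc (a - 1) (b + 1) → Cpt Ω0 (cJ J u p) ∧ ‖cJ J u p‖ ≤ L :=
    fun p hp => ⟨hJ.2 _ _, hcj.1 p hp⟩
  have s2 := H₂ _ _ _ a b hab hj cξ (contDiff_ds cξ) pξ.ds hj'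
    (fun p => by linarith [norm_nonneg ((u - lp x) p), norm_nonneg (dt (u - lp x) p)])
    fun p hp => by
      rw [← ds_dt_comm cξ]
      exact key _ (Or.inl rfl) p hp
  have s3 := H₂ _ _ _ a b hab hj cξ (contDiff_dt cξ) pξ.dt hj'
    (fun p => by linarith [norm_nonneg ((u - lp x) p), norm_nonneg (ds (u - lp x) p)])
    fun p hp => by
      rw [ds_dt_comm cξ]
      exact key _ (Or.inr rfl) p hp
  have s4 : nrm 1 (u - lp x) (Icc (a - 1) (b + 1)) ≤ nrm 1 (u - lp x) (Icc a b) +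
      (nrm 1 (u - lp x) (Icc (a - 1) a) + nrm 1 (u - lp x) (Icc b (b + 1))) := by
    refine le_trans (nrm_mono _ le_rfl fun r hr => ?_) ((nrm_union_le 1 _ _ _).trans
      (add_le_add le_rfl (nrm_union_le 1 _ _ _)))
    rcases le_total r a with h1 | h1
    · exact Or.inr (Or.inl ⟨hr.1, h1⟩)
    rcases le_total b r with h2 | h2
    · exact Or.inr (Or.inr ⟨h2, hr.2⟩)
    · exact Or.inl ⟨h1, h2⟩
  have s5 := s4.trans (add_le_add s1 le_rfl)
  have e : nrm 2 (u - lp x) (Icc a b) = nrm 1 (u - lp x) (Icc a b) +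
      (nrm 0 (ds (ds (u - lp x))) (Icc a b) + nrm 0 (dt (ds (u - lp x))) (Icc a b)) +
      (nrm 0 (ds (dt (u - lp x))) (Icc a b) + nrm 0 (dt (dt (u - lp x))) (Icc a b)) := by
    simp only [nrm_succ]
    ring
  rw [e]
  refine (add_le_add (add_le_add s1 (s2.trans (mul_le_mul_right s5 _)))
    (s3.trans (mul_le_mul_right s5 _))).trans (le_of_eq ?_)
  push_cast
  ring

theorem long_Neck (hJ : ACS Ω0 J) {Y : ℝ → V → V} (hY : SP Y) (hx : GOrb Ω0 1 Y x) (hb : Bdd u)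
    (pu : Per u) : ∃ δ > 0, ∃ C < (⊤ : ℝ≥0∞), ∀ a b : ℝ, a ≤ b →
      (∀ p : Pl, p.1 ∈ Icc (a - 2) (b + 2) → cr J (sta Y) u p = 0 ∧ ‖u p - x p.2‖ ≤ δ) →
        nrm 2 (u - lp x) (Icc a b) ≤ C := by
  obtain ⟨δ, hδ, c, H⟩ := neck hJ hY hx
  have bξ := hb.sub (bdd_lp (Orb.contDiff hY.1 hx.1) hx.1.2).1
  obtain ⟨A, -, hA⟩ := bξ.cn 2
  obtain ⟨δ', hδ', H'⟩ := cn_interp (F := V) 1 A hδ
  refine ⟨δ', hδ', c * (ENNReal.ofReal (3 ^ 1 * δ ^ 2) + ENNReal.ofReal (3 ^ 1 * δ ^ 2)),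
    ENNReal.mul_lt_top ENNReal.coe_lt_top
      (ENNReal.add_lt_top.2 ⟨ENNReal.ofReal_lt_top, ENNReal.ofReal_lt_top⟩), fun a b hab h => ?_⟩
  have hc : Cn 1 (u - lp x) (Icc (a - 1) (b + 1)) δ := H' _ _ bξ.1 hA (by
    rintro p ⟨s, hs, hs'⟩
    have := abs_le.1 hs'
    exact (h p ⟨by linarith [hs.1], by linarith [hs.2]⟩).2)
  refine (H u a b hab hb.1 pu (fun p hp => (h p ⟨by linarith [hp.1], by linarith [hp.2]⟩).1)
    hc).trans (mul_le_mul_right (add_le_add ?_ ?_) _)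
  · have := (hc.mono le_rfl (Icc_subset_Icc le_rfl (by linarith : a ≤ b + 1)) le_rfl).nrm_le
      measurableSet_Icc
    rwa [Real.volume_Icc, sub_sub_cancel, ENNReal.ofReal_one, mul_one] at this
  · have := (hc.mono le_rfl (Icc_subset_Icc (by linarith : a - 1 ≤ b) le_rfl) le_rfl).nrm_le
      measurableSet_Icc
    rwa [Real.volume_Icc, add_sub_cancel_left, ENNReal.ofReal_one, mul_one] at this

theorem unif_Neck {e : Filter ℝ} (h : TendstoUniformlyOn (fun s t => u (s, t)) x e (Icc 0 1))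
    (pu : Per u) (px : ∀ t, x (t + 1) = x t) {δ : ℝ} (hδ : 0 < δ) :
    ∀ᶠ s in e, ∀ t, ‖u (s, t) - x t‖ ≤ δ := by
  filter_upwards [Metric.tendstoUniformlyOn_iff.1 h δ hδ] with s hs t
  have p1 : Per (lp x) := fun _ t => px t
  have e1 := pu.int s (Int.fract t) ⌊t⌋
  have e2 : x (Int.fract t + ⌊t⌋) = x (Int.fract t) := p1.int s (Int.fract t) ⌊t⌋
  rw [Int.fract_add_floor] at e1 e2
  rw [e1, e2, ← dist_eq_norm, dist_comm]
  exact (hs _ ⟨Int.fract_nonneg t, (Int.fract_lt_one t).le⟩).le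

theorem nice_of_cyl (hJ : ACS Ω0 J) {X : Pl → V → V} {R : ℝ} (hX : Fld X R)
    (hx : GOrb Ω0 1 (frz X (-R)) x) (hy : GOrb Ω0 1 (frz X R) y) (h : Cyl Ω0 1 J X x y u)
    (hb : Bdd u) : Nice J X x y u := by
  have pu : Per u := h.tw
  have sx := hX.sp_frz 0 (-R)
  have sy := hX.sp_frz 0 R
  have cx := hb.1.sub (lp_Pth (Orb.contDiff sx.1 hx.1))
  have cy := hb.1.sub (lp_Pth (Orb.contDiff sy.1 hy.1))
  refine ⟨hb, pu, h.eq, ?_, ?_⟩
  · obtain ⟨δ, hδ, C, hC, H⟩ := long_Neck hJ sx hx hb pu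
    obtain ⟨T, hT⟩ := eventually_atBot.1
      ((unif_Neck h.left pu hx.1.2 hδ).and (eventually_le_atBot (-R)))
    refine fin_Pth (I := Iic (T - 2)) (lt_of_le_of_lt ?_ hC) (nrm_Icc_lt_top 2 cx (T - 2) 0)
      fun r hr => (le_total r (T - 2)).imp id fun e => ⟨e, hr⟩
    refine nrm_le_of_exhaust 2 cx measurableSet_Iic fun S => le_trans
      (nrm_mono _ le_rfl fun r hr => mem_Icc.2 ⟨(min_le_left _ _).trans hr.2.1, hr.1⟩)
      (H (min (-S) (T - 2)) (T - 2) (min_le_right _ _) fun p hp => ?_)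
    have h1 := hT p.1 (by linarith [hp.2])
    refine ⟨?_, h1.1 p.2⟩
    have h2 : X p = sta (frz X (-R)) p := congrFun (hX.left 0 p.1 h1.2) p.2
    rw [cr, ← h2]
    exact h.eq p
  · obtain ⟨δ, hδ, C, hC, H⟩ := long_Neck hJ sy hy hb pu
    obtain ⟨T, hT⟩ := eventually_atTop.1
      ((unif_Neck h.right pu hy.1.2 hδ).and (eventually_ge_atTop R))
    refine fin_Pth (I := Ici (T + 2)) (lt_of_le_of_lt ?_ hC) (nrm_Icc_lt_top 2 cy 0 (T + 2))
      fun r hr => (le_total (T + 2) r).imp id fun e => ⟨hr, e⟩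
    refine nrm_le_of_exhaust 2 cy measurableSet_Ici fun S => le_trans
      (nrm_mono _ le_rfl fun r hr => mem_Icc.2 ⟨hr.1, hr.2.2.trans (le_max_left _ _)⟩)
      (H (T + 2) (max S (T + 2)) (le_max_right _ _) fun p hp => ?_)
    have h1 := hT p.1 (by linarith [hp.1])
    refine ⟨?_, h1.1 p.2⟩
    have h2 : X p = sta (frz X R) p := congrFun (hX.right 0 p.1 h1.2) p.2
    rw [cr, ← h2]
    exact h.eq p

theorem Nice.cyl (hJ : ACS Ω0 J) {X : Pl → V → V} (h : Nice J X x y u) (hx : ContDiff ℝ ∞ x)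
    (hy : ContDiff ℝ ∞ y) (px : ∀ t, x (t + 1) = x t) (py : ∀ t, y (t + 1) = y t) :
    Cyl Ω0 1 J X x y u := by
  refine ⟨h.bdd.1, h.per, h.eq, ?_, Metric.tendstoUniformlyOn_iff.2 fun ε hε => ?_,
    Metric.tendstoUniformlyOn_iff.2 fun ε hε => ?_⟩
  · have c1 := h.bdd.ds.1.continuous
    have b2 := Bdd.comp hJ.1 h.bdd
    obtain ⟨A, hA⟩ := b2.bound
    have h1 : MemLp (ds u) 2 (volume.restrict St) := (nrm_zero_lt_top_iff c1).1
      (lt_of_le_of_lt (nrm_mono _ zero_le_one Subset.rfl) (h.pth.nrm_ds hx hy))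
    have h2 := ((memLp_two_iff_integrable_sq_norm c1.aestronglyMeasurable).1 h1).const_mul A
    refine h2.mono' (Continuous.aestronglyMeasurable ?_) (Eventually.of_forall fun p => ?_)
    · exact (Sym.J0.continuous.comp c1).inner (b2.1.continuous.clm_apply c1)
    · refine (abs_Ω0_le _ _).trans ?_
      have := (J p.2 (u p)).le_of_opNorm_le (hA p) (ds u p)
      nlinarith [norm_nonneg (ds u p)]
  · obtain ⟨S, h1, -⟩ := h.pth.cn hx hy px py 0 (half_pos hε)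
    filter_upwards [Iic_mem_atBot (-S)] with s hs t _
    rw [dist_comm, dist_eq_norm]
    exact (h1 (s, t) hs).trans_lt (half_lt_self hε)
  · obtain ⟨S, -, h1⟩ := h.pth.cn hx hy px py 0 (half_pos hε)
    filter_upwards [Ici_mem_atTop S] with s hs t _
    rw [dist_comm, dist_eq_norm]
    exact (h1 (s, t) hs).trans_lt (half_lt_self hε)

end

end Pool.Agent.P.MP_de3acd_gt.FH
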