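import Pool.Agent.P.MP_de3acd_gt.FH.OpsA
import Pool.Agent.P.MP_de3acd_gt.FH.JetN

/-! Translations on W k: strong continuity and derivatives.
Sketch: for a test function φ supported in |s| ≤ R, ‖co (tsl a φ) - co (tsl b φ)‖^2 = nrm k (tsl a φ - tsl b φ)
≤ 3^k ε^2 vol (Cn.nrm_le, nrm_eq_of_supp), where ε = C ‖a - b‖ by the mean value inequality for the bounded
derivatives (cn_of_iteratedFDeriv). Same with the second order Taylor remainder gives HasFDerivAt at a = 0 for test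
functions; group law trW_add moves it to every a. norm_trW_sub_le: mean value inequality along the segment for test
functions, then density. hasFDerivAt_trW for general ξ: ε/3 argument with norm_trW_sub_le, or
hasFDerivAt_of_tendstoUniformly. contDiff_trW_co: contDiff_infty, induction on n for all φ with
contDiff_succ_iff_fderiv. -/

open Set Filter Topology MeasureTheory
open scoped ContDiff NNReal ENNReal RealInnerProductSpace

namespace Pool.Agent.P.MP_de3acd_gt.FH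

noncomputable section

variable {U U₁ U₂ : Type} [NormedAddCommGroup U] [InnerProductSpace ℝ U] [NormedAddCommGroup U₁]
  [InnerProductSpace ℝ U₁] [NormedAddCommGroup U₂] [InnerProductSpace ℝ U₂]

/-- The Taylor remainder of the translation. -/
def rem_TrCont (a : Pl) (f : Pl → U) : Pl → U :=
  tsl a f + ((-1 : ℝ) • f + ((-a.1) • ds f + (-a.2) • dt f))

theorem abs_le_TrCont (a : Pl) : |a.1| ≤ ‖a‖ ∧ |a.2| ≤ ‖a‖ :=
  ⟨norm_fst_le a, norm_snd_le a⟩

theorem comb_TrCont {Y : Type} [NormedAddCommGroup Y] [NormedSpace ℝ Y] (a : Pl) {u v : Y} {C : ℝ}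
    (hu : ‖u‖ ≤ C) (hv : ‖v‖ ≤ C) : ‖a.1 • u + a.2 • v‖ ≤ 2 * C * ‖a‖ := by
  have h1 := (abs_le_TrCont a).1
  have h2 := (abs_le_TrCont a).2
  have := norm_add_le (a.1 • u) (a.2 • v)
  rw [norm_smul, norm_smul, Real.norm_eq_abs, Real.norm_eq_abs] at this
  have h3 := mul_le_mul h1 hu (norm_nonneg _) (norm_nonneg _)
  have h4 := mul_le_mul h2 hv (norm_nonneg _) (norm_nonneg _)
  linarith

theorem lip_TrCont {f : Pl → U} (hf : ContDiff ℝ ∞ f) {C : ℝ} (h : Cn 1 f univ C) (p q : Pl) :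
    ‖f q - f p‖ ≤ 2 * C * ‖q - p‖ := by
  have hC : 0 ≤ C := (norm_nonneg _).trans (h.1 0 trivial)
  refine convex_univ.norm_image_sub_le_of_norm_fderiv_le (𝕜 := ℝ)
    (fun x _ => hf.differentiable (by simp) x) (fun x _ => ?_) trivial trivial
  refine ContinuousLinearMap.opNorm_le_bound _ (by positivity) fun v => ?_
  rw [fderiv_eq_ds_dt]
  exact comb_TrCont v (h.2.1 x trivial) (h.2.2 x trivial)

theorem rem_zero_TrCont {f : Pl → U} (hf : ContDiff ℝ ∞ f) {C : ℝ} (h : Cn 2 f univ C)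
    (a p : Pl) : ‖rem_TrCont a f p‖ ≤ 4 * C * ‖a‖ ^ 2 := by
  have hC : 0 ≤ C := (norm_nonneg _).trans (h.1 0 trivial)
  have key := (convex_closedBall p ‖a‖).norm_image_sub_le_of_norm_fderiv_le' (𝕜 := ℝ) (f := f)
    (φ := fderiv ℝ f p) (C := 2 * (2 * C * ‖a‖)) (x := p) (y := p + a)
    (fun x _ => hf.differentiable (by simp) x) (fun x hx => ?_)
    (Metric.mem_closedBall_self (norm_nonneg _)) (by simp)
  · have e : rem_TrCont a f p = f (p + a) - f p - fderiv ℝ f p (p + a - p) := by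
      rw [add_sub_cancel_left, fderiv_eq_ds_dt]
      simp only [rem_TrCont, tsl, Pi.add_apply, Pi.smul_apply, Pi.neg_apply, neg_smul, one_smul]
      abel
    rw [e]
    refine key.trans (le_of_eq ?_)
    rw [add_sub_cancel_left]
    ring
  · refine ContinuousLinearMap.opNorm_le_bound _ (by positivity) fun v => ?_
    have hx' : ‖x - p‖ ≤ ‖a‖ := by rwa [mem_closedBall_iff_norm] at hx
    have b : 2 * C * ‖x - p‖ ≤ 2 * C * ‖a‖ := by gcongr
    have e : (fderiv ℝ f x - fderiv ℝ f p) v =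
        v.1 • (ds f x - ds f p) + v.2 • (dt f x - dt f p) := by
      rw [ContinuousLinearMap.sub_apply, fderiv_eq_ds_dt, fderiv_eq_ds_dt, smul_sub, smul_sub]
      abel
    rw [e]
    exact comb_TrCont v ((lip_TrCont (contDiff_ds hf) h.2.1 p x).trans b)
      ((lip_TrCont (contDiff_dt hf) h.2.2 p x).trans b)

theorem ds_rem_TrCont {f : Pl → U} (hf : ContDiff ℝ ∞ f) (a : Pl) :
    ds (rem_TrCont a f) = rem_TrCont a (ds f) ∧ dt (rem_TrCont a f) = rem_TrCont a (dt f) := by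
  have h1 : ContDiff ℝ ∞ ((-1 : ℝ) • f) := hf.const_smul _
  have h2 : ContDiff ℝ ∞ ((-a.1) • ds f) := (contDiff_ds hf).const_smul _
  have h3 : ContDiff ℝ ∞ ((-a.2) • dt f) := (contDiff_dt hf).const_smul _
  have h4 : ContDiff ℝ ∞ ((-a.1) • ds f + (-a.2) • dt f) := h2.add h3
  have h5 : ContDiff ℝ ∞ ((-1 : ℝ) • f + ((-a.1) • ds f + (-a.2) • dt f)) := h1.add h4
  constructor
  · rw [rem_TrCont, ds_add (contDiff_tsl hf a) h5, ds_add h1 h4, ds_add h2 h3, ds_tsl,
      ds_smul _ hf, ds_smul _ (contDiff_ds hf), ds_smul _ (contDiff_dt hf), ds_dt_comm hf]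
    rfl
  · rw [rem_TrCont, dt_add (contDiff_tsl hf a) h5, dt_add h1 h4, dt_add h2 h3, dt_tsl,
      dt_smul _ hf, dt_smul _ (contDiff_ds hf), dt_smul _ (contDiff_dt hf), ← ds_dt_comm hf]
    rfl

theorem cn_rem_TrCont (k : ℕ) {f : Pl → U} (hf : ContDiff ℝ ∞ f) {C : ℝ}
    (h : Cn (k + 2) f univ C) (a : Pl) : Cn k (rem_TrCont a f) univ (4 * C * ‖a‖ ^ 2) := by
  induction k generalizing f with
  | zero => exact fun p _ => rem_zero_TrCont hf h a p
  | succ k ih =>
    refine ⟨fun p _ => rem_zero_TrCont hf (h.mono (by omega) le_rfl le_rfl) a p, ?_, ?_⟩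
    · rw [(ds_rem_TrCont hf a).1]
      exact ih (contDiff_ds hf) h.2.1
    · rw [(ds_rem_TrCont hf a).2]
      exact ih (contDiff_dt hf) h.2.2

/-- The candidate for the derivative. -/
abbrev der_TrCont {Y : Type} [NormedAddCommGroup Y] [NormedSpace ℝ Y] (u v : Y) : Pl →L[ℝ] Y :=
  (ContinuousLinearMap.fst ℝ ℝ ℝ).smulRight u + (ContinuousLinearMap.snd ℝ ℝ ℝ).smulRight v

theorem der_apply_TrCont {Y : Type} [NormedAddCommGroup Y] [NormedSpace ℝ Y] (u v : Y) (a : Pl) :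
    der_TrCont u v a = a.1 • u + a.2 • v := rfl

theorem shift_TrCont (k : ℕ) (ξ : W k U) (a : Pl) :
    (fun b => trW k b ξ) = trW k a ∘ fun b => trW k (b - a) ξ := funext fun b => by
  rw [Function.comp_apply, ← trW_add, add_sub_cancel]

theorem move_TrCont {k : ℕ} {ξ u v : W k U}
    (h : HasFDerivAt (fun a => trW k a ξ) (der_TrCont u v) 0) (a : Pl) :
    HasFDerivAt (fun a => trW k a ξ) (der_TrCont (trW k a u) (trW k a v)) a := by
  have h1 : HasFDerivAt (fun b => trW k (b - a) ξ) (der_TrCont u v) a :=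
    (hasFDerivAt_comp_sub (f := fun a => trW k a ξ) a).2 (by rwa [sub_self])
  have h2 := (trW k a).hasFDerivAt.comp a h1
  rw [← shift_TrCont] at h2
  refine h2.congr_fderiv (ContinuousLinearMap.ext fun b => ?_)
  rw [ContinuousLinearMap.comp_apply, der_apply_TrCont, der_apply_TrCont, map_add, map_smul,
    map_smul]

theorem co_zero_TrCont (k : ℕ) (φ : Dsub U) :
    HasFDerivAt (fun a => trW k a (co k φ))
      (der_TrCont (co k ⟨ds φ.1, ds_mem φ.2⟩) (co k ⟨dt φ.1, dt_mem φ.2⟩)) 0 := by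
  obtain ⟨C, hC, hn⟩ := (bdd_of_mem φ.2).cn (k + 2)
  obtain ⟨h1, -, R, hR⟩ := id φ.2
  obtain ⟨M, hM, hv⟩ : ∃ M : ℝ, 0 ≤ M ∧ volume (Icc (-(R + 1)) (R + 1)) = ENNReal.ofReal M :=
    ⟨_, ENNReal.toReal_nonneg, (ENNReal.ofReal_toReal measure_Icc_lt_top.ne).symm⟩
  have key : ∀ a : Pl, ‖a‖ ≤ 1 → ‖trW k (0 + a) (co k φ) - trW k 0 (co k φ) -
      der_TrCont (co k ⟨ds φ.1, ds_mem φ.2⟩) (co k ⟨dt φ.1, dt_mem φ.2⟩) a‖ ≤
        √(3 ^ k * M) * (4 * C) * ‖‖a‖ ^ 2‖ := by
    intro a ha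
    let ψ : Dsub U := ⟨tsl a φ.1, tsl_mem φ.2 a⟩ + ((-1 : ℝ) • φ +
      ((-a.1) • ⟨ds φ.1, ds_mem φ.2⟩ + (-a.2) • ⟨dt φ.1, dt_mem φ.2⟩))
    have e : trW k (0 + a) (co k φ) - trW k 0 (co k φ) -
        der_TrCont (co k ⟨ds φ.1, ds_mem φ.2⟩) (co k ⟨dt φ.1, dt_mem φ.2⟩) a = co k ψ := by
      rw [zero_add, trW_zero, trW_co, der_apply_TrCont]
      simp only [ψ, map_add, map_smul, neg_smul, one_smul, map_neg]
      abel
    have e' : ψ.1 = rem_TrCont a φ.1 := rfl
    have h2 : nrm k ψ.1 univ = nrm k ψ.1 (Icc (-(R + 1)) (R + 1)) := by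
      refine nrm_eq_of_supp k isClosed_Icc fun p hp => ?_
      have hp' : R + 1 ≤ |p.1| := le_of_not_gt fun hlt =>
        hp ⟨(abs_lt.1 hlt).1.le, (abs_lt.1 hlt).2.le⟩
      have h3 : φ.1 (p + a) = 0 := by
        refine hR _ ?_
        have h4 := (abs_le_TrCont a).1
        have h5 := abs_sub (p.1 + a.1) a.1
        rw [add_sub_cancel_right] at h5
        change R ≤ |p.1 + a.1|
        linarith
      rw [e']
      simp [rem_TrCont, tsl, h3, hR p (by linarith), ds, dt, fderiv_eq_zero_of_supp hR p hp']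
    have h3 := ((cn_rem_TrCont k h1 hn a).mono le_rfl (subset_univ (Icc (-(R + 1)) (R + 1)))
      le_rfl).nrm_le measurableSet_Icc
    rw [← e', ← h2, nrm_co, hv, ← ENNReal.ofReal_mul (by positivity),
      ENNReal.ofReal_le_ofReal_iff (by positivity)] at h3
    rw [e, Real.norm_of_nonneg (by positivity)]
    refine (pow_le_pow_iff_left₀ (norm_nonneg _) (by positivity) two_ne_zero).1 ?_
    refine h3.trans (le_of_eq ?_)
    rw [mul_pow (√(3 ^ k * M) * (4 * C)), mul_pow (√(3 ^ k * M)), Real.sq_sqrt (by positivity)]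
    ring
  rw [hasFDerivAt_iff_isLittleO_nhds_zero]
  refine Asymptotics.IsBigO.trans_isLittleO
    (Asymptotics.IsBigO.of_bound (√(3 ^ k * M) * (4 * C)) ?_)
    (Asymptotics.isLittleO_norm_pow_id (E' := Pl) one_lt_two)
  filter_upwards [Metric.closedBall_mem_nhds (0 : Pl) one_pos] with a ha
  exact key a (by simpa using ha)

theorem co_TrCont (k : ℕ) (φ : Dsub U) (a : Pl) :
    HasFDerivAt (fun a => trW k a (co k φ))
      (der_TrCont (trW k a (co k ⟨ds φ.1, ds_mem φ.2⟩)) (trW k a (co k ⟨dt φ.1, dt_mem φ.2⟩)))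
      a := move_TrCont (co_zero_TrCont k φ) a

theorem cont_TrCont (k : ℕ) : Continuous fun q : Pl × W k U => trW k q.1 q.2 := by
  refine continuous_prod_of_dense_continuous_lipschitzWith' _ 1 (denseRange_co k)
    (fun a => LipschitzWith.of_dist_le_mul fun x y => ?_) ?_
  · rw [dist_eq_norm, dist_eq_norm, ← map_sub, norm_trW]
    simp
  · rintro _ ⟨φ, rfl⟩
    exact continuous_iff_continuousAt.2 fun a => (co_TrCont k φ a).continuousAt

theorem sub_le_TrCont (k : ℕ) (ξ : W (k + 1) U) (a : Pl) :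
    ‖trW k a (inc k ξ) - inc k ξ‖ ≤ |a.1| * ‖dS k ξ‖ + |a.2| * ‖dT k ξ‖ := by
  refine W.induction (P := fun ξ => ‖trW k a (inc k ξ) - inc k ξ‖ ≤
    |a.1| * ‖dS k ξ‖ + |a.2| * ‖dT k ξ‖) (isClosed_le (by fun_prop) (by fun_prop))
    (fun φ => ?_) ξ
  rw [inc_co, dS_co, dT_co]
  have h := norm_image_sub_le_of_norm_deriv_le_segment_01'
    (f := fun τ : ℝ => trW k (τ • a) (co k φ))
    (f' := fun τ => der_TrCont (trW k (τ • a) (co k ⟨ds φ.1, ds_mem φ.2⟩))
      (trW k (τ • a) (co k ⟨dt φ.1, dt_mem φ.2⟩)) a)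
    (C := |a.1| * ‖co k ⟨ds φ.1, ds_mem φ.2⟩‖ + |a.2| * ‖co k ⟨dt φ.1, dt_mem φ.2⟩‖)
    (fun τ _ => ?_) (fun τ _ => ?_)
  · simpa only [one_smul, zero_smul, trW_zero] using h
  · have h1 : HasDerivAt (fun τ : ℝ => τ • a) a τ := by
      simpa using (hasDerivAt_id τ).smul_const a
    exact ((co_TrCont k φ (τ • a)).comp_hasDerivAt τ h1).hasDerivWithinAt
  · rw [der_apply_TrCont]
    refine (norm_add_le _ _).trans (le_of_eq ?_)
    rw [norm_smul, norm_smul, norm_trW, norm_trW, Real.norm_eq_abs, Real.norm_eq_abs]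

theorem continuous_trW (k : ℕ) (ξ : W k U) : Continuous fun a => trW k a ξ :=
  (cont_TrCont k).comp (continuous_id.prodMk continuous_const)

theorem continuous_trW₂ (k : ℕ) : Continuous fun q : Pl × W k U => trW k q.1 q.2 := cont_TrCont k

theorem hasFDerivAt_trW (k : ℕ) (ξ : W (k + 1) U) (a : Pl) :
    HasFDerivAt (fun a => trW k a (inc k ξ))
      ((ContinuousLinearMap.fst ℝ ℝ ℝ).smulRight (trW k a (dS k ξ)) +
        (ContinuousLinearMap.snd ℝ ℝ ℝ).smulRight (trW k a (dT k ξ))) a := by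
  refine move_TrCont ?_ a
  rw [hasFDerivAt_iff_isLittleO_nhds_zero, Asymptotics.isLittleO_iff]
  intro c hc
  obtain ⟨φ, hφ⟩ := (denseRange_co (k + 1)).exists_dist_lt ξ (ε := c / 8) (by positivity)
  rw [dist_eq_norm] at hφ
  have h := co_zero_TrCont k φ
  rw [hasFDerivAt_iff_isLittleO_nhds_zero, Asymptotics.isLittleO_iff] at h
  filter_upwards [h (half_pos hc)] with b hb
  rw [← inc_co, ← dS_co, ← dT_co] at hb
  set η := ξ - co (k + 1) φ with hη
  have e : ξ = co (k + 1) φ + η := by rw [hη]; abel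
  have h1 := sub_le_TrCont k η b
  have h2 := (norm_dS_le k η).trans hφ.le
  have h3 := (norm_dT_le k η).trans hφ.le
  have h4 := comb_TrCont b h2 h3
  have h5 := mul_le_mul (abs_le_TrCont b).1 h2 (norm_nonneg _) (norm_nonneg _)
  have h6 := mul_le_mul (abs_le_TrCont b).2 h3 (norm_nonneg _) (norm_nonneg _)
  have e2 : trW k (0 + b) (inc k ξ) - trW k 0 (inc k ξ) - der_TrCont (dS k ξ) (dT k ξ) b =
      (trW k (0 + b) (inc k (co (k + 1) φ)) - trW k 0 (inc k (co (k + 1) φ)) -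
        der_TrCont (dS k (co (k + 1) φ)) (dT k (co (k + 1) φ)) b) +
        ((trW k b (inc k η) - inc k η) - (b.1 • dS k η + b.2 • dT k η)) := by
    rw [e]
    simp only [zero_add, trW_zero, der_apply_TrCont, map_add, smul_add]
    abel
  rw [e2]
  refine (norm_add_le _ _).trans ?_
  have h7 := norm_sub_le (trW k b (inc k η) - inc k η) (b.1 • dS k η + b.2 • dT k η)
  linarith

theorem norm_trW_sub_le (k : ℕ) (ξ : W (k + 1) U) (a : Pl) :
    ‖trW k a (inc k ξ) - inc k ξ‖ ≤ |a.1| * ‖dS k ξ‖ + |a.2| * ‖dT k ξ‖ :=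
  sub_le_TrCont k ξ a

theorem contDiff_trW_co (k : ℕ) (φ : Dsub U) : ContDiff ℝ ∞ fun a => trW k a (co k φ) := by
  rw [contDiff_infty]
  intro n
  induction n generalizing φ with
  | zero => exact contDiff_zero.2 (continuous_trW k _)
  | succ n ih =>
    rw [Nat.cast_succ, contDiff_succ_iff_hasFDerivAt]
    exact ⟨_, (contDiff_const.smulRight (ih _)).add (contDiff_const.smulRight (ih _)),
      co_TrCont k φ⟩

/-- If the orbit map is smooth near `0`, it is smooth with bounded derivatives. -/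
theorem bdd_trW (k : ℕ) {ξ : W k U} (h : ∀ n : ℕ, ContDiffAt ℝ n (fun a => trW k a ξ) 0) :
    Bdd fun a => trW k a ξ := by
  have h1 : ∀ (n : ℕ) (a : Pl), ContDiffAt ℝ n (fun b => trW k (b - a) ξ) a := fun n a =>
    ContDiffAt.comp (g := fun a => trW k a ξ) a (by rw [sub_self]; exact h n)
      (contDiffAt_id.sub contDiffAt_const)
  refine ⟨contDiff_infty.2 fun n => contDiff_iff_contDiffAt.2 fun a => ?_, fun n =>
    ⟨‖iteratedFDeriv ℝ n (fun a => trW k a ξ) 0‖, fun a => ?_⟩⟩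
  · rw [shift_TrCont k ξ a]
    exact (trW k a).contDiff.contDiffAt.comp a (h1 n a)
  · have h2 := (trW k a).norm_iteratedFDeriv_comp_left (h1 n a) le_rfl
    rw [← shift_TrCont, iteratedFDeriv_comp_sub (f := fun a => trW k a ξ), sub_self] at h2
    refine h2.trans (mul_le_of_le_one_left (norm_nonneg _) ?_)
    exact ContinuousLinearMap.opNorm_le_bound _ zero_le_one fun x => by rw [norm_trW, one_mul]

end

end Pool.Agent.P.MP_de3acd_gt.FH
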