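import Pool.Agent.P.MP_de3acd_gt.FH.Pre
import Pool.Agent.P.MP_de3acd_gt.FH.Frm
import Pool.Agent.P.MP_de3acd_gt.FH.TrCont

/-! Calculus for slices: translates of a path paired with a test function.
Sketch: pair Ω0 f l only depends on f on a bounded part of the cylinder; integral_tsl for translation invariance; additivity by
integrableOn_St. hasDerivAt_pair_tsl: pair (tsl a v) l = pair v (tsl (-a) l); cut v off (cut_mem, plat) near the relevant bounded set and use
Rep.prW, hasFDerivAt_trW or contDiff_trW_co; or differentiate under the integral. tendsto_nrm_tsl: tsl s v - v = (tsl s η - η) + (tsl s w - w) with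
w = ref x y, η = v - w in W 2 (rep_toW, Rep.trW, continuous_trW, Rep.nrm_eq); the second term has support in |s| ≤ 2 and Cn 2 bounded by C |s| (mean value
inequality) or use a cut-off of w and continuous_trW again. exists_slice: intermediate value theorem for a ↦ pair (tsl a u - v) l on [-η, η]. -/

open Set Filter Topology MeasureTheory
open scoped ContDiff NNReal ENNReal RealInnerProductSpace

namespace Pool.Agent.P.MP_de3acd_gt.FH

noncomputable section

variable {V : Type} [NormedAddCommGroup V] [InnerProductSpace ℝ V] [Sym V]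

variable {x y : ℝ → V} {f g v l : Pl → V}

theorem cont_Slc (hf : Continuous f) (hl : Continuous l) : Continuous fun p => Ω0 (f p) (l p) :=
  (Sym.J0.continuous.comp hf).inner hl

theorem int_Slc (hf : Continuous f) (hl : l ∈ Dsub V) :
    IntegrableOn (fun p => Ω0 (f p) (l p)) St := by
  obtain ⟨h1, -, R, h3⟩ := hl
  exact integrableOn_St (cont_Slc hf h1.continuous) fun p hp => by
    rw [h3 p hp, Ω0, inner_zero_right]

theorem abs_le_Slc (u w : V) : |Ω0 u w| ≤ ‖u‖ * ‖w‖ := by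
  have e : ‖(Sym.J0 u : V)‖ = ‖u‖ := by
    rw [norm_eq_sqrt_real_inner, Sym.iso, ← norm_eq_sqrt_real_inner]
  rw [← e]
  exact abs_real_inner_le_norm _ _

theorem der_Slc {G G' : ℝ → Pl → ℝ} {a R : ℝ} (hG : ∀ b, Continuous (G b))
    (hG' : Continuous fun q : ℝ × Pl => G' q.1 q.2)
    (hd : ∀ b p, HasDerivAt (fun b => G b p) (G' b p) b)
    (h0 : ∀ b ∈ Metric.ball a 1, ∀ p : Pl, R ≤ |p.1| → G b p = 0 ∧ G' b p = 0) :
    HasDerivAt (fun b => ∫ p in St, G b p) (∫ p in St, G' a p) a := by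
  have hK : IsCompact (Icc (-R) R ×ˢ Icc (0 : ℝ) 1) := isCompact_Icc.prod isCompact_Icc
  obtain ⟨M, hM⟩ := ((isCompact_closedBall a 1).prod hK).exists_bound_of_continuousOn
    hG'.continuousOn
  have mS : MeasurableSet St := MeasurableSet.univ.prod measurableSet_Icc
  have c' : Continuous (G' a) := hG'.comp (continuous_const.prodMk continuous_id)
  refine (hasDerivAt_integral_of_dominated_loc_of_deriv_le (μ := volume.restrict St) (F := G)
    (F' := G') (bound := (Icc (-R) R ×ˢ Icc (0 : ℝ) 1).indicator fun _ => M)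
    (Metric.ball_mem_nhds a one_pos)
    (Eventually.of_forall fun b => (hG b).aestronglyMeasurable)
    (integrableOn_St (hG a) fun p hp => (h0 a (Metric.mem_ball_self one_pos) p hp).1)
    c'.aestronglyMeasurable ?_ ?_ (Eventually.of_forall fun p b _ => hd b p)).2
  · refine (ae_restrict_iff' mS).2 (Eventually.of_forall fun p hp b hb => ?_)
    by_cases h : p ∈ Icc (-R) R ×ˢ Icc (0 : ℝ) 1
    · rw [indicator_of_mem h]
      exact hM (b, p) ⟨Metric.ball_subset_closedBall hb, h⟩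
    · rw [indicator_of_notMem h, (h0 b hb p (le_of_not_gt fun hl =>
        h ⟨⟨(abs_lt.1 hl).1.le, (abs_lt.1 hl).2.le⟩, hp.2⟩)).2, norm_zero]
  · exact ((integrable_indicator_iff hK.measurableSet).2
      (integrableOn_const hK.measure_lt_top.ne)).integrableOn

omit [Sym V] in
theorem hd_Slc (hv : ContDiff ℝ ∞ v) (b : ℝ) (p : Pl) :
    HasDerivAt (fun b : ℝ => tsl (b, 0) v p) (tsl (b, 0) (ds v) p) b :=
  (hasDerivAt_ds (f := v) (s := p.1 + b) (t := p.2 + 0)
    (hv.differentiable (by simp) _)).comp_const_add p.1 b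

omit [InnerProductSpace ℝ V] [Sym V] in
theorem ct_Slc (hv : Continuous v) : Continuous fun q : ℝ × Pl => tsl (q.1, 0) v q.2 :=
  hv.comp (continuous_snd.add (continuous_fst.prodMk continuous_const))

omit [Sym V] in
theorem cn_tsl_Slc (k : ℕ) (a : Pl) {C : ℝ} : ∀ {f : Pl → V}, ContDiff ℝ ∞ f →
    Cn (k + 1) f univ C → Cn k (tsl a f - f) univ (2 * C * ‖a‖) := by
  have h0 : ∀ {f : Pl → V}, ContDiff ℝ ∞ f → Cn 1 f univ C →
      Cn 0 (tsl a f - f) univ (2 * C * ‖a‖) := fun {f} hf h p _ => by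
    have := lip_TrCont hf h p (p + a)
    rwa [add_sub_cancel_left] at this
  induction k with
  | zero => exact h0
  | succ k ih =>
    intro f hf h
    refine ⟨h0 hf (h.mono (by omega) le_rfl le_rfl), ?_, ?_⟩
    · rw [ds_sub_JetC (contDiff_tsl hf a) hf, ds_tsl]
      exact ih (contDiff_ds hf) h.2.1
    · rw [dt_sub_JetC (contDiff_tsl hf a) hf, dt_tsl]
      exact ih (contDiff_dt hf) h.2.2

omit [InnerProductSpace ℝ V] [Sym V] in
theorem per_sub_Slc (hf : Per f) (hg : Per g) : Per (f - g) := fun s t => by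
  simp only [Pi.sub_apply, hf s t, hg s t]

theorem pair_tsl (hf : Continuous f) (pf : Per f) (hl : l ∈ Dsub V) (a : Pl) :
    pair Ω0 (tsl a f) (tsl a l) = pair Ω0 f l :=
  integral_tsl (f := fun p => Ω0 (f p) (l p)) (cont_Slc hf hl.1.continuous)
    (fun s t => by simp only [pf s t, hl.2.1 s t]) a

theorem pair_add (hf : Continuous f) (hg : Continuous g) (hl : l ∈ Dsub V) :
    pair Ω0 (f + g) l = pair Ω0 f l + pair Ω0 g l := by
  rw [pair, pair, pair, ← integral_add (int_Slc hf hl) (int_Slc hg hl)]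
  simp only [Ω0, Pi.add_apply, map_add, inner_add_left]

theorem pair_sub (hf : Continuous f) (hg : Continuous g) (hl : l ∈ Dsub V) :
    pair Ω0 (f - g) l = pair Ω0 f l - pair Ω0 g l := by
  rw [pair, pair, pair, ← integral_sub (int_Slc hf hl) (int_Slc hg hl)]
  simp only [Ω0, Pi.sub_apply, map_sub, inner_sub_left]

theorem pair_add_right (hf : Continuous f) {l' : Pl → V} (hl : l ∈ Dsub V) (hl' : l' ∈ Dsub V) :
    pair Ω0 f (l + l') = pair Ω0 f l + pair Ω0 f l' := by
  rw [pair, pair, pair, ← integral_add (int_Slc hf hl) (int_Slc hf hl')]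
  simp only [Ω0, Pi.add_apply, inner_add_right]

theorem pair_smul_right (f l : Pl → V) (r : ℝ) : pair Ω0 f (r • l) = r * pair Ω0 f l := by
  rw [pair, pair, ← integral_const_mul]
  simp only [Ω0, Pi.smul_apply, real_inner_smul_right]

theorem pair_zero_right (f : Pl → V) : pair Ω0 f 0 = 0 := by
  simp only [pair, Ω0, Pi.zero_apply, inner_zero_right, integral_zero]

theorem pair_zero_left (l : Pl → V) : pair Ω0 0 l = 0 := by
  simp only [pair, Ω0, Pi.zero_apply, map_zero, inner_zero_left, integral_zero]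

theorem abs_pair_le (hl : l ∈ Dsub V) : ∃ C, 0 ≤ C ∧ ∀ (f : Pl → V) (s ε : ℝ), Continuous f → Per f →
    0 ≤ ε → (∀ p, l p ≠ 0 → ‖f (p - (s, 0))‖ ≤ ε) → |pair Ω0 f (tsl (s, 0) l)| ≤ C * ε := by
  have hi : IntegrableOn (fun p => ‖l p‖) St := by
    obtain ⟨h1, -, R, h3⟩ := hl
    exact integrableOn_St h1.continuous.norm fun p hp => by rw [h3 p hp, norm_zero]
  refine ⟨∫ p in St, ‖l p‖, integral_nonneg fun p => norm_nonneg _, fun f s ε hf pf hε h => ?_⟩
  have c : Continuous (tsl (-(s, 0)) f) := hf.comp (continuous_id.add continuous_const)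
  have e := pair_tsl c (pf.tsl _) hl (s, 0)
  rw [tsl_tsl, add_neg_cancel, tsl_zero] at e
  rw [e, ← integral_mul_const, pair, ← Real.norm_eq_abs]
  refine norm_integral_le_of_norm_le (hi.mul_const ε) (Eventually.of_forall fun p => ?_)
  refine (abs_le_Slc _ _).trans ?_
  by_cases hp : l p = 0
  · rw [hp, norm_zero, mul_zero, zero_mul]
  · rw [mul_comm]
    refine mul_le_mul_of_nonneg_left ?_ (norm_nonneg _)
    have := h p hp
    rwa [sub_eq_add_neg] at this

theorem hasDerivAt_pair_tsl (hv : ContDiff ℝ ∞ v) (pv : Per v) (hl : l ∈ Dsub V) (a : ℝ) :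
    HasDerivAt (fun a : ℝ => pair Ω0 (tsl (a, 0) v) l) (pair Ω0 (tsl (a, 0) (ds v)) l) a := by
  have _ := pv
  obtain ⟨h1, -, R, h3⟩ := hl
  refine der_Slc (R := R) (G := fun b p => Ω0 (tsl (b, 0) v p) (l p))
    (G' := fun b p => Ω0 (tsl (b, 0) (ds v) p) (l p))
    (fun b => cont_Slc (contDiff_tsl hv _).continuous h1.continuous)
    ((Sym.J0.continuous.comp (ct_Slc (contDiff_ds hv).continuous)).inner
      (h1.continuous.comp continuous_snd)) (fun b p => ?_) fun b _ p hp => ?_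
  · have := (Sym.J0.hasFDerivAt.comp_hasDerivAt b (hd_Slc hv b p)).inner ℝ
      (hasDerivAt_const b (l p))
    rw [inner_zero_right, zero_add] at this
    exact this
  · simp only [h3 p hp, Ω0, inner_zero_right, and_self]

theorem hasDerivAt_pair_tsl' (hv : ContDiff ℝ ∞ v) (pv : Per v) (hl : l ∈ Dsub V) (a : ℝ) :
    HasDerivAt (fun a : ℝ => pair Ω0 v (tsl (a, 0) l)) (pair Ω0 v (tsl (a, 0) (ds l))) a := by
  have _ := pv
  obtain ⟨-, -, R', h4⟩ := ds_mem hl
  obtain ⟨h1, -, R, h3⟩ := hl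
  refine der_Slc (R := max R R' + |a| + 1) (G := fun b p => Ω0 (v p) (tsl (b, 0) l p))
    (G' := fun b p => Ω0 (v p) (tsl (b, 0) (ds l) p))
    (fun b => cont_Slc hv.continuous (contDiff_tsl h1 _).continuous)
    ((Sym.J0.continuous.comp (hv.continuous.comp continuous_snd)).inner
      (ct_Slc (contDiff_ds h1).continuous)) (fun b p => ?_) fun b hb p hp => ?_
  · have := (hasDerivAt_const b (Sym.J0 (v p) : V)).inner ℝ (hd_Slc h1 b p)
    rw [inner_zero_left, add_zero] at this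
    exact this
  · have e : max R R' ≤ |p.1 + b| := by
      have a1 := abs_add_le (p.1 + b) (-b)
      have a2 := abs_add_le (b - a) a
      rw [add_neg_cancel_right, abs_neg] at a1
      rw [sub_add_cancel] at a2
      rw [Metric.mem_ball, Real.dist_eq] at hb
      linarith
    simp only [tsl, h3 (p + (b, 0)) ((le_max_left _ _).trans e),
      h4 (p + (b, 0)) ((le_max_right _ _).trans e), Ω0, inner_zero_right, and_self]

theorem norm_prW_tsl_le (hl : l ∈ Dsub V) : ∃ C, 0 ≤ C ∧ ∀ a b : ℝ, ‖prW (tsl (a, 0) l)‖ ≤ C ∧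
    ‖prW (tsl (a, 0) l) - prW (tsl (b, 0) l)‖ ≤ C * |a - b| := by
  have e0 : toW 0 l = inc 0 (co 1 ⟨l, hl⟩) := by
    rw [inc_co]
    exact toW_co 0 ⟨l, hl⟩
  refine ⟨max ‖toW 0 l‖ ‖dS 0 (co 1 ⟨l, hl⟩)‖, (norm_nonneg _).trans (le_max_left _ _),
    fun a b => ⟨?_, ?_⟩⟩
  · refine (norm_prW_le (tsl_mem hl _)).trans ?_
    rw [toW_tsl 0 hl, norm_trW]
    exact le_max_left _ _
  · have ha := tsl_mem hl (a, 0)
    have hb := tsl_mem hl (b, 0)
    have hab := (Dsub V).sub_mem ha hb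
    have e : prW (tsl (a, 0) l) - prW (tsl (b, 0) l) = prW (tsl (a, 0) l - tsl (b, 0) l) := by
      rw [sub_eq_iff_eq_add, ← prW_add hab hb, sub_add_cancel]
    have e' : toW 0 (tsl (a, 0) l - tsl (b, 0) l) =
        trW 0 (b, 0) (trW 0 (a - b, 0) (toW 0 l) - toW 0 l) := by
      rw [((rep_toW_of_mem 0 ha).sub (rep_toW_of_mem 0 hb) ha.1.continuous
        hb.1.continuous).toW_eq, toW_tsl 0 hl, toW_tsl 0 hl, map_sub, ← trW_add, Prod.mk_add_mk,
        add_sub_cancel, add_zero]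
    rw [e]
    refine (norm_prW_le hab).trans ?_
    rw [e', norm_trW, e0]
    refine (norm_trW_sub_le 0 _ _).trans ?_
    rw [abs_zero, zero_mul, add_zero, mul_comm]
    exact mul_le_mul_of_nonneg_right (le_max_right _ _) (abs_nonneg _)

theorem continuous_prW_tsl (hl : l ∈ Dsub V) :
    Continuous fun q : ℝ × W 2 V => prW (tsl (q.1, 0) l) q.2 := by
  have e : (fun q : ℝ × W 2 V => prW (tsl (q.1, 0) l) q.2) =
      fun q => prW l (trW 2 (-(q.1, 0)) q.2) := funext fun q => by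
    rw [← prW_tsl hl (q.1, 0), ← trW_add, add_neg_cancel, trW_zero]
  rw [e]
  exact (prW l).continuous.comp ((continuous_trW₂ 2).comp
    ((continuous_fst.prodMk continuous_const).neg.prodMk continuous_snd))

theorem tendsto_nrm_tsl (h : Pth x y v) (hx : ContDiff ℝ ∞ x) (hy : ContDiff ℝ ∞ y)
    (px : ∀ t, x (t + 1) = x t) (py : ∀ t, y (t + 1) = y t) :
    Tendsto (fun s : ℝ => nrm 2 (tsl (s, 0) v - v) univ) (𝓝 0) (𝓝 0) := by
  obtain ⟨bw, pw, wl, wr⟩ := bdd_ref hx hy px py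
  obtain ⟨C, -, hC⟩ := bw.cn 3
  have cη : ContDiff ℝ ∞ (v - ref x y) := h.bdd.1.sub bw.1
  have pη := per_sub_Slc h.per pw
  have r := rep_toW (k := 2) le_rfl cη pη (h.nrm_sub (pth_ref hx hy px py) hx hy)
  generalize toW 2 (v - ref x y) = ξ at r
  have c0 : Continuous fun s : ℝ => ((s, 0) : Pl) := continuous_id.prodMk continuous_const
  have t1 : Tendsto (fun s : ℝ => ENNReal.ofReal (‖trW 2 (s, 0) ξ - ξ‖ ^ 2)) (𝓝 0) (𝓝 0) :=
    (ENNReal.continuous_ofReal.comp
      ((((continuous_trW 2 ξ).comp c0).sub continuous_const).norm.pow 2)).tendsto' 0 0 (by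
        change ENNReal.ofReal (‖trW 2 0 ξ - ξ‖ ^ 2) = 0
        rw [trW_zero, sub_self, norm_zero, zero_pow two_ne_zero, ENNReal.ofReal_zero])
  have t2 : Tendsto (fun s : ℝ => ENNReal.ofReal (3 ^ 2 * (2 * C * ‖((s, 0) : Pl)‖) ^ 2 * 4))
      (𝓝 0) (𝓝 0) :=
    (ENNReal.continuous_ofReal.comp ((continuous_const.mul
      ((continuous_const.mul c0.norm).pow 2)).mul continuous_const)).tendsto' 0 0 (by
        change ENNReal.ofReal (3 ^ 2 * (2 * C * ‖(0 : Pl)‖) ^ 2 * 4) = 0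
        simp)
  have t3 := (ENNReal.Tendsto.const_mul (a := 2) t1 (Or.inr (by simp))).add
    (ENNReal.Tendsto.const_mul (a := 2) t2 (Or.inr (by simp)))
  rw [mul_zero, add_zero] at t3
  refine tendsto_of_tendsto_of_tendsto_of_le_of_le' tendsto_const_nhds t3
    (Eventually.of_forall fun _ => zero_le) ?_
  filter_upwards [Icc_mem_nhds (show (-1 : ℝ) < 0 by norm_num) one_pos] with s hs
  have e : tsl (s, 0) v - v = (tsl (s, 0) (v - ref x y) - (v - ref x y)) +
      (tsl (s, 0) (ref x y) - ref x y) := funext fun p => by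
    simp only [tsl, Pi.sub_apply, Pi.add_apply]
    abel
  have c1 : ContDiff ℝ ∞ (tsl (s, 0) (v - ref x y) - (v - ref x y)) :=
    (contDiff_tsl cη (s, 0)).sub cη
  have c2 : ContDiff ℝ ∞ (tsl (s, 0) (ref x y) - ref x y) := (contDiff_tsl bw.1 (s, 0)).sub bw.1
  rw [e]
  refine (nrm_add_le 2 c1 c2 _).trans (add_le_add (le_of_eq ?_) (mul_le_mul_right ?_ _))
  · rw [((r.trW cη.continuous pη _).sub r (contDiff_tsl cη _).continuous cη.continuous).nrm_eq
      le_rfl c1 (per_sub_Slc (pη.tsl _) pη)]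
  · rw [nrm_eq_of_supp 2 (I := Icc (-2) 2) isClosed_Icc fun p hp => ?_]
    · refine (((cn_tsl_Slc 2 (s, 0) bw.1 hC).mono le_rfl (subset_univ _) le_rfl).nrm_le
        measurableSet_Icc).trans (le_of_eq ?_)
      rw [Real.volume_Icc, ← ENNReal.ofReal_mul (by positivity)]
      norm_num
    · rw [mem_Icc, not_and_or, not_le, not_le] at hp
      refine sub_eq_zero.2 ?_
      rcases hp with hp | hp
      · rw [tsl, wl p (by linarith), wl (p + (s, 0)) (by
          change p.1 + s ≤ 0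
          linarith [hs.2])]
        exact congrArg x (add_zero _)
      · rw [tsl, wr p (by linarith), wr (p + (s, 0)) (by
          change 1 ≤ p.1 + s
          linarith [hs.1])]
        exact congrArg y (add_zero _)

theorem sep_tsl (h : Pth x y v) (hx : ContDiff ℝ ∞ x) (hy : ContDiff ℝ ∞ y)
    (px : ∀ t, x (t + 1) = x t) (py : ∀ t, y (t + 1) = y t) (hxy : x ≠ y) {δ : ℝ} (hδ : 0 < δ) :
    ∃ ε > 0, ∀ s : ℝ, nrm 2 (tsl (s, 0) v - v) univ ≤ ENNReal.ofReal (ε ^ 2) → |s| ≤ δ := by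
  by_contra hc
  push Not at hc
  choose s hs hs' using fun n : ℕ => hc (1 / ((n : ℝ) + 1)) Nat.one_div_pos_of_nat
  have t : Tendsto (fun n : ℕ => ENNReal.ofReal ((1 / ((n : ℝ) + 1)) ^ 2)) atTop (𝓝 0) := by
    have := ENNReal.tendsto_ofReal ((tendsto_one_div_add_atTop_nhds_zero_nat (𝕜 := ℝ)).pow 2)
    rwa [zero_pow two_ne_zero, ENNReal.ofReal_zero] at this
  have w : WC atTop (fun n => tsl (s n, 0) v) fun _ => v :=
    tendsto_of_tendsto_of_tendsto_of_le_of_le tendsto_const_nhds t (fun _ => zero_le) hs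
  obtain ⟨φ, s₀, -, h2, h3⟩ := eq_tsl_of_close h h hx hy px py hxy (s := s) fun ε hε =>
    (w.tendsto (fun n => ⟨contDiff_tsl h.bdd.1 _, h.per.tsl _⟩) (fun _ => ⟨h.bdd.1, h.per⟩)
      hε).mono fun n hn p => by
        rw [norm_sub_rev]
        exact hn p
  have h4 := ge_of_tendsto' h2.abs fun n => (hs' (φ n)).le
  rw [eq_zero_of_tsl h hx hy px py hxy h3.symm, abs_zero] at h4
  exact absurd h4 hδ.not_ge

theorem Pth.unique {x' y' : ℝ → V} (h : Pth x y v) (h' : Pth x' y' v) (hx : ContDiff ℝ ∞ x)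
    (hy : ContDiff ℝ ∞ y) (px : ∀ t, x (t + 1) = x t) (py : ∀ t, y (t + 1) = y t)
    (hx' : ContDiff ℝ ∞ x') (hy' : ContDiff ℝ ∞ y') (px' : ∀ t, x' (t + 1) = x' t)
    (py' : ∀ t, y' (t + 1) = y' t) : x = x' ∧ y = y' := by
  have key : ∀ a b c : V, ∀ ε : ℝ, ‖c - a‖ ≤ ε / 2 → ‖c - b‖ ≤ ε / 2 → dist a b ≤ ε :=
    fun a b c ε h1 h2 => by
      have := dist_triangle_left a b c
      rw [dist_eq_norm c a, dist_eq_norm c b] at this
      linarith
  refine ⟨funext fun t => eq_of_forall_dist_le fun ε hε => ?_,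
    funext fun t => eq_of_forall_dist_le fun ε hε => ?_⟩
  · obtain ⟨R, a, -⟩ := h.cn hx hy px py 0 (half_pos hε)
    obtain ⟨R', a', -⟩ := h'.cn hx' hy' px' py' 0 (half_pos hε)
    exact key _ _ (v (-max R R', t)) ε (a (-max R R', t) (neg_le_neg (le_max_left R R')))
      (a' (-max R R', t) (neg_le_neg (le_max_right R R')))
  · obtain ⟨R, -, a⟩ := h.cn hx hy px py 0 (half_pos hε)
    obtain ⟨R', -, a'⟩ := h'.cn hx' hy' px' py' 0 (half_pos hε)
    exact key _ _ (v (max R R', t)) ε (a (max R R', t) (le_max_left R R'))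
      (a' (max R R', t) (le_max_right R R'))

/-- Paths close to `v` can be translated into the slice through `v`. -/
theorem exists_slice (h : Pth x y v) (hx : ContDiff ℝ ∞ x) (hy : ContDiff ℝ ∞ y)
    (px : ∀ t, x (t + 1) = x t) (py : ∀ t, y (t + 1) = y t) (hl : l ∈ Dsub V)
    (hp : 0 < pair Ω0 (ds v) l) {ε : ℝ} (hε : 0 < ε) : ∃ δ > 0, ∀ u, Pth x y u →
      nrm 2 (u - v) univ ≤ ENNReal.ofReal (δ ^ 2) → ∃ s : ℝ, pair Ω0 (tsl (s, 0) u - v) l = 0 ∧
        nrm 2 (tsl (s, 0) u - v) univ ≤ ENNReal.ofReal (ε ^ 2) := by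
  have cv := h.bdd.1
  have hd := hasDerivAt_pair_tsl cv h.per hl 0
  have z : ((0, 0) : Pl) = 0 := rfl
  rw [z, tsl_zero] at hd
  have hs := hd.tendsto_slope_zero
  simp only [zero_add, z, tsl_zero] at hs
  have e1 := hs.eventually (lt_mem_nhds hp)
  rw [eventually_nhdsWithin_iff] at e1
  have e2 := (tendsto_nrm_tsl h hx hy px py).eventually
    (Iic_mem_nhds (ENNReal.ofReal_pos.2 (show 0 < (ε / 2) ^ 2 by positivity)))
  obtain ⟨r, hr, e3⟩ := Metric.eventually_nhds_iff.1 (e1.and e2)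
  have e4 : ∀ s ∈ Icc (-(r / 2)) (r / 2), dist s 0 < r := fun s hs => by
    rw [Real.dist_eq, sub_zero, abs_lt]
    constructor <;> linarith [hs.1, hs.2]
  have g1 : 0 < pair Ω0 (tsl (r / 2, 0) v) l - pair Ω0 v l := by
    have := (e3 (e4 (r / 2) ⟨by linarith, le_rfl⟩)).1 (half_pos hr).ne'
    exact (pos_iff_pos_of_mul_pos this).1 (inv_pos.2 (half_pos hr))
  have g2 : 0 < pair Ω0 v l - pair Ω0 (tsl (-(r / 2), 0) v) l := by
    have := (e3 (e4 (-(r / 2)) ⟨le_rfl, by linarith⟩)).1 (neg_ne_zero.2 (half_pos hr).ne')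
    exact sub_pos.2 (sub_neg.1 ((neg_iff_neg_of_mul_pos this).1
      (inv_lt_zero.2 (neg_neg_of_pos (half_pos hr)))))
  obtain ⟨C, hC, hb⟩ := norm_prW_tsl_le hl
  obtain ⟨m, hm, m1, m2⟩ : ∃ m, 0 < m ∧ m ≤ pair Ω0 (tsl (r / 2, 0) v) l - pair Ω0 v l ∧
      m ≤ pair Ω0 v l - pair Ω0 (tsl (-(r / 2), 0) v) l :=
    ⟨_, lt_min g1 g2, min_le_left _ _, min_le_right _ _⟩
  obtain ⟨δ, hδ, d1, d2⟩ : ∃ δ, 0 < δ ∧ δ ≤ ε / 2 ∧ C * δ ≤ m := by
    refine ⟨min (ε / 2) (m / (C + 1)), lt_min (half_pos hε) (by positivity), min_le_left _ _, ?_⟩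
    have := (le_div_iff₀ (show 0 < C + 1 by linarith)).1 (min_le_right (ε / 2) (m / (C + 1)))
    have := lt_min (half_pos hε) (show 0 < m / (C + 1) by positivity)
    linarith
  refine ⟨δ, hδ, fun u hu hn => ?_⟩
  have cu := hu.bdd.1
  have cw : ContDiff ℝ ∞ (u - v) := cu.sub cv
  have pw := per_sub_Slc hu.per h.per
  have key : ∀ s : ℝ, |pair Ω0 (tsl (s, 0) u) l - pair Ω0 (tsl (s, 0) v) l| ≤ m := fun s => by
    have e := pair_tsl cw.continuous pw (tsl_mem hl (-s, 0)) (s, 0)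
    rw [tsl_tsl, Prod.mk_add_mk, add_neg_cancel, add_zero, z, tsl_zero,
      ← (rep_toW le_rfl cw pw (hu.nrm_sub h hx hy)).prW (tsl_mem hl _)] at e
    rw [← pair_sub (contDiff_tsl cu _).continuous (contDiff_tsl cv _).continuous hl]
    refine (congrArg abs e).trans_le ?_
    rw [← Real.norm_eq_abs]
    exact ((ContinuousLinearMap.le_opNorm _ _).trans (mul_le_mul (hb (-s) 0).1
      (norm_toW_le le_rfl cw pw hδ.le hn) (norm_nonneg _) hC)).trans d2
  have ct : Continuous fun s : ℝ => pair Ω0 (tsl (s, 0) u) l :=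
    continuous_iff_continuousAt.2 fun s => (hasDerivAt_pair_tsl cu hu.per hl s).continuousAt
  obtain ⟨s, hs1, hs2⟩ := intermediate_value_Icc (show -(r / 2) ≤ r / 2 by linarith)
    ct.continuousOn (show pair Ω0 v l ∈ _ from
      ⟨by linarith [(abs_le.1 (key (-(r / 2)))).2], by linarith [(abs_le.1 (key (r / 2))).1]⟩)
  refine ⟨s, ?_, ?_⟩
  · rw [pair_sub (contDiff_tsl cu _).continuous cv.continuous hl]
    exact sub_eq_zero.2 hs2
  · have e : tsl (s, 0) u - v = tsl (s, 0) (u - v) + (tsl (s, 0) v - v) := funext fun p => by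
      simp only [tsl, Pi.sub_apply, Pi.add_apply]
      abel
    have n1 : nrm 2 (tsl (s, 0) (u - v)) univ ≤ ENNReal.ofReal ((ε / 2) ^ 2) :=
      (nrm_tsl 2 cw pw (s, 0) MeasurableSet.univ).trans_le
        (hn.trans (ENNReal.ofReal_le_ofReal (pow_le_pow_left₀ hδ.le d1 2)))
    rw [e]
    refine (nrm_add_le 2 (contDiff_tsl cw _) ((contDiff_tsl cv _).sub cv) _).trans
      ((add_le_add (mul_le_mul_right n1 _) (mul_le_mul_right (e3 (e4 s hs1)).2 _)).trans
        (le_of_eq ?_))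
    rw [← ENNReal.ofReal_ofNat 2, ← ENNReal.ofReal_mul (by norm_num),
      ← ENNReal.ofReal_add (by positivity) (by positivity)]
    exact congrArg _ (by ring)

end

end Pool.Agent.P.MP_de3acd_gt.FH
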