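import Pool.Agent.P.MP_de3acd_gt.FH.SgnA
import Pool.Agent.P.MP_de3acd_gt.FH.Neck
import Pool.Agent.P.MP_de3acd_gt.FH.Slc
import Pool.Agent.P.MP_de3acd_gt.FH.Defs5

/-! The counted sets in terms of Sobolev operators.
Sketch: nice_of_cyl, Nice.cyl, ok_lop_iff, frm_empty, frm_apply, hasIdx_of_frm, surjective_coprod_of_blk. exists_isN: ds_ker, exists_prW_pos for
toW 2 (ds v) (nonzero by Rep.eq_zero), Rep.prW, HasIdx.bijective_prod. IsN.sign: sign_path with the constant family (pData_fld, fld_sta) along the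
segment of frames, bijective by HasIdx.bijective_prod at toW 2 (ds v). IsN.tsl: Ok.trOp, sign_trOp, trOp_lop, tsl_sta, pair_tsl, ds_tsl.
kr_eq_zero: r ↦ X r p z is differentiable at 0 and constant on Iic 0 (uniqueDiffWithinAt_Iic, HasFDerivWithinAt.unique or the one-sided limit). -/

open Set Filter Topology MeasureTheory
open scoped ContDiff NNReal ENNReal RealInnerProductSpace

namespace Pool.Agent.P.MP_de3acd_gt.FH

noncomputable section

variable {V : Type} [NormedAddCommGroup V] [InnerProductSpace ℝ V] [Sym V]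

variable {J : ℝ → V → V →L[ℝ] V} {R : ℝ} {Y Y' : ℝ → V → V} {x y : ℝ → V} {u v l : Pl → V}
  {o : ∀ a b, Op V a b → ℤˣ}

theorem conj_FinA {A B A' B' : Type} {f : A → B} {g : A' → B'} (e : A ≃ A') (e' : B ≃ B')
    (h : ∀ a, g (e a) = e' (f a)) : (Function.Bijective f ↔ Function.Bijective g) ∧
      (Function.Surjective f ↔ Function.Surjective g) := by
  have h' : g ∘ e = e' ∘ f := funext h
  exact ⟨by rw [← e.bijective_comp g, h', Equiv.comp_bijective],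
    by rw [← e.surjective_comp g, h', Equiv.comp_surjective]⟩

omit [Sym V] in
theorem toW_zero_FinA (k : ℕ) : toW k (0 : Pl → V) = 0 := (rep_zero k).toW_eq

omit [Sym V] in
theorem tf_nil_FinA : TF (![] : Fin 0 → Pl → V) := fun i => i.elim0

omit [Sym V] in
theorem tf_one_FinA {K : Pl → V} : TF ![K] ↔ K ∈ Dsub V := Fin.forall_fin_one

theorem scnt_eq_sum {ι : Type} {M : Set ι} (T : Finset ι) (h : ∀ m, m ∈ T ↔ m ∈ M) (s : ι → ℤˣ) :
    scnt M s = ∑ m ∈ T, (s m : ℤ) := by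
  have e : ∀ σ : ℤˣ, ({m ∈ M | s m = σ}.ncard : ℤ) = ∑ m ∈ T, if s m = σ then 1 else 0 := fun σ => by
    have e1 : {m ∈ M | s m = σ} = ↑(T.filter fun m => s m = σ) := by
      ext m
      simp [h m]
    rw [e1, ncard_coe_finset, Finset.card_filter]
    push_cast
    rfl
  rw [scnt, e, e, ← Finset.sum_sub_distrib]
  refine Finset.sum_congr rfl fun m _ => ?_
  rcases Int.units_eq_one_or (s m) with h1 | h1 <;> simp [h1]

theorem scnt_empty {ι : Type} (s : ι → ℤˣ) : scnt ∅ s = 0 := by simp [scnt]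

theorem scnt_bijOn {ι κ : Type} {M : Set ι} {M' : Set κ} {f : ι → κ} (h : BijOn f M M') {s : ι → ℤˣ}
    {s' : κ → ℤˣ} (e : ∀ m ∈ M, s' (f m) = s m) : scnt M' s' = scnt M s := by
  have e1 : ∀ σ : ℤˣ, {m ∈ M' | s' m = σ}.ncard = {m ∈ M | s m = σ}.ncard := fun σ => by
    rw [← (h.injOn.mono (sep_subset M fun m => s m = σ)).ncard_image]
    congr 1
    ext k
    constructor
    · rintro ⟨hk, hσ⟩
      obtain ⟨m, hm, rfl⟩ := h.surjOn hk
      exact ⟨m, ⟨hm, (e m hm).symm.trans hσ⟩, rfl⟩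
    · rintro ⟨m, ⟨hm, hσ⟩, rfl⟩
      exact ⟨h.mapsTo hm, (e m hm).trans hσ⟩
  rw [scnt, scnt, e1, e1]

theorem frm_noL {α : Type} [Fintype α] (D : W 2 V →L[ℝ] W 1 V) (K : α → Pl → V) (l : Fin 0 → Pl → V)
    (M : Fin 0 → α → ℝ) :
    Function.Bijective (frm D K l M) ↔ Function.Bijective (D.coprod (kmap K)) :=
  (conj_FinA (f := frm D K l M) (g := D.coprod (kmap K)) (Equiv.refl _) (Equiv.prodUnique _ _)
    fun _ => rfl).1

theorem frm_noK (D : W 2 V →L[ℝ] W 1 V) (K : Fin 0 → Pl → V) (l : Pl → V) (M : Fin 1 → Fin 0 → ℝ) :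
    Function.Bijective (frm D K ![l] M) ↔ Function.Bijective (D.prod (prW l)) :=
  (conj_FinA (Equiv.prodUnique _ _) ((Equiv.refl _).prodCongr (Equiv.funUnique (Fin 1) ℝ))
    fun a => by
      rw [frm_apply]
      simp).1

theorem frm_one (D : W 2 V →L[ℝ] W 1 V) (K l : Pl → V) (m : ℝ) :
    Function.Bijective (frm D ![K] ![l] ![![m]]) ↔ Function.Bijective fun q : W 2 V × ℝ =>
      (D q.1 + q.2 • toW 1 K, prW l q.1 + m * q.2) :=
  (conj_FinA ((Equiv.refl _).prodCongr (Equiv.funUnique (Fin 1) ℝ))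
    ((Equiv.refl _).prodCongr (Equiv.funUnique (Fin 1) ℝ)) fun a => by
      rw [frm_apply]
      simp).1

theorem frm_triv (D : W 2 V →L[ℝ] W 1 V) :
    Function.Bijective (frm D ![0] ![0] ![![1]]) ↔ Function.Bijective D := by
  have e : (fun q : W 2 V × ℝ => (D q.1 + q.2 • toW 1 (0 : Pl → V),
      prW (0 : Pl → V) q.1 + 1 * q.2)) = Prod.map D id := funext fun q => by
    rw [toW_zero_FinA, prW_zero]
    simp [Prod.map]
  rw [frm_one, e, Prod.map_bijective]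
  exact and_iff_left Function.bijective_id

theorem surjective_kmap_one (D : W 2 V →L[ℝ] W 1 V) (K : Pl → V) :
    Function.Surjective (D.coprod (kmap ![K])) ↔
      Function.Surjective fun q : W 2 V × ℝ => D q.1 + q.2 • toW 1 K :=
  (conj_FinA ((Equiv.refl _).prodCongr (Equiv.funUnique (Fin 1) ℝ)) (Equiv.refl _) fun a => by
    simp [kmap_apply]).2

theorem surjective_kmap_zero (D : W 2 V →L[ℝ] W 1 V) :
    Function.Surjective (D.coprod (kmap ![0])) ↔ Function.Surjective D := by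
  have e : (fun q : W 2 V × ℝ => D q.1 + q.2 • toW 1 (0 : Pl → V)) = D ∘ Prod.fst :=
    funext fun q => by
      rw [toW_zero_FinA]
      simp
  rw [surjective_kmap_one, e, Function.Surjective.of_comp_iff _ Prod.fst_surjective]

theorem kr_const (J : ℝ → V → V →L[ℝ] V) (X : Pl → V → V) (r : ℝ) (u : Pl → V) :
    kr J (fun _ => X) r u = 0 := funext fun p => by simp [kr, var, dX]

theorem kr_eq_zero {X : ℝ → Pl → V → V} (h : SmX X) (h0 : ∀ r ≤ 0, X r = X 0)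
    (h1 : ∀ r ≥ 1, X r = X 1) {r : ℝ} (hr : r ∉ Ioo (0 : ℝ) 1) (u : Pl → V) : kr J X r u = 0 := by
  have key : ∀ p z, fderiv ℝ (fun a => X a p z) r = 0 := fun p z => by
    have hd : HasFDerivAt (fun a => X a p z) (fderiv ℝ (fun a => X a p z) r) r :=
      ((h.1.comp (contDiff_id.prodMk (contDiff_const (c := (p, z))))).differentiable
        (by simp) r).hasFDerivAt
    by_cases h2 : r ≤ 0
    · refine (uniqueDiffWithinAt_Iic r).eq hd.hasFDerivWithinAt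
        ((hasFDerivWithinAt_const (X 0 p z) r (Iic r)).congr (fun a ha => ?_) ?_)
      · rw [h0 a (le_trans ha h2)]
      · rw [h0 r h2]
    · have h3 : 1 ≤ r := by
        by_contra h4
        exact hr ⟨not_le.1 h2, not_le.1 h4⟩
      refine (uniqueDiffWithinAt_Ici r).eq hd.hasFDerivWithinAt
        ((hasFDerivWithinAt_const (X 1 p z) r (Ici r)).congr (fun a ha => ?_) ?_)
      · rw [h1 a (le_trans h3 ha)]
      · rw [h1 r h3]
  funext p
  simp [kr, var, dX, key]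

theorem good1_const (J : ℝ → V → V →L[ℝ] V) (X : Pl → V → V) (x y : ℝ → V) :
    Good1 J (fun _ => X) x y ↔ Good0 J X x y := by
  unfold Good1 Good0
  simp only [kr_const, surjective_kmap_zero]
  exact ⟨fun h => h 0, fun h _ => h⟩

theorem KData.fData {X : ℝ → Pl → V → V} (h : KData J X R Y) : FData J X R Y Y :=
  have hY : SP Y := h.left 0 ▸ h.fam.sp_frz 0 (-R)
  ⟨h.acs, h.fam, hY, hY, h.nd, h.nd,
    fun _ _ => ⟨1, one_pos, fun a t z _ => congrFun (congrFun (h.left a) t) z⟩,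
    fun _ _ => ⟨1, one_pos, fun a t z _ => congrFun (congrFun (h.right a) t) z⟩⟩

theorem KData.dX {X : ℝ → Pl → V → V} (h : KData J X R Y) (r v : ℝ) (p : Pl) (z : V)
    (hp : R ≤ |p.1|) : dX X r v p z = 0 := by
  have e : (fun a => X a p z) = fun _ => Y p.2 z := funext fun a => by
    have e1 : frz (X a) p.1 = Y := by
      rcases le_abs'.1 hp with h1 | h1
      · exact (h.fam.left a _ h1).trans (h.left a)
      · exact (h.fam.right a _ h1).trans (h.right a)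
    exact congrFun (congrFun e1 p.2) z
  unfold FH.dX
  rw [e]
  simp

theorem RegA.lo (hJ : ACS Ω0 J) (hY : SP Y) (h : RegA J Y) (A : (ℝ → V) → ℝ) (b : ℝ) : Lo J Y A b :=
  fun x y u _ hx hy hu h0 _ hd => one_le_idx hJ hY hx hy hu h0 (h x y u hx hy hu) hd

theorem cyl_iff_FinA {X : Pl → V → V} (hJ : ACS Ω0 J) (hX : Fld X R)
    (hx : GOrb Ω0 1 (frz X (-R)) x) (hy : GOrb Ω0 1 (frz X R) y)
    (hc : ∀ u, Cyl Ω0 1 J X x y u → Bdd u) : Cyl Ω0 1 J X x y u ↔ Nice J X x y u := by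
  obtain ⟨a, b, c, d⟩ := (pData_fld (Λ := ℝ) hJ hX hx hy).loops
  exact ⟨fun h => nice_of_cyl hJ hX hx hy h (hc u h), fun h => h.cyl hJ a b c d⟩

theorem mem_solT {X : Pl → V → V} (hJ : ACS Ω0 J) (hX : Fld X R) (hx : GOrb Ω0 1 (frz X (-R)) x)
    (hy : GOrb Ω0 1 (frz X R) y) (hc : ∀ u, Cyl Ω0 1 J X x y u → Bdd u) :
    u ∈ SolT Ω0 ⊥ 1 J X x y ↔ Nice J X x y u ∧ Function.Bijective (Du J X u) := by
  refine (and_congr_left' (cyl_iff_FinA hJ hX hx hy hc)).trans (and_congr_right fun h => ?_)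
  rw [ok_lop_iff hJ hX hx hy h.pth, (frm_empty _ _ _ _).2]
  exact ⟨fun h => h.2.2, fun h => ⟨tf_nil_FinA, tf_nil_FinA, h⟩⟩

theorem PData.isK_iff {X : ℝ → Pl → V → V} (h : PData J X R Y Y' x y) {r : ℝ} : IsK J X x y r u ↔
    Nice J (X r) x y u ∧ Function.Bijective ((Du J (X r) u).coprod (kmap ![kr J X r u])) := by
  have key := fun hu : Nice J (X r) x y u => ok_lop_iff h.acs (h.fam.fld r) (h.gorb r).1
    (h.gorb r).2 hu.pth ![kr J X r u] ![] ![]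
  exact ⟨fun k => ⟨k.nice, (frm_noL _ _ _ _).1 ((key k.nice).1 k.ok).2.2⟩, fun k =>
    ⟨k.1, (key k.1).2 ⟨tf_one_FinA.2 (h.var_mem k.1.pth r 1), tf_nil_FinA,
      (frm_noL _ _ _ _).2 k.2⟩⟩⟩

theorem PData.isK_iff' {X : ℝ → Pl → V → V} (h : PData J X R Y Y' x y) {r : ℝ} : IsK J X x y r u ↔
    Nice J (X r) x y u ∧ HasIdx (Du J (X r) u) (-1) ∧
      Function.Surjective ((Du J (X r) u).coprod (kmap ![kr J X r u])) := by
  rw [h.isK_iff]
  refine and_congr_right fun _ => ⟨fun k => ⟨?_, k.2⟩, fun k => ?_⟩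
  · simpa using hasIdx_of_frm ((frm_noL _ _ ![] ![]).2 k)
  · have k1 := k.1.coprod (kmap ![kr J X r u])
    rw [show (-1 : ℤ) + (Module.finrank ℝ (Fin 1 → ℝ) : ℕ) = 0 by simp] at k1
    exact k1.bijective_iff.1.1 k.2

theorem PData.mem_solK {X : ℝ → Pl → V → V} (h : PData J X R Y Y' x y)
    (hc : ∀ r u, Cyl Ω0 1 J (X r) x y u → Bdd u) {m : ℝ × (Pl → V)} :
    m ∈ SolK Ω0 ⊥ 1 J X x y ↔ IsK J X x y m.1 m.2 := by
  have key := cyl_iff_FinA (u := m.2) h.acs (h.fam.fld m.1) (h.gorb m.1).1 (h.gorb m.1).2 (hc m.1)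
  exact ⟨fun k => ⟨key.1 k.1, k.2⟩, fun k => ⟨key.2 k.nice, k.ok⟩⟩

theorem mem_solN (hJ : ACS Ω0 J) (hY : SP Y) (hx : GOrb Ω0 1 Y x) (hy : GOrb Ω0 1 Y y)
    (hc : ∀ u, Cyl Ω0 1 J (sta Y) x y u → Bdd u) {σ : ℤˣ} : v ∈ SolN Ω0 ⊥ o 1 J Y x y σ ↔
      ∃ l, IsN J Y x y v l ∧ o 0 1 (lop 1 J (sta Y) x y v ![] ![l] ![![]]) = σ := by
  have key := cyl_iff_FinA (u := v) hJ (fld_sta hY le_rfl) hx hy hc
  exact ⟨fun ⟨k, l, k1, k2, k3⟩ => ⟨l, ⟨key.1 k, k1, k2⟩, k3⟩,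
    fun ⟨l, k, k3⟩ => ⟨key.2 k.nice, l, k.pos, k.ok, k3⟩⟩

theorem IsN.props (h : IsN J Y x y v l) (hJ : ACS Ω0 J) (hY : SP Y) (hx : GOrb Ω0 1 Y x)
    (hy : GOrb Ω0 1 Y y) : l ∈ Dsub V ∧ ds v ≠ 0 ∧ HasIdx (Du J (sta Y) v) 1 ∧
      Function.Surjective (Du J (sta Y) v) := by
  obtain ⟨-, k1, k2⟩ := (ok_lop_iff hJ (fld_sta hY le_rfl) hx hy h.nice.pth _ _ _).1 h.ok
  refine ⟨tf_one_FinA.1 k1, fun e => ?_, by simpa using hasIdx_of_frm k2, fun w => ?_⟩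
  · have k3 := h.pos
    rw [e, pair_zero_left] at k3
    exact lt_irrefl _ k3
  · obtain ⟨ξ, hξ⟩ := ((frm_noK _ _ _ _).1 k2).2 (w, 0)
    exact ⟨ξ, congrArg Prod.fst hξ⟩

theorem exists_isN (hJ : ACS Ω0 J) (hY : SP Y) (hx : GOrb Ω0 1 Y x) (hy : GOrb Ω0 1 Y y)
    (h : Nice J (sta Y) x y v) (h1 : HasIdx (Du J (sta Y) v) 1)
    (hs : Function.Surjective (Du J (sta Y) v)) : ∃ l, IsN J Y x y v l := by
  obtain ⟨-, k1, k2⟩ := ds_ker hJ hY hx.1 hy.1 h
  have h0 : ds v ≠ 0 := fun e => by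
    have k3 := (h.pth.eq_of_ds (Orb.contDiff hY.1 hx.1) (Orb.contDiff hY.1 hy.1) (Orb.per hx.1)
      (Orb.per hy.1) e).1
    rw [k3] at h1
    exact one_ne_zero (h1.unique (hasIdx_zero_of_bijective (bijective_const hJ hY hx)))
  obtain ⟨l, hl, hp⟩ := exists_prW_pos
    (mt (k1.eq_zero h.bdd.ds.1.continuous h.per.ds).1 h0)
  exact ⟨l, h, k1.prW hl ▸ hp, (ok_lop_iff hJ (fld_sta hY le_rfl) hx hy h.pth _ _ _).2
    ⟨tf_nil_FinA, tf_one_FinA.2 hl, (frm_noK _ _ _ _).2 (h1.bijective_prod hs k2 hp.ne')⟩⟩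

theorem IsN.sign (ho : Coh Ω0 ⊥ o) (hJ : ACS Ω0 J) (hY : SP Y) (hx : GOrb Ω0 1 Y x)
    (hy : GOrb Ω0 1 Y y) {l' : Pl → V} (h : IsN J Y x y v l) (h' : IsN J Y x y v l') :
    o 0 1 (lop 1 J (sta Y) x y v ![] ![l] ![![]]) = o 0 1 (lop 1 J (sta Y) x y v ![] ![l'] ![![]]) := by
  obtain ⟨hl, -, h1, hs⟩ := h.props hJ hY hx hy
  have hl' := (h'.props hJ hY hx hy).1
  obtain ⟨-, k1, k2⟩ := ds_ker hJ hY hx.1 hy.1 h.nice
  refine ((pData_fld (Λ := ℝ) hJ (fld_sta hY le_rfl) hx hy).sign_path ho (p := 0) (p' := 0)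
    h.nice.pth h.nice.pth (K := fun _ => ![]) (fun _ => tf_nil_FinA) (tf_one_FinA.2 hl)
    (tf_one_FinA.2 hl') (fun _ i => i.elim0) fun τ hτ => ?_).symm
  have e : (![l] + τ • (![l'] - ![l]) : Fin 1 → Pl → V) = ![(1 - τ) • l + τ • l'] :=
    funext fun i => by
      obtain rfl := Subsingleton.elim i 0
      change l + τ • (l' - l) = (1 - τ) • l + τ • l'
      module
  rw [sub_self v, smul_zero, add_zero, e, frm_noK]
  refine h1.bijective_prod hs k2 (ne_of_gt ?_)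
  rw [prW_add (Submodule.smul_mem _ _ hl) (Submodule.smul_mem _ _ hl'), prW_smul _ hl,
    prW_smul _ hl', add_apply, smul_apply, smul_apply, k1.prW hl, k1.prW hl', smul_eq_mul, smul_eq_mul]
  have a := h.pos
  have b := h'.pos
  rcases eq_or_lt_of_le hτ.1 with c | c
  · rw [← c]
    linarith
  · exact add_pos_of_nonneg_of_pos (mul_nonneg (sub_nonneg.2 hτ.2) a.le) (mul_pos c b)

theorem IsN.tsl (ho : Coh Ω0 ⊥ o) (hY : SP Y) (hx : Orb 1 Y x) (hy : Orb 1 Y y)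
    (h : IsN J Y x y v l) (s : ℝ) : IsN J Y x y (tsl (s, 0) v) (tsl (s, 0) l) ∧
      o 0 1 (lop 1 J (sta Y) x y (tsl (s, 0) v) ![] ![tsl (s, 0) l] ![![]]) =
        o 0 1 (lop 1 J (sta Y) x y v ![] ![l] ![![]]) := by
  have e : trOp s (lop 1 J (sta Y) x y v ![] ![l] ![![]]) =
      lop 1 J (sta Y) x y (FH.tsl (s, 0) v) ![] ![FH.tsl (s, 0) l] ![![]] := by
    rw [trOp_lop, tsl_sta]
    congr 1
    · exact funext fun i => i.elim0
    · funext i
      obtain rfl := Subsingleton.elim i 0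
      rfl
  have hl : l ∈ Dsub V := tst_one_iff.1 (h.ok.1.tst.2 0)
  refine ⟨⟨h.nice.tsl (Orb.contDiff hY.1 hx) (Orb.contDiff hY.1 hy) s, ?_, e ▸ Ok.trOp h.ok s⟩,
    e ▸ sign_trOp ho h.ok s⟩
  rw [ds_tsl, pair_tsl h.nice.bdd.ds.1.continuous h.nice.per.ds hl]
  exact h.pos

end

end Pool.Agent.P.MP_de3acd_gt.FH
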