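import Pool.Agent.P.MP_de3acd_gt.FH.Pr
import Pool.Agent.P.MP_de3acd_gt.FH.UF
import Pool.Agent.P.MP_de3acd_gt.FH.Defs4

/-! The glued field and the preglued map.
Sketch: nk_ctl: exists_clamp, 𝕏 t ((σ₁, σ₂), z) = X₁ (σ₁, t) z + X₂ (σ₂, t) z - Y t z. prC_nk: prC_coef with the controls
(ρ (s + ϱ₁), ρ (s - ϱ₂)), which agree with the translated controls of the pieces on reg for S ≥ R + 2.
cr_pre: on I = Iic (ϱ₂ - S) the field is tsl X₁ and w = a + η with a = tsl g₁ a solution, η = tsl (g₂ - lp y); cr (a + η) - cr a =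
ds η + J (a+η) (dt η) + (G (κ, a, dt a, η) - G (κ, a, dt a, 0)), so nrm 1 (cr w) I ≤ C nrm 2 η I: write G (c, η) - G (c, 0) = H (c, η) η with
H (c, η) = ∫_0^1 D₂G (c, τ η) dτ (SP; or avoid H by the pointwise bound ‖D^i (G (c, η) - G (c, 0))‖ ≤ C (‖η‖ + ‖ds η‖ + ‖dt η‖), i ≤ 1, from
Lipschitz bounds for G and fderiv G on bounded sets). Pth.tail, nrm_tsl; the two regions cover ℝ. -/

open Set Filter Topology MeasureTheory
open scoped ContDiff NNReal ENNReal RealInnerProductSpace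

namespace Pool.Agent.P.MP_de3acd_gt.FH

noncomputable section

variable {V : Type} [NormedAddCommGroup V] [InnerProductSpace ℝ V] [Sym V]
variable {J : ℝ → V → V →L[ℝ] V} {X₁ X₂ : Pl → V → V} {Y : ℝ → V → V} {R : ℝ} {x y z : ℝ → V}
  {g₁ g₂ : Pl → V} {N : Type} {l : Filter N} {ϱ₁ ϱ₂ : N → ℝ}

section aux

variable {F F₁ C : Type} [NormedAddCommGroup F] [NormedSpace ℝ F] [NormedAddCommGroup F₁]
  [NormedSpace ℝ F₁] [NormedAddCommGroup C] [NormedSpace ℝ C] [FiniteDimensional ℝ C]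

theorem nk_apply_Pre (X₁ X₂ : Pl → F → F) (Y : ℝ → F → F) (a b s t : ℝ) :
    nk X₁ X₂ Y a b (s, t) = frz X₁ (s + a) t + frz X₂ (s - b) t - Y t := by
  simp only [nk, tsl, sta, frz, Pi.sub_apply, Pi.add_apply, Prod.mk_add_mk, add_zero,
    sub_eq_add_neg]

theorem two_Pre {h : Pl → F} {e e' : Pl → F₁} {I : Set ℝ} (hI : MeasurableSet I)
    (he : Continuous e) {K : ℝ} (hb : ∀ p : Pl, p.1 ∈ I → ‖h p‖ ≤ K * (‖e p‖ + ‖e' p‖)) :
    nrm 0 h I ≤ ENNReal.ofReal (2 * K ^ 2) * (nrm 0 e I + nrm 0 e' I) := by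
  rw [nrm_zero, nrm_zero, nrm_zero, ← lintegral_add_left (he.enorm.measurable.pow_const 2),
    ← lintegral_const_mul' _ _ ENNReal.ofReal_ne_top]
  refine setLIntegral_mono' (hI.prod measurableSet_Icc) fun p hp => ?_
  rw [en_EstL, en_EstL, en_EstL, ← ENNReal.ofReal_add (by positivity) (by positivity),
    ← ENNReal.ofReal_mul (by positivity)]
  refine ENNReal.ofReal_le_ofReal ((pow_le_pow_left₀ (norm_nonneg _) (hb p hp.1) 2).trans ?_)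
  nlinarith only [mul_nonneg (sq_nonneg K) (sq_nonneg (‖e p‖ - ‖e' p‖))]

theorem nrm_prod_Pre (k : ℕ) (I : Set ℝ) : ∀ (f : Pl → F) (g : Pl → F₁), ContDiff ℝ ∞ f →
    ContDiff ℝ ∞ g → nrm k (fun p => (f p, g p)) I ≤ nrm k f I + nrm k g I := by
  have h0 : ∀ (f : Pl → F) (g : Pl → F₁), ContDiff ℝ ∞ f →
      nrm 0 (fun p => (f p, g p)) I ≤ nrm 0 f I + nrm 0 g I := fun f g hf => by
    rw [nrm_zero, nrm_zero, nrm_zero,
      ← lintegral_add_left (hf.continuous.enorm.measurable.pow_const 2)]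
    refine lintegral_mono fun p => ?_
    show ‖(f p, g p)‖ₑ ^ 2 ≤ ‖f p‖ₑ ^ 2 + ‖g p‖ₑ ^ 2
    rw [en_EstL, en_EstL, en_EstL, ← ENNReal.ofReal_add (by positivity) (by positivity),
      Prod.norm_mk]
    refine ENNReal.ofReal_le_ofReal ?_
    rcases le_total ‖f p‖ ‖g p‖ with e | e
    · rw [max_eq_right e]
      exact le_add_of_nonneg_left (by positivity)
    · rw [max_eq_left e]
      exact le_add_of_nonneg_right (by positivity)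
  induction k with
  | zero => exact fun f g hf _ => h0 f g hf
  | succ k ih =>
    intro f g hf hg
    have e1 : ds (fun p => (f p, g p)) = fun p => (ds f p, ds g p) := fd_prod_JetC hf hg _
    have e2 : dt (fun p => (f p, g p)) = fun p => (dt f p, dt g p) := fd_prod_JetC hf hg _
    rw [nrm_succ, nrm_succ, nrm_succ, e1, e2]
    refine (add_le_add (add_le_add (h0 f g hf) (ih _ _ (contDiff_ds hf) (contDiff_ds hg)))
      (ih _ _ (contDiff_dt hf) (contDiff_dt hg))).trans (le_of_eq ?_)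
    ring

theorem comp_sub_Pre {g : ℝ → C → F} (hg : SP g) (A : ℝ) : ∃ K : ℝ≥0∞, K ≠ ⊤ ∧
    ∀ (c c' : Pl → C) (I : Set ℝ), MeasurableSet I → ContDiff ℝ ∞ c → ContDiff ℝ ∞ c' →
      Cn 1 c I A → Cn 1 c' I A →
        nrm 1 ((fun p : Pl => g p.2 (c p)) - fun p : Pl => g p.2 (c' p)) I ≤
          K * nrm 1 (c - c') I := by
  obtain ⟨L₀, p₀, h₀⟩ := hg.lip_JetC A
  obtain ⟨L₁, p₁, h₁⟩ := hg.tot_JetC.lip_JetC A
  obtain ⟨M, pM, hM⟩ := hg.tot_JetC.bound_JetC A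
  obtain ⟨K, hK⟩ : ∃ K, K = L₀ + L₁ * max A 1 + M := ⟨_, rfl⟩
  have pA : 0 ≤ max A 1 := le_max_of_le_right zero_le_one
  have pL := mul_nonneg p₁ pA
  refine ⟨ENNReal.ofReal (2 * K ^ 2) * 6, ENNReal.mul_ne_top ENNReal.ofReal_ne_top (by norm_num),
    fun c c' I hI hc hc' b b' => ?_⟩
  have c1 := hg.contDiff_comp hc
  have c2 := hg.contDiff_comp hc'
  have ce : Continuous (c - c') := (hc.sub hc').continuous
  have key : ∀ v : Pl, ‖v.2‖ ≤ 1 → ∀ p : Pl, p.1 ∈ I → ‖fderiv ℝ c p v‖ ≤ A →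
      ‖fderiv ℝ (fun p : Pl => g p.2 (c p)) p v - fderiv ℝ (fun p : Pl => g p.2 (c' p)) p v‖ ≤
        K * (‖(c - c') p‖ + ‖fderiv ℝ c p v - fderiv ℝ c' p v‖) := fun v hv p hp hA => by
    rw [congrFun (fd_comp_JetC hg hc v) p, congrFun (fd_comp_JetC hg hc' v) p]
    have e : tot_JetC g p.2 (c p) (v.2, fderiv ℝ c p v) -
        tot_JetC g p.2 (c' p) (v.2, fderiv ℝ c' p v) =
          (tot_JetC g p.2 (c p) - tot_JetC g p.2 (c' p)) (v.2, fderiv ℝ c p v) +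
            tot_JetC g p.2 (c' p) ((v.2, fderiv ℝ c p v) - (v.2, fderiv ℝ c' p v)) := by
      rw [ContinuousLinearMap.sub_apply, map_sub]
      abel
    have n1 : ‖((v.2, fderiv ℝ c p v) : ℝ × C)‖ ≤ max A 1 := by
      rw [Prod.norm_mk, max_comm]
      exact max_le_max hA hv
    have n2 : ‖((v.2, fderiv ℝ c p v) : ℝ × C) - (v.2, fderiv ℝ c' p v)‖ =
        ‖fderiv ℝ c p v - fderiv ℝ c' p v‖ := by
      rw [Prod.mk_sub_mk, sub_self, Prod.norm_mk, norm_zero, max_eq_right (norm_nonneg _)]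
    have n3 := (tot_JetC g p.2 (c p) - tot_JetC g p.2 (c' p)).le_of_opNorm_le_of_le
      (h₁ p.2 _ _ (b.le hp) (b'.le hp)) n1
    have n4 := (tot_JetC g p.2 (c' p)).le_of_opNorm_le_of_le (hM p.2 _ (b'.le hp)) n2.le
    rw [e]
    refine (norm_add_le_of_le n3 n4).trans ?_
    rw [hK, Pi.sub_apply]
    have q1 := norm_nonneg (c p - c' p)
    have q2 := norm_nonneg (fderiv ℝ c p v - fderiv ℝ c' p v)
    nlinarith only [mul_nonneg p₀ q1, mul_nonneg p₀ q2, mul_nonneg pL q2, mul_nonneg pM q1]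
  have t0 := two_Pre (h := (fun p : Pl => g p.2 (c p)) - fun p : Pl => g p.2 (c' p))
    (e' := c - c') hI ce (K := K) fun p hp => (h₀ p.2 _ _ (b.le hp) (b'.le hp)).trans (by
      rw [hK, Pi.sub_apply]
      have q1 := norm_nonneg (c p - c' p)
      nlinarith only [mul_nonneg p₀ q1, mul_nonneg pL q1, mul_nonneg pM q1])
  have t1 := two_Pre (h := ds ((fun p : Pl => g p.2 (c p)) - fun p : Pl => g p.2 (c' p)))
    (e' := ds (c - c')) hI ce (K := K) fun p hp => by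
      rw [ds_sub_JetC c1 c2, ds_sub_JetC hc hc']
      exact key (1, 0) (by simp) p hp (b.2.1 p hp)
  have t2 := two_Pre (h := dt ((fun p : Pl => g p.2 (c p)) - fun p : Pl => g p.2 (c' p)))
    (e' := dt (c - c')) hI ce (K := K) fun p hp => by
      rw [dt_sub_JetC c1 c2, dt_sub_JetC hc hc']
      exact key (0, 1) (by simp) p hp (b.2.2 p hp)
  have u0 : nrm 0 (c - c') I ≤ nrm 1 (c - c') I := nrm_mono _ zero_le_one Subset.rfl
  have u1 : nrm 0 (ds (c - c')) I ≤ nrm 1 (c - c') I := le_add_self.trans le_self_add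
  have u2 : nrm 0 (dt (c - c')) I ≤ nrm 1 (c - c') I := le_add_self
  refine (add_le_add (add_le_add (t0.trans (mul_le_mul_right (add_le_add u0 u0) _))
    (t1.trans (mul_le_mul_right (add_le_add u0 u1) _)))
      (t2.trans (mul_le_mul_right (add_le_add u0 u2) _))).trans (le_of_eq ?_)
  ring

theorem cr_sub_Pre (hJ : SP J) {𝕏 : ℝ → C × V → V} (hX : SP 𝕏) (A : ℝ) : ∃ K : ℝ≥0∞, K ≠ ⊤ ∧
    ∀ (κ : Pl → C) (u a : Pl → V) (I : Set ℝ), MeasurableSet I → ContDiff ℝ ∞ κ →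
      ContDiff ℝ ∞ u → ContDiff ℝ ∞ a → Cn 1 κ I A → Cn 2 u I A → Cn 2 a I A →
        nrm 1 (cr J (ctl 𝕏 κ) u - cr J (ctl 𝕏 κ) a) I ≤ K * nrm 2 (u - a) I := by
  have hG : SP fun (t : ℝ) (q : C × V × V × V) =>
      q.2.2.1 + J t q.2.1 (q.2.2.2 - 𝕏 t (q.1, q.2.1)) :=
    ⟨contDiff_snd.snd.snd.fst.add ((hJ.1.comp (contDiff_fst.prodMk contDiff_snd.snd.fst)).clm_apply
      (contDiff_snd.snd.snd.snd.sub (hX.1.comp
        (contDiff_fst.prodMk (contDiff_snd.fst.prodMk contDiff_snd.snd.fst))))),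
      fun t => by simp only [hJ.2 t, hX.2 t]⟩
  obtain ⟨K, hK, H⟩ := comp_sub_Pre hG A
  refine ⟨K * 2, ENNReal.mul_ne_top hK (by norm_num), fun κ u a I hI hκ hu ha b₀ b₁ b₂ => ?_⟩
  have cc : ∀ {w : Pl → V}, ContDiff ℝ ∞ w → ContDiff ℝ ∞ fun p => (w p, ds w p, dt w p) :=
    fun hw => hw.prodMk ((contDiff_ds hw).prodMk (contDiff_dt hw))
  have bb : ∀ {w : Pl → V}, ContDiff ℝ ∞ w → Cn 2 w I A →
      Cn 1 (fun p => (κ p, w p, ds w p, dt w p)) I A := fun hw b =>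
    Cn.prod hκ (cc hw) b₀ (Cn.prod hw ((contDiff_ds hw).prodMk (contDiff_dt hw)) b.pred_JetC
      (Cn.prod (contDiff_ds hw) (contDiff_dt hw) b.2.1 b.2.2))
  refine (H _ _ I hI (hκ.prodMk (cc hu)) (hκ.prodMk (cc ha)) (bb hu b₁) (bb ha b₂)).trans ?_
  have e : ((fun p => (κ p, u p, ds u p, dt u p)) - fun p => (κ p, a p, ds a p, dt a p)) =
      fun p => ((0 : Pl → C) p, (u - a) p, ds (u - a) p, dt (u - a) p) := by
    funext p
    rw [ds_sub_JetC hu ha, dt_sub_JetC hu ha]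
    simp
  have hη : ContDiff ℝ ∞ (u - a) := hu.sub ha
  rw [e, mul_assoc]
  refine mul_le_mul_right ((nrm_prod_Pre 1 I (0 : Pl → C) _ contDiff_const (cc hη)).trans ?_) _
  rw [nrm_zero_fun, zero_add, two_mul]
  refine (nrm_prod_Pre 1 I _ _ hη ((contDiff_ds hη).prodMk (contDiff_dt hη))).trans
    (add_le_add (nrm_mono _ one_le_two Subset.rfl)
      ((nrm_prod_Pre 1 I _ _ (contDiff_ds hη) (contDiff_dt hη)).trans ?_))
  rw [nrm_succ 1, add_assoc]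
  exact le_add_self

theorem bound_Pre {v v' : Pl → V} (h : Pth x y v) (h' : Pth x y v') (hx : ContDiff ℝ ∞ x)
    (hy : ContDiff ℝ ∞ y) (px : ∀ t, x (t + 1) = x t) (py : ∀ t, y (t + 1) = y t) (hxy : x ≠ y) :
    ∃ ε > 0, ∃ B, ∀ s : ℝ, (∀ p, ‖v p - tsl (s, 0) v' p‖ ≤ ε) → s ∈ Icc (-B) B := by
  obtain ⟨t, ht⟩ := Function.ne_iff.1 hxy
  have hd : 0 < ‖x t - y t‖ / 4 := by
    have := norm_pos_iff.2 (sub_ne_zero.2 ht)
    positivity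
  obtain ⟨R, a₁, a₂⟩ := h.cn hx hy px py 0 hd
  obtain ⟨R', b₁, b₂⟩ := h'.cn hx hy px py 0 hd
  refine ⟨_, hd, R + R', fun s hs => ⟨le_of_not_gt fun c => ?_, le_of_not_gt fun c => ?_⟩⟩
  · have e1 : ‖v (R, t) - y t‖ ≤ _ := a₂ (R, t) (mem_Ici.2 le_rfl)
    have e2 : ‖v' (R + s, t) - x t‖ ≤ _ := b₁ (R + s, t) (mem_Iic.2 (by linarith only [c]))
    have e3 := hs (R, t)
    simp only [tsl, Prod.mk_add_mk, add_zero] at e3
    have e4 : x t - y t = (v (R, t) - y t) - (v' (R + s, t) - x t) - (v (R, t) - v' (R + s, t)) := by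
      abel
    have e5 := norm_sub_le_of_le (norm_sub_le_of_le e1 e2) e3
    rw [← e4] at e5
    linarith only [e5, hd]
  · have e1 : ‖v (-R, t) - x t‖ ≤ _ := a₁ (-R, t) (mem_Iic.2 le_rfl)
    have e2 : ‖v' (-R + s, t) - y t‖ ≤ _ := b₂ (-R + s, t) (mem_Ici.2 (by linarith only [c]))
    have e3 := hs (-R, t)
    simp only [tsl, Prod.mk_add_mk, add_zero] at e3
    have e4 : x t - y t =
        (v' (-R + s, t) - y t) - (v (-R, t) - x t) + (v (-R, t) - v' (-R + s, t)) := by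
      abel
    have e5 := norm_add_le_of_le (norm_sub_le_of_le e2 e1) e3
    rw [← e4] at e5
    linarith only [e5, hd]

end aux

theorem nk_left (X₂ : Pl → V → V) (Y : ℝ → V → V) (ϱ : ℝ) : nk (sta Y) X₂ Y ϱ 0 = X₂ := by
  rw [nk, tsl_sta, neg_zero, Prod.mk_zero_zero, tsl_zero, add_sub_cancel_left]

theorem nk_right (X₁ : Pl → V → V) (Y : ℝ → V → V) (ϱ : ℝ) : nk X₁ (sta Y) Y 0 ϱ = X₁ := by
  rw [nk, tsl_sta, Prod.mk_zero_zero, tsl_zero, add_sub_cancel_right]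

theorem nk_ctl (h₁ : Fld X₁ R) (h₂ : Fld X₂ R) (e₁ : frz X₁ R = Y) (e₂ : frz X₂ (-R) = Y) :
    ∃ (𝕏 : ℝ → (ℝ × ℝ) × V → V) (ρ : ℝ → ℝ), SP 𝕏 ∧ Bdd (fun p : Pl => ρ p.1) ∧
      (∀ s, R + 1 ≤ s → ρ s = R + 1) ∧ (∀ s, s ≤ -(R + 1) → ρ s = -(R + 1)) ∧
      (∀ a b, nk X₁ X₂ Y a b = ctl 𝕏 fun p => (ρ (p.1 + a), ρ (p.1 - b))) ∧
      (X₁ = ctl 𝕏 fun p => (ρ p.1, -(R + 1))) ∧ X₂ = ctl 𝕏 fun p => (R + 1, ρ p.1) := by
  obtain ⟨ρ, h1, h2, h3, h4, h5, h6⟩ := exists_clamp h₁.nonneg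
  have hY : SP Y := e₁ ▸ Fam.sp_frz h₁ 0 R
  have k : ∀ {X : Pl → V → V}, Fld X R → ∀ s, frz X (ρ s) = frz X s := fun h s => by
    rcases le_total R s with e | e
    · exact (h.right 0 _ (h3 _ e)).trans (h.right 0 _ e).symm
    rcases le_total s (-R) with e' | e'
    · exact (h.left 0 _ (h4 _ e')).trans (h.left 0 _ e').symm
    · rw [h2 _ (abs_le.2 ⟨e', e⟩)]
  have c : ∀ {X : Pl → V → V}, Fld X R → ∀ {f : ℝ × (ℝ × ℝ) × V → ℝ}, ContDiff ℝ ∞ f →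
      ContDiff ℝ ∞ fun q : ℝ × (ℝ × ℝ) × V => frz X (f q) q.1 q.2.2 := fun h f hf =>
    h.smooth.comp ((contDiff_const (c := (0 : ℝ))).prodMk
      ((hf.prodMk contDiff_fst).prodMk contDiff_snd.snd))
  have f₁ : frz X₁ (R + 1) = Y := (h₁.right 0 _ (by linarith only [])).trans e₁
  have f₂ : frz X₂ (-(R + 1)) = Y := (h₂.left 0 _ (by linarith only [])).trans e₂
  refine ⟨fun t q => frz X₁ q.1.1 t q.2 + frz X₂ q.1.2 t q.2 - Y t q.2, ρ,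
    ⟨((c h₁ contDiff_snd.fst.fst).add (c h₂ contDiff_snd.fst.snd)).sub
      (hY.1.comp (contDiff_fst.prodMk contDiff_snd.snd)), fun t => ?_⟩, h1, h5, h6,
    fun a b => ?_, ?_, ?_⟩
  · funext q
    beta_reduce
    rw [(Fam.sp_frz h₁ 0 _).2 t, (Fam.sp_frz h₂ 0 _).2 t, hY.2 t]
  · funext p z
    rw [show p = (p.1, p.2) from rfl, nk_apply_Pre]
    simp only [ctl, k h₁, k h₂, Pi.sub_apply, Pi.add_apply]
  · funext p z
    simp only [ctl, k h₁, f₂, add_sub_cancel_right]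
    rfl
  · funext p z
    simp only [ctl, k h₂, f₁, add_sub_cancel_left]
    rfl

theorem fld_nk (h₁ : Fld X₁ R) (h₂ : Fld X₂ R) (e₁ : frz X₁ R = Y) (e₂ : frz X₂ (-R) = Y)
    (a b : ℝ) : Fld (nk X₁ X₂ Y a b) (R + |a| + |b|) ∧
      frz (nk X₁ X₂ Y a b) (-(R + |a| + |b|)) = frz X₁ (-R) ∧
        frz (nk X₁ X₂ Y a b) (R + |a| + |b|) = frz X₂ R := by
  have hY : SP Y := e₁ ▸ Fam.sp_frz h₁ 0 R
  have a1 := le_abs_self a
  have a2 := neg_abs_le a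
  have b1 := le_abs_self b
  have b2 := neg_abs_le b
  have hl : ∀ s, s ≤ -(R + |a| + |b|) → frz (nk X₁ X₂ Y a b) s = frz X₁ (-R) := fun s hs => by
    funext t
    have f₁ : frz X₁ (s + a) = frz X₁ (-R) := h₁.left 0 _ (by linarith only [hs, a1, b1, b2])
    have f₂ : frz X₂ (s - b) = Y := (h₂.left 0 _ (by linarith only [hs, a1, a2, b2])).trans e₂
    rw [frz, nk_apply_Pre, f₁, f₂, add_sub_cancel_right]
  have hr : ∀ s, R + |a| + |b| ≤ s → frz (nk X₁ X₂ Y a b) s = frz X₂ R := fun s hs => by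
    funext t
    have f₁ : frz X₁ (s + a) = Y := (h₁.right 0 _ (by linarith only [hs, a2, b1, b2])).trans e₁
    have f₂ : frz X₂ (s - b) = frz X₂ R := h₂.right 0 _ (by linarith only [hs, a1, a2, b1])
    rw [frz, nk_apply_Pre, f₁, f₂, add_sub_cancel_left]
  have c : ∀ {X : Pl → V → V}, Fld X R → ∀ v : Pl,
      ContDiff ℝ ∞ fun q : ℝ × Pl × V => X (q.2.1 + v) q.2.2 := fun h v =>
    h.smooth.comp (contDiff_fst.prodMk
      ((contDiff_snd.fst.add contDiff_const).prodMk contDiff_snd.snd))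
  refine ⟨⟨by linarith only [h₁.nonneg, a1, a2, b1, b2], ((c h₁ _).add (c h₂ _)).sub
    (hY.1.comp (contDiff_snd.fst.snd.prodMk contDiff_snd.snd)), fun _ s t => ?_,
    fun _ s hs => (hl s hs).trans (hl _ le_rfl).symm,
    fun _ s hs => (hr s hs).trans (hr _ le_rfl).symm⟩, hl _ le_rfl, hr _ le_rfl⟩
  rw [nk_apply_Pre, nk_apply_Pre, (Fam.sp_frz h₁ 0 _).2 t, (Fam.sp_frz h₂ 0 _).2 t, hY.2 t]

theorem prC_nk (hJ : SP J) (h₁ : Fld X₁ R) (h₂ : Fld X₂ R) (e₁ : frz X₁ R = Y)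
    (e₂ : frz X₂ (-R) = Y) (b₁ : Bdd g₁) (b₂ : Bdd g₂) {u : N → Pl → V}
    (hu : ∀ n, ContDiff ℝ ∞ (u n)) (e : PrC 2 l (fun n => ![-ϱ₁ n, ϱ₂ n]) u ![g₁, g₂]) :
    PrC 1 l (fun n => ![-ϱ₁ n, ϱ₂ n]) (fun n => cJ J (u n)) ![cJ J g₁, cJ J g₂] ∧
      PrC 1 l (fun n => ![-ϱ₁ n, ϱ₂ n]) (fun n => cS J (nk X₁ X₂ Y (ϱ₁ n) (ϱ₂ n)) (u n))
        ![cS J X₁ g₁, cS J X₂ g₂] := by
  obtain ⟨𝕏, ρ, hX, bρ, r₁, r₂, k, k₁, k₂⟩ := nk_ctl h₁ h₂ e₁ e₂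
  have cρ : ∀ a : ℝ, ContDiff ℝ ∞ fun p : Pl => ρ (p.1 + a) := fun a => contDiff_tsl bρ.1 (a, 0)
  have z : ∀ {f : Pl → ℝ × ℝ} {I U : Set ℝ} {ε : ℝ}, 0 < ε → IsOpen U → I ⊆ U →
      (∀ p : Pl, p.1 ∈ U → f p = 0) → Cn 1 f I ε := fun hε hU hI hf =>
    ((cn_const 1 (0 : ℝ × ℝ) _).up_JetC (by simpa using hε.le)).congr fun p hp =>
      (continuous_fst.continuousAt.eventually (hU.mem_nhds (hI hp))).mono fun q hq => (hf q hq).symm
  have H := prC_coef (l := l) (σ := fun n => ![-ϱ₁ n, ϱ₂ n]) hJ hX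
    (κ := fun n p => (ρ (p.1 + ϱ₁ n), ρ (p.1 - ϱ₂ n)))
    (κ' := ![fun p => (ρ p.1, -(R + 1)), fun p => (R + 1, ρ p.1)])
    (fun n => (cρ _).prodMk (by simpa only [sub_eq_add_neg] using cρ (-ϱ₂ n)))
    (Fin.forall_fin_two.2 ⟨bρ.prod (bdd_const _), (bdd_const _).prod bρ⟩) hu
    (Fin.forall_fin_two.2 ⟨b₁, b₂⟩) (fun ε hε => ⟨R + 2, Eventually.of_forall fun n =>
      Fin.forall_fin_two.2 ⟨z hε isOpen_Iio (U := Iio (ϱ₂ n - (R + 1))) (fun s hs => ?_)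
        fun p hp => ?_, z hε isOpen_Ioi (U := Ioi (-ϱ₁ n + (R + 1))) (fun s hs => ?_)
          fun p hp => ?_⟩⟩) e
  · have q₁ : (fun i => cJ J (![g₁, g₂] i)) = ![cJ J g₁, cJ J g₂] :=
      funext (Fin.forall_fin_two.2 ⟨rfl, rfl⟩)
    have q₂ : (fun i => cS J (ctl 𝕏 ((![fun p => (ρ p.1, -(R + 1)), fun p => (R + 1, ρ p.1)] :
        Fin 2 → Pl → ℝ × ℝ) i)) (![g₁, g₂] i)) = ![cS J X₁ g₁, cS J X₂ g₂] :=
      funext (Fin.forall_fin_two.2 ⟨congrArg (fun X => cS J X g₁) k₁.symm,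
        congrArg (fun X => cS J X g₂) k₂.symm⟩)
    rw [q₁, q₂] at H
    simpa only [k] using H
  · have h1 : s ≤ ϱ₂ n - (R + 2) := (hs 1).2 (by decide)
    exact mem_Iio.2 (by linarith only [h1])
  · show (ρ (p.1 + ϱ₁ n), ρ (p.1 - ϱ₂ n)) - (ρ (p.1 + - -ϱ₁ n), -(R + 1)) = 0
    rw [neg_neg, r₂ (p.1 - ϱ₂ n) (by linarith only [mem_Iio.1 hp]), sub_self]
  · have h1 : -ϱ₁ n + (R + 2) ≤ s := (hs 0).1 (by decide)
    exact mem_Ioi.2 (by linarith only [h1])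
  · show (ρ (p.1 + ϱ₁ n), ρ (p.1 - ϱ₂ n)) - (R + 1, ρ (p.1 + -ϱ₂ n)) = 0
    rw [← sub_eq_add_neg, r₁ (p.1 + ϱ₁ n) (by linarith only [mem_Ioi.1 hp]), sub_self]

theorem cr_pre (hJ : SP J) (h₁ : Fld X₁ R) (h₂ : Fld X₂ R) (e₁ : frz X₁ R = Y)
    (e₂ : frz X₂ (-R) = Y) (n₁ : Nice J X₁ x y g₁) (n₂ : Nice J X₂ y z g₂) (hx : ContDiff ℝ ∞ x)
    (hy : ContDiff ℝ ∞ y) (hz : ContDiff ℝ ∞ z) (py : ∀ t, y (t + 1) = y t)
    (hϱ : Tendsto (fun n => ϱ₁ n + ϱ₂ n) l atTop) : Tendsto (fun n =>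
      nrm 1 (cr J (nk X₁ X₂ Y (ϱ₁ n) (ϱ₂ n)) (pre (ϱ₁ n) (ϱ₂ n) g₁ g₂ y)) univ) l (𝓝 0) := by
  obtain ⟨𝕏, ρ, hX, bρ, -, -, k, -, -⟩ := nk_ctl h₁ h₂ e₁ e₂
  obtain ⟨A₀, a₀⟩ := (bdd_iff.1 bρ).2 1
  obtain ⟨A₁, a₁⟩ := (bdd_iff.1 n₁.bdd).2 2
  obtain ⟨A₂, a₂⟩ := (bdd_iff.1 n₂.bdd).2 2
  obtain ⟨A₃, a₃⟩ := cn_pre n₁.bdd n₂.bdd hy py 2
  obtain ⟨K, hK, H⟩ := cr_sub_Pre hJ hX (max (max A₀ A₁) (max A₂ A₃))
  have cρ : ∀ a : ℝ, ContDiff ℝ ∞ fun p : Pl => ρ (p.1 + a) := fun a => contDiff_tsl bρ.1 (a, 0)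
  have bρ' : ∀ a : ℝ, Cn 1 (fun p : Pl => ρ (p.1 + a)) univ A₀ := fun a => (cn_tsl (a, 0)).2 a₀
  have side : ∀ (a b : ℝ) (w : Pl → V) (I U : Set ℝ), MeasurableSet I → IsOpen U → I ⊆ U →
      ContDiff ℝ ∞ w → Cn 2 w univ (max (max A₀ A₁) (max A₂ A₃)) →
      (∀ p : Pl, p.1 ∈ U → cr J (nk X₁ X₂ Y a b) w p = 0) →
      nrm 1 (cr J (nk X₁ X₂ Y a b) (pre a b g₁ g₂ y)) I ≤ K * nrm 2 (pre a b g₁ g₂ y - w) I := by
    intro a b w I U hI hU hIU hw bw ew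
    have e : nrm 1 (cr J (nk X₁ X₂ Y a b) (pre a b g₁ g₂ y)) I =
        nrm 1 (cr J (nk X₁ X₂ Y a b) (pre a b g₁ g₂ y) - cr J (nk X₁ X₂ Y a b) w) I :=
      nrm_congr 1 hI fun p hp =>
        (continuous_fst.continuousAt.eventually (hU.mem_nhds (hIU hp))).mono fun q hq => by
          rw [Pi.sub_apply, ew q hq, sub_zero]
    rw [e, k]
    simp only [sub_eq_add_neg _ b]
    exact H _ _ _ I hI ((cρ _).prodMk (cρ _)) (pth_pre n₁.pth n₂.pth hx hy hz py a b).bdd.1 hw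
      ((Cn.prod (cρ _) (cρ _) (bρ' _) (bρ' _)).mono le_rfl (subset_univ _)
        (le_max_of_le_left (le_max_left _ _)))
      ((a₃ a b).mono le_rfl (subset_univ _) (le_max_of_le_right (le_max_right _ _)))
      (bw.mono le_rfl (subset_univ _) le_rfl)
  have hT : Tendsto (fun n => (ϱ₁ n + ϱ₂ n) / 2) l atTop := hϱ.atTop_div_const two_pos
  have t := ENNReal.Tendsto.const_mul (a := K)
    (((n₂.pth.tail hy hz).1.comp hT).add ((n₁.pth.tail hx hy).2.comp hT)) (Or.inr hK)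
  rw [add_zero, mul_zero] at t
  refine tendsto_of_tendsto_of_tendsto_of_le_of_le' tendsto_const_nhds t
    (Eventually.of_forall fun _ => zero_le) ((hT.eventually_gt_atTop R).mono fun n hn => ?_)
  have s₀ := side (ϱ₁ n) (ϱ₂ n) (tsl (ϱ₁ n, 0) g₁) (Iic ((ϱ₂ n - ϱ₁ n) / 2)) (Iio (ϱ₂ n - R))
    measurableSet_Iic isOpen_Iio (fun s hs => mem_Iio.2 (by linarith only [mem_Iic.1 hs, hn]))
    (contDiff_tsl n₁.bdd.1 _) (((cn_tsl _).2 a₁).up_JetC (le_max_of_le_left (le_max_right _ _)))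
    fun p hp => by
      have f₂ : frz X₂ (p.1 - ϱ₂ n) = Y :=
        (h₂.left 0 _ (by linarith only [mem_Iio.1 hp])).trans e₂
      have e : nk X₁ X₂ Y (ϱ₁ n) (ϱ₂ n) p = tsl (ϱ₁ n, 0) X₁ p := by
        rw [show p = (p.1, p.2) from rfl, nk_apply_Pre, f₂, add_sub_cancel_right]
        simp only [frz, tsl, Prod.mk_add_mk, add_zero]
      have e' := congrFun (cr_tsl J X₁ g₁ (ϱ₁ n)) p
      rw [cr, ← e] at e'
      exact e'.trans (n₁.eq _)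
  have s₁ := side (ϱ₁ n) (ϱ₂ n) (tsl (-ϱ₂ n, 0) g₂) (Ici ((ϱ₂ n - ϱ₁ n) / 2)) (Ioi (R - ϱ₁ n))
    measurableSet_Ici isOpen_Ioi (fun s hs => mem_Ioi.2 (by linarith only [mem_Ici.1 hs, hn]))
    (contDiff_tsl n₂.bdd.1 _) (((cn_tsl _).2 a₂).up_JetC (le_max_of_le_right (le_max_left _ _)))
    fun p hp => by
      have f₁ : frz X₁ (p.1 + ϱ₁ n) = Y :=
        (h₁.right 0 _ (by linarith only [mem_Ioi.1 hp])).trans e₁
      have e : nk X₁ X₂ Y (ϱ₁ n) (ϱ₂ n) p = tsl (-ϱ₂ n, 0) X₂ p := by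
        rw [show p = (p.1, p.2) from rfl, nk_apply_Pre, f₁, add_sub_cancel_left]
        simp only [frz, tsl, Prod.mk_add_mk, add_zero, sub_eq_add_neg]
      have e' := congrFun (cr_tsl J X₂ g₂ (-ϱ₂ n)) p
      rw [cr, ← e] at e'
      exact e'.trans (n₂.eq _)
  have q₀ : pre (ϱ₁ n) (ϱ₂ n) g₁ g₂ y - tsl (ϱ₁ n, 0) g₁ = tsl (-ϱ₂ n, 0) (g₂ - lp y) := by
    rw [tsl_sub_lp_Pr, pre]; abel
  have q₁ : pre (ϱ₁ n) (ϱ₂ n) g₁ g₂ y - tsl (-ϱ₂ n, 0) g₂ = tsl (ϱ₁ n, 0) (g₁ - lp y) := by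
    rw [tsl_sub_lp_Pr, pre]; abel
  rw [q₀] at s₀
  rw [q₁] at s₁
  rw [← Iic_union_Ici (a := (ϱ₂ n - ϱ₁ n) / 2), mul_add]
  refine (nrm_union_le _ _ _ _).trans (add_le_add
    (s₀.trans (mul_le_mul_right ((nrm_mono _ le_rfl fun s hs => ?_).trans
      (nrm_tsl_Pr 2 _ (Iic (-((ϱ₁ n + ϱ₂ n) / 2))) _).le) _))
    (s₁.trans (mul_le_mul_right ((nrm_mono _ le_rfl fun s hs => ?_).trans
      (nrm_tsl_Pr 2 _ (Ici ((ϱ₁ n + ϱ₂ n) / 2)) _).le) _)))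
  · show s + -ϱ₂ n ≤ -((ϱ₁ n + ϱ₂ n) / 2)
    linarith only [mem_Iic.1 hs]
  · show (ϱ₁ n + ϱ₂ n) / 2 ≤ s + ϱ₁ n
    linarith only [mem_Ici.1 hs]

theorem locC_pre (h₁ : Pth x y g₁) (h₂ : Pth y z g₂) (hx : ContDiff ℝ ∞ x) (hy : ContDiff ℝ ∞ y)
    (hz : ContDiff ℝ ∞ z) (px : ∀ t, x (t + 1) = x t) (py : ∀ t, y (t + 1) = y t)
    (pz : ∀ t, z (t + 1) = z t) (hϱ : Tendsto (fun n => ϱ₁ n + ϱ₂ n) l atTop) :
    LocC l (fun n => tsl (-ϱ₁ n, 0) (pre (ϱ₁ n) (ϱ₂ n) g₁ g₂ y)) g₁ ∧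
      LocC l (fun n => tsl (ϱ₂ n, 0) (pre (ϱ₁ n) (ϱ₂ n) g₁ g₂ y)) g₂ := by
  have hσ : Gap l fun n => ![-ϱ₁ n, ϱ₂ n] := Fin.forall_fin_two.2
    ⟨Fin.forall_fin_two.2 ⟨fun h => absurd h (by decide), fun _ => hϱ.congr fun n => by
      show ϱ₁ n + ϱ₂ n = ϱ₂ n - -ϱ₁ n
      ring⟩, Fin.forall_fin_two.2 ⟨fun h => absurd h (by decide), fun h => absurd h (by decide)⟩⟩
  exact ⟨locC_of_prC (fun m => prC_pre h₁ h₂ hx hy hz px py pz m) hσ 0,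
    locC_of_prC (fun m => prC_pre h₁ h₂ hx hy hz px py pz m) hσ 1⟩

/-- `W²`-close periodic maps are uniformly close. -/
theorem WC.tendsto {f g : N → Pl → V} (h : WC l f g) (hf : ∀ n, ContDiff ℝ ∞ (f n) ∧ Per (f n))
    (hg : ∀ n, ContDiff ℝ ∞ (g n) ∧ Per (g n)) {ε : ℝ} (hε : 0 < ε) :
    ∀ᶠ n in l, ∀ p, ‖f n p - g n p‖ ≤ ε := by
  obtain ⟨c, hc⟩ := sob_loc (F := V)
  refine (ENNReal.tendsto_nhds_zero.1 h (ENNReal.ofReal (ε ^ 2 / (c + 1)))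
    (ENNReal.ofReal_pos.2 (by positivity))).mono fun n hn p => ?_
  have h3 := (hc (f n - g n) p p.1 ((hf n).1.sub (hg n).1)
    (fun s t => by rw [Pi.sub_apply, Pi.sub_apply, (hf n).2, (hg n).2])
    ⟨le_rfl, by linarith only []⟩).trans
      (mul_le_mul_right ((nrm_mono _ le_rfl (subset_univ _)).trans hn) _)
  rw [en_EstL, ← ENNReal.ofReal_coe_nnreal, ← ENNReal.ofReal_mul (NNReal.coe_nonneg c),
    ENNReal.ofReal_le_ofReal_iff (by positivity)] at h3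
  refine (pow_le_pow_iff_left₀ (norm_nonneg _) hε.le two_ne_zero).1 (h3.trans ?_)
  rw [← mul_div_assoc, div_le_iff₀ (by positivity)]
  nlinarith only [sq_nonneg ε]

/-- If translates of two paths between distinct loops come close, the paths are translates. -/
theorem eq_tsl_of_close {v v' : Pl → V} (h : Pth x y v) (h' : Pth x y v') (hx : ContDiff ℝ ∞ x)
    (hy : ContDiff ℝ ∞ y) (px : ∀ t, x (t + 1) = x t) (py : ∀ t, y (t + 1) = y t) (hxy : x ≠ y)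
    {s : ℕ → ℝ} (e : ∀ ε > 0, ∀ᶠ n in atTop, ∀ p, ‖v p - tsl (s n, 0) v' p‖ ≤ ε) :
    ∃ (φ : ℕ → ℕ) (s₀ : ℝ), StrictMono φ ∧ Tendsto (fun n => s (φ n)) atTop (𝓝 s₀) ∧
      v = tsl (s₀, 0) v' := by
  obtain ⟨ε, hε, B, hB⟩ := bound_Pre h h' hx hy px py hxy
  obtain ⟨s₀, -, φ, hφ, ht⟩ := isCompact_Icc.tendsto_subseq'
    ((e ε hε).mono fun n hn => hB _ hn).frequently
  refine ⟨φ, s₀, hφ, ht, funext fun p => ?_⟩
  have t₁ : Tendsto (fun n => tsl (s (φ n), 0) v' p) atTop (𝓝 (tsl (s₀, 0) v' p)) :=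
    (h'.bdd.1.continuous.tendsto _).comp
      (tendsto_const_nhds.add (ht.prodMk_nhds tendsto_const_nhds))
  refine tendsto_nhds_unique (Metric.tendsto_nhds.2 fun δ hδ => ?_) t₁
  refine (hφ.tendsto_atTop.eventually (e (δ / 2) (half_pos hδ))).mono fun n hn => ?_
  rw [dist_comm, dist_eq_norm]
  exact (hn p).trans_lt (half_lt_self hδ)

theorem eq_zero_of_tsl {v : Pl → V} (h : Pth x y v) (hx : ContDiff ℝ ∞ x) (hy : ContDiff ℝ ∞ y)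
    (px : ∀ t, x (t + 1) = x t) (py : ∀ t, y (t + 1) = y t) (hxy : x ≠ y) {s : ℝ}
    (e : tsl (s, 0) v = v) : s = 0 := by
  obtain ⟨ε, hε, B, hB⟩ := bound_Pre h h hx hy px py hxy
  have k : ∀ n : ℕ, tsl (n * s, 0) v = v := fun n => by
    induction n with
    | zero => rw [Nat.cast_zero, zero_mul, Prod.mk_zero_zero, tsl_zero]
    | succ n ih =>
      have e' := tsl_tsl (n * s, 0) (s, 0) v
      rw [e, ih, Prod.mk_add_mk, add_zero] at e'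
      rw [Nat.cast_succ, add_mul, one_mul, ← e']
  by_contra hs
  obtain ⟨n, hn⟩ := exists_nat_gt (B / |s|)
  have h1 := abs_le.2 (hB (n * s) fun p => by rw [k, sub_self, norm_zero]; exact hε.le)
  rw [abs_mul, Nat.abs_cast] at h1
  exact absurd ((div_lt_iff₀ (abs_pos.2 hs)).1 hn) h1.not_gt

end

end Pool.Agent.P.MP_de3acd_gt.FH
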