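import Pool.Agent.P.MP_de3acd_gt.FH.SgnA
import Pool.Agent.P.MP_de3acd_gt.FH.Pre
import Pool.Agent.P.MP_de3acd_gt.FH.LG2

/-! The sign of the preglued operator.
Sketch: cut maps c₁ T = g₁ - stp T 1 • (g₁ - lp y) (equal to lp y for s ≥ T + 1), c₂ T = g₂ - (1 - stp (-T-1) 1) • (g₂ - lp y). They are Pth
and Cn m (c T - g) univ ε for large T (Pth.cn, Cn.bil, cn_stp). (1) For large T all g + τ • (c T - g), τ ∈ [0,1], give bijective framed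
operators (norm_Dop_sub_le, cn_comp_sub, Bij.perturb), so sign_path (constant family, pData_fld) gives the same signs and Ok for the cut
operators. (2) Apply linGlue₂ with the index type ℝ × N × ℝ and the filter atTop.curry (l ×ˢ 𝓟 (Icc 0 1)) to
u = w n + τ • (ŵ T n - w n), w = pre of g, ŵ = pre of the cut maps (prC_pre, prC_nk, fld_nk, coef_fld): uniform Bij along these segments;
sign_path relates the signs at w n and ŵ T n. (3) For fixed large T and large n, trOp ((ϱ₂ - ϱ₁) / 2) of the operator at ŵ T n is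
glue ((ϱ₁ + ϱ₂) / 2) of the cut operators (trOp_lop, funext, cS depends on the germ of u and on X p only); sign_trOp and Glu. -/

open Set Filter Topology MeasureTheory
open scoped ContDiff NNReal ENNReal RealInnerProductSpace

namespace Pool.Agent.P.MP_de3acd_gt.FH

noncomputable section

variable {V : Type} [NormedAddCommGroup V] [InnerProductSpace ℝ V] [Sym V]
variable {J : ℝ → V → V →L[ℝ] V} {X₁ X₂ : Pl → V → V} {Y : ℝ → V → V} {R : ℝ} {x y z : ℝ → V}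
  {g₁ g₂ : Pl → V} {N : Type} {l : Filter N} {ϱ₁ ϱ₂ : N → ℝ}

section aux

variable {C : Type} [NormedAddCommGroup C] [NormedSpace ℝ C] [FiniteDimensional ℝ C]

theorem lip_SgnG (hJ : ACS Ω0 J) {𝕏 : ℝ → C × V → V} (hX : SP 𝕏) (A : ℝ) : ∃ B, 0 < B ∧
    ∀ (κ : Pl → C) (u u' : Pl → V) (ε : ℝ), Bdd κ → Per κ → Bdd u → Per u → Bdd u' → Per u' →
      Cn 1 κ univ A → Cn 2 u univ A → Cn 2 u' univ A → Cn 2 (u' - u) univ ε →
        ‖Du J (ctl 𝕏 κ) u' - Du J (ctl 𝕏 κ) u‖ ≤ B * ε := by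
  obtain ⟨G, hG, eG⟩ := exists_cS hJ.1 hX
  obtain ⟨L₁, p₁, H₁⟩ := cn_comp_sub hJ.1 1 A
  obtain ⟨L₂, p₂, H₂⟩ := cn_comp_sub hG 1 A
  refine ⟨18 * (L₁ + L₂ + 1), by positivity, fun κ u u' ε bκ pκ bu pu bu' pu' cκ cu cu' e => ?_⟩
  have hε : 0 ≤ ε := (norm_nonneg _).trans (e.le (p := 0) (mem_univ _))
  rw [mul_assoc]
  refine norm_Dop_sub_le le_rfl (coef_ctl hJ hX bκ pκ bu' pu') (coef_ctl hJ hX bκ pκ bu pu) ?_ ?_
  · exact (H₁ u' u univ ε bu'.1 bu.1 cu'.pred_JetC cu.pred_JetC e.pred_JetC).up_JetC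
      (mul_le_mul_of_nonneg_right (by linarith) hε)
  · rw [eG, eG]
    refine (H₂ (fun p => (κ p, u' p, dt u' p)) (fun p => (κ p, u p, dt u p)) univ ε
      (bκ.1.prodMk (bu'.1.prodMk bu'.dt.1)) (bκ.1.prodMk (bu.1.prodMk bu.dt.1))
      (Cn.prod bκ.1 (bu'.1.prodMk bu'.dt.1) cκ (Cn.prod bu'.1 bu'.dt.1 cu'.pred_JetC cu'.2.2))
      (Cn.prod bκ.1 (bu.1.prodMk bu.dt.1) cκ (Cn.prod bu.1 bu.dt.1 cu.pred_JetC cu.2.2))
      ?_).up_JetC (mul_le_mul_of_nonneg_right (by linarith) hε)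
    have e1 : ((fun p => (κ p, u' p, dt u' p)) - fun p => (κ p, u p, dt u p)) =
        fun p => ((0 : C), (u' - u) p, dt (u' - u) p) := by
      rw [dt_sub_JetC bu'.1 bu.1]
      funext p
      simp
    have b := bu'.sub bu
    rw [e1]
    exact Cn.prod contDiff_const (b.1.prodMk b.dt.1)
      ((cn_const 1 (0 : C) univ).up_JetC (by simpa using hε)) (Cn.prod b.1 b.dt.1 e.pred_JetC e.2.2)

theorem stab_SgnG {o : ∀ a b, Op V a b → ℤˣ} (ho : Coh Ω0 ⊥ o) (hJ : ACS Ω0 J)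
    {𝕏 : ℝ → C × V → V} (hX : SP 𝕏) (A : ℝ) {c : ℝ} (hc : 0 < c) : ∃ ε > 0,
    ∀ (κ : Pl → C) (X : Pl → V → V) (R : ℝ) (x y : ℝ → V) (u u' : Pl → V) (a b : ℕ)
      (K : Fin a → Pl → V) (L : Fin b → Pl → V) (M : Fin b → Fin a → ℝ), X = ctl 𝕏 κ → Bdd κ →
      Per κ → Cn 1 κ univ A → Fld X R → GOrb Ω0 1 (frz X (-R)) x → GOrb Ω0 1 (frz X R) y →
      Pth x y u → Pth x y u' → Cn 2 u univ A → Cn 2 (u' - u) univ ε → TF K → TF L →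
      Bij (frm (Du J X u) K L M) c → Ok Ω0 ⊥ (lop 1 J X x y u' K L M) ∧
        o a b (lop 1 J X x y u' K L M) = o a b (lop 1 J X x y u K L M) := by
  obtain ⟨B, hB, H⟩ := lip_SgnG hJ hX (A + 1)
  refine ⟨min 1 (1 / (2 * c * B)), by positivity, ?_⟩
  rintro κ _ R x y u u' a b K L M rfl bκ pκ cκ hF hx hy hu hu' cu e hK hL hb
  have hP := pData_fld (Λ := ℝ) hJ hF hx hy
  have key : ∀ τ ∈ Icc (0 : ℝ) 1,
      Function.Bijective (frm (Du J (ctl 𝕏 κ) (u + τ • (u' - u))) K L M) := by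
    intro τ hτ
    have hs := hP.pth_seg hu hu' τ
    have b := hu'.bdd.sub hu.bdd
    have e1 : Cn 2 (τ • (u' - u)) univ (min 1 (1 / (2 * c * B))) := by
      refine (Cn.clm (τ • ContinuousLinearMap.id ℝ V) b.1 e).up_JetC
        (mul_le_of_le_one_left (by positivity) ?_)
      refine ContinuousLinearMap.opNorm_le_bound _ zero_le_one fun v => ?_
      change ‖τ • v‖ ≤ _
      rw [norm_smul, Real.norm_of_nonneg hτ.1]
      exact mul_le_mul_of_nonneg_right hτ.2 (norm_nonneg _)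
    have h1 := H κ u (u + τ • (u' - u)) _ bκ pκ hu.bdd hu.per hs.bdd hs.per
      (cκ.up_JetC (by linarith)) (cu.up_JetC (by linarith))
      ((Cn.add hu.bdd.1 (b.smul τ).1 cu e1).up_JetC (by linarith [min_le_left 1 (1 / (2 * c * B))]))
      (by rw [add_sub_cancel_left]; exact e1)
    refine (hb.perturb hc.le ?_).1
    have h2 := norm_blk_sub_le (Du J (ctl 𝕏 κ) (u + τ • (u' - u))) (Du J (ctl 𝕏 κ) u) (kmap K)
      (kmap K) (lmap L) (lmap L) (mmap M) (mmap M)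
    simp only [sub_self, norm_zero, add_zero] at h2
    have h3 : B * min 1 (1 / (2 * c * B)) ≤ B * (1 / (2 * c * B)) :=
      mul_le_mul_of_nonneg_left (min_le_right _ _) hB.le
    refine (mul_le_mul_of_nonneg_left (h2.trans (h1.trans h3)) (by positivity)).trans (le_of_eq ?_)
    field_simp
  refine ⟨(ok_lop_iff hJ hF hx hy hu' K L M).2 ⟨hK, hL, by simpa using key 1 ⟨zero_le_one, le_rfl⟩⟩,
    hP.sign_path ho (p := 0) (p' := 0) hu hu' (K := fun _ => K) (fun _ => hK) hL hL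
      (fun _ i => ?_) fun τ hτ => ?_⟩
  · simp only [sub_self, nrm_zero_fun]
    exact tendsto_const_nhds
  · simpa only [sub_self, smul_zero, add_zero] using key τ hτ

end aux

theorem cut_SgnG {χ : Pl → ℝ} {h : Pl → V} {I : Set ℝ} (hI : IsClosed I) (bχ : Bdd χ) (pχ : Per χ)
    (bh : Bdd h) (ph : Per h) (h0 : ∀ p : Pl, p.1 ∉ I → χ p = 0) {A ε : ℝ} (hA : 0 ≤ A)
    (hε : 0 ≤ ε) (cχ : Cn 2 χ univ A) (ch : Cn 2 h I ε) (nh : nrm 2 h I < ⊤) :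
    Bdd (fun p => χ p • h p) ∧ Per (fun p => χ p • h p) ∧ nrm 2 (fun p => χ p • h p) univ < ⊤ ∧
      Cn 2 (fun p => χ p • h p) univ (4 * A * ε) := by
  have e0 : ∀ p : Pl, p.1 ∈ Iᶜ → (fun _ : Pl => (0 : V)) =ᶠ[𝓝 p] fun p => χ p • h p := fun p hp => by
    have : ∀ᶠ q : Pl in 𝓝 p, q.1 ∈ Iᶜ :=
      (continuous_fst.tendsto p).eventually (hI.isOpen_compl.mem_nhds hp)
    exact this.mono fun q hq => by simp only [h0 q hq, zero_smul]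
  refine ⟨bχ.bil bh (ContinuousLinearMap.lsmul ℝ ℝ), fun s t => by simp only [pχ s t, ph s t],
    ?_, ?_⟩
  · rw [← union_compl_self I]
    refine (nrm_union_le _ _ _ _).trans_lt (ENNReal.add_lt_top.2 ⟨?_, ?_⟩)
    · exact (nrm_bil 2 (ContinuousLinearMap.lsmul ℝ ℝ) hI.measurableSet bχ.1 bh.1
        (cχ.mono le_rfl (subset_univ _) le_rfl)).trans_lt
          (ENNReal.mul_lt_top ENNReal.ofReal_lt_top nh)
    · rw [← nrm_congr 2 hI.measurableSet.compl e0]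
      exact (nrm_zero_fun 2 _).trans_lt ENNReal.zero_lt_top
  · rw [← union_compl_self I]
    refine Cn.union ((Cn.bil (ContinuousLinearMap.lsmul ℝ ℝ) bχ.1 bh.1
      (cχ.mono le_rfl (subset_univ _) le_rfl) ch).up_JetC ?_)
      (((cn_const 2 (0 : V) Iᶜ).up_JetC (by rw [norm_zero]; positivity)).congr e0)
    have := ContinuousLinearMap.opNorm_lsmul_le (𝕜 := ℝ) (R := ℝ) (E := V)
    have h1 : 0 ≤ A * ε := by positivity
    nlinarith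

theorem cutR_SgnG {g : Pl → V} (h : Pth x y g) (hx : ContDiff ℝ ∞ x) (hy : ContDiff ℝ ∞ y)
    (px : ∀ t, x (t + 1) = x t) (py : ∀ t, y (t + 1) = y t) {ε : ℝ} (hε : 0 < ε) :
    ∃ (T : ℝ) (g' : Pl → V), Pth x y g' ∧ Cn 2 (g' - g) univ ε ∧
      ∀ p : Pl, T ≤ p.1 → g' p = y p.2 := by
  obtain ⟨A, hA, cA⟩ := cn_stp 2
  obtain ⟨T, -, hT⟩ := h.cn hx hy px py 2 (ε := ε / (4 * A)) (by positivity)
  have by' := bdd_lp hy py
  obtain ⟨b1, b2, b3, b4⟩ := cut_SgnG (χ := stp T 1) (h := lp y - g) (I := Ici T) (ε := ε / (4 * A))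
    isClosed_Ici (bdd_stp T 1) (per_stp T 1) (by'.1.sub h.bdd) (fun s t => by simp only [Pi.sub_apply, by'.2.1 s t, h.per s t])
    (fun p hp => stp_eq_zero one_pos (not_le.1 hp).le) (by linarith) (by positivity)
    (cA T 1 le_rfl).1 (by rw [← neg_sub]; exact hT.neg)
    (by rw [nrm_sub_comm]; exact (h.nrm_ends hx hy T).2)
  refine ⟨T + 1, _, h.add hx hy b1 b2 b3, ?_, fun p hp => ?_⟩
  · rw [add_sub_cancel_left]
    exact b4.up_JetC (le_of_eq (by field_simp))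
  · simp [stp_eq_one one_pos hp, lp]

theorem cutL_SgnG {g : Pl → V} (h : Pth x y g) (hx : ContDiff ℝ ∞ x) (hy : ContDiff ℝ ∞ y)
    (px : ∀ t, x (t + 1) = x t) (py : ∀ t, y (t + 1) = y t) {ε : ℝ} (hε : 0 < ε) :
    ∃ (T : ℝ) (g' : Pl → V), Pth x y g' ∧ Cn 2 (g' - g) univ ε ∧
      ∀ p : Pl, p.1 ≤ -T → g' p = x p.2 := by
  obtain ⟨A, hA, cA⟩ := cn_stp 2
  obtain ⟨T, hT, -⟩ := h.cn hx hy px py 2 (ε := ε / (4 * (1 + A))) (by positivity)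
  have bx := bdd_lp hx px
  obtain ⟨b1, b2, b3, b4⟩ := cut_SgnG (χ := (fun _ => 1) - stp (-T - 1) 1) (h := lp x - g)
    (A := 1 + A) (I := Iic (-T)) (ε := ε / (4 * (1 + A))) isClosed_Iic ((bdd_const 1).sub (bdd_stp _ 1)) (fun _ _ => rfl)
    (bx.1.sub h.bdd) (fun s t => by simp only [Pi.sub_apply, bx.2.1 s t, h.per s t])
    (fun p hp => by
      rw [Pi.sub_apply, stp_eq_one one_pos (by linarith [mem_Ioi.1 (by simpa using hp : p.1 ∈ Ioi (-T))]), sub_self])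
    (by linarith) (by positivity)
    ((Cn.sub contDiff_const (bdd_stp _ 1).1 (cn_const 2 (1 : ℝ) univ) (cA _ 1 le_rfl).1).up_JetC
      (by simp)) (by rw [← neg_sub]; exact hT.neg)
    (by rw [nrm_sub_comm]; exact (h.nrm_ends hx hy (-T)).1)
  refine ⟨T + 1, _, h.add hx hy b1 b2 b3, ?_, fun p hp => ?_⟩
  · rw [add_sub_cancel_left]
    exact b4.up_JetC (le_of_eq (by field_simp))
  · simp [stp_eq_zero (a := -T - 1) one_pos (p := p) (by linarith), lp]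

theorem cS_congr_SgnG {X X' : Pl → V → V} {u u' : Pl → V} {p : Pl} (e : u =ᶠ[𝓝 p] u')
    (e' : X p = X' p) : cS J X u p = cS J X' u' p := by
  simp only [cS, dt, e.fderiv_eq, e.eq_of_nhds, e']

theorem tsl_eq_SgnG {α : Type} (r : ℝ) (f : Pl → α) : tsl (r, 0) f = fun p => f (p.1 + r, p.2) :=
  funext fun p => congrArg f (Prod.ext rfl (add_zero _))

theorem tsl_append_SgnG {a a' : ℕ} (v w w' : Pl) (K : Fin a → Pl → V) (K' : Fin a' → Pl → V) :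
    (fun i => tsl v (Fin.append (fun i => tsl w (K i)) (fun i => tsl w' (K' i)) i)) =
      Fin.append (fun i => tsl (v + w) (K i)) fun i => tsl (v + w') (K' i) := by
  funext i
  refine Fin.addCases (fun i => ?_) (fun i => ?_) i
  · rw [Fin.append_left, Fin.append_left, tsl_tsl]
  · rw [Fin.append_right, Fin.append_right, tsl_tsl]

theorem tf_append_SgnG {a a' : ℕ} (w w' : Pl) {K : Fin a → Pl → V} {K' : Fin a' → Pl → V}
    (h : TF K) (h' : TF K') :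
    TF (Fin.append (fun i => tsl w (K i)) fun i => tsl w' (K' i)) := fun i => by
  refine Fin.addCases (fun i => ?_) (fun i => ?_) i
  · rw [Fin.append_left]
    exact tsl_mem (h i) w
  · rw [Fin.append_right]
    exact tsl_mem (h' i) w'

theorem glue_SgnG (h₁ : Fld X₁ R) (h₂ : Fld X₂ R) (e₁ : frz X₁ R = Y) (e₂ : frz X₂ (-R) = Y)
    {T : ℝ} (c₁ : ∀ p : Pl, T ≤ p.1 → g₁ p = y p.2) (c₂ : ∀ p : Pl, p.1 ≤ -T → g₂ p = y p.2)
    {a b a' b' : ℕ} (K : Fin a → Pl → V) (L : Fin b → Pl → V) (M : Fin b → Fin a → ℝ)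
    (K' : Fin a' → Pl → V) (L' : Fin b' → Pl → V) (M' : Fin b' → Fin a' → ℝ) {r₁ r₂ : ℝ}
    (hT : T + 1 ≤ (r₁ + r₂) / 2) (hR : R ≤ (r₁ + r₂) / 2) :
    trOp ((r₂ - r₁) / 2) (lop 1 J (nk X₁ X₂ Y r₁ r₂) x z (pre r₁ r₂ g₁ g₂ y)
      (Fin.append (fun i => tsl (r₁, 0) (K i)) fun i => tsl (-r₂, 0) (K' i))
      (Fin.append (fun i => tsl (r₁, 0) (L i)) fun i => tsl (-r₂, 0) (L' i))
      (Fin.append (fun i => Fin.append (M i) 0) fun i => Fin.append 0 (M' i))) =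
      glue ((r₁ + r₂) / 2) (lop 1 J X₁ x y g₁ K L M) (lop 1 J X₂ y z g₂ K' L' M') := by
  set r := (r₁ + r₂) / 2 with hr
  have a1 : (((r₂ - r₁) / 2, 0) : Pl) + (r₁, 0) = (r, 0) := Prod.ext (by simp [hr]; ring) (by simp)
  have a2 : (((r₂ - r₁) / 2, 0) : Pl) + (-r₂, 0) = (-r, 0) := Prod.ext (by simp [hr]; ring) (by simp)
  have t1 : tsl ((r₂ - r₁) / 2, 0) (nk X₁ X₂ Y r₁ r₂) = nk X₁ X₂ Y r r := by
    rw [nk, nk, ← a1, ← a2, ← tsl_tsl, ← tsl_tsl]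
    conv_rhs => rw [← tsl_sta Y ((r₂ - r₁) / 2)]
    rfl
  have t2 : tsl ((r₂ - r₁) / 2, 0) (pre r₁ r₂ g₁ g₂ y) = pre r r g₁ g₂ y := by
    rw [pre, pre, ← a1, ← a2, ← tsl_tsl, ← tsl_tsl]
    funext p
    simp [tsl, lp]
  rw [trOp_lop, t1, t2, tsl_append_SgnG, tsl_append_SgnG, a1, a2]
  have u1 : ∀ p : Pl, p.1 ≤ 0 → pre r r g₁ g₂ y =ᶠ[𝓝 p] tsl (r, 0) g₁ := fun p hp => by
    have : ∀ᶠ q : Pl in 𝓝 p, q.1 < 1 :=
      (continuous_fst.tendsto p).eventually (gt_mem_nhds (by linarith))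
    refine this.mono fun q hq => ?_
    have := c₂ (q + (-r, 0)) (by simp; linarith)
    simp only [pre, Pi.sub_apply, Pi.add_apply, lp]
    rw [show tsl (-r, 0) g₂ q = y q.2 by simpa [tsl] using this, add_sub_cancel_right]
  have u2 : ∀ p : Pl, ¬ p.1 ≤ 0 → pre r r g₁ g₂ y =ᶠ[𝓝 p] tsl (-r, 0) g₂ := fun p hp => by
    have : ∀ᶠ q : Pl in 𝓝 p, 0 < q.1 :=
      (continuous_fst.tendsto p).eventually (lt_mem_nhds (not_le.1 hp))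
    refine this.mono fun q hq => ?_
    have := c₁ (q + (r, 0)) (by simp; linarith)
    simp only [pre, Pi.sub_apply, Pi.add_apply, lp]
    rw [show tsl (r, 0) g₁ q = y q.2 by simpa [tsl] using this, add_sub_cancel_left]
  have v1 : ∀ p : Pl, p.1 ≤ 0 → nk X₁ X₂ Y r r p = tsl (r, 0) X₁ p := fun p hp => by
    have := congrFun ((h₂.left 0 (p.1 + -r) (by linarith)).trans e₂) p.2
    simp only [nk, Pi.sub_apply, Pi.add_apply, sta]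
    rw [tsl_eq_SgnG (-r)]
    simp only [frz] at this
    simp only [this, add_sub_cancel_right]
  have v2 : ∀ p : Pl, ¬ p.1 ≤ 0 → nk X₁ X₂ Y r r p = tsl (-r, 0) X₂ p := fun p hp => by
    have := congrFun ((h₁.right 0 (p.1 + r) (by linarith [not_le.1 hp])).trans e₁) p.2
    simp only [nk, Pi.sub_apply, Pi.add_apply, sta]
    rw [tsl_eq_SgnG r]
    simp only [frz] at this
    simp only [this, add_sub_cancel_left]
  have j1 : cJ J (pre r r g₁ g₂ y) =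
      fun p => if p.1 ≤ 0 then cJ J g₁ (p.1 + r, p.2) else cJ J g₂ (p.1 - r, p.2) := by
    funext p
    split_ifs with hp
    · simp only [cJ, (u1 p hp).eq_of_nhds, tsl_eq_SgnG]
    · simp only [cJ, (u2 p hp).eq_of_nhds, tsl_eq_SgnG, sub_eq_add_neg]
  have j2 : cS J (nk X₁ X₂ Y r r) (pre r r g₁ g₂ y) =
      fun p => if p.1 ≤ 0 then cS J X₁ g₁ (p.1 + r, p.2) else cS J X₂ g₂ (p.1 - r, p.2) := by
    funext p
    split_ifs with hp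
    · rw [cS_congr_SgnG (u1 p hp) (v1 p hp), cS_tsl, tsl_eq_SgnG]
    · rw [cS_congr_SgnG (u2 p hp) (v2 p hp), cS_tsl, tsl_eq_SgnG, sub_eq_add_neg]
  change Op.mk 1 x z (cJ J _) (cS J _ _) _ _ _ = _
  rw [j1, j2]
  simp only [tsl_eq_SgnG, ← sub_eq_add_neg]
  rfl

theorem ends_SgnG (h₁ : Fld X₁ R) (h₂ : Fld X₂ R) (e₁ : frz X₁ R = Y) (e₂ : frz X₂ (-R) = Y)
    (hy : ContDiff ℝ ∞ y) (py : ∀ t, y (t + 1) = y t) {T : ℝ}
    (c₁ : ∀ p : Pl, T ≤ p.1 → g₁ p = y p.2) (c₂ : ∀ p : Pl, p.1 ≤ -T → g₂ p = y p.2) :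
    ∃ S, ∀ s ≥ S, ∀ s' ≥ S, ∀ t, cJ J g₁ (s, t) = cJ J g₂ (-s', t) ∧
      cS J X₁ g₁ (s, t) = cS J X₂ g₂ (-s', t) := by
  refine ⟨max (T + 1) R, fun s hs s' hs' t => ?_⟩
  have s1 := (le_max_left _ _).trans hs
  have s2 := (le_max_right _ _).trans hs
  have s3 := (le_max_left _ _).trans hs'
  have s4 := (le_max_right _ _).trans hs'
  have u1 : g₁ =ᶠ[𝓝 (s, t)] lp y := by
    have : ∀ᶠ q : Pl in 𝓝 (s, t), T < q.1 :=
      (continuous_fst.tendsto _).eventually (lt_mem_nhds (by simp; linarith))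
    exact this.mono fun q hq => c₁ q hq.le
  have u2 : g₂ =ᶠ[𝓝 (-s', t)] lp y := by
    have : ∀ᶠ q : Pl in 𝓝 (-s', t), q.1 < -T :=
      (continuous_fst.tendsto _).eventually (gt_mem_nhds (by simp; linarith))
    exact this.mono fun q hq => c₂ q hq.le
  have v1 : X₁ (s, t) = sta Y (s, t) := congrFun ((h₁.right 0 s s2).trans e₁) t
  have v2 : X₂ (-s', t) = sta Y (-s', t) := congrFun ((h₂.left 0 (-s') (by linarith)).trans e₂) t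
  refine ⟨by simp only [cJ, u1.eq_of_nhds, u2.eq_of_nhds, lp], ?_⟩
  rw [cS_congr_SgnG u1 v1, cS_congr_SgnG u2 v2]
  simp only [cS, (bdd_lp hy py).2.2.2, lp, sta]

theorem sign_glue {o : ∀ a b, Op V a b → ℤˣ} {η : ℕ → ℕ → ℕ → ℕ → ℤˣ} (ho : Coh Ω0 ⊥ o)
    (hη : Glu Ω0 ⊥ o η) (hJ : ACS Ω0 J) (h₁ : Fld X₁ R) (h₂ : Fld X₂ R) (e₁ : frz X₁ R = Y)
    (e₂ : frz X₂ (-R) = Y) (hx : GOrb Ω0 1 (frz X₁ (-R)) x) (hy : GOrb Ω0 1 Y y)
    (hz : GOrb Ω0 1 (frz X₂ R) z) (n₁ : Pth x y g₁) (n₂ : Pth y z g₂) {a b a' b' : ℕ}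
    {K : Fin a → Pl → V} {L : Fin b → Pl → V} {M : Fin b → Fin a → ℝ} {K' : Fin a' → Pl → V}
    {L' : Fin b' → Pl → V} {M' : Fin b' → Fin a' → ℝ} (hT : Ok Ω0 ⊥ (lop 1 J X₁ x y g₁ K L M))
    (hT' : Ok Ω0 ⊥ (lop 1 J X₂ y z g₂ K' L' M')) (hϱ : Tendsto (fun n => ϱ₁ n + ϱ₂ n) l atTop) :
    ∃ c > 0, ∀ᶠ n in l, Bij (frm (Du J (nk X₁ X₂ Y (ϱ₁ n) (ϱ₂ n)) (pre (ϱ₁ n) (ϱ₂ n) g₁ g₂ y))
        (Fin.append (fun i => tsl (ϱ₁ n, 0) (K i)) fun i => tsl (-ϱ₂ n, 0) (K' i))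
        (Fin.append (fun i => tsl (ϱ₁ n, 0) (L i)) fun i => tsl (-ϱ₂ n, 0) (L' i))
        (Fin.append (fun i => Fin.append (M i) 0) fun i => Fin.append 0 (M' i))) c ∧
      o _ _ (lop 1 J (nk X₁ X₂ Y (ϱ₁ n) (ϱ₂ n)) x z (pre (ϱ₁ n) (ϱ₂ n) g₁ g₂ y)
        (Fin.append (fun i => tsl (ϱ₁ n, 0) (K i)) fun i => tsl (-ϱ₂ n, 0) (K' i))
        (Fin.append (fun i => tsl (ϱ₁ n, 0) (L i)) fun i => tsl (-ϱ₂ n, 0) (L' i))
        (Fin.append (fun i => Fin.append (M i) 0) fun i => Fin.append 0 (M' i))) =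
          η a b a' b' * o a b (lop 1 J X₁ x y g₁ K L M) * o a' b' (lop 1 J X₂ y z g₂ K' L' M') := by
  have hy₁ : GOrb Ω0 1 (frz X₁ R) y := e₁ ▸ hy
  have hy₂ : GOrb Ω0 1 (frz X₂ (-R)) y := e₂ ▸ hy
  obtain ⟨sx, sy, px, py⟩ := (pData_fld (Λ := ℝ) hJ h₁ hx hy₁).loops
  obtain ⟨-, sz, -, pz⟩ := (pData_fld (Λ := ℝ) hJ h₂ hy₂ hz).loops
  obtain ⟨tK, tL, b₁⟩ := (ok_lop_iff hJ h₁ hx hy₁ n₁ K L M).1 hT
  obtain ⟨tK', tL', b₂⟩ := (ok_lop_iff hJ h₂ hy₂ hz n₂ K' L' M').1 hT'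
  have hw := fun r₁ r₂ => pth_pre n₁ n₂ sx sy sz py r₁ r₂
  have hf := fld_nk h₁ h₂ e₁ e₂
  obtain ⟨ej, eS⟩ := prC_nk (l := l) (ϱ₁ := ϱ₁) (ϱ₂ := ϱ₂) hJ.1 h₁ h₂ e₁ e₂ n₁.bdd n₂.bdd
    (fun n => (hw _ _).bdd.1) (prC_pre n₁ n₂ sx sy sz px py pz 2)
  obtain ⟨c, hc, hb⟩ := linGlue₂ hϱ (T := lop 1 J X₁ x y g₁ K L M)
    (T' := lop 1 J X₂ y z g₂ K' L' M') (coef_fld hJ h₁ n₁.bdd n₁.per)
    (coef_fld hJ h₂ n₂.bdd n₂.per) tK tL tK' tL' b₁ b₂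
    (fun n => coef_fld hJ (hf _ _).1 (hw _ _).bdd (hw _ _).per) ej eS
  obtain ⟨c₁, hc₁, B₁⟩ := bij_of_bijective b₁
  obtain ⟨c₂, hc₂, B₂⟩ := bij_of_bijective b₂
  obtain ⟨𝕏, ρ, hX, bρ, -, -, k0, k1, k2⟩ := nk_ctl h₁ h₂ e₁ e₂
  obtain ⟨A₀, -, cρ⟩ := bρ.cn 1
  obtain ⟨A₁, -, cg₁⟩ := n₁.bdd.cn 2
  obtain ⟨A₂, -, cg₂⟩ := n₂.bdd.cn 2
  obtain ⟨A₃, cw⟩ := cn_pre n₁.bdd n₂.bdd sy py 2
  obtain ⟨A, l0, l1, l2, l3, l4⟩ : ∃ A, A₀ ≤ A ∧ A₁ ≤ A ∧ A₂ ≤ A ∧ A₃ ≤ A ∧ ‖R + 1‖ ≤ A :=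
    ⟨max A₀ (max A₁ (max A₂ (max A₃ ‖R + 1‖))), by simp⟩
  obtain ⟨ε, hε, H⟩ := stab_SgnG ho hJ hX A (c := c + c₁ + c₂) (by positivity)
  obtain ⟨T₁, g₁', m₁, d₁, q₁⟩ := cutR_SgnG n₁ sx sy px py (half_pos hε)
  obtain ⟨T₂, g₂', m₂, d₂, q₂⟩ := cutL_SgnG n₂ sy sz py pz (half_pos hε)
  have q₁' : ∀ p : Pl, max T₁ T₂ ≤ p.1 → g₁' p = y p.2 := fun p hp =>
    q₁ p ((le_max_left _ _).trans hp)
  have q₂' : ∀ p : Pl, p.1 ≤ -max T₁ T₂ → g₂' p = y p.2 := fun p hp =>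
    q₂ p (hp.trans (neg_le_neg (le_max_right _ _)))
  obtain ⟨o₁, s₁⟩ := H _ X₁ R x y g₁ g₁' a b K L M k1 (bρ.prod (bdd_const _)) (fun _ _ => rfl)
    (Cn.prod bρ.1 contDiff_const (cρ.up_JetC l0)
      ((cn_const 1 _ univ).up_JetC ((norm_neg _).trans_le l4))) h₁ hx hy₁ n₁ m₁ (cg₁.up_JetC l1)
    (d₁.up_JetC (half_le_self hε.le)) tK tL (B₁.mono (by linarith))
  obtain ⟨o₂, s₂⟩ := H _ X₂ R y z g₂ g₂' a' b' K' L' M' k2 ((bdd_const _).prod bρ) (fun _ _ => rfl)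
    (Cn.prod contDiff_const bρ.1 ((cn_const 1 _ univ).up_JetC l4) (cρ.up_JetC l0))
    h₂ hy₂ hz n₂ m₂ (cg₂.up_JetC l2) (d₂.up_JetC (half_le_self hε.le)) tK' tL'
    (B₂.mono (by linarith))
  have hr : Tendsto (fun n => (ϱ₁ n + ϱ₂ n) / 2) l atTop := hϱ.atTop_div_const two_pos
  refine ⟨c, hc, ?_⟩
  filter_upwards [hb, hr.eventually (hη _ _ _ _ _ _ o₁ o₂ rfl rfl
    (ends_SgnG h₁ h₂ e₁ e₂ sy py q₁' q₂')), hr.eventually_ge_atTop (max T₁ T₂ + 1),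
    hr.eventually_ge_atTop R] with n hn g1 g2 g3
  refine ⟨hn, ?_⟩
  have bt : ∀ r : ℝ, Bdd (fun p : Pl => ρ (p.1 + r)) ∧ Cn 1 (fun p : Pl => ρ (p.1 + r)) univ A :=
    fun r => ⟨bρ.tsl (r, 0), (cn_tsl (f := fun p : Pl => ρ p.1) (I := univ) (r, 0)).2
      (cρ.up_JetC l0)⟩
  have e3 : pre (ϱ₁ n) (ϱ₂ n) g₁' g₂' y - pre (ϱ₁ n) (ϱ₂ n) g₁ g₂ y =
      tsl (ϱ₁ n, 0) (g₁' - g₁) + tsl (-ϱ₂ n, 0) (g₂' - g₂) := by
    funext p
    simp only [pre, tsl, Pi.sub_apply, Pi.add_apply]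
    abel
  obtain ⟨o₃, s₃⟩ := H (fun p => (ρ (p.1 + ϱ₁ n), ρ (p.1 + -ϱ₂ n))) (nk X₁ X₂ Y (ϱ₁ n) (ϱ₂ n)) _ x z
    (pre (ϱ₁ n) (ϱ₂ n) g₁ g₂ y) (pre (ϱ₁ n) (ϱ₂ n) g₁' g₂' y) _ _ _ _
    (Fin.append (fun i => Fin.append (M i) 0) fun i => Fin.append 0 (M' i))
    (by simpa only [sub_eq_add_neg] using k0 (ϱ₁ n) (ϱ₂ n)) ((bt _).1.prod (bt _).1)
    (fun _ _ => rfl) (Cn.prod (bt _).1.1 (bt _).1.1 (bt _).2 (bt _).2) (hf _ _).1
    ((hf _ _).2.1 ▸ hx) ((hf _ _).2.2 ▸ hz) (hw _ _) (pth_pre m₁ m₂ sx sy sz py _ _)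
    ((cw _ _).up_JetC l3)
    (by
      rw [e3]
      have f₁ : Cn 2 (tsl (ϱ₁ n, 0) (g₁' - g₁)) univ (ε / 2) := (cn_tsl (I := univ) _).2 d₁
      have f₂ : Cn 2 (tsl (-ϱ₂ n, 0) (g₂' - g₂)) univ (ε / 2) := (cn_tsl (I := univ) _).2 d₂
      exact (Cn.add (contDiff_tsl (m₁.bdd.sub n₁.bdd).1 _) (contDiff_tsl (m₂.bdd.sub n₂.bdd).1 _)
        f₁ f₂).up_JetC (add_halves ε).le)
    (tf_append_SgnG _ _ tK tK') (tf_append_SgnG _ _ tL tL') (Bij.mono hn (by linarith))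
  rw [← s₃, ← sign_trOp ho o₃ ((ϱ₂ n - ϱ₁ n) / 2), glue_SgnG h₁ h₂ e₁ e₂ q₁' q₂' K L M K' L' M' g2 g3,
    g1, s₁, s₂]

end

end Pool.Agent.P.MP_de3acd_gt.FH
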