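import Pool.Agent.P.MP_de3acd_gt.FH.GL
import Pool.Agent.P.MP_de3acd_gt.FH.SgnG
import Pool.Agent.P.MP_de3acd_gt.FH.FinA

/-! Gluing at an end of the moduli space of the homotopy.
Sketch: pw 1 v g y ϱ = pre ϱ 0 v g y, pw (-1) v g y ϱ = pre 0 ϱ g v y (tsl_zero). glue_nl with N = ℝ, atTop, the constant family X, control ρ from Fam.ctl,
s₀ = 0, m = 0, L ϱ = tsl (σ ϱ, 0) l, t ϱ = -pair (g - lp y) (L ϱ) → 0 (abs_pair_le, Pth.cn). cr_pre with nk_left / nk_right. sign_glue (X₁ = sta Y, fld_sta)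
gives the uniform bound and the sign for the frame K = kr g (Fin.append of ![] and ![a] is ![a]: funext, fin_cases); replace kr g by kr (pw ..) with
var_tendsto_loc, locC_pre, norm_blk_sub_le, norm_kmap_sub_le, Bij.eventually, and sign_path along the segment of frames (tendsto_nrm_seg); then sign_path along
the segment from (pw, r₀) to (u, r) with K τ = kr at the point of the segment (pth_seg, var_mem, var_tendsto with k = 0, nrm_smul). -/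

open Set Filter Topology MeasureTheory
open scoped ContDiff NNReal ENNReal RealInnerProductSpace

namespace Pool.Agent.P.MP_de3acd_gt.FH

noncomputable section

variable {V : Type} [NormedAddCommGroup V] [InnerProductSpace ℝ V] [Sym V]

variable {J : ℝ → V → V →L[ℝ] V} {X : ℝ → Pl → V → V} {R σ r₀ : ℝ} {Y : ℝ → V → V} {x y z : ℝ → V}
  {v l g : Pl → V} {o : ∀ a b, Op V a b → ℤˣ} {η : ℕ → ℕ → ℕ → ℕ → ℤˣ}

theorem tsl0_EndG {α : Type} (f : Pl → α) : tsl ((0 : ℝ), (0 : ℝ)) f = f := tsl_zero f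

theorem loop_EndG (h : KData J X R Y) (hx : Orb 1 Y x) :
    ContDiff ℝ ∞ x ∧ ∀ t, x (t + 1) = x t := ⟨Orb.contDiff h.fData.spl.1 hx, Orb.per hx⟩

theorem frame_EndG (ho : Coh Ω0 ⊥ o) {Y' : ℝ → V → V} (h : PData J X R Y Y' x z) {w K K' L : Pl → V}
    (hw : Pth x z w) (hK : K ∈ Dsub V) (hK' : K' ∈ Dsub V) (hL : L ∈ Dsub V) {c : ℝ} (hc : 0 ≤ c)
    (hb : Bij (frm (Du J (X r₀) w) ![K] ![L] ![![0]]) c)
    (e : 2 * c * ‖toW 1 K' - toW 1 K‖ ≤ 1) :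
    Bij (frm (Du J (X r₀) w) ![K'] ![L] ![![0]]) (2 * c) ∧
      o 1 1 (lop 1 J (X r₀) x z w ![K'] ![L] ![![0]]) =
        o 1 1 (lop 1 J (X r₀) x z w ![K] ![L] ![![0]]) := by
  have b : ∀ τ ∈ Icc (0 : ℝ) 1,
      Bij (frm (Du J (X r₀) w) ![K + τ • (K' - K)] ![L] ![![0]]) (2 * c) := fun τ hτ => by
    refine hb.perturb hc ((mul_le_mul_of_nonneg_left ((norm_blk_sub_le _ _ _ _ _ _ _ _).trans ?_)
      (by positivity)).trans e)
    simp only [sub_self, norm_zero, add_zero, zero_add]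
    refine (norm_kmap_sub_le _ _).trans ?_
    have e1 : toW 1 (K + τ • (K' - K)) = toW 1 K + τ • (toW 1 K' - toW 1 K) := by
      have := toW_co 1 ((⟨K, hK⟩ : Dsub V) + τ • (⟨K', hK'⟩ - ⟨K, hK⟩))
      rwa [map_add, map_smul, map_sub, ← toW_co, ← toW_co] at this
    rw [Fin.sum_univ_one, Matrix.cons_val_zero, Matrix.cons_val_zero, e1, add_sub_cancel_left,
      norm_smul, Real.norm_of_nonneg hτ.1]
    exact mul_le_of_le_one_left (norm_nonneg _) hτ.2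
  have tL : TF ![L] := Fin.forall_fin_one.2 hL
  have s := h.sign_path ho (p := r₀) (p' := r₀) hw hw (K := fun τ => ![K + τ • (K' - K)])
    (M := ![![0]]) (M' := ![![0]])
    (fun τ => Fin.forall_fin_one.2 (add_mem hK (Submodule.smul_mem _ _ (sub_mem hK' hK)))) tL tL
    (fun τ₀ => Fin.forall_fin_one.2 (tendsto_nrm_seg hK hK' τ₀)) fun τ hτ => by
      simp only [sub_self, smul_zero, add_zero]
      exact (b τ hτ).1
  have b1 := b 1 ⟨zero_le_one, le_rfl⟩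
  simp only [one_smul, zero_smul, add_zero, add_sub_cancel] at s b1
  exact ⟨b1, s⟩

theorem seg_EndG (ho : Coh Ω0 ⊥ o) {Y' : ℝ → V → V} (h : PData J X R Y Y' x z) {w u L : Pl → V}
    (hw : Pth x z w) (hu : Pth x z u) (hL : L ∈ Dsub V) {ε r : ℝ}
    (hb : ∀ u r, Pth x z u → nrm 2 (u - w) univ ≤ ENNReal.ofReal (ε ^ 2) → |r - r₀| ≤ ε →
      Function.Bijective (frm (Du J (X r) u) ![kr J X r u] ![L] ![![0]]))
    (e : nrm 2 (u - w) univ ≤ ENNReal.ofReal (ε ^ 2)) (e' : |r - r₀| ≤ ε) :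
    o 1 1 (lop 1 J (X r) x z u ![kr J X r u] ![L] ![![0]]) =
      o 1 1 (lop 1 J (X r₀) x z w ![kr J X r₀ w] ![L] ![![0]]) := by
  have tL : TF ![L] := Fin.forall_fin_one.2 hL
  have bd := hu.bdd.sub hw.bdd
  obtain ⟨A, -, hA⟩ := bd.cn 0
  have s := h.sign_path ho (p := r₀) (p' := r) hw hu
    (K := fun τ => ![kr J X (r₀ + τ • (r - r₀)) (w + τ • (u - w))]) (M := ![![0]]) (M' := ![![0]])
    (fun τ => Fin.forall_fin_one.2 (h.var_mem (h.pth_seg hw hu τ) _ _)) tL tL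
    (fun τ₀ => Fin.forall_fin_one.2 (h.var_tendsto (a := fun τ : ℝ => r₀ + τ • (r - r₀))
      (Continuous.tendsto (by fun_prop) τ₀) (fun τ => (h.pth_seg hw hu τ).bdd.1)
      (h.pth_seg hw hu τ₀) (fun δ hδ => by
        have c : Continuous fun τ : ℝ => |τ - τ₀| * A := by fun_prop
        refine ((c.tendsto' τ₀ 0 (by simp)).eventually (eventually_le_nhds hδ)).mono fun τ hτ => ?_
        rw [seg_SgnA]
        exact (cn_smul_SgnA _ bd.1 hA).mono le_rfl subset_rfl hτ) 1)) fun τ hτ => by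
      simp only [sub_self, smul_zero, add_zero]
      refine hb _ _ (h.pth_seg hw hu τ) ?_ ?_
      · rw [add_sub_cancel_left, nrm_smul _ _ bd.1]
        exact (mul_le_of_le_one_left' (ENNReal.ofReal_le_one.2 (pow_le_one₀ hτ.1 hτ.2))).trans e
      · rw [add_sub_cancel_left, smul_eq_mul, abs_mul, abs_of_nonneg hτ.1]
        exact (mul_le_of_le_one_left (abs_nonneg _) hτ.2).trans e'
  simpa only [one_smul, zero_smul, add_zero, add_sub_cancel] using s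

theorem core_EndG (ho : Coh Ω0 ⊥ o) (h : KData J X R Y) (hx : Orb 1 Y x) (hz : Orb 1 Y z)
    {w L : ℝ → Pl → V} {t : ℝ → ℝ} {S : ℤˣ} {A c : ℝ} (hw : ∀ ϱ, Pth x z (w ϱ))
    (hA : ∀ ϱ, Cn 3 (w ϱ) univ A) (hl : LocC atTop w g) (bg : Bdd g) (pg : Per g)
    (hK : kr J X r₀ g ∈ Dsub V) (hL : ∀ ϱ, L ϱ ∈ Dsub V)
    (h0 : Tendsto (fun ϱ => nrm 1 (cr J (X r₀) (w ϱ)) univ) atTop (𝓝 0)) (hc : 0 < c)
    (hb : ∀ᶠ ϱ in atTop, Bij (frm (Du J (X r₀) (w ϱ)) ![kr J X r₀ g] ![L ϱ] ![![0]]) c ∧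
      o 1 1 (lop 1 J (X r₀) x z (w ϱ) ![kr J X r₀ g] ![L ϱ] ![![0]]) = S)
    (ht : Tendsto t atTop (𝓝 0)) : ∃ ε > 0,
      (∀ᶠ ϱ in atTop, ∀ u r, Pth x z u → nrm 2 (u - w ϱ) univ ≤ ENNReal.ofReal (ε ^ 2) →
        |r - r₀| ≤ ε → Ok Ω0 ⊥ (lop 1 J (X r) x z u ![kr J X r u] ![L ϱ] ![![0]]) ∧
          o 1 1 (lop 1 J (X r) x z u ![kr J X r u] ![L ϱ] ![![0]]) = S) ∧
      (∀ᶠ ϱ in atTop, ∀ u r u' r', Nice J (X r) x z u → Nice J (X r') x z u' →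
        nrm 2 (u - w ϱ) univ ≤ ENNReal.ofReal (ε ^ 2) → |r - r₀| ≤ ε →
        nrm 2 (u' - w ϱ) univ ≤ ENNReal.ofReal (ε ^ 2) → |r' - r₀| ≤ ε →
        pair Ω0 u (L ϱ) = pair Ω0 u' (L ϱ) → u = u' ∧ r = r') ∧
      ∀ ε' > 0, ∀ᶠ ϱ in atTop, ∃ u r, Nice J (X r) x z u ∧
        nrm 2 (u - w ϱ) univ ≤ ENNReal.ofReal (ε' ^ 2) ∧ |r - r₀| ≤ ε' ∧
          pair Ω0 u (L ϱ) = pair Ω0 (w ϱ) (L ϱ) + t ϱ := by
  have P := h.fData.pData hx hz
  have hv := var_tendsto_loc h.acs.1 h.fam (fun a p z hp => h.dX a 1 p z hp)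
    (tendsto_const_nhds (x := r₀)) (fun ϱ => ⟨(hw ϱ).bdd.1, (hw ϱ).per⟩) bg pg hl
  have hv' := hv.norm.const_mul (2 * c)
  rw [norm_zero, mul_zero] at hv'
  have hb' := (hb.and (hv'.eventually (eventually_le_nhds one_pos))).mono fun ϱ e =>
    (frame_EndG ho P (hw ϱ) hK (P.var_mem (hw ϱ) r₀ 1) (hL ϱ) hc.le e.1.1 e.2).imp_right
      fun a => a.trans e.1.2
  obtain ⟨𝕏, ρ, hX, bρ, -, -, -, eX⟩ := h.fam.ctl
  obtain ⟨B, -, hB⟩ := bρ.cn 2
  have hY : ∀ r (p : Pl), R ≤ |p.1| → X r p = Y p.2 := fun r p hp => by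
    rcases le_abs'.1 hp with a | a
    · exact congrFun ((h.fam.left r _ a).trans (h.left r)) p.2
    · exact congrFun ((h.fam.right r _ a).trans (h.right r)) p.2
  obtain ⟨ε, hε, g1, g2, g3⟩ := glue_nl h.acs hX (l := atTop) (X := fun _ => X)
    (κ := fun _ p => ρ p.1) (w := w) (L := L) (s₀ := fun _ => 0) (t := t) (x := x) (z := z)
    (r₀ := r₀) (m := 0) (A := max (max A B) R) (c := 2 * c) (fun _ r => eX r)
    (fun ϱ => ⟨bρ, fun _ _ => rfl,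
      hB.mono le_rfl subset_rfl ((le_max_right _ _).trans (le_max_left _ _)), hw ϱ,
      (hA ϱ).mono le_rfl subset_rfl ((le_max_left _ _).trans (le_max_left _ _)), hL ϱ,
      fun r p v hp => by
        have hp' : R ≤ |p.1| := (le_max_right _ _).trans (hp.trans_eq (by rw [sub_zero]))
        rw [hY r p hp', hY r₀ p hp'],
      R, fun r => ⟨h.fam.fld r, (P.gorb r).1.1, (P.gorb r).2.1⟩⟩)
    h0 (by positivity) (hb'.mono fun ϱ e => e.1) ht
  refine ⟨ε, hε, (g1.and hb').mono fun ϱ e u r hu e1 e2 => ⟨?_, ?_⟩,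
    g2.mono fun ϱ e u r u' r' hu hu' e1 e2 e3 e4 e5 => e u r u' r' hu hu' e1 e2 e3 e4 ?_,
    fun ε' hε' => (g3 ε' hε').mono ?_⟩
  · exact (ok_lop_iff h.acs (h.fam.fld r) (P.gorb r).1 (P.gorb r).2 hu _ _ _).2
      ⟨Fin.forall_fin_one.2 (P.var_mem hu r 1), Fin.forall_fin_one.2 (hL ϱ), e.1 u r hu e1 e2⟩
  · exact (seg_EndG ho P (hw ϱ) hu (hL ϱ) e.1 e1 e2).trans e.2.2
  · rw [pair_sub hu.bdd.1.continuous (hw ϱ).bdd.1.continuous (hL ϱ),
      pair_sub hu'.bdd.1.continuous (hw ϱ).bdd.1.continuous (hL ϱ), e5, zero_mul, zero_mul]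
  · rintro ϱ ⟨u, r, hu, e1, e2, e3⟩
    rw [pair_sub hu.bdd.1.continuous (hw ϱ).bdd.1.continuous (hL ϱ), zero_mul, add_zero] at e3
    exact ⟨u, r, hu, e1, e2, by linarith only [e3]⟩

theorem pw_one (v g : Pl → V) (y : ℝ → V) (ϱ : ℝ) : pw 1 v g y ϱ = pre ϱ 0 v g y := by
  rw [pw, pre, one_mul, neg_zero, tsl0_EndG]

theorem pw_neg_one (v g : Pl → V) (y : ℝ → V) (ϱ : ℝ) : pw (-1) v g y ϱ = pre 0 ϱ g v y := by
  rw [pw, pre, neg_one_mul, tsl0_EndG, add_comm]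

theorem EData.pth (h : KData J X R Y) (hx : Orb 1 Y x) (hz : Orb 1 Y z)
    (e : EData J X Y x z σ y v l r₀ g) (ϱ : ℝ) : Pth x z (pw σ v g y ϱ) := by
  obtain ⟨sx, -⟩ := loop_EndG h hx
  obtain ⟨sy, py⟩ := loop_EndG h e.oy
  obtain ⟨sz, -⟩ := loop_EndG h hz
  rcases e.side with ⟨rfl, -, hN, hK⟩ | ⟨rfl, -, hK, hN⟩
  · rw [pw_one]
    exact pth_pre hN.nice.pth hK.nice.pth sx sy sz py _ _
  · rw [pw_neg_one]
    exact pth_pre hK.nice.pth hN.nice.pth sx sy sz py _ _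

theorem EData.locC (h : KData J X R Y) (hx : Orb 1 Y x) (hz : Orb 1 Y z)
    (e : EData J X Y x z σ y v l r₀ g) : LocC atTop (pw σ v g y) g := by
  obtain ⟨sx, px⟩ := loop_EndG h hx
  obtain ⟨sy, py⟩ := loop_EndG h e.oy
  obtain ⟨sz, pz⟩ := loop_EndG h hz
  rcases e.side with ⟨rfl, -, hN, hK⟩ | ⟨rfl, -, hK, hN⟩
  · have := (locC_pre (ϱ₁ := fun ϱ : ℝ => ϱ) (ϱ₂ := fun _ => 0) (l := atTop) hN.nice.pth hK.nice.pth
      sx sy sz px py pz (tendsto_atTop_add_const_right _ _ tendsto_id)).2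
    simp only [tsl0_EndG, ← pw_one] at this
    exact this
  · have := (locC_pre (ϱ₁ := fun _ => 0) (ϱ₂ := fun ϱ : ℝ => ϱ) (l := atTop) hK.nice.pth hN.nice.pth
      sx sy sz px py pz (tendsto_atTop_add_const_left _ _ tendsto_id)).1
    simp only [neg_zero, tsl0_EndG, ← pw_neg_one] at this
    exact this

theorem EData.small (h : KData J X R Y) (hx : Orb 1 Y x) (hz : Orb 1 Y z)
    (e : EData J X Y x z σ y v l r₀ g) {l' : Pl → V} (hl : l' ∈ Dsub V) :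
    Tendsto (fun ϱ : ℝ => pair Ω0 (g - lp y) (tsl (σ * ϱ, 0) l')) atTop (𝓝 0) := by
  obtain ⟨sx, px⟩ := loop_EndG h hx
  obtain ⟨sy, py⟩ := loop_EndG h e.oy
  obtain ⟨sz, pz⟩ := loop_EndG h hz
  obtain ⟨C, hC, H⟩ := abs_pair_le hl
  obtain ⟨-, -, T, hT⟩ := hl
  have hT' := fun p (hp : l' p ≠ 0) => abs_lt.1 (not_le.1 (mt (hT p) hp))
  have key : ∀ {a b : ℝ → V}, Pth a b g → (∀ ε > 0, ∀ᶠ ϱ in atTop, ∀ p, l' p ≠ 0 →
      ‖(g - lp y) (p - (σ * ϱ, 0))‖ ≤ ε) →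
      Tendsto (fun ϱ : ℝ => pair Ω0 (g - lp y) (tsl (σ * ϱ, 0) l')) atTop (𝓝 0) := by
    intro a b hg hs
    refine Metric.tendsto_nhds.2 fun ε hε => (hs (ε / (C + 1)) (by positivity)).mono fun ϱ hϱ => ?_
    rw [Real.dist_eq, sub_zero]
    refine (H _ _ _ (hg.bdd.sub (bdd_lp sy py).1).1.continuous
      (per_sub_PD hg.per (bdd_lp sy py).2.1) (by positivity) hϱ).trans_lt ?_
    rw [← mul_div_assoc, div_lt_iff₀ (by positivity)]
    linarith only [hε]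
  rcases e.side with ⟨rfl, -, -, hK⟩ | ⟨rfl, -, hK, -⟩
  · refine key hK.nice.pth fun ε hε => ?_
    obtain ⟨S, hS, -⟩ := hK.nice.pth.cn sy sz py pz 0 hε
    refine (eventually_ge_atTop (T + S)).mono fun ϱ hϱ p hp => hS _ ?_
    show p.1 - 1 * ϱ ≤ -S
    linarith only [hϱ, (hT' p hp).2]
  · refine key hK.nice.pth fun ε hε => ?_
    obtain ⟨S, -, hS⟩ := hK.nice.pth.cn sx sy px py 0 hε
    refine (eventually_ge_atTop (T + S)).mono fun ϱ hϱ p hp => hS _ ?_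
    show S ≤ p.1 - -1 * ϱ
    linarith only [hϱ, (hT' p hp).1]

theorem EData.glue (ho : Coh Ω0 ⊥ o) (hη : Glu Ω0 ⊥ o η) (h : KData J X R Y) (hx : Orb 1 Y x)
    (hz : Orb 1 Y z) (e : EData J X Y x z σ y v l r₀ g) : ∃ ε > 0,
      (∀ᶠ ϱ in atTop, ∀ u r, Pth x z u → nrm 2 (u - pw σ v g y ϱ) univ ≤ ENNReal.ofReal (ε ^ 2) →
        |r - r₀| ≤ ε → Ok Ω0 ⊥ (lop 1 J (X r) x z u ![kr J X r u] ![tsl (σ * ϱ, 0) l] ![![0]]) ∧
          (σ = 1 → o 1 1 (lop 1 J (X r) x z u ![kr J X r u] ![tsl (σ * ϱ, 0) l] ![![0]]) =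
            η 0 1 1 0 * o 0 1 (lop 1 J (sta Y) x y v ![] ![l] ![![]]) *
              o 1 0 (lop 1 J (X r₀) y z g ![kr J X r₀ g] ![] ![])) ∧
          (σ = -1 → o 1 1 (lop 1 J (X r) x z u ![kr J X r u] ![tsl (σ * ϱ, 0) l] ![![0]]) =
            η 1 0 0 1 * o 1 0 (lop 1 J (X r₀) x y g ![kr J X r₀ g] ![] ![]) *
              o 0 1 (lop 1 J (sta Y) y z v ![] ![l] ![![]]))) ∧
      (∀ᶠ ϱ in atTop, ∀ u r u' r', Nice J (X r) x z u → Nice J (X r') x z u' →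
        nrm 2 (u - pw σ v g y ϱ) univ ≤ ENNReal.ofReal (ε ^ 2) → |r - r₀| ≤ ε →
        nrm 2 (u' - pw σ v g y ϱ) univ ≤ ENNReal.ofReal (ε ^ 2) → |r' - r₀| ≤ ε →
        pair Ω0 u (tsl (σ * ϱ, 0) l) = pair Ω0 u' (tsl (σ * ϱ, 0) l) → u = u' ∧ r = r') ∧
      ∀ ε' > 0, ∀ᶠ ϱ in atTop, ∃ u r, Nice J (X r) x z u ∧
        nrm 2 (u - pw σ v g y ϱ) univ ≤ ENNReal.ofReal (ε' ^ 2) ∧ |r - r₀| ≤ ε' ∧
          pair Ω0 u (tsl (σ * ϱ, 0) l) = pair Ω0 v l := by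
  obtain ⟨sx, px⟩ := loop_EndG h hx
  obtain ⟨sy, py⟩ := loop_EndG h e.oy
  obtain ⟨sz, pz⟩ := loop_EndG h hz
  have hY := h.fData.spl
  have fY := fld_sta hY h.fam.nonneg
  have fin : ∀ {a b : ℝ → V}, Pth a b v → ∀ {a' b' : ℝ → V}, Pth a' b' g → l ∈ Dsub V → ∀ ϱ,
      pair Ω0 (pw σ v g y ϱ) (tsl (σ * ϱ, 0) l) + -pair Ω0 (g - lp y) (tsl (σ * ϱ, 0) l) =
        pair Ω0 v l := fun hv _ _ hg hl ϱ => by
    rw [pw, add_sub_assoc, pair_add (hv.bdd.tsl _).1.continuous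
      (hg.bdd.sub (bdd_lp sy py).1).1.continuous (tsl_mem hl _),
      pair_tsl hv.bdd.1.continuous hv.per hl, add_neg_cancel_right]
  rcases e.side with ⟨rfl, -, hN, hK⟩ | ⟨rfl, -, hK, hN⟩
  · have hl := (hN.props h.acs hY (h.nd x hx) (h.nd y e.oy)).1
    obtain ⟨A, hA⟩ := cn_pre hN.nice.bdd hK.nice.bdd sy py 3
    have hϱ : Tendsto (fun ϱ : ℝ => ϱ + 0) atTop atTop :=
      tendsto_atTop_add_const_right _ _ tendsto_id
    have h0 := cr_pre h.acs.1 fY (h.fam.fld r₀) (frz_sta _ _) (h.left r₀) hN.nice hK.nice sx sy sz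
      py hϱ
    obtain ⟨c, hc, hb⟩ := sign_glue ho hη h.acs fY (h.fam.fld r₀) (frz_sta _ _) (h.left r₀)
      (h.nd x hx) (h.nd y e.oy) ((h.right r₀).symm ▸ h.nd z hz) hN.nice.pth hK.nice.pth hN.ok hK.ok
      hϱ
    simp only [nk_left, ← pw_one] at h0 hb
    obtain ⟨ε, hε, g1, g2, g3⟩ := core_EndG ho h hx hz (L := fun ϱ => tsl (1 * ϱ, 0) l)
      (e.pth h hx hz) (fun ϱ => pw_one v g y ϱ ▸ hA _ _) (e.locC h hx hz) hK.nice.bdd hK.nice.per
      ((h.fData.pData e.oy hz).var_mem hK.nice.pth r₀ 1) (fun _ => tsl_mem hl _) h0 hc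
      (hb.mono fun ϱ hb => by
        have e1 : (Fin.append (fun i => tsl (ϱ, 0) (![] i)) fun i =>
            tsl (-0, 0) (![kr J X r₀ g] i)) = ![kr J X r₀ g] := funext <| Fin.forall_fin_one.2 <| by
          rw [neg_zero]
          exact tsl0_EndG (kr J X r₀ g)
        have e2 : (Fin.append (fun i => tsl (ϱ, 0) (![l] i)) fun i =>
            tsl (-0, 0) (![] i)) = ![tsl (1 * ϱ, 0) l] := funext <| Fin.forall_fin_one.2 <| by
          rw [one_mul]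
          rfl
        have e3 : (Fin.append (fun i => Fin.append (![![]] i) 0) fun i =>
            Fin.append 0 (![] i) : Fin (1 + 0) → Fin (0 + 1) → ℝ) = ![![0]] :=
          funext <| Fin.forall_fin_one.2 <| funext <| Fin.forall_fin_one.2 rfl
        rw [e1, e2, e3] at hb
        exact hb) (by simpa only [neg_zero] using (e.small h hx hz hl).neg)
    simp only [fin hN.nice.pth hK.nice.pth hl] at g3
    exact ⟨ε, hε, g1.mono fun ϱ a u r b c d => ⟨(a u r b c d).1, fun _ => (a u r b c d).2,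
      fun a => absurd a (by norm_num)⟩, g2, g3⟩
  · have hl := (hN.props h.acs hY (h.nd y e.oy) (h.nd z hz)).1
    obtain ⟨A, hA⟩ := cn_pre hK.nice.bdd hN.nice.bdd sy py 3
    have hϱ : Tendsto (fun ϱ : ℝ => 0 + ϱ) atTop atTop :=
      tendsto_atTop_add_const_left _ _ tendsto_id
    have h0 := cr_pre h.acs.1 (h.fam.fld r₀) fY (h.right r₀) (frz_sta _ _) hK.nice hN.nice sx sy sz
      py hϱ
    obtain ⟨c, hc, hb⟩ := sign_glue ho hη h.acs (h.fam.fld r₀) fY (h.right r₀) (frz_sta _ _)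
      ((h.left r₀).symm ▸ h.nd x hx) (h.nd y e.oy) (h.nd z hz) hK.nice.pth hN.nice.pth hK.ok hN.ok
      hϱ
    simp only [nk_right, ← pw_neg_one] at h0 hb
    obtain ⟨ε, hε, g1, g2, g3⟩ := core_EndG ho h hx hz (L := fun ϱ => tsl (-1 * ϱ, 0) l)
      (e.pth h hx hz) (fun ϱ => pw_neg_one v g y ϱ ▸ hA _ _) (e.locC h hx hz) hK.nice.bdd
      hK.nice.per ((h.fData.pData hx e.oy).var_mem hK.nice.pth r₀ 1) (fun _ => tsl_mem hl _) h0 hc
      (hb.mono fun ϱ hb => by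
        have e1 : (Fin.append (fun i => tsl (0, 0) (![kr J X r₀ g] i)) fun i =>
            tsl (-ϱ, 0) (![] i)) = ![kr J X r₀ g] := funext <| Fin.forall_fin_one.2 <|
          tsl0_EndG (kr J X r₀ g)
        have e2 : (Fin.append (fun i => tsl (0, 0) (![] i)) fun i =>
            tsl (-ϱ, 0) (![l] i)) = ![tsl (-1 * ϱ, 0) l] := funext <| Fin.forall_fin_one.2 <| by
          rw [neg_one_mul]
          rfl
        have e3 : (Fin.append (fun i => Fin.append (![] i) 0) fun i =>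
            Fin.append 0 (![![]] i) : Fin (0 + 1) → Fin (1 + 0) → ℝ) = ![![0]] :=
          funext <| Fin.forall_fin_one.2 <| funext <| Fin.forall_fin_one.2 rfl
        rw [e1, e2, e3] at hb
        exact hb) (by simpa only [neg_zero] using (e.small h hx hz hl).neg)
    simp only [fin hN.nice.pth hK.nice.pth hl] at g3
    exact ⟨ε, hε, g1.mono fun ϱ a u r b c d => ⟨(a u r b c d).1, fun a => absurd a (by norm_num),
      fun _ => (a u r b c d).2⟩, g2, g3⟩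

end

end Pool.Agent.P.MP_de3acd_gt.FH
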