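import Pool.Agent.P.MP_de3acd_gt.FH.FinN
import Pool.Agent.P.MP_de3acd_gt.FH.EndG

/-! Compactness of the moduli space of the homotopy.
Sketch: exists_ends: T = {y | Orb ∧ ∃ v l r g, IsN ∧ IsK}; dec and low bound the gaps, apb at x (with X 0 = sta Y), Pth.inB, NdB.finite, exists_reps, finite_isK, choose.
compact: subsequence with r converging (isCompact_Icc.tendsto_subseq); bl1 with m = -1, d = 0, RegA.lo, apb; hm from good (HasIdx.coprod, HasIdx.nonneg).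
First alternative: wc_iff. Second alternative: the gap of g is smaller than A x - A z (Dec), so good and isK_iff' give IsK; exists_isN; x ≠ x' by Dec;
pw_one, pw_neg_one, wc_iff. -/

open Set Filter Topology MeasureTheory
open scoped ContDiff NNReal ENNReal RealInnerProductSpace

namespace Pool.Agent.P.MP_de3acd_gt.FH

noncomputable section

variable {V : Type} [NormedAddCommGroup V] [InnerProductSpace ℝ V] [Sym V]

variable {J : ℝ → V → V →L[ℝ] V} {X : ℝ → Pl → V → V} {R c : ℝ} {Y : ℝ → V → V} {x z : ℝ → V}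
  {A : (ℝ → V) → ℝ}

theorem HData.compact (h : HData J X R Y A c) (hx : Orb 1 Y x) (hz : Orb 1 Y z) (hg : A x - A z ≤ 0)
    {q : ℕ → W 2 V × ℝ} (hq : ∀ n, q n ∈ Z0 J X x z ∧ (q n).2 ∈ Icc (0 : ℝ) 1) :
    ∃ φ : ℕ → ℕ, StrictMono φ ∧ ((∃ q₀ ∈ Z0 J X x z, Tendsto (fun n => q (φ n)) atTop (𝓝 q₀)) ∨
      ∃ (σ : ℝ) (y : ℝ → V) (v l : Pl → V) (r₀ : ℝ) (g : Pl → V) (ϱ : ℕ → ℝ),
        EData J X Y x z σ y v l r₀ g ∧ Tendsto ϱ atTop atTop ∧
          Tendsto (fun n => dist (q (φ n)) (xi x z (pw σ v g y (ϱ n)), r₀)) atTop (𝓝 0)) := by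
  have fd := h.kData.fData
  have hY : SP Y := fd.spl
  choose u hu e1 hi using fun n => (hq n).1
  obtain ⟨r₀, -, ψ, hψ, hr⟩ := isCompact_Icc.tendsto_subseq fun n => (hq n).2
  obtain ⟨B, hB⟩ := h.apb x hx
  have hm : ∀ x' y' g d, Orb 1 Y x' → Orb 1 Y y' → Nice J (X r₀) x' y' g →
      A x' - A y' < A x - A z → HasIdx (Du J (X r₀) g) d → -1 ≤ d := by
    intro x' y' g d ox oy hn hl hd
    by_cases h0 : d ≤ 0
    · have := (hd.coprod (kmap ![kr J X r₀ g])).nonneg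
        (h.good x' y' ox oy (by linarith) r₀ g d hn hd h0)
      simp only [Module.finrank_fin_fun, Nat.cast_one] at this
      omega
    · omega
  obtain ⟨φ, hφ, H⟩ := bl1 (u := fun n => u (ψ n)) (d := fun _ => 0) (B := B) fd (a₀ := r₀)
    (h.left r₀) (h.right r₀) hx hz h.dec h.dec (h.low r₀) (h.reg.lo h.acs hY A _)
    (h.reg.lo h.acs hY A _) hm hr fun n =>
      ⟨hu _, hB _ z _ hz (hu _) (hg.trans h.nonneg), hi _, by norm_num⟩
  have hr' : Tendsto (fun n => dist (q (ψ (φ n))).2 r₀) atTop (𝓝 0) :=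
    tendsto_iff_dist_tendsto_zero.1 (hr.comp hφ.tendsto_atTop)
  have key : ∀ w : ℕ → Pl → V, (∀ n, Pth x z (w n)) → WC atTop (fun n => u (ψ (φ n))) w →
      Tendsto (fun n => dist (q (ψ (φ n))) (xi x z (w n), r₀)) atTop (𝓝 0) := by
    intro w hw hc
    have := (((fd.pData hx hz).wc_iff (fun n => (hu _).pth) hw).1 hc).max hr'
    rw [max_self] at this
    refine this.congr fun n => ?_
    rw [Prod.dist_eq, e1]
  refine ⟨ψ ∘ φ, hψ.comp hφ, ?_⟩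
  rcases H with ⟨g, ng, wc, ev⟩ | ⟨-, y, v, g, ϱ, hϱ, nv, ig, -, -, H⟩
  · exact Or.inl ⟨(xi x z g, r₀), ⟨g, ng, rfl, ev.exists.choose_spec⟩,
      tendsto_iff_dist_tendsto_zero.2 (key _ (fun _ => ng.pth) wc)⟩
  · right
    rcases H with ⟨oy, hv, iv, ng, wc⟩ | ⟨oy, hv, iv, ng, wc⟩
    · have lt := h.dec x y v hx oy hv nv
      obtain ⟨l, hl⟩ := exists_isN h.acs hY (h.nd x hx) (h.nd y oy) hv iv (h.reg x y v hx oy hv)
      have e : EData J X Y x z 1 y v l r₀ g := ⟨oy, Or.inl ⟨rfl, fun e => lt.ne (by rw [e]), hl,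
        (fd.pData oy hz).isK_iff'.2
          ⟨ng, ig, h.good y z oy hz (by linarith) r₀ g _ ng ig (by norm_num)⟩⟩⟩
      refine ⟨1, y, v, l, r₀, g, ϱ, e, hϱ, key _ (fun n => e.pth h.kData hx hz _) ?_⟩
      simpa only [pw_one] using wc
    · have lt := h.dec y z v oy hz hv nv
      obtain ⟨l, hl⟩ := exists_isN h.acs hY (h.nd y oy) (h.nd z hz) hv iv (h.reg y z v oy hz hv)
      have e : EData J X Y x z (-1) y v l r₀ g := ⟨oy, Or.inr ⟨rfl, fun e => lt.ne (by rw [e]),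
        (fd.pData hx oy).isK_iff'.2
          ⟨ng, ig, h.good x y hx oy (by linarith) r₀ g _ ng ig (by norm_num)⟩, hl⟩⟩
      refine ⟨-1, y, v, l, r₀, g, ϱ, e, hϱ, key _ (fun n => e.pth h.kData hx hz _) ?_⟩
      simpa only [pw_neg_one] using wc

/-- The finite set of ends. -/
theorem HData.exists_ends {o : ∀ a b, Op V a b → ℤˣ} (ho : Coh Ω0 ⊥ o) (h : HData J X R Y A c)
    (hx : Orb 1 Y x) (hz : Orb 1 Y z) (hg : A x - A z ≤ 0) :
    ∃ (T T' : Finset (ℝ → V)) (P P' : (ℝ → V) → Finset (Pl → V)) (L L' : (ℝ → V) → (Pl → V) → Pl → V)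
      (K K' : (ℝ → V) → Finset (ℝ × (Pl → V))),
      (∀ y ∈ T, Orb 1 Y y ∧ Reps o J Y x y (P y) (L y) ∧ ∀ m, m ∈ K y ↔ IsK J X y z m.1 m.2) ∧
      (∀ y ∈ T', Orb 1 Y y ∧ Reps o J Y y z (P' y) (L' y) ∧ ∀ m, m ∈ K' y ↔ IsK J X x y m.1 m.2) ∧
      (∀ y v l r g, Orb 1 Y y → IsN J Y x y v l → IsK J X y z r g → y ∈ T) ∧
      ∀ y v l r g, Orb 1 Y y → IsK J X x y r g → IsN J Y y z v l → y ∈ T' := by
  classical
  have fd := h.kData.fData
  have hY : SP Y := fd.spl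
  have z0 : X 0 = sta Y := h.zero 0 le_rfl
  have c0 := h.nonneg
  obtain ⟨B, hB⟩ := h.apb x hx
  have fin : ∀ S : Set (ℝ → V), (∀ y ∈ S, Orb 1 Y y ∧ A x - A y ≤ c ∧ ∃ r u, Nice J (X r) x y u) →
      S.Finite := fun S hS => by
    refine (NdB.finite hY (A := B) fun x ox _ => h.nd x ox).subset fun y hy => ?_
    obtain ⟨oy, le, r, u, nu⟩ := hS y hy
    exact ⟨oy, (nu.pth.inB (Orb.contDiff hY.1 hx) (Orb.contDiff hY.1 oy) hx.2 oy.2
      fun p => (hB r y u oy nu le).1.1 p trivial).2⟩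
  have reps : ∀ a b, Orb 1 Y a → Orb 1 Y b → A a - A b ≤ c → ∃ T L, Reps o J Y a b T L := by
    intro a b oa ob le
    obtain ⟨B', hB'⟩ := h.apb a oa
    exact exists_reps ho h.acs hY h.nd h.reg h.dec oa ob
      (fun u nu => hB' 0 b u ob (z0 ▸ nu) le) fun u cu => h.cyl 0 a b u oa ob (z0 ▸ cu)
  have kf : ∀ a b, Orb 1 Y a → Orb 1 Y b → A a - A b ≤ 0 →
      ∃ K : Finset (ℝ × (Pl → V)), ∀ m, m ∈ K ↔ IsK J X a b m.1 m.2 := fun a b oa ob le =>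
    ⟨(h.finite_isK oa ob le).1.toFinset, fun m => by simp⟩
  have g1 : ∀ y ∈ {y | Orb 1 Y y ∧ ∃ v l r g, IsN J Y x y v l ∧ IsK J X y z r g},
      Orb 1 Y y ∧ A x - A y ≤ c ∧ A y - A z ≤ 0 ∧ ∃ r u, Nice J (X r) x y u := by
    rintro y ⟨oy, v, l, r, g, hn, hk⟩
    have lt := h.dec x y v hx oy hn.nice (hn.props h.acs hY (h.nd x hx) (h.nd y oy)).2.1
    have lw := h.low r y z g oy hz hk.nice
    exact ⟨oy, by linarith, by linarith, 0, v, z0 ▸ hn.nice⟩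
  have g2 : ∀ y ∈ {y | Orb 1 Y y ∧ ∃ v l r g, IsK J X x y r g ∧ IsN J Y y z v l},
      Orb 1 Y y ∧ A y - A z ≤ c ∧ A x - A y ≤ 0 ∧ ∃ r u, Nice J (X r) x y u := by
    rintro y ⟨oy, v, l, r, g, hk, hn⟩
    have lt := h.dec y z v oy hz hn.nice (hn.props h.acs hY (h.nd y oy) (h.nd z hz)).2.1
    have lw := h.low r x y g hx oy hk.nice
    exact ⟨oy, by linarith, by linarith, r, g, hk.nice⟩
  have f1 := fin _ fun y hy => ⟨(g1 y hy).1, (g1 y hy).2.1, (g1 y hy).2.2.2⟩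
  have f2 := fin _ fun y hy => ⟨(g2 y hy).1, (g2 y hy).2.2.1.trans c0, (g2 y hy).2.2.2⟩
  choose! P L hP using fun y (hy : y ∈ f1.toFinset) =>
    reps x y hx (g1 y (f1.mem_toFinset.1 hy)).1 (g1 y (f1.mem_toFinset.1 hy)).2.1
  choose! P' L' hP' using fun y (hy : y ∈ f2.toFinset) =>
    reps y z (g2 y (f2.mem_toFinset.1 hy)).1 hz (g2 y (f2.mem_toFinset.1 hy)).2.1
  choose! K hK using fun y (hy : y ∈ f1.toFinset) =>
    kf y z (g1 y (f1.mem_toFinset.1 hy)).1 hz (g1 y (f1.mem_toFinset.1 hy)).2.2.1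
  choose! K' hK' using fun y (hy : y ∈ f2.toFinset) =>
    kf x y hx (g2 y (f2.mem_toFinset.1 hy)).1 (g2 y (f2.mem_toFinset.1 hy)).2.2.1
  refine ⟨f1.toFinset, f2.toFinset, P, P', L, L', K, K',
    fun y hy => ⟨(f1.mem_toFinset.1 hy).1, hP y hy, hK y hy⟩,
    fun y hy => ⟨(f2.mem_toFinset.1 hy).1, hP' y hy, hK' y hy⟩,
    fun y v l r g oy a b => f1.mem_toFinset.2 ⟨oy, v, l, r, g, a, b⟩,
    fun y v l r g oy a b => f2.mem_toFinset.2 ⟨oy, v, l, r, g, a, b⟩⟩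

end

end Pool.Agent.P.MP_de3acd_gt.FH
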