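import Pool.Agent.P.MP_de3acd_gt.FH.Hom1
import Pool.Agent.P.MP_de3acd_gt.FH.Hom2
import Pool.Agent.P.MP_de3acd_gt.FH.EndV
import Pool.Agent.P.MP_de3acd_gt.FH.AbsHom
import Pool.Agent.P.MP_de3acd_gt.FH.FinN

/-! The homotopy formula.
Sketch: exists_ori, exists_ends; the index type of the ends is the subtype of a Finset, for instance
ι = (T.sigma fun y => P y ×ˢ K y) ⊕ (T'.sigma fun y => K' y ×ˢ P' y); abs_hom with π = snd, t q = o 1 1 (lop 1 J (X q.2) x z (ref x z + fn q.1) ![0] ![0] ![![1]]),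
s = η o o on the left ends and -(η o o) on the right ends. ht: kr_eq_zero, good, frm_triv, Ori.frame with l = 0, m = 1 (prW_zero). hs: EData.glue, Ori.frame with
m = 0; on the right ends use Ori.neg. hc: HData.compact, Reps.all, pw σ (tsl (s, 0) v') g y ϱ = pw σ v' g y (ϱ + σ s). The boundary sets: scnt_bijOn along
u ↦ (xi x z u, 1), mem_solT; at r = 0 only lp x for x = z (one_le_idx, Pth.eq_of_ds, bijective_const, nice_lp). Sums: Finset.sum_sigma, sum_product,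
Reps.sum, scnt_eq_sum with mem_solK; take T ∪ T' (a product nN * nK that is nonzero gives IsN and IsK by mem_solN, mem_solK, scnt_empty). -/

open Set Filter Topology MeasureTheory
open scoped ContDiff NNReal ENNReal RealInnerProductSpace

namespace Pool.Agent.P.MP_de3acd_gt.FH

noncomputable section

variable {V : Type} [NormedAddCommGroup V] [InnerProductSpace ℝ V] [Sym V]

variable {J : ℝ → V → V →L[ℝ] V} {X : ℝ → Pl → V → V} {R c : ℝ} {Y : ℝ → V → V} {x z : ℝ → V}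
  {A : (ℝ → V) → ℝ} {o : ∀ a b, Op V a b → ℤˣ} {η : ℕ → ℕ → ℕ → ℕ → ℤˣ}

theorem dec_Hom3 (h : HData J X R Y A c) {y y' : ℝ → V} {v l : Pl → V} (hy : Orb 1 Y y)
    (hy' : Orb 1 Y y') (e : IsN J Y y y' v l) : A y' < A y :=
  h.dec y y' v hy hy' e.nice
    (e.props h.acs h.kData.fData.spl (h.nd y hy) (h.nd y' hy')).2.1

theorem ioo_Hom3 (h : HData J X R Y A c) (hx : Orb 1 Y x) (hz : Orb 1 Y z) (hg : A x - A z ≤ 0)
    {σ r : ℝ} {y : ℝ → V} {v l g : Pl → V} (e : EData J X Y x z σ y v l r g) :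
    r ∈ Ioo (0 : ℝ) 1 := by
  rcases e.side with ⟨-, -, a, b⟩ | ⟨-, -, b, a⟩
  · exact (h.finite_isK e.oy hz (by linarith [dec_Hom3 h hx e.oy a])).2 r g b
  · exact (h.finite_isK hx e.oy (by linarith [dec_Hom3 h e.oy hz a])).2 r g b

theorem kr_Hom3 (h : HData J X R Y A c) {r : ℝ} (hr : r = 0 ∨ r = 1) (u : Pl → V) :
    kr J X r u = 0 :=
  kr_eq_zero h.fam.smX (fun r hr => (h.zero r hr).trans (h.zero 0 le_rfl).symm) h.one
    (fun e => hr.elim e.1.ne' e.2.ne) u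

theorem bij_Hom3 (h : HData J X R Y A c) (hx : Orb 1 Y x) (hz : Orb 1 Y z) (hg : A x - A z ≤ 0)
    {r : ℝ} (hr : r = 0 ∨ r = 1) {u : Pl → V} (hu : Nice J (X r) x z u)
    (hi : HasIdx (Du J (X r) u) 0) : Function.Bijective (Du J (X r) u) := by
  have := h.good x z hx hz hg r u 0 hu hi le_rfl
  rw [kr_Hom3 h hr, surjective_kmap_zero] at this
  exact hi.bijective_iff.1.1 this

variable {Φ : W 2 V × ℝ → W 1 V} {O : Set (W 2 V × ℝ)} {Pos : W 2 V × ℝ → W 2 V × ℝ → Prop}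

theorem mem_Hom3 (ori : Ori o J X x z Φ O Pos) {q : W 2 V × ℝ} :
    q ∈ O ∧ Φ q = 0 ↔ q ∈ Z0 J X x z := by
  rw [← ori.eq]
  rfl

theorem bdry_Hom3 (h : HData J X R Y A c) (hx : Orb 1 Y x) (hz : Orb 1 Y z) (hg : A x - A z ≤ 0)
    (ori : Ori o J X x z Φ O Pos) {r : ℝ} (hr : r = 0 ∨ r = 1) :
    scnt {q ∈ O | Φ q = 0 ∧ ContinuousLinearMap.snd ℝ (W 2 V) ℝ q = r}
      (fun q => o 1 1 (lop 1 J (X q.2) x z (ref x z + fn q.1) ![0] ![0] ![![1]])) =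
    scnt {u | Nice J (X r) x z u ∧ Function.Bijective (Du J (X r) u)}
      fun u => o 1 1 (lop 1 J (X r) x z u ![0] ![0] ![![1]]) := by
  have pd := h.kData.fData.pData hx hz
  refine scnt_bijOn (f := fun u => (xi x z u, r)) ⟨fun u hu => ?_, fun u hu u' hu' e => ?_, ?_⟩
    fun u hu => ?_
  · have := (mem_Hom3 ori (q := (xi x z u, r))).2 ⟨u, hu.1, rfl, hasIdx_zero_of_bijective hu.2⟩
    exact ⟨this.1, this.2, rfl⟩
  · rw [← (pd.rep_xi hu.1.pth).2, ← (pd.rep_xi hu'.1.pth).2,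
      show xi x z u = xi x z u' from congrArg Prod.fst e]
  · rintro ⟨ξ, r'⟩ ⟨h1, h2, h3⟩
    obtain rfl : r' = r := h3
    obtain ⟨u, a, b, d⟩ := (mem_Hom3 ori).1 ⟨h1, h2⟩
    exact ⟨u, ⟨a, bij_Hom3 h hx hz hg hr a d⟩, Prod.ext b.symm rfl⟩
  · change o 1 1 (lop 1 J (X r) x z (ref x z + fn (xi x z u)) ![0] ![0] ![![1]]) = _
    rw [(pd.rep_xi hu.1.pth).2]

open Classical in
theorem zero_Hom3 (h : HData J X R Y A c) (hx : Orb 1 Y x) (hz : Orb 1 Y z) :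
    (scnt {u | Nice J (X 0) x z u ∧ Function.Bijective (Du J (X 0) u)}
      fun u => o 1 1 (lop 1 J (X 0) x z u ![0] ![0] ![![1]])) =
      if x = z then (o 1 1 (lop 1 J (sta Y) x x (lp x) ![0] ![0] ![![1]]) : ℤ) else 0 := by
  have sp := h.kData.fData.spl
  obtain ⟨l1, l2, l3, l4⟩ := (h.kData.fData.pData hx hz).loops
  rw [h.zero 0 le_rfl]
  have key : ∀ u, Nice J (sta Y) x z u → Function.Bijective (Du J (sta Y) u) →
      u = lp x ∧ x = z := fun u a b => a.pth.eq_of_ds l1 l2 l3 l4 (by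
    by_contra d
    exact absurd (one_le_idx h.acs sp hx hz a d b.2 (hasIdx_zero_of_bijective b)) (by norm_num))
  split_ifs with e
  · subst e
    rw [scnt_eq_sum {lp x} fun u => ?_, Finset.sum_singleton]
    rw [Finset.mem_singleton]
    refine ⟨?_, fun a => (key u a.1 a.2).1⟩
    rintro rfl
    exact ⟨nice_lp sp hx, bijective_const h.acs sp (h.nd x hx)⟩
  · rw [eq_empty_of_forall_notMem (s := {u | Nice J (sta Y) x z u ∧
      Function.Bijective (Du J (sta Y) u)}) fun u a => e (key u a.1 a.2).2, scnt_empty]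

theorem sign_Hom3 (ho : Coh Ω0 ⊥ o) (hη : Glu Ω0 ⊥ o η) (h : HData J X R Y A c) (hx : Orb 1 Y x)
    (hz : Orb 1 Y z) (ori : Ori o J X x z Φ O Pos) {σ r : ℝ} {y : ℝ → V} {v l g : Pl → V}
    (e : EData J X Y x z σ y v l r g) {s : ℤˣ}
    (s1 : σ = 1 → s = η 0 1 1 0 * o 0 1 (lop 1 J (sta Y) x y v ![] ![l] ![![]]) *
      o 1 0 (lop 1 J (X r) y z g ![kr J X r g] ![] ![]))
    (s2 : σ = -1 → s = -(η 1 0 0 1 * o 1 0 (lop 1 J (X r) x y g ![kr J X r g] ![] ![]) *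
      o 0 1 (lop 1 J (sta Y) y z v ![] ![l] ![![]]))) :
    ∃ ε > 0, ∀ᶠ ϱ in atTop, ∀ q ∈ O, Φ q = 0 → dist q (xi x z (pw σ v g y ϱ), r) ≤ ε →
      ∀ τ, τ ≠ 0 → fderiv ℝ Φ q τ = 0 →
        eF σ l ϱ τ ≠ 0 ∧ (0 < eF σ l ϱ τ → (Pos q τ ↔ s = 1)) := by
  have pd := h.kData.fData.pData hx hz
  obtain ⟨ε, hε, h1, -⟩ := e.glue ho hη h.kData hx hz
  refine ⟨ε, hε, h1.mono fun ϱ h2 => ?_⟩
  rintro ⟨ξ, r'⟩ a b d τ t0 t1
  obtain ⟨u, hu, rfl, -⟩ : ∃ u, Nice J (X r') x z u ∧ ξ = xi x z u ∧ HasIdx (Du J (X r') u) 0 :=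
    (mem_Hom3 ori).1 ⟨a, b⟩
  rw [Prod.dist_eq, max_le_iff] at d
  obtain ⟨k1, k2, k3⟩ := h2 u r' hu.pth
    ((pd.nrm_le_iff hu.pth (e.pth h.kData hx hz ϱ) hε.le).2 d.1) d.2
  have f := ori.frame u r' _ 0 hu k1
  have ef : ∀ τ : W 2 V × ℝ, eF σ l ϱ τ = σ * prW (tsl (σ * ϱ, 0) l) τ.1 := fun _ => rfl
  simp only [zero_mul, add_zero] at f
  rw [ef]
  rcases e.side with ⟨hσ, -⟩ | ⟨hσ, -⟩
  · rw [s1 hσ, ← k2 hσ]
    have := f τ t0 t1
    refine ⟨mul_ne_zero (hσ.trans_ne one_ne_zero) this.1, fun k => this.2 ?_⟩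
    rwa [show σ * prW (tsl (σ * ϱ, 0) l) τ.1 = prW (tsl (σ * ϱ, 0) l) τ.1 by
      conv_lhs => enter [1]; rw [hσ]
      exact one_mul _] at k
  · rw [s2 hσ, ← k3 hσ]
    refine ⟨mul_ne_zero (hσ.trans_ne (by norm_num)) (f τ t0 t1).1, fun k => ?_⟩
    have k' : 0 < prW (tsl (σ * ϱ, 0) l) (-τ).1 := by
      rw [Prod.fst_neg, map_neg, ← neg_one_mul]
      conv_rhs => enter [1]; rw [← hσ]
      exact k
    rw [ori.neg _ a b τ t0 t1,
      (f (-τ) (neg_ne_zero.2 t0) (by rw [map_neg, t1, neg_zero])).2 k']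
    rcases Int.units_eq_one_or
      (o 1 1 (lop 1 J (X r') x z u ![kr J X r' u] ![tsl (σ * ϱ, 0) l] ![![0]])) with k4 | k4
    · rw [k4]
      decide
    · rw [k4]
      decide

open Classical in
theorem core_Hom3 (ho : Coh Ω0 ⊥ o) (hη : Glu Ω0 ⊥ o η) (h : HData J X R Y A c) (hx : Orb 1 Y x)
    (hz : Orb 1 Y z) (hg : A x - A z ≤ 0) {ι : Type} [Fintype ι] {σ r : ι → ℝ} {y : ι → ℝ → V}
    {v l g : ι → Pl → V} (e : ∀ i, EData J X Y x z (σ i) (y i) (v i) (l i) (r i) (g i))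
    {s : ι → ℤˣ}
    (s1 : ∀ i, σ i = 1 → s i =
      η 0 1 1 0 * o 0 1 (lop 1 J (sta Y) x (y i) (v i) ![] ![l i] ![![]]) *
        o 1 0 (lop 1 J (X (r i)) (y i) z (g i) ![kr J X (r i) (g i)] ![] ![]))
    (s2 : ∀ i, σ i = -1 → s i =
      -(η 1 0 0 1 * o 1 0 (lop 1 J (X (r i)) x (y i) (g i) ![kr J X (r i) (g i)] ![] ![]) *
        o 0 1 (lop 1 J (sta Y) (y i) z (v i) ![] ![l i] ![![]])))
    (inj : ∀ i j, σ i = σ j → y i = y j → r i = r j → g i = g j →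
      ∀ t : ℝ, v i = tsl (t, 0) (v j) → i = j)
    (all : ∀ σ' y' v' l' r' g', EData J X Y x z σ' y' v' l' r' g' →
      ∃ i, σ' = σ i ∧ y' = y i ∧ r' = r i ∧ g' = g i ∧ ∃ t : ℝ, v' = tsl (t, 0) (v i)) :
    nT1 Ω0 ⊥ o 1 J (X 1) x z -
      (if x = z then (o 1 1 (lop 1 J (sta Y) x x (lp x) ![0] ![0] ![![1]]) : ℤ) else 0) +
        ∑ i, (s i : ℤ) = 0 := by
  have pd := h.kData.fData.pData hx hz
  obtain ⟨B, hB⟩ := h.apb x hx
  obtain ⟨Φ, O, Pos, ori⟩ := exists_ori ho pd (h.good x z hx hz hg)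
    fun r u hu => hB r z u hz hu (hg.trans h.nonneg)
  have main := (abs_hom ori.smooth ori.isOpen ori.reg ori.neg ori.ray ori.cont
    (ContinuousLinearMap.snd ℝ (W 2 V) ℝ)
    (t := fun q => o 1 1 (lop 1 J (X q.2) x z (ref x z + fn q.1) ![0] ![0] ![![1]])) ?_
    (w := fun i ϱ => (xi x z (pw (σ i) (v i) (g i) (y i) ϱ), r i)) (f := fun i => eF (σ i) (l i))
    (c := fun i => eC (σ i) x z (v i) (l i)) (s := s)
    (fun i => ori.eq ▸ (e i).endH ho h.kData hx hz)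
    (fun i => ⟨r i, ioo_Hom3 h hx hz hg (e i), fun _ => rfl⟩)
    (fun i => sign_Hom3 ho hη h hx hz ori (e i) (s1 i) (s2 i))
    (fun i j hij => (e i).sep h.kData hx hz (e j) fun ⟨a1, a2, a3, a4, t, a5⟩ =>
      hij (inj i j a1 a2 a3 a4 t a5)) ?_).2.2
  · rw [bdry_Hom3 h hx hz hg ori (Or.inr rfl), bdry_Hom3 h hx hz hg ori (Or.inl rfl),
      zero_Hom3 h hx hz] at main
    have : SolT Ω0 ⊥ 1 J (X 1) x z =
        {u | Nice J (X 1) x z u ∧ Function.Bijective (Du J (X 1) u)} :=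
      Set.ext fun u => mem_solT h.acs (h.fam.fld 1) (pd.gorb 1).1 (pd.gorb 1).2
        fun u => h.cyl 1 x z u hx hz
    rw [nT1, this]
    exact main
  · rintro ⟨ξ, r'⟩ a b (hr : r' = 0 ∨ r' = 1) τ t0 t1
    obtain ⟨u, hu, rfl, hi⟩ :
        ∃ u, Nice J (X r') x z u ∧ ξ = xi x z u ∧ HasIdx (Du J (X r') u) 0 :=
      (mem_Hom3 ori).1 ⟨a, b⟩
    have tf : TF (![0] : Fin 1 → Pl → V) := fun i => by
      rw [Subsingleton.elim i 0]
      exact (Dsub V).zero_mem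
    have f := ori.frame u r' 0 1 hu
    rw [kr_Hom3 h hr] at f
    have f' := f ((ok_lop_iff h.acs (h.fam.fld r') (pd.gorb r').1 (pd.gorb r').2 hu.pth _ _ _).2
      ⟨tf, tf, (frm_triv _).2 (bij_Hom3 h hx hz hg hr hu hi)⟩) τ t0 t1
    rw [prW_zero, zero_apply, zero_add, one_mul] at f'
    change τ.2 ≠ 0 ∧ (0 < τ.2 → (Pos (xi x z u, r') τ ↔
      o 1 1 (lop 1 J (X r') x z (ref x z + fn (xi x z u)) ![0] ![0] ![![1]]) = 1))
    rw [(pd.rep_xi hu.pth).2]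
    exact f'
  · intro q hq
    obtain ⟨φ, hφ, k⟩ := h.compact hx hz hg (q := q)
      fun n => ⟨(mem_Hom3 ori).1 ⟨(hq n).1, (hq n).2.1⟩, (hq n).2.2⟩
    refine ⟨φ, hφ, k.imp (fun ⟨q₀, a, b⟩ => ⟨q₀, ((mem_Hom3 ori).2 a).1, b⟩) ?_⟩
    rintro ⟨σ', y', v', l', r', g', ϱ, a, b, d⟩
    obtain ⟨i, rfl, rfl, rfl, rfl, t, rfl⟩ := all _ _ _ _ _ _ a
    refine ⟨i, fun n => ϱ n + σ i * t, tendsto_atTop_add_const_right _ _ b, d.congr fun n => ?_⟩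
    have sq : σ i * σ i = 1 := by
      rcases a.side with ⟨k, -⟩ | ⟨k, -⟩ <;> rw [k] <;> norm_num
    have : ((σ i * ϱ n, 0) + (t, 0) : Pl) = (σ i * (ϱ n + σ i * t), 0) :=
      Prod.ext (by change σ i * ϱ n + t = σ i * (ϱ n + σ i * t); linear_combination (-t) * sq)
        (add_zero _)
    simp only [pw, tsl_tsl, this]

theorem isN_Hom3 (h : HData J X R Y A c) {y y' : ℝ → V} (hy : Orb 1 Y y) (hy' : Orb 1 Y y')
    (e : nN Ω0 ⊥ o 1 J Y y y' ≠ 0) : ∃ v l, IsN J Y y y' v l := by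
  by_contra k
  have : ∀ σ, SolN Ω0 ⊥ o 1 J Y y y' σ = ∅ := fun σ => eq_empty_of_forall_notMem fun v hv => by
    obtain ⟨l, a, -⟩ := (mem_solN h.acs h.kData.fData.spl (h.nd y hy) (h.nd y' hy')
      fun u hu => h.cyl 0 y y' u hy hy' ((h.zero 0 le_rfl).symm ▸ hu)).1 hv
    exact k ⟨v, l, a⟩
  exact e (by simp [nN, this])

theorem isK_Hom3 (h : HData J X R Y A c) {y y' : ℝ → V} (hy : Orb 1 Y y) (hy' : Orb 1 Y y')
    (e : nK Ω0 ⊥ o 1 J X y y' ≠ 0) : ∃ r g, IsK J X y y' r g := by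
  by_contra k
  have : SolK Ω0 ⊥ 1 J X y y' = ∅ := eq_empty_of_forall_notMem fun m hm =>
    k ⟨m.1, m.2, ((h.kData.fData.pData hy hy').mem_solK
      fun r u hu => h.cyl r y y' u hy hy' hu).1 hm⟩
  exact e (by rw [nK, this, scnt_empty])

theorem nK_Hom3 (h : HData J X R Y A c) {y y' : ℝ → V} (hy : Orb 1 Y y) (hy' : Orb 1 Y y')
    {K : Finset (ℝ × (Pl → V))} (hK : ∀ m, m ∈ K ↔ IsK J X y y' m.1 m.2) :
    nK Ω0 ⊥ o 1 J X y y' =
      ∑ m ∈ K, (o 1 0 (lop 1 J (X m.1) y y' m.2 ![kr J X m.1 m.2] ![] ![]) : ℤ) :=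
  scnt_eq_sum K (fun m => (hK m).trans ((h.kData.fData.pData hy hy').mem_solK
    fun r u hu => h.cyl r y y' u hy hy' hu).symm) _

open Classical in
theorem HData.count (ho : Coh Ω0 ⊥ o) (hη : Glu Ω0 ⊥ o η) (h : HData J X R Y A c) (hx : Orb 1 Y x)
    (hz : Orb 1 Y z) (hg : A x - A z ≤ 0) : ∃ T : Finset (ℝ → V), (∀ y ∈ T, Orb 1 Y y) ∧
      (∀ y, Orb 1 Y y → y ∉ T → nN Ω0 ⊥ o 1 J Y x y * nK Ω0 ⊥ o 1 J X y z = 0 ∧
        nK Ω0 ⊥ o 1 J X x y * nN Ω0 ⊥ o 1 J Y y z = 0) ∧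
      nT1 Ω0 ⊥ o 1 J (X 1) x z =
        (if x = z then (o 1 1 (lop 1 J (sta Y) x x (lp x) ![0] ![0] ![![1]]) : ℤ) else 0) -
          η 0 1 1 0 * ∑ y ∈ T, nN Ω0 ⊥ o 1 J Y x y * nK Ω0 ⊥ o 1 J X y z +
            η 1 0 0 1 * ∑ y ∈ T, nK Ω0 ⊥ o 1 J X x y * nN Ω0 ⊥ o 1 J Y y z := by
  obtain ⟨T, T', P, P', L, L', K, K', h1, h2, h3, h4⟩ := h.exists_ends ho hx hz hg
  have sp := h.kData.fData.spl
  have z1 : ∀ y, Orb 1 Y y → y ∉ T → nN Ω0 ⊥ o 1 J Y x y * nK Ω0 ⊥ o 1 J X y z = 0 := by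
    intro y hy k
    by_contra e
    obtain ⟨v, l, a⟩ := isN_Hom3 h hx hy (left_ne_zero_of_mul e)
    obtain ⟨r, g, b⟩ := isK_Hom3 h hy hz (right_ne_zero_of_mul e)
    exact k (h3 y v l r g hy a b)
  have z2 : ∀ y, Orb 1 Y y → y ∉ T' → nK Ω0 ⊥ o 1 J X x y * nN Ω0 ⊥ o 1 J Y y z = 0 := by
    intro y hy k
    by_contra e
    obtain ⟨v, l, a⟩ := isN_Hom3 h hy hz (right_ne_zero_of_mul e)
    obtain ⟨r, g, b⟩ := isK_Hom3 h hx hy (left_ne_zero_of_mul e)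
    exact k (h4 y v l r g hy b a)
  have orb : ∀ y ∈ T ∪ T', Orb 1 Y y := fun y hy =>
    (Finset.mem_union.1 hy).elim (fun a => (h1 y a).1) fun a => (h2 y a).1
  refine ⟨T ∪ T', orb, fun y hy k => ⟨z1 y hy fun a => k (Finset.mem_union_left _ a),
    z2 y hy fun a => k (Finset.mem_union_right _ a)⟩, ?_⟩
  rw [← Finset.sum_subset (Finset.subset_union_left (s₁ := T) (s₂ := T'))
      fun y a b => z1 y (orb y a) b,
    ← Finset.sum_subset (Finset.subset_union_right (s₁ := T) (s₂ := T'))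
      fun y a b => z2 y (orb y a) b]
  have m1 : ∀ i : (T.sigma fun y => P y ×ˢ K y), i.1.1 ∈ T ∧ i.1.2.1 ∈ P i.1.1 ∧
      i.1.2.2 ∈ K i.1.1 := fun i =>
    ⟨(Finset.mem_sigma.1 i.2).1, Finset.mem_product.1 (Finset.mem_sigma.1 i.2).2⟩
  have m2 : ∀ i : (T'.sigma fun y => P' y ×ˢ K' y), i.1.1 ∈ T' ∧ i.1.2.1 ∈ P' i.1.1 ∧
      i.1.2.2 ∈ K' i.1.1 := fun i =>
    ⟨(Finset.mem_sigma.1 i.2).1, Finset.mem_product.1 (Finset.mem_sigma.1 i.2).2⟩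
  have main := core_Hom3 ho hη h hx hz hg
    (ι := (T.sigma fun y => P y ×ˢ K y) ⊕ (T'.sigma fun y => P' y ×ˢ K' y))
    (σ := Sum.elim (fun _ => 1) fun _ => -1)
    (r := Sum.elim (fun i => i.1.2.2.1) fun i => i.1.2.2.1)
    (y := Sum.elim (fun i => i.1.1) fun i => i.1.1)
    (v := Sum.elim (fun i => i.1.2.1) fun i => i.1.2.1)
    (l := Sum.elim (fun i => L i.1.1 i.1.2.1) fun i => L' i.1.1 i.1.2.1)
    (g := Sum.elim (fun i => i.1.2.2.2) fun i => i.1.2.2.2) ?_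
    (s := Sum.elim
      (fun i => η 0 1 1 0 * o 0 1 (lop 1 J (sta Y) x i.1.1 i.1.2.1 ![] ![L i.1.1 i.1.2.1] ![![]]) *
        o 1 0 (lop 1 J (X i.1.2.2.1) i.1.1 z i.1.2.2.2 ![kr J X i.1.2.2.1 i.1.2.2.2] ![] ![]))
      fun i => -(η 1 0 0 1 *
        o 1 0 (lop 1 J (X i.1.2.2.1) x i.1.1 i.1.2.2.2 ![kr J X i.1.2.2.1 i.1.2.2.2] ![] ![]) *
          o 0 1 (lop 1 J (sta Y) i.1.1 z i.1.2.1 ![] ![L' i.1.1 i.1.2.1] ![![]]))) ?_ ?_ ?_ ?_
  · rw [Fintype.sum_sum_type] at main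
    simp only [Sum.elim_inl, Sum.elim_inr] at main
    rw [Finset.sum_coe_sort (T.sigma fun y => P y ×ˢ K y) fun i => ((η 0 1 1 0 *
        o 0 1 (lop 1 J (sta Y) x i.1 i.2.1 ![] ![L i.1 i.2.1] ![![]]) *
          o 1 0 (lop 1 J (X i.2.2.1) i.1 z i.2.2.2 ![kr J X i.2.2.1 i.2.2.2] ![] ![]) : ℤˣ) : ℤ),
      Finset.sum_coe_sort (T'.sigma fun y => P' y ×ˢ K' y) fun i => ((-(η 1 0 0 1 *
        o 1 0 (lop 1 J (X i.2.2.1) x i.1 i.2.2.2 ![kr J X i.2.2.1 i.2.2.2] ![] ![]) *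
          o 0 1 (lop 1 J (sta Y) i.1 z i.2.1 ![] ![L' i.1 i.2.1] ![![]])) : ℤˣ) : ℤ),
      Finset.sum_sigma, Finset.sum_sigma] at main
    have e1 : η 0 1 1 0 * ∑ y ∈ T, nN Ω0 ⊥ o 1 J Y x y * nK Ω0 ⊥ o 1 J X y z =
        ∑ y ∈ T, ∑ i ∈ P y ×ˢ K y, ((η 0 1 1 0 *
          o 0 1 (lop 1 J (sta Y) x y i.1 ![] ![L y i.1] ![![]]) *
            o 1 0 (lop 1 J (X i.2.1) y z i.2.2 ![kr J X i.2.1 i.2.2] ![] ![]) : ℤˣ) : ℤ) := by
      rw [Finset.mul_sum]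
      refine Finset.sum_congr rfl fun y hy => ?_
      rw [(h1 y hy).2.1.sum, nK_Hom3 h (h1 y hy).1 hz (h1 y hy).2.2, Finset.sum_mul_sum,
        Finset.sum_product, Finset.mul_sum]
      refine Finset.sum_congr rfl fun v _ => ?_
      rw [Finset.mul_sum]
      refine Finset.sum_congr rfl fun m _ => ?_
      rw [Units.val_mul, Units.val_mul, mul_assoc]
    have e2 : -(η 1 0 0 1 * ∑ y ∈ T', nK Ω0 ⊥ o 1 J X x y * nN Ω0 ⊥ o 1 J Y y z) =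
        ∑ y ∈ T', ∑ i ∈ P' y ×ˢ K' y, ((-(η 1 0 0 1 *
          o 1 0 (lop 1 J (X i.2.1) x y i.2.2 ![kr J X i.2.1 i.2.2] ![] ![]) *
            o 0 1 (lop 1 J (sta Y) y z i.1 ![] ![L' y i.1] ![![]])) : ℤˣ) : ℤ) := by
      rw [← neg_mul, Finset.mul_sum]
      refine Finset.sum_congr rfl fun y hy => ?_
      rw [(h2 y hy).2.1.sum, nK_Hom3 h hx (h2 y hy).1 (h2 y hy).2.2, mul_comm (∑ m ∈ K' y, _),
        Finset.sum_mul_sum, Finset.sum_product, Finset.mul_sum]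
      refine Finset.sum_congr rfl fun v _ => ?_
      rw [Finset.mul_sum]
      refine Finset.sum_congr rfl fun m _ => ?_
      rw [Units.val_neg, Units.val_mul, Units.val_mul]
      ring
    rw [← e1, ← e2] at main
    linarith
  · rintro (i | i)
    · obtain ⟨a, b, d⟩ := m1 i
      obtain ⟨a1, a2, a3⟩ := h1 _ a
      exact ⟨a1, Or.inl ⟨rfl, fun e => (dec_Hom3 h hx a1 (a2.mem _ b)).ne' (congrArg A e),
        a2.mem _ b, (a3 _).1 d⟩⟩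
    · obtain ⟨a, b, d⟩ := m2 i
      obtain ⟨a1, a2, a3⟩ := h2 _ a
      exact ⟨a1, Or.inr ⟨rfl, fun e => (dec_Hom3 h a1 hz (a2.mem _ b)).ne' (congrArg A e),
        (a3 _).1 d, a2.mem _ b⟩⟩
  · rintro (i | i) e
    · rfl
    · exact absurd (show (-1 : ℝ) = 1 from e) (by norm_num)
  · rintro (i | i) e
    · exact absurd (show (1 : ℝ) = -1 from e) (by norm_num)
    · rfl
  · rintro (i | i) (j | j) a1 a2 a3 a4 t a5
    · have b := m1 i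
      have b' := m1 j
      obtain ⟨⟨y, v, r, g⟩, hi⟩ := i
      obtain ⟨⟨y', v', r', g'⟩, hj⟩ := j
      obtain rfl : y = y' := a2
      obtain rfl : r = r' := a3
      obtain rfl : g = g' := a4
      obtain rfl : v = v' := (h1 y b.1).2.1.inj v b.2.1 v' b'.2.1 t a5
      rfl
    · exact absurd (show (1 : ℝ) = -1 from a1) (by norm_num)
    · exact absurd (show (-1 : ℝ) = 1 from a1) (by norm_num)
    · have b := m2 i
      have b' := m2 j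
      obtain ⟨⟨y, v, r, g⟩, hi⟩ := i
      obtain ⟨⟨y', v', r', g'⟩, hj⟩ := j
      obtain rfl : y = y' := a2
      obtain rfl : r = r' := a3
      obtain rfl : g = g' := a4
      obtain rfl : v = v' := (h2 y b.1).2.1.inj v b.2.1 v' b'.2.1 t a5
      rfl
  · rintro σ y v l r g ⟨hy, ⟨rfl, -, a, b⟩ | ⟨rfl, -, b, a⟩⟩
    · have k := h3 y v l r g hy a b
      obtain ⟨v', k1, k2⟩ := (h1 y k).2.1.all v a.nice
        (a.props h.acs sp (h.nd x hx) (h.nd y hy)).2.2.1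
      exact ⟨Sum.inl ⟨⟨y, v', r, g⟩, Finset.mem_sigma.2 ⟨k, Finset.mem_product.2
        ⟨k1, ((h1 y k).2.2 (r, g)).2 b⟩⟩⟩, rfl, rfl, rfl, rfl, k2⟩
    · have k := h4 y v l r g hy b a
      obtain ⟨v', k1, k2⟩ := (h2 y k).2.1.all v a.nice
        (a.props h.acs sp (h.nd y hy) (h.nd z hz)).2.2.1
      exact ⟨Sum.inr ⟨⟨y, v', r, g⟩, Finset.mem_sigma.2 ⟨k, Finset.mem_product.2
        ⟨k1, ((h2 y k).2.2 (r, g)).2 b⟩⟩⟩, rfl, rfl, rfl, rfl, k2⟩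

end

end Pool.Agent.P.MP_de3acd_gt.FH
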