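import Pool.Agent.P.MP_de3acd_gt.FH.PS

/-! Admissible perturbations.
Sketch: gj (a + b) ≤ (1 + κ) gj a + (1 + 1 / κ) gj b (Cpt.symm, Cpt.nonneg applied to κ a - b). SupY.gl: by orb_fin, invariance (nm_inv) and nm_cmp on Icc 0 1 there is δ such that Z
vanishes at points δ-close in nm to any orbit; ε from ps; gj (Z) ≤ M (gj_cmp, boundY); θ² = M / ε: if the integral on the right is at most ε the left side vanishes.
ClY.isOpen: choose κ with (1 + κ) θ² < 1 / 9. orb_iff: along an orbit of ham G + Y one has x' - ham G = Y, so the integral m of gj (Y) satisfies m ≤ θ² m; a continuous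
nonnegative function with integral zero vanishes on Icc 0 1, and then everywhere by equivariance (induction over ℤ). SupX.sz: P = M * indicator (Icc (-R) R), Fam.ctl, Fr.bound. -/

open Set Filter Topology MeasureTheory
open scoped ContDiff NNReal ENNReal RealInnerProductSpace

namespace Pool.Agent.P.MP_de3acd_gt.FH

noncomputable section

variable {Γ : Subgroup (Equiv.Perm E)} {B : ℝ → E →L[ℝ] E} {J : ℝ → E → E →L[ℝ] E}
  {H G K K' : ℝ → E → ℝ} {Y Y' Z : ℝ → E → E} {γ g : Equiv.Perm E} {x y w : ℝ → E} {u : Pl → E}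

variable {p q : Pl → E → E} {η η' R : ℝ}

theorem gj_nonneg (hJ : ACS om J) (t : ℝ) (z v : E) : 0 ≤ gj om J t z v :=
  Cpt.nonneg form_om (hJ.2 t z) v

theorem gj_smul (J : ℝ → E → E →L[ℝ] E) (t : ℝ) (z v : E) (r : ℝ) :
    gj om J t z (r • v) = r ^ 2 * gj om J t z v := by
  obtain ⟨Bo, hB, -⟩ := form_om
  simp only [gj, hB, map_smul, smul_apply, smul_eq_mul]
  ring

theorem gj_zero_GLs (J : ℝ → E → E →L[ℝ] E) (t : ℝ) (z : E) : gj om J t z 0 = 0 := by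
  have := gj_smul J t z 0 0
  rwa [smul_zero, zero_pow two_ne_zero, zero_mul] at this

theorem gj_cont_GLs (hJ : ACS om J) {v : ℝ → E} (hw : Continuous w) (hv : Continuous v) :
    Continuous fun t => gj om J t (w t) (v t) := by
  obtain ⟨Bo, hB, -⟩ := form_om
  simp only [gj, hB]
  have h1 : Continuous fun t => J t (w t) := hJ.1.1.continuous.comp (continuous_id.prodMk hw)
  exact (Bo.continuous.comp hv).clm_apply (h1.clm_apply hv)

theorem sp_cont_GLs (hY : SP Y) (hw : Continuous w) : Continuous fun t => Y t (w t) :=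
  hY.1.continuous.comp (continuous_id.prodMk hw)

theorem lin_zero_GLs (g : Equiv.Perm E) : lin g 0 = 0 := sub_self _

theorem lin_eq_zero_GLs {v : E} : lin g v = 0 ↔ v = 0 := by
  rw [lin, sub_eq_zero, g.apply_eq_iff_eq]

theorem Aff.sub_GLs (hg : Aff g) (a b : E) : g a - g b = lin g (a - b) := by
  obtain ⟨L, hL⟩ := hg
  rw [hL (a - b), L.map_sub, ← hL a, ← hL b, lin, lin]
  abel

theorem per_GLs {P : ℝ → Prop} (h1 : ∀ t, P (t + 1) ↔ P t) (h0 : ∀ t ∈ Icc (0 : ℝ) 1, P t)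
    (t : ℝ) : P t := by
  have h2 : ∀ (n : ℤ) (t : ℝ), P t → P (t + n) := by
    intro n t ht
    induction n using Int.induction_on with
    | zero => simpa using ht
    | succ n ih =>
      push_cast at ih ⊢
      rw [← add_assoc]
      exact (h1 _).2 ih
    | pred n ih =>
      push_cast at ih ⊢
      refine (h1 _).1 ?_
      rwa [show t + (-(n : ℝ) - 1) + 1 = t + -n by ring]
  have := h2 ⌊t⌋ _ (h0 (Int.fract t) ⟨Int.fract_nonneg t, (Int.fract_lt_one t).le⟩)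
  rwa [Int.fract_add_floor] at this

theorem gj_add_le (hJ : ACS om J) (t : ℝ) (z v v' : E) {κ : ℝ} (hκ : 0 < κ) :
    gj om J t z (v + v') ≤ (1 + κ) * gj om J t z v + (1 + κ⁻¹) * gj om J t z v' := by
  have h1 := gj_nonneg hJ t z (κ • v - v')
  have h2 := Cpt.symm form_om (hJ.2 t z) v v'
  obtain ⟨Bo, hB, -⟩ := form_om
  simp only [gj, hB, map_add, map_sub, map_smul, add_apply,
    sub_apply, smul_apply, smul_eq_mul] at h1 h2 ⊢
  have h3 := mul_nonneg (inv_pos.2 hκ).le h1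
  have h4 : κ⁻¹ * κ = 1 := inv_mul_cancel₀ hκ.ne'
  rw [← h2] at h3 ⊢
  have e : κ⁻¹ * (κ * (κ * Bo v (J t z v) - Bo v (J t z v')) -
      (κ * Bo v (J t z v') - Bo v' (J t z v'))) =
      κ * Bo v (J t z v) - 2 * Bo v (J t z v') + κ⁻¹ * Bo v' (J t z v') := by
    linear_combination (κ * Bo v (J t z v) - 2 * Bo v (J t z v')) * h4
  linarith

theorem SupY.add (h : Fr Γ B) (hY : SupY Γ G Y) (hZ : SupY Γ G Z) : SupY Γ G (Y + Z) := by
  refine ⟨hY.1.add h hZ.1, fun γ hγ x hx => ?_⟩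
  obtain ⟨δ, hδ, e⟩ := hY.2 γ hγ x hx
  obtain ⟨δ', hδ', e'⟩ := hZ.2 γ hγ x hx
  refine ⟨min δ δ', lt_min hδ hδ', fun t ht z hz => ?_⟩
  simp [e t ht z (hz.trans (min_le_left _ _)), e' t ht z (hz.trans (min_le_right _ _))]

theorem SupY.smul (h : Fr Γ B) (hY : SupY Γ G Y) (r : ℝ) : SupY Γ G (r • Y) := by
  refine ⟨hY.1.smul h r, fun γ hγ x hx => ?_⟩
  obtain ⟨δ, hδ, e⟩ := hY.2 γ hγ x hx
  exact ⟨δ, hδ, fun t ht z hz => by simp [e t ht z hz]⟩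

theorem supY_zero_GLs (h : Fr Γ B) : SupY Γ G 0 :=
  ⟨iy_zero h, fun _ _ _ _ => ⟨1, one_pos, fun _ _ _ _ => rfl⟩⟩

theorem SupY.unif_GLs (h : Fr Γ B) (hG : EndF om Γ (ham G)) (hZ : SupY Γ G Z) :
    ∃ δ > 0, ∀ γ ∈ Γ, ∀ x, Orb γ (ham G) x → ∀ t ∈ Icc (0 : ℝ) 1, ∀ z,
      nm B (x t) (z - x t) ≤ δ → Z t z = 0 := by
  obtain ⟨T, hT, hm, hc⟩ := h.orb_fin hG
  have h1 : ∀ q ∈ T, ∀ᶠ δ in 𝓝[>] (0 : ℝ), ∀ t ∈ Icc (0 : ℝ) 1, ∀ z,
      nm B (q.2 t) (z - q.2 t) ≤ δ → Z t z = 0 := by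
    intro q hq
    obtain ⟨δ, hδ, e⟩ := hZ.2 q.1 (hm q hq).1 q.2 (hm q hq).2
    obtain ⟨A, hA⟩ := (isCompact_Icc (a := (0 : ℝ)) (b := 1)).exists_bound_of_continuousOn
      (Orb.tw hG.1.1 (hm q hq).2).1.continuous.continuousOn
    obtain ⟨D, hD, hD'⟩ := h.nm_cmp A
    have hD0 : 0 < D := by linarith
    filter_upwards [Ioo_mem_nhdsGT (div_pos hδ hD0)] with d hd t ht z hz
    refine e t ht z ((hD' _ _ ((abs_tau_le _).trans (hA t ht))).2.trans ?_)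
    calc D * nm B (q.2 t) (z - q.2 t) ≤ D * (δ / D) :=
          mul_le_mul_of_nonneg_left (hz.trans hd.2.le) hD0.le
      _ = δ := by field_simp
  obtain ⟨δ, e, hδ⟩ := (((eventually_all_finite hT).2 h1).and self_mem_nhdsWithin).exists
  refine ⟨δ, hδ, fun γ hγ x hx t ht z hz => ?_⟩
  obtain ⟨q, hq, g, hg, -, rfl⟩ := hc γ hγ x hx
  obtain ⟨z, rfl⟩ := g.surjective z
  rw [Function.comp_apply, (h.aff hg).sub_GLs, h.nm_inv hg] at hz
  rw [hZ.1.2 t g hg, e q hq t ht z hz, lin_zero_GLs]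

theorem SupY.gl (h : Fr Γ B) (hJ : IJ om Γ J) (hG : EndF om Γ (ham G)) (hZ : SupY Γ G Z) :
    ∃ θ, 0 ≤ θ ∧ GLe Γ J G θ Z := by
  obtain ⟨δ, hδ, e⟩ := hZ.unif_GLs h hG
  obtain ⟨ε, hε, hps⟩ := h.ps hJ hG.1 hδ
  obtain ⟨D, hD, hD'⟩ := h.gj_cmp hJ
  obtain ⟨D', hb⟩ := h.boundY hZ.1
  have hM0 : 0 ≤ D * D' ^ 2 := by positivity
  have hM : ∀ t z, gj om J t z (Z t z) ≤ D * D' ^ 2 := fun t z =>
    (hD' t z _).2.1.trans (mul_le_mul_of_nonneg_left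
      (pow_le_pow_left₀ (nm_nonneg _ _ _) (hb t z) 2) (by linarith))
  refine ⟨√(D * D' ^ 2 / ε), Real.sqrt_nonneg _, fun γ hγ w hw => ?_⟩
  rw [Real.sq_sqrt (div_nonneg hM0 hε.le)]
  have hI : 0 ≤ ∫ t in (0 : ℝ)..1, gj om J t (w t) (deriv w t - ham G t (w t)) :=
    intervalIntegral.integral_nonneg zero_le_one fun t _ => gj_nonneg hJ.1 _ _ _
  rcases le_or_gt (∫ t in (0 : ℝ)..1, gj om J t (w t) (deriv w t - ham G t (w t))) ε with h1 | h1
  · obtain ⟨x, hx, hx'⟩ := hps γ hγ w hw h1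
    rw [intervalIntegral.integral_congr (g := fun _ => 0), intervalIntegral.integral_zero]
    · exact mul_nonneg (div_nonneg hM0 hε.le) hI
    · intro t ht
      rw [uIcc_of_le zero_le_one] at ht
      simp only [e γ hγ x hx t ht _ (hx' t ht), gj_zero_GLs]
  · have h2 := intervalIntegral.norm_integral_le_of_norm_le_const (a := (0 : ℝ)) (b := 1)
      (f := fun t => gj om J t (w t) (Z t (w t))) (C := D * D' ^ 2) fun t _ => by
        rw [Real.norm_of_nonneg (gj_nonneg hJ.1 _ _ _)]; exact hM _ _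
    rw [sub_zero, abs_one, mul_one] at h2
    refine ((le_abs_self _).trans h2).trans ?_
    calc D * D' ^ 2 = D * D' ^ 2 / ε * ε := by field_simp
      _ ≤ _ := mul_le_mul_of_nonneg_left h1.le (div_nonneg hM0 hε.le)

theorem GLe.mono_GLs (hJ : IJ om Γ J) {θ θ' : ℝ} (hY : GLe Γ J G θ Y) (e : θ ^ 2 ≤ θ' ^ 2) :
    GLe Γ J G θ' Y := fun γ hγ w hw =>
  (hY γ hγ w hw).trans (mul_le_mul_of_nonneg_right e
    (intervalIntegral.integral_nonneg zero_le_one fun _ _ => gj_nonneg hJ.1 _ _ _))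

theorem GLe.smul_GLs {θ : ℝ} (hY : GLe Γ J G θ Y) (r : ℝ) : GLe Γ J G (r * θ) (r • Y) := by
  intro γ hγ w hw
  simp only [Pi.smul_apply, gj_smul]
  rw [intervalIntegral.integral_const_mul, mul_pow, mul_assoc]
  exact mul_le_mul_of_nonneg_left (hY γ hγ w hw) (sq_nonneg r)

theorem GLe.add_GLs (hJ : IJ om Γ J) {θ θ' θ'' κ : ℝ} (hκ : 0 < κ) (sY : SP Y) (sZ : SP Z)
    (hY : GLe Γ J G θ Y) (hZ : GLe Γ J G θ' Z)
    (e : (1 + κ) * θ ^ 2 + (1 + κ⁻¹) * θ' ^ 2 ≤ θ'' ^ 2) : GLe Γ J G θ'' (Y + Z) := by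
  intro γ hγ w hw
  have hw' := hw.1.continuous
  have c1 := gj_cont_GLs hJ.1 hw' (sp_cont_GLs sY hw')
  have c2 := gj_cont_GLs hJ.1 hw' (sp_cont_GLs sZ hw')
  have c3 := gj_cont_GLs hJ.1 hw' ((sp_cont_GLs sY hw').add (sp_cont_GLs sZ hw'))
  have hI : 0 ≤ ∫ t in (0 : ℝ)..1, gj om J t (w t) (deriv w t - ham G t (w t)) :=
    intervalIntegral.integral_nonneg zero_le_one fun t _ => gj_nonneg hJ.1 _ _ _
  have h1 := intervalIntegral.integral_mono_on (μ := volume) zero_le_one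
    (c3.intervalIntegrable _ _)
    (((c1.const_mul (1 + κ)).add (c2.const_mul (1 + κ⁻¹))).intervalIntegrable _ _)
    fun t _ => gj_add_le hJ.1 t (w t) _ _ hκ
  simp only [Pi.add_apply] at h1
  rw [intervalIntegral.integral_add ((c1.const_mul (1 + κ)).intervalIntegrable _ _)
    ((c2.const_mul (1 + κ⁻¹)).intervalIntegrable _ _), intervalIntegral.integral_const_mul,
    intervalIntegral.integral_const_mul] at h1
  have h2 := mul_le_mul_of_nonneg_left (hY γ hγ w hw) (by positivity : 0 ≤ 1 + κ)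
  have h3 := mul_le_mul_of_nonneg_left (hZ γ hγ w hw) (by positivity : 0 ≤ 1 + κ⁻¹)
  have h4 := mul_le_mul_of_nonneg_right e hI
  refine h1.trans ?_
  linarith

theorem gle_zero_GLs (θ : ℝ) (hJ : IJ om Γ J) : GLe Γ J G θ 0 := by
  intro γ hγ w hw
  simp only [Pi.zero_apply, gj_zero_GLs, intervalIntegral.integral_zero]
  exact mul_nonneg (sq_nonneg _)
    (intervalIntegral.integral_nonneg zero_le_one fun t _ => gj_nonneg hJ.1 _ _ _)

theorem clY_zero (h : Fr Γ B) : ClY Γ J G 0 := by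
  refine ⟨supY_zero_GLs h, 0, le_rfl, by norm_num, fun γ hγ w hw => ?_⟩
  simp [gj_zero_GLs]

theorem ClY.isOpen (h : Fr Γ B) (hJ : IJ om Γ J) (hG : EndF om Γ (ham G)) (hY : ClY Γ J G Y)
    {ι : Type} [Fintype ι] {Z : ι → ℝ → E → E} (hZ : ∀ i, SupY Γ G (Z i)) :
    ∀ᶠ a : ι → ℝ in 𝓝 0, ClY Γ J G (Y + ∑ i, a i • Z i) := by
  classical
  have key : ∀ s : Finset ι, ∃ Θ, 0 ≤ Θ ∧ ∀ a : ι → ℝ, SupY Γ G (∑ i ∈ s, a i • Z i) ∧
      GLe Γ J G (‖a‖ * Θ) (∑ i ∈ s, a i • Z i) := by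
    intro s
    induction s using Finset.induction_on with
    | empty => exact ⟨0, le_rfl, fun a => ⟨supY_zero_GLs h, gle_zero_GLs _ hJ⟩⟩
    | insert i s hi ih =>
      obtain ⟨Θ, hΘ, e⟩ := ih
      obtain ⟨θ, hθ, e'⟩ := (hZ i).gl h hJ hG
      refine ⟨2 * (θ + Θ), by positivity, fun a => ?_⟩
      rw [Finset.sum_insert hi]
      refine ⟨((hZ i).smul h _).add h (e a).1, GLe.add_GLs hJ one_pos ((hZ i).smul h _).1.1
        (e a).1.1.1 (e'.smul_GLs _) (e a).2 ?_⟩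
      have h1 : a i ^ 2 ≤ ‖a‖ ^ 2 := by
        rw [← sq_abs]
        exact pow_le_pow_left₀ (abs_nonneg _) (norm_le_pi_norm a i) 2
      have h2 := mul_le_mul_of_nonneg_right h1 (sq_nonneg θ)
      have h3 : 0 ≤ ‖a‖ ^ 2 * (θ * Θ) := by positivity
      have h4 : 0 ≤ ‖a‖ ^ 2 * θ ^ 2 := by positivity
      have h5 : 0 ≤ ‖a‖ ^ 2 * Θ ^ 2 := by positivity
      rw [inv_one]
      nlinarith
  obtain ⟨Θ, hΘ, e⟩ := key Finset.univ
  obtain ⟨hs, θ, hθ, hθ', hg⟩ := hY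
  have hκ : 0 < 1 / 9 - θ ^ 2 := by nlinarith
  set κ := 1 / 9 - θ ^ 2 with hκ'
  have hc : Continuous fun a : ι → ℝ => (1 + κ) * θ ^ 2 + (1 + κ⁻¹) * (‖a‖ * Θ) ^ 2 := by
    fun_prop
  have h0 : (fun a : ι → ℝ => (1 + κ) * θ ^ 2 + (1 + κ⁻¹) * (‖a‖ * Θ) ^ 2) 0 < 1 / 9 := by
    simp only [norm_zero, zero_mul, ne_eq, OfNat.ofNat_ne_zero, not_false_eq_true, zero_pow,
      mul_zero, add_zero]
    nlinarith
  filter_upwards [hc.continuousAt.eventually_lt continuousAt_const h0] with a ha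
  have hn : 0 ≤ (1 + κ) * θ ^ 2 + (1 + κ⁻¹) * (‖a‖ * Θ) ^ 2 := by positivity
  refine ⟨hs.add h (e a).1, √((1 + κ) * θ ^ 2 + (1 + κ⁻¹) * (‖a‖ * Θ) ^ 2), Real.sqrt_nonneg _,
    (Real.sqrt_lt' (by norm_num)).2 (by linarith),
    GLe.add_GLs hJ hκ hs.1.1 (e a).1.1.1 hg (e a).2 (Real.sq_sqrt hn).ge⟩

theorem Ivf.ev_GLs (h : Fr Γ B) {W : E → E} (hW : Ivf Γ W) (hg : g ∈ Γ) {a : E}
    (e : W =ᶠ[𝓝 (g a)] 0) : W =ᶠ[𝓝 a] 0 := by
  filter_upwards [(h.contDiff hg).continuous.continuousAt.eventually e] with z hz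
  rw [hW g hg, Pi.zero_apply, lin_eq_zero_GLs] at hz
  exact hz

theorem SupY.ev_GLs (h : Fr Γ B) (hY : SupY Γ G Y) (hγ : γ ∈ Γ) (hx : Orb γ (ham G) x) (t : ℝ) :
    Y t =ᶠ[𝓝 (x t)] 0 := by
  obtain ⟨δ, hδ, e⟩ := hY.2 γ hγ x hx
  refine per_GLs (P := fun t => Y t =ᶠ[𝓝 (x t)] 0) (fun t => ?_) (fun t ht => ?_) t
  · rw [hY.1.1.2 t, hx.2 t]
    refine ⟨(hY.1.2 t).ev_GLs h hγ, fun e' => (hY.1.2 t).ev_GLs h (Γ.inv_mem hγ) ?_⟩
    simpa using e'
  · filter_upwards [Metric.closedBall_mem_nhds (x t) hδ] with z hz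
    exact e t ht z (mem_closedBall_iff_norm.1 hz)

theorem ClY.orb_iff (h : Fr Γ B) (hJ : IJ om Γ J) (hG : IY Γ (ham G)) (hY : ClY Γ J G Y)
    (hγ : γ ∈ Γ) : Orb γ (ham G + Y) x ↔ Orb γ (ham G) x := by
  have key : (∀ t, Y t (x t) = 0) → (Orb γ (ham G + Y) x ↔ Orb γ (ham G) x) := fun e => by
    simp only [Orb, Pi.add_apply, e, add_zero]
  refine ⟨fun hx => (key ?_).1 hx, fun hx => (key fun t => (hY.1.ev_GLs h hγ hx t).self_of_nhds).2 hx⟩
  obtain ⟨hs, θ, hθ, hθ', hg⟩ := hY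
  have htw := Orb.tw (hG.add h hs.1).1 hx
  have h1 := hg γ hγ x htw
  have e : ∀ t, deriv x t - ham G t (x t) = Y t (x t) := fun t => by
    rw [(hx.1 t).deriv]; simp
  simp only [e] at h1
  have c1 := gj_cont_GLs hJ.1 htw.1.continuous (sp_cont_GLs hs.1.1 htw.1.continuous)
  have hI : 0 ≤ ∫ t in (0 : ℝ)..1, gj om J t (x t) (Y t (x t)) :=
    intervalIntegral.integral_nonneg zero_le_one fun t _ => gj_nonneg hJ.1 _ _ _
  have hθ2 : θ ^ 2 < 1 := by nlinarith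
  have h2 : ∫ t in (0 : ℝ)..1, gj om J t (x t) (Y t (x t)) ≤ 0 := by nlinarith
  refine per_GLs (P := fun t => Y t (x t) = 0) (fun t => ?_) fun t ht => ?_
  · rw [hs.1.1.2 t, hx.2 t, hs.1.2 t γ hγ, lin_eq_zero_GLs]
  · by_contra hne
    have h3 := intervalIntegral.integral_lt_integral_of_continuousOn_of_le_of_exists_lt
      (f := fun _ => (0 : ℝ)) zero_lt_one continuousOn_const c1.continuousOn
      (fun t _ => gj_nonneg hJ.1 _ _ _) ⟨t, ht, (hJ.1.2 t (x t)).2.2 _ hne⟩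
    rw [intervalIntegral.integral_zero] at h3
    linarith

theorem SupY.eventually (h : Fr Γ B) (hY : SupY Γ G Y) (hγ : γ ∈ Γ) (hx : Orb γ (ham G) x) (t : ℝ) :
    Y t =ᶠ[𝓝 (x t)] 0 := hY.ev_GLs h hγ hx t

theorem ClY.endF (h : Fr Γ B) (hJ : IJ om Γ J) (hG : EndF om Γ (ham G)) (hY : ClY Γ J G Y) :
    EndF om Γ (ham G + Y) := by
  refine ⟨hG.1.add h hY.1.1, fun γ hγ x hx => ?_⟩
  have hx' := (hY.orb_iff h hJ hG.1 hγ).1 hx
  have e : ∀ t, fderiv ℝ ((ham G + Y) t) (x t) = fderiv ℝ (ham G t) (x t) := fun t => by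
    refine Filter.EventuallyEq.fderiv_eq ?_
    filter_upwards [hY.1.eventually h hγ hx' t] with z hz
    simp [hz]
  have h1 := hG.2 γ hγ x hx'
  refine ⟨hx, ?_⟩
  simp only [e]
  exact h1.2

theorem SupY.agr (hY : SupY Γ G Y) (hγ : γ ∈ Γ) (c : Ch γ) {x : ℝ → V6}
    (hx : Orb γ (ham G) (c.up x)) : ∃ δ > 0, ∀ (p : Pl) z, ‖z - x p.2‖ ≤ δ → c.pZ (sta Y) p z = 0 := by
  obtain ⟨δ, hδ, e⟩ := hY.2 γ hγ _ hx
  obtain ⟨A, hA⟩ := (isCompact_Icc (a := (0 : ℝ)) (b := 1)).exists_bound_of_continuousOn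
    c.sP.continuous.continuousOn
  have hA0 : 0 ≤ A := (norm_nonneg _).trans (hA 0 ⟨le_rfl, zero_le_one⟩)
  have htw : ∀ t z, c.pt (t + 1) z = γ (c.pt t z) := fun t z => c.tw t z
  have hper : ∀ t, x (t + 1) = x t := fun t => by
    have h1 : c.pt (t + 1) (x (t + 1)) = c.pt (t + 1) (x t) := (hx.2 t).trans (htw t _).symm
    have h2 := congrArg (c.Q (t + 1)) (add_left_cancel h1)
    rwa [c.QP, c.QP] at h2
  have key : ∀ t z, ‖z - x t‖ ≤ δ / (A + 1) → Y t (c.pt t z) = 0 := by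
    refine per_GLs (fun t => ?_) fun t ht z hz => e t ht _ ?_
    · simp only [hper, htw, hY.1.1.2 t, hY.1.2 t γ hγ, lin_eq_zero_GLs]
    · have e1 : c.pt t z - c.up x t = c.P t (z - x t) := by simp [Gau.up, Gau.pt]
      rw [e1]
      calc ‖c.P t (z - x t)‖ ≤ (A + 1) * (δ / (A + 1)) :=
            ((c.P t).le_opNorm _).trans (mul_le_mul (by linarith [hA t ht]) hz (norm_nonneg _)
              (by linarith))
        _ = δ := by field_simp
  refine ⟨δ / (A + 1), by positivity, fun p z hz => ?_⟩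
  simp only [Gau.pZ, sta, key p.2 z hz, map_zero]

theorem sz_zero (J : ℝ → E → E →L[ℝ] E) : Sz J 0 0 :=
  ⟨0, integrable_zero _ _ _, fun q z => (gj_zero_GLs J q.2 z).le, by simp⟩

theorem Sz.mono (h : Sz J η p) (e : η ≤ η') : Sz J η' p := by
  obtain ⟨P, h1, h2, h3⟩ := h
  exact ⟨P, h1, h2, h3.trans e⟩

theorem Sz.add (hJ : ACS om J) (h : Sz J η p) (h' : Sz J η' q) {κ : ℝ} (hκ : 0 < κ) :
    Sz J ((1 + κ) * η + (1 + κ⁻¹) * η') (p + q) := by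
  obtain ⟨P, h1, h2, h3⟩ := h
  obtain ⟨P', h1', h2', h3'⟩ := h'
  have k1 : 0 ≤ 1 + κ := by positivity
  have k2 : 0 ≤ 1 + κ⁻¹ := by positivity
  refine ⟨fun s => (1 + κ) * P s + (1 + κ⁻¹) * P' s, (h1.const_mul _).add (h1'.const_mul _),
    fun a z => (gj_add_le hJ _ _ _ _ hκ).trans (add_le_add (mul_le_mul_of_nonneg_left (h2 a z) k1)
      (mul_le_mul_of_nonneg_left (h2' a z) k2)), ?_⟩
  rw [integral_add (h1.const_mul _) (h1'.const_mul _), integral_const_mul, integral_const_mul]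
  exact add_le_add (mul_le_mul_of_nonneg_left h3 k1) (mul_le_mul_of_nonneg_left h3' k2)

theorem Sz.smul_GLs (h : Sz J η p) (r : ℝ) : Sz J (r ^ 2 * η) (r • p) := by
  obtain ⟨P, h1, h2, h3⟩ := h
  refine ⟨fun s => r ^ 2 * P s, h1.const_mul _, fun a z => ?_, ?_⟩
  · rw [Pi.smul_apply, Pi.smul_apply, gj_smul]
    exact mul_le_mul_of_nonneg_left (h2 a z) (sq_nonneg r)
  · rw [integral_const_mul]
    exact mul_le_mul_of_nonneg_left h3 (sq_nonneg r)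

theorem Sz.smul (hJ : ACS om J) (h : Sz J η p) {r : ℝ} (hr : |r| ≤ 1) : Sz J η (r • p) := by
  obtain ⟨P, h1, h2, h3⟩ := h
  refine ⟨P, h1, fun a z => le_trans ?_ (h2 a z), h3⟩
  rw [Pi.smul_apply, Pi.smul_apply, gj_smul]
  exact mul_le_of_le_one_left (gj_nonneg hJ _ _ _) ((sq_le_one_iff_abs_le_one r).2 hr)

theorem Sz.tsl (h : Sz J η p) (s : ℝ) : Sz J η (tsl (s, 0) p) := by
  obtain ⟨P, h1, h2, h3⟩ := h
  refine ⟨fun a => P (a + s), h1.comp_add_right s, fun a z => ?_, ?_⟩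
  · have := h2 (a + (s, 0)) z
    rwa [Prod.snd_add, Prod.fst_add, add_zero] at this
  · rwa [integral_add_right_eq_self]

theorem supX_zero (h : Fr Γ B) (hR : 0 ≤ R) : SupX Γ R (0 : Pl → E → E) :=
  ⟨⟨hR, contDiff_const, fun _ _ _ => rfl, fun _ _ _ => rfl, fun _ _ _ => rfl⟩,
    fun _ g _ _ => (lin_zero_GLs g).symm, fun _ _ => rfl⟩

theorem SupX.add (h : Fr Γ B) (hp : SupX Γ R p) (hq : SupX Γ R q) : SupX Γ R (p + q) := by
  refine ⟨⟨hp.1.nonneg, hp.1.smooth.add hq.1.smooth, fun a s t => ?_, fun a s hs => ?_,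
    fun a s hs => ?_⟩, fun a g hg z => ?_, fun a ha => ?_⟩
  · simp only [Pi.add_apply, hp.1.per a s t, hq.1.per a s t]
  · exact congrArg₂ (· + ·) (hp.1.left a s hs) (hq.1.left a s hs)
  · exact congrArg₂ (· + ·) (hp.1.right a s hs) (hq.1.right a s hs)
  · obtain ⟨L, hL⟩ := h.aff hg
    simp only [Pi.add_apply, hp.2.1 a g hg z, hq.2.1 a g hg z, hL, map_add]
  · simp only [Pi.add_apply, hp.2.2 a ha, hq.2.2 a ha, add_zero]

theorem SupX.smul (h : Fr Γ B) (hp : SupX Γ R p) (r : ℝ) : SupX Γ R (r • p) := by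
  refine ⟨⟨hp.1.nonneg, hp.1.smooth.const_smul r, fun a s t => ?_, fun a s hs => ?_,
    fun a s hs => ?_⟩, fun a g hg z => ?_, fun a ha => ?_⟩
  · simp only [Pi.smul_apply, hp.1.per a s t]
  · exact congrArg (r • ·) (hp.1.left a s hs)
  · exact congrArg (r • ·) (hp.1.right a s hs)
  · obtain ⟨L, hL⟩ := h.aff hg
    simp only [Pi.smul_apply, hp.2.1 a g hg z, hL, map_smul]
  · simp only [Pi.smul_apply, hp.2.2 a ha, smul_zero]

theorem SupX.sum (h : Fr Γ B) (hR : 0 ≤ R) {ι : Type} [Fintype ι] {Z : ι → Pl → E → E}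
    (hZ : ∀ i, SupX Γ R (Z i)) (a : ι → ℝ) : SupX Γ R (∑ i, a i • Z i) :=
  Finset.sum_induction _ (SupX Γ R) (fun _ _ => SupX.add h) (supX_zero h hR)
    fun i _ => (hZ i).smul h _

theorem SupX.sz (h : Fr Γ B) (hJ : IJ om Γ J) (hp : SupX Γ R p) : ∃ η, Sz J η p := by
  have hs : SP fun (t : ℝ) (k : ℝ × E) => p (k.1, t) k.2 :=
    ⟨hp.1.smooth.comp ((contDiff_const (c := (0 : ℝ))).prodMk
      ((contDiff_snd.fst.prodMk contDiff_fst).prodMk contDiff_snd.snd)),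
      fun t => funext fun k => congrFun (hp.1.per 0 k.1 t) k.2⟩
  obtain ⟨D', hb⟩ := h.bound hs (fun t k => hp.2.1 (k, t)) R
  obtain ⟨D, hD, hD'⟩ := h.gj_cmp hJ
  refine ⟨_, (Icc (-R) R).indicator fun _ => D * D' ^ 2,
    (integrableOn_const (by simp)).integrable_indicator measurableSet_Icc, fun a z => ?_, le_rfl⟩
  by_cases ha : a.1 ∈ Icc (-R) R
  · rw [indicator_of_mem ha]
    exact (hD' _ z _).2.1.trans (mul_le_mul_of_nonneg_left
      (pow_le_pow_left₀ (nm_nonneg _ _ _) (hb a.2 a.1 z (abs_le.2 ha)) 2) (by linarith))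
  · rw [indicator_of_notMem ha, hp.2.2 a (not_le.1 fun e => ha (abs_le.1 e)).le]
    exact (gj_zero_GLs J _ z).le

theorem sz_small (h : Fr Γ B) (hJ : IJ om Γ J) {ι : Type} [Fintype ι] {Z : ι → Pl → E → E}
    (hZ : ∀ i, SupX Γ R (Z i)) (hη : 0 < η) :
    ∃ δ > 0, ∀ a : ι → ℝ, ‖a‖ ≤ δ → Sz J η (∑ i, a i • Z i) := by
  classical
  have key : ∀ s : Finset ι, ∃ Θ, 0 ≤ Θ ∧ ∀ a : ι → ℝ,
      Sz J (‖a‖ ^ 2 * Θ) (∑ i ∈ s, a i • Z i) := by
    intro s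
    induction s using Finset.induction_on with
    | empty => exact ⟨0, le_rfl, fun a => by simpa using sz_zero J⟩
    | insert i s hi ih =>
      obtain ⟨Θ, hΘ, e⟩ := ih
      obtain ⟨θ, e'⟩ := (hZ i).sz h hJ
      refine ⟨2 * (|θ| + Θ), by positivity, fun a => ?_⟩
      rw [Finset.sum_insert hi]
      refine (Sz.add hJ.1 ((e'.mono (le_abs_self θ)).smul_GLs (a i)) (e a) one_pos).mono ?_
      have h1 : a i ^ 2 ≤ ‖a‖ ^ 2 := by
        rw [← sq_abs]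
        exact pow_le_pow_left₀ (abs_nonneg _) (norm_le_pi_norm a i) 2
      have h2 := mul_le_mul_of_nonneg_right h1 (abs_nonneg θ)
      rw [inv_one]
      linarith
  obtain ⟨Θ, hΘ, e⟩ := key Finset.univ
  refine ⟨min 1 (η / (Θ + 1)), lt_min one_pos (by positivity), fun a ha => (e a).mono ?_⟩
  have h1 : ‖a‖ ≤ 1 := ha.trans (min_le_left _ _)
  have h2 : ‖a‖ * (Θ + 1) ≤ η := (le_div_iff₀ (by positivity)).1 (ha.trans (min_le_right _ _))
  have h3 := norm_nonneg a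
  have h4 : 0 ≤ ‖a‖ * Θ := by positivity
  nlinarith

end

end Pool.Agent.P.MP_de3acd_gt.FH
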