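import Pool.Agent.P.MP_de3acd_gt.FH.Pth
import Pool.Agent.P.MP_de3acd_gt.FH.AA

/-! Isolation and finiteness of nondegenerate periodic orbits.
Sketch: isolated: ξ = x' - x satisfies ‖ξ' - B ξ‖ ≤ ε ‖ξ‖ when sup ‖ξ‖ ≤ δ (fderiv of Y t is uniformly continuous near the orbit,
mean value inequality), B t = fderiv (Y t) (x t); ode_est gives ∫ ‖ξ‖^2 ≤ c ε^2 ∫ ‖ξ‖^2, so ξ = 0. finite: an injective sequence of
orbits in the ball has x n 0 → v along a subsequence, is uniformly Cauchy by Gronwall (dist_le_of_trajectories_ODE with a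
Lipschitz constant on the ball, periodicity), the limit is an orbit (hasDerivAt_of_tendstoUniformly); or use aa for lp (x n).
eq_of_eq: ODE_solution_unique_univ-type lemma (local Lipschitz, both curves bounded). -/

open Set Filter Topology MeasureTheory
open scoped ContDiff NNReal ENNReal RealInnerProductSpace

namespace Pool.Agent.P.MP_de3acd_gt.FH

noncomputable section

variable {V : Type} [NormedAddCommGroup V] [InnerProductSpace ℝ V] [Sym V]

variable {Y : ℝ → V → V} {x y : ℝ → V}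

theorem bd_Orbs (hx : Orb 1 Y x) : ∃ A, InB A x := by
  have hc : Continuous x := continuous_iff_continuousAt.2 fun t => (hx.1 t).continuousAt
  obtain ⟨K, -, h⟩ := (Function.Periodic.isBounded_of_continuous (c := 1) (Orb.per hx) one_ne_zero
    hc).exists_pos_norm_le
  exact ⟨K, fun t => h _ (mem_range_self t)⟩

theorem gron_Orbs (hY : SP Y) (A : ℝ) : ∃ C : ℝ, 0 ≤ C ∧ ∀ x y, Orb 1 Y x → InB A x →
    Orb 1 Y y → InB A y → ∀ t s, ‖x s - y s‖ ≤ C * ‖x t - y t‖ := by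
  obtain ⟨M, h0, hM⟩ := hY.lip_JetC A
  refine ⟨Real.exp M, (Real.exp_pos _).le, fun x y hx bx hy by' t s => ?_⟩
  have hp : Function.Periodic (fun r => x r - y r) 1 := fun r => by
    simp only [Orb.per hx r, Orb.per hy r]
  obtain ⟨r, hr, e⟩ := hp.exists_mem_Ico one_pos s t
  have hd : ∀ r, HasDerivAt (fun r => x r - y r) (Y r (x r) - Y r (y r)) r := fun r =>
    (hx.1 r).sub (hy.1 r)
  have h1 := norm_le_gronwallBound_of_norm_deriv_right_le (f := fun r => x r - y r)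
    (f' := fun r => Y r (x r) - Y r (y r)) (δ := ‖x t - y t‖) (K := M) (ε := 0) (a := t)
    (b := t + 1) (fun r _ => (hd r).continuousAt.continuousWithinAt)
    (fun r _ => (hd r).hasDerivWithinAt) le_rfl
    (fun r _ => by rw [add_zero]; exact hM r _ _ (bx r) (by' r)) r (Ico_subset_Icc_self hr)
  rw [gronwallBound_ε0] at h1
  have e' : x s - y s = x r - y r := e
  rw [e', mul_comm]
  refine h1.trans (mul_le_mul_of_nonneg_left (Real.exp_le_exp.2 ?_) (norm_nonneg _))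
  exact mul_le_of_le_one_right h0 (by linarith [hr.2])

theorem eq_Orbs (hY : SP Y) (hx : Orb 1 Y x) (hy : Orb 1 Y y) {t : ℝ} (e : x t = y t) :
    x = y := by
  obtain ⟨A, hA⟩ := bd_Orbs hx
  obtain ⟨B, hB⟩ := bd_Orbs hy
  obtain ⟨C, -, hC⟩ := gron_Orbs hY (max A B)
  funext s
  have h := hC x y hx (fun r => (hA r).trans (le_max_left _ _)) hy
    (fun r => (hB r).trans (le_max_right _ _)) t s
  rwa [e, sub_self, norm_zero, mul_zero, norm_le_zero_iff, sub_eq_zero] at h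

theorem GOrb.isolated (hY : SP Y) (hx : GOrb Ω0 1 Y x) :
    ∃ δ > 0, ∀ x', Orb 1 Y x' → (∀ t, ‖x' t - x t‖ ≤ δ) → x' = x := by
  obtain ⟨A, hA⟩ := bd_Orbs hx.1
  obtain ⟨M, h0, hM⟩ := hY.fderiv.lip_JetC (A + 1)
  have sx := Orb.contDiff hY.1 hx.1
  have hB : Continuous fun t => fderiv ℝ (Y t) (x t) :=
    hY.fderiv.1.continuous.comp (continuous_id.prodMk sx.continuous)
  obtain ⟨c, hc⟩ := ode_est hB (fun t => by simp only [hY.2 t, Orb.per hx.1 t]) hx.2.2
  have hc0 : (0 : ℝ) ≤ c := c.coe_nonneg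
  set κ : ℝ≥0 := (c + 1)⁻¹ with hκ
  have hκ' : (κ : ℝ) = ((c : ℝ) + 1)⁻¹ := by rw [hκ]; push_cast; rfl
  set δ : ℝ := ((c : ℝ) + 1)⁻¹ * (M + 1)⁻¹ with hδ
  have hδ0 : 0 < δ := by positivity
  have h1 : ((c : ℝ) + 1)⁻¹ ≤ 1 := inv_le_one_of_one_le₀ (by linarith)
  have hδ1 : δ ≤ 1 := mul_le_one₀ h1 (by positivity) (inv_le_one_of_one_le₀ (by linarith))
  have hMδ : M * δ ≤ κ := by
    rw [hκ', hδ, mul_left_comm]
    refine mul_le_of_le_one_right (by positivity) ?_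
    rw [← div_eq_mul_inv, div_le_one (by linarith)]
    linarith
  refine ⟨δ, hδ0, fun x' hx' hd => ?_⟩
  have sx' := Orb.contDiff hY.1 hx'
  set ξ : ℝ → V := fun t => x' t - x t with hξ
  have sξ : ContDiff ℝ 1 ξ := (sx'.sub sx).of_le (by simp)
  have hr : ∀ t, ‖deriv ξ t - fderiv ℝ (Y t) (x t) (ξ t)‖ ≤ κ * ‖ξ t‖ := by
    intro t
    have h2 : deriv ξ t = Y t (x' t) - Y t (x t) := ((hx'.1 t).sub (hx.1.1 t)).deriv
    have hY' : ContDiff ℝ ∞ (Y t) := hY.1.comp (contDiff_const.prodMk contDiff_id)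
    rw [h2]
    refine (convex_closedBall (x t) δ).norm_image_sub_le_of_norm_fderiv_le' (𝕜 := ℝ)
      (fun z _ => hY'.differentiable (by simp) z) (fun z hz => ?_)
      (Metric.mem_closedBall_self hδ0.le) (mem_closedBall_iff_norm.2 (hd t))
    have h3 := mem_closedBall_iff_norm.1 hz
    have h4 : ‖z‖ ≤ A + 1 := by
      have h5 := norm_le_insert' z (x t)
      linarith [hA t]
    exact (hM t z (x t) h4 (by linarith [hA t])).trans
      ((mul_le_mul_of_nonneg_left h3 h0).trans hMδ)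
  have h6 := hc ξ sξ fun t => by simp only [hξ, Orb.per hx' t, Orb.per hx.1 t]
  set I : ℝ≥0∞ := ∫⁻ t in Icc (0 : ℝ) 1, ‖ξ t‖ₑ ^ 2 with hI
  have h7 : ∫⁻ t in Icc (0 : ℝ) 1, ‖deriv ξ t - fderiv ℝ (Y t) (x t) (ξ t)‖ₑ ^ 2 ≤
      (κ : ℝ≥0∞) ^ 2 * I := by
    rw [hI, ← lintegral_const_mul' _ _ (by simp)]
    refine lintegral_mono fun t => ?_
    rw [← mul_pow]
    refine pow_le_pow_left' ?_ 2
    rw [enorm_eq_nnnorm, enorm_eq_nnnorm, ← ENNReal.coe_mul, ENNReal.coe_le_coe]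
    exact hr t
  have h8 : I ≤ ((c * κ ^ 2 : ℝ≥0) : ℝ≥0∞) * I := by
    rw [ENNReal.coe_mul, ENNReal.coe_pow, mul_assoc]
    exact (lintegral_mono fun t => le_self_add).trans (h6.trans (mul_le_mul' le_rfl h7))
  have h9 : I ≠ ⊤ := by
    refine ne_top_of_le_ne_top (b := ∫⁻ _ in Icc (0 : ℝ) 1, (1 : ℝ≥0∞)) (by simp)
      (lintegral_mono fun t => pow_le_one₀ (by positivity) ?_)
    rw [enorm_eq_nnnorm, ENNReal.coe_le_one_iff]
    exact (hd t).trans hδ1
  have h10 : ((c * κ ^ 2 : ℝ≥0) : ℝ≥0∞) < 1 := by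
    rw [ENNReal.coe_lt_one_iff, ← NNReal.coe_lt_coe]
    push_cast
    rw [hκ', inv_pow, ← div_eq_mul_inv, div_lt_one (by positivity)]
    nlinarith
  have h11 : I = 0 := by
    by_contra h12
    have h13 := ENNReal.mul_lt_mul_left h12 h9 h10
    rw [one_mul] at h13
    exact absurd h8 h13.not_ge
  rw [hI, lintegral_eq_zero_iff (sξ.continuous.enorm.measurable.pow_const 2)] at h11
  have : (ae (volume.restrict (Icc (0 : ℝ) 1))).NeBot := ae_neBot.2 (by simp)
  obtain ⟨t, ht⟩ := h11.exists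
  have h14 : ξ t = 0 := by simpa using ht
  exact eq_Orbs hY hx' hx.1 (sub_eq_zero.1 h14)

theorem NdB.finite (hY : SP Y) {A : ℝ} (h : NdB Y A) : {x | Orb 1 Y x ∧ InB A x}.Finite := by
  by_contra hinf
  let e := Set.Infinite.natEmbedding _ hinf
  obtain ⟨C, hC0, hC⟩ := gron_Orbs hY A
  obtain ⟨M, h0, hM⟩ := hY.lip_JetC A
  haveI := FiniteDimensional.proper_real V
  obtain ⟨v, -, φ, hφ, hv⟩ := (isCompact_closedBall (0 : V) A).tendsto_subseq
    (x := fun n => (e n).1 0) fun n => mem_closedBall_zero_iff.2 ((e n).2.2 0)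
  let w : ℕ → ℝ → V := fun n => (e (φ n)).1
  have ow : ∀ n, Orb 1 Y (w n) := fun n => (e (φ n)).2.1
  have bw : ∀ n, InB A (w n) := fun n => (e (φ n)).2.2
  have hw : ∀ n m s, ‖w n s - w m s‖ ≤ C * ‖w n 0 - w m 0‖ := fun n m s =>
    hC _ _ (ow n) (bw n) (ow m) (bw m) 0 s
  have hv' : Tendsto (fun n => w n 0) atTop (𝓝 v) := hv
  have hcau : ∀ s, ∃ z, Tendsto (fun n => w n s) atTop (𝓝 z) := by
    intro s
    refine cauchySeq_tendsto_of_complete ?_
    rw [cauchySeq_iff_tendsto_dist_atTop_0]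
    have h1 := (cauchySeq_iff_tendsto_dist_atTop_0.1 hv'.cauchySeq).const_mul C
    rw [mul_zero] at h1
    refine squeeze_zero (fun _ => dist_nonneg) (fun p => ?_) h1
    rw [dist_eq_norm, dist_eq_norm]
    exact hw _ _ s
  choose z hz using hcau
  have hlim : ∀ n s, ‖w n s - z s‖ ≤ C * ‖w n 0 - v‖ := fun n s =>
    le_of_tendsto_of_tendsto' (tendsto_const_nhds.sub (hz s)).norm
      ((tendsto_const_nhds.sub hv').norm.const_mul C) fun m => hw n m s
  have bz : InB A z := fun s => le_of_tendsto' (hz s).norm fun n => bw n s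
  have hsm : ∀ K ε : ℝ, 0 < ε → ∀ᶠ n in atTop, K * ‖w n 0 - v‖ < ε := by
    intro K ε hε
    have h1 := (tendsto_iff_norm_sub_tendsto_zero.1 hv').const_mul K
    rw [mul_zero] at h1
    exact h1.eventually (gt_mem_nhds hε)
  have hu : TendstoUniformly (fun n s => Y s (w n s)) (fun s => Y s (z s)) atTop := by
    rw [Metric.tendstoUniformly_iff]
    intro ε hε
    filter_upwards [hsm (M * C) ε hε] with n hn s
    rw [dist_comm, dist_eq_norm]
    refine lt_of_le_of_lt ((hM s _ _ (bw n s) (bz s)).trans ?_) hn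
    rw [mul_assoc]
    exact mul_le_mul_of_nonneg_left (hlim n s) h0
  have oz : Orb 1 Y z := by
    refine ⟨hasDerivAt_of_tendstoUniformly hu (Eventually.of_forall fun n => (ow n).1) hz,
      fun s => ?_⟩
    refine tendsto_nhds_unique (hz (s + 1)) ?_
    simp only [Orb.per (ow _) s]
    exact hz s
  obtain ⟨δ, hδ, hiso⟩ := (h z oz bz).isolated hY
  obtain ⟨N, hN⟩ := eventually_atTop.1 (hsm C δ hδ)
  have h1 : ∀ n ≥ N, w n = z := fun n hn =>
    hiso _ (ow n) fun s => (hlim n s).trans (hN n hn).le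
  have h2 : e (φ N) = e (φ (N + 1)) :=
    Subtype.ext ((h1 N le_rfl).trans (h1 (N + 1) (Nat.le_succ N)).symm)
  exact (hφ (Nat.lt_succ_self N)).ne (e.injective h2)

theorem Orb.eq_of_eq (hY : SP Y) (hx : Orb 1 Y x) (hy : Orb 1 Y y) {t : ℝ} (e : x t = y t) : x = y :=
  eq_Orbs hY hx hy e

theorem NdB.sep (hY : SP Y) {A : ℝ} (h : NdB Y A) : ∃ δ > 0, ∀ x y, Orb 1 Y x → InB A x →
    Orb 1 Y y → InB A y → ∀ t, ‖x t - y t‖ ≤ δ → x = y := by
  obtain ⟨C, hC0, hC⟩ := gron_Orbs hY A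
  have hf := h.finite hY
  have key : ∀ᶠ δ in 𝓝[>] (0 : ℝ), ∀ x ∈ {x | Orb 1 Y x ∧ InB A x},
      ∀ y ∈ {x | Orb 1 Y x ∧ InB A x}, ∀ t, ‖x t - y t‖ ≤ δ → x = y := by
    refine (eventually_all_finite hf).2 fun x hx => (eventually_all_finite hf).2 fun y hy => ?_
    by_cases e : x = y
    · exact Eventually.of_forall fun _ _ _ => e
    · have h1 : 0 < ‖x 0 - y 0‖ :=
        norm_pos_iff.2 (sub_ne_zero.2 fun e' => e (eq_Orbs hY hx.1 hy.1 e'))
      have h2 : Tendsto (fun δ : ℝ => C * δ) (𝓝[>] 0) (𝓝 (C * 0)) :=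
        (tendsto_id.mono_left nhdsWithin_le_nhds).const_mul C
      rw [mul_zero] at h2
      filter_upwards [h2.eventually (gt_mem_nhds h1)] with δ hδ t ht
      have h3 := (hC x y hx.1 hx.2 hy.1 hy.2 t 0).trans (mul_le_mul_of_nonneg_left ht hC0)
      exact absurd hδ h3.not_gt
  obtain ⟨δ, h1, h2⟩ := (key.and self_mem_nhdsWithin).exists
  exact ⟨δ, h2, fun x y hx bx hy by' => h1 x ⟨hx, bx⟩ y ⟨hy, by'⟩⟩

theorem orb_of_ds {J : ℝ → V → V →L[ℝ] V} (hJ : ACS Ω0 J) {u : Pl → V} (hu : ContDiff ℝ ∞ u)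
    (pu : Per u) {s : ℝ} (e : ∀ t, cr J (sta Y) u (s, t) = 0) (e' : ∀ t, ds u (s, t) = 0) :
    Orb 1 Y fun t => u (s, t) := by
  refine ⟨fun t => ?_, fun t => pu s t⟩
  have h1 : J t (u (s, t)) (dt u (s, t) - Y t (u (s, t))) = 0 := by
    have h2 := e t
    rwa [cr, e' t, zero_add] at h2
  have h3 := (hJ.2 t (u (s, t))).1 (dt u (s, t) - Y t (u (s, t)))
  rw [h1, map_zero, eq_comm, neg_eq_zero, sub_eq_zero] at h3
  rw [← h3]
  exact hasDerivAt_dt (hu.differentiable (by simp) (s, t))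

end

end Pool.Agent.P.MP_de3acd_gt.FH
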