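import Pool.Agent.P.MP_de3acd_gt.FH.InvE
import Pool.Agent.P.MP_de3acd_gt.FH.Orbs

/-! The Palais-Smale property and finiteness of the orbits.
Sketch: psV: a subsequence of w n 0 converges; Y is Lipschitz on the ball; Gronwall in integral form (or norm_le_gronwallBound_of_norm_deriv_right_le after subtracting the
primitive of the errors) shows that w (φ n) is uniformly Cauchy on Icc 0 1, hence on ℝ; the limit satisfies x t = x 0 + ∫ Y. An alternative is Arzela-Ascoli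
(BoundedContinuousFunction.arzela_ascoli) with the bound ‖w t - w s‖ ≤ C √|t - s|. ps: by contradiction γ n, w n; move w n 0 into the ball (dom, tw_iff, gj_inv, nm_inv);
the length on Icc 0 1 is bounded (gj_cmp, boundY), so w n is bounded there (path), γ n lies in a finite set (fin), constant along a subsequence; chart, deriv_up_sub,
Gau.bound, nm_cmp, psV. orb_fin: the same with NdB.finite in each of the finitely many charts (Gau.ndA). -/

open Set Filter Topology MeasureTheory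
open scoped ContDiff NNReal ENNReal RealInnerProductSpace

namespace Pool.Agent.P.MP_de3acd_gt.FH

noncomputable section

variable {Γ : Subgroup (Equiv.Perm E)} {B : ℝ → E →L[ℝ] E} {J : ℝ → E → E →L[ℝ] E}
  {H G K K' : ℝ → E → ℝ} {Y Y' Z : ℝ → E → E} {γ g : Equiv.Perm E} {x y w : ℝ → E} {u : Pl → E}
variable {V : Type} [NormedAddCommGroup V] [InnerProductSpace ℝ V] [Sym V]

theorem cs_PS {f : ℝ → ℝ} (hf : Continuous f) :
    (∫ t in (0 : ℝ)..1, f t) ^ 2 ≤ ∫ t in (0 : ℝ)..1, f t ^ 2 := by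
  set m := ∫ t in (0 : ℝ)..1, f t with hm
  have i1 : IntervalIntegrable (fun t => 2 * m * f t) volume 0 1 :=
    (continuous_const.mul hf).intervalIntegrable _ _
  have h1 : ∫ t in (0 : ℝ)..1, (2 * m * f t - m ^ 2) ≤ ∫ t in (0 : ℝ)..1, f t ^ 2 :=
    intervalIntegral.integral_mono_on zero_le_one (i1.sub intervalIntegrable_const)
      ((hf.pow 2).intervalIntegrable _ _) fun t _ => by nlinarith [sq_nonneg (f t - m)]
  rw [intervalIntegral.integral_sub i1 intervalIntegrable_const,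
    intervalIntegral.integral_const_mul, intervalIntegral.integral_const, ← hm] at h1
  simp only [sub_zero, smul_eq_mul, one_mul] at h1
  linarith

omit [Sym V] in
theorem prim_PS {r : ℝ → V} (hr : Continuous r) (hp : Function.Periodic r 1) {a t : ℝ}
    (ht : t ∈ Icc a (a + 1)) : ‖∫ s in a..t, r s‖ ≤ ∫ s in (0 : ℝ)..1, ‖r s‖ := by
  have hp' : Function.Periodic (fun s => ‖r s‖) 1 := fun s => by simp only [hp s]
  have e := hp'.intervalIntegral_add_eq a 0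
  rw [zero_add] at e
  rw [← e]
  exact (intervalIntegral.norm_integral_le_integral_norm ht.1).trans
    (intervalIntegral.integral_mono_interval le_rfl ht.1 ht.2
      (Eventually.of_forall fun s => norm_nonneg _) (hr.norm.intervalIntegrable _ _))

theorem err_PS {Y : ℝ → V → V} (hY : SP Y) {w : ℝ → V} (hw : ContDiff ℝ ∞ w)
    (hp : ∀ t, w (t + 1) = w t) (a : ℝ) : ∃ v : ℝ → V, v a = w a ∧
      (∀ t, HasDerivAt v (Y t (w t)) t) ∧ ∀ t ∈ Icc a (a + 1),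
        ‖w t - v t‖ ≤ ∫ s in (0 : ℝ)..1, ‖deriv w s - Y s (w s)‖ := by
  have := FiniteDimensional.complete ℝ V
  have hr : Continuous fun s => deriv w s - Y s (w s) :=
    (hw.continuous_deriv (by simp)).sub
      (hY.1.continuous.comp (continuous_id.prodMk hw.continuous))
  have hp' : Function.Periodic (fun s => deriv w s - Y s (w s)) 1 := fun s => by
    have e : (fun t => w (t + 1)) = w := funext hp
    have e' := deriv_comp_add_const w 1 s
    rw [e] at e'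
    simp only [hp s, hY.2 s, ← e']
  refine ⟨fun t => w t - ∫ s in a..t, (deriv w s - Y s (w s)), by simp, fun t => ?_,
    fun t ht => ?_⟩
  · have h1 := (hw.differentiable (by simp) t).hasDerivAt.sub (hr.integral_hasStrictDerivAt a t).hasDerivAt
    rwa [sub_sub_cancel] at h1
  · rw [sub_sub_cancel]
    exact prim_PS hr hp' ht

theorem gron_PS {Y : ℝ → V → V} (hY : SP Y) (A : ℝ) : ∃ C : ℝ, 0 ≤ C ∧ ∀ w w' : ℝ → V,
    ContDiff ℝ ∞ w → (∀ t, w (t + 1) = w t) → InB A w → ContDiff ℝ ∞ w' →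
      (∀ t, w' (t + 1) = w' t) → InB A w' → ∀ s, ‖w s - w' s‖ ≤ C * (‖w 0 - w' 0‖ +
        ((∫ s in (0 : ℝ)..1, ‖deriv w s - Y s (w s)‖) +
          ∫ s in (0 : ℝ)..1, ‖deriv w' s - Y s (w' s)‖)) := by
  obtain ⟨M, h0, hM⟩ := hY.lip_JetC A
  refine ⟨Real.exp (M + 1), (Real.exp_pos _).le, fun w w' sw pw bw sw' pw' bw' s => ?_⟩
  obtain ⟨v, v0, dv, hv⟩ := err_PS hY sw pw 0
  obtain ⟨v', v0', dv', hv'⟩ := err_PS hY sw' pw' 0
  set η := (∫ s in (0 : ℝ)..1, ‖deriv w s - Y s (w s)‖) +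
    ∫ s in (0 : ℝ)..1, ‖deriv w' s - Y s (w' s)‖ with hη
  have hp : Function.Periodic (fun r => w r - w' r) 1 := fun r => by simp only [pw r, pw' r]
  obtain ⟨r, hr, e⟩ := hp.exists_mem_Ico one_pos s 0
  have hd : ∀ r, HasDerivAt (fun r => v r - v' r) (Y r (w r) - Y r (w' r)) r := fun r =>
    (dv r).sub (dv' r)
  have key : ∀ r ∈ Icc (0 : ℝ) (0 + 1), ‖w r - w' r‖ ≤ ‖v r - v' r‖ + η := fun r hr => by
    have e : w r - w' r = (v r - v' r) + ((w r - v r) - (w' r - v' r)) := by abel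
    rw [e]
    exact (norm_add_le _ _).trans (add_le_add le_rfl
      ((norm_sub_le _ _).trans (add_le_add (hv r hr) (hv' r hr))))
  have hη0 : 0 ≤ η := add_nonneg ((norm_nonneg _).trans (hv r (Ico_subset_Icc_self hr)))
    ((norm_nonneg _).trans (hv' r (Ico_subset_Icc_self hr)))
  have h1 := norm_le_gronwallBound_of_norm_deriv_right_le (f := fun r => v r - v' r)
    (f' := fun r => Y r (w r) - Y r (w' r)) (δ := ‖w 0 - w' 0‖) (K := M + 1) (ε := (M + 1) * η)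
    (a := 0) (b := 0 + 1) (fun r _ => (hd r).continuousAt.continuousWithinAt)
    (fun r _ => (hd r).hasDerivWithinAt) (by simp only [v0, v0', le_refl])
    (fun r hr => by
      refine (hM r _ _ (bw r) (bw' r)).trans ?_
      rw [← mul_add]
      exact mul_le_mul (by linarith) (key r (Ico_subset_Icc_self hr)) (norm_nonneg _)
        (by linarith)) r (Ico_subset_Icc_self hr)
  rw [gronwallBound_of_K_ne_0 (by linarith), mul_div_cancel_left₀ _ (by linarith)] at h1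
  have e' : w s - w' s = w r - w' r := e
  have h2 : Real.exp ((M + 1) * (r - 0)) ≤ Real.exp (M + 1) :=
    Real.exp_le_exp.2 (mul_le_of_le_one_right (by linarith) (by linarith [hr.2]))
  have h3 := mul_le_mul_of_nonneg_left h2 (add_nonneg (norm_nonneg (w 0 - w' 0)) hη0)
  rw [e']
  have h4 := key r (Ico_subset_Icc_self hr)
  simp only at h1
  linarith

theorem psV {Y : ℝ → V → V} (hY : SP Y) {A : ℝ} {w : ℕ → ℝ → V}
    (hw : ∀ n, ContDiff ℝ ∞ (w n) ∧ (∀ t, w n (t + 1) = w n t) ∧ InB A (w n))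
    (e : Tendsto (fun n => ∫ t in (0 : ℝ)..1, ‖deriv (w n) t - Y t (w n t)‖ ^ 2) atTop (𝓝 0)) :
    ∃ (φ : ℕ → ℕ) (x : ℝ → V), StrictMono φ ∧ Orb 1 Y x ∧
      TendstoUniformly (fun n => w (φ n)) x atTop := by
  obtain ⟨C, hC0, hC⟩ := gron_PS hY A
  obtain ⟨M, h0, hM⟩ := hY.lip_JetC A
  have := FiniteDimensional.proper_real V
  obtain ⟨v, -, φ, hφ, hv⟩ := (isCompact_closedBall (0 : V) A).tendsto_subseq
    (x := fun n => w n 0) fun n => mem_closedBall_zero_iff.2 ((hw n).2.2 0)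
  let η : ℕ → ℝ := fun n => ∫ s in (0 : ℝ)..1, ‖deriv (w (φ n)) s - Y s (w (φ n) s)‖
  have hη : Tendsto η atTop (𝓝 0) := by
    have h1 := (e.comp hφ.tendsto_atTop).sqrt
    rw [Real.sqrt_zero] at h1
    refine squeeze_zero (fun n => intervalIntegral.integral_nonneg zero_le_one fun s _ =>
      norm_nonneg _) (fun n => Real.le_sqrt_of_sq_le (cs_PS ?_)) h1
    exact (((hw _).1.continuous_deriv (by simp)).sub
      (hY.1.continuous.comp (continuous_id.prodMk (hw _).1.continuous))).norm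
  have hw' : ∀ n m s, ‖w (φ n) s - w (φ m) s‖ ≤ C * (‖w (φ n) 0 - w (φ m) 0‖ + (η n + η m)) :=
    fun n m s => hC _ _ (hw _).1 (hw _).2.1 (hw _).2.2 (hw _).1 (hw _).2.1 (hw _).2.2 s
  have hv' : Tendsto (fun n => w (φ n) 0) atTop (𝓝 v) := hv
  have hcau : ∀ s, ∃ z, Tendsto (fun n => w (φ n) s) atTop (𝓝 z) := by
    intro s
    refine cauchySeq_tendsto_of_complete ?_
    rw [cauchySeq_iff_tendsto_dist_atTop_0]
    have h2 : Tendsto (fun p : ℕ × ℕ => η p.1 + η p.2) atTop (𝓝 (0 + 0)) := by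
      rw [← prod_atTop_atTop_eq]
      exact (hη.comp tendsto_fst).add (hη.comp tendsto_snd)
    have h1 := ((cauchySeq_iff_tendsto_dist_atTop_0.1 hv'.cauchySeq).add h2).const_mul C
    simp only [add_zero, mul_zero] at h1
    refine squeeze_zero (fun _ => dist_nonneg) (fun p => ?_) h1
    rw [dist_eq_norm, dist_eq_norm]
    exact hw' _ _ s
  choose z hz using hcau
  have hlim : ∀ n s, ‖w (φ n) s - z s‖ ≤ C * (‖w (φ n) 0 - v‖ + (η n + 0)) := fun n s =>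
    le_of_tendsto_of_tendsto' (tendsto_const_nhds.sub (hz s)).norm
      (((tendsto_const_nhds.sub hv').norm.add (tendsto_const_nhds.add hη)).const_mul C)
      fun m => hw' n m s
  have bz : InB A z := fun s => le_of_tendsto' (hz s).norm fun n => (hw _).2.2 s
  have hsm : ∀ K ε : ℝ, 0 < ε → ∀ᶠ n in atTop, K * (‖w (φ n) 0 - v‖ + (η n + 0)) < ε := by
    intro K ε hε
    have h1 := ((tendsto_iff_norm_sub_tendsto_zero.1 hv').add
      (hη.add (tendsto_const_nhds (x := (0 : ℝ))))).const_mul K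
    rw [add_zero, add_zero, mul_zero] at h1
    exact h1.eventually (gt_mem_nhds hε)
  have hu : TendstoUniformly (fun n s => Y s (w (φ n) s)) (fun s => Y s (z s)) atTop := by
    rw [Metric.tendstoUniformly_iff]
    intro ε hε
    filter_upwards [hsm (M * C) ε hε] with n hn s
    rw [dist_comm, dist_eq_norm]
    refine lt_of_le_of_lt ((hM s _ _ ((hw _).2.2 s) (bz s)).trans ?_) hn
    rw [mul_assoc]
    exact mul_le_mul_of_nonneg_left (hlim n s) h0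
  refine ⟨φ, z, hφ, ⟨fun t => ?_, fun s => ?_⟩, ?_⟩
  · choose y _ dy hy using fun n => err_PS hY (hw (φ n)).1 (hw (φ n)).2.1 (t - 1 / 2)
    refine hasDerivAt_of_tendstoUniformlyOn (f := y) (s := Ioo (t - 1 / 2) (t - 1 / 2 + 1))
      isOpen_Ioo hu.tendstoUniformlyOn (Eventually.of_forall fun n s _ => dy n s)
      (fun s hs => ?_) ⟨by linarith, by linarith⟩
    have h1 : Tendsto (fun n => w (φ n) s - y n s) atTop (𝓝 0) :=
      squeeze_zero_norm (fun n => hy n s (Ioo_subset_Icc_self hs)) hη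
    simpa only [sub_sub_cancel, sub_zero] using (hz s).sub h1
  · refine tendsto_nhds_unique (hz (s + 1)) ?_
    simp only [(hw _).2.1 s]
    exact hz s
  · rw [Metric.tendstoUniformly_iff]
    intro ε hε
    filter_upwards [hsm C ε hε] with n hn s
    rw [dist_comm, dist_eq_norm]
    exact (hlim n s).trans_lt hn

theorem inB_PS (c : Ch γ) (A : ℝ) : ∃ A', ∀ w : ℝ → E, (∀ t, w (t + 1) = γ (w t)) →
    (∀ t ∈ Icc (0 : ℝ) 1, ‖w t‖ ≤ A) → InB A' (c.dn w) := by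
  obtain ⟨A₀, h1, hA₀⟩ := c.bound
  refine ⟨A₀ * (A + A₀), fun w tw bw t => ?_⟩
  have hp : Function.Periodic (c.dn w) 1 := c.per_up_iff.1 (by rw [c.up_dn]; exact tw)
  obtain ⟨r, hr, e⟩ := hp.exists_mem_Ico₀ one_pos t
  have hr' := Ico_subset_Icc_self hr
  rw [e]
  exact ((c.Q r).le_opNorm _).trans (mul_le_mul (hA₀ r hr').2.1 ((norm_sub_le _ _).trans
    (add_le_add (bw r hr') (hA₀ r hr').2.2.2.1)) (norm_nonneg _) (by linarith))

theorem cont_PS (hJ : IJ om Γ J) (hY : IY Γ Y) (hw : ContDiff ℝ ∞ w) :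
    Continuous fun t => gj om J t (w t) (deriv w t - Y t (w t)) := by
  obtain ⟨L, hL, -⟩ := form_om
  have hr : Continuous fun s => deriv w s - Y s (w s) :=
    (hw.continuous_deriv (by simp)).sub
      (hY.1.1.continuous.comp (continuous_id.prodMk hw.continuous))
  simp only [gj, hL]
  exact (L.continuous.comp hr).clm_apply
    ((hJ.1.1.1.continuous.comp (continuous_id.prodMk hw.continuous)).clm_apply hr)

theorem len_PS (h : Fr Γ B) (hJ : IJ om Γ J) (hY : IY Γ Y) (A : ℝ) : ∃ A', ∀ w : ℝ → E,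
    ContDiff ℝ ∞ w → ‖w 0‖ ≤ A → ∫ t in (0 : ℝ)..1, gj om J t (w t) (deriv w t - Y t (w t)) ≤ 1 →
      ∀ t ∈ Icc (0 : ℝ) 1, ‖w t‖ ≤ A' := by
  obtain ⟨D, h1, hD⟩ := h.gj_cmp hJ
  obtain ⟨D', hD'⟩ := h.boundY hY
  obtain ⟨A', hA'⟩ := h.path A (D + (1 + D'))
  refine ⟨A', fun w sw h0 hi => hA' w 0 1 sw zero_le_one h0 ?_⟩
  have i1 : IntervalIntegrable (fun t => D * gj om J t (w t) (deriv w t - Y t (w t))) volume 0 1 :=
    (continuous_const.mul (cont_PS hJ hY sw)).intervalIntegrable _ _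
  have h2 : ∫ t in (0 : ℝ)..1, nm B (w t) (deriv w t) ≤
      ∫ t in (0 : ℝ)..1, (D * gj om J t (w t) (deriv w t - Y t (w t)) + (1 + D')) := by
    refine intervalIntegral.integral_mono_on zero_le_one
      ((h.continuous_nm.comp (sw.continuous.prodMk
        (sw.continuous_deriv (by simp)))).intervalIntegrable _ _)
      (i1.add intervalIntegrable_const) fun t _ => ?_
    have h3 := nm_add_le B (w t) (deriv w t - Y t (w t)) (Y t (w t))
    rw [sub_add_cancel] at h3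
    nlinarith [(hD t (w t) (deriv w t - Y t (w t))).1, hD' t (w t),
      sq_nonneg (nm B (w t) (deriv w t - Y t (w t)) - 1)]
  rw [intervalIntegral.integral_add i1 intervalIntegrable_const,
    intervalIntegral.integral_const_mul, intervalIntegral.integral_const] at h2
  simp only [sub_zero, smul_eq_mul, one_mul] at h2
  exact h2.trans (add_le_add (mul_le_of_le_one_right (by linarith) hi) le_rfl)

theorem chart_PS (h : Fr Γ B) (hJ : IJ om Γ J) (hY : IY Γ Y) (hγ : γ ∈ Γ) (A : ℝ) {δ : ℝ}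
    (hδ : 0 < δ) : ∃ ε > 0, ∀ w, Tw γ w → (∀ t ∈ Icc (0 : ℝ) 1, ‖w t‖ ≤ A) →
      ∫ t in (0 : ℝ)..1, gj om J t (w t) (deriv w t - Y t (w t)) ≤ ε →
        ∃ x, Orb γ Y x ∧ ∀ t ∈ Icc (0 : ℝ) 1, nm B (x t) (w t - x t) ≤ δ := by
  by_contra hc
  have hc' : ∀ n : ℕ, ∃ w, Tw γ w ∧ (∀ t ∈ Icc (0 : ℝ) 1, ‖w t‖ ≤ A) ∧
      ∫ t in (0 : ℝ)..1, gj om J t (w t) (deriv w t - Y t (w t)) ≤ 1 / ((n : ℝ) + 1) ∧
        ¬∃ x, Orb γ Y x ∧ ∀ t ∈ Icc (0 : ℝ) 1, nm B (x t) (w t - x t) ≤ δ := by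
    intro n
    by_contra h1
    refine hc ⟨1 / ((n : ℝ) + 1), Nat.one_div_pos_of_nat, fun w a b c => ?_⟩
    by_contra h2
    exact h1 ⟨w, a, b, c, h2⟩
  choose w tw bw iw nw using hc'
  obtain ⟨c⟩ := h.chart hγ
  obtain ⟨A', hA'⟩ := inB_PS c A
  obtain ⟨A₀, h1, hA₀⟩ := c.bound
  obtain ⟨D, hD1, hD⟩ := h.gj_cmp hJ
  obtain ⟨D', hD1', hD'⟩ := h.nm_cmp A
  have sv : ∀ n, ContDiff ℝ ∞ (c.dn (w n)) := fun n =>
    c.contDiff_up_iff.1 (by rw [c.up_dn]; exact (tw n).1)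
  have hsp : SP (c.pY Y) := Gau.sp hγ hY
  have hle : ∀ n, ∫ t in (0 : ℝ)..1, ‖deriv (c.dn (w n)) t - c.pY Y t (c.dn (w n) t)‖ ^ 2 ≤
      (A₀ * D') ^ 2 * D * (1 / ((n : ℝ) + 1)) := by
    intro n
    refine le_trans ?_ (mul_le_mul_of_nonneg_left (iw n) (by positivity))
    rw [← intervalIntegral.integral_const_mul]
    refine intervalIntegral.integral_mono_on zero_le_one
      (((((sv n).continuous_deriv (by simp)).sub (hsp.1.continuous.comp
        (continuous_id.prodMk (sv n).continuous))).norm.pow 2).intervalIntegrable _ _)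
      ((continuous_const.mul (cont_PS hJ hY (tw n).1)).intervalIntegrable _ _) fun t ht => ?_
    have h2 := c.deriv_up_sub (sv n) Y t
    rw [c.up_dn] at h2
    have h3 : ‖deriv (c.dn (w n)) t - c.pY Y t (c.dn (w n) t)‖ ≤
        A₀ * D' * nm B (w n t) (deriv (w n) t - Y t (w n t)) := by
      rw [← c.QP t (deriv (c.dn (w n)) t - c.pY Y t (c.dn (w n) t)), ← h2, mul_assoc]
      exact ((c.Q t).le_opNorm _).trans (mul_le_mul (hA₀ t ht).2.1
        (hD' _ _ ((abs_tau_le _).trans (bw n t ht))).2 (norm_nonneg _) (by linarith))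
    refine (pow_le_pow_left₀ (norm_nonneg _) h3 2).trans ?_
    rw [mul_pow, mul_assoc ((A₀ * D') ^ 2)]
    exact mul_le_mul_of_nonneg_left (hD t _ _).1 (by positivity)
  have hlim := (tendsto_one_div_add_atTop_nhds_zero_nat (𝕜 := ℝ)).const_mul ((A₀ * D') ^ 2 * D)
  rw [mul_zero] at hlim
  obtain ⟨φ, x, -, ox, hu⟩ := psV hsp (A := A') (w := fun n => c.dn (w n))
    (fun n => ⟨sv n, c.per_up_iff.1 (by rw [c.up_dn]; exact (tw n).2), hA' _ (tw n).2 (bw n)⟩)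
    (squeeze_zero (fun n => intervalIntegral.integral_nonneg zero_le_one fun s _ => by positivity)
      hle hlim)
  have oX : Orb γ Y (c.up x) := c.orb_iff.2 ox
  obtain ⟨A₁, hA₁⟩ := (isCompact_Icc (a := (0 : ℝ)) (b := 1)).exists_bound_of_continuousOn
    (Orb.contDiff hY.1.1 oX).continuous.continuousOn
  obtain ⟨D₁, hD₁, hD₁'⟩ := h.nm_cmp A₁
  have hpos : 0 < D₁ * A₀ := by positivity
  obtain ⟨n, hn⟩ := (Metric.tendstoUniformly_iff.1 hu _ (div_pos hδ hpos)).exists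
  refine nw (φ n) ⟨c.up x, oX, fun t ht => ?_⟩
  have h2 : w (φ n) t - c.up x t = c.P t (c.dn (w (φ n)) t - x t) := by
    conv_lhs => rw [← c.up_dn (w (φ n))]
    simp only [Gau.up, Gau.pt, map_sub, add_sub_add_left_eq_sub]
  have h3 := (hn t).le
  rw [dist_comm, dist_eq_norm, le_div_iff₀ hpos, mul_comm, mul_assoc] at h3
  refine (hD₁' _ _ ((abs_tau_le _).trans (hA₁ t ht))).1.trans (le_trans ?_ h3)
  rw [h2]
  exact mul_le_mul_of_nonneg_left (((c.P t).le_opNorm _).trans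
    (mul_le_mul_of_nonneg_right (hA₀ t ht).1 (norm_nonneg _))) (by linarith)

theorem gj_smul_PS (h : Fr Γ B) (hJ : IJ om Γ J) (hY : IY Γ Y) (hg : g ∈ Γ) (hw : ContDiff ℝ ∞ w)
    (t : ℝ) : gj om J t ((g ∘ w) t) (deriv (g ∘ w) t - Y t ((g ∘ w) t)) =
      gj om J t (w t) (deriv w t - Y t (w t)) := by
  obtain ⟨L, hL⟩ := h.aff hg
  rw [(h.hasDerivAt hg (hw.differentiable (by simp) t).hasDerivAt).deriv, Function.comp_apply,
    hY.2 t g hg, hL, hL, ← map_sub, ← hL, h.gj_inv hJ hg]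

theorem Fr.ps (h : Fr Γ B) (hJ : IJ om Γ J) (hY : IY Γ Y) {δ : ℝ} (hδ : 0 < δ) : ∃ ε > 0,
    ∀ γ ∈ Γ, ∀ w, Tw γ w → ∫ t in (0 : ℝ)..1, gj om J t (w t) (deriv w t - Y t (w t)) ≤ ε →
      ∃ x, Orb γ Y x ∧ ∀ t ∈ Icc (0 : ℝ) 1, nm B (x t) (w t - x t) ≤ δ := by
  obtain ⟨A, hA⟩ := h.dom
  obtain ⟨A', hA'⟩ := len_PS h hJ hY A
  have key : ∀ᶠ ε in 𝓝[>] (0 : ℝ), ∀ γ ∈ {g | g ∈ Γ ∧ ∃ z, ‖z‖ ≤ A' ∧ ‖g z‖ ≤ A'},
      ∀ w, Tw γ w → (∀ t ∈ Icc (0 : ℝ) 1, ‖w t‖ ≤ A') →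
        ∫ t in (0 : ℝ)..1, gj om J t (w t) (deriv w t - Y t (w t)) ≤ ε →
          ∃ x, Orb γ Y x ∧ ∀ t ∈ Icc (0 : ℝ) 1, nm B (x t) (w t - x t) ≤ δ := by
    refine (eventually_all_finite (h.fin A')).2 fun γ hγ => ?_
    obtain ⟨ε, hε, H⟩ := chart_PS h hJ hY hγ.1 A' hδ
    filter_upwards [Ioc_mem_nhdsGT hε] with ε' h1 w a b c using H w a b (c.trans h1.2)
  obtain ⟨ε, H, h1⟩ := (key.and (Ioc_mem_nhdsGT one_pos)).exists
  refine ⟨ε, h1.1, fun γ hγ w tw iw => ?_⟩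
  obtain ⟨g, hg, h0⟩ := hA (w 0)
  have tw' : Tw (g * γ * g⁻¹) (g ∘ w) := (h.tw_iff hg hγ).2 tw
  have iw' : ∫ t in (0 : ℝ)..1, gj om J t ((g ∘ w) t) (deriv (g ∘ w) t - Y t ((g ∘ w) t)) ≤ ε := by
    simpa only [gj_smul_PS h hJ hY hg tw.1] using iw
  have bw := hA' (g ∘ w) tw'.1 h0 (iw'.trans h1.2)
  obtain ⟨x, ox, hx⟩ := H (g * γ * g⁻¹) ⟨Γ.mul_mem (Γ.mul_mem hg hγ) (Γ.inv_mem hg), (g ∘ w) 0,
    bw 0 ⟨le_rfl, zero_le_one⟩, by rw [← tw'.2 0]; exact bw _ ⟨by norm_num, by norm_num⟩⟩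
    (g ∘ w) tw' bw iw'
  obtain ⟨y, rfl⟩ : ∃ y, x = g ∘ y := ⟨g.symm ∘ x, funext fun t => (g.apply_symm_apply _).symm⟩
  refine ⟨y, (h.orb_iff hg hγ hY.2).1 ox, fun t ht => ?_⟩
  have h2 := hx t ht
  rwa [Function.comp_apply, Function.comp_apply, (h.aff hg).map_sub, h.nm_inv hg] at h2

theorem Orb.tw (hY : SP Y) (hx : Orb γ Y x) : Tw γ x := ⟨Orb.contDiff hY.1 hx, hx.2⟩

theorem orb_bd_PS (h : Fr Γ B) (hY : IY Γ Y) (A : ℝ) : ∃ A', ∀ γ x, Orb γ Y x → ‖x 0‖ ≤ A →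
    ∀ t ∈ Icc (0 : ℝ) 1, ‖x t‖ ≤ A' := by
  obtain ⟨D, hD⟩ := h.boundY hY
  obtain ⟨A', hA'⟩ := h.path A D
  refine ⟨A', fun γ x ox h0 => ?_⟩
  have sx := Orb.contDiff hY.1.1 ox
  refine hA' x 0 1 sx zero_le_one h0 ?_
  have h2 : ∫ t in (0 : ℝ)..1, nm B (x t) (deriv x t) ≤ ∫ _ in (0 : ℝ)..1, D :=
    intervalIntegral.integral_mono_on zero_le_one
      ((h.continuous_nm.comp (sx.continuous.prodMk
        (sx.continuous_deriv (by simp)))).intervalIntegrable _ _)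
      intervalIntegrable_const fun t _ => by rw [(ox.1 t).deriv]; exact hD t _
  simpa using h2

theorem Fr.orb_ball (h : Fr Γ B) (hY : EndF om Γ Y) (hγ : γ ∈ Γ) (A : ℝ) :
    {x | Orb γ Y x ∧ ‖x 0‖ ≤ A}.Finite := by
  obtain ⟨c⟩ := h.chart hγ
  obtain ⟨A', hA'⟩ := orb_bd_PS h hY.1 A
  obtain ⟨A'', hA''⟩ := inB_PS c A'
  have hf := NdB.finite (Gau.sp (c := c) hγ hY.1) (A := A'') fun x ox _ => Gau.ndA hγ hY x ox
  refine (hf.image c.up).subset fun x hx => ⟨c.dn x, ⟨c.orb_iff.1 ?_,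
    hA'' x hx.1.2 (hA' γ x hx.1 hx.2)⟩, c.up_dn x⟩
  rw [c.up_dn]
  exact hx.1

theorem Fr.orb_fin (h : Fr Γ B) (hY : EndF om Γ Y) : ∃ T : Set (Equiv.Perm E × (ℝ → E)), T.Finite ∧
    (∀ q ∈ T, q.1 ∈ Γ ∧ Orb q.1 Y q.2) ∧ ∀ γ ∈ Γ, ∀ x, Orb γ Y x →
      ∃ q ∈ T, ∃ g ∈ Γ, γ = g * q.1 * g⁻¹ ∧ x = g ∘ q.2 := by
  obtain ⟨A, hA⟩ := h.dom
  obtain ⟨A', hA'⟩ := orb_bd_PS h hY.1 A
  refine ⟨⋃ γ ∈ {g | g ∈ Γ ∧ ∃ z, ‖z‖ ≤ A' ∧ ‖g z‖ ≤ A'},
    Prod.mk γ '' {x | Orb γ Y x ∧ ‖x 0‖ ≤ A},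
    (h.fin A').biUnion fun γ hγ => (h.orb_ball hY hγ.1 A).image _, fun q hq => ?_,
    fun γ hγ x ox => ?_⟩
  · obtain ⟨γ, hγ, x, hx, rfl⟩ := mem_iUnion₂.1 hq
    exact ⟨hγ.1, hx.1⟩
  · obtain ⟨g, hg, h0⟩ := hA (x 0)
    have ox' : Orb (g * γ * g⁻¹) Y (g ∘ x) := (h.orb_iff hg hγ hY.1.2).2 ox
    have bx := hA' _ _ ox' h0
    refine ⟨(g * γ * g⁻¹, g ∘ x), mem_iUnion₂.2 ⟨g * γ * g⁻¹,
      ⟨Γ.mul_mem (Γ.mul_mem hg hγ) (Γ.inv_mem hg), (g ∘ x) 0, bx 0 ⟨le_rfl, zero_le_one⟩,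
        by rw [← ox'.2 0]; exact bx _ ⟨by norm_num, by norm_num⟩⟩, g ∘ x, ⟨ox', h0⟩, rfl⟩,
      g⁻¹, Γ.inv_mem hg, by group, funext fun t => (g.symm_apply_apply _).symm⟩

theorem Fr.gens_finite (h : Fr Γ B) (hH : EndF om Γ (ham H)) : (gens Γ H).Finite := by
  obtain ⟨T, hT, -, H⟩ := h.orb_fin hH
  refine (hT.image fun q => pr Γ ∘ q.2).subset ?_
  rintro _ ⟨γ, hγ, x, ox, rfl⟩
  obtain ⟨q, hq, g, hg, -, rfl⟩ := H γ hγ x ox
  exact ⟨q, hq, funext fun t => (pr_eq_iff.2 ⟨g, hg, rfl⟩).symm⟩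

theorem Fr.orb_eq (h : Fr Γ B) (hY : IY Γ Y) {γ' : Equiv.Perm E} (hx : Orb γ Y x) (hy : Orb γ' Y y)
    {t : ℝ} (e : x t = y t) : x = y := by
  funext s
  have cx : Continuous x := (Orb.contDiff hY.1.1 hx).continuous
  have cy : Continuous y := (Orb.contDiff hY.1.1 hy).continuous
  obtain ⟨A, hA⟩ := (isCompact_Icc (a := min s t - 1) (b := max s t + 1)).exists_bound_of_continuousOn
    (cx.prodMk cy).continuousOn
  obtain ⟨M, h0, hM⟩ := hY.1.lip_JetC A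
  refine ODE_solution_unique_of_mem_Ioo (K := ⟨M, h0⟩) (v := Y) (s := fun _ => Metric.closedBall 0 A)
    (a := min s t - 1) (b := max s t + 1) (t₀ := t) (fun r _ => ?_)
    ⟨by linarith [min_le_right s t], by linarith [le_max_right s t]⟩
    (fun r hr => ⟨hx.1 r, mem_closedBall_zero_iff.2
      ((norm_fst_le (x r, y r)).trans (hA r (Ioo_subset_Icc_self hr)))⟩)
    (fun r hr => ⟨hy.1 r, mem_closedBall_zero_iff.2
      ((norm_snd_le (x r, y r)).trans (hA r (Ioo_subset_Icc_self hr)))⟩) e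
    ⟨by linarith [min_le_left s t], by linarith [le_max_left s t]⟩
  refine LipschitzOnWith.of_dist_le_mul fun a ha b hb => ?_
  rw [dist_eq_norm, dist_eq_norm]
  exact hM r a b (mem_closedBall_zero_iff.1 ha) (mem_closedBall_zero_iff.1 hb)

end

end Pool.Agent.P.MP_de3acd_gt.FH
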