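import Pool.Agent.P.MP_de3acd_gt.FH.RegP1
import Pool.Agent.P.MP_de3acd_gt.FH.PS

/-! Regular points of a nonconstant solution.
Sketch: orb_locfin: orb_fin, the finitely many representatives are bounded on Icc 0 1, Fr.fin. avoid: start at a point with ds u ≠ 0 and p.2 ∈ Ioo 0 1 (dense_ds; ds u ≠ 0 because x ≠ y); on a small closed ball only finitely many
orbits x' matter; each set {p | u p = x' p.2} is closed with empty interior (else ds u = 0 there); a finite union of such sets is nowhere dense. near: by contradiction p n, s n, g n; the g n lie in a finite set (u is bounded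
on St, Fr.fin), so are constant along a subsequence; if s n is unbounded then z₀ = g (x t₀) or g (y t₀) lies on an orbit (Fr.orb_iff), else pass to a limit. reg_pts: on a small ball s ↦ u (s, p.2) is injective near p₀.1 (ℓ (ds u) > 0,
strictMonoOn_of_deriv_pos); witnesses (s, g) have |s| ≤ S and g in a finite set F (same compactness argument). For g ∈ F the set of p in the closed ball with a witness s ∈ Icc (-S) S such that g = 1 → ε ≤ |s - p.1| is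
closed with empty interior: else overlap for u' = g ∘ u (Fr.cyl_iff) gives u = g ∘ tsl (s₀, 0) u, the limit s → -∞ gives x 0 = g (x 0), g = 1 (Good.free), so u is s₀-periodic with s₀ ≠ 0 and x = y. For g ≠ 1 no
condition is needed; any witness with g ≠ 1 is excluded on W. -/

open Set Filter Topology MeasureTheory
open scoped ContDiff NNReal ENNReal RealInnerProductSpace

namespace Pool.Agent.P.MP_de3acd_gt.FH

noncomputable section

variable {Γ : Subgroup (Equiv.Perm E)} {B : ℝ → E →L[ℝ] E} {J : ℝ → E → E →L[ℝ] E}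
  {H G K K' : ℝ → E → ℝ} {Y Y' Z : ℝ → E → E} {γ g : Equiv.Perm E} {x y w : ℝ → E} {u : Pl → E}

theorem cont_RegP2 (hx : Orb γ Y x) : Continuous x :=
  continuous_iff_continuousAt.2 fun t => (hx.1 t).continuousAt

theorem per_RegP2 {f : ℝ → E} {a b : E} {c : ℝ} (hp : Function.Periodic f c) (hc : c ≠ 0)
    (ha : Tendsto f atBot (𝓝 a)) (hb : Tendsto f atTop (𝓝 b)) : a = b := by
  wlog h0 : 0 < c generalizing c
  · exact this hp.neg (neg_ne_zero.2 hc) (neg_pos.2 (lt_of_le_of_ne (not_lt.1 h0) hc))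
  have h1 := hb.comp (tendsto_natCast_atTop_atTop.atTop_mul_const h0)
  have h2 := ha.comp (tendsto_natCast_atTop_atTop.atTop_mul_const_of_neg (neg_neg_of_pos h0))
  exact tendsto_nhds_unique (h2.congr hp.neg.nat_mul_eq) (h1.congr hp.nat_mul_eq)

theorem tail_RegP2 {v : ℝ → ℝ → E} {l : Filter ℝ} (hv : TendstoUniformlyOn v x l (Icc 0 1))
    (hx : Continuous x) {t₀ : ℝ} {z₀ : E} (hne : z₀ ≠ x t₀) :
    ∃ δ > 0, ∀ᶠ s in l, ∀ t ∈ Icc (0 : ℝ) 1, δ ≤ dist (t, v s t) (t₀, z₀) := by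
  obtain ⟨r, hr, H⟩ := (isCompact_Icc (a := (0 : ℝ)) (b := 1)).exists_forall_le'
    (f := fun t => dist (t, x t) (t₀, z₀)) (a := 0) (by fun_prop) fun t _ =>
      dist_pos.2 fun e => hne (by rw [← (Prod.mk.inj e).1, (Prod.mk.inj e).2])
  refine ⟨r / 2, half_pos hr, (Metric.tendstoUniformlyOn_iff.1 hv _ (half_pos hr)).mono
    fun s hs t ht => ?_⟩
  have h1 := dist_triangle (t, x t) (t, v s t) (t₀, z₀)
  rw [dist_prod_same_left] at h1
  linarith [H t ht, hs t ht]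

theorem nowhere_RegP2 {α : Type} {S : Set α} (hS : S.Finite) {C : α → Set Pl}
    (hC : ∀ a ∈ S, IsClosed (C a) ∧ interior (C a) = ∅) {O : Set Pl} (hO : IsOpen O)
    (hne : O.Nonempty) : IsOpen (O ∩ ⋂ a ∈ S, (C a)ᶜ) ∧ (O ∩ ⋂ a ∈ S, (C a)ᶜ).Nonempty :=
  ⟨hO.inter (hS.isOpen_biInter fun a ha => (hC a ha).1.isOpen_compl),
    (dense_biInter_of_isOpen (fun a ha => (hC a ha).1.isOpen_compl) hS.countable fun a ha =>
      interior_eq_empty_iff_dense_compl.1 (hC a ha).2).inter_open_nonempty O hO hne⟩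

theorem Fr.orb_locfin (h : Fr Γ B) (hY : EndF om Γ Y) (A : ℝ) : {q : Equiv.Perm E × (ℝ → E) |
    q.1 ∈ Γ ∧ Orb q.1 Y q.2 ∧ ∃ t ∈ Icc (0 : ℝ) 1, ‖q.2 t‖ ≤ A}.Finite := by
  obtain ⟨T, hT, h1, h2⟩ := h.orb_fin hY
  obtain ⟨A', hA⟩ := (hT.isCompact_biUnion fun q hq => (isCompact_Icc (a := (0 : ℝ))
    (b := 1)).image (cont_RegP2 (h1 q hq).2)).isBounded.exists_norm_le
  refine (hT.image2 (fun q (g : Equiv.Perm E) => (g * q.1 * g⁻¹, g ∘ q.2))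
    (h.fin (max A A'))).subset ?_
  rintro ⟨γ, x⟩ ⟨hγ, hx, t, ht, hle⟩
  obtain ⟨q, hq, g, hg, rfl, rfl⟩ := h2 γ hγ x hx
  exact ⟨q, hq, g, ⟨hg, q.2 t, le_max_of_le_right (hA _ (mem_biUnion hq ⟨t, ht, rfl⟩)),
    le_max_of_le_left hle⟩, rfl⟩

theorem Fr.orb_far (h : Fr Γ B) (hY : EndF om Γ Y) {t₀ : ℝ} (ht : t₀ ∈ Icc (0 : ℝ) 1) {z₀ : E}
    (hz : ∀ γ ∈ Γ, ∀ x, Orb γ Y x → z₀ ≠ x t₀) : ∃ δ > 0, ∀ γ ∈ Γ, ∀ x, Orb γ Y x →
      ∀ t ∈ Icc (0 : ℝ) 1, |t - t₀| ≤ δ → δ ≤ ‖x t - z₀‖ := by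
  have h1 := (h.orb_locfin hY (‖z₀‖ + 1)).eventually_all (l := 𝓝 (t₀, (0 : ℝ)))
    (p := fun q r => r.2 < ‖q.2 r.1 - z₀‖) |>.2 fun q hq =>
      ContinuousAt.eventually_lt continuous_snd.continuousAt
        (((cont_RegP2 hq.2.1).comp continuous_fst).sub continuous_const).norm.continuousAt
        (norm_pos_iff.2 (sub_ne_zero.2 (hz _ hq.1 _ hq.2.1).symm))
  obtain ⟨r, hr, H⟩ := Metric.nhds_basis_closedBall.eventually_iff.1 h1
  have h0 : 0 < min r 1 := lt_min hr one_pos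
  refine ⟨min r 1, h0, fun γ hγ x hx t ht' hd => le_of_not_gt fun e => ?_⟩
  refine e.not_gt (H (x := (t, min r 1)) (max_le (hd.trans (min_le_left _ _)) ?_) (γ, x)
    ⟨hγ, hx, t, ht', norm_le_norm_add_const_of_dist_le ?_⟩)
  · rw [Real.dist_eq, sub_zero, abs_of_pos h0]
    exact min_le_left _ _
  · rw [dist_eq_norm]
    exact e.le.trans (min_le_right _ _)

theorem cyl_bound {X : Pl → E → E} (hu : Cyl om γ J X x y u) (hx : Continuous x)
    (hy : Continuous y) : ∃ A, ∀ p ∈ St, ‖u p‖ ≤ A := by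
  obtain ⟨a, ha⟩ := eventually_atBot.1 (Metric.tendstoUniformlyOn_iff.1 hu.left 1 one_pos)
  obtain ⟨b, hb⟩ := eventually_atTop.1 (Metric.tendstoUniformlyOn_iff.1 hu.right 1 one_pos)
  have hc := isCompact_Icc (a := (0 : ℝ)) (b := 1)
  obtain ⟨A, hA⟩ := ((isCompact_Icc (a := a) (b := b)).prod hc).exists_bound_of_continuousOn
    hu.smooth.continuous.continuousOn
  obtain ⟨A₁, h1⟩ := hc.exists_bound_of_continuousOn hx.continuousOn
  obtain ⟨A₂, h2⟩ := hc.exists_bound_of_continuousOn hy.continuousOn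
  refine ⟨max A (max (A₁ + 1) (A₂ + 1)), fun p hp => ?_⟩
  rcases le_total p.1 a with h3 | h3
  · exact le_max_of_le_right (le_max_of_le_left ((norm_le_norm_add_const_of_dist_le
      ((dist_comm _ _).trans_le (ha _ h3 _ hp.2).le)).trans (add_le_add_left (h1 _ hp.2) 1)))
  rcases le_total p.1 b with h4 | h4
  · exact le_max_of_le_left (hA p ⟨⟨h3, h4⟩, hp.2⟩)
  · exact le_max_of_le_right (le_max_of_le_right ((norm_le_norm_add_const_of_dist_le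
      ((dist_comm _ _).trans_le (hb _ h4 _ hp.2).le)).trans (add_le_add_left (h2 _ hp.2) 1)))

theorem ne_RegP2 (h : Fr Γ B) (hY : IY Γ Y) (hx : Orb γ Y x) (hy : Orb γ Y y) (hxy : x ≠ y)
    (hu : Cyl om γ J (sta Y) x y u) {c : ℝ} (hp : ∀ s, u (s + c, 0) = u (s, 0)) : c = 0 :=
  by_contra fun hc => hxy (h.orb_eq hY hx hy (per_RegP2 (f := fun s => u (s, 0)) hp hc
    (hu.left.tendsto_at (left_mem_Icc.2 zero_le_one))
    (hu.right.tendsto_at (left_mem_Icc.2 zero_le_one))))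

theorem dense_RegP2 (h : Fr Γ B) (hJ : IJ om Γ J) (hY : IY Γ Y) (hx : Orb γ Y x) (hy : Orb γ Y y)
    (hxy : x ≠ y) (hu : Cyl om γ J (sta Y) x y u) : Dense {p | ds u p ≠ 0} :=
  dense_ds hJ.1 hY.1 hu.smooth hu.eq fun e => one_ne_zero (ne_RegP2 h hY hx hy hxy hu fun s => by
    have hd : ∀ r, HasDerivAt (fun s => u (s, 0)) (ds u (r, 0)) r := fun r =>
      hasDerivAt_ds (hu.smooth.differentiable (by simp) _)
    exact is_const_of_deriv_eq_zero (fun r => (hd r).differentiableAt)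
      (fun r => by rw [(hd r).deriv, e, Pi.zero_apply]) _ _)

theorem avoid_RegP2 (h : Fr Γ B) (hJ : IJ om Γ J) (hY : EndF om Γ Y) (hx : Orb γ Y x)
    (hy : Orb γ Y y) (hxy : x ≠ y) (hu : Cyl om γ J (sta Y) x y u) : ∃ O : Set Pl, IsOpen O ∧
      O.Nonempty ∧ ∀ p ∈ O, p.2 ∈ Ioo (0 : ℝ) 1 ∧ ds u p ≠ 0 ∧
        ∀ γ' ∈ Γ, ∀ x', Orb γ' Y x' → u p ≠ x' p.2 := by
  have hd := dense_RegP2 h hJ hY.1 hx hy hxy hu
  obtain ⟨A, hA⟩ := cyl_bound hu (cont_RegP2 hx) (cont_RegP2 hy)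
  have ho : IsOpen (Prod.snd ⁻¹' Ioo (0 : ℝ) 1 : Set Pl) := isOpen_Ioo.preimage continuous_snd
  obtain ⟨h1, h2⟩ := nowhere_RegP2 (h.orb_locfin hY A) (C := fun q => {p | u p = q.2 p.2})
    (fun q hq => ⟨isClosed_eq hu.smooth.continuous ((cont_RegP2 hq.2.1).comp continuous_snd),
      eq_empty_of_forall_notMem fun p hp => by
        obtain ⟨p', h3, h4⟩ := hd.exists_mem_open isOpen_interior ⟨p, hp⟩
        have h5 : Tendsto (fun s => (s, p'.2)) (𝓝 p'.1) (𝓝 p') :=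
          (continuous_id.prodMk continuous_const).tendsto p'.1
        exact h3 ((hasDerivAt_ds (hu.smooth.differentiable (by simp) (p'.1, p'.2))).unique
          ((hasDerivAt_const p'.1 (q.2 p'.2)).congr_of_eventuallyEq
            (h5.eventually (mem_interior_iff_mem_nhds.1 h4))))⟩)
    (ho.inter (isOpen_ne_fun (contDiff_ds hu.smooth).continuous continuous_const))
    (hd.inter_open_nonempty _ ho ⟨(0, 1 / 2), by norm_num⟩)
  refine ⟨_, h1, h2, fun p hp => ⟨hp.1.1, hp.1.2, fun γ' hγ' x' hx' e => ?_⟩⟩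
  have h3 := Ioo_subset_Icc_self hp.1.1
  exact mem_iInter₂.1 hp.2 (γ', x') 
    ⟨hγ', hx', p.2, h3, (congrArg norm e).symm.trans_le (hA p ⟨trivial, h3⟩)⟩ e

theorem wit_RegP2 (h : Fr Γ B) (hY : IY Γ Y) (hγ : γ ∈ Γ) (hx : Orb γ Y x) (hy : Orb γ Y y)
    (hu : Cyl om γ J (sta Y) x y u) {t₀ : ℝ} {z₀ : E}
    (h1 : ∀ γ' ∈ Γ, ∀ x', Orb γ' Y x' → z₀ ≠ x' t₀) : ∃ δ > 0, ∃ (S : ℝ) (F : Set (Equiv.Perm E)),
      F.Finite ∧ (∀ g ∈ F, g ∈ Γ) ∧ ∀ p ∈ St, ∀ g ∈ Γ, dist (p.2, g (u p)) (t₀, z₀) < δ →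
        g ∈ F ∧ p.1 ∈ Icc (-S) S := by
  obtain ⟨A, hA⟩ := cyl_bound hu (cont_RegP2 hx) (cont_RegP2 hy)
  have hF := h.fin (max A (‖z₀‖ + 1))
  have key : ∀ g ∈ Γ, ∀ᶠ q in 𝓝[>] (0 : ℝ) ×ˢ (atTop : Filter ℝ), ∀ p ∈ St,
      dist (p.2, g (u p)) (t₀, z₀) < q.1 → p.1 ∈ Icc (-q.2) q.2 := fun g hg => by
    have uc : UniformContinuous g := by
      obtain ⟨m, e⟩ := h.eq_FrA hg
      rw [e]
      exact (B m).uniformContinuous.add uniformContinuous_const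
    have ox := (h.orb_iff hg hγ hY.2).2 hx
    have oy := (h.orb_iff hg hγ hY.2).2 hy
    obtain ⟨δ₁, d1, e1⟩ := tail_RegP2 (uc.comp_tendstoUniformlyOn hu.left) (cont_RegP2 ox)
      (h1 _ (mem_InvE hg hγ) _ ox)
    obtain ⟨δ₂, d2, e2⟩ := tail_RegP2 (uc.comp_tendstoUniformlyOn hu.right) (cont_RegP2 oy)
      (h1 _ (mem_InvE hg hγ) _ oy)
    obtain ⟨a, ha⟩ := eventually_atBot.1 e1
    obtain ⟨b, hb⟩ := eventually_atTop.1 e2
    filter_upwards [tendsto_fst.eventually (Ioc_mem_nhdsGT d1),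
      tendsto_fst.eventually (Ioc_mem_nhdsGT d2), tendsto_snd.eventually (eventually_ge_atTop (-a)),
      tendsto_snd.eventually (eventually_ge_atTop b)] with q q1 q2 q3 q4 p hp hd
    refine ⟨le_of_not_gt fun e => ?_, le_of_not_gt fun e => ?_⟩
    · exact (hd.trans_le q1.2).not_ge (ha p.1 (by linarith) p.2 hp.2)
    · exact (hd.trans_le q2.2).not_ge (hb p.1 (by linarith) p.2 hp.2)
  obtain ⟨q, q1, q2⟩ := ((hF.eventually_all.2 fun g hg => key g hg.1).and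
    (tendsto_fst.eventually (Ioc_mem_nhdsGT one_pos))).exists
  refine ⟨q.1, q2.1, q.2, _, hF, fun g hg => hg.1, fun p hp g hg hd => ?_⟩
  have h2 : ‖g (u p)‖ ≤ ‖z₀‖ + 1 :=
    norm_le_norm_add_const_of_dist_le ((le_max_right _ _).trans (hd.le.trans q2.2))
  have h3 : g ∈ {g | g ∈ Γ ∧ ∃ z, ‖z‖ ≤ max A (‖z₀‖ + 1) ∧ ‖g z‖ ≤ max A (‖z₀‖ + 1)} :=
    ⟨hg, u p, le_max_of_le_left (hA p hp), le_max_of_le_right h2⟩
  exact ⟨h3, q1 g h3 p hp hd⟩

theorem inj_RegP2 (hu : ContDiff ℝ ∞ u) {p₀ : Pl} (h0 : ds u p₀ ≠ 0) :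
    ∃ ε > 0, ∀ p ∈ Metric.ball p₀ ε, ∀ s, |s - p.1| < ε → u p = u (s, p.2) → s = p.1 := by
  obtain ⟨ℓ, hℓ⟩ := SeparatingDual.exists_eq_one (R := ℝ) h0
  have h1 : ∀ᶠ p in 𝓝 p₀, 0 < ℓ (ds u p) :=
    (ℓ.continuous.comp (contDiff_ds hu).continuous).continuousAt.eventually
      (lt_mem_nhds (hℓ.symm ▸ one_pos : 0 < ℓ (ds u p₀)))
  obtain ⟨r, hr, H⟩ := Metric.eventually_nhds_iff_ball.1 h1
  refine ⟨r / 2, half_pos hr, fun p hp s hs e => ?_⟩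
  have hd : ∀ s, HasDerivAt (fun s => ℓ (u (s, p.2))) (ℓ (ds u (s, p.2))) s := fun s =>
    ℓ.hasFDerivAt.comp_hasDerivAt s (hasDerivAt_ds (hu.differentiable (by simp) _))
  rw [Metric.mem_ball, Prod.dist_eq, max_lt_iff] at hp
  have hm := strictMonoOn_of_deriv_pos (convex_ball p₀.1 r)
    (fun s _ => (hd s).continuousAt.continuousWithinAt) fun s hs => by
      rw [(hd s).deriv]
      exact H _ (max_lt (Metric.mem_ball.1 (interior_subset hs)) (hp.2.trans (half_lt_self hr)))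
  refine hm.injOn ?_ (hp.1.trans (half_lt_self hr)) (congrArg ℓ e.symm)
  exact (dist_triangle s p.1 p₀.1).trans_lt (by rw [Real.dist_eq]; linarith [hp.1])

theorem Fr.avoid (h : Fr Γ B) (hJ : IJ om Γ J) (hY : EndF om Γ Y) (hγ : γ ∈ Γ) (hx : Orb γ Y x)
    (hy : Orb γ Y y) (hxy : x ≠ y) (hu : Cyl om γ J (sta Y) x y u) : ∃ p₀, ∃ ε > 0,
      ∀ p ∈ Metric.closedBall p₀ ε, p.2 ∈ Ioo (0 : ℝ) 1 ∧ ds u p ≠ 0 ∧
        ∀ γ' ∈ Γ, ∀ x', Orb γ' Y x' → u p ≠ x' p.2 := by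
  obtain ⟨O, hO, ⟨p₀, hp⟩, H⟩ := avoid_RegP2 h hJ hY hx hy hxy hu
  obtain ⟨ε, hε, h1⟩ := Metric.nhds_basis_closedBall.mem_iff.1 (hO.mem_nhds hp)
  exact ⟨p₀, ε, hε, fun p hp => H p (h1 hp)⟩

/-- Points of the cylinder whose image is close to the orbit of a regular value are close to the
regular point. -/
theorem Fr.near (h : Fr Γ B) (hY : IY Γ Y) (hγ : γ ∈ Γ) (hx : Orb γ Y x) (hy : Orb γ Y y)
    (hu : Cyl om γ J (sta Y) x y u) {p₀ : Pl} (h1 : ∀ γ' ∈ Γ, ∀ x', Orb γ' Y x' → u p₀ ≠ x' p₀.2)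
    (h2 : ∀ s, ∀ g ∈ Γ, u p₀ = g (u (s, p₀.2)) → s = p₀.1) {ε : ℝ} (hε : 0 < ε) :
    ∃ δ > 0, ∀ p ∈ St, ∀ g ∈ Γ, |p.2 - p₀.2| ≤ δ → ‖g (u p) - u p₀‖ ≤ δ → dist p p₀ ≤ ε := by
  obtain ⟨δ, hδ, S, F, hF, hΓ, H⟩ := wit_RegP2 h hY hγ hx hy hu h1
  have hK : IsCompact ((Icc (-S) S ×ˢ Icc (0 : ℝ) 1) ∩ {p | ε ≤ dist p p₀}) :=
    (isCompact_Icc.prod isCompact_Icc).inter_right (isClosed_le continuous_const (by fun_prop))
  have key : ∀ g ∈ F, ∀ᶠ r in 𝓝[>] (0 : ℝ), ∀ p ∈ (Icc (-S) S ×ˢ Icc (0 : ℝ) 1) ∩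
      {p | ε ≤ dist p p₀}, r < dist (p.2, g (u p)) (p₀.2, u p₀) := fun g hg => by
    obtain ⟨r, hr, h3⟩ := hK.exists_forall_le' (a := 0)
      (f := fun p => dist (p.2, g (u p)) (p₀.2, u p₀)) ((continuous_snd.prodMk
        ((h.contDiff (hΓ g hg)).continuous.comp hu.smooth.continuous)).dist
          continuous_const).continuousOn fun p hp => dist_pos.2 fun e => by
        obtain ⟨e1, e2⟩ := Prod.mk.inj e
        have e3 : p = p₀ := Prod.ext (h2 p.1 g (hΓ g hg) (by rw [← e1, ← e2])) e1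
        exact hε.not_ge (hp.2.out.trans_eq (by rw [e3, dist_self]))
    filter_upwards [Ioo_mem_nhdsGT hr] with r' h4 p hp using h4.2.trans_le (h3 p hp)
  obtain ⟨r, r1, r2⟩ := ((hF.eventually_all.2 key).and (Ioo_mem_nhdsGT hδ)).exists
  refine ⟨r, r2.1, fun p hp g hg d1 d2 => le_of_not_gt fun e => ?_⟩
  have h3 : dist (p.2, g (u p)) (p₀.2, u p₀) ≤ r := max_le d1 ((dist_eq_norm _ _).trans_le d2)
  obtain ⟨h4, h5⟩ := H p hp g hg (h3.trans_lt r2.2)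
  exact (r1 g h4 p ⟨⟨h5, hp.2⟩, e.le⟩).not_ge h3

theorem Fr.reg_pts (h : Fr Γ B) (hJ : IJ om Γ J) (hY : EndF om Γ Y) (hγ : γ ∈ Γ) (hx : Orb γ Y x)
    (hy : Orb γ Y y) (hxy : x ≠ y) (hu : Cyl om γ J (sta Y) x y u) : ∃ W : Set Pl, IsOpen W ∧
      W.Nonempty ∧ ∀ p ∈ W, p.2 ∈ Ioo (0 : ℝ) 1 ∧ (∀ γ' ∈ Γ, ∀ x', Orb γ' Y x' → u p ≠ x' p.2) ∧
        ∀ s, ∀ g ∈ Γ, u p = g (u (s, p.2)) → s = p.1 := by
  obtain ⟨O, hO, ⟨p₀, hp₀⟩, H⟩ := avoid_RegP2 h hJ hY hx hy hxy hu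
  obtain ⟨δ, hδ, S, F, hF, hΓ, H1⟩ := wit_RegP2 h hY.1 hγ hx hy hu (H p₀ hp₀).2.2
  obtain ⟨ε, hε, H2⟩ := inj_RegP2 hu.smooth (H p₀ hp₀).2.1
  have uc := hu.smooth.continuous
  have hA : ∀ g : Equiv.Perm E, IsClosed {q : Pl × ℝ | g = 1 → ε ≤ |q.2 - q.1.1|} := fun g => by
    by_cases hg : g = 1
    · simp only [hg, forall_const]
      exact isClosed_le continuous_const (by fun_prop)
    · simp only [hg, false_imp_iff, ofPred_true, isClosed_univ]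
  have hC : ∀ g ∈ F, IsClosed {p : Pl | ∃ s ∈ Icc (-S) S,
      (g = 1 → ε ≤ |s - p.1|) ∧ u p = g (u (s, p.2))} ∧ interior {p : Pl | ∃ s ∈ Icc (-S) S,
      (g = 1 → ε ≤ |s - p.1|) ∧ u p = g (u (s, p.2))} = ∅ := fun g hg => by
    constructor
    · have gc := (h.contDiff (hΓ g hg)).continuous
      have h3 := isClosedMap_fst_of_compactSpace _ (((hA g).preimage
        (f := fun q : Pl × Icc (-S) S => (q.1, q.2.1)) (by fun_prop)).inter
          (isClosed_eq (f := fun q => u q.1) (g := fun q => g (u (q.2.1, q.1.2))) (by fun_prop)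
            (by fun_prop)))
      refine (congrArg IsClosed (Set.ext fun p => ?_)).mp h3
      exact ⟨fun ⟨q, hq, e⟩ => e ▸ ⟨q.2.1, q.2.2, hq⟩, fun ⟨s, hs, hq⟩ => ⟨(p, ⟨s, hs⟩), hq, rfl⟩⟩
    · refine eq_empty_of_forall_notMem fun p hp => ?_
      have hu' := (h.cyl_iff (hΓ g hg) hγ hJ fun q => hY.1.2 q.2).2 hu
      obtain ⟨p', -, s, h3, h4⟩ := overlap hJ.1 hY.1.1 hu.smooth hu'.smooth hu.eq hu'.eq
        (isOpen_interior.inter (isOpen_ne_fun (contDiff_ds hu.smooth).continuous continuous_const))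
        ((dense_RegP2 h hJ hY.1 hx hy hxy hu).inter_open_nonempty _ isOpen_interior ⟨p, hp⟩)
        (fun _ hq => hq.2) (hA g) fun q hq => (interior_subset hq.1 :)
      have h5 : ∀ r, u (r, 0) = g (u (r + (s - p'.1), 0)) := fun r => by
        simpa [tsl] using congrFun h4 (r, 0)
      have h6 := hu'.left.tendsto_at (left_mem_Icc.2 zero_le_one)
      obtain rfl := h.good.free g (hΓ g hg) (x 0) (tendsto_nhds_unique
        ((h6.comp (tendsto_atBot_add_const_right _ _ tendsto_id)).congr fun r => (h5 r).symm)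
        (hu.left.tendsto_at (left_mem_Icc.2 zero_le_one)))
      have h7 := h3 rfl
      rw [ne_RegP2 h hY.1 hx hy hxy hu fun r => (h5 r).symm, abs_zero] at h7
      exact hε.not_ge h7
  obtain ⟨h1, h2⟩ := nowhere_RegP2 hF hC
    ((hO.inter (Metric.isOpen_ball (x := p₀) (ε := ε))).inter
      (isOpen_lt (f := fun p => dist (p.2, u p) (p₀.2, u p₀)) (g := fun _ => δ) (by fun_prop)
        continuous_const))
    ⟨p₀, ⟨hp₀, Metric.mem_ball_self hε⟩, (dist_self _).trans_lt hδ⟩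
  refine ⟨_, h1, h2, fun p hp => ⟨(H p hp.1.1.1).1, (H p hp.1.1.1).2.2, fun s g hg e => ?_⟩⟩
  obtain ⟨h3, h4⟩ := H1 (s, p.2) ⟨trivial, Ioo_subset_Icc_self (H p hp.1.1.1).1⟩ g hg
    (e ▸ hp.1.2.out)
  obtain ⟨rfl, h5⟩ := Classical.not_imp.1 fun h5 => mem_iInter₂.1 hp.2 g h3 ⟨s, h4, h5, e⟩
  exact H2 p hp.1.1.2 s (not_le.1 h5) e

end

end Pool.Agent.P.MP_de3acd_gt.FH
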