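import Pool.Agent.P.MP_de3acd_gt.FH.Bump
import Pool.Agent.P.MP_de3acd_gt.FH.RegP2
import Pool.Agent.P.MP_de3acd_gt.FH.GLs
import Pool.Agent.P.MP_de3acd_gt.FH.Neck

/-! The perturbations pair nontrivially with every cokernel element.
Sketch: at p₀ with ζ p₀ ≠ 0 put w = B (-tau (U p₀)) (c.P p₀.2 (c.pJ J p₀.2 (u p₀) (ζ p₀))), U = c.upu u, and W z = B (tau z) w (Fr.frame). The function
k p = ⟪-c.pJ J p.2 (u p) (c.Q p.2 (W (U p))), ζ p⟫ is continuous with k p₀ = ‖ζ p₀‖², so positive near p₀. kill_dep: Z p z = b p • W z with exists_bump_cyl; the integrand is b p * k p;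
integral_St_pos. kill_sta: p₀ ∈ W from reg_pts (Nice.cyl, cyl_iff, orb_iff); Z t z = φ t z • W z with Fr.bump; Fr.near localises the support of φ p.2 (U p) in St (k = 0 when δ is smaller than
the distance of p₀.2 to 0 and 1); Z vanishes near the orbits by orb_far, ClY.orb_iff, the invariant norm, Aff.map_sub, Fr.orb_iff. -/

open Set Filter Topology MeasureTheory
open scoped ContDiff NNReal ENNReal RealInnerProductSpace

namespace Pool.Agent.P.MP_de3acd_gt.FH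

noncomputable section

variable {Γ : Subgroup (Equiv.Perm E)} {B : ℝ → E →L[ℝ] E} {J : ℝ → E → E →L[ℝ] E}
  {H G K K' : ℝ → E → ℝ} {Y Y' Z : ℝ → E → E} {γ g : Equiv.Perm E} {x y w : ℝ → E} {u : Pl → E}

theorem Fr.pos_Kill (h : Fr Γ B) (hJ : IJ om Γ J) (hγ : γ ∈ Γ) (c : Ch γ) {u ζ : Pl → V6}
    (hu : Continuous u) (hζ : Continuous ζ) {p₀ : Pl} (h0 : ζ p₀ ≠ 0) :
    ∃ (W : E → E) (k : Pl → ℝ), ContDiff ℝ ∞ W ∧ Ivf Γ W ∧ Continuous k ∧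
      (∀ (p : Pl) (r : ℝ),
        ⟪-c.pJ J p.2 (u p) (c.Q p.2 (r • W (c.pt p.2 (u p)))), ζ p⟫ = r * k p) ∧
      ∃ ε > 0, ∀ p, dist p p₀ ≤ ε → 0 < k p := by
  obtain ⟨h1, h2⟩ := h.frame (B (-tau (c.pt p₀.2 (u p₀))) (c.P p₀.2 (c.pJ J p₀.2 (u p₀) (ζ p₀))))
  have hA := c.acs hγ hJ
  generalize hW : (fun z => B (tau z) (B (-tau (c.pt p₀.2 (u p₀)))
    (c.P p₀.2 (c.pJ J p₀.2 (u p₀) (ζ p₀))))) = W at h1 h2
  have hW0 : W (c.pt p₀.2 (u p₀)) = c.P p₀.2 (c.pJ J p₀.2 (u p₀) (ζ p₀)) := by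
    rw [← hW]
    simp only
    rw [← h.add, add_neg_cancel, h.zero]
  have c1 : Continuous fun p : Pl => c.pt p.2 (u p) :=
    (c.sx.continuous.comp continuous_snd).add ((c.sP.continuous.comp continuous_snd).clm_apply hu)
  have c2 : Continuous fun p : Pl => c.pJ J p.2 (u p) :=
    hA.1.1.continuous.comp (continuous_snd.prodMk hu)
  have c3 : Continuous fun p : Pl =>
      ⟪-c.pJ J p.2 (u p) (c.Q p.2 (W (c.pt p.2 (u p)))), ζ p⟫ :=
    (c2.clm_apply ((c.sQ.continuous.comp continuous_snd).clm_apply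
      (h1.continuous.comp c1))).neg.inner hζ
  refine ⟨W, _, h1, h2, c3, fun p r => ?_, ?_⟩
  · rw [map_smul, map_smul, ← smul_neg, real_inner_smul_left]
  · have h3 : 0 < ⟪-c.pJ J p₀.2 (u p₀) (c.Q p₀.2 (W (c.pt p₀.2 (u p₀)))), ζ p₀⟫ := by
      rw [hW0, c.QP, (hA.2 _ _).1, neg_neg]
      exact real_inner_self_pos.2 h0
    obtain ⟨ε, hε, e⟩ := Metric.nhds_basis_closedBall.eventually_iff.1
      (c3.continuousAt.eventually (lt_mem_nhds h3))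
    exact ⟨ε, hε, fun p hp => e hp⟩

theorem int_Kill {t t₀ δ : ℝ} (ht : t ∈ Icc (0 : ℝ) 1) (h1 : δ ≤ t₀) (h2 : δ ≤ 1 - t₀)
    (e : ∃ k : ℤ, |t - t₀ - k| < δ) : |t - t₀| < δ := by
  obtain ⟨k, hk⟩ := e
  obtain ⟨h3, h4⟩ := abs_lt.1 hk
  have h5 : (k : ℝ) < 1 := by linarith [ht.2]
  have h6 : (-1 : ℝ) < k := by linarith [ht.1]
  have h7 : k < 1 := by exact_mod_cast h5
  have h8 : -1 < k := by exact_mod_cast h6
  obtain rfl : k = 0 := by omega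
  simpa using hk

theorem Fr.ivf_Kill (h : Fr Γ B) {W : E → E} (hW : Ivf Γ W) {φ : E → ℝ}
    (hφ : ∀ g ∈ Γ, ∀ z, φ (g z) = φ z) : Ivf Γ fun z => φ z • W z := fun g hg z => by
  obtain ⟨L, hL⟩ := h.aff hg
  simp only [hφ g hg, hW g hg, hL, map_smul]

theorem Fr.kill_dep (h : Fr Γ B) (hJ : IJ om Γ J) (hγ : γ ∈ Γ) (c : Ch γ) {R : ℝ} (hR : 0 < R)
    {u ζ : Pl → V6} (hu : Continuous u) (hζ : Continuous ζ) (hd : Dense {p | ζ p ≠ 0}) :
    ∃ Z, SupX Γ R Z ∧ ip 0 (var (c.pJ J) (c.pZ Z) u) ζ ≠ 0 := by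
  obtain ⟨p₀, h0, ⟨h1, h2⟩, h3⟩ := hd.exists_mem_open
    ((isOpen_Ioo (a := -R) (b := R)).prod (isOpen_Ioo (a := (0 : ℝ)) (b := 1)))
    ⟨(0, 1 / 2), ⟨neg_lt_zero.2 hR, hR⟩, by norm_num, by norm_num⟩
  obtain ⟨W, k, hW, iW, hk, e, ε, hε, hp⟩ := h.pos_Kill hJ hγ c hu hζ h0
  have h4 : |p₀.1| < R := abs_lt.2 ⟨h1, h2⟩
  obtain ⟨δ, hδ, d1, d2, d3, d4⟩ :
      ∃ δ > 0, δ ≤ ε ∧ δ ≤ R - |p₀.1| ∧ δ ≤ p₀.2 ∧ δ ≤ 1 - p₀.2 :=
    ⟨min (min ε (R - |p₀.1|)) (min p₀.2 (1 - p₀.2)),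
      lt_min (lt_min hε (sub_pos.2 h4)) (lt_min h3.1 (sub_pos.2 h3.2)),
      (min_le_left _ _).trans (min_le_left _ _), (min_le_left _ _).trans (min_le_right _ _),
      (min_le_right _ _).trans (min_le_left _ _), (min_le_right _ _).trans (min_le_right _ _)⟩
  obtain ⟨b, ⟨b1, b2, -⟩, b3, b4, b5⟩ := exists_bump_cyl p₀ hδ
  have hz : ∀ p : Pl, R ≤ |p.1| → b p = 0 := fun p hp => by
    by_contra hne
    have h5 := (b5 p hne).1
    linarith [abs_sub_abs_le_abs_sub p.1 p₀.1]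
  have hz' : ∀ s, R ≤ |s| → frz (fun p z => b p • W z) s = 0 := fun s hs => by
    funext t z
    simp only [frz, hz (s, t) hs, zero_smul, Pi.zero_apply]
  refine ⟨fun p z => b p • W z, ⟨⟨hR.le, (b1.comp contDiff_snd.fst).smul
    (hW.comp contDiff_snd.snd), fun _ s t => by simp only [b2 s t], fun _ s hs => ?_,
    fun _ s hs => ?_⟩, fun q => h.ivf_Kill iW (φ := fun _ => b q) fun _ _ _ => rfl,
    fun q hq => ?_⟩, ne_of_gt ?_⟩
  · rw [hz' s (le_abs.2 (Or.inr (by linarith))), hz' (-R) (le_abs.2 (Or.inr (by linarith)))]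
  · rw [hz' s (le_abs.2 (Or.inl hs)), hz' R (le_abs_self R)]
  · funext z
    simp only [hz q hq, zero_smul, Pi.zero_apply]
  · have e1 : ip 0 (var (c.pJ J) (c.pZ fun p z => b p • W z) u) ζ = ∫ p in St, b p * k p :=
      congrArg (integral _) (funext fun p => e p (b p))
    rw [e1]
    refine integral_St_pos (b1.continuous.mul hk) (R := R) (fun p _ hp => by
      rw [hz p hp, zero_mul]) (fun p hp' => ?_) h3 (mul_pos b4 (hp p₀ (by simpa using hε.le)))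
    by_cases hb : b p = 0
    · rw [hb, zero_mul]
    · refine mul_nonneg (b3 p) (hp p ?_).le
      rw [Prod.dist_eq, Real.dist_eq, Real.dist_eq]
      exact max_le ((b5 p hb).1.le.trans d1) ((int_Kill hp'.2 d3 d4 (b5 p hb).2).le.trans d1)

theorem Fr.lip_Kill (h : Fr Γ B) (A : ℝ) : ∃ D > 0, ∀ g ∈ Γ, ∀ z z', ‖z‖ ≤ A → ‖g z‖ ≤ A →
    ‖g z - g z'‖ ≤ D * ‖z - z'‖ := by
  obtain ⟨D, hD, e⟩ := h.nm_cmp A
  have hD0 : 0 < D := by linarith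
  refine ⟨D * D, mul_pos hD0 hD0, fun g hg z z' h1 h2 => ?_⟩
  have h3 := (e (g z) (lin g (z - z')) ((abs_tau_le _).trans h2)).2
  have h4 := (e z (z - z') ((abs_tau_le _).trans h1)).1
  rw [h.nm_inv hg] at h3
  rw [(h.aff hg).map_sub, mul_assoc]
  exact h3.trans (mul_le_mul_of_nonneg_left h4 hD0.le)

theorem Fr.kill_sta (h : Fr Γ B) (hJ : IJ om Γ J) (hG : EndF om Γ (ham G)) (hY : ClY Γ J G Y)
    (hγ : γ ∈ Γ) (c : Ch γ) {x y : ℝ → V6} {u ζ : Pl → V6} (hx : Orb 1 (c.pY (ham G + Y)) x)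
    (hy : Orb 1 (c.pY (ham G + Y)) y) (hxy : x ≠ y)
    (hu : Nice (c.pJ J) (sta (c.pY (ham G + Y))) x y u) (hζ : Continuous ζ)
    (hd : Dense {p | ζ p ≠ 0}) : ∃ Z, SupY Γ G Z ∧ ip 0 (var (c.pJ J) (c.pZ (sta Z)) u) ζ ≠ 0 := by
  have hE := hY.endF h hJ hG
  have hs := c.sp hγ hE.1
  have hx' := c.orb_iff.2 hx
  have hy' := c.orb_iff.2 hy
  have hU : Cyl om γ J (sta (ham G + Y)) (c.up x) (c.up y) (c.upu u) :=
    c.cyl_iff.2 (hu.cyl (c.acs hγ hJ) (Orb.contDiff hs.1 hx) (Orb.contDiff hs.1 hy) hx.2 hy.2)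
  obtain ⟨O, hO, hne, hO'⟩ := h.reg_pts hJ hE hγ hx' hy' (fun e => hxy (c.up_bijective.1 e)) hU
  obtain ⟨p₀, h0, hp₀⟩ := hd.exists_mem_open hO hne
  obtain ⟨h3, h4, h5⟩ := hO' p₀ hp₀
  obtain ⟨W, k, hW, iW, hk, e, ε, hε, hp⟩ := h.pos_Kill hJ hγ c hu.bdd.1.continuous hζ h0
  obtain ⟨δ₁, hδ₁, n1⟩ := h.near hE.1 hγ hx' hy' hU h4 h5 hε
  obtain ⟨δ₂, hδ₂, n2⟩ := h.orb_far hE (Ioo_subset_Icc_self h3) h4
  obtain ⟨δ, hδ, d1, d2, d3, d4⟩ : ∃ δ > 0, δ ≤ δ₁ ∧ δ ≤ δ₂ / 2 ∧ δ ≤ p₀.2 ∧ δ ≤ 1 - p₀.2 :=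
    ⟨min (min δ₁ (δ₂ / 2)) (min p₀.2 (1 - p₀.2)),
      lt_min (lt_min hδ₁ (half_pos hδ₂)) (lt_min h3.1 (sub_pos.2 h3.2)),
      (min_le_left _ _).trans (min_le_left _ _), (min_le_left _ _).trans (min_le_right _ _),
      (min_le_right _ _).trans (min_le_left _ _), (min_le_right _ _).trans (min_le_right _ _)⟩
  obtain ⟨φ, ⟨⟨f1, f2⟩, f3⟩, f4, f5, f6⟩ := h.bump (c.upu u p₀) p₀.2 hδ
  have loc : ∀ p ∈ St, φ p.2 (c.upu u p) ≠ 0 → dist p p₀ ≤ ε := fun p hp' hf => by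
    obtain ⟨g, hg, e1⟩ := (f6 _ _ hf).2
    exact n1 p hp' g hg ((int_Kill hp'.2 d3 d4 (f6 _ _ hf).1).le.trans d1) (e1.le.trans d1)
  refine ⟨fun t z => φ t z • W z, ⟨⟨⟨f1.smul (hW.comp contDiff_snd), fun t => by simp only [f2 t]⟩,
    fun t => h.ivf_Kill iW fun g hg z => f3 g hg t z⟩, fun γ' hγ' x' ox => ?_⟩, ne_of_gt ?_⟩
  · have ox' := (hY.orb_iff h hJ hG.1 hγ').2 ox
    obtain ⟨A, hA⟩ := (isCompact_Icc (a := (0 : ℝ)) (b := 1)).exists_bound_of_continuousOn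
      (Orb.tw hG.1.1 ox).1.continuous.continuousOn
    obtain ⟨D, hD, hD'⟩ := h.lip_Kill (max (A + 1) (‖c.upu u p₀‖ + δ))
    refine ⟨min 1 (δ₂ / 2 / D), lt_min one_pos (div_pos (half_pos hδ₂) hD), fun t ht z hz => ?_⟩
    by_cases hf : φ t z = 0
    · simp only [hf, zero_smul]
    obtain ⟨g, hg, e1⟩ := (f6 _ _ hf).2
    have e2 := int_Kill ht d3 d4 (f6 _ _ hf).1
    have e3 := n2 _ (mem_InvE hg hγ') _ ((h.orb_iff hg hγ' hE.1.2).2 ox') t ht (by linarith)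
    have e4 := hD' g hg z (x' t)
      (le_max_of_le_left (by linarith [norm_sub_norm_le z (x' t), hA t ht, min_le_left 1 (δ₂ / 2 / D)]))
      (le_max_of_le_right (by linarith [norm_sub_norm_le (g z) (c.upu u p₀)]))
    have e5 : D * ‖z - x' t‖ ≤ δ₂ / 2 := by
      rw [mul_comm]
      exact (le_div_iff₀ hD).1 (hz.trans (min_le_right _ _))
    have e6 := norm_sub_le_norm_sub_add_norm_sub (g (x' t)) (g z) (c.upu u p₀)
    rw [norm_sub_rev (g (x' t)) (g z)] at e6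
    rw [Function.comp_apply] at e3
    exfalso
    linarith
  · have e1 : ip 0 (var (c.pJ J) (c.pZ (sta fun t z => φ t z • W z)) u) ζ =
        ∫ p in St, φ p.2 (c.upu u p) * k p :=
      congrArg (integral _) (funext fun p => e p (φ p.2 (c.upu u p)))
    rw [e1]
    refine integral_St_pos ((f1.continuous.comp (continuous_snd.prodMk hU.smooth.continuous)).mul hk)
      (R := |p₀.1| + ε + 1) (fun p hp' hR => ?_) (fun p hp' => ?_) h3
      (mul_pos f5 (hp p₀ (by simpa using hε.le)))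
    · by_cases hf : φ p.2 (c.upu u p) = 0
      · rw [hf, zero_mul]
      · have e2 := loc p hp' hf
        rw [Prod.dist_eq, Real.dist_eq] at e2
        exfalso
        linarith [(le_max_left _ _).trans e2, abs_sub_abs_le_abs_sub p.1 p₀.1]
    · by_cases hf : φ p.2 (c.upu u p) = 0
      · rw [hf, zero_mul]
      · exact mul_nonneg (f4 _ _) (hp p (loc p hp' hf)).le

end

end Pool.Agent.P.MP_de3acd_gt.FH
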