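import Pool.Agent.P.MP_de3acd_gt.FH.Cpt
import Pool.Agent.P.MP_de3acd_gt.FH.Ibp

/-! The Carleman estimate for the constant coefficient operator. -/

open Set Filter Topology MeasureTheory
open scoped ContDiff NNReal ENNReal RealInnerProductSpace

namespace Pool.Agent.P.MP_de3acd_gt.FH

noncomputable section

variable {V : Type} [NormedAddCommGroup V] [InnerProductSpace ℝ V] [Sym V]

theorem alg_UC {σ : ℝ} (hσ : σ = 1 ∨ σ = -1) (u x y z : V) (a b a' b' : ℝ) :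
    2 * (a' + b') * ‖u‖ ^ 2 + ((-2) * (a' * ⟪u, u⟫ + a * (⟪x, u⟫ + ⟪u, x⟫)) +
      (-2) * (b' * ⟪u, u⟫ + b * (⟪y, u⟫ + ⟪u, y⟫)) +
      (2 * σ) * (⟪x, Sym.J0 y⟫ + ⟪u, Sym.J0 z⟫) + (-2 * σ) * (⟪y, Sym.J0 x⟫ + ⟪u, Sym.J0 z⟫)) ≤
    ‖σ • x + Sym.J0 y - ((σ * a) • u + b • Sym.J0 u)‖ ^ 2 := by
  have hs : σ * σ = 1 := by rcases hσ with rfl | rfl <;> norm_num
  have e : σ • x + Sym.J0 y - ((σ * a) • u + b • Sym.J0 u) =
      (σ • x - b • Sym.J0 u) + (Sym.J0 y - (σ * a) • u) := by abel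
  have h1 := norm_add_sq_real (σ • x - b • Sym.J0 u) (Sym.J0 y - (σ * a) • u)
  have h2 := norm_sub_sq_real (σ • x - b • Sym.J0 u) (Sym.J0 y - (σ * a) • u)
  have h3 := sq_nonneg ‖(σ • x - b • Sym.J0 u) - (Sym.J0 y - (σ * a) • u)‖
  have h4 : ⟪Sym.J0 u, u⟫ = 0 := by
    have := inner_J0_left u u
    rw [real_inner_comm (Sym.J0 u) u] at this
    linarith
  have h5 : ⟪y, Sym.J0 x⟫ = -⟪x, Sym.J0 y⟫ := by
    rw [real_inner_comm, inner_J0_left]
  have h6 : ⟪σ • x - b • Sym.J0 u, Sym.J0 y - (σ * a) • u⟫ =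
      σ * ⟪x, Sym.J0 y⟫ - σ * σ * a * ⟪x, u⟫ - b * ⟪u, y⟫ := by
    simp only [inner_sub_left, inner_sub_right, real_inner_smul_left, real_inner_smul_right,
      Sym.iso, h4]
    ring
  rw [e, h5, real_inner_self_eq_norm_sq, real_inner_comm x u, real_inner_comm u y]
  rw [hs] at h6
  linarith

/-- Integrable with integral zero. -/
def Nul_UC (g : Pl → ℝ) : Prop := Integrable g ∧ ∫ p, g p = 0

theorem Nul_UC.add {g h : Pl → ℝ} (hg : Nul_UC g) (hh : Nul_UC h) : Nul_UC fun p => g p + h p :=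
  ⟨hg.1.add hh.1, by rw [integral_add hg.1 hh.1, hg.2, hh.2, add_zero]⟩

theorem Nul_UC.mul {g : Pl → ℝ} (hg : Nul_UC g) (c : ℝ) : Nul_UC fun p => c * g p :=
  ⟨hg.1.const_mul c, by rw [integral_const_mul, hg.2, mul_zero]⟩

theorem nul_ds_UC {g : Pl → ℝ} (hg : ContDiff ℝ ∞ g) (hc : HasCompactSupport g) : Nul_UC (ds g) :=
  ⟨(contDiff_ds hg).continuous.integrable_of_hasCompactSupport (hc.fderiv_apply ℝ _),
    integral_ds_plane (hg.of_le (by exact_mod_cast le_top)) hc⟩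

theorem nul_dt_UC {g : Pl → ℝ} (hg : ContDiff ℝ ∞ g) (hc : HasCompactSupport g) : Nul_UC (dt g) :=
  ⟨(contDiff_dt hg).continuous.integrable_of_hasCompactSupport (hc.fderiv_apply ℝ _),
    integral_dt_plane (hg.of_le (by exact_mod_cast le_top)) hc⟩

theorem out_UC {F : Type} [NormedAddCommGroup F] [NormedSpace ℝ F] {f : Pl → F} {p : Pl}
    (hp : p ∉ tsupport f) : f p = 0 ∧ ds f p = 0 ∧ dt f p = 0 :=
  ⟨image_eq_zero_of_notMem_tsupport hp,
    image_eq_zero_of_notMem_tsupport (f := fun p => fderiv ℝ f p (1, 0))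
      fun h => hp (tsupport_fderiv_apply_subset ℝ _ h),
    image_eq_zero_of_notMem_tsupport (f := fun p => fderiv ℝ f p (0, 1))
      fun h => hp (tsupport_fderiv_apply_subset ℝ _ h)⟩

theorem carl_UC {σ : ℝ} (hσ : σ = 1 ∨ σ = -1) {f : Pl → V} (hf : ContDiff ℝ ∞ f)
    (hc : HasCompactSupport f) {ψ : Pl → ℝ} (hψ : ContDiff ℝ ∞ ψ) :
    ∫ p, 2 * (ds (ds ψ) p + dt (dt ψ) p) * ‖f p‖ ^ 2 ≤
      ∫ p, ‖σ • ds f p + Sym.J0 (dt f p) -
        ((σ * ds ψ p) • f p + dt ψ p • Sym.J0 (f p))‖ ^ 2 := by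
  have d : ∀ {F : Type} [NormedAddCommGroup F] [NormedSpace ℝ F] {g : Pl → F},
      ContDiff ℝ ∞ g → ∀ p, DifferentiableAt ℝ g p := fun hg p => hg.differentiable (by simp) p
  have fs := contDiff_ds hf
  have ft := contDiff_dt hf
  have ψs := contDiff_ds hψ
  have ψt := contDiff_dt hψ
  have ff : ContDiff ℝ ∞ fun p => ⟪f p, f p⟫ := hf.inner ℝ hf
  have Js : ContDiff ℝ ∞ fun p => Sym.J0 (ds f p) := (Sym.J0 : V →L[ℝ] V).contDiff.comp fs
  have Jt : ContDiff ℝ ∞ fun p => Sym.J0 (dt f p) := (Sym.J0 : V →L[ℝ] V).contDiff.comp ft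
  have N := ((((nul_ds_UC (ψs.mul ff) (.intro hc fun p hp => by simp [(out_UC hp).1])).mul (-2)).add
    ((nul_dt_UC (ψt.mul ff) (.intro hc fun p hp => by simp [(out_UC hp).1])).mul (-2))).add
    ((nul_ds_UC (hf.inner ℝ Jt) (.intro hc fun p hp => by simp [(out_UC hp).1])).mul (2 * σ))).add
    ((nul_dt_UC (hf.inner ℝ Js) (.intro hc fun p hp => by simp [(out_UC hp).1])).mul (-2 * σ))
  have I1 : Integrable fun p => 2 * (ds (ds ψ) p + dt (dt ψ) p) * ‖f p‖ ^ 2 :=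
    ((continuous_const.mul ((contDiff_ds ψs).continuous.add (contDiff_dt ψt).continuous)).mul
      (hf.continuous.norm.pow 2)).integrable_of_hasCompactSupport
        (.intro hc fun p hp => by simp [(out_UC hp).1])
  have I2 : Integrable fun p => ‖σ • ds f p + Sym.J0 (dt f p) -
      ((σ * ds ψ p) • f p + dt ψ p • Sym.J0 (f p))‖ ^ 2 := by
    refine Continuous.integrable_of_hasCompactSupport ?_
      (.intro hc fun p hp => by simp [(out_UC hp).1, (out_UC hp).2.1, (out_UC hp).2.2])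
    have := fs.continuous
    have := ft.continuous
    have := ψs.continuous
    have := ψt.continuous
    have := hf.continuous
    fun_prop
  have key := integral_mono (I1.add N.1) I2 fun p => by
    have e1 : ds (fun p => ds ψ p * ⟪f p, f p⟫) p =
        ds (ds ψ) p * ⟪f p, f p⟫ + ds ψ p * ds (fun p => ⟪f p, f p⟫) p :=
      ds_bil (ContinuousLinearMap.mul ℝ ℝ) (d ψs p) (d ff p)
    have e2 : dt (fun p => dt ψ p * ⟪f p, f p⟫) p =
        dt (dt ψ) p * ⟪f p, f p⟫ + dt ψ p * dt (fun p => ⟪f p, f p⟫) p :=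
      dt_bil (ContinuousLinearMap.mul ℝ ℝ) (d ψt p) (d ff p)
    have e3 : ds (fun p => ⟪f p, f p⟫) p = ⟪ds f p, f p⟫ + ⟪f p, ds f p⟫ :=
      ds_bil (innerSL ℝ) (d hf p) (d hf p)
    have e4 : dt (fun p => ⟪f p, f p⟫) p = ⟪dt f p, f p⟫ + ⟪f p, dt f p⟫ :=
      dt_bil (innerSL ℝ) (d hf p) (d hf p)
    have e5 : ds (fun p => ⟪f p, Sym.J0 (dt f p)⟫) p =
        ⟪ds f p, Sym.J0 (dt f p)⟫ + ⟪f p, ds (fun p => Sym.J0 (dt f p)) p⟫ :=
      ds_bil (innerSL ℝ) (d hf p) (d Jt p)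
    have e6 : dt (fun p => ⟪f p, Sym.J0 (ds f p)⟫) p =
        ⟪dt f p, Sym.J0 (ds f p)⟫ + ⟪f p, dt (fun p => Sym.J0 (ds f p)) p⟫ :=
      dt_bil (innerSL ℝ) (d hf p) (d Js p)
    have e7 : ds (fun p => Sym.J0 (dt f p)) p = Sym.J0 (ds (dt f) p) :=
      congrFun (fd_clm_JetC (Sym.J0 : V →L[ℝ] V) ft _) p
    have e8 : dt (fun p => Sym.J0 (ds f p)) p = Sym.J0 (dt (ds f) p) :=
      congrFun (fd_clm_JetC (Sym.J0 : V →L[ℝ] V) fs _) p
    simp only [Pi.add_apply]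
    rw [e1, e2, e3, e4, e5, e6, e7, e8, ds_dt_comm hf]
    exact alg_UC hσ _ _ _ _ _ _ _ _
  simp only [Pi.add_apply] at key
  rwa [integral_add I1 N.1, N.2, add_zero] at key

theorem carl'_UC {σ : ℝ} (hσ : σ = 1 ∨ σ = -1) {v : Pl → V} (hv : ContDiff ℝ ∞ v)
    (hc : HasCompactSupport v) {ψ : Pl → ℝ} (hψ : ContDiff ℝ ∞ ψ) :
    ∫ p, 2 * (ds (ds ψ) p + dt (dt ψ) p) * (Real.exp (ψ p) ^ 2 * ‖v p‖ ^ 2) ≤
      ∫ p, Real.exp (ψ p) ^ 2 * ‖σ • ds v p + Sym.J0 (dt v p)‖ ^ 2 := by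
  have he : ContDiff ℝ ∞ fun p => Real.exp (ψ p) := hψ.exp
  have key := carl_UC hσ (f := fun p => Real.exp (ψ p) • v p) (he.smul hv)
    (.intro hc fun p hp => by simp [(out_UC hp).1]) hψ
  refine le_of_eq_of_le (integral_congr_ae (Eventually.of_forall fun p => ?_))
    (key.trans_eq (integral_congr_ae (Eventually.of_forall fun p => ?_)))
  · simp only [norm_smul, Real.norm_eq_abs, mul_pow, sq_abs]
  · have d0 := hψ.differentiable (by simp) p
    have d1 := he.differentiable (by simp) p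
    have d2 := hv.differentiable (by simp) p
    have e1 : ds (fun p => Real.exp (ψ p) • v p) p =
        ds (fun p => Real.exp (ψ p)) p • v p + Real.exp (ψ p) • ds v p :=
      ds_bil (ContinuousLinearMap.lsmul ℝ ℝ) d1 d2
    have e2 : dt (fun p => Real.exp (ψ p) • v p) p =
        dt (fun p => Real.exp (ψ p)) p • v p + Real.exp (ψ p) • dt v p :=
      dt_bil (ContinuousLinearMap.lsmul ℝ ℝ) d1 d2
    have e3 : ds (fun p => Real.exp (ψ p)) p = Real.exp (ψ p) * ds ψ p :=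
      congrArg (fun A : Pl →L[ℝ] ℝ => A (1, 0)) (fderiv_exp d0)
    have e4 : dt (fun p => Real.exp (ψ p)) p = Real.exp (ψ p) * dt ψ p :=
      congrArg (fun A : Pl →L[ℝ] ℝ => A (0, 1)) (fderiv_exp d0)
    have e5 : σ • ((Real.exp (ψ p) * ds ψ p) • v p + Real.exp (ψ p) • ds v p) +
        Sym.J0 ((Real.exp (ψ p) * dt ψ p) • v p + Real.exp (ψ p) • dt v p) -
        ((σ * ds ψ p) • Real.exp (ψ p) • v p + dt ψ p • Sym.J0 (Real.exp (ψ p) • v p)) =
        Real.exp (ψ p) • (σ • ds v p + Sym.J0 (dt v p)) := by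
      simp only [map_add, map_smul]
      module
    simp only
    rw [e1, e2, e3, e4, e5, norm_smul, Real.norm_eq_abs, mul_pow, sq_abs]

theorem core_UC {σ : ℝ} (hσ : σ = 1 ∨ σ = -1) {w : Pl → V} (hw : ContDiff ℝ ∞ w) {β φ : Pl → ℝ}
    (hβ : ContDiff ℝ ∞ β) (hc : HasCompactSupport β) (hφ : ContDiff ℝ ∞ φ) {A c : ℝ} (c0 : 0 < c)
    (h1 : ∀ p, β p ≠ 0 → ‖σ • ds w p + Sym.J0 (dt w p)‖ ≤ A * ‖w p‖)
    (h2 : ∀ p, β p ≠ 0 → w p ≠ 0 → c ≤ ds (ds φ) p + dt (dt φ) p)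
    (h3 : ∀ p, 0 < φ p → ds β p = 0 ∧ dt β p = 0) {p₁ : Pl} (hp : 0 < φ p₁) :
    β p₁ • w p₁ = 0 := by
  obtain ⟨v, hv⟩ : ∃ v : Pl → V, v = fun p => β p • w p := ⟨_, rfl⟩
  obtain ⟨E, hE⟩ : ∃ E : Pl → V, E = fun p => (σ * ds β p) • w p + dt β p • Sym.J0 (w p) :=
    ⟨_, rfl⟩
  have sv : ContDiff ℝ ∞ v := hv ▸ hβ.smul hw
  have cv : HasCompactSupport v := .intro hc fun p hp => by simp [hv, (out_UC hp).1]
  have cE : Continuous E := by
    have := (contDiff_ds hβ).continuous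
    have := (contDiff_dt hβ).continuous
    have := hw.continuous
    rw [hE]
    fun_prop
  have Pv : ∀ p, σ • ds v p + Sym.J0 (dt v p) = β p • (σ • ds w p + Sym.J0 (dt w p)) + E p := by
    intro p
    have d1 := hβ.differentiable (by simp) p
    have d2 := hw.differentiable (by simp) p
    have e1 : ds (fun p => β p • w p) p = ds β p • w p + β p • ds w p :=
      ds_bil (ContinuousLinearMap.lsmul ℝ ℝ) d1 d2
    have e2 : dt (fun p => β p • w p) p = dt β p • w p + β p • dt w p :=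
      dt_bil (ContinuousLinearMap.lsmul ℝ ℝ) d1 d2
    rw [hv, hE, e1, e2]
    simp only [map_add, map_smul]
    module
  have Pb : ∀ p, ‖σ • ds v p + Sym.J0 (dt v p)‖ ^ 2 ≤ 2 * A ^ 2 * ‖v p‖ ^ 2 + 2 * ‖E p‖ ^ 2 := by
    intro p
    have a1 : ‖β p • (σ • ds w p + Sym.J0 (dt w p))‖ ≤ |A| * ‖v p‖ := by
      by_cases hb : β p = 0
      · rw [hb, zero_smul, norm_zero]
        positivity
      · rw [hv, norm_smul, norm_smul, mul_left_comm]
        exact mul_le_mul_of_nonneg_left ((h1 p hb).trans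
          (mul_le_mul_of_nonneg_right (le_abs_self A) (norm_nonneg _))) (norm_nonneg _)
    have a2 : ‖σ • ds v p + Sym.J0 (dt v p)‖ ≤ |A| * ‖v p‖ + ‖E p‖ := by
      rw [Pv]
      exact norm_add_le_of_le a1 le_rfl
    have a3 := pow_le_pow_left₀ (norm_nonneg _) a2 2
    rw [← sq_abs A]
    nlinarith [sq_nonneg (|A| * ‖v p‖ - ‖E p‖)]
  have cg : Continuous fun p => max (φ p) 0 * ‖v p‖ ^ 2 :=
    (hφ.continuous.max continuous_const).mul (sv.continuous.norm.pow 2)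
  have sg : HasCompactSupport fun p => max (φ p) 0 * ‖v p‖ ^ 2 :=
    .intro cv fun p hp => by simp [(out_UC hp).1]
  have Ig := cg.integrable_of_hasCompactSupport (μ := volume) sg
  have IE : Integrable fun p => ‖E p‖ ^ 2 := (cE.norm.pow 2).integrable_of_hasCompactSupport
    (.intro hc fun p hp => by simp [hE, (out_UC hp).2.1, (out_UC hp).2.2])
  have main : ∀ τ : ℝ, (A ^ 2 + 1) / c ≤ τ →
      4 * τ * ∫ p, max (φ p) 0 * ‖v p‖ ^ 2 ≤ 2 * ∫ p, ‖E p‖ ^ 2 := by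
    intro τ hτ
    have τ0 : 0 ≤ τ := le_trans (by positivity) hτ
    have τ1 : A ^ 2 + 1 ≤ τ * c := (div_le_iff₀ c0).1 hτ
    have hψ : ContDiff ℝ ∞ (τ • φ) := hφ.const_smul τ
    have key := carl'_UC hσ sv cv hψ
    have I1 : Integrable fun p => 2 * (ds (ds (τ • φ)) p + dt (dt (τ • φ)) p) *
        (Real.exp ((τ • φ) p) ^ 2 * ‖v p‖ ^ 2) :=
      ((continuous_const.mul ((contDiff_ds (contDiff_ds hψ)).continuous.add
        (contDiff_dt (contDiff_dt hψ)).continuous)).mul ((hψ.exp.continuous.pow 2).mul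
          (sv.continuous.norm.pow 2))).integrable_of_hasCompactSupport
            (.intro cv fun p hp => by simp [(out_UC hp).1])
    have I2 : Integrable fun p => Real.exp ((τ • φ) p) ^ 2 *
        ‖σ • ds v p + Sym.J0 (dt v p)‖ ^ 2 := by
      refine Continuous.integrable_of_hasCompactSupport ((hψ.exp.continuous.pow 2).mul ?_)
        (.intro cv fun p hp => by simp [(out_UC hp).2.1, (out_UC hp).2.2])
      have := (contDiff_ds sv).continuous
      have := (contDiff_dt sv).continuous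
      fun_prop
    have k2 := integral_mono ((Ig.const_mul (4 * τ)).add I2) ((IE.const_mul 2).add I1) fun p => by
      simp only [Pi.add_apply]
      rw [ds_smul τ hφ, ds_smul τ (contDiff_ds hφ), dt_smul τ hφ, dt_smul τ (contDiff_dt hφ)]
      simp only [Pi.smul_apply, smul_eq_mul]
      obtain ⟨X, hX⟩ : ∃ X, X = Real.exp (τ * φ p) ^ 2 := ⟨_, rfl⟩
      rw [← hX]
      have X0 : 0 ≤ X := hX ▸ sq_nonneg _
      have b1 : 2 * τ * max (φ p) 0 ≤ X := by
        rcases le_total (φ p) 0 with h | h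
        · rw [max_eq_right h, mul_zero]
          exact X0
        · rw [max_eq_left h, hX, sq, ← Real.exp_add]
          linarith [Real.add_one_le_exp (τ * φ p + τ * φ p)]
      have b2 : X * ‖E p‖ ^ 2 ≤ ‖E p‖ ^ 2 := by
        rcases le_or_gt (φ p) 0 with h | h
        · refine mul_le_of_le_one_left (sq_nonneg _) ?_
          rw [hX]
          exact pow_le_one₀ (Real.exp_pos _).le
            (Real.exp_le_one_iff.2 (mul_nonpos_of_nonneg_of_nonpos τ0 h))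
        · simp [hE, (h3 p h).1, (h3 p h).2]
      have b3 : (A ^ 2 + 1) * (X * ‖v p‖ ^ 2) ≤
          (τ * ds (ds φ) p + τ * dt (dt φ) p) * (X * ‖v p‖ ^ 2) := by
        by_cases h : v p = 0
        · simp [h]
        · refine mul_le_mul_of_nonneg_right (τ1.trans ?_) (mul_nonneg X0 (sq_nonneg _))
          rw [← mul_add]
          refine mul_le_mul_of_nonneg_left (h2 p (fun hb => h ?_) fun hb => h ?_) τ0
          · simp [hv, hb]
          · simp [hv, hb]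
      have b4 := mul_le_mul_of_nonneg_left (Pb p) X0
      have b5 := mul_le_mul_of_nonneg_right b1 (sq_nonneg ‖v p‖)
      nlinarith
    simp only [Pi.add_apply] at k2
    rw [integral_add (Ig.const_mul _) I2, integral_add (IE.const_mul _) I1, integral_const_mul,
      integral_const_mul] at k2
    linarith
  by_contra hne
  have pos : 0 < ∫ p, max (φ p) 0 * ‖v p‖ ^ 2 :=
    cg.integral_pos_of_hasCompactSupport_nonneg_nonzero (x := p₁) sg
      (fun p => mul_nonneg (le_max_right _ _) (sq_nonneg _))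
      (mul_ne_zero (lt_max_of_lt_left hp).ne' (pow_ne_zero 2 (norm_ne_zero_iff.2 (hv ▸ hne))))
  obtain ⟨G, hG⟩ : ∃ G, G = ∫ p, max (φ p) 0 * ‖v p‖ ^ 2 := ⟨_, rfl⟩
  obtain ⟨K, hK⟩ : ∃ K, K = ∫ p, ‖E p‖ ^ 2 := ⟨_, rfl⟩
  rw [← hG] at pos
  have := main (max ((A ^ 2 + 1) / c) ((K + 1) / (2 * G))) (le_max_left _ _)
  rw [← hG, ← hK] at this
  have h5 : K + 1 ≤ max ((A ^ 2 + 1) / c) ((K + 1) / (2 * G)) * (2 * G) :=
    (div_le_iff₀ (by positivity)).1 (le_max_right _ _)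
  linarith

end

end Pool.Agent.P.MP_de3acd_gt.FH
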