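import Pool.Agent.P.MP_de3acd_gt.FH.Cpt
import Pool.Agent.P.MP_de3acd_gt.FH.Ibp
import Pool.Agent.P.MP_de3acd_gt.FH.UCA

/-! Unique continuation in the plane (Carleman estimate).
Sketch: (1) Φ p = 1 - j p ∘ J0 satisfies j Φ = Φ J0 and ‖v‖ ≤ ‖Φ v‖ (Cpt.norm_le_sub), so it is invertible and
w' = Φ⁻¹ w is smooth (contDiffAt_ringInverse) with ‖σ ds w' + J0 dt w'‖ ≤ C ‖w'‖ on compact sets.
(2) Carleman: for f smooth with compact support and φ smooth near its support, P f = σ ds f + J0 dt f,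
a = σ ds φ, b = dt φ: ‖P f - τ (a f + b J0 f)‖^2 - ‖P' f + τ (a f - b J0 f)‖^2, P' f = σ ds f - J0 dt f, equals
-2 τ (ds φ * ds ‖f‖^2 + dt φ * dt ‖f‖^2) + 4 σ ⟪ds f, J0 dt f⟫ pointwise (expand; J0 is a skew isometry), and the integral of
the last term vanishes (integrate by parts twice), so ∫ ‖P f - τ (a f + b J0 f)‖^2 ≥ 2 τ ∫ (Δ φ) ‖f‖^2.
With f = exp (τ φ) v the left integrand is exp (2 τ φ) ‖P v‖^2. (3) Centre p₀, ρ = (s - s₀)^2 + (t - t₀)^2, φ = 1 / ρ (modified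
near p₀, where w vanishes, e.g. φ = 1 / (ρ + χ) with a bump χ), Δ φ = 4 / ρ^2 > 0, v = β(ρ) w', β = 1 for ρ ≤ R, 0 for
ρ ≥ R + 1. For large τ absorb C; on ρ ≤ R' < R the weight is at least exp (2τ / R'), the error lives on ρ ≥ R with
weight at most exp (2τ / R); τ → ∞ gives w' = 0 on ρ ≤ R'. uc_gen: transport along e. -/

open Set Filter Topology MeasureTheory
open scoped ContDiff NNReal ENNReal RealInnerProductSpace

namespace Pool.Agent.P.MP_de3acd_gt.FH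

noncomputable section

variable {F F₁ F₂ : Type} [NormedAddCommGroup F] [NormedSpace ℝ F] [NormedAddCommGroup F₁]
  [NormedSpace ℝ F₁] [NormedAddCommGroup F₂] [NormedSpace ℝ F₂]
variable {V : Type} [NormedAddCommGroup V] [InnerProductSpace ℝ V] [Sym V]

theorem gauss_UC (l a c s : ℝ) :
    HasDerivAt (fun s => Real.exp (-l * ((s - a) ^ 2 + c)))
      (-2 * l * (s - a) * Real.exp (-l * ((s - a) ^ 2 + c))) s ∧
    HasDerivAt (fun s => -2 * l * (s - a) * Real.exp (-l * ((s - a) ^ 2 + c)))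
      ((-2 * l + 4 * l ^ 2 * (s - a) ^ 2) * Real.exp (-l * ((s - a) ^ 2 + c))) s := by
  have h0 : HasDerivAt (fun s : ℝ => s - a) 1 s := (hasDerivAt_id s).sub_const a
  have h1 : HasDerivAt (fun s => Real.exp (-l * ((s - a) ^ 2 + c)))
      (-2 * l * (s - a) * Real.exp (-l * ((s - a) ^ 2 + c))) s :=
    (((h0.fun_pow 2).add_const c).const_mul (-l)).exp.congr_deriv (by simp; ring)
  exact ⟨h1, ((h0.const_mul (-2 * l)).mul h1).congr_deriv (by ring)⟩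

theorem ds_eq_UC {f g : Pl → ℝ} (hf : ContDiff ℝ ∞ f)
    (h : ∀ s t, HasDerivAt (fun s => f (s, t)) (g (s, t)) s) : ds f = g := funext fun p =>
  (hasDerivAt_ds (s := p.1) (t := p.2) (hf.differentiable (by simp) _)).unique (h p.1 p.2)

theorem dt_eq_UC {f g : Pl → ℝ} (hf : ContDiff ℝ ∞ f)
    (h : ∀ s t, HasDerivAt (fun t => f (s, t)) (g (s, t)) t) : dt f = g := funext fun p =>
  (hasDerivAt_dt (s := p.1) (t := p.2) (hf.differentiable (by simp) _)).unique (h p.1 p.2)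

theorem lap_UC (l m : ℝ) (q : Pl) {φ : Pl → ℝ}
    (e : φ = fun p => Real.exp (-l * ((p.1 - q.1) ^ 2 + (p.2 - q.2) ^ 2)) - m) :
    ContDiff ℝ ∞ φ ∧ ∀ p, ds (ds φ) p + dt (dt φ) p =
      4 * l * (l * ((p.1 - q.1) ^ 2 + (p.2 - q.2) ^ 2) - 1) *
        Real.exp (-l * ((p.1 - q.1) ^ 2 + (p.2 - q.2) ^ 2)) := by
  have hφ : ContDiff ℝ ∞ φ := by
    rw [e]
    fun_prop
  have e1 : ds φ = fun p => -2 * l * (p.1 - q.1) *
      Real.exp (-l * ((p.1 - q.1) ^ 2 + (p.2 - q.2) ^ 2)) :=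
    ds_eq_UC hφ fun s t => by
      rw [e]
      exact (gauss_UC l q.1 ((t - q.2) ^ 2) s).1.sub_const m
  have e2 : dt φ = fun p => -2 * l * (p.2 - q.2) *
      Real.exp (-l * ((p.2 - q.2) ^ 2 + (p.1 - q.1) ^ 2)) :=
    dt_eq_UC hφ fun s t => by
      rw [e]
      simp only [add_comm ((s - q.1) ^ 2)]
      exact (gauss_UC l q.2 _ t).1.sub_const m
  have e3 : ds (ds φ) = fun p => (-2 * l + 4 * l ^ 2 * (p.1 - q.1) ^ 2) *
      Real.exp (-l * ((p.1 - q.1) ^ 2 + (p.2 - q.2) ^ 2)) :=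
    ds_eq_UC (contDiff_ds hφ) fun s t => by
      rw [e1]
      exact (gauss_UC l q.1 ((t - q.2) ^ 2) s).2
  have e4 : dt (dt φ) = fun p => (-2 * l + 4 * l ^ 2 * (p.2 - q.2) ^ 2) *
      Real.exp (-l * ((p.2 - q.2) ^ 2 + (p.1 - q.1) ^ 2)) :=
    dt_eq_UC (contDiff_dt hφ) fun s t => by
      rw [e2]
      exact (gauss_UC l q.2 ((s - q.1) ^ 2) t).2
  refine ⟨hφ, fun p => ?_⟩
  rw [e3, e4]
  simp only [add_comm ((p.2 - q.2) ^ 2)]
  ring

theorem dist_UC (p q : Pl) : dist p q ^ 2 ≤ (p.1 - q.1) ^ 2 + (p.2 - q.2) ^ 2 ∧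
    (p.1 - q.1) ^ 2 + (p.2 - q.2) ^ 2 ≤ 2 * dist p q ^ 2 := by
  rw [Prod.dist_eq, Real.dist_eq, Real.dist_eq, ← sq_abs (p.1 - q.1), ← sq_abs (p.2 - q.2)]
  have a := abs_nonneg (p.1 - q.1)
  have b := abs_nonneg (p.2 - q.2)
  rcases le_total |p.1 - q.1| |p.2 - q.2| with h | h
  · rw [max_eq_right h]
    constructor <;> nlinarith
  · rw [max_eq_left h]
    constructor <;> nlinarith

theorem uc0_UC {σ : ℝ} (hσ : σ = 1 ∨ σ = -1) {w : Pl → V} (hw : ContDiff ℝ ∞ w)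
    (h : ∀ R : ℝ, ∃ A, ∀ p : Pl, ‖p‖ ≤ R → ‖σ • ds w p + Sym.J0 (dt w p)‖ ≤ A * ‖w p‖) {q : Pl}
    (h0 : w =ᶠ[𝓝 q] 0) : w = 0 := by
  obtain ⟨ε, ε0, hε⟩ := Metric.eventually_nhds_iff.1 h0
  funext p₁
  obtain ⟨r, hr⟩ : ∃ r, r = (p₁.1 - q.1) ^ 2 + (p₁.2 - q.2) ^ 2 + 1 := ⟨_, rfl⟩
  have r1 : 1 ≤ r := by
    rw [hr]
    linarith [sq_nonneg (p₁.1 - q.1), sq_nonneg (p₁.2 - q.2)]
  have r2 : (p₁.1 - q.1) ^ 2 + (p₁.2 - q.2) ^ 2 < r ^ 2 := by nlinarith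
  let β : ContDiffBump q := ⟨r, r + 1, by linarith, by linarith⟩
  obtain ⟨l, hl⟩ : ∃ l, l = 2 / ε ^ 2 := ⟨_, rfl⟩
  have l0 : 0 < l := by
    rw [hl]
    positivity
  have l1 : l * ε ^ 2 = 2 := by
    rw [hl]
    field_simp
  obtain ⟨hφ, hΔ⟩ := lap_UC l (Real.exp (-l * r ^ 2)) q rfl
  obtain ⟨A, hA⟩ := h (‖q‖ + (r + 1))
  have hs : ∀ p, β p ≠ 0 → dist p q < r + 1 := fun p hp => by
    have : p ∈ Function.support β := hp
    rwa [β.support_eq] at this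
  have key := core_UC hσ hw β.contDiff β.hasCompactSupport hφ (A := A)
    (c := 4 * l * Real.exp (-l * (2 * (r + 1) ^ 2))) (by positivity)
    (fun p hp => hA p ((norm_le_norm_add_norm_sub' p q).trans (by
      have := hs p hp
      rw [dist_eq_norm] at this
      linarith)))
    (fun p hp hw => by
      rw [hΔ]
      have d1 : ε ≤ dist p q := not_lt.1 fun hlt => hw (hε hlt)
      have d2 := pow_le_pow_left₀ ε0.le d1 2
      have d3 := pow_le_pow_left₀ dist_nonneg (hs p hp).le 2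
      obtain ⟨d4, d5⟩ := dist_UC p q
      have d6 := mul_le_mul_of_nonneg_left (d2.trans d4) l0.le
      refine mul_le_mul (le_mul_of_one_le_right (by positivity) (by linarith))
        (Real.exp_le_exp.2 ?_) (Real.exp_pos _).le (mul_nonneg (by positivity) (by linarith))
      exact mul_le_mul_of_nonpos_left (by linarith) (by linarith))
    (fun p hp => by
      have d1 : dist p q < r := by
        have d2 := Real.exp_lt_exp.1 (sub_pos.1 hp)
        have d3 := (dist_UC p q).1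
        refine lt_of_pow_lt_pow_left₀ 2 (by linarith) ?_
        nlinarith
      have d4 : fderiv ℝ β p = 0 := by
        rw [(β.eventuallyEq_one_of_mem_ball d1).fderiv_eq]
        simp
      simp [ds, dt, d4])
    (p₁ := p₁) (sub_pos.2 (Real.exp_lt_exp.2 (by nlinarith)))
  have d5 : β p₁ = 1 := β.one_of_mem_closedBall
    (le_of_pow_le_pow_left₀ two_ne_zero (by linarith) ((dist_UC p₁ q).1.trans r2.le))
  rwa [d5, one_smul] at key

theorem uc {σ : ℝ} (hσ : σ = 1 ∨ σ = -1) {j : Pl → V →L[ℝ] V} (hj : ContDiff ℝ ∞ j)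
    (hc : ∀ p, Cpt Ω0 (j p)) {w : Pl → V} (hw : ContDiff ℝ ∞ w) (h : ∀ R : ℝ, ∃ A, ∀ p : Pl,
      ‖p‖ ≤ R → ‖σ • ds w p + j p (dt w p)‖ ≤ A * ‖w p‖) {p₀ : Pl} (h0 : w =ᶠ[𝓝 p₀] 0) : w = 0 := by
  have low : ∀ p (v : V), ‖v‖ ≤ ‖v - Sym.J0 (j p v)‖ := fun p v => by
    have := Cpt.norm_le_sub (hc p) (Sym.J0 v)
    rw [norm_J0, Sym.sq, map_neg, ← norm_J0 (Sym.J0 v - _), map_sub, Sym.sq, map_neg,
      ← norm_neg (-v - _)] at this
    exact this.trans_eq (congrArg norm (by abel))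
  have hjw : ContDiff ℝ ∞ fun p => j p (w p) := hj.clm_apply hw
  have hJ : ContDiff ℝ ∞ fun p => Sym.J0 (j p (w p)) := (Sym.J0 : V →L[ℝ] V).contDiff.comp hjw
  have key : (w - fun p => Sym.J0 (j p (w p))) = 0 := by
    refine uc0_UC hσ (hw.sub hJ) (fun R => ?_) (q := p₀) (h0.mono fun p hp => by simp [hp])
    obtain ⟨A, hA⟩ := h R
    obtain ⟨C, hC⟩ := (isCompact_closedBall (0 : Pl) R).exists_bound_of_continuousOn
      (hj.continuous.prodMk ((contDiff_ds hj).continuous.prodMk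
        (contDiff_dt hj).continuous)).continuousOn
    refine ⟨(1 + |C|) * |A| + |C| + |C|, fun p hp => ?_⟩
    have hC' := (hC p (mem_closedBall_zero_iff.2 hp)).trans (le_abs_self C)
    simp only [Prod.norm_mk, max_le_iff] at hC'
    have d1 := hj.differentiable (by simp) p
    have d2 := hw.differentiable (by simp) p
    have e1 : ds (fun p => j p (w p)) p = ds j p (w p) + j p (ds w p) :=
      ds_bil (ContinuousLinearMap.id ℝ (V →L[ℝ] V)) d1 d2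
    have e2 : dt (fun p => j p (w p)) p = dt j p (w p) + j p (dt w p) :=
      dt_bil (ContinuousLinearMap.id ℝ (V →L[ℝ] V)) d1 d2
    have e3 : ds (fun p => Sym.J0 (j p (w p))) p = Sym.J0 (ds (fun p => j p (w p)) p) :=
      congrFun (fd_clm_JetC (Sym.J0 : V →L[ℝ] V) hjw _) p
    have e4 : dt (fun p => Sym.J0 (j p (w p))) p = Sym.J0 (dt (fun p => j p (w p)) p) :=
      congrFun (fd_clm_JetC (Sym.J0 : V →L[ℝ] V) hjw _) p
    obtain ⟨y, hy⟩ : ∃ y, y = σ • ds w p + j p (dt w p) := ⟨_, rfl⟩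
    have e5 : σ • ds (w - fun p => Sym.J0 (j p (w p))) p +
        Sym.J0 (dt (w - fun p => Sym.J0 (j p (w p))) p) =
        (y - Sym.J0 (j p y)) - σ • Sym.J0 (ds j p (w p)) + dt j p (w p) := by
      rw [ds_sub_JetC hw hJ, dt_sub_JetC hw hJ, Pi.sub_apply, Pi.sub_apply, e3, e4, e1, e2, hy]
      simp only [map_add, map_sub, map_smul, map_neg, Sym.sq, (hc p).1]
      module
    have n1 : ‖y‖ ≤ |A| * ‖w p‖ := hy ▸ (hA p hp).trans
      (mul_le_mul_of_nonneg_right (le_abs_self A) (norm_nonneg _))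
    have n2 : ‖Sym.J0 (j p y)‖ ≤ |C| * (|A| * ‖w p‖) := by
      rw [norm_J0]
      exact (j p).le_of_opNorm_le_of_le hC'.1 n1
    have n3 : ‖σ • Sym.J0 (ds j p (w p))‖ ≤ |C| * ‖w p‖ := by
      have : ‖σ‖ = 1 := by rcases hσ with rfl | rfl <;> simp
      rw [norm_smul, this, one_mul, norm_J0]
      exact (ds j p).le_of_opNorm_le_of_le hC'.2.1 le_rfl
    have n4 : ‖dt j p (w p)‖ ≤ |C| * ‖w p‖ := (dt j p).le_of_opNorm_le_of_le hC'.2.2 le_rfl
    rw [e5]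
    refine (norm_add_le_of_le (norm_sub_le_of_le (norm_sub_le_of_le n1 n2) n3) n4).trans ?_
    refine le_trans (le_of_eq (by ring)) (mul_le_mul_of_nonneg_left (low p (w p)) (by positivity))
  funext p
  have := low p (w p)
  rw [show w p - Sym.J0 (j p (w p)) = 0 from congrFun key p, norm_zero] at this
  exact norm_le_zero_iff.1 this

theorem uc_gen {Ω : F → F → ℝ} (e : V ≃L[ℝ] F) (he : ∀ u v, Ω (e u) (e v) = Ω0 u v)
    {j : Pl → F →L[ℝ] F} (hj : ContDiff ℝ ∞ j) (hc : ∀ p, Cpt Ω (j p)) {w : Pl → F}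
    (hw : ContDiff ℝ ∞ w) (h : ∀ R : ℝ, ∃ A, ∀ p : Pl, ‖p‖ ≤ R →
      ‖ds w p + j p (dt w p)‖ ≤ A * ‖w p‖) {p₀ : Pl} (h0 : w =ᶠ[𝓝 p₀] 0) : w = 0 := by
  have key : (fun p => (e.symm : F →L[ℝ] V) (w p)) = 0 := by
    refine uc (σ := 1) (Or.inl rfl)
      (j := fun p => (e.symm : F →L[ℝ] V).comp ((j p).comp (e : V →L[ℝ] F)))
      (contDiff_const.clm_comp (hj.clm_comp contDiff_const)) (fun p => ⟨fun v => ?_, fun u v => ?_,
        fun v hv => ?_⟩) ((e.symm : F →L[ℝ] V).contDiff.comp hw) (fun R => ?_) (p₀ := p₀)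
      (h0.mono fun p hp => by simp [hp])
    · simp [(hc p).1]
    · rw [← he, ← he]
      simp [(hc p).2.1]
    · rw [← he]
      simpa using (hc p).2.2 (e v) (by simpa using hv)
    · obtain ⟨A, hA⟩ := h R
      refine ⟨‖(e.symm : F →L[ℝ] V)‖ * (|A| * ‖(e : V →L[ℝ] F)‖), fun p hp => ?_⟩
      have e1 : ds (fun p => (e.symm : F →L[ℝ] V) (w p)) p = (e.symm : F →L[ℝ] V) (ds w p) :=
        congrFun (fd_clm_JetC (e.symm : F →L[ℝ] V) hw _) p
      have e2 : dt (fun p => (e.symm : F →L[ℝ] V) (w p)) p = (e.symm : F →L[ℝ] V) (dt w p) :=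
        congrFun (fd_clm_JetC (e.symm : F →L[ℝ] V) hw _) p
      have n1 : ‖w p‖ ≤ ‖(e : V →L[ℝ] F)‖ * ‖(e.symm : F →L[ℝ] V) (w p)‖ := by
        simpa using (e : V →L[ℝ] F).le_opNorm ((e.symm : F →L[ℝ] V) (w p))
      have n2 := (e.symm : F →L[ℝ] V).le_of_opNorm_le_of_le le_rfl ((hA p hp).trans
        (mul_le_mul (le_abs_self A) n1 (norm_nonneg _) (abs_nonneg A)))
      rw [e1, e2]
      refine le_of_eq_of_le (congrArg norm ?_) (n2.trans_eq (by ring))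
      simp
  funext p
  simpa using congrFun key p

theorem uc_dop {σ : ℝ} {j S : Pl → V →L[ℝ] V} (h : Coef σ j S) {w : Pl → V} (hw : ContDiff ℝ ∞ w)
    (e : ∀ p, dop σ j S w p = 0) (h0 : w ≠ 0) : Dense {p | w p ≠ 0} := by
  intro p₀
  rw [mem_closure_iff_frequently]
  intro hn
  obtain ⟨C, hC⟩ := h.bS.bound
  refine h0 (uc h.sgn h.bj.1 h.cpt hw (fun _ => ⟨C, fun p _ => ?_⟩) (p₀ := p₀)
    (hn.mono fun p hp => not_not.1 hp))
  rw [eq_neg_of_add_eq_zero_left (e p), norm_neg]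
  exact (S p).le_of_opNorm_le_of_le (hC p) le_rfl

end

end Pool.Agent.P.MP_de3acd_gt.FH
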