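import Pool.Agent.P.MP_de3acd_gt.FH.TVseq
import Pool.Agent.P.MP_de3acd_gt.FH.UC

/-! Finitely many perturbations suffice.
Sketch: S = {(xi x y u, r)} for the irregular solutions of index ≤ 0 with r ∈ [0, 1], a subset of the second countable space W 2 V × ℝ (separable_W). For each point
Ell.exists_finset (with k none = kr, k (some i) = var (Z i r) u, or only the latter) gives a finite set: a nonzero ζ in the kernel of the adjoint is smooth (Ell.adj,
Ell.regular with ψ = 0), uc_dop gives density, ⟪to0 1 (toW 1 k), to0 2 ζ⟫ = ip 0 (fn ζ) k (toW_co, to0_co, rep_fn, ip_comm). It works for all solutions in an open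
neighbourhood (apply tendsto_Du to the family pert X (Z restricted) along the filter of nearby solutions; surjective_open). Countable subcover
(TopologicalSpace.countable_cover_nhdsWithin or IsLindelof); if no finite union works choose a sequence, SeqC, contradiction (if the limit is regular, so are the
translates; surjective_tsl). dX (pert X Z) (r, 0) (1, 0) = dX X r 1 and dX (pert X Z) (r, 0) (0, Pi.single i 1) = Z i r. -/

open Set Filter Topology MeasureTheory
open scoped ContDiff NNReal ENNReal RealInnerProductSpace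

namespace Pool.Agent.P.MP_de3acd_gt.FH

noncomputable section

variable {V : Type} [NormedAddCommGroup V] [InnerProductSpace ℝ V] [Sym V]

variable {ι : Type} {J : ℝ → V → V →L[ℝ] V} {X : ℝ → Pl → V → V} {Z : ι → ℝ → Pl → V → V} {R : ℝ}
  {Y Y' : ℝ → V → V} {x y : ℝ → V}

omit [Sym V] in
theorem pert_apply_TVsel [Fintype ι] (X : ℝ → Pl → V → V) (Z : ι → ℝ → Pl → V → V)
    (a : ℝ × (ι → ℝ)) (p : Pl) (z : V) :
    pert X Z a p z = X a.1 p z + ∑ i, a.2 i • Z i a.1 p z := by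
  simp only [pert, Pi.add_apply, Finset.sum_apply, Pi.smul_apply]

omit [Sym V] in
theorem agr_TVsel [Fintype ι] {s : ℝ} (h : Agr (fun r => frz (X r) s) Y x)
    (hZ : ∀ i, Agr (fun r => frz (Z i r) s) 0 x) : Agr (fun a => frz (pert X Z a) s) Y x := by
  have key : ∀ {T : ℝ → ℝ → V → V} {T₀ : ℝ → V → V}, Agr T T₀ x → ∀ᶠ δ in 𝓝[>] (0 : ℝ),
      ∀ a t z, ‖z - x t‖ ≤ δ → T a t z = T₀ t z := fun ⟨δ, hδ, e⟩ =>
    ((ge_mem_nhds hδ).filter_mono nhdsWithin_le_nhds).mono
      fun δ' h' a t z hz => e a t z (hz.trans h')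
  obtain ⟨δ, ⟨h1, h2⟩, h3⟩ := (((key h).and (eventually_all.2 fun i => key (hZ i))).and
    self_mem_nhdsWithin).exists
  refine ⟨δ, h3, fun a t z hz => ?_⟩
  have e1 : X a.1 (s, t) z = Y t z := h1 a.1 t z hz
  have e2 : ∀ i, Z i a.1 (s, t) z = 0 := fun i => h2 i a.1 t z hz
  simp only [frz, pert_apply_TVsel, e1, e2, smul_zero, Finset.sum_const_zero, add_zero]

theorem pert_zero [Fintype ι] (X : ℝ → Pl → V → V) (Z : ι → ℝ → Pl → V → V) (r : ℝ) :
    pert X Z (r, 0) = X r := by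
  simp [pert]

theorem fam_pert [Fintype ι] (h : Fam X R) (hZ : ∀ i, Fam (Z i) R) : Fam (pert X Z) R := by
  refine ⟨h.nonneg, ?_, fun a s t => funext fun z => ?_, fun a s hs => funext₂ fun t z => ?_,
    fun a s hs => funext₂ fun t z => ?_⟩
  · simp only [pert_apply_TVsel]
    have c : ContDiff ℝ ∞ fun q : (ℝ × (ι → ℝ)) × Pl × V => (q.1.1, q.2) := by fun_prop
    exact (h.smooth.comp c).add (ContDiff.sum fun i _ =>
      (by fun_prop : ContDiff ℝ ∞ fun q : (ℝ × (ι → ℝ)) × Pl × V => q.1.2 i).smul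
        ((hZ i).smooth.comp c))
  · simp only [pert_apply_TVsel, h.per a.1 s t, fun i => (hZ i).per a.1 s t]
  · have e1 : X a.1 (s, t) = X a.1 (-R, t) := congrFun (h.left a.1 s hs) t
    have e2 : ∀ i, Z i a.1 (s, t) = Z i a.1 (-R, t) := fun i => congrFun ((hZ i).left a.1 s hs) t
    simp only [frz, pert_apply_TVsel, e1, e2]
  · have e1 : X a.1 (s, t) = X a.1 (R, t) := congrFun (h.right a.1 s hs) t
    have e2 : ∀ i, Z i a.1 (s, t) = Z i a.1 (R, t) := fun i => congrFun ((hZ i).right a.1 s hs) t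
    simp only [frz, pert_apply_TVsel, e1, e2]

theorem PData.pert [Fintype ι] (h : PData J X R Y Y' x y) (hZ : ∀ i, Fam (Z i) R ∧
    Agr (fun r => frz (Z i r) (-R)) 0 x ∧ Agr (fun r => frz (Z i r) R) 0 y) :
    PData J (pert X Z) R Y Y' x y :=
  ⟨h.acs, fam_pert h.fam fun i => (hZ i).1, h.spl, h.spr, h.ox, h.oy,
    agr_TVsel h.agl fun i => (hZ i).2.1, agr_TVsel h.agr fun i => (hZ i).2.2⟩

theorem FData.pert [Fintype ι] (h : FData J X R Y Y') (hZ : ∀ i, Fam (Z i) R ∧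
    (∀ x, Orb 1 Y x → Agr (fun r => frz (Z i r) (-R)) 0 x) ∧
      ∀ y, Orb 1 Y' y → Agr (fun r => frz (Z i r) R) 0 y) : FData J (pert X Z) R Y Y' :=
  ⟨h.acs, fam_pert h.fam fun i => (hZ i).1, h.spl, h.spr, h.ndl, h.ndr,
    fun x hx => agr_TVsel (h.agl x hx) fun i => (hZ i).2.1 x hx,
    fun y hy => agr_TVsel (h.agr y hy) fun i => (hZ i).2.2 y hy⟩

/-- The variations. -/
def kv_TVsel (J : ℝ → V → V →L[ℝ] V) (X : ℝ → Pl → V → V) (Z : ι → ℝ → Pl → V → V)
    (s : Finset ι) (r : ℝ) (u : Pl → V) (i : Option s) : Pl → V :=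
  i.elim (kr J X r u) fun i => var J (Z i r) u

theorem kv_eq_TVsel [DecidableEq ι] (h : Fam X R) (hZ : ∀ i, Fam (Z i) R) (s : Finset ι) (r : ℝ)
    (u : Pl → V) (i : Option s) : var J (dX (pert X fun i : s => Z i) (r, 0)
      (i.elim (1, 0) fun i => (0, Pi.single i 1))) u = kv_TVsel J X Z s r u i := by
  have hp := fam_pert (Z := fun i : s => Z i) h fun i => hZ i
  cases i with
  | none =>
    refine (kr_eq hp.smX r 0 u).symm.trans ?_
    simp only [pert_zero]
    rfl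
  | some i =>
    refine congrArg (fun T => var J T u) (funext fun p => funext fun z => ?_)
    have d : DifferentiableAt ℝ (fun a => pert X (fun i : s => Z i) a p z)
        (r, (0 : ℝ) • (Pi.single i 1 : s → ℝ)) :=
      (hp.smooth.comp (contDiff_id.prodMk (contDiff_const (c := (p, z))))).differentiable (by simp) _
    have d1 := d.hasFDerivAt.comp_hasDerivAt (f := fun τ : ℝ => (r, τ • (Pi.single i 1 : s → ℝ))) 0
      ((hasDerivAt_const 0 r).prodMk ((hasDerivAt_id (0 : ℝ)).smul_const _))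
    have e : ((fun a => pert X (fun i : s => Z i) a p z) ∘
        fun τ : ℝ => (r, τ • (Pi.single i 1 : s → ℝ))) = fun τ => X r p z + τ • Z i r p z := by
      funext τ
      simp [pert_apply_TVsel, Pi.single_apply]
    rw [e, zero_smul, one_smul] at d1
    simpa [dX] using d1.unique (((hasDerivAt_id (0 : ℝ)).smul_const (Z i r p z)).const_add (X r p z))

theorem range_TVsel {α β : Type} [Fintype α] [Fintype β] {D : W 2 V →L[ℝ] W 1 V} {K : α → Pl → V}
    {K' : β → Pl → V} (e : ∀ i, ∃ i', K i = K' i')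
    (h : Function.Surjective (D.coprod (kmap K))) : Function.Surjective (D.coprod (kmap K')) := by
  classical
  intro η
  obtain ⟨⟨ξ, μ⟩, rfl⟩ := h η
  have m : kmap K μ ∈ (kmap K').range := by
    rw [kmap_apply]
    refine Submodule.sum_mem _ fun i _ => Submodule.smul_mem _ _ ?_
    obtain ⟨i', e'⟩ := e i
    exact ⟨Pi.single i' 1, by simp [kmap_apply, Pi.single_apply, e']⟩
  obtain ⟨μ', e'⟩ := m
  exact ⟨(ξ, μ'), congrArg (D ξ + ·) e'⟩

theorem mono_TVsel {s s' : Finset ι} (e : s ⊆ s') {D : W 2 V →L[ℝ] W 1 V} {r : ℝ} {u : Pl → V}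
    (h : Function.Surjective (D.coprod (kmap (kv_TVsel J X Z s r u)))) :
    Function.Surjective (D.coprod (kmap (kv_TVsel J X Z s' r u))) := by
  refine range_TVsel ?_ h
  rintro (_ | i)
  · exact ⟨none, rfl⟩
  · exact ⟨some ⟨i, e i.2⟩, rfl⟩

theorem cover_TVsel [DecidableEq ι] {P E : Type} [TopologicalSpace E] [SecondCountableTopology E]
    (f : P → E) {G : Finset ι → P → Prop} (mono : ∀ s s' q, s ⊆ s' → G s q → G s' q)
    (loc : ∀ q, ∃ s, ∀ᶠ q' in comap f (𝓝 (f q)), G s q') :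
    ∃ s : ℕ → Finset ι, Monotone s ∧ ∀ q, ∃ n, G (s n) q := by
  rcases isEmpty_or_nonempty P with hP | hP
  · exact ⟨fun _ => ∅, monotone_const, fun q => isEmptyElim q⟩
  choose s hs using loc
  let _ : TopologicalSpace P := .induced f inferInstance
  have : SecondCountableTopology P := TopologicalSpace.secondCountableTopology_induced P E f
  obtain ⟨t, t1, t2⟩ := TopologicalSpace.countable_cover_nhds (f := fun q => {q' | G (s q) q'})
    fun q => by rw [nhds_induced]; exact hs q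
  obtain ⟨e, he⟩ := Set.countable_iff_exists_subset_range.1 t1
  refine ⟨fun n => (Finset.range (n + 1)).biUnion fun m => s (e m), fun m n h =>
    Finset.biUnion_subset_biUnion_of_subset_left _ (Finset.range_mono (Nat.succ_le_succ h)),
    fun q => ?_⟩
  obtain ⟨q', h1, h2⟩ := mem_iUnion₂.1 (t2.symm ▸ mem_univ q : q ∈ ⋃ q ∈ t, {q' | G (s q) q'})
  obtain ⟨n, rfl⟩ := he h1
  exact ⟨n, mono _ _ q (Finset.subset_biUnion_of_mem (fun m => s (e m))
    (Finset.self_mem_range_succ n)) h2⟩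

omit [Sym V] in
theorem clamp_TVsel (h : Fam X R) {r : ℝ} {I : Set ℝ} (hI : UniqueDiffWithinAt ℝ I r) (hr : r ∈ I)
    {T : Pl → V → V} (e : ∀ a ∈ I, X a = T) (u : Pl → V) : kr J X r u = 0 := by
  funext p
  have d : DifferentiableAt ℝ (fun a => X a p (u p)) r :=
    (h.smooth.comp (contDiff_id.prodMk (contDiff_const (c := (p, u p))))).differentiable (by simp) _
  have e1 := hI.eq d.hasFDerivAt.hasFDerivWithinAt
    ((hasFDerivWithinAt_const (T p (u p)) r I).congr (fun a ha => by rw [e a ha]) (by rw [e r hr]))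
  simp [kr, var, dX, e1]

section

variable [DecidableEq ι] (h : PData J X R Y Y' x y) (hZ : ∀ i, Fam (Z i) R ∧
  Agr (fun r => frz (Z i r) (-R)) 0 x ∧ Agr (fun r => frz (Z i r) R) 0 y)

include h hZ

theorem tf_TVsel (s : Finset ι) (r : ℝ) {u : Pl → V} (hu : Pth x y u) :
    TF (kv_TVsel J X Z s r u) := fun i =>
  kv_eq_TVsel h.fam (fun i => (hZ i).1) s r u i ▸
    (h.pert (Z := fun i : s => Z i) fun i => hZ i).var_mem hu _ _

theorem open_TVsel {N : Type} {l : Filter N} {r : N → ℝ} {r₀ : ℝ} {f : N → Pl → V} {g : Pl → V}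
    (hr : Tendsto r l (𝓝 r₀)) (hf : ∀ n, Pth x y (f n)) (hg : Pth x y g) (e : WC l f fun _ => g)
    {s : Finset ι}
    (hs : Function.Surjective ((Du J (X r₀) g).coprod (kmap (kv_TVsel J X Z s r₀ g)))) :
    ∀ᶠ n in l, Function.Surjective
      ((Du J (X (r n)) (f n)).coprod (kmap (kv_TVsel J X Z s (r n) (f n)))) := by
  have t1 := (h.tendsto_Du hr hf hg e).1
  have t2 : ∀ i, Tendsto (fun n => toW 1 (kv_TVsel J X Z s (r n) (f n) i)) l
      (𝓝 (toW 1 (kv_TVsel J X Z s r₀ g i))) := fun i => by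
    simpa only [kv_eq_TVsel h.fam fun i => (hZ i).1] using
      ((h.pert (Z := fun i : s => Z i) fun i => hZ i).tendsto_Du
        (hr.prodMk_nhds (tendsto_const_nhds (x := 0))) hf hg e).2
          (i.elim (1, 0) fun i => (0, Pi.single i 1))
  have t3 : Tendsto (fun n => kmap (kv_TVsel J X Z s (r n) (f n))) l
      (𝓝 (kmap (kv_TVsel J X Z s r₀ g))) := by
    refine tendsto_iff_norm_sub_tendsto_zero.2 (squeeze_zero (fun _ => norm_nonneg _)
      (fun n => norm_kmap_sub_le _ _) ?_)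
    simpa using tendsto_finsetSum Finset.univ fun i _ => tendsto_iff_norm_sub_tendsto_zero.1 (t2 i)
  have c : Continuous fun q : (W 2 V →L[ℝ] W 1 V) × ((Option s → ℝ) →L[ℝ] W 1 V) =>
      q.1.coprod q.2 := by
    simp only [← ContinuousLinearMap.comp_fst_add_comp_snd]
    exact (continuous_fst.clm_comp continuous_const).add (continuous_snd.clm_comp continuous_const)
  exact ((c.tendsto _).comp (t1.prodMk_nhds t3)).eventually (surjective_open hs)

theorem tsl_TVsel {σ : ℝ} (inv : ∀ r, tsl (σ, 0) (X r) = X r ∧ ∀ i, tsl (σ, 0) (Z i r) = Z i r)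
    {s : Finset ι} {r : ℝ} {u : Pl → V} (hu : Pth x y u) (hs : Function.Surjective
      ((Du J (X r) (tsl (σ, 0) u)).coprod (kmap (kv_TVsel J X Z s r (tsl (σ, 0) u))))) :
    Function.Surjective ((Du J (X r) u).coprod (kmap (kv_TVsel J X Z s r u))) := by
  have v : ∀ T : Pl → V → V, tsl (σ, 0) T = T →
      var J T (tsl (σ, 0) u) = tsl (σ, 0) (var J T u) := fun T e => funext fun p => by
    have e1 : T (p + (σ, 0)) = T p := congrFun e p
    simp [var, tsl, e1]
  have e1 : ∀ i, kv_TVsel J X Z s r (tsl (σ, 0) u) i = tsl (σ, 0) (kv_TVsel J X Z s r u i) := by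
    rintro (_ | i)
    · refine v _ (funext fun p => funext fun z => ?_)
      have e2 : ∀ a, X a (p + (σ, 0)) = X a p := fun a => congrFun (inv a).1 p
      simp only [tsl, dX, e2]
    · exact v _ ((inv r).2 i)
  have e2 : kmap (kv_TVsel J X Z s r (tsl (σ, 0) u)) =
      (trW 1 (σ, 0)).comp (kmap (kv_TVsel J X Z s r u)) := by
    refine ContinuousLinearMap.ext fun μ => ?_
    simp only [ContinuousLinearMap.comp_apply, kmap_apply, map_sum, map_smul, e1,
      fun i => toW_tsl 1 (tf_TVsel h hZ s r hu i)]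
  have e3 : Du J (X r) (tsl (σ, 0) u) =
      Dop 1 1 (tsl (σ, 0) (cJ J u)) (tsl (σ, 0) (cS J (X r) u)) := by
    rw [← cJ_tsl, ← cS_tsl, (inv r).1, Du]
  rw [e2, e3] at hs
  exact (surjective_tsl (h.ell hu r).toCoef _ _).1 hs

theorem point_TVsel {r : ℝ} {u : Pl → V} (hu : Pth x y u)
    (kill : ¬Function.Surjective (Du J (X r) u) → ∀ ζ : Pl → V, ContDiff ℝ ∞ ζ → Per ζ →
      Dense {p | ζ p ≠ 0} → ∃ i, ip 0 (var J (Z i r) u) ζ ≠ 0) : ∃ s : Finset ι,
    Function.Surjective ((Du J (X r) u).coprod (kmap (kv_TVsel J X Z s r u))) := by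
  by_cases hs : Function.Surjective (Du J (X r) u)
  · refine ⟨∅, fun η => ?_⟩
    obtain ⟨ξ, rfl⟩ := hs η
    exact ⟨(ξ, 0), by simp⟩
  have el := h.ell hu r
  obtain ⟨s, H⟩ := el.exists_finset (fun i => toW 1 (var J (Z i r) u)) fun ζ e h0 => by
    obtain ⟨b1, b2⟩ := el.adj.regular (ψ := 0) (e.trans (map_zero _).symm)
    obtain ⟨i, hi⟩ := kill hs (fn ζ) b1.1 (per_fn ζ) (uc_dop el.adj.toCoef b1.1 (congrFun b2)
      fun e0 => h0 (((rep_fn ζ).eq_zero (continuous_fn ζ) (per_fn ζ)).2 e0))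
    have m : var J (Z i r) u ∈ Dsub V :=
      tf_TVsel h hZ {i} r hu (some ⟨i, Finset.mem_singleton_self i⟩)
    refine ⟨i, ?_⟩
    rwa [toW_co 1 ⟨_, m⟩, to0_co, real_inner_comm, rep_fn ζ, ip_comm]
  refine ⟨s, fun η => ?_⟩
  obtain ⟨ξ, μ, rfl⟩ := H η
  refine ⟨(ξ, fun i => i.elim 0 fun i => μ i), ?_⟩
  rw [ContinuousLinearMap.coprod_apply, kmap_apply, Fintype.sum_option,
    ← Finset.sum_coe_sort s]
  simp [kv_TVsel, Du]

end

theorem tv_sel [DecidableEq ι] {𝒮 : Set ℝ} (h : PData J X R Y Y' x y) (hZ : ∀ i, Fam (Z i) R ∧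
    Agr (fun r => frz (Z i r) (-R)) 0 x ∧ Agr (fun r => frz (Z i r) R) 0 y)
    (cl : ∀ r, (r ≤ 0 → X r = X 0 ∧ ∀ i, Z i r = Z i 0) ∧ (1 ≤ r → X r = X 1 ∧ ∀ i, Z i r = Z i 1))
    (inv : ∀ s ∈ 𝒮, ∀ r, tsl (s, 0) (X r) = X r ∧ ∀ i, tsl (s, 0) (Z i r) = Z i r)
    (seq : SeqC J (fun q : ℝ × ℝ => X q.1) 𝒮 x y)
    (kill : ∀ r ∈ Icc (0 : ℝ) 1, ∀ u d, Nice J (X r) x y u → HasIdx (Du J (X r) u) d → d ≤ 0 →
      ¬Function.Surjective (Du J (X r) u) → ∀ ζ : Pl → V, ContDiff ℝ ∞ ζ → Per ζ →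
        Dense {p | ζ p ≠ 0} → ∃ i, ip 0 (var J (Z i r) u) ζ ≠ 0) :
    ∃ s : Finset ι, ∀ s' : Finset ι, s ⊆ s' →
      GoodV J (pert X fun i : s' => Z i) (fun i : s' => Pi.single i 1) x y 0 := by
  let P : Type := {q : ℝ × (Pl → V) // q.1 ∈ Icc (0 : ℝ) 1 ∧ Nice J (X q.1) x y q.2 ∧
    ∃ d, HasIdx (Du J (X q.1) q.2) d ∧ d ≤ 0}
  let G : Finset ι → P → Prop := fun s q => Function.Surjective
    ((Du J (X q.1.1) q.1.2).coprod (kmap (kv_TVsel J X Z s q.1.1 q.1.2)))
  have : SecondCountableTopology (W 2 V) := UniformSpace.secondCountable_of_separable _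
  obtain ⟨s, s1, s2⟩ := cover_TVsel (G := G) (fun q : P => (q.1.1, xi x y q.1.2))
    (fun s s' q e => mono_TVsel e) fun q => by
      obtain ⟨d, d1, d2⟩ := q.2.2.2
      obtain ⟨s, hs⟩ := point_TVsel h hZ q.2.2.1.pth (kill _ q.2.1 _ d q.2.2.1 d1 d2)
      have t := tendsto_comap (f := fun q : P => (q.1.1, xi x y q.1.2))
        (x := 𝓝 (q.1.1, xi x y q.1.2))
      exact ⟨s, open_TVsel h hZ ((continuous_fst.tendsto _).comp t) (fun q : P => q.2.2.1.pth)
        q.2.2.1.pth ((h.wc_iff (fun q : P => q.2.2.1.pth) fun _ => q.2.2.1.pth).2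
          (tendsto_iff_dist_tendsto_zero.1 ((continuous_snd.tendsto _).comp t))) hs⟩
  have key : ∃ n, ∀ q, G (s n) q := by
    by_contra hn
    simp only [not_exists, not_forall] at hn
    choose q hq using hn
    choose d d1 d2 using fun n => (q n).2.2.2
    obtain ⟨φ, σ, r₀, g, f1, f2, f3, f4, f5⟩ := seq (fun n => (q n).1.1) (fun _ => 0)
      (fun n => (q n).1.2) d tendsto_const_nhds fun n => ⟨(q n).2.1, (q n).2.2.1, d1 n, d2 n,
        fun e => hq n (range_TVsel (fun i => ⟨none, by rw [Subsingleton.elim i 0]; rfl⟩) e)⟩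
    have pt : ∀ n, Pth x y (tsl (σ n, 0) (q (φ n)).1.2) := fun n =>
      (q (φ n)).2.2.1.pth.tsl h.loops.1 h.loops.2.1 _
    obtain ⟨d₀, i₀⟩ := (h.ell f4.pth r₀).exists_hasIdx
    obtain ⟨m, hm⟩ := ((h.tendsto_Du f3 pt f4.pth f5).1.eventually (HasIdx.eventually i₀)).exists
    have i₁ := ((Du_tsl (h.ell (q (φ m)).2.2.1.pth (q (φ m)).1.1).toCoef (σ m)).1 d₀).1
      (by rw [(inv _ (f2 m) _).1]; exact hm)
    obtain ⟨N, hN⟩ := s2 ⟨(r₀, g), isClosed_Icc.mem_of_tendsto f3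
      (Eventually.of_forall fun n => (q (φ n)).2.1), f4, d₀, i₀, i₁.unique (d1 _) ▸ d2 _⟩
    obtain ⟨n, n1, n2⟩ := ((open_TVsel h hZ f3 pt f4.pth f5 hN).and (eventually_ge_atTop N)).exists
    exact hq (φ n) (mono_TVsel (s1 (n2.trans (f1.id_le n)))
      (tsl_TVsel h hZ (inv _ (f2 n)) (q (φ n)).2.2.1.pth n1))
  obtain ⟨n, hn⟩ := key
  refine ⟨s n, fun s' e r u d hu hd d0 => ?_⟩
  simp only [pert_zero, kv_eq_TVsel h.fam fun i => (hZ i).1] at hu hd ⊢
  refine mono_TVsel e ?_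
  have red : ∀ r' ∈ Icc (0 : ℝ) 1, X r = X r' → (∀ i, Z i r = Z i r') →
      kr J X r u = kr J X r' u →
      Function.Surjective ((Du J (X r) u).coprod (kmap (kv_TVsel J X Z (s n) r u))) := by
    intro r' hr e1 e2 e3
    have e4 : kv_TVsel J X Z (s n) r u = kv_TVsel J X Z (s n) r' u := by
      funext i
      simp only [kv_TVsel, e2, e3]
    rw [e1] at hu hd ⊢
    rw [e4]
    exact hn ⟨(r', u), hr, hu, d, hd, d0⟩
  rcases le_total r 0 with h0 | h0
  · exact red 0 ⟨le_rfl, zero_le_one⟩ ((cl r).1 h0).1 ((cl r).1 h0).2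
      ((clamp_TVsel h.fam (uniqueDiffWithinAt_Iic r) self_mem_Iic
        (fun a ha => ((cl a).1 (le_trans ha h0)).1) u).trans (clamp_TVsel h.fam
          (uniqueDiffWithinAt_Iic 0) self_mem_Iic (fun a ha => ((cl a).1 ha).1) u).symm)
  rcases le_total r 1 with h1 | h1
  · exact red r ⟨h0, h1⟩ rfl (fun _ => rfl) rfl
  · exact red 1 ⟨zero_le_one, le_rfl⟩ ((cl r).2 h1).1 ((cl r).2 h1).2
      ((clamp_TVsel h.fam (uniqueDiffWithinAt_Ici r) self_mem_Ici
        (fun a ha => ((cl a).2 (le_trans h1 ha)).1) u).trans (clamp_TVsel h.fam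
          (uniqueDiffWithinAt_Ici 1) self_mem_Ici (fun a ha => ((cl a).2 ha).1) u).symm)

end

end Pool.Agent.P.MP_de3acd_gt.FH
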