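import Pool.Agent.P.MP_de3acd_gt.FH.TVop
import Pool.Agent.P.MP_de3acd_gt.FH.TVsel

/-! Generic perturbation in stages.
Sketch: tv_step: if there is no solution take s = ∅ (GoodV is vacuous); otherwise tv_sel (its SeqC hypothesis follows from seq ∅ with a n = 0, pert_zero); tv_open for
pert (PData.pert; Clamp and invariance are inherited), tv_dense with volume. stage: induction on k: there is p ∈ cls that is good for all i whose gap has at most k smaller values
in range gap. Step: T₀ from fin p ∅ (at a = 0: Eventually.self_of_nhds), s' = the union of the sets s j of step for j ∈ T₀ of level ≤ k, T₁ from fin p s'; for each j ∈ T₁ of level ≤ k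
there is U ∈ 𝓝 0 on which almost every a is good for j (either j is not relevant for p and s j = ∅, or it is similar to a member of T₀; the parameter must also keep p + .. in cls); intersect
(Filter.biInter_mem, ae_ball_iff), a neighbourhood has positive measure (measure_pos_of_mem_nhds, exists_mem_of_measure_ne_zero_of_ae). -/

open Set Filter Topology MeasureTheory
open scoped ContDiff NNReal ENNReal RealInnerProductSpace

namespace Pool.Agent.P.MP_de3acd_gt.FH

noncomputable section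

variable {V : Type} [NormedAddCommGroup V] [InnerProductSpace ℝ V] [Sym V]

theorem tv_step {ι : Type} [DecidableEq ι] {J : ℝ → V → V →L[ℝ] V} {X : ℝ → Pl → V → V}
    {Z : ι → ℝ → Pl → V → V} {R : ℝ} {Y Y' : ℝ → V → V} {x y : ℝ → V} {𝒮 : Set ℝ}
    (h : PData J X R Y Y' x y) (hZ : ∀ i, Fam (Z i) R ∧
      Agr (fun r => frz (Z i r) (-R)) 0 x ∧ Agr (fun r => frz (Z i r) R) 0 y)
    (cl : ∀ r, (r ≤ 0 → X r = X 0 ∧ ∀ i, Z i r = Z i 0) ∧ (1 ≤ r → X r = X 1 ∧ ∀ i, Z i r = Z i 1))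
    (inv : ∀ s ∈ 𝒮, ∀ r, tsl (s, 0) (X r) = X r ∧ ∀ i, tsl (s, 0) (Z i r) = Z i r)
    (seq : ∀ s : Finset ι, SeqC J (pert X fun i : s => Z i) 𝒮 x y)
    (kill : ∀ r ∈ Icc (0 : ℝ) 1, ∀ u d, Nice J (X r) x y u → HasIdx (Du J (X r) u) d → d ≤ 0 →
      ¬Function.Surjective (Du J (X r) u) → ∀ ζ : Pl → V, ContDiff ℝ ∞ ζ → Per ζ →
        Dense {p | ζ p ≠ 0} → ∃ i, ip 0 (var J (Z i r) u) ζ ≠ 0) :
    ∃ s : Finset ι, ((¬∃ r u, Nice J (X r) x y u) → s = ∅) ∧ ∀ s' : Finset ι, s ⊆ s' →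
      ∃ U ∈ 𝓝 (0 : s' → ℝ), ∀ᵐ a : s' → ℝ, a ∈ U →
        Good1 J (fun r => pert X (fun i : s' => Z i) (r, a)) x y := by
  have key : ∀ s' : Finset ι,
      GoodV J (pert X fun i : s' => Z i) (fun i : s' => Pi.single i 1) x y 0 →
      ∃ U ∈ 𝓝 (0 : s' → ℝ), ∀ᵐ a : s' → ℝ, a ∈ U →
        Good1 J (fun r => pert X (fun i : s' => Z i) (r, a)) x y := fun s' h0 => by
    have hp : PData J (pert X fun i : s' => Z i) R Y Y' x y := h.pert fun i => hZ i
    refine ⟨_, tv_open hp (fun r a => ⟨fun hr => ?_, fun hr => ?_⟩) (fun s hs q => ?_) (seq s') h0,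
      tv_dense hp volume⟩
    · simp only [pert, ((cl r).1 hr).1, ((cl r).1 hr).2]
    · simp only [pert, ((cl r).2 hr).1, ((cl r).2 hr).2]
    · funext p z
      have e1 : X q.1 (p + (s, 0)) = X q.1 p := congrFun (inv s hs q.1).1 p
      have e2 : ∀ i, Z i q.1 (p + (s, 0)) = Z i q.1 p := fun i => congrFun ((inv s hs q.1).2 i) p
      simp only [tsl, pert_apply_TVsel, e1, e2]
  by_cases hex : ∃ r u, Nice J (X r) x y u
  · obtain ⟨s, hs⟩ := tv_sel h hZ cl inv (fun r a u d _ H => by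
      have h1 := seq ∅ r (fun _ => 0) u d tendsto_const_nhds
      simp only [pert_zero] at h1
      exact h1 H) kill
    exact ⟨s, fun hn => absurd hex hn, fun s' hs' => key s' (hs s' hs')⟩
  · refine ⟨∅, fun _ => rfl, fun s' _ => key s' fun r u d hu => ?_⟩
    rw [pert_zero] at hu
    exact absurd ⟨r, u, hu⟩ hex

theorem ev_Stage {α : Type} [Fintype α] {Q : (α → ℝ) → Prop}
    (h : ∃ U ∈ 𝓝 (0 : α → ℝ), ∀ᵐ a : α → ℝ, a ∈ U → Q a) :
    ∀ᶠ a in 𝓝 (0 : α → ℝ) ⊓ ae volume, Q a := by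
  obtain ⟨U, hU, h⟩ := h
  have h1 : ∀ᶠ a in 𝓝 (0 : α → ℝ) ⊓ ae volume, a ∈ U := mem_inf_of_left hU
  filter_upwards [h1, h.filter_mono inf_le_right] with a h2 h3 using h3 h2

theorem neBot_Stage {α : Type} [Fintype α] : (𝓝 (0 : α → ℝ) ⊓ ae volume).NeBot :=
  inf_neBot_iff.2 fun _ hs _ ht => by
    rw [inter_comm]
    exact (Measure.dense_of_ae (μ := volume) ht).inter_nhds_nonempty hs

theorem stage {P ι κ : Type} [AddCommGroup P] [Module ℝ P] [DecidableEq κ] (Z : κ → P) (cls : Set P)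
    (gap : ι → ℝ) (good rel : P → ι → Prop) (sim : ι → ι → Prop) (hg : (range gap).Finite) {p₀ : P}
    (h0 : p₀ ∈ cls) (op : ∀ p ∈ cls, ∀ s : Finset κ, ∀ᶠ a : s → ℝ in 𝓝 0, p + ∑ i, a i • Z i ∈ cls)
    (triv : ∀ p ∈ cls, ∀ i, ¬rel p i → good p i)
    (inv : ∀ p ∈ cls, ∀ i j, sim j i → good p j → good p i)
    (fin : ∀ p ∈ cls, ∀ s : Finset κ, ∃ T : Set ι, T.Finite ∧ ∀ᶠ a : s → ℝ in 𝓝 0, ∀ i,
      rel (p + ∑ k, a k • Z k) i → ∃ j ∈ T, sim j i ∧ gap j = gap i)
    (step : ∀ p ∈ cls, ∀ i, (∀ j, gap j < gap i → good p j) → ∃ s : Finset κ, (¬rel p i → s = ∅) ∧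
      ∀ s' : Finset κ, s ⊆ s' → ∃ U ∈ 𝓝 (0 : s' → ℝ), ∀ᵐ a : s' → ℝ, a ∈ U →
        good (p + ∑ k, a k • Z k) i) : ∃ p ∈ cls, ∀ i, good p i := by
  classical
  let lev : ι → ℕ := fun i => {c ∈ range gap | c < gap i}.ncard
  have hfin : ∀ i, {c ∈ range gap | c < gap i}.Finite := fun i => hg.subset (sep_subset _ _)
  have hlt : ∀ i j, gap j < gap i → lev j < lev i := fun i j hji =>
    ncard_lt_ncard ⟨fun c hc => ⟨hc.1, hc.2.trans hji⟩,
      fun hc => lt_irrefl _ (hc ⟨mem_range_self j, hji⟩).2⟩ (hfin i)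
  have heq : ∀ i j, gap j = gap i → lev j = lev i := fun i j e => by simp only [lev, e]
  have main : ∀ k : ℕ, ∃ p ∈ cls, ∀ i, lev i < k → good p i := by
    intro k
    induction k with
    | zero => exact ⟨p₀, h0, fun i hi => absurd hi (Nat.not_lt_zero _)⟩
    | succ k ih =>
      obtain ⟨p, hp, hgood⟩ := ih
      have h1 : ∀ j, ∃ s : Finset κ, lev j < k + 1 → (¬rel p j → s = ∅) ∧
          ∀ s' : Finset κ, s ⊆ s' → ∃ U ∈ 𝓝 (0 : s' → ℝ), ∀ᵐ a : s' → ℝ, a ∈ U →
            good (p + ∑ k, a k • Z k) j := fun j => by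
        by_cases hj : lev j < k + 1
        · obtain ⟨s, hs⟩ := step p hp j fun j' hj' => hgood j' (by have := hlt j j' hj'; omega)
          exact ⟨s, fun _ => hs⟩
        · exact ⟨∅, fun h => absurd h hj⟩
      choose s hs using h1
      obtain ⟨T₀, hT₀, e₀⟩ := fin p hp ∅
      have e₀' : ∀ i, rel p i → ∃ j ∈ T₀, sim j i ∧ gap j = gap i := by
        simpa using e₀.self_of_nhds
      let s' : Finset κ := hT₀.toFinset.biUnion s
      obtain ⟨T₁, hT₁, e₁⟩ := fin p hp s'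
      have hc : ∀ᶠ a : s' → ℝ in 𝓝 0 ⊓ ae volume, p + ∑ i, a i • Z i ∈ cls :=
        (op p hp s').filter_mono inf_le_left
      have h2 : ∀ j ∈ T₁, ∀ᶠ a : s' → ℝ in 𝓝 0 ⊓ ae volume, lev j < k + 1 →
          good (p + ∑ i, a i • Z i) j := fun j _ => by
        by_cases hj : lev j < k + 1
        · by_cases hr : rel p j
          · obtain ⟨j₀, hj₀, e1, e2⟩ := e₀' j hr
            have h3 := ev_Stage ((hs j₀ (by rwa [heq j j₀ e2])).2 s'
              (Finset.subset_biUnion_of_mem s (hT₀.mem_toFinset.2 hj₀)))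
            filter_upwards [hc, h3] with a ha hb _ using inv _ ha j j₀ e1 hb
          · have h3 := ev_Stage ((hs j hj).2 s' (by
              rw [(hs j hj).1 hr]
              exact Finset.empty_subset _))
            filter_upwards [h3] with a ha _ using ha
        · exact Eventually.of_forall fun a h => absurd h hj
      have := neBot_Stage (α := s')
      obtain ⟨a, ⟨ha1, ha2⟩, ha3⟩ := ((hc.and ((eventually_all_finite hT₁).2 h2)).and
        (e₁.filter_mono inf_le_left)).exists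
      refine ⟨_, ha1, fun i hi => ?_⟩
      by_cases hr : rel (p + ∑ i, a i • Z i) i
      · obtain ⟨j, hj, e1, e2⟩ := ha3 i hr
        exact inv _ ha1 i j e1 (ha2 j hj (by rwa [heq i j e2]))
      · exact triv _ ha1 i hr
  obtain ⟨p, hp, hgood⟩ := main ((range gap).ncard + 1)
  exact ⟨p, hp, fun i => hgood i (Nat.lt_succ_of_le (ncard_le_ncard (sep_subset _ _) hg))⟩

end

end Pool.Agent.P.MP_de3acd_gt.FH
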