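import Pool.Agent.P.MP_de3acd_gt.FH.VL
import Pool.Agent.P.MP_de3acd_gt.FH.Kill
import Pool.Agent.P.MP_de3acd_gt.FH.Stage

/-! Perturbation of the homotopy.
Sketch: β r = smoothTransition r * smoothTransition (1 - r) vanishes outside Ioo 0 1, is positive inside and at most 1. step_H: in a chart apply tv_step with X r = c.pX (X r), Z i r = c.pZ (β r • i.1), 𝒮 = {0}; seqC_hom for
pert (pX_pert, Gau.fData, fam_pert, Dat.decH, Dat.regA, Dat.low, Dat.eg1_iff); for the bound replace r by its projection to Icc 0 1, Dat.bnd on ℝ × (s → ℝ), Cls.add, sz_small with the coefficients a i * β r. kill: r = 0 is excluded by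
regA, r = 1 by hN (eg1_iff for the constant family, good1_const); otherwise kill_dep, pZ_smul, var and ip are homogeneous. homotopy: stage on P = ℝ → Pl → E → E with cls = the families X with Fam X (R + 2), invariance, ends ham H,
X r = sta (ham H) for r ≤ 0, X r = th0 .. R for r ≥ 1, and ∃ η' < 5 η, ∃ L ≥ 0, ∀ r, Cls (X r) 0 0 2 η' L; start from fam_th0, cls_th0, th0_zero; ι = triples with gap in Icc (-b) 0; fin by rel_fin on ℝ × (s → ℝ). -/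

open Set Filter Topology MeasureTheory
open scoped ContDiff NNReal ENNReal RealInnerProductSpace

namespace Pool.Agent.P.MP_de3acd_gt.FH

noncomputable section

variable {Γ : Subgroup (Equiv.Perm E)} {B : ℝ → E →L[ℝ] E} {J : ℝ → E → E →L[ℝ] E}
  {H G K K' : ℝ → E → ℝ} {Y Y' Z : ℝ → E → E} {γ g : Equiv.Perm E} {x y w : ℝ → E} {u : Pl → E}
variable {X p p₁ p₂ : Pl → E → E} {Y₀ Y₁ : ℝ → E → E} {d R β₀ β₁ v η L b : ℝ}
  {o : ∀ a b, Op E a b → ℤˣ}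

/-- The cut-off in the homotopy parameter. -/
def bt_StH (r : ℝ) : ℝ := Real.smoothTransition r * Real.smoothTransition (1 - r)

/-- The perturbed family. -/
def xp_StH {ι : Type} [Fintype ι] (X : ℝ → Pl → E → E) (W : ι → Pl → E → E) :
    ℝ × (ι → ℝ) → Pl → E → E := pert X fun i r => bt_StH r • W i

theorem bt_lo_StH {r : ℝ} (h : r ≤ 0) : bt_StH r = 0 := by
  rw [bt_StH, Real.smoothTransition.zero_of_nonpos h, zero_mul]

theorem bt_hi_StH {r : ℝ} (h : 1 ≤ r) : bt_StH r = 0 := by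
  rw [bt_StH, Real.smoothTransition.zero_of_nonpos (sub_nonpos.2 h), mul_zero]

theorem bt_pos_StH {r : ℝ} (h : 0 < r) (h' : r < 1) : 0 < bt_StH r :=
  mul_pos (Real.smoothTransition.pos_of_pos h) (Real.smoothTransition.pos_of_pos (sub_pos.2 h'))

theorem bt_norm_StH (r : ℝ) : ‖bt_StH r‖ ≤ 1 := by
  rw [bt_StH, Real.norm_of_nonneg (mul_nonneg (bI_ClsL _).1 (bI_ClsL _).1)]
  exact mul_le_one₀ (bI_ClsL _).2 (bI_ClsL _).1 (bI_ClsL _).2

theorem bt_smooth_StH : ContDiff ℝ ∞ bt_StH :=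
  bS_ClsL.mul (bS_ClsL.comp (contDiff_const.sub contDiff_id))

theorem clamp_StH {α : Type} {f : ℝ → α} (h0 : ∀ r ≤ 0, f r = f 0) (h1 : ∀ r ≥ 1, f r = f 1)
    (r : ℝ) : ∃ r', ‖r'‖ ≤ 1 ∧ f r = f r' := by
  rcases le_total r 0 with h | h
  · exact ⟨0, by simp, h0 r h⟩
  · rcases le_total 1 r with h' | h'
    · exact ⟨1, by simp, h1 r h'⟩
    · exact ⟨r, by rwa [Real.norm_of_nonneg h], rfl⟩

section pert

variable {ι : Type} [Fintype ι] {X : ℝ → Pl → E → E} {W : ι → Pl → E → E}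

theorem xp_eq_StH (X : ℝ → Pl → E → E) (W : ι → Pl → E → E) (q : ℝ × (ι → ℝ)) :
    xp_StH X W q = X q.1 + ∑ i, (bt_StH q.1 • q.2) i • W i := by
  simp only [xp_StH, pert, smul_smul, Pi.smul_apply, smul_eq_mul, mul_comm]

theorem xp_fun_StH (X : ℝ → Pl → E → E) (W : ι → Pl → E → E) (a : ι → ℝ) :
    (X + ∑ i, a i • fun r => bt_StH r • W i) = fun r => xp_StH X W (r, a) := by
  funext r
  simp only [xp_StH, pert, Pi.add_apply, Finset.sum_apply, Pi.smul_apply]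

theorem xp_out_StH (X : ℝ → Pl → E → E) (W : ι → Pl → E → E) {r : ℝ} (h : bt_StH r = 0)
    (a : ι → ℝ) : xp_StH X W (r, a) = X r := by
  simp [xp_eq_StH, h]

theorem xp_zero_StH (X : ℝ → Pl → E → E) (W : ι → Pl → E → E) (r : ℝ) :
    xp_StH X W (r, 0) = X r := by
  simp [xp_eq_StH]

theorem xp_clamp_StH (W : ι → Pl → E → E) (h0 : ∀ r ≤ 0, X r = X 0) (h1 : ∀ r ≥ 1, X r = X 1)
    (r : ℝ) {a : ι → ℝ} (ha : ‖a‖ ≤ 1) :
    ∃ q : ℝ × (ι → ℝ), ‖q‖ ≤ 1 ∧ q.2 = a ∧ xp_StH X W (r, a) = xp_StH X W q := by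
  obtain ⟨r', hr, e⟩ := clamp_StH (f := fun r => xp_StH X W (r, a))
    (fun r hr => by rw [xp_out_StH X W (bt_lo_StH hr), xp_out_StH X W (bt_lo_StH le_rfl), h0 r hr])
    (fun r hr => by rw [xp_out_StH X W (bt_hi_StH hr), xp_out_StH X W (bt_hi_StH le_rfl), h1 r hr]) r
  exact ⟨(r', a), max_le hr ha, rfl, e⟩

theorem famW_StH {W : Pl → E → E} (hW : SupX Γ R W) : Fam (fun r => bt_StH r • W) R :=
  ⟨hW.1.nonneg, (bt_smooth_StH.comp contDiff_fst).smul hW.1.smooth,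
    fun r s t => congrArg (bt_StH r • ·) (hW.1.per r s t),
    fun r s hs => congrArg (bt_StH r • ·) (hW.1.left r s hs),
    fun r s hs => congrArg (bt_StH r • ·) (hW.1.right r s hs)⟩

theorem frz_xp_StH (hW : ∀ i, SupX Γ R (W i)) (q : ℝ × (ι → ℝ)) {s : ℝ} (hs : R ≤ |s|) :
    frz (xp_StH X W q) s = frz (X q.1) s := by
  funext t
  have e : ∀ i, W i (s, t) = 0 := fun i => (hW i).2.2 _ hs
  simp only [frz, xp_eq_StH, Pi.add_apply, Finset.sum_apply, Pi.smul_apply, e, smul_zero,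
    Finset.sum_const_zero, add_zero]

theorem ends_xp_StH (hX : Fam X R) (hW : ∀ i, SupX Γ R (W i))
    (e : ∀ r, frz (X r) (-R) = Y₀ ∧ frz (X r) R = Y₁) (q : ℝ × (ι → ℝ)) :
    frz (xp_StH X W q) (-R) = Y₀ ∧ frz (xp_StH X W q) R = Y₁ :=
  ⟨(frz_xp_StH hW q (by rw [abs_neg, abs_of_nonneg hX.nonneg])).trans (e _).1,
    (frz_xp_StH hW q (le_abs_self R)).trans (e _).2⟩

theorem fam_xp_StH (hX : Fam X R) (hW : ∀ i, SupX Γ R (W i)) : Fam (xp_StH X W) R := by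
  have n := hX.nonneg
  refine ⟨n, ?_, fun a s t => ?_, fun a s hs => ?_, fun a s hs => ?_⟩
  · simp only [xp_StH, pert, Pi.add_apply, Finset.sum_apply]
    have c : ContDiff ℝ ∞ fun q : (ℝ × (ι → ℝ)) × Pl × E => (q.1.1, q.2) := by fun_prop
    exact (hX.smooth.comp c).add (ContDiff.sum fun i _ =>
      (by fun_prop : ContDiff ℝ ∞ fun q : (ℝ × (ι → ℝ)) × Pl × E => q.1.2 i).smul
        ((famW_StH (hW i)).smooth.comp c))
  · have e : ∀ i, W i (s, t + 1) = W i (s, t) := fun i => (hW i).1.per 0 s t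
    simp only [xp_eq_StH, Pi.add_apply, Finset.sum_apply, Pi.smul_apply, e, hX.per a.1 s t]
  · rw [frz_xp_StH hW a (le_abs.2 (Or.inr (by linarith))),
      frz_xp_StH hW a (le_abs.2 (Or.inr (by linarith))), hX.left _ s hs]
  · rw [frz_xp_StH hW a (le_abs.2 (Or.inl hs)), frz_xp_StH hW a (le_abs_self R), hX.right _ s hs]

theorem fam_xp_StH' (hX : Fam X R) (hW : ∀ i, SupX Γ R (W i)) (a : ι → ℝ) :
    Fam (fun r => xp_StH X W (r, a)) R :=
  have h := fam_xp_StH hX hW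
  ⟨h.nonneg, h.smooth.comp (f := fun q : ℝ × Pl × E => ((q.1, a), q.2)) (by fun_prop),
    fun _ => h.per _, fun _ => h.left _, fun _ => h.right _⟩

theorem ivf_xp_StH (h : Fr Γ B) (hR : 0 ≤ R) (inv : ∀ r q, Ivf Γ (X r q)) (hW : ∀ i, SupX Γ R (W i))
    (a : ℝ × (ι → ℝ)) (q : Pl) : Ivf Γ (xp_StH X W a q) := by
  rw [xp_eq_StH]
  exact ivf_add_ClsL h (inv _ q) ((SupX.sum h hR hW _).2.1 q)

theorem cls_xp_StH (h : Fr Γ B) (hJ : IJ om Γ J) (hR : 0 ≤ R) (hW : ∀ i, SupX Γ R (W i))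
    (hc : ∀ r, Cls J H G Y (X r) β₀ β₁ v η L) (hL : 0 ≤ L) {η' : ℝ} (e : η < η') :
    ∃ η'' < η', ∀ᶠ a : ι → ℝ in 𝓝 0, ∀ r,
      Cls J H G Y (xp_StH X W (r, a)) β₀ β₁ v η'' (L + 2 * R) := by
  have h1 : ∀ᶠ κ in 𝓝[>] (0 : ℝ), (1 + κ) * η < η' :=
    (((by fun_prop : Continuous fun κ : ℝ => (1 + κ) * η).tendsto 0).eventually_lt_const
      (by simpa using e)).filter_mono nhdsWithin_le_nhds
  obtain ⟨κ, h2, hκ⟩ := (h1.and self_mem_nhdsWithin).exists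
  have hκ' : (0 : ℝ) < κ := hκ
  have h3 : 0 < 1 + κ⁻¹ := by positivity
  have h4 : 0 < (η' - (1 + κ) * η) / 2 / (1 + κ⁻¹) := div_pos (by linarith) h3
  obtain ⟨δ, hδ, hs⟩ := sz_small h hJ hW h4
  refine ⟨(1 + κ) * η + (1 + κ⁻¹) * ((η' - (1 + κ) * η) / 2 / (1 + κ⁻¹)), ?_, ?_⟩
  · rw [mul_div_cancel₀ _ h3.ne']
    linarith
  · filter_upwards [Metric.closedBall_mem_nhds 0 hδ] with a ha r
    rw [xp_eq_StH]
    refine (hc r).add hJ.1 hL hR (SupX.sum h hR hW _).2.2 (hs _ ?_) hκ'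
    exact (norm_smul_le _ _).trans ((mul_le_of_le_one_left (norm_nonneg _) (bt_norm_StH r)).trans
      (mem_closedBall_zero_iff.1 ha))

end pert

theorem ip_var_StH {J : ℝ → V6 → V6 →L[ℝ] V6} (r : ℝ) (W : Pl → V6 → V6) (u ζ : Pl → V6) :
    ip 0 (var J (r • W) u) ζ = r * ip 0 (var J W u) ζ := by
  rw [ip_zero, ip_zero, ← integral_const_mul]
  refine congrArg _ (funext fun p => ?_)
  simp only [var, Pi.smul_apply, map_smul, inner_neg_left, real_inner_smul_left, mul_neg]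

open Classical in
theorem Dat.step_H (D : Dat Γ B J H G d) (hY : ClY Γ J G Y) {X : ℝ → Pl → E → E} (hX : Fam X R)
    (hR : 0 < R) (inv : ∀ r q, Ivf Γ (X r q))
    (e : ∀ r, frz (X r) (-R) = ham H ∧ frz (X r) R = ham H) (h0 : ∀ r ≤ 0, X r = sta (ham H))
    (h1 : ∀ r ≥ 1, X r = X 1) (hc : ∀ r, Cls J H G Y (X r) 0 0 v η L) (hL : 0 ≤ L) (hγ : γ ∈ Γ)
    (hx : Orb γ (ham H) x) (hy : Orb γ (ham H) y) (hN : EG1 om Γ γ J (fun _ => X 1) x y)
    (below : ∀ x' y', Orb γ (ham H) x' → Orb γ (ham H) y' →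
      act γ H x' - act γ H y' < act γ H x - act γ H y → EG1 om Γ γ J X x' y') :
    ∃ s : Finset {Z // SupX Γ R Z}, ((¬∃ r u, Cyl om γ J (X r) x y u) → s = ∅) ∧
      ∀ s', s ⊆ s' → ∃ U ∈ 𝓝 (0 : s' → ℝ), ∀ᵐ a : s' → ℝ, a ∈ U →
        EG1 om Γ γ J (X + ∑ i : s', a i • fun r =>
          (Real.smoothTransition r * Real.smoothTransition (1 - r)) • i.1.1) x y := by
  obtain ⟨c⟩ := D.fr.chart hγ
  obtain ⟨x, rfl⟩ := c.up_bijective.2 x
  obtain ⟨y, rfl⟩ := c.up_bijective.2 y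
  have ox := c.orb_iff.1 hx
  have oy := c.orb_iff.1 hy
  have tx := Orb.tw D.endH.1.1 hx
  have ty := Orb.tw D.endH.1.1 hy
  have h0' : ∀ r ≤ 0, X r = X 0 := fun r hr => (h0 r hr).trans (h0 0 le_rfl).symm
  have reg := D.regA c hγ
  have dec := D.decH c hγ
  have vz : ∀ (i : {Z // SupX Γ R Z}) (s : ℝ) (w : ℝ → V6), R ≤ |s| →
      Agr (fun r => frz (c.pZ (bt_StH r • i.1)) s) 0 w := fun i s w hs =>
    ⟨1, one_pos, fun r t z _ => by
      have e0 : i.1 (s, t) = 0 := i.2.2.2 _ hs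
      simp only [frz, Gau.pZ, Pi.smul_apply, e0, Pi.zero_apply, smul_zero, map_zero]⟩
  have pe : ∀ s : Finset {Z // SupX Γ R Z},
      (pert (fun r => c.pX (X r)) fun (i : s) r => c.pZ (bt_StH r • i.1.1)) =
        fun q => c.pX (xp_StH X (fun i : s => i.1.1) q) := fun s =>
    funext fun q => (c.pX_pert X (fun (i : s) r => bt_StH r • i.1.1) q).symm
  obtain ⟨s, hs, hs'⟩ := tv_step (ι := {Z // SupX Γ R Z}) (J := c.pJ J) (X := fun r => c.pX (X r))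
    (Z := fun i r => c.pZ (bt_StH r • i.1)) (R := R) (𝒮 := {0})
    ((Gau.fData c hγ D.ij hX inv e D.endH D.endH).pData ox oy)
    (fun i => ⟨Gau.famZ hγ (famW_StH i.2) fun r q => (i.2.smul D.fr _).2.1 q,
      vz i _ _ (by rw [abs_neg, abs_of_pos hR]), vz i _ _ (le_abs_self R)⟩)
    (fun r => ⟨fun hr => ⟨by rw [h0' r hr], fun i => by rw [bt_lo_StH hr, bt_lo_StH le_rfl]⟩,
      fun hr => ⟨by rw [h1 r hr], fun i => by rw [bt_hi_StH hr, bt_hi_StH le_rfl]⟩⟩)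
    (fun s hs r => by
      rw [show s = 0 from hs]
      exact ⟨tsl_zero _, fun i => tsl_zero _⟩)
    (fun s => by
      have hW : ∀ i : s, SupX Γ R i.1.1 := fun i => i.1.2
      have fam := fam_xp_StH hX hW
      have iv := ivf_xp_StH D.fr hR.le inv hW
      have en := ends_xp_StH hX hW e
      obtain ⟨η', -, hη'⟩ := cls_xp_StH D.fr D.ij hR.le hW hc hL (lt_add_one η)
      obtain ⟨A', hA'⟩ := D.bnd c fam iv hγ tx 0 0 v η' (L + 2 * R) 1
        (c.pA (mix H G 0) x - c.pA (mix H G 0) y)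
      rw [pe]
      refine seqC_hom (A := c.pA H) (A' := c.pA H) (c := v * d + 8 * η) (B := A')
        (Gau.fData c hγ D.ij fam iv en D.endH D.endH) (fun q => congrArg c.pY (en q).1)
        (fun q => congrArg c.pY (en q).2) ox oy dec dec reg reg (fun r => ?_)
        (fun x' y' hx' hy' hlt => ?_) ?_
      · have := D.low c hY (hc r) (hX.fld r) hγ D.endH.1 D.endH.1 le_rfl
        rw [mix_zero] at this
        rwa [xp_zero_StH]
      · simp only [xp_zero_StH]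
        exact (D.eg1_iff c hY hX inv hc hγ e D.endH D.endH hx' hy').1
          (below _ _ (c.orb_iff.2 hx') (c.orb_iff.2 hy') hlt)
      · filter_upwards [hη', Metric.closedBall_mem_nhds 0 one_pos] with a ha ha' r u hu
        obtain ⟨q, hq, e1, e2⟩ := xp_clamp_StH (fun i : s => i.1.1) h0' h1 r
          (mem_closedBall_zero_iff.1 ha')
        exact hA' q Y y u hq hY (e2 ▸ ha r) ty (e2 ▸ hu) le_rfl)
    (fun r hr u d' hu hd hd' hn ζ hζ _ hD => by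
      have r0 : r ≠ 0 := fun hr0 => hn (by
        rw [hr0, h0 0 le_rfl] at hu ⊢
        exact reg x y u ox oy hu)
      have r1 : r ≠ 1 := fun hr1 => hn (by
        rw [hr1] at hu hd ⊢
        exact (good1_const _ _ _ _).1 ((D.eg1_iff c hY (hX.fld 1) (fun _ => inv 1) (fun _ => hc 1) hγ
          (fun _ => e 1) D.endH D.endH ox oy).1 hN) u d' hu hd hd')
      obtain ⟨Z, hZ, hne⟩ := D.fr.kill_dep D.ij hγ c hR hu.bdd.1.continuous hζ.continuous hD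
      refine ⟨⟨Z, hZ⟩, ?_⟩
      rw [c.pZ_smul, ip_var_StH]
      exact mul_ne_zero (bt_pos_StH (hr.1.lt_of_ne r0.symm) (hr.2.lt_of_ne r1)).ne' hne)
  refine ⟨s, fun hn => hs fun ⟨r, u, hu⟩ => hn ⟨r, _, Gau.cyl_of_nice c hγ D.ij tx ty hu⟩,
    fun s' h' => ?_⟩
  obtain ⟨U, hU, hU'⟩ := hs' s' h'
  have hW : ∀ i : s', SupX Γ R i.1.1 := fun i => i.1.2
  obtain ⟨η', -, hη'⟩ := cls_xp_StH D.fr D.ij hR.le hW hc hL (lt_add_one η)
  refine ⟨_, inter_mem hU hη', hU'.mono fun a ha ha' => ?_⟩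
  have h2 := ha ha'.1
  rw [pe] at h2
  exact (congrArg (fun T => EG1 om Γ γ J T (c.up x) (c.up y))
    (xp_fun_StH X (fun i : s' => i.1.1) a)).mpr
    ((D.eg1_iff c hY (fam_xp_StH' hX hW a) (fun r => ivf_xp_StH D.fr hR.le inv hW _) ha'.2 hγ
      (fun r => ends_xp_StH hX hW e _) D.endH D.endH ox oy).2 h2)

theorem Dat.hData (D : Dat Γ B J H G d) (hY : ClY Γ J G Y) {X : ℝ → Pl → E → E} (hX : Fam X R)
    (inv : ∀ r q, Ivf Γ (X r q)) (e : ∀ r, frz (X r) (-R) = ham H ∧ frz (X r) R = ham H)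
    (h0 : ∀ r ≤ 0, X r = sta (ham H)) (h1 : ∀ r ≥ 1, X r = X 1)
    (hc : ∀ r, Cls J H G Y (X r) 0 0 v η L) (hb : v * d + 8 * η ≤ b) (hb' : 0 ≤ b) (hγ : γ ∈ Γ)
    (good : ∀ x y, Orb γ (ham H) x → Orb γ (ham H) y → act γ H x - act γ H y ≤ 0 →
      EG1 om Γ γ J X x y) (c : Ch γ) :
    HData (c.pJ J) (fun r => c.pX (X r)) R (c.pY (ham H)) (c.pA H) b := by
  refine ⟨Gau.acs hγ D.ij, Gau.fam hγ hX inv, fun r => congrArg c.pY (e r).1,
    fun r => congrArg c.pY (e r).2, fun r hr => congrArg c.pX (h0 r hr),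
    fun r hr => congrArg c.pX (h1 r hr), hb', Gau.ndA hγ D.endH, D.regA c hγ, D.decH c hγ,
    fun r => ?_, fun x y hx hy hle => ?_, fun x hx => ?_,
    fun r x y u _ _ hu => D.bdd c hY (hc r) (hX.fld r) (inv r) hγ hu⟩
  · have := D.low c hY (hc r) (hX.fld r) hγ D.endH.1 D.endH.1 hb
    rwa [mix_zero] at this
  · exact (D.eg1_iff c hY hX inv hc hγ e D.endH D.endH hx hy).1
      (good _ _ (c.orb_iff.2 hx) (c.orb_iff.2 hy) hle)
  · obtain ⟨A', hA'⟩ := D.bnd c hX inv hγ (Orb.tw D.endH.1.1 (c.orb_iff.2 hx)) 0 0 v η L 1 b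
    refine ⟨A', fun r y u hy hu hle => ?_⟩
    obtain ⟨r', hr, e'⟩ := clamp_StH (fun r hr => (h0 r hr).trans (h0 0 le_rfl).symm) h1 r
    exact hA' r' Y y u hr hY (hc r') (Orb.tw D.endH.1.1 (c.orb_iff.2 hy)) (e' ▸ hu)
      (by rwa [mix_zero])

theorem CDat.homotopy (h : CDat Γ J H G B d Y p₁ p₂ η b) (hR : 2 ≤ R)
    (hN : ∀ γ ∈ Γ, ∀ x y, Orb γ (ham H) x → Orb γ (ham H) y → act γ H x - act γ H y ≤ 0 →
      EG1 om Γ γ J (fun _ => th0 H G Y p₁ p₂ R) x y) :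
    ∃ (X : ℝ → Pl → E → E) (L : ℝ), X 1 = th0 H G Y p₁ p₂ R ∧ Fam X (R + 2) ∧
      (∀ r q, Ivf Γ (X r q)) ∧ (∀ r, Cls J H G Y (X r) 0 0 2 (5 * η) L) ∧ (∀ r ≤ 0, X r = X 0) ∧
      (∀ r ≥ 1, X r = X 1) ∧ ∀ γ ∈ Γ, ∀ c : Ch γ,
        HData (c.pJ J) (fun r => c.pX (X r)) (R + 2) (c.pY (ham H)) (c.pA H) b := by
  classical
  have D := h.dat
  have hY := h.clY
  have hη := h.pos
  have hb := h.le
  have hd := D.nonneg
  have hR' : 0 < R + 2 := by linarith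
  have ih := Reg.ih D.reg
  have eH := D.endH
  let cl : Set (ℝ → Pl → E → E) := {X | Fam X (R + 2) ∧ (∀ r q, Ivf Γ (X r q)) ∧
    (∀ r, frz (X r) (-(R + 2)) = ham H ∧ frz (X r) (R + 2) = ham H) ∧
    (∀ r ≤ 0, X r = sta (ham H)) ∧ (∀ r ≥ 1, X r = th0 H G Y p₁ p₂ R) ∧
      ∃ η' < 5 * η, ∃ L, 0 ≤ L ∧ ∀ r, Cls J H G Y (X r) 0 0 2 η' L}
  let T := Equiv.Perm E × (ℝ → E) × (ℝ → E)
  let gp : T → ℝ := fun τ => act τ.1 H τ.2.1 - act τ.1 H τ.2.2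
  let ι := {τ : T // τ.1 ∈ Γ ∧ Orb τ.1 (ham H) τ.2.1 ∧ Orb τ.1 (ham H) τ.2.2 ∧ gp τ ∈ Icc (-b) 0}
  have one : ∀ X ∈ cl, ∀ r ≥ 1, X r = X 1 := fun X hX r hr =>
    (hX.2.2.2.2.1 r hr).trans (hX.2.2.2.2.1 1 le_rfl).symm
  have zero : ∀ X ∈ cl, ∀ r ≤ 0, X r = X 0 := fun X hX r hr =>
    (hX.2.2.2.1 r hr).trans (hX.2.2.2.1 0 le_rfl).symm
  have ext : ∀ X ∈ cl, ∀ γ ∈ Γ, ∀ x y, Orb γ (ham H) x → Orb γ (ham H) y →
      act γ H x - act γ H y ≤ 0 → (∀ i : ι, i.1 = (γ, x, y) → EG1 om Γ i.1.1 J X i.1.2.1 i.1.2.2) →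
        EG1 om Γ γ J X x y := fun X hX γ hγ x y hx hy hle hi => by
    by_cases hlo : -b ≤ act γ H x - act γ H y
    · exact hi ⟨(γ, x, y), hγ, hx, hy, hlo, hle⟩ rfl
    · obtain ⟨η', h1, L, -, hc⟩ := hX.2.2.2.2.2
      intro r u _ hu
      have := D.low_E hY (hc r) (hX.1.fld r) hγ (Orb.tw eH.1.1 hx) (Orb.tw eH.1.1 hy) hu
      rw [mix_zero] at this
      exact absurd (by linarith) hlo
  obtain ⟨X, hX, good⟩ := stage (ι := ι) (κ := {Z // SupX Γ (R + 2) Z})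
    (fun i r => bt_StH r • i.1) cl (fun i => gp i.1)
    (fun X i => EG1 om Γ i.1.1 J X i.1.2.1 i.1.2.2)
    (fun X i => ∃ r u, Cyl om i.1.1 J (X r) i.1.2.1 i.1.2.2 u)
    (fun j i => ∃ g ∈ Γ, i.1.1 = g * j.1.1 * g⁻¹ ∧ i.1.2.1 = g ∘ j.1.2.1 ∧ i.1.2.2 = g ∘ j.1.2.2)
    ((D.fr.gap_fin eH eH ih ih (-b) 0).subset (by
      rintro _ ⟨i, rfl⟩
      exact ⟨i.2.2.2.2, _, i.2.1, _, _, i.2.2.1, i.2.2.2.1, rfl⟩))
    (p₀ := fun r => th0 H G Y p₁ p₂ (R * Real.smoothTransition r))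
    (by
      obtain ⟨f1, f2⟩ := fam_th0 eH.1.1 D.endG.1.1 hY.1.1.1 h.s₁.1 h.s₂.1 (by linarith : 0 ≤ R)
      refine ⟨f1, fun r => ivf_th0 D.fr eH.1 D.endG.1 hY.1.1 h.s₁.1 h.s₂.1 _, f2, fun r hr => ?_,
        fun r hr => ?_, 4 * η, by linarith, 8, by norm_num,
        fun r => cls_th0 D.ij.1 h.s₁.1.2.2 h.s₂.1.2.2 h.s₁.2 h.s₂.2 _⟩
      · simp only [Real.smoothTransition.zero_of_nonpos hr, mul_zero, th0_zero]
      · simp only [Real.smoothTransition.one_of_one_le hr, mul_one])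
    (fun X hX s => by
      obtain ⟨a1, a2, a3, a4, a5, η', h1, L, hL, hc⟩ := hX
      have hW : ∀ i : s, SupX Γ (R + 2) i.1.1 := fun i => i.1.2
      obtain ⟨η'', h2, h3⟩ := cls_xp_StH D.fr D.ij hR'.le hW hc hL h1
      filter_upwards [h3] with a ha
      rw [xp_fun_StH X (fun i : s => i.1.1) a]
      exact ⟨fam_xp_StH' a1 hW a, fun r => ivf_xp_StH D.fr hR'.le a2 hW _,
        fun r => ends_xp_StH a1 hW a3 _,
        fun r hr => (xp_out_StH _ _ (bt_lo_StH hr) a).trans (a4 r hr),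
        fun r hr => (xp_out_StH _ _ (bt_hi_StH hr) a).trans (a5 r hr),
        η'', h2, L + 2 * (R + 2), by positivity, ha⟩)
    (fun X _ i hi r u _ hu => absurd ⟨r, u, hu⟩ hi)
    (fun X hX i j ⟨g, hg, e1, e2, e3⟩ hj => by
      rw [e1, e2, e3]
      exact (D.fr.eg1_iff hg j.2.1 D.ij hX.1.smX hX.2.1).2 hj)
    (fun X hX s => by
      have z0 := zero X hX
      have z1 := one X hX
      obtain ⟨a1, a2, a3, a4, a5, η', h1, L, hL, hc⟩ := hX
      have hW : ∀ i : s, SupX Γ (R + 2) i.1.1 := fun i => i.1.2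
      obtain ⟨η'', h2, h3⟩ := cls_xp_StH D.fr D.ij hR'.le hW hc hL h1
      have fam := fam_xp_StH a1 hW
      obtain ⟨S, hS, hS1, hS2⟩ := D.rel_fin fam (ivf_xp_StH D.fr hR'.le a2 hW) eH eH
        (1 + 4 * b) (L + 2 * (R + 2))
      refine ⟨Subtype.val ⁻¹' S, hS.preimage Subtype.val_injective.injOn, ?_⟩
      filter_upwards [h3, Metric.closedBall_mem_nhds 0 one_pos] with a ha ha' i hi
      rw [xp_fun_StH X (fun i : s => i.1.1) a] at hi
      obtain ⟨r, u, hu⟩ := hi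
      obtain ⟨hγ, hx, hy, hg⟩ := i.2
      have en := D.energy_le hY (ha r) (fam.fld _) hγ (Orb.tw eH.1.1 hx) (Orb.tw eH.1.1 hy) hu
      rw [mix_zero] at en
      obtain ⟨q, hq, -, e2⟩ := xp_clamp_StH (fun i : s => i.1.1) z0 z1 r
        (mem_closedBall_zero_iff.1 ha')
      have hg2 : act i.1.1 H i.1.2.1 - act i.1.1 H i.1.2.2 ≤ 0 := hg.2
      obtain ⟨τ, hτ, g, hg', e3, e4, e5⟩ := hS2 q Y 0 0 2 η'' (by linarith) hY (e2 ▸ ha r) _ hγ _ _ u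
        hx hy (e2 ▸ hu) (by linarith)
      obtain ⟨b1, b2, b3⟩ := hS1 τ hτ
      have e6 : gp τ = gp i.1 := by
        simp only [gp]
        rw [e3, e4, e5]
        exact (D.fr.gap_smul hg' b1 ih ih (Orb.tw eH.1.1 b2) (Orb.tw eH.1.1 b3)).symm
      exact ⟨⟨τ, b1, b2, b3, e6 ▸ hg⟩, hτ, ⟨g, hg', e3, e4, e5⟩, e6⟩)
    (fun X hX i hi => by
      have z1 := one X hX
      have ex := ext X hX
      obtain ⟨a1, a2, a3, a4, a5, η', h1, L, hL, hc⟩ := hX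
      obtain ⟨hγ, hx, hy, hg⟩ := i.2
      exact D.step_H hY a1 hR' a2 a3 a4 z1 hc hL hγ hx hy
        (by rw [a5 1 le_rfl]; exact hN _ hγ _ _ hx hy hg.2)
        fun x' y' hx' hy' hlt => ex _ hγ _ _ hx' hy' (hlt.le.trans hg.2) fun j hj =>
          hi j (by simp only [gp, hj]; exact hlt))
  have z0 := zero X hX
  have z1 := one X hX
  have ex := ext X hX
  obtain ⟨a1, a2, a3, a4, a5, η', h1, L, hL, hc⟩ := hX
  have hc' : ∀ r, Cls J H G Y (X r) 0 0 2 (5 * η) L := fun r => (hc r).mono h1.le le_rfl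
  exact ⟨X, L, a5 1 le_rfl, a1, a2, hc', z0, z1, fun γ hγ c => D.hData hY a1 a2 a3 a4 z1 hc'
    (by linarith) (by linarith) hγ (fun x y hx hy hle => ex γ hγ x y hx hy hle fun i _ => good i) c⟩

end

end Pool.Agent.P.MP_de3acd_gt.FH
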