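import Pool.Agent.P.MP_de3acd_gt.FH.NeckA
import Pool.Agent.P.MP_de3acd_gt.FH.FinN

/-! The count for a long neck.
Sketch: P = the set of (y, g₁, g₂) with y an orbit, Nice g₁, g₂ and bijective operators. The gaps satisfy A₀ x - A y ≤ c and A y - A₂ z ≤ c (low), y lies in a ball
(apb₁, Pth.inB, NdB.finite), finite_bij: P is finite. Take ε below the ε of neck_glue and neck_sep for all elements and pairs. For large r every solution of index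
≤ 0 is ε-close to some preglued map (else a sequence r n → ∞, frequently_atTop or exists_seq_forall_of_frequently; bl2). So choosing the solution near each
element of P is a bijection from P to SolT (mem_solT, fld_nk for the ends, cyl); scnt_bijOn, scnt_eq_sum, Finset.sum_sigma, sum_product, sum_mul_sum. -/

open Set Filter Topology MeasureTheory
open scoped ContDiff NNReal ENNReal RealInnerProductSpace

namespace Pool.Agent.P.MP_de3acd_gt.FH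

noncomputable section

variable {V : Type} [NormedAddCommGroup V] [InnerProductSpace ℝ V] [Sym V]

variable {J : ℝ → V → V →L[ℝ] V} {X₁ X₂ : Pl → V → V} {Y₀ Y Y₂ : ℝ → V → V} {R c : ℝ} {x z : ℝ → V}
  {A₀ A A₂ : (ℝ → V) → ℝ} {o : ∀ a b, Op V a b → ℤˣ} {η : ℕ → ℕ → ℕ → ℕ → ℤˣ}

theorem small_NeckB {ι : Type} (P : Finset ι) {Q : ι → ℝ → Prop}
    (hQ : ∀ q ε ε', 0 < ε' → ε' ≤ ε → Q q ε → Q q ε') (h : ∀ q ∈ P, ∃ ε > 0, Q q ε) :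
    ∀ᶠ ε in 𝓝[>] (0 : ℝ), ∀ q ∈ P, Q q ε :=
  (eventually_all_finset P).2 fun q hq => by
    obtain ⟨ε, h0, h1⟩ := h q hq
    filter_upwards [Ioc_mem_nhdsGT h0] with ε' h2 using hQ q ε ε' h2.1 h2.2 h1

theorem abs_NeckB {ι κ : Type} [Nonempty κ] (P : Finset ι) (N : ℝ → ι → κ → ℝ≥0∞)
    {S S' : ℝ → κ → Prop} {G : ℝ → ι → κ → Prop}
    (h1 : ∀ q ∈ P, ∃ ε > 0,
      (∀ᶠ r in atTop, ∀ u, S r u → N r q u ≤ ENNReal.ofReal (ε ^ 2) → G r q u) ∧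
      (∀ᶠ r in atTop, ∀ u u', S r u → S r u' → N r q u ≤ ENNReal.ofReal (ε ^ 2) →
        N r q u' ≤ ENNReal.ofReal (ε ^ 2) → u = u') ∧
      ∀ ε' > 0, ∀ᶠ r in atTop, ∃ u, S r u ∧ N r q u ≤ ENNReal.ofReal (ε' ^ 2))
    (h2 : ∀ q ∈ P, ∀ q' ∈ P, q ≠ q' → ∃ ε > 0, ∀ᶠ r in atTop, ∀ u, S r u →
      N r q u ≤ ENNReal.ofReal (ε ^ 2) → ¬N r q' u ≤ ENNReal.ofReal (ε ^ 2))
    (hS : ∀ r u, S' r u → S r u)
    (h3 : ∀ ε > 0, ∀ᶠ r in atTop, ∀ u, S' r u → ∃ q ∈ P, N r q u ≤ ENNReal.ofReal (ε ^ 2)) :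
    ∀ᶠ r in atTop, ∃ f : ι → κ, InjOn f P ∧ (∀ q ∈ P, S r (f q) ∧ G r q (f q)) ∧
      ∀ u, S' r u → ∃ q ∈ P, f q = u := by
  have m : ∀ {ε ε' : ℝ} {a : ℝ≥0∞}, 0 < ε' → ε' ≤ ε → a ≤ ENNReal.ofReal (ε' ^ 2) →
      a ≤ ENNReal.ofReal (ε ^ 2) := fun h0 h ha =>
    ha.trans (ENNReal.ofReal_le_ofReal (pow_le_pow_left₀ h0.le h 2))
  have k1 := small_NeckB P (fun q ε ε' h0 h H => ⟨H.1.mono fun r hr u hu e => hr u hu (m h0 h e),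
    H.2.1.mono fun r hr u u' hu hu' e e' => hr u u' hu hu' (m h0 h e) (m h0 h e'), H.2.2⟩) h1
  have k2 := small_NeckB (P ×ˢ P) (Q := fun q ε => q.1 ≠ q.2 → ∀ᶠ r in atTop, ∀ u, S r u →
      N r q.1 u ≤ ENNReal.ofReal (ε ^ 2) → ¬N r q.2 u ≤ ENNReal.ofReal (ε ^ 2))
    (fun q ε ε' h0 h H hn => (H hn).mono fun r hr u hu e e' => hr u hu (m h0 h e) (m h0 h e'))
    fun q hq => by
      by_cases hn : q.1 = q.2
      · exact ⟨1, one_pos, fun h => absurd hn h⟩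
      · obtain ⟨ε, h0, h⟩ := h2 _ (Finset.mem_product.1 hq).1 _ (Finset.mem_product.1 hq).2 hn
        exact ⟨ε, h0, fun _ => h⟩
  obtain ⟨ε, ⟨e1, e2⟩, h0⟩ := ((k1.and k2).and self_mem_nhdsWithin).exists
  filter_upwards [(eventually_all_finset P).2 fun q hq => (e1 q hq).1,
    (eventually_all_finset P).2 fun q hq => (e1 q hq).2.1,
    (eventually_all_finset P).2 fun q hq => (e1 q hq).2.2 ε h0,
    (eventually_all_finset (P ×ˢ P)).2 fun q hq => eventually_imp_distrib_left.2 (e2 q hq),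
    h3 ε h0] with r a1 a2 a3 a4 a5
  choose! f f1 f2 using a3
  refine ⟨f, fun q hq q' hq' e => by_contra fun hn => ?_,
    fun q hq => ⟨f1 q hq, a1 q hq _ (f1 q hq) (f2 q hq)⟩, fun u hu => ?_⟩
  · exact a4 (q, q') (Finset.mem_product.2 ⟨hq, hq'⟩) hn _ (f1 q hq) (f2 q hq) (e ▸ f2 q' hq')
  · obtain ⟨q, hq, e⟩ := a5 u hu
    exact ⟨q, hq, a2 q hq _ _ (f1 q hq) (hS r u hu) (f2 q hq) e⟩

omit [Sym V] in
theorem lo_NeckB {b b' : ℝ} (h : Lo J Y A b) (e : b' ≤ b) : Lo J Y A b' :=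
  fun x y u d h1 h2 h3 h4 h5 => h x y u d h1 h2 h3 h4 (h5.trans e)

theorem NData.count (ho : Coh Ω0 ⊥ o) (hη : Glu Ω0 ⊥ o η) (h : NData J X₁ X₂ R Y₀ Y Y₂ A₀ A A₂ c)
    (hx : Orb 1 Y₀ x) (hz : Orb 1 Y₂ z) (hg : A₀ x - A₂ z ≤ 0) :
    ∃ T : Finset (ℝ → V), (∀ y ∈ T, Orb 1 Y y) ∧
      (∀ y, Orb 1 Y y → y ∉ T → nT0 Ω0 ⊥ o 1 J X₁ x y * nT1 Ω0 ⊥ o 1 J X₂ y z = 0) ∧
      ∀ᶠ r in atTop, Good0 J (nk X₁ X₂ Y r r) x z ∧ nT1 Ω0 ⊥ o 1 J (nk X₁ X₂ Y r r) x z =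
        η 0 0 1 1 * ∑ y ∈ T, nT0 Ω0 ⊥ o 1 J X₁ x y * nT1 Ω0 ⊥ o 1 J X₂ y z := by
  classical
  have s₀ : SP Y₀ := h.e₀ ▸ Fam.sp_frz h.fld₁ 0 (-R)
  have s₁ : SP Y := h.e₁ ▸ Fam.sp_frz h.fld₁ 0 R
  have s₂ : SP Y₂ := h.e₂ ▸ Fam.sp_frz h.fld₂ 0 R
  have gx : GOrb Ω0 1 (frz X₁ (-R)) x := h.e₀ ▸ h.nd₀ x hx
  have gz : GOrb Ω0 1 (frz X₂ R) z := h.e₂ ▸ h.nd₂ z hz
  let S₁ : (ℝ → V) → Set (Pl → V) := fun y => {u | Nice J X₁ x y u ∧ Function.Bijective (Du J X₁ u)}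
  let S₂ : (ℝ → V) → Set (Pl → V) := fun y => {u | Nice J X₂ y z u ∧ Function.Bijective (Du J X₂ u)}
  have m₁ : ∀ y, Orb 1 Y y → SolT Ω0 ⊥ 1 J X₁ x y = S₁ y := fun y hy => Set.ext fun u =>
    mem_solT h.acs h.fld₁ gx (h.e₁ ▸ h.nd y hy) fun u => h.cyl₁ x y u hx hy
  have m₂ : ∀ y, Orb 1 Y y → SolT Ω0 ⊥ 1 J X₂ y z = S₂ y := fun y hy => Set.ext fun u =>
    mem_solT h.acs h.fld₂ (h.e₁' ▸ h.nd y hy) gz fun u => h.cyl₂ y z u hy hz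
  let T₀ : Set (ℝ → V) := {y | Orb 1 Y y ∧ (S₁ y).Nonempty ∧ (S₂ y).Nonempty}
  have gap : ∀ y ∈ T₀, A₀ x - A y ≤ c ∧ A y - A₂ z ≤ c := by
    rintro y ⟨hy, ⟨u, hu⟩, v, hv⟩
    have l1 := h.low₁ x y u hx hy hu.1
    have l2 := h.low₂ y z v hy hz hv.1
    constructor <;> linarith
  obtain ⟨B, hB⟩ := h.apb₁ x hx
  have fT : T₀.Finite := (NdB.finite s₁ (A := B) fun y hy _ => h.nd y hy).subset fun y hy => by
    obtain ⟨u, hu⟩ := hy.2.1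
    exact ⟨hy.1, (hu.1.pth.inB (Orb.contDiff s₀.1 hx) (Orb.contDiff s₁.1 hy.1) hx.2 hy.1.2
      fun p => (hB y u hy.1 hu.1 (gap y hy).1).1.le (mem_univ _)).2⟩
  have f₁ : ∀ y ∈ T₀, ∃ F : Finset (Pl → V), ∀ u, u ∈ F ↔ u ∈ S₁ y := fun y hy => by
    have g := (gap y hy).1
    exact ⟨_, fun u => (finite_bij h.acs h.fld₁ h.e₀ h.e₁ h.nd₀ h.nd hx hy.1 h.dec₀ h.dec h.low₁
      (lo_NeckB h.lo₀ (by linarith)) (lo_NeckB h.lo (by linarith))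
      (fun x' y' a b e => h.good₁ x' y' a b (e.trans g))
      fun u hu => hB y u hy.1 hu g).mem_toFinset⟩
  have f₂ : ∀ y ∈ T₀, ∃ F : Finset (Pl → V), ∀ u, u ∈ F ↔ u ∈ S₂ y := fun y hy => by
    have g := (gap y hy).2
    obtain ⟨B', hB'⟩ := h.apb₂ y hy.1
    exact ⟨_, fun u => (finite_bij h.acs h.fld₂ h.e₁' h.e₂ h.nd h.nd₂ hy.1 hz h.dec h.dec₂ h.low₂
      (lo_NeckB h.lo (by linarith)) (lo_NeckB h.lo₂ (by linarith))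
      (fun x' y' a b e => h.good₂ x' y' a b (e.trans g))
      fun u hu => hB' z u hz hu g).mem_toFinset⟩
  choose! F₁ hF₁ using f₁
  choose! F₂ hF₂ using f₂
  obtain ⟨T, hT⟩ : ∃ T : Finset (ℝ → V), ∀ y, y ∈ T ↔ y ∈ T₀ := ⟨_, fun _ => fT.mem_toFinset⟩
  refine ⟨T, fun y hy => ((hT y).1 hy).1, fun y hy hn => ?_, ?_⟩
  · rw [nT0, nT1, m₁ y hy, m₂ y hy]
    rcases (S₁ y).eq_empty_or_nonempty with e | e
    · rw [e, scnt_empty, zero_mul]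
    rcases (S₂ y).eq_empty_or_nonempty with e' | e'
    · rw [e', scnt_empty, mul_zero]
    exact absurd ((hT y).2 ⟨hy, e, e'⟩) hn
  let P : Finset (Σ _ : ℝ → V, (Pl → V) × (Pl → V)) := T.sigma fun y => F₁ y ×ˢ F₂ y
  have hP : ∀ q, q ∈ P ↔ Orb 1 Y q.1 ∧ q.2.1 ∈ S₁ q.1 ∧ q.2.2 ∈ S₂ q.1 := fun q => by
    rw [Finset.mem_sigma, Finset.mem_product, hT]
    exact ⟨fun e => ⟨e.1.1, (hF₁ _ e.1 _).1 e.2.1, (hF₂ _ e.1 _).1 e.2.2⟩, fun e =>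
      have e0 : q.1 ∈ T₀ := ⟨e.1, ⟨_, e.2.1⟩, _, e.2.2⟩
      ⟨e0, (hF₁ _ e0 _).2 e.2.1, (hF₂ _ e0 _).2 e.2.2⟩⟩
  have key := abs_NeckB P (fun r q u => nrm 2 (u - pre r r q.2.1 q.2.2 q.1) univ)
    (S := fun r u => Nice J (nk X₁ X₂ Y r r) x z u)
    (S' := fun r u => Nice J (nk X₁ X₂ Y r r) x z u ∧
      ∃ d, HasIdx (Du J (nk X₁ X₂ Y r r) u) d ∧ d ≤ 0)
    (G := fun r q u => Function.Bijective (Du J (nk X₁ X₂ Y r r) u) ∧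
      o 1 1 (lop 1 J (nk X₁ X₂ Y r r) x z u ![0] ![0] ![![1]]) =
        η 0 0 1 1 * o 0 0 (lop 1 J X₁ x q.1 q.2.1 ![] ![] ![]) *
          o 1 1 (lop 1 J X₂ q.1 z q.2.2 ![0] ![0] ![![1]]))
    (fun q hq => by
      obtain ⟨a, b, c⟩ := (hP q).1 hq
      obtain ⟨ε, h0, h1, h2⟩ := neck_glue ho hη h.acs h.fld₁ h.fld₂ h.e₁ h.e₁' gx (h.nd _ a) gz
        b.1 c.1 b.2 c.2
      exact ⟨ε, h0, h1.mono fun r hr u hu => hr u hu.pth, h2⟩)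
    (fun q hq q' hq' hn => by
      obtain ⟨a, b, c⟩ := (hP q).1 hq
      obtain ⟨a', b', c'⟩ := (hP q').1 hq'
      obtain ⟨ε, h0, h1⟩ := neck_sep b.1.pth c.1.pth b'.1.pth c'.1.pth (Orb.contDiff s₀.1 hx)
        (Orb.contDiff s₁.1 a) (Orb.contDiff s₁.1 a') (Orb.contDiff s₂.1 hz) hx.2 a.2 a'.2 hz.2
        fun e => hn (congrArg (fun p : (ℝ → V) × (Pl → V) × (Pl → V) =>
          (⟨p.1, p.2⟩ : Σ _ : ℝ → V, (Pl → V) × (Pl → V))) e)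
      exact ⟨ε, h0, h1.mono fun r hr u hu => hr u hu.bdd.1⟩)
    (fun _ _ hu => hu.1)
    (fun ε h0 => by
      by_contra hc
      obtain ⟨r, hr, h1⟩ := exists_seq_forall_of_frequently (not_eventually.1 hc)
      simp only [not_forall] at h1
      choose u h1 h2 using h1
      choose d h3 using fun n => (h1 n).2
      obtain ⟨φ, y, g₁, g₂, -, a, b, c, b', c', w⟩ := bl2 h hx hz hg hr fun n => ⟨(h1 n).1, h3 n⟩
      obtain ⟨n, hn⟩ := (w.eventually (eventually_le_nhds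
        (ENNReal.ofReal_pos.2 (pow_pos h0 2)))).exists
      exact h2 (φ n) ⟨⟨y, g₁, g₂⟩, (hP _).2 ⟨a, ⟨b, b'⟩, c, c'⟩, hn⟩)
  filter_upwards [key, h.cyl x z hx hz] with r ⟨f, i1, i2, i3⟩ hc
  obtain ⟨n1, n2, n3⟩ := fld_nk h.fld₁ h.fld₂ h.e₁ h.e₁' r r
  have ms := fun u => mem_solT (u := u) h.acs n1 (n2 ▸ gx) (n3 ▸ gz) hc
  refine ⟨fun u d hu hd h0 => ?_, ?_⟩
  · obtain ⟨q, hq, rfl⟩ := i3 u ⟨hu, d, hd, h0⟩
    exact (i2 q hq).2.1.2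
  have hb : BijOn f P (SolT Ω0 ⊥ 1 J (nk X₁ X₂ Y r r) x z) :=
    ⟨fun q hq => (ms _).2 ⟨(i2 q hq).1, (i2 q hq).2.1⟩, i1, fun u hu =>
      i3 u ⟨((ms u).1 hu).1, 0, hasIdx_zero_of_bijective ((ms u).1 hu).2, le_rfl⟩⟩
  rw [nT1, scnt_bijOn hb fun q hq => (i2 q hq).2.2, scnt_eq_sum P fun _ => Iff.rfl,
    Finset.sum_sigma, Finset.mul_sum]
  refine Finset.sum_congr rfl fun y hy => ?_
  have hy' := (hT y).1 hy
  rw [nT0, nT1, m₁ y hy'.1, m₂ y hy'.1, scnt_eq_sum _ (hF₁ y hy'), scnt_eq_sum _ (hF₂ y hy'),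
    Finset.sum_mul_sum, Finset.sum_product, Finset.mul_sum]
  refine Finset.sum_congr rfl fun g₁ _ => ?_
  rw [Finset.mul_sum]
  exact Finset.sum_congr rfl fun g₂ _ => by rw [Units.val_mul, Units.val_mul, mul_assoc]

end

end Pool.Agent.P.MP_de3acd_gt.FH
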