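import Pool.Agent.P.MP_de3acd_gt.FH.KerE
import Pool.Agent.P.MP_de3acd_gt.FH.NeckB

/-! The choice of the neck length.
Sketch: nData: fld_xF, fld_xB, cls_xF, cls_xB, Gau.fam, frz_pX, Gau.ndA, Dat.endA, CDat.endG, Dat.low, Dat.bnd (constant families), Dat.bdd; for the glued field pX_nk, th0_eq_nk (r ≥ 2), cls_th0, Dat.bnd_nk; Fld for th0 r from
fam_th0 with R = r at the parameter 1 (Fam.fld, smoothTransition.one). neck: for one lifted orbit q choose a chart; the q' in the same twisted class with gap ≤ 0 that carry a cylinder for some th0 r, r ≥ 2 (fin_y_nk, energy_le), or a nonzero term on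
the right (cyl_of_nT0, cyl_of_nT1, low_E, fin_y twice) form a finite set; for them use NData.count, Gau.coh, Gau.glu, nT0_eq, nT1_eq (with o₁ = c.po o), finsum_lk, Dat.eg1_iff, good1_const; for the others both sides vanish. Finitely many q suffice
(orb_fin, Fr.eg1_iff, gap_smul, exists_smul, lk_smul, nT0_smul, nT1_smul, finsum_comp_equiv). -/

open Set Filter Topology MeasureTheory
open scoped ContDiff NNReal ENNReal RealInnerProductSpace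

namespace Pool.Agent.P.MP_de3acd_gt.FH

noncomputable section

variable {Γ : Subgroup (Equiv.Perm E)} {B : ℝ → E →L[ℝ] E} {J : ℝ → E → E →L[ℝ] E}
  {H G K K' : ℝ → E → ℝ} {Y Y' Z : ℝ → E → E} {γ g : Equiv.Perm E} {x y w : ℝ → E} {u : Pl → E}
variable {X p p₁ p₂ : Pl → E → E} {Y₀ Y₁ : ℝ → E → E} {d R β₀ β₁ v η L b : ℝ}
  {o : ∀ a b, Op E a b → ℤˣ}

theorem CDat.xF_StN (h : CDat Γ J H G B d Y p₁ p₂ η b) :
    Fld (xF H G Y + p₁) 2 ∧ (∀ a, Ivf Γ ((xF H G Y + p₁) a)) ∧ frz (xF H G Y + p₁) (-2) = ham H ∧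
      frz (xF H G Y + p₁) 2 = ham G + Y :=
  fld_xF h.dat.fr h.dat.endH.1 h.dat.endG.1 h.clY.1.1 h.s₁.1

theorem CDat.xB_StN (h : CDat Γ J H G B d Y p₁ p₂ η b) :
    Fld (xB H G Y + p₂) 2 ∧ (∀ a, Ivf Γ ((xB H G Y + p₂) a)) ∧
      frz (xB H G Y + p₂) (-2) = ham G + Y ∧ frz (xB H G Y + p₂) 2 = ham H :=
  fld_xB h.dat.fr h.dat.endH.1 h.dat.endG.1 h.clY.1.1 h.s₂.1

theorem CDat.cls_StN (h : CDat Γ J H G B d Y p₁ p₂ η b) :
    Cls J H G Y (xF H G Y + p₁) 0 1 1 η 4 ∧ Cls J H G Y (xB H G Y + p₂) 1 0 1 η 4 ∧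
      ∀ r, Cls J H G Y (th0 H G Y p₁ p₂ r) 0 0 2 (4 * η) 8 :=
  ⟨cls_xF h.s₁.1.2.2 h.s₁.2, cls_xB h.s₂.1.2.2 h.s₂.2,
    cls_th0 h.dat.ij.1 h.s₁.1.2.2 h.s₂.1.2.2 h.s₁.2 h.s₂.2⟩

theorem CDat.ivf_StN (h : CDat Γ J H G B d Y p₁ p₂ η b) (r : ℝ) (a : Pl) :
    Ivf Γ (th0 H G Y p₁ p₂ r a) :=
  ivf_th0 h.dat.fr h.dat.endH.1 h.dat.endG.1 h.clY.1.1 h.s₁.1 h.s₂.1 r a

theorem CDat.fld_StN (h : CDat Γ J H G B d Y p₁ p₂ η b) {r : ℝ} (hr : 0 ≤ r) :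
    Fld (th0 H G Y p₁ p₂ r) (r + 2) ∧ frz (th0 H G Y p₁ p₂ r) (-(r + 2)) = ham H ∧
      frz (th0 H G Y p₁ p₂ r) (r + 2) = ham H := by
  obtain ⟨h1, h2⟩ := fam_th0 h.dat.endH.1.1 h.dat.endG.1.1 h.clY.1.1.1 h.s₁.1 h.s₂.1 hr
  have h3 := And.intro (h1.fld 1) (h2 1)
  simpa only [Real.smoothTransition.one, mul_one] using h3

theorem diff_StN (h : Fld X R) (p : Pl) : Differentiable ℝ (X p) := (smX_GauC (Fam.smX h) 0).1 p

theorem CDat.nData (h : CDat Γ J H G B d Y p₁ p₂ η b) (hγ : γ ∈ Γ) (c : Ch γ) :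
    NData (c.pJ J) (c.pX (xF H G Y + p₁)) (c.pX (xB H G Y + p₂)) 2 (c.pY (ham H)) (c.pY (ham G + Y))
      (c.pY (ham H)) (c.pA H) (c.pA G) (c.pA H) b := by
  have D := h.dat
  obtain ⟨f1, f2, f3, f4⟩ := h.xF_StN
  obtain ⟨b1, b2, b3, b4⟩ := h.xB_StN
  obtain ⟨c1, c2, c3⟩ := h.cls_StN
  have d0 := D.nonneg
  have η0 := h.pos
  have hb := h.le
  have l1 := D.low c h.clY c1 f1 hγ D.endH.1 h.endG.1.1 (b := b) (by linarith)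
  have l2 := D.low c h.clY c2 b1 hγ h.endG.1.1 D.endH.1 (b := b) (by linarith)
  rw [mix_zero, mix_one] at l1 l2
  have tH : ∀ {x}, Orb 1 (c.pY (ham H)) x → Tw γ (c.up x) := fun hx =>
    (c.tw_of_orb hγ D.endH.1 hx).2.2
  have tG : ∀ {x}, Orb 1 (c.pY (ham G + Y)) x → Tw γ (c.up x) := fun hx =>
    (c.tw_of_orb hγ h.endG.1.1 hx).2.2
  refine ⟨Gau.acs hγ D.ij, Gau.fam hγ f1 fun _ => f2, Gau.fam hγ b1 fun _ => b2,
    congrArg c.pY f3, congrArg c.pY f4, congrArg c.pY b3, congrArg c.pY b4, by linarith,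
    Gau.ndA hγ D.endH, Gau.ndA hγ h.endG.1, Gau.ndA hγ D.endH, D.decH c hγ, (h.endG.2 γ hγ c).1,
    D.decH c hγ, l1, l2, ((D.endA _).2 γ hγ c).2, (h.endG.2 γ hγ c).2, ((D.endA _).2 γ hγ c).2,
    h.good₁ γ hγ c, h.good₂ γ hγ c, fun x hx => ?_, fun x hx => ?_, fun x z hx hz => ?_,
    fun x y u _ _ hu => D.bdd c h.clY c1 f1 f2 hγ hu,
    fun x y u _ _ hu => D.bdd c h.clY c2 b1 b2 hγ hu, fun x z _ _ => ?_⟩
  · obtain ⟨A, hA⟩ := D.bnd c (X := fun _ : ℝ => xF H G Y + p₁) f1 (fun _ => f2) hγ (tH hx)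
      0 1 1 η 4 0 b
    rw [mix_zero, mix_one] at hA
    exact ⟨A, fun y u hy => hA 0 Y y u norm_zero.le h.clY c1 (tG hy)⟩
  · obtain ⟨A, hA⟩ := D.bnd c (X := fun _ : ℝ => xB H G Y + p₂) b1 (fun _ => b2) hγ (tG hx)
      1 0 1 η 4 0 b
    rw [mix_zero, mix_one] at hA
    exact ⟨A, fun y u hy => hA 0 Y y u norm_zero.le h.clY c2 (tH hy)⟩
  · obtain ⟨A, hA⟩ := D.bnd_nk c f1 b1 f4 b3 f2 b2 hγ (tH hx) 0 0 2 (4 * η) 8
      (c.pA (mix H G 0) x - c.pA (mix H G 0) z)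
    refine ⟨A, (eventually_ge_atTop 2).mono fun r hr u hu => ?_⟩
    have h1 := (h.fld_StN (r := r) (by linarith)).1
    have h2 := c3 r
    rw [th0_eq_nk H G Y p₁ p₂ hr] at h1 h2
    exact hA r r _ Y z u h.clY h1 h2 (tH hz) (by rwa [c.pX_nk]) le_rfl
  · refine (eventually_ge_atTop 2).mono fun r hr u hu => ?_
    rw [← c.pX_nk, ← th0_eq_nk H G Y p₁ p₂ hr] at hu
    exact D.bdd c h.clY (c3 r) (h.fld_StN (r := r) (by linarith)).1 (h.ivf_StN r) hγ hu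

theorem CDat.fld_th0 (h : CDat Γ J H G B d Y p₁ p₂ η b) {r : ℝ} (hr : 0 ≤ r) :
    Fld (th0 H G Y p₁ p₂ r) (r + 2) ∧ frz (th0 H G Y p₁ p₂ r) (-(r + 2)) = ham H ∧
      frz (th0 H G Y p₁ p₂ r) (r + 2) = ham H := h.fld_StN hr

theorem CDat.fin_StN (h : CDat Γ J H G B d Y p₁ p₂ η b) (hγ : γ ∈ Γ) (hx : Orb γ (ham H) x) :
    {z | Orb γ (ham H) z ∧ act γ H x - act γ H z ≤ 0 ∧
      ((∃ r ≥ 2, ∃ u, Cyl om γ J (th0 H G Y p₁ p₂ r) x z u) ∨ ∃ y, Orb γ (ham G + Y) y ∧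
        (∃ u, Cyl om γ J (xF H G Y + p₁) x y u) ∧
          ∃ u, Cyl om γ J (xB H G Y + p₂) y z u)}.Finite := by
  have D := h.dat
  obtain ⟨f1, f2, -, f4⟩ := h.xF_StN
  obtain ⟨b1, b2, b3, -⟩ := h.xB_StN
  obtain ⟨c1, c2, c3⟩ := h.cls_StN
  have d0 := D.nonneg
  have η0 := h.pos
  have hb := h.le
  have tx := Orb.tw D.endH.1.1 hx
  refine ((D.fin_y_nk f1 b1 f4 b3 f2 b2 D.endH hγ x (4 * b) 8).union
    ((D.fin_y (X := fun _ : ℝ => xF H G Y + p₁) f1 (fun _ => f2) h.endG.1 hγ x (4 * b) 4).biUnion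
      fun y _ => D.fin_y (X := fun _ : ℝ => xB H G Y + p₂) b1 (fun _ => b2) D.endH hγ y
        (4 * b) 4)).subset ?_
  rintro z ⟨hz, hg, ⟨r, hr, u, hu⟩ | ⟨y, hy, ⟨u, hu⟩, u', hu'⟩⟩
  · have e := D.energy_le h.clY (c3 r) (h.fld_StN (by linarith)).1 hγ tx (Orb.tw D.endH.1.1 hz) hu
    rw [mix_zero] at e
    have c4 := c3 r
    rw [th0_eq_nk H G Y p₁ p₂ hr] at hu c4
    exact Or.inl ⟨hz, r, r, Y, u, 0, 0, 2, 4 * η, h.clY, c4, hu, by linarith⟩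
  · have ty := Orb.tw h.endG.1.1.1 hy
    have tz := Orb.tw D.endH.1.1 hz
    have e1 := D.energy_le h.clY c1 f1 hγ tx ty hu
    have e2 := D.energy_le h.clY c2 b1 hγ ty tz hu'
    have l1 := D.low_E h.clY c1 f1 hγ tx ty hu
    have l2 := D.low_E h.clY c2 b1 hγ ty tz hu'
    rw [mix_zero, mix_one] at e1 e2 l1 l2
    have n0 : ‖(0 : ℝ)‖ ≤ 4 * b := by
      rw [norm_zero]
      linarith
    exact Or.inr (mem_biUnion (x := y) ⟨hy, 0, Y, u, 0, 1, 1, η, n0, h.clY, c1, hu, by linarith⟩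
      ⟨hz, 0, Y, u', 1, 0, 1, η, n0, h.clY, c2, hu', by linarith⟩)

theorem CDat.pair_StN (h : CDat Γ J H G B d Y p₁ p₂ η b) (ho : Coh om Γ o)
    {θ : ℕ → ℕ → ℕ → ℕ → ℤˣ} (hθ : Glu om Γ o θ) (q q' : LO Γ (ham H)) (e : q.1.1 = q'.1.1)
    (hg : la H q - la H q' ≤ 0) : ∀ᶠ r in atTop,
      EG1 om Γ q.1.1 J (fun _ => th0 H G Y p₁ p₂ r) q.1.2 q'.1.2 ∧
        lk (fun γ => nT1 om Γ o γ J (th0 H G Y p₁ p₂ r)) q q' = θ 0 0 1 1 *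
          ∑ᶠ y : LO Γ (ham G + Y), lk (fun γ => nT0 om Γ o γ J (xF H G Y + p₁)) q y *
            lk (fun γ => nT1 om Γ o γ J (xB H G Y + p₂)) y q' := by
  have D := h.dat
  obtain ⟨⟨γ, x⟩, hγ, hx⟩ := q
  obtain ⟨⟨γ', z⟩, hγ', hz⟩ := q'
  obtain rfl : γ = γ' := e
  obtain ⟨c⟩ := D.fr.chart (γ := γ) hγ
  obtain ⟨x, rfl⟩ := c.up_bijective.2 x
  obtain ⟨z, rfl⟩ := c.up_bijective.2 z
  have hx' := c.orb_iff.1 hx
  have hz' := c.orb_iff.1 hz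
  obtain ⟨T, h1, h2, h3⟩ := (h.nData hγ c).count (c.coh hγ ho) (c.glu hγ hθ) hx' hz' hg
  have n0 : ∀ {X R} x y, Fld X R → nT0 om Γ o γ J X (c.up x) (c.up y) =
      nT0 Ω0 ⊥ (c.po o) 1 (c.pJ J) (c.pX X) x y := fun _ _ hX =>
    c.nT0_eq (one_mem _) hγ D.ij.diff (fun _ _ _ _ _ => rfl) (diff_StN hX)
  have n1 : ∀ {X R} x y, Fld X R → nT1 om Γ o γ J X (c.up x) (c.up y) =
      nT1 Ω0 ⊥ (c.po o) 1 (c.pJ J) (c.pX X) x y := fun _ _ hX =>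
    c.nT1_eq (one_mem _) hγ D.ij.diff (fun _ _ _ _ _ => rfl) (diff_StN hX)
  filter_upwards [h3, eventually_ge_atTop 2] with r h4 hr
  have h5 := h.fld_StN (r := r) (by linarith)
  rw [← c.pX_nk, ← th0_eq_nk H G Y p₁ p₂ hr] at h4
  refine ⟨(D.eg1_iff c h.clY (X := fun _ => th0 H G Y p₁ p₂ r) h5.1 (fun _ => h.ivf_StN r)
    (fun _ => h.cls_StN.2.2 r) hγ (fun _ => h5.2) D.endH D.endH hx' hz').2
      ((good1_const _ _ _ _).2 h4.1), ?_⟩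
  rw [finsum_lk hγ c rfl rfl T h1 fun y hy hy' => by
    rw [← h2 y hy hy', ← n0 _ _ h.xF_StN.1, ← n1 _ _ h.xB_StN.1]]
  simp only [n0 _ _ h.xF_StN.1, n1 _ _ h.xB_StN.1, ← h4.2, lk, if_true, n1 _ _ h5.1]

theorem CDat.neck_one (h : CDat Γ J H G B d Y p₁ p₂ η b) (ho : Coh om Γ o) {θ : ℕ → ℕ → ℕ → ℕ → ℤˣ}
    (hθ : Glu om Γ o θ) (q : LO Γ (ham H)) : ∀ᶠ r in atTop, ∀ q' : LO Γ (ham H),
      la H q - la H q' ≤ 0 →
        (q.1.1 = q'.1.1 → EG1 om Γ q.1.1 J (fun _ => th0 H G Y p₁ p₂ r) q.1.2 q'.1.2) ∧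
        lk (fun γ => nT1 om Γ o γ J (th0 H G Y p₁ p₂ r)) q q' = θ 0 0 1 1 *
          ∑ᶠ y : LO Γ (ham G + Y), lk (fun γ => nT0 om Γ o γ J (xF H G Y + p₁)) q y *
            lk (fun γ => nT1 om Γ o γ J (xB H G Y + p₂)) y q' := by
  have fin := (h.fin_StN q.2.1 q.2.2).preimage
    (f := fun q' : {q' : LO Γ (ham H) // q.1.1 = q'.1.1} => q'.1.1.2) fun a _ a' _ e =>
      Subtype.ext (Subtype.ext (Prod.ext (a.2.symm.trans a'.2) e))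
  filter_upwards [(eventually_all_finite fin).2 fun a ha => h.pair_StN ho hθ q a.1 a.2
    (by simpa only [la, ← a.2] using ha.2.1), eventually_ge_atTop 2] with r h1 hr q' hg
  by_cases e : q.1.1 = q'.1.1
  swap
  · exact ⟨fun e' => absurd e' e, by rw [finsum_lk_ne e, lk, if_neg e, mul_zero]⟩
  by_cases k : (∃ r ≥ 2, ∃ u, Cyl om q.1.1 J (th0 H G Y p₁ p₂ r) q.1.2 q'.1.2 u) ∨
      ∃ y, Orb q.1.1 (ham G + Y) y ∧ (∃ u, Cyl om q.1.1 J (xF H G Y + p₁) q.1.2 y u) ∧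
        ∃ u, Cyl om q.1.1 J (xB H G Y + p₂) y q'.1.2 u
  · have h2 := h1 ⟨q', e⟩ ⟨(congrArg (Orb · (ham H) q'.1.2) e).mpr q'.2.2,
      by simpa only [la, ← e] using hg, k⟩
    exact ⟨fun _ => h2.1, h2.2⟩
  · rw [not_or] at k
    refine ⟨fun _ _ u _ hu => absurd ⟨r, hr, u, hu⟩ k.1, ?_⟩
    rw [finsum_eq_zero_of_forall_eq_zero fun y => ?_, mul_zero, lk, if_pos e]
    · by_contra k'
      exact k.1 ⟨r, hr, cyl_of_nT1 k'⟩
    · by_contra k'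
      obtain ⟨k1, k2⟩ := mul_ne_zero_iff.1 k'
      have e' : q.1.1 = y.1.1 := by
        by_contra e'
        exact k1 (if_neg e')
      rw [lk, if_pos e'] at k1
      rw [lk, if_pos (e'.symm.trans e), ← e'] at k2
      exact k.2 ⟨y.1.2, e' ▸ y.2.2, cyl_of_nT0 k1, cyl_of_nT1 k2⟩

theorem CDat.neck (h : CDat Γ J H G B d Y p₁ p₂ η b) (ho : Coh om Γ o) {θ : ℕ → ℕ → ℕ → ℕ → ℤˣ}
    (hθ : Glu om Γ o θ) : ∃ r, 2 ≤ r ∧ (∀ γ ∈ Γ, ∀ x y, Orb γ (ham H) x → Orb γ (ham H) y →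
      act γ H x - act γ H y ≤ 0 → EG1 om Γ γ J (fun _ => th0 H G Y p₁ p₂ r) x y) ∧
      ∀ q q' : LO Γ (ham H), la H q - la H q' ≤ 0 →
        lk (fun γ => nT1 om Γ o γ J (th0 H G Y p₁ p₂ r)) q q' = θ 0 0 1 1 *
          ∑ᶠ y : LO Γ (ham G + Y), lk (fun γ => nT0 om Γ o γ J (xF H G Y + p₁)) q y *
            lk (fun γ => nT1 om Γ o γ J (xB H G Y + p₂)) y q' := by
  have D := h.dat
  obtain ⟨T, hT, hm, hall⟩ := D.fr.orb_fin D.endH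
  have fin : (Subtype.val ⁻¹' T : Set (LO Γ (ham H))).Finite :=
    hT.preimage Subtype.val_injective.injOn
  obtain ⟨r, hr, h1⟩ := ((eventually_ge_atTop 2).and
    ((eventually_all_finite fin).2 fun q _ => h.neck_one ho hθ q)).exists
  have h5 := (h.fld_StN (r := r) (by linarith)).1
  have key : ∀ q q' : LO Γ (ham H), la H q - la H q' ≤ 0 →
      (q.1.1 = q'.1.1 → EG1 om Γ q.1.1 J (fun _ => th0 H G Y p₁ p₂ r) q.1.2 q'.1.2) ∧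
        lk (fun γ => nT1 om Γ o γ J (th0 H G Y p₁ p₂ r)) q q' = θ 0 0 1 1 *
          ∑ᶠ y : LO Γ (ham G + Y), lk (fun γ => nT0 om Γ o γ J (xF H G Y + p₁)) q y *
            lk (fun γ => nT1 om Γ o γ J (xB H G Y + p₂)) y q' := fun q q' hg => by
    by_cases e : q.1.1 = q'.1.1
    swap
    · exact ⟨fun e' => absurd e' e, by rw [finsum_lk_ne e, lk, if_neg e, mul_zero]⟩
    obtain ⟨τ, hτ, g, hg', e1, e2⟩ := hall _ q.2.1 _ q.2.2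
    obtain ⟨s₀, t₀⟩ := D.fr.exists_smul D.endH.1 hg'
    obtain ⟨s₁, t₁⟩ := D.fr.exists_smul h.endG.1.1 hg'
    obtain ⟨q', rfl⟩ := s₀.surjective q'
    have e3 : q.1 = (g * τ.1 * g⁻¹, g ∘ τ.2) := Prod.ext e1 e2
    have e4 : τ.1 = q'.1.1 := by
      rw [e1, t₀] at e
      simpa using e
    have e5 := D.fr.gap_smul hg' (hm τ hτ).1 (Reg.ih D.reg) (Reg.ih D.reg)
      (Orb.tw D.endH.1.1 (hm τ hτ).2) (Orb.tw (x := q'.1.2) D.endH.1.1 (by rw [e4]; exact q'.2.2))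
    obtain ⟨h2, h3⟩ := h1 ⟨τ, hm τ hτ⟩ hτ q' (by
      simp only [la, e3, t₀, ← e4] at hg ⊢
      linarith)
    refine ⟨fun _ => ?_, ?_⟩
    · rw [e3, t₀]
      exact (D.fr.eg1_iff hg' (hm τ hτ).1 D.ij (Fam.smX h5) fun _ => h.ivf_StN r).2 (h2 e4)
    · refine ((lk_smul (n := fun γ => nT1 om Γ o γ J (th0 H G Y p₁ p₂ r)) (q₀ := ⟨τ, hm τ hτ⟩) hg'
        (fun g hg γ hγ x y => D.fr.nT1_smul hg hγ D.ij ho (diff_StN h5) (h.ivf_StN r)) e3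
          (t₀ q')).trans h3).trans (congrArg _ (Eq.trans (finsum_congr fun y => Eq.symm ?_)
            (finsum_comp_equiv s₁)))
      exact congrArg₂ _ (lk_smul (n := fun γ => nT0 om Γ o γ J (xF H G Y + p₁))
        (q₀ := ⟨τ, hm τ hτ⟩) hg' (fun g hg γ hγ x y => D.fr.nT0_smul hg hγ D.ij ho
          (diff_StN h.xF_StN.1) h.xF_StN.2.1) e3 (t₁ y))
        (lk_smul (n := fun γ => nT1 om Γ o γ J (xB H G Y + p₂)) hg'
          (fun g hg γ hγ x y => D.fr.nT1_smul hg hγ D.ij ho (diff_StN h.xB_StN.1) h.xB_StN.2.1)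
            (t₁ y) (t₀ q'))
  exact ⟨r, hr, fun γ hγ x y hx hy hg => (key ⟨(γ, x), hγ, hx⟩ ⟨(γ, y), hγ, hy⟩ hg).1 rfl,
    fun q q' hg => (key q q' hg).2⟩

end

end Pool.Agent.P.MP_de3acd_gt.FH
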