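import Pool.Agent.P.MP_de3acd_gt.FH.StC
import Pool.Agent.P.MP_de3acd_gt.FH.StN
import Pool.Agent.P.MP_de3acd_gt.FH.StH
import Pool.Agent.P.MP_de3acd_gt.FH.Alg1
import Pool.Agent.P.MP_de3acd_gt.FH.Alg2
import Pool.Agent.P.MP_de3acd_gt.FH.Alg3
import Pool.Agent.P.MP_de3acd_gt.FH.Hom3

/-! The number of long bars is at most the number of orbits of a nearby Hamiltonian.
Sketch: hom_E: choose a chart for every γ ∈ Γ; HData.count with Gau.coh, Gau.glu; nT1_eq, nN_eq, nK_eq (o₁ = c.po o), finsum_lk, finsum_lk_ne, up_dn, orb_iff. bridge: b = ε / 2, η = (ε - 4 d) / 80; exists_cdat, Coh.exists_glu, neck, homotopy, hom_E;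
exists_pi for ham H and for ham G + Y (ClY.orb_iff); Dat.ker four times (constant families; cyl_of_nT0 and so on; for nK project r to Icc 0 1); alg1, bd_coeff, alg2 with M = bd; Finite.fintype from gens_finite, ncard = Fintype.card
(Set.ncard_eq_toFinset_card', Nat.card_coe_set_eq). -/

open Set Filter Topology MeasureTheory
open scoped ContDiff NNReal ENNReal RealInnerProductSpace

namespace Pool.Agent.P.MP_de3acd_gt.FH

noncomputable section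

variable {Γ : Subgroup (Equiv.Perm E)} {B : ℝ → E →L[ℝ] E} {J : ℝ → E → E →L[ℝ] E}
  {H G K K' : ℝ → E → ℝ} {Y Y' Z : ℝ → E → E} {γ g : Equiv.Perm E} {x y w : ℝ → E} {u : Pl → E}
variable {X p p₁ p₂ : Pl → E → E} {Y₀ Y₁ : ℝ → E → E} {d R β₀ β₁ v η L b : ℝ}
  {o : ∀ a b, Op E a b → ℤˣ}

open Classical in
theorem Dat.hom_E (D : Dat Γ B J H G d) (ho : Coh om Γ o) {θ : ℕ → ℕ → ℕ → ℕ → ℤˣ} (hθ : Glu om Γ o θ)
    {X : ℝ → Pl → E → E} (hX : SmX X) (h : ∀ γ ∈ Γ, ∀ c : Ch γ,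
      HData (c.pJ J) (fun r => c.pX (X r)) R (c.pY (ham H)) (c.pA H) b) :
    ∃ s : LO Γ (ham H) → ℤˣ, ∀ q q' : LO Γ (ham H), la H q - la H q' ≤ 0 →
      lk (fun γ => nT1 om Γ o γ J (X 1)) q q' = (if q = q' then (s q : ℤ) else 0) -
        θ 0 1 1 0 * ∑ᶠ y : LO Γ (ham H), lk (fun γ => nN om Γ o γ J (ham H)) q y *
          lk (fun γ => nK om Γ o γ J X) y q' +
        θ 1 0 0 1 * ∑ᶠ y : LO Γ (ham H), lk (fun γ => nK om Γ o γ J X) q y *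
          lk (fun γ => nN om Γ o γ J (ham H)) y q' := by
  have ch : ∀ γ ∈ Γ, Ch γ := fun γ hγ => (D.fr.chart hγ).some
  refine ⟨fun q => (ch _ q.2.1).po o 1 1 (lop 1 ((ch _ q.2.1).pJ J) (sta ((ch _ q.2.1).pY (ham H)))
    ((ch _ q.2.1).dn q.1.2) ((ch _ q.2.1).dn q.1.2) (lp ((ch _ q.2.1).dn q.1.2)) ![0] ![0] ![![1]]),
    fun q q' hg => ?_⟩
  by_cases e : q.1.1 = q'.1.1
  swap
  · rw [finsum_lk_ne e, finsum_lk_ne e, lk, if_neg e, if_neg fun k => e (by rw [k])]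
    simp
  obtain ⟨⟨γ, x⟩, hγ, hx⟩ := q
  obtain ⟨⟨γ', z⟩, hγ', hz⟩ := q'
  obtain rfl : γ = γ' := e
  beta_reduce
  generalize ch γ hγ = c
  obtain ⟨x, rfl⟩ := c.up_bijective.2 x
  obtain ⟨z, rfl⟩ := c.up_bijective.2 z
  obtain ⟨T, hT, h0, e⟩ := (h γ hγ c).count (c.coh hγ ho) (c.glu hγ hθ) (c.orb_iff.1 hx)
    (c.orb_iff.1 hz) hg
  have eN := fun x y => c.nN_eq (x := x) (y := y) (o₁ := c.po o) (Γ₁ := ⊥) (one_mem _) hγ D.ij.diff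
    (fun _ _ _ _ _ => rfl) D.endH.1.diff
  have eK := fun x y => c.nK_eq (x := x) (y := y) (o₁ := c.po o) (Γ₁ := ⊥) (one_mem _) hγ D.ij.diff
    (fun _ _ _ _ _ => rfl) hX
  have eT := c.nT1_eq (x := x) (y := z) (o₁ := c.po o) (Γ₁ := ⊥) (one_mem _) hγ D.ij.diff
    (fun _ _ _ _ _ => rfl) (smX_GauC hX 1).1
  rw [finsum_lk hγ c rfl rfl T hT fun y hy hy' => by rw [eN, eK]; exact (h0 y hy hy').1,
    finsum_lk hγ c rfl rfl T hT fun y hy hy' => by rw [eN, eK]; exact (h0 y hy hy').2,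
    lk, if_pos rfl]
  simp only [eN, eK, eT, c.dn_up]
  rw [e]
  by_cases k : x = z
  · subst k
    rw [if_pos rfl, if_pos rfl]
  · rw [if_neg k, if_neg fun k' => k (c.up_bijective.1 (congrArg (fun q : LO Γ (ham H) => q.1.2) k'))]

theorem Dat.bridge (D : Dat Γ B J H G d) (ho : Coh om Γ o) {ε : ℝ≥0} (hε : 4 * d < ε) (𝔽 : Type)
    [Field 𝔽] : bars (bd 𝔽 Γ o H J) ε ≤ (gens Γ G).ncard := by
  classical
  have hd := D.nonneg
  obtain ⟨Y, p₁, p₂, h⟩ := D.exists_cdat (η := (ε - 4 * d) / 80) (b := ε / 2) (by linarith)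
    (by linarith)
  obtain ⟨θ, hθ⟩ := Coh.exists_glu ho
  obtain ⟨R, hR, hN, e₁⟩ := h.neck ho hθ
  obtain ⟨X, L, x1, hX, inv, hc, x0, x1', hD⟩ := h.homotopy hR hN
  obtain ⟨s, e₂⟩ := D.hom_E ho hθ hX.smX hD
  obtain ⟨π, σ, hπ, hσ⟩ := exists_pi (Γ := Γ) (Y := ham H) (K := H) fun _ _ _ => Iff.rfl
  obtain ⟨π', σ', hπ', hσ'⟩ := exists_pi (Γ := Γ) (Y := ham G + Y) (K := G) fun _ hγ _ =>
    h.clY.orb_iff D.fr D.ij D.endG.1 hγ
  have a₁ : ∀ q q', π q = π q' → pr Γ ∘ q.1.2 = pr Γ ∘ q'.1.2 := fun q q' k => by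
    rw [← hπ, ← hπ, k]
  have a₂ : ∀ q q', pr Γ ∘ q.1.2 = pr Γ ∘ q'.1.2 → π q = π q' := fun q q' k =>
    Subtype.ext (by rw [hπ, hπ, k])
  have b₁ : ∀ q q', π' q = π' q' → pr Γ ∘ q.1.2 = pr Γ ∘ q'.1.2 := fun q q' k => by
    rw [← hπ', ← hπ', k]
  have b₂ : ∀ q q', pr Γ ∘ q.1.2 = pr Γ ∘ q'.1.2 → π' q = π' q' := fun q q' k =>
    Subtype.ext (by rw [hπ', hπ', k])
  obtain ⟨f₁, i₁, -⟩ := fld_xF D.fr D.endH.1 D.endG.1 h.clY.1.1 h.s₁.1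
  obtain ⟨f₂, i₂, -⟩ := fld_xB D.fr D.endH.1 D.endG.1 h.clY.1.1 h.s₂.1
  have z01 : (0 : ℝ) ∈ Icc (0 : ℝ) 1 := ⟨le_rfl, zero_le_one⟩
  have hφ := D.ker h.clY f₁ (fun _ => i₁) (fun _ => cls_xF h.s₁.1.2.2 h.s₁.2) D.endH h.endG.1
    (w := ε / 2) (by linarith) (mix_zero H G).symm (mix_one H G).symm
    (n := fun γ => nT0 om Γ o γ J (xF H G Y + p₁))
    (fun g hg γ hγ x y => D.fr.nT0_smul hg hγ D.ij ho (smX_GauC (Fam.smX f₁) 0).1 i₁)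
    (fun γ x y k => ⟨0, z01, cyl_of_nT0 k⟩) hσ a₁ b₂ ε
  have hψ := D.ker h.clY f₂ (fun _ => i₂) (fun _ => cls_xB h.s₂.1.2.2 h.s₂.2) h.endG.1 D.endH
    (w := ε / 2) (by linarith) (mix_one H G).symm (mix_zero H G).symm
    (n := fun γ => nT1 om Γ o γ J (xB H G Y + p₂))
    (fun g hg γ hγ x y => D.fr.nT1_smul hg hγ D.ij ho (smX_GauC (Fam.smX f₂) 0).1 i₂)
    (fun γ x y k => ⟨0, z01, cyl_of_nT1 k⟩) hσ' b₁ a₂ ε
  have hδ := D.ker h.clY (fld_sta D.endH.1.1 le_rfl) (fun _ q => D.endH.1.2 q.2)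
    (fun _ => cls_H J H G Y) D.endH D.endH (w := 0) (by linarith) (mix_zero H G).symm
    (mix_zero H G).symm (n := fun γ => nN om Γ o γ J (ham H))
    (fun g hg γ hγ x y => D.fr.nN_smul hg hγ D.ij ho D.endH.1)
    (fun γ x y k => ⟨0, z01, cyl_of_nN k⟩) hσ a₁ a₂ ε
  have hk := D.ker h.clY hX inv hc D.endH D.endH (w := ε) (by linarith) (mix_zero H G).symm
    (mix_zero H G).symm (n := fun γ => nK om Γ o γ J X)
    (fun g hg γ hγ x y => D.fr.nK_smul hg hγ D.ij ho hX.smX inv)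
    (fun γ x y k => by
      obtain ⟨r, u, hu⟩ := cyl_of_nK k
      rcases le_total r 0 with k₀ | k₀
      · exact ⟨0, z01, u, x0 r k₀ ▸ hu⟩
      rcases le_total r 1 with k₁ | k₁
      · exact ⟨r, ⟨k₀, k₁⟩, u, hu⟩
      · exact ⟨1, ⟨zero_le_one, le_rfl⟩, u, x1' r k₁ ▸ hu⟩) hσ a₁ a₂ ε
  have := (D.fr.gens_finite D.endH).fintype
  have := (D.fr.gens_finite D.endG).fintype
  obtain ⟨A, B', K, K', u, hu, e⟩ := alg1 (𝔽 := 𝔽) hσ hφ hψ hδ hk s (θ 0 0 1 1) (θ 0 1 1 0)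
    (θ 1 0 0 1) (fun q q' k => by rw [← e₁ q q' k, ← x1]; exact e₂ q q' k)
    (M := bd 𝔽 Γ o H J) fun c c' e _ => D.bd_coeff ho hπ hσ 𝔽 c c' e
  have := @alg2 𝔽 _ _ _ _ _ (fun a b => Classical.propDecidable (a = b)) ε (bd 𝔽 Γ o H J) A B' K K' u
    hu e
  rw [bars, ← Nat.card_coe_set_eq, Nat.card_eq_fintype_card,
    Nat.card_eq_fintype_card]
  exact this

end

end Pool.Agent.P.MP_de3acd_gt.FH
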