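import Pool.Agent.P.MP_de3acd_gt.FH.FrA
import Pool.Agent.P.MP_de3acd_gt.FH.Cut

/-! Bump functions.
Sketch: a periodic bump in t: a t = χ (cos (2 π (t - t₀))) with χ = smoothTransition ((· - cos (2 π δ')) ) or a ContDiffBump composed with t ↦ (cos, sin); or simply
a t = expNegInvGlue (cos (2 π (t - t₀)) - cos (2 π δ')) with δ' = min δ (1 / 4). The invariant bump is ∑ᶠ g : Γ, ψ (g z) with ψ a ContDiffBump at z₀; on each ball only the finitely many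
g of Fr.fin contribute (finsum_eq_sum_of_support_subset, ContDiff via contDiffAt and EventuallyEq); invariance by finsum_comp_equiv (Equiv.mulRight).
integral_St_pos: setIntegral_pos_iff_support_of_nonneg_ae, or integral_pos_of_integrable_nonneg_nonzero style lemmas on a small box. -/

open Set Filter Topology MeasureTheory
open scoped ContDiff NNReal ENNReal RealInnerProductSpace

namespace Pool.Agent.P.MP_de3acd_gt.FH

noncomputable section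

variable {Γ : Subgroup (Equiv.Perm E)} {B : ℝ → E →L[ℝ] E} {J : ℝ → E → E →L[ℝ] E}
  {H G K K' : ℝ → E → ℝ} {Y Y' Z : ℝ → E → E} {γ g : Equiv.Perm E} {x y w : ℝ → E} {u : Pl → E}

theorem exists_bump_time (t₀ : ℝ) {δ : ℝ} (hδ : 0 < δ) : ∃ a : ℝ → ℝ, ContDiff ℝ ∞ a ∧
    (∀ t, a (t + 1) = a t) ∧ (∀ t, 0 ≤ a t) ∧ 0 < a t₀ ∧ ∀ t, a t ≠ 0 → ∃ k : ℤ, |t - t₀ - k| < δ := by
  obtain ⟨d, h0, h1, h2⟩ : ∃ d : ℝ, 0 < d ∧ d ≤ δ ∧ d ≤ 1 / 2 :=
    ⟨min δ (1 / 2), lt_min hδ one_half_pos, min_le_left _ _, min_le_right _ _⟩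
  have hπ := Real.pi_pos
  refine ⟨fun t => expNegInvGlue (Real.cos (2 * Real.pi * (t - t₀)) - Real.cos (2 * Real.pi * d)),
    expNegInvGlue.contDiff.comp (by fun_prop), fun t => ?_, fun t => expNegInvGlue.nonneg _,
    expNegInvGlue.pos_of_pos (sub_pos.2 ?_), fun t ht => ⟨round (t - t₀), lt_of_lt_of_le ?_ h1⟩⟩
  · beta_reduce
    rw [show 2 * Real.pi * (t + 1 - t₀) = 2 * Real.pi * (t - t₀) + 2 * Real.pi by ring,
      Real.cos_add_two_pi]
  · rw [sub_self, mul_zero]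
    exact Real.cos_lt_cos_of_nonneg_of_le_pi le_rfl (by nlinarith only [hπ, h2]) (by positivity)
  · refine lt_of_not_ge fun c => ht (expNegInvGlue.zero_of_nonpos (sub_nonpos.2 ?_))
    have h3 := abs_sub_round (t - t₀)
    rw [← Real.cos_sub_int_mul_two_pi _ (round (t - t₀)), ← Real.cos_abs,
      show 2 * Real.pi * (t - t₀) - round (t - t₀) * (2 * Real.pi) =
        2 * Real.pi * (t - t₀ - round (t - t₀)) by ring, abs_mul, abs_of_pos Real.two_pi_pos]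
    exact Real.cos_le_cos_of_nonneg_of_le_pi (by positivity) (by nlinarith only [hπ, h3])
      (mul_le_mul_of_nonneg_left c Real.two_pi_pos.le)

theorem exists_bump_cyl (p₀ : Pl) {δ : ℝ} (hδ : 0 < δ) : ∃ b ∈ Dsub ℝ, (∀ p, 0 ≤ b p) ∧ 0 < b p₀ ∧
    ∀ p, b p ≠ 0 → |p.1 - p₀.1| < δ ∧ ∃ k : ℤ, |p.2 - p₀.2 - k| < δ := by
  obtain ⟨a, h1, h2, h3, h4, h5⟩ := exists_bump_time p₀.2 hδ
  refine ⟨fun p => a p.2 * plat p₀.1 p₀.1 δ p, bil_mem (f := fun p : Pl => a p.2)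
    (h1.comp contDiff_snd) (fun _ t => h2 t) (plat_mem_Dsub _ _ hδ) (ContinuousLinearMap.mul ℝ ℝ),
    fun p => mul_nonneg (h3 _) (plat_mem _ _ _ p).1, ?_,
    fun p hp => ⟨?_, h5 _ (left_ne_zero_of_mul hp)⟩⟩
  · beta_reduce
    rwa [plat_eq_one hδ ⟨le_rfl, le_rfl⟩, mul_one]
  · have h6 : p.1 ∈ Ioo (p₀.1 - δ) (p₀.1 + δ) :=
      of_not_not fun c => right_ne_zero_of_mul hp (plat_eq_zero hδ c)
    exact abs_lt.2 ⟨by linarith only [h6.1], by linarith only [h6.2]⟩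

theorem Fr.bump (h : Fr Γ B) (z₀ : E) (t₀ : ℝ) {δ : ℝ} (hδ : 0 < δ) : ∃ φ : ℝ → E → ℝ, IH Γ φ ∧
    (∀ t z, 0 ≤ φ t z) ∧ 0 < φ t₀ z₀ ∧ ∀ t z, φ t z ≠ 0 →
      (∃ k : ℤ, |t - t₀ - k| < δ) ∧ ∃ g ∈ Γ, ‖g z - z₀‖ < δ := by
  obtain ⟨a, h1, h2, h3, h4, h5⟩ := exists_bump_time t₀ hδ
  let ψ : ContDiffBump z₀ := ⟨δ / 2, δ, half_pos hδ, half_lt_self hδ⟩
  have hψ : ∀ z, ψ z ≠ 0 → ‖z - z₀‖ < δ := fun z hz => by
    have : z ∈ Function.support ψ := hz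
    rwa [ψ.support_eq, mem_ball_iff_norm] at this
  have lf : LocallyFinite fun g : Γ => Function.support fun z => ψ (g.1 z) := fun z => by
    refine ⟨Metric.ball z 1, Metric.ball_mem_nhds z one_pos,
      ((h.fin (max (‖z‖ + 1) (‖z₀‖ + δ))).preimage Subtype.val_injective.injOn).subset ?_⟩
    rintro g ⟨z', e1, e2⟩
    exact ⟨g.2, z', le_max_of_le_left (norm_lt_of_mem_ball e2).le,
      le_max_of_le_right (norm_lt_of_mem_ball (mem_ball_iff_norm.2 (hψ _ e1))).le⟩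
  have sm : ContDiff ℝ ∞ fun z => ∑ᶠ g : Γ, ψ (g.1 z) :=
    (contMDiff_finsum (fun g : Γ => (ψ.contDiff.comp (h.contDiff g.2)).contMDiff) lf).contDiff
  refine ⟨fun t z => a t * ∑ᶠ g : Γ, ψ (g.1 z), ⟨⟨(h1.comp contDiff_fst).mul (sm.comp contDiff_snd),
    fun t => by simp only [h2 t]⟩, fun g hg t z => ?_⟩,
    fun t z => mul_nonneg (h3 t) (finsum_nonneg fun _ => ψ.nonneg), mul_pos h4 ?_,
    fun t z e => ⟨h5 t (left_ne_zero_of_mul e), ?_⟩⟩
  · exact congrArg (a t * ·) (finsum_comp_equiv (Equiv.mulRight (⟨g, hg⟩ : Γ))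
      (f := fun k : Γ => ψ (k.1 z)))
  · refine lt_of_lt_of_le ?_ (single_le_finsum (1 : Γ) (lf.point_finite z₀) fun _ => ψ.nonneg)
    exact ψ.pos_of_mem_ball (Metric.mem_ball_self hδ)
  · by_contra c
    refine right_ne_zero_of_mul e (finsum_eq_zero_of_forall_eq_zero fun g => ?_)
    exact of_not_not fun c' => c ⟨g.1, g.2, hψ _ c'⟩

theorem integral_St_pos {f : Pl → ℝ} (hf : Continuous f) {R : ℝ} (h : ∀ p ∈ St, R ≤ |p.1| → f p = 0)
    (h0 : ∀ p ∈ St, 0 ≤ f p) {p₀ : Pl} (hp : p₀.2 ∈ Ioo (0 : ℝ) 1) (e : 0 < f p₀) :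
    0 < ∫ p in St, f p := by
  have hm : MeasurableSet St := MeasurableSet.univ.prod measurableSet_Icc
  have hi : IntegrableOn f St :=
    (hf.continuousOn.integrableOn_compact
      ((isCompact_Icc (a := -R) (b := R)).prod (isCompact_Icc (a := (0 : ℝ)) (b := 1)))).of_forall_sdiff_eq_zero
      hm fun p hp => h p hp.1 (le_of_not_gt fun c =>
        hp.2 ⟨⟨(abs_lt.1 c).1.le, (abs_lt.1 c).2.le⟩, hp.1.2⟩)
  refine (setIntegral_pos_iff_support_of_nonneg_ae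
    ((ae_restrict_iff' hm).2 (Eventually.of_forall h0)) hi).2 ?_
  have ho : IsOpen (Function.support f ∩ univ ×ˢ Ioo (0 : ℝ) 1) :=
    hf.isOpen_support.inter (isOpen_univ.prod isOpen_Ioo)
  exact (ho.measure_pos volume ⟨p₀, e.ne', mem_univ _, hp⟩).trans_le
    (measure_mono (inter_subset_inter_right _ (prod_mono Subset.rfl Ioo_subset_Icc_self)))

end

end Pool.Agent.P.MP_de3acd_gt.FH
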