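import Pool.Agent.P.MP_de3acd_gt.FH.Bump
import Pool.Agent.P.MP_de3acd_gt.FH.RegP2

/-! Countably many bump functions; countability of the group and of the orbits.
Sketch: for n : ℕ and q = (t₁, z₁) take φ from Fr.bump with radius 1 / (n + 1); the open sets {φ > 0} ∩ ball q (1 / (n + 1)) cover ℝ × E; countable subcover
(TopologicalSpace.countable_cover_nhds), reindex ℕ × ℕ by Nat.unpair. Fr.fin, Fr.orb_locfin with A = n, countable_iUnion. -/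

open Set Filter Topology MeasureTheory
open scoped ContDiff NNReal ENNReal RealInnerProductSpace

namespace Pool.Agent.P.MP_de3acd_gt.FH

noncomputable section

variable {Γ : Subgroup (Equiv.Perm E)} {B : ℝ → E →L[ℝ] E} {J : ℝ → E → E →L[ℝ] E}
  {H G : ℝ → E → ℝ} {Y : ℝ → E → E} {γ g : Equiv.Perm E}

theorem Fr.bumps (h : Fr Γ B) : ∃ φ : ℕ → ℝ → E → ℝ, (∀ n, IH Γ (φ n) ∧ ∀ t z, 0 ≤ φ n t z) ∧
    ∀ (t₀ : ℝ) (z₀ : E), ∀ δ > 0, ∃ n, 0 < φ n t₀ z₀ ∧ ∀ t z, φ n t z ≠ 0 →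
      (∃ k : ℤ, |t - t₀ - k| < δ) ∧ ∃ g ∈ Γ, ‖g z - z₀‖ < δ := by
  have hr : ∀ n : ℕ, (0 : ℝ) < 1 / ((n : ℝ) + 1) := fun n => Nat.one_div_pos_of_nat
  choose φ h1 h2 h3 h4 using fun (n : ℕ) (q : ℝ × E) => h.bump q.2 q.1 (hr n)
  have hU : ∀ (n : ℕ) (q : ℝ × E),
      {p : ℝ × E | 0 < φ n q p.1 p.2} ∩ Metric.ball q (1 / ((n : ℝ) + 1)) ∈ 𝓝 q := fun n q =>
    inter_mem ((isOpen_lt continuous_const (h1 n q).1.1.continuous).mem_nhds (h3 n q))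
      (Metric.ball_mem_nhds q (hr n))
  choose s s1 s2 using fun n : ℕ => TopologicalSpace.countable_cover_nhds (hU n)
  have hc : (⋃ n : ℕ, (fun q => (n, q)) '' s n).Countable :=
    countable_iUnion fun n => (s1 n).image _
  have hne : (⋃ n : ℕ, (fun q => (n, q)) '' s n).Nonempty := by
    obtain ⟨q, hq, -⟩ := mem_iUnion₂.1 ((s2 0).symm ▸ mem_univ (0 : ℝ × E))
    exact ⟨(0, q), mem_iUnion.2 ⟨0, q, hq, rfl⟩⟩
  obtain ⟨e, he⟩ := hc.exists_eq_range hne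
  refine ⟨fun m => φ (e m).1 (e m).2, fun m => ⟨h1 _ _, h2 _ _⟩, fun t₀ z₀ δ hδ => ?_⟩
  obtain ⟨n, hn⟩ := exists_nat_one_div_lt (half_pos hδ)
  obtain ⟨q, hq, q1, q2⟩ := mem_iUnion₂.1 ((s2 n).symm ▸ mem_univ (t₀, z₀))
  obtain ⟨m, hm⟩ : (n, q) ∈ range e := he ▸ mem_iUnion.2 ⟨n, q, hq, rfl⟩
  refine ⟨m, by simpa only [hm, mem_ofPred_eq] using q1, fun t z hz => ?_⟩
  simp only [hm] at hz
  obtain ⟨⟨k, hk⟩, g, hg, hg'⟩ := h4 n q t z hz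
  rw [Metric.mem_ball, Prod.dist_eq, max_lt_iff, Real.dist_eq, dist_eq_norm] at q2
  refine ⟨⟨k, ?_⟩, g, hg, ?_⟩
  · have := abs_sub (t - q.1 - k) (t₀ - q.1)
    rw [show t - q.1 - k - (t₀ - q.1) = t - t₀ - k by ring] at this
    linarith [q2.1]
  · have := norm_sub_le (g z - q.2) (z₀ - q.2)
    rw [sub_sub_sub_cancel_right] at this
    linarith [q2.2]

theorem Fr.countable (h : Fr Γ B) : (Γ : Set (Equiv.Perm E)).Countable := by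
  refine (countable_iUnion fun n : ℕ => (h.fin n).countable).mono fun g hg => ?_
  obtain ⟨n, hn⟩ := exists_nat_ge ‖g 0‖
  exact mem_iUnion.2 ⟨n, hg, 0, by rw [norm_zero]; positivity, hn⟩

theorem Fr.countable_orb (h : Fr Γ B) (hY : EndF om Γ Y) :
    {q : Equiv.Perm E × (ℝ → E) × (ℝ → E) |
      q.1 ∈ Γ ∧ Orb q.1 Y q.2.1 ∧ Orb q.1 Y q.2.2}.Countable := by
  have h1 : {q : Equiv.Perm E × (ℝ → E) | q.1 ∈ Γ ∧ Orb q.1 Y q.2}.Countable := by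
    refine (countable_iUnion fun n : ℕ => (h.orb_locfin hY n).countable).mono fun q hq => ?_
    obtain ⟨n, hn⟩ := exists_nat_ge ‖q.2 0‖
    exact mem_iUnion.2 ⟨n, hq.1, hq.2, 0, ⟨le_rfl, zero_le_one⟩, hn⟩
  refine ((h1.prod h1).image fun a => (a.1.1, a.1.2, a.2.2)).mono ?_
  rintro ⟨g, x, y⟩ ⟨a1, a2, a3⟩
  exact ⟨((g, x), (g, y)), ⟨⟨a1, a2⟩, a1, a3⟩, rfl⟩

end

end Pool.Agent.P.MP_de3acd_gt.FH
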