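import Pool.Agent.P.MP_de3acd_gt.FH.Ops

/-! Calculus of the bounds Cn, and closure properties of Bdd.
Sketch: induction on k, generalizing the functions. ds f p = fderiv f p (1,0); norms of (1,0), (0,1) are 1 (sup norm).
iteratedFDeriv versus Cn: norm_iteratedFDeriv_fderiv, norm_iteratedFDeriv_clm_apply_const,
fderiv f p = (fst).smulRight (ds f p) + (snd).smulRight (dt f p) (fderiv_eq_ds_dt).
cn_interp: Landau inequality in one variable: for h ≤ 1, ‖g' s‖ ≤ 2 δ / h + C h (mean value inequality for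
g (s+h) - g s - h g' s); induction on k with a shrinking neighbourhood (radius r instead of 1, split r = r/2 + r/2).
cn_comp, cn_comp_sub: ds (g (t, c)) = D g (t, c) (0, ds c), dt gives D g (1, dt c); induction on k for all target
spaces F at once (the derivative (t, a) ↦ fderiv of g is again SP, with values in another space; state an auxiliary
lemma quantifying over F inside), Cn.bil; a smooth one-periodic g is bounded and Lipschitz on ℝ × closedBall 0 A. -/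

open Set Filter Topology MeasureTheory
open scoped ContDiff NNReal ENNReal RealInnerProductSpace

namespace Pool.Agent.P.MP_de3acd_gt.FH

noncomputable section

variable {F F₁ F₂ : Type} [NormedAddCommGroup F] [NormedSpace ℝ F] [NormedAddCommGroup F₁]
  [NormedSpace ℝ F₁] [NormedAddCommGroup F₂] [NormedSpace ℝ F₂]
variable {C Λ : Type} [NormedAddCommGroup C] [NormedSpace ℝ C] [FiniteDimensional ℝ C]
  [NormedAddCommGroup Λ] [NormedSpace ℝ Λ] [FiniteDimensional ℝ Λ]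

theorem Cn.le {k : ℕ} {f : Pl → F} {I : Set ℝ} {ε : ℝ} (h : Cn k f I ε) {p : Pl} (hp : p.1 ∈ I) :
    ‖f p‖ ≤ ε := by
  cases k with
  | zero => exact h p hp
  | succ k => exact h.1 p hp

theorem Cn.mono {k k' : ℕ} {f : Pl → F} {I I' : Set ℝ} {ε ε' : ℝ} (h : Cn k f I ε) (hk : k' ≤ k)
    (hI : I' ⊆ I) (hε : ε ≤ ε') : Cn k' f I' ε' := by
  induction k' generalizing k f with
  | zero => exact fun p hp => (h.le (hI hp)).trans hε
  | succ k' ih =>
    obtain ⟨k, rfl⟩ : ∃ m, k = m + 1 := ⟨k - 1, by omega⟩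
    exact ⟨fun p hp => (h.le (hI hp)).trans hε, ih h.2.1 (by omega), ih h.2.2 (by omega)⟩

theorem Cn.pred_JetC {k : ℕ} {f : Pl → F} {I : Set ℝ} {ε : ℝ} (h : Cn (k + 1) f I ε) :
    Cn k f I ε := h.mono (Nat.le_succ k) subset_rfl le_rfl

theorem Cn.up_JetC {k : ℕ} {f : Pl → F} {I : Set ℝ} {ε ε' : ℝ} (h : Cn k f I ε) (hε : ε ≤ ε') :
    Cn k f I ε' := h.mono le_rfl subset_rfl hε

theorem Cn.union {k : ℕ} {f : Pl → F} {I I' : Set ℝ} {ε : ℝ} (h : Cn k f I ε) (h' : Cn k f I' ε) :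
    Cn k f (I ∪ I') ε := by
  induction k generalizing f with
  | zero => exact fun p hp => hp.elim (h p) (h' p)
  | succ k ih => exact ⟨fun p hp => hp.elim (h.1 p) (h'.1 p), ih h.2.1 h'.2.1, ih h.2.2 h'.2.2⟩

theorem cn_of_forall {k : ℕ} {f : Pl → F} {I : Set ℝ} {ε : ℝ} (h : ∀ s ∈ I, Cn k f {s} ε) :
    Cn k f I ε := by
  induction k generalizing f with
  | zero => exact fun p hp => h p.1 hp p rfl
  | succ k ih =>
    exact ⟨fun p hp => (h p.1 hp).1 p rfl, ih fun s hs => (h s hs).2.1,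
      ih fun s hs => (h s hs).2.2⟩

theorem cn_empty_JetC (k : ℕ) (f : Pl → F) (ε : ℝ) : Cn k f ∅ ε :=
  cn_of_forall fun _ hs => absurd hs (notMem_empty _)

theorem Cn.congr {k : ℕ} {f g : Pl → F} {I : Set ℝ} {ε : ℝ} (h : Cn k f I ε)
    (e : ∀ p : Pl, p.1 ∈ I → f =ᶠ[𝓝 p] g) : Cn k g I ε := by
  induction k generalizing f g with
  | zero => exact fun p hp => (e p hp).self_of_nhds ▸ h p hp
  | succ k ih =>
    refine ⟨fun p hp => (e p hp).self_of_nhds ▸ h.1 p hp, ih h.2.1 fun p hp => ?_,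
      ih h.2.2 fun p hp => ?_⟩
    · exact ((e p hp).fderiv (𝕜 := ℝ)).mono fun q hq =>
        congrArg (fun A : Pl →L[ℝ] F => A (1, 0)) hq
    · exact ((e p hp).fderiv (𝕜 := ℝ)).mono fun q hq =>
        congrArg (fun A : Pl →L[ℝ] F => A (0, 1)) hq

theorem cn_const (k : ℕ) (v : F) (I : Set ℝ) : Cn k (fun _ => v) I ‖v‖ := by
  induction k generalizing v with
  | zero => exact fun _ _ => le_rfl
  | succ k ih =>
    have e1 : ds (fun _ : Pl => v) = fun _ => 0 := funext fun p => by simp [ds]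
    have e2 : dt (fun _ : Pl => v) = fun _ => 0 := funext fun p => by simp [dt]
    refine ⟨fun _ _ => le_rfl, ?_, ?_⟩
    · rw [e1]
      exact (ih 0).up_JetC (by simp)
    · rw [e2]
      exact (ih 0).up_JetC (by simp)

theorem Cn.add {k : ℕ} {f g : Pl → F} {I : Set ℝ} {a b : ℝ} (hf : ContDiff ℝ ∞ f)
    (hg : ContDiff ℝ ∞ g) (h : Cn k f I a) (h' : Cn k g I b) : Cn k (f + g) I (a + b) := by
  induction k generalizing f g with
  | zero => exact fun p hp => norm_add_le_of_le (h p hp) (h' p hp)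
  | succ k ih =>
    refine ⟨fun p hp => norm_add_le_of_le (h.1 p hp) (h'.1 p hp), ?_, ?_⟩
    · rw [ds_add hf hg]
      exact ih (contDiff_ds hf) (contDiff_ds hg) h.2.1 h'.2.1
    · rw [dt_add hf hg]
      exact ih (contDiff_dt hf) (contDiff_dt hg) h.2.2 h'.2.2

theorem ds_neg_JetC (f : Pl → F) : ds (-f) = -ds f := funext fun p => by
  simp only [ds, Pi.neg_apply]
  rw [fderiv_neg]
  rfl

theorem dt_neg_JetC (f : Pl → F) : dt (-f) = -dt f := funext fun p => by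
  simp only [dt, Pi.neg_apply]
  rw [fderiv_neg]
  rfl

theorem ds_sub_JetC {f g : Pl → F} (hf : ContDiff ℝ ∞ f) (hg : ContDiff ℝ ∞ g) :
    ds (f - g) = ds f - ds g := by
  rw [sub_eq_add_neg, ds_add hf (g := -g) hg.neg, ds_neg_JetC, sub_eq_add_neg]

theorem dt_sub_JetC {f g : Pl → F} (hf : ContDiff ℝ ∞ f) (hg : ContDiff ℝ ∞ g) :
    dt (f - g) = dt f - dt g := by
  rw [sub_eq_add_neg, dt_add hf (g := -g) hg.neg, dt_neg_JetC, sub_eq_add_neg]

theorem Cn.neg {k : ℕ} {f : Pl → F} {I : Set ℝ} {a : ℝ} (h : Cn k f I a) : Cn k (-f) I a := by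
  induction k generalizing f with
  | zero => exact fun p hp => (norm_neg _).trans_le (h p hp)
  | succ k ih =>
    refine ⟨fun p hp => (norm_neg _).trans_le (h.1 p hp), ?_, ?_⟩
    · rw [ds_neg_JetC]
      exact ih h.2.1
    · rw [dt_neg_JetC]
      exact ih h.2.2

theorem Cn.sub {k : ℕ} {f g : Pl → F} {I : Set ℝ} {a b : ℝ} (hf : ContDiff ℝ ∞ f)
    (hg : ContDiff ℝ ∞ g) (h : Cn k f I a) (h' : Cn k g I b) : Cn k (f - g) I (a + b) := by
  rw [sub_eq_add_neg]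
  exact Cn.add hf (g := -g) hg.neg h h'.neg

theorem fd_clm_JetC {f : Pl → F} (A : F →L[ℝ] F₁) (hf : ContDiff ℝ ∞ f) (v : Pl) :
    (fun p => fderiv ℝ (fun p => A (f p)) p v) = fun p => A (fderiv ℝ f p v) := funext fun p =>
  congrArg (fun T : Pl →L[ℝ] F₁ => T v)
    (A.hasFDerivAt.comp p (hf.differentiable (by simp) p).hasFDerivAt).fderiv

theorem Cn.clm {k : ℕ} {f : Pl → F} {I : Set ℝ} {a : ℝ} (A : F →L[ℝ] F₁) (hf : ContDiff ℝ ∞ f)
    (h : Cn k f I a) : Cn k (fun p => A (f p)) I (‖A‖ * a) := by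
  have h0 : ∀ {f : Pl → F}, Cn 0 f I a → Cn 0 (fun p => A (f p)) I (‖A‖ * a) :=
    fun h p hp => A.le_of_opNorm_le_of_le le_rfl (h p hp)
  induction k generalizing f with
  | zero => exact h0 h
  | succ k ih =>
    refine ⟨h0 h.1, ?_, ?_⟩
    · have e : ds (fun p => A (f p)) = fun p => A (ds f p) := fd_clm_JetC A hf _
      rw [e]
      exact ih (contDiff_ds hf) h.2.1
    · have e : dt (fun p => A (f p)) = fun p => A (dt f p) := fd_clm_JetC A hf _
      rw [e]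
      exact ih (contDiff_dt hf) h.2.2

theorem fd_prod_JetC {f : Pl → F} {g : Pl → F₁} (hf : ContDiff ℝ ∞ f) (hg : ContDiff ℝ ∞ g)
    (v : Pl) : (fun p => fderiv ℝ (fun p => (f p, g p)) p v) =
      fun p => (fderiv ℝ f p v, fderiv ℝ g p v) := funext fun p => by
  rw [((hf.differentiable (by simp) p).hasFDerivAt.prodMk
    (hg.differentiable (by simp) p).hasFDerivAt).fderiv]
  rfl

theorem Cn.prod {k : ℕ} {f : Pl → F} {g : Pl → F₁} {I : Set ℝ} {a : ℝ} (hf : ContDiff ℝ ∞ f)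
    (hg : ContDiff ℝ ∞ g) (h : Cn k f I a) (h' : Cn k g I a) :
    Cn k (fun p => (f p, g p)) I a := by
  induction k generalizing f g with
  | zero => exact fun p hp => max_le (h p hp) (h' p hp)
  | succ k ih =>
    refine ⟨fun p hp => max_le (h.1 p hp) (h'.1 p hp), ?_, ?_⟩
    · have e : ds (fun p => (f p, g p)) = fun p => (ds f p, ds g p) := fd_prod_JetC hf hg _
      rw [e]
      exact ih (contDiff_ds hf) (contDiff_ds hg) h.2.1 h'.2.1
    · have e : dt (fun p => (f p, g p)) = fun p => (dt f p, dt g p) := fd_prod_JetC hf hg _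
      rw [e]
      exact ih (contDiff_dt hf) (contDiff_dt hg) h.2.2 h'.2.2

theorem contDiff_bil_JetC {f : Pl → F} {g : Pl → F₁} (B : F →L[ℝ] F₁ →L[ℝ] F₂)
    (hf : ContDiff ℝ ∞ f) (hg : ContDiff ℝ ∞ g) : ContDiff ℝ ∞ fun p => B (f p) (g p) :=
  (B.contDiff.comp hf).clm_apply hg

theorem Cn.bil {k : ℕ} {f : Pl → F} {g : Pl → F₁} {I : Set ℝ} {a b : ℝ}
    (B : F →L[ℝ] F₁ →L[ℝ] F₂) (hf : ContDiff ℝ ∞ f) (hg : ContDiff ℝ ∞ g) (h : Cn k f I a)
    (h' : Cn k g I b) : Cn k (fun p => B (f p) (g p)) I (2 ^ k * ‖B‖ * a * b) := by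
  have h0 : ∀ (m : ℕ) {f : Pl → F} {g : Pl → F₁}, Cn 0 f I a → Cn 0 g I b →
      Cn 0 (fun p => B (f p) (g p)) I (2 ^ m * ‖B‖ * a * b) := by
    intro m f g h h' p hp
    have ha := (norm_nonneg _).trans (h p hp)
    have hb := (norm_nonneg _).trans (h' p hp)
    have h1 : ‖B (f p) (g p)‖ ≤ ‖B‖ * a * b := B.le_of_opNorm₂_le_of_le le_rfl (h p hp) (h' p hp)
    have h2 : (1 : ℝ) ≤ 2 ^ m := one_le_pow₀ one_le_two
    have h3 : 0 ≤ ‖B‖ * a * b := by positivity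
    nlinarith
  have e : ∀ m : ℕ, (2 : ℝ) ^ (m + 1) * ‖B‖ * a * b = 2 ^ m * ‖B‖ * a * b + 2 ^ m * ‖B‖ * a * b :=
    fun m => by ring
  induction k generalizing f g with
  | zero => exact h0 0 h h'
  | succ k ih =>
    refine ⟨h0 _ h.1 h'.1, ?_, ?_⟩
    · have e1 : ds (fun p => B (f p) (g p)) =
          (fun p => B (ds f p) (g p)) + fun p => B (f p) (ds g p) := funext fun p =>
        ds_bil B (hf.differentiable (by simp) p) (hg.differentiable (by simp) p)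
      rw [e1, e]
      exact Cn.add (contDiff_bil_JetC B (contDiff_ds hf) hg)
        (contDiff_bil_JetC B hf (contDiff_ds hg)) (ih (contDiff_ds hf) hg h.2.1 h'.pred_JetC)
        (ih hf (contDiff_ds hg) h.pred_JetC h'.2.1)
    · have e1 : dt (fun p => B (f p) (g p)) =
          (fun p => B (dt f p) (g p)) + fun p => B (f p) (dt g p) := funext fun p =>
        dt_bil B (hf.differentiable (by simp) p) (hg.differentiable (by simp) p)
      rw [e1, e]
      exact Cn.add (contDiff_bil_JetC B (contDiff_dt hf) hg)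
        (contDiff_bil_JetC B hf (contDiff_dt hg)) (ih (contDiff_dt hf) hg h.2.2 h'.pred_JetC)
        (ih hf (contDiff_dt hg) h.pred_JetC h'.2.2)

theorem cn_tsl {k : ℕ} {f : Pl → F} {I : Set ℝ} {ε : ℝ} (a : Pl) :
    Cn k (tsl a f) ((fun s => s + a.1) ⁻¹' I) ε ↔ Cn k f I ε := by
  have h0 : ∀ f : Pl → F, Cn 0 (tsl a f) ((fun s => s + a.1) ⁻¹' I) ε ↔ Cn 0 f I ε := by
    refine fun f => ⟨fun h p hp => ?_, fun h p hp => h (p + a) hp⟩
    have := h (p - a) (by simpa using hp)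
    rwa [tsl, sub_add_cancel] at this
  induction k generalizing f with
  | zero => exact h0 f
  | succ k ih =>
    rw [cn_succ, cn_succ, h0, ds_tsl, dt_tsl]
    exact and_congr_right' (and_congr ih ih)

theorem cn_of_iteratedFDeriv {k : ℕ} {f : Pl → F} {I : Set ℝ} {ε : ℝ} (hf : ContDiff ℝ ∞ f)
    (h : ∀ i ≤ k, ∀ p : Pl, p.1 ∈ I → ‖iteratedFDeriv ℝ i f p‖ ≤ ε) : Cn k f I ε := by
  induction k generalizing f with
  | zero => exact fun p hp => by simpa using h 0 le_rfl p hp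
  | succ k ih =>
    have key : ∀ v : Pl, ‖v‖ = 1 → ∀ i ≤ k, ∀ p : Pl, p.1 ∈ I →
        ‖iteratedFDeriv ℝ i (fun p => fderiv ℝ f p v) p‖ ≤ ε := by
      intro v hv i hi p hp
      refine (norm_iteratedFDeriv_clm_apply_const (N := ∞)
        (hf.fderiv_right (m := ∞) le_rfl).contDiffAt (by exact_mod_cast le_top)).trans ?_
      rw [hv, one_mul, norm_iteratedFDeriv_fderiv]
      exact h (i + 1) (by omega) p hp
    exact ⟨fun p hp => by simpa using h 0 (Nat.zero_le _) p hp,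
      ih (contDiff_ds hf) (key _ (by simp)), ih (contDiff_dt hf) (key _ (by simp))⟩

theorem Cn.iteratedFDeriv_le {k : ℕ} {f : Pl → F} {I : Set ℝ} {ε : ℝ} (hf : ContDiff ℝ ∞ f)
    (h : Cn k f I ε) {p : Pl} (hp : p.1 ∈ I) : ‖iteratedFDeriv ℝ k f p‖ ≤ 2 ^ k * ε := by
  induction k generalizing f with
  | zero => simpa using h p hp
  | succ k ih =>
    have key : ∀ (l : Pl →L[ℝ] ℝ) (g : Pl → F), ‖l‖ ≤ 1 → ContDiff ℝ ∞ g → Cn k g I ε →
        ‖iteratedFDeriv ℝ k (ContinuousLinearMap.smulRightL ℝ Pl F l ∘ g) p‖ ≤ 2 ^ k * ε := by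
      intro l g hl hg hc
      refine ((ContinuousLinearMap.smulRightL ℝ Pl F l).norm_iteratedFDeriv_comp_left (N := ∞)
        hg.contDiffAt (by exact_mod_cast le_top)).trans ?_
      have h1 : ‖ContinuousLinearMap.smulRightL ℝ Pl F l‖ ≤ 1 :=
        ContinuousLinearMap.opNorm_le_bound _ zero_le_one fun v => by
          rw [ContinuousLinearMap.smulRightL_apply_apply, ContinuousLinearMap.norm_smulRight_apply]
          exact mul_le_mul_of_nonneg_right hl (norm_nonneg _)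
      exact (mul_le_of_le_one_left (norm_nonneg _) h1).trans (ih hg hc)
    have e : fderiv ℝ f =
        (ContinuousLinearMap.smulRightL ℝ Pl F (ContinuousLinearMap.fst ℝ ℝ ℝ) ∘ ds f) +
          ContinuousLinearMap.smulRightL ℝ Pl F (ContinuousLinearMap.snd ℝ ℝ ℝ) ∘ dt f :=
      funext fun q => ContinuousLinearMap.ext fun a => fderiv_eq_ds_dt f q a
    rw [← norm_iteratedFDeriv_fderiv, e, iteratedFDeriv_add_apply
      (((ContinuousLinearMap.contDiff _).comp (contDiff_ds hf)).of_le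
        (by exact_mod_cast le_top)).contDiffAt
      (((ContinuousLinearMap.contDiff _).comp (contDiff_dt hf)).of_le
        (by exact_mod_cast le_top)).contDiffAt, pow_succ, mul_two, add_mul]
    exact norm_add_le_of_le
      (key _ _ (ContinuousLinearMap.norm_fst_le ..) (contDiff_ds hf) h.2.1)
      (key _ _ (ContinuousLinearMap.norm_snd_le ..) (contDiff_dt hf) h.2.2)

theorem bdd_iff {f : Pl → F} : Bdd f ↔ ContDiff ℝ ∞ f ∧ ∀ k, ∃ A, Cn k f univ A := by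
  refine ⟨fun h => ⟨h.1, fun k => ?_⟩, fun h => ⟨h.1, fun k => ?_⟩⟩
  · obtain ⟨A, -, hA⟩ := h.cn k
    exact ⟨A, hA⟩
  · obtain ⟨A, hA⟩ := h.2 k
    exact ⟨_, fun p => hA.iteratedFDeriv_le h.1 (mem_univ _)⟩

theorem landau_JetC {g g' g'' : ℝ → F} (h1 : ∀ x, HasDerivAt g (g' x) x)
    (h2 : ∀ x, HasDerivAt g' (g'' x) x) {A δ h s : ℝ} (hA : ∀ x, ‖g'' x‖ ≤ A) (hh : 0 < h)
    (b1 : ‖g s‖ ≤ δ) (b2 : ‖g (s + h)‖ ≤ δ) : h * ‖g' s‖ ≤ 2 * δ + A * h * h := by
  have hA0 : 0 ≤ A := (norm_nonneg _).trans (hA 0)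
  have k1 : ∀ x ∈ Icc s (s + h), ‖g' x - g' s‖ ≤ A * h := by
    intro x hx
    refine (convex_univ.norm_image_sub_le_of_norm_hasDerivWithin_le
      (fun y _ => (h2 y).hasDerivWithinAt) (fun y _ => hA y) (mem_univ s) (mem_univ x)).trans ?_
    refine mul_le_mul_of_nonneg_left ?_ hA0
    rw [Real.norm_eq_abs, abs_le]
    constructor <;> linarith [hx.1, hx.2]
  have k2 := (convex_Icc s (s + h)).norm_image_sub_le_of_norm_hasDerivWithin_le
    (f := fun x => g x - x • g' s) (f' := fun x => g' x - g' s)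
    (fun y _ => ((h1 y).sub (by simpa using (hasDerivAt_id y).smul_const (g' s))).hasDerivWithinAt)
    k1 (left_mem_Icc.2 (by linarith)) (right_mem_Icc.2 (by linarith))
  have e : h • g' s = g (s + h) - g s - (g (s + h) - (s + h) • g' s - (g s - s • g' s)) := by
    rw [add_smul]
    abel
  have k3 : ‖h • g' s‖ ≤ δ + δ + A * h * ‖s + h - s‖ := by
    rw [e]
    exact norm_sub_le_of_le (norm_sub_le_of_le b2 b1) k2
  rw [norm_smul, add_sub_cancel_left, Real.norm_of_nonneg hh.le] at k3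
  linarith

theorem interp_JetC (k : ℕ) (A : ℝ) : ∀ r > 0, ∀ ε > 0, ∃ δ > 0, ∀ (f : Pl → F) (I : Set ℝ),
    ContDiff ℝ ∞ f → Cn (k + 1) f univ A → (∀ p : Pl, (∃ s ∈ I, |p.1 - s| ≤ r) → ‖f p‖ ≤ δ) →
      Cn k f I ε := by
  induction k with
  | zero =>
    exact fun r hr ε hε => ⟨ε, hε, fun f I _ _ h p hp => h p ⟨p.1, hp, by simpa using hr.le⟩⟩
  | succ k ih =>
    intro r hr ε hε
    obtain ⟨δ, hδ, H⟩ := ih (r / 2) (by positivity) ε hε
    set h := min (r / 2) (δ / (2 * (|A| + 1))) with hh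
    have h0 : 0 < h := lt_min (by positivity) (by positivity)
    have h1 : h ≤ r / 2 := min_le_left _ _
    have h2 : A * h ≤ δ / 2 := by
      have h3 : h * (2 * (|A| + 1)) ≤ δ := (le_div_iff₀ (by positivity)).1 (min_le_right _ _)
      nlinarith [le_abs_self A]
    have fin : ∀ x : ℝ, h * x ≤ 2 * min ε (δ * h / 4) + A * h * h → x ≤ δ := by
      intro x hx
      have h3 := min_le_right ε (δ * h / 4)
      have h4 := mul_le_mul_of_nonneg_right h2 h0.le
      exact le_of_mul_le_mul_left (by linarith) h0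
    refine ⟨min ε (δ * h / 4), lt_min hε (by positivity), fun f I hf hc hb =>
      ⟨fun p hp => (hb p ⟨p.1, hp, by simpa using hr.le⟩).trans (min_le_left _ _),
        H _ I (contDiff_ds hf) hc.2.1 ?_, H _ I (contDiff_dt hf) hc.2.2 ?_⟩⟩
    · rintro ⟨x, t⟩ ⟨s, hs, hx⟩
      refine fin _ (landau_JetC (g := fun x => f (x, t))
        (fun y => hasDerivAt_ds (hf.differentiable (by simp) _))
        (fun y => hasDerivAt_ds ((contDiff_ds hf).differentiable (by simp) _))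
        (fun y => hc.2.1.2.1.le (mem_univ _)) h0 (hb _ ⟨s, hs, hx.trans (by linarith)⟩)
        (hb _ ⟨s, hs, ?_⟩))
      rw [abs_le] at hx ⊢
      constructor <;> linarith [hx.1, hx.2]
    · rintro ⟨x, t⟩ ⟨s, hs, hx⟩
      exact fin _ (landau_JetC (g := fun t => f (x, t))
        (fun y => hasDerivAt_dt (hf.differentiable (by simp) _))
        (fun y => hasDerivAt_dt ((contDiff_dt hf).differentiable (by simp) _))
        (fun y => hc.2.2.2.2.le (mem_univ _)) h0 (hb _ ⟨s, hs, hx.trans (by linarith)⟩)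
        (hb _ ⟨s, hs, hx.trans (by linarith)⟩))

theorem cn_interp (k : ℕ) (A : ℝ) {ε : ℝ} (hε : 0 < ε) : ∃ δ > 0, ∀ (f : Pl → F) (I : Set ℝ),
    ContDiff ℝ ∞ f → Cn (k + 1) f univ A → (∀ p : Pl, (∃ s ∈ I, |p.1 - s| ≤ 1) → ‖f p‖ ≤ δ) →
      Cn k f I ε :=
  interp_JetC k A 1 one_pos ε hε

theorem SP.contDiff_comp {g : ℝ → C → F} (hg : SP g) {c : Pl → C} (hc : ContDiff ℝ ∞ c) :
    ContDiff ℝ ∞ fun p : Pl => g p.2 (c p) :=
  hg.1.comp (contDiff_snd.prodMk hc)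

theorem SP.per_comp {g : ℝ → C → F} (hg : SP g) {c : Pl → C} (hc : Per c) :
    Per fun p : Pl => g p.2 (c p) := fun s t => by
  simp only [hg.2 t, hc s t]

theorem SP.fderiv {g : ℝ → C → F} (hg : SP g) : SP fun t a => fderiv ℝ (g t) a :=
  ⟨ContDiff.fderiv (f := fun (q : ℝ × C) (a : C) => g q.1 a) (m := ∞)
    (hg.1.comp (contDiff_fst.fst.prodMk contDiff_snd)) contDiff_snd le_rfl,
    fun t => by simp only [hg.2 t]⟩

/-- The total derivative. -/
def tot_JetC (g : ℝ → C → F) (t : ℝ) (a : C) : ℝ × C →L[ℝ] F :=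
  fderiv ℝ (fun q : ℝ × C => g q.1 q.2) (t, a)

theorem SP.tot_JetC {g : ℝ → C → F} (hg : SP g) : SP (tot_JetC g) := by
  refine ⟨hg.1.fderiv_right (m := ∞) le_rfl, fun t => funext fun a => ?_⟩
  have e : (fun q : ℝ × C => g q.1 q.2) =
      fun q => (fun q : ℝ × C => g q.1 q.2) (q + (1, 0)) := funext fun q => by
    simp [hg.2]
  unfold FH.tot_JetC
  have e1 := fderiv_comp_add_right (𝕜 := ℝ) (f := fun q : ℝ × C => g q.1 q.2) (x := (t, a))
    ((1 : ℝ), (0 : C))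
  rw [← e] at e1
  rw [e1]
  exact congrArg _ (Prod.ext rfl (by simp))

theorem fd_comp_JetC {g : ℝ → C → F} (hg : SP g) {c : Pl → C} (hc : ContDiff ℝ ∞ c) (v : Pl) :
    (fun p => fderiv ℝ (fun p : Pl => g p.2 (c p)) p v) =
      fun p => tot_JetC g p.2 (c p) (v.2, fderiv ℝ c p v) := funext fun p => by
  have h1 : HasFDerivAt (fun p : Pl => (p.2, c p))
      ((ContinuousLinearMap.snd ℝ ℝ ℝ).prod (fderiv ℝ c p)) p :=
    hasFDerivAt_snd.prodMk (hc.differentiable (by simp) p).hasFDerivAt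
  exact congrArg (fun T : Pl →L[ℝ] F => T v) (HasFDerivAt.comp p (g := fun q : ℝ × C => g q.1 q.2)
    (hg.1.differentiable (by simp) _).hasFDerivAt h1).fderiv

theorem SP.bound_JetC {g : ℝ → C → F} (hg : SP g) (A : ℝ) :
    ∃ M, 0 ≤ M ∧ ∀ t a, ‖a‖ ≤ A → ‖g t a‖ ≤ M := by
  haveI := FiniteDimensional.proper_real C
  obtain ⟨M, hM⟩ := ((isCompact_Icc (a := (0 : ℝ)) (b := 1)).prod
    (isCompact_closedBall (0 : C) A)).exists_bound_of_continuousOn hg.1.continuous.continuousOn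
  refine ⟨max M 0, le_max_right _ _, fun t a ha => ?_⟩
  obtain ⟨y, hy, e⟩ := Function.Periodic.exists_mem_Ico₀ (f := g) hg.2 one_pos t
  rw [e]
  exact (hM (y, a) ⟨Ico_subset_Icc_self hy, mem_closedBall_zero_iff.2 ha⟩).trans (le_max_left _ _)

theorem SP.lip_JetC {g : ℝ → C → F} (hg : SP g) (A : ℝ) :
    ∃ M, 0 ≤ M ∧ ∀ t a a', ‖a‖ ≤ A → ‖a'‖ ≤ A → ‖g t a - g t a'‖ ≤ M * ‖a - a'‖ := by
  obtain ⟨M, h0, hM⟩ := hg.fderiv.bound_JetC A
  refine ⟨M, h0, fun t a a' ha ha' => ?_⟩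
  refine (convex_closedBall (0 : C) A).norm_image_sub_le_of_norm_fderiv_le (𝕜 := ℝ)
    (fun x _ => ?_) (fun x hx => hM t x (mem_closedBall_zero_iff.1 hx))
    (mem_closedBall_zero_iff.2 ha') (mem_closedBall_zero_iff.2 ha)
  exact (hg.1.comp (contDiff_const.prodMk contDiff_id)).differentiable (by simp) x

theorem cn_pair_JetC {k : ℕ} {d : Pl → C} {I : Set ℝ} {A τ : ℝ} (hτ : ‖τ‖ ≤ 1)
    (hd : ContDiff ℝ ∞ d) (h : Cn k d I A) : Cn k (fun p => (τ, d p)) I (max A 1) :=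
  Cn.prod contDiff_const hd ((cn_const k τ I).up_JetC (hτ.trans (le_max_right _ _)))
    (h.up_JetC (le_max_left _ _))

theorem comp_JetC (A : ℝ) (k : ℕ) : ∀ (F : Type) [NormedAddCommGroup F] [NormedSpace ℝ F]
    (g : ℝ → C → F), SP g → ∃ A', 0 ≤ A' ∧ ∀ (c : Pl → C) (I : Set ℝ),
      ContDiff ℝ ∞ c → Cn k c I A → Cn k (fun p => g p.2 (c p)) I A' := by
  induction k with
  | zero =>
    intro F _ _ g hg
    obtain ⟨M, h0, hM⟩ := hg.bound_JetC A
    exact ⟨M, h0, fun c I _ h p hp => hM _ _ (h p hp)⟩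
  | succ k ih =>
    intro F _ _ g hg
    obtain ⟨M, h0, hM⟩ := hg.bound_JetC A
    obtain ⟨A₁, -, H⟩ := ih _ _ hg.tot_JetC
    refine ⟨max M (2 ^ k * ‖ContinuousLinearMap.id ℝ (ℝ × C →L[ℝ] F)‖ * A₁ * max A 1),
      le_max_of_le_left h0, fun c I hc h => ?_⟩
    have key : ∀ (τ : ℝ) (d : Pl → C), ‖τ‖ ≤ 1 → ContDiff ℝ ∞ d → Cn k d I A →
        Cn k (fun p => tot_JetC g p.2 (c p) (τ, d p)) I
          (max M (2 ^ k * ‖ContinuousLinearMap.id ℝ (ℝ × C →L[ℝ] F)‖ * A₁ * max A 1)) :=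
      fun τ d hτ hd h' => (Cn.bil (ContinuousLinearMap.id ℝ (ℝ × C →L[ℝ] F))
        (hg.tot_JetC.contDiff_comp hc) (contDiff_const.prodMk hd) (H c I hc h.pred_JetC)
        (cn_pair_JetC hτ hd h')).up_JetC (le_max_right _ _)
    refine ⟨fun p hp => (hM _ _ (h.1 p hp)).trans (le_max_left _ _), ?_, ?_⟩
    · have e : ds (fun p : Pl => g p.2 (c p)) = fun p => tot_JetC g p.2 (c p) (0, ds c p) :=
        fd_comp_JetC hg hc _
      rw [e]
      exact key 0 _ (by simp) (contDiff_ds hc) h.2.1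
    · have e : dt (fun p : Pl => g p.2 (c p)) = fun p => tot_JetC g p.2 (c p) (1, dt c p) :=
        fd_comp_JetC hg hc _
      rw [e]
      exact key 1 _ (by simp) (contDiff_dt hc) h.2.2

theorem cn_comp {g : ℝ → C → F} (hg : SP g) (k : ℕ) (A : ℝ) : ∃ A', ∀ (c : Pl → C) (I : Set ℝ),
    ContDiff ℝ ∞ c → Cn k c I A → Cn k (fun p => g p.2 (c p)) I A' := by
  obtain ⟨A', -, h⟩ := comp_JetC A k F g hg
  exact ⟨A', h⟩

theorem comp_sub_JetC (A : ℝ) (k : ℕ) : ∀ (F : Type) [NormedAddCommGroup F] [NormedSpace ℝ F]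
    (g : ℝ → C → F), SP g → ∃ L, 0 ≤ L ∧
      ∀ (c c' : Pl → C) (I : Set ℝ) (ε : ℝ), ContDiff ℝ ∞ c → ContDiff ℝ ∞ c' → Cn k c I A →
        Cn k c' I A → Cn k (c - c') I ε →
          Cn k (fun p => g p.2 (c p) - g p.2 (c' p)) I (L * ε) := by
  induction k with
  | zero =>
    intro F _ _ g hg
    obtain ⟨M, h0, hM⟩ := hg.lip_JetC A
    exact ⟨M, h0, fun c c' I ε _ _ h h' hε p hp =>
      (hM _ _ _ (h p hp) (h' p hp)).trans (mul_le_mul_of_nonneg_left (hε p hp) h0)⟩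
  | succ k ih =>
    intro F _ _ g hg
    obtain ⟨M, h0, hM⟩ := hg.lip_JetC A
    obtain ⟨L₁, hL, H⟩ := ih _ _ hg.tot_JetC
    obtain ⟨A₁, hA, H'⟩ := comp_JetC A k _ _ hg.tot_JetC
    set B := ContinuousLinearMap.id ℝ (ℝ × C →L[ℝ] F) with hB
    refine ⟨max M (2 ^ k * ‖B‖ * L₁ * max A 1 + 2 ^ k * ‖B‖ * A₁), le_max_of_le_left h0,
      fun c c' I ε hc hc' h h' hε => ?_⟩
    rcases I.eq_empty_or_nonempty with rfl | ⟨s, hs⟩
    · exact cn_empty_JetC _ _ _
    have hε0 : 0 ≤ ε := (norm_nonneg _).trans (hε.le (p := (s, 0)) hs)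
    have s1 := hg.tot_JetC.contDiff_comp hc
    have s2 := hg.tot_JetC.contDiff_comp hc'
    have key : ∀ (τ : ℝ) (d d' : Pl → C), ‖τ‖ ≤ 1 → ContDiff ℝ ∞ d → ContDiff ℝ ∞ d' →
        Cn k d I A → Cn k (d - d') I ε →
        Cn k ((fun p => tot_JetC g p.2 (c p) (τ, d p)) -
          fun p => tot_JetC g p.2 (c' p) (τ, d' p)) I
          (max M (2 ^ k * ‖B‖ * L₁ * max A 1 + 2 ^ k * ‖B‖ * A₁) * ε) := by
      intro τ d d' hτ hd hd' b1 b2
      have s3 : ContDiff ℝ ∞ fun p => (τ, d p) := contDiff_const.prodMk hd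
      have s4 : ContDiff ℝ ∞ fun p => ((0 : ℝ), (d - d') p) := contDiff_const.prodMk (hd.sub hd')
      have k1 := Cn.bil B (s1.sub s2) s3 (H c c' I ε hc hc' h.pred_JetC h'.pred_JetC hε.pred_JetC)
        (cn_pair_JetC hτ hd b1)
      have k2 := Cn.bil B s2 s4 (H' c' I hc' h'.pred_JetC)
        (Cn.prod contDiff_const (hd.sub hd') ((cn_const k (0 : ℝ) I).up_JetC (by simpa using hε0))
          b2)
      have k3 := Cn.add (contDiff_bil_JetC B (s1.sub s2) s3) (contDiff_bil_JetC B s2 s4) k1 k2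
      have e : ((fun p : Pl => tot_JetC g p.2 (c p) (τ, d p)) -
          fun p => tot_JetC g p.2 (c' p) (τ, d' p)) =
          (fun p : Pl => B (tot_JetC g p.2 (c p) - tot_JetC g p.2 (c' p)) (τ, d p)) +
            fun p => B (tot_JetC g p.2 (c' p)) ((0 : ℝ), (d - d') p) := by
        funext p
        have e1 : ((0 : ℝ), (d - d') p) = (τ, d p) - (τ, d' p) := by simp
        simp only [hB, Pi.sub_apply, Pi.add_apply, ContinuousLinearMap.id_apply,
          ContinuousLinearMap.sub_apply] at e1 ⊢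
        rw [e1, map_sub]
        abel
      rw [e]
      refine k3.up_JetC (le_trans (le_of_eq ?_)
        (mul_le_mul_of_nonneg_right (le_max_right _ _) hε0))
      ring
    have e0 : (fun p : Pl => g p.2 (c p) - g p.2 (c' p)) =
        (fun p : Pl => g p.2 (c p)) - fun p : Pl => g p.2 (c' p) := rfl
    refine ⟨fun p hp => (hM _ _ _ (h.1 p hp) (h'.1 p hp)).trans
      (mul_le_mul (le_max_left _ _) (hε.1 p hp) (norm_nonneg _) (le_max_of_le_left h0)), ?_, ?_⟩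
    · have e : ∀ {c : Pl → C}, ContDiff ℝ ∞ c → ds (fun p : Pl => g p.2 (c p)) =
          fun p => tot_JetC g p.2 (c p) (0, ds c p) := fun hc => fd_comp_JetC hg hc _
      rw [e0, ds_sub_JetC (hg.contDiff_comp hc) (hg.contDiff_comp hc'), e hc, e hc']
      exact key 0 _ _ (by simp) (contDiff_ds hc) (contDiff_ds hc') h.2.1
        (ds_sub_JetC hc hc' ▸ hε.2.1)
    · have e : ∀ {c : Pl → C}, ContDiff ℝ ∞ c → dt (fun p : Pl => g p.2 (c p)) =
          fun p => tot_JetC g p.2 (c p) (1, dt c p) := fun hc => fd_comp_JetC hg hc _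
      rw [e0, dt_sub_JetC (hg.contDiff_comp hc) (hg.contDiff_comp hc'), e hc, e hc']
      exact key 1 _ _ (by simp) (contDiff_dt hc) (contDiff_dt hc') h.2.2
        (dt_sub_JetC hc hc' ▸ hε.2.2)

theorem cn_comp_sub {g : ℝ → C → F} (hg : SP g) (k : ℕ) (A : ℝ) : ∃ L, 0 ≤ L ∧
    ∀ (c c' : Pl → C) (I : Set ℝ) (ε : ℝ), ContDiff ℝ ∞ c → ContDiff ℝ ∞ c' → Cn k c I A →
      Cn k c' I A → Cn k (c - c') I ε →
        Cn k (fun p => g p.2 (c p) - g p.2 (c' p)) I (L * ε) :=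
  comp_sub_JetC A k F g hg

theorem bdd_const (v : F) : Bdd fun _ : Pl => v :=
  bdd_iff.2 ⟨contDiff_const, fun k => ⟨_, cn_const k v univ⟩⟩

theorem Bdd.add {f g : Pl → F} (hf : Bdd f) (hg : Bdd g) : Bdd (f + g) :=
  bdd_iff.2 ⟨hf.1.add hg.1, fun k => by
    obtain ⟨a, -, ha⟩ := hf.cn k
    obtain ⟨b, -, hb⟩ := hg.cn k
    exact ⟨_, Cn.add hf.1 hg.1 ha hb⟩⟩

theorem Bdd.neg {f : Pl → F} (hf : Bdd f) : Bdd (-f) :=
  bdd_iff.2 ⟨hf.1.neg, fun k => by
    obtain ⟨a, -, ha⟩ := hf.cn k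
    exact ⟨_, ha.neg⟩⟩

theorem Bdd.sub {f g : Pl → F} (hf : Bdd f) (hg : Bdd g) : Bdd (f - g) := by
  rw [sub_eq_add_neg]
  exact hf.add hg.neg

theorem Bdd.clm {f : Pl → F} (hf : Bdd f) (A : F →L[ℝ] F₁) : Bdd fun p => A (f p) :=
  bdd_iff.2 ⟨A.contDiff.comp hf.1, fun k => by
    obtain ⟨a, -, ha⟩ := hf.cn k
    exact ⟨_, Cn.clm A hf.1 ha⟩⟩

theorem Bdd.smul {f : Pl → F} (hf : Bdd f) (c : ℝ) : Bdd (c • f) :=
  hf.clm (c • ContinuousLinearMap.id ℝ F)

theorem Bdd.prod {f : Pl → F} {g : Pl → F₁} (hf : Bdd f) (hg : Bdd g) : Bdd fun p => (f p, g p) :=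
  bdd_iff.2 ⟨hf.1.prodMk hg.1, fun k => by
    obtain ⟨a, -, ha⟩ := hf.cn k
    obtain ⟨b, -, hb⟩ := hg.cn k
    exact ⟨_, Cn.prod hf.1 hg.1 (ha.up_JetC (le_max_left a b)) (hb.up_JetC (le_max_right a b))⟩⟩

theorem Bdd.bil {f : Pl → F} {g : Pl → F₁} (hf : Bdd f) (hg : Bdd g) (B : F →L[ℝ] F₁ →L[ℝ] F₂) :
    Bdd fun p => B (f p) (g p) :=
  bdd_iff.2 ⟨contDiff_bil_JetC B hf.1 hg.1, fun k => by
    obtain ⟨a, -, ha⟩ := hf.cn k
    obtain ⟨b, -, hb⟩ := hg.cn k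
    exact ⟨_, Cn.bil B hf.1 hg.1 ha hb⟩⟩

theorem Bdd.tsl {f : Pl → F} (hf : Bdd f) (a : Pl) : Bdd (tsl a f) :=
  bdd_iff.2 ⟨contDiff_tsl hf.1 a, fun k => by
    obtain ⟨b, -, hb⟩ := hf.cn k
    exact ⟨b, (cn_tsl a).2 hb⟩⟩

theorem Bdd.comp {g : ℝ → C → F} (hg : SP g) {c : Pl → C} (hc : Bdd c) :
    Bdd fun p : Pl => g p.2 (c p) :=
  bdd_iff.2 ⟨hg.contDiff_comp hc.1, fun k => by
    obtain ⟨a, -, ha⟩ := hc.cn k
    obtain ⟨A', h⟩ := cn_comp hg k a
    exact ⟨A', h c univ hc.1 ha⟩⟩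

theorem bdd_lp {x : ℝ → F} (hx : ContDiff ℝ ∞ x) (hp : ∀ t, x (t + 1) = x t) :
    Bdd (lp x) ∧ Per (lp x) ∧ ds (lp x) = 0 ∧ dt (lp x) = lp (deriv x) := by
  have h1 : Bdd (lp x) := Bdd.comp (g := fun t (_ : ℝ) => x t)
    ⟨hx.comp contDiff_fst, fun t => by simp only [hp t]⟩ (bdd_const (0 : ℝ))
  refine ⟨h1, fun _ t => hp t, funext fun p => ?_, funext fun p => ?_⟩
  · exact (hasDerivAt_ds (s := p.1) (t := p.2) (h1.1.differentiable (by simp) _)).unique
      (hasDerivAt_const p.1 (x p.2))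
  · exact (hasDerivAt_dt (s := p.1) (t := p.2) (h1.1.differentiable (by simp) _)).deriv.symm

theorem compact_JetC (k : ℕ) (a b : ℝ) {f : Pl → F} (hf : ContDiff ℝ ∞ f) (hp : Per f) :
    ∃ A, Cn k f (Icc a b) A := by
  have h0 : ∀ {f : Pl → F}, ContDiff ℝ ∞ f → Per f → ∃ A, Cn 0 f (Icc a b) A := by
    intro f hf hp
    obtain ⟨M, hM⟩ := ((isCompact_Icc (a := a) (b := b)).prod
      (isCompact_Icc (a := (0 : ℝ)) (b := 1))).exists_bound_of_continuousOn
        hf.continuous.continuousOn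
    refine ⟨M, fun p hq => ?_⟩
    obtain ⟨y, hy, e⟩ := Function.Periodic.exists_mem_Ico₀ (f := fun t => f (p.1, t)) (hp p.1)
      one_pos p.2
    exact (congrArg norm e).trans_le (hM (p.1, y) ⟨hq, Ico_subset_Icc_self hy⟩)
  induction k generalizing f with
  | zero => exact h0 hf hp
  | succ k ih =>
    obtain ⟨A, hA⟩ := h0 hf hp
    obtain ⟨A₁, h1⟩ := ih (contDiff_ds hf) hp.ds
    obtain ⟨A₂, h2⟩ := ih (contDiff_dt hf) hp.dt
    exact ⟨max A (max A₁ A₂), hA.up_JetC (le_max_left _ _),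
      h1.up_JetC (le_max_of_le_right (le_max_left _ _)),
      h2.up_JetC (le_max_of_le_right (le_max_right _ _))⟩

/-- Periodic and independent of `s` on both ends. -/
theorem bdd_of_ends {f : Pl → F} (hf : ContDiff ℝ ∞ f) (hp : Per f) {R : ℝ}
    (h : ∀ s t, R ≤ s → f (s, t) = f (R, t)) (h' : ∀ s t, s ≤ -R → f (s, t) = f (-R, t)) :
    Bdd f := by
  refine bdd_iff.2 ⟨hf, fun k => ?_⟩
  have hl : ∀ r : ℝ, Bdd (lp fun t => f (r, t)) := fun r =>
    (bdd_lp (hf.comp (contDiff_const.prodMk contDiff_id)) (hp r)).1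
  obtain ⟨A, hA⟩ := compact_JetC k (-R) R hf hp
  obtain ⟨A₁, -, h1⟩ := (hl R).cn k
  obtain ⟨A₂, -, h2⟩ := (hl (-R)).cn k
  have k1 : Cn k f (Ioi R) (max A (max A₁ A₂)) := by
    refine (h1.mono le_rfl (subset_univ _) (le_max_of_le_right (le_max_left _ _))).congr
      fun p hq => ?_
    exact ((continuous_fst.tendsto p).eventually (lt_mem_nhds hq)).mono
      fun q hq => (h q.1 q.2 hq.le).symm
  have k2 : Cn k f (Iio (-R)) (max A (max A₁ A₂)) := by
    refine (h2.mono le_rfl (subset_univ _) (le_max_of_le_right (le_max_right _ _))).congr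
      fun p hq => ?_
    exact ((continuous_fst.tendsto p).eventually (gt_mem_nhds hq)).mono
      fun q hq => (h' q.1 q.2 hq.le).symm
  refine ⟨_, (((hA.up_JetC (le_max_left _ _)).union k1).union k2).mono le_rfl
    (fun s _ => ?_) le_rfl⟩
  by_cases a1 : R < s
  · exact Or.inl (Or.inr a1)
  by_cases a2 : s < -R
  · exact Or.inr a2
  · exact Or.inl (Or.inl ⟨not_lt.1 a2, not_lt.1 a1⟩)

theorem bdd_of_mem {φ : Pl → F} (h : φ ∈ Dsub F) : Bdd φ := by
  obtain ⟨h1, h2, R, h3⟩ := h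
  refine bdd_of_ends h1 h2 (R := |R|) (fun s t hs => ?_) fun s t hs => ?_
  · rw [h3 (s, t) ((le_abs_self R).trans (hs.trans (le_abs_self s))),
      h3 (|R|, t) (by simpa using le_abs_self R)]
  · rw [h3 (s, t) ((le_abs_self R).trans ((le_neg.1 hs).trans (neg_le_abs s))),
      h3 (-|R|, t) (by simpa using le_abs_self R)]

theorem bil_mem {f : Pl → F} {φ : Pl → F₁} (hf : ContDiff ℝ ∞ f) (hp : Per f) (h : φ ∈ Dsub F₁)
    (B : F →L[ℝ] F₁ →L[ℝ] F₂) : (fun p => B (f p) (φ p)) ∈ Dsub F₂ := by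
  obtain ⟨h1, h2, R, h3⟩ := h
  exact ⟨contDiff_bil_JetC B hf h1, fun s t => by simp only [hp s t, h2 s t], R,
    fun p hq => by simp only [h3 p hq, map_zero]⟩

end

end Pool.Agent.P.MP_de3acd_gt.FH
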