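import Pool.Agent.P.MP_de3acd_gt.FH.Defs2
import Pool.Agent.P.MP_de3acd_gt.FH.JetC

/-! Pointwise algebra of compatible complex structures and the formal adjoint.
Sketch: g u v = Ω u (j v) is symmetric: Ω u (j v) = Ω (j u) (j (j v)) = -Ω (j u) v = Ω v (j u).
cpt_lower: the set of j with ‖j‖ ≤ A, j j = -1, symplectic, Ω v (j v) ≥ 0 is compact; if some compatible j exists then Ω
is nondegenerate and a nonnegative nondegenerate symmetric form is positive (Cauchy-Schwarz). Or directly: fix one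
compatible j₀, g₀ ≥ δ₀ ‖v‖^2 by compactness of the sphere, and g₀(v,v)^2 = Ω v (j₀ v)^2 ≤ g(v,v) g(j₀ v, j₀ v) ≤
g(v,v) ‖B‖ A ‖j₀‖^2 ‖v‖^2 (form_sq_le). For V: adjoint j = J0 j J0 (ext_inner), adJ j = -J0 j J0. -/

open Set Filter Topology MeasureTheory
open scoped ContDiff NNReal ENNReal RealInnerProductSpace

namespace Pool.Agent.P.MP_de3acd_gt.FH

noncomputable section

variable {F F₁ F₂ : Type} [NormedAddCommGroup F] [NormedSpace ℝ F] [NormedAddCommGroup F₁]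
  [NormedSpace ℝ F₁] [NormedAddCommGroup F₂] [NormedSpace ℝ F₂]
variable {V : Type} [NormedAddCommGroup V] [InnerProductSpace ℝ V] [Sym V]

theorem form_om : Form om := by
  let B : E →ₗ[ℝ] E →ₗ[ℝ] ℝ := LinearMap.mk₂ ℝ om
    (fun u v w => by simp only [om, ar, Prod.fst_add, Prod.snd_add]; ring)
    (fun c u v => by simp only [om, ar, Prod.smul_fst, Prod.smul_snd, smul_eq_mul]; ring)
    (fun u v w => by simp only [om, ar, Prod.fst_add, Prod.snd_add]; ring)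
    (fun c u v => by simp only [om, ar, Prod.smul_fst, Prod.smul_snd, smul_eq_mul]; ring)
  exact ⟨B.toContinuousBilinearMap, fun u v => rfl, fun u => by simp only [om, ar]; ring⟩

theorem inner_J0_Cpt (u v : V) : ⟪Sym.J0 u, v⟫ = -⟪u, Sym.J0 v⟫ := by
  rw [← Sym.iso (Sym.J0 u) v, Sym.sq, inner_neg_left]

theorem form_Ω0 : Form (Ω0 : V → V → ℝ) := by
  refine ⟨(innerSL ℝ).comp Sym.J0, fun u v => rfl, fun u => ?_⟩
  have h := inner_J0_Cpt u u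
  rw [real_inner_comm (Sym.J0 u) u] at h
  change ⟪Sym.J0 u, u⟫ = 0
  linarith

theorem Form.anti {Ω : F → F → ℝ} (h : Form Ω) (u v : F) : Ω u v = -Ω v u := by
  obtain ⟨B, hB, h0⟩ := h
  have h1 := h0 (u + v)
  have h2 := h0 u
  have h3 := h0 v
  simp only [hB, map_add, add_apply] at h1 h2 h3 ⊢
  linarith

theorem Cpt.symm {Ω : F → F → ℝ} (h : Form Ω) {j : F →L[ℝ] F} (hj : Cpt Ω j) (u v : F) :
    Ω u (j v) = Ω v (j u) := by
  rw [← hj.2.1 u (j v), hj.1 v, h.anti v (j u)]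
  obtain ⟨B, hB, -⟩ := h
  simp only [hB, map_neg]

theorem Cpt.nonneg {Ω : F → F → ℝ} (h : Form Ω) {j : F →L[ℝ] F} (hj : Cpt Ω j) (v : F) :
    0 ≤ Ω v (j v) := by
  rcases eq_or_ne v 0 with rfl | hv
  · obtain ⟨B, hB, -⟩ := h
    simp only [hB, map_zero, le_refl]
  · exact (hj.2.2 v hv).le

theorem Cpt.add_sq_Cpt {Ω : F → F → ℝ} (h : Form Ω) {j : F →L[ℝ] F} (hj : Cpt Ω j) (a b : F)
    (t : ℝ) : Ω (t • a + j b) (j (t • a + j b)) =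
      Ω a (j a) * (t * t) - 2 * Ω a b * t + Ω b (j b) := by
  have h1 := hj.2.1 b a
  have h2 := h.anti b a
  have h3 := h.anti (j b) b
  obtain ⟨B, hB, -⟩ := h
  simp only [hB, map_add, map_smul, hj.1 b, map_neg, add_apply,
    smul_apply, smul_eq_mul] at h1 h2 h3 ⊢
  rw [h1, h2, h3]
  ring

theorem Cpt.form_sq_le {Ω : F → F → ℝ} (h : Form Ω) {j : F →L[ℝ] F} (hj : Cpt Ω j) (u v : F) :
    Ω u v ^ 2 ≤ Ω u (j u) * Ω v (j v) := by
  have h1 : discrim (Ω u (j u)) (-(2 * Ω u v)) (Ω v (j v)) ≤ 0 := discrim_le_zero fun t => by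
    have h2 := Cpt.nonneg h hj (t • u + j v)
    rw [Cpt.add_sq_Cpt h hj] at h2
    linarith
  rw [discrim] at h1
  linarith

theorem Cpt.abs_form_le {Ω : F → F → ℝ} (h : Form Ω) {j : F →L[ℝ] F} (hj : Cpt Ω j) (u v : F)
    {r : ℝ} (hr : 0 < r) : |Ω u v| ≤ r / 2 * Ω u (j u) + 1 / (2 * r) * Ω v (j v) := by
  have h1 := Cpt.nonneg h hj (r • u + j v)
  have h2 := Cpt.nonneg h hj ((-r) • u + j v)
  rw [Cpt.add_sq_Cpt h hj] at h1 h2
  have e : r / 2 * Ω u (j u) + 1 / (2 * r) * Ω v (j v) =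
      (Ω u (j u) * (r * r) + Ω v (j v)) / (2 * r) := by
    field_simp
  have hr2 : 0 < 2 * r := by linarith
  rw [e, abs_le, ← neg_div, div_le_iff₀ hr2, le_div_iff₀ hr2]
  constructor <;> linarith

theorem Cpt.add_sq {Ω : F → F → ℝ} (h : Form Ω) {j : F →L[ℝ] F} (hj : Cpt Ω j) (a b : F) :
    Ω (a + j b) (j (a + j b)) = Ω a (j a) + Ω b (j b) - 2 * Ω a b := by
  have h1 := Cpt.add_sq_Cpt h hj a b 1
  rw [one_smul] at h1
  linarith

theorem Cpt.indep {Ω : F → F → ℝ} (h : Form Ω) {j : F →L[ℝ] F} (hj : Cpt Ω j) {v : F} (hv : v ≠ 0)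
    {a b : ℝ} (e : a • v + b • j v = 0) : a = 0 ∧ b = 0 := by
  have h1 := hj.2.2 v hv
  obtain ⟨B, hB, h0⟩ := h
  have h2 := congrArg (B v) e
  have h3 := h0 v
  simp only [hB, map_add, map_smul, map_zero, smul_eq_mul] at h1 h2 h3
  rw [h3, mul_zero, zero_add] at h2
  have hb : b = 0 := (mul_eq_zero.1 h2).resolve_right h1.ne'
  rw [hb, zero_smul, add_zero] at e
  exact ⟨(smul_eq_zero.1 e).resolve_right hv, hb⟩

theorem lower_Cpt [FiniteDimensional ℝ F] {Ω : F → F → ℝ} (h : Form Ω) {j : F →L[ℝ] F}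
    (hj : Cpt Ω j) : ∃ δ > 0, ∀ v, δ * ‖v‖ ^ 2 ≤ Ω v (j v) := by
  have := FiniteDimensional.proper_real F
  obtain ⟨B, hB, -⟩ := h
  have hc : Continuous fun v => B v (j v) := B.continuous.clm_apply j.continuous
  obtain ⟨δ, hδ, h1⟩ := (isCompact_sphere (0 : F) 1).exists_forall_le' hc.continuousOn (a := 0)
    fun v hv => by
      rw [← hB]
      refine hj.2.2 v ?_
      rintro rfl
      simp at hv
  refine ⟨δ, hδ, fun v => ?_⟩
  rcases eq_or_ne v 0 with rfl | hv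
  · simp [hB]
  have hn : 0 < ‖v‖ := norm_pos_iff.2 hv
  have h2 := h1 (‖v‖⁻¹ • v) (by simp [norm_smul, hn.ne'])
  simp only [map_smul, smul_apply, smul_eq_mul] at h2
  rw [hB]
  calc δ * ‖v‖ ^ 2 ≤ ‖v‖⁻¹ * (‖v‖⁻¹ * B v (j v)) * ‖v‖ ^ 2 :=
        mul_le_mul_of_nonneg_right h2 (sq_nonneg _)
    _ = B v (j v) := by field_simp

theorem cpt_bounds [FiniteDimensional ℝ F] {Ω : F → F → ℝ} (h : Form Ω) (A : ℝ) : ∃ δ > 0,
    ∀ j : F →L[ℝ] F, Cpt Ω j → ‖j‖ ≤ A → ∀ v, δ * ‖v‖ ^ 2 ≤ Ω v (j v) ∧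
      Ω v (j v) ≤ δ⁻¹ * ‖v‖ ^ 2 := by
  by_cases hex : ∃ j₀ : F →L[ℝ] F, Cpt Ω j₀
  swap
  · exact ⟨1, one_pos, fun j hj => absurd ⟨j, hj⟩ hex⟩
  obtain ⟨j₀, hj₀⟩ := hex
  obtain ⟨δ₀, hδ₀, h0⟩ := lower_Cpt h hj₀
  obtain ⟨B, hB, -⟩ := id h
  obtain ⟨M, hM, hup⟩ : ∃ M > 0, ∀ j : F →L[ℝ] F, ‖j‖ ≤ A → ∀ v, Ω v (j v) ≤ M * ‖v‖ ^ 2 := by
    refine ⟨‖B‖ * |A| + 1, by positivity, fun j hA v => ?_⟩
    have h1 : ‖j v‖ ≤ |A| * ‖v‖ := j.le_of_opNorm_le (hA.trans (le_abs_self A)) v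
    calc Ω v (j v) ≤ ‖B v (j v)‖ := by rw [hB]; exact le_abs_self _
      _ ≤ ‖B‖ * ‖v‖ * ‖j v‖ := B.le_opNorm₂ v (j v)
      _ ≤ ‖B‖ * ‖v‖ * (|A| * ‖v‖) := mul_le_mul_of_nonneg_left h1 (by positivity)
      _ = ‖B‖ * |A| * ‖v‖ ^ 2 := by ring
      _ ≤ (‖B‖ * |A| + 1) * ‖v‖ ^ 2 :=
          mul_le_mul_of_nonneg_right (by linarith) (sq_nonneg _)
  obtain ⟨N, hN, hN'⟩ : ∃ N > 0, ∀ v, M * ‖j₀ v‖ ^ 2 ≤ N * ‖v‖ ^ 2 := by
    refine ⟨M * (‖j₀‖ ^ 2 + 1), by positivity, fun v => ?_⟩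
    have h1 : ‖j₀ v‖ ^ 2 ≤ (‖j₀‖ * ‖v‖) ^ 2 :=
      pow_le_pow_left₀ (norm_nonneg _) (j₀.le_opNorm v) 2
    rw [mul_assoc]
    refine mul_le_mul_of_nonneg_left (h1.trans ?_) hM.le
    rw [mul_pow]
    exact mul_le_mul_of_nonneg_right (by linarith) (sq_nonneg _)
  refine ⟨min (δ₀ ^ 2 / N) M⁻¹, lt_min (by positivity) (by positivity), fun j hj hA v => ⟨?_, ?_⟩⟩
  · rcases eq_or_ne v 0 with rfl | hv
    · simp [hB]
    have hn : 0 < ‖v‖ ^ 2 := pow_pos (norm_pos_iff.2 hv) 2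
    have h1 : (δ₀ * ‖v‖ ^ 2) ^ 2 ≤ Ω v (j₀ v) ^ 2 := pow_le_pow_left₀ (by positivity) (h0 v) 2
    have h2 := Cpt.form_sq_le h hj v (j₀ v)
    have h3 : Ω v (j v) * Ω (j₀ v) (j (j₀ v)) ≤ Ω v (j v) * (N * ‖v‖ ^ 2) :=
      mul_le_mul_of_nonneg_left ((hup j hA _).trans (hN' v)) (Cpt.nonneg h hj v)
    have h4 : δ₀ ^ 2 * ‖v‖ ^ 2 * ‖v‖ ^ 2 ≤ Ω v (j v) * N * ‖v‖ ^ 2 := by
      calc δ₀ ^ 2 * ‖v‖ ^ 2 * ‖v‖ ^ 2 = (δ₀ * ‖v‖ ^ 2) ^ 2 := by ring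
        _ ≤ Ω v (j v) * (N * ‖v‖ ^ 2) := h1.trans (h2.trans h3)
        _ = Ω v (j v) * N * ‖v‖ ^ 2 := by ring
    have h5 := le_of_mul_le_mul_right h4 hn
    calc min (δ₀ ^ 2 / N) M⁻¹ * ‖v‖ ^ 2 ≤ δ₀ ^ 2 / N * ‖v‖ ^ 2 :=
          mul_le_mul_of_nonneg_right (min_le_left _ _) hn.le
      _ = δ₀ ^ 2 * ‖v‖ ^ 2 / N := by ring
      _ ≤ Ω v (j v) := (div_le_iff₀ hN).2 h5
  · refine (hup j hA v).trans (mul_le_mul_of_nonneg_right ?_ (sq_nonneg _))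
    exact le_inv_of_le_inv₀ (lt_min (by positivity) (by positivity)) (min_le_right _ _)

theorem cpt_of_tendsto [FiniteDimensional ℝ F] {Ω : F → F → ℝ} (h : Form Ω) {N : Type}
    {l : Filter N} [l.NeBot] {j : N → F →L[ℝ] F} {j' : F →L[ℝ] F} (hj : ∀ n, Cpt Ω (j n))
    (e : Tendsto j l (𝓝 j')) : Cpt Ω j' := by
  obtain ⟨δ, hδ, hb⟩ := cpt_bounds h (‖j'‖ + 1)
  obtain ⟨B, hB, -⟩ := h
  have hc : ∀ v : F, Continuous fun a : F →L[ℝ] F => a v := fun v =>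
    continuous_id.clm_apply continuous_const
  refine ⟨fun v => ?_, fun u v => ?_, fun v hv => ?_⟩
  · exact (isClosed_eq (f := fun a : F →L[ℝ] F => a (a v)) (continuous_id.clm_apply (hc v))
      continuous_const).mem_of_tendsto e (Eventually.of_forall fun n => (hj n).1 v)
  · rw [hB, hB]
    exact (isClosed_eq (f := fun a : F →L[ℝ] F => B (a u) (a v))
      ((B.continuous.comp (hc u)).clm_apply (hc v)) continuous_const).mem_of_tendsto e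
      (Eventually.of_forall fun n => by
        have h1 := (hj n).2.1 u v
        rwa [hB, hB] at h1)
  · have h1 : ∀ᶠ n in l, ‖j n‖ < ‖j'‖ + 1 := e.norm.eventually (gt_mem_nhds (lt_add_one _))
    have h2 : δ * ‖v‖ ^ 2 ≤ B v (j' v) :=
      (isClosed_le (g := fun a : F →L[ℝ] F => B v (a v)) continuous_const
        ((B v).continuous.comp (hc v))).mem_of_tendsto e (h1.mono fun n hn => by
          have h3 := (hb (j n) (hj n) hn.le v).1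
          rwa [hB] at h3)
    rw [hB]
    exact (mul_pos hδ (pow_pos (norm_pos_iff.2 hv) 2)).trans_le h2

theorem norm_J0 (v : V) : ‖Sym.J0 v‖ = ‖v‖ := by
  have h := Sym.iso v v
  rw [real_inner_self_eq_norm_sq, real_inner_self_eq_norm_sq] at h
  exact (sq_eq_sq₀ (norm_nonneg _) (norm_nonneg _)).1 h

theorem inner_J0_left (u v : V) : ⟪Sym.J0 u, v⟫ = -⟪u, Sym.J0 v⟫ := inner_J0_Cpt u v

theorem Ω0_J0 (u v : V) : Ω0 u (Sym.J0 v) = ⟪u, v⟫ := Sym.iso u v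

theorem abs_Ω0_le (u v : V) : |Ω0 u v| ≤ ‖u‖ * ‖v‖ := by
  rw [← norm_J0 u]
  exact abs_real_inner_le_norm _ _

theorem cpt_J0 : Cpt Ω0 (Sym.J0 : V →L[ℝ] V) :=
  ⟨Sym.sq, fun u v => Sym.iso (Sym.J0 u) v, fun v hv => by
    rw [Ω0_J0]
    exact real_inner_self_pos.2 hv⟩

theorem Ω0_left_Cpt (u v : V) : Ω0 (Sym.J0 u) v = -⟪u, v⟫ := by
  rw [Ω0, Sym.sq, inner_neg_left]

theorem Cpt.adjoint {j : V →L[ℝ] V} (hj : Cpt Ω0 j) (v : V) :
    ContinuousLinearMap.adjoint j v = Sym.J0 (j (Sym.J0 v)) := by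
  refine ext_inner_right ℝ fun u => ?_
  have h1 := Cpt.symm form_Ω0 hj (Sym.J0 v) u
  rw [Ω0_left_Cpt, Ω0] at h1
  rw [ContinuousLinearMap.adjoint_inner_left, inner_J0_left, real_inner_comm (Sym.J0 u), ← h1,
    neg_neg]

theorem Cpt.norm_le_sub {j : V →L[ℝ] V} (hj : Cpt Ω0 j) (v : V) : ‖v‖ ≤ ‖v - j (Sym.J0 v)‖ := by
  rcases eq_or_ne v 0 with rfl | hv
  · simp
  have h1 := Cpt.nonneg form_Ω0 hj (Sym.J0 v)
  rw [Ω0_left_Cpt] at h1
  have h2 := real_inner_le_norm v (v - j (Sym.J0 v))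
  rw [inner_sub_right, real_inner_self_eq_norm_mul_norm] at h2
  exact le_of_mul_le_mul_left (by linarith) (norm_pos_iff.2 hv)

theorem adJ_adJ (j : Pl → V →L[ℝ] V) : adJ (adJ j) = j := funext fun p => by
  simp only [adJ, map_neg, neg_neg, ContinuousLinearMap.adjoint_adjoint]

theorem exists_adj_Cpt : ∃ T : (V →L[ℝ] V) →L[ℝ] (V →L[ℝ] V),
    ∀ a, T a = ContinuousLinearMap.adjoint a :=
  ⟨LinearMap.toContinuousLinearMap
    { toFun := fun a => ContinuousLinearMap.adjoint a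
      map_add' := fun a b => map_add _ a b
      map_smul' := fun c a => by simp }, fun _ => rfl⟩

theorem adS_adS {j : Pl → V →L[ℝ] V} (hj : ContDiff ℝ ∞ j) (S : Pl → V →L[ℝ] V) :
    adS (adJ j) (adS j S) = S := by
  obtain ⟨T, hT⟩ := exists_adj_Cpt (V := V)
  have e : adJ j = fun p => (-T) (j p) := funext fun p => by
    rw [adJ, neg_apply, hT]
  funext p
  have h1 : dt (adJ j) p = -ContinuousLinearMap.adjoint (dt j p) := by
    rw [e, ← hT]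
    exact congrFun (fd_clm_JetC (-T) hj (0, 1)) p
  simp only [adS, h1, map_sub, map_neg, ContinuousLinearMap.adjoint_adjoint, sub_neg_eq_add,
    sub_add_cancel]

theorem Cpt.adj_Cpt {j : V →L[ℝ] V} (hj : Cpt Ω0 j) : Cpt Ω0 (-ContinuousLinearMap.adjoint j) := by
  obtain ⟨B, hB, -⟩ := form_Ω0 (V := V)
  refine ⟨fun v => ?_, fun u v => ?_, fun v hv => ?_⟩
  · simp only [neg_apply, Cpt.adjoint hj, map_neg, neg_neg, Sym.sq, hj.1]
  · have h1 := (cpt_J0 (V := V)).2.1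
    rw [← h1 u v, ← hj.2.1 (Sym.J0 u), ← h1 (j _)]
    simp only [hB, neg_apply, Cpt.adjoint hj, map_neg, neg_neg]
  · have h1 : Sym.J0 v ≠ 0 := by
      rw [← norm_ne_zero_iff, norm_J0]
      exact norm_ne_zero_iff.2 hv
    have h2 := hj.2.2 _ h1
    rw [Ω0_left_Cpt] at h2
    rw [neg_apply, Cpt.adjoint hj, ← map_neg, Ω0_J0, inner_neg_right]
    exact h2

theorem Coef.adj {σ : ℝ} {j S : Pl → V →L[ℝ] V} (h : Coef σ j S) : Coef (-σ) (adJ j) (adS j S) := by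
  obtain ⟨T, hT⟩ := exists_adj_Cpt (V := V)
  have e : adJ j = fun p => (-T) (j p) := funext fun p => by
    rw [adJ, neg_apply, hT]
  have e' : adS j S = (fun p => T (S p)) - fun p => T (dt j p) := funext fun p => by
    rw [adS, Pi.sub_apply, hT, hT]
  refine ⟨?_, ?_, fun s t => ?_, ?_, fun s t => ?_, fun p => Cpt.adj_Cpt (h.cpt p)⟩
  · rcases h.sgn with h1 | h1
    · exact Or.inr (by rw [h1])
    · exact Or.inl (by rw [h1, neg_neg])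
  · rw [e]
    exact h.bj.clm _
  · simp only [adJ, h.pj s t]
  · rw [e']
    exact (h.bS.clm _).sub (h.bj.dt.clm _)
  · simp only [adS, h.pS s t, h.pj.dt s t]

theorem Ell.adj {σ : ℝ} {j S : Pl → V →L[ℝ] V} (h : Ell σ j S) : Ell (-σ) (adJ j) (adS j S) :=
  ⟨h.toCoef.adj, h.est', by
    rw [neg_neg, adJ_adJ, adS_adS h.bj.1]
    exact h.est⟩

theorem Coef.tsl {σ : ℝ} {j S : Pl → V →L[ℝ] V} (h : Coef σ j S) (a : Pl) :
    Coef σ (tsl a j) (tsl a S) :=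
  ⟨h.sgn, h.bj.tsl a, h.pj.tsl a, h.bS.tsl a, h.pS.tsl a, fun _ => h.cpt _⟩

theorem dop_mem {σ : ℝ} {j S : Pl → V →L[ℝ] V} (h : Coef σ j S) {φ : Pl → V} (hφ : φ ∈ Dsub V) :
    dop σ j S φ ∈ Dsub V :=
  (Dsub V).add_mem ((Dsub V).add_mem ((Dsub V).smul_mem σ (ds_mem hφ))
    (bil_mem h.bj.1 h.pj (dt_mem hφ) (ContinuousLinearMap.id ℝ (V →L[ℝ] V))))
    (bil_mem h.bS.1 h.pS hφ (ContinuousLinearMap.id ℝ (V →L[ℝ] V)))

theorem contDiff_dop {σ : ℝ} {j S : Pl → V →L[ℝ] V} (h : Coef σ j S) {f : Pl → V}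
    (hf : ContDiff ℝ ∞ f) : ContDiff ℝ ∞ (dop σ j S f) :=
  (((contDiff_ds hf).const_smul σ).add (h.bj.1.clm_apply (contDiff_dt hf))).add
    (h.bS.1.clm_apply hf)

theorem per_dop {σ : ℝ} {j S : Pl → V →L[ℝ] V} (h : Coef σ j S) {f : Pl → V} (hf : Per f) :
    Per (dop σ j S f) := fun s t => by
  simp only [dop, hf.ds s t, hf.dt s t, hf s t, h.pj s t, h.pS s t]

end

end Pool.Agent.P.MP_de3acd_gt.FH
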