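import Pool.Agent.P.MP_de3acd_gt.FH.Defs7
import Pool.Agent.P.MP_de3acd_gt.FH.Cpt

/-! The Cayley transform.
Sketch: for SA A and ‖A‖ < 1, 1 + A and 1 - A are injective, so invertible (finite dimension), (1 + A) J0 = J0 (1 - A). With j = (1 + A)⁻¹ J0 (1 + A) and v = (1 - A) w... one has j = J0 g,
g = (1 - A)⁻¹ (1 + A) = (1 + A) (1 - A)⁻¹; for v = (1 - A) w: j v = J0 ((1 + A) w), Ω0 v (j v) = ⟪(1 - A) w, (1 + A) w⟫ = ‖w‖² - ‖A w‖² > 0; the other two identities likewise.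
exists_SA: A w = ⟪v, w⟫ ζ + ⟪ζ, w⟫ v - ⟪J0 v, w⟫ J0 ζ - ⟪J0 ζ, w⟫ J0 v has ⟪A v, ζ⟫ = ‖v‖² ‖ζ‖² + ⟪ζ, v⟫² + ⟪J0 v, ζ⟫² > 0. exists_SA_seq: a dense sequence in the subtype of SA maps, or a spanning
family of the finite-dimensional submodule. pj j = (1 + g) / 2 with g = -J0 j symmetric and positive (Cpt.symm form_Ω0, Cpt.adjoint, Cpt.norm_le_sub).
SA_pj: A = 1 - (pj j)⁻¹ = (g - 1) (g + 1)⁻¹; ‖A v‖ < ‖v‖ as ‖(g + 1) w‖² - ‖(g - 1) w‖² = 4 ⟪g w, w⟫ > 0, and the norm is attained on the sphere (or V is trivial). -/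

open Set Filter Topology MeasureTheory
open scoped ContDiff NNReal ENNReal RealInnerProductSpace

namespace Pool.Agent.P.MP_de3acd_gt.FH

noncomputable section

variable {V : Type} [NormedAddCommGroup V] [InnerProductSpace ℝ V] [Sym V]

variable {A j j' : V →L[ℝ] V}

theorem SA.neg (h : SA A) : SA (-A) := ⟨fun u v => by simp only [neg_apply, inner_neg_left, inner_neg_right, h.1],
  fun v => by simp only [neg_apply, h.2, map_neg]⟩

theorem comb_Cay {A' : V →L[ℝ] V} (h : SA A) (h' : SA A') (r r' : ℝ) : SA (r • A + r' • A') :=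
  ⟨fun u v => by simp only [add_apply, smul_apply, inner_add_left, inner_add_right,
    real_inner_smul_left, real_inner_smul_right, h.1, h'.1],
  fun v => by simp only [add_apply, smul_apply, h.2, h'.2, map_add, map_smul, smul_neg, neg_add]⟩

theorem zero_Cay : SA (0 : V →L[ℝ] V) := ⟨fun u v => by simp, fun v => by simp⟩

theorem SA.hasSum {ι : Type} {f : ι → V →L[ℝ] V} (h : ∀ i, SA (f i)) {c : ι → ℝ}
    (e : HasSum (fun i => c i • f i) A) : SA A := by
  classical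
  have hc : IsClosed {B : V →L[ℝ] V | SA B} := by
    simp only [SA, ofPred_and, ofPred_forall]
    exact (isClosed_iInter fun u => isClosed_iInter fun v =>
      isClosed_eq (by fun_prop) (by fun_prop)).inter
      (isClosed_iInter fun v => isClosed_eq (by fun_prop) (by fun_prop))
  refine hc.mem_of_tendsto e (Eventually.of_forall fun s => ?_)
  induction s using Finset.induction_on with
  | empty => exact zero_Cay
  | insert i s hi ih =>
    have := comb_Cay (h i) ih (c i) 1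
    rwa [one_smul, ← Finset.sum_insert hi (f := fun i => c i • f i)] at this

theorem SA.comb {A' : V →L[ℝ] V} (h : SA A) (h' : SA A') (r r' : ℝ) : SA (r • A + r' • A') := comb_Cay h h' r r'

theorem inv_Cay {B : V →L[ℝ] V} (h : ∀ v, B v = 0 → v = 0) : B.IsInvertible :=
  ⟨(LinearEquiv.ofInjectiveEndo (B : V →ₗ[ℝ] V)
    ((injective_iff_map_eq_zero _).2 h)).toContinuousLinearEquiv, rfl⟩

omit [Sym V] in
theorem lt_Cay (h : ‖A‖ < 1) {v : V} (hv : v ≠ 0) : ‖A v‖ < ‖v‖ :=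
  (A.le_opNorm v).trans_lt (mul_lt_of_lt_one_left (norm_pos_iff.2 hv) h)

theorem inv_of_norm (h : ‖A‖ < 1) : (1 + A).IsInvertible := inv_Cay fun v hv => by
  by_contra h0
  have h1 := lt_Cay h h0
  have h2 : A v = -v := eq_neg_of_add_eq_zero_right hv
  rw [h2, norm_neg] at h1
  exact lt_irrefl _ h1

theorem cpt_Cay (h : SA A) (h' : ‖A‖ < 1) (hj : ∀ w, j (w + A w) = Sym.J0 (w - A w)) :
    Cpt Ω0 j := by
  have hs : ∀ v, ∃ w, w + A w = v := fun v => ⟨_, (inv_of_norm h').self_apply_inverse v⟩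
  have e1 : ∀ w, Sym.J0 (w - A w) = Sym.J0 w + A (Sym.J0 w) := fun w => by
    rw [map_sub, h.2, sub_eq_add_neg]
  have e2 : ∀ w, Sym.J0 (w + A w) = Sym.J0 w - A (Sym.J0 w) := fun w => by
    rw [map_add, h.2, sub_neg_eq_add]
  refine ⟨fun v => ?_, fun u v => ?_, fun v hv => ?_⟩
  · obtain ⟨w, rfl⟩ := hs v
    rw [hj, e1, hj, ← e2, Sym.sq]
  · obtain ⟨u, rfl⟩ := hs u
    obtain ⟨v, rfl⟩ := hs v
    rw [hj, hj, Ω0, Ω0, Sym.iso, inner_J0_left, inner_J0_left, e1, e2]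
    simp only [inner_add_left, inner_add_right, inner_sub_left, inner_sub_right, h.1 u (Sym.J0 v)]
    ring
  · obtain ⟨w, rfl⟩ := hs v
    have hw : w ≠ 0 := fun e => hv (by simp [e])
    have := lt_Cay h' hw
    rw [hj, Ω0_J0, inner_add_left, inner_sub_right, inner_sub_right, real_inner_comm w (A w),
      real_inner_self_eq_norm_sq, real_inner_self_eq_norm_sq]
    nlinarith [norm_nonneg (A w)]

theorem SA.cay (h : SA A) (h' : ‖A‖ < 1) :
    Cpt Ω0 ((1 + A).inverse.comp ((Sym.J0 : V →L[ℝ] V).comp (1 + A))) ∧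
      Cpt Ω0 ((1 + A).comp ((Sym.J0 : V →L[ℝ] V).comp (1 + A).inverse)) ∧
        (pj ((1 + A).comp ((Sym.J0 : V →L[ℝ] V).comp (1 + A).inverse))).inverse = 1 + A := by
  have hi := inv_of_norm h'
  have e : ∀ w, ((1 + A).comp ((Sym.J0 : V →L[ℝ] V).comp (1 + A).inverse)) (w + A w) =
      Sym.J0 (w - A w) := fun w => by
    have : (1 + A).inverse (w + A w) = w := hi.inverse_apply_self w
    rw [ContinuousLinearMap.comp_apply, ContinuousLinearMap.comp_apply, this, map_sub, add_apply,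
      h.2, sub_eq_add_neg]
    rfl
  refine ⟨cpt_Cay h.neg (by rwa [norm_neg]) fun w => ?_, cpt_Cay h h' e, ?_⟩
  · refine hi.inverse_apply_eq.2 ?_
    change Sym.J0 ((1 + A) _) = _
    simp only [add_apply, neg_apply, one_apply_eq_self, map_add, map_neg, map_sub, h.2]
    abel
  · have e2 : ∀ w, pj ((1 + A).comp ((Sym.J0 : V →L[ℝ] V).comp (1 + A).inverse)) ((1 + A) w) = w :=
      fun w => by
        change (1 / 2 : ℝ) • (w + A w - Sym.J0 (((1 + A).comp ((Sym.J0 : V →L[ℝ] V).comp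
          (1 + A).inverse)) (w + A w))) = w
        rw [e, Sym.sq]
        module
    refine ContinuousLinearMap.inverse_eq (ContinuousLinearMap.ext e2)
      (ContinuousLinearMap.ext fun v => ?_)
    obtain ⟨w, rfl⟩ : ∃ w, (1 + A) w = v := ⟨_, hi.self_apply_inverse v⟩
    rw [ContinuousLinearMap.comp_apply, e2]
    rfl

theorem exists_SA {v ζ : V} (hv : v ≠ 0) (hζ : ζ ≠ 0) : ∃ A : V →L[ℝ] V, SA A ∧ 0 < ⟪A v, ζ⟫ := by
  refine ⟨(innerSL ℝ v).smulRight ζ + (innerSL ℝ ζ).smulRight v -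
    (innerSL ℝ (Sym.J0 v)).smulRight (Sym.J0 ζ) - (innerSL ℝ (Sym.J0 ζ)).smulRight (Sym.J0 v),
    ⟨fun a b => ?_, fun a => ?_⟩, ?_⟩
  · simp only [add_apply, sub_apply, ContinuousLinearMap.smulRight_apply, innerSL_apply_apply,
      inner_add_left, inner_add_right, inner_sub_left, inner_sub_right, real_inner_smul_left,
      real_inner_smul_right, real_inner_comm a]
    ring
  · simp only [add_apply, sub_apply, ContinuousLinearMap.smulRight_apply, innerSL_apply_apply,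
      Sym.iso, map_add, map_sub, map_smul, Sym.sq]
    rw [inner_J0_left v a, inner_J0_left ζ a]
    module
  · have h1 : ⟪Sym.J0 v, v⟫ = 0 := by
      have := inner_J0_left v v
      rw [real_inner_comm (Sym.J0 v) v] at this
      linarith
    simp only [add_apply, sub_apply, ContinuousLinearMap.smulRight_apply, innerSL_apply_apply,
      inner_add_left, inner_sub_left, real_inner_smul_left]
    rw [h1, inner_J0_left ζ v, real_inner_comm (Sym.J0 v) ζ, real_inner_comm v ζ]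
    have := mul_pos (real_inner_self_pos.2 hv) (real_inner_self_pos.2 hζ)
    nlinarith [mul_self_nonneg ⟪v, ζ⟫, mul_self_nonneg ⟪Sym.J0 v, ζ⟫]

theorem exists_SA_seq : ∃ A : ℕ → V →L[ℝ] V, (∀ m, SA (A m)) ∧
    ∀ v ζ : V, v ≠ 0 → ζ ≠ 0 → ∃ m, ⟪A m v, ζ⟫ ≠ 0 := by
  have := FiniteDimensional.proper_real V
  have : Nonempty {B : V →L[ℝ] V // SA B} := ⟨⟨0, zero_Cay⟩⟩
  obtain ⟨u, hu⟩ := TopologicalSpace.exists_dense_seq {B : V →L[ℝ] V // SA B}
  refine ⟨fun m => u m, fun m => (u m).2, fun v ζ hv hζ => ?_⟩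
  obtain ⟨B, hB, h0⟩ := exists_SA hv hζ
  exact hu.exists_mem_open (s := {B : {B : V →L[ℝ] V // SA B} | ⟪B.1 v, ζ⟫ ≠ 0})
    (isOpen_ne_fun (by fun_prop) continuous_const) ⟨⟨B, hB⟩, h0.ne'⟩

theorem Cpt.sub_ne (h : Cpt Ω0 j) (h' : Cpt Ω0 j') {v : V} (hv : v ≠ 0) : v - j (j' v) ≠ 0 := fun e => by
  have h1 : j v = -j' v := by rw [← h.1 (j' v), ← sub_eq_zero.1 e]
  have h2 := h.2.2 v hv
  have h3 := h'.2.2 v hv
  rw [h1, Ω0, inner_neg_right] at h2
  rw [Ω0] at h3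
  linarith

theorem pj_Cay (j : V →L[ℝ] V) (v : V) : pj j v = (1 / 2 : ℝ) • (v - Sym.J0 (j v)) := rfl

theorem inner_pj_Cay (j : V →L[ℝ] V) (u v : V) : ⟪pj j u, v⟫ = (⟪u, v⟫ + Ω0 v (j u)) / 2 := by
  rw [pj_Cay, real_inner_smul_left, inner_sub_left, inner_J0_left, Ω0, real_inner_comm (j u)]
  ring

theorem le_pj_Cay (h : Cpt Ω0 j) (v : V) : ‖v‖ ≤ 2 * ‖pj j v‖ := by
  have h1 := real_inner_le_norm (pj j v) v
  have h2 := Cpt.nonneg form_Ω0 h v
  rw [inner_pj_Cay, real_inner_self_eq_norm_mul_norm] at h1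
  rcases (norm_nonneg v).eq_or_lt with h0 | h0
  · rw [← h0]
    positivity
  · exact le_of_mul_le_mul_right (by linarith) h0

theorem Cpt.pj_inv (h : Cpt Ω0 j) : (pj j).IsInvertible ∧ ‖(pj j).inverse‖ ≤ 2 := by
  have hi : (pj j).IsInvertible := inv_Cay fun v hv => by
    have := le_pj_Cay h v
    rwa [hv, norm_zero, mul_zero, norm_le_zero_iff] at this
  refine ⟨hi, ContinuousLinearMap.opNorm_le_bound _ zero_le_two fun v => ?_⟩
  have := le_pj_Cay h ((pj j).inverse v)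
  rwa [hi.self_apply_inverse] at this

theorem Cpt.pj_left (h : Cpt Ω0 j) (v : V) : (pj j).inverse (pj j v) = v := (Cpt.pj_inv h).1.inverse_apply_self v

theorem Cpt.pj_right (h : Cpt Ω0 j) (v : V) : pj j ((pj j).inverse v) = v := (Cpt.pj_inv h).1.self_apply_inverse v

theorem Cpt.pj_comm (h : Cpt Ω0 j) (v : V) : pj j (j v) = Sym.J0 (pj j v) := by
  rw [pj_Cay, pj_Cay, h.1, map_smul, map_sub, map_neg, Sym.sq]
  module

theorem Cpt.pj_symm (h : Cpt Ω0 j) (u v : V) :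
    ⟪pj j u, v⟫ = ⟪u, pj j v⟫ ∧ ⟪(pj j).inverse u, v⟫ = ⟪u, (pj j).inverse v⟫ := by
  have e : ∀ u v, ⟪pj j u, v⟫ = ⟪u, pj j v⟫ := fun u v => by
    rw [real_inner_comm (pj j v), inner_pj_Cay, inner_pj_Cay, real_inner_comm u,
      Cpt.symm form_Ω0 h]
  refine ⟨e u v, ?_⟩
  conv_lhs => rw [← Cpt.pj_right h v, ← e, Cpt.pj_right h]

theorem Cpt.SA_pj (h : Cpt Ω0 j) : SA ((pj j).inverse - 1) ∧ ‖(pj j).inverse - 1‖ < 1 := by
  have e : ∀ w, ((pj j).inverse - 1) (pj j w) = w - pj j w := fun w => by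
    rw [sub_apply, Cpt.pj_left h]
    rfl
  have hs : ∀ v, ∃ w, pj j w = v := fun v => ⟨_, Cpt.pj_right h v⟩
  refine ⟨⟨fun u v => ?_, fun v => ?_⟩, ?_⟩
  · simp only [sub_apply, one_apply_eq_self, inner_sub_left, inner_sub_right,
      (Cpt.pj_symm h u v).2]
  · obtain ⟨w, rfl⟩ := hs v
    rw [← Cpt.pj_comm h, e, e, Cpt.pj_comm h, map_sub, pj_Cay, map_smul, map_sub, Sym.sq]
    module
  · have := FiniteDimensional.proper_real V
    obtain ⟨v, hv, hm⟩ := (isCompact_closedBall (0 : V) 1).exists_isMaxOn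
      ⟨0, Metric.mem_closedBall_self zero_le_one⟩
      (f := fun v => ‖((pj j).inverse - 1) v‖) (by fun_prop)
    refine (ContinuousLinearMap.opNorm_le_of_unit_norm (norm_nonneg _) fun x hx =>
      hm (mem_closedBall_zero_iff.2 hx.le)).trans_lt ?_
    obtain ⟨w, rfl⟩ := hs v
    rcases eq_or_ne w 0 with rfl | hw
    · simp
    refine lt_of_lt_of_le ?_ (mem_closedBall_zero_iff.1 hv)
    have h1 := h.2.2 w hw
    have h2 := inner_pj_Cay j w w
    rw [e, ← sq_lt_sq₀ (norm_nonneg _) (norm_nonneg _), norm_sub_sq_real, real_inner_comm, h2,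
      real_inner_self_eq_norm_sq]
    linarith

end

end Pool.Agent.P.MP_de3acd_gt.FH
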