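import Pool.Agent.P.MP_de3acd_gt.FH.OpsA

/-! Injectivity of the inclusions and the calculus of representatives.
Sketch: for test functions ip k φ ψ = ip 0 φ (L k ψ) with a test function L k ψ depending only on ψ
(L 0 ψ = ψ, L (k+1) ψ = ψ - ds (L k (ds ψ)) - dt (L k (dt ψ)), ip_ds, ip_dt). By density
⟪ξ, co k ψ⟫ = ⟪to0 k ξ, co 0 (L k ψ)⟫, so to0 k ξ = 0 forces ξ ⟂ range co, ξ = 0.
Rep.dS: ⟪to0 k (dS k ξ), co 0 ψ⟫ = -⟪to0 (k+1) ξ, co 0 (ds ψ)⟫ by density, then ip_ds. integrableOn_inner gives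
additivity of ip 0 in a continuous f. -/

open Set Filter Topology MeasureTheory
open scoped ContDiff NNReal ENNReal RealInnerProductSpace

namespace Pool.Agent.P.MP_de3acd_gt.FH

noncomputable section

variable {U U₁ U₂ : Type} [NormedAddCommGroup U] [InnerProductSpace ℝ U] [NormedAddCommGroup U₁]
  [InnerProductSpace ℝ U₁] [NormedAddCommGroup U₂] [InnerProductSpace ℝ U₂]

theorem inner_dS_Inj (k : ℕ) (ξ : W (k + 1) U) (ψ : Dsub U) :
    ⟪to0 k (dS k ξ), co 0 ψ⟫ = -⟪to0 (k + 1) ξ, co 0 ⟨ds ψ.1, ds_mem ψ.2⟩⟫ := by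
  refine W.induction (P := fun ξ => ⟪to0 k (dS k ξ), co 0 ψ⟫ =
    -⟪to0 (k + 1) ξ, co 0 ⟨ds ψ.1, ds_mem ψ.2⟩⟫) (isClosed_eq (by fun_prop) (by fun_prop))
    (fun φ => ?_) ξ
  rw [dS_co, to0_co, to0_co, inner_co, inner_co]
  exact ip_ds φ.2 ψ.2.1

theorem inner_dT_Inj (k : ℕ) (ξ : W (k + 1) U) (ψ : Dsub U) :
    ⟪to0 k (dT k ξ), co 0 ψ⟫ = -⟪to0 (k + 1) ξ, co 0 ⟨dt ψ.1, dt_mem ψ.2⟩⟫ := by
  refine W.induction (P := fun ξ => ⟪to0 k (dT k ξ), co 0 ψ⟫ =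
    -⟪to0 (k + 1) ξ, co 0 ⟨dt ψ.1, dt_mem ψ.2⟩⟫) (isClosed_eq (by fun_prop) (by fun_prop))
    (fun φ => ?_) ξ
  rw [dT_co, to0_co, to0_co, inner_co, inner_co]
  exact ip_dt φ.2 ψ.2.1 ψ.2.2.1

theorem exists_dual_Inj (k : ℕ) (ψ : Dsub U) :
    ∃ χ : Dsub U, ∀ ξ : W k U, ⟪ξ, co k ψ⟫ = ⟪to0 k ξ, co 0 χ⟫ := by
  induction k generalizing ψ with
  | zero => exact ⟨ψ, fun _ => rfl⟩
  | succ k ih =>
    obtain ⟨χ₁, h₁⟩ := ih ⟨ds ψ.1, ds_mem ψ.2⟩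
    obtain ⟨χ₂, h₂⟩ := ih ⟨dt ψ.1, dt_mem ψ.2⟩
    refine ⟨ψ - ⟨ds χ₁.1, ds_mem χ₁.2⟩ - ⟨dt χ₂.1, dt_mem χ₂.2⟩, fun ξ => ?_⟩
    rw [inner_succ, to0_co, dS_co, dT_co, h₁, h₂, inner_dS_Inj, inner_dT_Inj, map_sub, map_sub,
      inner_sub_right, inner_sub_right]
    ring

theorem ip_add_Inj {f g : Pl → U} (hf : Continuous f) (hg : Continuous g) (ψ : Dsub U) :
    ip 0 (f + g) ψ.1 = ip 0 f ψ.1 + ip 0 g ψ.1 := by
  rw [ip_comm 0 (f + g), ip_comm 0 f, ip_comm 0 g]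
  simp only [ip, Pi.add_apply, inner_add_right]
  exact integral_add (integrableOn_inner ψ.2 hf) (integrableOn_inner ψ.2 hg)

theorem ip_sub_Inj {f g : Pl → U} (hf : Continuous f) (hg : Continuous g) (ψ : Dsub U) :
    ip 0 (f - g) ψ.1 = ip 0 f ψ.1 - ip 0 g ψ.1 := by
  rw [ip_comm 0 (f - g), ip_comm 0 f, ip_comm 0 g]
  simp only [ip, Pi.sub_apply, inner_sub_right]
  exact integral_sub (integrableOn_inner ψ.2 hf) (integrableOn_inner ψ.2 hg)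

theorem eq_zero_of_inner_co {k : ℕ} {ξ : W k U} (h : ∀ ψ : Dsub U, ⟪to0 k ξ, co 0 ψ⟫ = 0) : ξ = 0 := by
  have h1 : ∀ η : W k U, ⟪ξ, η⟫ = 0 := fun η => by
    refine W.induction (P := fun η => ⟪ξ, η⟫ = 0) (isClosed_eq (by fun_prop) (by fun_prop))
      (fun ψ => ?_) η
    obtain ⟨χ, hχ⟩ := exists_dual_Inj k ψ
    rw [hχ, h]
  exact inner_self_eq_zero.1 (h1 ξ)

theorem to0_injective (k : ℕ) : Function.Injective (to0 k : W k U → W 0 U) :=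
  (injective_iff_map_eq_zero _).2 fun _ h => eq_zero_of_inner_co fun _ => by
    rw [h, inner_zero_left]

theorem inc_injective (k : ℕ) : Function.Injective (inc k : W (k + 1) U → W k U) :=
  fun _ _ h => to0_injective (k + 1) (by rw [to0_succ, to0_succ, h])

theorem denseRange_inc (k : ℕ) : DenseRange (inc k : W (k + 1) U → W k U) := by
  refine Dense.mono ?_ (denseRange_co k)
  rintro _ ⟨φ, rfl⟩
  exact ⟨co (k + 1) φ, inc_co k φ⟩

theorem rep_co (k : ℕ) (φ : Dsub U) : Rep k (co k φ) φ.1 := fun ψ => by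
  rw [to0_co, inner_co]

theorem Rep.unique {k : ℕ} {ξ η : W k U} {f : Pl → U} (h : Rep k ξ f) (h' : Rep k η f) : ξ = η :=
  sub_eq_zero.1 (eq_zero_of_inner_co fun ψ => by
    rw [map_sub, inner_sub_left, h ψ, h' ψ, sub_self])

theorem Rep.eq_fun {k : ℕ} {ξ : W k U} {f g : Pl → U} (h : Rep k ξ f) (h' : Rep k ξ g)
    (hf : Continuous f) (pf : Per f) (hg : Continuous g) (pg : Per g) : f = g := by
  refine sub_eq_zero.1 (eq_zero_of_ip (hf.sub hg) (fun s t => ?_) fun ψ hψ => ?_)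
  · rw [Pi.sub_apply, Pi.sub_apply, pf s t, pg s t]
  · have := ip_sub_Inj hf hg ⟨ψ, hψ⟩
    rwa [← h ⟨ψ, hψ⟩, ← h' ⟨ψ, hψ⟩, sub_self] at this

theorem Rep.toW_eq {k : ℕ} {ξ : W k U} {f : Pl → U} (h : Rep k ξ f) : toW k f = ξ :=
  Rep.unique (Classical.epsilon_spec (p := fun ξ => Rep k ξ f) ⟨ξ, h⟩) h

theorem toW_co (k : ℕ) (φ : Dsub U) : toW k φ.1 = co k φ := (rep_co k φ).toW_eq

theorem rep_toW_of_mem (k : ℕ) {φ : Pl → U} (h : φ ∈ Dsub U) : Rep k (toW k φ) φ := by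
  have := rep_co k (⟨φ, h⟩ : Dsub U)
  rwa [← toW_co] at this

theorem rep_zero (k : ℕ) : Rep k (0 : W k U) 0 := fun ψ => by
  simp [ip]

theorem Rep.add {k : ℕ} {ξ η : W k U} {f g : Pl → U} (h : Rep k ξ f) (h' : Rep k η g)
    (hf : Continuous f) (hg : Continuous g) : Rep k (ξ + η) (f + g) := fun ψ => by
  rw [map_add, inner_add_left, h ψ, h' ψ, ip_add_Inj hf hg]

theorem Rep.sub {k : ℕ} {ξ η : W k U} {f g : Pl → U} (h : Rep k ξ f) (h' : Rep k η g)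
    (hf : Continuous f) (hg : Continuous g) : Rep k (ξ - η) (f - g) := fun ψ => by
  rw [map_sub, inner_sub_left, h ψ, h' ψ, ip_sub_Inj hf hg]

theorem Rep.smul {k : ℕ} {ξ : W k U} {f : Pl → U} (h : Rep k ξ f) (r : ℝ) : Rep k (r • ξ) (r • f) :=
  fun ψ => by
    rw [map_smul, real_inner_smul_left, h ψ]
    simp only [ip, Pi.smul_apply, real_inner_smul_left, integral_const_mul]

theorem Rep.neg {k : ℕ} {ξ : W k U} {f : Pl → U} (h : Rep k ξ f) : Rep k (-ξ) (-f) := by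
  have := h.smul (-1)
  rwa [neg_one_smul, neg_one_smul] at this

theorem Rep.sum {k : ℕ} {ι : Type} (s : Finset ι) {ξ : ι → W k U} {f : ι → Pl → U}
    (h : ∀ i ∈ s, Rep k (ξ i) (f i)) (hf : ∀ i ∈ s, Continuous (f i)) :
    Rep k (∑ i ∈ s, ξ i) (∑ i ∈ s, f i) := by
  classical
  induction s using Finset.induction_on with
  | empty => exact rep_zero k
  | insert a s ha ih =>
    rw [Finset.sum_insert ha, Finset.sum_insert ha]
    have hs : ∀ i ∈ s, Continuous (f i) := fun i hi => hf i (Finset.mem_insert_of_mem hi)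
    refine (h a (Finset.mem_insert_self a s)).add
      (ih (fun i hi => h i (Finset.mem_insert_of_mem hi)) hs) (hf a (Finset.mem_insert_self a s)) ?_
    rw [Finset.sum_fn]
    exact continuous_finsetSum s hs

theorem rep_inc {k : ℕ} {ξ : W (k + 1) U} {f : Pl → U} : Rep k (inc k ξ) f ↔ Rep (k + 1) ξ f :=
  Iff.rfl

theorem rep_to0 {k : ℕ} {ξ : W k U} {f : Pl → U} : Rep 0 (to0 k ξ) f ↔ Rep k ξ f := Iff.rfl

theorem Rep.dS {k : ℕ} {ξ : W (k + 1) U} {f : Pl → U} (h : Rep (k + 1) ξ f) (hf : ContDiff ℝ ∞ f) :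
    Rep k (dS k ξ) (ds f) := fun ψ => by
  rw [inner_dS_Inj, h, ip_comm 0 f, ip_comm 0 (ds f), ip_ds ψ.2 hf, neg_neg]

theorem Rep.dT {k : ℕ} {ξ : W (k + 1) U} {f : Pl → U} (h : Rep (k + 1) ξ f) (hf : ContDiff ℝ ∞ f)
    (hp : Per f) : Rep k (dT k ξ) (dt f) := fun ψ => by
  rw [inner_dT_Inj, h, ip_comm 0 f, ip_comm 0 (dt f), ip_dt ψ.2 hf hp, neg_neg]

theorem Rep.trW {k : ℕ} {ξ : W k U} {f : Pl → U} (h : Rep k ξ f) (hf : Continuous f) (hp : Per f)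
    (a : Pl) : Rep k (trW k a ξ) (tsl a f) := fun ψ => by
  rw [to0_trW, inner_trW_left, trW_co, h, ip_zero, ip_zero]
  have hψ := tsl_mem ψ.2 (-a)
  have := integral_tsl (f := fun p => ⟪f p, tsl (-a) ψ.1 p⟫) (hf.inner hψ.1.continuous)
    (fun s t => by simp only [hp s t, hψ.2.1 s t]) a
  rw [← this]
  simp only [tsl, add_neg_cancel_right]

theorem Rep.eq_zero {k : ℕ} {ξ : W k U} {f : Pl → U} (h : Rep k ξ f) (hf : Continuous f)
    (hp : Per f) : ξ = 0 ↔ f = 0 := by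
  constructor
  · rintro rfl
    exact h.eq_fun (rep_zero k) hf hp continuous_const fun _ _ => rfl
  · rintro rfl
    exact h.unique (rep_zero k)

end

end Pool.Agent.P.MP_de3acd_gt.FH
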