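import Pool.Agent.P.MP_de3acd_gt.FH.Mul
import Pool.Agent.P.MP_de3acd_gt.FH.Inj
import Pool.Agent.P.MP_de3acd_gt.FH.Cut

/-! Smooth families with values in Cb and in W k.
Sketch: hasFDerivAt_toCb: the candidate is the linear map v ↦ toCb (p ↦ fderiv (f · p) a v), continuous because Λ is
finite-dimensional; Cn 2 of the remainder f (a+v) - f a - ... is at most C ‖v‖^2 by cn_of_iteratedFDeriv-like bounds:
the derivatives in p of the remainder are Taylor remainders of the functions (a,p) ↦ ds (f a) p etc., which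
again satisfy SFam (prove SFam.ds, SFam.dt, SFam.fderiv), so prove by induction on k:
Cn k (remainder) univ (C ‖v‖^2) for ‖v‖ ≤ 1. contDiff_toCb: contDiff_infty, induction on n for all f (fixed F),
contDiff_succ_iff_fderiv and contDiff_clm_apply_iff. toW families: toW k (f a) = mul k B (toCb (f a)) (co k χ)
with χ = plat and B = (lsmul).flip (mul_co, toW_co); SFam from compact support and periodicity. -/

set_option linter.unusedSectionVars false

open Set Filter Topology MeasureTheory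
open scoped ContDiff NNReal ENNReal RealInnerProductSpace

namespace Pool.Agent.P.MP_de3acd_gt.FH

noncomputable section

variable {U U₁ U₂ : Type} [NormedAddCommGroup U] [InnerProductSpace ℝ U] [NormedAddCommGroup U₁]
  [InnerProductSpace ℝ U₁] [NormedAddCommGroup U₂] [InnerProductSpace ℝ U₂]
variable {F F₁ F₂ : Type} [NormedAddCommGroup F] [NormedSpace ℝ F] [NormedAddCommGroup F₁]
  [NormedSpace ℝ F₁] [NormedAddCommGroup F₂] [NormedSpace ℝ F₂]
variable {C Λ : Type} [NormedAddCommGroup C] [NormedSpace ℝ C] [FiniteDimensional ℝ C]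
  [NormedAddCommGroup Λ] [NormedSpace ℝ Λ] [FiniteDimensional ℝ Λ]

/-- Directional derivative of a family in all variables. -/
def dd_CbFam (f : Λ → Pl → F) (w : Λ × Pl) (a : Λ) (p : Pl) : F :=
  fderiv ℝ (fun q : Λ × Pl => f q.1 q.2) (a, p) w

theorem shift_CbFam {f : Λ → Pl → F} (hp : ∀ a, Per (f a)) (m : ℤ) :
    (fun q : Λ × Pl => f q.1 q.2) =
      fun q : Λ × Pl => (fun q : Λ × Pl => f q.1 q.2) (q + (0, 0, (m : ℝ))) := by
  funext q
  simp only [Prod.fst_add, Prod.snd_add, add_zero]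
  rw [← (hp q.1).int q.2.1 q.2.2 m]
  exact congrArg _ (Prod.ext (by simp) rfl)

theorem sfam_dd_CbFam {f : Λ → Pl → F} (h : SFam f) (w : Λ × Pl) : SFam (dd_CbFam f w) := by
  have h1 : ContDiff ℝ ∞ (fderiv ℝ fun q : Λ × Pl => f q.1 q.2) :=
    h.smooth.fderiv_right (m := ∞) le_rfl
  refine ⟨h1.clm_apply contDiff_const, fun a s t => ?_, fun k R => ?_⟩
  · unfold dd_CbFam
    conv_rhs =>
      rw [shift_CbFam h.per 1, fderiv_comp_add_right (f := fun q : Λ × Pl => f q.1 q.2)]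
    congr 2
    exact Prod.ext (by simp) (Prod.ext (by simp) (by simp))
  · obtain ⟨A, hA⟩ := h.bdd (k + 1) R
    refine ⟨‖w‖ * A, fun q hq => ?_⟩
    refine (norm_iteratedFDeriv_clm_apply_const (N := ∞) h1.contDiffAt
      (by exact_mod_cast le_top)).trans (mul_le_mul_of_nonneg_left ?_ (norm_nonneg _))
    rw [norm_iteratedFDeriv_fderiv]
    exact hA q hq

theorem fderiv_left_CbFam {f : Λ → Pl → F} (h : ContDiff ℝ ∞ fun q : Λ × Pl => f q.1 q.2)
    (a v : Λ) (p : Pl) : fderiv ℝ (fun a => f a p) a v = dd_CbFam f (v, 0) a p := by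
  have h1 := (h.differentiable (by simp) (a, p)).hasFDerivAt.comp a
    (hasFDerivAt_prodMk_left (𝕜 := ℝ) a p)
  exact congrArg (fun T : Λ →L[ℝ] F => T v) h1.fderiv

theorem fderiv_right_CbFam {f : Λ → Pl → F} (h : ContDiff ℝ ∞ fun q : Λ × Pl => f q.1 q.2)
    (a : Λ) (p v : Pl) : fderiv ℝ (f a) p v = dd_CbFam f (0, v) a p := by
  have h1 := (h.differentiable (by simp) (a, p)).hasFDerivAt.comp p
    (hasFDerivAt_prodMk_right (𝕜 := ℝ) a p)
  exact congrArg (fun T : Pl →L[ℝ] F => T v) h1.fderiv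

theorem ds_CbFam {f : Λ → Pl → F} (h : SFam f) (a : Λ) :
    ds (f a) = dd_CbFam f (0, 1, 0) a := funext fun p => fderiv_right_CbFam h.smooth a p _

theorem dt_CbFam {f : Λ → Pl → F} (h : SFam f) (a : Λ) :
    dt (f a) = dd_CbFam f (0, 0, 1) a := funext fun p => fderiv_right_CbFam h.smooth a p _

theorem comm_CbFam {f : Λ → Pl → F} (h : SFam f) (v w : Λ × Pl) :
    dd_CbFam (dd_CbFam f v) w = dd_CbFam (dd_CbFam f w) v := by
  funext a p
  have h2 : DifferentiableAt ℝ (fderiv ℝ fun q : Λ × Pl => f q.1 q.2) (a, p) :=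
    (h.smooth.fderiv_right (m := ∞) le_rfl).differentiable (by simp) _
  have e : ∀ v w : Λ × Pl, dd_CbFam (dd_CbFam f v) w a p =
      fderiv ℝ (fderiv ℝ fun q : Λ × Pl => f q.1 q.2) (a, p) w v := fun v w => by
    change fderiv ℝ (fun q => fderiv ℝ (fun q : Λ × Pl => f q.1 q.2) q v) (a, p) w = _
    rw [fderiv_clm_apply h2 (differentiableAt_const _)]
    simp
  exact (e _ _).trans (((h.smooth.contDiffAt.isSymmSndFDerivAt (by
    rw [minSmoothness_of_isRCLikeNormedField]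
    exact WithTop.coe_le_coe.2 le_top)).eq _ _).trans (e _ _).symm)

theorem smooth_at_CbFam {f : Λ → Pl → F} (h : ContDiff ℝ ∞ fun q : Λ × Pl => f q.1 q.2) (a : Λ) :
    ContDiff ℝ ∞ (f a) := h.comp (contDiff_const.prodMk contDiff_id)

theorem cn_CbFam (k : ℕ) {f : Λ → Pl → F} (h : SFam f) (a : Λ) : ∃ A, Cn k (f a) univ A := by
  have h0 : ∀ {f : Λ → Pl → F}, SFam f → ∃ A, Cn 0 (f a) univ A := fun h => by
    obtain ⟨A, hA⟩ := h.bdd 0 ‖a‖
    exact ⟨A, fun p _ => by simpa using hA (a, p) le_rfl⟩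
  induction k generalizing f with
  | zero => exact h0 h
  | succ k ih =>
    obtain ⟨A, hA⟩ := h0 h
    obtain ⟨A1, h1⟩ := ih (sfam_dd_CbFam h (0, 1, 0))
    obtain ⟨A2, h2⟩ := ih (sfam_dd_CbFam h (0, 0, 1))
    refine ⟨max A (max A1 A2), (cn_succ _ _ _ _).2 ⟨hA.mono le_rfl subset_rfl (le_max_left _ _),
      ?_, ?_⟩⟩
    · rw [ds_CbFam h]
      exact h1.mono le_rfl subset_rfl (le_max_of_le_right (le_max_left _ _))
    · rw [dt_CbFam h]
      exact h2.mono le_rfl subset_rfl (le_max_of_le_right (le_max_right _ _))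

theorem taylor_CbFam {f : Λ → Pl → F} (h : SFam f) (a : Λ) : ∃ A, 0 ≤ A ∧ ∀ v : Λ, ‖v‖ ≤ 1 →
    Cn 0 (f (a + v) - f a - dd_CbFam f (v, 0) a) univ (A * ‖v‖ ^ 2) := by
  obtain ⟨A, hA⟩ := h.bdd 2 (‖a‖ + 1)
  have h1 : ContDiff ℝ ∞ (fderiv ℝ fun q : Λ × Pl => f q.1 q.2) :=
    h.smooth.fderiv_right (m := ∞) le_rfl
  have hA0 : 0 ≤ A := (norm_nonneg _).trans (hA (a, 0) (by simp))
  refine ⟨A, hA0, fun v hv p _ => ?_⟩
  have hb : ∀ q ∈ Metric.closedBall (a, p) ‖v‖,
      ‖fderiv ℝ (fderiv ℝ fun q : Λ × Pl => f q.1 q.2) q‖ ≤ A := fun q hq => by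
    rw [← norm_iteratedFDeriv_one, norm_iteratedFDeriv_fderiv]
    refine hA q ?_
    have h2 : ‖q.1 - a‖ ≤ ‖v‖ := (norm_fst_le (q - (a, p))).trans (mem_closedBall_iff_norm.1 hq)
    have h3 := norm_add_le (q.1 - a) a
    rw [sub_add_cancel] at h3
    linarith
  have hc : (a, p) ∈ Metric.closedBall (a, p) ‖v‖ := Metric.mem_closedBall_self (norm_nonneg v)
  have hl : ∀ q ∈ Metric.closedBall (a, p) ‖v‖,
      ‖fderiv ℝ (fun q : Λ × Pl => f q.1 q.2) q - fderiv ℝ (fun q : Λ × Pl => f q.1 q.2) (a, p)‖ ≤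
        A * ‖v‖ := fun q hq =>
    ((convex_closedBall _ _).norm_image_sub_le_of_norm_fderiv_le
      (fun q _ => h1.differentiable (by simp) q) hb hc hq).trans
      (mul_le_mul_of_nonneg_left (mem_closedBall_iff_norm.1 hq) hA0)
  have e : (a + v, p) - (a, p) = (v, 0) := by simp
  have hn : ‖((v, 0) : Λ × Pl)‖ = ‖v‖ := by simp
  have h4 := (convex_closedBall _ _).norm_image_sub_le_of_norm_fderiv_le'
    (fun q _ => h.smooth.differentiable (by simp) q) hl hc
    (y := (a + v, p)) (by rw [mem_closedBall_iff_norm, e, hn])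
  rw [e, hn, mul_assoc, ← sq] at h4
  exact h4

theorem fderiv_sub3_CbFam {f g u : Pl → F} (hf : ContDiff ℝ ∞ f) (hg : ContDiff ℝ ∞ g)
    (hu : ContDiff ℝ ∞ u) (p v : Pl) :
    fderiv ℝ (f - g - u) p v = fderiv ℝ f p v - fderiv ℝ g p v - fderiv ℝ u p v := by
  have h1 := hf.differentiable (by simp) p
  have h2 := hg.differentiable (by simp) p
  rw [fderiv_sub (h1.sub h2) (hu.differentiable (by simp) p), fderiv_sub h1 h2]
  rfl

theorem rem_CbFam (k : ℕ) {f : Λ → Pl → F} (h : SFam f) (a : Λ) : ∃ A, 0 ≤ A ∧ ∀ v : Λ, ‖v‖ ≤ 1 →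
    Cn k (f (a + v) - f a - dd_CbFam f (v, 0) a) univ (A * ‖v‖ ^ 2) := by
  induction k generalizing f with
  | zero => exact taylor_CbFam h a
  | succ k ih =>
    obtain ⟨A, p0, h0⟩ := taylor_CbFam h a
    obtain ⟨A1, -, h1⟩ := ih (sfam_dd_CbFam h (0, 1, 0))
    obtain ⟨A2, -, h2⟩ := ih (sfam_dd_CbFam h (0, 0, 1))
    have key : ∀ (v : Λ) (w p : Pl), fderiv ℝ (f (a + v) - f a - dd_CbFam f (v, 0) a) p w =
        (dd_CbFam f (0, w) (a + v) - dd_CbFam f (0, w) a -
          dd_CbFam (dd_CbFam f (0, w)) (v, 0) a) p := fun v w p => by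
      have h3 := sfam_dd_CbFam h (v, 0)
      rw [fderiv_sub3_CbFam (smooth_at_CbFam h.smooth _) (smooth_at_CbFam h.smooth _)
        (smooth_at_CbFam h3.smooth _), fderiv_right_CbFam h.smooth, fderiv_right_CbFam h.smooth,
        fderiv_right_CbFam h3.smooth, comm_CbFam h]
      rfl
    refine ⟨max A (max A1 A2), le_max_of_le_left p0, fun v hv => (cn_succ _ _ _ _).2
      ⟨(h0 v hv).mono le_rfl subset_rfl ?_, ?_, ?_⟩⟩
    · exact mul_le_mul_of_nonneg_right (le_max_left _ _) (sq_nonneg _)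
    · rw [show ds (f (a + v) - f a - dd_CbFam f (v, 0) a) = _ from funext (key v (1, 0))]
      exact (h1 v hv).mono le_rfl subset_rfl (mul_le_mul_of_nonneg_right
        (le_max_of_le_right (le_max_left _ _)) (sq_nonneg _))
    · rw [show dt (f (a + v) - f a - dd_CbFam f (v, 0) a) = _ from funext (key v (0, 1))]
      exact (h2 v hv).mono le_rfl subset_rfl (mul_le_mul_of_nonneg_right
        (le_max_of_le_right (le_max_right _ _)) (sq_nonneg _))

theorem SFam.bdd_at {f : Λ → Pl → F} (h : SFam f) (a : Λ) : Bdd (f a) :=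
  bdd_iff.2 ⟨smooth_at_CbFam h.smooth a, fun k => cn_CbFam k h a⟩

theorem SFam.fderiv {f : Λ → Pl → F} (h : SFam f) (v : Λ) :
    SFam fun a p => fderiv ℝ (fun a => f a p) a v := by
  rw [show (fun a p => _root_.fderiv ℝ (fun a => f a p) a v) = dd_CbFam f (v, 0) from
    funext fun a => funext fun p => fderiv_left_CbFam h.smooth a v p]
  exact sfam_dd_CbFam h _

theorem hasFDerivAt_CbFam {f : Λ → Pl → F} (h : SFam f) (a : Λ) : ∃ T : Λ →L[ℝ] Cb F,
    HasFDerivAt (fun a => toCb (f a)) T a ∧ ∀ v, T v = toCb (dd_CbFam f (v, 0) a) := by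
  have hfn : ∀ v : Λ, Cb.fn (toCb (dd_CbFam f (v, 0) a)) = dd_CbFam f (v, 0) a := fun v =>
    fn_toCb ((sfam_dd_CbFam h _).bdd_at a) ((sfam_dd_CbFam h _).per a)
  let L : Λ →ₗ[ℝ] Cb F :=
    { toFun := fun v => toCb (dd_CbFam f (v, 0) a)
      map_add' := fun v w => Cb.ext (by
        rw [map_add, hfn, hfn, hfn]
        funext p
        simp only [dd_CbFam, Pi.add_apply]
        rw [← map_add, Prod.mk_add_mk, add_zero])
      map_smul' := fun c v => Cb.ext (by
        rw [map_smul, hfn, hfn]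
        funext p
        simp only [dd_CbFam, Pi.smul_apply, RingHom.id_apply]
        rw [← map_smul, Prod.smul_mk, smul_zero]) }
  refine ⟨LinearMap.toContinuousLinearMap L, ?_, fun _ => rfl⟩
  obtain ⟨A, hA, hr⟩ := rem_CbFam 2 h a
  rw [hasFDerivAt_iff_isLittleO_nhds_zero]
  refine Asymptotics.IsBigO.trans_isLittleO ?_ (Asymptotics.isLittleO_norm_pow_id one_lt_two)
  refine Asymptotics.IsBigO.of_bound A ?_
  filter_upwards [Metric.closedBall_mem_nhds (0 : Λ) one_pos] with v hv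
  rw [Real.norm_of_nonneg (sq_nonneg _)]
  refine Cb.norm_le _ (mul_nonneg hA (sq_nonneg _)) ?_
  rw [map_sub, map_sub, fn_toCb (h.bdd_at _) (h.per _), fn_toCb (h.bdd_at _) (h.per _)]
  change Cn 2 (f (a + v) - f a - Cb.fn (toCb (dd_CbFam f (v, 0) a))) univ _
  rw [hfn]
  exact hr v (mem_closedBall_zero_iff.1 hv)

theorem fderiv_toCb_CbFam {f : Λ → Pl → F} (h : SFam f) (a v : Λ) :
    fderiv ℝ (fun a => toCb (f a)) a v = toCb (dd_CbFam f (v, 0) a) := by
  obtain ⟨T, h1, h2⟩ := hasFDerivAt_CbFam h a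
  rw [h1.fderiv, h2]

theorem SFam.contDiff {f : Λ → Pl → F} (h : SFam f) : ContDiff ℝ ∞ fun a => toCb (f a) := by
  have hd : ∀ {f : Λ → Pl → F}, SFam f → Differentiable ℝ fun a => toCb (f a) := fun h a =>
    (hasFDerivAt_CbFam h a).choose_spec.1.differentiableAt
  refine contDiff_infty.2 fun n => ?_
  induction n generalizing f with
  | zero => exact contDiff_zero.2 (hd h).continuous
  | succ n ih =>
    rw [Nat.cast_succ, contDiff_succ_iff_fderiv_apply]
    refine ⟨hd h, by simp, fun v => ?_⟩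
    simp only [fderiv_toCb_CbFam h]
    exact ih (sfam_dd_CbFam h _)

theorem SFam.fderiv_toCb {f : Λ → Pl → F} (h : SFam f) (a v : Λ) :
    _root_.fderiv ℝ (fun a => toCb (f a)) a v =
      toCb fun p => _root_.fderiv ℝ (fun a => f a p) a v := by
  rw [fderiv_toCb_CbFam h]
  exact congrArg toCb (funext fun p => (fderiv_left_CbFam h.smooth a v p).symm)

theorem comp_CbFam {G : Type} [NormedAddCommGroup G] [NormedSpace ℝ G] {f : Pl → F} (h : Bdd f)
    (L : G →L[ℝ] Pl) (k : ℕ) : ∃ A, ∀ q, ‖iteratedFDeriv ℝ k (f ∘ L) q‖ ≤ A := by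
  obtain ⟨A, hA⟩ := h.2 k
  refine ⟨A * ∏ _i : Fin k, ‖L‖, fun q => ?_⟩
  rw [L.iteratedFDeriv_comp_right h.1 q (by exact_mod_cast le_top)]
  exact (ContinuousMultilinearMap.norm_compContinuousLinearMap_le _ _).trans
    (mul_le_mul_of_nonneg_right (hA _) (Finset.prod_nonneg fun _ _ => norm_nonneg _))

theorem sfam_const {f : Pl → F} (h : Bdd f) (hp : Per f) : SFam fun _ : Λ => f :=
  ⟨h.1.comp contDiff_snd, fun _ => hp, fun k _ =>
    (comp_CbFam h (ContinuousLinearMap.snd ℝ Λ Pl) k).imp fun _ hA q _ => hA q⟩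

theorem sfam_param : SFam fun (a : Λ) (_ : Pl) => a := by
  refine ⟨contDiff_fst, fun _ _ _ => rfl, fun k R => ?_⟩
  have e : (fderiv ℝ fun q : Λ × Pl => q.1) = fun _ => ContinuousLinearMap.fst ℝ Λ Pl :=
    funext fun _ => fderiv_fst
  rcases k with _ | _ | k
  · exact ⟨R, fun q hq => by simpa using hq⟩
  · refine ⟨‖ContinuousLinearMap.fst ℝ Λ Pl‖, fun q _ => ?_⟩
    rw [← norm_iteratedFDeriv_fderiv, e, norm_iteratedFDeriv_zero]
  · refine ⟨0, fun q _ => ?_⟩
    rw [← norm_iteratedFDeriv_fderiv, e, iteratedFDeriv_succ_const]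
    simp

theorem sfam_tsl {f : Pl → F} (h : Bdd f) (hp : Per f) : SFam fun a : Pl => tsl a f :=
  ⟨h.1.comp (contDiff_snd.add contDiff_fst), fun a => hp.tsl a, fun k _ =>
    (comp_CbFam h (ContinuousLinearMap.snd ℝ Pl Pl + ContinuousLinearMap.fst ℝ Pl Pl) k).imp
      fun _ hA q _ => hA q⟩

theorem SFam.prod {f : Λ → Pl → F} {g : Λ → Pl → F₁} (h : SFam f) (h' : SFam g) :
    SFam fun a p => (f a p, g a p) := by
  refine ⟨h.smooth.prodMk h'.smooth, fun a s t => Prod.ext (h.per a s t) (h'.per a s t),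
    fun k R => ?_⟩
  obtain ⟨A, hA⟩ := h.bdd k R
  obtain ⟨A', hA'⟩ := h'.bdd k R
  refine ⟨max A A', fun q hq => ?_⟩
  rw [iteratedFDeriv_prodMk h.smooth.contDiffAt h'.smooth.contDiffAt (by exact_mod_cast le_top),
    ContinuousMultilinearMap.opNorm_prod]
  exact max_le_max (hA q hq) (hA' q hq)

theorem sfam_of_supp {f : Λ → Pl → F} (h : ContDiff ℝ ∞ fun q : Λ × Pl => f q.1 q.2)
    (hp : ∀ a, Per (f a)) {R : ℝ} (h0 : ∀ a (p : Pl), R ≤ |p.1| → f a p = 0) : SFam f := by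
  refine ⟨h, hp, fun k S => ?_⟩
  have : ProperSpace Λ := FiniteDimensional.proper_real Λ
  have hK : IsCompact (Metric.closedBall (0 : Λ) S ×ˢ Icc (-R) R ×ˢ Icc (0 : ℝ) 1) :=
    (isCompact_closedBall _ _).prod (isCompact_Icc.prod isCompact_Icc)
  obtain ⟨A, hA⟩ := hK.exists_bound_of_continuousOn
    (h.continuous_iteratedFDeriv (m := k) (by exact_mod_cast le_top)).continuousOn
  refine ⟨max A 0, fun q hq => ?_⟩
  by_cases hR : |q.2.1| ≤ R
  · refine le_max_of_le_left ?_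
    rw [shift_CbFam hp (-⌊q.2.2⌋),
      iteratedFDeriv_comp_add_right (f := fun q : Λ × Pl => f q.1 q.2)]
    refine hA _ ⟨by simpa using hq, by simpa using abs_le.1 hR, ?_⟩
    have h1 := Int.fract_nonneg q.2.2
    have h2 := Int.fract_lt_one q.2.2
    rw [Int.fract] at h1 h2
    constructor <;> simp only [Prod.snd_add, Int.cast_neg] <;> linarith
  · have h1 : (fun q : Λ × Pl => f q.1 q.2) =ᶠ[𝓝 q] fun _ => 0 := by
      have : ∀ᶠ q' : Λ × Pl in 𝓝 q, R < |q'.2.1| :=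
        (continuous_snd.fst.abs.tendsto q).eventually (lt_mem_nhds (not_le.1 hR))
      exact this.mono fun q' hq' => h0 _ _ hq'.le
    rw [(h1.iteratedFDeriv ℝ k).eq_of_nhds, iteratedFDeriv_fun_zero]
    simp

theorem toW_CbFam {k : ℕ} (hk : k ≤ 2) {R : ℝ} {φ : Pl → U} (h : ContDiff ℝ ∞ φ) (hp : Per φ)
    (h0 : ∀ p : Pl, R ≤ |p.1| → φ p = 0) :
    toW k φ = (mul k (ContinuousLinearMap.lsmul ℝ ℝ : ℝ →L[ℝ] U →L[ℝ] U).flip).flip
      (co k ⟨plat (-R) R 1, plat_mem_Dsub _ _ one_pos⟩) (toCb φ) := by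
  have hm : φ ∈ Dsub U := ⟨h, hp, R, h0⟩
  rw [ContinuousLinearMap.flip_apply, mul_co hk]
  refine (toW_co k ⟨φ, hm⟩).trans (congrArg _ (Subtype.ext (funext fun p => ?_)))
  change φ p = plat (-R) R 1 p • Cb.fn (toCb φ) p
  rw [fn_toCb (bdd_of_mem hm) hp]
  rcases le_total R |p.1| with hR | hR
  · rw [h0 p hR, smul_zero]
  · rw [plat_eq_one one_pos (abs_le.1 hR), one_smul]

variable [FiniteDimensional ℝ U]

theorem contDiff_toW {k : ℕ} (hk : k ≤ 2) {f : Λ → Pl → U}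
    (h : ContDiff ℝ ∞ fun q : Λ × Pl => f q.1 q.2) (hp : ∀ a, Per (f a)) {R : ℝ}
    (h0 : ∀ a (p : Pl), R ≤ |p.1| → f a p = 0) : (ContDiff ℝ ∞ fun a => toW k (f a)) ∧
      ∀ a v, fderiv ℝ (fun a => toW k (f a)) a v =
        toW k fun p => fderiv ℝ (fun a => f a p) a v := by
  have hS := sfam_of_supp h hp h0
  have e := funext fun a => toW_CbFam hk (smooth_at_CbFam h a) (hp a) (h0 a)
  rw [e]
  refine ⟨(ContinuousLinearMap.contDiff _).comp hS.contDiff, fun a v => ?_⟩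
  have h1 := hS.fderiv v
  rw [toW_CbFam (R := R) (φ := fun p => fderiv ℝ (fun a => f a p) a v) hk
    (h1.bdd_at a).1 (h1.per a) fun p hR => by simp [h0 _ p hR],
    ← hS.fderiv_toCb]
  exact congrArg (fun T : Λ →L[ℝ] W k U => T v) ((ContinuousLinearMap.hasFDerivAt _).comp a
    (hS.contDiff.differentiable (by simp) a).hasFDerivAt).fderiv

end

end Pool.Agent.P.MP_de3acd_gt.FH
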