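import Pool.Agent.P.MP_de3acd_gt.FH.GLs

/-! The fields used in the construction.
Sketch: Real.smoothTransition: zero_of_nonpos, one_of_one_le, monotone, nonneg, le_one, contDiff, pos_of_pos. ∫ |deriv| of a monotone step is one (integral_eq_sub_of_hasDerivAt on Icc 0 1
and vanishing outside; deriv_nonneg from Monotone.deriv_nonneg); for the product |β'| ≤ b' (r + s) + b' (r - s), integral_mono, integral_add_left_eq_self, integral_sub_left_eq_self.
Bad sets: Icc (-2) 2; for th0 the union of Icc (-r - 2) (-r + 2) and Icc (r - 2) (r + 2). -/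

open Set Filter Topology MeasureTheory
open scoped ContDiff NNReal ENNReal RealInnerProductSpace

namespace Pool.Agent.P.MP_de3acd_gt.FH

noncomputable section

variable {Γ : Subgroup (Equiv.Perm E)} {B : ℝ → E →L[ℝ] E} {J : ℝ → E → E →L[ℝ] E}
  {H G K K' : ℝ → E → ℝ} {Y Y' Z : ℝ → E → E} {γ g : Equiv.Perm E} {x y w : ℝ → E} {u : Pl → E}

variable {X p p₁ p₂ q : Pl → E → E} {β₀ β₁ v η η' L R r : ℝ}

open Real.smoothTransition in
theorem b01_ClsL {x : ℝ} (h : 2 ≤ |x|) :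
    Real.smoothTransition x = 0 ∨ Real.smoothTransition x = 1 := by
  rcases le_abs.1 h with h | h
  · exact Or.inr (one_of_one_le (by linarith))
  · exact Or.inl (zero_of_nonpos (by linarith))

open Real.smoothTransition in
theorem bne_ClsL {x : ℝ} (h : Real.smoothTransition (x - 1) ≠ 0) : Real.smoothTransition x = 1 :=
  one_of_one_le (by
    by_contra e
    exact h (zero_of_nonpos (by linarith)))

theorem bI_ClsL (x : ℝ) : Real.smoothTransition x ∈ Icc (0 : ℝ) 1 :=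
  ⟨Real.smoothTransition.nonneg x, Real.smoothTransition.le_one x⟩

theorem bS_ClsL : ContDiff ℝ ∞ Real.smoothTransition := Real.smoothTransition.contDiff

theorem bD_ClsL (x : ℝ) : HasDerivAt Real.smoothTransition (deriv Real.smoothTransition x) x :=
  (bS_ClsL.differentiable (by simp) x).hasDerivAt

theorem bd0_ClsL (x : ℝ) : 0 ≤ deriv Real.smoothTransition x :=
  Real.smoothTransition.monotone.deriv_nonneg

open Real.smoothTransition in
theorem bint_ClsL :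
    Integrable (deriv Real.smoothTransition) ∧ ∫ s, deriv Real.smoothTransition s = 1 := by
  have hi : Integrable (deriv Real.smoothTransition) := by
    refine (bS_ClsL.continuous_deriv (by simp)).integrable_of_hasCompactSupport
      (HasCompactSupport.intro (isCompact_Icc (a := 0) (b := 1)) fun x hx => ?_)
    rcases not_and_or.1 hx with h | h
    · have : Real.smoothTransition =ᶠ[𝓝 x] fun _ => 0 :=
        (eventually_lt_nhds (not_le.1 h)).mono fun y hy => zero_of_nonpos hy.le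
      rw [this.deriv_eq, deriv_const]
    · have : Real.smoothTransition =ᶠ[𝓝 x] fun _ => 1 :=
        (eventually_gt_nhds (not_le.1 h)).mono fun y hy => one_of_one_le hy.le
      rw [this.deriv_eq, deriv_const]
  refine ⟨hi, (integral_of_hasDerivAt_of_tendsto (m := 0) (n := 1) bD_ClsL hi ?_ ?_).trans
    (sub_zero _)⟩
  · exact tendsto_const_nhds.congr' ((eventually_le_atBot 0).mono fun y hy => (zero_of_nonpos hy).symm)
  · exact tendsto_const_nhds.congr' ((eventually_ge_atTop 1).mono fun y hy => (one_of_one_le hy).symm)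

theorem out_ClsL {a s c : ℝ} (h : s ∉ Icc (a - c) (a + c)) : c ≤ |s - a| := by
  rcases not_and_or.1 h with h | h
  · exact le_abs.2 (Or.inr (by linarith [not_le.1 h]))
  · exact le_abs.2 (Or.inl (by linarith [not_le.1 h]))

theorem out0_ClsL {s c : ℝ} (h : s ∉ Icc (-c) c) : c ≤ |s| := by
  simpa using out_ClsL (a := 0) (by simpa using h)

theorem lin_ClsL (h : Fr Γ B) (hg : g ∈ Γ) : ∃ L : E →ₗ[ℝ] E, ∀ v, lin g v = L v := by
  obtain ⟨L, b, -, -, -, e⟩ := h.good.aff g hg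
  exact ⟨L, fun v => by simp [lin, e]⟩

theorem ivf_add_ClsL (h : Fr Γ B) {W W' : E → E} (h₁ : Ivf Γ W) (h₂ : Ivf Γ W') : Ivf Γ (W + W') :=
  fun g hg z => by
    obtain ⟨L, e⟩ := lin_ClsL h hg
    simp only [Pi.add_apply, h₁ g hg, h₂ g hg, e, map_add]

theorem ivf_fld_ClsL (h : Fr Γ B) (hH : IY Γ (ham H)) (hG : IY Γ (ham G)) (hY : IY Γ Y)
    (β χ : ℝ → ℝ) (a : Pl) : Ivf Γ (fld H G Y β χ a) := fun g hg z => by
  obtain ⟨L, e⟩ := lin_ClsL h hg
  simp only [fld, hH.2 _ g hg, hG.2 _ g hg, hY.2 _ g hg, e, map_add, map_smul, map_sub]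

theorem sm_ClsL (hH : SP (ham H)) (hG : SP (ham G)) (hY : SP Y) {β χ : ℝ → ℝ → ℝ}
    (hβ : ContDiff ℝ ∞ fun q : ℝ × ℝ => β q.1 q.2) (hχ : ContDiff ℝ ∞ fun q : ℝ × ℝ => χ q.1 q.2) :
    SmX fun r => fld H G Y (β r) (χ r) := by
  have c : ∀ {W : ℝ → E → E}, SP W → ContDiff ℝ ∞ fun q : ℝ × Pl × E => W q.2.1.2 q.2.2 :=
    fun hW => hW.1.comp (f := fun q : ℝ × Pl × E => (q.2.1.2, q.2.2)) (by fun_prop)
  have d : ContDiff ℝ ∞ fun q : ℝ × Pl × E => (q.1, q.2.1.1) := by fun_prop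
  refine ⟨((c hH).add ((hβ.comp d).smul ((c hG).sub (c hH)))).add ((hχ.comp d).smul (c hY)),
    fun r s t => funext fun z => ?_⟩
  simp only [fld, hH.2, hG.2, hY.2]

theorem smadd_ClsL {X X' : ℝ → Pl → E → E} (h : SmX X) (h' : SmX X') : SmX fun r => X r + X' r :=
  ⟨h.1.add h'.1, fun r s t => congrArg₂ (· + ·) (h.2 r s t) (h'.2 r s t)⟩

theorem smtsl_ClsL (h : Fld p R) {ρ : ℝ → ℝ} (hρ : ContDiff ℝ ∞ ρ) : SmX fun r => tsl (ρ r, 0) p :=
  ⟨h.smooth.comp (f := fun q : ℝ × Pl × E => (q.1, q.2.1 + (ρ q.1, 0), q.2.2)) (by fun_prop),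
    fun r => (h.per r).tsl _⟩

theorem fam_ClsL {X : ℝ → Pl → E → E} (hR : 0 ≤ R) (h : SmX X)
    (hl : ∀ a s, s ≤ -R → frz (X a) s = Y) (hr : ∀ a s, R ≤ s → frz (X a) s = Y') : Fam X R :=
  ⟨hR, h.1, h.2, fun a s hs => by rw [hl a s hs, hl a _ le_rfl],
    fun a s hs => by rw [hr a s hs, hr a _ le_rfl]⟩

theorem frz0_ClsL {β χ : ℝ → ℝ} {s : ℝ} (h : β s = 0) (h' : χ s = 0) (hp : ∀ t, p (s, t) = 0) :
    frz (fld H G Y β χ + p) s = ham H := by
  funext t z
  simp [frz, fld, h, h', hp]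

theorem frz1_ClsL {β χ : ℝ → ℝ} {s : ℝ} (h : β s = 1) (h' : χ s = 1) (hp : ∀ t, p (s, t) = 0) :
    frz (fld H G Y β χ + p) s = ham G + Y := by
  funext t z
  simp [frz, fld, h, h', hp]

open Real.smoothTransition

theorem Cls.mono (h : Cls J H G Y X β₀ β₁ v η L) {L' : ℝ} (e : η ≤ η') (e' : L ≤ L') :
    Cls J H G Y X β₀ β₁ v η' L' := by
  obtain ⟨β, χ, p, R, S, a, b, c, d, f, g, i, j, k⟩ := h
  exact ⟨β, χ, p, R, S, a, b, c, d, f, g, i.mono e, j.trans (ENNReal.ofReal_le_ofReal e'), k⟩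

theorem Cls.add (hJ : ACS om J) (h : Cls J H G Y X β₀ β₁ v η L) (hL : 0 ≤ L) (hR : 0 ≤ R)
    (hq : ∀ a : Pl, R ≤ |a.1| → q a = 0) (hs : Sz J η' q) {κ : ℝ} (hκ : 0 < κ) :
    Cls J H G Y (X + q) β₀ β₁ v ((1 + κ) * η + (1 + κ⁻¹) * η') (L + 2 * R) := by
  obtain ⟨β, χ, p, R', S, a, b, c, d, f, g, i, j, k⟩ := h
  refine ⟨β, χ, p + q, R', S ∪ Icc (-R) R, by rw [a, add_assoc], b, c, d, f, g, i.add hJ hs hκ, ?_,
    fun s hs => ⟨(k s fun e => hs (Or.inl e)).1, fun t => ?_⟩⟩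
  · refine (measure_union_le _ _).trans ?_
    rw [ENNReal.ofReal_add hL (by positivity), Real.volume_Icc, sub_neg_eq_add, two_mul]
    exact add_le_add_left j _
  · rw [Pi.add_apply, (k s fun e => hs (Or.inl e)).2, hq _ (out0_ClsL fun e => hs (Or.inr e)),
      add_zero]

theorem cls_H (J : ℝ → E → E →L[ℝ] E) (H G : ℝ → E → ℝ) (Y : ℝ → E → E) :
    Cls J H G Y (sta (ham H)) 0 0 0 0 0 :=
  ⟨fun _ => 0, fun _ => 0, 0, 0, ∅, by funext a z; simp [fld, sta], contDiff_const, fun _ _ => rfl,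
    fun _ _ => rfl, by simp, by simp, sz_zero J, by simp, by simp⟩

theorem cls_G (J : ℝ → E → E →L[ℝ] E) (H G : ℝ → E → ℝ) (Y : ℝ → E → E) :
    Cls J H G Y (sta (ham G + Y)) 1 1 0 0 0 :=
  ⟨fun _ => 1, fun _ => 1, 0, 0, ∅, by funext a z; simp [fld, sta], contDiff_const, fun _ _ => rfl,
    fun _ _ => rfl, by simp, by simp, sz_zero J, by simp, by simp⟩

theorem cls_xF (hp : ∀ a : Pl, 2 ≤ |a.1| → p a = 0) (hs : Sz J η p) :
    Cls J H G Y (xF H G Y + p) 0 1 1 η 4 := by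
  refine ⟨_, _, p, 1, Icc (-2) 2, rfl, bS_ClsL, fun s hs => zero_of_nonpos (by linarith),
    fun s hs => one_of_one_le hs, ?_, fun s => ⟨bI_ClsL _, bne_ClsL⟩, hs, ?_,
    fun s h => ⟨b01_ClsL (out0_ClsL h), fun t => hp _ (out0_ClsL h)⟩⟩
  · simp only [abs_of_nonneg (bd0_ClsL _), bint_ClsL.2, le_rfl]
  · rw [Real.volume_Icc]
    norm_num

theorem cls_xB (hp : ∀ a : Pl, 2 ≤ |a.1| → p a = 0) (hs : Sz J η p) :
    Cls J H G Y (xB H G Y + p) 1 0 1 η 4 := by
  refine ⟨_, _, p, 1, Icc (-2) 2, rfl, bS_ClsL.comp contDiff_neg,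
    fun s hs => one_of_one_le (by linarith), fun s hs => zero_of_nonpos (by linarith), ?_,
    fun s => ⟨bI_ClsL _, bne_ClsL⟩, hs, ?_,
    fun s h => ⟨b01_ClsL (by rw [abs_neg]; exact out0_ClsL h), fun t => hp _ (out0_ClsL h)⟩⟩
  · simp only [deriv_comp_neg, abs_neg, abs_of_nonneg (bd0_ClsL _)]
    rw [integral_neg_eq_self, bint_ClsL.2]
  · rw [Real.volume_Icc]
    norm_num

theorem cls_th0 (hJ : ACS om J) (h₁ : ∀ a : Pl, 2 ≤ |a.1| → p₁ a = 0)
    (h₂ : ∀ a : Pl, 2 ≤ |a.1| → p₂ a = 0) (s₁ : Sz J η p₁) (s₂ : Sz J η p₂) (r : ℝ) :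
    Cls J H G Y (th0 H G Y p₁ p₂ r) 0 0 2 (4 * η) 8 := by
  refine ⟨_, _, _, |r|, Icc (-r - 2) (-r + 2) ∪ Icc (r - 2) (r + 2), rfl,
    (bS_ClsL.comp (by fun_prop)).mul (bS_ClsL.comp (by fun_prop)), fun s hs => ?_, fun s hs => ?_,
    ?_, fun s => ⟨⟨mul_nonneg (nonneg _) (nonneg _), mul_le_one₀ (le_one _) (nonneg _) (le_one _)⟩,
      fun h => ?_⟩, ?_, ?_, fun s h => ?_⟩
  · simp only [zero_of_nonpos (show r + s ≤ 0 by linarith [le_abs_self r]), zero_mul]
  · simp only [zero_of_nonpos (show r - s ≤ 0 by linarith [le_abs_self r]), mul_zero]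
  · have i1 := bint_ClsL.1.comp_add_left r
    have i2 := bint_ClsL.1.comp_sub_left r
    refine (integral_mono_of_nonneg (.of_forall fun s => abs_nonneg _) (i1.add i2)
      (.of_forall fun s => ?_)).trans_eq ?_
    · have d := ((bD_ClsL (r + s)).comp_const_add r s).fun_mul
        ((bD_ClsL (r - s)).comp_const_sub r s)
      beta_reduce
      rw [d.deriv, Pi.add_apply, abs_le]
      have a1 := bI_ClsL (r + s)
      have a2 := bI_ClsL (r - s)
      have a3 := bd0_ClsL (r + s)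
      have a4 := bd0_ClsL (r - s)
      constructor <;> nlinarith [a1.1, a1.2, a2.1, a2.2, mul_nonneg a3 a2.1, mul_nonneg a1.1 a4]
    · simp only [Pi.add_apply]
      rw [integral_add i1 i2, integral_add_left_eq_self, integral_sub_left_eq_self, bint_ClsL.2]
      norm_num
  · simp only [bne_ClsL (left_ne_zero_of_mul h), bne_ClsL (right_ne_zero_of_mul h), mul_one]
  · exact (((s₁.tsl r).add hJ (s₂.tsl (-r)) one_pos).smul hJ
      (abs_le.2 ⟨by linarith [nonneg r], le_one r⟩)).mono (by linarith)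
  · refine (measure_union_le _ _).trans ?_
    rw [Real.volume_Icc, Real.volume_Icc, ← ENNReal.ofReal_add (by linarith) (by linarith)]
    exact ENNReal.ofReal_le_ofReal (by linarith)
  · have e1 := out_ClsL fun e => h (Or.inl e)
    have e2 := out_ClsL fun e => h (Or.inr e)
    rw [sub_neg_eq_add] at e1
    refine ⟨?_, fun t => ?_⟩
    · rcases b01_ClsL (x := r + s) (by rwa [add_comm]) with a | a <;>
        rcases b01_ClsL (x := r - s) (by rwa [abs_sub_comm]) with b | b <;> simp [a, b]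
    · simp only [Pi.smul_apply, Pi.add_apply, tsl]
      rw [h₁ _ e1, h₂ _ (by simpa [← sub_eq_add_neg] using e2), add_zero, smul_zero]

theorem fld_xF (h : Fr Γ B) (hH : IY Γ (ham H)) (hG : IY Γ (ham G)) (hY : IY Γ Y) (hp : SupX Γ 2 p) :
    Fld (xF H G Y + p) 2 ∧ (∀ a, Ivf Γ ((xF H G Y + p) a)) ∧ frz (xF H G Y + p) (-2) = ham H ∧
      frz (xF H G Y + p) 2 = ham G + Y := by
  have l : ∀ s ≤ -2, frz (xF H G Y + p) s = ham H := fun s hs =>
    frz0_ClsL (zero_of_nonpos (by linarith)) (zero_of_nonpos (by linarith))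
      fun t => hp.2.2 _ (le_abs.2 (Or.inr (by linarith)))
  have r : ∀ s, 2 ≤ s → frz (xF H G Y + p) s = ham G + Y := fun s hs =>
    frz1_ClsL (one_of_one_le (by linarith)) (one_of_one_le (by linarith))
      fun t => hp.2.2 _ (le_abs.2 (Or.inl hs))
  exact ⟨fam_ClsL zero_le_two (smadd_ClsL (sm_ClsL hH.1 hG.1 hY.1 (bS_ClsL.comp contDiff_snd)
      (bS_ClsL.comp (contDiff_snd.sub contDiff_const))) hp.1.smX) (fun _ => l) fun _ => r,
    fun a => ivf_add_ClsL h (ivf_fld_ClsL h hH hG hY _ _ a) (hp.2.1 a), l _ le_rfl, r _ le_rfl⟩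

theorem fld_xB (h : Fr Γ B) (hH : IY Γ (ham H)) (hG : IY Γ (ham G)) (hY : IY Γ Y) (hp : SupX Γ 2 p) :
    Fld (xB H G Y + p) 2 ∧ (∀ a, Ivf Γ ((xB H G Y + p) a)) ∧ frz (xB H G Y + p) (-2) = ham G + Y ∧
      frz (xB H G Y + p) 2 = ham H := by
  have l : ∀ s ≤ -2, frz (xB H G Y + p) s = ham G + Y := fun s hs =>
    frz1_ClsL (one_of_one_le (by linarith)) (one_of_one_le (by linarith))
      fun t => hp.2.2 _ (le_abs.2 (Or.inr (by linarith)))
  have r : ∀ s, 2 ≤ s → frz (xB H G Y + p) s = ham H := fun s hs =>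
    frz0_ClsL (zero_of_nonpos (by linarith)) (zero_of_nonpos (by linarith))
      fun t => hp.2.2 _ (le_abs.2 (Or.inl hs))
  exact ⟨fam_ClsL zero_le_two (smadd_ClsL (sm_ClsL hH.1 hG.1 hY.1 (bS_ClsL.comp contDiff_snd.neg)
      (bS_ClsL.comp (contDiff_snd.neg.sub contDiff_const))) hp.1.smX) (fun _ => l) fun _ => r,
    fun a => ivf_add_ClsL h (ivf_fld_ClsL h hH hG hY _ _ a) (hp.2.1 a), l _ le_rfl, r _ le_rfl⟩

theorem th0_eq_nk (H G : ℝ → E → ℝ) (Y : ℝ → E → E) (p₁ p₂ : Pl → E → E) (hr : 2 ≤ r) :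
    th0 H G Y p₁ p₂ r = nk (xF H G Y + p₁) (xB H G Y + p₂) (ham G + Y) r r := by
  funext ⟨s, t⟩ z
  simp only [th0, nk, xF, xB, fld, tsl, sta, Pi.add_apply, Pi.sub_apply, Pi.smul_apply,
    Prod.mk_add_mk, add_zero, one_of_one_le (show 1 ≤ r by linarith), add_comm s r,
    show -(s + -r) = r - s by ring]
  rcases le_total 0 s with h | h
  · rw [one_of_one_le (show 1 ≤ r + s by linarith), one_of_one_le (show 1 ≤ r + s - 1 by linarith)]
    module
  · rw [one_of_one_le (show 1 ≤ r - s by linarith), one_of_one_le (show 1 ≤ r - s - 1 by linarith)]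
    module

theorem th0_zero (H G : ℝ → E → ℝ) (Y : ℝ → E → E) (p₁ p₂ : Pl → E → E) :
    th0 H G Y p₁ p₂ 0 = sta (ham H) := by
  funext ⟨s, t⟩ z
  rcases le_total 0 s with h | h
  · simp [th0, fld, sta, zero_of_nonpos (show -s ≤ 0 by linarith),
      zero_of_nonpos (show -s - 1 ≤ 0 by linarith)]
  · simp [th0, fld, sta, zero_of_nonpos h, zero_of_nonpos (show s - 1 ≤ 0 by linarith)]

theorem ivf_th0 (h : Fr Γ B) (hH : IY Γ (ham H)) (hG : IY Γ (ham G)) (hY : IY Γ Y)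
    (h₁ : SupX Γ 2 p₁) (h₂ : SupX Γ 2 p₂) (r : ℝ) (a : Pl) : Ivf Γ (th0 H G Y p₁ p₂ r a) := by
  refine ivf_add_ClsL h (ivf_fld_ClsL h hH hG hY _ _ a) fun g hg z => ?_
  obtain ⟨L, e⟩ := lin_ClsL h hg
  simp only [Pi.smul_apply, Pi.add_apply, tsl, h₁.2.1 _ g hg, h₂.2.1 _ g hg, e, map_add, map_smul]

theorem fam_th0 (hH : SP (ham H)) (hG : SP (ham G)) (hY : SP Y) (h₁ : SupX Γ 2 p₁)
    (h₂ : SupX Γ 2 p₂) (hR : 0 ≤ R) :
    Fam (fun r => th0 H G Y p₁ p₂ (R * Real.smoothTransition r)) (R + 2) ∧ ∀ r,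
      frz (th0 H G Y p₁ p₂ (R * Real.smoothTransition r)) (-(R + 2)) = ham H ∧
        frz (th0 H G Y p₁ p₂ (R * Real.smoothTransition r)) (R + 2) = ham H := by
  have hρ : ContDiff ℝ ∞ fun r => R * Real.smoothTransition r := contDiff_const.mul bS_ClsL
  have a0 : ∀ r, 0 ≤ R * Real.smoothTransition r := fun r => mul_nonneg hR (nonneg r)
  have a1 : ∀ r, R * Real.smoothTransition r ≤ R := fun r => mul_le_of_le_one_right hR (le_one r)
  have z : ∀ ρ s t, 2 ≤ |s + ρ| → 2 ≤ |s + -ρ| →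
      (Real.smoothTransition ρ • (tsl (ρ, 0) p₁ + tsl (-ρ, 0) p₂)) (s, t) = 0 := fun ρ s t a b => by
    simp only [Pi.smul_apply, Pi.add_apply, tsl]
    rw [h₁.2.2 _ a, h₂.2.2 _ b, add_zero, smul_zero]
  have l : ∀ r, ∀ s ≤ -(R + 2), frz (th0 H G Y p₁ p₂ (R * Real.smoothTransition r)) s = ham H :=
    fun r s hs => frz0_ClsL (mul_eq_zero_of_left (zero_of_nonpos (by linarith [a1 r])) _)
      (mul_eq_zero_of_left (zero_of_nonpos (by linarith [a1 r])) _) fun t =>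
        z _ _ _ (le_abs.2 (Or.inr (by linarith [a1 r]))) (le_abs.2 (Or.inr (by linarith [a0 r])))
  have r : ∀ r s, R + 2 ≤ s → frz (th0 H G Y p₁ p₂ (R * Real.smoothTransition r)) s = ham H :=
    fun r s hs => frz0_ClsL (mul_eq_zero_of_right _ (zero_of_nonpos (by linarith [a1 r])))
      (mul_eq_zero_of_right _ (zero_of_nonpos (by linarith [a1 r]))) fun t =>
        z _ _ _ (le_abs.2 (Or.inl (by linarith [a0 r]))) (le_abs.2 (Or.inl (by linarith [a1 r])))
  have c := hρ.comp (contDiff_fst (F := ℝ))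
  have s := smadd_ClsL (smtsl_ClsL h₁.1 hρ) (smtsl_ClsL h₂.1 hρ.neg)
  refine ⟨fam_ClsL (by linarith) (smadd_ClsL (sm_ClsL hH hG hY
    ((bS_ClsL.comp (c.add contDiff_snd)).mul (bS_ClsL.comp (c.sub contDiff_snd)))
    ((bS_ClsL.comp ((c.add contDiff_snd).sub contDiff_const)).mul
      (bS_ClsL.comp ((c.sub contDiff_snd).sub contDiff_const))))
    ⟨((bS_ClsL.comp hρ).comp contDiff_fst).smul s.1, fun a s' t => ?_⟩) l r,
    fun a => ⟨l a _ le_rfl, r a _ le_rfl⟩⟩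
  exact congrArg (Real.smoothTransition (R * Real.smoothTransition a) • ·) (s.2 a s' t)

end

end Pool.Agent.P.MP_de3acd_gt.FH
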