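import Pool.Agent.P.MP_de3acd_gt.FH.Defs3

/-! Selection of clusters of times.
Sketch: for each n take a maximal 2-separated finite subset of Fs n (it has at most N points; every point of Fs n is within 2
of it), list it together with τ n as c n : Fin q ⊕ Fin N → ℝ with repetitions (if the set is smaller pad with τ n 0 ... if q = 0
and Fs n is empty there is nothing to pad with, hence the hypothesis 0 < q). Pass to a subsequence along which every difference
c n a - c n b converges in EReal (compact, first countable, finite product). a ~ b iff the limit is finite; the classes are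
linearly ordered by the limit ⊤; pick in each class a representative, a mark if there is one (at most one by Gap); enumerate by
monoEquivOfFin / Finset.orderEmbOfFin. Induction on N (adding one sequence at a time to an already gapped family) is an
alternative that avoids quotients. -/

open Set Filter Topology MeasureTheory
open scoped ContDiff NNReal ENNReal RealInnerProductSpace

namespace Pool.Agent.P.MP_de3acd_gt.FH

noncomputable section

private theorem net_Clus {N : ℕ} {G : Set ℝ} (x : ℝ)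
    (h : ∀ s : Finset ℝ, ↑s ⊆ G → (∀ a ∈ s, ∀ b ∈ s, a ≠ b → 2 < |a - b|) → s.card ≤ N) :
    ∃ g : Fin N → ℝ, (∀ j, g j ∈ G ∨ g j = x) ∧ ∀ s ∈ G, ∃ j, |s - g j| ≤ 2 := by
  classical
  obtain ⟨s, ⟨h1, h2⟩, h3⟩ := (measure fun s : Finset ℝ => N - s.card).wf.has_min
    {s | ↑s ⊆ G ∧ ∀ a ∈ s, ∀ b ∈ s, a ≠ b → 2 < |a - b|} ⟨∅, by simp, by simp⟩
  have h4 := h s h1 h2
  refine ⟨fun j => if hj : j.1 < s.card then s.equivFin.symm ⟨j, hj⟩ else x, fun j => ?_,
    fun y hy => ?_⟩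
  · dsimp only
    split_ifs with hj
    exacts [.inl (h1 (Subtype.property _)), .inr rfl]
  · have : ∃ a ∈ s, |y - a| ≤ 2 := by
      by_contra! h5
      have h6 : y ∉ s := fun e => by simpa using (h5 y e).trans' two_pos
      have h7 : ↑(insert y s) ⊆ G := by
        rw [Finset.coe_insert]
        exact insert_subset hy h1
      have h8 : ∀ a ∈ insert y s, ∀ b ∈ insert y s, a ≠ b → 2 < |a - b| := by
        intro a ha b hb e
        rcases Finset.mem_insert.1 ha with rfl | ha' <;> rcases Finset.mem_insert.1 hb with rfl | hb'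
        exacts [absurd rfl e, h5 b hb', abs_sub_comm a b ▸ h5 a ha', h2 a ha' b hb' e]
      have h9 := h _ h7 h8
      refine h3 _ ⟨h7, h8⟩ ?_
      change N - (insert y s).card < N - s.card
      rw [Finset.card_insert_of_notMem h6] at h9 ⊢
      omega
    obtain ⟨a, ha, e⟩ := this
    refine ⟨⟨s.equivFin ⟨a, ha⟩, (Fin.is_lt _).trans_le h4⟩, ?_⟩
    simpa using e

private theorem sub_Clus {A : Type} [Fintype A] (c : ℕ → A → ℝ) : ∃ φ : ℕ → ℕ, StrictMono φ ∧
    ∀ a b, Tendsto (fun n => c (φ n) b - c (φ n) a) atTop atTop ∨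
      Tendsto (fun n => c (φ n) a - c (φ n) b) atTop atTop ∨
        ∃ S, ∀ n, |c (φ n) a - c (φ n) b| ≤ S := by
  obtain ⟨L, φ, h1, h2⟩ := CompactSpace.tendsto_subseq
    fun n (p : A × A) => ((c n p.1 - c n p.2 : ℝ) : EReal)
  refine ⟨φ, h1, fun a b => ?_⟩
  have h3 := tendsto_pi_nhds.1 h2 (a, b)
  simp only [Function.comp_apply] at h3
  induction hL : L (a, b) with
  | bot =>
    rw [hL, EReal.tendsto_coe_nhds_bot_iff] at h3
    exact .inl ((tendsto_neg_atBot_atTop.comp h3).congr fun n => neg_sub _ _)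
  | coe r =>
    rw [hL, EReal.tendsto_coe] at h3
    obtain ⟨S, hS⟩ := h3.abs.bddAbove_range
    exact .inr (.inr ⟨S, fun n => hS ⟨n, rfl⟩⟩)
  | top =>
    rw [hL, EReal.tendsto_coe_nhds_top_iff] at h3
    exact .inr (.inl h3)

private theorem core_Clus {A : Type} [Fintype A] {c : ℕ → A → ℝ} {q : ℕ} (ι : Fin q → A)
    (hι : Gap atTop fun n i => c n (ι i))
    (tri : ∀ a b, Tendsto (fun n => c n b - c n a) atTop atTop ∨
      Tendsto (fun n => c n a - c n b) atTop atTop ∨ ∃ S, ∀ n, |c n a - c n b| ≤ S) :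
    ∃ (k : ℕ) (e : Fin k → A) (m : Fin q ↪o Fin k) (S : ℝ), (Gap atTop fun n j => c n (e j)) ∧
      (∀ i, e (m i) = ι i) ∧ ∀ a, ∃ j, ∀ n, |c n a - c n (e j)| ≤ S := by
  classical
  obtain ⟨r, hr⟩ : ∃ r : A → A → Prop,
      ∀ a b, r a b ↔ Tendsto (fun n => c n b - c n a) atTop atTop := ⟨_, fun _ _ => Iff.rfl⟩
  obtain ⟨R, hR, hm⟩ := Finset.exists_max_image (Finset.univ.filter fun R : Finset A =>
      (∀ i, ι i ∈ R) ∧ ∀ a ∈ R, ∀ b ∈ R, r a b ∨ a = b ∨ r b a) Finset.card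
    ⟨Finset.univ.image ι, by
      simp only [Finset.mem_filter, Finset.mem_univ, true_and, Finset.forall_mem_image,
        forall_const, hr]
      refine ⟨fun i => Finset.mem_image_of_mem _ (Finset.mem_univ _), fun i j => ?_⟩
      rcases lt_trichotomy i j with h | rfl | h
      exacts [.inl (hι i j h), .inr (.inl rfl), .inr (.inr (hι j i h))]⟩
  obtain ⟨h1, h2⟩ := (Finset.mem_filter.1 hR).2
  have h3 : ∀ a, ∃ b ∈ R, ∃ S, ∀ n, |c n a - c n b| ≤ S := fun a => by
    by_contra h4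
    have h5 : ∀ b ∈ R, r a b ∨ r b a := fun b hb => by
      rw [hr, hr, or_iff_not_imp_left]
      intro h6
      exact ((tri a b).resolve_left h6).resolve_right fun h7 => h4 ⟨b, hb, h7⟩
    have h6 : a ∉ R := fun e => h4 ⟨a, e, 0, by simp⟩
    have h7 := hm (insert a R) (Finset.mem_filter.2 ⟨Finset.mem_univ _,
      fun i => Finset.mem_insert_of_mem (h1 i), fun x hx y hy => by
        rcases Finset.mem_insert.1 hx with rfl | hx' <;> rcases Finset.mem_insert.1 hy with rfl | hy'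
        exacts [.inr (.inl rfl), (h5 y hy').imp_right .inr, (h5 x hx').symm.imp_right .inr,
          h2 x hx' y hy']⟩)
    rw [Finset.card_insert_of_notMem h6] at h7
    omega
  choose b hb S hS using h3
  have : IsStrictTotalOrder R fun x y => r x y :=
    { trichotomous := fun x y h4 h5 =>
        Subtype.ext (((h2 x x.2 y y.2).resolve_left h4).resolve_right h5)
      irrefl := fun x h4 => by
        rw [hr] at h4
        simp only [sub_self] at h4
        exact not_tendsto_atTop_of_tendsto_nhds tendsto_const_nhds h4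
      trans := fun x y z h4 h5 => by
        rw [hr] at h4 h5 ⊢
        simpa using h5.atTop_add_atTop h4 }
  let _ : LinearOrder R := linearOrderOfSTO fun x y => r x y
  let e := monoEquivOfFin R rfl
  obtain ⟨T, hT⟩ := (Set.finite_range S).bddAbove
  refine ⟨_, fun j => e j, OrderEmbedding.ofStrictMono (fun i => e.symm ⟨ι i, h1 i⟩)
    fun i j h => e.symm.strictMono ((hr _ _).2 (hι i j h)), T,
    fun i j h => (hr _ _).1 (e.strictMono h), fun i => by simp,
    fun a => ⟨e.symm ⟨b a, hb a⟩, fun n => ?_⟩⟩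
  simpa using (hS a n).trans (hT ⟨a, rfl⟩)

private theorem low_Clus {q : ℕ} (p : Fin q → Prop) (h : ∀ i j, j ≤ i → p i → p j) :
    ∃ l : Fin (q + 1), ∀ i, i.castSucc < l ↔ p i := by
  classical
  exact ⟨⟨(Finset.univ.filter p).card, Nat.lt_succ_of_le
    ((Finset.card_filter_le _ _).trans_eq (Finset.card_fin q))⟩,
    fun i => Fin.lt_card_filter_univ_iff_apply_of_imp p h⟩

private theorem le_Clus {q : ℕ} {a b : Fin (q + 1)}
    (h : ∀ i : Fin q, i.castSucc < a → i.castSucc < b) : a ≤ b := by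
  by_contra! h'
  obtain ⟨i, rfl⟩ := Fin.exists_castSucc_eq.2 (h'.trans_le (Fin.le_last a)).ne
  exact lt_irrefl _ (h i h')

private theorem eq_Clus {q : ℕ} {a b : Fin (q + 1)}
    (h : ∀ i : Fin q, i.castSucc < a ↔ i.castSucc < b) : a = b :=
  le_antisymm (le_Clus fun i => (h i).1) (le_Clus fun i => (h i).2)

theorem cluster {q N : ℕ} (hq : 0 < q) {τ : ℕ → Fin q → ℝ} (hτ : Gap atTop τ) {Fs : ℕ → Set ℝ}
    (h : ∀ n (s : Finset ℝ), ↑s ⊆ Fs n → (∀ a ∈ s, ∀ b ∈ s, a ≠ b → 2 < |a - b|) → s.card ≤ N) :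
    ∃ (φ : ℕ → ℕ) (k : ℕ) (σ : ℕ → Fin k → ℝ) (m : Fin q ↪o Fin k) (S : ℝ), StrictMono φ ∧
      Gap atTop σ ∧ (∀ n i, σ n (m i) = τ (φ n) i) ∧ (∀ n j, j ∉ range m → σ n j ∈ Fs (φ n)) ∧
        ∀ n, ∀ s ∈ Fs (φ n), ∃ j, |s - σ n j| ≤ S := by
  choose g g1 g2 using fun n => net_Clus (τ n ⟨0, hq⟩) (h n)
  obtain ⟨φ, h1, h2⟩ := sub_Clus fun n => Sum.elim (τ n) (g n)
  obtain ⟨k, e, m, S, h3, h4, h5⟩ := core_Clus (c := fun n => Sum.elim (τ (φ n)) (g (φ n))) Sum.inl
    (fun i j hij => (hτ i j hij).comp h1.tendsto_atTop) h2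
  have h6 : ∀ᶠ n in atTop, ∀ j, j ∉ range m → Sum.elim (τ (φ n)) (g (φ n)) (e j) ∈ Fs (φ n) := by
    have h7 : ∀ᶠ n in atTop, ∀ j j', j < j' →
        Sum.elim (τ (φ n)) (g (φ n)) (e j) ≠ Sum.elim (τ (φ n)) (g (φ n)) (e j') := by
      simp only [eventually_all]
      exact fun j j' hj => ((h3 j j' hj).eventually_gt_atTop 0).mono fun n hn => (sub_pos.1 hn).ne
    refine h7.mono fun n hn j hj => ?_
    have h8 : ∀ i, Sum.elim (τ (φ n)) (g (φ n)) (e j) ≠ τ (φ n) i := fun i => by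
      have e1 : τ (φ n) i = Sum.elim (τ (φ n)) (g (φ n)) (e (m i)) := by rw [h4]; rfl
      rw [e1]
      rcases lt_or_gt_of_ne (fun e => hj ⟨i, e⟩ : m i ≠ j) with h9 | h9
      exacts [(hn _ _ h9).symm, hn _ _ h9]
    generalize e j = a at h8 ⊢
    cases a with
    | inl i => exact absurd rfl (h8 i)
    | inr i => exact (g1 _ i).resolve_right (h8 _)
  obtain ⟨n₀, h7⟩ := eventually_atTop.1 h6
  refine ⟨fun n => φ (n + n₀), k,
    fun n j => Sum.elim (τ (φ (n + n₀))) (g (φ (n + n₀))) (e j), m, 2 + S,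
    h1.comp (strictMono_id.add_const n₀), fun i j hij => (h3 i j hij).comp (tendsto_add_atTop_nat n₀),
    fun n i => by simp [h4], fun n => h7 _ (Nat.le_add_left _ _), fun n s hs => ?_⟩
  obtain ⟨i, hi⟩ := g2 _ s hs
  obtain ⟨j, hj⟩ := h5 (.inr i)
  exact ⟨j, (abs_sub_le _ _ _).trans (add_le_add hi (hj _))⟩

theorem exists_lev {q k : ℕ} (m : Fin q ↪o Fin k) : ∃ lev : Fin (k + 1) → Fin (q + 1),
    ∀ i j, i.castSucc < lev j ↔ (m i).castSucc < j := by
  choose lev h using fun j : Fin (k + 1) => low_Clus (fun i => (m i).castSucc < j)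
    fun i i' hi => (Fin.castSucc_le_castSucc_iff.2 (m.monotone hi)).trans_lt
  exact ⟨lev, fun i j => h j i⟩

theorem lev_facts {q k : ℕ} {m : Fin q ↪o Fin k} {lev : Fin (k + 1) → Fin (q + 1)}
    (h : ∀ i j, i.castSucc < lev j ↔ (m i).castSucc < j) : lev 0 = 0 ∧
      lev (Fin.last k) = Fin.last q ∧ (∀ i, lev (m i).castSucc = i.castSucc ∧
        lev (m i).succ = i.succ) ∧ (∀ j, j ∉ range m → lev j.succ = lev j.castSucc) ∧
          Monotone lev := by
  refine ⟨eq_Clus fun i => by simp [h], eq_Clus fun i => by simp [h],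
    fun i => ⟨eq_Clus fun i' => by simp [h], eq_Clus fun i' => by simp [h]⟩,
    fun j hj => eq_Clus fun i => ?_, fun a b e => le_Clus fun i hi => ?_⟩
  · rw [h, h, Fin.castSucc_lt_succ_iff, Fin.castSucc_lt_castSucc_iff]
    exact ⟨fun e => e.lt_of_ne fun e' => hj ⟨i, e'⟩, le_of_lt⟩
  · exact (h _ _).2 (((h _ _).1 hi).trans_le e)

theorem mid_mono {k : ℕ} (σ : Fin k → ℝ) (j : Fin (k + 1)) {S S' : ℝ} (h : S ≤ S') :
    mid σ j S' ⊆ mid σ j S := fun _ hs i =>
  ⟨fun e => by linarith [(hs i).1 e], fun e => by linarith [(hs i).2 e]⟩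

theorem ordConnected_mid {k : ℕ} (σ : Fin k → ℝ) (j : Fin (k + 1)) (S : ℝ) :
    (mid σ j S).OrdConnected := ⟨fun _ hx _ hy _ hz i =>
  ⟨fun e => ((hx i).1 e).trans hz.1, fun e => hz.2.trans ((hy i).2 e)⟩⟩

theorem mid_subset {q k : ℕ} {m : Fin q ↪o Fin k} {lev : Fin (k + 1) → Fin (q + 1)}
    (h : ∀ i j, i.castSucc < lev j ↔ (m i).castSucc < j) (σ : Fin k → ℝ) (j : Fin (k + 1)) (S : ℝ) :
    mid σ j S ⊆ mid (fun i => σ (m i)) (lev j) S := fun _ hs i =>
  ⟨fun e => (hs _).1 ((h _ _).1 e), fun e => (hs _).2 (not_lt.1 fun e' => e.not_gt ((h _ _).2 e'))⟩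

theorem exists_mid {k : ℕ} {σ : Fin k → ℝ} (h : Monotone σ) {S s : ℝ} (e : ∀ i, S ≤ |s - σ i|) :
    ∃ j, s ∈ mid σ j S := by
  obtain ⟨j, hj⟩ := low_Clus (fun i => σ i ≤ s) fun i i' hi => (h hi).trans
  refine ⟨j, fun i => ⟨fun hi => ?_, fun hi => ?_⟩⟩
  · have := e i
    rw [abs_of_nonneg (sub_nonneg.2 ((hj i).1 hi))] at this
    linarith
  · have := e i
    rw [abs_of_neg (sub_neg.2 (not_le.1 fun h' => hi.not_gt ((hj i).2 h')))] at this
    linarith

theorem Gap.monotone {N : Type} {l : Filter N} {k : ℕ} {σ : N → Fin k → ℝ} (h : Gap l σ) (T : ℝ) :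
    ∀ᶠ n in l, ∀ i i', i < i' → σ n i + T ≤ σ n i' := by
  simp only [eventually_all]
  exact fun i i' e => ((h i i' e).eventually_ge_atTop T).mono fun n hn => by linarith

end

end Pool.Agent.P.MP_de3acd_gt.FH
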