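import Pool.Agent.P.MP_de3acd_gt.FH.Pth

/-! Calculus of convergence to pieces.
Sketch: unfold PrC, PrW, reg; reg σ i S grows when S decreases, so S may be enlarged. PrC.comp: cn_comp_sub (tsl (s,0) does not
move t). prC_of_prW: sob_loc and cn_interp; a point within distance 1 of reg σ i (S + 2) lies in an interval
Icc a (a+1) inside reg σ i S. Two pieces: reg 0 = Iic (ϱ₂ - S), reg 1 = Ici (-ϱ₁ + S); on Iic (ϱ₂ - S),
pre - tsl g₁ = tsl (g₂ - lp y), small by Pth.cn / Pth.tail with cn_tsl, nrm_tsl; the two regions cover ℝ when ϱ₁ + ϱ₂ ≥ 2 S. -/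

open Set Filter Topology MeasureTheory
open scoped ContDiff NNReal ENNReal RealInnerProductSpace

namespace Pool.Agent.P.MP_de3acd_gt.FH

noncomputable section

variable {F F₁ F₂ : Type} [NormedAddCommGroup F] [NormedSpace ℝ F] [NormedAddCommGroup F₁]
  [NormedSpace ℝ F₁] [NormedAddCommGroup F₂] [NormedSpace ℝ F₂]
variable {V : Type} [NormedAddCommGroup V] [InnerProductSpace ℝ V] [Sym V]
variable {C Λ : Type} [NormedAddCommGroup C] [NormedSpace ℝ C] [FiniteDimensional ℝ C]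
  [NormedAddCommGroup Λ] [NormedSpace ℝ Λ] [FiniteDimensional ℝ Λ]

variable {N : Type} {l : Filter N} {k : ℕ} {σ : N → Fin k → ℝ}

theorem gap_ev_Pr (h : Gap l σ) (D : ℝ) : ∀ᶠ n in l, ∀ i i', i < i' → D ≤ σ n i' - σ n i :=
  eventually_all.2 fun i => eventually_all.2 fun i' => eventually_all.2 fun hi =>
    (h i i' hi).eventually_ge_atTop D

theorem bdd_fam_Pr {g : Fin k → Pl → F} (hg : ∀ i, Bdd (g i)) (m : ℕ) :
    ∃ A, ∀ i a I, Cn m (tsl a (g i)) I A := by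
  choose A hA using fun i => (bdd_iff.1 (hg i)).2 m
  obtain ⟨B, hB⟩ := (finite_range A).bddAbove
  exact ⟨B, fun i a I => ((cn_tsl a).2 (hA i)).mono le_rfl (subset_univ _) (hB ⟨i, rfl⟩)⟩

theorem cn_of_sub_Pr {m : ℕ} {f g : Pl → F} {I : Set ℝ} {a b : ℝ} (hf : ContDiff ℝ ∞ f)
    (hg : ContDiff ℝ ∞ g) (h : Cn m (f - g) I a) (h' : Cn m g I b) : Cn m f I (a + b) := by
  have := Cn.add (f := f - g) (hf.sub hg) hg h h'
  rwa [sub_add_cancel] at this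

theorem nrm_tsl_Pr (m : ℕ) (s : ℝ) (I : Set ℝ) : ∀ f : Pl → F,
    nrm m (tsl (s, 0) f) ((fun t => t + s) ⁻¹' I) = nrm m f I := by
  have h0 : ∀ f : Pl → F, nrm 0 (tsl (s, 0) f) ((fun t => t + s) ⁻¹' I) = nrm 0 f I := by
    intro f
    have e : ((fun t => t + s) ⁻¹' I) ×ˢ Icc (0 : ℝ) 1 =
        (fun p : Pl => p + (s, 0)) ⁻¹' (I ×ˢ Icc (0 : ℝ) 1) := by
      ext p; simp
    rw [nrm_zero, nrm_zero, e]
    exact (measurePreserving_add_right (volume : Measure Pl) (s, 0)).setLIntegral_comp_preimage_emb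
      (measurableEmbedding_addRight _) (fun p => ‖f p‖ₑ ^ 2) _
  induction m with
  | zero => exact h0
  | succ m ih => intro f; rw [nrm_succ, nrm_succ, h0, ds_tsl, dt_tsl, ih, ih]

theorem contDiff_lp_Pr {x : ℝ → F} (hx : ContDiff ℝ ∞ x) : ContDiff ℝ ∞ (lp x) :=
  hx.comp contDiff_snd

omit [NormedSpace ℝ F] in
theorem tsl_sub_lp_Pr (s : ℝ) (g : Pl → F) (y : ℝ → F) :
    tsl (s, 0) (g - lp y) = tsl (s, 0) g - lp y := by
  funext p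
  simp [tsl, lp]

theorem reg_mono (σ : Fin k → ℝ) (i : Fin k) {S S' : ℝ} (h : S ≤ S') : reg σ i S' ⊆ reg σ i S :=
  fun _ hs i' => ⟨fun hi => by linarith only [(hs i').1 hi, h],
    fun hi => by linarith only [(hs i').2 hi, h]⟩

theorem isClosed_reg (σ : Fin k → ℝ) (i : Fin k) (S : ℝ) : IsClosed (reg σ i S) := by
  have e : reg σ i S = ⋂ i', (⋂ _ : i' < i, Ici (σ i' + S)) ∩ ⋂ _ : i < i', Iic (σ i' - S) := by
    ext s; simp [reg]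
  rw [e]
  exact isClosed_iInter fun i' => (isClosed_iInter fun _ => isClosed_Ici).inter
    (isClosed_iInter fun _ => isClosed_Iic)

theorem Gap.cover (h : Gap l σ) (hk : 0 < k) (S : ℝ) : ∀ᶠ n in l, ∀ s, ∃ i, s ∈ reg (σ n) i S := by
  classical
  filter_upwards [gap_ev_Pr h (2 * S)] with n hn s
  obtain ⟨i, hi, hmax⟩ := (Finset.univ.filter fun i : Fin k =>
    ∀ i', i' < i → σ n i' + S ≤ s).exists_max_image id
      ⟨⟨0, hk⟩, Finset.mem_filter.2 ⟨Finset.mem_univ _, fun i' hi' => absurd hi' (by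
        simp [Fin.lt_def])⟩⟩
  refine ⟨i, fun i' => ⟨(Finset.mem_filter.1 hi).2 i', fun hlt => ?_⟩⟩
  by_contra hc
  refine absurd (hmax i' (Finset.mem_filter.2 ⟨Finset.mem_univ _, fun j hj => ?_⟩)) (not_le.2 hlt)
  linarith only [hn j i' hj, not_le.1 hc]

theorem Gap.Icc_subset (h : Gap l σ) (S T : ℝ) :
    ∀ᶠ n in l, ∀ i, Icc (σ n i - T) (σ n i + T) ⊆ reg (σ n) i S := by
  filter_upwards [gap_ev_Pr h (S + T)] with n hn i s hs i'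
  exact ⟨fun hi => by linarith only [hn i' i hi, hs.1], fun hi => by linarith only [hn i i' hi, hs.2]⟩

theorem Gap.comp {N' : Type} {l' : Filter N'} {φ : N' → N} (h : Gap l σ) (e : Tendsto φ l' l) :
    Gap l' fun n => σ (φ n) := fun i i' hi => (h i i' hi).comp e

theorem PrC.comp_tendsto {N' : Type} {l' : Filter N'} {φ : N' → N} {m : ℕ} {f : N → Pl → F}
    {g : Fin k → Pl → F} (h : PrC m l σ f g) (e : Tendsto φ l' l) :
    PrC m l' (fun n => σ (φ n)) (fun n => f (φ n)) g := fun ε hε =>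
  (h ε hε).imp fun _ hS => e.eventually hS

theorem PrC.mono {m m' : ℕ} {f : N → Pl → F} {g : Fin k → Pl → F} (h : PrC m l σ f g) (e : m' ≤ m) :
    PrC m' l σ f g := fun ε hε =>
  (h ε hε).imp fun _ hS => hS.mono fun _ hn i => (hn i).mono e subset_rfl le_rfl

theorem PrC.dt {m : ℕ} {f : N → Pl → F} {g : Fin k → Pl → F} (h : PrC (m + 1) l σ f g)
    (hf : ∀ n, ContDiff ℝ ∞ (f n)) (hg : ∀ i, ContDiff ℝ ∞ (g i)) :
    PrC m l σ (fun n => dt (f n)) fun i => dt (g i) := fun ε hε =>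
  (h ε hε).imp fun _ hS => hS.mono fun n hn i => by
    have := (hn i).2.2
    rwa [dt_sub_JetC (hf n) (contDiff_tsl (hg i) _), dt_tsl] at this

theorem PrC.prod {m : ℕ} {f : N → Pl → F} {g : Fin k → Pl → F} {f' : N → Pl → F₁}
    {g' : Fin k → Pl → F₁} (h : PrC m l σ f g) (h' : PrC m l σ f' g')
    (hf : ∀ n, ContDiff ℝ ∞ (f n)) (hg : ∀ i, ContDiff ℝ ∞ (g i)) (hf' : ∀ n, ContDiff ℝ ∞ (f' n))
    (hg' : ∀ i, ContDiff ℝ ∞ (g' i)) :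
    PrC m l σ (fun n p => (f n p, f' n p)) fun i p => (g i p, g' i p) := by
  intro ε hε
  obtain ⟨S, hS⟩ := h ε hε
  obtain ⟨S', hS'⟩ := h' ε hε
  refine ⟨max S S', (hS.and hS').mono fun n hn i => ?_⟩
  exact Cn.prod (f := f n - tsl (-σ n i, 0) (g i)) (g := f' n - tsl (-σ n i, 0) (g' i))
    ((hf n).sub (contDiff_tsl (hg i) _)) ((hf' n).sub (contDiff_tsl (hg' i) _))
    ((hn.1 i).mono le_rfl (reg_mono _ _ (le_max_left _ _)) le_rfl)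
    ((hn.2 i).mono le_rfl (reg_mono _ _ (le_max_right _ _)) le_rfl)

theorem PrC.comp {m : ℕ} {f : N → Pl → C} {g : Fin k → Pl → C} (h : PrC m l σ f g)
    (hf : ∀ n, ContDiff ℝ ∞ (f n)) (hg : ∀ i, Bdd (g i)) {G : ℝ → C → F} (hG : SP G) :
    PrC m l σ (fun n p => G p.2 (f n p)) fun i p => G p.2 (g i p) := by
  intro ε hε
  obtain ⟨A, hA⟩ := bdd_fam_Pr hg m
  obtain ⟨L, hL, H⟩ := cn_comp_sub hG m (1 + A)
  obtain ⟨S, hS⟩ := h (min 1 (ε / (L + 1))) (by positivity)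
  refine ⟨S, hS.mono fun n hn i => ?_⟩
  have c1 := contDiff_tsl (hg i).1 (-σ n i, 0)
  have h1 := H (f n) (tsl (-σ n i, 0) (g i)) (reg (σ n) i S) (ε / (L + 1)) (hf n) c1
    (cn_of_sub_Pr (hf n) c1 ((hn i).mono le_rfl subset_rfl (min_le_left _ _)) (hA _ _ _))
    ((hA _ _ _).mono le_rfl subset_rfl (by linarith only []))
    ((hn i).mono le_rfl subset_rfl (min_le_right _ _))
  have e : ((fun p : Pl => G p.2 (f n p)) - tsl (-σ n i, 0) fun p : Pl => G p.2 (g i p)) =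
      fun p : Pl => G p.2 (f n p) - G p.2 (tsl (-σ n i, 0) (g i) p) := by
    funext p
    simp [tsl]
  rw [e]
  refine h1.mono le_rfl subset_rfl ?_
  rw [← mul_div_assoc, div_le_iff₀ (by positivity)]
  nlinarith only [hε]

theorem PrC.bound {m : ℕ} {f : N → Pl → F} {g : Fin k → Pl → F} (h : PrC m l σ f g) (hσ : Gap l σ)
    (hk : 0 < k) (hf : ∀ n, ContDiff ℝ ∞ (f n)) (hg : ∀ i, Bdd (g i)) :
    ∃ A, ∀ᶠ n in l, Cn m (f n) univ A := by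
  obtain ⟨A, hA⟩ := bdd_fam_Pr hg m
  obtain ⟨S, hS⟩ := h 1 one_pos
  refine ⟨1 + A, (hS.and (hσ.cover hk S)).mono fun n hn => cn_of_forall fun s _ => ?_⟩
  obtain ⟨i, hi⟩ := hn.2 s
  exact cn_of_sub_Pr (hf n) (contDiff_tsl (hg i).1 _)
    ((hn.1 i).mono le_rfl (singleton_subset_iff.2 hi) le_rfl) (hA _ _ _)

theorem locC_of_prC {f : N → Pl → F} {g : Fin k → Pl → F} (h : ∀ m, PrC m l σ f g) (hσ : Gap l σ)
    (i : Fin k) : LocC l (fun n => tsl (σ n i, 0) (f n)) (g i) := by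
  intro m R ε hε
  obtain ⟨S, hS⟩ := h m ε hε
  filter_upwards [hS, hσ.Icc_subset S R] with n hn hn'
  have h1 := (cn_tsl (σ n i, 0)).2 (hn i)
  have e : tsl (σ n i, 0) (f n - tsl (-σ n i, 0) (g i)) = tsl (σ n i, 0) (f n) - g i := by
    funext p
    have e' : p + (σ n i, 0) + (-σ n i, 0) = p := Prod.ext (by simp) (by simp)
    simp only [tsl, Pi.sub_apply, e']
  rw [e] at h1
  exact h1.mono le_rfl (fun s hs => hn' i
    ⟨by linarith only [hs.1], by linarith only [hs.2]⟩) le_rfl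

theorem prC_of_prW {f : N → Pl → V} {g : Fin k → Pl → V} (h : PrW l σ f g) (hσ : Gap l σ)
    (hf : ∀ n, ContDiff ℝ ∞ (f n) ∧ Per (f n)) (hg : ∀ i, Bdd (g i) ∧ Per (g i)) {m : ℕ} {A : ℝ}
    (hA : ∀ᶠ n in l, Cn (m + 1) (f n) univ A) : PrC m l σ f g := by
  intro ε hε
  obtain ⟨B, hB⟩ := bdd_fam_Pr (fun i => (hg i).1) (m + 1)
  obtain ⟨δ, hδ, H⟩ := cn_interp (F := V) m (A + B) hε
  obtain ⟨c, hc⟩ := sob_loc (F := V)
  obtain ⟨S, hS⟩ := h (ENNReal.ofReal (δ ^ 2 / (c + 1))) (ENNReal.ofReal_pos.2 (by positivity))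
  refine ⟨S + 2, (hS.and hA).mono fun n hn i => ?_⟩
  have c1 := contDiff_tsl (hg i).1.1 (-σ n i, 0)
  have c2 := (hf n).1.sub c1
  refine H _ _ c2 (hn.2.sub (hf n).1 c1 (hB _ _ _)) ?_
  rintro p ⟨s, hs, hp⟩
  have h1 := abs_le.1 hp
  have h2 : Icc p.1 (p.1 + 1) ⊆ reg (σ n) i S := fun t ht i' =>
    ⟨fun hi => by linarith only [(hs i').1 hi, ht.1, h1.1],
      fun hi => by linarith only [(hs i').2 hi, ht.2, h1.2]⟩
  have h3 := (hc (f n - tsl (-σ n i, 0) (g i)) p p.1 c2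
    (fun s t => by rw [Pi.sub_apply, Pi.sub_apply, (hf n).2, ((hg i).2.tsl _)])
    ⟨le_rfl, by linarith only []⟩).trans
      (mul_le_mul_right ((nrm_mono _ le_rfl h2).trans (hn.1 i)) _)
  rw [en_EstL, ← ENNReal.ofReal_coe_nnreal, ← ENNReal.ofReal_mul (NNReal.coe_nonneg c),
    ENNReal.ofReal_le_ofReal_iff (by positivity)] at h3
  refine (pow_le_pow_iff_left₀ (norm_nonneg _) hδ.le two_ne_zero).1 (h3.trans ?_)
  rw [← mul_div_assoc, div_le_iff₀ (by positivity)]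
  nlinarith only [sq_nonneg δ]

theorem prC_coef {J : ℝ → V → V →L[ℝ] V} (hJ : SP J) {𝕏 : ℝ → C × V → V} (hX : SP 𝕏)
    {κ : N → Pl → C} {κ' : Fin k → Pl → C} {u : N → Pl → V} {g : Fin k → Pl → V}
    (hκ : ∀ n, ContDiff ℝ ∞ (κ n)) (hκ' : ∀ i, Bdd (κ' i)) (hu : ∀ n, ContDiff ℝ ∞ (u n))
    (hg : ∀ i, Bdd (g i)) (e : PrC 1 l σ κ κ') (e' : PrC 2 l σ u g) :
    PrC 1 l σ (fun n => cJ J (u n)) (fun i => cJ J (g i)) ∧
      PrC 1 l σ (fun n => cS J (ctl 𝕏 (κ n)) (u n)) fun i => cS J (ctl 𝕏 (κ' i)) (g i) := by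
  obtain ⟨G, hG, eG⟩ := exists_cS hJ hX
  have e1 := e'.mono one_le_two
  refine ⟨e1.comp hu hg hJ, ?_⟩
  simp only [eG]
  exact (e.prod (e1.prod (PrC.dt e' hu fun i => (hg i).1) hu (fun i => (hg i).1)
    (fun n => contDiff_dt (hu n)) fun i => contDiff_dt (hg i).1) hκ (fun i => (hκ' i).1)
    (fun n => (hu n).prodMk (contDiff_dt (hu n)))
    fun i => (hg i).1.prodMk (contDiff_dt (hg i).1)).comp
      (fun n => (hκ n).prodMk ((hu n).prodMk (contDiff_dt (hu n))))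
      (fun i => (hκ' i).prod ((hg i).prod (hg i).dt)) hG

theorem wc_of_prW_one {σ : N → Fin 1 → ℝ} {f : N → Pl → F} {g : Fin 1 → Pl → F} (h : PrW l σ f g) :
    WC l f fun n => tsl (-σ n 0, 0) (g 0) := by
  refine ENNReal.tendsto_nhds_zero.2 fun ε hε => ?_
  obtain ⟨S, hS⟩ := h ε hε
  refine hS.mono fun n hn => (nrm_mono _ le_rfl ?_).trans (hn 0)
  intro s _ i'
  rw [Subsingleton.elim i' 0]
  exact ⟨fun h => absurd h (lt_irrefl _), fun h => absurd h (lt_irrefl _)⟩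

variable {x y z : ℝ → V} {g₁ g₂ : Pl → V} {ϱ₁ ϱ₂ : N → ℝ}

theorem pth_pre (h₁ : Pth x y g₁) (h₂ : Pth y z g₂) (hx : ContDiff ℝ ∞ x) (hy : ContDiff ℝ ∞ y)
    (hz : ContDiff ℝ ∞ z) (py : ∀ t, y (t + 1) = y t) (a b : ℝ) : Pth x z (pre a b g₁ g₂ y) := by
  have t₁ := h₁.tsl hx hy a
  have t₂ := h₂.tsl hy hz (-b)
  have key : ∀ {f g : Pl → V} {I : Set ℝ}, ContDiff ℝ ∞ f → ContDiff ℝ ∞ g → nrm 2 f I < ⊤ →
      nrm 2 g I < ⊤ → nrm 2 (f + g) I < ⊤ := fun hf hg h h' =>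
    (nrm_add_le 2 hf hg _).trans_lt (ENNReal.add_lt_top.2
      ⟨ENNReal.mul_lt_top (by norm_num) h, ENNReal.mul_lt_top (by norm_num) h'⟩)
  refine ⟨(t₁.bdd.add t₂.bdd).sub (bdd_lp hy py).1, fun s t => ?_, ?_, ?_⟩
  · simp only [pre, Pi.sub_apply, Pi.add_apply, t₁.per s t, t₂.per s t, (bdd_lp hy py).2.1 s t]
  · have e : pre a b g₁ g₂ y - lp x = (tsl (a, 0) g₁ - lp x) + (tsl (-b, 0) g₂ - lp y) := by
      unfold pre; abel
    rw [e]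
    exact key (t₁.bdd.1.sub (contDiff_lp_Pr hx)) (t₂.bdd.1.sub (contDiff_lp_Pr hy)) t₁.left t₂.left
  · have e : pre a b g₁ g₂ y - lp z = (tsl (a, 0) g₁ - lp y) + (tsl (-b, 0) g₂ - lp z) := by
      unfold pre; abel
    rw [e]
    exact key (t₁.bdd.1.sub (contDiff_lp_Pr hy)) (t₂.bdd.1.sub (contDiff_lp_Pr hz)) t₁.right
      t₂.right

theorem cn_pre (h₁ : Bdd g₁) (h₂ : Bdd g₂) (hy : ContDiff ℝ ∞ y) (py : ∀ t, y (t + 1) = y t)
    (m : ℕ) : ∃ A, ∀ a b, Cn m (pre a b g₁ g₂ y) univ A := by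
  obtain ⟨A₁, e₁⟩ := (bdd_iff.1 h₁).2 m
  obtain ⟨A₂, e₂⟩ := (bdd_iff.1 h₂).2 m
  obtain ⟨A₃, e₃⟩ := (bdd_iff.1 (bdd_lp hy py).1).2 m
  exact ⟨A₁ + A₂ + A₃, fun a b => Cn.sub ((contDiff_tsl h₁.1 _).add (contDiff_tsl h₂.1 _))
    (contDiff_lp_Pr hy) (Cn.add (contDiff_tsl h₁.1 _) (contDiff_tsl h₂.1 _) ((cn_tsl _).2 e₁)
      ((cn_tsl _).2 e₂)) e₃⟩

theorem prC_pre (h₁ : Pth x y g₁) (h₂ : Pth y z g₂) (hx : ContDiff ℝ ∞ x) (hy : ContDiff ℝ ∞ y)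
    (hz : ContDiff ℝ ∞ z) (px : ∀ t, x (t + 1) = x t) (py : ∀ t, y (t + 1) = y t)
    (pz : ∀ t, z (t + 1) = z t) (m : ℕ) :
    PrC m l (fun n => ![-ϱ₁ n, ϱ₂ n]) (fun n => pre (ϱ₁ n) (ϱ₂ n) g₁ g₂ y) ![g₁, g₂] := by
  intro ε hε
  obtain ⟨R₁, -, e₁⟩ := h₁.cn hx hy px py m hε
  obtain ⟨R₂, e₂, -⟩ := h₂.cn hy hz py pz m hε
  refine ⟨max R₁ R₂, Eventually.of_forall fun n => Fin.forall_fin_two.2 ⟨?_, ?_⟩⟩
  · have e : pre (ϱ₁ n) (ϱ₂ n) g₁ g₂ y - tsl (- -ϱ₁ n, 0) g₁ = tsl (-ϱ₂ n, 0) (g₂ - lp y) := by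
      rw [neg_neg, tsl_sub_lp_Pr, pre]; abel
    refine (congrArg (fun f => Cn m f _ ε) e).mpr
      (((cn_tsl (-ϱ₂ n, 0)).2 e₂).mono le_rfl (fun s hs => ?_) le_rfl)
    have h1 : s ≤ ϱ₂ n - max R₁ R₂ := (hs 1).2 (by decide)
    show s + -ϱ₂ n ≤ -R₂
    linarith only [h1, le_max_right R₁ R₂]
  · have e : pre (ϱ₁ n) (ϱ₂ n) g₁ g₂ y - tsl (-ϱ₂ n, 0) g₂ = tsl (ϱ₁ n, 0) (g₁ - lp y) := by
      rw [tsl_sub_lp_Pr, pre]; abel
    refine (congrArg (fun f => Cn m f _ ε) e).mpr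
      (((cn_tsl (ϱ₁ n, 0)).2 e₁).mono le_rfl (fun s hs => ?_) le_rfl)
    have h1 : -ϱ₁ n + max R₁ R₂ ≤ s := (hs 0).1 (by decide)
    show R₁ ≤ s + ϱ₁ n
    linarith only [h1, le_max_left R₁ R₂]

theorem wc_of_prW_two (h₁ : Pth x y g₁) (h₂ : Pth y z g₂) (hx : ContDiff ℝ ∞ x)
    (hy : ContDiff ℝ ∞ y) (hz : ContDiff ℝ ∞ z) {σ : N → Fin 2 → ℝ} (hσ : Gap l σ)
    {f : N → Pl → V} (hf : ∀ n, ContDiff ℝ ∞ (f n)) (h : PrW l σ f ![g₁, g₂]) :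
    WC l f fun n => pre (-σ n 0) (σ n 1) g₁ g₂ y := by
  refine ENNReal.tendsto_nhds_zero.2 fun ε hε => ?_
  have hδ : 0 < ε / 8 := ENNReal.div_pos hε.ne' (by norm_num)
  obtain ⟨S₀, hS⟩ := h _ hδ
  obtain ⟨S, ⟨e₁, e₂⟩, hS₀⟩ := (((ENNReal.tendsto_nhds_zero.1 (h₁.tail hx hy).2 _ hδ).and
    (ENNReal.tendsto_nhds_zero.1 (h₂.tail hy hz).1 _ hδ)).and (eventually_ge_atTop S₀)).exists
  filter_upwards [hS, hσ.cover two_pos S] with n hn hc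
  have hcov : univ ⊆ reg (σ n) 0 S ∪ reg (σ n) 1 S := fun s _ => Fin.exists_fin_two.1 (hc s)
  have c₁ := h₁.bdd.1
  have c₂ := h₂.bdd.1
  have b₀ : nrm 2 (f n - pre (-σ n 0) (σ n 1) g₁ g₂ y) (reg (σ n) 0 S) ≤
      2 * (ε / 8) + 2 * (ε / 8) := by
    have e : f n - pre (-σ n 0) (σ n 1) g₁ g₂ y =
        (f n - tsl (-σ n 0, 0) g₁) - tsl (-σ n 1, 0) (g₂ - lp y) := by
      rw [tsl_sub_lp_Pr, pre]; abel
    rw [e]
    refine (nrm_sub_le 2 ((hf n).sub (contDiff_tsl c₁ _))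
      (contDiff_tsl (c₂.sub (contDiff_lp_Pr hy)) _) _).trans (add_le_add (mul_le_mul_right
        ((nrm_mono _ le_rfl (reg_mono _ _ hS₀)).trans (hn 0)) _) (mul_le_mul_right
          ((nrm_mono _ le_rfl fun s hs => ?_).trans ((nrm_tsl_Pr 2 _ _ _).trans_le e₂)) _))
    have h1 : s ≤ σ n 1 - S := (hs 1).2 (by decide)
    show s + -σ n 1 ≤ -S
    linarith only [h1]
  have b₁ : nrm 2 (f n - pre (-σ n 0) (σ n 1) g₁ g₂ y) (reg (σ n) 1 S) ≤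
      2 * (ε / 8) + 2 * (ε / 8) := by
    have e : f n - pre (-σ n 0) (σ n 1) g₁ g₂ y =
        (f n - tsl (-σ n 1, 0) g₂) - tsl (-σ n 0, 0) (g₁ - lp y) := by
      rw [tsl_sub_lp_Pr, pre]; abel
    rw [e]
    refine (nrm_sub_le 2 ((hf n).sub (contDiff_tsl c₂ _))
      (contDiff_tsl (c₁.sub (contDiff_lp_Pr hy)) _) _).trans (add_le_add (mul_le_mul_right
        ((nrm_mono _ le_rfl (reg_mono _ _ hS₀)).trans (hn 1)) _) (mul_le_mul_right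
          ((nrm_mono _ le_rfl fun s hs => ?_).trans ((nrm_tsl_Pr 2 _ _ _).trans_le e₁)) _))
    have h1 : σ n 0 + S ≤ s := (hs 0).1 (by decide)
    show S ≤ s + -σ n 0
    linarith only [h1]
  refine (nrm_mono _ le_rfl hcov).trans ((nrm_union_le _ _ _ _).trans ((add_le_add b₀ b₁).trans ?_))
  calc _ = 8 * (ε / 8) := by ring
    _ ≤ ε := ENNReal.mul_div_le

end

end Pool.Agent.P.MP_de3acd_gt.FH
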