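import Pool.Agent.P.MP_de3acd_gt.FH.Orbs
import Pool.Agent.P.MP_de3acd_gt.FH.IE2
import Pool.Agent.P.MP_de3acd_gt.FH.Pr
import Pool.Agent.P.MP_de3acd_gt.FH.Clus

/-! Uniform bounds and the energy quantum for bounded sequences of solutions.
Sketch: unif: PrC.bound for large n, Bdd for the finitely many others; cn_of_c1. conv_mid: a point of mid (τ n) i S lies in the
region reg of a neighbouring mark i' (i' = i or i - 1; q > 0) at distance ≥ S ≥ R + 1 from it, where κ i' is the constant a i near the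
point. quantum: by contradiction; for each m the statement with ħ = 1/(m+1), S = m fails frequently; choose n m increasing
(extraction_forall_of_frequently), i constant along a subsequence, and s m. v m = tsl (s m, 0) (u (n m)) converges LocC to g (aa);
the translated controls tend to a i pointwise (conv_mid, mid with S = m contains s m + Icc (-m/2) (m/2) in mid with S = m/2);
LocC.cr; nrm 0 (ds g) (Icc (-1) 1) = 0 (LocC.nrm_le, nrm_tsl), so ds g (0, t) = 0; orb_of_ds gives an orbit in the ball that is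
δ-close to u (n m) (s m, ·) for large m. -/

open Set Filter Topology MeasureTheory
open scoped ContDiff NNReal ENNReal RealInnerProductSpace

namespace Pool.Agent.P.MP_de3acd_gt.FH

noncomputable section

variable {V : Type} [NormedAddCommGroup V] [InnerProductSpace ℝ V] [Sym V]
variable {C : Type} [NormedAddCommGroup C] [NormedSpace ℝ C] [FiniteDimensional ℝ C]
  {J : ℝ → V → V →L[ℝ] V} {𝕏 : ℝ → C × V → V} {q : ℕ} {κ : Fin q → Pl → C} {a : Fin (q + 1) → C}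
  {R A : ℝ} {x y : ℝ → V} {κ' : ℕ → Pl → C} {τ : ℕ → Fin q → ℝ} {u : ℕ → Pl → V}

theorem fin_bound_Cmp1 {P : ℕ → ℝ → Prop} (hm : ∀ n A B, A ≤ B → P n A → P n B)
    (h : ∀ n, ∃ A, P n A) (h' : ∃ A, ∀ᶠ n in atTop, P n A) : ∃ A, ∀ n, P n A := by
  obtain ⟨A, hA⟩ := h'
  obtain ⟨N, hN⟩ := eventually_atTop.1 hA
  choose B hB using h
  refine ⟨max A ((Finset.range (N + 1)).sup' (by simp) B), fun n => ?_⟩
  rcases le_total N n with hn | hn
  · exact hm n _ _ (le_max_left _ _) (hN n hn)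
  · exact hm n _ _ ((Finset.le_sup' B (Finset.mem_range.2 (by omega))).trans (le_max_right _ _))
      (hB n)

theorem CSeq.unif (hd : CData J 𝕏 κ a R A) (h : CSeq J 𝕏 κ a A x y κ' τ u) (k : ℕ) :
    ∃ A', ∀ n, Cn k (κ' n) univ A' ∧ Cn k (u n) univ A' := by
  obtain ⟨A₁, h1⟩ : ∃ A₁, ∀ n, Cn (k + 3) (κ' n) univ A₁ :=
    fin_bound_Cmp1 (P := fun n A => Cn (k + 3) (κ' n) univ A)
      (fun n _ _ e h => h.mono le_rfl subset_rfl e)
      (fun n => ((h.bdd n).1.cn (k + 3)).imp fun _ h => h.2)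
      ((h.conv (k + 3)).bound h.gap hd.pos (fun n => (h.bdd n).1.1) fun i => (hd.bdd i).1)
  obtain ⟨A₂, h2⟩ := cn_of_c1 hd.acs hd.sp k (max A A₁)
  exact ⟨max A₁ A₂, fun n => ⟨(h1 n).mono (by omega) subset_rfl (le_max_left _ _),
    (h2 _ _ (h.bdd n).1.1 (h.nice n).bdd.1 (h.nice n).eq
      ((h.bound n).mono le_rfl subset_rfl (le_max_left _ _))
      ((h1 n).mono le_rfl subset_rfl (le_max_right _ _))).mono le_rfl subset_rfl
        (le_max_right _ _)⟩⟩

theorem CSeq.conv_mid (hd : CData J 𝕏 κ a R A) (h : CSeq J 𝕏 κ a A x y κ' τ u) (k : ℕ) {ε : ℝ}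
    (hε : 0 < ε) : ∃ S, ∀ᶠ n in atTop, ∀ i, Cn k (κ' n - fun _ => a i) (mid (τ n) i S) ε := by
  obtain ⟨S, hS⟩ := h.conv k ε hε
  have l1 := le_max_left S (R + 1)
  have l2 := le_max_right S (R + 1)
  refine ⟨max S (R + 1), hS.mono fun n hn i => ?_⟩
  rcases Fin.eq_zero_or_eq_succ i with rfl | ⟨j, rfl⟩
  · refine ((hn ⟨0, hd.pos⟩).mono le_rfl (fun s hs i' => ⟨fun e => absurd e (Nat.not_lt_zero _),
      fun _ => ?_⟩) le_rfl).congr fun p hp => ?_
    · have := (hs i').2 (Fin.zero_le _)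
      linarith
    · have e := (hp ⟨0, hd.pos⟩).2 (Fin.zero_le _)
      have : ∀ᶠ p' : Pl in 𝓝 p, p'.1 < τ n ⟨0, hd.pos⟩ - R :=
        (continuous_fst.tendsto p).eventually (gt_mem_nhds (by linarith))
      filter_upwards [this] with p' hp'
      simp only [Pi.sub_apply, tsl]
      rw [(hd.ends ⟨0, hd.pos⟩ _).1 (by simp only [Prod.fst_add]; linarith)]
      rfl
  · refine ((hn j).mono le_rfl (fun s hs i' => ⟨fun e => ?_, fun e => ?_⟩) le_rfl).congr
      fun p hp => ?_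
    · have := (hs i').1 (Fin.castSucc_lt_succ_iff.2 e.le)
      linarith
    · have := (hs i').2 (Fin.succ_le_castSucc_iff.2 e)
      linarith
    · have e := (hp j).1 (Fin.castSucc_lt_succ_iff.2 le_rfl)
      have : ∀ᶠ p' : Pl in 𝓝 p, τ n j + R < p'.1 :=
        (continuous_fst.tendsto p).eventually (lt_mem_nhds (by linarith))
      filter_upwards [this] with p' hp'
      simp only [Pi.sub_apply, tsl]
      rw [(hd.ends j _).2 (by simp only [Prod.fst_add]; linarith)]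

theorem zero_of_nrm_Cmp1 {f : Pl → V} (hf : Continuous f) (hp : Per f)
    (h : nrm 0 f (Icc (-1) 1) = 0) (t : ℝ) : f (0, t) = 0 := by
  rw [nrm_zero, lintegral_eq_zero_iff (hf.enorm.measurable.pow_const 2)] at h
  have h1 : f =ᵐ[volume.restrict (Icc (-1 : ℝ) 1 ×ˢ Icc (0 : ℝ) 1)] fun _ => 0 :=
    h.mono fun p hp => by simpa using hp
  have h2 : EqOn f (fun _ => 0) (Icc (-1 : ℝ) 1 ×ˢ Icc (0 : ℝ) 1) := by
    refine Measure.eqOn_of_ae_eq h1 hf.continuousOn continuousOn_const ?_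
    rw [interior_prod_eq, closure_prod_eq, interior_Icc, interior_Icc,
      closure_Ioo zero_ne_one, closure_Ioo (by norm_num)]
  have h3 := hp.int 0 (Int.fract t) ⌊t⌋
  rw [Int.fract_add_floor] at h3
  exact h3.trans (h2 ⟨⟨by norm_num, by norm_num⟩, Int.fract_nonneg _, (Int.fract_lt_one _).le⟩)

theorem CSeq.quantum (hd : CData J 𝕏 κ a R A) (h : CSeq J 𝕏 κ a A x y κ' τ u) {δ : ℝ} (hδ : 0 < δ) :
    ∃ (e : ℝ≥0∞) (S : ℝ), 0 < e ∧ ∀ᶠ n in atTop, ∀ i, ∀ s ∈ mid (τ n) i S,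
      (∀ x', Orb 1 (cfz 𝕏 (a i)) x' → InB A x' → ∃ t, δ < ‖u n (s, t) - x' t‖) →
        e ≤ nrm 0 (ds (u n)) (Icc (s - 1) (s + 1)) := by
  by_contra hc
  have key : ∀ m : ℕ, ∃ᶠ n in atTop, ∃ i, ∃ s ∈ mid (τ n) i m,
      (∀ x', Orb 1 (cfz 𝕏 (a i)) x' → InB A x' → ∃ t, δ < ‖u n (s, t) - x' t‖) ∧
        nrm 0 (ds (u n)) (Icc (s - 1) (s + 1)) ≤ (m : ℝ≥0∞)⁻¹ := fun m hm =>
    hc ⟨(m : ℝ≥0∞)⁻¹, m, ENNReal.inv_pos.2 (ENNReal.natCast_ne_top m), hm.mono fun n hn i s hs e =>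
      le_of_not_gt fun e' => hn ⟨i, s, hs, e, e'.le⟩⟩
  obtain ⟨φ, hφ, hφ'⟩ := extraction_forall_of_frequently key
  choose i s hs hx hn using hφ'
  obtain ⟨i₀, hi⟩ : ∃ i₀, ∃ᶠ m in atTop, i m = i₀ := by
    by_contra hc
    obtain ⟨m, hm⟩ := (eventually_all.2 fun j => not_frequently.1 fun e => hc ⟨j, e⟩).exists
    exact hm _ rfl
  obtain ⟨ψ, hψ, hψ'⟩ := extraction_of_frequently_atTop hi
  have sm : ∀ n (b : Pl), ContDiff ℝ ∞ (tsl b (u n)) := fun n b =>
    contDiff_tsl (h.nice n).bdd.1 b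
  obtain ⟨χ, g, hχ, gb, gp, hg⟩ := aa (f := fun m => tsl (s (ψ m), 0) (u (φ (ψ m))))
    (fun m => ⟨sm _ _, (h.nice _).per.tsl _⟩)
    fun k => (h.unif hd k).imp fun A' hA m => (cn_tsl _).2 (hA _).2
  have tθ : Tendsto (fun m => ψ (χ m)) atTop atTop := (hψ.comp hχ).tendsto_atTop
  have hκ : ∀ p, Tendsto (fun m => tsl (s (ψ (χ m)), 0) (κ' (φ (ψ (χ m)))) p) atTop
      (𝓝 ((fun _ : Pl => a i₀) p)) := fun p => by
    refine Metric.tendsto_nhds.2 fun ε hε => ?_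
    obtain ⟨S, hS⟩ := h.conv_mid hd 0 (half_pos hε)
    filter_upwards [(hφ.tendsto_atTop.comp tθ).eventually hS,
      (tendsto_natCast_atTop_atTop.comp tθ).eventually_ge_atTop (S + |p.1|)] with m h1 h2
    have h3 := h1 (i (ψ (χ m))) (p + (s (ψ (χ m)), 0)) fun j => ⟨fun e => ?_, fun e => ?_⟩
    · rw [hψ'] at h3
      rw [dist_eq_norm]
      exact h3.trans_lt (half_lt_self hε)
    · have := (hs _ j).1 e
      have := neg_abs_le p.1
      simp only [Function.comp_apply, Prod.fst_add] at *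
      linarith
    · have := (hs _ j).2 e
      have := le_abs_self p.1
      simp only [Function.comp_apply, Prod.fst_add] at *
      linarith
  have hcr : ∀ p, cr J (sta (cfz 𝕏 (a i₀))) g p = 0 := fun p =>
    hg.cr hd.acs.1 hd.sp hκ (fun _ => sm _ _) gb.1 p (Eventually.of_forall fun m => by
      have : ∀ (b : ℝ) (c : Pl → C), ctl 𝕏 (tsl (b, 0) c) = tsl (b, 0) (ctl 𝕏 c) := fun b c => by
        funext p z
        simp only [ctl, tsl, Prod.snd_add, add_zero]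
      rw [this, cr_tsl]
      exact (h.nice _).eq _)
  have h0 : nrm 0 (ds g) (Icc (-1) 1) = 0 := by
    have t0 : Tendsto (fun j : ℕ => 2 * (j : ℝ≥0∞)⁻¹) atTop (𝓝 (2 * 0)) :=
      ENNReal.Tendsto.const_mul ENNReal.tendsto_inv_nat_nhds_zero (Or.inr (by simp))
    rw [mul_zero] at t0
    refine le_zero_iff.1 (ge_of_tendsto' t0 fun j => ?_)
    refine (hg.ds (fun _ => sm _ _) gb.1).nrm_le (fun _ => contDiff_ds (sm _ _))
      (contDiff_ds gb.1) ?_
    filter_upwards [tθ.eventually_ge_atTop j] with m hm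
    have e : Icc (-1 : ℝ) 1 = (fun r => r + ((s (ψ (χ m)), 0) : Pl).1) ⁻¹'
        Icc (s (ψ (χ m)) - 1) (s (ψ (χ m)) + 1) := by
      ext r
      simp only [mem_Icc, mem_preimage]
      constructor <;> rintro ⟨h1, h2⟩ <;> constructor <;> linarith
    rw [ds_tsl, e, nrm_tsl 0 (contDiff_ds (h.nice _).bdd.1) (h.nice _).per.ds _ measurableSet_Icc]
    exact (hn _).trans (ENNReal.inv_le_inv.2 (by exact_mod_cast hm))
  have ho := orb_of_ds hd.acs gb.1 gp (s := 0) (fun t => hcr (0, t))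
    (zero_of_nrm_Cmp1 (contDiff_ds gb.1).continuous gp.ds h0)
  have hb : InB A fun t => g (0, t) := fun t =>
    le_of_tendsto' (hg.tendsto (0, t)).norm fun m => (h.bound _).le (mem_univ _)
  obtain ⟨m, hm⟩ := (hg 0 0 δ hδ).exists
  obtain ⟨t, ht⟩ := hx (ψ (χ m)) _ (by rw [hψ']; exact ho) hb
  have := hm (0, t) (by simp)
  simp only [Pi.sub_apply, tsl, Prod.mk_add_mk, zero_add, add_zero] at this
  exact absurd this (not_le.2 ht)

theorem card_le_of_energy {f : Pl → V} (hf : Continuous f) {e e' : ℝ≥0∞} (h : nrm 0 f univ ≤ e')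
    (s : Finset ℝ) (hs : ∀ a ∈ s, ∀ b ∈ s, a ≠ b → 2 < |a - b|)
    (he : ∀ a ∈ s, e ≤ nrm 0 f (Icc (a - 1) (a + 1))) : s.card * e ≤ e' := by
  have hd : (s : Set ℝ).PairwiseDisjoint fun a => Icc (a - 1) (a + 1) ×ˢ Icc (0 : ℝ) 1 :=
    fun a ha b hb hab => disjoint_left.2 fun p h1 h2 => by
      have := hs a ha b hb hab
      have := abs_le.2 (⟨by linarith [h1.1.2, h2.1.1], by linarith [h1.1.1, h2.1.2]⟩ :
        -2 ≤ a - b ∧ a - b ≤ 2)
      linarith
  calc s.card * e = ∑ _a ∈ s, e := by simp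
    _ ≤ ∑ a ∈ s, ∫⁻ p in Icc (a - 1) (a + 1) ×ˢ Icc (0 : ℝ) 1, ‖f p‖ₑ ^ 2 := Finset.sum_le_sum he
    _ = ∫⁻ p in ⋃ a ∈ s, Icc (a - 1) (a + 1) ×ˢ Icc (0 : ℝ) 1, ‖f p‖ₑ ^ 2 :=
      (lintegral_biUnion_finset hd (fun _ _ => measurableSet_Icc.prod measurableSet_Icc) _).symm
    _ ≤ nrm 0 f univ :=
      lintegral_mono_set (iUnion₂_subset fun _ _ => prod_mono (subset_univ _) subset_rfl)
    _ ≤ e' := h

end

end Pool.Agent.P.MP_de3acd_gt.FH
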