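import Pool.Agent.P.MP_de3acd_gt.FH.Cmp1

/-! Selection of the pieces and of the intermediate orbits.
Sketch: WLOG 3 δ is below the separation constants NdB.sep of the q + 1 fields (shrink δ). Take e, S₀ from quantum; drop finitely many
n (compose with n ↦ n + n₀) so that it holds for all n. Fs n = {s | ∃ i, s ∈ mid (τ n) i S₀ ∧ s is δ-far from all orbits of level i in the ball}.
card_le_of_energy bounds separated subsets; cluster gives φ, k, σ, m, S₁; exists_lev. aa applied to the (Fin k → V)-valued maps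
p ↦ fun j => u (φ n) (p + (σ n j, 0)), or k times. S = max S₀ S₁ + 1. For s ∈ mid (σ n) j S: s ∈ mid (τ (φ n)) (lev j) S₀
(mid_subset) and s ∉ Fs, so u (s, ·) is δ-close to an orbit of level lev j; the finitely many closed sets {s | δ-close to x'} are
disjoint and cover the connected set mid, so one orbit serves; pigeonhole over the finite set of choices Fin (k+1) → orbits
(for large n all mid are nonempty). z 0 = x and z last = y by Pth.cn, Pth.inB and separation. For j ∉ range m, σ n j ∈ mid (τ (φ n)) i S₀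
forces i = lev j.castSucc for large n (Gap); if ds (g j) = 0 then g j (0, ·) is an orbit in the ball (LocC.cr, orb_of_ds), but it is
at distance ≥ δ from every such orbit in the limit; contradiction. PrC of the controls: reg (σ n) (m i) S ⊆ reg (τ (φ n)) i S, and
reg (σ n) j S ⊆ mid (τ (φ n)) (lev j.castSucc) S for free j, conv_mid. -/

open Set Filter Topology MeasureTheory
open scoped ContDiff NNReal ENNReal RealInnerProductSpace

namespace Pool.Agent.P.MP_de3acd_gt.FH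

noncomputable section

variable {V : Type} [NormedAddCommGroup V] [InnerProductSpace ℝ V] [Sym V]
variable {C : Type} [NormedAddCommGroup C] [NormedSpace ℝ C] [FiniteDimensional ℝ C]
  {J : ℝ → V → V →L[ℝ] V} {𝕏 : ℝ → C × V → V} {q : ℕ} {κ : Fin q → Pl → C} {a : Fin (q + 1) → C}
  {R A : ℝ} {x y : ℝ → V} {κ' : ℕ → Pl → C} {τ : ℕ → Fin q → ℝ} {u : ℕ → Pl → V}

theorem aa_fin_Cmp2 {ι : Type} (T : Finset ι) {f : ι → ℕ → Pl → V}
    (hf : ∀ j n, ContDiff ℝ ∞ (f j n) ∧ Per (f j n)) (h : ∀ j k, ∃ A, ∀ n, Cn k (f j n) univ A) :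
    ∃ (φ : ℕ → ℕ) (g : ι → Pl → V), StrictMono φ ∧
      ∀ j ∈ T, Bdd (g j) ∧ Per (g j) ∧ LocC atTop (fun n => f j (φ n)) (g j) := by
  classical
  induction T using Finset.induction_on with
  | empty => exact ⟨id, fun _ => 0, strictMono_id, fun j hj => absurd hj (Finset.notMem_empty j)⟩
  | insert i T hi ih =>
    obtain ⟨φ, g, hφ, hg⟩ := ih
    obtain ⟨ψ, g', hψ, hg'⟩ := aa (f := fun n => f i (φ n)) (fun n => hf i _)
      fun k => (h i k).imp fun A hA n => hA _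
    refine ⟨φ ∘ ψ, Function.update g i g', hφ.comp hψ, fun j hj => ?_⟩
    rcases Finset.mem_insert.1 hj with rfl | hj
    · rw [Function.update_self]
      exact hg'
    · rw [Function.update_of_ne (ne_of_mem_of_not_mem hj hi)]
      exact ⟨(hg j hj).1, (hg j hj).2.1, (hg j hj).2.2.comp_tendsto hψ.tendsto_atTop⟩

omit [InnerProductSpace ℝ V] [Sym V] in
theorem one_Cmp2 {I : Set ℝ} (hI : IsPreconnected I) (hne : I.Nonempty) {O : Set (ℝ → V)}
    (hO : O.Finite) {δ : ℝ} (sep : ∀ x ∈ O, ∀ y ∈ O, ∀ t, ‖x t - y t‖ ≤ 2 * δ → x = y)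
    {f : Pl → V} (hf : Continuous f) (h : ∀ s ∈ I, ∃ x ∈ O, ∀ t, ‖f (s, t) - x t‖ ≤ δ) :
    ∃ x ∈ O, ∀ s ∈ I, ∀ t, ‖f (s, t) - x t‖ ≤ δ := by
  have cl : ∀ x : ℝ → V, IsClosed {s : ℝ | ∀ t, ‖f (s, t) - x t‖ ≤ δ} := fun x => by
    rw [ofPred_forall]
    exact isClosed_iInter fun t => isClosed_le (by fun_prop) continuous_const
  obtain ⟨s₀, hs₀⟩ := hne
  obtain ⟨x₀, hx₀, h₀⟩ := h s₀ hs₀
  have dj : ∀ s, s ∈ {s : ℝ | ∀ t, ‖f (s, t) - x₀ t‖ ≤ δ} →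
      s ∉ ⋃ x ∈ O \ {x₀}, {s : ℝ | ∀ t, ‖f (s, t) - x t‖ ≤ δ} := fun s h1 h2 => by
    obtain ⟨x, hx, h3⟩ := mem_iUnion₂.1 h2
    refine hx.2 (sep x hx.1 x₀ hx₀ 0 ?_)
    have := norm_sub_le_norm_sub_add_norm_sub (x 0) (f (s, 0)) (x₀ 0)
    rw [norm_sub_rev (x 0) (f (s, 0))] at this
    linarith [h1 0, h3 0]
  rcases isPreconnected_iff_subset_of_disjoint_closed.1 hI _ _ (cl x₀)
    ((hO.subset (sdiff_subset (t := {x₀}))).isClosed_biUnion fun x _ => cl x)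
    (fun s hs => by
      obtain ⟨x, hx, h1⟩ := h s hs
      by_cases e : x = x₀
      · exact Or.inl (e ▸ h1)
      · exact Or.inr (mem_iUnion₂.2 ⟨x, ⟨hx, e⟩, h1⟩))
    (eq_empty_of_forall_notMem fun s hs => dj s hs.2.1 hs.2.2) with h1 | h1
  · exact ⟨x₀, hx₀, h1⟩
  · exact absurd (h1 hs₀) (dj s₀ h₀)

theorem mid_ne_Cmp2 {k : ℕ} {σ : Fin k → ℝ} {S : ℝ} (h : ∀ i i', i < i' → σ i + 2 * |S| ≤ σ i')
    (j : Fin (k + 1)) : (mid σ j S).Nonempty := by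
  have h1 := le_abs_self S
  have h2 := abs_nonneg S
  induction j using Fin.lastCases with
  | last =>
    obtain ⟨M, hM⟩ := Finite.exists_le fun i => σ i + S
    exact ⟨M, fun i => ⟨fun _ => hM i, fun hi => absurd (Fin.castSucc_lt_last i) hi.not_gt⟩⟩
  | cast j =>
    refine ⟨σ j - S, fun i => ⟨fun hi => ?_, fun hi => ?_⟩⟩
    · linarith [h i j (Fin.castSucc_lt_castSucc_iff.1 hi)]
    · rcases (Fin.castSucc_le_castSucc_iff.1 hi).eq_or_lt with rfl | hi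
      · exact le_rfl
      · linarith [h j i hi]

theorem mid_uniq_Cmp2 {k : ℕ} {σ : Fin k → ℝ} {S T s : ℝ} (h : 0 < S + T) {i j : Fin (k + 1)}
    (hi : s ∈ mid σ i S) (hj : s ∈ mid σ j T) : i = j := by
  have key : ∀ {S T : ℝ} {i j : Fin (k + 1)}, 0 < S + T → s ∈ mid σ i S → s ∈ mid σ j T →
      ¬i < j := by
    intro S T i j h hi hj hlt
    obtain ⟨i₀, rfl⟩ := Fin.exists_castSucc_eq.2 (Fin.ne_last_of_lt hlt)
    linarith [(hi i₀).2 le_rfl, (hj i₀).1 hlt]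
  exact le_antisymm (not_lt.1 (key (by linarith) hj hi)) (not_lt.1 (key h hi hj))

theorem reg_free_Cmp2 {k : ℕ} {m : Fin q ↪o Fin k} {lev : Fin (k + 1) → Fin (q + 1)}
    (h : ∀ i j, i.castSucc < lev j ↔ (m i).castSucc < j) (σ : Fin k → ℝ) {j : Fin k}
    (hj : j ∉ range m) (S : ℝ) : reg σ j S ⊆ mid (fun i => σ (m i)) (lev j.castSucc) S := by
  intro s hs i
  refine ⟨fun hi => (hs (m i)).1 (Fin.castSucc_lt_castSucc_iff.1 ((h i _).1 hi)),
    fun hi => (hs (m i)).2 (lt_of_le_of_ne (not_lt.1 fun hlt => ?_) fun e => hj ⟨i, e.symm⟩)⟩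
  exact hi.not_gt ((h i _).2 (Fin.castSucc_lt_castSucc_iff.2 hlt))

theorem prC_Cmp2 (hd : CData J 𝕏 κ a R A) (h : CSeq J 𝕏 κ a A x y κ' τ u) {φ : ℕ → ℕ}
    (hφ : StrictMono φ) {k : ℕ} {σ : ℕ → Fin k → ℝ} {m : Fin q ↪o Fin k}
    {lev : Fin (k + 1) → Fin (q + 1)} {κ'' : Fin k → Pl → C} (hs : CShape κ a m lev κ'')
    (e : ∀ n i, σ n (m i) = τ (φ n) i) (i : ℕ) : PrC i atTop σ (fun n => κ' (φ n)) κ'' := by
  intro ε hε
  obtain ⟨S₁, h₁⟩ := h.conv i ε hε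
  obtain ⟨S₂, h₂⟩ := h.conv_mid hd i hε
  refine ⟨max S₁ S₂, ?_⟩
  filter_upwards [hφ.tendsto_atTop.eventually h₁, hφ.tendsto_atTop.eventually h₂] with n e₁ e₂ j
  by_cases hj : j ∈ range m
  · obtain ⟨i', rfl⟩ := hj
    rw [hs.mark, e]
    refine (e₁ i').mono le_rfl
      (fun s hs => reg_mono _ _ (le_max_left S₁ S₂) fun i'' => ?_) le_rfl
    rw [← e]
    exact ⟨fun hi => (hs _).1 (m.strictMono hi), fun hi => (hs _).2 (m.strictMono hi)⟩
  · rw [hs.free j hj]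
    have := reg_free_Cmp2 hs.lt (σ n) hj (max S₁ S₂)
    simp only [e] at this
    exact (e₂ _).mono le_rfl (this.trans (mid_mono _ _ (le_max_right _ _))) le_rfl

theorem CSeq.select (hd : CData J 𝕏 κ a R A) (h : CSeq J 𝕏 κ a A x y κ' τ u) {δ : ℝ} (hδ : 0 < δ) :
    ∃ (φ : ℕ → ℕ) (k : ℕ) (σ : ℕ → Fin k → ℝ) (m : Fin q ↪o Fin k)
      (lev : Fin (k + 1) → Fin (q + 1)) (κ'' : Fin k → Pl → C) (z : Fin (k + 1) → ℝ → V)
      (g : Fin k → Pl → V) (S : ℝ), StrictMono φ ∧ CShape κ a m lev κ'' ∧ Gap atTop σ ∧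
        (∀ n i, σ n (m i) = τ (φ n) i) ∧ (∀ j, Orb 1 (cfz 𝕏 (a (lev j))) (z j) ∧ InB A (z j)) ∧
        z 0 = x ∧ z (Fin.last k) = y ∧ (∀ j, Bdd (g j) ∧ Per (g j) ∧ Cn 1 (g j) univ A ∧
          (∀ p, cr J (ctl 𝕏 (κ'' j)) (g j) p = 0) ∧
            LocC atTop (fun n => tsl (σ n j, 0) (u (φ n))) (g j)) ∧
        (∀ j, j ∉ range m → ds (g j) ≠ 0) ∧ (∀ i, PrC i atTop σ (fun n => κ' (φ n)) κ'') ∧
        ∀ᶠ n in atTop, ∀ j (p : Pl), p.1 ∈ mid (σ n) j S → ‖u (φ n) p - z j p.2‖ ≤ δ := by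
  classical
  have sp : ∀ c : C, SP (cfz 𝕏 c) := fun c =>
    ⟨hd.sp.1.comp (contDiff_fst.prodMk (contDiff_const.prodMk contDiff_snd)),
      fun t => funext fun z => congrFun (hd.sp.2 t) _⟩
  choose δs hδs sep using fun i => (hd.nd i).sep (sp _)
  obtain ⟨δ', hδ', le1, le2⟩ : ∃ δ' > 0, δ' ≤ δ ∧ ∀ i, 2 * δ' ≤ δs i := by
    obtain ⟨i₀, hi₀⟩ := Finite.exists_min δs
    exact ⟨min δ (δs i₀ / 2), lt_min hδ (half_pos (hδs i₀)), min_le_left _ _,
      fun i => by linarith [min_le_right δ (δs i₀ / 2), hi₀ i]⟩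
  set O : Fin (q + 1) → Set (ℝ → V) := fun i => {x | Orb 1 (cfz 𝕏 (a i)) x ∧ InB A x} with hO
  have sep' : ∀ i, ∀ x ∈ O i, ∀ y ∈ O i, ∀ t, ‖x t - y t‖ ≤ 2 * δ' → x = y :=
    fun i x hx y hy t e => sep i x y hx.1 hx.2 hy.1 hy.2 t (e.trans (le2 i))
  obtain ⟨e, S₀, he, hq⟩ := h.quantum hd hδ'
  obtain ⟨e', he', hE⟩ := h.energy
  obtain ⟨N, hN⟩ := ENNReal.exists_nat_mul_gt he.ne' he'.ne
  have su : ∀ n, ContDiff ℝ ∞ (u n) := fun n => (h.nice n).bdd.1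
  obtain ⟨φ₁, k, σ₁, m, S₁, hφ₁, gap, mk, fr, cov⟩ := cluster (N := N) hd.pos h.gap
    (Fs := fun n => {s | e ≤ nrm 0 (ds (u n)) (Icc (s - 1) (s + 1)) ∧ ∃ i, s ∈ mid (τ n) i S₀ ∧
      ∀ x' ∈ O i, ∃ t, δ' < ‖u n (s, t) - x' t‖}) fun n s hs hs' => by
      have h1 := card_le_of_energy (contDiff_ds (su n)).continuous (hE n) s hs'
        fun b hb => (hs hb).1
      by_contra h2
      exact (h1.trans_lt hN).not_ge
        (mul_le_mul_left (Nat.cast_le.2 (not_le.1 h2).le) e)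
  obtain ⟨lev, hlev⟩ := exists_lev m
  have near : ∀ᶠ n in atTop, ∃ z ∈ {z : Fin (k + 1) → ℝ → V | ∀ j, z j ∈ O (lev j)}, ∀ j,
      ∀ s ∈ mid (σ₁ n) j (max S₀ S₁ + 1), ∀ t, ‖u (φ₁ n) (s, t) - z j t‖ ≤ δ' := by
    filter_upwards [hφ₁.tendsto_atTop.eventually hq, gap.monotone (2 * |max S₀ S₁ + 1|)]
      with n e₁ e₂
    have key : ∀ j, ∃ x' ∈ O (lev j), ∀ s ∈ mid (σ₁ n) j (max S₀ S₁ + 1), ∀ t,
        ‖u (φ₁ n) (s, t) - x' t‖ ≤ δ' := fun j => by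
      refine one_Cmp2 (ordConnected_mid _ _ _).isPreconnected (mid_ne_Cmp2 e₂ j)
        ((hd.nd _).finite (sp _)) (sep' _) (su _).continuous fun s hs => ?_
      by_contra hc
      push Not at hc
      have h1 := mid_subset hlev (σ₁ n) j _ hs
      simp only [mk] at h1
      have h2 := mid_mono _ _ (by linarith [le_max_left S₀ S₁] : S₀ ≤ max S₀ S₁ + 1) h1
      obtain ⟨j', h3⟩ := cov n s ⟨e₁ _ s h2 fun x' a b => hc x' ⟨a, b⟩, _, h2, hc⟩
      have h4 := le_max_right S₀ S₁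
      rw [abs_le] at h3
      rcases lt_or_ge j'.castSucc j with h5 | h5
      · linarith [(hs j').1 h5]
      · linarith [(hs j').2 h5]
    choose z hz hz' using key
    exact ⟨z, hz, hz'⟩
  obtain ⟨z, hz, fq⟩ := (Finite.pi' fun j => (hd.nd (lev j)).finite (sp _)).frequently_exists.1
    near.frequently
  obtain ⟨φ₂, hφ₂, cl⟩ := extraction_of_frequently_atTop fq
  obtain ⟨φ₃, g, hφ₃, hg⟩ := aa_fin_Cmp2 Finset.univ
    (f := fun j n => tsl (σ₁ (φ₂ n) j, 0) (u (φ₁ (φ₂ n))))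
    (fun j n => ⟨contDiff_tsl (su _) _, (h.nice _).per.tsl _⟩)
    fun j i => (h.unif hd i).imp fun A' hA' n => (cn_tsl _).2 (hA' _).2
  have hψ : StrictMono fun n => φ₂ (φ₃ n) := hφ₂.comp hφ₃
  have hφ : StrictMono fun n => φ₁ (φ₂ (φ₃ n)) := hφ₁.comp hψ
  have gap' : Gap atTop fun n => σ₁ (φ₂ (φ₃ n)) := gap.comp hψ.tendsto_atTop
  have shape : CShape κ a m lev
      fun j => if h : j ∈ range m then κ h.choose else fun _ => a (lev j.castSucc) :=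
    ⟨hlev, fun i => by
      have h1 : m i ∈ range m := mem_range_self i
      rw [dif_pos h1, m.injective h1.choose_spec], fun j hj => dif_neg hj⟩
  generalize (fun j => if h : j ∈ range m then κ h.choose else fun _ => a (lev j.castSucc)) = κ''
    at shape
  have prc := prC_Cmp2 hd h hφ shape (σ := fun n => σ₁ (φ₂ (φ₃ n))) fun n i => mk _ i
  have sx := FH.Orb.contDiff (sp _).1 h.ox
  have sy := FH.Orb.contDiff (sp _).1 h.oy
  have pth := (h.nice (φ₁ (φ₂ 0))).pth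
  obtain ⟨bx, bY⟩ := pth.inB sx sy (FH.Orb.per h.ox) (FH.Orb.per h.oy)
    fun p => (h.bound _).le (mem_univ _)
  obtain ⟨T, hT, hT'⟩ := pth.cn sx sy (FH.Orb.per h.ox) (FH.Orb.per h.oy) 0 hδ'
  obtain ⟨l0, l1, -⟩ := lev_facts hlev
  have tri : ∀ {v w w' : V}, ‖v - w‖ ≤ δ' → ‖v - w'‖ ≤ δ' → ‖w - w'‖ ≤ 2 * δ' := by
    intro v w w' h1 h2
    have := norm_sub_le_norm_sub_add_norm_sub w v w'
    rw [norm_sub_rev w v] at this
    linarith
  have cn1 : ∀ j, Cn 1 (g j) univ A := fun j =>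
    (hg j (Finset.mem_univ j)).2.2.cn (fun n => contDiff_tsl (su _) _)
      (hg j (Finset.mem_univ j)).1.1 fun s _ => Eventually.of_forall fun n =>
        ((cn_tsl _).2 (h.bound _)).mono le_rfl (fun _ _ => mem_univ _) le_rfl
  have eq : ∀ j p, cr J (ctl 𝕏 (κ'' j)) (g j) p = 0 := fun j p => by
    refine LocC.cr hd.acs.1 hd.sp (locC_of_prC prc gap' j).tendsto (hg j (Finset.mem_univ j)).2.2
      (fun n => contDiff_tsl (su _) _) (hg j (Finset.mem_univ j)).1.1 p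
      (Eventually.of_forall fun n => ?_)
    have e1 : ∀ (s : ℝ) (c : Pl → C), ctl 𝕏 (tsl (s, 0) c) = tsl (s, 0) (ctl 𝕏 c) := fun s c => by
      funext p z
      simp only [ctl, tsl, Prod.snd_add, add_zero]
    rw [e1, cr_tsl]
    exact (h.nice _).eq _
  refine ⟨_, k, _, m, lev, κ'', z, g, max S₀ S₁ + 1, hφ, shape, gap', fun n i => mk _ i, hz, ?_, ?_,
    fun j => ⟨(hg j (Finset.mem_univ j)).1, (hg j (Finset.mem_univ j)).2.1, cn1 j, eq j,
      (hg j (Finset.mem_univ j)).2.2⟩, fun j hj h0 => ?_, prc,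
    Eventually.of_forall fun n j p hp => (cl _ j p.1 hp p.2).trans le1⟩
  · obtain ⟨M, hM⟩ := Finite.exists_ge fun i => σ₁ (φ₂ 0) i - (max S₀ S₁ + 1)
    refine sep' 0 _ (l0 ▸ hz 0) x ⟨h.ox, bx⟩ 0 (tri (cl 0 0 (min M (-T)) (fun i =>
      ⟨fun hi => absurd hi (Fin.not_lt_zero _), fun _ => (min_le_left _ _).trans (hM i)⟩) 0)
      (hT (min M (-T), 0) (min_le_right M (-T))))
  · obtain ⟨M, hM⟩ := Finite.exists_le fun i => σ₁ (φ₂ 0) i + (max S₀ S₁ + 1)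
    refine sep' (Fin.last q) _ (l1 ▸ hz (Fin.last k)) y ⟨h.oy, bY⟩ 0
      (tri (cl 0 (Fin.last k) (max M T) (fun i => ⟨fun _ => (hM i).trans (le_max_left _ _),
        fun hi => absurd (Fin.castSucc_lt_last i) hi.not_gt⟩) 0)
      (hT' (max M T, 0) (le_max_right M T)))
  · obtain ⟨b1, b2, b3⟩ := hg j (Finset.mem_univ j)
    have o1 : Orb 1 (cfz 𝕏 (a (lev j.castSucc))) fun t => g j (0, t) :=
      orb_of_ds hd.acs b1.1 b2 (fun t => (shape.free j hj ▸ eq j (0, t) :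
        cr J (ctl 𝕏 fun _ => a (lev j.castSucc)) (g j) (0, t) = 0))
        fun t => congrFun h0 _
    obtain ⟨n, e₁, e₂⟩ := ((gap'.Icc_subset (|S₀| + 1) 0).and (b3 0 0 δ' hδ')).exists
    obtain ⟨-, i, h1, h2⟩ := fr (φ₂ (φ₃ n)) j hj
    have h3 := reg_free_Cmp2 hlev _ hj _ (e₁ j ⟨(sub_zero _).le, (add_zero _).ge⟩)
    simp only [mk] at h3
    obtain rfl := mid_uniq_Cmp2 (by linarith [neg_abs_le S₀]) h1 h3
    obtain ⟨t, ht⟩ := h2 _ ⟨o1, fun t => (cn1 j).le (mem_univ _)⟩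
    refine ht.not_ge ?_
    simpa [tsl] using e₂ (0, t) (by simp)

end

end Pool.Agent.P.MP_de3acd_gt.FH
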