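import Pool.Agent.P.MP_de3acd_gt.FH.Cmp2
import Pool.Agent.P.MP_de3acd_gt.FH.Neck

/-! Compactness: convergence to a broken solution.
Sketch: the orbits of the q + 1 fields in the ball are finitely many (NdB.finite); let δ₁, c be common constants of neck and
δ₂, S₂ common constants of CSeq.agree; by cn_interp and CSeq.unif choose δ ≤ δ₂ such that C⁰-distance δ on a neighbourhood gives
Cn 1 δ₁; apply select. On mid (σ n) j (S + 2) the map u (φ n) solves the stationary equation of level lev j (agree, mid_subset). In the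
limit g j is δ-close to z j.succ on Ici (S + 1) and solves the stationary equation there (ends, free, lev_facts); neck with collars
bounded gives Pth (nrm_le_of_exhaust). For PrW fix ε, take T with small tails (Pth.tail); split reg (σ n) i (T+1) into Icc (σ - T) (σ + T)
(LocC.nrm, nrm_tsl) and the two necks, where nrm 2 (u - z) ≤ c (collars), and the collars Icc (σ i + T - 1) (σ i + T) converge to tails of the
pieces; for an infinite neck (i first or last) exhaust it and use Pth.tail of u (φ n). Then prC_of_prW, prC_coef, coef_ctl,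
fld_ctl with ell_fld. -/

open Set Filter Topology MeasureTheory
open scoped ContDiff NNReal ENNReal RealInnerProductSpace

namespace Pool.Agent.P.MP_de3acd_gt.FH

noncomputable section

section aux

variable {F : Type} [NormedAddCommGroup F] [NormedSpace ℝ F]

theorem small_Cmp3 {c ε : ℝ≥0∞} (hc : c ≠ ⊤) (hε : 0 < ε) : ∃ η > 0, c * η ≤ ε :=
  ⟨ε / c, ENNReal.div_pos hε.ne' hc, ENNReal.mul_div_le⟩

theorem mono_Cmp3 {k : ℕ} {σ : ℕ → Fin k → ℝ} (hσ : Gap atTop σ) :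
    ∀ᶠ n in atTop, ∀ i i', i ≤ i' → σ n i ≤ σ n i' :=
  (gap_ev_Pr hσ 0).mono fun n hn i i' hi => by
    rcases hi.eq_or_lt with rfl | h
    · exact le_rfl
    · linarith [hn i i' h]

theorem shift_Cmp3 (m : ℕ) (s a b : ℝ) (f : Pl → F) :
    nrm m f (Icc (s + a) (s + b)) = nrm m (tsl (s, 0) f) (Icc a b) := by
  rw [← nrm_tsl_Pr m s (Icc (s + a) (s + b)) f]
  congr 1
  ext t
  simp only [mem_preimage, mem_Icc]
  constructor <;> rintro ⟨h1, h2⟩ <;> constructor <;> linarith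

theorem collar_Cmp3 {σ : ℕ → ℝ} {u : ℕ → Pl → F} {g : Pl → F} {x : ℝ → F}
    (hu : ∀ n, ContDiff ℝ ∞ (u n)) (hg : ContDiff ℝ ∞ g) (hx : ContDiff ℝ ∞ x)
    (hl : LocC atTop (fun n => tsl (σ n, 0) (u n)) g) {a b : ℝ} {η : ℝ≥0∞} (hη : 0 < η)
    (h : nrm 2 (g - lp x) (Icc a b) ≤ η) :
    ∀ᶠ n in atTop, nrm 1 (u n - lp x) (Icc (σ n + a) (σ n + b)) ≤ 4 * η := by
  filter_upwards [(hl.nrm 1 a b).eventually_le_const hη] with n hn
  rw [shift_Cmp3, tsl_sub_lp_Pr]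
  have e : tsl (σ n, 0) (u n) - lp x = (tsl (σ n, 0) (u n) - g) + (g - lp x) := by abel
  rw [e]
  refine (nrm_add_le 1 ((contDiff_tsl (hu n) _).sub hg) (hg.sub (contDiff_lp_Pr hx)) _).trans ?_
  have h2 := (nrm_mono (g - lp x) (by norm_num : 1 ≤ 2) subset_rfl).trans h
  calc _ ≤ 2 * η + 2 * η := add_le_add (mul_le_mul_right hn 2) (mul_le_mul_right h2 2)
    _ = 4 * η := by ring

theorem mids_Cmp3 {k : ℕ} {σ : ℕ → Fin k → ℝ} {u : ℕ → Pl → F} {z : Fin (k + 1) → ℝ → F}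
    {g : Fin k → Pl → F} (hσ : Gap atTop σ) (hz : ∀ j, ContDiff ℝ ∞ (z j))
    (hu : ∀ n, Pth (z 0) (z (Fin.last k)) (u n)) (hg : ∀ j, Pth (z j.castSucc) (z j.succ) (g j))
    (hl : ∀ j, LocC atTop (fun n => tsl (σ n j, 0) (u n)) (g j)) (j : Fin (k + 1)) {c : ℝ≥0} {S : ℝ}
    (hn : ∀ᶠ n in atTop, ∀ a b, a ≤ b → Icc (a - 2) (b + 2) ⊆ mid (σ n) j S →
      nrm 2 (u n - lp (z j)) (Icc a b) ≤
        c * (nrm 1 (u n - lp (z j)) (Icc (a - 1) a) + nrm 1 (u n - lp (z j)) (Icc b (b + 1))))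
    {ε : ℝ≥0∞} (hε : 0 < ε) :
    ∀ᶠ T in atTop, ∀ᶠ n in atTop, nrm 2 (u n - lp (z j)) (mid (σ n) j T) ≤ ε := by
  obtain ⟨η, hη, hc⟩ := small_Cmp3 (c := c * 8) (by finiteness) hε
  have su : ∀ n, ContDiff ℝ ∞ (u n) := fun n => (hu n).bdd.1
  have h4 : η ≤ 4 * η := le_mul_of_one_le_left' (by norm_num)
  have hL : ∀ᶠ T in atTop, ∀ᶠ n in atTop, ∀ r : ℝ, ∃ a, (∀ s ∈ mid (σ n) j T, -r ≤ s → a ≤ s) ∧
      (∀ i, i.castSucc < j → σ n i + T ≤ a) ∧
        nrm 1 (u n - lp (z j)) (Icc (a - 1) a) ≤ 4 * η := by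
    rcases j.eq_zero_or_eq_succ with rfl | ⟨i, rfl⟩
    · refine Eventually.of_forall fun T => Eventually.of_forall fun n r => ?_
      obtain ⟨s, hs, hr⟩ := (((tail_Pth (hu n) (hz _) (hz _)).1.eventually_le_const hη).and
        (eventually_ge_atTop r)).exists
      refine ⟨-s, fun s' _ h => by linarith, fun i hi => absurd hi (Fin.not_lt_zero _), ?_⟩
      exact ((nrm_mono _ (by norm_num : 1 ≤ 2) Icc_subset_Iic_self).trans hs).trans h4
    · have ht := ((tail_Pth (hg i) (hz _) (hz _)).2.comp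
        (tendsto_atTop_add_const_right atTop (-1) tendsto_id)).eventually_le_const hη
      filter_upwards [ht] with T hT
      have := collar_Cmp3 su (hg i).bdd.1 (hz i.succ) (hl i) (a := T + -1) (b := T) hη
        ((nrm_mono _ le_rfl Icc_subset_Ici_self).trans hT)
      filter_upwards [this, mono_Cmp3 hσ] with n hn hm r
      refine ⟨σ n i + T, fun s hs _ => (hs i).1 Fin.castSucc_lt_succ, fun i' hi => ?_, ?_⟩
      · linarith [hm i' i (Fin.castSucc_lt_succ_iff.1 hi)]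
      · convert hn using 3
        ring
  have hR : ∀ᶠ T in atTop, ∀ᶠ n in atTop, ∀ r : ℝ, ∃ b, (∀ s ∈ mid (σ n) j T, s ≤ r → s ≤ b) ∧
      (∀ i, j ≤ i.castSucc → b ≤ σ n i - T) ∧
        nrm 1 (u n - lp (z j)) (Icc b (b + 1)) ≤ 4 * η := by
    rcases j.eq_castSucc_or_eq_last with ⟨i, rfl⟩ | rfl
    · have ht := ((tail_Pth (hg i) (hz _) (hz _)).1.comp
        (tendsto_atTop_add_const_right atTop (-1) tendsto_id)).eventually_le_const hη
      filter_upwards [ht] with T hT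
      have := collar_Cmp3 su (hg i).bdd.1 (hz i.castSucc) (hl i) (a := -T) (b := -(T + -1)) hη
        ((nrm_mono _ le_rfl Icc_subset_Iic_self).trans hT)
      filter_upwards [this, mono_Cmp3 hσ] with n hn hm r
      refine ⟨σ n i - T, fun s hs _ => (hs i).2 le_rfl, fun i' hi => ?_, ?_⟩
      · linarith [hm i i' (Fin.castSucc_le_castSucc_iff.1 hi)]
      · convert hn using 3 <;> ring
    · refine Eventually.of_forall fun T => Eventually.of_forall fun n r => ?_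
      obtain ⟨s, hs, hr⟩ := (((tail_Pth (hu n) (hz _) (hz _)).2.eventually_le_const hη).and
        (eventually_ge_atTop r)).exists
      refine ⟨s, fun s' _ h => by linarith, fun i hi => absurd (Fin.castSucc_lt_last i) hi.not_gt, ?_⟩
      exact ((nrm_mono _ (by norm_num : 1 ≤ 2) Icc_subset_Ici_self).trans hs).trans h4
  filter_upwards [hL, hR, eventually_ge_atTop (S + 2)] with T h1 h2 hT
  filter_upwards [h1, h2, hn] with n h1 h2 hn
  refine nrm_le_of_exhaust 2 ((su n).sub (contDiff_lp_Pr (hz j)))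
    (ordConnected_mid _ _ _).measurableSet fun r => ?_
  obtain ⟨a, ha, ha', ha''⟩ := h1 r
  obtain ⟨b, hb, hb', hb''⟩ := h2 r
  have hsub : mid (σ n) j T ∩ Icc (-r) r ⊆ Icc a b := fun s hs =>
    ⟨ha s hs.1 hs.2.1, hb s hs.1 hs.2.2⟩
  refine (nrm_mono _ le_rfl hsub).trans ?_
  rcases le_or_gt a b with hab | hab
  · refine (hn a b hab fun s hs i => ⟨fun hi => ?_, fun hi => ?_⟩).trans ?_
    · linarith [ha' i hi, hs.1]
    · linarith [hb' i hi, hs.2]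
    · calc _ ≤ (c : ℝ≥0∞) * (4 * η + 4 * η) := by gcongr
        _ = c * 8 * η := by ring
        _ ≤ ε := hc
  · rw [Icc_eq_empty hab.not_ge]
    have := nrm_biUnion_le 2 (u n - lp (z j)) (∅ : Finset ℕ) fun _ => ∅
    simp only [Finset.notMem_empty, iUnion_of_empty, iUnion_empty, Finset.sum_empty] at this
    exact this.trans hε.le

theorem side_Cmp3 {u g : Pl → F} {x : ℝ → F} (hu : ContDiff ℝ ∞ u) (hg : ContDiff ℝ ∞ g)
    (hx : ContDiff ℝ ∞ x) {s : ℝ} {I K L : Set ℝ} {η : ℝ≥0∞} (h1 : nrm 2 (u - lp x) K ≤ η)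
    (h2 : nrm 2 (g - lp x) L ≤ η) (e1 : I ⊆ K) (e2 : ∀ t ∈ I, t + -s ∈ L) :
    nrm 2 (u - tsl (-s, 0) g) I ≤ 4 * η := by
  have e : u - tsl (-s, 0) g = (u - lp x) - tsl (-s, 0) (g - lp x) := by
    rw [tsl_sub_lp_Pr]; abel
  rw [e]
  refine (nrm_sub_le 2 (hu.sub (contDiff_lp_Pr hx))
    (contDiff_tsl (hg.sub (contDiff_lp_Pr hx)) _) _).trans ?_
  have h3 := (nrm_mono _ le_rfl e1).trans h1
  have h4 : nrm 2 (tsl (-s, 0) (g - lp x)) I ≤ η := by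
    rw [← nrm_tsl_Pr 2 (-s) L] at h2
    exact (nrm_mono _ le_rfl e2).trans h2
  calc _ ≤ 2 * η + 2 * η := add_le_add (mul_le_mul_right h3 2) (mul_le_mul_right h4 2)
    _ = 4 * η := by ring

theorem prw_Cmp3 {k : ℕ} {σ : ℕ → Fin k → ℝ} {u : ℕ → Pl → F} {z : Fin (k + 1) → ℝ → F}
    {g : Fin k → Pl → F} (hσ : Gap atTop σ) (hz : ∀ j, ContDiff ℝ ∞ (z j))
    (hu : ∀ n, Pth (z 0) (z (Fin.last k)) (u n)) (hg : ∀ j, Pth (z j.castSucc) (z j.succ) (g j))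
    (hl : ∀ j, LocC atTop (fun n => tsl (σ n j, 0) (u n)) (g j))
    (hn : ∀ j, ∃ (c : ℝ≥0) (S : ℝ), ∀ᶠ n in atTop, ∀ a b, a ≤ b →
      Icc (a - 2) (b + 2) ⊆ mid (σ n) j S → nrm 2 (u n - lp (z j)) (Icc a b) ≤
        c * (nrm 1 (u n - lp (z j)) (Icc (a - 1) a) + nrm 1 (u n - lp (z j)) (Icc b (b + 1)))) :
    PrW atTop σ u g := by
  intro ε hε
  obtain ⟨η, hη, hc⟩ := small_Cmp3 (c := 9) (by finiteness) hε
  have h1 : ∀ᶠ T in atTop, ∀ j, ∀ᶠ n in atTop, nrm 2 (u n - lp (z j)) (mid (σ n) j T) ≤ η :=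
    eventually_all.2 fun j => by
      obtain ⟨c, S, h⟩ := hn j
      exact mids_Cmp3 hσ hz hu hg hl j h hη
  have h2 : ∀ᶠ T in atTop, ∀ i, nrm 2 (g i - lp (z i.castSucc)) (Iic (-T)) ≤ η ∧
      nrm 2 (g i - lp (z i.succ)) (Ici T) ≤ η := eventually_all.2 fun i =>
    ((tail_Pth (hg i) (hz _) (hz _)).1.eventually_le_const hη).and
      ((tail_Pth (hg i) (hz _) (hz _)).2.eventually_le_const hη)
  obtain ⟨T, h1, h2⟩ := (h1.and h2).exists
  refine ⟨T, ?_⟩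
  filter_upwards [eventually_all.2 h1, mono_Cmp3 hσ,
    eventually_all.2 fun i => ((hl i).nrm 2 (-T) T).eventually_le_const hη] with n h1 hm h3 i
  have hsub : reg (σ n) i T ⊆ (reg (σ n) i T ∩ Iic (σ n i - T) ∪ Icc (σ n i + -T) (σ n i + T)) ∪
      reg (σ n) i T ∩ Ici (σ n i + T) := fun s hs => by
    rcases le_total s (σ n i - T) with h | h
    · exact Or.inl (Or.inl ⟨hs, h⟩)
    · rcases le_total s (σ n i + T) with h' | h'
      · exact Or.inl (Or.inr ⟨by linarith, h'⟩)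
      · exact Or.inr ⟨hs, h'⟩
  have hA : nrm 2 (u n - tsl (-σ n i, 0) (g i)) (reg (σ n) i T ∩ Iic (σ n i - T)) ≤ 4 * η := by
    refine side_Cmp3 (hu n).bdd.1 (hg i).bdd.1 (hz _) (h1 i.castSucc) (h2 i).1
      (fun s hs i' => ⟨fun hi => (hs.1 i').1 (Fin.castSucc_lt_castSucc_iff.1 hi), fun hi => ?_⟩)
      fun s hs => ?_
    · linarith [hm i i' (Fin.castSucc_le_castSucc_iff.1 hi), mem_Iic.1 hs.2]
    · have := mem_Iic.1 hs.2
      exact mem_Iic.2 (by linarith)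
  have hB : nrm 2 (u n - tsl (-σ n i, 0) (g i)) (reg (σ n) i T ∩ Ici (σ n i + T)) ≤ 4 * η := by
    refine side_Cmp3 (hu n).bdd.1 (hg i).bdd.1 (hz _) (h1 i.succ) (h2 i).2
      (fun s hs i' => ⟨fun hi => ?_, fun hi => (hs.1 i').2 (Fin.succ_le_castSucc_iff.1 hi)⟩)
      fun s hs => ?_
    · linarith [hm i' i (Fin.castSucc_lt_succ_iff.1 hi), mem_Ici.1 hs.2]
    · have := mem_Ici.1 hs.2
      exact mem_Ici.2 (by linarith)
  have hC : nrm 2 (u n - tsl (-σ n i, 0) (g i)) (Icc (σ n i + -T) (σ n i + T)) ≤ η := by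
    have e : tsl (σ n i, 0) (u n - tsl (-σ n i, 0) (g i)) = tsl (σ n i, 0) (u n) - g i := by
      funext p
      simp [tsl, add_assoc, Prod.mk_zero_zero]
    rw [shift_Cmp3, e]
    exact h3 i
  calc _ ≤ _ := nrm_mono _ le_rfl hsub
    _ ≤ _ := nrm_union_le _ _ _ _
    _ ≤ (4 * η + η) + 4 * η := add_le_add ((nrm_union_le _ _ _ _).trans (add_le_add hA hC)) hB
    _ = 9 * η := by ring
    _ ≤ ε := hc

theorem ends_Cmp3 {f : Pl → F} (hf : Bdd f) {c : ℝ≥0} {P : Set ℝ}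
    (h : ∀ a b, a ≤ b → Icc (a - 2) (b + 2) ⊆ P → nrm 2 f (Icc a b) ≤
      c * (nrm 1 f (Icc (a - 1) a) + nrm 1 f (Icc b (b + 1)))) (T : ℝ) :
    (Iic (-T) ⊆ P → nrm 2 f (Iic 0) < ⊤) ∧ (Ici T ⊆ P → nrm 2 f (Ici 0) < ⊤) := by
  obtain ⟨B, hB⟩ := (bdd_iff.1 hf).2 1
  obtain ⟨M, hM, hb⟩ : ∃ M < (⊤ : ℝ≥0∞), ∀ a b, Icc (a - 2) (b + 2) ⊆ P →
      nrm 2 f (Icc a b) ≤ M := by
    have h1 : ∀ a b, b - a = 1 → nrm 1 f (Icc a b) ≤ ENNReal.ofReal (3 ^ 1 * B ^ 2) := by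
      intro a b e
      have := (hB.mono le_rfl (subset_univ (Icc a b)) le_rfl).nrm_le measurableSet_Icc
      rwa [Real.volume_Icc, e, ENNReal.ofReal_one, mul_one] at this
    refine ⟨c * (ENNReal.ofReal (3 ^ 1 * B ^ 2) + ENNReal.ofReal (3 ^ 1 * B ^ 2)), by finiteness,
      fun a b e => ?_⟩
    rcases le_or_gt a b with hab | hab
    · refine (h a b hab e).trans ?_
      gcongr
      · exact h1 _ _ (by ring)
      · exact h1 _ _ (by ring)
    · rw [Icc_eq_empty hab.not_ge]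
      have := nrm_biUnion_le 2 f (∅ : Finset ℕ) fun _ => ∅
      simp only [Finset.notMem_empty, iUnion_of_empty, iUnion_empty, Finset.sum_empty] at this
      exact this.trans zero_le
  constructor
  · intro e
    have : nrm 2 f (Iic (-T - 2)) ≤ M := nrm_le_of_exhaust 2 hf.1 measurableSet_Iic fun r =>
      (nrm_mono _ le_rfl fun s hs => (⟨hs.2.1, hs.1⟩ : s ∈ Icc (-r) (-T - 2))).trans
        (hb _ _ fun s hs => e (mem_Iic.2 (by linarith [hs.2])))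
    refine fin_Pth (this.trans_lt hM) (nrm_Icc_lt_top 2 hf.1 (-T - 2) 0) fun r hr => ?_
    rcases le_total r (-T - 2) with h | h
    · exact Or.inl h
    · exact Or.inr ⟨h, hr⟩
  · intro e
    have : nrm 2 f (Ici (T + 2)) ≤ M := nrm_le_of_exhaust 2 hf.1 measurableSet_Ici fun r =>
      (nrm_mono _ le_rfl fun s hs => (⟨hs.1, hs.2.2⟩ : s ∈ Icc (T + 2) r)).trans
        (hb _ _ fun s hs => e (mem_Ici.2 (by linarith [hs.1])))
    refine fin_Pth (this.trans_lt hM) (nrm_Icc_lt_top 2 hf.1 0 (T + 2)) fun r hr => ?_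
    rcases le_total r (T + 2) with h | h
    · exact Or.inr ⟨hr, h⟩
    · exact Or.inl h

end aux

variable {V : Type} [NormedAddCommGroup V] [InnerProductSpace ℝ V] [Sym V]
variable {C : Type} [NormedAddCommGroup C] [NormedSpace ℝ C] [FiniteDimensional ℝ C]
  {J : ℝ → V → V →L[ℝ] V} {𝕏 : ℝ → C × V → V} {q : ℕ} {κ : Fin q → Pl → C} {a : Fin (q + 1) → C}
  {R A : ℝ} {x y : ℝ → V} {κ' : ℕ → Pl → C} {τ : ℕ → Fin q → ℝ} {u : ℕ → Pl → V}

theorem neck_Cmp3 (hJ : ACS Ω0 J) {Y : ℝ → V → V} (hY : SP Y) (hx : GOrb Ω0 1 Y x) (B : ℝ) :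
    ∀ᶠ δ in 𝓝[>] (0 : ℝ), ∃ c : ℝ≥0, ∀ (w : Pl → V) (P : Set ℝ), ContDiff ℝ ∞ w → Per w →
      Cn 2 w univ B → (∀ p : Pl, p.1 ∈ P → cr J (sta Y) w p = 0 ∧ ‖w p - x p.2‖ ≤ δ) →
        ∀ a b, a ≤ b → Icc (a - 2) (b + 2) ⊆ P → nrm 2 (w - lp x) (Icc a b) ≤
          c * (nrm 1 (w - lp x) (Icc (a - 1) a) + nrm 1 (w - lp x) (Icc b (b + 1))) := by
  obtain ⟨δ₁, h1, c, hc⟩ := neck hJ hY hx
  have sx := Orb.contDiff hY.1 hx.1
  obtain ⟨B', hB'⟩ := (bdd_iff.1 (bdd_lp sx (Orb.per hx.1)).1).2 2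
  obtain ⟨δ, hδ, hi⟩ := cn_interp (F := V) 1 (B + B') h1
  filter_upwards [Ioc_mem_nhdsGT hδ] with δ' hδ'
  refine ⟨c, fun w P hw pw hB h a b hab hP => hc w a b hab hw pw (fun p hp => (h p (hP ?_)).1) ?_⟩
  · exact ⟨by linarith [hp.1], by linarith [hp.2]⟩
  · refine hi _ _ (hw.sub (contDiff_lp_Pr sx)) (hB.sub hw (contDiff_lp_Pr sx) hB') fun p hp => ?_
    obtain ⟨s, hs, e⟩ := hp
    have := abs_le.1 e
    exact (h p (hP ⟨by linarith [hs.1], by linarith [hs.2]⟩)).2.trans hδ'.2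

omit [Sym V] [FiniteDimensional ℝ C] in
theorem sp_cfz_Cmp3 (h : SP 𝕏) (b : C) : SP (cfz 𝕏 b) :=
  ⟨h.1.comp (contDiff_fst.prodMk (contDiff_const.prodMk contDiff_snd)),
    fun t => funext fun z => congrFun (h.2 t) (b, z)⟩

omit [FiniteDimensional ℝ C] in
theorem ctl_Cmp3 (hd : CData J 𝕏 κ a R A) {k : ℕ} {m : Fin q ↪o Fin k}
    {lev : Fin (k + 1) → Fin (q + 1)} {κ'' : Fin k → Pl → C} (hs : CShape κ a m lev κ'')
    (j : Fin k) : Bdd (κ'' j) ∧ Per (κ'' j) ∧ ∀ p : Pl, (p.1 ≤ -R → κ'' j p = a (lev j.castSucc)) ∧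
      (R ≤ p.1 → κ'' j p = a (lev j.succ)) := by
  obtain ⟨-, -, h1, h2, -⟩ := lev_facts hs.lt
  by_cases hj : j ∈ range m
  · obtain ⟨i, rfl⟩ := hj
    rw [hs.mark, (h1 i).1, (h1 i).2]
    exact ⟨(hd.bdd i).1, (hd.bdd i).2, hd.ends i⟩
  · rw [hs.free j hj, h2 j hj]
    exact ⟨bdd_const _, fun _ _ => rfl, fun p => ⟨fun _ => rfl, fun _ => rfl⟩⟩

theorem CSeq.compact (hd : CData J 𝕏 κ a R A) (h : CSeq J 𝕏 κ a A x y κ' τ u) :
    ∃ (φ : ℕ → ℕ) (k : ℕ) (σ : ℕ → Fin k → ℝ) (m : Fin q ↪o Fin k)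
      (lev : Fin (k + 1) → Fin (q + 1)) (κ'' : Fin k → Pl → C) (z : Fin (k + 1) → ℝ → V)
      (g : Fin k → Pl → V), StrictMono φ ∧ CShape κ a m lev κ'' ∧ (∀ n i, σ n (m i) = τ (φ n) i) ∧
        (∀ j, Orb 1 (cfz 𝕏 (a (lev j))) (z j)) ∧ (∀ j, j ∉ range m → ds (g j) ≠ 0) ∧
          Brk J (fun n => ctl 𝕏 (κ' (φ n))) (fun n => u (φ n)) x y A σ
            (fun j => ctl 𝕏 (κ'' j)) z g := by
  obtain ⟨B, hB⟩ := h.unif hd 2
  have sp := fun i => sp_cfz_Cmp3 hd.sp (a i)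
  have key : ∀ᶠ δ in 𝓝[>] (0 : ℝ), ∀ i, ∀ x' ∈ {x | Orb 1 (cfz 𝕏 (a i)) x ∧ InB A x}, _ :=
    eventually_all.2 fun i => (((hd.nd i).finite (sp i)).eventually_all).2 fun x' hx' =>
      (neck_Cmp3 hd.acs (sp i) (hd.nd i x' hx'.1 hx'.2) B).and
        (q := fun δ => ∃ S, ∀ᶠ n in atTop, ∀ (p : Pl) z, p.1 ∈ mid (τ n) i S →
          ‖z - x' p.2‖ ≤ δ → 𝕏 p.2 (κ' n p, z) = 𝕏 p.2 (a i, z)) (by
        obtain ⟨δ, hδ, S, hS⟩ := h.agree i x' hx'.1 hx'.2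
        filter_upwards [Ioc_mem_nhdsGT hδ] with δ' hδ'
        exact ⟨S, hS.mono fun n hn p z hp e => hn p z hp (e.trans hδ'.2)⟩)
  obtain ⟨δ, key, hδ⟩ := (key.and self_mem_nhdsWithin).exists
  obtain ⟨φ, k, σ, m, lev, κ'', z, g, S, hφ, hs, hσ, hm, hz, z0, zl, hg, hf, hκ, hc⟩ :=
    h.select hd hδ
  have sz : ∀ j, ContDiff ℝ ∞ (z j) := fun j => Orb.contDiff (sp _).1 (hz j).1
  have hk := ctl_Cmp3 hd hs
  have su : ∀ n, ContDiff ℝ ∞ (u n) := fun n => (h.nice n).bdd.1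
  have gB : ∀ j, Cn 2 (g j) univ B := fun j => (hg j).2.2.2.2.cn
    (fun n => contDiff_tsl (su _) _) (hg j).1.1 fun s _ => Eventually.of_forall fun n =>
      ((cn_tsl (σ n j, 0)).2 (hB (φ n)).2).mono le_rfl (subset_univ _) le_rfl
  have lim : ∀ (j : Fin k) (j' : Fin (k + 1)) (p : Pl),
      (∀ᶠ n in atTop, p.1 + σ n j ∈ mid (σ n) j' S) → ‖g j p - z j' p.2‖ ≤ δ := fun j j' p e => by
    refine le_of_tendsto (((hg j).2.2.2.2.tendsto p).sub_const (z j' p.2)).norm ?_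
    filter_upwards [e, hc] with n e hc
    have := hc j' (p + (σ n j, 0)) e
    rwa [Prod.snd_add, add_zero] at this
  have fin : ∀ (j : Fin k) (j' : Fin (k + 1)) (P : Set ℝ), (∀ p : Pl, p.1 ∈ P →
      κ'' j p = a (lev j') ∧ ∀ᶠ n in atTop, p.1 + σ n j ∈ mid (σ n) j' S) → ∀ T,
        (Iic (-T) ⊆ P → nrm 2 (g j - lp (z j')) (Iic 0) < ⊤) ∧
          (Ici T ⊆ P → nrm 2 (g j - lp (z j')) (Ici 0) < ⊤) := fun j j' P e T => by
    obtain ⟨c, hn⟩ := (key _ _ (hz j')).1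
    refine ends_Cmp3 ((hg j).1.sub (bdd_lp (sz j') (Orb.per (hz j').1)).1)
      (hn (g j) P (hg j).1.1 (hg j).2.1 (gB j) fun p hp => ⟨?_, lim j j' p (e p hp).2⟩) T
    have := (hg j).2.2.2.1 p
    simp only [cr, ctl, (e p hp).1] at this
    exact this
  have gP : ∀ j, Pth (z j.castSucc) (z j.succ) (g j) := fun j => by
    refine ⟨(hg j).1, (hg j).2.1,
      (fin j j.castSucc (Iic (-max S R)) (fun p hp => ⟨((hk j).2.2 p).1 ?_, ?_⟩) _).1 subset_rfl,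
      (fin j j.succ (Ici (max S R)) (fun p hp => ⟨((hk j).2.2 p).2 ?_, ?_⟩) _).2 subset_rfl⟩
    · linarith [mem_Iic.1 hp, le_max_right S R]
    · filter_upwards [mono_Cmp3 hσ, gap_ev_Pr hσ (S - p.1)] with n h1 h2 i
      refine ⟨fun hi => ?_, fun hi => ?_⟩
      · linarith [h2 i j (Fin.castSucc_lt_castSucc_iff.1 hi)]
      · linarith [h1 j i (Fin.castSucc_le_castSucc_iff.1 hi), mem_Iic.1 hp, le_max_left S R]
    · linarith [mem_Ici.1 hp, le_max_right S R]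
    · filter_upwards [mono_Cmp3 hσ, gap_ev_Pr hσ (S + p.1)] with n h1 h2 i
      refine ⟨fun hi => ?_, fun hi => ?_⟩
      · linarith [h1 i j (Fin.castSucc_lt_succ_iff.1 hi), mem_Ici.1 hp, le_max_left S R]
      · linarith [h2 j i (Fin.succ_le_castSucc_iff.1 hi)]
  have prw : PrW atTop σ (fun n => u (φ n)) g := by
    refine prw_Cmp3 hσ sz (fun n => z0 ▸ zl ▸ (h.nice (φ n)).pth) gP (fun j => (hg j).2.2.2.2)
      fun j => ?_
    obtain ⟨⟨c, hn⟩, S', ha⟩ := key _ _ (hz j)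
    refine ⟨c, max S S', ?_⟩
    filter_upwards [hc, hφ.tendsto_atTop.eventually ha] with n hc ha
    refine hn _ _ (su _) (h.nice _).per (hB _).2 fun p hp => ?_
    have e := hc j p (mid_mono _ _ (le_max_left _ _) hp)
    have e' := mid_subset hs.lt _ _ _ (mid_mono _ _ (le_max_right _ _) hp)
    rw [funext (hm n)] at e'
    have := (h.nice (φ n)).eq p
    simp only [cr, ctl, ha p _ e' e] at this
    exact ⟨this, e⟩
  have prc : ∀ i, PrC i atTop σ (fun n => u (φ n)) g := fun i => by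
    obtain ⟨B', hB'⟩ := h.unif hd (i + 1)
    exact prC_of_prW prw hσ (fun n => ⟨su _, (h.nice _).per⟩) (fun j => ⟨(hg j).1, (hg j).2.1⟩)
      (Eventually.of_forall fun n => (hB' _).2)
  have co := prC_coef hd.acs.1 hd.sp (fun n => (h.bdd (φ n)).1.1) (fun j => (hk j).1)
    (fun n => su (φ n)) (fun j => (hg j).1) (hκ 1) (prc 2)
  refine ⟨φ, k, σ, m, lev, κ'', z, g, hφ, hs, hm, fun j => (hz j).1, hf, (m ⟨0, hd.pos⟩).pos, hσ, z0,
    zl, fun j => (hz j).2, fun j => ⟨sz j, Orb.per (hz j).1⟩, fun n => (h.nice _).pth,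
    fun j => (gP j).nice (hg j).2.2.2.1, fun j => (hg j).2.2.1, prw, prc,
    fun n => coef_ctl hd.acs hd.sp (h.bdd _).1 (h.bdd _).2 (h.nice _).bdd (h.nice _).per,
    fun j => ?_, co.1, co.2⟩
  obtain ⟨f1, f2, f3⟩ := fld_ctl hd.sp (hk j).1.1 (hk j).2.1 hd.nonneg (hk j).2.2
  exact ell_fld hd.acs f1 (f2 ▸ hd.nd _ _ (hz _).1 (hz _).2) (f3 ▸ hd.nd _ _ (hz _).1 (hz _).2) (gP j)

end

end Pool.Agent.P.MP_de3acd_gt.FH
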