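import Pool.Agent.P.MP_de3acd_gt.FH.TrCont
import Pool.Agent.P.MP_de3acd_gt.FH.Inj
import Pool.Agent.P.MP_de3acd_gt.FH.Sob

/-! Difference quotients.
bdd_fn: fn ξ p = ev 0 (trW 2 p ξ) (fn_trW), bdd_trW, Bdd.clm.
Sketch: closed ball lemma: if ζ n ∈ W (k+1), ‖ζ n‖ ≤ M and inc ζ n → ξ, then ξ = inc ζ with ‖ζ‖ ≤ M: the functional
η ↦ ⟪ξ, η⟫ is bounded by M ‖adjoint inc η‖, so it factors through the range of adjoint inc (extend it to the closure,
Riesz: InnerProductSpace.toDual), or use a weakly convergent subsequence / Banach-Alaoglu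
(WeakDual.isCompact_closedBall), or Mazur type argument: the sets of convex combinations of tails are nested closed
convex bounded sets, take minimal norm elements. Steklov average: for h > 0, A h ξ = h⁻¹ h⁻¹ ∫ over [0,h]^2 of
trW k a ξ (Bochner integral, continuous_trW). For ξ = inc η, ∫ of trW (k+1) a η is an element ζ of W (k+1) with
inc ζ = ∫ trW k a ξ, dS ζ = ∫_0^h (trW (h,b) ξ - trW (0,b) ξ) db (hasFDerivAt_trW and FTC), the same for dT; so
‖ζ‖ ≤ C h ‖ξ‖ by norm_sq_succ, and η ↦ ζ extends to all ξ ∈ W k (exists_ext or closed ball lemma) with the same three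
identities. Then ‖A h ξ‖ ≤ ‖ξ‖ + 2 M in W (k+1) and inc (A h ξ) → ξ. -/

open Set Filter Topology MeasureTheory
open scoped ContDiff NNReal ENNReal RealInnerProductSpace

namespace Pool.Agent.P.MP_de3acd_gt.FH

noncomputable section

variable {U U₁ U₂ : Type} [NormedAddCommGroup U] [InnerProductSpace ℝ U] [NormedAddCommGroup U₁]
  [InnerProductSpace ℝ U₁] [NormedAddCommGroup U₂] [InnerProductSpace ℝ U₂]

theorem closedBall_image_DQ {X Y : Type} [NormedAddCommGroup X] [InnerProductSpace ℝ X]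
    [CompleteSpace X] [NormedAddCommGroup Y] [InnerProductSpace ℝ Y] [CompleteSpace Y]
    (T : X →L[ℝ] Y) {ξ : Y} {M : ℝ} (h : ξ ∈ closure (T '' Metric.closedBall (0 : X) M)) :
    ∃ ζ : X, T ζ = ξ ∧ ‖ζ‖ ≤ M := by
  have hM : 0 ≤ M := by
    obtain ⟨_, x, hx, -⟩ := closure_nonempty_iff.1 ⟨ξ, h⟩
    exact (norm_nonneg x).trans (mem_closedBall_zero_iff.1 hx)
  set A : Y →L[ℝ] X := ContinuousLinearMap.adjoint T with hA
  have hb : ∀ η : Y, |⟪ξ, η⟫| ≤ M * ‖A η‖ := fun η => by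
    have hc : IsClosed {ξ : Y | |⟪ξ, η⟫| ≤ M * ‖A η‖} := isClosed_le (by fun_prop) (by fun_prop)
    refine closure_minimal ?_ hc h
    rintro _ ⟨x, hx, rfl⟩
    change |⟪T x, η⟫| ≤ M * ‖A η‖
    rw [← ContinuousLinearMap.adjoint_inner_right]
    exact (abs_real_inner_le_norm _ _).trans
      (mul_le_mul_of_nonneg_right (mem_closedBall_zero_iff.1 hx) (norm_nonneg _))
  have hk : LinearMap.ker (A : Y →ₗ[ℝ] X) ≤ LinearMap.ker (innerSL ℝ ξ : Y →ₗ[ℝ] ℝ) := by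
    intro η hη
    have h0 : A η = 0 := hη
    have := hb η
    rw [h0, norm_zero, mul_zero] at this
    exact abs_nonpos_iff.1 this
  let f0 : LinearMap.range (A : Y →ₗ[ℝ] X) →ₗ[ℝ] ℝ :=
    ((LinearMap.ker (A : Y →ₗ[ℝ] X)).liftQ (innerSL ℝ ξ : Y →ₗ[ℝ] ℝ) hk).comp
      (LinearMap.quotKerEquivRange (A : Y →ₗ[ℝ] X)).symm.toLinearMap
  have hf0 : ∀ (η : Y) (hη : (A : Y →ₗ[ℝ] X) η ∈ LinearMap.range (A : Y →ₗ[ℝ] X)),
      f0 ⟨_, hη⟩ = ⟪ξ, η⟫ := fun η hη => by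
    change ((LinearMap.ker (A : Y →ₗ[ℝ] X)).liftQ (innerSL ℝ ξ : Y →ₗ[ℝ] ℝ) hk)
      ((LinearMap.quotKerEquivRange (A : Y →ₗ[ℝ] X)).symm ⟨_, hη⟩) = _
    rw [LinearMap.quotKerEquivRange_symm_apply_image]
    rfl
  have hf1 : ∀ x : LinearMap.range (A : Y →ₗ[ℝ] X), ‖f0 x‖ ≤ M * ‖x‖ := by
    rintro ⟨_, η, rfl⟩
    rw [hf0]
    exact hb η
  obtain ⟨g, hg, hn⟩ := exists_extension_norm_eq (LinearMap.range (A : Y →ₗ[ℝ] X))
    (f0.mkContinuous M hf1)
  refine ⟨(InnerProductSpace.toDual ℝ X).symm g, ?_, ?_⟩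
  · refine ext_inner_right ℝ fun η => ?_
    rw [← ContinuousLinearMap.adjoint_inner_right, InnerProductSpace.toDual_symm_apply,
      ← hf0 η ⟨η, rfl⟩]
    exact hg ⟨_, η, rfl⟩
  · rw [LinearIsometryEquiv.norm_map, hn]
    exact LinearMap.mkContinuous_norm_le _ hM _

theorem inc_closedBall {k : ℕ} {ξ : W k U} {M : ℝ}
    (h : ξ ∈ closure (inc k '' Metric.closedBall (0 : W (k + 1) U) M)) :
    ∃ ζ : W (k + 1) U, inc k ζ = ξ ∧ ‖ζ‖ ≤ M := closedBall_image_DQ _ h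

/-- The integral of the translates along a segment. -/
def av_DQ (k : ℕ) (v : Pl) (h : ℝ) (ξ : W k U) : W k U := ∫ r in (0 : ℝ)..h, trW k (r • v) ξ

theorem ii_DQ (k : ℕ) (v : Pl) (h : ℝ) (ξ : W k U) :
    IntervalIntegrable (fun r : ℝ => trW k (r • v) ξ) volume 0 h :=
  ((continuous_trW k ξ).comp (continuous_id.smul continuous_const)).intervalIntegrable _ _

theorem map_av_DQ {k l : ℕ} (T : W k U →L[ℝ] W l U)
    (hT : ∀ a ξ, T (trW k a ξ) = trW l a (T ξ)) (v : Pl) (h : ℝ) (ξ : W k U) :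
    T (av_DQ k v h ξ) = av_DQ l v h (T ξ) := by
  rw [av_DQ, ← T.intervalIntegral_comp_comm (ii_DQ k v h ξ), av_DQ]
  simp only [hT]

theorem av_sub_DQ (k : ℕ) (v : Pl) (h : ℝ) (ξ η : W k U) :
    av_DQ k v h (ξ - η) = av_DQ k v h ξ - av_DQ k v h η := by
  simp only [av_DQ, map_sub]
  exact intervalIntegral.integral_sub (ii_DQ k v h ξ) (ii_DQ k v h η)

theorem norm_av_DQ (k : ℕ) (v : Pl) {h : ℝ} (hh : 0 ≤ h) (ξ : W k U) :
    ‖av_DQ k v h ξ‖ ≤ h * ‖ξ‖ := by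
  have := intervalIntegral.norm_integral_le_of_norm_le_const (a := 0) (b := h) (C := ‖ξ‖)
    (f := fun r : ℝ => trW k (r • v) ξ) fun r _ => (norm_trW k _ ξ).le
  rwa [sub_zero, abs_of_nonneg hh, mul_comm] at this

theorem norm_av_sub_DQ (k : ℕ) (v : Pl) {h C : ℝ} (hh : 0 ≤ h) (ξ : W k U)
    (hC : ∀ r : ℝ, 0 < r → r ≤ h → ‖trW k (r • v) ξ - ξ‖ ≤ C) :
    ‖av_DQ k v h ξ - h • ξ‖ ≤ h * C := by
  have e : av_DQ k v h ξ - h • ξ = ∫ r in (0 : ℝ)..h, (trW k (r • v) ξ - ξ) := by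
    rw [intervalIntegral.integral_sub (ii_DQ k v h ξ) intervalIntegrable_const,
      intervalIntegral.integral_const, sub_zero, av_DQ]
  have := intervalIntegral.norm_integral_le_of_norm_le_const (a := 0) (b := h) (C := C)
    (f := fun r : ℝ => trW k (r • v) ξ - ξ) fun r hr => by
      rw [uIoc_of_le hh] at hr
      exact hC r hr.1 hr.2
  rwa [sub_zero, abs_of_nonneg hh, mul_comm, ← e] at this

theorem av_deriv_DQ (k : ℕ) (v : Pl) (h : ℝ) (η : W (k + 1) U) :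
    av_DQ k v h (v.1 • dS k η + v.2 • dT k η) = trW k (h • v) (inc k η) - inc k η := by
  have hd : ∀ r ∈ uIcc (0 : ℝ) h, HasDerivAt (fun r : ℝ => trW k (r • v) (inc k η))
      (trW k (r • v) (v.1 • dS k η + v.2 • dT k η)) r := fun r _ => by
    have h1 : HasDerivAt (fun r : ℝ => r • v) v r := by
      simpa using (hasDerivAt_id r).smul_const v
    have h2 := (hasFDerivAt_trW k η (r • v)).comp_hasDerivAt r h1
    rw [map_add, map_smul, map_smul]
    exact h2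
  have := intervalIntegral.integral_eq_sub_of_hasDerivAt hd (ii_DQ k v h _)
  rw [zero_smul, trW_zero] at this
  exact this

theorem av_dS_DQ (k : ℕ) (h : ℝ) (η : W (k + 1) U) :
    av_DQ k (1, 0) h (dS k η) = trW k (h, 0) (inc k η) - inc k η := by
  simpa using av_deriv_DQ k (1, 0) h η

theorem av_dT_DQ (k : ℕ) (h : ℝ) (η : W (k + 1) U) :
    av_DQ k (0, 1) h (dT k η) = trW k (0, h) (inc k η) - inc k η := by
  simpa using av_deriv_DQ k (0, 1) h η

theorem trW_comm_DQ (k : ℕ) (a b : Pl) (ξ : W k U) :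
    trW k a (trW k b ξ) = trW k b (trW k a ξ) := by
  rw [← trW_add, add_comm, trW_add]

theorem norm_le_succ_DQ (k : ℕ) (ζ : W (k + 1) U) :
    ‖ζ‖ ≤ ‖inc k ζ‖ + ‖dS k ζ‖ + ‖dT k ζ‖ := by
  have h1 := norm_sq_succ k ζ
  have h2 : ‖to0 (k + 1) ζ‖ ≤ ‖inc k ζ‖ := norm_to0_le k _
  have h3 := norm_nonneg (to0 (k + 1) ζ)
  have h4 := norm_nonneg (dS k ζ)
  have h5 := norm_nonneg (dT k ζ)
  refine le_trans ?_ (add_le_add_left (add_le_add_left h2 _) _)
  refine (pow_le_pow_iff_left₀ (norm_nonneg _) (by positivity) two_ne_zero).1 ?_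
  rw [h1]
  nlinarith [mul_nonneg h3 h4, mul_nonneg h3 h5, mul_nonneg h4 h5]

theorem norm_trW_sub_DQ (k : ℕ) (a : Pl) (ξ ξ' : W k U) :
    ‖trW k a ξ' - ξ'‖ ≤ ‖trW k a ξ - ξ‖ + 2 * ‖ξ' - ξ‖ := by
  have e : trW k a ξ' - ξ' = (trW k a ξ - ξ) + (trW k a (ξ' - ξ) - (ξ' - ξ)) := by
    rw [map_sub]
    abel
  rw [e]
  refine (norm_add_le _ _).trans (add_le_add_right ((norm_sub_le _ _).trans ?_) _)
  rw [norm_trW, two_mul]

theorem exists_inc_of_dq {k : ℕ} {ξ : W k U} {M : ℝ}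
    (h : ∀ r : ℝ, 0 < r → r ≤ 1 → ‖trW k (r, 0) ξ - ξ‖ ≤ M * r ∧ ‖trW k (0, r) ξ - ξ‖ ≤ M * r) :
    ∃ ζ : W (k + 1) U, inc k ζ = ξ := by
  have hM : 0 ≤ M := by simpa using (norm_nonneg _).trans (h 1 one_pos le_rfl).1
  have key : ∀ r : ℝ, 0 < r → r ≤ 1 → ∃ ζ : W (k + 1) U, ‖ζ‖ ≤ ‖ξ‖ + 2 * M + 5 ∧
      ‖inc k ζ - ξ‖ ≤ (2 * M + 5) * r := by
    intro r hr hr1
    obtain ⟨η, hη⟩ := Metric.denseRange_iff.1 (denseRange_inc (U := U) k) ξ r hr
    rw [dist_comm, dist_eq_norm] at hη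
    set x := inc k η with hx
    have hxn : ‖x‖ ≤ ‖ξ‖ + 1 := by
      have := norm_add_le ξ (x - ξ)
      rw [add_sub_cancel] at this
      linarith
    have hS : ∀ s : ℝ, 0 < s → s ≤ r → ‖trW k (s, 0) x - x‖ ≤ (M + 2) * r := fun s hs hsr => by
      have h1 := norm_trW_sub_DQ k (s, 0) ξ x
      have h2 := (h s hs (hsr.trans hr1)).1
      nlinarith [mul_le_mul_of_nonneg_left hsr hM]
    have hT : ∀ s : ℝ, 0 < s → s ≤ r → ‖trW k (0, s) x - x‖ ≤ (M + 2) * r := fun s hs hsr => by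
      have h1 := norm_trW_sub_DQ k (0, s) ξ x
      have h2 := (h s hs (hsr.trans hr1)).2
      nlinarith [mul_le_mul_of_nonneg_left hsr hM]
    set z := av_DQ (k + 1) (1, 0) r (av_DQ (k + 1) (0, 1) r η) with hz
    have e1 : inc k z = av_DQ k (1, 0) r (av_DQ k (0, 1) r x) := by
      rw [hz, map_av_DQ _ (inc_trW k), map_av_DQ _ (inc_trW k)]
    have e2 : dS k z = av_DQ k (0, 1) r (trW k (r, 0) x - x) := by
      rw [hz, map_av_DQ _ (dS_trW k), av_dS_DQ, map_av_DQ _ (inc_trW k),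
        map_av_DQ _ (trW_comm_DQ k (r, 0)), av_sub_DQ]
    have e3 : dT k z = av_DQ k (1, 0) r (trW k (0, r) x - x) := by
      rw [hz, map_av_DQ _ (dT_trW k), map_av_DQ _ (dT_trW k), av_dT_DQ]
    have n1 : ‖inc k z‖ ≤ r * (r * (‖ξ‖ + 1)) := by
      rw [e1]
      refine (norm_av_DQ k _ hr.le _).trans (mul_le_mul_of_nonneg_left ?_ hr.le)
      exact (norm_av_DQ k _ hr.le _).trans (mul_le_mul_of_nonneg_left hxn hr.le)
    have n2 : ‖dS k z‖ ≤ r * ((M + 2) * r) := by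
      rw [e2]
      exact (norm_av_DQ k _ hr.le _).trans (mul_le_mul_of_nonneg_left (hS r hr le_rfl) hr.le)
    have n3 : ‖dT k z‖ ≤ r * ((M + 2) * r) := by
      rw [e3]
      exact (norm_av_DQ k _ hr.le _).trans (mul_le_mul_of_nonneg_left (hT r hr le_rfl) hr.le)
    have n4 : ‖inc k z - (r * r) • x‖ ≤ r * (r * ((M + 2) * r)) + r * (r * ((M + 2) * r)) := by
      have e : inc k z - (r * r) • x = av_DQ k (1, 0) r (av_DQ k (0, 1) r x - r • x) +
          r • (av_DQ k (1, 0) r x - r • x) := by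
        have e4 : av_DQ k (1, 0) r (r • x) = r • av_DQ k (1, 0) r x :=
          (map_av_DQ (r • ContinuousLinearMap.id ℝ (W k U)) (fun a ξ => by simp) (1, 0) r x).symm
        rw [e1, av_sub_DQ, e4, smul_sub, mul_smul]
        abel
      rw [e]
      refine (norm_add_le _ _).trans (add_le_add ?_ ?_)
      · refine (norm_av_DQ k _ hr.le _).trans (mul_le_mul_of_nonneg_left ?_ hr.le)
        exact norm_av_sub_DQ k _ hr.le x fun s hs hsr => by simpa using hT s hs hsr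
      · rw [norm_smul, Real.norm_of_nonneg hr.le]
        refine mul_le_mul_of_nonneg_left ?_ hr.le
        exact norm_av_sub_DQ k _ hr.le x fun s hs hsr => by simpa using hS s hs hsr
    have hrr : 0 < r * r := mul_pos hr hr
    refine ⟨(r * r)⁻¹ • z, ?_, ?_⟩
    · rw [norm_smul, Real.norm_of_nonneg (inv_pos.2 hrr).le, inv_mul_le_iff₀ hrr]
      have := norm_le_succ_DQ k z
      nlinarith
    · have e : inc k ((r * r)⁻¹ • z) - ξ = (r * r)⁻¹ • (inc k z - (r * r) • x) + (x - ξ) := by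
        rw [map_smul, smul_sub, smul_smul, inv_mul_cancel₀ hrr.ne', one_smul]
        abel
      have n5 : ‖(r * r)⁻¹ • (inc k z - (r * r) • x)‖ ≤ (2 * M + 4) * r := by
        rw [norm_smul, Real.norm_of_nonneg (inv_pos.2 hrr).le, inv_mul_le_iff₀ hrr]
        nlinarith
      rw [e]
      refine (norm_add_le _ _).trans ?_
      linarith
  have hc : ξ ∈ closure (inc k '' Metric.closedBall (0 : W (k + 1) U) (‖ξ‖ + 2 * M + 5)) := by
    refine Metric.mem_closure_iff.2 fun ε hε => ?_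
    have h5 : 0 < 2 * M + 6 := by linarith
    obtain ⟨ζ, h1, h2⟩ := key (min 1 (ε / (2 * M + 6))) (lt_min one_pos (div_pos hε h5))
      (min_le_left _ _)
    refine ⟨inc k ζ, ⟨ζ, mem_closedBall_zero_iff.2 h1, rfl⟩, ?_⟩
    rw [dist_comm, dist_eq_norm]
    refine h2.trans_lt ?_
    have h3 : (2 * M + 5) * min 1 (ε / (2 * M + 6)) ≤ (2 * M + 5) * (ε / (2 * M + 6)) :=
      mul_le_mul_of_nonneg_left (min_le_right _ _) (by linarith)
    refine h3.trans_lt ?_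
    rw [← mul_div_assoc, div_lt_iff₀ h5]
    nlinarith
  obtain ⟨ζ, hζ, -⟩ := inc_closedBall hc
  exact ⟨ζ, hζ⟩

/-- Smoothness of the orbit under translations gives a smooth function. -/
theorem bdd_fn [CompleteSpace U] {ξ : W 2 U}
    (h : ∀ n : ℕ, ContDiffAt ℝ n (fun a => trW 2 a ξ) 0) : Bdd (fn ξ) := by
  have e : fn ξ = fun p => ev 0 (trW 2 p ξ) := funext fun p => by
    have := congrFun (fn_trW p ξ) 0
    rw [tsl, zero_add] at this
    exact this.symm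
  rw [e]
  exact (bdd_trW 2 h).clm (ev 0)

end

end Pool.Agent.P.MP_de3acd_gt.FH
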