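import Pool.Agent.P.MP_de3acd_gt.FH.Ops

/-! Further definitions: forms, local ellipticity, ends, paths, controls, bounded smooth maps. -/

open Set Filter Topology MeasureTheory
open scoped ContDiff NNReal ENNReal RealInnerProductSpace

namespace Pool.Agent.P.MP_de3acd_gt.FH

noncomputable section

section

variable {F : Type} [NormedAddCommGroup F] [NormedSpace ℝ F]
  {C : Type} [NormedAddCommGroup C] [NormedSpace ℝ C]

/-- Continuous alternating bilinear forms. -/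
def Form (Ω : F → F → ℝ) : Prop :=
  ∃ B : F →L[ℝ] F →L[ℝ] ℝ, (∀ u v, Ω u v = B u v) ∧ ∀ u, Ω u u = 0

/-- The elliptic estimate for `∂_s + j ∂_t` on functions supported in `D`. -/
def PlEll (j : Pl → F →L[ℝ] F) (D : Set Pl) (c : ℝ≥0) : Prop :=
  ∀ φ : Pl → F, ContDiff ℝ ∞ φ → HasCompactSupport φ → tsupport φ ⊆ D →
    ∫⁻ p, ‖ds φ p‖ₑ ^ 2 + ‖dt φ p‖ₑ ^ 2 ≤ c * ∫⁻ p, ‖ds φ p + j p (dt φ p)‖ₑ ^ 2

/-- Infinitesimally symplectic and nondegenerate. -/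
def SNd (Ω : F → F → ℝ) (γ : Equiv.Perm F) (B : ℝ → F →L[ℝ] F) : Prop :=
  (∀ t u v, Ω (B t u) v + Ω u (B t v) = 0) ∧ Nd γ B

/-- Nondegenerate limits on both ends. -/
def Ends (Ω : F → F → ℝ) (j S : Pl → F →L[ℝ] F) : Prop :=
  ∀ e : Filter ℝ, e = atBot ∨ e = atTop → ∃ j' B : ℝ → F →L[ℝ] F,
    (∀ t, Tendsto (fun s => (j (s, t), S (s, t))) e (𝓝 (j' t, -(j' t).comp (B t)))) ∧ SNd Ω 1 B

/-- Families of test functions. -/
def TF {ι : Type} (K : ι → Pl → F) : Prop := ∀ i, K i ∈ Dsub F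

/-- Maps with bounded derivatives that are `W²`-close to `x`, `y` on the ends. -/
structure Pth (x y : ℝ → F) (u : Pl → F) : Prop where
  bdd : Bdd u
  per : Per u
  left : nrm 2 (u - lp x) (Iic 0) < ⊤
  right : nrm 2 (u - lp y) (Ici 0) < ⊤

theorem Nice.pth {J : ℝ → F → F →L[ℝ] F} {X : Pl → F → F} {x y : ℝ → F} {u : Pl → F}
    (h : Nice J X x y u) : Pth x y u := ⟨h.bdd, h.per, h.left, h.right⟩

theorem Pth.nice {J : ℝ → F → F →L[ℝ] F} {X : Pl → F → F} {x y : ℝ → F} {u : Pl → F}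
    (h : Pth x y u) (e : ∀ p, cr J X u p = 0) : Nice J X x y u := ⟨h.bdd, h.per, e, h.left, h.right⟩

/-- The field given by a control `κ`. -/
def ctl (𝕏 : ℝ → C × F → F) (κ : Pl → C) : Pl → F → F := fun p z => 𝕏 p.2 (κ p, z)

/-- Smooth periodic families of fields. -/
def SmX {Λ : Type} [NormedAddCommGroup Λ] [NormedSpace ℝ Λ] (X : Λ → Pl → F → F) : Prop :=
  (ContDiff ℝ ∞ fun q : Λ × Pl × F => X q.1 q.2.1 q.2.2) ∧ ∀ a, Per (X a)

theorem Fam.smX {Λ : Type} [NormedAddCommGroup Λ] [NormedSpace ℝ Λ] {X : Λ → Pl → F → F} {R : ℝ}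
    (h : Fam X R) : SmX X := ⟨h.smooth, h.per⟩

/-- The derivative of a family of fields in the parameter. -/
def dX {Λ : Type} [NormedAddCommGroup Λ] [NormedSpace ℝ Λ] (X : Λ → Pl → F → F) (a v : Λ) :
    Pl → F → F := fun p z => fderiv ℝ (fun a => X a p z) a v

/-- `C^n` with derivatives bounded on bounded sets. -/
def BSn (n : ℕ) (f : C → F) : Prop :=
  ContDiff ℝ n f ∧ ∀ k ≤ n, ∀ R : ℝ, ∃ A, ∀ x, ‖x‖ ≤ R → ‖iteratedFDeriv ℝ k f x‖ ≤ A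

/-- Smooth with derivatives bounded on bounded sets. -/
def BS (f : C → F) : Prop := ∀ n, BSn n f

/-- Products of bounded functions. -/
def cbil {F₁ F₂ : Type} [NormedAddCommGroup F₁] [NormedSpace ℝ F₁] [NormedAddCommGroup F₂]
    [NormedSpace ℝ F₂] (B : F →L[ℝ] F₁ →L[ℝ] F₂) : Cb F →L[ℝ] Cb F₁ →L[ℝ] Cb F₂ :=
  Classical.epsilon fun T => ∀ (c : Cb F) (d : Cb F₁) (p : Pl),
    Cb.fn (T c d) p = B (Cb.fn c p) (Cb.fn d p)

end

section

variable {V : Type} [NormedAddCommGroup V] [InnerProductSpace ℝ V] [Sym V]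
  {C : Type} [NormedAddCommGroup C] [NormedSpace ℝ C]

/-- The change of the Floer operator at a base with data `c = (κ, w, ∂_t w)`. -/
def ffn (𝕁 : ℝ → C × V → V →L[ℝ] V) (𝕏 : ℝ → C × V → V) (c : Pl → C × V × V) (φ : Pl → V)
    (p : Pl) : V :=
  ds φ p + 𝕁 p.2 ((c p).1, (c p).2.1 + φ p)
    ((c p).2.2 + dt φ p - 𝕏 p.2 ((c p).1, (c p).2.1 + φ p)) -
      𝕁 p.2 ((c p).1, (c p).2.1) ((c p).2.2 - 𝕏 p.2 ((c p).1, (c p).2.1))

/-- The universal Floer map. -/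
def IsFF (𝕁 : ℝ → C × V → V →L[ℝ] V) (𝕏 : ℝ → C × V → V) (G : Cb (C × V × V) × W 2 V → W 1 V) :
    Prop :=
  BS G ∧ ∀ (c : Cb (C × V × V)) (φ : Dsub V), Rep 1 (G (c, co 2 φ)) (ffn 𝕁 𝕏 (Cb.fn c) φ.1)

/-- The derivative in the first variable. -/
def d1 {Λ : Type} [NormedAddCommGroup Λ] [NormedSpace ℝ Λ] (Φ : W 2 V × Λ → W 1 V)
    (z : W 2 V × Λ) : W 2 V →L[ℝ] W 1 V := (fderiv ℝ Φ z).comp (ContinuousLinearMap.inl ℝ _ _)

end

end

end Pool.Agent.P.MP_de3acd_gt.FH
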