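import Pool.Agent.P.MP_de3acd_gt.FH.Defs5

/-! Gauge transformations, frames, actions and classes of fields on six-space. -/

open Set Filter Topology MeasureTheory
open scoped ContDiff NNReal ENNReal RealInnerProductSpace

namespace Pool.Agent.P.MP_de3acd_gt.FH

noncomputable section

section

variable {F F₁ F₂ : Type} [NormedAddCommGroup F] [NormedSpace ℝ F] [NormedAddCommGroup F₁]
  [NormedSpace ℝ F₁] [NormedAddCommGroup F₂] [NormedSpace ℝ F₂]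

/-- Affine permutations. -/
def Aff (γ : Equiv.Perm F) : Prop := ∃ L : F →L[ℝ] F, ∀ v, lin γ v = L v

/-- Invariant vector fields. -/
def Ivf (Γ : Subgroup (Equiv.Perm F)) (W : F → F) : Prop := ∀ g ∈ Γ, ∀ z, W (g z) = lin g (W z)

/-- Invariant periodic time-dependent vector fields. -/
def IY (Γ : Subgroup (Equiv.Perm F)) (Y : ℝ → F → F) : Prop := SP Y ∧ ∀ t, Ivf Γ (Y t)

/-- Invariant periodic functions. -/
def IH (Γ : Subgroup (Equiv.Perm F)) (H : ℝ → F → ℝ) : Prop :=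
  SP H ∧ ∀ g ∈ Γ, ∀ t z, H t (g z) = H t z

/-- Invariant compatible almost complex structures. -/
def IJ (Ω : F → F → ℝ) (Γ : Subgroup (Equiv.Perm F)) (J : ℝ → F → F →L[ℝ] F) : Prop :=
  ACS Ω J ∧ ∀ g ∈ Γ, ∀ t z v, J t (g z) (lin g v) = lin g (J t z v)

/-- The metric given by `J`. -/
def gj (Ω : F → F → ℝ) (J : ℝ → F → F →L[ℝ] F) (t : ℝ) (z v : F) : ℝ := Ω v (J t z v)

/-- The energy. -/
def en (Ω : F → F → ℝ) (J : ℝ → F → F →L[ℝ] F) (u : Pl → F) : ℝ :=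
  pair Ω (ds u) fun p => J p.2 (u p) (ds u p)

/-- Smooth twisted loops. -/
def Tw (γ : Equiv.Perm F) (w : ℝ → F) : Prop := ContDiff ℝ ∞ w ∧ ∀ t, w (t + 1) = γ (w t)

/-- Regularity of the cylinders of index at most zero in a one-parameter family. -/
def EG1 (Ω : F → F → ℝ) (Γ : Subgroup (Equiv.Perm F)) (γ : Equiv.Perm F) (J : ℝ → F → F →L[ℝ] F)
    (X : ℝ → Pl → F → F) (x y : ℝ → F) : Prop :=
  ∀ r u d, Cyl Ω γ J (X r) x y u → EIdx Ω Γ γ J (X r) x y u d → d ≤ 0 →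
    Onto Ω (lop γ J (X r) x y u ![kr J X r u] ![] ![])

/-- Invariant fields with nondegenerate orbits. -/
def EndF (Ω : F → F → ℝ) (Γ : Subgroup (Equiv.Perm F)) (Y : ℝ → F → F) : Prop :=
  IY Γ Y ∧ ∀ γ ∈ Γ, ∀ x, Orb γ Y x → GOrb Ω γ Y x

/-- Invariant fields on the cylinder that vanish for `|s| ≥ R`.-/
def SupX (Γ : Subgroup (Equiv.Perm F)) (R : ℝ) (Z : Pl → F → F) : Prop :=
  Fld Z R ∧ (∀ q, Ivf Γ (Z q)) ∧ ∀ q : Pl, R ≤ |q.1| → Z q = 0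

/-- Time-dependent affine symplectic changes of coordinates `z ↦ x0 t + P t z`. -/
structure Gau (Ω₁ : F₁ → F₁ → ℝ) (Ω₂ : F₂ → F₂ → ℝ) (γ₁ : Equiv.Perm F₁) (γ₂ : Equiv.Perm F₂) where
  x0 : ℝ → F₂
  P : ℝ → F₁ →L[ℝ] F₂
  Q : ℝ → F₂ →L[ℝ] F₁
  sx : ContDiff ℝ ∞ x0
  sP : ContDiff ℝ ∞ P
  sQ : ContDiff ℝ ∞ Q
  PQ : ∀ t v, P t (Q t v) = v
  QP : ∀ t v, Q t (P t v) = v
  form₁ : Form Ω₁
  form₂ : Form Ω₂
  symp : ∀ t u v, Ω₂ (P t u) (P t v) = Ω₁ u v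
  aff₁ : Aff γ₁
  aff₂ : Aff γ₂
  tw : ∀ t z, x0 (t + 1) + P (t + 1) (γ₁ z) = γ₂ (x0 t + P t z)

namespace Gau

variable {Ω₁ : F₁ → F₁ → ℝ} {Ω₂ : F₂ → F₂ → ℝ} {γ₁ : Equiv.Perm F₁} {γ₂ : Equiv.Perm F₂}
  (c : Gau Ω₁ Ω₂ γ₁ γ₂)

/-- On points. -/
def pt (t : ℝ) (z : F₁) : F₂ := c.x0 t + c.P t z

/-- On loops. -/
def up (x : ℝ → F₁) (t : ℝ) : F₂ := c.pt t (x t)

/-- The inverse on loops. -/
def dn (x : ℝ → F₂) (t : ℝ) : F₁ := c.Q t (x t - c.x0 t)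

/-- On cylinders. -/
def upu (u : Pl → F₁) (p : Pl) : F₂ := c.pt p.2 (u p)

/-- The inverse on cylinders. -/
def dnu (u : Pl → F₂) (p : Pl) : F₁ := c.Q p.2 (u p - c.x0 p.2)

/-- On vector fields along cylinders. -/
def vec (ξ : Pl → F₁) (p : Pl) : F₂ := c.P p.2 (ξ p)

/-- Pull-back of almost complex structures. -/
def pJ (J : ℝ → F₂ → F₂ →L[ℝ] F₂) (t : ℝ) (z : F₁) : F₁ →L[ℝ] F₁ :=
  (c.Q t).comp ((J t (c.pt t z)).comp (c.P t))

/-- Pull-back of time-dependent fields. -/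
def pY (Y : ℝ → F₂ → F₂) (t : ℝ) (z : F₁) : F₁ :=
  c.Q t (Y t (c.pt t z) - deriv c.x0 t - deriv c.P t z)

/-- Pull-back of fields on the cylinder. -/
def pX (X : Pl → F₂ → F₂) (p : Pl) : F₁ → F₁ := c.pY (frz X p.1) p.2

/-- Pull-back of variations of fields. -/
def pZ (Z : Pl → F₂ → F₂) (p : Pl) (z : F₁) : F₁ := c.Q p.2 (Z p (c.pt p.2 z))

/-- Push-forward of framed operators. -/
def op {a b : ℕ} (T : Op F₁ a b) : Op F₂ a b :=
  ⟨γ₂, c.up T.x, c.up T.y, fun p => (c.P p.2).comp ((T.j p).comp (c.Q p.2)),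
    fun p => (c.P p.2).comp ((T.S p - (T.j p).comp ((c.Q p.2).comp (deriv c.P p.2))).comp (c.Q p.2)),
      fun i => c.vec (T.K i), fun i => c.vec (T.l i), T.M⟩

/-- Pull-back of signs. -/
def po (o : ∀ a b, Op F₂ a b → ℤˣ) : ∀ a b, Op F₁ a b → ℤˣ := fun a b T => o a b (c.op T)

theorem pX_sta (Y : ℝ → F₂ → F₂) : c.pX (sta Y) = sta (c.pY Y) := rfl

theorem frz_pX (X : Pl → F₂ → F₂) (s : ℝ) : frz (c.pX X) s = c.pY (frz X s) := rfl

end Gau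

end

/-- Euclidean six-space. -/
abbrev V6 : Type := EuclideanSpace ℝ (Fin 6)

instance : Sym V6 where
  J0 := LinearMap.toContinuousLinearMap
    { toFun := fun v => !₂[-v 1, v 0, -v 3, v 2, -v 5, v 4]
      map_add' := fun u v => by
        ext i
        fin_cases i <;> simp [add_comm]
      map_smul' := fun r v => by
        ext i
        fin_cases i <;> simp }
  sq v := by
    ext i
    fin_cases i <;> simp
  iso u v := by
    simp [PiLp.inner_apply, Fin.sum_univ_six]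
    ring
  fd := inferInstance

/-- The identification with the product of three planes. -/
def e6 : V6 ≃L[ℝ] E := LinearEquiv.toContinuousLinearEquiv
  { toFun := fun v => ((v 0, v 1), (v 2, v 3), v 4, v 5)
    invFun := fun z => !₂[z.1.1, z.1.2, z.2.1.1, z.2.1.2, z.2.2.1, z.2.2.2]
    map_add' := fun _ _ => rfl
    map_smul' := fun _ _ => rfl
    left_inv := fun v => by
      ext i
      fin_cases i <;> rfl
    right_inv := fun _ => rfl }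

theorem om_e6 (u v : V6) : om (e6 u) (e6 v) = Ω0 u v := by
  simp [om, ar, e6, Ω0, Sym.J0, PiLp.inner_apply, Fin.sum_univ_six]
  ring

/-- Charts for the space of `γ`-twisted loops. -/
abbrev Ch (γ : Equiv.Perm E) : Type := Gau (Ω0 : V6 → V6 → ℝ) om 1 γ

/-- The winding coordinate. -/
def tau (z : E) : ℝ := -z.2.1.1 / (2 * Real.pi)

/-- The invariant norm. -/
def nm (B : ℝ → E →L[ℝ] E) (z v : E) : ℝ := ‖B (-tau z) v‖

/-- The linear parts of `Γ` lie on the one-parameter group `B`. -/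
structure Fr (Γ : Subgroup (Equiv.Perm E)) (B : ℝ → E →L[ℝ] E) : Prop where
  good : Good Γ
  smooth : ContDiff ℝ ∞ B
  zero : ∀ v, B 0 v = v
  add : ∀ a b v, B (a + b) v = B a (B b v)
  symp : ∀ a u v, om (B a u) (B a v) = om u v
  base : ∀ a v, (B a v).1 = v.1 ∧ (B a v).2.1 = v.2.1
  wind : ∀ γ ∈ Γ, ∃ m : ℤ, (∀ v, lin γ v = B m v) ∧ ∀ z, tau (γ z) = tau z + m

/-- The action of a twisted loop. -/
def act (γ : Equiv.Perm E) (H : ℝ → E → ℝ) (x : ℝ → E) : ℝ :=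
  -((∫ t in (0 : ℝ)..1, om (x t) (deriv x t)) / 2 - om (γ 0) (x 1) / 2 + ∫ t in (0 : ℝ)..1, H t (x t))

/-- The action in a chart. -/
def Gau.pA {γ : Equiv.Perm E} (c : Ch γ) (H : ℝ → E → ℝ) (x : ℝ → V6) : ℝ := act γ H (c.up x)

/-- The segment of Hamiltonians. -/
def mix (H G : ℝ → E → ℝ) (β : ℝ) (t : ℝ) (z : E) : ℝ := H t z + β * (G t z - H t z)

theorem mix_zero (H G : ℝ → E → ℝ) : mix H G 0 = H := by
  funext t z
  simp [mix]

theorem mix_one (H G : ℝ → E → ℝ) : mix H G 1 = G := by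
  funext t z
  simp [mix]

/-- Nondegenerate Hamiltonians. -/
def NdH (Γ : Subgroup (Equiv.Perm E)) (H : ℝ → E → ℝ) : Prop :=
  ∀ γ ∈ Γ, ∀ x, Orb γ (ham H) x → Nd γ fun t => fderiv ℝ (ham H t) (x t)

/-- The `L¹` distance is at most `d`. -/
def L1 (H G : ℝ → E → ℝ) (d : ℝ) : Prop :=
  ∃ P : ℝ → ℝ, Continuous P ∧ (∀ t ∈ Icc (0 : ℝ) 1, ∀ z, |G t z - H t z| ≤ P t) ∧
    ∫ t in (0 : ℝ)..1, P t ≤ d

/-- Regular Floer data on six-space. -/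
def Reg (Γ : Subgroup (Equiv.Perm E)) (H : ℝ → E → ℝ) (J : ℝ → E → E →L[ℝ] E) : Prop :=
  MP_de3acd_gt.Reg om Γ H (ham H) J

/-- Regular Floer data and a nondegenerate Hamiltonian nearby. -/
structure Dat (Γ : Subgroup (Equiv.Perm E)) (B : ℝ → E →L[ℝ] E) (J : ℝ → E → E →L[ℝ] E)
    (H G : ℝ → E → ℝ) (d : ℝ) : Prop where
  fr : Fr Γ B
  reg : Reg Γ H J
  ih : IH Γ G
  nd : NdH Γ G
  close : L1 H G d

variable (Γ : Subgroup (Equiv.Perm E)) (J : ℝ → E → E →L[ℝ] E) (H G : ℝ → E → ℝ)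

/-- Along loops `Y` is small compared with the gradient of the action of `G`. -/
def GLe (θ : ℝ) (Y : ℝ → E → E) : Prop :=
  ∀ γ ∈ Γ, ∀ w, Tw γ w → ∫ t in (0 : ℝ)..1, gj om J t (w t) (Y t (w t)) ≤
    θ ^ 2 * ∫ t in (0 : ℝ)..1, gj om J t (w t) (deriv w t - ham G t (w t))

/-- Invariant fields that vanish near the orbits of `G`. -/
def SupY (Y : ℝ → E → E) : Prop :=
  IY Γ Y ∧ ∀ γ ∈ Γ, ∀ x, Orb γ (ham G) x → ∃ δ > 0, ∀ t ∈ Icc (0 : ℝ) 1, ∀ z, ‖z - x t‖ ≤ δ → Y t z = 0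

/-- Admissible perturbations of the Hamiltonian field of `G`. -/
def ClY (Y : ℝ → E → E) : Prop := SupY Γ G Y ∧ ∃ θ, 0 ≤ θ ∧ θ < 1 / 3 ∧ GLe Γ J G θ Y

/-- The size of a perturbation. -/
def Sz (η : ℝ) (p : Pl → E → E) : Prop :=
  ∃ P : ℝ → ℝ, Integrable P ∧ (∀ q z, gj om J q.2 z (p q z) ≤ P q.1) ∧ ∫ s, P s ≤ η

/-- The interpolating field. -/
def fld (Y : ℝ → E → E) (β χ : ℝ → ℝ) (q : Pl) (z : E) : E :=
  ham H q.2 z + β q.1 • (ham G q.2 z - ham H q.2 z) + χ q.1 • Y q.2 z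

/-- Fields for which the energy is controlled by the action. -/
def Cls (Y : ℝ → E → E) (X : Pl → E → E) (β₀ β₁ v η L : ℝ) : Prop :=
  ∃ (β χ : ℝ → ℝ) (p : Pl → E → E) (R : ℝ) (S : Set ℝ), X = fld H G Y β χ + p ∧ ContDiff ℝ ∞ β ∧
    (∀ s ≤ -R, β s = β₀) ∧ (∀ s ≥ R, β s = β₁) ∧ ∫ s, |deriv β s| ≤ v ∧
    (∀ s, χ s ∈ Icc (0 : ℝ) 1 ∧ (χ s ≠ 0 → β s = 1)) ∧ Sz J η p ∧ volume S ≤ ENNReal.ofReal L ∧
      ∀ s ∉ S, (β s = 0 ∨ β s = 1) ∧ ∀ t, p (s, t) = 0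

/-- The field from `H` to `G`. -/
def xF (Y : ℝ → E → E) : Pl → E → E :=
  fld H G Y Real.smoothTransition fun s => Real.smoothTransition (s - 1)

/-- The field from `G` to `H`. -/
def xB (Y : ℝ → E → E) : Pl → E → E :=
  fld H G Y (fun s => Real.smoothTransition (-s)) fun s => Real.smoothTransition (-s - 1)

/-- The homotopy from the field of `H` to the glued field. -/
def th0 (Y : ℝ → E → E) (p₁ p₂ : Pl → E → E) (r : ℝ) : Pl → E → E :=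
  fld H G Y (fun s => Real.smoothTransition (r + s) * Real.smoothTransition (r - s))
    (fun s => Real.smoothTransition (r + s - 1) * Real.smoothTransition (r - s - 1)) +
      Real.smoothTransition r • (tsl (r, 0) p₁ + tsl (-r, 0) p₂)

/-- An end: the action of `K` decreases and short solutions have positive index. -/
def EndA (Y : ℝ → E → E) (K : ℝ → E → ℝ) (b : ℝ) : Prop :=
  EndF om Γ Y ∧ ∀ γ ∈ Γ, ∀ c : Ch γ,
    Dec (c.pJ J) (c.pY Y) (c.pA K) ∧ Lo (c.pJ J) (c.pY Y) (c.pA K) b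

/-- Regularity in all charts up to the gap `b`. -/
def GoodA (X : Pl → E → E) (Y Y' : ℝ → E → E) (K K' : ℝ → E → ℝ) (b : ℝ) : Prop :=
  ∀ γ ∈ Γ, ∀ (c : Ch γ) (x y : ℝ → V6), Orb 1 (c.pY Y) x → Orb 1 (c.pY Y') y →
    c.pA K x - c.pA K' y ≤ b → Good0 (c.pJ J) (c.pX X) x y

/-- The continuation data. -/
structure CDat (B : ℝ → E →L[ℝ] E) (d : ℝ) (Y : ℝ → E → E) (p₁ p₂ : Pl → E → E) (η b : ℝ) : Prop where
  dat : Dat Γ B J H G d
  clY : ClY Γ J G Y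
  endG : EndA Γ J (ham G + Y) G (2 * b)
  s₁ : SupX Γ 2 p₁ ∧ Sz J η p₁
  s₂ : SupX Γ 2 p₂ ∧ Sz J η p₂
  pos : 0 < η
  le : 2 * d + 40 * η ≤ b
  good₁ : GoodA Γ J (xF H G Y + p₁) (ham H) (ham G + Y) H G b
  good₂ : GoodA Γ J (xB H G Y + p₂) (ham G + Y) (ham H) G H b

/-- Lifted orbits. -/
def LO (Y : ℝ → E → E) : Type := {q : Equiv.Perm E × (ℝ → E) // q.1 ∈ Γ ∧ Orb q.1 Y q.2}

variable {Γ}

/-- The action of a lifted orbit. -/
def la {Y : ℝ → E → E} (K : ℝ → E → ℝ) (q : LO Γ Y) : ℝ := act q.1.1 K q.1.2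

open Classical in
/-- A count as a kernel on lifted orbits. -/
def lk {Y Y' : ℝ → E → E} (n : Equiv.Perm E → (ℝ → E) → (ℝ → E) → ℤ) (q : LO Γ Y) (q' : LO Γ Y') :
    ℤ := if q.1.1 = q'.1.1 then n q.1.1 q.1.2 q'.1.2 else 0

/-- Equivariant kernels. -/
structure Ker {X Y C D : Type} (π : X → C) (σ : C → X) (π' : Y → D) (a : X → ℝ) (a' : Y → ℝ)
    (n : X → Y → ℤ) (w b : ℝ) : Prop where
  low : ∀ x y, n x y ≠ 0 → 0 ≤ a x - a' y + w
  fin : ∀ x, {y | n x y ≠ 0 ∧ a x - a' y + w ≤ b}.Finite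
  eqv : ∀ x, ∃ e : Y ≃ Y, ∀ y, π' (e y) = π' y ∧ n x (e y) = n (σ (π x)) y ∧
    (n (σ (π x)) y ≠ 0 → a x - a' (e y) = a (σ (π x)) - a' y)

/-- `ψ` is the time-one map of `G`, by a flow on the unit interval. -/
def Gen1 (G : ℝ → E → ℝ) (ψ : E → E) : Prop :=
  ∃ Φ : ℝ → E → E, (∀ z, Φ 0 z = z) ∧ (∀ z, Φ 1 z = ψ z) ∧ ∀ z, ∀ s ∈ Icc (0 : ℝ) 1,
    HasDerivAt (fun s => Φ s z) (ham G s (Φ s z)) s

end

end Pool.Agent.P.MP_de3acd_gt.FH
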