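import Pool.Agent.P.MP_de3acd_gt.FH.Defs6

/-! Definitions for the existence of regular almost complex structures and of coherent orientations. -/

open Set Filter Topology MeasureTheory
open scoped ContDiff NNReal ENNReal RealInnerProductSpace

namespace Pool.Agent.P.MP_de3acd_gt.FH

noncomputable section

/-- The space of parameters. -/
abbrev Lam : Type := _root_.lp (fun _ : ℕ => ℝ) 2

/-- Positive weights that are eventually at most `δ`. -/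
def Sml (δ ε : ℕ → ℝ) : Prop := (∀ i, 0 < ε i) ∧ ∀ᶠ i in atTop, ε i ≤ δ i

section

variable {F : Type} [NormedAddCommGroup F] [NormedSpace ℝ F]

/-- Invariant fields of endomorphisms. -/
def IZ (Γ : Subgroup (Equiv.Perm F)) (Z : ℝ → F → F →L[ℝ] F) : Prop :=
  SP Z ∧ ∀ g ∈ Γ, ∀ t z v, Z t (g z) (lin g v) = lin g (Z t z v)

/-- Fields that anticommute with `J`. -/
def Anti (J Z : ℝ → F → F →L[ℝ] F) : Prop := ∀ t z v, Z t z (J t z v) = -J t z (Z t z v)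

/-- `J = (1 + Za)⁻¹ J₀ (1 + Za)` with `Za = ∑ a i ε i Z i`; `Zi` is the inverse of `1 + Za`. -/
structure PJ (J₀ : ℝ → F → F →L[ℝ] F) (Z : ℕ → ℝ → F → F →L[ℝ] F) (ε : ℕ → ℝ) (a : Lam)
    (J Za Zi : ℝ → F → F →L[ℝ] F) : Prop where
  sum : ∀ t z, HasSum (fun i => (a i * ε i) • Z i t z) (Za t z)
  sa : SP Za
  si : SP Zi
  left : ∀ t z v, Zi t z (v + Za t z v) = v
  right : ∀ t z v, Zi t z v + Za t z (Zi t z v) = v
  eq : ∀ t z v, J t z v + Za t z (J t z v) = J₀ t z (v + Za t z v)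

/-- The fields `Z i` are localised multiples of fields that act nontrivially. -/
def LocZ (Γ : Subgroup (Equiv.Perm F)) (Z : ℕ → ℝ → F → F →L[ℝ] F) : Prop :=
  ∀ (t₀ : ℝ) (z₀ v₀ : F) (f : F →L[ℝ] ℝ), v₀ ≠ 0 → f ≠ 0 → ∃ A : F → F →L[ℝ] F, Continuous A ∧
    f (A z₀ v₀) ≠ 0 ∧ ∀ δ > 0, ∃ (i : ℕ) (φ : ℝ → F → ℝ), (Continuous fun q : ℝ × F => φ q.1 q.2) ∧
      (∀ t z, Z i t z = φ t z • A z) ∧ (∀ t z, 0 ≤ φ t z) ∧ 0 < φ t₀ z₀ ∧ ∀ t z, φ t z ≠ 0 →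
        (∃ k : ℤ, |t - t₀ - k| < δ) ∧ ∃ g ∈ Γ, ‖g z - z₀‖ < δ

/-- The two functions are asymptotic in `C¹` on both ends. -/
def Sim (S S' : Pl → F) : Prop := ∀ ε > 0, ∃ R, Cn 1 (S - S') {s | R ≤ |s|} ε

/-- Equal to the loop `α` far on the left. -/
def FlL (α : ℝ → F) (S : Pl → F) : Prop := ∃ R, ∀ p : Pl, p.1 ≤ -R → S p = α p.2

/-- Equal to the loop `α` far on the right. -/
def FlR (α : ℝ → F) (S : Pl → F) : Prop := ∃ R, ∀ p : Pl, R ≤ p.1 → S p = α p.2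

variable {a b a' b' : ℕ}

/-- Stabilisation of the frame. -/
def stb (m n : ℕ) (T : Op F a b) : Op F m n :=
  ⟨T.γ, T.x, T.y, T.j, T.S, fun i => if h : i.1 < a then T.K ⟨i, h⟩ else 0,
    fun i => if h : i.1 < b then T.l ⟨i, h⟩ else 0, fun i i' =>
      if h : i.1 < b ∧ i'.1 < a then T.M ⟨i, h.1⟩ ⟨i', h.2⟩ else if i.1 + a = i'.1 + b then 1 else 0⟩

/-- Permutation of the frame. -/
def prm (σ : Equiv.Perm (Fin a)) (τ : Equiv.Perm (Fin b)) (T : Op F a b) : Op F a b :=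
  ⟨T.γ, T.x, T.y, T.j, T.S, fun i => T.K (σ i), fun i => T.l (τ i), fun i i' => T.M (τ i) (σ i')⟩

/-- The frame with one row negated. -/
def ngt (i : Fin b) (T : Op F a b) : Op F a b :=
  { T with l := Function.update T.l i (-T.l i), M := Function.update T.M i (-T.M i) }

/-- Strong convergence of framed operators. -/
structure SC {N : Type} (l : Filter N) (T' : N → Op F a b) (T : Op F a b) : Prop where
  j : ∀ ε > 0, ∀ᶠ n in l, Cn 2 ((T' n).j - T.j) univ ε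
  S : ∀ ε > 0, ∀ᶠ n in l, Cn 1 ((T' n).S - T.S) univ ε
  K : ∀ i, Tendsto (fun n => nrm 1 ((T' n).K i - T.K i) univ) l (𝓝 0)
  l' : ∀ i, Tendsto (fun n => nrm 0 ((T' n).l i - T.l i) univ) l (𝓝 0)
  M : Tendsto (fun n => (T' n).M) l (𝓝 T.M)

/-- The two operators have the same asymptotics. -/
def Asy (T : Op F a b) (T' : Op F a' b') : Prop :=
  ∀ t, Tendsto (fun s => (T'.j (s, t) - T.j (s, t), T'.S (s, t) - T.S (s, t))) (cocompact ℝ) (𝓝 0)

/-- The operators agree on the neck. -/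
def Mat (T : Op F a b) (T' : Op F a' b') : Prop :=
  ∃ R, ∀ s ≥ R, ∀ s' ≥ R, ∀ t, T.j (s, t) = T'.j (-s', t) ∧ T.S (s, t) = T'.S (-s', t)

/-- The operators are `δ`-close. -/
def Clo (T T' : Op F a b) (δ : ℝ) : Prop :=
  (∀ p ∈ St, ‖T'.j p - T.j p‖ ≤ δ ∧ ‖T'.S p - T.S p‖ ≤ δ) ∧
    (∀ i, ∫ p in St, ‖T'.K i p - T.K i p‖ ^ 2 ≤ δ) ∧
      (∀ i, ∫ p in St, ‖T'.l i p - T.l i p‖ ^ 2 ≤ δ) ∧ ‖T'.M - T.M‖ ≤ δ

/-- Signs that do not depend on the labels. -/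
def Fre (o : ∀ a b, Op F a b → ℤˣ) : Prop :=
  ∀ a b (T T' : Op F a b), T.j = T'.j → T.S = T'.S → T.K = T'.K → T.l = T'.l → T.M = T'.M →
    o a b T = o a b T'

end

section

variable {X Y : Type} [NormedAddCommGroup X] [NormedSpace ℝ X] [NormedAddCommGroup Y]
  [NormedSpace ℝ Y]

/-- Limits of operators of finite rank. -/
def Apx (C : X →L[ℝ] Y) : Prop :=
  ∀ ε > 0, ∃ (m : ℕ) (K : (Fin m → ℝ) →L[ℝ] Y) (Λ : X →L[ℝ] (Fin m → ℝ)), ‖C - K.comp Λ‖ ≤ ε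

/-- Isomorphisms that differ by a limit of operators of finite rank. -/
def Rl (T₀ T₁ : X →L[ℝ] Y) : Prop := Function.Bijective T₀ ∧ Function.Bijective T₁ ∧ Apx (T₁ - T₀)

/-- The sign of a real number. -/
def sgn (r : ℝ) : ℤˣ := if r < 0 then -1 else 1

open Classical in
/-- The parity of a pair of isomorphisms. -/
def par (T₀ T₁ : X →L[ℝ] Y) : ℤˣ :=
  if ∃ (m : ℕ) (K : (Fin m → ℝ) →L[ℝ] Y) (Λ : X →L[ℝ] (Fin m → ℝ)) (c : ℝ), 0 ≤ c ∧ Bij T₁ c ∧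
    c * ‖T₁ - T₀ - K.comp Λ‖ < 1 ∧ (1 + Λ.comp (T₀.inverse.comp K)).det < 0 then -1 else 1

end

section

variable {V : Type} [NormedAddCommGroup V] [InnerProductSpace ℝ V] [Sym V] {a b a' b' : ℕ}

/-- Symmetric maps that anticommute with the complex structure. -/
def SA (A : V →L[ℝ] V) : Prop :=
  (∀ u v, ⟪A u, v⟫ = ⟪u, A v⟫) ∧ ∀ v, A (Sym.J0 v) = -Sym.J0 (A v)

/-- The fields `Z i` pair nontrivially with all fields along all solutions. -/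
def KillV (J : ℝ → V → V →L[ℝ] V) (Z : ℕ → ℝ → V → V →L[ℝ] V) (Y : ℝ → V → V) (x y : ℝ → V) :
    Prop :=
  ∀ u, Nice J (sta Y) x y u → ∀ η ζ : Pl → V, Continuous η → Continuous ζ → Dense {p | η p ≠ 0} →
    Dense {p | ζ p ≠ 0} → ∃ i, ip 0 (fun p => Z i p.2 (u p) (η p)) ζ ≠ 0

/-- `M ξ` is the multiplication by `A` along `w + ξ`. -/
def IsM (A : ℝ → V → V →L[ℝ] V) (w : Pl → V) (M : W 2 V → W 1 V →L[ℝ] W 1 V) : Prop :=
  BS M ∧ ∀ (ξ : W 2 V) (f : Pl → V) (η : W 1 V) (g : Pl → V), Rep 2 ξ f → ContDiff ℝ ∞ f → Per f →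
    Rep 1 η g → ContDiff ℝ ∞ g → Per g → Rep 1 (M ξ η) fun p => A p.2 (w p + f p) (g p)

/-- Multiplication by a field of endomorphisms. -/
def mop (k : ℕ) (P : Pl → V →L[ℝ] V) : W k V →L[ℝ] W k V :=
  mul k (ContinuousLinearMap.id ℝ (V →L[ℝ] V)) (toCb P)

/-- The standard structure as a constant field. -/
def j0 : Pl → V →L[ℝ] V := fun _ => Sym.J0

/-- Operators with bounded coefficients and test frames. -/
def CT (T : Op V a b) : Prop := Coef 1 T.j T.S ∧ TF T.K ∧ TF T.l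

/-- Normalised operators. -/
def NA (T : Op V a b) : Prop := T.j = j0 ∧ CT T

/-- Invertible normalised operators. -/
def NOk (T : Op V a b) : Prop := NA T ∧ Function.Bijective (hil T)

/-- Invertible asymptotic operators. -/
def GoodE (α : ℝ → V →L[ℝ] V) : Prop :=
  ContDiff ℝ ∞ α ∧ (∀ t, α (t + 1) = α t) ∧ Function.Bijective (Dop 1 1 j0 (lp α))

/-- Invertible normalised operators from `α` to `β`. -/
structure NG (α β : ℝ → V →L[ℝ] V) (T : Op V a b) : Prop where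
  ok : NOk T
  left : GoodE α
  right : GoodE β
  sim : Sim T.S (ref α β)

/-- The relative sign of two framed operators. -/
def rho (T : Op V a b) (T' : Op V a' b') : ℤˣ :=
  par (hil (stb (a + a') (b + a') T)) (hil (stb (a + a') (b + a') T'))

/-- Additive gluing of normalised operators. -/
def ag (ϱ₁ ϱ₂ : ℝ) (β : ℝ → V →L[ℝ] V) (T : Op V a b) (T' : Op V a' b') : Op V (a + a') (b + b') :=
  ⟨1, 0, 0, j0, pre ϱ₁ ϱ₂ T.S T'.S β,
    Fin.append (fun i => tsl (ϱ₁, 0) (T.K i)) fun i => tsl (-ϱ₂, 0) (T'.K i),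
    Fin.append (fun i => tsl (ϱ₁, 0) (T.l i)) fun i => tsl (-ϱ₂, 0) (T'.l i),
    Fin.append (fun i => Fin.append (T.M i) 0) fun i => Fin.append 0 (T'.M i)⟩

/-- The pairs of shifts whose sum is large. -/
def far : Filter (ℝ × ℝ) := comap (fun q => q.1 + q.2) atTop

/-- The universal sign. -/
def kap (a a' b' : ℕ) : ℤˣ := (-1) ^ (a * (a' + b'))

/-- Coherent signs of normalised operators. -/
structure NCoh (o : ∀ a b, Op V a b → ℤˣ) : Prop where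
  rel : ∀ a b (T T' : Op V a b) α β, NG α β T → NG α β T' →
    o a b T' = par (hil T) (hil T') * o a b T
  glu : ∀ a b a' b' (T : Op V a b) (T' : Op V a' b') α β δ, NG α β T → NG β δ T' → FlR β T.S →
    FlL β T'.S → ∀ᶠ R in atTop, o _ _ (ag R R β T T') = kap a a' b' * o a b T * o a' b' T'

/-- The gauge that turns `j` into the standard structure. -/
def pj (j : V →L[ℝ] V) : V →L[ℝ] V := (1 / 2 : ℝ) • (1 - Sym.J0.comp j)

/-- The zero order term of the normalised operator. -/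
def nS (j S : Pl → V →L[ℝ] V) (p : Pl) : V →L[ℝ] V :=
  ((pj (j p)).comp (S p) - ds (fun q => pj (j q)) p -
    Sym.J0.comp (dt (fun q => pj (j q)) p)).comp (pj (j p)).inverse

/-- The normalised operator. -/
def nz (T : Op V a b) : Op V a b :=
  ⟨1, 0, 0, j0, nS T.j T.S, fun i p => pj (T.j p) (T.K i p),
    fun i p => -Sym.J0 ((pj (T.j p)).inverse (Sym.J0 (T.l i p))), T.M⟩

end

section

variable {F₁ F₂ : Type} [NormedAddCommGroup F₁] [NormedSpace ℝ F₁] [NormedAddCommGroup F₂]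
  [NormedSpace ℝ F₂]

/-- Symplectic gauge transformations on the cylinder that are independent of `s` on the ends. -/
structure SG (Ω₁ : F₁ → F₁ → ℝ) (Ω₂ : F₂ → F₂ → ℝ) (γ₁ : Equiv.Perm F₁) (γ₂ : Equiv.Perm F₂)
    (P : Pl → F₁ →L[ℝ] F₂) (Q : Pl → F₂ →L[ℝ] F₁) : Prop where
  sP : ContDiff ℝ ∞ P
  sQ : ContDiff ℝ ∞ Q
  PQ : ∀ p v, P p (Q p v) = v
  QP : ∀ p v, Q p (P p v) = v
  form₁ : Form Ω₁
  form₂ : Form Ω₂
  symp : ∀ p u v, Ω₂ (P p u) (P p v) = Ω₁ u v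
  aff₁ : Aff γ₁
  aff₂ : Aff γ₂
  tw : ∀ s t v, P (s, t + 1) (lin γ₁ v) = lin γ₂ (P (s, t) v)
  ends : ∃ R, ∀ s t, (R ≤ s → P (s, t) = P (R, t)) ∧ (s ≤ -R → P (s, t) = P (-R, t))

/-- The transformed operator, with new labels. -/
def sg (γ : Equiv.Perm F₂) (x y : ℝ → F₂) (P : Pl → F₁ →L[ℝ] F₂) (Q : Pl → F₂ →L[ℝ] F₁) {a b : ℕ}
    (T : Op F₁ a b) : Op F₂ a b :=
  ⟨γ, x, y, fun p => (P p).comp ((T.j p).comp (Q p)),
    fun p => ((P p).comp (T.S p) - ds P p -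
      (P p).comp ((T.j p).comp ((Q p).comp (dt P p)))).comp (Q p),
    fun i p => P p (T.K i p), fun i p => P p (T.l i p), T.M⟩

end

/-- The gauge with winding `m` and profile `τ`. -/
def gP (B : ℝ → E →L[ℝ] E) (m : ℝ) (τ : ℝ → ℝ) (p : Pl) : E →L[ℝ] V6 :=
  (e6.symm : E →L[ℝ] V6).comp (B (-(m * p.2 + τ p.1)))

/-- Its inverse. -/
def gQ (B : ℝ → E →L[ℝ] E) (m : ℝ) (τ : ℝ → ℝ) (p : Pl) : V6 →L[ℝ] E :=
  (B (m * p.2 + τ p.1)).comp (e6 : V6 →L[ℝ] E)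

/-- Smooth profiles from `c` to `d`. -/
def Prf (τ : ℝ → ℝ) (c d : ℝ) : Prop :=
  ContDiff ℝ ∞ τ ∧ ∃ R, ∀ s, (s ≤ -R → τ s = c) ∧ (R ≤ s → τ s = d)

/-- The operator on Euclidean space given by the profile `τ`. -/
def tv (B : ℝ → E →L[ℝ] E) (τ : ℝ → ℝ) {a b : ℕ} (T : Op E a b) : Op V6 a b :=
  sg 1 0 0 (gP B (tau (T.γ 0)) τ) (gQ B (tau (T.γ 0)) τ) T

end

end Pool.Agent.P.MP_de3acd_gt.FH
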