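import Pool.Agent.P.MP_de3acd_gt.FH.EndA

/-! Estimates on the ends for the operator and its formal adjoint.
Sketch: pointwise convergence and a uniform Lipschitz bound in t give uniform convergence of j (s, ·), S (s, ·) as
s → ±∞; the limits j', B = j' ∘ S∞ are continuous and periodic, j' is compatible (cpt_of_tendsto), and ds j → 0 uniformly
(‖ds j‖ ≤ 2 δ / h + C h). Split φ, vanishing for |s| ≤ R (R > 0), into its parts on s > 0 and s < 0, both test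
functions. On each part compare with stat_est and absorb the small error (nrm 1 φ < ⊤). Adjoint: put φ = G ψ,
G = -J0 ∘ j (s,t), ψ = G⁻¹ φ = -j (J0 φ), a test function, nrm 1 φ ≤ C nrm 1 ψ (nrm_bil). With adjoint j = J0 j J0:
dop (-1) (adJ j) (adS j S) (G ψ) = G (-ds ψ + j (dt ψ - B ψ)) + J0 (ds j ψ) + (adjoint (S + j B)) (G ψ) for any
infinitesimally symplectic B (the terms with dt j cancel; check by pairing with ξ: Ω (S ξ) (j ψ) = ⟪S ξ, G ψ⟫ and
Ω (-j B ξ) (j ψ) = Ω ξ (B ψ)). In est_const the two error terms vanish. -/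

open Set Filter Topology MeasureTheory
open scoped ContDiff NNReal ENNReal RealInnerProductSpace

namespace Pool.Agent.P.MP_de3acd_gt.FH

noncomputable section

variable {V : Type} [NormedAddCommGroup V] [InnerProductSpace ℝ V] [Sym V]

omit [Sym V] in
theorem absorb_EndB {ψ g r : Pl → V} (hψ : ψ ∈ Dsub V) {c : ℝ≥0} {a η : ℝ}
    (h : nrm 1 ψ univ ≤ c * nrm 0 g univ) (hη : c * (3 * η ^ 2) ≤ 1 / 2)
    (hg : ∀ p, ‖g p‖ ≤ a * ‖r p‖ + η * (‖ψ p‖ + ‖dt ψ p‖)) :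
    nrm 1 ψ univ ≤ (2 * c * (3 * a ^ 2).toNNReal : ℝ≥0) * nrm 0 r univ := by
  have m1 : Measurable fun p => ‖ψ p‖ₑ ^ 2 := hψ.1.continuous.enorm.measurable.pow_const 2
  have m2 : Measurable fun p => ‖dt ψ p‖ₑ ^ 2 :=
    (contDiff_dt hψ.1).continuous.enorm.measurable.pow_const 2
  have h1 : nrm 0 g univ ≤ (3 * a ^ 2).toNNReal * nrm 0 r univ +
      (3 * η ^ 2).toNNReal * (nrm 0 ψ univ + nrm 0 (dt ψ) univ) := by
    simp only [nrm_zero]
    rw [← lintegral_add_left m1, ← lintegral_const_mul' _ _ ENNReal.coe_ne_top,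
      ← lintegral_const_mul' _ _ ENNReal.coe_ne_top,
      ← lintegral_add_right _ ((m1.fun_add m2).const_mul _)]
    refine lintegral_mono fun p => ?_
    simp only [enorm_eq_nnnorm]
    norm_cast
    rw [← NNReal.coe_le_coe]
    push_cast
    rw [Real.coe_toNNReal _ (by positivity), Real.coe_toNNReal _ (by positivity)]
    refine (pow_le_pow_left₀ (norm_nonneg _) (hg p) 2).trans ?_
    nlinarith [sq_nonneg (a * ‖r p‖ - η * ‖ψ p‖), sq_nonneg (a * ‖r p‖ - η * ‖dt ψ p‖),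
      sq_nonneg (η * ‖ψ p‖ - η * ‖dt ψ p‖)]
  have h2 : nrm 0 ψ univ + nrm 0 (dt ψ) univ ≤ nrm 1 ψ univ := by
    rw [nrm_succ]
    exact add_le_add le_self_add le_rfl
  have h3 : (c : ℝ≥0∞) * (3 * η ^ 2).toNNReal ≤ 2⁻¹ := by
    have : c * (3 * η ^ 2).toNNReal ≤ 2⁻¹ := by
      rw [← NNReal.coe_le_coe]
      push_cast
      rw [Real.coe_toNNReal _ (by positivity)]
      linarith
    have h4 := ENNReal.coe_le_coe.2 this
    rwa [ENNReal.coe_mul, ENNReal.coe_inv_two] at h4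
  have hN := (nrm_lt_top_of_mem 1 hψ).ne
  generalize nrm 1 ψ univ = N at *
  have e : N = 2⁻¹ * N + 2⁻¹ * N := by rw [← add_mul, ENNReal.inv_two_add_inv_two, one_mul]
  have h5 : 2⁻¹ * N + 2⁻¹ * N ≤ c * ((3 * a ^ 2).toNNReal * nrm 0 r univ) + 2⁻¹ * N := by
    rw [← e]
    refine h.trans ((mul_le_mul_right h1 _).trans ?_)
    rw [mul_add, ← mul_assoc _ _ (_ + _)]
    exact add_le_add le_rfl (mul_le_mul' h3 h2)
  have h6 := ENNReal.le_of_add_le_add_right (ENNReal.mul_ne_top (by simp) hN) h5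
  rw [e]
  refine (add_le_add h6 h6).trans_eq ?_
  push_cast
  ring

theorem adj_dt_EndB {j : Pl → V →L[ℝ] V} (hj : ContDiff ℝ ∞ j) (hc : ∀ p, Cpt Ω0 (j p)) (p : Pl)
    (v : V) : ContinuousLinearMap.adjoint (dt j p) v = Sym.J0 (dt j p (Sym.J0 v)) := by
  refine ext_inner_left ℝ fun u => ?_
  have h := hasDerivAt_dt (s := p.1) (t := p.2) (hj.differentiable (by simp) _)
  have h1 := (h.clm_apply (hasDerivAt_const _ u)).inner ℝ (hasDerivAt_const _ v)
  have h2 := ((hasDerivAt_const _ (Sym.J0 u)).inner ℝ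
    (h.clm_apply (hasDerivAt_const _ (Sym.J0 v)))).fun_neg
  have e : (fun t => ⟪j (p.1, t) u, v⟫) = fun t => -⟪Sym.J0 u, j (p.1, t) (Sym.J0 v)⟫ :=
    funext fun t => by
      rw [← ContinuousLinearMap.adjoint_inner_right, Cpt.adjoint (hc _), inner_J0_left, neg_neg]
  rw [e] at h1
  have h3 := h1.unique h2
  rw [ContinuousLinearMap.adjoint_inner_right]
  rw [inner_J0_left] at h3
  simpa using h3

theorem alg_EndB {j S B j1 j2 : V →L[ℝ] V} (hj : Cpt Ω0 j)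
    (hB : ∀ u v, Ω0 (B u) v + Ω0 u (B v) = 0) {u a b ψ : V}
    (h2 : ContinuousLinearMap.adjoint j2 u = Sym.J0 (j2 (Sym.J0 u))) (hψ : ψ = -j (Sym.J0 u)) :
    (-1 : ℝ) • (-j1 (Sym.J0 u) + -j (Sym.J0 a)) + j (-j2 (Sym.J0 u) + -j (Sym.J0 b) - B ψ) =
      -j (Sym.J0 ((-1 : ℝ) • a + (-ContinuousLinearMap.adjoint j) b +
        (ContinuousLinearMap.adjoint S - ContinuousLinearMap.adjoint j2) u)) + j1 (Sym.J0 u) +
          j (Sym.J0 (ContinuousLinearMap.adjoint (S + j.comp B) u)) := by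
  have h3 : ∀ w, ContinuousLinearMap.adjoint B (Sym.J0 w) = -Sym.J0 (B w) := fun w =>
    ext_inner_right ℝ fun v => by
      rw [ContinuousLinearMap.adjoint_inner_left, inner_neg_left]
      have := hB w v
      simp only [Ω0] at this
      linarith
  simp only [hψ, map_add, map_sub, map_neg, ContinuousLinearMap.adjoint_comp,
    add_apply, sub_apply, neg_apply,
    ContinuousLinearMap.comp_apply, Cpt.adjoint hj, h2, h3, Sym.sq, hj.1, neg_smul, one_smul]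
  abel

/-- Both estimates. -/
def Two_EndB (j S : Pl → V →L[ℝ] V) (c : ℝ≥0) (φ : Pl → V) : Prop :=
  nrm 1 φ univ ≤ c * nrm 0 (dop 1 j S φ) univ ∧
    nrm 1 φ univ ≤ c * nrm 0 (dop (-1) (adJ j) (adS j S) φ) univ

theorem core_EndB {j S : Pl → V →L[ℝ] V} (h : Coef 1 j S) {j' B : ℝ → V →L[ℝ] V}
    (hj : Continuous j') (pj : ∀ t, j' (t + 1) = j' t) (hc : ∀ t, Cpt Ω0 (j' t))
    (hB : Continuous B) (pB : ∀ t, B (t + 1) = B t) (hS : SNd Ω0 1 B) :
    ∃ ε > 0, ∃ c : ℝ≥0, ∀ φ ∈ Dsub V, (∀ p, φ =ᶠ[𝓝 p] 0 ∨ ‖j p - j' p.2‖ ≤ ε ∧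
      ‖S p - -(j' p.2).comp (B p.2)‖ ≤ ε ∧ ‖ds j p‖ ≤ ε) → Two_EndB j S c φ := by
  obtain ⟨c, hs⟩ := stat_est hj pj hc hB pB hS
  obtain ⟨A, hA0, hA⟩ := h.bj.cn 1
  obtain ⟨b, hb⟩ := ((show Function.Periodic B 1 from pB).isBounded_of_continuous one_ne_zero
    hB).exists_norm_le
  replace hb : ∀ t, ‖B t‖ ≤ b := fun t => hb _ ⟨t, rfl⟩
  have hb0 : 0 ≤ b := (norm_nonneg _).trans (hb 0)
  have hjA : ∀ p v, ‖j p v‖ ≤ A * ‖v‖ := fun p v => (j p).le_of_opNorm_le (hA.1 p trivial) v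
  obtain ⟨K, hK⟩ : ∃ K, K = 1 + b + A + A * A * (1 + b) := ⟨_, rfl⟩
  have hK1 : 1 ≤ K := by
    linarith [mul_nonneg (mul_nonneg hA0 hA0) (add_nonneg zero_le_one hb0)]
  obtain ⟨η, hη0, hη⟩ : ∃ η > (0 : ℝ), c * (3 * η ^ 2) ≤ 1 / 2 := by
    refine ⟨1 / (3 * (c + 1)), by positivity, ?_⟩
    have : (0 : ℝ) ≤ c := c.2
    rw [div_pow, mul_div_assoc', mul_div_assoc', div_le_div_iff₀ (by positivity) two_pos]
    nlinarith
  obtain ⟨ε, hε0, rfl⟩ : ∃ ε > (0 : ℝ), η = ε * K := ⟨η / K, by positivity, by field_simp⟩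
  let T : (V →L[ℝ] V) →L[ℝ] V →L[ℝ] V := -(ContinuousLinearMap.compL ℝ V V V).flip Sym.J0
  let T' : (V →L[ℝ] V) →L[ℝ] V →L[ℝ] V := -ContinuousLinearMap.compL ℝ V V V Sym.J0
  refine ⟨ε, hε0, 2 * c * (3 * 1 ^ 2 : ℝ).toNNReal + (9 ^ 1 * (‖T'‖ * A) ^ 2).toNNReal *
    (2 * c * (3 * A ^ 2).toNNReal), fun φ hφ hp => ⟨?_, ?_⟩⟩
  · refine (absorb_EndB hφ (a := 1) (hs 1 (Or.inl rfl) φ hφ) hη fun p => ?_).trans
      (mul_le_mul_left (ENNReal.coe_le_coe.2 le_self_add) _)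
    rcases hp p with h0 | ⟨h1, h2, -⟩
    · simp only [ds, dt, h0.fderiv_eq, h0.eq_of_nhds]
      simp
    · have e : (1 : ℝ) • ds φ p + j' p.2 (dt φ p - B p.2 (φ p)) = dop 1 j S φ p -
          (j p - j' p.2) (dt φ p) - (S p - -(j' p.2).comp (B p.2)) (φ p) := by
        simp only [dop, map_sub, sub_apply, neg_apply,
          ContinuousLinearMap.comp_apply]
        abel
      rw [e]
      refine (norm_sub_le_of_le (norm_sub_le_of_le le_rfl ((j p - j' p.2).le_of_opNorm_le h1 _))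
        (ContinuousLinearMap.le_of_opNorm_le _ h2 _)).trans ?_
      nlinarith [mul_nonneg (mul_nonneg hε0.le (sub_nonneg.2 hK1))
        (add_nonneg (norm_nonneg (φ p)) (norm_nonneg (dt φ p)))]
  · have hψ := bil_mem h.bj.1 h.pj hφ T
    have dj := h.bj.1.differentiable (by simp)
    have dφ := hφ.1.differentiable (by simp)
    have eφ : ∀ p, T' (j p) (T (j p) (φ p)) = φ p := fun p => by
      simp [T, T', (h.cpt p).1, Sym.sq]
    have h7 := nrm_bil 1 T' MeasurableSet.univ h.bj.1 hψ.1 hA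
    simp only [eφ] at h7
    refine (h7.trans (mul_le_mul_right (absorb_EndB hψ (a := A) (r := dop (-1) (adJ j) (adS j S) φ)
      (hs (-1) (Or.inr rfl) _ hψ) hη fun p => ?_) _)).trans ?_
    · rw [ds_bil T (dj p) (dφ p), dt_bil T (dj p) (dφ p)]
      rcases hp p with h0 | ⟨h1, h2, h3⟩
      · simp only [ds, dt, h0.fderiv_eq, h0.eq_of_nhds]
        simp
        positivity
      have h4 : ‖φ p‖ ≤ A * ‖T (j p) (φ p)‖ := by
        conv_lhs => rw [← eφ p]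
        refine (norm_neg _).trans_le ((norm_J0 _).trans_le (hjA p _))
      have h5 : ‖ContinuousLinearMap.adjoint (S p + (j p).comp (B p.2))‖ ≤ ε * (1 + b) := by
        rw [LinearIsometryEquiv.norm_map, show S p + (j p).comp (B p.2) =
          S p - -(j' p.2).comp (B p.2) + (j p - j' p.2).comp (B p.2) by
            rw [ContinuousLinearMap.sub_comp]; abel, mul_add, mul_one]
        exact norm_add_le_of_le h2 ((ContinuousLinearMap.opNorm_comp_le _ _).trans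
          (mul_le_mul h1 (hb _) (norm_nonneg _) hε0.le))
      have e := alg_EndB (S := S p) (j1 := ds j p) (a := ds φ p) (b := dt φ p) (h.cpt p) (hS.1 p.2)
        (adj_dt_EndB h.bj.1 h.cpt p (φ p)) (ψ := T (j p) (φ p)) rfl
      have e' : ∀ x y : V, x + j' p.2 y = x + j p y - (j p - j' p.2) y := fun x y => by
        rw [sub_apply]
        abel
      rw [e']
      refine (norm_sub_le_of_le (e ▸ norm_add_le_of_le (norm_add_le_of_le
        ((norm_neg _).trans_le (hjA p _)) ((ds j p).le_of_opNorm_le h3 _)) (hjA p _))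
        (((j p - j' p.2).le_of_opNorm_le h1 _).trans (mul_le_mul_of_nonneg_left
          (norm_sub_le_of_le le_rfl ((B p.2).le_of_opNorm_le (hb _) _)) hε0.le))).trans ?_
      simp only [norm_J0]
      have h6 := (mul_le_mul_of_nonneg_left ((ContinuousLinearMap.le_of_opNorm_le _ h5 (φ p)).trans
        (mul_le_mul_of_nonneg_left h4 (by positivity))) hA0)
      have h8 := mul_le_mul_of_nonneg_left h4 hε0.le
      change A * ‖dop (-1) (adJ j) (adS j S) φ p‖ + _ + _ + _ ≤ _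
      have h9 := mul_nonneg hε0.le (norm_nonneg (T (j p) (φ p)))
      have h10 := mul_nonneg (mul_nonneg hε0.le (sub_nonneg.2 hK1))
        (norm_nonneg (T (dt j p) (φ p) + T (j p) (dt φ p)))
      rw [hK] at h10 ⊢
      linarith
    · rw [← mul_assoc]
      exact mul_le_mul_left (by rw [ENNReal.coe_add]; exact le_add_self) _

theorem unif_EndB {F : Type} [NormedAddCommGroup F] [NormedSpace ℝ F] {f : Pl → F} (hf : Bdd f)
    (pf : Per f) {e : Filter ℝ} [e.NeBot] {g : ℝ → F}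
    (h : ∀ t, Tendsto (fun s => f (s, t)) e (𝓝 (g t))) : Continuous g ∧ (∀ t, g (t + 1) = g t) ∧
      ∀ ε > 0, ∀ᶠ s in e, ∀ t, ‖f (s, t) - g t‖ ≤ ε := by
  obtain ⟨C, hC⟩ := hf.dt.bound
  have hd : ∀ s t, HasDerivAt (fun t => f (s, t)) (dt f (s, t)) t := fun s t =>
    hasDerivAt_dt (hf.1.differentiable (by simp) _)
  have h1 : ∀ s t t', ‖f (s, t) - f (s, t')‖ ≤ C * ‖t - t'‖ := fun s t t' =>
    convex_univ.norm_image_sub_le_of_norm_hasDerivWithin_le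
      (fun x _ => (hd s x).hasDerivWithinAt) (fun x _ => hC _) trivial trivial
  have h2 : ∀ t t', ‖g t - g t'‖ ≤ C * ‖t - t'‖ := fun t t' =>
    le_of_tendsto' ((h t).sub (h t')).norm fun s => h1 s t t'
  have h3 : ∀ t, g (t + 1) = g t := fun t =>
    tendsto_nhds_unique (h (t + 1)) ((h t).congr fun s => (pf s t).symm)
  refine ⟨(LipschitzWith.of_dist_le' (K := C) fun t t' => by
    simpa only [dist_eq_norm] using h2 t t').continuous, h3, fun ε hε => ?_⟩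
  have h4 : {z : Pl | ‖f z - g z.2‖ ≤ ε} ∈ e ×ˢ 𝓝ˢ (Icc (0 : ℝ) 1) :=
    isCompact_Icc.mem_prod_nhdsSet_of_forall fun y _ => by
      have h5 : Tendsto (fun z : Pl => 2 * (C * ‖z.2 - y‖) + ‖f (z.1, y) - g y‖) (e ×ˢ 𝓝 y)
          (𝓝 (2 * (C * ‖y - y‖) + ‖g y - g y‖)) :=
        (((tendsto_snd.sub_const y).norm.const_mul C).const_mul 2).add
          (((h y).comp tendsto_fst).sub_const _).norm
      simp only [sub_self, norm_zero, mul_zero, add_zero] at h5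
      filter_upwards [h5.eventually (ge_mem_nhds hε)] with z hz
      have h6 := norm_sub_le_norm_sub_add_norm_sub (f z) (f (z.1, y)) (g z.2)
      have h7 := norm_sub_le_norm_sub_add_norm_sub (f (z.1, y)) (g y) (g z.2)
      have h8 := h2 z.2 y
      rw [norm_sub_rev] at h8
      linarith [h1 z.1 z.2 y]
  obtain ⟨I, hI, U, hU, hIU⟩ := mem_prod_iff.1 h4
  filter_upwards [hI] with s hs t
  have h5 := hIU (mk_mem_prod hs (subset_of_mem_nhdsSet hU
    ⟨Int.fract_nonneg t, (Int.fract_lt_one t).le⟩))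
  have h6 := (show Function.Periodic g 1 from h3).int_mul ⌊t⌋ (Int.fract t)
  rw [mul_one, Int.fract_add_floor] at h6
  rw [h6, ← Int.fract_add_floor t, pf.int, Int.fract_add_floor]
  exact h5

theorem lim_EndB {j S : Pl → V →L[ℝ] V} (h : Coef 1 j S) {e : Filter ℝ} [e.NeBot]
    {j' B : ℝ → V →L[ℝ] V}
    (ht : ∀ t, Tendsto (fun s => (j (s, t), S (s, t))) e (𝓝 (j' t, -(j' t).comp (B t))))
    (hS : SNd Ω0 1 B) : ∃ ε > 0, ∃ c : ℝ≥0, ∀ φ ∈ Dsub V, (∀ p, φ =ᶠ[𝓝 p] 0 ∨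
      ‖j p - j' p.2‖ ≤ ε ∧ ‖S p - -(j' p.2).comp (B p.2)‖ ≤ ε ∧ ‖ds j p‖ ≤ ε) →
        Two_EndB j S c φ := by
  obtain ⟨h1, h2, -⟩ := unif_EndB h.bj h.pj (g := j') fun t => (ht t).fst_nhds
  obtain ⟨h3, h4, -⟩ := unif_EndB h.bS h.pS (g := fun t => -(j' t).comp (B t))
    fun t => (ht t).snd_nhds
  have hc : ∀ t, Cpt Ω0 (j' t) := fun t =>
    cpt_of_tendsto form_Ω0 (fun s => h.cpt (s, t)) (ht t).fst_nhds
  have e : ∀ t, B t = (j' t).comp (-(j' t).comp (B t)) := fun t => by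
    ext v
    simp [(hc t).1]
  refine core_EndB h h1 h2 hc ((h1.clm_comp h3).congr fun t => (e t).symm) (fun t => ?_) hS
  rw [e, h4, h2, ← e]

theorem end_EndB {j S : Pl → V →L[ℝ] V} (h : Coef 1 j S) (hE : Ends Ω0 j S) {e : Filter ℝ}
    (he : e = atBot ∨ e = atTop) : ∃ c : ℝ≥0, ∃ I ∈ e, ∀ φ ∈ Dsub V,
      (∀ p : Pl, p.1 ∉ I → φ =ᶠ[𝓝 p] 0) → Two_EndB j S c φ := by
  have : e.NeBot := by rcases he with rfl | rfl <;> infer_instance
  obtain ⟨j', B, ht, hS⟩ := hE e he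
  obtain ⟨ε, hε, c, hc⟩ := lim_EndB h ht hS
  obtain ⟨-, -, h1⟩ := unif_EndB h.bj h.pj fun t => (ht t).fst_nhds
  obtain ⟨-, -, h2⟩ := unif_EndB h.bS h.pS fun t => (ht t).snd_nhds
  obtain ⟨A, hA⟩ := h.bj.ds.ds.bound
  have hA0 : 0 ≤ A := (norm_nonneg _).trans (hA 0)
  obtain ⟨k, hk0, hk⟩ : ∃ k > 0, A * k ≤ ε / 2 := ⟨ε / (2 * (A + 1)), by positivity, by
    rw [mul_div_assoc', div_le_div_iff₀ (by positivity) two_pos]
    nlinarith⟩
  have h3 := h1 (ε * k / 4) (by positivity)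
  have h4 : Tendsto (fun s => s + k) e e := by
    rcases he with rfl | rfl
    exacts [tendsto_atBot_add_const_right _ _ tendsto_id, tendsto_atTop_add_const_right _ _ tendsto_id]
  refine ⟨c, _, ((h1 ε hε).and (h2 ε hε)).and (h3.and (h4.eventually h3)), fun φ hφ h0 =>
    hc φ hφ fun p => (em _).elim (fun hp => Or.inr ⟨hp.1.1 p.2, hp.1.2 p.2, ?_⟩) fun hp =>
      Or.inl (h0 p hp)⟩
  have h5 := landau_JetC (g := fun s => j (s, p.2) - j' p.2) (fun s => (hasDerivAt_ds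
    (h.bj.1.differentiable (by simp) _)).sub_const _) (fun s => hasDerivAt_ds
      (h.bj.ds.1.differentiable (by simp) _)) (fun s => hA _) hk0 (hp.2.1 p.2) (hp.2.2 p.2)
  refine le_of_mul_le_mul_left (h5.trans ?_) hk0
  nlinarith

omit [Sym V] in
theorem cut_EndB {φ : Pl → V} (hφ : φ ∈ Dsub V) {R τ : ℝ} (hR : 0 ≤ R) (hτ : |τ| = 1)
    (h : ∀ p : Pl, |p.1| ≤ R + 1 → φ p = 0) : ∃ ψ ∈ Dsub V,
      (∀ p : Pl, 0 ≤ τ * p.1 → φ =ᶠ[𝓝 p] ψ) ∧ ∀ p : Pl, τ * p.1 ≤ R → ψ =ᶠ[𝓝 p] 0 := by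
  have hc : Continuous fun q : Pl => τ * q.1 := by fun_prop
  have ha : ∀ q : Pl, |q.1| = |τ * q.1| := fun q => by rw [abs_mul, hτ, one_mul]
  have h1 : ∀ p : Pl, 0 ≤ τ * p.1 → φ =ᶠ[𝓝 p] fun q => if 0 ≤ τ * q.1 then φ q else 0 :=
    fun p hp => by
      filter_upwards [(hc.tendsto p).eventually (lt_mem_nhds (show -1 < τ * p.1 by linarith))]
        with q hq
      split_ifs with h2
      · rfl
      · exact h q (by rw [ha, abs_le]; constructor <;> linarith)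
  have h2 : ∀ p : Pl, τ * p.1 ≤ R → (fun q => if 0 ≤ τ * q.1 then φ q else 0) =ᶠ[𝓝 p] 0 :=
    fun p hp => by
      filter_upwards [(hc.tendsto p).eventually (gt_mem_nhds (show τ * p.1 < R + 1 by linarith))]
        with q hq
      split_ifs with h2
      · exact h q (by rw [ha, abs_le]; constructor <;> linarith)
      · rfl
  obtain ⟨h3, h4, R', h5⟩ := hφ
  refine ⟨_, ⟨contDiff_iff_contDiffAt.2 fun p => ?_, fun s t => by simp only [h4 s t], R',
    fun p hp => by simp only [h5 p hp, ite_self]⟩, h1, h2⟩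
  rcases le_total 0 (τ * p.1) with hp | hp
  · exact h3.contDiffAt.congr_of_eventuallyEq (h1 p hp).symm
  · exact contDiffAt_const.congr_of_eventuallyEq (h2 p (hp.trans hR))

omit [Sym V] in
theorem half_EndB {φ ψ : Pl → V} {R τ : ℝ} (hR : 0 ≤ R) (h1 : ∀ p : Pl, 0 ≤ τ * p.1 → φ =ᶠ[𝓝 p] ψ)
    (h2 : ∀ p : Pl, τ * p.1 ≤ R → ψ =ᶠ[𝓝 p] 0) {c : ℝ≥0} {σ : ℝ} {j S : Pl → V →L[ℝ] V}
    (h : nrm 1 ψ univ ≤ c * nrm 0 (dop σ j S ψ) univ) :
    nrm 1 φ {s | 0 ≤ τ * s} ≤ c * nrm 0 (dop σ j S φ) univ := by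
  rw [nrm_congr 1 (I := {s | 0 ≤ τ * s}) (measurableSet_le measurable_const (by fun_prop)) h1]
  refine ((nrm_mono ψ le_rfl (subset_univ _)).trans h).trans (mul_le_mul_right ?_ _)
  refine lintegral_mono fun p => ?_
  rcases le_total 0 (τ * p.1) with hp | hp
  · simp only [dop, ds, dt, (h1 p hp).fderiv_eq, (h1 p hp).eq_of_nhds, le_refl]
  · simp only [dop, ds, dt, (h2 p (hp.trans hR)).fderiv_eq, (h2 p (hp.trans hR)).eq_of_nhds]
    simp

theorem ell_of_ends {j S : Pl → V →L[ℝ] V} (h : Coef 1 j S) (e : Ends Ω0 j S) : Ell 1 j S := by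
  obtain ⟨c, I, hI, h1⟩ := end_EndB h e (Or.inl rfl)
  obtain ⟨c', I', hI', h2⟩ := end_EndB h e (Or.inr rfl)
  obtain ⟨a, ha⟩ := mem_atBot_sets.1 hI
  obtain ⟨b, hb⟩ := mem_atTop_sets.1 hI'
  have hR : 0 ≤ |a| + |b| := by positivity
  have key : ∀ φ ∈ Dsub V, (∀ p : Pl, |p.1| ≤ |a| + |b| + 1 → φ p = 0) →
      Two_EndB j S (c + c') φ := fun φ hφ h0 => by
    obtain ⟨ψ, hψ, k1, k2⟩ := cut_EndB hφ hR (τ := -1) (by simp) h0
    obtain ⟨ψ', hψ', k1', k2'⟩ := cut_EndB hφ hR (τ := 1) (by simp) h0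
    have k3 := h1 ψ hψ fun p hp => k2 p (by
      linarith [not_le.1 (mt (ha p.1) hp), neg_abs_le a, abs_nonneg b])
    have k3' := h2 ψ' hψ' fun p hp => k2' p (by
      linarith [not_le.1 (mt (hb p.1) hp), le_abs_self b, abs_nonneg a])
    have k4 : nrm 1 φ univ ≤ nrm 1 φ {s | 0 ≤ -1 * s} + nrm 1 φ {s | 0 ≤ 1 * s} :=
      (nrm_mono φ le_rfl fun s _ => (le_total s 0).imp (fun hs => show 0 ≤ -1 * s by linarith)
        fun hs => show 0 ≤ 1 * s by linarith).trans (nrm_union_le _ _ _ _)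
    constructor <;> rw [ENNReal.coe_add, add_mul]
    · exact k4.trans (add_le_add (half_EndB hR k1 k2 k3.1) (half_EndB hR k1' k2' k3'.1))
    · exact k4.trans (add_le_add (half_EndB hR k1 k2 k3.2) (half_EndB hR k1' k2' k3'.2))
  exact ⟨h, ⟨_, _, fun φ hφ h0 => (key φ hφ h0).1⟩, _, _, fun φ hφ h0 => (key φ hφ h0).2⟩

theorem est_const {j B : ℝ → V →L[ℝ] V} (h : Coef 1 (lp j) (lp fun t => -(j t).comp (B t)))
    (hB : SNd Ω0 1 B) : ∃ c : ℝ≥0, ∀ φ ∈ Dsub V,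
      nrm 1 φ univ ≤ c * nrm 0 (dop 1 (lp j) (lp fun t => -(j t).comp (B t)) φ) univ ∧
        nrm 1 φ univ ≤ c * nrm 0 (dop (-1) (adJ (lp j))
          (adS (lp j) (lp fun t => -(j t).comp (B t))) φ) univ := by
  obtain ⟨ε, hε, c, hc⟩ := lim_EndB h (e := atTop) (j' := j) (B := B)
    (fun t => tendsto_const_nhds) hB
  refine ⟨c, fun φ hφ => hc φ hφ fun p => Or.inr ⟨?_, ?_, ?_⟩⟩
  · simpa [lp] using hε.le
  · simpa [lp] using hε.le
  · rw [(hasDerivAt_ds (s := p.1) (t := p.2) (h.bj.1.differentiable (by simp) _)).unique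
      (hasDerivAt_const _ (j p.2)), norm_zero]
    exact hε.le

end

end Pool.Agent.P.MP_de3acd_gt.FH
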