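import Pool.Agent.P.MP_de3acd_gt.FH.FrOnto
import Pool.Agent.P.MP_de3acd_gt.FH.EndB
import Pool.Agent.P.MP_de3acd_gt.FH.IFT
import Pool.Agent.P.MP_de3acd_gt.FH.CbFam

/-! Regularity of weak solutions, and the dictionary between framed operators on smooth sections and on
Sobolev spaces.
Sketch of Ell.regular: take a frame (Ell.exists_frame). G (b, (ζ, μ)) = frm (Dop with coefficients translated by b) K l M (ζ, μ)
- (trW 1 b (co 1 ψ), lmap l (trW 2 b ξ)) is smooth (contDiff_Dop_tsl, sfam_tsl, SFam.contDiff, contDiff_trW_co;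
prW l (trW b ξ) = ⟪to0 ξ, trW (-b) (co l')⟫) and vanishes at (b, (trW 2 b ξ, 0)) (trW_Dop); trIFT, bdd_fn; then rep_fn,
Rep.Dop, Rep.eq_fun. onto_iff: (←) for η ∈ Sec, η' = toW 0 (-J0 η) satisfies ⟪inc (D ξ), η'⟫ + ∑ ν i prW (l i) ξ = 0 for all ξ by
density; surjectivity gives ⟪inc w, η'⟫ + ⟪ν, c⟫ = 0 for all (w, c). (→) Ell.surjective_blk; ζ is smooth by Ell.regular for the
adjoint, η = J0 (fn ζ), inner_Dop₁, Rep.inner, Rep.nrm_eq. ok_iff: a smooth L² solution lies in W 2 (nrm_two_lt_top, rep_toW);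
a kernel element in W 2 is smooth. -/

open Set Filter Topology MeasureTheory
open scoped ContDiff NNReal ENNReal RealInnerProductSpace

namespace Pool.Agent.P.MP_de3acd_gt.FH

noncomputable section

variable {V : Type} [NormedAddCommGroup V] [InnerProductSpace ℝ V] [Sym V]

theorem fd_Dict {X Y Z : Type} [NormedAddCommGroup X] [NormedSpace ℝ X] [NormedAddCommGroup Y]
    [NormedSpace ℝ Y] [NormedAddCommGroup Z] [NormedSpace ℝ Z] {G : Z × X → Y}
    (hG : ContDiff ℝ ∞ G) {a : Z} (x : X) {T : X →L[ℝ] Y} {c : Y} (h : ∀ x, G (a, x) = T x - c) :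
    (fderiv ℝ G (a, x)).comp (ContinuousLinearMap.inr ℝ Z X) = T := by
  have h1 : HasFDerivAt (fun x => G (a, x))
      ((fderiv ℝ G (a, x)).comp (ContinuousLinearMap.inr ℝ Z X)) x :=
    (hG.differentiable (by simp) (a, x)).hasFDerivAt.comp x (hasFDerivAt_prodMk_right a x)
  rw [funext h] at h1
  exact h1.unique (T.hasFDerivAt.sub_const c)

theorem lmap_Dict {β : Type} [Fintype β] {l : β → Pl → V} (hl : TF l) (ξ : W 2 V) :
    ContDiff ℝ ∞ fun b : Pl => lmap l (trW 2 b ξ) := by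
  refine contDiff_pi.2 fun i => ?_
  have e : (fun b : Pl => lmap l (trW 2 b ξ) i) =
      fun b => ⟪to0 2 ξ, trW 0 (-b) (co 0 ⟨_, J0_mem (hl i)⟩)⟫ := funext fun b => by
    rw [lmap_apply, prW_apply (hl i), to0_trW, inner_trW_left]
  rw [e]
  exact contDiff_const.inner ℝ ((contDiff_trW_co 0 _).comp contDiff_neg)

theorem Ell.regular {σ : ℝ} {j S : Pl → V →L[ℝ] V} (h : Ell σ j S) {ξ : W 2 V} {ψ : Dsub V}
    (e : Dop 1 σ j S ξ = co 1 ψ) : Bdd (fn ξ) ∧ dop σ j S (fn ξ) = ψ.1 := by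
  obtain ⟨a, b, K, l, M, -, hl, hb⟩ := h.exists_frame
  have hc := h.toCoef
  have hD : ContDiff ℝ ∞ fun a : Pl => Dop 1 σ (FH.tsl a j) (FH.tsl a S) :=
    contDiff_Dop_tsl hc (sfam_tsl hc.bj hc.pj).contDiff (sfam_tsl hc.bS hc.pS).contDiff
  obtain ⟨G, hG⟩ : ∃ G : Pl × W 2 V × (Fin a → ℝ) → W 1 V × (Fin b → ℝ), G = fun q =>
      (Dop 1 σ (FH.tsl q.1 j) (FH.tsl q.1 S) q.2.1 + kmap K q.2.2 - trW 1 q.1 (co 1 ψ),
        lmap l q.2.1 + mmap M q.2.2 - lmap l (trW 2 q.1 ξ)) := ⟨_, rfl⟩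
  have hs : ContDiff ℝ ∞ G := by
    rw [hG]
    exact ((((hD.comp contDiff_fst).clm_apply contDiff_snd.fst).add
      ((kmap K).contDiff.comp contDiff_snd.snd)).sub
        ((contDiff_trW_co 1 ψ).comp contDiff_fst)).prodMk
      ((((lmap l).contDiff.comp contDiff_snd.fst).add
        ((mmap M).contDiff.comp contDiff_snd.snd)).sub ((lmap_Dict hl ξ).comp contDiff_fst))
  have h0 : ∀ b : Pl, G (b, trW 2 b ξ, 0) = 0 := fun b => by
    rw [hG]
    refine Prod.ext ?_ ?_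
    · change Dop 1 σ (FH.tsl b j) (FH.tsl b S) (trW 2 b ξ) + kmap K 0 - trW 1 b (co 1 ψ) = 0
      rw [map_zero, add_zero, ← trW_Dop le_rfl hc, e, sub_self]
    · change lmap l (trW 2 b ξ) + mmap M 0 - lmap l (trW 2 b ξ) = 0
      rw [map_zero, add_zero, sub_self]
  have h1 : ∀ x, G (0, x) = frm (Dop 1 σ j S) K l M x -
      (trW 1 0 (co 1 ψ), lmap l (trW 2 0 ξ)) := fun x => by
    rw [hG]
    simp only [tsl_zero]
    rfl
  have hB : Bdd (fn ξ) := bdd_fn fun n =>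
    (trIFT (γ := fun b => (trW 2 b ξ, 0)) hs
      ((continuous_trW 2 ξ).prodMk continuous_const).continuousAt (Eventually.of_forall h0)
      (by rw [fd_Dict hs _ h1]; exact hb) n).fst
  refine ⟨hB, ?_⟩
  have r := (rep_fn ξ).Dop le_rfl hc hB.1 (per_fn ξ)
  rw [e] at r
  exact r.eq_fun (rep_co 1 ψ) (contDiff_dop hc hB.1).continuous (per_dop hc (per_fn ξ))
    ψ.2.1.continuous ψ.2.2.1

theorem lin_one {F : Type} [NormedAddCommGroup F] [NormedSpace ℝ F] (v : F) : lin 1 v = v := sub_zero v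

theorem sec_one_iff {ξ : Pl → V} : Sec 1 ξ ↔ ContDiff ℝ ∞ ξ ∧ Per ξ ∧ nrm 0 ξ univ < ⊤ := by
  simp only [Sec, lin_one]
  exact and_congr_right fun h => and_congr_right fun _ => (nrm_zero_lt_top_iff h.continuous).symm

theorem tst_one_iff {ξ : Pl → V} : Tst 1 ξ ↔ ξ ∈ Dsub V := 
  ⟨fun h => ⟨h.1.1, (sec_one_iff.1 h.1).2.1, h.2⟩,
    fun h => ⟨sec_one_iff.2 ⟨h.1, h.2.1, nrm_lt_top_of_mem 0 h⟩, h.2.2⟩⟩

theorem bdd_Dict {F : Type} [NormedAddCommGroup F] [NormedSpace ℝ F] {f : Pl → F}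
    (hf : ContDiff ℝ ∞ f) (hp : Per f) (h : ∀ k, ∃ C, ∀ p ∈ St, ‖iteratedFDeriv ℝ k f p‖ ≤ C) :
    Bdd f := by
  refine ⟨hf, fun k => (h k).imp fun C hC p => ?_⟩
  have e : f = fun q => f (q + (0, ((-⌊p.2⌋ : ℤ) : ℝ))) := funext fun q => by
    rw [← hp.int q.1 q.2 (-⌊p.2⌋)]
    exact congrArg f (Prod.ext (add_zero _).symm rfl)
  rw [e, iteratedFDeriv_comp_add_right]
  refine hC _ ⟨trivial, ?_⟩
  change p.2 + ((-⌊p.2⌋ : ℤ) : ℝ) ∈ Icc (0 : ℝ) 1
  rw [Int.cast_neg, ← sub_eq_add_neg]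
  exact ⟨Int.fract_nonneg _, (Int.fract_lt_one _).le⟩

theorem pair_Dict (f g : Pl → V) : pair Ω0 f g = ip 0 (fun p => -Sym.J0 (g p)) f := by
  rw [ip_comm, ip_zero, pair]
  refine integral_congr_ae (Eventually.of_forall fun p => ?_)
  simp only [Ω0, inner_neg_right, inner_J0_left]

theorem pair_J0_Dict (f g : Pl → V) : pair Ω0 f (fun p => Sym.J0 (g p)) = ip 0 g f := by
  rw [pair_Dict]
  simp only [Sym.sq, neg_neg]

theorem sec_J0_Dict {η : Pl → V} (h : Sec 1 η) : Sec 1 fun p => Sym.J0 (η p) := by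
  obtain ⟨h1, h2, h3⟩ := sec_one_iff.1 h
  exact sec_one_iff.2 ⟨Sym.J0.contDiff.comp h1, fun s t => congrArg Sym.J0 (h2 s t),
    (nrm_clm 0 Sym.J0 h1 univ).trans_lt (ENNReal.mul_lt_top ENNReal.ofReal_lt_top h3)⟩

theorem sec_fn_Dict {ξ : W 2 V} (h : Bdd (fn ξ)) : Sec 1 (fn ξ) := by
  refine sec_one_iff.2 ⟨h.1, per_fn ξ, (nrm_mono _ (Nat.zero_le 2) subset_rfl).trans_lt ?_⟩
  rw [(rep_fn ξ).nrm_eq le_rfl h.1 (per_fn ξ)]
  exact ENNReal.ofReal_lt_top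

variable {a b : ℕ} {T : Op V a b}

theorem D_Dict (T : Op V a b) (ξ : Pl → V) : T.D ξ = dop 1 T.j T.S ξ := funext fun p => by
  rw [dop, one_smul, Op.D]

theorem adm_iff : Adm Ω0 ⊥ T ↔ T.γ = 1 ∧ (∀ t, T.x (t + 1) = T.x t ∧ T.y (t + 1) = T.y t) ∧
    Coef 1 T.j T.S ∧ Ends Ω0 T.j T.S ∧ TF T.K ∧ TF T.l := by
  obtain ⟨γ, x, y, j, S, K, l, M⟩ := T
  constructor
  · rintro ⟨h1, h2, h3, h4, h5, h6, h7, h8, h9⟩
    obtain rfl : γ = 1 := Subgroup.mem_bot.1 h1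
    simp only [lin_one] at h5
    have pj : Per j := fun s t => ContinuousLinearMap.ext fun v => (h5 s t v).1
    have pS : Per S := fun s t => ContinuousLinearMap.ext fun v => (h5 s t v).2
    have hB : Bdd fun p => (j p, S p) :=
      bdd_Dict h3 (fun s t => Prod.ext (pj s t) (pS s t)) h4
    exact ⟨rfl, h2, ⟨Or.inl rfl, hB.clm (ContinuousLinearMap.fst ℝ _ _), pj,
      hB.clm (ContinuousLinearMap.snd ℝ _ _), pS, h6⟩, h7, fun i => tst_one_iff.1 (h8 i),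
      fun i => tst_one_iff.1 (h9 i)⟩
  · rintro ⟨rfl, h2, hc, h7, h8, h9⟩
    have hB := hc.bj.prod hc.bS
    refine ⟨Subgroup.mem_bot.2 rfl, h2, hB.1, fun k => (hB.2 k).imp fun C hC p _ => hC p,
      fun s t v => ?_, hc.cpt, h7, fun i => tst_one_iff.2 (h8 i), fun i => tst_one_iff.2 (h9 i)⟩
    simp only [lin_one]
    exact ⟨congrArg (· v) (hc.pj s t), congrArg (· v) (hc.pS s t)⟩

theorem Adm.ell (h : Adm Ω0 ⊥ T) : Ell 1 T.j T.S := 
  ell_of_ends (adm_iff.1 h).2.2.1 (adm_iff.1 h).2.2.2.1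

theorem Adm.onto_iff (h : Adm Ω0 ⊥ T) : Onto Ω0 T ↔ Function.Surjective (hil T) := by
  obtain ⟨hγ, -, hc, -, hK, hl⟩ := adm_iff.1 h
  have hE := Adm.ell h
  have tK : ∀ i, to0 1 (toW 1 (T.K i)) = co 0 ⟨_, hK i⟩ := fun i =>
    (congrArg (to0 1) (toW_co 1 ⟨_, hK i⟩)).trans (to0_co 1 _)
  have tD : ∀ φ : Dsub V, to0 1 (Dop 1 1 T.j T.S (co 2 φ)) = co 0 ⟨_, dop_mem hc φ.2⟩ := fun φ => by
    rw [Dop_co le_rfl hc, to0_co]
  rw [Onto, hγ]
  simp only [tst_one_iff, D_Dict]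
  constructor
  · intro H
    refine hE.surjective_blk (kmap T.K) hl (mmap T.M) fun ζ ν e1 e2 => ?_
    have tl : ∀ i, toW 1 (fun p => -Sym.J0 (T.l i p)) = co 1 ⟨_, J0_mem (hl i)⟩ := fun i =>
      toW_co 1 ⟨_, J0_mem (hl i)⟩
    have e3 : Dop 1 (-1) (adJ T.j) (adS T.j T.S) ζ =
        co 1 (-∑ i, ν i • (⟨_, J0_mem (hl i)⟩ : Dsub V)) := by
      rw [map_neg, map_sum, eq_neg_of_add_eq_zero_left e1]
      simp only [map_smul, tl]
    have hB := (hE.adj.regular e3).1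
    have r : ∀ φ : Dsub V, ip 0 (fn ζ) φ.1 = ⟪co 0 φ, to0 2 ζ⟫ := fun φ => by
      rw [real_inner_comm, rep_fn ζ φ]
    obtain ⟨k1, k2⟩ := H _ ν (sec_J0_Dict (sec_fn_Dict hB)) (fun φ hφ => by
      have e4 : ∀ i, pair Ω0 φ (T.l i) = ⟪to0 2 (co 2 ⟨φ, hφ⟩), co 0 ⟨_, J0_mem (hl i)⟩⟫ :=
        fun i => by rw [← prW_apply (hl i), (rep_co 2 ⟨φ, hφ⟩).prW (hl i)]
      rw [pair_J0_Dict, r ⟨_, dop_mem hc hφ⟩, ← tD ⟨φ, hφ⟩, inner_Dop₁ hc, e3, to0_co 1, map_neg,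
        map_sum, inner_neg_right, inner_sum]
      simp only [map_smul, real_inner_smul_right, e4, neg_add_cancel]) (fun i => by
      have e4 := e2 (Pi.single i 1)
      rw [pair_J0_Dict, r ⟨_, hK i⟩, ← tK]
      simpa [kmap_apply, mmap_apply, Pi.single_apply] using e4)
    refine ⟨((rep_fn ζ).eq_zero (continuous_fn ζ) (per_fn ζ)).2 (funext fun p => ?_), k2⟩
    have e4 := congrArg norm (congrFun k1 p)
    rw [norm_J0] at e4
    exact norm_eq_zero.1 (e4.trans norm_zero)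
  · intro H η ν hη e1 e2
    obtain ⟨s1, s2, s3⟩ := sec_one_iff.1 (sec_J0_Dict hη)
    have s4 : Per (-fun p => Sym.J0 (η p)) := fun s t => congrArg Neg.neg (s2 s t)
    have r0 := rep_toW (Nat.zero_le 2) s1.neg s4 (by
      change nrm 0 (-fun p => Sym.J0 (η p)) univ < ⊤
      rwa [nrm_neg])
    generalize toW 0 (fun p => -Sym.J0 (η p)) = η' at r0
    have r : ∀ φ : Dsub V, ⟪co 0 φ, η'⟫ = pair Ω0 φ.1 η := fun φ => by
      rw [real_inner_comm, pair_Dict]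
      exact r0 φ
    have k1 : ∀ ξ, ⟪to0 1 (Dop 1 1 T.j T.S ξ), η'⟫ + ∑ i, ν i * prW (T.l i) ξ = 0 := by
      refine W.induction (isClosed_eq (by fun_prop) continuous_const) fun φ => ?_
      rw [tD, r, ← e1 φ.1 φ.2]
      simp only [fun i => (rep_co 2 φ).prW (hl i)]
    have k2 : ∀ (w : W 1 V) (c : Fin b → ℝ), ⟪to0 1 w, η'⟫ + ∑ i, ν i * c i = 0 := by
      intro w c
      obtain ⟨⟨ξ, μ⟩, e⟩ := H (w, c)
      rw [hil, frm_apply, Prod.mk.injEq] at e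
      have e3 : ∑ i, μ i * (pair Ω0 (T.K i) η + ∑ i', ν i' * T.M i' i) = 0 :=
        Finset.sum_eq_zero fun i _ => by rw [e2, mul_zero]
      have e4 : ∑ i, μ i * ∑ i', ν i' * T.M i' i = ∑ i', ν i' * ∑ i, T.M i' i * μ i := by
        simp only [Finset.mul_sum]
        rw [Finset.sum_comm]
        exact Finset.sum_congr rfl fun _ _ => Finset.sum_congr rfl fun _ _ => by ring
      rw [← e.1, ← e.2, map_add, map_sum, inner_add_left, sum_inner]
      simp only [map_smul, real_inner_smul_left, tK, r, mul_add, Finset.sum_add_distrib] at e3 ⊢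
      linarith [k1 ξ]
    have k3 : η' = 0 := eq_zero_of_inner_co fun φ => by
      have := k2 (co 1 φ) 0
      rw [to0_co, real_inner_comm] at this
      simpa [to0_zero] using this
    refine ⟨funext fun p => ?_, funext fun i => ?_⟩
    · have e4 := congrArg norm
        (congrFun ((r0.eq_zero s1.neg.continuous s4).1 k3) p)
      rw [norm_neg, norm_J0] at e4
      exact norm_eq_zero.1 (e4.trans norm_zero)
    · simpa [Pi.single_apply] using k2 0 (Pi.single i 1)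

theorem Adm.ok_iff (h : Adm Ω0 ⊥ T) : Ok Ω0 ⊥ T ↔ Function.Bijective (hil T) := by
  obtain ⟨hγ, -, hc, -, hK, hl⟩ := adm_iff.1 h
  have hE := Adm.ell h
  rw [Ok, Adm.onto_iff h, hγ, Function.Bijective, and_iff_right h, and_comm,
    injective_iff_map_eq_zero]
  refine and_congr_left fun _ => ⟨fun H => ?_, fun H ξ μ hξ e1 e2 => ?_⟩
  · rintro ⟨ξ, μ⟩ e
    rw [hil, frm_apply, Prod.mk_eq_zero] at e
    have e1 : Dop 1 1 T.j T.S ξ = co 1 (-⟨_, sum_mem hK μ⟩) := by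
      rw [map_neg, eq_neg_of_add_eq_zero_left e.1, ← kmap_apply,
        (rep_kmap hK μ).unique (rep_co 1 ⟨_, sum_mem hK μ⟩)]
    obtain ⟨hB, e2⟩ := hE.regular e1
    obtain ⟨k1, k2⟩ := H (fn ξ) μ (sec_fn_Dict hB) (fun p => by
      rw [D_Dict, e2]
      exact neg_add_cancel _) fun i => by
      rw [← (rep_fn ξ).prW (hl i)]
      exact congrFun e.2 i
    exact Prod.ext (((rep_fn ξ).eq_zero (continuous_fn ξ) (per_fn ξ)).2 k1) k2
  · obtain ⟨s1, s2, s3⟩ := sec_one_iff.1 hξ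
    have e3 : dop 1 T.j T.S ξ = -fun p => ∑ i, μ i • T.K i p := funext fun p => by
      rw [← D_Dict]
      exact eq_neg_of_add_eq_zero_left (e1 p)
    have r := rep_toW le_rfl s1 s2 (nrm_two_lt_top hc s1 s2 s3 (by
      rw [e3, nrm_neg]
      exact nrm_lt_top_of_mem 1 (sum_mem hK μ)))
    have r1 := r.Dop le_rfl hc s1 s2
    rw [e3] at r1
    have e4 := H (toW 2 ξ, μ) (by
      rw [hil, frm_apply, Prod.mk_eq_zero, ← kmap_apply]
      refine ⟨?_, funext fun i => ?_⟩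
      · rw [r1.unique (rep_kmap hK μ).neg, neg_add_cancel]
      · exact (congrArg (· + _) (r.prW (hl i))).trans (e2 i))
    exact ⟨(r.eq_zero s1.continuous s2).1 (congrArg Prod.fst e4), congrArg Prod.snd e4⟩

end

end Pool.Agent.P.MP_de3acd_gt.FH
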