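import Pool.Agent.P.MP_de3acd_gt.FH.Cpt
import Pool.Agent.P.MP_de3acd_gt.FH.RepEx

/-! Algebra of the operators Dop.
Sketch: unfold Dop; Rep.dS, Rep.dT, Rep.mul, fn_toCb. Identities: check on test functions with Dop_co and Subtype.ext,
extend by W.induction / W.ext_co; or use the lemmas of Mul (inc_mul, dS_mul, trW_mul, sc_mul, inner_mul).
norm_sc_Dop_sub_le: sc χ (mul c ξ) = mul (χ • c) ξ, and Cn k (χ • (j - j')) univ (2^k a ε) (Cn.bil on I; outside the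
closed set I the function vanishes near every point, Cn.congr, Cn.union). -/

open Set Filter Topology MeasureTheory
open scoped ContDiff NNReal ENNReal RealInnerProductSpace

namespace Pool.Agent.P.MP_de3acd_gt.FH

noncomputable section

variable {V : Type} [NormedAddCommGroup V] [InnerProductSpace ℝ V] [Sym V]

variable {σ : ℝ} {j S j' S' : Pl → V →L[ℝ] V}

theorem Dop_apply (k : ℕ) (σ : ℝ) (j S : Pl → V →L[ℝ] V) (ξ : W (k + 1) V) : Dop k σ j S ξ =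
    σ • dS k ξ + mul k (ContinuousLinearMap.id ℝ (V →L[ℝ] V)) (toCb j) (dT k ξ) +
      mul k (ContinuousLinearMap.id ℝ (V →L[ℝ] V)) (toCb S) (inc k ξ) := rfl

theorem Dop_co {k : ℕ} (hk : k ≤ 1) (h : Coef σ j S) (φ : Dsub V) :
    Dop k σ j S (co (k + 1) φ) = co k ⟨dop σ j S φ.1, dop_mem h φ.2⟩ := by
  have hk' : k ≤ 2 := by omega
  rw [Dop_apply, dS_co, dT_co, inc_co, mul_co hk', mul_co hk', ← map_smul, ← map_add, ← map_add]
  refine congrArg (co k) (Subtype.ext (funext fun p => ?_))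
  change σ • ds φ.1 p + Cb.fn (toCb j) p (dt φ.1 p) + Cb.fn (toCb S) p (φ.1 p) = _
  rw [fn_toCb h.bj h.pj, fn_toCb h.bS h.pS]
  rfl

theorem Rep.Dop {k : ℕ} (hk : k ≤ 1) (h : Coef σ j S) {ξ : W (k + 1) V} {f : Pl → V}
    (e : Rep (k + 1) ξ f) (hf : ContDiff ℝ ∞ f) (hp : Per f) :
    Rep k (Dop k σ j S ξ) (dop σ j S f) := by
  have hk' : k ≤ 2 := by omega
  have c1 : Continuous (σ • ds f) := (contDiff_ds hf).continuous.const_smul σ
  have c2 : Continuous fun p => j p (dt f p) :=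
    h.bj.1.continuous.clm_apply (contDiff_dt hf).continuous
  have c3 : Continuous fun p => S p (f p) := h.bS.1.continuous.clm_apply hf.continuous
  have h2 := (e.dT hf hp).mul hk' (ContinuousLinearMap.id ℝ (V →L[ℝ] V)) (toCb j)
  have h3 := (rep_inc.2 e).mul hk' (ContinuousLinearMap.id ℝ (V →L[ℝ] V)) (toCb S)
  rw [fn_toCb h.bj h.pj] at h2
  rw [fn_toCb h.bS h.pS] at h3
  exact (((e.dS hf).smul σ).add h2 c1 c2).add h3 (c1.add c2) c3

theorem inc_Dop (σ : ℝ) (j S : Pl → V →L[ℝ] V) (ξ : W 2 V) :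
    inc 0 (Dop 1 σ j S ξ) = Dop 0 σ j S (inc 1 ξ) := by
  rw [Dop_apply, Dop_apply, map_add, map_add, map_smul, inc_dS, inc_mul zero_le_one,
    inc_mul zero_le_one, inc_dT]

theorem trW_Dop {k : ℕ} (hk : k ≤ 1) (h : Coef σ j S) (a : Pl) (ξ : W (k + 1) V) :
    trW k a (Dop k σ j S ξ) = Dop k σ (tsl a j) (tsl a S) (trW (k + 1) a ξ) := by
  have hk' : k ≤ 2 := by omega
  rw [Dop_apply, Dop_apply, map_add, map_add, map_smul, trW_mul hk', trW_mul hk',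
    fn_toCb h.bj h.pj, fn_toCb h.bS h.pS, dS_trW, dT_trW, inc_trW]

theorem norm_mul_DopA {k : ℕ} (hk : k ≤ 2) {c : Pl → V →L[ℝ] V} (hb : Bdd c) (hp : Per c) {a : ℝ}
    (h : Cn k c univ a) (ξ : W k V) :
    ‖mul k (ContinuousLinearMap.id ℝ (V →L[ℝ] V)) (toCb c) ξ‖ ≤ 9 * a * ‖ξ‖ := by
  have h0 := nonneg_Mul h
  refine (norm_mul_le hk _ (toCb c) (by rwa [fn_toCb hb hp]) ξ).trans ?_
  have := ContinuousLinearMap.norm_id_le (𝕜 := ℝ) (E := V →L[ℝ] V)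
  calc _ ≤ 9 * 1 * a * ‖ξ‖ := by gcongr
    _ = _ := by rw [mul_one]

theorem per_sub_DopA {F : Type} [NormedAddCommGroup F] {f g : Pl → F} (hf : Per f) (hg : Per g) :
    Per (f - g) := fun s t => by simp only [Pi.sub_apply, hf s t, hg s t]

theorem Dop_sub_DopA (k : ℕ) (h : Coef σ j S) (h' : Coef σ j' S') (ξ : W (k + 1) V) :
    Dop k σ j S ξ - Dop k σ j' S' ξ =
      mul k (ContinuousLinearMap.id ℝ (V →L[ℝ] V)) (toCb (j - j')) (dT k ξ) +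
        mul k (ContinuousLinearMap.id ℝ (V →L[ℝ] V)) (toCb (S - S')) (inc k ξ) := by
  rw [Dop_apply, Dop_apply, toCb_sub h.bj h.pj h'.bj h'.pj, toCb_sub h.bS h.pS h'.bS h'.pS,
    map_sub, map_sub, sub_apply, sub_apply]
  abel

theorem norm_Dop_sub_le {k : ℕ} (hk : k ≤ 1) (h : Coef σ j S) (h' : Coef σ j' S') {ε : ℝ}
    (e : Cn k (j - j') univ ε) (e' : Cn k (S - S') univ ε) :
    ‖Dop k σ j S - Dop k σ j' S'‖ ≤ 18 * ε := by
  have hk' : k ≤ 2 := by omega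
  have h0 := nonneg_Mul e
  refine ContinuousLinearMap.opNorm_le_bound _ (by positivity) fun ξ => ?_
  rw [sub_apply, Dop_sub_DopA k h h']
  refine (norm_add_le_of_le (norm_mul_DopA hk' (h.bj.sub h'.bj) (per_sub_DopA h.pj h'.pj) e _)
    (norm_mul_DopA hk' (h.bS.sub h'.bS) (per_sub_DopA h.pS h'.pS) e' _)).trans ?_
  have := norm_dT_le k ξ
  have := norm_inc_le k ξ
  calc _ ≤ 9 * ε * ‖ξ‖ + 9 * ε * ‖ξ‖ := by gcongr
    _ = _ := by ring

theorem cn_tsl_sub_DopA {F : Type} [NormedAddCommGroup F] [NormedSpace ℝ F] (k : ℕ) {f : Pl → F}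
    (hf : Bdd f) : ∃ A, ∀ a : Pl, Cn k (tsl a f - f) univ (A * ‖a‖) := by
  have h0 : ∀ {f : Pl → F}, Bdd f → ∃ A, ∀ a : Pl, Cn 0 (tsl a f - f) univ (A * ‖a‖) := by
    intro f hf
    obtain ⟨A, hA⟩ := hf.fderiv.bound
    refine ⟨A, fun a p _ => ?_⟩
    have := convex_univ.norm_image_sub_le_of_norm_fderiv_le (𝕜 := ℝ) (f := f) (C := A)
      (fun x _ => hf.1.differentiable (by simp) x) (fun x _ => hA x) (mem_univ p) (mem_univ (p + a))
    rwa [add_sub_cancel_left] at this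
  have hd : ∀ {f : Pl → F}, Bdd f → ∀ a p : Pl,
      fderiv ℝ (tsl a f - f) p = fderiv ℝ (tsl a f) p - fderiv ℝ f p := fun hf a p =>
    fderiv_sub ((contDiff_tsl hf.1 a).differentiable (by simp) p) (hf.1.differentiable (by simp) p)
  induction k generalizing f with
  | zero => exact h0 hf
  | succ k ih =>
    obtain ⟨A, hA⟩ := h0 hf
    obtain ⟨B, hB⟩ := ih hf.ds
    obtain ⟨C, hC⟩ := ih hf.dt
    refine ⟨max A (max B C), fun a => ?_⟩
    have e1 : ds (tsl a f - f) = tsl a (ds f) - ds f := by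
      rw [← ds_tsl]
      exact funext fun p => congrArg (fun T : Pl →L[ℝ] F => T (1, 0)) (hd hf a p)
    have e2 : dt (tsl a f - f) = tsl a (dt f) - dt f := by
      rw [← dt_tsl]
      exact funext fun p => congrArg (fun T : Pl →L[ℝ] F => T (0, 1)) (hd hf a p)
    rw [cn_succ, e1, e2]
    refine ⟨(hA a).mono le_rfl Subset.rfl ?_, (hB a).mono le_rfl Subset.rfl ?_,
      (hC a).mono le_rfl Subset.rfl ?_⟩ <;> refine mul_le_mul_of_nonneg_right ?_ (norm_nonneg a)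
    · exact le_max_left _ _
    · exact le_max_of_le_right (le_max_left _ _)
    · exact le_max_of_le_right (le_max_right _ _)

theorem norm_Dop_tsl_sub_le {k : ℕ} (hk : k ≤ 1) (h : Coef σ j S) :
    ∃ A, ∀ a : Pl, ‖Dop k σ (tsl a j) (tsl a S) - Dop k σ j S‖ ≤ A * ‖a‖ := by
  obtain ⟨A, hA⟩ := cn_tsl_sub_DopA k h.bj
  obtain ⟨B, hB⟩ := cn_tsl_sub_DopA k h.bS
  refine ⟨18 * max A B, fun a => ?_⟩
  rw [mul_assoc]
  exact norm_Dop_sub_le hk (h.tsl a) h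
    ((hA a).mono le_rfl Subset.rfl (mul_le_mul_of_nonneg_right (le_max_left _ _) (norm_nonneg a)))
    ((hB a).mono le_rfl Subset.rfl (mul_le_mul_of_nonneg_right (le_max_right _ _) (norm_nonneg a)))

theorem dS_Dop_le (h : Coef σ j S) : ∃ A, ∀ ξ : W 2 V,
    ‖dS 0 (Dop 1 σ j S ξ) - Dop 0 σ j S (dS 1 ξ)‖ ≤ A * ‖inc 1 ξ‖ ∧
      ‖dT 0 (Dop 1 σ j S ξ) - Dop 0 σ j S (dT 1 ξ)‖ ≤ A * ‖inc 1 ξ‖ := by
  obtain ⟨A, hA0, hA⟩ := h.bj.cn 1
  obtain ⟨B, hB0, hB⟩ := h.bS.cn 1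
  refine ⟨9 * A + 9 * B, fun ξ => ?_⟩
  have n1 := norm_dT_le 0 (inc 1 ξ)
  have n2 := norm_inc_le 0 (inc 1 ξ)
  constructor
  · have e : dS 0 (Dop 1 σ j S ξ) - Dop 0 σ j S (dS 1 ξ) =
        mul 0 (ContinuousLinearMap.id ℝ (V →L[ℝ] V)) (toCb (ds j)) (dT 0 (inc 1 ξ)) +
          mul 0 (ContinuousLinearMap.id ℝ (V →L[ℝ] V)) (toCb (ds S)) (inc 0 (inc 1 ξ)) := by
      rw [Dop_apply, Dop_apply, map_add, map_add, map_smul, dS_mul zero_le_one, dS_mul zero_le_one,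
        fn_toCb h.bj h.pj, fn_toCb h.bS h.pS, inc_dT, inc_dS, dS_dT]
      abel
    rw [e]
    refine (norm_add_le_of_le (norm_mul_DopA zero_le_two h.bj.ds h.pj.ds hA.2.1 _)
      (norm_mul_DopA zero_le_two h.bS.ds h.pS.ds hB.2.1 _)).trans ?_
    rw [add_mul]
    gcongr
  · have e : dT 0 (Dop 1 σ j S ξ) - Dop 0 σ j S (dT 1 ξ) =
        mul 0 (ContinuousLinearMap.id ℝ (V →L[ℝ] V)) (toCb (dt j)) (dT 0 (inc 1 ξ)) +
          mul 0 (ContinuousLinearMap.id ℝ (V →L[ℝ] V)) (toCb (dt S)) (inc 0 (inc 1 ξ)) := by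
      rw [Dop_apply, Dop_apply, map_add, map_add, map_smul, dT_mul zero_le_one, dT_mul zero_le_one,
        fn_toCb h.bj h.pj, fn_toCb h.bS h.pS, inc_dT, dS_dT]
      abel
    rw [e]
    refine (norm_add_le_of_le (norm_mul_DopA zero_le_two h.bj.dt h.pj.dt hA.2.2 _)
      (norm_mul_DopA zero_le_two h.bS.dt h.pS.dt hB.2.2 _)).trans ?_
    rw [add_mul]
    gcongr

theorem Dop_sc {k : ℕ} (hk : k ≤ 1) (σ : ℝ) (j S : Pl → V →L[ℝ] V) {χ : Pl → ℝ} (hχ : Bdd χ)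
    (hp : Per χ) (ht : dt χ = 0) (ξ : W (k + 1) V) : Dop k σ j S (sc (k + 1) χ ξ) =
      sc k χ (Dop k σ j S ξ) + σ • sc k (ds χ) (inc k ξ) := by
  have hk' : k ≤ 2 := by omega
  have e1 : dS k (sc (k + 1) χ ξ) = sc k (ds χ) (inc k ξ) + sc k χ (dS k ξ) := by
    rw [sc, dS_mul hk, fn_toCb hχ hp]
    rfl
  have e2 : dT k (sc (k + 1) χ ξ) = sc k χ (dT k ξ) := by
    rw [sc, dT_mul hk, fn_toCb hχ hp, ht]
    exact (congrArg (· + _) (sc_zero (inc k ξ))).trans (zero_add _)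
  have e3 : inc k (sc (k + 1) χ ξ) = sc k χ (inc k ξ) := inc_mul hk _ _ ξ
  rw [Dop_apply, Dop_apply, e1, e2, e3, map_add (sc k χ), map_add (sc k χ), map_smul,
    sc_mul hk' hχ hp, sc_mul hk' hχ hp, smul_add]
  abel

theorem norm_sc_mul_DopA {k : ℕ} (hk : k ≤ 1) {c : Pl → V →L[ℝ] V} (hb : Bdd c) (hc : Per c)
    {χ : Pl → ℝ} (hχ : Bdd χ) (hp : Per χ) {a ε : ℝ} (ha : Cn k χ univ a) {I : Set ℝ}
    (hI : IsClosed I) (h0 : ∀ p : Pl, p.1 ∉ I → χ p = 0) (hε : 0 ≤ ε) (e : Cn k c I ε)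
    (ξ : W k V) :
    ‖sc k χ (mul k (ContinuousLinearMap.id ℝ (V →L[ℝ] V)) (toCb c) ξ)‖ ≤ 18 * a * ε * ‖ξ‖ := by
  have hk' : k ≤ 2 := by omega
  have ha0 := nonneg_Mul ha
  have b1 := hχ.bil hb (ContinuousLinearMap.lsmul ℝ ℝ)
  have p1 : Per fun p => ContinuousLinearMap.lsmul ℝ ℝ (χ p) (c p) := fun s t => by
    simp only [hp s t, hc s t]
  have c1 : Cn k (fun p => ContinuousLinearMap.lsmul ℝ ℝ (χ p) (c p)) I (2 * a * ε) := by
    refine (Cn.bil (ContinuousLinearMap.lsmul ℝ ℝ) hχ.1 hb.1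
      (ha.mono le_rfl (subset_univ I) le_rfl) e).mono le_rfl Subset.rfl ?_
    have h1 : (2 : ℝ) ^ k ≤ 2 ^ 1 := pow_le_pow_right₀ one_le_two hk
    have h2 := ContinuousLinearMap.opNorm_lsmul_le (𝕜 := ℝ) (R := ℝ) (E := V →L[ℝ] V)
    calc _ ≤ 2 ^ 1 * 1 * a * ε := by gcongr
      _ = _ := by ring
  have c2 : Cn k (fun p => ContinuousLinearMap.lsmul ℝ ℝ (χ p) (c p)) Iᶜ (2 * a * ε) := by
    refine ((cn_const k (0 : V →L[ℝ] V) Iᶜ).congr fun p hp => ?_).mono le_rfl Subset.rfl ?_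
    · filter_upwards [(hI.isOpen_compl.preimage continuous_fst).mem_nhds hp] with q hq
      rw [h0 q hq, map_zero, zero_apply]
    · rw [norm_zero]
      positivity
  have c3 := c1.union c2
  rw [union_compl_self] at c3
  rw [sc, mul_mul hk' (B'' := ContinuousLinearMap.id ℝ (V →L[ℝ] V))
    (c'' := toCb fun p => ContinuousLinearMap.lsmul ℝ ℝ (χ p) (c p)) fun p v => by
      rw [fn_toCb hχ hp, fn_toCb hb hc, fn_toCb b1 p1]
      rfl]
  exact (norm_mul_DopA hk' b1 p1 c3 ξ).trans_eq (by ring)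

theorem norm_sc_Dop_sub_le {k : ℕ} (hk : k ≤ 1) (h : Coef σ j S) (h' : Coef σ j' S') {χ : Pl → ℝ}
    (hχ : Bdd χ) (hp : Per χ) {a ε : ℝ} (ha : Cn k χ univ a) {I : Set ℝ} (hI : IsClosed I)
    (h0 : ∀ p : Pl, p.1 ∉ I → χ p = 0) (hε : 0 ≤ ε) (e : Cn k (j - j') I ε)
    (e' : Cn k (S - S') I ε) (ξ : W (k + 1) V) :
    ‖sc k χ (Dop k σ j S ξ - Dop k σ j' S' ξ)‖ ≤ 36 * a * ε * ‖ξ‖ := by
  have ha0 := nonneg_Mul ha
  rw [Dop_sub_DopA k h h', map_add]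
  refine (norm_add_le_of_le
    (norm_sc_mul_DopA hk (h.bj.sub h'.bj) (per_sub_DopA h.pj h'.pj) hχ hp ha hI h0 hε e _)
    (norm_sc_mul_DopA hk (h.bS.sub h'.bS) (per_sub_DopA h.pS h'.pS) hχ hp ha hI h0 hε e' _)).trans ?_
  have := norm_dT_le k ξ
  have := norm_inc_le k ξ
  calc _ ≤ 18 * a * ε * ‖ξ‖ + 18 * a * ε * ‖ξ‖ := by gcongr
    _ = _ := by ring

theorem inner_Dop (h : Coef σ j S) (ξ η : W 1 V) :
    ⟪Dop 0 σ j S ξ, inc 0 η⟫ = ⟪inc 0 ξ, Dop 0 (-σ) (adJ j) (adS j S) η⟫ := by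
  have h' := h.adj
  have e1 := inner_mul (B := ContinuousLinearMap.id ℝ (V →L[ℝ] V))
    (B' := ContinuousLinearMap.id ℝ (V →L[ℝ] V)) (c := toCb j) (c' := -toCb (adJ j))
    (fun p u v => by
      rw [map_neg Cb.fn, fn_toCb h.bj h.pj, fn_toCb h'.bj h'.pj]
      change ⟪j p u, v⟫ = ⟪u, (- -ContinuousLinearMap.adjoint (j p)) v⟫
      rw [neg_neg, ContinuousLinearMap.adjoint_inner_right]) (dT 0 ξ) (inc 0 η)
  have e2 := inner_mul (B := ContinuousLinearMap.id ℝ (V →L[ℝ] V))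
    (B' := ContinuousLinearMap.id ℝ (V →L[ℝ] V)) (c := toCb S)
    (c' := toCb (adS j S) - toCb (dt (adJ j)))
    (fun p u v => by
      rw [map_sub Cb.fn, fn_toCb h.bS h.pS, fn_toCb h'.bS h'.pS, fn_toCb h'.bj.dt h'.pj.dt]
      have e : S p = ContinuousLinearMap.adjoint (adS j S p - dt (adJ j) p) := by
        rw [map_sub]
        exact (congrFun (adS_adS h.bj.1 S) p).symm
      change ⟪S p u, v⟫ = ⟪u, (adS j S p - dt (adJ j) p) v⟫
      rw [← ContinuousLinearMap.adjoint_inner_left, ← e]) (inc 0 ξ) (inc 0 η)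
  rw [map_neg, neg_apply, inner_neg_right, ← inc_mul zero_le_one, inner_dT,
    dT_mul zero_le_one, fn_toCb h'.bj h'.pj, neg_neg, inner_add_right] at e1
  rw [map_sub, sub_apply, inner_sub_right] at e2
  rw [Dop_apply, Dop_apply, inner_add_left, inner_add_left, e1, e2, inner_add_right,
    inner_add_right, real_inner_smul_left, real_inner_smul_right, inner_dS]
  ring

theorem inner_Dop₁ (h : Coef σ j S) (ξ η : W 2 V) :
    ⟪to0 1 (Dop 1 σ j S ξ), to0 2 η⟫ = ⟪to0 2 ξ, to0 1 (Dop 1 (-σ) (adJ j) (adS j S) η)⟫ := by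
  change ⟪inc 0 (Dop 1 σ j S ξ), inc 0 (inc 1 η)⟫ =
    ⟪inc 0 (inc 1 ξ), inc 0 (Dop 1 (-σ) (adJ j) (adS j S) η)⟫
  rw [inc_Dop, inc_Dop, inner_Dop h]

theorem contDiff_Dop_tsl {k : ℕ} (h : Coef σ j S) (hc : ContDiff ℝ ∞ fun a : Pl => toCb (tsl a j))
    (hc' : ContDiff ℝ ∞ fun a : Pl => toCb (tsl a S)) :
    ContDiff ℝ ∞ fun a : Pl => Dop k σ (tsl a j) (tsl a S) :=
  (contDiff_const.add (((mul k _).contDiff.comp hc).clm_comp contDiff_const)).add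
    (((mul k _).contDiff.comp hc').clm_comp contDiff_const)

end

end Pool.Agent.P.MP_de3acd_gt.FH
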