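import Pool.Agent.P.MP_de3acd_gt.FH.FrG
import Pool.Agent.P.MP_de3acd_gt.GenL

/-! Reparametrisation with small cost in the integral norm.
Sketch: exists_repar: ρ s = ∫ of a smooth bump that is a constant on [κ', 1 - κ - κ'], normalised; or ρ = the primitive of plat-like function b / ∫ b. With M a bound for |K|:
|ρ' G (ρ t) - K| ≤ ρ' P (ρ t) + M |ρ' - 1| (ρ maps Icc 0 1 to itself), ∫ ρ' P (ρ) = ∫ P (integral_comp_mul_deriv). l1_shear: G' s = ρ' s * G (ρ s) + ρ₂' s * F with ρ₂ s = smoothTransition ((s - (1 - κ)) / κ); the flow is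
Φ (ρ s) z + ρ₂ s • X (Φ (ρ s) z) (compare exists_cl_shear in GenL: for s ≤ 1 - κ the second term vanishes, afterwards Φ (ρ s) z = φ z is constant; Shear.line, Shear.vf). l1_per: G' t = ρ' (fract t) * G (ρ (fract t)); near t₀ it agrees with the smooth
function t ↦ ρ' (t - k) * G (ρ (t - k)) + ρ' (t - k + 1) * G (ρ (t - k + 1)), k = ⌊t₀⌋, because ρ' vanishes outside Ioo κ' (1 - κ'); eq_ham. -/

open Set Filter Topology MeasureTheory
open scoped ContDiff NNReal ENNReal RealInnerProductSpace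

namespace Pool.Agent.P.MP_de3acd_gt.FH

noncomputable section

variable {Γ : Subgroup (Equiv.Perm E)} {B : ℝ → E →L[ℝ] E} {J : ℝ → E → E →L[ℝ] E}
  {H G K K' : ℝ → E → ℝ} {Y Y' Z : ℝ → E → E} {γ g : Equiv.Perm E} {x y w : ℝ → E} {u : Pl → E}

variable {φ : E → E} {F K₀ : E → ℝ} {X : E → E} {ε ε' η M : ℝ}

theorem bump_DynA {a : ℝ} (ha : 0 < a) (ha' : a ≤ 1 / 8) : ∃ b : ℝ → ℝ, ContDiff ℝ ∞ b ∧
    (∀ s, 0 ≤ b s) ∧ (∀ s, b s ≤ 1) ∧ (∀ s ≤ a, b s = 0) ∧ (∀ s ≥ 1 - a, b s = 0) ∧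
      1 - 4 * a ≤ ∫ s in (0 : ℝ)..1, b s := by
  have h1 : ContDiff ℝ ∞ fun s : ℝ =>
      Real.smoothTransition ((s - a) / a) * Real.smoothTransition ((1 - a - s) / a) :=
    (Real.smoothTransition.contDiff.comp ((contDiff_id.sub contDiff_const).div_const a)).mul
      (Real.smoothTransition.contDiff.comp ((contDiff_const.sub contDiff_id).div_const a))
  have h2 : ∀ s : ℝ, 0 ≤ Real.smoothTransition ((s - a) / a) *
      Real.smoothTransition ((1 - a - s) / a) := fun s =>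
    mul_nonneg (Real.smoothTransition.nonneg _) (Real.smoothTransition.nonneg _)
  refine ⟨_, h1, h2, fun s => mul_le_one₀ (Real.smoothTransition.le_one _)
    (Real.smoothTransition.nonneg _) (Real.smoothTransition.le_one _), fun s hs => ?_,
    fun s hs => ?_, ?_⟩
  · rw [Real.smoothTransition.zero_of_nonpos (div_nonpos_of_nonpos_of_nonneg (by linarith) ha.le),
      zero_mul]
  · rw [Real.smoothTransition.zero_of_nonpos (x := (1 - a - s) / a)
      (div_nonpos_of_nonpos_of_nonneg (by linarith) ha.le), mul_zero]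
  · refine le_trans (le_of_eq ?_) (intervalIntegral.integral_mono_interval (a := 2 * a)
      (b := 1 - 2 * a) (by linarith) (by linarith) (by linarith) (Eventually.of_forall h2)
      (h1.continuous.intervalIntegrable _ _))
    rw [intervalIntegral.integral_congr (g := fun _ => (1 : ℝ)) fun s hs => ?_]
    · simp only [intervalIntegral.integral_const, smul_eq_mul]
      ring
    · rw [uIcc_of_le (by linarith)] at hs
      simp only
      rw [Real.smoothTransition.one_of_one_le ((one_le_div ha).2 (by linarith [hs.1])),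
        Real.smoothTransition.one_of_one_le ((one_le_div ha).2 (by linarith [hs.2])), mul_one]

theorem exists_repar {κ : ℝ} (hκ : 0 < κ) : ∃ (ρ : ℝ → ℝ) (a : ℝ), 0 < a ∧ a < 1 / 2 ∧
    ContDiff ℝ ∞ ρ ∧ Monotone ρ ∧ (∀ s ≤ a, ρ s = 0) ∧ (∀ s ≥ 1 - a, ρ s = 1) ∧
      ∫ s in (0 : ℝ)..1, |deriv ρ s - 1| ≤ κ := by
  obtain ⟨a, ha, ha', hκ'⟩ : ∃ a : ℝ, 0 < a ∧ a ≤ 1 / 8 ∧ a ≤ κ / 8 :=
    ⟨min (1 / 8) (κ / 8), by positivity, min_le_left _ _, min_le_right _ _⟩
  obtain ⟨b, hb, b0, b1, bl, br, hc⟩ := bump_DynA ha ha'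
  have hi : ∀ x y, IntervalIntegrable b volume x y := hb.continuous.intervalIntegrable
  obtain ⟨c, hce⟩ : ∃ c, c = ∫ s in (0 : ℝ)..1, b s := ⟨_, rfl⟩
  rw [← hce] at hc
  have c0 : 0 < c := by linarith
  have c1 : c ≤ 1 := by
    have := intervalIntegral.integral_mono_on zero_le_one (hi 0 1)
      (continuous_const.intervalIntegrable _ _) fun s _ => b1 s
    simpa [← hce] using this
  have hd : ∀ s, HasDerivAt (fun s => (∫ x in (0 : ℝ)..s, b x) / c) (b s / c) s := fun s =>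
    (hb.continuous.integral_hasStrictDerivAt 0 s).hasDerivAt.div_const c
  have hd' : (deriv fun s => (∫ x in (0 : ℝ)..s, b x) / c) = fun s => b s / c :=
    funext fun s => (hd s).deriv
  refine ⟨fun s => (∫ x in (0 : ℝ)..s, b x) / c, a, ha, by linarith,
    contDiff_infty_iff_deriv.2 ⟨fun s => (hd s).differentiableAt, hd' ▸ hb.div_const c⟩,
    monotone_of_deriv_nonneg (fun s => (hd s).differentiableAt) fun s => ?_, fun s hs => ?_,
    fun s hs => ?_, ?_⟩
  · rw [hd']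
    exact div_nonneg (b0 s) c0.le
  · simp only
    rw [intervalIntegral.integral_congr (g := fun _ => (0 : ℝ)) fun x hx =>
      bl x (hx.2.trans (max_le ha.le hs))]
    simp
  · simp only
    rw [← intervalIntegral.integral_add_adjacent_intervals (hi 0 1) (hi 1 s), ← hce,
      intervalIntegral.integral_congr (g := fun _ => (0 : ℝ)) fun x hx =>
        br x (le_trans (le_min (by linarith) hs) hx.1)]
    simp [c0.ne']
  · rw [hd']
    have h1 : 0 ≤ 1 / c - 1 := sub_nonneg.2 ((one_le_div c0).2 c1)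
    have h2 := intervalIntegral.integral_mono_on (μ := volume) zero_le_one
      (f := fun s => |b s / c - 1|) (g := fun s => 1 + (1 / c - 2) * b s)
      (Continuous.intervalIntegrable (by have := hb.continuous; fun_prop) _ _)
      (Continuous.intervalIntegrable (by have := hb.continuous; fun_prop) _ _) fun s _ => by
        have h3 := mul_nonneg h1 (b0 s)
        have h4 := b1 s
        have h5 : b s / c = 1 / c * b s := by ring
        rw [abs_le, h5]
        constructor <;> nlinarith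
    refine h2.trans ?_
    rw [intervalIntegral.integral_add (continuous_const.intervalIntegrable _ _)
      ((hi 0 1).const_mul _), intervalIntegral.integral_const_mul, ← hce, sub_mul,
      one_div_mul_cancel c0.ne']
    simp only [intervalIntegral.integral_const, smul_eq_mul]
    linarith

theorem L1.mono {d d' : ℝ} (h : L1 H G d) (e : d ≤ d') : L1 H G d' := by
  obtain ⟨P, h1, h2, h3⟩ := h
  exact ⟨P, h1, h2, h3.trans e⟩

theorem l1_of_le {d : ℝ} (h : ∀ t z, |G t z - H t z| ≤ d) : L1 H G d :=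
  ⟨fun _ => d, continuous_const, fun t _ z => h t z, by simp⟩

theorem add_DynA {H' G' : ℝ → E → ℝ} {d δ : ℝ} (h : L1 H G d) {Q : ℝ → ℝ} (hQ : Continuous Q)
    (hQ' : ∫ t in (0 : ℝ)..1, Q t ≤ δ)
    (e : ∀ t ∈ Icc (0 : ℝ) 1, ∀ z, |G' t z - H' t z - (G t z - H t z)| ≤ Q t) :
    L1 H' G' (d + δ) := by
  obtain ⟨P, h1, h2, h3⟩ := h
  refine ⟨fun t => P t + Q t, h1.add hQ, fun t ht z => ?_, ?_⟩
  · have h4 := abs_le.1 (h2 t ht z)
    have h5 := abs_le.1 (e t ht z)
    rw [abs_le]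
    constructor <;> linarith [h4.1, h4.2, h5.1, h5.2]
  · rw [intervalIntegral.integral_add (h1.intervalIntegrable _ _) (hQ.intervalIntegrable _ _)]
    exact add_le_add h3 hQ'

theorem L1.trans_le {H' : ℝ → E → ℝ} {d δ : ℝ} (h : L1 H G d) (e : ∀ t z, |H' t z - H t z| ≤ δ) :
    L1 H' G (d + δ) :=
  add_DynA h (Q := fun _ => δ) continuous_const (by simp) fun t _ z => by
    have := e t z
    rw [abs_sub_comm] at this
    convert this using 2
    ring

theorem rep_DynA (h : L1 (fun _ => K₀) G ε) (hM : ∀ z, |K₀ z| ≤ M) (hη : 0 < η) :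
    ∃ (ρ : ℝ → ℝ) (a : ℝ), 0 < a ∧ a < 1 / 2 ∧ ContDiff ℝ ∞ ρ ∧ (∀ s ≤ a, ρ s = 0) ∧
      (∀ s ≥ 1 - a, ρ s = 1) ∧ L1 (fun _ => K₀) (fun s z => deriv ρ s * G (ρ s) z) (ε + η) := by
  have M0 : 0 ≤ M := (abs_nonneg _).trans (hM 0)
  obtain ⟨ρ, a, ha, ha', hρ, hm, h0, h1, hκ⟩ := exists_repar (κ := η / (M + 1)) (by positivity)
  obtain ⟨P, hP, hP', hI⟩ := h
  have hc : Continuous (deriv ρ) := hρ.continuous_deriv (by simp)
  have hc' := hρ.continuous
  have e0 : ρ 0 = 0 := h0 0 ha.le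
  have e1 : ρ 1 = 1 := h1 1 (by linarith)
  refine ⟨ρ, a, ha, ha', hρ, h0, h1, fun s => (P ∘ ρ) s * deriv ρ s + M * |deriv ρ s - 1|,
    by fun_prop, fun t ht z => ?_, ?_⟩
  · have h2 : 0 ≤ deriv ρ t := hm.deriv_nonneg
    have h3 := hP' (ρ t) ⟨e0 ▸ hm ht.1, e1 ▸ hm ht.2⟩ z
    calc |deriv ρ t * G (ρ t) z - K₀ z|
        = |(G (ρ t) z - K₀ z) * deriv ρ t + K₀ z * (deriv ρ t - 1)| := by
          congr 1
          ring
      _ ≤ |G (ρ t) z - K₀ z| * deriv ρ t + |K₀ z| * |deriv ρ t - 1| := by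
          refine (abs_add_le _ _).trans (le_of_eq ?_)
          rw [abs_mul, abs_mul, abs_of_nonneg h2]
      _ ≤ _ := add_le_add (mul_le_mul_of_nonneg_right h3 h2)
          (mul_le_mul_of_nonneg_right (hM z) (abs_nonneg _))
  · rw [intervalIntegral.integral_add (Continuous.intervalIntegrable (by fun_prop) _ _)
      (Continuous.intervalIntegrable (by fun_prop) _ _), intervalIntegral.integral_const_mul,
      intervalIntegral.integral_comp_mul_deriv
        (fun x _ => (hρ.differentiable (by simp) x).hasDerivAt) hc.continuousOn hP, e0, e1]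
    refine add_le_add hI ((mul_le_mul_of_nonneg_left hκ M0).trans ?_)
    rw [← mul_div_assoc, div_le_iff₀ (by positivity)]
    nlinarith

theorem l1_shear (hG : Gen Γ G φ) (h : L1 (fun _ => K₀) G ε) (hM : ∀ z, |K₀ z| ≤ M)
    (hs : Shear Γ ε' F X) (hη : 0 < η) :
    ∃ G', Gen Γ G' (fun z => φ z + X (φ z)) ∧ L1 (fun _ => K₀) G' (ε + ε' + η) := by
  obtain ⟨ρ₁, a, ha, ha', s₁, a₁, b₁, hL⟩ := rep_DynA h hM hη
  obtain ⟨ρ₂, s₂, m₂, a₂, b₂⟩ : ∃ ρ₂ : ℝ → ℝ, ContDiff ℝ ∞ ρ₂ ∧ Monotone ρ₂ ∧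
      (∀ s ≤ 1 - a / 2, ρ₂ s = 0) ∧ ρ₂ 1 = 1 :=
    ⟨fun s => Real.smoothTransition ((s - (1 - a / 2)) / (a / 2)),
      Real.smoothTransition.contDiff.comp ((contDiff_id.sub contDiff_const).div_const _),
      fun s t hst => Real.smoothTransition.monotone (by gcongr), fun s hs =>
        Real.smoothTransition.zero_of_nonpos
          (div_nonpos_of_nonpos_of_nonneg (by linarith) (by linarith)),
      Real.smoothTransition.one_of_one_le ((one_le_div (by linarith)).2 (by linarith))⟩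
  have e₁ : ∀ s, HasDerivAt ρ₁ (deriv ρ₁ s) s := fun s =>
    (s₁.differentiable (by simp) s).hasDerivAt
  have e₂ : ∀ s, HasDerivAt ρ₂ (deriv ρ₂ s) s := fun s =>
    (s₂.differentiable (by simp) s).hasDerivAt
  have hc : Continuous (deriv ρ₂) := s₂.continuous_deriv (by simp)
  have hFd : Differentiable ℝ F := hs.smooth.differentiable (by simp)
  refine ⟨fun s z => deriv ρ₁ s * G (ρ₁ s) z + deriv ρ₂ s * F z,
    ⟨(hG.smooth_GenL s₁).add ((((contDiff_infty_iff_deriv.1 s₂).2).comp contDiff_fst).mul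
      (hs.smooth.comp contDiff_snd)), fun γ hγ s z => by rw [hG.inv γ hγ, hs.inv γ hγ], ?_⟩, ?_⟩
  · obtain ⟨Φ, h0, h1, h2⟩ := hG.flow
    have hfd : ∀ s p v, fderiv ℝ (fun z => deriv ρ₁ s * G (ρ₁ s) z + deriv ρ₂ s * F z) p v =
        deriv ρ₁ s * fderiv ℝ (G (ρ₁ s)) p v + deriv ρ₂ s * fderiv ℝ F p v := fun s p v => by
      have := (((hG.diff_GenL (ρ₁ s) p).hasFDerivAt.const_mul (deriv ρ₁ s)).fun_add
        ((hFd p).hasFDerivAt.const_mul (deriv ρ₂ s))).fderiv
      rw [this]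
      rfl
    refine ⟨fun s z => Φ (ρ₁ s) z + ρ₂ s • X (Φ (ρ₁ s) z), fun z => ?_, fun z => ?_,
      fun z s => ?_⟩
    · simp only [a₁ 0 ha.le, a₂ 0 (by linarith), h0, zero_smul, add_zero]
    · simp only [b₁ 1 (by linarith), b₂, h1, one_smul]
    · rcases lt_or_ge s (1 - a / 2) with hs' | hs'
      · have hz : ρ₂ =ᶠ[𝓝 s] fun _ => 0 := by
          filter_upwards [Iio_mem_nhds hs'] with t ht
          exact a₂ t (mem_Iio.1 ht).le
        obtain ⟨w, hw, hw'⟩ := h2 z (ρ₁ s)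
        refine ⟨deriv ρ₁ s • w, (hw.scomp s (e₁ s)).congr_of_eventuallyEq ?_, fun v => ?_⟩
        · filter_upwards [hz] with t ht
          simp only [ht, zero_smul, add_zero, Function.comp_apply]
        · rw [hfd, hz.deriv_eq, deriv_const, zero_mul, add_zero, om_smul_GenL, hw']
          simp only [hz.eq_of_nhds, zero_smul, add_zero]
      · have hs'' : 1 - a < s := by linarith
        have hz : ρ₁ =ᶠ[𝓝 s] fun _ => 1 := by
          filter_upwards [Ioi_mem_nhds hs''] with t ht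
          exact b₁ t (mem_Ioi.1 ht).le
        refine ⟨deriv ρ₂ s • X (Φ 1 z),
          (((e₂ s).smul_const (X (Φ 1 z))).const_add (Φ 1 z)).congr_of_eventuallyEq ?_,
          fun v => ?_⟩
        · filter_upwards [hz] with t ht
          simp only [ht]
        · rw [hfd, hz.deriv_eq, deriv_const, zero_mul, zero_add, om_smul_GenL, ← hs.vf]
          simp only [hz.eq_of_nhds, hs.line]
  · rw [add_right_comm]
    refine add_DynA hL (Q := fun s => deriv ρ₂ s * ε') (by fun_prop) (le_of_eq ?_)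
      fun t _ z => ?_
    · rw [intervalIntegral.integral_mul_const, intervalIntegral.integral_deriv_eq_sub
        (fun x _ => (e₂ x).differentiableAt) (hc.intervalIntegrable _ _), b₂, a₂ 0 (by linarith)]
      ring
    · have h2 : 0 ≤ deriv ρ₂ t := m₂.deriv_nonneg
      have h3 : deriv ρ₁ t * G (ρ₁ t) z + deriv ρ₂ t * F z - K₀ z -
          (deriv ρ₁ t * G (ρ₁ t) z - K₀ z) = deriv ρ₂ t * F z := by ring
      rw [h3, abs_mul, abs_of_nonneg h2]
      exact mul_le_mul_of_nonneg_left (hs.le z) h2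

theorem l1_per (hG : Gen Γ G φ) (h : L1 (fun _ => K₀) G ε) (hM : ∀ z, |K₀ z| ≤ M) (hη : 0 < η) :
    ∃ G', IH Γ G' ∧ Gen1 G' φ ∧ L1 (fun _ => K₀) G' (ε + η) := by
  obtain ⟨ρ, a, ha, ha', s₁, a₁, b₁, hL⟩ := rep_DynA h hM hη
  have d0 : ∀ s < a, deriv ρ s = 0 := fun s hs => by
    have hz : ρ =ᶠ[𝓝 s] fun _ => 0 := by
      filter_upwards [Iio_mem_nhds hs] with t ht
      exact a₁ t (mem_Iio.1 ht).le
    rw [hz.deriv_eq, deriv_const]
  have d1 : ∀ s, 1 - a < s → deriv ρ s = 0 := fun s hs => by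
    have hz : ρ =ᶠ[𝓝 s] fun _ => 1 := by
      filter_upwards [Ioi_mem_nhds hs] with t ht
      exact b₁ t (mem_Ioi.1 ht).le
    rw [hz.deriv_eq, deriv_const]
  have he : ∀ s ∈ Icc (0 : ℝ) 1, ∀ z, deriv ρ (Int.fract s) * G (ρ (Int.fract s)) z =
      deriv ρ s * G (ρ s) z := fun s hs z => by
    rcases hs.2.eq_or_lt with rfl | h1
    · rw [Int.fract_one, d0 0 ha, d1 1 (by linarith), zero_mul, zero_mul]
    · rw [Int.fract_eq_self.2 ⟨hs.1, h1⟩]
  refine ⟨fun s z => deriv ρ (Int.fract s) * G (ρ (Int.fract s)) z,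
    ⟨⟨contDiff_iff_contDiffAt.2 fun q₀ => ?_, fun t => by simp only [Int.fract_add_one]⟩,
      fun g hg t z => by simp only [hG.inv g hg]⟩, ?_, ?_⟩
  · have h1 : ContDiff ℝ ∞ fun q : ℝ × E =>
        deriv ρ (q.1 - ⌊q₀.1⌋) * G (ρ (q.1 - ⌊q₀.1⌋)) q.2 :=
      (hG.smooth_GenL s₁).comp ((contDiff_fst.sub contDiff_const).prodMk contDiff_snd)
    refine h1.contDiffAt.congr_of_eventuallyEq ?_
    have h2 : Ioo ((⌊q₀.1⌋ : ℝ) - a) (⌊q₀.1⌋ + 1) ∈ 𝓝 q₀.1 :=
      Ioo_mem_nhds (by linarith [Int.floor_le q₀.1]) (Int.lt_floor_add_one _)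
    filter_upwards [continuous_fst.continuousAt.preimage_mem_nhds h2] with q hq
    rcases le_or_gt (⌊q₀.1⌋ : ℝ) q.1 with h3 | h3
    · rw [Int.fract, Int.floor_eq_iff.2 ⟨h3, hq.2⟩]
    · have h4 : ⌊q.1⌋ = ⌊q₀.1⌋ - 1 := by
        refine Int.floor_eq_iff.2 ⟨?_, ?_⟩
        · push_cast
          linarith [hq.1]
        · push_cast
          linarith
      rw [d0 (q.1 - _) (by linarith), d1 (Int.fract q.1), zero_mul, zero_mul]
      rw [Int.fract, h4]
      push_cast
      linarith [hq.1]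
  · obtain ⟨Φ, h0, h1, h2⟩ := hG.flow
    refine ⟨fun s => Φ (ρ s), fun z => ?_, fun z => ?_, fun z s hs => ?_⟩
    · simp only [a₁ 0 ha.le, h0]
    · simp only [b₁ 1 (by linarith), h1]
    · obtain ⟨w, hw, hw'⟩ := h2 z (ρ s)
      rw [← eq_ham (v := deriv ρ s • w) fun v => ?_]
      · exact hw.scomp s (s₁.differentiable (by simp) s).hasDerivAt
      · rw [om_smul_GenL, hw', funext (he s hs), fderiv_const_mul (hG.diff_GenL _ _)]
        rfl
  · obtain ⟨P, h1, h2, h3⟩ := hL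
    exact ⟨P, h1, fun t ht z => by simpa only [he t ht z] using h2 t ht z, h3⟩

end

end Pool.Agent.P.MP_de3acd_gt.FH
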