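import Pool.Agent.P.MP_de3acd_gt.FH.PS

/-! Orbits of a periodic Hamiltonian and fixed points of its time-one map.
Sketch: flow_eq: both curves solve the equation on Icc 0 1 and lie in a ball on which the field is Lipschitz (ODE_solution_unique_of_mem_Icc or ODE_solution_unique_of_mem_Icc_right). gens_le: c ↦ c 0 maps gens into fixSet and is injective (pr_eq_iff, Fr.orb_iff, Fr.orb_eq).
lin_flow: f ε t = Φ t (x 0 + ε ξ 0) - x t - ε ξ t vanishes at t = 0; as long as Φ t (x 0 + ε ξ 0) stays within distance 1 of x t one has ‖f'‖ ≤ K ‖f‖ + K ε² (Lipschitz bound and second order Taylor bound for the field on a compact set);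
image_norm_le_of_norm_deriv_right_lt_deriv_boundary with the boundary function 2 K' ε² exp (K t) only needs the bound at points where ‖f‖ equals the boundary, which is small. So Φ 1 (x 0 + ε ξ 0) = x 1 + ε ξ 1 + O (ε²).
ndH: D (ξ 0) = ξ 1 - lin γ (ξ 0) = 0 (HasFDerivAt.comp_hasDerivAt along the line, HasDerivAt.unique), so ξ 0 = 0 and ξ = 0 by uniqueness for the linear equation. -/

open Set Filter Topology MeasureTheory
open scoped ContDiff NNReal ENNReal RealInnerProductSpace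

namespace Pool.Agent.P.MP_de3acd_gt.FH

noncomputable section

variable {Γ : Subgroup (Equiv.Perm E)} {B : ℝ → E →L[ℝ] E} {J : ℝ → E → E →L[ℝ] E}
  {H G K K' : ℝ → E → ℝ} {Y Y' Z : ℝ → E → E} {γ g : Equiv.Perm E} {x y w : ℝ → E} {u : Pl → E}

variable {ψ : E → E}

theorem flow_eq (hG : SP (ham G)) {Φ : ℝ → E} (hΦ : ∀ s ∈ Icc (0 : ℝ) 1, HasDerivAt Φ (ham G s (Φ s)) s)
    (hx : Orb γ (ham G) x) (e : Φ 0 = x 0) : ∀ s ∈ Icc (0 : ℝ) 1, Φ s = x s := by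
  have cx : ContinuousOn x (Icc 0 1) := fun s _ => (hx.1 s).continuousAt.continuousWithinAt
  have cΦ : ContinuousOn Φ (Icc 0 1) := fun s hs => (hΦ s hs).continuousAt.continuousWithinAt
  obtain ⟨A, hA⟩ := (isCompact_Icc (a := (0 : ℝ)) (b := 1)).exists_bound_of_continuousOn
    (cΦ.prodMk cx)
  obtain ⟨M, h0, hM⟩ := hG.lip_JetC A
  refine ODE_solution_unique_of_mem_Icc_right (K := ⟨M, h0⟩) (v := ham G)
    (s := fun _ => Metric.closedBall 0 A) (fun r _ => ?_) cΦ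
    (fun r hr => (hΦ r (Ico_subset_Icc_self hr)).hasDerivWithinAt)
    (fun r hr => mem_closedBall_zero_iff.2
      ((norm_fst_le (Φ r, x r)).trans (hA r (Ico_subset_Icc_self hr)))) cx
    (fun r _ => (hx.1 r).hasDerivWithinAt)
    (fun r hr => mem_closedBall_zero_iff.2
      ((norm_snd_le (Φ r, x r)).trans (hA r (Ico_subset_Icc_self hr)))) e
  refine LipschitzOnWith.of_dist_le_mul fun a ha b hb => ?_
  rw [dist_eq_norm, dist_eq_norm]
  exact hM r a b (mem_closedBall_zero_iff.1 ha) (mem_closedBall_zero_iff.1 hb)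

theorem one_NdG (hG : SP (ham G)) (hψ : Gen1 G ψ) (hx : Orb γ (ham G) x) :
    ψ (x 0) = x 1 ∧ ψ (x 0) = γ (x 0) := by
  obtain ⟨Φ, h0, h1, hΦ⟩ := hψ
  have e := flow_eq hG (hΦ (x 0)) hx (h0 _) 1 ⟨zero_le_one, le_rfl⟩
  rw [h1] at e
  exact ⟨e, by rw [e, ← hx.2, zero_add]⟩

theorem Fr.gens_le (h : Fr Γ B) (hG : IH Γ G) (hψ : Gen1 G ψ) (hf : (fixSet Γ ψ).Finite) :
    (gens Γ G).ncard ≤ (fixSet Γ ψ).ncard := by
  have hY := hG.iy h
  refine Set.ncard_le_ncard_of_injOn (fun c => c 0) ?_ ?_ hf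
  · rintro _ ⟨γ, hγ, x, hx, rfl⟩
    exact ⟨x 0, rfl, pr_eq_iff.2 ⟨γ, hγ, (one_NdG hY.1 hψ hx).2.symm⟩⟩
  · rintro _ ⟨γ, hγ, x, hx, rfl⟩ _ ⟨γ', hγ', y, hy, rfl⟩ e
    obtain ⟨g, hg, e⟩ := pr_eq_iff.1 e
    have h1 := h.orb_eq hY ((h.orb_iff hg hγ' hY.2).2 hy) hx (t := 0) e
    rw [← h1]
    exact funext fun t => pr_eq_iff.2 ⟨g, hg, rfl⟩

theorem est_NdG (hY : SP Y) (hx : ∀ t, HasDerivAt x (Y t (x t)) t) {ξ : ℝ → E}
    (hξ : ∀ t, HasDerivAt ξ (fderiv ℝ (Y t) (x t) (ξ t)) t) : ∃ C : ℝ, ∀ ε : ℝ, ε ≠ 0 → |ε| ≤ 1 →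
      C * ε ^ 2 ≤ 1 → ∀ z : ℝ → E, (∀ s ∈ Icc (0 : ℝ) 1, HasDerivAt z (Y s (z s)) s) →
        z 0 = x 0 + ε • ξ 0 → ‖z 1 - x 1 - ε • ξ 1‖ ≤ C * ε ^ 2 := by
  have cx : Continuous x := continuous_iff_continuousAt.2 fun t => (hx t).continuousAt
  have cξ : Continuous ξ := continuous_iff_continuousAt.2 fun t => (hξ t).continuousAt
  obtain ⟨A, hA⟩ := (isCompact_Icc (a := (0 : ℝ)) (b := 1)).exists_bound_of_continuousOn
    (cx.prodMk cξ).continuousOn
  obtain ⟨M, M0, hM⟩ := hY.lip_JetC (2 * A + 1)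
  obtain ⟨M', M0', hM'⟩ := hY.fderiv.lip_JetC (2 * A + 1)
  refine ⟨(M' * A ^ 2 + 1) * Real.exp (M + 1), fun ε hε e1 e2 z hz z0 => ?_⟩
  have hd : ∀ s ∈ Icc (0 : ℝ) 1, HasDerivAt (fun t => z t - x t - ε • ξ t)
      (Y s (z s) - Y s (x s) - ε • fderiv ℝ (Y s) (x s) (ξ s)) s :=
    fun s hs => ((hz s hs).sub (hx s)).sub ((hξ s).const_smul ε)
  have p2 : 0 < ε ^ 2 := by positivity
  obtain ⟨c, hc⟩ : ∃ c, c = (M' * A ^ 2 + 1) * ε ^ 2 := ⟨_, rfl⟩
  have pc : 0 < c := by rw [hc]; positivity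
  have key := image_norm_le_of_norm_deriv_right_lt_deriv_boundary (a := 0) (b := 1)
    (fun s hs => (hd s hs).continuousAt.continuousWithinAt)
    (fun s hs => (hd s (Ico_subset_Icc_self hs)).hasDerivWithinAt)
    (B := fun t => c * Real.exp ((M + 1) * t))
    (B' := fun t => c * (Real.exp ((M + 1) * t) * (M + 1)))
    (by simp [z0, pc.le])
    (fun t => by simpa using (((hasDerivAt_id t).const_mul (M + 1)).exp).const_mul c)
    (fun s hs hb => ?_) ⟨zero_le_one, le_rfl⟩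
  · refine key.trans (le_of_eq ?_)
    rw [hc, mul_one]
    ring
  have a1 : ‖x s‖ ≤ A := (norm_fst_le (x s, ξ s)).trans (hA s (Ico_subset_Icc_self hs))
  have a2 : ‖ξ s‖ ≤ A := (norm_snd_le (x s, ξ s)).trans (hA s (Ico_subset_Icc_self hs))
  have a3 : ‖ε • ξ s‖ ≤ |ε| * A := by
    rw [norm_smul, Real.norm_eq_abs]
    exact mul_le_mul_of_nonneg_left a2 (abs_nonneg _)
  have A0 : 0 ≤ A := (norm_nonneg _).trans a1
  have a4 : ‖ε • ξ s‖ ≤ A := a3.trans (mul_le_of_le_one_left A0 e1)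
  have b1 : c * Real.exp ((M + 1) * s) ≤ 1 := by
    refine le_trans ?_ e2
    have : Real.exp ((M + 1) * s) ≤ Real.exp (M + 1) :=
      Real.exp_le_exp.2 (mul_le_of_le_one_right (by positivity) hs.2.le)
    calc c * Real.exp ((M + 1) * s) ≤ c * Real.exp (M + 1) := by gcongr
      _ = _ := by rw [hc]; ring
  have b2 : c ≤ c * Real.exp ((M + 1) * s) :=
    le_mul_of_one_le_right pc.le (Real.one_le_exp (mul_nonneg (by positivity) hs.1))
  have a5 : ‖x s + ε • ξ s‖ ≤ 2 * A := (norm_add_le _ _).trans (by linarith)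
  have a6 : ‖z s‖ ≤ 2 * A + 1 := by
    have e : z s = (x s + ε • ξ s) + (z s - x s - ε • ξ s) := by abel
    rw [e]
    exact (norm_add_le _ _).trans (by linarith)
  have k1 := hM s (z s) (x s + ε • ξ s) a6 (by linarith)
  rw [← sub_sub, hb] at k1
  have k2 := (convex_closedBall (x s) ‖ε • ξ s‖).norm_image_sub_le_of_norm_fderiv_le' (𝕜 := ℝ)
    (f := Y s) (C := M' * ‖ε • ξ s‖) (φ := fderiv ℝ (Y s) (x s)) (x := x s) (y := x s + ε • ξ s)
    (fun y _ => hY.diff_FrG s y) (fun y hy => ?_) (Metric.mem_closedBall_self (norm_nonneg _))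
    (by simp)
  · rw [add_sub_cancel_left, map_smul] at k2
    have k3 : M' * ‖ε • ξ s‖ * ‖ε • ξ s‖ ≤ M' * A ^ 2 * ε ^ 2 := by
      calc M' * ‖ε • ξ s‖ * ‖ε • ξ s‖ ≤ M' * (|ε| * A) * (|ε| * A) := by gcongr
        _ = M' * A ^ 2 * |ε| ^ 2 := by ring
        _ = _ := by rw [sq_abs]
    have e : Y s (z s) - Y s (x s) - ε • fderiv ℝ (Y s) (x s) (ξ s) =
        (Y s (z s) - Y s (x s + ε • ξ s)) +
          (Y s (x s + ε • ξ s) - Y s (x s) - ε • fderiv ℝ (Y s) (x s) (ξ s)) := by abel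
    rw [e]
    refine (norm_add_le _ _).trans_lt ?_
    nlinarith
  · rw [mem_closedBall_iff_norm] at hy
    have k4 : ‖y‖ ≤ 2 * A + 1 := by
      have e : y = x s + (y - x s) := by abel
      rw [e]
      exact (norm_add_le _ _).trans (by linarith)
    exact (hM' s y (x s) k4 (by linarith)).trans (mul_le_mul_of_nonneg_left hy M0')

theorem lin_flow (hG : SP (ham G)) (hψ : Gen1 G ψ) (hx : Orb γ (ham G) x) {ξ : ℝ → E}
    (hξ : ∀ t, HasDerivAt ξ (fderiv ℝ (ham G t) (x t) (ξ t)) t) :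
    HasDerivAt (fun ε : ℝ => ψ (x 0 + ε • ξ 0)) (ξ 1) 0 := by
  have e1 := (one_NdG hG hψ hx).1
  obtain ⟨Φ, h0, h1, hΦ⟩ := hψ
  obtain ⟨C, hC⟩ := est_NdG hG hx.1 hξ
  rw [hasDerivAt_iff_isLittleO]
  simp only [sub_zero, zero_smul, add_zero, e1]
  refine Asymptotics.IsBigO.trans_isLittleO (Asymptotics.IsBigO.of_bound C ?_)
    (Asymptotics.isLittleO_pow_id (𝕜 := ℝ) one_lt_two)
  have t1 : Tendsto (fun ε : ℝ => C * ε ^ 2) (𝓝 0) (𝓝 0) :=
    Continuous.tendsto' (by fun_prop) _ _ (by simp)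
  have t2 : Tendsto (fun ε : ℝ => |ε|) (𝓝 0) (𝓝 0) :=
    Continuous.tendsto' (by fun_prop) _ _ (by simp)
  filter_upwards [t1.eventually (ge_mem_nhds one_pos), t2.eventually (ge_mem_nhds one_pos)]
    with ε k1 k2
  by_cases hε : ε = 0
  · simp [hε, e1]
  · rw [← h1, Real.norm_of_nonneg (sq_nonneg ε)]
    exact hC ε hε k2 k1 _ (hΦ _) (h0 _)

theorem Fr.ndH (h : Fr Γ B) (hG : IH Γ G) (hψ : Gen1 G ψ) (hn : Nondeg Γ ψ) : NdH Γ G := by
  intro γ hγ x hx ξ hξ hp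
  have hY := (hG.iy h).1
  obtain ⟨D, hD, hi⟩ := hn γ hγ (x 0) (one_NdG hY hψ hx).2
  have l1 : HasDerivAt (fun ε : ℝ => x 0 + ε • ξ 0) (ξ 0) 0 := by
    simpa using ((hasDerivAt_id (0 : ℝ)).smul_const (ξ 0)).const_add (x 0)
  have l2 := (lin_flow hY hψ hx hξ).sub (h.hasDerivAt hγ l1)
  have l3 := HasFDerivAt.comp_hasDerivAt_of_eq (0 : ℝ) hD l1 (by simp)
  have l4 : D (ξ 0) = D 0 := by
    rw [map_zero, l3.unique l2, ← hp, zero_add, sub_self]
  have e := hi l4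
  funext s
  have cx : Continuous x := continuous_iff_continuousAt.2 fun t => (hx.1 t).continuousAt
  obtain ⟨A, hA⟩ := (isCompact_Icc (a := min s 0 - 1) (b := max s 0 + 1)).exists_bound_of_continuousOn
    cx.continuousOn
  obtain ⟨M, h0, hM⟩ := hY.fderiv.bound_JetC A
  refine ODE_solution_unique_of_mem_Ioo (K := ⟨M, h0⟩) (v := fun t => fderiv ℝ (ham G t) (x t))
    (s := fun _ => univ) (a := min s 0 - 1) (b := max s 0 + 1) (t₀ := 0) (fun r hr => ?_)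
    ⟨by linarith [min_le_right s 0], by linarith [le_max_right s 0]⟩
    (fun r _ => ⟨hξ r, mem_univ _⟩)
    (fun r _ => ⟨by simp, mem_univ _⟩) e
    ⟨by linarith [min_le_left s 0], by linarith [le_max_left s 0]⟩
  exact ((fderiv ℝ (ham G r) (x r)).lipschitz.weaken
    (hM r _ (hA r (Ioo_subset_Icc_self hr)))).lipschitzOnWith

end

end Pool.Agent.P.MP_de3acd_gt.FH
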