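import Pool.Agent.P.MP_de3acd_gt.FH.DynA
import Pool.Agent.P.MP_de3acd_gt.FH.NdG
import Pool.Agent.P.MP_de3acd_gt.Main

/-! Nondegenerate periodic Hamiltonians with few orbits, close in the integral norm. -/

open Set Real Filter Topology
open scoped ContDiff NNReal

namespace Pool.Agent.P.MP_de3acd_gt

variable {n : ℕ} {H : ℝ → E → ℝ} {Φ : ℝ → ℝ → E → E} {L C : ℝ}

theorem approx1 (h : Base H Φ L C) (hn : 12 ≤ n) {ε : ℝ} (hε : 0 < ε) : ∃ B : ℝ, ∀ k : ℕ, 1 ≤ k →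
    ∃ G, FH.IH (Gam n) G ∧ FH.NdH (Gam n) G ∧ FH.L1 (fun _ z => k * (2 * π) * H 0 z) G ε ∧
      ((gens (Gam n) G).ncard : ℝ) ≤ B * exp ((18 * π * L + log n / 2) * k) := by
  obtain ⟨B₀, fr⟩ := FH.exists_fr (n := n) (by omega)
  obtain ⟨D, hD1, hD⟩ := exists_deriv_chi_le
  have hC := h.C_pos
  obtain ⟨ε₁, p1, p2, p3⟩ : ∃ ε₁ > 0, ε₁ ≤ 1 ∧ ε₁ ≤ ε / 10 :=
    ⟨min 1 (ε / 10), by positivity, min_le_left _ _, min_le_right _ _⟩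
  obtain ⟨ε', q1, q2, q3⟩ : ∃ ε' > 0, ε' ≤ ε₁ / 4 ∧ ε' ≤ ε₁ / (32 * C) :=
    ⟨min (ε₁ / 4) (ε₁ / (32 * C)), by positivity, min_le_left _ _, min_le_right _ _⟩
  obtain ⟨B, hB, hcr⟩ := crofton (Fin 3) q1
  refine ⟨B * 2 ^ 9 * (98 * n ^ 3), fun k hk => ?_⟩
  have hk' : (1 : ℝ) ≤ k := by exact_mod_cast hk
  have hT : 1 ≤ k * (2 * π) := by nlinarith [pi_gt_three]
  have hT0 : 0 < k * (2 * π) := by linarith
  have hδ : ε₁ / (k * (2 * π)) ∈ Icc (0 : ℝ) 1 :=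
    ⟨by positivity, (div_le_one hT0).2 (p2.trans hT)⟩
  have hw := fun u v hu hv z m => wind_le (u := u) (v := v) h hk p1 p2 q3 (by linarith) hu hv
    (z := z) (m := m)
  have g0 := h.gen ⟨le_rfl, zero_le_one⟩ n (k * (2 * π))
  obtain ⟨M, hM⟩ := fr.boundH (H := fun _ z => k * (2 * π) * H 0 z)
    ⟨⟨g0.smooth, fun _ => rfl⟩, g0.inv⟩
  have c0 : ∃ G, Gen (Gam n) G (Φ (ε₁ / (k * (2 * π))) (k * (2 * π))) ∧
      FH.L1 (fun _ z => k * (2 * π) * H 0 z) G ε₁ := by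
    refine ⟨_, h.gen hδ n _, FH.l1_of_le fun _ z => ?_⟩
    have := h.close (ε₁ / (k * (2 * π))) z
    rw [abs_of_nonneg hδ.1, le_div_iff₀ hT0] at this
    rwa [← mul_sub, abs_mul, abs_of_pos hT0, abs_sub_comm, mul_comm]
  have hcl : ∀ a (φ : E → E) F X,
      (∃ G, Gen (Gam n) G φ ∧ FH.L1 (fun _ z => k * (2 * π) * H 0 z) G a) →
      Shear (Gam n) ε₁ F X → ∃ G, Gen (Gam n) G (fun z => φ z + X (φ z)) ∧
        FH.L1 (fun _ z => k * (2 * π) * H 0 z) G (a + ε₁ + ε₁) :=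
    fun a φ F X ⟨G, a1, a2⟩ hs => FH.l1_shear a1 a2 (hM 0) hs p1
  have hs := h.str hδ (k * (2 * π))
  have he := fun γ (hγ : γ ∈ Gam n) => h.eqv_gam hδ hγ (k * (2 * π))
  have hL : 0 ≤ L * (k * (2 * π)) := mul_nonneg h.L_nonneg hT0.le
  let A : ℝ≥0 := ⟨exp (L * (k * (2 * π))), (exp_pos _).le⟩
  have hA : 1 ≤ A := one_le_exp hL
  obtain ⟨l1, l2⟩ := lip_dd_cc hA fun z z' => h.lip _ hδ _ z z' hT0.le
  have l3 := norm_dd_le fun z => h.disp _ hδ _ z hT0.le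
  generalize Φ (ε₁ / (k * (2 * π))) (k * (2 * π)) = f at *
  obtain ⟨u, v, hu, hv, r1, X, r2, r3⟩ := hcr (2 * A) (one_le_mul_of_one_le_of_one_le one_le_two hA)
    _ _ l1 l2 fun x => (l3 x).trans (by
      have := add_one_le_exp (L * (k * (2 * π)))
      change _ ≤ 2 * exp _
      linarith)
  obtain ⟨σ₀, s0, hf⟩ := fib (n := n) (by omega) (k / 8 + 1)
  obtain ⟨σ', s1, s2, s3⟩ : ∃ σ' > 0, σ' ≤ σ₀ ∧ σ' ≤ ε' / (8 * D) :=
    ⟨min σ₀ (ε' / (8 * D)), by positivity, min_le_left _ _, min_le_right _ _⟩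
  rw [le_div_iff₀ (by positivity)] at s3
  obtain ⟨f1, Y, f2, f3⟩ := hf σ' ⟨s1, s2⟩
  obtain ⟨F1, g1⟩ := shear_b n hu hv
  obtain ⟨F2, g2⟩ := shear_a n hu hv (abs_of_pos q1).le
  obtain ⟨F3, g3⟩ := shear_f n σ' (e := (1, 0)) fun l hl => by simpa [ar] using hl.2
  obtain ⟨F4, g4⟩ := shear_f n σ' (e := (0, 1)) fun l hl => by simpa [ar] using hl.1
  have hd := fun m l γ z => fix_data (n := n) (u := u) (v := v) (m := m) (l := l) (γ := γ) (z := z)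
    hs q1 (by linarith) s1.le hD (by nlinarith)
  have s4 : |σ'| ≤ ε₁ := by
    rw [abs_of_pos s1]
    nlinarith
  obtain ⟨G₀, c4, c5⟩ := hcl _ _ _ _ (hcl _ _ _ _ (hcl _ _ _ _ (hcl _ _ _ _ c0
    (g1.mono (by linarith))) (g2.mono (by linarith))) (g3.mono s4)) (g4.mono s4)
  obtain ⟨G, c6, c7, c8⟩ := FH.l1_per (φ := psi n f u v ε' σ') c4 c5 (hM 0) p1
  obtain ⟨k1, k2⟩ := count (n := n) (ψ := psi n f u v ε' σ') (fun γ hγ z => by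
      simp only [psi, stp, he γ hγ, g1.eqv (good_gam n) hγ, g2.eqv (good_gam n) hγ,
        g3.eqv (good_gam n) hγ, g4.eqv (good_gam n) hγ]) X Y
    fun γ ⟨m, l, hγ⟩ z hz => by
      obtain ⟨a1, a2, a3, a4⟩ := hd m l γ z hγ hz
      exact ⟨a3, fun hx => r3 _ hx a1, fun y1 y2 => f3 (-m)
        (by rw [Int.natAbs_neg]; exact hw u v hu hv z m (a1 0) a2) _ y1 y2 a4⟩
  refine ⟨G, c6, fr.ndH c6 c7 fun γ ⟨m, l, hγ⟩ z hz => ?_, c8.mono (by linarith),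
    num_le hn hB ((fr.gens_le c6 c7 k1).trans k2) r2 f2⟩
  obtain ⟨a1, a2, a3, a4⟩ := hd m l γ z hγ hz
  obtain ⟨R', b1, b2⟩ := r1 _ a1
  obtain ⟨F', b3, b4⟩ := f1 (-m)
    (by rw [Int.natAbs_neg]; exact hw u v hu hv z m (a1 0) a2) _ a4
  exact nondeg_at hs q1 hγ (a1 0) a2 a3 b1 b2 b3 b4

end Pool.Agent.P.MP_de3acd_gt
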