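import Pool.Agent.P.MP_de3acd_gt.FH.Cpt
import Pool.Agent.P.MP_de3acd_gt.FH.EstL

/-! The estimate for nondegenerate periodic linear equations and for stationary operators.
Sketch of ode_est: it suffices to bound sup ‖ξ‖ on [0,1] by the L² norm of r = ξ' - B ξ. By contradiction take ξ n with
sup norm 1 and ∫ ‖r n‖^2 → 0, ξ n 0 → v along a subsequence. Gronwall (norm_le_gronwallBound_of_norm_deriv_right_le does
not take an L¹ error, so apply it to η n t = ξ n t - ∫_0^t r n, which solves η' = B η + B ∫_0^t r n with a uniformly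
small error) shows that η n is uniformly Cauchy on [-T, T] for each T; the limit solves ξ' = B ξ
(hasDerivAt_of_tendstoUniformly or the integral equation), is periodic and has sup norm 1; contradiction with Nd
(lin 1 v = v). stat_est: a = σ ds φ, b = dt φ - B φ, Cpt.add_sq; ∫ Ω (ds φ) (dt φ) = 0 (integral_form_cyl) and
Ω (ds φ) (B φ) = (1/2) d/ds Ω φ (B φ) for fixed t (B is infinitesimally symplectic), so its integral over s vanishes
(Fubini; B is only continuous). Then ode_est for φ (s, ·), integrated in s; cpt_bounds (j is bounded: continuous periodic). -/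

open Set Filter Topology MeasureTheory
open scoped ContDiff NNReal ENNReal RealInnerProductSpace

namespace Pool.Agent.P.MP_de3acd_gt.FH

noncomputable section

variable {V : Type} [NormedAddCommGroup V] [InnerProductSpace ℝ V] [Sym V]

private theorem bound_EndA {G : Type} [NormedAddCommGroup G] {B : ℝ → G} (hB : Continuous B)
    (pB : ∀ t, B (t + 1) = B t) : ∃ K, 0 < K ∧ ∀ t, ‖B t‖ ≤ K := by
  obtain ⟨K, hK, h⟩ := (Function.Periodic.isBounded_of_continuous (c := 1) pB one_ne_zero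
    hB).exists_pos_norm_le
  exact ⟨K, hK, fun t => h _ (mem_range_self t)⟩

private theorem prim_EndA {r : ℝ → V} (hr : Continuous r) (a t : ℝ) :
    HasDerivAt (fun t => ∫ s in a..t, r s) (r t) t :=
  intervalIntegral.integral_hasDerivAt_right (hr.intervalIntegrable a t)
    (hr.stronglyMeasurableAtFilter _ _) hr.continuousAt

private theorem small_EndA {r : ℝ → V} (hr : Continuous r) {a t : ℝ} (ht : t ∈ Icc a (a + 1)) :
    ‖∫ s in a..t, r s‖ ≤ ∫ s in a..a + 1, ‖r s‖ :=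
  (intervalIntegral.norm_integral_le_integral_norm ht.1).trans
    (intervalIntegral.integral_mono_interval le_rfl ht.1 ht.2
      (Eventually.of_forall fun _ => norm_nonneg _) (hr.norm.intervalIntegrable _ _))

private theorem gron_EndA {B : ℝ → V →L[ℝ] V} {K : ℝ} (hK : 0 < K) (hB : ∀ t, ‖B t‖ ≤ K)
    {ξ r : ℝ → V} (hξ : ∀ t, HasDerivAt ξ (B t (ξ t) + r t) t) (hr : Continuous r)
    (hp : ∀ t, ξ (t + 1) = ξ t) (t : ℝ) :
    ‖ξ t‖ ≤ Real.exp K * (‖ξ 0‖ + ∫ s in (0 : ℝ)..0 + 1, ‖r s‖) := by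
  obtain ⟨y, hy, e⟩ := Function.Periodic.exists_mem_Ico (c := 1) hp one_pos t 0
  rw [e]
  set ρ := ∫ s in (0 : ℝ)..0 + 1, ‖r s‖ with hρ
  have hρ0 : 0 ≤ ρ := intervalIntegral.integral_nonneg (by norm_num) fun _ _ => norm_nonneg _
  have hd : ∀ t, HasDerivAt (fun t => ξ t - ∫ s in (0 : ℝ)..t, r s) (B t (ξ t)) t := fun t =>
    ((hξ t).sub (prim_EndA hr 0 t)).congr_deriv (add_sub_cancel_right _ _)
  have h1 := norm_le_gronwallBound_of_norm_deriv_right_le (δ := ‖ξ 0‖) (K := K) (ε := K * ρ)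
    (a := 0) (b := 0 + 1) (fun t _ => (hd t).continuousAt.continuousWithinAt)
    (fun t _ => (hd t).hasDerivWithinAt) (by simp) (fun t ht => by
      have h2 := small_EndA hr (Ico_subset_Icc_self ht)
      have h3 : ‖ξ t‖ ≤ ‖ξ t - ∫ s in (0 : ℝ)..t, r s‖ + ρ :=
        (norm_le_norm_sub_add _ _).trans (add_le_add_right h2 _)
      rw [← mul_add]
      exact ((B t).le_opNorm _).trans (mul_le_mul (hB t) h3 (norm_nonneg _) hK.le))
    y (Ico_subset_Icc_self hy)
  rw [gronwallBound_of_K_ne_0 hK.ne', mul_div_cancel_left₀ _ hK.ne'] at h1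
  have h2 := small_EndA hr (Ico_subset_Icc_self hy)
  have h3 : ‖ξ y‖ ≤ ‖ξ y - ∫ s in (0 : ℝ)..y, r s‖ + ρ :=
    (norm_le_norm_sub_add _ _).trans (add_le_add_right h2 _)
  have h4 : Real.exp (K * (y - 0)) ≤ Real.exp K :=
    Real.exp_le_exp.2 (mul_le_of_le_one_right hK.le (by linarith [hy.2]))
  have h5 := mul_le_mul_of_nonneg_left h4 (add_nonneg (norm_nonneg (ξ 0)) hρ0)
  simp only at h1
  nlinarith

private theorem lim_EndA {B : ℝ → V →L[ℝ] V} {K : ℝ} (hK : 0 < K) (hB : ∀ t, ‖B t‖ ≤ K)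
    (h : Nd 1 B) {ξ r : ℕ → ℝ → V} (hξ : ∀ n t, HasDerivAt (ξ n) (B t (ξ n t) + r n t) t)
    (hr : ∀ n, Continuous (r n)) (hp : ∀ n t, ξ n (t + 1) = ξ n t)
    (hq : ∀ n t, r n (t + 1) = r n t) {v : V} (hv : Tendsto (fun n => ξ n 0) atTop (𝓝 v))
    (h0 : Tendsto (fun n => ∫ s in (0 : ℝ)..0 + 1, ‖r n s‖) atTop (𝓝 0)) : v = 0 := by
  set ρ : ℕ → ℝ := fun n => ∫ s in (0 : ℝ)..0 + 1, ‖r n s‖ with hρ
  set ε : ℕ → ℝ := fun n => Real.exp K * (‖ξ n 0 - v‖ + ρ n) with hε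
  have e0 : Tendsto ε atTop (𝓝 0) := by
    have := ((tendsto_iff_norm_sub_tendsto_zero.1 hv).add h0).const_mul (Real.exp K)
    simpa using this
  have hd : ∀ n m t, ‖ξ n t - ξ m t‖ ≤ ε n + ε m := by
    intro n m t
    have h1 := gron_EndA hK hB (ξ := fun t => ξ n t - ξ m t) (r := fun t => r n t - r m t)
      (fun t => ((hξ n t).sub (hξ m t)).congr_deriv (by rw [map_sub]; abel)) ((hr n).sub (hr m))
      (fun t => by simp only [hp]) t
    have h2 : ∫ s in (0 : ℝ)..0 + 1, ‖r n s - r m s‖ ≤ ρ n + ρ m := by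
      rw [hρ, ← intervalIntegral.integral_add ((hr n).norm.intervalIntegrable _ _)
        ((hr m).norm.intervalIntegrable _ _)]
      exact intervalIntegral.integral_mono_on (by norm_num)
        (((hr n).sub (hr m)).norm.intervalIntegrable _ _)
        (((hr n).norm.add (hr m).norm).intervalIntegrable _ _) fun s _ => norm_sub_le _ _
    have h3 : ‖ξ n 0 - ξ m 0‖ ≤ ‖ξ n 0 - v‖ + ‖ξ m 0 - v‖ := by
      rw [norm_sub_rev (ξ m 0)]
      exact norm_sub_le_norm_sub_add_norm_sub _ _ _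
    refine h1.trans ?_
    rw [hε, ← mul_add]
    exact mul_le_mul_of_nonneg_left (by linarith) (Real.exp_pos K).le
  have hc : ∀ t, ∃ x, Tendsto (fun n => ξ n t) atTop (𝓝 x) := fun t => by
    refine cauchySeq_tendsto_of_complete (Metric.cauchySeq_iff.2 fun δ hδ => ?_)
    obtain ⟨N, hN⟩ := eventually_atTop.1 (e0.eventually (gt_mem_nhds (half_pos hδ)))
    refine ⟨N, fun m hm n hn => ?_⟩
    rw [dist_eq_norm]
    linarith [hd m n t, hN m hm, hN n hn]
  choose x hx using hc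
  have hl : ∀ n t, ‖ξ n t - x t‖ ≤ ε n := fun n t => by
    have h1 := (e0.const_add (ε n))
    rw [add_zero] at h1
    exact le_of_tendsto_of_tendsto' ((hx t).const_sub (ξ n t)).norm h1 fun m => hd n m t
  have hx0 : x = 0 := by
    refine h x (fun t => ?_) fun t => ?_
    · refine hasDerivAt_of_tendstoUniformlyOn (l := atTop) (s := Ioo (t - 1 / 2) (t - 1 / 2 + 1))
        (f := fun n u => ξ n u - ∫ s in (t - 1 / 2)..u, r n s) (f' := fun n u => B u (ξ n u))
        (g' := fun u => B u (x u)) isOpen_Ioo ?_ (Eventually.of_forall fun n u _ =>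
          ((hξ n u).sub (prim_EndA (hr n) _ u)).congr_deriv (add_sub_cancel_right _ _))
        (fun u hu => ?_) ⟨by linarith, by linarith⟩
      · refine Metric.tendstoUniformlyOn_iff.2 fun δ hδ => ?_
        have h1 := e0.const_mul K
        rw [mul_zero] at h1
        filter_upwards [h1.eventually (gt_mem_nhds hδ)] with n hn u _
        rw [dist_comm, dist_eq_norm, ← map_sub]
        exact (((B u).le_opNorm _).trans
          (mul_le_mul (hB u) (hl n u) (norm_nonneg _) hK.le)).trans_lt hn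
      · have h1 : Tendsto (fun n => ∫ s in (t - 1 / 2)..u, r n s) atTop (𝓝 0) := by
          refine squeeze_zero_norm (fun n => (small_EndA (hr n) (Ioo_subset_Icc_self hu)).trans_eq
            ?_) h0
          exact Function.Periodic.intervalIntegral_add_eq (f := fun s => ‖r n s‖)
            (fun s => by simp only [hq]) _ _
        simpa using (hx u).sub h1
    · have h1 := hx (t + 1)
      simp only [hp] at h1
      simpa [lin] using tendsto_nhds_unique h1 (hx t)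
  have h1 := tendsto_nhds_unique hv (hx 0)
  rw [h1, hx0]
  rfl

private theorem init_EndA {B : ℝ → V →L[ℝ] V} {K : ℝ} (hK : 0 < K) (hB : ∀ t, ‖B t‖ ≤ K)
    (h : Nd 1 B) : ∃ c : ℝ, 0 ≤ c ∧ ∀ ξ r : ℝ → V, (∀ t, HasDerivAt ξ (B t (ξ t) + r t) t) →
      Continuous r → (∀ t, ξ (t + 1) = ξ t) → (∀ t, r (t + 1) = r t) →
        ‖ξ 0‖ ≤ c * ∫ s in (0 : ℝ)..0 + 1, ‖r s‖ := by
  by_contra hc
  push Not at hc
  choose ξ r hξ hr hp hq hlt using fun n : ℕ => hc ((n : ℝ) + 1) (by positivity)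
  have hρ : ∀ n, 0 ≤ ∫ s in (0 : ℝ)..0 + 1, ‖r n s‖ := fun n =>
    intervalIntegral.integral_nonneg (by norm_num) fun _ _ => norm_nonneg _
  have hpos : ∀ n, 0 < ‖ξ n 0‖ := fun n =>
    (mul_nonneg (by positivity) (hρ n)).trans_lt (hlt n)
  have hs : ∀ n, ‖ξ n 0‖⁻¹ • ξ n 0 ∈ Metric.sphere (0 : V) 1 := fun n => by
    rw [mem_sphere_zero_iff_norm, norm_smul, norm_inv, norm_norm, inv_mul_cancel₀ (hpos n).ne']
  obtain ⟨v, hv, φ, hφ, hl⟩ := (isCompact_sphere (0 : V) 1).tendsto_subseq hs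
  have h1 := lim_EndA hK hB h (ξ := fun n t => ‖ξ (φ n) 0‖⁻¹ • ξ (φ n) t)
    (r := fun n t => ‖ξ (φ n) 0‖⁻¹ • r (φ n) t)
    (fun n t => ((hξ (φ n) t).const_smul _).congr_deriv (by rw [map_smul, smul_add]))
    (fun n => (hr _).const_smul _) (fun n t => by simp only [hp]) (fun n t => by simp only [hq])
    hl (by
      refine squeeze_zero (fun n => intervalIntegral.integral_nonneg (by norm_num)
        fun _ _ => norm_nonneg _) (fun n => ?_)
        ((tendsto_one_div_add_atTop_nhds_zero_nat (𝕜 := ℝ)).comp hφ.tendsto_atTop)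
      simp only [norm_smul, norm_inv, norm_norm, intervalIntegral.integral_const_mul,
        Function.comp_apply]
      rw [inv_mul_le_iff₀ (hpos _), mul_one_div, le_div_iff₀' (by positivity)]
      exact (hlt _).le)
  rw [h1, mem_sphere_zero_iff_norm, norm_zero] at hv
  exact zero_ne_one hv

private theorem cs_EndA {μ : Measure ℝ} {h : ℝ → ℝ≥0∞} (hh : Measurable h) :
    (∫⁻ s, h s ∂μ) ^ 2 ≤ μ univ * ∫⁻ s, h s ^ 2 ∂μ := by
  have h1 := ENNReal.lintegral_mul_le_Lp_mul_Lq μ Real.HolderConjugate.two_two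
    (f := fun _ => (1 : ℝ≥0∞)) (g := h) aemeasurable_const hh.aemeasurable
  simp only [Pi.mul_apply, lintegral_const, ENNReal.rpow_two, one_pow, one_mul] at h1
  refine (pow_le_pow_left' h1 2).trans_eq ?_
  have e : ∀ x : ℝ≥0∞, (x ^ (1 / 2 : ℝ)) ^ 2 = x := fun x => by
    rw [← ENNReal.rpow_two, ← ENNReal.rpow_mul]
    norm_num
  rw [mul_pow, e, e]

omit [InnerProductSpace ℝ V] [Sym V] in
private theorem sq_add_EndA (u v : V) : ‖u + v‖ₑ ^ 2 ≤ 2 * ‖u‖ₑ ^ 2 + 2 * ‖v‖ₑ ^ 2 := by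
  have h1 := ENNReal.rpow_add_le_mul_rpow_add_rpow ‖u‖ₑ ‖v‖ₑ (p := 2) one_le_two
  have e : (2 : ℝ) - 1 = 1 := by norm_num
  rw [e, ENNReal.rpow_one] at h1
  simp only [ENNReal.rpow_two] at h1
  exact (pow_le_pow_left' (enorm_add_le u v) 2).trans (h1.trans_eq (mul_add _ _ _))

theorem ode_est {B : ℝ → V →L[ℝ] V} (hB : Continuous B) (pB : ∀ t, B (t + 1) = B t) (h : Nd 1 B) :
    ∃ c : ℝ≥0, ∀ ξ : ℝ → V, ContDiff ℝ 1 ξ → (∀ t, ξ (t + 1) = ξ t) →
      ∫⁻ t in Icc (0 : ℝ) 1, ‖ξ t‖ₑ ^ 2 + ‖deriv ξ t‖ₑ ^ 2 ≤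
        c * ∫⁻ t in Icc (0 : ℝ) 1, ‖deriv ξ t - B t (ξ t)‖ₑ ^ 2 := by
  obtain ⟨K, hK, hKB⟩ := bound_EndA hB pB
  obtain ⟨c, hc0, hc⟩ := init_EndA hK hKB h
  set C : ℝ := Real.exp K * (c + 1) with hC
  have hC0 : 0 ≤ C := by positivity
  refine ⟨C.toNNReal ^ 2 + 2 * (K * C).toNNReal ^ 2 + 2, fun ξ hξ hp => ?_⟩
  set r : ℝ → V := fun t => deriv ξ t - B t (ξ t) with hr
  have c1 := hξ.continuous
  have c2 := hξ.continuous_deriv_one
  have cr : Continuous r := by fun_prop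
  have hd : ∀ t, HasDerivAt ξ (B t (ξ t) + r t) t := fun t =>
    (hξ.differentiable_one t).hasDerivAt.congr_deriv (by simp [hr])
  have hq : ∀ t, r (t + 1) = r t := fun t => by
    have e : deriv ξ (t + 1) = deriv ξ t := by
      rw [← deriv_comp_add_const]
      simp only [hp]
    simp only [hr, e, hp, pB]
  set ρ := ∫ s in (0 : ℝ)..0 + 1, ‖r s‖ with hρ
  have hρ0 : 0 ≤ ρ := intervalIntegral.integral_nonneg (by norm_num) fun _ _ => norm_nonneg _
  have h1 : ∀ t, ‖ξ t‖ ≤ C * ρ := fun t => by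
    refine (gron_EndA hK hKB hd cr hp t).trans ?_
    rw [hC, mul_assoc, add_mul, one_mul]
    exact mul_le_mul_of_nonneg_left (add_le_add_left (hc ξ r hd cr hp hq) _) (Real.exp_pos K).le
  set R := ∫⁻ t in Icc (0 : ℝ) 1, ‖r t‖ₑ ^ 2 with hR
  have h2 : ENNReal.ofReal ρ ^ 2 ≤ R := by
    rw [hρ, zero_add, intervalIntegral.integral_of_le zero_le_one,
      ← integral_Icc_eq_integral_Ioc,
      ofReal_integral_norm_eq_lintegral_enorm cr.continuousOn.integrableOn_Icc]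
    refine (cs_EndA cr.enorm.measurable).trans_eq ?_
    simp [hR]
  have h3 : ∀ (v : V) (D : ℝ), 0 ≤ D → ‖v‖ ≤ D * ρ → ‖v‖ₑ ^ 2 ≤ (D.toNNReal : ℝ≥0∞) ^ 2 * R := by
    intro v D hD hv
    refine le_trans ?_ (mul_le_mul_right h2 _)
    rw [← mul_pow, ← ofReal_norm]
    refine pow_le_pow_left' ((ENNReal.ofReal_le_ofReal hv).trans_eq ?_) 2
    rw [ENNReal.ofReal_mul hD]
    rfl
  have h4 : ∀ t, ‖ξ t‖ₑ ^ 2 + ‖deriv ξ t‖ₑ ^ 2 ≤ ((C.toNNReal : ℝ≥0∞) ^ 2 * R +
      2 * (((K * C).toNNReal : ℝ≥0∞) ^ 2 * R)) + 2 * ‖r t‖ₑ ^ 2 := fun t => by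
    rw [(hd t).deriv, add_assoc]
    refine add_le_add (h3 _ _ hC0 (h1 t)) ((sq_add_EndA _ _).trans
      (add_le_add_left (mul_le_mul_right (h3 _ _ (mul_nonneg hK.le hC0) ?_) _) _))
    rw [mul_assoc]
    exact ((B t).le_opNorm _).trans (mul_le_mul (hKB t) (h1 t) (norm_nonneg _) hK.le)
  refine (lintegral_mono h4).trans_eq ?_
  rw [lintegral_add_left measurable_const, setLIntegral_const,
    lintegral_const_mul _ (cr.enorm.measurable.pow_const 2), ← hR, Real.volume_Icc, sub_zero,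
    ENNReal.ofReal_one]
  push_cast
  ring

private theorem fub_EndA {h : Pl → V} (hh : Continuous h) :
    nrm 0 h univ = ∫⁻ s, ∫⁻ t in Icc 0 1, ‖h (s, t)‖ₑ ^ 2 := by
  rw [← setLIntegral_univ]
  exact setLIntegral_prod (μ := volume) (ν := volume) _
    (hh.enorm.measurable.pow_const 2).aemeasurable

private theorem real_EndA {h : Pl → V} (hh : Continuous h) {R : ℝ}
    (h0 : ∀ p : Pl, R ≤ |p.1| → h p = 0) : IntegrableOn (fun p => ‖h p‖ ^ 2) St ∧
      nrm 0 h univ = ENNReal.ofReal (∫ p in St, ‖h p‖ ^ 2) := by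
  have h1 : IntegrableOn (fun p => ‖h p‖ ^ 2) St :=
    integrableOn_St (R := R) (hh.norm.pow 2) fun p hp => by simp [h0 p hp]
  refine ⟨h1, ?_⟩
  rw [ofReal_integral_eq_lintegral_ofReal h1 (Eventually.of_forall fun p => sq_nonneg _), nrm_zero]
  refine lintegral_congr fun p => ?_
  rw [ENNReal.ofReal_pow (norm_nonneg _), ofReal_norm]

private theorem cross_EndA {B : ℝ → V →L[ℝ] V} (hB : Continuous B)
    (h : ∀ t u v, Ω0 (B t u) v + Ω0 u (B t v) = 0) {φ : Pl → V} (hφ : φ ∈ Dsub V) :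
    IntegrableOn (fun p => Ω0 (ds φ p) (B p.2 (φ p))) St ∧
      ∫ p in St, Ω0 (ds φ p) (B p.2 (φ p)) = 0 := by
  obtain ⟨β, hβ, -⟩ := form_Ω0 (V := V)
  obtain ⟨h1, -, R, h3⟩ := hφ
  have c1 := h1.continuous
  have c2 := (contDiff_ds h1).continuous
  have i1 : IntegrableOn (fun p => Ω0 (ds φ p) (B p.2 (φ p))) St := by
    simp only [hβ]
    exact integrableOn_St (R := R) (by fun_prop) fun p hp => by simp [h3 p hp]
  refine ⟨i1, ?_⟩
  have hs : ∀ {g : ℝ → ℝ}, Continuous g → (∀ s, R ≤ |s| → g s = 0) → Integrable g :=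
    fun hg h0 => hg.integrable_of_hasCompactSupport (HasCompactSupport.intro
      (isCompact_Icc (a := -R) (b := R)) fun s hs => h0 s (le_of_not_gt fun hlt =>
        hs ⟨(abs_lt.1 hlt).1.le, (abs_lt.1 hlt).2.le⟩))
  have key : ∀ t, ∫ s, Ω0 (ds φ (s, t)) (B t (φ (s, t))) = 0 := by
    intro t
    have hd : ∀ s, HasDerivAt (fun s => β (φ (s, t)) (B t (φ (s, t))))
        (2 * β (ds φ (s, t)) (B t (φ (s, t)))) s := fun s => by
      have d1 := hasDerivAt_ds (s := s) (t := t) (h1.differentiable (by simp) _)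
      have d2 := (β.hasFDerivAt.comp_hasDerivAt s d1).clm_apply
        ((B t).hasFDerivAt.comp_hasDerivAt s d1)
      refine d2.congr_deriv ?_
      have e1 := h t (φ (s, t)) (ds φ (s, t))
      have e2 := (form_Ω0 (V := V)).anti (B t (φ (s, t))) (ds φ (s, t))
      simp only [hβ] at e1 e2
      simp only [Function.comp_apply]
      linarith
    have h4 := integral_eq_zero_of_hasDerivAt_of_integrable hd
      (hs (by fun_prop) fun s hs => by simp [h3 (s, t) hs])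
      (hs (by fun_prop) fun s hs => by simp [h3 (s, t) hs])
    rw [integral_const_mul] at h4
    simp only [hβ]
    linarith
  rw [St, IntegrableOn, Measure.volume_eq_prod, ← Measure.prod_restrict] at i1
  rw [St, Measure.volume_eq_prod, ← Measure.prod_restrict, integral_prod_symm _ i1]
  simp only [Measure.restrict_univ, key, integral_zero]

theorem stat_est {j B : ℝ → V →L[ℝ] V} (hj : Continuous j) (pj : ∀ t, j (t + 1) = j t)
    (hc : ∀ t, Cpt Ω0 (j t)) (hB : Continuous B) (pB : ∀ t, B (t + 1) = B t) (h : SNd Ω0 1 B) :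
    ∃ c : ℝ≥0, ∀ σ : ℝ, σ = 1 ∨ σ = -1 → ∀ φ ∈ Dsub V, nrm 1 φ univ ≤
      c * nrm 0 (fun p => σ • ds φ p + j p.2 (dt φ p - B p.2 (φ p))) univ := by
  obtain ⟨c, hode⟩ := ode_est hB pB h.2
  obtain ⟨A, -, hA⟩ := bound_EndA hj pj
  obtain ⟨δ, hδ, hb⟩ := cpt_bounds (form_Ω0 (V := V)) A
  refine ⟨(c + 1) * (δ⁻¹ * δ⁻¹).toNNReal, fun σ hσ φ hφ => ?_⟩
  obtain ⟨β, hβ, -⟩ := form_Ω0 (V := V)
  obtain ⟨i1, z1⟩ := cross_EndA hB h.1 hφ
  have z2 := integral_form_cyl (form_Ω0 (V := V)) hφ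
  obtain ⟨h1, h2, R, h3⟩ := id hφ
  have c1 := h1.continuous
  have c2 := (contDiff_ds h1).continuous
  have c3 := (contDiff_dt h1).continuous
  have s1 : ∀ p : Pl, R + 1 ≤ |p.1| → φ p = 0 := fun p hp => h3 p (by linarith)
  have s2 : ∀ p : Pl, R + 1 ≤ |p.1| → ds φ p = 0 := fun p hp => by
    simp [ds, fderiv_eq_zero_of_supp h3 p hp]
  have s3 : ∀ p : Pl, R + 1 ≤ |p.1| → dt φ p = 0 := fun p hp => by
    simp [dt, fderiv_eq_zero_of_supp h3 p hp]
  set b : Pl → V := fun p => dt φ p - B p.2 (φ p) with hbd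
  set w : Pl → V := fun p => σ • ds φ p + j p.2 (b p) with hw
  have cb : Continuous b := by fun_prop
  have cw : Continuous w := by fun_prop
  have sb : ∀ p : Pl, R + 1 ≤ |p.1| → b p = 0 := fun p hp => by simp [hbd, s1 p hp, s3 p hp]
  have sw : ∀ p : Pl, R + 1 ≤ |p.1| → w p = 0 := fun p hp => by simp [hw, s2 p hp, sb p hp]
  obtain ⟨ia, ea⟩ := real_EndA c2 s2
  obtain ⟨ib, eb⟩ := real_EndA cb sb
  obtain ⟨iw, ew⟩ := real_EndA cw sw
  have i2 : IntegrableOn (fun p => Ω0 (ds φ p) (dt φ p)) St := by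
    simp only [hβ]
    exact integrableOn_St (R := R + 1) (by fun_prop) fun p hp => by simp [s2 p hp]
  have pw : ∀ p, δ * (‖ds φ p‖ ^ 2 + ‖b p‖ ^ 2) ≤ δ⁻¹ * ‖w p‖ ^ 2 +
      2 * σ * (Ω0 (ds φ p) (dt φ p) - Ω0 (ds φ p) (B p.2 (φ p))) := fun p => by
    have e1 := Cpt.add_sq form_Ω0 (hc p.2) (σ • ds φ p) (b p)
    have e2 := (hb _ (hc p.2) (hA _) (σ • ds φ p)).1
    have e3 := (hb _ (hc p.2) (hA _) (b p)).1
    have e4 := (hb _ (hc p.2) (hA _) (w p)).2
    have e5 : ‖σ • ds φ p‖ = ‖ds φ p‖ := by rcases hσ with rfl | rfl <;> simp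
    have e6 : Ω0 (σ • ds φ p) (b p) =
        σ * (Ω0 (ds φ p) (dt φ p) - Ω0 (ds φ p) (B p.2 (φ p))) := by
      simp only [hβ, hbd, map_smul, map_sub, smul_apply, smul_eq_mul, mul_sub]
    rw [e5] at e2
    rw [e6] at e1
    change Ω0 (w p) (j p.2 (w p)) = _ at e1
    linarith
  have hi := integral_mono ((ia.add ib).const_mul δ)
    ((iw.const_mul δ⁻¹).add ((i2.sub i1).const_mul (2 * σ))) pw
  rw [integral_const_mul, integral_add' ia ib, integral_add' (iw.const_mul δ⁻¹)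
    ((i2.sub i1).const_mul (2 * σ)), integral_const_mul, integral_const_mul, integral_sub' i2 i1,
    z1, z2, sub_zero, mul_zero, add_zero] at hi
  have e1 : nrm 0 (ds φ) univ + nrm 0 b univ ≤ (δ⁻¹ * δ⁻¹).toNNReal * nrm 0 w univ := by
    rw [ea, eb, ew, ← ENNReal.ofReal_add (integral_nonneg fun p => sq_nonneg _)
      (integral_nonneg fun p => sq_nonneg _)]
    change _ ≤ ENNReal.ofReal _ * _
    rw [← ENNReal.ofReal_mul (by positivity), mul_assoc]
    exact ENNReal.ofReal_le_ofReal ((le_inv_mul_iff₀ hδ).2 hi)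
  have e2 : nrm 0 φ univ + nrm 0 (dt φ) univ ≤ c * nrm 0 b univ := by
    have m1 : Measurable fun s => ∫⁻ t in Icc (0 : ℝ) 1, ‖φ (s, t)‖ₑ ^ 2 :=
      (c1.enorm.measurable.pow_const 2).lintegral_prod_right'
    have m2 : Measurable fun s => ∫⁻ t in Icc (0 : ℝ) 1, ‖b (s, t)‖ₑ ^ 2 :=
      (cb.enorm.measurable.pow_const 2).lintegral_prod_right'
    rw [fub_EndA c1, fub_EndA c3, fub_EndA cb, ← lintegral_add_left m1,
      ← lintegral_const_mul _ m2]
    refine lintegral_mono fun s => ?_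
    have d1 : ∀ t, deriv (fun t => φ (s, t)) t = dt φ (s, t) := fun t =>
      (hasDerivAt_dt (h1.differentiable (by simp) _)).deriv
    have d2 : ContDiff ℝ 1 fun t => φ (s, t) :=
      (h1.of_le (by exact_mod_cast le_top)).comp (contDiff_const.prodMk contDiff_id)
    have h5 := hode _ d2 (h2 s)
    simp only [d1] at h5
    rw [lintegral_add_left (d2.continuous.enorm.measurable.pow_const 2)] at h5
    exact h5
  calc nrm 1 φ univ = nrm 0 (ds φ) univ + (nrm 0 φ univ + nrm 0 (dt φ) univ) := by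
        rw [nrm_succ]
        ring
    _ ≤ nrm 0 (ds φ) univ + c * nrm 0 b univ := add_le_add_right e2 _
    _ ≤ (c + 1) * (nrm 0 (ds φ) univ + nrm 0 b univ) :=
        le_iff_exists_add.2 ⟨c * nrm 0 (ds φ) univ + nrm 0 b univ, by ring⟩
    _ ≤ (c + 1) * ((δ⁻¹ * δ⁻¹).toNNReal * nrm 0 w univ) := mul_le_mul_right e1 _
    _ = _ := by
        push_cast
        ring

end

end Pool.Agent.P.MP_de3acd_gt.FH
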