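import Pool.Agent.P.MP_de3acd_gt.FH.NC
import Pool.Agent.P.MP_de3acd_gt.FH.IE2

/-! The gradient bound.
Sketch: lower: replace v by g ∘ v with ‖g (v 0)‖ ≤ A₀ (Fr.dom; all hypotheses are invariant) and t₀ by Int.fract t₀. dt v = J (ds v) + ε 𝕏 is bounded in nm (gj_cmp,
bound), so v and fderiv v are bounded on ball 0 1 (Fr.path along rays, nm_cmp, fderiv_eq_ds_dt). ck_of_c1 with k = 2, r = 1 / 2, control (t₀ + ε q.2, ε, κ q),
𝕁 ((t, ε, k), z) = J t z, 𝔽 = ε • J t z (𝕏 t (k, z)), plEll_of_cpt form_om, at all points of ball 0 (1 / 2): ds v is Lipschitz there, so ‖ds v‖ ≥ const on a small ball.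
gb: take e from lower (with the bound 2^5 A for the rescaled control), ρ from nc for e / 2 and a bound A'' for the integral. If f p = nm (u p) (ds u p) exceeds a large M at p,
Mathlib's hofer (with ε = 1 / 8) gives p', ε' ≤ 1 / 8 with ε' f p' ≥ M / 8 ≥ 2 ρ and f ≤ 2 f p' near p'. Rescale v q = u (p' + q / R), R = f p'. The integral of
gj (ds v) over closedBall 0 r is the energy of u over closedBall p' (r / R) (integral_comp_smul, integral_add_left_eq_self), at most en u because the density is periodic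
(integral_tsl, setIntegral_mono_set). gj (ds v) = om (ds v) (dt v) - om (ds v) (𝕏 / R), abs_om_le. -/

open Set Filter Topology MeasureTheory
open scoped ContDiff NNReal ENNReal RealInnerProductSpace

namespace Pool.Agent.P.MP_de3acd_gt.FH

noncomputable section

variable {Γ : Subgroup (Equiv.Perm E)} {B : ℝ → E →L[ℝ] E} {J : ℝ → E → E →L[ℝ] E}
  {H G K K' : ℝ → E → ℝ} {Y Y' Z : ℝ → E → E} {γ g : Equiv.Perm E} {x y w : ℝ → E} {u : Pl → E}
variable {C : Type} [NormedAddCommGroup C] [NormedSpace ℝ C] [FiniteDimensional ℝ C]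

variable {𝕏 : ℝ → C × E → E}

theorem solve_GB {j : E →L[ℝ] E} (hj : Cpt om j) {a b : E} (e : a + j b = 0) : b = j a := by
  have := congrArg j e
  rw [map_add, hj.1, map_zero, add_neg_eq_zero] at this
  exact this.symm

theorem cont_gj_GB (hJ : ACS om J) {α : Type} [TopologicalSpace α] {τ : α → ℝ} {z v : α → E}
    (hτ : Continuous τ) (hz : Continuous z) (hv : Continuous v) :
    Continuous fun a => gj om J (τ a) (z a) (v a) := by
  obtain ⟨L, hL, -⟩ := form_om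
  simp only [gj, hL]
  exact (L.continuous.comp hv).clm_apply
    ((hJ.1.1.continuous.comp (hτ.prodMk hz)).clm_apply hv)

theorem cont_nm_GB (h : Fr Γ B) {z v : Pl → E} (hz : Continuous z) (hv : Continuous v) :
    Continuous fun a => nm B (z a) (v a) :=
  Continuous.comp (f := fun a => (z a, v a)) h.continuous_nm (hz.prodMk hv)

theorem comp_GB (h : Fr Γ B) (hg : g ∈ Γ) {v : Pl → E} (hv : ContDiff ℝ ∞ v) (q : Pl) :
    ds (g ∘ v) q = lin g (ds v q) ∧ dt (g ∘ v) q = lin g (dt v q) := by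
  obtain ⟨s, t⟩ := q
  have d := ((h.contDiff hg).comp hv).differentiable (by simp) (s, t)
  have d' := hv.differentiable (by simp) (s, t)
  exact ⟨(hasDerivAt_ds d).unique (h.hasDerivAt hg (hasDerivAt_ds d')),
    (hasDerivAt_dt d).unique (h.hasDerivAt hg (hasDerivAt_dt d'))⟩

theorem lin_GB (t₀ : ℝ) {ε : ℝ} (hε : |ε| ≤ 1) (i : ℕ) (q : Pl) :
    ‖iteratedFDeriv ℝ i (fun q : Pl => t₀ + ε * q.2) q‖ ≤ max |t₀ + ε * q.2| 1 := by
  rcases i with _ | i
  · rw [norm_iteratedFDeriv_zero]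
    exact le_max_left _ _
  · have e : fderiv ℝ (fun q : Pl => t₀ + ε * q.2) =
        fun _ => ε • ContinuousLinearMap.snd ℝ ℝ ℝ :=
      funext fun q => ((hasFDerivAt_snd.const_smul ε).const_add t₀).fderiv
    rw [← norm_iteratedFDeriv_fderiv, e]
    refine le_max_of_le_right ?_
    rcases i with _ | i
    · rw [norm_iteratedFDeriv_zero, norm_smul]
      exact mul_le_one₀ hε (norm_nonneg _) (ContinuousLinearMap.norm_snd_le _ _ _)
    · rw [iteratedFDeriv_succ_const]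
      simp

theorem const_GB {ε : ℝ} (hε : |ε| ≤ 1) (i : ℕ) (q : Pl) :
    ‖iteratedFDeriv ℝ i (fun _ : Pl => ε) q‖ ≤ 1 := by
  rcases i with _ | i
  · rw [norm_iteratedFDeriv_zero]
    exact hε
  · rw [iteratedFDeriv_succ_const]
    simp

theorem nm_fd_GB (B : ℝ → E →L[ℝ] E) (z : E) (v : Pl → E) (p : Pl) {q : Pl} (hq : ‖q‖ ≤ 1) :
    nm B z (fderiv ℝ v p q) ≤ nm B z (ds v p) + nm B z (dt v p) := by
  rw [fderiv_eq_ds_dt]
  refine (nm_add_le _ _ _ _).trans ?_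
  rw [nm_smul, nm_smul]
  exact add_le_add (mul_le_of_le_one_left (nm_nonneg _ _ _) ((norm_fst_le q).trans hq))
    (mul_le_of_le_one_left (nm_nonneg _ _ _) ((norm_snd_le q).trans hq))

theorem c1_GB (h : Fr Γ B) (A₀ N : ℝ) : ∃ A₁, ∀ v : Pl → E, ContDiff ℝ ∞ v → ‖v 0‖ ≤ A₀ →
    (∀ q ∈ Metric.closedBall (0 : Pl) 1, nm B (v q) (ds v q) + nm B (v q) (dt v q) ≤ N) →
      ∀ q ∈ Metric.closedBall (0 : Pl) 1, ‖v q‖ ≤ A₁ ∧ ‖fderiv ℝ v q‖ ≤ A₁ := by
  obtain ⟨A₁, h1⟩ := h.path A₀ N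
  obtain ⟨D, hD, h2⟩ := h.nm_cmp A₁
  refine ⟨max A₁ (D * N), fun v hv h0 hN q hq => ?_⟩
  have b : ‖v q‖ ≤ A₁ := by
    have hq' : ‖q‖ ≤ 1 := mem_closedBall_zero_iff.1 hq
    have c : ContDiff ℝ ∞ fun t : ℝ => v (t • q) := hv.comp (contDiff_id.smul contDiff_const)
    have := h1 (fun t => v (t • q)) 0 1 c zero_le_one (by simpa using h0) ?_ 1 (by simp)
    · simpa using this
    · have := intervalIntegral.norm_integral_le_of_norm_le_const (a := 0) (b := 1) (C := N)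
        (f := fun t : ℝ => nm B (v (t • q)) (deriv (fun t : ℝ => v (t • q)) t)) fun t ht => by
          rw [uIoc_of_le zero_le_one] at ht
          have d : HasDerivAt (fun t : ℝ => v (t • q)) (fderiv ℝ v (t • q) q) t := by
            have := (hv.differentiable (by simp) (t • q)).hasFDerivAt.comp_hasDerivAt t
              ((hasDerivAt_id t).smul_const q)
            rw [one_smul] at this
            exact this
          rw [d.deriv, Real.norm_of_nonneg (nm_nonneg _ _ _)]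
          refine (nm_fd_GB _ _ _ _ hq').trans (hN _ (mem_closedBall_zero_iff.2 ?_))
          rw [norm_smul, Real.norm_of_nonneg ht.1.le]
          exact mul_le_one₀ ht.2 (norm_nonneg _) hq'
      rw [sub_zero, abs_one, mul_one] at this
      exact (le_abs_self _).trans this
  have hN0 : 0 ≤ N := (add_nonneg (nm_nonneg _ _ _) (nm_nonneg _ _ _)).trans (hN q hq)
  refine ⟨b.trans (le_max_left _ _), le_max_of_le_right ?_⟩
  refine ContinuousLinearMap.opNorm_le_of_unit_norm (by positivity) fun a ha => ?_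
  exact (h2 (v q) _ ((abs_tau_le _).trans b)).2.trans
    (mul_le_mul_of_nonneg_left ((nm_fd_GB _ _ _ _ ha.le).trans (hN q hq)) (by positivity))

theorem lip_GB (hJ : ACS om J) (hX : SP 𝕏) (A : ℝ) : ∃ L, 0 < L ∧
    ∀ (κ : Pl → C) (v : Pl → E) (t₀ ε : ℝ), ContDiff ℝ ∞ κ → ContDiff ℝ ∞ v → |t₀| ≤ 1 → |ε| ≤ 1 →
      (∀ q ∈ Metric.closedBall (0 : Pl) 1,
        ds v q + J (t₀ + ε * q.2) (v q) (dt v q - ε • 𝕏 (t₀ + ε * q.2) (κ q, v q)) = 0 ∧
          ‖v q‖ ≤ A ∧ ‖fderiv ℝ v q‖ ≤ A ∧ ∀ i ≤ 5, ‖iteratedFDeriv ℝ i κ q‖ ≤ A) →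
        ∀ q ∈ Metric.ball (0 : Pl) (1 / 2), ‖ds v q - ds v 0‖ ≤ L * ‖q‖ := by
  obtain ⟨M, -, hM⟩ := hJ.1.bound_JetC A
  obtain ⟨c₀, hc⟩ := plEll_of_cpt form_om M
  have j : ContDiff ℝ ∞ fun x : (ℝ × ℝ × C) × E => J x.1.1 x.2 :=
    hJ.1.1.comp (contDiff_fst.fst.prodMk contDiff_snd)
  have f : ContDiff ℝ ∞ fun x : (ℝ × ℝ × C) × E => J x.1.1 x.2 (x.1.2.1 • 𝕏 x.1.1 (x.1.2.2, x.2)) :=
    j.clm_apply (contDiff_fst.snd.fst.smul (hX.1.comp (contDiff_fst.fst.prodMk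
      (contDiff_fst.snd.snd.prodMk contDiff_snd))))
  obtain ⟨A', hA⟩ := ck_of_c1 j f 2 (r := 1 / 2) one_half_pos c₀ (max A 2)
  refine ⟨max A' 1, lt_max_of_lt_right one_pos, fun κ v t₀ ε hκ hv ht hε hh q hq => ?_⟩
  have l : ContDiff ℝ ∞ fun q : Pl => t₀ + ε * q.2 :=
    contDiff_const.add (contDiff_const.mul contDiff_snd)
  have k : ContDiff ℝ ∞ fun q : Pl => (t₀ + ε * q.2, ε, κ q) := l.prodMk (contDiff_const.prodMk hκ)
  have := (convex_ball (0 : Pl) (1 / 2)).norm_image_sub_le_of_norm_fderiv_le (𝕜 := ℝ) (f := ds v)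
    (C := max A' 1) (fun p _ => (contDiff_ds hv).differentiable (by simp) p) (fun p hp => ?_)
    (Metric.mem_ball_self one_half_pos) hq
  · rwa [sub_zero] at this
  have sub : Metric.ball p (1 / 2) ⊆ Metric.closedBall 0 1 := fun x hx => by
    have := dist_triangle x p 0
    rw [Metric.mem_ball] at hx hp
    rw [Metric.mem_closedBall]
    linarith
  rw [← norm_iteratedFDeriv_one]
  refine (dir_IE2 hv (by simp) 1 p).trans (le_max_of_le_left ?_)
  refine hA (fun q => (t₀ + ε * q.2, ε, κ q)) v p k hv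
    (hc _ _ (j.continuous.comp (k.prodMk hv).continuous) fun x hx =>
      ⟨hJ.2 _ _, hM _ _ (hh x (sub hx)).2.1⟩) fun x hx => ?_
  obtain ⟨e, b0, b1, b2⟩ := hh x (sub hx)
  refine ⟨?_, b0.trans (le_max_left _ _), b1.trans (le_max_left _ _), fun i hi => ?_⟩
  · rw [map_sub, ← add_sub_assoc, sub_eq_zero] at e
    exact e
  · rw [pair_IE2 l (contDiff_const.prodMk hκ), pair_IE2 contDiff_const hκ]
    refine max_le ((lin_GB t₀ hε i x).trans (le_max_of_le_right (max_le ?_ one_le_two)))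
      (max_le ((const_GB hε i x).trans (le_max_of_le_right one_le_two))
        ((b2 i hi).trans (le_max_left _ _)))
    have x2 : |x.2| ≤ 1 := (norm_snd_le x).trans (mem_closedBall_zero_iff.1 (sub hx))
    have := abs_add_le t₀ (ε * x.2)
    rw [abs_mul] at this
    have := mul_le_one₀ hε (abs_nonneg _) x2
    linarith

theorem dt_le_GB {D DX a ε t : ℝ} {z p q X : E} (hJ : ACS om J) (hD : 1 ≤ D)
    (h1 : nm B z (J t z p) ≤ D * nm B z p) (h2 : nm B z X ≤ DX) (h3 : nm B z p ≤ a)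
    (e : p + J t z (q - ε • X) = 0) : nm B z q ≤ D * a + |ε| * DX := by
  have e' := solve_GB (hJ.2 t z) e
  rw [sub_eq_iff_eq_add] at e'
  rw [e']
  refine (nm_add_le _ _ _ _).trans (add_le_add (h1.trans ?_) ?_)
  · exact mul_le_mul_of_nonneg_left h3 (by positivity)
  · rw [nm_smul]
    exact mul_le_mul_of_nonneg_left h2 (abs_nonneg _)

theorem lower_GB (h : Fr Γ B) (hJ : IJ om Γ J) (hX : SP 𝕏) (inv : ∀ t k, Ivf Γ fun z => 𝕏 t (k, z))
    (A A₀ : ℝ) : ∃ e > 0, ∀ (κ : Pl → C) (v : Pl → E) (t₀ ε : ℝ), ContDiff ℝ ∞ κ →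
      ContDiff ℝ ∞ v → ‖v 0‖ ≤ A₀ → |t₀| ≤ 1 → |ε| ≤ 1 → (∀ q ∈ Metric.closedBall (0 : Pl) 1,
        ds v q + J (t₀ + ε * q.2) (v q) (dt v q - ε • 𝕏 (t₀ + ε * q.2) (κ q, v q)) = 0 ∧
          nm B (v q) (ds v q) ≤ 2 ∧ ∀ i ≤ 5, ‖iteratedFDeriv ℝ i κ q‖ ≤ A) →
        nm B (v 0) (ds v 0) = 1 →
          e ≤ ∫ q in Metric.closedBall (0 : Pl) 1, gj om J (t₀ + ε * q.2) (v q) (ds v q) := by
  obtain ⟨D, hD, h1⟩ := h.gj_cmp hJ
  obtain ⟨DX, h2⟩ := h.bound hX inv A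
  obtain ⟨A₁, h3⟩ := c1_GB h A₀ (2 + (D * 2 + max DX 0))
  obtain ⟨D₂, hD₂, h4⟩ := h.nm_cmp A₁
  obtain ⟨L, hL, h5⟩ := lip_GB hJ.1 hX (max A A₁)
  obtain ⟨δ, hδ, δ1, δ2⟩ : ∃ δ : ℝ, 0 < δ ∧ δ ≤ 1 / 4 ∧ L * δ ≤ 1 / (2 * D₂) :=
    ⟨min (1 / 4) (1 / (2 * D₂) / L), by positivity, min_le_left _ _,
      (le_div_iff₀' hL).1 (min_le_right _ _)⟩
  have hV : 0 < (volume : Measure Pl).real (Metric.closedBall 0 δ) :=
    ENNReal.toReal_pos (Metric.measure_closedBall_pos _ _ hδ).ne' measure_closedBall_lt_top.ne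
  refine ⟨(1 / (2 * D₂) / D₂) ^ 2 / D * (volume : Measure Pl).real (Metric.closedBall 0 δ),
    by positivity, fun κ v t₀ ε hκ hv h0 ht hε hh e1 => ?_⟩
  have b := h3 v hv h0 fun q hq => add_le_add (hh q hq).2.1 ((dt_le_GB hJ.1 hD (h1 _ _ _).2.2
    ((h2 _ _ _ (norm_iteratedFDeriv_zero.symm.trans_le ((hh q hq).2.2 0 (by omega)))).trans
      (le_max_left _ 0)) (hh q hq).2.1 (hh q hq).1).trans
        (add_le_add le_rfl (mul_le_of_le_one_left (le_max_right _ _) hε)))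
  have lip := h5 κ v t₀ ε hκ hv ht hε fun q hq => ⟨(hh q hq).1, (b q hq).1.trans (le_max_right _ _),
    (b q hq).2.trans (le_max_right _ _), fun i hi => ((hh q hq).2.2 i hi).trans (le_max_left _ _)⟩
  have c : Continuous fun q : Pl => gj om J (t₀ + ε * q.2) (v q) (ds v q) :=
    cont_gj_GB hJ.1 (by fun_prop) hv.continuous (contDiff_ds hv).continuous
  have sub : Metric.closedBall (0 : Pl) δ ⊆ Metric.closedBall 0 1 :=
    Metric.closedBall_subset_closedBall (by linarith)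
  refine le_trans (setIntegral_ge_of_const_le_real measurableSet_closedBall
    measure_closedBall_lt_top.ne (fun q hq => ?_)
    (c.continuousOn.integrableOn_compact (isCompact_closedBall _ _)))
    (setIntegral_mono_set (c.continuousOn.integrableOn_compact (isCompact_closedBall _ _))
      (Eventually.of_forall fun q => Cpt.nonneg form_om (hJ.1.2 _ _) _) sub.eventuallyLE)
  have hq' := mem_closedBall_zero_iff.1 hq
  have a0 := (h4 (v 0) (ds v 0) ((abs_tau_le _).trans (b 0 (by simp)).1)).1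
  have a1 := (h4 (v q) (ds v q) ((abs_tau_le _).trans (b q (sub hq)).1)).2
  have a2 := (lip q (mem_ball_zero_iff.2 (by linarith))).trans
    ((mul_le_mul_of_nonneg_left hq' hL.le).trans δ2)
  have a3 := norm_sub_norm_le (ds v 0) (ds v q)
  rw [norm_sub_rev] at a3
  rw [e1, ← div_le_iff₀' (by positivity)] at a0
  have a4 : 1 / (2 * D₂) / D₂ ≤ nm B (v q) (ds v q) := by
    rw [div_le_iff₀' (by positivity)]
    have : 1 / D₂ = 1 / (2 * D₂) + 1 / (2 * D₂) := by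
      field_simp
      norm_num
    linarith
  rw [div_le_iff₀' (by positivity)]
  exact (pow_le_pow_left₀ (by positivity) a4 2).trans (h1 _ _ _).1

theorem Fr.lower (h : Fr Γ B) (hJ : IJ om Γ J) (hX : SP 𝕏) (inv : ∀ t k, Ivf Γ fun z => 𝕏 t (k, z))
    (A : ℝ) : ∃ e > 0, ∀ (κ : Pl → C) (v : Pl → E) (t₀ ε : ℝ), ContDiff ℝ ∞ κ → ContDiff ℝ ∞ v →
      |ε| ≤ 1 → (∀ q ∈ Metric.closedBall (0 : Pl) 1,
        ds v q + J (t₀ + ε * q.2) (v q) (dt v q - ε • 𝕏 (t₀ + ε * q.2) (κ q, v q)) = 0 ∧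
          nm B (v q) (ds v q) ≤ 2 ∧ ∀ i ≤ 5, ‖iteratedFDeriv ℝ i κ q‖ ≤ A) →
        nm B (v 0) (ds v 0) = 1 →
          e ≤ ∫ q in Metric.closedBall (0 : Pl) 1, gj om J (t₀ + ε * q.2) (v q) (ds v q) := by
  obtain ⟨A₀, h0⟩ := h.dom
  obtain ⟨e, he, h1⟩ := lower_GB h hJ hX inv A A₀
  refine ⟨e, he, fun κ v t₀ ε hκ hv hε hh e1 => ?_⟩
  obtain ⟨g, hg, b⟩ := h0 (v 0)
  obtain ⟨L, hL⟩ := h.aff hg
  have a : ∀ s, Int.fract t₀ + s = t₀ + s - (⌊t₀⌋ : ℝ) := fun s => by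
    rw [Int.fract]
    ring
  have pJ : ∀ s, J (Int.fract t₀ + s) = J (t₀ + s) := fun s => by
    rw [a]
    simpa using Function.Periodic.sub_int_mul_eq (f := J) (x := t₀ + s) hJ.1.1.2 ⌊t₀⌋
  have pX : ∀ s, 𝕏 (Int.fract t₀ + s) = 𝕏 (t₀ + s) := fun s => by
    rw [a]
    simpa using Function.Periodic.sub_int_mul_eq (f := 𝕏) (x := t₀ + s) hX.2 ⌊t₀⌋
  refine (h1 κ (g ∘ v) (Int.fract t₀) ε hκ ((h.contDiff hg).comp hv) b
    (abs_le.2 ⟨by linarith [Int.fract_nonneg t₀], (Int.fract_lt_one t₀).le⟩) hε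
    (fun q hq => ⟨?_, ?_, (hh q hq).2.2⟩) ?_).trans_eq (integral_congr_ae
      (Eventually.of_forall fun q => ?_))
  · have i := inv (t₀ + ε * q.2) (κ q) g hg (v q)
    have j := hJ.2 g hg (t₀ + ε * q.2) (v q) (dt v q - ε • 𝕏 (t₀ + ε * q.2) (κ q, v q))
    rw [(comp_GB h hg hv q).1, (comp_GB h hg hv q).2, pJ, pX, Function.comp_apply]
    simp only [hL] at i j ⊢
    rw [i, ← map_smul, ← map_sub, j, ← map_add, (hh q hq).1, map_zero]
  · rw [(comp_GB h hg hv q).1, Function.comp_apply, h.nm_inv hg]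
    exact (hh q hq).2.1
  · rw [(comp_GB h hg hv 0).1, Function.comp_apply, h.nm_inv hg]
    exact e1
  · have := h.gj_inv hJ hg (t₀ + ε * q.2) (v q) (ds v q)
    simp only [gj] at this ⊢
    rw [(comp_GB h hg hv q).1, pJ, Function.comp_apply, this]

theorem Fr.per_gj (h : Fr Γ B) (hJ : IJ om Γ J) (hγ : γ ∈ Γ) (hu : ContDiff ℝ ∞ u)
    (tw : ∀ s t, u (s, t + 1) = γ (u (s, t))) : (∀ s t, ds u (s, t + 1) = lin γ (ds u (s, t))) ∧
      (∀ s t, dt u (s, t + 1) = lin γ (dt u (s, t))) ∧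
      (Continuous fun p : Pl => gj om J p.2 (u p) (ds u p)) ∧
        Per fun p : Pl => gj om J p.2 (u p) (ds u p) := by
  have d := hu.differentiable (by simp)
  have e1 : ∀ s t, ds u (s, t + 1) = lin γ (ds u (s, t)) := fun s t => by
    have a := hasDerivAt_ds (d (s, t + 1))
    simp only [tw] at a
    exact a.unique (h.hasDerivAt hγ (hasDerivAt_ds (d (s, t))))
  refine ⟨e1, fun s t => ?_, cont_gj_GB hJ.1 continuous_snd hu.continuous
    (contDiff_ds hu).continuous, fun s t => ?_⟩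
  · have a := (hasDerivAt_dt (d (s, t + 1))).comp_add_const t 1
    simp only [tw] at a
    exact a.unique (h.hasDerivAt hγ (hasDerivAt_dt (d (s, t))))
  · have := h.gj_inv hJ hγ t (u (s, t)) (ds u (s, t))
    simp only [gj] at this ⊢
    rw [e1, tw, hJ.1.1.2, this]

theorem resc_GB {F : Type} [NormedAddCommGroup F] [NormedSpace ℝ F] {f : Pl → F}
    (hf : ContDiff ℝ ∞ f) (p : Pl) (c a : ℝ) : (ContDiff ℝ ∞ fun q => a • f (p + c • q)) ∧
      ∀ q w, fderiv ℝ (fun q => a • f (p + c • q)) q w = (a * c) • fderiv ℝ f (p + c • q) w := by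
  refine ⟨(hf.comp (contDiff_const.add (contDiff_id.const_smul c))).const_smul a, fun q w => ?_⟩
  have := ((hf.differentiable (by simp) (p + c • q)).hasFDerivAt.comp q
    (((hasFDerivAt_id q).const_smul c).const_add p)).const_smul a
  rw [show (fun q => a • f (p + c • q)) = a • (f ∘ fun q => p + (c • id) q) from rfl, this.fderiv]
  simp [mul_smul]

theorem cn_resc_GB {F : Type} [NormedAddCommGroup F] [NormedSpace ℝ F] (p : Pl) {c A : ℝ}
    (hc : |c| ≤ 1) (k : ℕ) : ∀ (f : Pl → F) (a : ℝ), ContDiff ℝ ∞ f → |a| ≤ 1 → Cn k f univ A →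
      Cn k (fun q => a • f (p + c • q)) univ A := by
  have z : ∀ (f : Pl → F) (a : ℝ), |a| ≤ 1 → Cn 0 f univ A →
      Cn 0 (fun q => a • f (p + c • q)) univ A := fun f a ha h q _ => by
    rw [norm_smul]
    exact (mul_le_of_le_one_left (norm_nonneg _) ha).trans (h _ (mem_univ _))
  induction k with
  | zero => exact fun f a _ => z f a
  | succ k ih =>
    intro f a hf ha h
    have m : |a * c| ≤ 1 := by
      rw [abs_mul]
      exact mul_le_one₀ ha (abs_nonneg _) hc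
    refine ⟨z f a ha h.1, ?_, ?_⟩
    · rw [show ds (fun q => a • f (p + c • q)) = fun q => (a * c) • ds f (p + c • q) from
        funext fun q => (resc_GB hf p c a).2 q _]
      exact ih _ _ (contDiff_ds hf) m h.2.1
    · rw [show dt (fun q => a • f (p + c • q)) = fun q => (a * c) • dt f (p + c • q) from
        funext fun q => (resc_GB hf p c a).2 q _]
      exact ih _ _ (contDiff_dt hf) m h.2.2

theorem energy_GB {f : Pl → ℝ} (hf : Continuous f) (hp : Per f) (h0 : ∀ p, 0 ≤ f p)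
    (hi : IntegrableOn f St) (p : Pl) {c ρ : ℝ} (hc : 0 < c) (h : c * ρ ≤ 1 / 2) :
    ∫ q in Metric.closedBall (0 : Pl) ρ, c ^ 2 * f (p + c • q) ≤ ∫ q in St, f q := by
  have m := measurePreserving_add_right (volume : Measure Pl) (0, 1 / 2)
  have m' := measurableEmbedding_addRight ((0, 1 / 2) : Pl)
  have e := Measure.setIntegral_comp_smul_of_pos (volume : Measure Pl) (fun x => f (p + x))
    (Metric.closedBall (0 : Pl) ρ) hc
  have r : Module.finrank ℝ Pl = 2 := by simp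
  have i := (m.integrableOn_comp_preimage m').2 ((integrableOn_tsl hf hp (p - (0, 1 / 2))).2 hi)
  have a : ∀ x : Pl, x + (0, 1 / 2) + (p - (0, 1 / 2)) = p + x := fun x => by abel
  rw [integral_const_mul, e, r, smul_eq_mul, mul_inv_cancel_left₀ (by positivity),
    ← integral_tsl hf hp (p - (0, 1 / 2)), ← m.setIntegral_preimage_emb m' _ St]
  simp only [Function.comp_def, a] at i ⊢
  refine setIntegral_mono_set i (Eventually.of_forall fun x => h0 _) (HasSubset.Subset.eventuallyLE ?_)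
  rintro _ ⟨x, hx, rfl⟩
  have x2 : |x.2| ≤ ρ := (norm_snd_le x).trans (mem_closedBall_zero_iff.1 hx)
  have := mul_le_mul_of_nonneg_left x2 hc.le
  rw [← abs_of_pos hc, ← abs_mul, abs_of_pos hc] at this
  have := abs_le.1 (this.trans h)
  refine ⟨mem_univ _, ?_⟩
  change c * x.2 + 1 / 2 ∈ Icc (0 : ℝ) 1
  exact ⟨by linarith [this.1], by linarith [this.2]⟩

theorem sq_GB {D X a b g ε ε₀ : ℝ} (hD : 1 ≤ D) (b0 : 0 ≤ b) (hε : |ε| ≤ ε₀) (p1 : ε₀ ≤ 1)
    (a1 : b ≤ D * a + |ε| * X) (a2 : a ^ 2 ≤ D * g) :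
    a ^ 2 + b ^ 2 ≤ (1 + 2 * D ^ 2) * D * g + ε₀ * (2 * X ^ 2) := by
  have a3 := pow_le_pow_left₀ b0 a1 2
  have a4 := mul_le_mul_of_nonneg_left a2 (show 0 ≤ 1 + 2 * D ^ 2 by positivity)
  have a5 : |ε| ^ 2 ≤ ε₀ := by nlinarith [abs_nonneg ε]
  have a6 := mul_le_mul_of_nonneg_right a5 (show 0 ≤ 2 * X ^ 2 by positivity)
  nlinarith [sq_nonneg (D * a - |ε| * X)]

theorem gj_le_GB (h : Fr Γ B) (hJ : ACS om J) {DX ε ε₀ t : ℝ} {z p q X : E} (hε : |ε| ≤ ε₀)
    (h2 : nm B z X ≤ DX) (h3 : nm B z p ≤ 2) (e : p + J t z (q - ε • X) = 0) :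
    gj om J t z p ≤ om p q + ε₀ * (12 * DX) := by
  obtain ⟨L, hL, -⟩ := form_om
  have a2 := h.abs_om_le z p (ε • X)
  have a3 := mul_le_mul h3 (mul_le_mul hε h2 (nm_nonneg _ _ _) ((abs_nonneg _).trans hε))
    (mul_nonneg (abs_nonneg _) (nm_nonneg _ _ _)) zero_le_two
  rw [nm_smul] at a2
  have a4 := neg_le_abs (om p (ε • X))
  rw [gj, ← solve_GB (hJ.2 t z) e, hL, map_sub, ← hL, ← hL]
  linarith

theorem core_GB (h : Fr Γ B) (hJ : IJ om Γ J) (hX : SP 𝕏) (inv : ∀ t k, Ivf Γ fun z => 𝕏 t (k, z))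
    (A : ℝ) : ∃ ρ, 1 ≤ ρ ∧ ∃ ε₀ > 0, ∀ (κ : Pl → C) (v : Pl → E) (t₀ ε : ℝ), ContDiff ℝ ∞ κ →
      ContDiff ℝ ∞ v → |ε| ≤ ε₀ → Cn 5 κ univ A → (∀ q ∈ Metric.closedBall (0 : Pl) ρ,
        ds v q + J (t₀ + ε * q.2) (v q) (dt v q - ε • 𝕏 (t₀ + ε * q.2) (κ q, v q)) = 0 ∧
          nm B (v q) (ds v q) ≤ 2) → nm B (v 0) (ds v 0) = 1 →
          A < ∫ q in Metric.closedBall (0 : Pl) ρ, gj om J (t₀ + ε * q.2) (v q) (ds v q) := by
  obtain ⟨e, he, h0⟩ := h.lower hJ hX inv (2 ^ 5 * A)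
  obtain ⟨D, hD, h1⟩ := h.gj_cmp hJ
  obtain ⟨DX, hDX, h2⟩ : ∃ DX, 1 ≤ DX ∧ ∀ t k z, ‖k‖ ≤ A → nm B z (𝕏 t (k, z)) ≤ DX := by
    obtain ⟨DX, h2⟩ := h.bound hX inv A
    exact ⟨max DX 1, le_max_right _ _, fun t k z hk => (h2 t k z hk).trans (le_max_left _ _)⟩
  obtain ⟨ρ, hρ, h3⟩ := h.nc ((1 + 2 * D ^ 2) * D * A + 1) (half_pos he)
  obtain ⟨V, hV, hV'⟩ : ∃ V : ℝ, 1 ≤ V ∧ (volume : Measure Pl).real (Metric.closedBall 0 ρ) ≤ V :=
    ⟨_, le_max_right _ _, le_max_left _ _⟩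
  obtain ⟨ε₀, p0, p1, p2, p3⟩ : ∃ ε₀ : ℝ, 0 < ε₀ ∧ ε₀ ≤ 1 ∧ ε₀ * (2 * DX ^ 2 * V) ≤ 1 ∧
      ε₀ * (12 * DX * V) ≤ e / 4 :=
    ⟨min 1 (min (1 / (2 * DX ^ 2 * V)) (e / 4 / (12 * DX * V))), by positivity, min_le_left _ _,
      (le_div_iff₀ (by positivity)).1 ((min_le_right _ _).trans (min_le_left _ _)),
      (le_div_iff₀ (by positivity)).1 ((min_le_right _ _).trans (min_le_right _ _))⟩
  refine ⟨ρ, hρ, ε₀, p0, fun κ v t₀ ε hκ hv hε hk hh e1 => not_le.1 fun hA => ?_⟩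
  have A0 : 0 ≤ A := (norm_nonneg _).trans (hk.le (p := 0) (mem_univ _))
  have c : Continuous fun q : Pl => gj om J (t₀ + ε * q.2) (v q) (ds v q) :=
    cont_gj_GB hJ.1 (by fun_prop) hv.continuous (contDiff_ds hv).continuous
  have ci : ∀ {f : Pl → ℝ}, Continuous f → ∀ r, IntegrableOn f (Metric.closedBall 0 r) :=
    fun hf r => hf.continuousOn.integrableOn_compact (isCompact_closedBall _ _)
  have c1 : Continuous fun q => nm B (v q) (ds v q) :=
    cont_nm_GB h hv.continuous (contDiff_ds hv).continuous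
  have c2 : Continuous fun q => nm B (v q) (dt v q) :=
    cont_nm_GB h hv.continuous (contDiff_dt hv).continuous
  have bX : ∀ q : Pl, nm B (v q) (𝕏 (t₀ + ε * q.2) (κ q, v q)) ≤ DX := fun q =>
    h2 _ _ _ (hk.le (mem_univ _))
  have l := h0 κ v t₀ ε hκ hv (hε.trans p1) (fun q hq => by
    have hq' := Metric.closedBall_subset_closedBall hρ hq
    exact ⟨(hh q hq').1, (hh q hq').2, fun i hi =>
      ((hk.mono hi subset_rfl le_rfl).iteratedFDeriv_le hκ (mem_univ _)).trans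
        (mul_le_mul_of_nonneg_right (pow_le_pow_right₀ one_le_two hi) A0)⟩) e1
  obtain ⟨r, hr, h4⟩ := h3 v hv (by
    refine (setIntegral_mono_on (g := fun q => (1 + 2 * D ^ 2) * D *
      gj om J (t₀ + ε * q.2) (v q) (ds v q) + ε₀ * (2 * DX ^ 2)) (ci ((c1.pow 2).add (c2.pow 2)) ρ)
      (ci ((continuous_const.mul c).add continuous_const) ρ) measurableSet_closedBall
      fun q hq => ?_).trans ?_
    · exact sq_GB hD (nm_nonneg _ _ _) hε p1
        (dt_le_GB hJ.1 hD (h1 _ _ _).2.2 (bX q) le_rfl (hh q hq).1) (h1 _ _ _).1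
    · rw [integral_add ((ci c ρ).const_mul _) (ci continuous_const ρ), integral_const_mul,
        setIntegral_const, smul_eq_mul]
      have := mul_le_mul_of_nonneg_right hV' (show 0 ≤ ε₀ * (2 * DX ^ 2) by positivity)
      have := mul_le_mul_of_nonneg_left hA (show 0 ≤ (1 + 2 * D ^ 2) * D by positivity)
      linarith)
  obtain ⟨L, hL, -⟩ := form_om
  have co : Continuous fun q => om (ds v q) (dt v q) := by
    simp only [hL]
    exact (L.continuous.comp (contDiff_ds hv).continuous).clm_apply (contDiff_dt hv).continuous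
  have sub := Metric.closedBall_subset_closedBall (x := (0 : Pl)) hr.2
  have l2 := setIntegral_mono_set (ci c r)
    (Eventually.of_forall fun q => Cpt.nonneg form_om (hJ.1.2 _ _) _)
    (Metric.closedBall_subset_closedBall hr.1).eventuallyLE
  have l3 := setIntegral_mono_on (g := fun q => om (ds v q) (dt v q) + ε₀ * (12 * DX)) (ci c r)
    (ci (co.add continuous_const) r) measurableSet_closedBall fun q hq =>
      gj_le_GB h hJ.1 hε (bX q) (hh q (sub hq)).2 (hh q (sub hq)).1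
  rw [integral_add (ci co r) (ci continuous_const r), setIntegral_const, smul_eq_mul] at l3
  have := mul_le_mul_of_nonneg_right ((measureReal_mono sub measure_closedBall_lt_top.ne).trans hV')
    (show 0 ≤ ε₀ * (12 * DX) by positivity)
  have := le_abs_self (∫ p in Metric.closedBall (0 : Pl) r, om (ds v p) (dt v p))
  linarith

theorem Fr.gb (h : Fr Γ B) (hJ : IJ om Γ J) (hX : SP 𝕏) (inv : ∀ t k, Ivf Γ fun z => 𝕏 t (k, z))
    (A : ℝ) : ∃ A', ∀ γ ∈ Γ, ∀ (κ : Pl → C) (x y : ℝ → E) (u : Pl → E), ContDiff ℝ ∞ κ →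
      Cn 5 κ univ A → Cyl om γ J (ctl 𝕏 κ) x y u → en om J u ≤ A →
        ∀ p, nm B (u p) (ds u p) ≤ A' ∧ nm B (u p) (dt u p) ≤ A' := by
  obtain ⟨ρ, hρ, ε₀, p0, h0⟩ := core_GB h hJ hX inv A
  obtain ⟨D, hD, h1⟩ := h.gj_cmp hJ
  obtain ⟨DX, h2⟩ := h.bound hX inv A
  obtain ⟨M, M1, M2⟩ : ∃ M : ℝ, 8 * ρ ≤ M ∧ ε₀⁻¹ ≤ M := ⟨_, le_max_left _ _, le_max_right _ _⟩
  refine ⟨max M (D * M + |(1 : ℝ)| * DX), fun γ hγ κ x y u hκ hk hu he => ?_⟩
  have key : ∀ p, nm B (u p) (ds u p) ≤ M := fun p => not_lt.1 fun hp => by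
    obtain ⟨-, -, c, per⟩ := h.per_gj hJ hγ hu.smooth hu.tw
    obtain ⟨ε', q0, p', q1, -, q2, q3⟩ := hofer p (1 / 8) (by norm_num)
      (ϕ := fun p => nm B (u p) (ds u p))
      (cont_nm_GB h hu.smooth.continuous (contDiff_ds hu.smooth).continuous)
      fun p => nm_nonneg _ _ _
    obtain ⟨R, hR⟩ : ∃ R, nm B (u p') (ds u p') = R := ⟨_, rfl⟩
    simp only [hR] at q2 q3
    have R0 : 0 ≤ R := hR ▸ nm_nonneg _ _ _
    have R1 : M < R := by nlinarith
    have R2 : 0 < R := by linarith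
    have R3 : R⁻¹ * ρ ≤ ε' := by
      rw [inv_mul_le_iff₀ R2]
      nlinarith
    have i0 : 0 < R⁻¹ := inv_pos.2 R2
    have R4 : |R⁻¹| ≤ 1 := by
      rw [abs_of_pos i0]
      exact inv_le_one_of_one_le₀ (by linarith)
    obtain ⟨sv, dv⟩ := resc_GB hu.smooth p' R⁻¹ 1
    have kc := cn_resc_GB p' R4 5 κ 1 hκ abs_one.le hk
    have sk := (resc_GB hκ p' R⁻¹ 1).1
    simp only [one_smul, one_mul] at sv dv kc sk
    have d1 : ∀ q, ds (fun q => u (p' + R⁻¹ • q)) q = R⁻¹ • ds u (p' + R⁻¹ • q) := fun q => dv q _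
    have d2 : ∀ q, dt (fun q => u (p' + R⁻¹ • q)) q = R⁻¹ • dt u (p' + R⁻¹ • q) := fun q => dv q _
    have := h0 _ _ p'.2 R⁻¹ sk sv (by
      rw [abs_of_pos i0]
      exact inv_le_of_inv_le₀ p0 (M2.trans R1.le)) kc (fun q hq => ⟨?_, ?_⟩) ?_
    · refine this.not_ge (le_trans (le_of_eq (integral_congr_ae (Eventually.of_forall fun q => ?_)))
        ((energy_GB c per (fun p => Cpt.nonneg form_om (hJ.1.2 _ _) _) hu.en p' i0
          (R3.trans (by linarith))).trans he))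
      obtain ⟨L, hL, -⟩ := form_om
      simp only [d1, gj, hL, map_smul, ContinuousLinearMap.smul_apply, smul_eq_mul]
      rw [sq, mul_assoc]
      rfl
    · rw [d1, d2, ← smul_sub, map_smul, ← smul_add]
      exact (congrArg (R⁻¹ • ·) (hu.eq (p' + R⁻¹ • q))).trans (smul_zero _)
    · rw [d1, nm_smul, abs_of_pos i0, inv_mul_le_iff₀ R2, mul_comm]
      refine q3 _ ?_
      rw [dist_self_add_right, norm_smul, Real.norm_of_nonneg i0.le]
      exact (mul_le_mul_of_nonneg_left (mem_closedBall_zero_iff.1 hq) i0.le).trans R3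
    · rw [d1, nm_smul, abs_of_pos i0, smul_zero, add_zero, hR, inv_mul_cancel₀ R2.ne']
  refine fun p => ⟨(key p).trans (le_max_left _ _), le_max_of_le_right ?_⟩
  refine dt_le_GB (X := 𝕏 p.2 (κ p, u p)) hJ.1 hD (h1 p.2 _ _).2.2 (h2 _ _ _ (hk.le (mem_univ _)))
    (key p) ?_
  rw [one_smul]
  exact hu.eq p

end

end Pool.Agent.P.MP_de3acd_gt.FH
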