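import Pool.Agent.P.MP_de3acd_gt.FH.Act
import Pool.Agent.P.MP_de3acd_gt.FH.GB

/-! The energy estimate.
Sketch: e s = ∫ t in 0..1, gj (ds u (s, t)) is continuous and integrable with integral en u (Fubini: St = univ ×ˢ Icc 0 1, setIntegral_prod, Integrable.integral_prod_left).
From the equation J (ds u) = dt u - X. ends: there are s n → ∓∞ with e (s n) → 0 (an integrable nonnegative function has liminf zero), there X (s, ·) is independent of s,
u (s n, ·) is bounded on Icc 0 1, so ∫ ‖dt u‖ is bounded; act_lim. slice: with a = J (ds u), gj (a + b + c) ≤ 3 (gj a + gj b + gj c), gj (J v) = gj v; GLe for the loop u (s, ·);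
Cpt.abs_form_le with r = 3 / 2 for χ Y and r = 12 for p. energy_le: f s = act (mix (β s)) (u (s, ·)) satisfies e / 4 + f' ≤ |β'| d + 7 P; integrate over [a, b] (the
derivative is continuous), let a, b → ∓∞ along the sequences. -/

open Set Filter Topology MeasureTheory
open scoped ContDiff NNReal ENNReal RealInnerProductSpace

namespace Pool.Agent.P.MP_de3acd_gt.FH

noncomputable section

variable {Γ : Subgroup (Equiv.Perm E)} {B : ℝ → E →L[ℝ] E} {J : ℝ → E → E →L[ℝ] E}
  {H G K K' : ℝ → E → ℝ} {Y Y' Z : ℝ → E → E} {γ g : Equiv.Perm E} {x y w : ℝ → E} {u : Pl → E}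

variable {X : Pl → E → E} {d R β₀ β₁ v η L : ℝ}

theorem om_cont_Ener {α : Type} [TopologicalSpace α] {a b : α → E} (ha : Continuous a)
    (hb : Continuous b) : Continuous fun t => om (a t) (b t) := by
  unfold om ar
  fun_prop

theorem J_cont_Ener (hJ : SP J) {w a : ℝ → E} (hw : Continuous w) (ha : Continuous a) :
    Continuous fun t => J t (w t) (a t) :=
  (hJ.1.continuous.comp (continuous_id.prodMk hw)).clm_apply ha

theorem gj_cont_Ener (hJ : SP J) {w a : ℝ → E} (hw : Continuous w) (ha : Continuous a) :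
    Continuous fun t => gj om J t (w t) (a t) :=
  om_cont_Ener ha (J_cont_Ener hJ hw ha)

theorem sp_cont_Ener {F : Type} [NormedAddCommGroup F] [NormedSpace ℝ F] {Y : ℝ → E → F} (hY : SP Y)
    {w : ℝ → E} (hw : Continuous w) : Continuous fun t => Y t (w t) :=
  hY.1.continuous.comp (continuous_id.prodMk hw)

theorem ham_cont_Ener (hH : SP H) {w : ℝ → E} (hw : Continuous w) :
    Continuous fun t => ham H t (w t) :=
  (contDiff_ham hH.1).continuous.comp (continuous_id.prodMk hw)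

theorem gj_nonneg_Ener (hJ : ACS om J) (t : ℝ) (z a : E) : 0 ≤ gj om J t z a :=
  Cpt.nonneg form_om (hJ.2 t z) a

theorem gj_J_Ener (hJ : ACS om J) (t : ℝ) (z a : E) : gj om J t z (J t z a) = gj om J t z a :=
  (hJ.2 t z).2.1 _ _

theorem gj_smul_Ener (t c : ℝ) (z a : E) : gj om J t z (c • a) = c ^ 2 * gj om J t z a := by
  obtain ⟨M, hM, -⟩ := form_om
  simp only [gj, hM, map_smul, smul_apply, smul_eq_mul]
  ring

theorem gj_add_Ener (hJ : ACS om J) (t : ℝ) (z a b : E) :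
    gj om J t z (a + b) ≤ 2 * gj om J t z a + 2 * gj om J t z b := by
  have h1 := gj_nonneg_Ener hJ t z (a - b)
  obtain ⟨M, hM, -⟩ := form_om
  simp only [gj, hM, map_add, map_sub, add_apply,
    sub_apply] at h1 ⊢
  linarith

theorem gj_add3_Ener (hJ : ACS om J) (t : ℝ) (z a b c : E) :
    gj om J t z (a + b + c) ≤ 3 * gj om J t z a + 3 * gj om J t z b + 3 * gj om J t z c := by
  have h1 := gj_nonneg_Ener hJ t z (a - b)
  have h2 := gj_nonneg_Ener hJ t z (a - c)
  have h3 := gj_nonneg_Ener hJ t z (b - c)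
  obtain ⟨M, hM, -⟩ := form_om
  simp only [gj, hM, map_add, map_sub, add_apply,
    sub_apply] at h1 h2 h3 ⊢
  linarith

theorem eqn_Ener (hJ : ACS om J) (hu : Cyl om γ J X x y u) (s t : ℝ) :
    dt u (s, t) = J t (u (s, t)) (ds u (s, t)) + X (s, t) (u (s, t)) := by
  have h1 := congrArg (J t (u (s, t))) (hu.eq (s, t))
  rw [map_add, map_zero, (hJ.2 t _).1, add_neg_eq_zero] at h1
  rw [h1, sub_add_cancel]

theorem loop_Ener (hu : Cyl om γ J X x y u) (s : ℝ) : Tw γ (fun t => u (s, t)) ∧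
    (∀ t, deriv (fun t => u (s, t)) t = dt u (s, t)) ∧ (Continuous fun t => u (s, t)) ∧
      (Continuous fun t => ds u (s, t)) ∧ Continuous fun t => dt u (s, t) :=
  ⟨⟨hu.smooth.comp (contDiff_const.prodMk contDiff_id), hu.tw s⟩,
    fun t => (hasDerivAt_dt (hu.smooth.differentiable (by simp) (s, t))).deriv,
    hu.smooth.continuous.comp (continuous_const.prodMk continuous_id),
    (contDiff_ds hu.smooth).continuous.comp (continuous_const.prodMk continuous_id),
    (contDiff_dt hu.smooth).continuous.comp (continuous_const.prodMk continuous_id)⟩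

theorem mono_Ener {f g : ℝ → ℝ} (hf : Continuous f) (hg : Continuous g)
    (h : ∀ t ∈ Icc (0 : ℝ) 1, f t ≤ g t) : ∫ t in (0 : ℝ)..1, f t ≤ ∫ t in (0 : ℝ)..1, g t :=
  intervalIntegral.integral_mono_on zero_le_one (hf.intervalIntegrable _ _)
    (hg.intervalIntegrable _ _) h

theorem lin_Ener {f g k : ℝ → ℝ} (hf : Continuous f) (hg : Continuous g) (hk : Continuous k)
    (a b c e : ℝ) : ∫ t in (0 : ℝ)..1, (a * f t + b * g t + c * k t + e) =
      (a * ∫ t in (0 : ℝ)..1, f t) + (b * ∫ t in (0 : ℝ)..1, g t) +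
        (c * ∫ t in (0 : ℝ)..1, k t) + e := by
  have h1 := (hf.const_mul a).intervalIntegrable (μ := volume) 0 1
  have h2 := (hg.const_mul b).intervalIntegrable (μ := volume) 0 1
  have h3 := (hk.const_mul c).intervalIntegrable (μ := volume) 0 1
  rw [intervalIntegral.integral_add ((h1.add h2).add h3) intervalIntegrable_const,
    intervalIntegral.integral_add (h1.add h2) h3, intervalIntegral.integral_add h1 h2]
  simp

theorem lim_Ener {f f' φ : ℝ → ℝ} (hf : ∀ s, HasDerivAt f (f' s) s) (hφ : Integrable φ)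
    (le : ∀ s, f' s ≤ φ s) {a b : ℕ → ℝ} (ha : Tendsto a atTop atBot) (hb : Tendsto b atTop atTop)
    {A A' : ℝ} (hA : Tendsto (fun n => f (a n)) atTop (𝓝 A))
    (hA' : Tendsto (fun n => f (b n)) atTop (𝓝 A')) : A' - A ≤ ∫ s, φ s := by
  refine le_of_tendsto_of_tendsto (hA'.sub hA) (intervalIntegral_tendsto_integral hφ ha hb) ?_
  filter_upwards [ha.eventually_le_atBot 0, hb.eventually_ge_atTop 0] with n h1 h2
  exact intervalIntegral.sub_le_integral_of_hasDeriv_right_of_le (h1.trans h2)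
    (fun s _ => (hf s).continuousAt.continuousWithinAt) (fun s _ => (hf s).hasDerivWithinAt)
    hφ.integrableOn fun s _ => le s

theorem Fr.slices (h : Fr Γ B) (hJ : IJ om Γ J) (hγ : γ ∈ Γ) (hu : Cyl om γ J X x y u) :
    (Continuous fun s => ∫ t in (0 : ℝ)..1, gj om J t (u (s, t)) (ds u (s, t))) ∧
    (Integrable fun s => ∫ t in (0 : ℝ)..1, gj om J t (u (s, t)) (ds u (s, t))) ∧
    (∀ s, 0 ≤ ∫ t in (0 : ℝ)..1, gj om J t (u (s, t)) (ds u (s, t))) ∧
      ∫ s, ∫ t in (0 : ℝ)..1, gj om J t (u (s, t)) (ds u (s, t)) = en om J u := by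
  have hc := (h.per_gj hJ hγ hu.smooth hu.tw).2.2.1
  have e0 : (volume : Measure Pl).restrict St =
      (volume : Measure ℝ).prod (volume.restrict (Icc (0 : ℝ) 1)) := by
    rw [St, Measure.volume_eq_prod, ← Measure.prod_restrict, Measure.restrict_univ]
  have hi : Integrable (fun p : Pl => gj om J p.2 (u p) (ds u p))
      ((volume : Measure ℝ).prod (volume.restrict (Icc (0 : ℝ) 1))) := by
    rw [← e0]
    exact hu.en
  have e1 : (fun s => ∫ t in (0 : ℝ)..1, gj om J t (u (s, t)) (ds u (s, t))) =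
      fun s => ∫ t in Icc (0 : ℝ) 1, gj om J t (u (s, t)) (ds u (s, t)) := funext fun s => by
    rw [intervalIntegral.integral_of_le zero_le_one, integral_Icc_eq_integral_Ioc]
  refine ⟨intervalIntegral.continuous_parametric_intervalIntegral_of_continuous'
    (f := fun s t => gj om J t (u (s, t)) (ds u (s, t))) hc 0 1, ?_, fun s =>
      intervalIntegral.integral_nonneg zero_le_one fun t _ => gj_nonneg_Ener hJ.1 _ _ _, ?_⟩
  · rw [e1]
    exact hi.integral_prod_left
  · rw [e1, en, pair, e0]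
    exact (integral_prod _ hi).symm

theorem Fr.en_pos (h : Fr Γ B) (hJ : IJ om Γ J) (hγ : γ ∈ Γ) (hu : Cyl om γ J X x y u) :
    0 ≤ en om J u ∧ (ds u ≠ 0 → 0 < en om J u) := by
  obtain ⟨h1, h2, h3, h4⟩ := h.slices hJ hγ hu
  rw [← h4]
  refine ⟨integral_nonneg h3, fun h0 => ?_⟩
  obtain ⟨⟨s, t⟩, hp⟩ := Function.ne_iff.1 h0
  have hper : Function.Periodic (fun t => gj om J t (u (s, t)) (ds u (s, t))) 1 := fun t =>
    (h.per_gj hJ hγ hu.smooth hu.tw).2.2.2 s t
  have hpos : 0 < gj om J t (u (s, t)) (ds u (s, t)) := (hJ.1.2 _ _).2.2 _ hp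
  obtain ⟨-, -, c1, c2, -⟩ := loop_Ener hu s
  obtain ⟨t', ht', e⟩ := hper.exists_mem_Ico₀ one_pos t
  refine integral_pos_of_integrable_nonneg_nonzero (x := s) h1 h2 h3 (ne_of_gt ?_)
  exact intervalIntegral.integral_pos one_pos (gj_cont_Ener hJ.1.1 c1 c2).continuousOn
    (fun t _ => gj_nonneg_Ener hJ.1 _ _ _) ⟨t', Ico_subset_Icc_self ht', hpos.trans_eq e⟩

theorem end_Ener (h : Fr Γ B) (hJ : IJ om Γ J) (hγ : γ ∈ Γ) (hK : SP K) (hw : Tw γ w)
    (hu : Cyl om γ J X x y u) {l : Filter ℝ} [l.IsCountablyGenerated]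
    (hl : ∀ S ∈ l, volume S = ⊤) (hY : SP Y) (hX : ∀ᶠ s in l, frz X s = Y)
    (e : TendstoUniformlyOn (fun s t => u (s, t)) w l (Icc 0 1)) : ∃ a : ℕ → ℝ,
      Tendsto a atTop l ∧ Tendsto (fun n => act γ K fun t => u (a n, t)) atTop (𝓝 (act γ K w)) := by
  obtain ⟨-, h2, -, -⟩ := h.slices hJ hγ hu
  obtain ⟨A, hA⟩ := (isCompact_Icc (a := (0 : ℝ)) (b := 1)).exists_bound_of_continuousOn
    hw.1.continuous.continuousOn
  obtain ⟨M, -, hM⟩ := hY.bound_JetC (A + 1)
  obtain ⟨D, hD, hn⟩ := h.nm_cmp (A + 1)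
  obtain ⟨D', hD', hg⟩ := h.gj_cmp hJ
  have h3 : ∃ᶠ s in l, (frz X s = Y ∧ ∀ t ∈ Icc (0 : ℝ) 1, dist (w t) (u (s, t)) < 1) ∧
      ‖∫ t in (0 : ℝ)..1, gj om J t (u (s, t)) (ds u (s, t))‖ < 1 := by
    refine Eventually.and_frequently (hX.and (Metric.tendstoUniformlyOn_iff.1 e 1 one_pos)) ?_
    intro hh
    exact (h2.measure_norm_ge_lt_top one_pos).ne (hl _ (hh.mono fun s hs => not_lt.1 hs))
  obtain ⟨a, ha, hs⟩ := exists_seq_forall_of_frequently h3
  refine ⟨a, ha, h.act_lim hγ hK hw (fun n => (loop_Ener hu (a n)).1)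
    (e.seq_tendstoUniformlyOn a ha) (A := D * D' * D' + (D * D' + M)) fun n => ?_⟩
  obtain ⟨⟨e1, e2⟩, e3⟩ := hs n
  obtain ⟨-, d1, c1, c2, c3⟩ := loop_Ener hu (a n)
  have c4 := gj_cont_Ener hJ.1.1 c1 c2
  simp only [d1]
  have hD0 : 0 ≤ D * D' := by positivity
  refine (mono_Ener (g := fun t => D * D' * D' * gj om J t (u (a n, t)) (ds u (a n, t)) +
    0 * 0 + 0 * 0 + (D * D' + M)) c3.norm (by fun_prop) fun t ht => ?_).trans ?_
  · have b1 : ‖u (a n, t)‖ ≤ A + 1 := by
      have := norm_le_norm_add_norm_sub (w t) (u (a n, t))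
      have := hA t ht
      have := e2 t ht
      rw [dist_eq_norm] at this
      linarith
    have b2 : ‖X (a n, t) (u (a n, t))‖ ≤ M := by
      have : X (a n, t) = Y t := congrFun e1 t
      rw [this]
      exact hM _ _ b1
    have b3 := (hn _ (J t (u (a n, t)) (ds u (a n, t))) ((abs_tau_le _).trans b1)).2
    obtain ⟨b4, -, b5⟩ := hg t (u (a n, t)) (ds u (a n, t))
    have b6 : nm B (u (a n, t)) (ds u (a n, t)) ≤
        D' * gj om J t (u (a n, t)) (ds u (a n, t)) + 1 := by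
      nlinarith [sq_nonneg (nm B (u (a n, t)) (ds u (a n, t)) - 1),
        sq_nonneg (nm B (u (a n, t)) (ds u (a n, t)))]
    have b7 := mul_le_mul_of_nonneg_left b5 (zero_le_one.trans hD)
    have b8 := mul_le_mul_of_nonneg_left b6 hD0
    rw [eqn_Ener hJ.1 hu]
    refine (norm_add_le _ _).trans ?_
    linarith
  · rw [lin_Ener c4 continuous_const continuous_const]
    have := (le_abs_self _).trans e3.le
    have := mul_le_mul_of_nonneg_left this (show 0 ≤ D * D' * D' by positivity)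
    linarith

theorem Fr.act_ends (h : Fr Γ B) (hJ : IJ om Γ J) (hγ : γ ∈ Γ) (hX : Fld X R) (hK : SP K)
    (hK' : SP K') (hx : Tw γ x) (hy : Tw γ y) (hu : Cyl om γ J X x y u) : ∃ a b : ℕ → ℝ,
      Tendsto a atTop atBot ∧ Tendsto b atTop atTop ∧
      Tendsto (fun n => act γ K fun t => u (a n, t)) atTop (𝓝 (act γ K x)) ∧
        Tendsto (fun n => act γ K' fun t => u (b n, t)) atTop (𝓝 (act γ K' y)) := by
  obtain ⟨a, a1, a2⟩ := end_Ener h hJ hγ hK hx hu (l := atBot) (fun S hS => by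
      obtain ⟨c, hc⟩ := mem_atBot_sets.1 hS
      exact top_unique (Real.volume_Iic.symm.trans_le (measure_mono (s := Iic c) hc)))
    (Fam.sp_frz hX 0 (-R)) ((eventually_le_atBot (-R)).mono (hX.left 0)) hu.left
  obtain ⟨b, b1, b2⟩ := end_Ener h hJ hγ hK' hy hu (l := atTop) (fun S hS => by
      obtain ⟨c, hc⟩ := mem_atTop_sets.1 hS
      exact top_unique (Real.volume_Ici.symm.trans_le (measure_mono (s := Ici c) hc)))
    (Fam.sp_frz hX 0 R) ((eventually_ge_atTop R).mono (hX.right 0)) hu.right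
  exact ⟨a, b, a1, b1, a2, b2⟩

theorem pert_Ener (hJ : ACS om J) (hY : ClY Γ J G Y) (hγ : γ ∈ Γ) (hw : Tw γ w) {c : ℝ}
    (hc : c ∈ Icc (0 : ℝ) 1) : ∫ t in (0 : ℝ)..1, gj om J t (w t) (c • Y t (w t)) ≤
      1 / 9 * ∫ t in (0 : ℝ)..1, gj om J t (w t) (deriv w t - ham G t (w t)) := by
  obtain ⟨-, θ, h0, h1, h2⟩ := hY
  have h3 := h2 γ hγ w hw
  have p1 : 0 ≤ ∫ t in (0 : ℝ)..1, gj om J t (w t) (Y t (w t)) :=
    intervalIntegral.integral_nonneg zero_le_one fun t _ => gj_nonneg_Ener hJ _ _ _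
  have p2 : 0 ≤ ∫ t in (0 : ℝ)..1, gj om J t (w t) (deriv w t - ham G t (w t)) :=
    intervalIntegral.integral_nonneg zero_le_one fun t _ => gj_nonneg_Ener hJ _ _ _
  simp only [gj_smul_Ener, intervalIntegral.integral_const_mul]
  have q1 := mul_le_mul_of_nonneg_right (show c ^ 2 ≤ 1 by nlinarith [hc.1, hc.2]) p1
  have q2 := mul_le_mul_of_nonneg_right (show θ ^ 2 ≤ 1 / 9 by nlinarith) p2
  linarith

/-- On good slices the loop is an approximate orbit of `H` or `G`. -/
theorem Dat.slice (D : Dat Γ B J H G d) (hY : ClY Γ J G Y) (hc : Cls J H G Y X β₀ β₁ v η L) :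
    ∃ S : Set ℝ, volume S ≤ ENNReal.ofReal L ∧ ∀ γ ∈ Γ, ∀ x y u, Cyl om γ J X x y u → ∀ s ∉ S,
      ∃ K, (K = H ∨ K = G) ∧
        ∫ t in (0 : ℝ)..1, gj om J t (u (s, t)) (dt u (s, t) - ham K t (u (s, t))) ≤
          3 * ∫ t in (0 : ℝ)..1, gj om J t (u (s, t)) (ds u (s, t)) := by
  obtain ⟨β, χ, p, R, S, hX, -, -, -, -, hχ, -, hS, hs⟩ := hc
  refine ⟨S, hS, fun γ hγ x y u hu s hsS => ?_⟩
  have hJ := Reg.ij D.reg
  obtain ⟨h1, h2⟩ := hs s hsS
  have p1 := (D.fr.slices hJ hγ hu).2.2.1 s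
  obtain ⟨tw, d1, c1, c2, c3⟩ := loop_Ener hu s
  rcases h1 with h1 | h1
  · refine ⟨H, Or.inl rfl, ?_⟩
    have h3 : χ s = 0 := by
      by_contra h3
      have := (hχ s).2 h3
      linarith
    have e : ∀ t, dt u (s, t) - ham H t (u (s, t)) = J t (u (s, t)) (ds u (s, t)) := fun t => by
      rw [eqn_Ener hJ.1 hu, hX]
      simp [fld, h1, h2, h3]
    simp only [e, gj_J_Ener hJ.1]
    linarith
  · refine ⟨G, Or.inr rfl, ?_⟩
    have e : ∀ t, dt u (s, t) - ham G t (u (s, t)) =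
        J t (u (s, t)) (ds u (s, t)) + χ s • Y t (u (s, t)) := fun t => by
      rw [eqn_Ener hJ.1 hu, hX]
      simp only [fld, h1, h2, Pi.add_apply, one_smul, Pi.zero_apply]
      abel
    have q1 := pert_Ener hJ.1 hY hγ tw (hχ s).1
    simp only [d1] at q1
    have c4 := gj_cont_Ener hJ.1.1 c1 c2
    have c5 := gj_cont_Ener hJ.1.1 c1 ((sp_cont_Ener hY.1.1.1 c1).fun_const_smul (χ s))
    have q2 := mono_Ener (gj_cont_Ener hJ.1.1 c1 (c3.fun_sub (ham_cont_Ener D.ih.1 c1)))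
      (g := fun t => 2 * gj om J t (u (s, t)) (ds u (s, t)) +
        2 * gj om J t (u (s, t)) (χ s • Y t (u (s, t))) + 0 * 0 + 0) (by fun_prop) fun t _ => by
        have := gj_add_Ener hJ.1 t (u (s, t)) (J t (u (s, t)) (ds u (s, t))) (χ s • Y t (u (s, t)))
        rw [gj_J_Ener hJ.1, ← e] at this
        linarith
    rw [lin_Ener c4 c5 continuous_const] at q2
    linarith

theorem Dat.energy_le (D : Dat Γ B J H G d) (hY : ClY Γ J G Y) (hc : Cls J H G Y X β₀ β₁ v η L)
    (hX : Fld X R) (hγ : γ ∈ Γ) (hx : Tw γ x) (hy : Tw γ y) (hu : Cyl om γ J X x y u) :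
    en om J u ≤ 4 * (act γ (mix H G β₀) x - act γ (mix H G β₁) y + v * d + 8 * η) := by
  obtain ⟨β, χ, p, R', S, eX, hβ, β0, β1, hv, hχ, ⟨P, iP, hP, hη⟩, -⟩ := hc
  obtain ⟨Q, cQ, hQ, hd⟩ := D.close
  have hJ := Reg.ij D.reg
  have hH := Reg.ih D.reg
  obtain ⟨-, i1, p1, e1⟩ := D.fr.slices hJ hγ hu
  have d0 : 0 ≤ ∫ t in (0 : ℝ)..1, Q t :=
    intervalIntegral.integral_nonneg zero_le_one fun t ht => (abs_nonneg _).trans (hQ t ht 0)
  have P0 : ∀ s, 0 ≤ P s := fun s => (gj_nonneg_Ener hJ.1 _ _ _).trans (hP (s, 0) 0)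
  have iβ : Integrable fun s => |deriv β s| := by
    refine Integrable.abs (Continuous.integrable_of_hasCompactSupport
      (hβ.continuous_deriv (by simp)) (HasCompactSupport.intro
        (isCompact_Icc (a := -R') (b := R')) fun s hs => ?_))
    rcases lt_or_ge s (-R') with h1 | h1
    · have : β =ᶠ[𝓝 s] fun _ => β₀ := (eventually_lt_nhds h1).mono fun s hs => β0 s hs.le
      rw [this.deriv_eq, deriv_const]
    · have h2 : R' < s := lt_of_not_ge fun h2 => hs ⟨h1, h2⟩
      have : β =ᶠ[𝓝 s] fun _ => β₁ := (eventually_gt_nhds h2).mono fun s hs => β1 s hs.le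
      rw [this.deriv_eq, deriv_const]
  obtain ⟨a, b, ha, hb, la, lb⟩ := D.fr.act_ends hJ hγ hX (hH.mix D.ih β₀).1 (hH.mix D.ih β₁).1
    hx hy hu
  have key := lim_Ener (D.fr.hasDerivAt_act hγ hH.1 D.ih.1 hβ hu.smooth hu.tw)
    (φ := fun s => |deriv β s| * d + 7 * P s -
      1 / 4 * ∫ t in (0 : ℝ)..1, gj om J t (u (s, t)) (ds u (s, t)))
    (((iβ.mul_const d).add (iP.const_mul 7)).sub (i1.const_mul _)) (fun s => ?_) ha hb
    (la.congr' ((ha.eventually_le_atBot (-R')).mono fun n hn => by simp only [β0 _ hn]))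
    (lb.congr' ((hb.eventually_ge_atTop R').mono fun n hn => by simp only [β1 _ hn]))
  · rw [integral_sub ((iβ.mul_const d).fun_add (iP.const_mul 7)) (i1.const_mul _),
      integral_add (iβ.mul_const d) (iP.const_mul 7), integral_mul_const, integral_const_mul,
      integral_const_mul, e1] at key
    have q1 := mul_le_mul_of_nonneg_right hv (d0.trans hd)
    have q2 : 0 ≤ ∫ s, P s := integral_nonneg P0
    linarith
  obtain ⟨tw, d1, c1, c2, c3⟩ := loop_Ener hu s
  have e : ∀ t, dt u (s, t) - ham (mix H G (β s)) t (u (s, t)) =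
      J t (u (s, t)) (ds u (s, t)) + χ s • Y t (u (s, t)) + p (s, t) (u (s, t)) := fun t => by
    rw [eqn_Ener hJ.1 hu, eX, ham_mix hH.1 D.ih.1]
    simp only [fld, Pi.add_apply]
    abel
  have c4 := gj_cont_Ener hJ.1.1 c1 c2
  have c5 := gj_cont_Ener hJ.1.1 c1 ((sp_cont_Ener hY.1.1.1 c1).fun_const_smul (χ s))
  have c6 := c3.fun_sub (ham_cont_Ener (hH.mix D.ih (β s)).1 c1)
  have q1 : ∫ t in (0 : ℝ)..1, gj om J t (u (s, t)) (χ s • Y t (u (s, t))) ≤
      ((∫ t in (0 : ℝ)..1, gj om J t (u (s, t)) (ds u (s, t))) + P s) / 2 := by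
    by_cases h0 : χ s = 0
    · simp only [gj_smul_Ener, h0]
      have := p1 s
      have := P0 s
      simp only [ne_eq, OfNat.ofNat_ne_zero, not_false_eq_true, zero_pow, zero_mul,
        intervalIntegral.integral_zero]
      linarith
    · have q1 := pert_Ener hJ.1 hY hγ tw (hχ s).1
      simp only [d1] at q1
      rw [(hχ s).2 h0, mix_one] at e c6
      have q2 := mono_Ener (gj_cont_Ener hJ.1.1 c1 c6)
        (g := fun t => 3 * gj om J t (u (s, t)) (ds u (s, t)) +
          3 * gj om J t (u (s, t)) (χ s • Y t (u (s, t))) + 0 * 0 + 3 * P s) (by fun_prop)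
        fun t _ => by
          have := gj_add3_Ener hJ.1 t (u (s, t)) (J t (u (s, t)) (ds u (s, t)))
            (χ s • Y t (u (s, t))) (p (s, t) (u (s, t)))
          rw [gj_J_Ener hJ.1, ← e] at this
          have := hP (s, t) (u (s, t))
          linarith
      rw [lin_Ener c4 c5 continuous_const] at q2
      linarith
  have c7 := (sp_cont_Ener D.ih.1 c1).fun_sub (sp_cont_Ener hH.1 c1)
  have q2 := mono_Ener ((om_cont_Ener c2 c6).fun_add (c7.const_mul (deriv β s))).fun_neg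
    (g := fun t => -(15 / 24) * gj om J t (u (s, t)) (ds u (s, t)) +
      3 / 4 * gj om J t (u (s, t)) (χ s • Y t (u (s, t))) + |deriv β s| * Q t + 6 * P s)
    (by fun_prop) fun t ht => by
      have r1 := Cpt.abs_form_le form_om (hJ.1.2 t (u (s, t))) (ds u (s, t))
        (χ s • Y t (u (s, t))) (r := 2 / 3) (by norm_num)
      have r2 := Cpt.abs_form_le form_om (hJ.1.2 t (u (s, t))) (ds u (s, t))
        (p (s, t) (u (s, t))) (r := 1 / 12) (by norm_num)
      have r3 := hP (s, t) (u (s, t))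
      have r4 : |deriv β s * (G t (u (s, t)) - H t (u (s, t)))| ≤ |deriv β s| * Q t := by
        rw [abs_mul]
        exact mul_le_mul_of_nonneg_left (hQ t ht _) (abs_nonneg _)
      have r5 : om (ds u (s, t)) (dt u (s, t) - ham (mix H G (β s)) t (u (s, t))) =
          om (ds u (s, t)) (J t (u (s, t)) (ds u (s, t))) +
            om (ds u (s, t)) (χ s • Y t (u (s, t))) + om (ds u (s, t)) (p (s, t) (u (s, t))) := by
        obtain ⟨M, hM, -⟩ := form_om
        simp only [e, hM, map_add]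
      simp only [gj] at r3 ⊢
      linarith [neg_abs_le (om (ds u (s, t)) (χ s • Y t (u (s, t)))),
        neg_abs_le (om (ds u (s, t)) (p (s, t) (u (s, t)))),
        neg_abs_le (deriv β s * (G t (u (s, t)) - H t (u (s, t))))]
  rw [lin_Ener c4 c5 cQ, intervalIntegral.integral_neg] at q2
  have q3 := mul_le_mul_of_nonneg_left hd (abs_nonneg (deriv β s))
  have := P0 s
  linarith

theorem Fr.energy_eq (h : Fr Γ B) (hJ : IJ om Γ J) (hH : IH Γ H) (hγ : γ ∈ Γ) (hx : Tw γ x)
    (hy : Tw γ y) (hu : Cyl om γ J (sta (ham H)) x y u) : en om J u = act γ H x - act γ H y := by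
  obtain ⟨-, i1, -, e1⟩ := h.slices hJ hγ hu
  obtain ⟨a, b, ha, hb, la, lb⟩ := h.act_ends hJ hγ (fld_sta (hH.iy h).1 le_rfl) hH.1 hH.1 hx hy hu
  have hd : ∀ s, HasDerivAt (fun s => act γ H fun t => u (s, t))
      (-∫ t in (0 : ℝ)..1, gj om J t (u (s, t)) (ds u (s, t))) s := fun s => by
    have := h.hasDerivAt_act hγ hH.1 hH.1 (β := fun _ => 0) contDiff_const hu.smooth hu.tw s
    simp only [mix_zero, sub_self, mul_zero, add_zero, eqn_Ener hJ.1 hu, sta,
      add_sub_cancel_right] at this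
    exact this
  have k1 := lim_Ener hd i1.neg (fun _ => le_rfl) ha hb la lb
  have k2 := lim_Ener (fun s => (hd s).neg) i1 (fun _ => (neg_neg _).le) ha hb la.neg lb.neg
  simp only [Pi.neg_apply] at k1
  rw [integral_neg, e1] at k1
  rw [e1] at k2
  linarith

end

end Pool.Agent.P.MP_de3acd_gt.FH
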