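import Pool.Agent.P.MP_de3acd_gt.FH.DopA
import Pool.Agent.P.MP_de3acd_gt.FH.EstL
import Pool.Agent.P.MP_de3acd_gt.FH.DQ

/-! Elliptic estimates and regularity on the cylinder.
Sketch: est1 on test functions from est_cyl (nrm_co, Dop_co, nrm_bil for S φ), then W.induction.
est2: norm_sq_succ, est1 for dS 1 ξ and dT 1 ξ, dS_Dop_le, and est1 for inc 1 ξ (inc_Dop).
reg1: δ = trW 1 a ξ - ξ; Dop 0 (trW a ξ) = trW a (Dop with coefficients translated by -a) (trW_Dop), so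
‖Dop 0 δ‖ ≤ C ‖a‖ by norm_Dop_tsl_sub_le and norm_trW_sub_le, ‖inc δ‖ ≤ C ‖a‖; est1 and exists_inc_of_dq; injectivity
of inc for the equation. nrm_two_lt_top: apply est1 to plat (-T) T 1 • f (Dop_co, product rule), nrm_le_of_exhaust
gives nrm 1 f < ⊤; then rep_toW, Rep.Dop, reg1, Rep.nrm_eq. -/

open Set Filter Topology MeasureTheory
open scoped ContDiff NNReal ENNReal RealInnerProductSpace

namespace Pool.Agent.P.MP_de3acd_gt.FH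

noncomputable section

variable {V : Type} [NormedAddCommGroup V] [InnerProductSpace ℝ V] [Sym V]

variable {σ : ℝ} {j S : Pl → V →L[ℝ] V}

theorem le_of_sq_le_sq_Est {x y : ℝ} (hy : 0 ≤ y) (h : x ^ 2 ≤ y ^ 2) : x ≤ y :=
  (abs_le_of_sq_le_sq' h hy).2

theorem coef_zero_Est (h : Coef σ j S) : Coef σ j (fun _ => 0) :=
  ⟨h.sgn, h.bj, h.pj, bdd_const 0, fun _ _ => rfl, h.cpt⟩

theorem abs_sgn_Est (h : Coef σ j S) : ‖σ‖ = 1 := by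
  rcases h.sgn with e | e <;> simp [e]

theorem real_Est {x y z : ℝ} {c : ℝ≥0}
    (h : ENNReal.ofReal (x ^ 2) + ENNReal.ofReal (y ^ 2) ≤ c * ENNReal.ofReal (z ^ 2)) :
    x ^ 2 + y ^ 2 ≤ c * z ^ 2 := by
  rw [← ENNReal.ofReal_add (sq_nonneg _) (sq_nonneg _), ← ENNReal.ofReal_coe_nnreal,
    ← ENNReal.ofReal_mul c.coe_nonneg] at h
  exact (ENNReal.ofReal_le_ofReal_iff (by positivity)).1 h

theorem top_Est (h : Coef σ j S) : ∃ c : ℝ≥0, ∀ ξ : W 1 V,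
    ‖dS 0 ξ‖ ^ 2 + ‖dT 0 ξ‖ ^ 2 ≤ c * ‖Dop 0 σ j (fun _ => 0) ξ‖ ^ 2 := by
  obtain ⟨A, hA⟩ := h.bj.bound
  obtain ⟨c, hc⟩ := est_cyl (V := V) A
  refine ⟨c, W.induction (isClosed_le (by fun_prop) (by fun_prop)) fun φ => ?_⟩
  have h1 := hc σ j h.sgn h.bj.1.continuous φ.1 φ.2 fun p => Or.inr ⟨h.cpt p, hA p⟩
  have e : (fun p => σ • ds φ.1 p + j p (dt φ.1 p)) = dop σ j (fun _ => 0) φ.1 := by
    funext p
    simp [dop]
  rw [e] at h1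
  rw [dS_co, dT_co, Dop_co zero_le_one (coef_zero_Est h)]
  apply real_Est
  rw [← nrm_co, ← nrm_co, ← nrm_co]
  exact h1

theorem est1 (h : Coef σ j S) : ∃ c > 0, ∀ ξ : W 1 V, ‖ξ‖ ≤ c * (‖Dop 0 σ j S ξ‖ + ‖inc 0 ξ‖) := by
  obtain ⟨c, hc⟩ := top_Est h
  obtain ⟨A, hA0, hA⟩ := h.bS.cn 0
  let B : (V →L[ℝ] V) →L[ℝ] V →L[ℝ] V := ContinuousLinearMap.id ℝ (V →L[ℝ] V)
  have z : toCb (fun _ : Pl => (0 : V →L[ℝ] V)) = 0 :=
    Cb.ext (by rw [fn_toCb (bdd_const 0) (fun _ _ => rfl), map_zero]; rfl)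
  have hs : 0 ≤ √(c : ℝ) := Real.sqrt_nonneg _
  refine ⟨1 + √c * (1 + 9 * ‖B‖ * A), by positivity, fun ξ => ?_⟩
  have e : Dop 0 σ j (fun _ => 0) ξ = Dop 0 σ j S ξ - mul 0 B (toCb S) (inc 0 ξ) := by
    rw [Dop_apply, Dop_apply, z, map_zero]
    simp [B]
  have h1 : ‖mul 0 B (toCb S) (inc 0 ξ)‖ ≤ 9 * ‖B‖ * A * ‖inc 0 ξ‖ :=
    norm_mul_le (by norm_num) B _ (by rw [fn_toCb h.bS h.pS]; exact hA) _
  have h2 : ‖Dop 0 σ j (fun _ => 0) ξ‖ ≤ ‖Dop 0 σ j S ξ‖ + 9 * ‖B‖ * A * ‖inc 0 ξ‖ := by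
    rw [e]
    exact (norm_sub_le _ _).trans (by linarith)
  have h3 := norm_sq_succ 0 ξ
  rw [to0_succ, to0_zero] at h3
  have h4 := hc ξ
  have h5 : ‖ξ‖ ≤ ‖inc 0 ξ‖ + √c * ‖Dop 0 σ j (fun _ => 0) ξ‖ := by
    apply le_of_sq_le_sq_Est
    · positivity
    · have : (√(c : ℝ)) ^ 2 = c := Real.sq_sqrt c.2
      have h6 : 0 ≤ ‖inc 0 ξ‖ * (√c * ‖Dop 0 σ j (fun _ => 0) ξ‖) := by positivity
      rw [add_sq, mul_pow, this]
      nlinarith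
  have h7 := mul_le_mul_of_nonneg_left h2 hs
  have h8 : 0 ≤ √(c : ℝ) * (9 * ‖B‖ * A) * ‖Dop 0 σ j S ξ‖ := by positivity
  have h9 : 0 ≤ √(c : ℝ) * ‖inc 0 ξ‖ := by positivity
  have h10 := norm_nonneg (Dop 0 σ j S ξ)
  nlinarith

theorem est2 (h : Coef σ j S) : ∃ c > 0, ∀ ξ : W 2 V, ‖ξ‖ ≤ c * (‖Dop 1 σ j S ξ‖ + ‖to0 2 ξ‖) := by
  obtain ⟨c, c0, hc⟩ := est1 h
  obtain ⟨A, hA⟩ := dS_Dop_le h
  have A0 := abs_nonneg A
  refine ⟨c + 2 * (c * (1 + (|A| + 1) * c)), by positivity, fun ξ => ?_⟩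
  have n1 := norm_nonneg (Dop 1 σ j S ξ)
  have n2 := norm_nonneg (to0 2 ξ)
  have n3 := norm_nonneg (inc 1 ξ)
  have h1 : ‖inc 1 ξ‖ ≤ c * (‖Dop 1 σ j S ξ‖ + ‖to0 2 ξ‖) := by
    refine (hc _).trans (mul_le_mul_of_nonneg_left (add_le_add ?_ (le_of_eq ?_)) c0.le)
    · rw [← inc_Dop]
      exact norm_inc_le _ _
    · rw [to0_succ, to0_succ, to0_zero]
  have hA' : A * ‖inc 1 ξ‖ ≤ |A| * ‖inc 1 ξ‖ := mul_le_mul_of_nonneg_right (le_abs_self A) n3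
  have key : ∀ (x : W 1 V) (y : W 0 V), ‖y‖ ≤ ‖Dop 1 σ j S ξ‖ →
      ‖y - Dop 0 σ j S x‖ ≤ A * ‖inc 1 ξ‖ → ‖inc 0 x‖ ≤ ‖inc 1 ξ‖ →
      ‖x‖ ≤ c * (1 + (|A| + 1) * c) * (‖Dop 1 σ j S ξ‖ + ‖to0 2 ξ‖) := by
    intro x y hy hx hi
    have h2 : ‖Dop 0 σ j S x‖ ≤ ‖y‖ + ‖y - Dop 0 σ j S x‖ := by
      have := norm_sub_le y (y - Dop 0 σ j S x)
      rwa [sub_sub_cancel] at this
    have h3 : (|A| + 1) * ‖inc 1 ξ‖ ≤ (|A| + 1) * (c * (‖Dop 1 σ j S ξ‖ + ‖to0 2 ξ‖)) :=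
      mul_le_mul_of_nonneg_left h1 (by positivity)
    refine (hc x).trans ?_
    rw [mul_assoc]
    refine mul_le_mul_of_nonneg_left ?_ c0.le
    nlinarith
  have h2 := key (dS 1 ξ) _ (norm_dS_le 0 _) (hA ξ).1 (by rw [inc_dS]; exact norm_dS_le 0 _)
  have h3 := key (dT 1 ξ) _ (norm_dT_le 0 _) (hA ξ).2 (by rw [inc_dT]; exact norm_dT_le 0 _)
  have h4 := norm_le_succ_DQ 1 ξ
  nlinarith

theorem reg1 (h : Coef σ j S) {ξ η : W 1 V} (e : Dop 0 σ j S ξ = inc 0 η) :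
    ∃ ζ : W 2 V, inc 1 ζ = ξ ∧ Dop 1 σ j S ζ = η := by
  obtain ⟨c, c0, hc⟩ := est1 h
  obtain ⟨A, hA⟩ := norm_Dop_tsl_sub_le zero_le_one h
  have tr : ∀ (x : W 1 V) (a : Pl), ‖trW 0 a (inc 0 x) - inc 0 x‖ ≤ 2 * ‖x‖ * ‖a‖ := by
    intro x a
    have h1 := norm_trW_sub_le 0 x a
    have h2 : |a.1| * ‖dS 0 x‖ ≤ ‖a‖ * ‖x‖ :=
      mul_le_mul (norm_fst_le a) (norm_dS_le 0 x) (norm_nonneg _) (norm_nonneg _)
    have h3 : |a.2| * ‖dT 0 x‖ ≤ ‖a‖ * ‖x‖ :=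
      mul_le_mul (norm_snd_le a) (norm_dT_le 0 x) (norm_nonneg _) (norm_nonneg _)
    linarith
  have key : ∀ a : Pl, ‖trW 1 a ξ - ξ‖ ≤ c * (A * ‖ξ‖ + 2 * ‖η‖ + 2 * ‖ξ‖) * ‖a‖ := by
    intro a
    have e1 : Dop 0 σ j S (trW 1 a ξ - ξ) = (trW 0 a (inc 0 η) - inc 0 η) -
        (Dop 0 σ (tsl a j) (tsl a S) - Dop 0 σ j S) (trW 1 a ξ) := by
      rw [← e, trW_Dop zero_le_one h, map_sub, sub_apply]
      abel
    have h1 : ‖(Dop 0 σ (tsl a j) (tsl a S) - Dop 0 σ j S) (trW 1 a ξ)‖ ≤ A * ‖a‖ * ‖ξ‖ := by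
      refine (ContinuousLinearMap.le_opNorm _ _).trans ?_
      rw [norm_trW]
      exact mul_le_mul_of_nonneg_right (hA a) (norm_nonneg _)
    have h2 : ‖Dop 0 σ j S (trW 1 a ξ - ξ)‖ ≤ 2 * ‖η‖ * ‖a‖ + A * ‖a‖ * ‖ξ‖ := by
      rw [e1]
      exact (norm_sub_le _ _).trans (add_le_add (tr η a) h1)
    have h3 : ‖inc 0 (trW 1 a ξ - ξ)‖ ≤ 2 * ‖ξ‖ * ‖a‖ := by
      rw [map_sub, inc_trW]
      exact tr ξ a
    refine (hc _).trans ?_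
    rw [mul_assoc]
    refine mul_le_mul_of_nonneg_left ?_ c0.le
    linarith
  obtain ⟨ζ, hζ⟩ := exists_inc_of_dq (ξ := ξ) (M := c * (A * ‖ξ‖ + 2 * ‖η‖ + 2 * ‖ξ‖))
    fun r hr _ => ⟨by simpa [abs_of_pos hr, hr.le] using key (r, 0),
      by simpa [abs_of_pos hr, hr.le] using key (0, r)⟩
  exact ⟨ζ, hζ, inc_injective 0 (by rw [inc_Dop, hζ, e])⟩

omit [Sym V] in
theorem dop_cut_Est (σ : ℝ) (j S : Pl → V →L[ℝ] V) {χ : Pl → ℝ} (hχ : ContDiff ℝ ∞ χ)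
    (ht : dt χ = 0) {f : Pl → V} (hf : ContDiff ℝ ∞ f) :
    dop σ j S (fun p => χ p • f p) =
      (fun p => χ p • dop σ j S f p) + σ • fun p => ds χ p • f p := by
  funext p
  have d1 := hχ.differentiable (by simp) p
  have d2 := hf.differentiable (by simp) p
  have e1 := ds_bil (ContinuousLinearMap.lsmul ℝ ℝ : ℝ →L[ℝ] V →L[ℝ] V) d1 d2
  have e2 := dt_bil (ContinuousLinearMap.lsmul ℝ ℝ : ℝ →L[ℝ] V →L[ℝ] V) d1 d2
  simp only [ContinuousLinearMap.lsmul_apply, ht, Pi.zero_apply, zero_smul] at e1 e2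
  simp only [dop, e1, e2, Pi.add_apply, Pi.smul_apply, map_add, map_smul, map_zero, smul_add]
  module

theorem nrm_two_lt_top (h : Coef σ j S) {f : Pl → V} (hf : ContDiff ℝ ∞ f) (hp : Per f)
    (h0 : nrm 0 f univ < ⊤) (h1 : nrm 1 (dop σ j S f) univ < ⊤) : nrm 2 f univ < ⊤ := by
  obtain ⟨c, c0, hc⟩ := est1 h
  obtain ⟨A, A1, hA⟩ := cn_plat 0
  have r0 := rep_toW (k := 0) (by norm_num) hf hp h0
  have r1 := rep_toW (k := 1) (by norm_num) (contDiff_dop h hf) (per_dop h hp) h1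
  have r1' := rep_inc.2 r1
  generalize toW 0 f = x at r0
  generalize toW 1 (dop σ j S f) = η at r1 r1'
  have b1 : nrm 1 f univ ≤
      ENNReal.ofReal ((c * (9 * A * ‖inc 0 η‖ + 9 * A * ‖x‖ + 9 * A * ‖x‖)) ^ 2) := by
    refine nrm_le_of_exhaust 1 hf MeasurableSet.univ fun R => ?_
    rw [univ_inter, ← nrm_cut_eq_RepEx 1 f (lt_add_one R)]
    refine (nrm_mono _ le_rfl (subset_univ _)).trans ?_
    have hm := plat_mem_Dsub (-(R + 1)) (R + 1) one_pos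
    have hb := bdd_plat (-(R + 1)) (R + 1) 1
    have hq := per_plat (-(R + 1)) (R + 1) 1
    have ht := dt_plat (-(R + 1)) (R + 1) 1
    have hA' := hA (-(R + 1)) (R + 1) 1 le_rfl
    rw [div_one] at hA'
    generalize plat (-(R + 1)) (R + 1) 1 = χ at hm hb hq ht hA'
    let φ : Dsub V := ⟨_, cut_mem hf hp hm⟩
    have e1 : inc 0 (co 1 φ) = sc 0 χ x := by
      rw [inc_co]
      exact (rep_co 0 φ).unique (r0.sc (by norm_num) hb hq)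
    have e2 : Dop 0 σ j S (co 1 φ) = sc 0 χ (inc 0 η) + σ • sc 0 (ds χ) x := by
      rw [Dop_co zero_le_one h]
      refine (rep_co 0 _).unique ?_
      change Rep 0 _ (dop σ j S fun p => χ p • f p)
      rw [dop_cut_Est σ j S hb.1 ht hf]
      exact (r1'.sc (by norm_num) hb hq).add ((r0.sc (by norm_num) hb.ds hq.ds).smul σ)
        (hb.1.continuous.smul (contDiff_dop h hf).continuous)
        ((hb.ds.1.continuous.smul hf.continuous).const_smul σ)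
    have h2 : ‖co 1 φ‖ ≤ c * (9 * A * ‖inc 0 η‖ + 9 * A * ‖x‖ + 9 * A * ‖x‖) := by
      refine (hc _).trans (mul_le_mul_of_nonneg_left (add_le_add ?_ ?_) c0.le)
      · rw [e2]
        refine (norm_add_le _ _).trans (add_le_add (norm_sc_le (by norm_num) hb hq hA'.1 _) ?_)
        rw [norm_smul, abs_sgn_Est h, one_mul]
        exact norm_sc_le (by norm_num) hb.ds hq.ds hA'.2 _
      · rw [e1]
        exact norm_sc_le (by norm_num) hb hq hA'.1 _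
    change nrm 1 φ.1 univ ≤ _
    rw [nrm_co]
    exact ENNReal.ofReal_le_ofReal (pow_le_pow_left₀ (norm_nonneg _) h2 2)
  have r2 := rep_toW (k := 1) (by norm_num) hf hp (b1.trans_lt ENNReal.ofReal_lt_top)
  obtain ⟨ζ, hζ, -⟩ := reg1 h ((Rep.Dop zero_le_one h r2 hf hp).unique r1')
  rw [← hζ] at r2
  rw [(rep_inc.1 r2).nrm_eq le_rfl hf hp]
  exact ENNReal.ofReal_lt_top

theorem semi_est (h : Coef σ j S) (he : EndEst σ j S) : ∃ χ ∈ Dsub ℝ, ∃ c > 0, ∀ ξ : W 2 V,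
    ‖ξ‖ ≤ c * (‖Dop 1 σ j S ξ‖ + ‖sc 0 χ (to0 2 ξ)‖) := by
  obtain ⟨c, c0, hc⟩ := est2 h
  obtain ⟨R, d, hd⟩ := he
  obtain ⟨A, A1, hA⟩ := cn_plat 0
  have R0 := abs_nonneg R
  have hm := plat_mem_Dsub (-|R|) |R| one_pos
  have hb := bdd_plat (-|R|) |R| 1
  have hq := per_plat (-|R|) |R| 1
  have ht := dt_plat (-|R|) |R| 1
  have hA' := hA (-|R|) |R| 1 le_rfl
  rw [div_one] at hA'
  have hb' := bdd_plat (-(|R| + 1)) (|R| + 1) 1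
  have hq' := per_plat (-(|R| + 1)) (|R| + 1) 1
  have o1 : ∀ p : Pl, |p.1| ≤ R → plat (-|R|) |R| 1 p = 1 := fun p hp =>
    plat_eq_one one_pos (abs_le.1 (hp.trans (le_abs_self R)))
  have m1 : plat (-|R|) |R| 1 * plat (-(|R| + 1)) (|R| + 1) 1 = plat (-|R|) |R| 1 := by
    funext p
    by_cases hp : p.1 ∈ Icc (-(|R| + 1)) (|R| + 1)
    · rw [Pi.mul_apply, plat_eq_one one_pos hp, mul_one]
    · rw [Pi.mul_apply, plat_eq_zero (a := -|R|) one_pos, zero_mul]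
      exact fun h' => hp ⟨by linarith [h'.1], h'.2.le⟩
  have m2 : ds (plat (-|R|) |R| 1) * plat (-(|R| + 1)) (|R| + 1) 1 = ds (plat (-|R|) |R| 1) := by
    funext p
    by_cases hp : p.1 ∈ Icc (-(|R| + 1)) (|R| + 1)
    · rw [Pi.mul_apply, plat_eq_one one_pos hp, mul_one]
    · rw [Pi.mul_apply, ds_plat_eq_zero (a := -|R|) one_pos (by linarith), zero_mul]
      · exact fun h' => hp ⟨by linarith [h'.1], by linarith [h'.2]⟩
      · exact fun h' => hp ⟨by linarith [h'.1], h'.2.le⟩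
  have hm' := plat_mem_Dsub (-(|R| + 1)) (|R| + 1) one_pos
  generalize plat (-(|R| + 1)) (|R| + 1) 1 = χ at hb' hq' m1 m2 hm'
  generalize plat (-|R|) |R| 1 = ρ at hm hb hq ht hA' o1 m1 m2
  have hs : 0 ≤ √(d : ℝ) := Real.sqrt_nonneg _
  have k1 : ∀ x : W 1 V, ‖x - sc 1 ρ x‖ ≤ √d * ‖Dop 0 σ j S (x - sc 1 ρ x)‖ := by
    refine W.induction (isClosed_le (by fun_prop) (by fun_prop)) fun φ => ?_
    let ψ : Dsub V := ⟨_, cut_mem φ.2.1 φ.2.2.1 hm⟩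
    rw [sc_co (by norm_num) hb hq φ ψ fun _ => rfl, ← map_sub, Dop_co zero_le_one h]
    have h1 := hd (φ - ψ).1 (φ - ψ).2 fun p hp => by
      change φ.1 p - ρ p • φ.1 p = 0
      rw [o1 p hp, one_smul, sub_self]
    apply le_of_sq_le_sq_Est (by positivity)
    rw [mul_pow, Real.sq_sqrt d.coe_nonneg]
    have h2 := real_Est (x := ‖co 1 (φ - ψ)‖) (y := 0)
      (z := ‖co 0 ⟨dop σ j S (φ - ψ).1, dop_mem h (φ - ψ).2⟩‖) (c := d) (by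
        rw [← nrm_co, ← nrm_co]
        simpa using h1)
    simpa using h2
  refine ⟨χ, hm', c * (1 + √d * (1 + 9 * A) + 9 * A), by positivity, fun ξ => ?_⟩
  refine (hc ξ).trans ?_
  rw [mul_assoc]
  refine mul_le_mul_of_nonneg_left ?_ c0.le
  rw [to0_succ, to0_succ, to0_zero]
  have h1 := k1 (inc 1 ξ)
  have h2 : ‖Dop 0 σ j S (inc 1 ξ)‖ ≤ ‖Dop 1 σ j S ξ‖ := by
    rw [← inc_Dop]
    exact norm_inc_le _ _
  generalize inc 1 ξ = x at h1 h2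
  generalize ‖Dop 1 σ j S ξ‖ = D at h2
  have D0 : 0 ≤ D := (norm_nonneg _).trans h2
  have h3 : ‖sc 0 ρ (inc 0 x)‖ ≤ 9 * A * ‖sc 0 χ (inc 0 x)‖ := by
    rw [← m1, ← sc_sc (by norm_num) hb hq hb' hq']
    exact norm_sc_le (by norm_num) hb hq hA'.1 _
  have h4 : ‖sc 0 (ds ρ) (inc 0 x)‖ ≤ 9 * A * ‖sc 0 χ (inc 0 x)‖ := by
    rw [← m2, ← sc_sc (by norm_num) hb.ds hq.ds hb' hq']
    exact norm_sc_le (by norm_num) hb.ds hq.ds hA'.2 _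
  have h5 : ‖sc 0 ρ (Dop 0 σ j S x)‖ ≤ 9 * A * D :=
    (norm_sc_le (by norm_num) hb hq hA'.1 _).trans (mul_le_mul_of_nonneg_left h2 (by positivity))
  have h6 : ‖Dop 0 σ j S (x - sc 1 ρ x)‖ ≤ D + (9 * A * D + 9 * A * ‖sc 0 χ (inc 0 x)‖) := by
    rw [map_sub, Dop_sc zero_le_one σ j S hb hq ht]
    refine (norm_sub_le _ _).trans (add_le_add h2 ((norm_add_le _ _).trans (add_le_add h5 ?_)))
    rw [norm_smul, abs_sgn_Est h, one_mul]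
    exact h4
  have h7 : ‖inc 0 x‖ ≤ ‖x - sc 1 ρ x‖ + ‖sc 0 ρ (inc 0 x)‖ := by
    have e : inc 0 x = inc 0 (x - sc 1 ρ x) + sc 0 ρ (inc 0 x) := by
      rw [map_sub, sc, sc, inc_mul zero_le_one, sub_add_cancel]
    conv_lhs => rw [e]
    exact (norm_add_le _ _).trans (add_le_add (norm_inc_le _ _) le_rfl)
  have h8 := mul_le_mul_of_nonneg_left h6 hs
  have n1 := norm_nonneg (sc 0 χ (inc 0 x))
  generalize ‖sc 0 χ (inc 0 x)‖ = K at h3 h8 n1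
  have p1 : 0 ≤ √(d : ℝ) * K := by positivity
  have p2 : 0 ≤ A * D := by positivity
  nlinarith

end

end Pool.Agent.P.MP_de3acd_gt.FH
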