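import Pool.Agent.P.MP_de3acd_gt.Defs

/-! The Hamiltonian Floer complex on the orbit space, its bars and the barcode entropy. -/

open Set Filter Topology MeasureTheory
open scoped ContDiff NNReal ENNReal

namespace Pool.Agent.P.MP_de3acd_gt

noncomputable section

section generic

variable {F : Type} [NormedAddCommGroup F] [NormedSpace ℝ F] {a b a' b' : ℕ}

/-- The derivative in the first variable `s`. -/
def ds (u : Pl → F) (p : Pl) : F := fderiv ℝ u p (1, 0)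

/-- The derivative in the second variable `t`. -/
def dt (u : Pl → F) (p : Pl) : F := fderiv ℝ u p (0, 1)

/-- The strip, a fundamental domain of the cylinder. -/
def St : Set Pl := univ ×ˢ Icc 0 1

/-- The linear part of an affine map. -/
def lin (γ : Equiv.Perm F) (v : F) : F := γ v - γ 0

/-- Smooth square integrable `γ`-twisted vector fields. -/
def Sec (γ : Equiv.Perm F) (ξ : Pl → F) : Prop :=
  ContDiff ℝ ∞ ξ ∧ (∀ s t, ξ (s, t + 1) = lin γ (ξ (s, t))) ∧ MemLp ξ 2 (volume.restrict St)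

/-- Those with compact support on the cylinder. -/
def Tst (γ : Equiv.Perm F) (ξ : Pl → F) : Prop := Sec γ ξ ∧ ∃ R, ∀ p : Pl, R ≤ |p.1| → ξ p = 0

/-- The pairing given by the symplectic form. -/
def pair (Ω : F → F → ℝ) (ξ η : Pl → F) : ℝ := ∫ p in St, Ω (ξ p) (η p)

/-- Compatible complex structures. -/
def Cpt (Ω : F → F → ℝ) (j : F →L[ℝ] F) : Prop :=
  (∀ v, j (j v) = -v) ∧ (∀ u v, Ω (j u) (j v) = Ω u v) ∧ ∀ v, v ≠ 0 → 0 < Ω v (j v)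

/-- The linear equation `ξ' = B ξ` has no nonzero twisted periodic solution. -/
def Nd (γ : Equiv.Perm F) (B : ℝ → F →L[ℝ] F) : Prop :=
  ∀ ξ : ℝ → F, (∀ t, HasDerivAt ξ (B t (ξ t)) t) → (∀ t, ξ (t + 1) = lin γ (ξ t)) → ξ = 0

/-- A Cauchy-Riemann type operator `D` between the loops `x`, `y` with a frame: the operator
`(ξ, μ) ↦ (D ξ + K μ, l ξ + M μ)`. -/
structure Op (F : Type) [NormedAddCommGroup F] [NormedSpace ℝ F] (a b : ℕ) where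
  γ : Equiv.Perm F
  x : ℝ → F
  y : ℝ → F
  j : Pl → F →L[ℝ] F
  S : Pl → F →L[ℝ] F
  K : Fin a → Pl → F
  l : Fin b → Pl → F
  M : Fin b → Fin a → ℝ

/-- The operator `∂_s + j ∂_t + S`. -/
def Op.D (T : Op F a b) (ξ : Pl → F) (p : Pl) : F := ds ξ p + T.j p (dt ξ p) + T.S p (ξ p)

/-- Admissible operators: nondegenerate symplectic asymptotics. -/
structure Adm (Ω : F → F → ℝ) (Γ : Subgroup (Equiv.Perm F)) (T : Op F a b) : Prop where
  mem : T.γ ∈ Γ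
  tw : ∀ t, T.x (t + 1) = T.γ (T.x t) ∧ T.y (t + 1) = T.γ (T.y t)
  smooth : ContDiff ℝ ∞ fun p => (T.j p, T.S p)
  bdd : ∀ k, ∃ C, ∀ p ∈ St, ‖iteratedFDeriv ℝ k (fun p => (T.j p, T.S p)) p‖ ≤ C
  eqv : ∀ s t v, T.j (s, t + 1) (lin T.γ v) = lin T.γ (T.j (s, t) v) ∧
    T.S (s, t + 1) (lin T.γ v) = lin T.γ (T.S (s, t) v)
  cpt : ∀ p, Cpt Ω (T.j p)
  lim : ∀ e : Filter ℝ, e = atBot ∨ e = atTop → ∃ j B : ℝ → F →L[ℝ] F,
    (∀ t, Tendsto (fun s => (T.j (s, t), T.S (s, t))) e (𝓝 (j t, -(j t).comp (B t)))) ∧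
      (∀ t u v, Ω (B t u) v + Ω u (B t v) = 0) ∧ Nd T.γ B
  tst : (∀ i, Tst T.γ (T.K i)) ∧ ∀ i, Tst T.γ (T.l i)

/-- The framed operator has trivial cokernel. -/
def Onto (Ω : F → F → ℝ) (T : Op F a b) : Prop :=
  ∀ (η : Pl → F) (ν : Fin b → ℝ), Sec T.γ η →
    (∀ ξ, Tst T.γ ξ → pair Ω (T.D ξ) η + ∑ i, ν i * pair Ω ξ (T.l i) = 0) →
      (∀ i, pair Ω (T.K i) η + ∑ i', ν i' * T.M i' i = 0) → η = 0 ∧ ν = 0

/-- The framed operator is admissible and invertible. -/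
def Ok (Ω : F → F → ℝ) (Γ : Subgroup (Equiv.Perm F)) (T : Op F a b) : Prop :=
  Adm Ω Γ T ∧ Onto Ω T ∧ ∀ (ξ : Pl → F) (μ : Fin a → ℝ), Sec T.γ ξ →
    (∀ p, T.D ξ p + ∑ i, μ i • T.K i p = 0) →
      (∀ i, pair Ω ξ (T.l i) + ∑ i', T.M i i' * μ i' = 0) → ξ = 0 ∧ μ = 0

/-- Gluing of framed operators. -/
def glue (R : ℝ) (T : Op F a b) (T' : Op F a' b') : Op F (a + a') (b + b') where
  γ := T.γ
  x := T.x
  y := T'.y
  j p := if p.1 ≤ 0 then T.j (p.1 + R, p.2) else T'.j (p.1 - R, p.2)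
  S p := if p.1 ≤ 0 then T.S (p.1 + R, p.2) else T'.S (p.1 - R, p.2)
  K := Fin.append (fun i p => T.K i (p.1 + R, p.2)) fun i p => T'.K i (p.1 - R, p.2)
  l := Fin.append (fun i p => T.l i (p.1 + R, p.2)) fun i p => T'.l i (p.1 - R, p.2)
  M := Fin.append (fun i => Fin.append (T.M i) 0) fun i => Fin.append 0 (T'.M i)

/-- Coherent orientations, as signs of invertible framed operators. -/
structure Coh (Ω : F → F → ℝ) (Γ : Subgroup (Equiv.Perm F)) (o : ∀ a b, Op F a b → ℤˣ) :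
    Prop where
  cont : ∀ a b (T : Op F a b), Ok Ω Γ T → ∃ δ > 0, ∀ T' : Op F a b, Adm Ω Γ T' → T'.γ = T.γ →
    T'.x = T.x → T'.y = T.y → (∀ t, Tendsto (fun s => (T'.j (s, t) - T.j (s, t),
      T'.S (s, t) - T.S (s, t))) (cocompact ℝ) (𝓝 0)) →
    (∀ p ∈ St, ‖T'.j p - T.j p‖ ≤ δ ∧ ‖T'.S p - T.S p‖ ≤ δ) →
    (∀ i, ∫ p in St, ‖T'.K i p - T.K i p‖ ^ 2 ≤ δ) →
    (∀ i, ∫ p in St, ‖T'.l i p - T.l i p‖ ^ 2 ≤ δ) → ‖T'.M - T.M‖ ≤ δ → o a b T' = o a b T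
  neg : ∀ a b (T : Op F a b) (i : Fin b), Ok Ω Γ T → o a b
    { T with l := Function.update T.l i (-T.l i), M := Function.update T.M i (-T.M i) } = -o a b T
  glu : ∃ η : ℕ → ℕ → ℕ → ℕ → ℤˣ, ∀ a b a' b' (T : Op F a b) (T' : Op F a' b'), Ok Ω Γ T →
    Ok Ω Γ T' → T.γ = T'.γ → T.y = T'.x → (∃ R, ∀ s ≥ R, ∀ s' ≥ R, ∀ t,
      T.j (s, t) = T'.j (-s', t) ∧ T.S (s, t) = T'.S (-s', t)) →
    ∀ᶠ R in atTop, o _ _ (glue R T T') = η a b a' b' * o a b T * o a' b' T'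
  inv : ∀ g ∈ Γ, ∀ a b (T T' : Op F a b), Ok Ω Γ T → T'.γ = g * T.γ * g⁻¹ → T'.x = g ∘ T.x →
    T'.y = g ∘ T.y → (∀ p v, T'.j p (lin g v) = lin g (T.j p v) ∧
      T'.S p (lin g v) = lin g (T.S p v)) → (∀ i, T'.K i = lin g ∘ T.K i) →
    (∀ i, T'.l i = lin g ∘ T.l i) → T'.M = T.M → o a b T' = o a b T

/-- Twisted periodic orbits of a time-dependent vector field. -/
def Orb (γ : Equiv.Perm F) (Y : ℝ → F → F) (x : ℝ → F) : Prop :=
  (∀ t, HasDerivAt x (Y t (x t)) t) ∧ ∀ t, x (t + 1) = γ (x t)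

/-- Floer cylinders from `x` to `y`. -/
structure Cyl (Ω : F → F → ℝ) (γ : Equiv.Perm F) (J : ℝ → F → F →L[ℝ] F) (X : Pl → F → F)
    (x y : ℝ → F) (u : Pl → F) : Prop where
  smooth : ContDiff ℝ ∞ u
  tw : ∀ s t, u (s, t + 1) = γ (u (s, t))
  eq : ∀ p, ds u p + J p.2 (u p) (dt u p - X p (u p)) = 0
  en : IntegrableOn (fun p => Ω (ds u p) (J p.2 (u p) (ds u p))) St
  left : TendstoUniformlyOn (fun s t => u (s, t)) x atBot (Icc 0 1)
  right : TendstoUniformlyOn (fun s t => u (s, t)) y atTop (Icc 0 1)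

/-- The linearised Floer operator along `u` with a frame. -/
def lop (γ : Equiv.Perm F) (J : ℝ → F → F →L[ℝ] F) (X : Pl → F → F) (x y : ℝ → F) (u : Pl → F)
    (K : Fin a → Pl → F) (l : Fin b → Pl → F) (M : Fin b → Fin a → ℝ) : Op F a b :=
  ⟨γ, x, y, fun p => J p.2 (u p),
    fun p => fderiv ℝ (fun z => J p.2 z (dt u p - X p z)) (u p), K, l, M⟩

/-- Nondegenerate and regular Floer data; `Y` is the vector field of `H`. -/
structure Reg (Ω : F → F → ℝ) (Γ : Subgroup (Equiv.Perm F)) (H : ℝ → F → ℝ) (Y : ℝ → F → F)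
    (J : ℝ → F → F →L[ℝ] F) : Prop where
  smooth : ContDiff ℝ ∞ fun q : ℝ × F => (H q.1 q.2, J q.1 q.2)
  per : ∀ t, H (t + 1) = H t ∧ J (t + 1) = J t
  inv : ∀ γ ∈ Γ, ∀ t z, H t (γ z) = H t z ∧ ∀ v, J t (γ z) (lin γ v) = lin γ (J t z v)
  cpt : ∀ t z, Cpt Ω (J t z)
  nd : ∀ γ ∈ Γ, ∀ x, Orb γ Y x → Nd γ fun t => fderiv ℝ (Y t) (x t)
  onto : ∀ γ ∈ Γ, ∀ x y u, Orb γ Y x → Orb γ Y y → Cyl Ω γ J (fun p => Y p.2) x y u →
    Onto Ω (lop γ J (fun p => Y p.2) x y u ![] ![] ![])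

end generic

/-- The Hamiltonian vector field. -/
def ham (H : ℝ → E → ℝ) (t : ℝ) (z : E) : E :=
  ((fderiv ℝ (H t) z ((0, 1), 0, 0), -fderiv ℝ (H t) z ((1, 0), 0, 0)),
    (fderiv ℝ (H t) z (0, (0, 1), 0), -fderiv ℝ (H t) z (0, (1, 0), 0)),
    (fderiv ℝ (H t) z (0, 0, (0, 1)), -fderiv ℝ (H t) z (0, 0, (1, 0))))

/-- The one-periodic orbits in the orbit space, of all free homotopy classes. -/
def gens (Γ : Subgroup (Equiv.Perm E)) (H : ℝ → E → ℝ) : Set (ℝ → Q Γ) :=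
  {c | ∃ γ ∈ Γ, ∃ x, Orb γ (ham H) x ∧ c = pr Γ ∘ x}

/-- The number of index one Floer cylinders modulo translation from `c` to `c'` of energy `e`
and sign `σ`. -/
def cnt (Γ : Subgroup (Equiv.Perm E)) (o : ∀ a b, Op E a b → ℤˣ) (H : ℝ → E → ℝ)
    (J : ℝ → E → E →L[ℝ] E) (c c' : ℝ → Q Γ) (e : ℝ) (σ : ℤˣ) : ℕ :=
  ncard {w : Set (Pl → Q Γ) | ∃ γ x y u l, Orb γ (ham H) x ∧ Orb γ (ham H) y ∧ c = pr Γ ∘ x ∧
    c' = pr Γ ∘ y ∧ Cyl om γ J (fun p => ham H p.2) x y u ∧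
    pair om (ds u) (fun p => J p.2 (u p) (ds u p)) = e ∧ 0 < pair om (ds u) l ∧
    Ok om Γ (lop γ J (fun p => ham H p.2) x y u ![] ![l] ![![]]) ∧
    o 0 1 (lop γ J (fun p => ham H p.2) x y u ![] ![l] ![![]]) = σ ∧
    w = range fun (s : ℝ) (p : Pl) => pr Γ (u (p.1 + s, p.2))}

open Classical in
/-- The matrix of the Floer differential over the Novikov ring. -/
def bd (𝔽 : Type) [Field 𝔽] (Γ : Subgroup (Equiv.Perm E)) (o : ∀ a b, Op E a b → ℤˣ)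
    (H : ℝ → E → ℝ) (J : ℝ → E → E →L[ℝ] E) (c c' : gens Γ H) : HahnSeries ℝ≥0 𝔽 :=
  if h : (Function.support fun e : ℝ≥0 =>
      (cnt Γ o H J c c' e 1 : 𝔽) - cnt Γ o H J c c' e (-1)).IsPWO then ⟨_, h⟩ else 0

/-- The number of bars of length greater than `ε` of the complex with differential `M`: the number
of generators minus the number of finite bars minus the number of finite bars of length at most
`ε`. -/
def bars {𝔽 C : Type} [Field 𝔽] (M : C → C → HahnSeries ℝ≥0 𝔽) (ε : ℝ≥0) : ℕ :=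
  Nat.card C - (Submodule.span (HahnSeries ℝ≥0 𝔽) (range M)).spanFinrank -
    ((Submodule.span (HahnSeries ℝ≥0 𝔽) (range M)).map (Submodule.mkQ
      (Ideal.span ((fun e => HahnSeries.single e (1 : 𝔽)) '' Ioi ε) • ⊤))).spanFinrank

/-- Regular data `(H', J)` and coherent orientations `o` with `H'` at distance at most `δ`, in the
norm of Hofer, from the Hamiltonian that generates the `k`-th iterate. -/
def near (Γ : Subgroup (Equiv.Perm E)) (H : ℝ → E → ℝ) (k : ℕ) (δ : ℝ) :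
    Set ((ℝ → E → ℝ) × (ℝ → E → E →L[ℝ] E) × ∀ a b, Op E a b → ℤˣ) :=
  {d | Reg om Γ d.1 (ham d.1) d.2.1 ∧ Coh om Γ d.2.2 ∧
    ∫ t in (0 : ℝ)..1, ⨆ z, |d.1 t z - k * H (k * t) z| ≤ δ}

/-- The barcode entropy (natural logarithm) of the time-one map of the one-periodic
Hamiltonian `H`. -/
def hbar (𝔽 : Type) [Field 𝔽] (Γ : Subgroup (Equiv.Perm E)) (H : ℝ → E → ℝ) : EReal :=
  ⨆ ε > 0, limsup (fun k : ℕ => ENNReal.log (max 1 (⨅ δ > (0 : ℝ), ⨆ d ∈ near Γ H k δ,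
    (bars (bd 𝔽 Γ d.2.2 d.1 d.2.1) ε : ℝ≥0∞))) / k) atTop

end

end Pool.Agent.P.MP_de3acd_gt
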