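import Pool.Agent.P.MP_de3acd_gt.FH.DopA
import Pool.Agent.P.MP_de3acd_gt.FH.CbFam
import Pool.Agent.P.MP_de3acd_gt.FH.Defs2

/-! Values and derivatives of the Floer map.
Sketch: IsF.rep: Rep.tendsto approximates ξ by co 2 (plat • f); against a test function ψ the pairing
ip 0 (cr J (X a) (w + plat • f)) ψ is eventually ip 0 (cr J (X a) (w + f)) ψ (the functions agree near the support of ψ);
continuity of Φ. IsF.base: both sides are continuous in ζ, agree on test functions by IsF.rep and Rep.unique.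
d1_eq: on a test function ψ: τ ↦ Φ (ξ + τ co ψ, a) - Φ (ξ, a) = toW 1 (cr (u + τ ψ) - cr u), a smooth family with uniform
compact support; contDiff_toW gives the derivative, hasDerivAt_cr computes it; Dop_co needs only Bdd and Per of the
coefficients (use Dop_apply, mul_co). rep_d2: pair with ψ, ⟪to0 Φ (ξ, a'), co ψ⟫ = ⟪toW 0 (χ • cr J (X a') u), co ψ⟫ with
χ = 1 near the support of ψ, differentiate in a' with contDiff_toW.
(contDiff of cr: copy the two short lemmas contDiff_cr, per_cr of UF as private lemmas, do not import UF.) -/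

set_option linter.unusedSectionVars false
set_option linter.unusedVariables false

open Set Filter Topology MeasureTheory
open scoped ContDiff NNReal ENNReal RealInnerProductSpace

namespace Pool.Agent.P.MP_de3acd_gt.FH

noncomputable section

variable {V : Type} [NormedAddCommGroup V] [InnerProductSpace ℝ V] [Sym V]
variable {C Λ : Type} [NormedAddCommGroup C] [NormedSpace ℝ C] [FiniteDimensional ℝ C]
  [NormedAddCommGroup Λ] [NormedSpace ℝ Λ] [FiniteDimensional ℝ Λ]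

variable {J : ℝ → V → V →L[ℝ] V} {X : Λ → Pl → V → V} {w : Pl → V} {Φ : W 2 V × Λ → W 1 V}

omit [Sym V] in
theorem curve_FDer {j : V → V →L[ℝ] V} {x : V → V} {z A B : ℝ → V} {z' A' B' : V} {τ : ℝ}
    (hj : DifferentiableAt ℝ j (z τ)) (hx : DifferentiableAt ℝ x (z τ)) (hz : HasDerivAt z z' τ)
    (hA : HasDerivAt A A' τ) (hB : HasDerivAt B B' τ) :
    HasDerivAt (fun τ => A τ + j (z τ) (B τ - x (z τ)))
      (A' + j (z τ) B' + fderiv ℝ (fun y => j y (B τ - x y)) (z τ) z') τ := by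
  have h1 := hA.add ((hj.hasFDerivAt.comp_hasDerivAt τ hz).clm_apply
    (hB.sub (hx.hasFDerivAt.comp_hasDerivAt τ hz)))
  have h2 := (hj.hasFDerivAt.clm_apply (hx.hasFDerivAt.const_sub (B τ))).fderiv
  refine h1.congr_deriv ?_
  rw [h2]
  simp only [Function.comp_apply, Pi.sub_apply, add_apply, ContinuousLinearMap.comp_apply,
    neg_apply, map_neg, ContinuousLinearMap.flip_apply, map_sub (j (z τ)) B']
  abel

omit [Sym V] in
theorem diffJ_FDer (hJ : SP J) (t : ℝ) (z : V) : DifferentiableAt ℝ (J t) z :=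
  (hJ.1.comp (contDiff_const.prodMk contDiff_id)).differentiable (by simp) z

omit [Sym V] [FiniteDimensional ℝ Λ] in
theorem diffX_FDer (hX : SmX X) (a : Λ) (p : Pl) (z : V) : DifferentiableAt ℝ (X a p) z :=
  (hX.1.comp (contDiff_const.prodMk (contDiff_const.prodMk contDiff_id))).differentiable
    (by simp) z

omit [Sym V] in
theorem cr_line_FDer (J : ℝ → V → V →L[ℝ] V) (Y : Pl → V → V) {u ψ : Pl → V} (hu : ContDiff ℝ ∞ u)
    (hψ : ContDiff ℝ ∞ ψ) (τ : ℝ) (p : Pl) : cr J Y (u + τ • ψ) p = ds u p + τ • ds ψ p +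
      J p.2 (u p + τ • ψ p) (dt u p + τ • dt ψ p - Y p (u p + τ • ψ p)) := by
  have h : ContDiff ℝ ∞ (τ • ψ) := hψ.const_smul τ
  rw [cr, ds_add hu h, dt_add hu h, ds_smul τ hψ, dt_smul τ hψ]
  rfl

omit [Sym V] [FiniteDimensional ℝ Λ] in
theorem contDiff_cr_FDer (hJ : SP J) (hX : SmX X) {u : Pl → V} (hu : ContDiff ℝ ∞ u) :
    ContDiff ℝ ∞ fun q : Λ × Pl => cr J (X q.1) u q.2 :=
  ((contDiff_ds hu).comp contDiff_snd).add
    ((hJ.1.comp (contDiff_snd.snd.prodMk (hu.comp contDiff_snd))).clm_apply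
      (((contDiff_dt hu).comp contDiff_snd).sub
        (hX.1.comp (contDiff_fst.prodMk (contDiff_snd.prodMk (hu.comp contDiff_snd))))))

omit [Sym V] in
theorem per_cr_FDer {Y : Pl → V → V} (hJ : SP J) (hY : Per Y) {u : Pl → V} (hu : Per u) :
    Per (cr J Y u) := fun s t => by
  simp only [cr, hu s t, hu.ds s t, hu.dt s t, hY s t, hJ.2 t]

omit [InnerProductSpace ℝ V] [Sym V] in
theorem per_add_FDer {f g : Pl → V} (hf : Per f) (hg : Per g) : Per (f + g) := fun s t => by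
  simp only [Pi.add_apply, hf s t, hg s t]

omit [Sym V] in
theorem ip_cut_FDer {f g : Pl → V} {ψ : Pl → V} {R : ℝ} (h0 : ∀ p : Pl, R ≤ |p.1| → ψ p = 0)
    (h : ∀ p : Pl, |p.1| < R → f p = g p) : ip 0 f ψ = ip 0 g ψ := by
  rw [ip_zero, ip_zero]
  refine congrArg _ (funext fun p => ?_)
  rcases le_or_gt R |p.1| with hp | hp
  · rw [h0 p hp, inner_zero_right, inner_zero_right]
  · rw [h p hp]

theorem rep_fderiv_FDer {F : Λ → Pl → V} (hF : ContDiff ℝ ∞ fun q : Λ × Pl => F q.1 q.2)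
    (pF : ∀ a, Per (F a)) {η : Λ → W 1 V} (e : ∀ a, Rep 1 (η a) (F a)) {a : Λ}
    (hη : DifferentiableAt ℝ η a) (v : Λ) :
    Rep 1 (fderiv ℝ η a v) fun p => fderiv ℝ (fun a => F a p) a v := by
  intro ψ
  obtain ⟨R, hR⟩ := ψ.2.2.2
  have hχ := plat_mem_Dsub (-R) R one_pos
  obtain ⟨R', hR'⟩ := hχ.2.2
  have h1 : ∀ p : Pl, |p.1| < R → plat (-R) R 1 p = 1 := fun p hp =>
    plat_eq_one one_pos ⟨(abs_lt.1 hp).1.le, (abs_lt.1 hp).2.le⟩
  obtain ⟨c1, c2⟩ := contDiff_toW (k := 0) zero_le_two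
    (f := fun a p => plat (-R) R 1 p • F a p) ((hχ.1.comp contDiff_snd).smul hF)
    (fun a s t => by simp only [hχ.2.1 s t, pF a s t]) (R := R')
    fun a p hp => by simp only [hR' p hp, zero_smul]
  have e1 : (fun a => ((innerSL ℝ (co 0 ψ)).comp (to0 1)) (η a)) =
      fun a => innerSL ℝ (co 0 ψ) (toW 0 fun p => plat (-R) R 1 p • F a p) := by
    funext a
    have h2 := rep_toW_of_mem 0 (cut_mem (smooth_at_CbFam hF a) (pF a) hχ) ψ
    rw [to0_zero] at h2
    rw [ContinuousLinearMap.comp_apply, innerSL_apply_apply, innerSL_apply_apply, real_inner_comm,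
      e a ψ, real_inner_comm, h2]
    exact ip_cut_FDer hR fun p hp => by rw [h1 p hp, one_smul]
  have d1 := ((innerSL ℝ (co 0 ψ)).comp (to0 1)).hasFDerivAt.comp a hη.hasFDerivAt
  have d2 := (innerSL ℝ (co 0 ψ)).hasFDerivAt.comp a (c1.differentiable (by simp) a).hasFDerivAt
  have e2 := congrArg (fun T : Λ →L[ℝ] ℝ => T v) 
    (d1.unique (d2.congr_of_eventuallyEq (Eventually.of_forall (congrFun e1))))
  have hD : ContDiff ℝ ∞ fun p => fderiv ℝ (fun a => F a p) a v := by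
    simp only [fderiv_left_CbFam hF]
    exact ((hF.fderiv_right (m := ∞) le_rfl).comp (contDiff_const.prodMk contDiff_id)).clm_apply
      contDiff_const
  have pD : Per fun p => fderiv ℝ (fun a => F a p) a v := fun s t => by simp only [fun a => pF a s t]
  have e3 : (fun p => fderiv ℝ (fun a => plat (-R) R 1 p • F a p) a v) =
      fun p => plat (-R) R 1 p • fderiv ℝ (fun a => F a p) a v := funext fun p => by
    have : DifferentiableAt ℝ (fun a => F a p) a :=
      (hF.comp (contDiff_id.prodMk contDiff_const)).differentiable (by simp) a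
    exact congrArg (fun T : Λ →L[ℝ] V => T v)
      (this.hasFDerivAt.const_smul (plat (-R) R 1 p)).fderiv
  have h3 := rep_toW_of_mem 0 (cut_mem hD pD hχ) ψ
  simp only [ContinuousLinearMap.comp_apply, innerSL_apply_apply, c2, e3] at e2
  rw [to0_zero] at h3
  rw [real_inner_comm, e2, real_inner_comm, h3]
  exact ip_cut_FDer hR fun p hp => by rw [h1 p hp, one_smul]

theorem hasDerivAt_cr (hJ : SP J) (hX : SmX X) (a : Λ) {u ψ : Pl → V} (hu : ContDiff ℝ ∞ u)
    (hψ : ContDiff ℝ ∞ ψ) (p : Pl) : HasDerivAt (fun τ : ℝ => cr J (X a) (u + τ • ψ) p)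
      (dop 1 (cJ J u) (cS J (X a) u) ψ p) 0 := by
  simp only [cr_line_FDer J (X a) hu hψ]
  have l : ∀ x y : V, HasDerivAt (fun τ : ℝ => x + τ • y) y 0 := fun x y => by
    simpa using ((hasDerivAt_id (0 : ℝ)).smul_const y).const_add x
  have h := curve_FDer (diffJ_FDer hJ p.2 _) (diffX_FDer hX a p _) (l (u p) (ψ p))
    (l (ds u p) (ds ψ p)) (l (dt u p) (dt ψ p))
  simp only [zero_smul, add_zero] at h
  simpa only [dop, cJ, cS, one_smul] using h

theorem IsF.rep (h : IsF J X w Φ) (hw : ContDiff ℝ ∞ w) {ξ : W 2 V} {f : Pl → V} (e : Rep 2 ξ f)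
    (hf : ContDiff ℝ ∞ f) (pf : Per f) (a : Λ) : Rep 1 (Φ (ξ, a)) (cr J (X a) (w + f)) := by
  intro ψ
  obtain ⟨R, hR⟩ := ψ.2.2.2
  have c : Continuous fun ζ : W 2 V => ⟪to0 1 (Φ (ζ, a)), co 0 ψ⟫ :=
    ((to0 1).continuous.comp (h.1.continuous.comp (continuous_id.prodMk continuous_const))).inner
      continuous_const
  refine tendsto_nhds_unique ((c.tendsto ξ).comp (e.tendsto le_rfl hf pf))
    (tendsto_const_nhds.congr' ?_)
  filter_upwards [eventually_ge_atTop R] with T hT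
  refine ((h.2 _ a ψ).trans (ip_cut_FDer hR fun p hp => ?_)).symm
  have h1 : (w + fun p => plat (-T) T 1 p • f p) =ᶠ[𝓝 p] w + f := by
    filter_upwards [(continuous_fst.abs.tendsto p).eventually (gt_mem_nhds hp)] with q hq
    have hq' := abs_lt.1 (hq.trans_le hT)
    rw [Pi.add_apply, Pi.add_apply, plat_eq_one one_pos ⟨hq'.1.le, hq'.2.le⟩, one_smul]
  simp only [cr, ds, dt, h1.fderiv_eq, h1.eq_of_nhds]

theorem IsF.eq_zero_iff (h : IsF J X w Φ) (hJ : SP J) (hX : SmX X) (hw : ContDiff ℝ ∞ w)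
    (pw : Per w) {ξ : W 2 V} {f : Pl → V} (e : Rep 2 ξ f) (hf : ContDiff ℝ ∞ f) (pf : Per f)
    (a : Λ) : Φ (ξ, a) = 0 ↔ ∀ p, cr J (X a) (w + f) p = 0 := by
  rw [(h.rep hw e hf pf a).eq_zero
    (smooth_at_CbFam (f := fun a => cr J (X a) (w + f))
      (contDiff_cr_FDer hJ hX (hw.add hf)) a).continuous
    (per_cr_FDer hJ (hX.2 a) (per_add_FDer pw pf)), funext_iff]
  rfl

theorem IsF.base {Λ' : Type} [NormedAddCommGroup Λ'] [NormedSpace ℝ Λ'] {X' : Λ' → Pl → V → V}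
    {Φ' : W 2 V × Λ' → W 1 V} {w' : Pl → V} (h : IsF J X w Φ) (h' : IsF J X' w' Φ')
    (hw : ContDiff ℝ ∞ w) {ξ₀ : W 2 V} (e : Rep 2 ξ₀ (w' - w)) (hf : ContDiff ℝ ∞ (w' - w))
    (pf : Per (w' - w)) {a : Λ} {a' : Λ'} (ea : X a = X' a') (ζ : W 2 V) :
    Φ (ξ₀ + ζ, a) = Φ' (ζ, a') := by
  refine W.induction (P := fun ζ => Φ (ξ₀ + ζ, a) = Φ' (ζ, a')) (isClosed_eq
    (h.1.continuous.comp ((continuous_const.add continuous_id).prodMk continuous_const))
    (h'.1.continuous.comp (continuous_id.prodMk continuous_const))) (fun φ => ?_) ζ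
  have h1 := h.rep hw (e.add (rep_co 2 φ) hf.continuous φ.2.1.continuous) (hf.add φ.2.1)
    (per_add_FDer pf φ.2.2.1) a
  rw [← add_assoc, add_sub_cancel, ea] at h1
  exact h1.unique (h'.2 φ a')

theorem IsF.shift (h : IsF J X w Φ) (hw : ContDiff ℝ ∞ w) {ξ₀ : W 2 V} {f : Pl → V}
    (e : Rep 2 ξ₀ f) (hf : ContDiff ℝ ∞ f) (pf : Per f) :
    IsF J X (w + f) fun z => Φ (ξ₀ + z.1, z.2) := by
  refine ⟨h.1.comp ((contDiff_const.add contDiff_fst).prodMk contDiff_snd), fun φ a => ?_⟩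
  have h1 := h.rep hw (e.add (rep_co 2 φ) hf.continuous φ.2.1.continuous) (hf.add φ.2.1)
    (per_add_FDer pf φ.2.2.1) a
  rwa [← add_assoc] at h1

theorem IsF.comp {Λ' : Type} [NormedAddCommGroup Λ'] [NormedSpace ℝ Λ'] (h : IsF J X w Φ)
    {g : Λ' → Λ} (hg : ContDiff ℝ ∞ g) : IsF J (fun a => X (g a)) w fun z => Φ (z.1, g z.2) :=
  ⟨h.1.comp (contDiff_fst.prodMk (hg.comp contDiff_snd)), fun φ a => h.2 φ (g a)⟩

theorem IsF.d1_eq (h : IsF J X w Φ) (hJ : SP J) (hX : SmX X) (hw : ContDiff ℝ ∞ w) (pw : Per w)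
    {ξ : W 2 V} {f : Pl → V} (e : Rep 2 ξ f) (hf : ContDiff ℝ ∞ f) (pf : Per f) {a : Λ}
    (hj : Bdd (cJ J (w + f))) (hS : Bdd (cS J (X a) (w + f))) :
    d1 Φ (ξ, a) = Du J (X a) (w + f) := by
  refine W.ext_co fun ψ => ?_
  have hu : ContDiff ℝ ∞ (w + f) := hw.add hf
  have pu := per_add_FDer pw pf
  have hψ := ψ.2.1
  have l : HasDerivAt (fun τ : ℝ => (ξ + τ • co 2 ψ, a)) (co 2 ψ, 0) 0 := by
    simpa using (((hasDerivAt_id (0 : ℝ)).smul_const (co 2 ψ)).const_add ξ).prodMk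
      (hasDerivAt_const (0 : ℝ) a)
  have d : HasDerivAt (fun τ : ℝ => Φ (ξ + τ • co 2 ψ, a)) (d1 Φ (ξ, a) (co 2 ψ)) 0 :=
    (h.1.differentiable (by simp) (ξ, a)).hasFDerivAt.comp_hasDerivAt_of_eq 0 l (by simp)
  have z : ContDiff ℝ ∞ fun q : ℝ × Pl => (w + f) q.2 + q.1 • ψ.1 q.2 :=
    (hu.comp contDiff_snd).add (contDiff_fst.smul (hψ.comp contDiff_snd))
  have h1 := rep_fderiv_FDer (F := fun τ : ℝ => cr J (X a) (w + f + τ • ψ.1))
    (η := fun τ : ℝ => Φ (ξ + τ • co 2 ψ, a))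
    (by
      simp only [cr_line_FDer J (X a) hu hψ]
      exact (((contDiff_ds hu).comp contDiff_snd).add
        (contDiff_fst.smul ((contDiff_ds hψ).comp contDiff_snd))).add
        ((hJ.1.comp (contDiff_snd.snd.prodMk z)).clm_apply
          ((((contDiff_dt hu).comp contDiff_snd).add
            (contDiff_fst.smul ((contDiff_dt hψ).comp contDiff_snd))).sub
            (hX.1.comp (contDiff_const.prodMk (contDiff_snd.prodMk z))))))
    (fun τ => per_cr_FDer hJ (hX.2 a) (per_add_FDer pu ((Dsub V).smul_mem τ ψ.2).2.1))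
    (fun τ => by
      rw [add_assoc]
      exact h.rep hw (e.add ((rep_co 2 ψ).smul τ) hf.continuous (hψ.continuous.const_smul τ))
        (hf.add (hψ.const_smul τ)) (per_add_FDer pf ((Dsub V).smul_mem τ ψ.2).2.1) a)
    d.differentiableAt 1
  simp only [fderiv_apply_one_eq_deriv, d.deriv,
    fun p => (hasDerivAt_cr hJ hX a hu hψ p).deriv] at h1
  refine h1.unique ?_
  have pj : Per (cJ J (w + f)) := hJ.per_comp pu
  have pS : Per (cS J (X a) (w + f)) := fun s t => by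
    simp only [cS, pu s t, pu.dt s t, hX.2 a s t, hJ.2 t]
  have e0 := rep_co 2 ψ
  have c1 : Continuous ((1 : ℝ) • ds ψ.1) := (contDiff_ds hψ).continuous.const_smul 1
  have c2 : Continuous fun p => cJ J (w + f) p (dt ψ.1 p) :=
    hj.1.continuous.clm_apply (contDiff_dt hψ).continuous
  have c3 : Continuous fun p => cS J (X a) (w + f) p (ψ.1 p) :=
    hS.1.continuous.clm_apply hψ.continuous
  have h2 := (e0.dT hψ ψ.2.2.1).mul one_le_two (ContinuousLinearMap.id ℝ (V →L[ℝ] V))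
    (toCb (cJ J (w + f)))
  have h3 := (rep_inc.2 e0).mul one_le_two (ContinuousLinearMap.id ℝ (V →L[ℝ] V))
    (toCb (cS J (X a) (w + f)))
  rw [fn_toCb hj pj] at h2
  rw [fn_toCb hS pS] at h3
  exact (((e0.dS hψ).smul 1).add h2 c1 c2).add h3 (c1.add c2) c3

theorem IsF.rep_d2 (h : IsF J X w Φ) (hJ : SP J) (hX : SmX X) (hw : ContDiff ℝ ∞ w) (pw : Per w)
    {ξ : W 2 V} {f : Pl → V} (e : Rep 2 ξ f) (hf : ContDiff ℝ ∞ f) (pf : Per f) (a v : Λ) :
    Rep 1 (fderiv ℝ Φ (ξ, a) (0, v)) (var J (dX X a v) (w + f)) := by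
  have d : HasFDerivAt (fun a => Φ (ξ, a))
      ((fderiv ℝ Φ (ξ, a)).comp (ContinuousLinearMap.inr ℝ _ _)) a :=
    (h.1.differentiable (by simp) (ξ, a)).hasFDerivAt.comp a (hasFDerivAt_prodMk_right ξ a)
  have h1 := rep_fderiv_FDer (F := fun a => cr J (X a) (w + f)) (η := fun a => Φ (ξ, a))
    (contDiff_cr_FDer hJ hX (hw.add hf))
    (fun a => per_cr_FDer hJ (hX.2 a) (per_add_FDer pw pf)) (h.rep hw e hf pf) d.differentiableAt v
  have e1 : (fun p => fderiv ℝ (fun a => cr J (X a) (w + f) p) a v) =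
      var J (dX X a v) (w + f) := funext fun p => by
    have h2 : DifferentiableAt ℝ (fun a => X a p ((w + f) p)) a :=
      (hX.1.comp (contDiff_id.prodMk (contDiff_const (c := (p, (w + f) p))))).differentiable
        (by simp) a
    have h3 := ((J p.2 ((w + f) p)).hasFDerivAt.comp a
      (h2.hasFDerivAt.const_sub (dt (w + f) p))).const_add (ds (w + f) p)
    exact (congrArg (fun T : Λ →L[ℝ] V => T v) h3.fderiv).trans
      ((J p.2 ((w + f) p)).map_neg (dX X a v p ((w + f) p)))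
  rwa [d.fderiv, e1] at h1

theorem fderiv_eq_coprod (Φ : W 2 V × Λ → W 1 V) (z : W 2 V × Λ) : fderiv ℝ Φ z =
    (d1 Φ z).coprod ((fderiv ℝ Φ z).comp (ContinuousLinearMap.inr ℝ _ _)) :=
  (ContinuousLinearMap.coprod_comp_inl_inr _).symm

theorem IsF.continuous_d1 (h : IsF J X w Φ) : Continuous (d1 Φ) :=
  (h.1.continuous_fderiv (by simp)).clm_comp continuous_const

/-- The derivative of a solution in `s` lies in the kernel of the linearisation. -/
theorem dop_ds {Y : ℝ → V → V} (hJ : SP J) (hY : SP Y) {u : Pl → V} (hu : ContDiff ℝ ∞ u)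
    (e : ∀ p, cr J (sta Y) u p = 0) (p : Pl) :
    dop 1 (cJ J u) (cS J (sta Y) u) (ds u) p = 0 := by
  have D : ∀ {g : Pl → V}, ContDiff ℝ ∞ g → HasDerivAt (fun s => g (s, p.2)) (ds g p) p.1 :=
    fun hg => hasDerivAt_ds (hg.differentiable (by simp) _)
  have h0 : DifferentiableAt ℝ (Y p.2) (u (p.1, p.2)) :=
    (hY.1.comp (contDiff_const.prodMk contDiff_id)).differentiable (by simp) _
  have h := curve_FDer (x := Y p.2) (z := fun s => u (s, p.2)) (diffJ_FDer hJ p.2 _) h0 (D hu)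
    (D (contDiff_ds hu)) (D (contDiff_dt hu))
  have e1 : (fun s => ds u (s, p.2) + J p.2 (u (s, p.2)) (dt u (s, p.2) - Y p.2 (u (s, p.2)))) =
      fun _ => 0 := funext fun s => e (s, p.2)
  rw [e1, ds_dt_comm hu] at h
  rw [dop, one_smul]
  exact h.unique (hasDerivAt_const _ _)

end

end Pool.Agent.P.MP_de3acd_gt.FH
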