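import Pool.Agent.P.MP_de3acd_gt.FH.Nem2

/-! The universal Floer map.
Sketch: G (c, ξ) = dS 1 ξ + mul 1 id (nemC g c) (dT 1 ξ) + ∑ i, prd 1 Bᵢ (nem fᵢ (c, ξ)) (dT 1 ξ) + inc 1 (nem f' (c, ξ)),
with g t (κ, w, w') = 𝕁 t (κ, w), fᵢ t ((κ, w, w'), v) = (𝕁 t (κ, w + v) - 𝕁 t (κ, w)) (e i), Bᵢ u η = ⟪e i, η⟫ • u for
e = stdOrthonormalBasis, f' t ((κ, w, w'), v) = 𝕁 t (κ, w + v) (w' - 𝕏 t (κ, w + v)) - 𝕁 t (κ, w) (w' - 𝕏 t (κ, w)).
BS by the calculus of BSC; on test functions all terms are co 1 of test functions (dS_co, mul_co, prd_co, nem_co,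
inc_co), rep_co. -/

open Set Filter Topology MeasureTheory
open scoped ContDiff NNReal ENNReal RealInnerProductSpace

namespace Pool.Agent.P.MP_de3acd_gt.FH

noncomputable section

variable {V : Type} [NormedAddCommGroup V] [InnerProductSpace ℝ V] [Sym V]
variable {C Λ : Type} [NormedAddCommGroup C] [NormedSpace ℝ C] [FiniteDimensional ℝ C]
  [NormedAddCommGroup Λ] [NormedSpace ℝ Λ] [FiniteDimensional ℝ Λ]

theorem exists_FF {𝕁 : ℝ → C × V → V →L[ℝ] V} {𝕏 : ℝ → C × V → V} (hJ : SP 𝕁) (hX : SP 𝕏) :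
    ∃ G, IsFF 𝕁 𝕏 G := by
  let e := stdOrthonormalBasis ℝ V
  let g : ℝ → C × V × V → V →L[ℝ] V := fun t a => 𝕁 t (a.1, a.2.1)
  let f : Fin (Module.finrank ℝ V) → ℝ → (C × V × V) × V → V := fun i t a =>
    (𝕁 t (a.1.1, a.1.2.1 + a.2) - 𝕁 t (a.1.1, a.1.2.1)) (e i)
  let f' : ℝ → (C × V × V) × V → V := fun t a =>
    𝕁 t (a.1.1, a.1.2.1 + a.2) (a.1.2.2 - 𝕏 t (a.1.1, a.1.2.1 + a.2)) -
      𝕁 t (a.1.1, a.1.2.1) (a.1.2.2 - 𝕏 t (a.1.1, a.1.2.1))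
  let B : Fin (Module.finrank ℝ V) → V →L[ℝ] V →L[ℝ] V := fun i =>
    ContinuousLinearMap.smulRightL ℝ V V (innerSL ℝ (e i))
  have s1 : ContDiff ℝ ∞ fun q : ℝ × (C × V × V) × V => (q.1, q.2.1.1, q.2.1.2.1 + q.2.2) := by
    fun_prop
  have s0 : ContDiff ℝ ∞ fun q : ℝ × (C × V × V) × V => (q.1, q.2.1.1, q.2.1.2.1) := by
    fun_prop
  have s2 : ContDiff ℝ ∞ fun q : ℝ × (C × V × V) × V => q.2.1.2.2 := by fun_prop
  have hg : SP g := ⟨hJ.1.comp (f := fun q : ℝ × C × V × V => (q.1, q.2.1, q.2.2.1)) (by fun_prop),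
    fun t => by simp only [g, hJ.2 t]⟩
  have hf : ∀ i, SP (f i) := fun i =>
    ⟨((hJ.1.comp s1).sub (hJ.1.comp s0)).clm_apply contDiff_const,
      fun t => by simp only [f, hJ.2 t]⟩
  have hf0 : ∀ i t c, f i t (c, 0) = 0 := fun i t c => by simp [f]
  have hf' : SP f' := ⟨((hJ.1.comp s1).clm_apply (s2.sub (hX.1.comp s1))).sub
    ((hJ.1.comp s0).clm_apply (s2.sub (hX.1.comp s0))), fun t => by
      simp only [f', hJ.2 t, hX.2 t]⟩
  have hf0' : ∀ t c, f' t (c, 0) = 0 := fun t c => by simp [f']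
  refine ⟨fun z => dS 1 z.2 + mul 1 (ContinuousLinearMap.id ℝ (V →L[ℝ] V)) (nemC g z.1) (dT 1 z.2) +
    ∑ i, prd 1 (B i) (nem (f i) z) (dT 1 z.2) + inc 1 (nem f' z), fun n => ?_, fun c φ => ?_⟩
  · have h2 : BSn n fun z : Cb (C × V × V) × W 2 V => z.2 :=
      bsn_clm n (ContinuousLinearMap.snd ℝ (Cb (C × V × V)) (W 2 V))
    have h1 : BSn n fun z : Cb (C × V × V) × W 2 V => z.1 :=
      bsn_clm n (ContinuousLinearMap.fst ℝ (Cb (C × V × V)) (W 2 V))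
    exact (((h2.clm (dS 1)).add (((bs_nemC hg n).comp h1).bil (h2.clm (dT 1)) _)).add
      (BSn.sum _ fun i _ => (bs_nem (hf i) (hf0 i) n).bil (h2.clm (dT 1)) _)).add
        ((bs_nem hf' hf0' n).clm (inc 1))
  · simp only [dS_co, dT_co, mul_co one_le_two, nem_co (hf _) (hf0 _), nem_co hf' hf0',
      prd_co (Or.inl rfl), inc_co]
    rw [← map_sum, ← map_add, ← map_add, ← map_add]
    refine (congrArg (Rep 1 _) (funext fun p => ?_)).mp (rep_co 1 _)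
    have hs : ∀ (A : V →L[ℝ] V) (v : V), ∑ i, ⟪e i, v⟫ • A (e i) = A v := fun A v => by
      conv_rhs => rw [← e.sum_repr' v, map_sum]
      simp only [map_smul]
    simp only [Submodule.coe_add, Submodule.coe_sum, Pi.add_apply, Finset.sum_apply, fn_nemC hg,
      ContinuousLinearMap.id_apply, B, ContinuousLinearMap.smulRightL_apply_apply,
      ContinuousLinearMap.smulRight_apply, innerSL_apply_apply, f, f', g, hs, ffn]
    simp only [sub_apply, map_sub, map_add]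
    abel

end

end Pool.Agent.P.MP_de3acd_gt.FH
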