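import Pool.Agent.P.MP_de3acd_gt.FH.Bridge
import Pool.Agent.P.MP_de3acd_gt.FH.DynL

/-! The barcode entropy is smaller than the topological entropy. -/

open Set Real Filter Topology
open scoped ContDiff NNReal ENNReal

namespace Pool.Agent.P.MP_de3acd_gt

theorem FH.Fr.sup {Γ : Subgroup (Equiv.Perm E)} {B : ℝ → E →L[ℝ] E} (fr : FH.Fr Γ B)
    {H K : ℝ → E → ℝ} (hH : FH.IH Γ H) (hK : FH.IH Γ K) :
    (Continuous fun t => ⨆ z, |H t z - K t z|) ∧ ∀ t z, |H t z - K t z| ≤ ⨆ z, |H t z - K t z| := by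
  obtain ⟨A, hA⟩ := fr.dom
  have e : ∀ t, range (fun z => |H t z - K t z|) =
      (fun z => |H t z - K t z|) '' Metric.closedBall 0 A := fun t => by
    refine (image_subset_range _ _).antisymm' ?_
    rintro _ ⟨z, rfl⟩
    obtain ⟨g, hg, h⟩ := hA z
    exact ⟨g z, mem_closedBall_zero_iff.2 h, by simp only [hH.2 g hg, hK.2 g hg]⟩
  have c : Continuous fun q : ℝ × E => |H q.1 q.2 - K q.1 q.2| :=
    (hH.1.1.continuous.sub hK.1.1.continuous).abs
  refine ⟨?_, fun t z => le_ciSup (f := fun z => |H t z - K t z|) ?_ z⟩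
  · simp only [iSup, e]
    exact (isCompact_closedBall 0 A).continuous_sSup c
  · rw [e]
    exact ((isCompact_closedBall 0 A).image (c.comp (Continuous.prodMk_right t))).bddAbove

theorem FH.IH.iter {Γ : Subgroup (Equiv.Perm E)} {H : ℝ → E → ℝ} (hH : FH.IH Γ H) (k : ℕ) :
    FH.IH Γ fun t z => k * H (k * t) z := by
  refine ⟨⟨contDiff_const.mul (hH.1.1.comp
    ((contDiff_const.mul contDiff_fst).prodMk contDiff_snd)), fun t => ?_⟩, fun g hg t z => ?_⟩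
  · have : Function.Periodic H 1 := hH.1.2
    simp only [mul_add, this.nat_mul k (k * t)]
  · simp only [hH.2 g hg]

theorem hbar_le {Γ : Subgroup (Equiv.Perm E)} {B : ℝ → E →L[ℝ] E} (fr : FH.Fr Γ B) {H : ℝ → E → ℝ}
    (hH : FH.IH Γ H) {h : ℝ} (h0 : 0 ≤ h) (hA : ∀ ε > 0, ∃ C : ℝ, ∀ k : ℕ, 1 ≤ k → ∃ G, FH.IH Γ G ∧ FH.NdH Γ G ∧
      FH.L1 (fun t z => k * H (k * t) z) G ε ∧ ((gens Γ G).ncard : ℝ) ≤ C * exp (h * k))
    (𝔽 : Type) [Field 𝔽] : hbar 𝔽 Γ H ≤ h := by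
  refine iSup₂_le fun ε hε => ?_
  have hε' : (0 : ℝ) < ε := hε
  obtain ⟨C, hC⟩ := hA (ε / 10) (by positivity)
  have hC1 : 1 ≤ max C 1 := le_max_right _ _
  have lim : Tendsto (fun k : ℕ => ((log (max C 1) / k + h : ℝ) : EReal)) atTop (𝓝 h) := by
    refine (continuous_coe_real_ereal.tendsto h).comp ?_
    simpa using (tendsto_const_div_atTop_nhds_zero_nat (log (max C 1))).add_const h
  refine (limsup_le_limsup ?_).trans lim.limsup_eq.le
  filter_upwards [eventually_ge_atTop 1] with k hk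
  obtain ⟨G, g1, g2, g3, g4⟩ := hC k hk
  have hk' : (0 : ℝ) < k := by exact_mod_cast hk
  have e1 : 1 ≤ exp (h * k) := one_le_exp (by positivity)
  have e2 : 0 < max C 1 * exp (h * k) := by positivity
  have e : ((log (max C 1) / k + h : ℝ) : EReal) =
      ENNReal.log (ENNReal.ofReal (max C 1 * exp (h * k))) / k := by
    rw [ENNReal.log_ofReal_of_pos e2, log_mul (by positivity) (by positivity), log_exp,
      ← EReal.coe_natCast, ← EReal.coe_div]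
    congr 1
    field_simp
  rw [e]
  refine EReal.div_le_div_right_of_nonneg (Nat.cast_nonneg' k) (ENNReal.log_monotone (max_le ?_ ?_))
  · exact ENNReal.one_le_ofReal.2 (one_le_mul_of_one_le_of_one_le hC1 e1)
  refine iInf₂_le_of_le (ε / 10 : ℝ) (by positivity) (iSup₂_le fun ⟨H', J, o⟩ ⟨hR, ho, hd⟩ => ?_)
  obtain ⟨s1, s2⟩ := fr.sup (FH.Reg.ih hR) (hH.iter k)
  have b := (FH.Dat.mk fr hR g1 g2 (FH.add_DynA g3 s1 hd fun t _ z => ?_)).bridge ho (ε := ε)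
    (by linarith) 𝔽
  swap
  · refine le_of_eq_of_le ?_ (s2 t z)
    rw [abs_sub_comm]
    congr 1
    ring
  rw [← ENNReal.ofReal_natCast]
  exact ENNReal.ofReal_le_ofReal ((Nat.cast_le.2 b).trans
    (g4.trans (mul_le_mul_of_nonneg_right (le_max_left _ _) (exp_pos _).le)))

theorem final : ∃ (Γ : Subgroup (Equiv.Perm E)) (hΓ : Good Γ) (H : ℝ → E → ℝ) (φ : E → E)
    (f : Q Γ → Q Γ), Gen Γ H φ ∧ (∀ t, H (t + 1) = H t) ∧ (∀ z, f (pr Γ z) = pr Γ (φ z)) ∧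
      ∀ (𝔽 : Type) [Field 𝔽], hbar 𝔽 Γ H < htop hΓ f := by
  obtain ⟨H, Φ, L, C, h⟩ := exists_base
  have h0 : (0 : ℝ) ∈ Icc (0 : ℝ) 1 := ⟨le_rfl, zero_le_one⟩
  obtain ⟨n, hn⟩ := exists_nat_gt (max 12 (exp (36 * π * L)))
  have hn1 : (12 : ℝ) < n := (le_max_left _ _).trans_lt hn
  have hn2 : 12 ≤ n := by exact_mod_cast hn1.le
  have hn3 : 36 * π * L < log n :=
    (lt_log_iff_exp_lt (by linarith)).2 ((le_max_right _ _).trans_lt hn)
  have hL := h.L_nonneg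
  obtain ⟨B, fr⟩ := FH.exists_fr (n := n) (by omega)
  let f : Q (Gam n) → Q (Gam n) := Quotient.map' (Φ 0 (2 * π)) fun z z' hz => by
    obtain ⟨γ, hγ, rfl⟩ := pr_eq.1 (Quotient.sound hz)
    exact Quotient.exact (pr_eq.2 ⟨γ, hγ, (h.eqv_gam h0 hγ _ z').symm⟩)
  have g := h.gen h0 n (2 * π)
  refine ⟨Gam n, good_gam n, _, Φ 0 (2 * π), f, g, fun _ => rfl, fun _ => rfl,
    fun 𝔽 _ => (hbar_le fr ⟨⟨g.smooth, fun _ => rfl⟩, g.inv⟩ (h := 18 * π * L + log n / 2)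
      (by have := log_nonneg (show (1 : ℝ) ≤ n by linarith); positivity) (fun ε hε => ?_) 𝔽).trans_lt
    (lt_of_lt_of_le (EReal.coe_lt_coe_iff.2 (by linarith))
      (entropy_ge (by omega) _ f fun y => ?_))⟩
  · simpa only [mul_assoc] using approx1 h hn2 hε
  · change pr _ (Φ 0 (2 * π) (0, 0, y)) = _
    rw [h.line]
    refine pr_eq.2 ⟨gam n (-1) (0, (2 * π, 0), 0), gam_mem
      ⟨zero_mem _, ⟨mem_Z1.2 ⟨1, by simp⟩, zero_mem _⟩, zero_mem _⟩ (by simp), ?_⟩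
    have := cat_zpow_neg n 1 y
    rw [zpow_one] at this
    change ((0 : Pl), (0 : Pl), (cat n ^ (-1 : ℤ)) (cat n y)) + _ = _
    rw [this]
    simp

end Pool.Agent.P.MP_de3acd_gt
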