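import Pool.Agent.P.MP_de3acd_gt.FH.SgA

/-! Gauge transformations preserve closeness and asymptotics.
Sketch: SG.bs with k = 0 bounds P, Q, dt P on St; the differences are P (j' - j) Q and (P (S' - S) - P (j' - j) Q (dt P)) Q; integral_mono_of_nonneg, MemLp.sub, memLp_two_iff_integrable_sq_norm, as in Gau.coh.
asy: for fixed t the maps s ↦ P (s, t), Q (s, t), dt P (s, t) are continuous and constant on both ends, hence bounded; squeeze_zero_norm. -/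

open Set Filter Topology MeasureTheory
open scoped ContDiff NNReal ENNReal RealInnerProductSpace

namespace Pool.Agent.P.MP_de3acd_gt.FH

noncomputable section

variable {F₁ F₂ : Type} [NormedAddCommGroup F₁] [NormedSpace ℝ F₁] [FiniteDimensional ℝ F₁]
  [NormedAddCommGroup F₂] [NormedSpace ℝ F₂] [FiniteDimensional ℝ F₂]
  {Ω₁ : F₁ → F₁ → ℝ} {Ω₂ : F₂ → F₂ → ℝ} {γ₁ : Equiv.Perm F₁} {γ₂ : Equiv.Perm F₂}
  {Γ₁ : Subgroup (Equiv.Perm F₁)} {Γ₂ : Subgroup (Equiv.Perm F₂)}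
variable {P : Pl → F₁ →L[ℝ] F₂} {Q : Pl → F₂ →L[ℝ] F₁} {a b : ℕ} {T T' : Op F₁ a b} {ξ : Pl → F₁}
  {γ : Equiv.Perm F₂} {x y : ℝ → F₂}

section

omit [FiniteDimensional ℝ F₁] [FiniteDimensional ℝ F₂]

theorem le_SgB {p : Pl} {A δ : ℝ} (h1 : 1 ≤ A) (hP : ‖P p‖ ≤ A) (hQ : ‖Q p‖ ≤ A)
    (hD : ‖dt P p‖ ≤ A) (hj : ‖T'.j p - T.j p‖ ≤ δ) (hS : ‖T'.S p - T.S p‖ ≤ δ) :
    ‖(sg γ x y P Q T').j p - (sg γ x y P Q T).j p‖ ≤ 2 * A ^ 4 * δ ∧
      ‖(sg γ x y P Q T').S p - (sg γ x y P Q T).S p‖ ≤ 2 * A ^ 4 * δ := by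
  have h0 : 0 ≤ A := zero_le_one.trans h1
  have hδ : 0 ≤ δ := (norm_nonneg _).trans hj
  have key : ∀ {U V W : Type} [NormedAddCommGroup U] [NormedSpace ℝ U] [NormedAddCommGroup V]
      [NormedSpace ℝ V] [NormedAddCommGroup W] [NormedSpace ℝ W] {f : V →L[ℝ] W} {g : U →L[ℝ] V}
      {x y : ℝ}, ‖f‖ ≤ x → ‖g‖ ≤ y → ‖f.comp g‖ ≤ x * y := fun hf hg =>
    (ContinuousLinearMap.opNorm_comp_le _ _).trans
      (mul_le_mul hf hg (norm_nonneg _) ((norm_nonneg _).trans hf))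
  have h2 : A ^ 2 * δ ≤ A ^ 4 * δ :=
    mul_le_mul_of_nonneg_right (pow_le_pow_right₀ h1 (by norm_num)) hδ
  have h3 : 0 ≤ A ^ 4 * δ := by positivity
  have e1 : (sg γ x y P Q T').j p - (sg γ x y P Q T).j p =
      (P p).comp ((T'.j p - T.j p).comp (Q p)) := by
    ext v
    simp only [sg, sub_apply, ContinuousLinearMap.comp_apply, map_sub]
  have e2 : (sg γ x y P Q T').S p - (sg γ x y P Q T).S p = (P p).comp
      ((T'.S p - T.S p - (T'.j p - T.j p).comp ((Q p).comp (dt P p))).comp (Q p)) := by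
    ext v
    simp only [sg, sub_apply, ContinuousLinearMap.comp_apply, map_sub]
    abel
  rw [e1, e2]
  exact ⟨(key hP (key hj hQ)).trans (by linarith),
    (key hP (key (norm_sub_le_of_le hS (key hj (key hQ hD))) hQ)).trans (by linarith)⟩

theorem int_SgB {A δ : ℝ} (hb : ∀ p ∈ St, ‖P p‖ ≤ A) {f g : Pl → F₁}
    (hf : MemLp f 2 (volume.restrict St)) (hg : MemLp g 2 (volume.restrict St))
    (h : ∫ p in St, ‖f p - g p‖ ^ 2 ≤ δ) :
    ∫ p in St, ‖P p (f p) - P p (g p)‖ ^ 2 ≤ A ^ 2 * δ := by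
  refine le_trans ?_ (mul_le_mul_of_nonneg_left h (sq_nonneg A))
  rw [← integral_const_mul]
  refine integral_mono_of_nonneg (Eventually.of_forall fun p => sq_nonneg _)
    (((memLp_two_iff_integrable_sq_norm (hf.sub hg).1).1 (hf.sub hg)).const_mul _)
    (ae_GauB fun p hp => ?_)
  change ‖P p (f p) - P p (g p)‖ ^ 2 ≤ A ^ 2 * ‖f p - g p‖ ^ 2
  rw [← map_sub, ← mul_pow]
  exact pow_le_pow_left₀ (norm_nonneg _) ((P p).le_of_opNorm_le (hb p hp) _) 2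

theorem bd_SgB {U : Type} [NormedAddCommGroup U] {f : ℝ → U} (hf : Continuous f) {R : ℝ}
    (h : ∀ s, (R ≤ s → f s = f R) ∧ (s ≤ -R → f s = f (-R))) : ∃ C, ∀ s, ‖f s‖ ≤ C := by
  obtain ⟨C, hC⟩ := (isCompact_Icc (a := -|R|) (b := |R|)).exists_bound_of_continuousOn
    hf.continuousOn
  have h0 := abs_nonneg R
  have h1 := le_abs_self R
  refine ⟨C, fun s => ?_⟩
  rcases le_total |R| s with h2 | h2
  · rw [(h s).1 (h1.trans h2), ← (h |R|).1 h1]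
    exact hC _ ⟨by linarith, le_rfl⟩
  rcases le_total s (-|R|) with h3 | h3
  · rw [(h s).2 (by linarith), ← (h (-|R|)).2 (by linarith)]
    exact hC _ ⟨le_rfl, by linarith⟩
  · exact hC _ ⟨h3, h2⟩

end

theorem SG.clo (h : SG Ω₁ Ω₂ γ₁ γ₂ P Q) : ∃ C > 0, ∀ (a b : ℕ) (T T' : Op F₁ a b) (δ : ℝ)
    (γ : Equiv.Perm F₂) (x y : ℝ → F₂), Adm Ω₁ Γ₁ T → Adm Ω₁ Γ₁ T' → Clo T T' δ →
      Clo (sg γ x y P Q T) (sg γ x y P Q T') (C * δ) := by
  obtain ⟨h1, h2, -, h3⟩ := h.bs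
  obtain ⟨C1, h1⟩ := h1.2 0
  obtain ⟨C2, h2⟩ := h2.2 0
  obtain ⟨C3, h3⟩ := h3.2 0
  simp only [norm_iteratedFDeriv_zero] at h1 h2 h3
  obtain ⟨A, hA, a1, a2, a3⟩ : ∃ A : ℝ, 1 ≤ A ∧ C1 ≤ A ∧ C2 ≤ A ∧ C3 ≤ A :=
    ⟨max (max 1 C1) (max C2 C3), by simp, by simp, by simp, by simp⟩
  refine ⟨2 * A ^ 4, by positivity, fun a b T T' δ γ x y hT hT' hc => ?_⟩
  have hδ : 0 ≤ δ := (norm_nonneg _).trans hc.2.2.2
  have k2 : A ^ 2 * δ ≤ 2 * A ^ 4 * δ := mul_le_mul_of_nonneg_right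
    (by linarith [pow_le_pow_right₀ hA (by norm_num : 2 ≤ 4), one_le_pow₀ (n := 4) hA]) hδ
  have k3 : δ ≤ 2 * A ^ 4 * δ := (le_mul_of_one_le_left hδ (one_le_pow₀ hA)).trans k2
  have hb : ∀ p ∈ St, ‖P p‖ ≤ A := fun p hp => (h1 p hp).trans a1
  exact ⟨fun p hp => le_SgB hA (hb p hp) ((h2 p hp).trans a2) ((h3 p hp).trans a3)
      (hc.1 p hp).1 (hc.1 p hp).2,
    fun i => (int_SgB hb (hT'.tst.1 i).1.2.2 (hT.tst.1 i).1.2.2 (hc.2.1 i)).trans k2,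
    fun i => (int_SgB hb (hT'.tst.2 i).1.2.2 (hT.tst.2 i).1.2.2 (hc.2.2.1 i)).trans k2,
    hc.2.2.2.trans k3⟩

theorem SG.asy (h : SG Ω₁ Ω₂ γ₁ γ₂ P Q) (e : Asy T T') :
    Asy (sg γ x y P Q T) (sg γ x y P Q T') := by
  intro t
  have hc : Continuous fun s : ℝ => ((s, t) : Pl) := by fun_prop
  obtain ⟨R, hR⟩ := h.ends
  obtain ⟨R', hR'⟩ := h.symm.ends
  have hd : ∀ s s', (∀ τ, P (s, τ) = P (s', τ)) → dt P (s, t) = dt P (s', t) := fun s s' e => by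
    have h1 := hasDerivAt_dt (h.sP.differentiable (by simp) (s, t))
    rw [funext e] at h1
    exact h1.unique (hasDerivAt_dt (h.sP.differentiable (by simp) (s', t)))
  obtain ⟨C1, h1⟩ := bd_SgB (f := fun s => P (s, t)) (h.sP.continuous.comp hc) fun s => hR s t
  obtain ⟨C2, h2⟩ := bd_SgB (f := fun s => Q (s, t)) (h.sQ.continuous.comp hc) fun s => hR' s t
  obtain ⟨C3, h3⟩ := bd_SgB (f := fun s => dt P (s, t)) (h.bs.2.2.2.1.continuous.comp hc) (R := R)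
    fun s => ⟨fun hs => hd _ _ fun τ => (hR s τ).1 hs, fun hs => hd _ _ fun τ => (hR s τ).2 hs⟩
  obtain ⟨A, hA, a1, a2, a3⟩ : ∃ A : ℝ, 1 ≤ A ∧ C1 ≤ A ∧ C2 ≤ A ∧ C3 ≤ A :=
    ⟨max (max 1 C1) (max C2 C3), by simp, by simp, by simp, by simp⟩
  have h4 := (tendsto_zero_iff_norm_tendsto_zero.1 (e t)).const_mul (2 * A ^ 4)
  rw [mul_zero] at h4
  refine squeeze_zero_norm (fun s => norm_prod_le_iff.2 ?_) h4
  exact le_SgB hA ((h1 s).trans a1) ((h2 s).trans a2) ((h3 s).trans a3)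
    (norm_fst_le (T'.j (s, t) - T.j (s, t), T'.S (s, t) - T.S (s, t)))
    (norm_snd_le (T'.j (s, t) - T.j (s, t), T'.S (s, t) - T.S (s, t)))

theorem sg_ngt (i : Fin b) (T : Op F₁ a b) : sg γ x y P Q (ngt i T) =
    ngt i (sg γ x y P Q T) := by
  refine ext_GauB rfl rfl rfl (fun _ _ => rfl) (fun _ _ => rfl) rfl (funext fun i' => ?_) rfl
  refine (Function.apply_update (fun _ (f : Pl → F₁) p => P p (f p)) T.l i (-T.l i) i').trans ?_
  exact congrArg (Function.update _ i · i') (funext fun p => map_neg (P p) _)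

end

end Pool.Agent.P.MP_de3acd_gt.FH
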