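import Pool.Agent.P.MP_de3acd_gt.FH.PD

/-! Continuity of the signs.
Sketch: Coh.eventually: unfold Coh.cont; ∫ over St of ‖K' - K‖^2 is the real part of nrm 0 (integral_eq_lintegral_of_nonneg_ae,
continuity), ‖M' - M‖ → 0. trOp: adm_iff, Coef.tsl, Adm.ok_iff, bij_of_bijective, frm_tsl; the function s ↦ o (trOp s T) is locally
constant by Coh.eventually (bounded derivatives give uniform continuity in s; nrm 0 of tsl differences by continuous_trW, nrm_co;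
differences j (s + a) - j (s + b) tend to 0 at both ends because both have the limit of Ends; cocompact ℝ = atBot ⊔ atTop),
IsLocallyConstant.apply_eq_of_preconnectedSpace. sign_near: adm_lop, tendsto_coef with PData.gorb (the limits do not depend on a or u),
coefficients via Fam.ctl, exists_cS, cn_comp_sub with k = 0. sign_path: sign_near along 𝓝[Icc 0 1] τ₀, IsPreconnected.constant
or isPreconnected_Icc with a locally constant function; ok_lop_iff, Pth.add. -/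

open Set Filter Topology MeasureTheory
open scoped ContDiff NNReal ENNReal RealInnerProductSpace

namespace Pool.Agent.P.MP_de3acd_gt.FH

noncomputable section

variable {V : Type} [NormedAddCommGroup V] [InnerProductSpace ℝ V] [Sym V]
variable {Λ : Type} [NormedAddCommGroup Λ] [NormedSpace ℝ Λ] [FiniteDimensional ℝ Λ]

variable {o : ∀ a b, Op V a b → ℤˣ} {a b : ℕ}

theorem int_SgnA {f : Pl → V} (hf : Continuous f) {δ : ℝ} (hδ : 0 ≤ δ)
    (h : nrm 0 f univ ≤ ENNReal.ofReal δ) : ∫ p in St, ‖f p‖ ^ 2 ≤ δ := by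
  rw [integral_eq_lintegral_of_nonneg_ae (Eventually.of_forall fun p => sq_nonneg _)
    (hf.norm.pow 2).aestronglyMeasurable]
  refine ENNReal.toReal_le_of_le_ofReal hδ (le_of_eq_of_le (lintegral_congr fun p => ?_) h)
  rw [ENNReal.ofReal_pow (norm_nonneg _), ofReal_norm]

theorem ends_SgnA {E : Type} [NormedAddCommGroup E] {f g : ℝ → E}
    (h : ∀ e : Filter ℝ, e = atBot ∨ e = atTop → ∃ c, Tendsto f e (𝓝 c) ∧ Tendsto g e (𝓝 c)) :
    Tendsto (fun s => f s - g s) (cocompact ℝ) (𝓝 0) := by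
  obtain ⟨c, h1, h2⟩ := h atBot (.inl rfl)
  obtain ⟨c', h3, h4⟩ := h atTop (.inr rfl)
  rw [cocompact_eq_atBot_atTop, tendsto_sup]
  exact ⟨sub_self c ▸ h1.sub h2, sub_self c' ▸ h3.sub h4⟩

theorem shift_SgnA {α β : Type} {f : Pl → α} {g : Pl → β} {e : Filter ℝ} (he : e = atBot ∨ e = atTop)
    {t : ℝ} {m : Filter (α × β)} (h : Tendsto (fun s => (f (s, t), g (s, t))) e m) (r : ℝ) :
    Tendsto (fun s => (tsl (r, 0) f (s, t), tsl (r, 0) g (s, t))) e m := by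
  have h1 : Tendsto (fun s : ℝ => s + r) e e := by
    rcases he with rfl | rfl
    · exact tendsto_atBot_add_const_right _ r tendsto_id
    · exact tendsto_atTop_add_const_right _ r tendsto_id
  refine (h.comp h1).congr fun s => ?_
  simp only [tsl, Function.comp_apply, Prod.mk_add_mk, add_zero]

theorem unif_SgnA {F : Type} [NormedAddCommGroup F] [NormedSpace ℝ F] {f : Pl → F} (hf : Bdd f)
    (s₀ : ℝ) {ε : ℝ} (hε : 0 < ε) :
    ∀ᶠ s in 𝓝 s₀, Cn 0 (tsl (s, 0) f - tsl (s₀, 0) f) univ ε := by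
  obtain ⟨C, hC⟩ := hf.fderiv.bound
  have hl : LipschitzWith C.toNNReal f :=
    lipschitzWith_of_nnnorm_fderiv_le (hf.1.differentiable (by simp)) fun p =>
      NNReal.coe_le_coe.1 ((hC p).trans (Real.le_coe_toNNReal C))
  obtain ⟨δ, hδ, h⟩ := Metric.uniformContinuous_iff.1 hl.uniformContinuous ε hε
  filter_upwards [Metric.ball_mem_nhds s₀ hδ] with s hs p _
  rw [Pi.sub_apply, ← dist_eq_norm]
  refine (h ?_).le
  rw [dist_add_left, dist_prod_same_right]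
  exact hs

theorem tsl_SgnA {φ : Pl → V} (h : φ ∈ Dsub V) (s₀ : ℝ) :
    Tendsto (fun s : ℝ => nrm 0 (tsl (s, 0) φ - tsl (s₀, 0) φ) univ) (𝓝 s₀) (𝓝 0) := by
  have e : ∀ s : ℝ, nrm 0 (tsl (s, 0) φ - tsl (s₀, 0) φ) univ = ENNReal.ofReal
      (‖trW 0 (s, 0) (co 0 ⟨φ, h⟩) - trW 0 (s₀, 0) (co 0 ⟨φ, h⟩)‖ ^ 2) := fun s => by
    rw [trW_co, trW_co, ← map_sub, ← nrm_co]
    rfl
  have hc : Continuous fun s : ℝ => ENNReal.ofReal
      (‖trW 0 (s, 0) (co 0 ⟨φ, h⟩) - trW 0 (s₀, 0) (co 0 ⟨φ, h⟩)‖ ^ 2) :=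
    ENNReal.continuous_ofReal.comp (((((continuous_trW 0 _).comp
      (Continuous.prodMk_left 0)).sub continuous_const).norm).pow 2)
  simp only [e]
  refine hc.tendsto' _ _ ?_
  simp

theorem comp_SgnA {C F N : Type} [NormedAddCommGroup C] [NormedSpace ℝ C] [FiniteDimensional ℝ C]
    [NormedAddCommGroup F] [NormedSpace ℝ F] {g : ℝ → C → F} (hg : SP g) {c : Pl → C} (hc : Bdd c)
    {l : Filter N} {c' : N → Pl → C} (hs : ∀ᶠ n in l, ContDiff ℝ ∞ (c' n))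
    (e : ∀ ε > 0, ∀ᶠ n in l, Cn 0 (c' n - c) univ ε) {ε : ℝ} (hε : 0 < ε) :
    ∀ᶠ n in l, Cn 0 (fun p => g p.2 (c' n p) - g p.2 (c p)) univ ε := by
  obtain ⟨A, hA⟩ := hc.bound
  obtain ⟨L, hL, h⟩ := cn_comp_sub hg 0 (A + 1)
  have h1 : 0 < ε / (L + 1) := by positivity
  filter_upwards [hs, e 1 one_pos, e _ h1] with n h2 h3 h4
  refine (h (c' n) c univ _ h2 hc.1 (fun p hp => ?_) (fun p _ => (hA p).trans (by linarith))
    h4).mono le_rfl subset_rfl ?_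
  · have h5 := norm_add_le (c p) ((c' n - c) p)
    rw [Pi.sub_apply, add_sub_cancel] at h5
    exact h5.trans (add_le_add (hA p) (h3 p hp))
  · rw [mul_div_assoc', div_le_iff₀ (by positivity)]
    nlinarith

theorem cn_smul_SgnA {F : Type} [NormedAddCommGroup F] [NormedSpace ℝ F] (r : ℝ) {k : ℕ}
    {f : Pl → F} (hf : ContDiff ℝ ∞ f) {A : ℝ} (h : Cn k f univ A) :
    Cn k (r • f) univ (|r| * A) := by
  have h0 : ∀ {f : Pl → F}, Cn 0 f univ A → Cn 0 (r • f) univ (|r| * A) := fun h p hp => by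
    rw [Pi.smul_apply, norm_smul, Real.norm_eq_abs]
    exact mul_le_mul_of_nonneg_left (h p hp) (abs_nonneg r)
  induction k generalizing f with
  | zero => exact h0 h
  | succ k ih =>
    rw [cn_succ, ds_smul r hf, dt_smul r hf]
    exact ⟨h0 h.1, ih (contDiff_ds hf) h.2.1, ih (contDiff_dt hf) h.2.2⟩

theorem seg_SgnA {E : Type} [AddCommGroup E] [Module ℝ E] (v w : E) (τ τ₀ : ℝ) :
    v + τ • w - (v + τ₀ • w) = (τ - τ₀) • w := by
  rw [add_sub_add_left_eq_sub, sub_smul]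

theorem nrm_seg_SgnA {K K' : Pl → V} (hK : K ∈ Dsub V) (hK' : K' ∈ Dsub V) (τ₀ : ℝ) :
    Tendsto (fun τ : ℝ => nrm 0 (K + τ • (K' - K) - (K + τ₀ • (K' - K))) univ) (𝓝 τ₀) (𝓝 0) := by
  have hm := (Dsub V).sub_mem hK' hK
  have hc : Continuous fun τ : ℝ => ENNReal.ofReal ((τ - τ₀) ^ 2) :=
    ENNReal.continuous_ofReal.comp (by fun_prop)
  have h1 := ENNReal.Tendsto.mul_const (hc.tendsto' τ₀ 0 (by simp))
    (Or.inr (nrm_lt_top_of_mem 0 hm).ne)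
  rw [zero_mul] at h1
  refine h1.congr fun τ => ?_
  rw [seg_SgnA, nrm_smul 0 _ hm.1]

theorem agr_SgnA {Z : Λ → ℝ → V → V} {Y : ℝ → V → V} {x : ℝ → V} (h : Agr Z Y x) (q : Λ) (t : ℝ) :
    fderiv ℝ (Z q t) (x t) = fderiv ℝ (Y t) (x t) := by
  obtain ⟨δ, hδ, h⟩ := h
  refine Filter.EventuallyEq.fderiv_eq ?_
  filter_upwards [Metric.closedBall_mem_nhds (x t) hδ] with z hz
  exact h q t z (mem_closedBall_iff_norm.1 hz)

theorem Coh.eventually (ho : Coh Ω0 ⊥ o) {T : Op V a b} (hT : Ok Ω0 ⊥ T) {N : Type} {l : Filter N}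
    {T' : N → Op V a b} (h : ∀ᶠ n in l, Adm Ω0 ⊥ (T' n) ∧ (T' n).x = T.x ∧ (T' n).y = T.y ∧
      ∀ t, Tendsto (fun s => ((T' n).j (s, t) - T.j (s, t), (T' n).S (s, t) - T.S (s, t)))
        (cocompact ℝ) (𝓝 0))
    (hj : ∀ ε > 0, ∀ᶠ n in l, Cn 0 ((T' n).j - T.j) univ ε ∧ Cn 0 ((T' n).S - T.S) univ ε)
    (hK : ∀ i, Tendsto (fun n => nrm 0 ((T' n).K i - T.K i) univ) l (𝓝 0))
    (hl : ∀ i, Tendsto (fun n => nrm 0 ((T' n).l i - T.l i) univ) l (𝓝 0))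
    (hM : Tendsto (fun n => (T' n).M) l (𝓝 T.M)) : ∀ᶠ n in l, o a b (T' n) = o a b T := by
  obtain ⟨δ, hδ, H⟩ := ho.cont a b T hT
  have hδ' := ENNReal.ofReal_pos.2 hδ
  have hA := adm_iff.1 hT.1
  filter_upwards [h, hj δ hδ, eventually_all.2 fun i => (hK i).eventually_le_const hδ',
    eventually_all.2 fun i => (hl i).eventually_le_const hδ',
    (tendsto_iff_norm_sub_tendsto_zero.1 hM).eventually_le_const hδ] with n h1 h2 h3 h4 h5
  have hA' := adm_iff.1 h1.1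
  exact H (T' n) h1.1 (hA'.1.trans hA.1.symm) h1.2.1 h1.2.2.1 h1.2.2.2
    (fun p _ => ⟨h2.1 p trivial, h2.2 p trivial⟩)
    (fun i => int_SgnA ((hA'.2.2.2.2.1 i).1.continuous.sub (hA.2.2.2.2.1 i).1.continuous) hδ.le (h3 i))
    (fun i => int_SgnA ((hA'.2.2.2.2.2 i).1.continuous.sub (hA.2.2.2.2.2 i).1.continuous) hδ.le (h4 i))
    h5

theorem Ok.trOp {T : Op V a b} (hT : Ok Ω0 ⊥ T) (s : ℝ) : Ok Ω0 ⊥ (trOp s T) := by
  obtain ⟨h1, h2, h3, h4, h5, h6⟩ := adm_iff.1 hT.1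
  have hA : Adm Ω0 ⊥ (FH.trOp s T) := by
    refine adm_iff.2 ⟨h1, h2, h3.tsl _, fun e he => ?_, fun i => tsl_mem (h5 i) _,
      fun i => tsl_mem (h6 i) _⟩
    obtain ⟨j', B, e1, e2⟩ := h4 e he
    exact ⟨j', B, fun t => shift_SgnA he (e1 t) s, e2⟩
  obtain ⟨c, -, hc⟩ := bij_of_bijective ((Adm.ok_iff hT.1).1 hT)
  exact (Adm.ok_iff hA).2 (frm_tsl h3 h5 h6 T.M (s, 0) hc).1

theorem sign_trOp (ho : Coh Ω0 ⊥ o) {T : Op V a b} (hT : Ok Ω0 ⊥ T) (s : ℝ) :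
    o a b (trOp s T) = o a b T := by
  obtain ⟨-, -, h3, h4, h5, h6⟩ := adm_iff.1 hT.1
  have hc : IsLocallyConstant fun s : ℝ => o a b (trOp s T) := by
    refine (IsLocallyConstant.iff_eventually_eq _).2 fun s₀ => ?_
    refine Coh.eventually ho (Ok.trOp hT s₀) (T' := fun s => trOp s T)
      (Eventually.of_forall fun r => ⟨(Ok.trOp hT r).1, rfl, rfl, fun t => ?_⟩)
      (fun ε hε => (unif_SgnA h3.bj s₀ hε).and (unif_SgnA h3.bS s₀ hε))
      (fun i => tsl_SgnA (h5 i) s₀) (fun i => tsl_SgnA (h6 i) s₀) tendsto_const_nhds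
    refine ends_SgnA (f := fun s => (tsl (r, 0) T.j (s, t), tsl (r, 0) T.S (s, t)))
      (g := fun s => (tsl (s₀, 0) T.j (s, t), tsl (s₀, 0) T.S (s, t))) fun e he => ?_
    obtain ⟨j', B, e1, -⟩ := h4 e he
    exact ⟨_, shift_SgnA he (e1 t) r, shift_SgnA he (e1 t) s₀⟩
  have e : trOp 0 T = T := by
    have h0 : ((0, 0) : Pl) = 0 := rfl
    simp only [trOp, h0, tsl_zero]
  rw [hc.apply_eq_of_preconnectedSpace s 0, e]

theorem trOp_lop (J : ℝ → V → V →L[ℝ] V) (X : Pl → V → V) (x y : ℝ → V) (u : Pl → V)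
    (K : Fin a → Pl → V) (l : Fin b → Pl → V) (M : Fin b → Fin a → ℝ) (s : ℝ) :
    trOp s (lop 1 J X x y u K l M) = lop 1 J (tsl (s, 0) X) x y (tsl (s, 0) u)
      (fun i => tsl (s, 0) (K i)) (fun i => tsl (s, 0) (l i)) M := by
  change Op.mk 1 x y (tsl (s, 0) (cJ J u)) (tsl (s, 0) (cS J X u)) _ _ M =
    Op.mk 1 x y (cJ J (tsl (s, 0) u)) (cS J (tsl (s, 0) X) (tsl (s, 0) u)) _ _ M
  rw [cJ_tsl, cS_tsl]
  rfl

variable {J : ℝ → V → V →L[ℝ] V} {X : Λ → Pl → V → V} {R : ℝ} {Y Y' : ℝ → V → V} {x y : ℝ → V}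

theorem lim_SgnA (h : PData J X R Y Y' x y) {u : Pl → V} (hu : Pth x y u) (q : Λ) (t : ℝ) :
    Tendsto (fun s => (cJ J u (s, t), cS J (X q) u (s, t))) atBot
      (𝓝 (J t (x t), -(J t (x t)).comp (fderiv ℝ (Y t) (x t)))) ∧
    Tendsto (fun s => (cJ J u (s, t), cS J (X q) u (s, t))) atTop
      (𝓝 (J t (y t), -(J t (y t)).comp (fderiv ℝ (Y' t) (y t)))) := by
  rw [← agr_SgnA h.agl q t, ← agr_SgnA h.agr q t]
  exact tendsto_coef h.acs.1 (h.fam.fld q) (h.gorb q).1.1 (h.gorb q).2.1 hu t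

theorem pth_SgnA (h : PData J X R Y Y' x y) {u u' : Pl → V} (hu : Pth x y u)
    (hu' : Pth x y u') (τ : ℝ) : Pth x y (u + τ • (u' - u)) := by
  have hb := hu'.bdd.sub hu.bdd
  refine hu.add h.loops.1 h.loops.2.1 (hb.smul τ) (fun s t => ?_) ?_
  · simp only [Pi.smul_apply, Pi.sub_apply, hu.per s t, hu'.per s t]
  · rw [nrm_smul 2 τ hb.1]
    exact ENNReal.mul_lt_top ENNReal.ofReal_lt_top (hu'.nrm_sub hu h.loops.1 h.loops.2.1)

theorem PData.sign_near (h : PData J X R Y Y' x y) (ho : Coh Ω0 ⊥ o) {p : Λ} {u : Pl → V}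
    (hu : Pth x y u) {K : Fin a → Pl → V} {L : Fin b → Pl → V} {M : Fin b → Fin a → ℝ}
    (hT : Ok Ω0 ⊥ (lop 1 J (X p) x y u K L M)) {N : Type} {l : Filter N} {p' : N → Λ}
    {u' : N → Pl → V} {K' : N → Fin a → Pl → V} {L' : N → Fin b → Pl → V}
    {M' : N → Fin b → Fin a → ℝ} (hp : Tendsto p' l (𝓝 p))
    (hu' : ∀ᶠ n in l, Pth x y (u' n) ∧ TF (K' n) ∧ TF (L' n))
    (e : ∀ ε > 0, ∀ᶠ n in l, Cn 1 (u' n - u) univ ε)
    (hK : ∀ i, Tendsto (fun n => nrm 0 (K' n i - K i) univ) l (𝓝 0))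
    (hL : ∀ i, Tendsto (fun n => nrm 0 (L' n i - L i) univ) l (𝓝 0)) (hM : Tendsto M' l (𝓝 M)) :
    ∀ᶠ n in l, o a b (lop 1 J (X (p' n)) x y (u' n) (K' n) (L' n) (M' n)) =
      o a b (lop 1 J (X p) x y u K L M) := by
  refine Coh.eventually ho hT (T' := fun n => lop 1 J (X (p' n)) x y (u' n) (K' n) (L' n) (M' n))
    ?_ (fun ε hε => Eventually.and ?_ ?_) hK hL hM
  · filter_upwards [hu'] with n hn
    refine ⟨adm_lop h.acs (h.fam.fld _) (h.gorb _).1 (h.gorb _).2 hn.1 hn.2.1 hn.2.2 _, rfl, rfl,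
      fun t => ?_⟩
    refine ends_SgnA (f := fun s => (cJ J (u' n) (s, t), cS J (X (p' n)) (u' n) (s, t)))
      (g := fun s => (cJ J u (s, t), cS J (X p) u (s, t))) ?_
    rintro _ (rfl | rfl)
    · exact ⟨_, (lim_SgnA h hn.1 _ t).1, (lim_SgnA h hu _ t).1⟩
    · exact ⟨_, (lim_SgnA h hn.1 _ t).2, (lim_SgnA h hu _ t).2⟩
  · exact comp_SgnA h.acs.1 hu.bdd (hu'.mono fun n hn => hn.1.bdd.1)
      (fun ε hε => (e ε hε).mono fun n hn => hn.1) hε
  · obtain ⟨𝕏, ρ, h1, h2, -, -, -, h3⟩ := h.fam.ctl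
    obtain ⟨g, hg, h4⟩ := exists_cS (J := J) h.acs.1 h1
    have h5 : ∀ (q : Λ) (v : Pl → V),
        cS J (X q) v = fun z => g z.2 ((q, ρ z.1), v z, dt v z) := fun q v => by rw [h3 q, h4]
    have h6 := comp_SgnA hg (((bdd_const p).prod h2).prod (hu.bdd.prod hu.bdd.dt)) (l := l)
      (c' := fun n z => ((p' n, ρ z.1), u' n z, dt (u' n) z))
      (hu'.mono fun n hn => (((bdd_const (p' n)).prod h2).prod (hn.1.bdd.prod hn.1.bdd.dt)).1)
      (fun ε hε => by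
        filter_upwards [hu', e ε hε,
          (tendsto_iff_norm_sub_tendsto_zero.1 hp).eventually_le_const hε] with n h7 h8 h9 z hz
        have h10 := h8.2.2 z hz
        rw [dt_sub_JetC h7.1.bdd.1 hu.bdd.1] at h10
        refine norm_prod_le_iff.2 ⟨norm_prod_le_iff.2 ⟨h9, ?_⟩,
          norm_prod_le_iff.2 ⟨h8.1 z hz, h10⟩⟩
        change ‖ρ z.1 - ρ z.1‖ ≤ ε
        rw [sub_self, norm_zero]
        exact hε.le) hε
    refine h6.mono fun n hn => ?_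
    change Cn 0 (cS J (X (p' n)) (u' n) - cS J (X p) u) univ ε
    rw [h5, h5]
    exact hn

theorem PData.sign_path (h : PData J X R Y Y' x y) (ho : Coh Ω0 ⊥ o) {p p' : Λ} {u u' : Pl → V}
    (hu : Pth x y u) (hu' : Pth x y u') {K : ℝ → Fin a → Pl → V} {L L' : Fin b → Pl → V}
    {M M' : Fin b → Fin a → ℝ} (hK : ∀ τ, TF (K τ)) (hL : TF L) (hL' : TF L')
    (cK : ∀ τ₀ i, Tendsto (fun τ => nrm 0 (K τ i - K τ₀ i) univ) (𝓝 τ₀) (𝓝 0))
    (hb : ∀ τ ∈ Icc (0 : ℝ) 1, Function.Bijective (frm (Du J (X (p + τ • (p' - p)))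
      (u + τ • (u' - u))) (K τ) (L + τ • (L' - L)) (M + τ • (M' - M)))) :
    o a b (lop 1 J (X p') x y u' (K 1) L' M') = o a b (lop 1 J (X p) x y u (K 0) L M) := by
  have tL : ∀ τ : ℝ, TF (L + τ • (L' - L)) := fun τ i =>
    (Dsub V).add_mem (hL i) ((Dsub V).smul_mem τ ((Dsub V).sub_mem (hL' i) (hL i)))
  have hw := hu'.bdd.sub hu.bdd
  obtain ⟨A, -, hA⟩ := hw.cn 1
  have hc : ContinuousOn (fun τ : ℝ => o a b (lop 1 J (X (p + τ • (p' - p))) x y (u + τ • (u' - u))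
      (K τ) (L + τ • (L' - L)) (M + τ • (M' - M)))) (Icc 0 1) := by
    intro τ₀ h0
    have h1 := h.sign_near ho (pth_SgnA h hu hu' τ₀)
      ((ok_lop_iff h.acs (h.fam.fld _) (h.gorb _).1 (h.gorb _).2 (pth_SgnA h hu hu' τ₀) _ _ _).2
        ⟨hK τ₀, tL τ₀, hb τ₀ h0⟩) (l := 𝓝 τ₀) (p' := fun τ => p + τ • (p' - p))
      (u' := fun τ => u + τ • (u' - u)) (K' := K) (L' := fun τ => L + τ • (L' - L))
      (M' := fun τ => M + τ • (M' - M))
      ((by fun_prop : Continuous fun τ : ℝ => p + τ • (p' - p)).tendsto τ₀)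
      (Eventually.of_forall fun τ => ⟨pth_SgnA h hu hu' τ, hK τ, tL τ⟩) (fun ε hε => ?_) (cK τ₀)
      (fun i => nrm_seg_SgnA (hL i) (hL' i) τ₀)
      ((by fun_prop : Continuous fun τ : ℝ => M + τ • (M' - M)).tendsto τ₀)
    · exact (continuousAt_const.congr (EventuallyEq.symm h1)).continuousWithinAt
    · have h2 : Continuous fun τ : ℝ => |τ - τ₀| * A := by fun_prop
      filter_upwards [(h2.tendsto' τ₀ 0 (by simp)).eventually_le_const hε] with τ hτ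
      rw [seg_SgnA]
      exact (cn_smul_SgnA _ hw.1 hA).mono le_rfl subset_rfl hτ
  have h3 := isPreconnected_Icc.constant hc (right_mem_Icc.2 zero_le_one) (left_mem_Icc.2 zero_le_one)
  simpa only [one_smul, add_sub_cancel, zero_smul, add_zero] using h3

theorem PData.pth_seg (h : PData J X R Y Y' x y) {u u' : Pl → V} (hu : Pth x y u)
    (hu' : Pth x y u') (τ : ℝ) : Pth x y (u + τ • (u' - u)) := pth_SgnA h hu hu' τ

theorem tendsto_nrm_seg {K K' : Pl → V} (hK : K ∈ Dsub V) (hK' : K' ∈ Dsub V) (τ₀ : ℝ) :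
    Tendsto (fun τ : ℝ => nrm 0 (K + τ • (K' - K) - (K + τ₀ • (K' - K))) univ) (𝓝 τ₀) (𝓝 0) :=
  nrm_seg_SgnA hK hK' τ₀

end

end Pool.Agent.P.MP_de3acd_gt.FH
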