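import Pool.Agent.P.MP_de3acd_gt.FH.TvA
import Pool.Agent.P.MP_de3acd_gt.FH.SgnA

/-! The sign does not depend on the profile.
Sketch: τ r = τ + r (τ' - τ) (Prf.seg); r ↦ o (tv B (τ r) T) is locally constant on ℝ (IsLocallyConstant.iff_eventually_eq, IsLocallyConstant.apply_eq_of_preconnectedSpace) by Coh.eventually, Fr.tv_adm, Fr.tv_ok_iff.
For |s| large all profiles agree locally, so the coefficients agree. They are periodic (adm_iff) and jointly continuous in (r, p): ds (gP B m (τ r)) p and dt (gP B m (τ r)) p are values of the derivative of the smooth map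
(r, p) ↦ gP B m (τ r) p (fderiv_right_CbFam, or ContDiff.fderiv); unif_fam; for the frames Cn.nrm_le and nrm_eq_of_supp. unif_fam: Per.int, the tube lemma IsCompact.eventually_forall_of_forall_eventually. -/

open Set Filter Topology MeasureTheory
open scoped ContDiff NNReal ENNReal RealInnerProductSpace

namespace Pool.Agent.P.MP_de3acd_gt.FH

noncomputable section

variable {Γ : Subgroup (Equiv.Perm E)} {B : ℝ → E →L[ℝ] E} {J : ℝ → E → E →L[ℝ] E}
  {H G : ℝ → E → ℝ} {Y : ℝ → E → E} {γ g : Equiv.Perm E}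
variable {a b a' b' : ℕ} {T : Op E a b} {τ τ' τ₁ τ₂ : ℝ → ℝ} {c d e : ℝ}

theorem unif_fam {F : Type} [NormedAddCommGroup F] [NormedSpace ℝ F] {f : ℝ → Pl → F}
    (hf : Continuous fun q : ℝ × Pl => f q.1 q.2) (pf : ∀ r, Per (f r)) {R r₀ : ℝ}
    (h : ∀ r (p : Pl), R ≤ |p.1| → f r p = f r₀ p) {ε : ℝ} (hε : 0 < ε) :
    ∀ᶠ r in 𝓝 r₀, Cn 0 (f r - f r₀) univ ε := by
  have h1 : Continuous fun q : ℝ × Pl => ‖f q.1 q.2 - f r₀ q.2‖ :=
    (hf.sub (hf.comp (continuous_const.prodMk continuous_snd))).norm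
  filter_upwards [((isCompact_Icc (a := -R) (b := R)).prod
    (isCompact_Icc (a := (0 : ℝ)) (b := 1))).eventually_forall_of_forall_eventually (x₀ := r₀)
      (P := fun r p => ‖f r p - f r₀ p‖ ≤ ε) fun p _ =>
        (h1.tendsto _).eventually_le_const (by simpa using hε)] with r hr ⟨s, t⟩ _
  rcases le_total R |s| with hs | hs
  · simp [h r (s, t) hs, hε.le]
  · rw [Pi.sub_apply, ← Int.fract_add_floor t, (pf r).int, (pf r₀).int]
    exact hr _ ⟨abs_le.1 hs, Int.fract_nonneg t, (Int.fract_lt_one t).le⟩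

theorem nrm_TvB {F : Type} [NormedAddCommGroup F] [NormedSpace ℝ F] {f : ℝ → Pl → F}
    (hf : Continuous fun q : ℝ × Pl => f q.1 q.2) (pf : ∀ r, Per (f r)) {R : ℝ} (r₀ : ℝ)
    (h : ∀ r (p : Pl), R ≤ |p.1| → f r p = 0) :
    Tendsto (fun r => nrm 0 (f r - f r₀) univ) (𝓝 r₀) (𝓝 0) := by
  refine ENNReal.tendsto_nhds_zero.2 fun ε hε => ?_
  have h1 : Tendsto (fun η : ℝ => ENNReal.ofReal (3 ^ 0 * η ^ 2) * volume (Icc (-R) R)) (𝓝 0)
      (𝓝 0) := by
    have h2 : Continuous fun η : ℝ => ENNReal.ofReal (3 ^ 0 * η ^ 2) :=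
      ENNReal.continuous_ofReal.comp (by fun_prop)
    simpa using ENNReal.Tendsto.mul_const (b := volume (Icc (-R) R)) (h2.tendsto 0)
      (Or.inr measure_Icc_lt_top.ne)
  obtain ⟨η, h2, h3⟩ := (((h1.mono_left nhdsWithin_le_nhds).eventually_le_const hε).and
    (self_mem_nhdsWithin (s := Ioi 0))).exists
  filter_upwards [unif_fam hf pf (r₀ := r₀) (fun r p hp => (h r p hp).trans (h r₀ p hp).symm) h3]
    with r hr
  rw [nrm_eq_of_supp 0 (isClosed_Icc (a := -R) (b := R)) fun p hp => ?_]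
  · exact (Cn.nrm_le measurableSet_Icc (k := 0) fun p _ => hr p trivial).trans h2
  · have h4 : R ≤ |p.1| := (not_le.1 fun h4 => hp (abs_le.1 h4)).le
    rw [Pi.sub_apply, h r p h4, h r₀ p h4, sub_zero]

theorem Fr.tv_hom (h : Fr Γ B) {o : ∀ a b, Op V6 a b → ℤˣ} (ho : Coh Ω0 ⊥ o) (hτ : Prf τ c d)
    (hτ' : Prf τ' c d) (hT : Ok om Γ T) : o a b (tv B τ T) = o a b (tv B τ' T) := by
  let σ : ℝ → ℝ → ℝ := fun r s => τ s + r * (τ' s - τ s)
  have hA : ∀ r, Adm Ω0 ⊥ (tv B (σ r) T) := fun r => h.tv_adm (hτ.seg hτ' r) hT.1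
  have hu : ContDiff ℝ ∞ fun q : ℝ × Pl => tau (T.γ 0) * q.2.2 + σ q.1 q.2.1 := by
    have h1 := hτ.1.comp (contDiff_snd.fst (f := fun q : ℝ × Pl => q.2))
    have h2 := hτ'.1.comp (contDiff_snd.fst (f := fun q : ℝ × Pl => q.2))
    exact (contDiff_const.mul contDiff_snd.snd).add (h1.add (contDiff_fst.mul (h2.sub h1)))
  have hP : ContDiff ℝ ∞ fun q : ℝ × Pl => gP B (tau (T.γ 0)) (σ q.1) q.2 :=
    contDiff_const.clm_comp (h.2.comp hu.neg)
  have hQ : Continuous fun q : ℝ × Pl => gQ B (tau (T.γ 0)) (σ q.1) q.2 :=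
    (h.2.comp hu).continuous.clm_comp continuous_const
  have hD : Continuous fun q : ℝ × Pl => fderiv ℝ (gP B (tau (T.γ 0)) (σ q.1)) q.2 :=
    Continuous.fderiv (f := fun (q : ℝ × Pl) p => gP B (tau (T.γ 0)) (σ q.1) p)
      (hP.comp (contDiff_fst.fst.prodMk contDiff_snd)) continuous_snd (by simp)
  have hj : Continuous fun q : ℝ × Pl => T.j q.2 :=
    hT.1.smooth.continuous.fst.comp continuous_snd
  have hS : Continuous fun q : ℝ × Pl => T.S q.2 :=
    hT.1.smooth.continuous.snd.comp continuous_snd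
  have cj : Continuous fun q : ℝ × Pl => (tv B (σ q.1) T).j q.2 :=
    hP.continuous.clm_comp (hj.clm_comp hQ)
  have cS : Continuous fun q : ℝ × Pl => (tv B (σ q.1) T).S q.2 :=
    (((hP.continuous.clm_comp hS).sub (hD.clm_apply continuous_const)).sub
      (hP.continuous.clm_comp (hj.clm_comp (hQ.clm_comp
        (hD.clm_apply continuous_const))))).clm_comp hQ
  obtain ⟨R, hR⟩ : ∃ R, ∀ r s, R < |s| → σ r s = τ s := by
    obtain ⟨-, R, h1⟩ := hτ
    obtain ⟨-, R', h2⟩ := hτ'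
    refine ⟨max R R', fun r s hs => ?_⟩
    have h3 : τ' s = τ s := by
      rcases lt_abs.1 hs with h3 | h3 <;> rw [max_lt_iff] at h3
      · rw [(h1 s).2 h3.1.le, (h2 s).2 h3.2.le]
      · rw [(h1 s).1 (by linarith), (h2 s).1 (by linarith)]
    simp only [σ, h3, sub_self, mul_zero, add_zero]
  have hE : ∀ r r₀ (p : Pl), R + 1 ≤ |p.1| → (tv B (σ r) T).j p = (tv B (σ r₀) T).j p ∧
      (tv B (σ r) T).S p = (tv B (σ r₀) T).S p := fun r r₀ p hp => by
    have h1 : ∀ᶠ q : Pl in 𝓝 p, R < |q.1| :=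
      (continuous_fst.abs.tendsto p).eventually (lt_mem_nhds (by linarith))
    have h2 : gP B (tau (T.γ 0)) (σ r) =ᶠ[𝓝 p] gP B (tau (T.γ 0)) (σ r₀) :=
      h1.mono fun q hq => by simp only [gP, hR _ _ hq]
    have h3 : gQ B (tau (T.γ 0)) (σ r) p = gQ B (tau (T.γ 0)) (σ r₀) p := by
      simp only [gQ, hR _ _ h1.self_of_nhds]
    dsimp only [tv, FH.sg, ds, dt]
    rw [h2.fderiv_eq, h2.self_of_nhds, h3]
    exact ⟨rfl, rfl⟩
  have hF : ∀ {ξ : Pl → E}, Tst T.γ ξ → ∀ r₀,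
      (∀ r, Per fun p => gP B (tau (T.γ 0)) (σ r) p (ξ p)) →
      Tendsto (fun r => nrm 0 ((fun p => gP B (tau (T.γ 0)) (σ r) p (ξ p)) -
        fun p => gP B (tau (T.γ 0)) (σ r₀) p (ξ p)) univ) (𝓝 r₀) (𝓝 0) := by
    rintro ξ ⟨h1, R', h2⟩ r₀ h3
    exact nrm_TvB (hP.continuous.clm_apply (h1.1.continuous.comp continuous_snd)) h3 r₀
      fun r p hp => by rw [h2 p hp, map_zero]
  have hL : IsLocallyConstant fun r => o a b (tv B (σ r) T) := by
    refine (IsLocallyConstant.iff_eventually_eq _).2 fun r₀ => Coh.eventually ho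
      ((h.tv_ok_iff (hτ.seg hτ' r₀) hT.1).2 hT)
      (Eventually.of_forall fun r => ⟨hA r, rfl, rfl, fun t => tendsto_const_nhds.congr' ?_⟩)
      (fun ε hε => ?_)
      (fun i => hF (hT.1.tst.1 i) r₀ fun r => ((adm_iff.1 (hA r)).2.2.2.2.1 i).2.1)
      (fun i => hF (hT.1.tst.2 i) r₀ fun r => ((adm_iff.1 (hA r)).2.2.2.2.2 i).2.1)
      tendsto_const_nhds
    · filter_upwards [(tendsto_norm_cocompact_atTop (E := ℝ)).eventually_ge_atTop (R + 1)] with s hs
      obtain ⟨h1, h2⟩ := hE r r₀ (s, t) hs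
      rw [h1, h2, sub_self, sub_self]
      rfl
    · exact (unif_fam cj (fun r => (adm_iff.1 (hA r)).2.2.1.3)
        (fun r p hp => (hE r r₀ p hp).1) hε).and
        (unif_fam cS (fun r => (adm_iff.1 (hA r)).2.2.1.5) (fun r p hp => (hE r r₀ p hp).2) hε)
  simpa [σ] using hL.apply_eq_of_preconnectedSpace 0 1

end

end Pool.Agent.P.MP_de3acd_gt.FH
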