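import Pool.Agent.P.MP_de3acd_gt.FH.OV1
import Pool.Agent.P.MP_de3acd_gt.FH.TvB
import Pool.Agent.P.MP_de3acd_gt.FH.SgB

/-! Coherent orientations exist.
Sketch: o a b T = o₁ a b (tv B (fun s => tau (T.x 0) + Real.smoothTransition s * (tau (T.y 0) - tau (T.x 0))) T) with o₁ from exists_coh_V and the same η (prf_step). cont: Fr.sg, SG.clo, SG.asy, Fr.tv_adm, Fr.tv_ok_iff, δ / C.
neg: sg_ngt. glu: tv_glue, Prf.glue, Adm.glue, Ok.glue, Fr.tv_ok_iff, Fr.tv_hom. inv: Fr.tau_eq, Fr.tv_smul. -/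

open Set Filter Topology MeasureTheory
open scoped ContDiff NNReal ENNReal RealInnerProductSpace

namespace Pool.Agent.P.MP_de3acd_gt.FH

noncomputable section

variable {Γ : Subgroup (Equiv.Perm E)} {B : ℝ → E →L[ℝ] E} {J : ℝ → E → E →L[ℝ] E}
  {H G : ℝ → E → ℝ} {Y : ℝ → E → E} {γ g : Equiv.Perm E}

theorem Fr.exists_coh (h : Fr Γ B) : ∃ o : ∀ a b, Op E a b → ℤˣ, Coh om Γ o := by
  obtain ⟨o, ho⟩ := exists_coh_V (V := V6)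
  obtain ⟨η, hη⟩ := ho.glu
  refine ⟨fun a b T => o a b
    (tv B (fun s => tau (T.x 0) + Real.smoothTransition s * (tau (T.y 0) - tau (T.x 0))) T),
    fun a b T hT => ?_, fun a b T i hT => ?_, ⟨η, fun a b a' b' T T' hT hT' e₁ e₂ hM => ?_⟩,
    fun g hg a b T T' hT e₁ e₂ e₃ e₄ e₅ e₆ e₇ => ?_⟩
  · have hp := prf_step (tau (T.x 0)) (tau (T.y 0))
    have hs := h.sg hT.1.mem hp
    obtain ⟨δ, hδ, k⟩ := ho.cont a b _ ((h.tv_ok_iff hp hT.1).2 hT)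
    obtain ⟨C, hC, c⟩ := hs.clo (Γ₁ := Γ)
    refine ⟨δ / C, div_pos hδ hC, fun T' hT' e₁ e₂ e₃ k₁ k₂ k₃ k₄ k₅ => ?_⟩
    have k₆ := c a b T T' _ 1 0 0 hT.1 hT' ⟨k₂, k₃, k₄, k₅⟩
    have k₇ := h.tv_adm hp hT'
    rw [mul_div_cancel₀ _ hC.ne'] at k₆
    rw [e₂, e₃]
    simp only [tv, e₁] at k₇ ⊢
    exact k _ k₇ rfl rfl rfl (hs.asy k₁) k₆.1 k₆.2.1 k₆.2.2.1 k₆.2.2.2
  · have hp := prf_step (tau (T.x 0)) (tau (T.y 0))
    exact (congrArg (o a b) (sg_ngt i T)).trans (ho.neg a b _ i ((h.tv_ok_iff hp hT.1).2 hT))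
  · have hp := prf_step (tau (T.x 0)) (tau (T.y 0))
    have hp' := prf_step (tau (T.y 0)) (tau (T'.y 0))
    have k := (h.tv_ok_iff hp hT.1).2 hT
    have k' := (h.tv_ok_iff hp' hT'.1).2 hT'
    obtain ⟨m, e⟩ := tv_glue (B := B) hp hp' hT.1 hT'.1 e₁ hM
    filter_upwards [e, hη a b a' b' _ _ k k' rfl rfl m, Adm.glue hT.1 hT'.1 e₁ hM, Ok.glue k k' m]
      with R h₁ h₂ h₃ h₄
    rw [← e₂, ← h₂, ← h₁]
    exact h.tv_hom ho (prf_step _ _) (hp.glue hp' R)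
      ((h.tv_ok_iff (hp.glue hp' R) h₃).1 (h₁ ▸ h₄))
  · rw [← h.tv_smul hg (prf_step _ _).1 hT.1.mem e₁ e₄ e₅ e₆ e₇, e₂, e₃, Function.comp_apply,
      Function.comp_apply, h.tau_eq hg (T.x 0), h.tau_eq hg (T.y 0)]
    congr 2
    funext s
    ring

end

end Pool.Agent.P.MP_de3acd_gt.FH
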