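import Pool.Agent.P.MP_de3acd_gt.FH.Defs7
import Pool.Agent.P.MP_de3acd_gt.FH.BSC

/-! Smooth series of maps with small weights.
Sketch: δ i = 2⁻¹ ^ i / A i with A i ≥ 1 a bound of the derivatives of order ≤ i of Ψ i on the ball of radius i (unif_BSC). With π i : Lam →L ℝ the coordinate (norm ≤ 1, lp.norm_apply_le_norm)
put g i ξ = ε i • (π i).smulRight (Ψ i ξ) (ContinuousLinearMap.smulRightL) and L ξ = ∑' i, g i ξ. Smoothness on balls: show by induction on n, for all complete targets Y, that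
∑' g i is ContDiffOn n on ball 0 R when the derivatives of order ≤ n are bounded on the ball by a summable sequence (hasFDerivAt_tsum_of_isPreconnected, continuousOn_tsum,
contDiffOn_succ_iff_fderiv_of_isOpen; targets X →L Y stay in Type). sep_Lam: finite sums of rational multiples of lp.single are dense (lp.hasSum_single), or the span of a countable set is separable
(TopologicalSpace.IsSeparable.span, closure). exists_sml: ε i = min (δ₀ i) (the minimum of the δ n i with encode n ≤ i). -/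

open Set Filter Topology MeasureTheory
open scoped ContDiff NNReal ENNReal RealInnerProductSpace

namespace Pool.Agent.P.MP_de3acd_gt.FH

noncomputable section

variable {X Y Z : Type} [NormedAddCommGroup X] [NormedSpace ℝ X] [NormedAddCommGroup Y]
  [NormedSpace ℝ Y] [NormedAddCommGroup Z] [NormedSpace ℝ Z]

theorem abs_apply_le (a : Lam) (i : ℕ) : |a i| ≤ ‖a‖ := by
  simpa using _root_.lp.norm_apply_le_norm (by norm_num : (2 : ℝ≥0∞) ≠ 0) a i

theorem tsum_on_Ser (n : ℕ) (R : ℝ) : ∀ {Y : Type} [NormedAddCommGroup Y] [NormedSpace ℝ Y]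
    [CompleteSpace Y] (g : ℕ → X → Y) (v : ℕ → ℝ), Summable v → (∀ i, ContDiff ℝ n (g i)) →
    (∀ i, ∀ k ≤ n, ∀ x, ‖x‖ ≤ R → ‖iteratedFDeriv ℝ k (g i) x‖ ≤ v i) →
    ContDiffOn ℝ n (fun x => ∑' i, g i x) (Metric.ball 0 R) := by
  induction n with
  | zero =>
    intro Y _ _ _ g v hv hg hb
    refine contDiffOn_zero.2 (continuousOn_tsum (fun i => (hg i).continuous.continuousOn) hv
      fun i x hx => ?_)
    simpa using hb i 0 le_rfl x (mem_ball_zero_iff.1 hx).le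
  | succ n ih =>
    intro Y _ _ _ g v hv hg hb
    have hg' : ∀ i, ContDiff ℝ ((n : WithTop ℕ∞) + 1) (g i) := fun i => by exact_mod_cast hg i
    have h1 : ∀ x ∈ Metric.ball (0 : X) R,
        HasFDerivAt (fun y => ∑' i, g i y) (∑' i, fderiv ℝ (g i) x) x := by
      intro x hx
      refine hasFDerivAt_tsum_of_isPreconnected hv Metric.isOpen_ball
        (convex_ball (0 : X) R).isPreconnected
        (fun i y _ => ((contDiff_succ_iff_fderiv.1 (hg' i)).1 y).hasFDerivAt) (fun i y hy => ?_)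
        hx ?_ hx
      · have := hb i 1 (by omega) y (mem_ball_zero_iff.1 hy).le
        rwa [← norm_iteratedFDeriv_fderiv, norm_iteratedFDeriv_zero] at this
      · refine Summable.of_norm_bounded hv fun i => ?_
        simpa using hb i 0 (Nat.zero_le _) x (mem_ball_zero_iff.1 hx).le
    have h2 : ContDiffOn ℝ ((n : WithTop ℕ∞) + 1) (fun x => ∑' i, g i x) (Metric.ball 0 R) := by
      refine (contDiffOn_succ_iff_fderiv_of_isOpen Metric.isOpen_ball).2
        ⟨fun x hx => (h1 x hx).differentiableAt.differentiableWithinAt,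
          fun h => absurd h (by simp), ?_⟩
      refine (ih (fun i => fderiv ℝ (g i)) v hv
        (fun i => (contDiff_succ_iff_fderiv.1 (hg' i)).2.2) fun i k hk x hx => ?_).congr
        fun x hx => (h1 x hx).fderiv
      rw [norm_iteratedFDeriv_fderiv]
      exact hb i (k + 1) (by omega) x hx
    exact_mod_cast h2

/-- The rank one maps. -/
def rk_Ser (Y : Type) [NormedAddCommGroup Y] [NormedSpace ℝ Y] (c : ℝ) (i : ℕ) :
    Y →L[ℝ] Lam →L[ℝ] Y :=
  c • ContinuousLinearMap.smulRightL ℝ Lam Y (_root_.lp.evalCLM ℝ (fun _ : ℕ => ℝ) 2 i)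

theorem rk_apply_Ser (c : ℝ) (i : ℕ) (y : Y) (a : Lam) : rk_Ser Y c i y a = (a i * c) • y := by
  have : rk_Ser Y c i y a = c • (a i • y) := rfl
  rw [this, smul_smul, mul_comm]

theorem rk_norm_Ser {c : ℝ} (hc : 0 ≤ c) (i : ℕ) : ‖rk_Ser Y c i‖ ≤ c := by
  refine ContinuousLinearMap.opNorm_le_bound _ hc fun y => ?_
  refine ContinuousLinearMap.opNorm_le_bound _ (by positivity) fun a => ?_
  rw [rk_apply_Ser, norm_smul, Real.norm_eq_abs, abs_mul, abs_of_nonneg hc]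
  have h1 := abs_apply_le a i
  have h2 : 0 ≤ c * ‖y‖ := by positivity
  nlinarith

theorem exists_series [CompleteSpace Y] {Ψ : ℕ → X → Y} (h : ∀ i, BS (Ψ i)) :
    ∃ δ : ℕ → ℝ, (∀ i, 0 < δ i) ∧ ∀ ε, Sml δ ε → ∃ L : X → Lam →L[ℝ] Y, ContDiff ℝ ∞ L ∧
      (∀ ξ (a : Lam), HasSum (fun i => (a i * ε i) • Ψ i ξ) (L ξ a)) ∧
        ∀ R : ℝ, ∃ v : ℕ → ℝ, Summable v ∧ ∀ i ξ, ‖ξ‖ ≤ R → ε i * ‖Ψ i ξ‖ ≤ v i := by
  choose A hA1 hA using fun i : ℕ => unif_BSC (h i i) i
  have hA0 : ∀ i, 0 < A i := fun i => zero_lt_one.trans_le (hA1 i)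
  refine ⟨fun i => (1 / 2) ^ i / A i, fun i => div_pos (by positivity) (hA0 i), fun ε hε => ?_⟩
  have bnd : ∀ (n : ℕ) (R : ℝ), ∃ v : ℕ → ℝ, Summable v ∧ ∀ i, ∀ k ≤ n, ∀ x, ‖x‖ ≤ R →
      ε i * ‖iteratedFDeriv ℝ k (Ψ i) x‖ ≤ v i := by
    intro n R
    classical
    choose B _ hB using fun i : ℕ => unif_BSC (h i n) R
    refine ⟨fun i => if n ≤ i ∧ R ≤ i ∧ ε i ≤ (1 / 2) ^ i / A i then (1 / 2) ^ i else ε i * B i,
      ?_, fun i k hk x hx => ?_⟩
    · refine summable_geometric_two.congr_cofinite ?_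
      rw [Nat.cofinite_eq_atTop]
      filter_upwards [hε.2, eventually_ge_atTop n,
        tendsto_natCast_atTop_atTop.eventually_ge_atTop R] with i h1 h2 h3
      rw [if_pos ⟨h2, h3, h1⟩]
    · dsimp only
      split_ifs with hi
      · calc ε i * ‖iteratedFDeriv ℝ k (Ψ i) x‖ ≤ (1 / 2) ^ i / A i * A i :=
              mul_le_mul hi.2.2 (hA i k (hk.trans hi.1) x (hx.trans hi.2.1)) (norm_nonneg _)
                (div_pos (by positivity) (hA0 i)).le
          _ = (1 / 2) ^ i := div_mul_cancel₀ _ (hA0 i).ne'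
      · exact mul_le_mul_of_nonneg_left (hB i k hk x hx) (hε.1 i).le
  have bnd0 : ∀ R : ℝ, ∃ v : ℕ → ℝ, Summable v ∧ ∀ i ξ, ‖ξ‖ ≤ R → ε i * ‖Ψ i ξ‖ ≤ v i := by
    intro R
    obtain ⟨v, hv, hb⟩ := bnd 0 R
    exact ⟨v, hv, fun i ξ hξ => by simpa using hb i 0 le_rfl ξ hξ⟩
  refine ⟨fun ξ => ∑' i, rk_Ser Y (ε i) i (Ψ i ξ), contDiff_infty.2 fun n => ?_, fun ξ a => ?_,
    bnd0⟩
  · refine contDiff_iff_contDiffAt.2 fun x => ?_
    obtain ⟨v, hv, hb⟩ := bnd n (‖x‖ + 1)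
    refine (tsum_on_Ser n (‖x‖ + 1) (fun i ξ => rk_Ser Y (ε i) i (Ψ i ξ)) v hv
      (fun i => (rk_Ser Y (ε i) i).contDiff.comp (h i n).1) fun i k hk y hy => ?_).contDiffAt
      (Metric.isOpen_ball.mem_nhds (mem_ball_zero_iff.2 (lt_add_one _)))
    refine ((rk_Ser Y (ε i) i).norm_iteratedFDeriv_comp_left (h i n).1.contDiffAt
      (by exact_mod_cast hk)).trans (le_trans ?_ (hb i k hk y hy))
    exact mul_le_mul_of_nonneg_right (rk_norm_Ser (hε.1 i).le i) (norm_nonneg _)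
  · obtain ⟨v, hv, hb⟩ := bnd0 ‖ξ‖
    have hs : Summable fun i => rk_Ser Y (ε i) i (Ψ i ξ) := by
      refine Summable.of_norm_bounded hv fun i => ?_
      refine ((rk_Ser Y (ε i) i).le_opNorm _).trans (le_trans ?_ (hb i ξ le_rfl))
      exact mul_le_mul_of_nonneg_right (rk_norm_Ser (hε.1 i).le i) (norm_nonneg _)
    have := (ContinuousLinearMap.apply ℝ Y a).hasSum hs.hasSum
    simpa only [ContinuousLinearMap.apply_apply, rk_apply_Ser] using this

theorem sep_Lam : TopologicalSpace.SeparableSpace Lam := by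
  classical
  have h1 : TopologicalSpace.IsSeparable
      (range fun i : ℕ => (_root_.lp.single 2 i (1 : ℝ) : Lam)) :=
    (countable_range _).isSeparable
  refine TopologicalSpace.isSeparable_univ_iff.1 (h1.span (R := ℝ).closure.mono fun a _ => ?_)
  have h2 := _root_.lp.hasSum_single (p := 2) (by norm_num) a
  refine mem_closure_of_tendsto h2 (Eventually.of_forall fun s => ?_)
  refine Submodule.sum_mem _ fun i _ => ?_
  have h3 : (_root_.lp.single 2 i (a i) : Lam) = a i • (_root_.lp.single 2 i (1 : ℝ) : Lam) := by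
    rw [← _root_.lp.single_smul, smul_eq_mul, mul_one]
  rw [h3]
  exact Submodule.smul_mem _ _ (Submodule.subset_span ⟨i, rfl⟩)

theorem exists_sml {ι : Type} [Countable ι] {δ : ι → ℕ → ℝ} (h : ∀ n i, 0 < δ n i) {δ₀ : ℕ → ℝ}
    (h₀ : ∀ i, 0 < δ₀ i) : ∃ ε : ℕ → ℝ, (∀ i, 0 < ε i ∧ ε i ≤ δ₀ i) ∧ ∀ n, Sml (δ n) ε := by
  obtain ⟨e, he⟩ := Countable.exists_injective_nat ι
  have key : ∀ i : ℕ, ∃ c : ℝ, (0 < c ∧ c ≤ δ₀ i) ∧ ∀ n, e n ≤ i → c ≤ δ n i := by
    intro i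
    have hf : {n | e n ≤ i}.Finite := (finite_Iic i).preimage he.injOn
    have h1 : ∀ᶠ c in 𝓝[>] (0 : ℝ), ∀ n ∈ {n | e n ≤ i}, c ≤ δ n i :=
      (eventually_all_finite hf).2 fun n _ =>
        nhdsWithin_le_nhds (eventually_le_nhds (h n i))
    have h2 : ∀ᶠ c in 𝓝[>] (0 : ℝ), c ≤ δ₀ i := nhdsWithin_le_nhds (eventually_le_nhds (h₀ i))
    obtain ⟨c, hc1, hc2, hc3⟩ := (h1.and (h2.and self_mem_nhdsWithin)).exists
    exact ⟨c, ⟨hc3, hc2⟩, hc1⟩
  choose ε hε hε' using key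
  refine ⟨ε, hε, fun n => ⟨fun i => (hε i).1, ?_⟩⟩
  filter_upwards [eventually_ge_atTop (e n)] with i hi using hε' i n hi

theorem Sml.min {δ δ' ε : ℕ → ℝ} (h : Sml (fun i => min (δ i) (δ' i)) ε) : Sml δ ε ∧ Sml δ' ε :=
  ⟨⟨h.1, h.2.mono fun _ hi => hi.trans (min_le_left _ _)⟩,
    ⟨h.1, h.2.mono fun _ hi => hi.trans (min_le_right _ _)⟩⟩

end

end Pool.Agent.P.MP_de3acd_gt.FH
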