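import Pool.Agent.P.MP_de3acd_gt.FH.BumpS
import Pool.Agent.P.MP_de3acd_gt.FH.Cay
import Pool.Agent.P.MP_de3acd_gt.FH.Ser

/-! A family of invariant almost complex structures.
Sketch: Φ z = B (tau z) ∘ e6, Φ' z = e6.symm ∘ B (-tau z), conj z A = Φ z ∘ A ∘ Φ' z; Φ (g z) = lin g ∘ Φ z (Fr.wind, Fr.add). J₀ t z = conj z J0 (om_e6, Fr.symp, cpt_J0),
Z i t z = φ n t z • conj z (A m), (n, m) = Nat.unpair i, with Fr.bumps and exists_SA_seq. LocZ: v = Φ' z₀ v₀, ζ represents f ∘ Φ z₀ (InnerProductSpace.toDual). δ i is at most the weight of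
exists_series for (t, z) ↦ φ n t z • A m (bs_of_contDiff) and at most 2⁻¹ ^ (i + 2) / (1 + sup ‖φ n t z • A m‖) (Fr.boundH). ζ t z = L (t, z) a is smooth, SA (SA.hasSum), of norm ≤ 1 / 2,
periodic and invariant (HasSum.unique). Za = conj ζ, Zi = conj (1 + ζ).inverse (smooth by contDiffAt_map_inverse or ContinuousLinearMap.IsInvertible.contDiffAt_map_inverse),
J = conj ((1 + ζ).inverse J0 (1 + ζ)), SA.cay. -/

open Set Filter Topology MeasureTheory
open scoped ContDiff NNReal ENNReal RealInnerProductSpace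

namespace Pool.Agent.P.MP_de3acd_gt.FH

noncomputable section

variable {Γ : Subgroup (Equiv.Perm E)} {B : ℝ → E →L[ℝ] E} {J : ℝ → E → E →L[ℝ] E}
  {H G : ℝ → E → ℝ} {Y : ℝ → E → E} {γ g : Equiv.Perm E}

/-- Conjugation by the frame. -/
def cj_JFam (B : ℝ → E →L[ℝ] E) (z : E) : (V6 →L[ℝ] V6) →L[ℝ] E →L[ℝ] E :=
  (ContinuousLinearMap.compL ℝ E V6 E ((B (tau z)).comp (e6 : V6 →L[ℝ] E))).comp
    ((ContinuousLinearMap.compL ℝ E V6 V6).flip ((e6.symm : E →L[ℝ] V6).comp (B (-tau z))))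

theorem cj_apply_JFam (z : E) (A : V6 →L[ℝ] V6) (v : E) :
    cj_JFam B z A v = B (tau z) (e6 (A (e6.symm (B (-tau z) v)))) := rfl

theorem Fr.left_JFam (h : Fr Γ B) (a : ℝ) (v : E) : B (-a) (B a v) = v := by
  rw [← h.add, neg_add_cancel, h.zero]

theorem Fr.right_JFam (h : Fr Γ B) (a : ℝ) (v : E) : B a (B (-a) v) = v := by
  rw [← h.add, add_neg_cancel, h.zero]

theorem Fr.one_JFam (h : Fr Γ B) (z : E) (A : V6 →L[ℝ] V6) (v : E) :
    v + cj_JFam B z A v = cj_JFam B z (1 + A) v := by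
  simp only [cj_apply_JFam, _root_.add_apply, _root_.one_apply_eq_self, map_add,
    ContinuousLinearEquiv.apply_symm_apply, h.right_JFam]

theorem Fr.smooth_JFam (h : Fr Γ B) {X : Type} [NormedAddCommGroup X] [NormedSpace ℝ X]
    {w : X → E} {ζ : X → V6 →L[ℝ] V6} (hw : ContDiff ℝ ∞ w) (hζ : ContDiff ℝ ∞ ζ) :
    ContDiff ℝ ∞ fun q => cj_JFam B (w q) (ζ q) :=
  ((h.smooth.comp (contDiff_tau_FrA.comp hw)).clm_comp
    (contDiff_const (c := (e6 : V6 →L[ℝ] E)))).clm_comp (hζ.clm_comp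
      ((contDiff_const (c := (e6.symm : E →L[ℝ] V6))).clm_comp
        (h.smooth.comp (contDiff_tau_FrA.comp hw).neg)))

theorem Fr.iz_JFam (h : Fr Γ B) {ζ : ℝ × E → V6 →L[ℝ] V6} (hζ : ContDiff ℝ ∞ ζ)
    (h1 : ∀ t z, ζ (t + 1, z) = ζ (t, z)) (h2 : ∀ g ∈ Γ, ∀ t z, ζ (t, g z) = ζ (t, z)) :
    IZ Γ fun t z => cj_JFam B z (ζ (t, z)) := by
  refine ⟨⟨h.smooth_JFam contDiff_snd hζ, fun t => funext fun z => by simp only [h1]⟩,
    fun g hg t z v => ?_⟩
  obtain ⟨m, e1, e2⟩ := h.wind g hg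
  simp only [cj_apply_JFam, h2 g hg, e1, e2]
  rw [← h.add, neg_add, neg_add_cancel_right, add_comm, h.add]

theorem Fr.cpt_JFam (h : Fr Γ B) (z : E) {A : V6 →L[ℝ] V6} (hA : Cpt Ω0 A) :
    Cpt om (cj_JFam B z A) := by
  refine ⟨fun v => ?_, fun u v => ?_, fun v hv => ?_⟩
  · simp only [cj_apply_JFam, h.left_JFam, ContinuousLinearEquiv.symm_apply_apply, hA.1, map_neg,
      ContinuousLinearEquiv.apply_symm_apply, h.right_JFam]
  · rw [cj_apply_JFam, cj_apply_JFam, h.symp, om_e6, hA.2.1, ← om_e6, e6.apply_symm_apply,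
      e6.apply_symm_apply, h.symp]
  · have e : v = B (tau z) (e6 (e6.symm (B (-tau z) v))) := by
      rw [e6.apply_symm_apply, h.right_JFam]
    have h1 := hA.2.2 (e6.symm (B (-tau z) v)) fun h0 => hv (by rw [e, h0, map_zero, map_zero])
    rwa [← om_e6, ← h.symp (tau z), ← e] at h1

theorem Fr.exists_fam (h : Fr Γ B) : ∃ (J₀ : ℝ → E → E →L[ℝ] E) (Z : ℕ → ℝ → E → E →L[ℝ] E)
    (δ : ℕ → ℝ), IJ om Γ J₀ ∧ (∀ i, IZ Γ (Z i) ∧ Anti J₀ (Z i)) ∧ LocZ Γ Z ∧ (∀ i, 0 < δ i) ∧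
      ∀ ε : ℕ → ℝ, (∀ i, 0 < ε i ∧ ε i ≤ δ i) → ∀ a : Lam, ‖a‖ ≤ 1 →
        ∃ J Za Zi, IJ om Γ J ∧ IZ Γ Za ∧ IZ Γ Zi ∧ PJ J₀ Z ε a J Za Zi := by
  obtain ⟨φ, hφ, hφ'⟩ := h.bumps
  obtain ⟨A, hA, hA'⟩ := exists_SA_seq (V := V6)
  obtain ⟨Ψ, eΨ⟩ : ∃ Ψ : ℕ → ℝ × E → V6 →L[ℝ] V6,
      ∀ i q, Ψ i q = φ (Nat.unpair i).1 q.1 q.2 • A (Nat.unpair i).2 := ⟨_, fun _ _ => rfl⟩
  have hΨ : ∀ i, ContDiff ℝ ∞ (Ψ i) := fun i => by
    rw [funext (eΨ i)]
    exact (hφ _).1.1.1.smul contDiff_const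
  have p1 : ∀ i t z, Ψ i (t + 1, z) = Ψ i (t, z) := fun i t z => by
    simp only [eΨ, (hφ _).1.1.2 t]
  have p2 : ∀ i, ∀ g ∈ Γ, ∀ t z, Ψ i (t, g z) = Ψ i (t, z) := fun i g hg t z => by
    simp only [eΨ, (hφ _).1.2 g hg]
  obtain ⟨δ, hδ, hser⟩ := exists_series fun i => bs_of_contDiff (hΨ i)
  have hb : ∀ i, ∃ D, 0 < D ∧ ∀ q, ‖Ψ i q‖ ≤ D := fun i => by
    obtain ⟨D, hD⟩ := h.boundH (hφ (Nat.unpair i).1).1
    have h0 : 0 ≤ D := (abs_nonneg _).trans (hD 0 0)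
    refine ⟨D * ‖A (Nat.unpair i).2‖ + 1, by positivity, fun q => ?_⟩
    rw [eΨ, norm_smul]
    exact (mul_le_mul_of_nonneg_right (hD _ _) (norm_nonneg _)).trans (by linarith)
  choose D hD0 hD using hb
  have hJ := h.iz_JFam (ζ := fun _ => Sym.J0) contDiff_const (fun _ _ => rfl) fun _ _ _ _ => rfl
  refine ⟨fun _ z => cj_JFam B z Sym.J0, fun i t z => cj_JFam B z (Ψ i (t, z)),
    fun i => min (δ i) ((1 / 2) ^ i / 4 / D i), ⟨⟨hJ.1, fun _ z => h.cpt_JFam z cpt_J0⟩, hJ.2⟩,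
    fun i => ⟨h.iz_JFam (hΨ i) (p1 i) (p2 i), fun t z v => ?_⟩, fun t₀ z₀ v₀ f hv hf => ?_,
    fun i => lt_min (hδ i) (div_pos (by positivity) (hD0 i)), fun ε hε a ha => ?_⟩
  · simp only [cj_apply_JFam, h.left_JFam, ContinuousLinearEquiv.symm_apply_apply, eΨ,
      _root_.smul_apply, (hA _).2, map_smul, map_neg, smul_neg]
  · obtain ⟨m, hm⟩ := hA' (e6.symm (B (-tau z₀) v₀)) ((InnerProductSpace.toDual ℝ V6).symm
      (f.comp ((B (tau z₀)).comp (e6 : V6 →L[ℝ] E)))) (fun h0 => hv (by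
        rw [← h.right_JFam (tau z₀) v₀, ← e6.apply_symm_apply (B _ v₀), h0, map_zero, map_zero]))
      fun h0 => hf (ContinuousLinearMap.ext fun w => by
        have h1 := congrArg (fun l : V6 →L[ℝ] ℝ => l (e6.symm (B (-tau z₀) w)))
          ((map_eq_zero_iff _ (InnerProductSpace.toDual ℝ V6).symm.injective).1 h0)
        simpa [h.right_JFam] using h1)
    refine ⟨fun z => cj_JFam B z (A m), (h.smooth_JFam contDiff_id contDiff_const).continuous, ?_,
      fun r hr => ?_⟩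
    · rwa [real_inner_comm, InnerProductSpace.toDual_symm_apply] at hm
    · obtain ⟨n, h1, h2⟩ := hφ' t₀ z₀ r hr
      exact ⟨Nat.pair n m, φ n, (hφ n).1.1.1.continuous, fun t z => by
        simp only [eΨ, Nat.unpair_pair, map_smul], (hφ n).2, h1, h2⟩
  · obtain ⟨L, hL, hs, -⟩ := hser ε ⟨fun i => (hε i).1,
      Eventually.of_forall fun i => (hε i).2.trans (min_le_left _ _)⟩
    have hζ : ContDiff ℝ ∞ fun q => L q a := hL.clm_apply contDiff_const
    have q1 : ∀ t z, L (t + 1, z) a = L (t, z) a := fun t z =>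
      (hs _ a).unique (by simpa only [p1] using hs (t, z) a)
    have q2 : ∀ g ∈ Γ, ∀ t z, L (t, g z) a = L (t, z) a := fun g hg t z =>
      (hs _ a).unique (by simpa only [p2 _ g hg] using hs (t, z) a)
    have hn : ∀ q, ‖L q a‖ < 1 := fun q => by
      refine ((hs q a).norm_le_of_bounded (hasSum_geometric_two.div_const 4) fun i => ?_).trans_lt
        (by norm_num)
      have h1 := (le_div_iff₀ (hD0 i)).1 ((hε i).2.trans (min_le_right _ _))
      rw [norm_smul, Real.norm_eq_abs, abs_mul, abs_of_pos (hε i).1, mul_assoc]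
      refine (mul_le_of_le_one_left (mul_nonneg (hε i).1.le (norm_nonneg _))
        ((abs_apply_le a i).trans ha)).trans ?_
      exact (mul_le_mul_of_nonneg_left (hD i q) (hε i).1.le).trans h1
    have hsa : ∀ q, SA (L q a) := fun q =>
      SA.hasSum (fun i => hA (Nat.unpair i).2) (by simpa only [eΨ, smul_smul] using hs q a)
    have hi := fun q => inv_of_norm (hn q)
    have hζ' : ContDiff ℝ ∞ fun q => (1 + L q a).inverse := contDiff_iff_contDiffAt.2 fun q =>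
      ContDiffAt.comp (g := ContinuousLinearMap.inverse) (f := fun q => 1 + L q a) q
        (hi q).contDiffAt_map_inverse (contDiff_const.add hζ).contDiffAt
    have z1 := h.iz_JFam hζ q1 q2
    have z2 := h.iz_JFam hζ' (fun t z => by rw [q1]) fun g hg t z => by rw [q2 g hg]
    have z3 := h.iz_JFam (hζ'.clm_comp ((contDiff_const (c := (Sym.J0 : V6 →L[ℝ] V6))).clm_comp
      ((contDiff_const (c := (1 : V6 →L[ℝ] V6))).add hζ))) (fun t z => by rw [q1])
      fun g hg t z => by rw [q2 g hg]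
    refine ⟨_, _, _, ⟨⟨z3.1, fun t z => h.cpt_JFam z ((hsa _).cay (hn _)).1⟩, z3.2⟩, z1, z2,
      fun t z => ?_, z1.1, z2.1, fun t z v => ?_, fun t z v => ?_, fun t z v => ?_⟩
    · simpa only [map_smul] using (hs (t, z) a).mapL (cj_JFam B z)
    · simp only [h.one_JFam]
      simp only [cj_apply_JFam, h.left_JFam, ContinuousLinearEquiv.symm_apply_apply,
        (hi _).inverse_apply_self, ContinuousLinearEquiv.apply_symm_apply, h.right_JFam]
    · simp only [h.one_JFam]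
      simp only [cj_apply_JFam, h.left_JFam, ContinuousLinearEquiv.symm_apply_apply,
        (hi _).self_apply_inverse, ContinuousLinearEquiv.apply_symm_apply, h.right_JFam]
    · simp only [h.one_JFam]
      simp only [cj_apply_JFam, h.left_JFam, ContinuousLinearEquiv.symm_apply_apply,
        (hi _).self_apply_inverse, ContinuousLinearMap.comp_apply]

end

end Pool.Agent.P.MP_de3acd_gt.FH
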