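import Pool.Agent.P.MP_de3acd_gt.FH.Defs7
import Pool.Agent.P.MP_de3acd_gt.FH.Kill

/-! The variations of the almost complex structure pair nontrivially with every cokernel element.
Sketch: as Fr.kill_sta. U = c.upu u, p₀ ∈ W (Fr.reg_pts) with η p₀ ≠ 0 and ζ p₀ ≠ 0 (Dense.inter_of_isOpen_left). LocZ at (p₀.2, U p₀), v₀ = c.P p₀.2 (η p₀), f w = ⟪c.Q p₀.2 w, ζ p₀⟫.
k p = ⟪c.Q p.2 (A (U p) (c.P p.2 (η p))), ζ p⟫ is continuous, k p₀ ≠ 0, so k p₀ * k p > 0 for dist p p₀ ≤ ε; Fr.near, int_Kill; integral_St_pos for k p₀ * (φ p.2 (U p) * k p). -/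

open Set Filter Topology MeasureTheory
open scoped ContDiff NNReal ENNReal RealInnerProductSpace

namespace Pool.Agent.P.MP_de3acd_gt.FH

noncomputable section

variable {Γ : Subgroup (Equiv.Perm E)} {B : ℝ → E →L[ℝ] E} {J : ℝ → E → E →L[ℝ] E}
  {H G : ℝ → E → ℝ} {Y : ℝ → E → E} {γ g : Equiv.Perm E}

theorem Fr.killV (h : Fr Γ B) (hJ : IJ om Γ J) (hY : EndF om Γ Y) (hγ : γ ∈ Γ) (c : Ch γ)
    {Z : ℕ → ℝ → E → E →L[ℝ] E} (hZ : LocZ Γ Z) {x y : ℝ → V6} (hx : Orb 1 (c.pY Y) x)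
    (hy : Orb 1 (c.pY Y) y) (hxy : x ≠ y) :
    KillV (c.pJ J) (fun i => c.pJ (Z i)) (c.pY Y) x y := by
  intro u hu η ζ hη hζ dη dζ
  have hs := c.sp hγ hY.1
  have hx' := c.orb_iff.2 hx
  have hy' := c.orb_iff.2 hy
  have hU : Cyl om γ J (sta Y) (c.up x) (c.up y) (c.upu u) :=
    c.cyl_iff.2 (hu.cyl (c.acs hγ hJ) (Orb.contDiff hs.1 hx) (Orb.contDiff hs.1 hy) hx.2 hy.2)
  obtain ⟨O, hO, hne, hO'⟩ := h.reg_pts hJ hY hγ hx' hy' (fun e => hxy (c.up_bijective.1 e)) hU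
  obtain ⟨p₀, ⟨z0, e0⟩, hp₀⟩ :=
    (dζ.inter_of_isOpen_left dη (isOpen_ne_fun hζ continuous_const)).exists_mem_open hO hne
  obtain ⟨h3, h4, h5⟩ := hO' p₀ hp₀
  obtain ⟨A, hA, a0, a1⟩ := hZ p₀.2 (c.upu u p₀) (c.P p₀.2 (η p₀))
    ((innerSL ℝ (ζ p₀)).comp (c.Q p₀.2))
    (fun e => e0 (by rw [← c.QP p₀.2 (η p₀), e, map_zero])) fun e => z0 (by
      have := DFunLike.congr_fun e (c.P p₀.2 (ζ p₀))
      simpa [c.QP] using this)
  obtain ⟨k, hk⟩ : ∃ k : Pl → ℝ, k = fun p => ⟪ζ p, c.Q p.2 (A (c.upu u p) (c.P p.2 (η p)))⟫ :=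
    ⟨_, rfl⟩
  have ck : Continuous k := hk ▸ hζ.inner ((c.sQ.continuous.comp continuous_snd).clm_apply
    ((hA.comp hU.smooth.continuous).clm_apply ((c.sP.continuous.comp continuous_snd).clm_apply hη)))
  have k0 : 0 < k p₀ * k p₀ := mul_self_pos.2 (hk ▸ a0)
  obtain ⟨ε, hε, hp⟩ := Metric.nhds_basis_closedBall.eventually_iff.1
    ((ck.const_mul (k p₀)).continuousAt.eventually (lt_mem_nhds k0))
  obtain ⟨δ₁, hδ₁, n1⟩ := h.near hY.1 hγ hx' hy' hU h4 h5 hε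
  obtain ⟨i, φ, f1, f2, f4, f5, f6⟩ := a1 (min δ₁ (min p₀.2 (1 - p₀.2)))
    (lt_min hδ₁ (lt_min h3.1 (sub_pos.2 h3.2)))
  have loc : ∀ p ∈ St, φ p.2 (c.upu u p) ≠ 0 → dist p p₀ ≤ ε := fun p hp' hf => by
    obtain ⟨g, hg, e1⟩ := (f6 _ _ hf).2
    exact n1 p hp' g hg ((int_Kill hp'.2 ((min_le_right _ _).trans (min_le_left _ _))
      ((min_le_right _ _).trans (min_le_right _ _)) (f6 _ _ hf).1).le.trans (min_le_left _ _))
      (e1.le.trans (min_le_left _ _))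
  refine ⟨i, fun e => ?_⟩
  have e1 : k p₀ * ip 0 (fun p => c.pJ (Z i) p.2 (u p) (η p)) ζ =
      ∫ p in St, φ p.2 (c.upu u p) * (k p₀ * k p) := by
    refine (integral_const_mul _ _).symm.trans (congrArg (integral _) (funext fun p => ?_))
    rw [mul_left_comm, real_inner_comm]
    simp only [Gau.pJ, ContinuousLinearMap.comp_apply, f2, _root_.smul_apply, map_smul,
      real_inner_smul_right, hk, Gau.upu]
  rw [e, mul_zero] at e1
  refine (integral_St_pos ((f1.comp (continuous_snd.prodMk hU.smooth.continuous)).mul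
    (ck.const_mul (k p₀))) (R := |p₀.1| + ε + 1) (fun p hp' hR => ?_) (fun p hp' => ?_) h3
    (mul_pos f5 k0)).ne e1
  · by_cases hf : φ p.2 (c.upu u p) = 0
    · exact mul_eq_zero_of_left hf _
    · have e2 := loc p hp' hf
      rw [Prod.dist_eq, Real.dist_eq] at e2
      exfalso
      linarith [(le_max_left _ _).trans e2, abs_sub_abs_le_abs_sub p.1 p₀.1]
  · by_cases hf : φ p.2 (c.upu u p) = 0
    · exact (mul_eq_zero_of_left hf _).ge
    · exact mul_nonneg (f4 _ _) (hp (loc p hp' hf)).le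

end

end Pool.Agent.P.MP_de3acd_gt.FH
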