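import Pool.Agent.P.MP_de3acd_gt.FH.GauB
import Pool.Agent.P.MP_de3acd_gt.FH.FinA

/-! Gauge invariance of regularity and of the counts.
Sketch: op_lop, ok_iff, onto_iff, cyl_iff, kr_upu, vec_bijective, upu_bijective; (fun i => c.vec (![k] i)) = ![c.vec k] by funext and fin_cases; scnt_bijOn;
for nN the map cls u ↦ c.upu '' cls u = cls (c.upu u) (tsl_upu) is injective (Set.image_injective, ncard_image_of_injective). eg1_iff for PData: nice_of_cyl,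
Nice.cyl, eIdx_iff, onto_lop_iff, var_mem, PData.gorb. -/

set_option linter.unusedSectionVars false

open Set Filter Topology MeasureTheory
open scoped ContDiff NNReal ENNReal RealInnerProductSpace

namespace Pool.Agent.P.MP_de3acd_gt.FH

noncomputable section

variable {F₁ F₂ : Type} [NormedAddCommGroup F₁] [NormedSpace ℝ F₁] [FiniteDimensional ℝ F₁]
  [NormedAddCommGroup F₂] [NormedSpace ℝ F₂] [FiniteDimensional ℝ F₂]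
  {Ω₁ : F₁ → F₁ → ℝ} {Ω₂ : F₂ → F₂ → ℝ} {γ₁ : Equiv.Perm F₁} {γ₂ : Equiv.Perm F₂}
  {Γ₁ : Subgroup (Equiv.Perm F₁)} {Γ₂ : Subgroup (Equiv.Perm F₂)}

variable (c : Gau Ω₁ Ω₂ γ₁ γ₂) {J : ℝ → F₂ → F₂ →L[ℝ] F₂} {x y : ℝ → F₁} {u : Pl → F₁}
  {o₁ : ∀ a b, Op F₁ a b → ℤˣ} {o₂ : ∀ a b, Op F₂ a b → ℤˣ}

theorem nil_GauC {α β : Type} (f : α → β) : (fun i => f (![] i)) = ![] := funext fun i => i.elim0

theorem one_GauC {α β : Type} (f : α → β) (k : α) : (fun i => f (![k] i)) = ![f k] :=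
  funext fun i => by
    obtain rfl := Subsingleton.elim i 0
    rfl

theorem bij_GauC {α β : Type} {f : α → β} (hf : Function.Bijective f) {A : Set α} {B : Set β}
    (h : ∀ a, f a ∈ B ↔ a ∈ A) : BijOn f A B :=
  ⟨fun a k => (h a).2 k, hf.1.injOn, fun b k => by
    obtain ⟨a, rfl⟩ := hf.2 b
    exact ⟨a, (h a).1 k, rfl⟩⟩

theorem ne_GauC {ι : Type} {M : Set ι} {s : ι → ℤˣ} (h : scnt M s ≠ 0) : ∃ m, m ∈ M := by
  by_contra k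
  exact h (eq_empty_of_forall_notMem (not_exists.1 k) ▸ scnt_empty s)

omit [FiniteDimensional ℝ F₂] in
theorem smX_GauC {X : ℝ → Pl → F₂ → F₂} (hX : SmX X) (r : ℝ) :
    (∀ p, Differentiable ℝ (X r p)) ∧ ∀ p z, DifferentiableAt ℝ (fun r => X r p z) r :=
  ⟨fun p => (hX.1.comp ((contDiff_const (c := r)).prodMk
    ((contDiff_const (c := p)).prodMk contDiff_id))).differentiable (by simp),
    fun p z => (hX.1.comp (contDiff_id.prodMk (contDiff_const (c := (p, z))))).differentiable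
      (by simp) r⟩

omit [FiniteDimensional ℝ F₁] in
theorem triv_GauC (hΩ : Form Ω₁) {J : ℝ → F₁ → F₁ →L[ℝ] F₁} {X : Pl → F₁ → F₁}
    (h : Ok Ω₁ Γ₁ (lop γ₁ J X x y u ![] ![] ![])) :
    Ok Ω₁ Γ₁ (lop γ₁ J X x y u ![0] ![0] ![![1]]) := by
  obtain ⟨B, hB, -⟩ := hΩ
  obtain ⟨a, o, k⟩ := h
  have t : Tst γ₁ (0 : Pl → F₁) :=
    ⟨⟨contDiff_const, fun _ _ => (sub_self _).symm, MemLp.zero⟩, 0, fun _ _ => rfl⟩
  have t' : ∀ i, Tst γ₁ (![(0 : Pl → F₁)] i) := Fin.forall_fin_one.2 t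
  refine ⟨⟨a.mem, a.tw, a.smooth, a.bdd, a.eqv, a.cpt, a.lim, t', t'⟩, fun η ν s e e' => ?_,
    fun ξ μ s e e' => ?_⟩
  · have e1 : ν = 0 := funext fun i => by
      obtain rfl := Subsingleton.elim i 0
      simpa [lop, pair, hB] using e' 0
    subst e1
    exact ⟨(o η 0 s (fun ξ hξ => by simpa [lop, Op.D, pair] using e ξ hξ) fun i => i.elim0).1, rfl⟩
  · have e1 : μ = 0 := funext fun i => by
      obtain rfl := Subsingleton.elim i 0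
      simpa [lop, pair, hB] using e' 0
    subst e1
    exact ⟨(k ξ 0 s (fun p => by simpa [lop, Op.D] using e p) fun i => i.elim0).1, rfl⟩

namespace Gau

theorem opK_GauC (hJ : ∀ t, Differentiable ℝ (J t)) {X : ℝ → Pl → F₂ → F₂} (hX : SmX X)
    (hu : ContDiff ℝ ∞ u) (r : ℝ) :
    c.op (lop γ₁ (c.pJ J) (c.pX (X r)) x y u ![kr (c.pJ J) (fun r => c.pX (X r)) r u] ![] ![]) =
      lop γ₂ J (X r) (c.up x) (c.up y) (c.upu u) ![kr J X r (c.upu u)] ![] ![] := by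
  rw [c.op_lop hJ (smX_GauC hX r).1 hu, nil_GauC, one_GauC, c.kr_upu (smX_GauC hX r).2]

theorem solT_GauC (h₁ : γ₁ ∈ Γ₁) (h₂ : γ₂ ∈ Γ₂) (hJ : ∀ t, Differentiable ℝ (J t))
    {X : Pl → F₂ → F₂} (hX : ∀ p, Differentiable ℝ (X p)) :
    BijOn c.upu (SolT Ω₁ Γ₁ γ₁ (c.pJ J) (c.pX X) x y) (SolT Ω₂ Γ₂ γ₂ J X (c.up x) (c.up y)) :=
  bij_GauC c.upu_bijective fun u => (and_congr_left' c.cyl_iff).trans (and_congr_right fun hc => by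
    rw [← c.ok_iff h₁ h₂ rfl, c.op_lop hJ hX hc.smooth, nil_GauC])

theorem cls_GauC {A : Set (Pl → F₁)} {B : Set (Pl → F₂)} (h : ∀ u, c.upu u ∈ B ↔ u ∈ A) :
    cls '' B = image c.upu '' (cls '' A) := by
  rw [← (bij_GauC c.upu_bijective h).image_eq, image_image, image_image]
  refine image_congr fun u _ => ?_
  rw [cls, cls, ← range_comp]
  exact congrArg range (funext fun s => c.tsl_upu s u)

theorem eIdx_iff (h₁ : γ₁ ∈ Γ₁) (h₂ : γ₂ ∈ Γ₂) (hJ : ∀ t, Differentiable ℝ (J t))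
    {X : Pl → F₂ → F₂} (hX : ∀ p, Differentiable ℝ (X p)) (hu : ContDiff ℝ ∞ u) (d : ℤ) :
    EIdx Ω₂ Γ₂ γ₂ J X (c.up x) (c.up y) (c.upu u) d ↔
      EIdx Ω₁ Γ₁ γ₁ (c.pJ J) (c.pX X) x y u d := by
  constructor
  · rintro ⟨a, b, K, l, M, e, rfl⟩
    choose K' hK using fun i => c.vec_bijective.2 (K i)
    choose l' hl using fun i => c.vec_bijective.2 (l i)
    obtain rfl : (fun i => c.vec (K' i)) = K := funext hK
    obtain rfl : (fun i => c.vec (l' i)) = l := funext hl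
    exact ⟨a, b, K', l', M, (c.ok_iff h₁ h₂ rfl).1 (c.op_lop hJ hX hu K' l' M ▸ e), rfl⟩
  · rintro ⟨a, b, K, l, M, e, rfl⟩
    exact ⟨a, b, _, _, M, c.op_lop hJ hX hu K l M ▸ (c.ok_iff h₁ h₂ rfl).2 e, rfl⟩

theorem eg1_iff (h₁ : γ₁ ∈ Γ₁) (h₂ : γ₂ ∈ Γ₂) (hJ : ∀ t, Differentiable ℝ (J t))
    {X : ℝ → Pl → F₂ → F₂} (hX : SmX X) : EG1 Ω₂ Γ₂ γ₂ J X (c.up x) (c.up y) ↔
      EG1 Ω₁ Γ₁ γ₁ (c.pJ J) (fun r => c.pX (X r)) x y := by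
  have key := fun r (u : Pl → F₁) (hu : ContDiff ℝ ∞ u) =>
    (c.opK_GauC (x := x) (y := y) hJ hX hu r ▸ c.onto_iff rfl :
      Onto Ω₂ (lop γ₂ J (X r) (c.up x) (c.up y) (c.upu u) ![kr J X r (c.upu u)] ![] ![]) ↔
        Onto Ω₁ (lop γ₁ (c.pJ J) (c.pX (X r)) x y u ![kr (c.pJ J) (fun r => c.pX (X r)) r u] ![] ![]))
  constructor
  · intro h r u d hc he hd
    exact (key r u hc.smooth).1 (h r _ d (c.cyl_iff.2 hc)
      ((c.eIdx_iff h₁ h₂ hJ (smX_GauC hX r).1 hc.smooth d).2 he) hd)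
  · intro h r u d hc he hd
    obtain ⟨u, rfl⟩ := c.upu_bijective.2 u
    have hc' := c.cyl_iff.1 hc
    exact (key r u hc'.smooth).2 (h r u d hc'
      ((c.eIdx_iff h₁ h₂ hJ (smX_GauC hX r).1 hc'.smooth d).1 he) hd)

variable (h₁ : γ₁ ∈ Γ₁) (h₂ : γ₂ ∈ Γ₂) (hJ : ∀ t, Differentiable ℝ (J t))
  (ho : ∀ a b (T : Op F₁ a b), T.γ = γ₁ → Ok Ω₁ Γ₁ T → o₂ a b (c.op T) = o₁ a b T)
include h₁ h₂ hJ ho

theorem nT0_eq {X : Pl → F₂ → F₂} (hX : ∀ p, Differentiable ℝ (X p)) :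
    nT0 Ω₂ Γ₂ o₂ γ₂ J X (c.up x) (c.up y) = nT0 Ω₁ Γ₁ o₁ γ₁ (c.pJ J) (c.pX X) x y :=
  scnt_bijOn (c.solT_GauC h₁ h₂ hJ hX) fun u hu => by
    rw [← ho 0 0 _ rfl hu.2, c.op_lop hJ hX hu.1.smooth, nil_GauC]

theorem nT1_eq {X : Pl → F₂ → F₂} (hX : ∀ p, Differentiable ℝ (X p)) :
    nT1 Ω₂ Γ₂ o₂ γ₂ J X (c.up x) (c.up y) = nT1 Ω₁ Γ₁ o₁ γ₁ (c.pJ J) (c.pX X) x y :=
  scnt_bijOn (c.solT_GauC h₁ h₂ hJ hX) fun u hu => by
    rw [← ho 1 1 _ rfl (triv_GauC c.form₁ hu.2), c.op_lop hJ hX hu.1.smooth, one_GauC, c.vec_zero]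

theorem nK_eq {X : ℝ → Pl → F₂ → F₂} (hX : SmX X) :
    nK Ω₂ Γ₂ o₂ γ₂ J X (c.up x) (c.up y) =
      nK Ω₁ Γ₁ o₁ γ₁ (c.pJ J) (fun r => c.pX (X r)) x y := by
  have key : ∀ m : ℝ × (Pl → F₁), (m.1, c.upu m.2) ∈ SolK Ω₂ Γ₂ γ₂ J X (c.up x) (c.up y) ↔
      m ∈ SolK Ω₁ Γ₁ γ₁ (c.pJ J) (fun r => c.pX (X r)) x y := fun m =>
    (and_congr_left' c.cyl_iff).trans (and_congr_right fun hc =>
      (c.opK_GauC (x := x) (y := y) hJ hX hc.smooth m.1 ▸ c.ok_iff h₁ h₂ rfl :))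
  refine scnt_bijOn (f := fun m => (m.1, c.upu m.2))
    (bij_GauC (Function.bijective_id.prodMap c.upu_bijective) key) fun m hm => ?_
  rw [← ho 1 0 _ rfl hm.2]
  exact congrArg _ (c.opK_GauC hJ hX hm.1.smooth m.1).symm

theorem solN_iff {Y : ℝ → F₂ → F₂} (hY : ∀ t, Differentiable ℝ (Y t)) (σ : ℤˣ) :
    c.upu u ∈ SolN Ω₂ Γ₂ o₂ γ₂ J Y (c.up x) (c.up y) σ ↔
      u ∈ SolN Ω₁ Γ₁ o₁ γ₁ (c.pJ J) (c.pY Y) x y σ := by
  refine (and_congr_left' (c.cyl_iff (X := sta Y))).trans (and_congr_right fun hc => ?_)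
  have e := fun l : Pl → F₁ => c.op_lop (x := x) (y := y) (X := sta Y) hJ (fun p => hY p.2)
    hc.smooth ![] ![l] ![![]]
  simp only [nil_GauC, one_GauC, pX_sta] at e
  rw [c.vec_bijective.2.exists]
  refine exists_congr fun l => ?_
  rw [c.ds_upu hc.smooth, c.pair_vec, ← e, c.ok_iff h₁ h₂ rfl]
  exact and_congr_right fun _ => and_congr_right fun k => by rw [ho 0 1 _ rfl k]

theorem finite_solN_iff {Y : ℝ → F₂ → F₂} (hY : ∀ t, Differentiable ℝ (Y t)) (σ : ℤˣ) :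
    (cls '' SolN Ω₂ Γ₂ o₂ γ₂ J Y (c.up x) (c.up y) σ).Finite ↔
      (cls '' SolN Ω₁ Γ₁ o₁ γ₁ (c.pJ J) (c.pY Y) x y σ).Finite := by
  rw [c.cls_GauC fun u => c.solN_iff h₁ h₂ hJ ho hY σ]
  exact finite_image_iff (image_injective.2 c.upu_bijective.1).injOn

theorem nN_eq {Y : ℝ → F₂ → F₂} (hY : ∀ t, Differentiable ℝ (Y t)) :
    nN Ω₂ Γ₂ o₂ γ₂ J Y (c.up x) (c.up y) = nN Ω₁ Γ₁ o₁ γ₁ (c.pJ J) (c.pY Y) x y := by
  rw [nN, nN, c.cls_GauC fun u => c.solN_iff h₁ h₂ hJ ho hY 1,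
    c.cls_GauC fun u => c.solN_iff h₁ h₂ hJ ho hY (-1),
    ncard_image_of_injective _ (image_injective.2 c.upu_bijective.1),
    ncard_image_of_injective _ (image_injective.2 c.upu_bijective.1)]

end Gau

section

variable {Ω : F₁ → F₁ → ℝ} {J : ℝ → F₁ → F₁ →L[ℝ] F₁}

theorem cyl_of_nT0 {X : Pl → F₁ → F₁} (h : nT0 Ω Γ₁ o₁ γ₁ J X x y ≠ 0) : ∃ u, Cyl Ω γ₁ J X x y u :=
  (ne_GauC h).imp fun _ k => k.1

theorem cyl_of_nT1 {X : Pl → F₁ → F₁} (h : nT1 Ω Γ₁ o₁ γ₁ J X x y ≠ 0) : ∃ u, Cyl Ω γ₁ J X x y u :=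
  (ne_GauC h).imp fun _ k => k.1

theorem cyl_of_nK {X : ℝ → Pl → F₁ → F₁} (h : nK Ω Γ₁ o₁ γ₁ J X x y ≠ 0) :
    ∃ r u, Cyl Ω γ₁ J (X r) x y u :=
  (ne_GauC h).elim fun m k => ⟨m.1, m.2, k.1⟩

theorem cyl_of_nN {Y : ℝ → F₁ → F₁} (h : nN Ω Γ₁ o₁ γ₁ J Y x y ≠ 0) :
    ∃ u, Cyl Ω γ₁ J (sta Y) x y u := by
  by_contra k
  have e : ∀ σ, SolN Ω Γ₁ o₁ γ₁ J Y x y σ = ∅ := fun σ =>
    eq_empty_of_forall_notMem fun u hu => k ⟨u, hu.1⟩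
  exact h (by simp [nN, e])

end

variable {V : Type} [NormedAddCommGroup V] [InnerProductSpace ℝ V] [Sym V]

theorem PData.eg1_iff {J : ℝ → V → V →L[ℝ] V} {X : ℝ → Pl → V → V} {R : ℝ} {Y Y' : ℝ → V → V}
    {x y : ℝ → V} (h : PData J X R Y Y' x y) (hc : ∀ r u, Cyl Ω0 1 J (X r) x y u → Bdd u) :
    EG1 Ω0 ⊥ 1 J X x y ↔ Good1 J X x y := by
  refine forall₃_congr fun r u d => ?_
  rw [cyl_iff_FinA h.acs (h.fam.fld r) (h.gorb r).1 (h.gorb r).2 (hc r)]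
  refine forall_congr' fun hu => ?_
  rw [FH.eIdx_iff h.acs (h.fam.fld r) (h.gorb r).1 (h.gorb r).2 hu.pth,
    onto_lop_iff (K := ![kr J X r u]) h.acs (h.fam.fld r) (h.gorb r).1 (h.gorb r).2 hu.pth
      (tf_one_FinA.2 (h.var_mem hu.pth r 1))]

theorem Reps.finite {o : ∀ a b, Op V a b → ℤˣ} {J : ℝ → V → V →L[ℝ] V} {Y : ℝ → V → V} {x y : ℝ → V}
    {T : Finset (Pl → V)} {L : (Pl → V) → Pl → V} (h : Reps o J Y x y T L) (hJ : ACS Ω0 J)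
    (hY : SP Y) (hx : GOrb Ω0 1 Y x) (hy : GOrb Ω0 1 Y y)
    (hc : ∀ u, Cyl Ω0 1 J (sta Y) x y u → Bdd u) (σ : ℤˣ) :
    (cls '' SolN Ω0 ⊥ o 1 J Y x y σ).Finite := by
  refine (T.finite_toSet.image cls).subset ?_
  rintro _ ⟨v, hv, rfl⟩
  obtain ⟨l, k, -⟩ := (mem_solN hJ hY hx hy hc).1 hv
  obtain ⟨v', k1, s, rfl⟩ := h.all v k.nice (k.props hJ hY hx hy).2.2.1
  refine ⟨v', k1, Set.ext fun w => ⟨?_, ?_⟩⟩
  · rintro ⟨a, rfl⟩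
    exact ⟨a - s, by simp [tsl_tsl]⟩
  · rintro ⟨a, rfl⟩
    exact ⟨a + s, by simp [tsl_tsl]⟩

end

end Pool.Agent.P.MP_de3acd_gt.FH
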