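import Pool.Agent.P.MP_de3acd_gt.FH.APB
import Pool.Agent.P.MP_de3acd_gt.FH.ClsL
import Pool.Agent.P.MP_de3acd_gt.FH.GauC

/-! The estimates in charts.
Sketch: cyl_of_nice: Nice.cyl, Gau.acs, cyl_iff. low, dec: energy_le, energy_eq, en_pos, cls_G, ds_upu, Orb.contDiff, contDiff_up_iff, per_up_iff. regA: Reg.onto, op_lop, Gau.onto_iff, onto_lop_iff with the
empty frame. bdd: apb_fam for the constant family, dnu_upu, Fam.ctl for the pulled back field (Gau.fam), bdd_of_c1. fin_y: the limit y is bounded at time 0 (Cyl.right, upu_dnu, Gau.bound), orb_ball.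
rel_fin: orb_fin, fin_y, Fr.cyl_iff, en_smul with g⁻¹. -/

open Set Filter Topology MeasureTheory
open scoped ContDiff NNReal ENNReal RealInnerProductSpace

namespace Pool.Agent.P.MP_de3acd_gt.FH

noncomputable section

variable {Γ : Subgroup (Equiv.Perm E)} {B : ℝ → E →L[ℝ] E} {J : ℝ → E → E →L[ℝ] E}
  {H G K K' : ℝ → E → ℝ} {Y Y' Z : ℝ → E → E} {γ g : Equiv.Perm E} {x y w : ℝ → E} {u : Pl → E}
variable {X p p₁ p₂ : Pl → E → E} {Y₀ Y₁ : ℝ → E → E} {d R β₀ β₁ v η L b : ℝ}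
  {o : ∀ a b, Op E a b → ℤˣ}
variable {Λ : Type} [NormedAddCommGroup Λ] [NormedSpace ℝ Λ] [FiniteDimensional ℝ Λ]

theorem Dat.ij (D : Dat Γ B J H G d) : IJ om Γ J := Reg.ij D.reg

theorem Dat.endH (D : Dat Γ B J H G d) : EndF om Γ (ham H) :=
  (Reg.ih D.reg).endF D.fr D.reg.nd

theorem Dat.endG (D : Dat Γ B J H G d) : EndF om Γ (ham G) := D.ih.endF D.fr D.nd

theorem Dat.nonneg (D : Dat Γ B J H G d) : 0 ≤ d := by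
  obtain ⟨P, -, h1, h2⟩ := D.close
  exact (intervalIntegral.integral_nonneg zero_le_one fun t ht =>
    (abs_nonneg _).trans (h1 t ht 0)).trans h2

theorem Dat.low_E (D : Dat Γ B J H G d) (hY : ClY Γ J G Y) (hc : Cls J H G Y X β₀ β₁ v η L)
    (hX : Fld X R) (hγ : γ ∈ Γ) (hx : Tw γ x) (hy : Tw γ y) (hu : Cyl om γ J X x y u) :
    0 ≤ act γ (mix H G β₀) x - act γ (mix H G β₁) y + (v * d + 8 * η) := by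
  have h1 := (D.fr.en_pos D.ij hγ hu).1
  have h2 := D.energy_le hY hc hX hγ hx hy hu
  linarith

theorem lim_VL (c : Ch γ) (hu : Cyl om γ J X x y u) {A : ℝ} (h : Bnd A (c.dnu u)) :
    ‖y 0‖ ≤ ‖c.x0 0‖ + ‖c.P 0‖ * A := by
  have h1 : Tendsto (fun s => u (s, 0)) atTop (𝓝 (y 0)) :=
    hu.right.tendsto_at (left_mem_Icc.2 zero_le_one)
  refine le_of_tendsto' h1.norm fun s => ?_
  have h2 : u (s, 0) = c.x0 0 + c.P 0 (c.dnu u (s, 0)) := (congrFun (c.upu_dnu u) (s, 0)).symm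
  rw [h2]
  exact norm_add_le_of_le le_rfl ((c.P 0).le_of_opNorm_le_of_le le_rfl (h.1.le (mem_univ _)))

theorem Dat.fin_y (D : Dat Γ B J H G d) {X : Λ → Pl → E → E} (hX : Fam X R)
    (inv : ∀ a q, Ivf Γ (X a q)) (h₁ : EndF om Γ Y₁) (hγ : γ ∈ Γ) (x : ℝ → E) (A L : ℝ) :
    {y | Orb γ Y₁ y ∧ ∃ a Y u β₀ β₁ v η, ‖a‖ ≤ A ∧ ClY Γ J G Y ∧ Cls J H G Y (X a) β₀ β₁ v η L ∧
      Cyl om γ J (X a) x y u ∧ en om J u ≤ A}.Finite := by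
  obtain ⟨c⟩ := D.fr.chart hγ
  obtain ⟨A', hA⟩ := D.apb_fam hX inv hγ c x A L
  refine (D.fr.orb_ball h₁ hγ (‖c.x0 0‖ + ‖c.P 0‖ * A')).subset ?_
  rintro y ⟨hy, a, Y, u, β₀, β₁, v, η, k1, k2, k3, k4, k5⟩
  exact ⟨hy, lim_VL c k4 (hA a Y y u β₀ β₁ v η k1 k2 k3 k4 k5)⟩

theorem Dat.fin_y_nk (D : Dat Γ B J H G d) {X₁ X₂ : Pl → E → E} (h₁ : Fld X₁ R) (h₂ : Fld X₂ R)
    (e₁ : frz X₁ R = Y') (e₂ : frz X₂ (-R) = Y') (i₁ : ∀ q, Ivf Γ (X₁ q)) (i₂ : ∀ q, Ivf Γ (X₂ q))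
    (hY₁ : EndF om Γ Y₁) (hγ : γ ∈ Γ) (x : ℝ → E) (A L : ℝ) :
    {y | Orb γ Y₁ y ∧ ∃ a b Y u β₀ β₁ v η, ClY Γ J G Y ∧ Cls J H G Y (nk X₁ X₂ Y' a b) β₀ β₁ v η L ∧
      Cyl om γ J (nk X₁ X₂ Y' a b) x y u ∧ en om J u ≤ A}.Finite := by
  obtain ⟨c⟩ := D.fr.chart hγ
  obtain ⟨A', hA⟩ := D.apb_nk h₁ h₂ e₁ e₂ i₁ i₂ hγ c x A L
  refine (D.fr.orb_ball hY₁ hγ (‖c.x0 0‖ + ‖c.P 0‖ * A')).subset ?_
  rintro y ⟨hy, a, b, Y, u, β₀, β₁, v, η, k2, k3, k4, k5⟩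
  exact ⟨hy, lim_VL c k4 (hA a b Y y u β₀ β₁ v η k2 k3 k4 k5)⟩

theorem Dat.rel_fin (D : Dat Γ B J H G d) {X : Λ → Pl → E → E} (hX : Fam X R)
    (inv : ∀ a q, Ivf Γ (X a q)) (h₀ : EndF om Γ Y₀) (h₁ : EndF om Γ Y₁) (A L : ℝ) :
    ∃ T : Set (Equiv.Perm E × (ℝ → E) × (ℝ → E)), T.Finite ∧
      (∀ τ ∈ T, τ.1 ∈ Γ ∧ Orb τ.1 Y₀ τ.2.1 ∧ Orb τ.1 Y₁ τ.2.2) ∧
      ∀ a Y β₀ β₁ v η, ‖a‖ ≤ A → ClY Γ J G Y → Cls J H G Y (X a) β₀ β₁ v η L → ∀ γ ∈ Γ, ∀ x y u,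
        Orb γ Y₀ x → Orb γ Y₁ y → Cyl om γ J (X a) x y u → en om J u ≤ A →
          ∃ τ ∈ T, ∃ g ∈ Γ, γ = g * τ.1 * g⁻¹ ∧ x = g ∘ τ.2.1 ∧ y = g ∘ τ.2.2 := by
  obtain ⟨T, hT, h1, h2⟩ := D.fr.orb_fin h₀
  refine ⟨⋃ q ∈ T, (fun y => (q.1, q.2, y)) '' {y | Orb q.1 Y₁ y ∧ ∃ a Y u β₀ β₁ v η, ‖a‖ ≤ A ∧
    ClY Γ J G Y ∧ Cls J H G Y (X a) β₀ β₁ v η L ∧ Cyl om q.1 J (X a) q.2 y u ∧ en om J u ≤ A},
    hT.biUnion fun q hq => (D.fin_y hX inv h₁ (h1 q hq).1 q.2 A L).image _, fun τ hτ => ?_,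
    fun a Y β₀ β₁ v η k1 k2 k3 γ hγ x y u hx hy hu he => ?_⟩
  · obtain ⟨q, hq, y, hy, rfl⟩ := mem_iUnion₂.1 hτ
    exact ⟨(h1 q hq).1, (h1 q hq).2, hy.1⟩
  · obtain ⟨q, hq, g, hg, rfl, rfl⟩ := h2 γ hγ x hx
    obtain ⟨y, rfl⟩ : ∃ y', y = g ∘ y' := ⟨g.symm ∘ y, funext fun t => (g.apply_symm_apply _).symm⟩
    obtain ⟨u, rfl⟩ : ∃ u', u = g ∘ u' := ⟨g.symm ∘ u, funext fun t => (g.apply_symm_apply _).symm⟩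
    have k4 := (D.fr.cyl_iff hg (h1 q hq).1 D.ij (inv a)).1 hu
    refine ⟨(q.1, q.2, y), mem_iUnion₂.2 ⟨q, hq, y, ⟨(D.fr.orb_iff hg (h1 q hq).1 h₁.1.2).1 hy,
      a, Y, u, β₀, β₁, v, η, k1, k2, k3, k4, ?_⟩, rfl⟩, g, hg, rfl, rfl, rfl⟩
    rwa [D.fr.en_smul hg (h1 q hq).1 D.ij k4.smooth] at he

variable {x y : ℝ → V6} {u : Pl → V6} (c : Ch γ)

theorem Gau.tw_of_orb (hγ : γ ∈ Γ) (hY : IY Γ Y) (hx : Orb 1 (c.pY Y) x) :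
    ContDiff ℝ ∞ x ∧ (∀ t, x (t + 1) = x t) ∧ Tw γ (c.up x) :=
  ⟨Orb.contDiff (Gau.sp hγ hY).1 hx, Orb.per hx, Orb.tw hY.1 (c.orb_iff.2 hx)⟩

theorem Gau.cyl_of_nice (hγ : γ ∈ Γ) (hJ : IJ om Γ J) (hx : Tw γ (c.up x)) (hy : Tw γ (c.up y))
    (hu : Nice (c.pJ J) (c.pX X) x y u) : Cyl om γ J X (c.up x) (c.up y) (c.upu u) :=
  c.cyl_iff.2 (hu.cyl (Gau.acs hγ hJ) (c.contDiff_up_iff.1 hx.1) (c.contDiff_up_iff.1 hy.1)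
    (c.per_up_iff.1 hx.2) (c.per_up_iff.1 hy.2))

theorem Dat.low (D : Dat Γ B J H G d) (hY : ClY Γ J G Y) (hc : Cls J H G Y X β₀ β₁ v η L)
    (hX : Fld X R) (hγ : γ ∈ Γ) (h₀ : IY Γ Y₀) (h₁ : IY Γ Y₁) (hb : v * d + 8 * η ≤ b) :
    Low (c.pJ J) (c.pX X) (c.pY Y₀) (c.pY Y₁) (c.pA (mix H G β₀)) (c.pA (mix H G β₁)) b := by
  intro x y u hx hy hu
  have k1 := (c.tw_of_orb hγ h₀ hx).2.2
  have k2 := (c.tw_of_orb hγ h₁ hy).2.2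
  have := D.low_E hY hc hX hγ k1 k2 (c.cyl_of_nice hγ D.ij k1 k2 hu)
  unfold Gau.pA
  linarith

theorem ds_VL (hu : ContDiff ℝ ∞ u) (h : ds u ≠ 0) : ds (c.upu u) ≠ 0 := by
  rw [c.ds_upu hu, ← c.vec_zero]
  exact c.vec_bijective.1.ne h

theorem Dat.decH (D : Dat Γ B J H G d) (hγ : γ ∈ Γ) : Dec (c.pJ J) (c.pY (ham H)) (c.pA H) := by
  intro x y u hx hy hu h0
  have k1 := (c.tw_of_orb hγ D.endH.1 hx).2.2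
  have k2 := (c.tw_of_orb hγ D.endH.1 hy).2.2
  have k3 := c.cyl_of_nice (X := sta (ham H)) hγ D.ij k1 k2 hu
  have k4 := (D.fr.en_pos D.ij hγ k3).2 (ds_VL c hu.bdd.1 h0)
  rw [D.fr.energy_eq D.ij (Reg.ih D.reg) hγ k1 k2 k3] at k4
  exact sub_pos.1 k4

theorem Dat.decG (D : Dat Γ B J H G d) (hY : ClY Γ J G Y) (hγ : γ ∈ Γ) :
    Dec (c.pJ J) (c.pY (ham G + Y)) (c.pA G) := by
  intro x y u hx hy hu h0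
  have k0 := D.endG.1.add D.fr hY.1.1
  have k1 := (c.tw_of_orb hγ k0 hx).2.2
  have k2 := (c.tw_of_orb hγ k0 hy).2.2
  have k3 := c.cyl_of_nice (X := sta (ham G + Y)) hγ D.ij k1 k2 hu
  have k4 := (D.fr.en_pos D.ij hγ k3).2 (ds_VL c hu.bdd.1 h0)
  have k5 := D.energy_le hY (cls_G J H G Y) (fld_sta k0.1 le_rfl) hγ k1 k2 k3
  rw [mix_one] at k5
  unfold Gau.pA
  linarith

theorem Dat.regA (D : Dat Γ B J H G d) (hγ : γ ∈ Γ) : RegA (c.pJ J) (c.pY (ham H)) := by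
  intro x y u hx hy hu
  have k1 := (c.tw_of_orb hγ D.endH.1 hx).2.2
  have k2 := (c.tw_of_orb hγ D.endH.1 hy).2.2
  have k3 := c.cyl_of_nice (X := sta (ham H)) hγ D.ij k1 k2 hu
  have k4 := D.reg.onto γ hγ _ _ _ (c.orb_iff.2 hx) (c.orb_iff.2 hy) k3
  have e := c.op_lop (x := x) (y := y) (X := sta (ham H)) D.ij.diff (fun p => D.endH.1.diff p.2)
    hu.bdd.1 ![] ![] ![]
  simp only [nil_GauC, Gau.pX_sta] at e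
  have k5 := (c.onto_iff rfl).1 (e ▸ k4 :
    Onto om (c.op (lop 1 (c.pJ J) (sta (c.pY (ham H))) x y u ![] ![] ![])))
  have nd := Gau.ndA (c := c) hγ D.endH
  rw [Adm.onto_iff (adm_lop (Gau.acs hγ D.ij) (fld_sta (Gau.sp hγ D.endH.1) le_rfl) (nd x hx)
    (nd y hy) hu.pth tf_nil_FinA tf_nil_FinA ![]), hil_lop] at k5
  exact (frm_empty _ _ _ _).1.1 k5

theorem Dat.endA (D : Dat Γ B J H G d) (b : ℝ) : EndA Γ J (ham H) H b :=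
  ⟨D.endH, fun _ hγ c => ⟨D.decH c hγ,
    (D.regA c hγ).lo (Gau.acs hγ D.ij) (Gau.sp hγ D.endH.1) _ _⟩⟩

theorem Dat.bdd (D : Dat Γ B J H G d) (hY : ClY Γ J G Y) (hc : Cls J H G Y X β₀ β₁ v η L)
    (hX : Fld X R) (inv : ∀ q, Ivf Γ (X q)) (hγ : γ ∈ Γ) (hu : Cyl Ω0 1 (c.pJ J) (c.pX X) x y u) :
    Bdd u := by
  obtain ⟨A', hA⟩ := D.apb_fam hX (fun _ => inv) hγ c (c.up x) (max (en om J (c.upu u)) 0) L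
  have k1 := hA 0 Y _ _ β₀ β₁ v η (norm_zero.trans_le (le_max_right _ _)) hY hc (c.cyl_iff.2 hu)
    (le_max_left _ _)
  rw [c.dnu_upu] at k1
  obtain ⟨𝕏, ρ, h1, h2, -, -, -, h3⟩ := (Gau.fam (c := c) hγ hX fun _ => inv).ctl
  refine bdd_of_c1 (Gau.acs (c := c) hγ D.ij) h1 ((bdd_const (0 : ℝ)).prod h2) hu.smooth
    (fun p => ?_) k1.1
  rw [← h3 0]
  exact hu.eq p

theorem Dat.bnd (D : Dat Γ B J H G d) {X : Λ → Pl → E → E} (hX : Fam X R)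
    (inv : ∀ a q, Ivf Γ (X a q)) (hγ : γ ∈ Γ) (hx : Tw γ (c.up x)) (β₀ β₁ v η L A b : ℝ) :
    ∃ A', ∀ a Y y u, ‖a‖ ≤ A → ClY Γ J G Y → Cls J H G Y (X a) β₀ β₁ v η L → Tw γ (c.up y) →
      Nice (c.pJ J) (c.pX (X a)) x y u → c.pA (mix H G β₀) x - c.pA (mix H G β₁) y ≤ b →
        Bnd A' u := by
  obtain ⟨A', hA⟩ := D.apb_fam hX inv hγ c (c.up x) (max A (4 * (b + v * d + 8 * η))) L
  refine ⟨A', fun a Y y u k1 k2 k3 k4 k5 k6 => ?_⟩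
  have k7 := c.cyl_of_nice hγ D.ij hx k4 k5
  have k8 := D.energy_le k2 k3 (hX.fld a) hγ hx k4 k7
  unfold Gau.pA at k6
  rw [← c.dnu_upu u]
  exact hA a Y _ _ β₀ β₁ v η (le_max_of_le_left k1) k2 k3 k7 (le_max_of_le_right (by linarith))

theorem Dat.bnd_nk (D : Dat Γ B J H G d) {X₁ X₂ : Pl → E → E} (h₁ : Fld X₁ R) (h₂ : Fld X₂ R)
    (e₁ : frz X₁ R = Y') (e₂ : frz X₂ (-R) = Y') (i₁ : ∀ q, Ivf Γ (X₁ q)) (i₂ : ∀ q, Ivf Γ (X₂ q))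
    (hγ : γ ∈ Γ) (hx : Tw γ (c.up x)) (β₀ β₁ v η L b : ℝ) :
    ∃ A', ∀ a a' R' Y y u, ClY Γ J G Y → Fld (nk X₁ X₂ Y' a a') R' →
      Cls J H G Y (nk X₁ X₂ Y' a a') β₀ β₁ v η L → Tw γ (c.up y) →
        Nice (c.pJ J) (c.pX (nk X₁ X₂ Y' a a')) x y u →
          c.pA (mix H G β₀) x - c.pA (mix H G β₁) y ≤ b → Bnd A' u := by
  obtain ⟨A', hA⟩ := D.apb_nk h₁ h₂ e₁ e₂ i₁ i₂ hγ c (c.up x) (4 * (b + v * d + 8 * η)) L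
  refine ⟨A', fun a a' R' Y y u k2 k1 k3 k4 k5 k6 => ?_⟩
  have k7 := c.cyl_of_nice hγ D.ij hx k4 k5
  have k8 := D.energy_le k2 k3 k1 hγ hx k4 k7
  unfold Gau.pA at k6
  rw [← c.dnu_upu u]
  exact hA a a' Y _ _ β₀ β₁ v η k2 k3 k7 (by linarith)

theorem fData_VL (hγ : γ ∈ Γ) (hJ : IJ om Γ J) {X : Λ → Pl → E → E} (hX : Fam X R)
    (inv : ∀ a q, Ivf Γ (X a q)) (e : ∀ a, frz (X a) (-R) = Y₀ ∧ frz (X a) R = Y₁)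
    (h₀ : EndF om Γ Y₀) (h₁ : EndF om Γ Y₁) :
    FData (c.pJ J) (fun a => c.pX (X a)) R (c.pY Y₀) (c.pY Y₁) :=
  ⟨Gau.acs hγ hJ, Gau.fam hγ hX inv, Gau.sp hγ h₀.1, Gau.sp hγ h₁.1, Gau.ndA hγ h₀, Gau.ndA hγ h₁,
    fun _ _ => ⟨1, one_pos, fun a t z _ => by rw [← (e a).1]; rfl⟩,
    fun _ _ => ⟨1, one_pos, fun a t z _ => by rw [← (e a).2]; rfl⟩⟩

theorem Dat.eg1_iff (D : Dat Γ B J H G d) (hY : ClY Γ J G Y) {X : ℝ → Pl → E → E} (hX : Fam X R)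
    (inv : ∀ r q, Ivf Γ (X r q)) (hc : ∀ r, Cls J H G Y (X r) β₀ β₁ v η L) (hγ : γ ∈ Γ)
    (e : ∀ r, frz (X r) (-R) = Y₀ ∧ frz (X r) R = Y₁) (h₀ : EndF om Γ Y₀) (h₁ : EndF om Γ Y₁)
    (hx : Orb 1 (c.pY Y₀) x) (hy : Orb 1 (c.pY Y₁) y) :
    EG1 om Γ γ J X (c.up x) (c.up y) ↔ Good1 (c.pJ J) (fun r => c.pX (X r)) x y :=
  (c.eg1_iff (Γ₁ := ⊥) (one_mem _) hγ D.ij.diff hX.smX).trans
    (((fData_VL c hγ D.ij hX inv e h₀ h₁).pData hx hy).eg1_iff fun r _ hu =>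
      D.bdd c hY (hc r) (hX.fld r) (inv r) hγ hu)

theorem Gau.fData (hγ : γ ∈ Γ) (hJ : IJ om Γ J) {X : Λ → Pl → E → E} (hX : Fam X R)
    (inv : ∀ a q, Ivf Γ (X a q)) (e : ∀ a, frz (X a) (-R) = Y₀ ∧ frz (X a) R = Y₁)
    (h₀ : EndF om Γ Y₀) (h₁ : EndF om Γ Y₁) :
    FData (c.pJ J) (fun a => c.pX (X a)) R (c.pY Y₀) (c.pY Y₁) :=
  fData_VL c hγ hJ hX inv e h₀ h₁

end

end Pool.Agent.P.MP_de3acd_gt.FH
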