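import Pool.Agent.P.MP_de3acd_gt.FH.Defs7
import Pool.Agent.P.MP_de3acd_gt.FH.VL

/-! From regularity in charts to regular data.
Sketch: spZ as Gau.acs. pj: apply the continuous linear map A ↦ Q ∘ A ∘ P to the sum (HasSum.mapL), PQ, QP. nice: U = c.upu u is a cylinder (cyl_iff); Fr.gb with C = ℝ, 𝕏 t (k, z) = Y t z, κ = 0;
cyl_bound; Fr.nm_cmp; Gau.bound, ds_upu, dt_upu and periodicity (Per.int) give Cn 1 u univ A (see Dat.apb); bdd_of_c1, nice_of_cyl, Gau.ndA. surj_self: Gau.cyl_of_nice, Fr.energy_eq, Fr.en_pos, ds_VL,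
Pth.eq_of_ds, bijective_const. reg: the converse of Dat.regA: write x = c.up x', u = c.upu u' (up_dn, upu_dnu), op_lop, onto_iff, Adm.onto_iff, hil_lop, frm_empty. -/

open Set Filter Topology MeasureTheory
open scoped ContDiff NNReal ENNReal RealInnerProductSpace

namespace Pool.Agent.P.MP_de3acd_gt.FH

noncomputable section

variable {Γ : Subgroup (Equiv.Perm E)} {B : ℝ → E →L[ℝ] E} {J : ℝ → E → E →L[ℝ] E}
  {H G : ℝ → E → ℝ} {Y : ℝ → E → E} {γ g : Equiv.Perm E}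

variable (c : Ch γ) {x y : ℝ → V6} {u : Pl → V6}

theorem Gau.spZ (hγ : γ ∈ Γ) {Z : ℝ → E → E →L[ℝ] E} (hZ : IZ Γ Z) : SP (c.pJ Z) := by
  refine ⟨(c.sQ.comp contDiff_fst).clm_comp ((hZ.1.1.comp (contDiff_fst.prodMk
    (c.spt_GauA contDiff_fst contDiff_snd))).clm_comp (c.sP.comp contDiff_fst)), fun t => ?_⟩
  ext z v
  have h1 := c.twP t v
  rw [lin_one'] at h1
  simp only [Gau.pJ, ContinuousLinearMap.comp_apply]
  rw [c.pt_one_GauA, h1, hZ.1.2, hZ.2 _ hγ, c.twQ_GauA, lin_one']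

theorem Gau.anti {Z : ℝ → E → E →L[ℝ] E} (hZ : Anti J Z) : Anti (c.pJ J) (c.pJ Z) := by
  intro t z v
  simp only [Gau.pJ, ContinuousLinearMap.comp_apply, c.PQ, hZ t (c.pt t z), map_neg]

theorem Gau.pj (hγ : γ ∈ Γ) {J₀ Za Zi : ℝ → E → E →L[ℝ] E} {Z : ℕ → ℝ → E → E →L[ℝ] E} {ε : ℕ → ℝ}
    {a : Lam} (e : PJ J₀ Z ε a J Za Zi) (ha : IZ Γ Za) (hi : IZ Γ Zi) :
    PJ (c.pJ J₀) (fun i => c.pJ (Z i)) ε a (c.pJ J) (c.pJ Za) (c.pJ Zi) := by
  refine ⟨fun t z => ?_, c.spZ hγ ha, c.spZ hγ hi, fun t z v => ?_, fun t z v => ?_,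
    fun t z v => ?_⟩
  · have h1 := (e.sum t (c.pt t z)).mapL
      (((ContinuousLinearMap.compL ℝ V6 E V6) (c.Q t)).comp
        ((ContinuousLinearMap.compL ℝ V6 E E).flip (c.P t)))
    simp only [map_smul] at h1
    exact h1
  · simp only [Gau.pJ, ContinuousLinearMap.comp_apply, map_add (c.P t), c.PQ, e.left, c.QP]
  · simp only [Gau.pJ, ContinuousLinearMap.comp_apply, c.PQ, ← map_add (c.Q t), e.right, c.QP]
  · simp only [Gau.pJ, ContinuousLinearMap.comp_apply, map_add (c.P t), c.PQ, ← map_add (c.Q t),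
      e.eq]

theorem bnd_RegE {X : Pl → E → E} {x y : ℝ → E} {u : Pl → E} (hu : Cyl om γ J X x y u) :
    ∃ A, ∀ s, ‖u (s, 0)‖ ≤ A := by
  have h0 : (0 : ℝ) ∈ Icc (0 : ℝ) 1 := left_mem_Icc.2 zero_le_one
  obtain ⟨a, ha⟩ := eventually_atBot.1 ((hu.left.tendsto_at h0).norm.eventually
    (eventually_le_nhds (lt_add_one _)))
  obtain ⟨b, hb⟩ := eventually_atTop.1 ((hu.right.tendsto_at h0).norm.eventually
    (eventually_le_nhds (lt_add_one _)))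
  obtain ⟨A, hA⟩ := (isCompact_Icc (a := a) (b := b)).exists_bound_of_continuousOn
    (f := fun s => u (s, 0)) (hu.smooth.continuous.comp (by fun_prop)).continuousOn
  refine ⟨max A (max (‖x 0‖ + 1) (‖y 0‖ + 1)), fun s => ?_⟩
  rcases le_total s a with h3 | h3
  · exact le_max_of_le_right (le_max_of_le_left (ha _ h3))
  rcases le_total s b with h4 | h4
  · exact le_max_of_le_left (hA s ⟨h3, h4⟩)
  · exact le_max_of_le_right (le_max_of_le_right (hb _ h4))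

theorem Fr.nice (h : Fr Γ B) (hJ : IJ om Γ J) (hY : EndF om Γ Y) (hγ : γ ∈ Γ)
    (hx : Orb 1 (c.pY Y) x) (hy : Orb 1 (c.pY Y) y)
    (hu : Cyl Ω0 1 (c.pJ J) (sta (c.pY Y)) x y u) : Nice (c.pJ J) (sta (c.pY Y)) x y u := by
  have k := c.cyl_iff.2 (show Cyl Ω0 1 (c.pJ J) (c.pX (sta Y)) x y u from hu)
  have sp : ∀ {F : Type} [NormedAddCommGroup F] [NormedSpace ℝ F] {Y : ℝ → F → F}, SP Y →
      SP fun t (q : ℝ × F) => Y t q.2 := fun hY =>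
    ⟨hY.1.comp (contDiff_fst.prodMk contDiff_snd.snd), fun t => by simp only [hY.2 t]⟩
  obtain ⟨A₁, h₁⟩ := h.gb hJ (sp hY.1.1) (fun t _ => hY.1.2 t) (max (en om J (c.upu u)) 0)
  have hb := h₁ γ hγ (fun _ => 0) _ _ _ contDiff_const ((cn_const 5 (0 : ℝ) univ).mono le_rfl
    Subset.rfl (norm_zero.trans_le (le_max_right _ _))) k (le_max_left _ _)
  obtain ⟨A₂, h₂⟩ := bnd_RegE k
  obtain ⟨A₃, h₃⟩ := chart_APB h hJ c (max (max (en om J (c.upu u)) A₁) A₂)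
  have k1 := h₃ _ _ _ _ k (le_max_of_le_left (le_max_left _ _))
    (fun p => ⟨le_max_of_le_left (le_max_of_le_right (hb p).1),
      le_max_of_le_left (le_max_of_le_right (hb p).2)⟩) fun s => le_max_of_le_right (h₂ s)
  rw [c.dnu_upu] at k1
  have a := Gau.acs (c := c) hγ hJ
  have s := Gau.sp (c := c) hγ hY.1
  have nd := Gau.ndA (c := c) hγ hY
  exact nice_of_cyl a (fld_sta s le_rfl) (nd x hx) (nd y hy) hu
    (bdd_of_c1 a (sp s) (bdd_const (0 : ℝ)) hu.smooth hu.eq k1.1)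

theorem Fr.surj_self (h : Fr Γ B) (hJ : IJ om Γ J) (hH : IH Γ H) (nd : NdH Γ H) (hγ : γ ∈ Γ)
    (hx : Orb 1 (c.pY (ham H)) x) (hu : Nice (c.pJ J) (sta (c.pY (ham H))) x x u) :
    Function.Surjective (Du (c.pJ J) (sta (c.pY (ham H))) u) := by
  have eH := hH.endF h nd
  obtain ⟨sx, px, k1⟩ := c.tw_of_orb hγ eH.1 hx
  have k3 := c.cyl_of_nice (X := sta (ham H)) hγ hJ k1 k1 hu
  have e : ds u = 0 := by_contra fun h0 => by
    have k4 := (h.en_pos hJ hγ k3).2 (ds_VL c hu.bdd.1 h0)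
    rw [h.energy_eq hJ hH hγ k1 k1 k3, sub_self] at k4
    exact k4.false
  rw [(hu.pth.eq_of_ds sx sx px px e).1]
  exact (bijective_const (Gau.acs hγ hJ) (Gau.sp hγ eH.1) (Gau.ndA hγ eH x hx)).2

theorem Fr.reg (h : Fr Γ B) (hJ : IJ om Γ J) (hH : IH Γ H) (nd : NdH Γ H)
    (e : ∀ γ ∈ Γ, ∃ c : Ch γ, RegA (c.pJ J) (c.pY (ham H))) : Reg Γ H J := by
  have eH := hH.endF h nd
  refine ⟨hH.1.1.prodMk hJ.1.1.1, fun t => ⟨hH.1.2 t, hJ.1.1.2 t⟩,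
    fun g hg t z => ⟨hH.2 g hg t z, hJ.2 g hg t z⟩, hJ.1.2, nd, fun γ hγ x y u hx hy hu => ?_⟩
  obtain ⟨c, hc⟩ := e γ hγ
  obtain ⟨x, rfl⟩ := c.up_bijective.2 x
  obtain ⟨y, rfl⟩ := c.up_bijective.2 y
  obtain ⟨u, rfl⟩ := c.upu_bijective.2 u
  rw [c.orb_iff] at hx hy
  have hn := h.nice c hJ eH hγ hx hy (c.cyl_iff.1 hu)
  have e := c.op_lop (x := x) (y := y) (X := sta (ham H)) hJ.diff (fun p => eH.1.diff p.2)
    hn.bdd.1 ![] ![] ![]
  simp only [nil_GauC, Gau.pX_sta] at e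
  have nd := Gau.ndA (c := c) hγ eH
  have k5 : Onto Ω0 (lop 1 (c.pJ J) (sta (c.pY (ham H))) x y u ![] ![] ![]) := by
    rw [Adm.onto_iff (adm_lop (Gau.acs hγ hJ) (fld_sta (Gau.sp hγ eH.1) le_rfl) (nd x hx)
      (nd y hy) hn.pth tf_nil_FinA tf_nil_FinA ![]), hil_lop]
    exact (frm_empty _ _ _ _).1.2 (hc x y u hx hy hn)
  exact e ▸ (c.onto_iff rfl).2 k5

end

end Pool.Agent.P.MP_de3acd_gt.FH
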