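import Pool.Agent.P.MP_de3acd_gt.FH.RvB
import Pool.Agent.P.MP_de3acd_gt.FH.JFam
import Pool.Agent.P.MP_de3acd_gt.FH.KillJ
import Pool.Agent.P.MP_de3acd_gt.FH.RegE

/-! Regular almost complex structures exist.
Sketch: fix charts c γ (Fr.chart, choice). ι = the countable subtype of triples (γ, x, y) of Fr.countable_orb with x ≠ y; rv in the chart c γ for c.dn x, c.dn y gives weights δ n; exists_sml.
The intersection over ι is residual (eventually_countable_forall), so dense (dense_of_mem_residual; Lam is complete), and meets the unit ball. Fr.killV, Gau.pj, Fr.surj_self, Fr.reg. -/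

open Set Filter Topology MeasureTheory
open scoped ContDiff NNReal ENNReal RealInnerProductSpace

namespace Pool.Agent.P.MP_de3acd_gt.FH

noncomputable section

variable {Γ : Subgroup (Equiv.Perm E)} {B : ℝ → E →L[ℝ] E} {J : ℝ → E → E →L[ℝ] E}
  {H G : ℝ → E → ℝ} {Y : ℝ → E → E} {γ g : Equiv.Perm E}

theorem Fr.exists_reg (h : Fr Γ B) (hH : IH Γ H) (nd : NdH Γ H) : ∃ J, Reg Γ H J := by
  have hY := hH.endF h nd
  obtain ⟨J₀, Z, δ₀, hJ₀, hZ, hL, h₀, hfam⟩ := h.exists_fam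
  have c : ∀ γ : Γ, Ch γ.1 := fun γ => (h.chart γ.2).some
  have hS := (h.countable_orb hY).to_subtype
  have hι : Countable {q : Γ × (ℝ → V6) × (ℝ → V6) // Orb 1 ((c q.1).pY (ham H)) q.2.1 ∧
      Orb 1 ((c q.1).pY (ham H)) q.2.2 ∧ q.2.1 ≠ q.2.2} := by
    refine Function.Injective.countable (f := fun q =>
      (⟨(q.1.1.1, (c q.1.1).up q.1.2.1, (c q.1.1).up q.1.2.2), q.1.1.2,
        (c q.1.1).orb_iff.2 q.2.1, (c q.1.1).orb_iff.2 q.2.2.1⟩ :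
        {q : Equiv.Perm E × (ℝ → E) × (ℝ → E) |
          q.1 ∈ Γ ∧ Orb q.1 (ham H) q.2.1 ∧ Orb q.1 (ham H) q.2.2})) ?_
    rintro ⟨⟨γ, x, y⟩, h1⟩ ⟨⟨γ', x', y'⟩, h2⟩ e
    obtain ⟨e1, e2⟩ := Prod.ext_iff.1 (Subtype.ext_iff.1 e)
    obtain rfl : γ = γ' := Subtype.ext e1
    obtain ⟨e3, e4⟩ := Prod.ext_iff.1 e2
    obtain rfl : x = x' := (c γ).up_bijective.1 e3
    obtain rfl : y = y' := (c γ).up_bijective.1 e4
    rfl
  choose δ hδ hr using fun q : {q : Γ × (ℝ → V6) × (ℝ → V6) //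
      Orb 1 ((c q.1).pY (ham H)) q.2.1 ∧ Orb 1 ((c q.1).pY (ham H)) q.2.2 ∧ q.2.1 ≠ q.2.2} =>
    rv (Z := fun i => (c q.1.1).pJ (Z i)) (Gau.acs (c := c q.1.1) q.1.1.2 hJ₀)
      (fun i => ⟨(c q.1.1).spZ q.1.1.2 (hZ i).1, (c q.1.1).anti (hZ i).2⟩)
      (Gau.sp q.1.1.2 hY.1) (Gau.ndA q.1.1.2 hY _ q.2.1) (Gau.ndA q.1.1.2 hY _ q.2.2.1) q.2.2.2
  obtain ⟨ε, hε, hs⟩ := exists_sml hδ h₀
  obtain ⟨a, ha, ha1⟩ := (dense_of_mem_residual
    (eventually_countable_forall.2 fun q => hr q ε (hs q))).exists_mem_open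
    (Metric.isOpen_ball (x := (0 : Lam)) (ε := 1)) ⟨0, Metric.mem_ball_self one_pos⟩
  obtain ⟨J, Za, Zi, hJ, hZa, hZi, hP⟩ := hfam ε hε a (mem_ball_zero_iff.1 ha1).le
  refine ⟨J, h.reg hJ hH nd fun γ hγ => ⟨c ⟨γ, hγ⟩, fun x y u hx hy hu => ?_⟩⟩
  by_cases hxy : x = y
  · subst hxy
    exact h.surj_self _ hJ hH nd hγ hx hu
  · exact ha ⟨(⟨γ, hγ⟩, x, y), hx, hy, hxy⟩ _ _ _ (Gau.acs hγ hJ)
      ((c ⟨γ, hγ⟩).pj hγ hP hZa hZi) (h.killV hJ hY hγ _ hL hx hy hxy) u hu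

end

end Pool.Agent.P.MP_de3acd_gt.FH
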