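import Pool.Agent.P.MP_de3acd_gt.FH.Final
import Pool.Agent.P.MP_de3acd_gt.FH.RegX
import Pool.Agent.P.MP_de3acd_gt.FH.OE

/-! Regular data exist, and the barcode entropy is smaller than the topological entropy. -/

open Set Real Filter Topology
open scoped ContDiff NNReal ENNReal

namespace Pool.Agent.P.MP_de3acd_gt

theorem near_nonempty {Γ : Subgroup (Equiv.Perm E)} {B : ℝ → E →L[ℝ] E} (fr : FH.Fr Γ B)
    {H G : ℝ → E → ℝ} (hH : FH.IH Γ H) {k : ℕ} {δ : ℝ} (g1 : FH.IH Γ G) (g2 : FH.NdH Γ G)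
    (g3 : FH.L1 (fun t z => k * H (k * t) z) G δ) : (near Γ H k δ).Nonempty := by
  obtain ⟨J, hJ⟩ := fr.exists_reg g1 g2
  obtain ⟨o, ho⟩ := fr.exists_coh
  obtain ⟨P, hP, h1, h2⟩ := g3
  refine ⟨(G, J, o), hJ, ho, le_trans ?_ h2⟩
  exact intervalIntegral.integral_mono_on zero_le_one
    ((fr.sup g1 (hH.iter k)).1.intervalIntegrable _ _) (hP.intervalIntegrable _ _)
    fun t ht => ciSup_le (h1 t ht)

theorem final₂ : ∃ (Γ : Subgroup (Equiv.Perm E)) (hΓ : Good Γ) (H : ℝ → E → ℝ) (φ : E → E)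
    (f : Q Γ → Q Γ), Gen Γ H φ ∧ (∀ t, H (t + 1) = H t) ∧ (∀ z, f (pr Γ z) = pr Γ (φ z)) ∧
      (∀ k ≥ 1, ∀ δ > 0, (near Γ H k δ).Nonempty) ∧
        ∀ (𝔽 : Type) [Field 𝔽], hbar 𝔽 Γ H < htop hΓ f := by
  obtain ⟨H, Φ, L, C, h⟩ := exists_base
  have h0 : (0 : ℝ) ∈ Icc (0 : ℝ) 1 := ⟨le_rfl, zero_le_one⟩
  obtain ⟨n, hn⟩ := exists_nat_gt (max 12 (exp (36 * π * L)))
  have hn1 : (12 : ℝ) < n := (le_max_left _ _).trans_lt hn
  have hn2 : 12 ≤ n := by exact_mod_cast hn1.le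
  have hn3 : 36 * π * L < log n :=
    (lt_log_iff_exp_lt (by linarith)).2 ((le_max_right _ _).trans_lt hn)
  have hL := h.L_nonneg
  obtain ⟨B, fr⟩ := FH.exists_fr (n := n) (by omega)
  let f : Q (Gam n) → Q (Gam n) := Quotient.map' (Φ 0 (2 * π)) fun z z' hz => by
    obtain ⟨γ, hγ, rfl⟩ := pr_eq.1 (Quotient.sound hz)
    exact Quotient.exact (pr_eq.2 ⟨γ, hγ, (h.eqv_gam h0 hγ _ z').symm⟩)
  have g := h.gen h0 n (2 * π)
  have ih : FH.IH (Gam n) fun _ z => 2 * π * H 0 z :=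
    ⟨⟨g.smooth, fun _ => rfl⟩, g.inv⟩
  refine ⟨Gam n, good_gam n, _, Φ 0 (2 * π), f, g, fun _ => rfl, fun _ => rfl, fun k hk δ hδ => ?_,
    fun 𝔽 _ => (hbar_le fr ih (h := 18 * π * L + log n / 2)
      (by have := log_nonneg (show (1 : ℝ) ≤ n by linarith); positivity) (fun ε hε => ?_) 𝔽).trans_lt
    (lt_of_lt_of_le (EReal.coe_lt_coe_iff.2 (by linarith))
      (entropy_ge (by omega) _ f fun y => ?_))⟩
  · obtain ⟨C', hC⟩ := approx1 h hn2 hδ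
    obtain ⟨G, g1, g2, g3, -⟩ := hC k hk
    exact near_nonempty fr ih g1 g2 (by simpa only [mul_assoc] using g3)
  · simpa only [mul_assoc] using approx1 h hn2 hε
  · change pr _ (Φ 0 (2 * π) (0, 0, y)) = _
    rw [h.line]
    refine pr_eq.2 ⟨gam n (-1) (0, (2 * π, 0), 0), gam_mem
      ⟨zero_mem _, ⟨mem_Z1.2 ⟨1, by simp⟩, zero_mem _⟩, zero_mem _⟩ (by simp), ?_⟩
    have := cat_zpow_neg n 1 y
    rw [zpow_one] at this
    change ((0 : Pl), (0 : Pl), (cat n ^ (-1 : ℤ)) (cat n y)) + _ = _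
    rw [this]
    simp

end Pool.Agent.P.MP_de3acd_gt
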