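import Pool.Agent.P.MP_de3acd_gt.FH.GauA

/-! The invariant norm and the group action.
Sketch: nm_near: B (-tau z) = B (tau z' - tau z) ∘ B (-tau z'), B is bounded on compact intervals. dom: the open sets pr Γ '' ball 0 n cover the compact quotient
(isOpenMap_quotient_mk'_mul with Good.cont), pr_eq from IDefs may be copied. fin: ProperlyDiscontinuousSMul.finite_disjoint_inter_image for closedBall 0 A.
gj_cmp: move z into the ball with dom, t into Icc 0 1 by periodicity; cpt_bounds form_om. lift: the sets {a | f' a = g (f a)}, g ∈ Γ, are closed, disjoint (free) and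
locally finitely many are nonempty (fin), so they are open; IsClopen.eq_univ. path: |tau (w t) - tau (w a)| ≤ ℓ by base_le and the fundamental theorem of calculus,
then nm_cmp. -/

open Set Filter Topology MeasureTheory
open scoped ContDiff NNReal ENNReal RealInnerProductSpace

namespace Pool.Agent.P.MP_de3acd_gt.FH

noncomputable section

variable {Γ : Subgroup (Equiv.Perm E)} {B : ℝ → E →L[ℝ] E} {J : ℝ → E → E →L[ℝ] E}
  {H G K K' : ℝ → E → ℝ} {Y Y' Z : ℝ → E → E} {γ g : Equiv.Perm E} {x y w : ℝ → E} {u : Pl → E}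
variable {C : Type} [NormedAddCommGroup C] [NormedSpace ℝ C] [FiniteDimensional ℝ C]

theorem contDiff_tau_FrA : ContDiff ℝ ∞ tau := by
  unfold tau
  fun_prop

theorem tau_zero_FrA : tau 0 = 0 := by simp [tau]

theorem abs_tau_FrA (z : E) : |tau z| ≤ ‖z.2.1‖ := by
  have h := Real.pi_gt_three
  rw [tau, abs_div, abs_neg, abs_of_pos Real.two_pi_pos]
  exact (div_le_self (abs_nonneg _) (by linarith)).trans (norm_fst_le z.2.1)

theorem tau_sub_FrA (z z' : E) : tau z - tau z' = tau (z - z') := by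
  simp only [tau, Prod.snd_sub, Prod.fst_sub]
  ring

theorem abs_ar_FrA {u v : Pl} {a b : ℝ} (hu : ‖u‖ ≤ a) (hv : ‖v‖ ≤ b) : |ar u v| ≤ 2 * (a * b) := by
  have ha := (norm_nonneg u).trans hu
  have h1 : |u.1 * v.2| ≤ a * b := by
    rw [abs_mul]
    exact mul_le_mul ((norm_fst_le u).trans hu) ((norm_snd_le v).trans hv) (abs_nonneg _) ha
  have h2 : |u.2 * v.1| ≤ a * b := by
    rw [abs_mul]
    exact mul_le_mul ((norm_snd_le u).trans hu) ((norm_fst_le v).trans hv) (abs_nonneg _) ha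
  exact (abs_sub _ _).trans (by linarith)

theorem abs_om_FrA (u v : E) : |om u v| ≤ 6 * ‖u‖ * ‖v‖ := by
  have h1 := abs_ar_FrA (norm_fst_le u) (norm_fst_le v)
  have h2 := abs_ar_FrA ((norm_fst_le u.2).trans (norm_snd_le u))
    ((norm_fst_le v.2).trans (norm_snd_le v))
  have h3 := abs_ar_FrA ((norm_snd_le u.2).trans (norm_snd_le u))
    ((norm_snd_le v.2).trans (norm_snd_le v))
  exact (abs_add_three _ _ _).trans (by linarith)

theorem ftc_FrA {F : Type} [NormedAddCommGroup F] [NormedSpace ℝ F] [CompleteSpace F]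
    (T : E →L[ℝ] F) (hw : ContDiff ℝ ∞ w) {n : ℝ → ℝ} (hn : Continuous n) (h0 : ∀ s, 0 ≤ n s)
    {a b t : ℝ} (ht : t ∈ Icc a b) (h : ∀ s ∈ Icc a b, ‖T (deriv w s)‖ ≤ n s) :
    ‖T (w t - w a)‖ ≤ ∫ s in a..b, n s := by
  have h1 : Continuous (deriv w) := hw.continuous_deriv (by simp)
  rw [← intervalIntegral.integral_eq_sub_of_hasDerivAt
    (fun s _ => (hw.differentiable (by simp) s).hasDerivAt) (h1.intervalIntegrable a t),
    ← T.intervalIntegral_comp_comm (h1.intervalIntegrable a t)]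
  exact (intervalIntegral.norm_integral_le_of_norm_le ht.1
    (Eventually.of_forall fun s hs => h s ⟨hs.1.le, hs.2.trans ht.2⟩)
    (hn.intervalIntegrable a t)).trans (intervalIntegral.integral_mono_interval le_rfl ht.1 ht.2
      (Eventually.of_forall h0) (hn.intervalIntegrable a b))

theorem Fr.eq_FrA (h : Fr Γ B) (hγ : γ ∈ Γ) : ∃ m : ℝ, (γ : E → E) = fun z => B m z + γ 0 := by
  obtain ⟨m, h1, -⟩ := h.wind γ hγ
  exact ⟨m, funext fun z => by rw [← h1, lin, sub_add_cancel]⟩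

theorem Fr.aff (h : Fr Γ B) (hγ : γ ∈ Γ) : Aff γ :=
  let ⟨m, h1, _⟩ := h.wind γ hγ
  ⟨B m, h1⟩

theorem Fr.om_lin (h : Fr Γ B) (hγ : γ ∈ Γ) (u v : E) : om (lin γ u) (lin γ v) = om u v := by
  obtain ⟨m, h1, -⟩ := h.wind γ hγ
  rw [h1, h1, h.symp]

theorem Fr.lin_mul (h : Fr Γ B) (hγ : γ ∈ Γ) (g : Equiv.Perm E) (v : E) :
    lin (γ * g) v = lin γ (lin g v) :=
  (h.aff hγ).map_sub (g v) (g 0)

theorem Fr.contDiff (h : Fr Γ B) (hγ : γ ∈ Γ) : ContDiff ℝ ∞ γ := by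
  obtain ⟨m, e⟩ := h.eq_FrA hγ
  rw [e]
  exact (B m).contDiff.add contDiff_const

theorem Fr.hasDerivAt (h : Fr Γ B) (hγ : γ ∈ Γ) {v : E} {t : ℝ} (e : HasDerivAt x v t) :
    HasDerivAt (γ ∘ x) (lin γ v) t := by
  obtain ⟨m, h1, -⟩ := h.wind γ hγ
  have h2 : γ ∘ x = fun t => B m (x t) + γ 0 := funext fun t => by
    rw [← h1, lin, sub_add_cancel]; rfl
  rw [h1, h2]
  exact ((B m).hasFDerivAt.comp_hasDerivAt t e).add_const _

theorem Fr.col (h : Fr Γ B) (hγ : γ ∈ Γ) (hg : g ∈ Γ) {z : E} (e : γ z = g z) : γ = g := by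
  have h1 := h.good.free (g⁻¹ * γ) (mul_mem (inv_mem hg) hγ) z (by
    rw [Equiv.Perm.mul_apply, e]
    exact g.symm_apply_apply z)
  exact (inv_mul_eq_one.1 h1).symm

theorem pr_eq_iff {z z' : E} : pr Γ z = pr Γ z' ↔ ∃ γ ∈ Γ, γ z' = z := by
  rw [pr, pr, Quotient.eq, MulAction.orbitRel_apply]
  exact ⟨fun ⟨γ, h⟩ => ⟨γ.1, γ.2, h⟩, fun ⟨γ, h, h'⟩ => ⟨⟨γ, h⟩, h'⟩⟩

theorem nm_nonneg (B : ℝ → E →L[ℝ] E) (z v : E) : 0 ≤ nm B z v := norm_nonneg _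

theorem nm_add_le (B : ℝ → E →L[ℝ] E) (z v v' : E) : nm B z (v + v') ≤ nm B z v + nm B z v' := by
  rw [nm, map_add]
  exact norm_add_le _ _

theorem nm_smul (B : ℝ → E →L[ℝ] E) (z v : E) (r : ℝ) : nm B z (r • v) = |r| * nm B z v := by
  rw [nm, map_smul, norm_smul]
  rfl

theorem Fr.continuous_nm (h : Fr Γ B) : Continuous fun q : E × E => nm B q.1 q.2 :=
  ((h.smooth.continuous.comp (contDiff_tau_FrA.continuous.comp continuous_fst).neg).clm_apply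
    continuous_snd).norm

theorem Fr.nm_inv (h : Fr Γ B) (hγ : γ ∈ Γ) (z v : E) : nm B (γ z) (lin γ v) = nm B z v := by
  obtain ⟨m, h1, h2⟩ := h.wind γ hγ
  rw [nm, nm, h1, h2, ← h.add, neg_add, neg_add_cancel_right]

theorem Fr.nm_near (h : Fr Γ B) (A : ℝ) : ∃ D, 1 ≤ D ∧ ∀ z z' v, |tau z - tau z'| ≤ A →
    nm B z v ≤ D * nm B z' v := by
  obtain ⟨M, hM⟩ := (isCompact_Icc (a := -A) (b := A)).exists_bound_of_continuousOn
    h.smooth.continuous.continuousOn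
  refine ⟨max M 1, le_max_right _ _, fun z z' v e => ?_⟩
  have h1 : -tau z = (tau z' - tau z) + -tau z' := by ring
  rw [nm, h1, h.add]
  rw [abs_sub_comm] at e
  exact ContinuousLinearMap.le_of_opNorm_le _ ((hM _ (abs_le.1 e)).trans (le_max_left _ _)) _

theorem Fr.nm_cmp (h : Fr Γ B) (A : ℝ) : ∃ D, 1 ≤ D ∧ ∀ z v, |tau z| ≤ A →
    nm B z v ≤ D * ‖v‖ ∧ ‖v‖ ≤ D * nm B z v := by
  obtain ⟨D, h1, hD⟩ := h.nm_near A
  have h0 : ∀ v, nm B 0 v = ‖v‖ := fun v => by rw [nm, tau_zero_FrA, neg_zero, h.zero]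
  refine ⟨D, h1, fun z v e => ?_⟩
  rw [← h0]
  exact ⟨hD _ _ _ (by rwa [tau_zero_FrA, sub_zero]),
    hD _ _ _ (by rwa [tau_zero_FrA, zero_sub, abs_neg])⟩

theorem abs_tau_le (z : E) : |tau z| ≤ ‖z‖ :=
  (abs_tau_FrA z).trans ((norm_fst_le z.2).trans (norm_snd_le z))

theorem Fr.base_le (h : Fr Γ B) (z v : E) : ‖v.1‖ ≤ nm B z v ∧ ‖v.2.1‖ ≤ nm B z v := by
  obtain ⟨h1, h2⟩ := h.base (-tau z) v
  rw [← h1, ← h2]
  exact ⟨norm_fst_le _, (norm_fst_le _).trans (norm_snd_le _)⟩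

theorem Fr.abs_om_le (h : Fr Γ B) (z u v : E) : |om u v| ≤ 6 * nm B z u * nm B z v := by
  rw [← h.symp (-tau z)]
  exact abs_om_FrA _ _

theorem Fr.dom (h : Fr Γ B) : ∃ A, ∀ z, ∃ g ∈ Γ, ‖g z‖ ≤ A := by
  haveI := h.good.cont
  haveI := h.good.cpt
  obtain ⟨n, hn⟩ := (isCompact_univ (X := Q Γ)).elim_directed_cover
    (fun n : ℕ => pr Γ '' Metric.ball 0 n)
    (fun n => isOpenMap_quotient_mk'_mul _ Metric.isOpen_ball)
    (fun q _ => by
      obtain ⟨z, rfl⟩ := Quotient.exists_rep q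
      obtain ⟨n, hn⟩ := exists_nat_gt ‖z‖
      exact mem_iUnion.2 ⟨n, z, mem_ball_zero_iff.2 hn, rfl⟩)
    (directed_of_isDirected_le fun _ _ e => image_mono (Metric.ball_subset_ball (Nat.cast_le.2 e)))
  refine ⟨n, fun z => ?_⟩
  obtain ⟨z', hz, e⟩ := hn (mem_univ (pr Γ z))
  obtain ⟨g, hg, rfl⟩ := pr_eq_iff.1 e
  exact ⟨g, hg, (mem_ball_zero_iff.1 hz).le⟩

theorem Fr.fin (h : Fr Γ B) (A : ℝ) : {g | g ∈ Γ ∧ ∃ z, ‖z‖ ≤ A ∧ ‖g z‖ ≤ A}.Finite := by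
  haveI := h.good.disc
  refine ((finite_disjoint_inter_image (Γ := Γ) (isCompact_closedBall (0 : E) A)
    (isCompact_closedBall (0 : E) A)).image Subtype.val).subset ?_
  rintro g ⟨hg, z, h1, h2⟩
  exact ⟨⟨g, hg⟩, ⟨g z, ⟨z, mem_closedBall_zero_iff.2 h1, rfl⟩, mem_closedBall_zero_iff.2 h2⟩, rfl⟩

theorem Fr.gj_inv (h : Fr Γ B) (hJ : IJ om Γ J) (hγ : γ ∈ Γ) (t : ℝ) (z v : E) :
    gj om J t (γ z) (lin γ v) = gj om J t z v := by
  rw [gj, gj, hJ.2 γ hγ, h.om_lin hγ]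

theorem Fr.gj_cmp (h : Fr Γ B) (hJ : IJ om Γ J) : ∃ D, 1 ≤ D ∧ ∀ t z v,
    nm B z v ^ 2 ≤ D * gj om J t z v ∧ gj om J t z v ≤ D * nm B z v ^ 2 ∧
      nm B z (J t z v) ≤ D * nm B z v := by
  obtain ⟨A, hA⟩ := h.dom
  obtain ⟨D, h1, hD⟩ := h.nm_cmp A
  obtain ⟨M, h0, hM⟩ := hJ.1.1.bound_JetC A
  obtain ⟨δ, hδ, hc⟩ := cpt_bounds form_om M
  have hi : 0 < δ⁻¹ := inv_pos.2 hδ
  have hD0 : 0 ≤ D := zero_le_one.trans h1
  refine ⟨max 1 (max (D ^ 2 * δ⁻¹) (D * M * D)), le_max_left _ _, fun t z v => ?_⟩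
  obtain ⟨g, hg, hz⟩ := hA z
  rw [← h.nm_inv hg z v, ← h.gj_inv hJ hg, ← h.nm_inv hg z (J t z v), ← hJ.2 g hg]
  generalize g z = z at hz
  generalize lin g v = v
  have hτ := (abs_tau_le z).trans hz
  obtain ⟨c1, c2⟩ := hc (J t z) (hJ.1.2 t z) (hM t z hz) v
  obtain ⟨d1, d2⟩ := hD z v hτ
  have e1 : D ^ 2 * δ⁻¹ ≤ max 1 (max (D ^ 2 * δ⁻¹) (D * M * D)) :=
    (le_max_left _ _).trans (le_max_right _ _)
  have e2 : D * M * D ≤ max 1 (max (D ^ 2 * δ⁻¹) (D * M * D)) :=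
    (le_max_right _ _).trans (le_max_right _ _)
  have hn := nm_nonneg B z v
  refine ⟨?_, ?_, ?_⟩
  · calc nm B z v ^ 2 ≤ (D * ‖v‖) ^ 2 := pow_le_pow_left₀ hn d1 2
      _ = D ^ 2 * δ⁻¹ * (δ * ‖v‖ ^ 2) := by field_simp
      _ ≤ _ := mul_le_mul e1 c1 (by positivity) (by positivity)
  · calc gj om J t z v ≤ δ⁻¹ * ‖v‖ ^ 2 := c2
      _ ≤ δ⁻¹ * (D * nm B z v) ^ 2 := by gcongr
      _ = D ^ 2 * δ⁻¹ * nm B z v ^ 2 := by ring
      _ ≤ _ := by gcongr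
  · calc nm B z (J t z v) ≤ D * ‖J t z v‖ := (hD z _ hτ).1
      _ ≤ D * (M * ‖v‖) := by gcongr; exact (J t z).le_of_opNorm_le (hM t z hz) v
      _ ≤ D * (M * (D * nm B z v)) := by gcongr
      _ = D * M * D * nm B z v := by ring
      _ ≤ _ := by gcongr

theorem Fr.bound (h : Fr Γ B) {𝕏 : ℝ → C × E → E} (hX : SP 𝕏)
    (inv : ∀ t k, Ivf Γ fun z => 𝕏 t (k, z)) (A : ℝ) :
    ∃ D, ∀ t k z, ‖k‖ ≤ A → nm B z (𝕏 t (k, z)) ≤ D := by
  obtain ⟨A', hA⟩ := h.dom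
  obtain ⟨D, h1, hD⟩ := h.nm_cmp A'
  obtain ⟨M, -, hM⟩ := hX.bound_JetC (max A A')
  refine ⟨D * M, fun t k z hk => ?_⟩
  obtain ⟨g, hg, hz⟩ := hA z
  rw [← h.nm_inv hg, ← inv t k g hg z]
  exact (hD _ _ ((abs_tau_le _).trans hz)).1.trans (mul_le_mul_of_nonneg_left
    (hM t (k, g z) (max_le_max hk hz)) (zero_le_one.trans h1))

theorem Fr.boundY (h : Fr Γ B) (hY : IY Γ Y) : ∃ D, ∀ t z, nm B z (Y t z) ≤ D := by
  obtain ⟨A, hA⟩ := h.dom
  obtain ⟨D, h1, hD⟩ := h.nm_cmp A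
  obtain ⟨M, -, hM⟩ := hY.1.bound_JetC A
  refine ⟨D * M, fun t z => ?_⟩
  obtain ⟨g, hg, hz⟩ := hA z
  rw [← h.nm_inv hg, ← hY.2 t g hg z]
  exact (hD _ _ ((abs_tau_le _).trans hz)).1.trans (mul_le_mul_of_nonneg_left
    (hM t _ hz) (zero_le_one.trans h1))

theorem Fr.boundH (h : Fr Γ B) (hH : IH Γ H) : ∃ D, ∀ t z, |H t z| ≤ D := by
  obtain ⟨A, hA⟩ := h.dom
  obtain ⟨M, -, hM⟩ := hH.1.bound_JetC A
  refine ⟨M, fun t z => ?_⟩
  obtain ⟨g, hg, hz⟩ := hA z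
  rw [← hH.2 g hg]
  exact hM t _ hz

theorem Fr.lift (h : Fr Γ B) {α : Type} [TopologicalSpace α] [PreconnectedSpace α] [Nonempty α]
    {f f' : α → E} (hf : Continuous f) (hf' : Continuous f') (e : pr Γ ∘ f = pr Γ ∘ f') :
    ∃ g ∈ Γ, f' = g ∘ f := by
  have ex : ∀ a, ∃ g ∈ Γ, g (f a) = f' a := fun a => pr_eq_iff.1 (congrFun e a).symm
  obtain ⟨a₀⟩ := ‹Nonempty α›
  obtain ⟨g, hg, e₀⟩ := ex a₀
  have hc : ∀ g ∈ Γ, IsClosed {a | g (f a) = f' a} := fun g hg =>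
    isClosed_eq ((h.contDiff hg).continuous.comp hf) hf'
  have ho : IsOpen {a | g (f a) = f' a} := isOpen_iff_mem_nhds.2 fun a ha => by
    have h1 := (hf.norm.max hf'.norm).continuousAt.eventually_lt_const
      (lt_add_one (max ‖f a‖ ‖f' a‖))
    have h2 := (eventually_all_finite (l := 𝓝 a) (p := fun g' b => g' (f b) = f' b → g' = g)
      (h.fin (max ‖f a‖ ‖f' a‖ + 1))).2 fun g' hg' => by
        by_cases e' : g' = g
        · exact Eventually.of_forall fun _ _ => e'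
        · filter_upwards [(hc g' hg'.1).isOpen_compl.mem_nhds
            fun e'' => e' (h.col hg'.1 hg (e''.trans ha.symm))] with b hb e'' using absurd e'' hb
    filter_upwards [h1, h2] with b h1 h2
    obtain ⟨g', hg', e'⟩ := ex b
    rw [max_lt_iff] at h1
    exact h2 g' ⟨hg', f b, h1.1.le, e' ▸ h1.2.le⟩ e' ▸ e'
  have hu := IsClopen.eq_univ ⟨hc g hg, ho⟩ ⟨a₀, e₀⟩
  exact ⟨g, hg, funext fun a => (eq_univ_iff_forall.1 hu a).symm⟩

theorem Fr.path (h : Fr Γ B) (A ℓ : ℝ) : ∃ A', ∀ (w : ℝ → E) (a b : ℝ), ContDiff ℝ ∞ w → a ≤ b →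
    ‖w a‖ ≤ A → ∫ t in a..b, nm B (w t) (deriv w t) ≤ ℓ → ∀ t ∈ Icc a b, ‖w t‖ ≤ A' := by
  obtain ⟨D, h1, hD⟩ := h.nm_cmp (A + ℓ)
  have hD0 : 0 ≤ D := zero_le_one.trans h1
  refine ⟨A + D * ℓ, fun w a b hw _ hA hl t ht => ?_⟩
  have hn : Continuous fun t => nm B (w t) (deriv w t) :=
    h.continuous_nm.comp (hw.continuous.prodMk (hw.continuous_deriv (by simp)))
  have h2 : ∀ s ∈ Icc a b, |tau (w s)| ≤ A + ℓ := fun s hs => by
    have h3 := ftc_FrA (ContinuousLinearMap.fst ℝ Pl Pl ∘L ContinuousLinearMap.snd ℝ Pl (Pl × Pl))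
      hw hn (fun _ => nm_nonneg _ _ _) hs fun s _ => (h.base_le (w s) (deriv w s)).2
    have h4 := (abs_tau_FrA (w s - w a)).trans (h3.trans hl)
    have h5 := (abs_tau_le (w a)).trans hA
    rw [← tau_sub_FrA] at h4
    linarith [abs_sub_abs_le_abs_sub (tau (w s)) (tau (w a))]
  have h6 := ftc_FrA (ContinuousLinearMap.id ℝ E) hw (hn.const_mul D)
    (fun _ => mul_nonneg hD0 (nm_nonneg _ _ _)) ht fun s hs => (hD _ _ (h2 s hs)).2
  rw [intervalIntegral.integral_const_mul, ContinuousLinearMap.id_apply] at h6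
  linarith [norm_sub_norm_le (w t) (w a), mul_le_mul_of_nonneg_left hl hD0]

theorem Fr.frame (h : Fr Γ B) (v : E) :
    (ContDiff ℝ ∞ fun z => B (tau z) v) ∧ Ivf Γ fun z => B (tau z) v := by
  refine ⟨(h.smooth.comp contDiff_tau_FrA).clm_apply contDiff_const, fun g hg z => ?_⟩
  obtain ⟨m, h1, h2⟩ := h.wind g hg
  simp only [h1, h2]
  rw [add_comm, h.add]

end

end Pool.Agent.P.MP_de3acd_gt.FH
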