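import Pool.Agent.P.MP_de3acd_gt.FH.FrA
import Pool.Agent.P.MP_de3acd_gt.Grp

/-! The frame of the deck group, charts, Hamiltonian fields.
Sketch: exists_fr: c = (n + 1) / 2 > 1, cosh μ = c, sinh μ = s = √(c² - 1), μ = Real.log (c + s) (or Real.arsinh s), N = (cat n - c) / s has N² = 1 and trace zero;
b a = cosh (a μ) + sinh (a μ) N on the last plane, the identity on the others; b 1 = cat n, so b m = cat n ^ m by induction (add). chart: P t = B (m t) ∘ e6,
Q t = e6.symm ∘ B (-(m t)); x0 is a smooth twisted loop: in the coordinate x0 t = B (m t) (k t) one needs k (t + 1) = k t + B (-(m (t + 1))) (γ 0); or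
x0 t = ∑ᶠ j : ℤ, φ (t - j) • (γ ^ j) 0 with φ t = smoothTransition (t + 1) - smoothTransition t (a locally finite sum with weights of total mass one); or
x0 t = (γ ^ ⌊t⌋) (smoothTransition (3 * Int.fract t - 1) • γ 0), which near an integer k equals the constant (γ ^ k) 0.
ham: om (ham H t z) v = fderiv by expanding v in the basis; invariance by nondegeneracy of om; ham_symp by symmetry of the second derivative
(ContDiffAt.isSymmSndFDerivAt). -/

open Set Filter Topology MeasureTheory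
open scoped ContDiff NNReal ENNReal RealInnerProductSpace

namespace Pool.Agent.P.MP_de3acd_gt.FH

noncomputable section

variable {Γ : Subgroup (Equiv.Perm E)} {B : ℝ → E →L[ℝ] E} {J : ℝ → E → E →L[ℝ] E}
  {H G K K' : ℝ → E → ℝ} {Y Y' Z : ℝ → E → E} {γ g : Equiv.Perm E} {x y w : ℝ → E} {u : Pl → E}

theorem flow_FrG {n : ℕ} (hn : 2 ≤ n) : ∃ (M : Pl →L[ℝ] Pl) (μ : ℝ), (∀ y, M (M y) = y) ∧
    (∀ u v, ar (M u) v + ar u (M v) = 0) ∧
      ∀ y, Real.cosh μ • y + Real.sinh μ • M y = cat n y := by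
  have h2 : (2 : ℝ) ≤ n := by exact_mod_cast hn
  have hpos : (0 : ℝ) < ((n + 1) / 2) ^ 2 - 1 := by nlinarith
  obtain ⟨s, hs0, hs⟩ : ∃ s : ℝ, 0 < s ∧ s ^ 2 = ((n + 1) / 2) ^ 2 - 1 :=
    ⟨√(((n + 1) / 2) ^ 2 - 1), Real.sqrt_pos.2 hpos, Real.sq_sqrt hpos.le⟩
  obtain ⟨r, hr⟩ : ∃ r : ℝ, r * s = 1 := ⟨s⁻¹, inv_mul_cancel₀ hs0.ne'⟩
  have hc : Real.cosh (Real.arsinh s) = (n + 1) / 2 := by
    rw [Real.cosh_arsinh, hs, add_sub_cancel, Real.sqrt_sq (by positivity)]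
  have hM : ∀ y : Pl, (r • ((cat n : Pl →L[ℝ] Pl) - (((n : ℝ) + 1) / 2) •
      ContinuousLinearMap.id ℝ Pl)) y =
        (r * (n * y.1 + y.2 - (n + 1) / 2 * y.1), r * ((n - 1) * y.1 + y.2 - (n + 1) / 2 * y.2)) :=
    fun y => rfl
  refine ⟨r • ((cat n : Pl →L[ℝ] Pl) - (((n : ℝ) + 1) / 2) • ContinuousLinearMap.id ℝ Pl),
    Real.arsinh s, fun y => ?_, fun u v => ?_, fun y => ?_⟩
  · rw [hM, hM]
    refine Prod.ext ?_ ?_
    · change r * (n * (r * (n * y.1 + y.2 - (n + 1) / 2 * y.1)) +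
        r * ((n - 1) * y.1 + y.2 - (n + 1) / 2 * y.2) -
          (n + 1) / 2 * (r * (n * y.1 + y.2 - (n + 1) / 2 * y.1))) = y.1
      linear_combination (y.1 * (r * s + 1)) * hr - (r ^ 2 * y.1) * hs
    · change r * ((n - 1) * (r * (n * y.1 + y.2 - (n + 1) / 2 * y.1)) +
        r * ((n - 1) * y.1 + y.2 - (n + 1) / 2 * y.2) -
          (n + 1) / 2 * (r * ((n - 1) * y.1 + y.2 - (n + 1) / 2 * y.2))) = y.2
      linear_combination (y.2 * (r * s + 1)) * hr - (r ^ 2 * y.2) * hs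
  · rw [hM, hM]
    simp only [ar]
    ring
  · rw [hM, hc, Real.sinh_arsinh, cat_apply]
    refine Prod.ext ?_ ?_
    · change (n + 1) / 2 * y.1 + s * (r * (n * y.1 + y.2 - (n + 1) / 2 * y.1)) = n * y.1 + y.2
      linear_combination (n * y.1 + y.2 - (n + 1) / 2 * y.1) * hr
    · change (n + 1) / 2 * y.2 + s * (r * ((n - 1) * y.1 + y.2 - (n + 1) / 2 * y.2)) =
        (n - 1) * y.1 + y.2
      linear_combination ((n - 1) * y.1 + y.2 - (n + 1) / 2 * y.2) * hr

theorem loop_FrG (h : Fr Γ B) (hγ : γ ∈ Γ) :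
    ∃ x0 : ℝ → E, ContDiff ℝ ∞ x0 ∧ ∀ t, x0 (t + 1) = γ (x0 t) := by
  refine ⟨fun t => (γ ^ ⌊t⌋) (Real.smoothTransition (3 * Int.fract t - 1) • γ 0), ?_, fun t => ?_⟩
  · refine contDiff_iff_contDiffAt.2 fun t₀ => ?_
    have h1 : ContDiff ℝ ∞ fun t : ℝ =>
        (γ ^ ⌊t₀⌋) (Real.smoothTransition (3 * (t - ⌊t₀⌋) - 1) • γ 0) :=
      (h.contDiff (zpow_mem hγ _)).comp ((Real.smoothTransition.contDiff.comp
        ((contDiff_const.mul (contDiff_id.sub contDiff_const)).sub contDiff_const)).smul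
          contDiff_const)
    refine h1.contDiffAt.congr_of_eventuallyEq ?_
    have h2 : Ioo ((⌊t₀⌋ : ℝ) - 1 / 3) (⌊t₀⌋ + 1) ∈ 𝓝 t₀ :=
      Ioo_mem_nhds (by linarith [Int.floor_le t₀]) (Int.lt_floor_add_one t₀)
    filter_upwards [h2] with t ht
    rcases le_or_gt (⌊t₀⌋ : ℝ) t with h3 | h3
    · have h4 : ⌊t⌋ = ⌊t₀⌋ := Int.floor_eq_iff.2 ⟨h3, ht.2⟩
      rw [Int.fract, h4]
    · have h4 : ⌊t⌋ = ⌊t₀⌋ - 1 := by
        refine Int.floor_eq_iff.2 ⟨?_, ?_⟩
        · push_cast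
          linarith [ht.1]
        · push_cast
          linarith
      rw [Int.fract, h4, Real.smoothTransition.one_of_one_le (by push_cast; linarith [ht.1]),
        Real.smoothTransition.zero_of_nonpos (by linarith), one_smul, zero_smul,
        ← Equiv.Perm.mul_apply, ← zpow_add_one, sub_add_cancel]
  · simp only [Int.floor_add_one, Int.fract_add_one]
    rw [add_comm, zpow_one_add, Equiv.Perm.mul_apply]

theorem om_ext_FrG {u v : E} (e : ∀ w, om u w = om v w) : u = v := by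
  have h1 := e ((0, 1), 0, 0)
  have h2 := e ((1, 0), 0, 0)
  have h3 := e (0, (0, 1), 0)
  have h4 := e (0, (1, 0), 0)
  have h5 := e (0, 0, (0, 1))
  have h6 := e (0, 0, (1, 0))
  simp only [om, ar, Prod.fst_zero, Prod.snd_zero, mul_zero, mul_one, sub_zero, add_zero, zero_add,
    zero_sub, neg_inj] at h1 h2 h3 h4 h5 h6
  exact Prod.ext (Prod.ext h1 h2) (Prod.ext (Prod.ext h3 h4) (Prod.ext h5 h6))

theorem SP.contDiff_FrG {F : Type} [NormedAddCommGroup F] [NormedSpace ℝ F] {f : ℝ → E → F}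
    (hf : SP f) (t : ℝ) : ContDiff ℝ ∞ (f t) :=
  hf.1.comp (contDiff_const.prodMk contDiff_id)

theorem SP.diff_FrG {F : Type} [NormedAddCommGroup F] [NormedSpace ℝ F] {f : ℝ → E → F}
    (hf : SP f) (t : ℝ) : Differentiable ℝ (f t) :=
  (hf.contDiff_FrG t).differentiable (by simp)

theorem exists_fr {n : ℕ} (hn : 2 ≤ n) : ∃ B, Fr (Gam n) B := by
  obtain ⟨M, μ, hM, ha, hc⟩ := flow_FrG hn
  let b : ℝ → Pl → Pl := fun a y => Real.cosh (a * μ) • y + Real.sinh (a * μ) • M y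
  let B : ℝ → E →L[ℝ] E := fun a =>
    (ContinuousLinearMap.id ℝ Pl).prodMap ((ContinuousLinearMap.id ℝ Pl).prodMap 0) +
      Real.cosh (a * μ) • (0 : Pl →L[ℝ] Pl).prodMap
        ((0 : Pl →L[ℝ] Pl).prodMap (ContinuousLinearMap.id ℝ Pl)) +
      Real.sinh (a * μ) • (0 : Pl →L[ℝ] Pl).prodMap ((0 : Pl →L[ℝ] Pl).prodMap M)
  have hB : ∀ a v, B a v = (v.1, v.2.1, b a v.2.2) := fun a v => by
    refine Prod.ext ?_ (Prod.ext ?_ ?_) <;> simp [B, b]
  have hb0 : ∀ y, b 0 y = y := fun y => by simp [b]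
  have hb1 : ∀ y, b 1 y = cat n y := fun y => by
    simp only [b, one_mul]
    exact hc y
  have hbadd : ∀ a a' y, b (a + a') y = b a (b a' y) := fun a a' y => by
    simp only [b, add_mul, Real.cosh_add, Real.sinh_add, map_add, map_smul, hM]
    module
  have hbm : ∀ (m : ℤ) y, b m y = (cat n ^ m) y := fun m => by
    induction m using Int.induction_on with
    | zero =>
      intro y
      rw [Int.cast_zero, hb0]
      rfl
    | succ m ih =>
      intro y
      rw [Int.cast_add, Int.cast_one, hbadd, hb1, ih, cat_zpow_add, zpow_one]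
    | pred m ih =>
      intro y
      obtain ⟨y, rfl⟩ := (cat n).surjective y
      have e := ih y
      rw [← sub_add_cancel (-(m : ℤ)) 1, Int.cast_add, Int.cast_one, hbadd, hb1, cat_zpow_add,
        zpow_one] at e
      exact e
  have hsm : ContDiff ℝ ∞ fun a : ℝ => a * μ := contDiff_id.mul contDiff_const
  refine ⟨B, good_gam n, ?_, fun v => by rw [hB, hb0], fun a a' v => by
    rw [hB, hB, hB, hbadd], fun a u v => ?_, fun a v => by rw [hB]; exact ⟨rfl, rfl⟩, ?_⟩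
  · exact (contDiff_const.add ((Real.contDiff_cosh.comp hsm).smul contDiff_const)).add
      ((Real.contDiff_sinh.comp hsm).smul contDiff_const)
  · rw [hB, hB]
    have e1 := ha u.2.2 v.2.2
    have e2 := ha u.2.2 (M v.2.2)
    rw [hM] at e2
    have e3 := Real.cosh_sq (a * μ)
    simp only [om, ar, b, Prod.fst_add, Prod.snd_add, Prod.smul_fst, Prod.smul_snd,
      smul_eq_mul] at e1 e2 ⊢
    linear_combination (Real.cosh (a * μ) * Real.sinh (a * μ)) * e1 + Real.sinh (a * μ) ^ 2 * e2 +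
      (u.2.2.1 * v.2.2.2 - u.2.2.2 * v.2.2.1) * e3
  · rintro γ ⟨m, l, -, h2, h3⟩
    refine ⟨m, fun v => ?_, fun z => ?_⟩
    · rw [lin, h3, h3, hB, hbm, add_sub_add_right_eq_sub]
      refine Prod.ext ?_ (Prod.ext ?_ ?_) <;> simp
    · have hπ := Real.pi_pos
      rw [tau, tau, h3]
      simp only [Prod.fst_add, Prod.snd_add, h2]
      field_simp
      ring

theorem Fr.chart (h : Fr Γ B) (hγ : γ ∈ Γ) : Nonempty (Ch γ) := by
  obtain ⟨m, hm, -⟩ := h.wind γ hγ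
  obtain ⟨x0, hx0, htw⟩ := loop_FrG h hγ
  have hsm : ContDiff ℝ ∞ fun t : ℝ => (m : ℝ) * t := contDiff_const.mul contDiff_id
  refine ⟨⟨x0, fun t => (B (m * t)).comp (e6 : V6 →L[ℝ] E),
    fun t => (e6.symm : E →L[ℝ] V6).comp (B (-(m * t))), hx0,
    (h.smooth.comp hsm).clm_comp contDiff_const,
    contDiff_const.clm_comp (h.smooth.comp hsm.neg), fun t v => ?_, fun t v => ?_,
    form_Ω0, form_om, fun t u v => ?_, aff_one, h.aff hγ, fun t z => ?_⟩⟩
  · change B (m * t) (e6 (e6.symm (B (-(m * t)) v))) = v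
    rw [e6.apply_symm_apply, ← h.add, add_neg_cancel, h.zero]
  · change e6.symm (B (-(m * t)) (B (m * t) (e6 v))) = v
    rw [← h.add, neg_add_cancel, h.zero, e6.symm_apply_apply]
  · change om (B (m * t) (e6 u)) (B (m * t) (e6 v)) = _
    rw [h.symp, om_e6]
  · change x0 (t + 1) + B (m * (t + 1)) (e6 z) = γ (x0 t + B (m * t) (e6 z))
    rw [(h.aff hγ).map_add, htw, hm, ← h.add, mul_add, mul_one, add_comm (m : ℝ)]

theorem om_ham (H : ℝ → E → ℝ) (t : ℝ) (z v : E) : om (ham H t z) v = fderiv ℝ (H t) z v := by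
  have e : v = v.1.1 • (((1, 0), 0, 0) : E) + v.1.2 • (((0, 1), 0, 0) : E) +
      v.2.1.1 • ((0, (1, 0), 0) : E) + v.2.1.2 • ((0, (0, 1), 0) : E) +
      v.2.2.1 • ((0, 0, (1, 0)) : E) + v.2.2.2 • ((0, 0, (0, 1)) : E) := by
    ext <;> simp
  have e' := congrArg (fderiv ℝ (H t) z) e
  simp only [map_add, map_smul, smul_eq_mul] at e'
  rw [e']
  simp only [om, ar, ham]
  ring

theorem eq_ham {t : ℝ} {z v : E} (e : ∀ v', om v v' = fderiv ℝ (H t) z v') : v = ham H t z :=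
  om_ext_FrG fun w => by rw [e, om_ham]

theorem contDiff_ham (hH : ContDiff ℝ ∞ fun q : ℝ × E => H q.1 q.2) :
    ContDiff ℝ ∞ fun q : ℝ × E => ham H q.1 q.2 := by
  have h1 : ContDiff ℝ ∞ fun q : ℝ × E => fderiv ℝ (H q.1) q.2 :=
    ContDiff.fderiv (f := fun q : ℝ × E => H q.1) (g := fun q : ℝ × E => q.2) (m := ∞)
      (hH.comp (contDiff_fst.fst.prodMk contDiff_snd)) contDiff_snd (by simp)
  have h2 : ∀ v : E, ContDiff ℝ ∞ fun q : ℝ × E => fderiv ℝ (H q.1) q.2 v :=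
    fun v => h1.clm_apply contDiff_const
  exact ((h2 _).prodMk (h2 _).neg).prodMk
    (((h2 _).prodMk (h2 _).neg).prodMk ((h2 _).prodMk (h2 _).neg))

theorem IH.iy (h : Fr Γ B) (hH : IH Γ H) : IY Γ (ham H) := by
  refine ⟨⟨contDiff_ham hH.1.1, fun t => ?_⟩, fun t g hg z => ?_⟩
  · funext z
    simp only [ham, hH.1.2 t]
  · obtain ⟨m, hm, -⟩ := h.wind g hg
    refine (eq_ham fun w => ?_).symm
    have e1 : w = B m (B (-m) w) := by rw [← h.add, add_neg_cancel, h.zero]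
    have e2 : HasFDerivAt g (B m) z := by
      have e3 : (g : E → E) = fun v => B m v + g 0 := funext fun v => by
        rw [← hm, lin, sub_add_cancel]
      rw [e3]
      exact (B m).hasFDerivAt.add_const _
    have e4 := ((hH.1.diff_FrG t (g z)).hasFDerivAt.comp z e2).fderiv
    have e5 : H t ∘ g = H t := funext fun v => hH.2 g hg t v
    rw [e5] at e4
    rw [hm, e1, h.symp, om_ham, e4]
    rfl

theorem ham_symp (hH : SP H) (t : ℝ) (z u v : E) :
    om (fderiv ℝ (ham H t) z u) v + om u (fderiv ℝ (ham H t) z v) = 0 := by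
  obtain ⟨β, hβ, -⟩ := form_om
  have h1 : Differentiable ℝ (ham H t) :=
    ((contDiff_ham hH.1).comp (contDiff_const.prodMk contDiff_id)).differentiable (by simp)
  have h2 : Differentiable ℝ (fderiv ℝ (H t)) :=
    ((hH.contDiff_FrG t).fderiv_right (m := ∞) (by simp)).differentiable (by simp)
  have key : ∀ a b, om (fderiv ℝ (ham H t) z a) b = fderiv ℝ (fderiv ℝ (H t)) z a b := by
    intro a b
    have e1 := (β.flip b).hasFDerivAt.comp z (h1 z).hasFDerivAt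
    have e2 := (ContinuousLinearMap.apply ℝ ℝ b).hasFDerivAt.comp z (h2 z).hasFDerivAt
    have e3 : β.flip b ∘ ham H t = ContinuousLinearMap.apply ℝ ℝ b ∘ fderiv ℝ (H t) :=
      funext fun z' => (hβ _ _).symm.trans (om_ham H t z' b)
    rw [e3] at e1
    exact (hβ _ _).trans (DFunLike.congr_fun (e1.unique e2) a)
  have h3 : IsSymmSndFDerivAt ℝ (H t) z :=
    (hH.contDiff_FrG t).contDiffAt.isSymmSndFDerivAt (by
      rw [minSmoothness_of_isRCLikeNormedField]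
      exact WithTop.coe_le_coe.2 le_top)
  rw [form_om.anti u, key, key, h3.eq u v, add_neg_cancel]

theorem IH.endF (h : Fr Γ B) (hH : IH Γ H) (nd : NdH Γ H) : EndF om Γ (ham H) :=
  ⟨hH.iy h, fun γ hγ x hx => ⟨hx, fun t u v => ham_symp hH.1 t (x t) u v, nd γ hγ x hx⟩⟩

theorem Reg.ij (h : Reg Γ H J) : IJ om Γ J :=
  ⟨⟨⟨h.smooth.snd, fun t => (h.per t).2⟩, h.cpt⟩, fun g hg t z v => (h.inv g hg t z).2 v⟩

theorem Reg.ih (h : Reg Γ H J) : IH Γ H :=
  ⟨⟨h.smooth.fst, fun t => (h.per t).1⟩, fun g hg t z => (h.inv g hg t z).1⟩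

theorem IH.mix (hH : IH Γ H) (hG : IH Γ G) (β : ℝ) : IH Γ (mix H G β) := by
  refine ⟨⟨hH.1.1.add (contDiff_const.mul (hG.1.1.sub hH.1.1)), fun t => ?_⟩, fun g hg t z => ?_⟩
  · funext z
    simp only [FH.mix, hH.1.2 t, hG.1.2 t]
  · simp only [FH.mix, hH.2 g hg, hG.2 g hg]

theorem ham_mix (hH : SP H) (hG : SP G) (β t : ℝ) (z : E) :
    ham (mix H G β) t z = ham H t z + β • (ham G t z - ham H t z) := by
  have e : HasFDerivAt (mix H G β t)
      (fderiv ℝ (H t) z + β • (fderiv ℝ (G t) z - fderiv ℝ (H t) z)) z :=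
    (hH.diff_FrG t z).hasFDerivAt.add
      (((hG.diff_FrG t z).hasFDerivAt.sub (hH.diff_FrG t z).hasFDerivAt).const_mul β)
  refine (eq_ham fun w => ?_).symm
  obtain ⟨b, hb, -⟩ := form_om
  rw [e.fderiv, hb]
  simp only [map_add, map_smul, map_sub, add_apply, smul_apply, sub_apply, ← hb, om_ham]

theorem IY.add (h : Fr Γ B) (hY : IY Γ Y) (hY' : IY Γ Y') : IY Γ (Y + Y') := by
  refine ⟨⟨hY.1.1.add hY'.1.1, fun t => ?_⟩, fun t g hg z => ?_⟩
  · simp only [Pi.add_apply, hY.1.2 t, hY'.1.2 t]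
  · obtain ⟨L, hL⟩ := h.aff hg
    simp only [Pi.add_apply, hY.2 t g hg z, hY'.2 t g hg z, hL, map_add]

theorem IY.smul (h : Fr Γ B) (hY : IY Γ Y) (r : ℝ) : IY Γ (r • Y) := by
  refine ⟨⟨hY.1.1.const_smul r, fun t => ?_⟩, fun t g hg z => ?_⟩
  · simp only [Pi.smul_apply, hY.1.2 t]
  · obtain ⟨L, hL⟩ := h.aff hg
    simp only [Pi.smul_apply, hY.2 t g hg z, hL, map_smul]

theorem iy_zero (h : Fr Γ B) : IY Γ (0 : ℝ → E → E) :=
  ⟨⟨contDiff_const, fun _ => rfl⟩, fun _ g _ _ => (sub_self (g 0)).symm⟩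

theorem IJ.diff (hJ : IJ om Γ J) (t : ℝ) : Differentiable ℝ (J t) := hJ.1.1.diff_FrG t

theorem IY.diff (hY : IY Γ Y) (t : ℝ) : Differentiable ℝ (Y t) := hY.1.diff_FrG t

end

end Pool.Agent.P.MP_de3acd_gt.FH
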