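import Pool.Agent.P.MP_de3acd_gt.FH.Sob
import Pool.Agent.P.MP_de3acd_gt.FH.Mul

/-! Rellich compactness and separability.
Sketch: rellich: restrict fn (ξ n) to the compact K = Icc (-R) R ×ˢ Icc 0 1; sob gives a uniform bound and a uniform
Hoelder bound, BoundedContinuousFunction.arzela_ascoli (or ArzelaAscoli for C(K, U)) gives a uniformly Cauchy
subsequence. ‖sc 0 χ (to0 2 ζ)‖^2 ≤ C sup_K ‖fn ζ‖^2: true for test functions and, in the form
‖sc 0 χ (to0 2 ζ)‖ ≤ C (ε + δ) for a test function δ-close to ζ, passes to the limit.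
separable: φ ↦ co k φ; induct on k: W (k+1) embeds isometrically (norm_sq_succ) into W 0 × W k × W k, a subset of a
second countable space is second countable; for k = 0, DD 0 U maps isometrically to Lp U 2 (volume.restrict St), which is
second countable (Lp.SecondCountableTopology); pull back a countable dense subset of the range. -/

open Set Filter Topology MeasureTheory
open scoped ContDiff NNReal ENNReal RealInnerProductSpace

namespace Pool.Agent.P.MP_de3acd_gt.FH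

noncomputable section

variable {U U₁ U₂ : Type} [NormedAddCommGroup U] [InnerProductSpace ℝ U] [NormedAddCommGroup U₁]
  [InnerProductSpace ℝ U₁] [NormedAddCommGroup U₂] [InnerProductSpace ℝ U₂]

variable [FiniteDimensional ℝ U]

open scoped BoundedContinuousFunction in
/-- Restriction to a compact piece of the strip. -/
def rs_Rell (R : ℝ) (ζ : W 2 U) : (Icc (-R) R ×ˢ Icc (0 : ℝ) 1 : Set Pl) →ᵇ U :=
  haveI := FiniteDimensional.complete ℝ U
  haveI : CompactSpace (Icc (-R) R ×ˢ Icc (0 : ℝ) 1 : Set Pl) :=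
    isCompact_iff_compactSpace.1 (isCompact_Icc.prod isCompact_Icc)
  BoundedContinuousFunction.mkOfCompact
    ⟨fun p => fn ζ p, (continuous_fn ζ).comp continuous_subtype_val⟩

theorem rs_apply_Rell (R : ℝ) (ζ : W 2 U) (p : (Icc (-R) R ×ˢ Icc (0 : ℝ) 1 : Set Pl)) :
    rs_Rell R ζ p = fn ζ p := rfl

theorem rs_sub_Rell (R : ℝ) (ζ η : W 2 U) : rs_Rell R (ζ - η) = rs_Rell R ζ - rs_Rell R η := by
  have := FiniteDimensional.complete ℝ U
  ext1 p
  exact congrFun (fn_sub ζ η) p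

theorem rs_cont_Rell (R : ℝ) : Continuous (rs_Rell R : W 2 U → _) := by
  have := FiniteDimensional.complete ℝ U
  obtain ⟨c, hc, h⟩ := sob (U := U)
  refine (LipschitzWith.of_dist_le_mul (K := ⟨c, hc.le⟩) fun ζ η => ?_).continuous
  rw [dist_eq_norm, dist_eq_norm, ← rs_sub_Rell]
  exact (BoundedContinuousFunction.norm_le (by positivity)).2 fun p => (h _ p p).1

theorem est_Rell {χ : Pl → ℝ} (hχ : χ ∈ Dsub ℝ) {R : ℝ} (hR : ∀ p : Pl, R ≤ |p.1| → χ p = 0)
    (ζ : W 2 U) : ‖sc 0 χ (to0 2 ζ)‖ ≤ ‖co 0 ⟨χ, hχ⟩‖ * ‖rs_Rell R ζ‖ := by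
  have := FiniteDimensional.complete ℝ U
  refine W.induction (P := fun ζ : W 2 U => ‖sc 0 χ (to0 2 ζ)‖ ≤ ‖co 0 ⟨χ, hχ⟩‖ * ‖rs_Rell R ζ‖)
    (isClosed_le (by fun_prop) (continuous_const.mul (rs_cont_Rell R).norm)) (fun φ => ?_) ζ
  have hm := bil_mem hχ.1 hχ.2.1 φ.2 (ContinuousLinearMap.lsmul ℝ ℝ)
  rw [to0_co, sc_co (Nat.zero_le 2) (bdd_of_mem hχ) hχ.2.1 φ ⟨_, hm⟩ fun _ => rfl]
  refine (sq_le_sq₀ (norm_nonneg _) (by positivity)).1 ?_
  rw [mul_pow, norm_co_sq, norm_co_sq, ip_zero, ip_zero, ← integral_mul_const]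
  refine setIntegral_mono_on (integrableOn_inner hm hm.1.continuous)
    ((integrableOn_inner hχ hχ.1.continuous).mul_const _)
    (MeasurableSet.univ.prod measurableSet_Icc) fun p hp => ?_
  simp only [ContinuousLinearMap.lsmul_apply, real_inner_self_eq_norm_sq, norm_smul, mul_pow]
  by_cases h1 : R ≤ |p.1|
  · simp [hR p h1]
  · have h2 : p ∈ (Icc (-R) R ×ˢ Icc (0 : ℝ) 1 : Set Pl) :=
      ⟨⟨(abs_lt.1 (not_le.1 h1)).1.le, (abs_lt.1 (not_le.1 h1)).2.le⟩, hp.2⟩
    have h3 := (rs_Rell R (co 2 φ)).norm_coe_le_norm ⟨p, h2⟩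
    rw [rs_apply_Rell, fn_co] at h3
    exact mul_le_mul_of_nonneg_left (pow_le_pow_left₀ (norm_nonneg _) h3 2) (sq_nonneg _)

theorem rellich {χ : Pl → ℝ} (hχ : χ ∈ Dsub ℝ) (ξ : ℕ → W 2 U) {M : ℝ} (h : ∀ n, ‖ξ n‖ ≤ M) :
    ∃ φ : ℕ → ℕ, StrictMono φ ∧ CauchySeq fun n => sc 0 χ (to0 2 (ξ (φ n))) := by
  have := FiniteDimensional.complete ℝ U
  have := FiniteDimensional.proper_real U
  obtain ⟨R, hR⟩ := hχ.2.2
  have : CompactSpace (Icc (-R) R ×ˢ Icc (0 : ℝ) 1 : Set Pl) :=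
    isCompact_iff_compactSpace.1 (isCompact_Icc.prod isCompact_Icc)
  obtain ⟨c, hc, hs⟩ := sob (U := U)
  have hA := BoundedContinuousFunction.arzela_ascoli (Metric.closedBall (0 : U) (c * M))
    (isCompact_closedBall _ _) (range fun n => rs_Rell R (ξ n))
    (by
      rintro _ x ⟨n, rfl⟩
      exact mem_closedBall_zero_iff.2
        ((hs _ x x).1.trans (mul_le_mul_of_nonneg_left (h n) hc.le)))
    (by
      refine Metric.equicontinuous_of_continuity_modulus (fun r => c * M * √r) ?_ _ ?_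
      · have : Continuous fun r : ℝ => c * M * √r := by fun_prop
        simpa using this.tendsto 0
      · rintro x y ⟨_, n, rfl⟩
        rw [dist_eq_norm]
        exact (hs _ x y).2.trans (mul_le_mul_of_nonneg_right
          (mul_le_mul_of_nonneg_left (h n) hc.le) (Real.sqrt_nonneg _)))
  obtain ⟨g, -, φ, hφ, hg⟩ := hA.tendsto_subseq (x := fun n => rs_Rell R (ξ n))
    fun n => subset_closure (mem_range_self n)
  refine ⟨φ, hφ, Metric.cauchySeq_iff.2 fun ε hε => ?_⟩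
  have hC : 0 < ‖co 0 ⟨χ, hχ⟩‖ + 1 := by positivity
  obtain ⟨N, hN⟩ := Metric.cauchySeq_iff.1 hg.cauchySeq _ (div_pos hε hC)
  refine ⟨N, fun m hm n hn => ?_⟩
  have h1 := hN m hm n hn
  simp only [Function.comp_apply] at h1
  rw [dist_eq_norm, ← rs_sub_Rell, lt_div_iff₀ hC] at h1
  rw [dist_eq_norm, ← map_sub, ← map_sub]
  have h2 := est_Rell hχ hR (ξ (φ m) - ξ (φ n))
  nlinarith [norm_nonneg (rs_Rell R (ξ (φ m) - ξ (φ n)))]

theorem second_zero_Rell : SecondCountableTopology (W 0 U) := by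
  have := FiniteDimensional.complete ℝ U
  have := FiniteDimensional.proper_real U
  have : Fact ((2 : ℝ≥0∞) ≠ ⊤) := ⟨by simp⟩
  have hm : ∀ φ : Dsub U, MemLp φ.1 2 (volume.restrict St) := fun φ =>
    (nrm_zero_lt_top_iff φ.2.1.continuous).1 (nrm_lt_top_of_mem 0 φ.2)
  let f : Dsub U →ₗ[ℝ] Lp U 2 (volume.restrict St) :=
    { toFun := fun φ => (hm φ).toLp φ.1
      map_add' := fun φ ψ => MemLp.toLp_add (hm φ) (hm ψ)
      map_smul' := fun c φ => MemLp.toLp_const_smul c (hm φ) }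
  have hf : ∀ φ, ‖f φ‖ = ‖co 0 φ‖ := fun φ => by
    refine (sq_eq_sq₀ (norm_nonneg _) (norm_nonneg _)).1 ?_
    rw [norm_co_sq, ip_zero, ← real_inner_self_eq_norm_sq, L2.inner_def]
    refine integral_congr_ae ?_
    filter_upwards [(hm φ).coeFn_toLp] with p hp
    exact congrArg (fun v => ⟪v, v⟫) hp
  obtain ⟨T, hT, -⟩ := exists_ext 0 f zero_le_one fun φ => by rw [hf, one_mul]
  have hn : ∀ ξ, ‖T ξ‖ = ‖ξ‖ := W.induction (isClosed_eq (by fun_prop) (by fun_prop)) fun φ => by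
    rw [hT, hf]
  exact (AddMonoidHomClass.isometry_of_norm T hn).isEmbedding.secondCountableTopology

theorem second_Rell (k : ℕ) : SecondCountableTopology (W k U) := by
  induction k with
  | zero => exact second_zero_Rell
  | succ k ih =>
    have := second_zero_Rell (U := U)
    let T : W (k + 1) U →L[ℝ] W 0 U × W k U × W k U := (to0 (k + 1)).prod ((dS k).prod (dT k))
    have hT : AntilipschitzWith 2 T := by
      refine AddMonoidHomClass.antilipschitz_of_bound T fun ξ => ?_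
      have h1 : ‖to0 (k + 1) ξ‖ ≤ ‖T ξ‖ := norm_fst_le (T ξ)
      have h2 : ‖dS k ξ‖ ≤ ‖T ξ‖ := (norm_fst_le (T ξ).2).trans (norm_snd_le (T ξ))
      have h3 : ‖dT k ξ‖ ≤ ‖T ξ‖ := (norm_snd_le (T ξ).2).trans (norm_snd_le (T ξ))
      refine (sq_le_sq₀ (norm_nonneg _) (by positivity)).1 ?_
      have e1 := pow_le_pow_left₀ (norm_nonneg _) h1 2
      have e2 := pow_le_pow_left₀ (norm_nonneg _) h2 2
      have e3 := pow_le_pow_left₀ (norm_nonneg _) h3 2
      rw [norm_sq_succ, NNReal.coe_ofNat]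
      nlinarith [sq_nonneg ‖T ξ‖]
    exact (hT.isInducing T.continuous).secondCountableTopology

instance separable_W (k : ℕ) : TopologicalSpace.SeparableSpace (W k U) :=
  haveI := second_Rell (U := U) k
  inferInstance

end

end Pool.Agent.P.MP_de3acd_gt.FH
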