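import Pool.Agent.P.MP_de3acd_gt.FH.LaxM
import Pool.Agent.P.MP_de3acd_gt.FH.Rell
import Pool.Agent.P.MP_de3acd_gt.FH.Idx

/-! The Fredholm alternative for elliptic operators with invertible ends.
Sketch: semi_est, rellich, semiFred for D = Dop 1 σ j S and D' = Dop 1 (-σ) (adJ j) (adS j S) (Ell.adj).
Forward direction: inner_Dop₁. Backward: N = {ψ | ∀ ζ ∈ ker D', ⟪to0 ψ, to0 ζ⟫ = 0} is closed and meets ker D' in 0
(to0_injective), so ‖ψ‖ ≤ c ‖D' ψ‖ on N. For ε > 0 take ψ from laxM with right side inc 0 η. Pairing with ζ gives ψ ∈ N.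
Pairing with ψ: ‖inc D' ψ‖^2 + ε ‖to0 ψ‖^2 = ⟪η, ψ⟫, so ε ‖to0 ψ‖ ≤ ‖η‖ and ‖inc D' ψ‖^2 ≤ ‖η‖ ‖ψ‖; est1 for D' ψ gives
‖D' ψ‖ ≤ c (2‖η‖ + sqrt (‖η‖ ‖ψ‖)), so ‖ψ‖ ≤ C uniformly in ε. reg1 applied to D' ψ: η - ε inc 1 ψ ∈ range D. Let ε → 0,
closed range. -/

open Set Filter Topology MeasureTheory
open scoped ContDiff NNReal ENNReal RealInnerProductSpace

namespace Pool.Agent.P.MP_de3acd_gt.FH

noncomputable section

variable {V : Type} [NormedAddCommGroup V] [InnerProductSpace ℝ V] [Sym V]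

variable {σ : ℝ} {j S : Pl → V →L[ℝ] V}

theorem semi_Fred (h : Ell σ j S) : FiniteDimensional ℝ (Dop 1 σ j S).ker ∧
    IsClosed (range (Dop 1 σ j S)) ∧ ∀ N : Submodule ℝ (W 2 V), IsClosed (N : Set (W 2 V)) →
      (∀ x ∈ N, Dop 1 σ j S x = 0 → x = 0) → ∃ c' > 0, ∀ x ∈ N, ‖x‖ ≤ c' * ‖Dop 1 σ j S x‖ := by
  obtain ⟨χ, hχ, c, -, hc⟩ := semi_est h.toCoef h.est
  exact semiFred (K := (sc 0 χ).comp (to0 2)) hc fun x M hx => rellich hχ x hx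

theorem Ell.finiteDimensional (h : Ell σ j S) : FiniteDimensional ℝ (Dop 1 σ j S).ker :=
  (semi_Fred h).1

theorem bound_Fred {n a e K : ℝ} (hn : 0 ≤ n) (he : 0 ≤ e) (h1 : a ^ 2 ≤ e * n)
    (h2 : n ≤ K * (2 * e + a)) : n ≤ 4 * K * e + K ^ 2 * e := by
  have h3 : K * a ≤ (K ^ 2 * e + n) / 2 := by
    refine (abs_le_of_sq_le_sq' ?_ (by positivity)).2
    have h4 := mul_le_mul_of_nonneg_left h1 (sq_nonneg K)
    nlinarith [sq_nonneg (K ^ 2 * e - n)]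
  nlinarith

theorem approx_Fred (h : Ell σ j S) (η : W 1 V)
    (hη : ∀ ζ : W 2 V, Dop 1 (-σ) (adJ j) (adS j S) ζ = 0 → ⟪to0 1 η, to0 2 ζ⟫ = 0) :
    ∃ C, ∀ ε > 0, ∃ ζ, ‖η - Dop 1 σ j S ζ‖ ≤ ε * C := by
  let N : Submodule ℝ (W 2 V) :=
    { carrier := {ψ | ∀ ζ : W 2 V, Dop 1 (-σ) (adJ j) (adS j S) ζ = 0 → ⟪to0 2 ψ, to0 2 ζ⟫ = 0}
      zero_mem' := fun ζ _ => by rw [map_zero, inner_zero_left]
      add_mem' := fun {a b} ha hb ζ hζ => by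
        rw [map_add, inner_add_left, ha ζ hζ, hb ζ hζ, add_zero]
      smul_mem' := fun r a ha ζ hζ => by rw [map_smul, real_inner_smul_left, ha ζ hζ, mul_zero] }
  have hN : IsClosed (N : Set (W 2 V)) := by
    have e : (N : Set (W 2 V)) = ⋂ (ζ : W 2 V) (_ : Dop 1 (-σ) (adJ j) (adS j S) ζ = 0),
        {ψ | ⟪to0 2 ψ, to0 2 ζ⟫ = 0} := by
      ext ψ
      simp only [mem_iInter]
      rfl
    rw [e]
    exact isClosed_iInter fun ζ => isClosed_iInter fun _ =>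
      isClosed_eq (by fun_prop) continuous_const
  obtain ⟨c', hc', h1⟩ := (semi_Fred h.adj).2.2 N hN fun x hx e =>
    to0_injective 2 ((inner_self_eq_zero.1 (hx x e)).trans (map_zero _).symm)
  obtain ⟨c, hc, h2⟩ := est1 h.toCoef
  refine ⟨4 * (c' * c) * ‖η‖ + (c' * c) ^ 2 * ‖η‖, fun ε hε => ?_⟩
  obtain ⟨ψ, hψ⟩ := laxM h.toCoef hε (inc 0 η)
  have key : ∀ ζ : W 2 V, ⟪inc 0 (Dop 1 (-σ) (adJ j) (adS j S) ψ),
      inc 0 (Dop 1 (-σ) (adJ j) (adS j S) ζ)⟫ + ε * ⟪to0 2 ψ, to0 2 ζ⟫ = ⟪inc 0 η, to0 2 ζ⟫ := by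
    intro ζ
    rw [← hψ, inner_add_left, real_inner_smul_left, inc_Dop _ _ _ ζ, ← inner_Dop h.toCoef]
    rfl
  have hψN : ψ ∈ N := fun ζ hζ => by
    have h3 := key ζ
    have h4 : ⟪inc 0 η, to0 2 ζ⟫ = 0 := hη ζ hζ
    rw [hζ, map_zero, inner_zero_right, zero_add, h4] at h3
    exact (mul_eq_zero.1 h3).resolve_left hε.ne'
  have h3 := key ψ
  rw [real_inner_self_eq_norm_sq, real_inner_self_eq_norm_sq] at h3
  have h4 : ⟪inc 0 η, to0 2 ψ⟫ ≤ ‖η‖ * ‖to0 2 ψ‖ := (real_inner_le_norm _ _).trans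
    (mul_le_mul_of_nonneg_right (norm_inc_le 0 η) (norm_nonneg _))
  have h5 : ε * ‖to0 2 ψ‖ ≤ ‖η‖ := by
    rcases (norm_nonneg (to0 2 ψ)).eq_or_lt with h0 | h0
    · rw [← h0, mul_zero]
      exact norm_nonneg _
    · refine le_of_mul_le_mul_right ?_ h0
      nlinarith [sq_nonneg ‖inc 0 (Dop 1 (-σ) (adJ j) (adS j S) ψ)‖]
  have h6 : ‖inc 0 (Dop 1 (-σ) (adJ j) (adS j S) ψ)‖ ^ 2 ≤ ‖η‖ * ‖ψ‖ := by
    have h7 := mul_le_mul_of_nonneg_left (norm_to0_le 2 ψ) (norm_nonneg η)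
    have h8 : 0 ≤ ε * ‖to0 2 ψ‖ ^ 2 := by positivity
    linarith
  have h7 : Dop 0 σ j S (Dop 1 (-σ) (adJ j) (adS j S) ψ) = inc 0 (η - ε • inc 1 ψ) := by
    rw [map_sub, map_smul, ← hψ]
    exact (add_sub_cancel_right _ _).symm
  have h8 : ‖Dop 0 σ j S (Dop 1 (-σ) (adJ j) (adS j S) ψ)‖ ≤ 2 * ‖η‖ := by
    rw [eq_sub_of_add_eq hψ]
    refine (norm_sub_le _ _).trans ?_
    rw [norm_smul, Real.norm_of_nonneg hε.le]
    linarith [norm_inc_le 0 η]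
  have h9 : ‖ψ‖ ≤ 4 * (c' * c) * ‖η‖ + (c' * c) ^ 2 * ‖η‖ := by
    refine bound_Fred (norm_nonneg _) (norm_nonneg _) h6 ((h1 ψ hψN).trans ?_)
    rw [mul_assoc]
    refine mul_le_mul_of_nonneg_left ((h2 _).trans ?_) hc'.le
    exact mul_le_mul_of_nonneg_left (add_le_add h8 le_rfl) hc.le
  obtain ⟨ζ, -, hζ⟩ := reg1 h.toCoef h7
  refine ⟨ζ, ?_⟩
  rw [hζ, sub_sub_cancel, norm_smul, Real.norm_of_nonneg hε.le]
  exact mul_le_mul_of_nonneg_left ((norm_inc_le 1 ψ).trans h9) hε.le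

theorem Ell.mem_range_iff (h : Ell σ j S) (η : W 1 V) : η ∈ range (Dop 1 σ j S) ↔
    ∀ ζ : W 2 V, Dop 1 (-σ) (adJ j) (adS j S) ζ = 0 → ⟪to0 1 η, to0 2 ζ⟫ = 0 := by
  constructor
  · rintro ⟨ξ, rfl⟩ ζ hζ
    rw [inner_Dop₁ h.toCoef, hζ, map_zero, inner_zero_right]
  · intro hη
    obtain ⟨C, hC⟩ := approx_Fred h η hη
    rw [← (semi_Fred h).2.1.closure_eq, Metric.mem_closure_iff]
    intro ε hε
    have h1 : 0 < |C| + 1 := by positivity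
    obtain ⟨ζ, hζ⟩ := hC _ (div_pos hε h1)
    refine ⟨_, mem_range_self ζ, ?_⟩
    rw [dist_eq_norm]
    refine hζ.trans_lt ?_
    rw [div_mul_eq_mul_div, div_lt_iff₀ h1]
    exact mul_lt_mul_of_pos_left ((le_abs_self C).trans_lt (lt_add_one _)) hε

theorem inj_Fred (h : Coef σ j S) {c : ℝ≥0}
    (e : ∀ φ ∈ Dsub V, nrm 1 φ univ ≤ c * nrm 0 (dop σ j S φ) univ) (ξ : W 2 V)
    (h0 : Dop 1 σ j S ξ = 0) : ξ = 0 := by
  have h1 : ∀ ξ : W 1 V, ‖ξ‖ ^ 2 ≤ c * ‖Dop 0 σ j S ξ‖ ^ 2 := by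
    refine W.induction (isClosed_le (by fun_prop) (by fun_prop)) fun φ => ?_
    have h2 := e φ.1 φ.2
    rw [nrm_co 1 φ, nrm_co 0 ⟨_, dop_mem h φ.2⟩, ← Dop_co zero_le_one h φ,
      ← ENNReal.ofReal_coe_nnreal, ← ENNReal.ofReal_mul c.coe_nonneg] at h2
    exact (ENNReal.ofReal_le_ofReal_iff (by positivity)).1 h2
  have h2 := h1 (inc 1 ξ)
  rw [← inc_Dop, h0, map_zero, norm_zero] at h2
  have h3 : ‖inc 1 ξ‖ = 0 := by nlinarith [norm_nonneg (inc 1 ξ)]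
  exact inc_injective 1 ((norm_eq_zero.1 h3).trans (map_zero _).symm)

/-- Global estimates for the operator and its adjoint give invertibility. -/
theorem bijective_of_est (h : Coef σ j S) {c : ℝ≥0} (e : ∀ φ ∈ Dsub V,
    nrm 1 φ univ ≤ c * nrm 0 (dop σ j S φ) univ ∧
      nrm 1 φ univ ≤ c * nrm 0 (dop (-σ) (adJ j) (adS j S) φ) univ) :
    Ell σ j S ∧ Function.Bijective (Dop 1 σ j S) := by
  have hE : Ell σ j S := ⟨h, ⟨0, c, fun φ hφ _ => (e φ hφ).1⟩, ⟨0, c, fun φ hφ _ => (e φ hφ).2⟩⟩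
  refine ⟨hE, (injective_iff_map_eq_zero _).2 (inj_Fred h fun φ hφ => (e φ hφ).1), fun η => ?_⟩
  refine (hE.mem_range_iff η).2 fun ζ hζ => ?_
  rw [inj_Fred h.adj (fun φ hφ => (e φ hφ).2) ζ hζ, map_zero, inner_zero_right]

end

end Pool.Agent.P.MP_de3acd_gt.FH
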