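import Pool.Agent.P.MP_de3acd_gt.FH.RegNl
import Pool.Agent.P.MP_de3acd_gt.FH.Defs4

/-! Nonlinear gluing: existence and uniqueness near approximate solutions.
Sketch: exists_F_unif gives L and Φ n with IsF at the base w n. Ψ n (ζ, r) = (Φ n (ζ, r), prW (l n) ζ + m (r - r₀)) on W 2 V × ℝ has
derivative (fderiv (Φ n) q).prod (const), Lipschitz with the same L on closedBall (0, r₀) 1. At q = (toW 2 (u - w n), r) for a path u
(Pth.nrm_sub, rep_toW, Rep.nrm_eq) the derivative is frm (Du J (X n r) u) ![kr ..] ![l n] ![![m]] up to the isometric identification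
ℝ ≃ (Fin 1 → ℝ) (IsF.d1_eq, IsF.rep_d2, Rep.toW_eq, coef_fld, frm_apply). newton with ε small. The Newton solution q is smooth: the frame
![kr J (X n) r₀ (w n)], ![l n], m for d1 (Φ n) q differs from fderiv (Ψ n) q by at most L ε, Bij.perturb, IsF.nice; Rep.prW. -/

open Set Filter Topology MeasureTheory
open scoped ContDiff NNReal ENNReal RealInnerProductSpace

namespace Pool.Agent.P.MP_de3acd_gt.FH

noncomputable section

variable {V : Type} [NormedAddCommGroup V] [InnerProductSpace ℝ V] [Sym V]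

/-- The linear part of the slice condition. -/
def sl_GL (L : Pl → V) (m : ℝ) : W 2 V × ℝ →L[ℝ] ℝ :=
  (prW L).coprod (m • ContinuousLinearMap.id ℝ ℝ)

theorem sl_apply_GL (L : Pl → V) (m : ℝ) (ξ : W 2 V) (r : ℝ) :
    sl_GL L m (ξ, r) = prW L ξ + m * r := rfl

theorem bij_GL {T : W 2 V × ℝ →L[ℝ] W 1 V} {D : W 2 V →L[ℝ] W 1 V} {K L : Pl → V} {m c : ℝ}
    (h : ∀ ξ r, T (ξ, r) = D ξ + r • toW 1 K) :
    Bij (frm D ![K] ![L] ![![m]]) c ↔ Bij (T.prod (sl_GL L m)) c := by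
  have hb : ∀ (Y : Type), Function.Bijective fun q : Y × ℝ => (q.1, fun _ : Fin 1 => q.2) :=
    fun Y => ⟨fun q q' e => Prod.ext (Prod.mk.inj e).1 (congrFun (Prod.mk.inj e).2 0),
      fun q => ⟨(q.1, q.2 0), Prod.ext rfl (funext fun i => by rw [Subsingleton.elim i 0])⟩⟩
  refine bij_conj_Frm (fun q => (q.1, fun _ : Fin 1 => q.2)) (fun q => (q.1, fun _ : Fin 1 => q.2))
    (hb _) (hb _) (fun q => by simp [Prod.norm_def]) (fun q => by simp [Prod.norm_def])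
    fun q => ?_
  rw [frm_apply]
  refine Prod.ext ?_ (funext fun i => ?_)
  · obtain ⟨ξ, r⟩ := q
    simp [h]
  · obtain ⟨ξ, r⟩ := q
    rw [Subsingleton.elim i 0]
    simp [sl_apply_GL]

theorem norm_prod_sub_GL {X Y Z : Type} [NormedAddCommGroup X] [NormedSpace ℝ X]
    [NormedAddCommGroup Y] [NormedSpace ℝ Y] [NormedAddCommGroup Z] [NormedSpace ℝ Z]
    (T T' : X →L[ℝ] Y) (S : X →L[ℝ] Z) : ‖T.prod S - T'.prod S‖ ≤ ‖T - T'‖ := by
  refine ContinuousLinearMap.opNorm_le_bound _ (norm_nonneg _) fun x => ?_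
  have := (T - T').le_opNorm x
  simpa [Prod.norm_def] using this

omit [Sym V] in
theorem split_GL (T : W 2 V × ℝ →L[ℝ] W 1 V) (ξ : W 2 V) (r : ℝ) :
    T (ξ, r) = T (ξ, 0) + r • T (0, 1) := by
  rw [← map_smul, ← map_add]
  simp

omit [InnerProductSpace ℝ V] [Sym V] in
theorem per_sub_GL {f g : Pl → V} (hf : Per f) (hg : Per g) : Per (f - g) := fun s t => by
  simp only [Pi.sub_apply, hf s t, hg s t]

theorem one_GL {J : ℝ → V → V →L[ℝ] V} (hJ : ACS Ω0 J) {X : ℝ → Pl → V → V} (hX : SmX X)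
    {w L : Pl → V} {x z : ℝ → V} {r₀ m c ε R : ℝ} {Λ : ℝ≥0} {Φ : W 2 V × ℝ → W 1 V}
    (hF : IsF J X w Φ) (hL : LipschitzOnWith Λ (fderiv ℝ Φ) (Metric.closedBall (0, r₀) 1))
    (hw : Pth x z w) (hl : L ∈ Dsub V)
    (hR : ∀ r, Fld (X r) R ∧ Orb 1 (frz (X r) (-R)) x ∧ Orb 1 (frz (X r) R) z) (hc : 0 < c)
    (hb : Bij (frm (Du J (X r₀) w) ![kr J X r₀ w] ![L] ![![m]]) c) (hε : 0 ≤ ε) (hε1 : ε ≤ 1)
    (e : 4 * c * Λ * ε ≤ 1) :
    (∀ u r, Pth x z u → nrm 2 (u - w) univ ≤ ENNReal.ofReal (ε ^ 2) →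
        |r - r₀| ≤ ε → Function.Bijective (frm (Du J (X r) u) ![kr J X r u] ![L] ![![m]])) ∧
      (∀ u r u' r', Nice J (X r) x z u → Nice J (X r') x z u' →
        nrm 2 (u - w) univ ≤ ENNReal.ofReal (ε ^ 2) → |r - r₀| ≤ ε →
        nrm 2 (u' - w) univ ≤ ENNReal.ofReal (ε ^ 2) → |r' - r₀| ≤ ε →
        pair Ω0 (u - w) L + m * r = pair Ω0 (u' - w) L + m * r' → u = u' ∧ r = r') ∧
      ∀ t ε', ε' ≤ ε → 2 * c * ‖(toW 1 (cr J (X r₀) w), t)‖ ≤ ε' → ∃ u r, Nice J (X r) x z u ∧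
        nrm 2 (u - w) univ ≤ ENNReal.ofReal (ε' ^ 2) ∧ |r - r₀| ≤ ε' ∧
          pair Ω0 (u - w) L + m * (r - r₀) = t := by
  have hd : Differentiable ℝ Φ := hF.1.differentiable (by simp)
  let Ψ : W 2 V × ℝ → W 1 V × ℝ := fun q => (Φ q, sl_GL L m q - m * r₀)
  have hΨ : ∀ q, HasFDerivAt Ψ ((fderiv ℝ Φ q).prod (sl_GL L m)) q := fun q =>
    (hd q).hasFDerivAt.prodMk ((sl_GL L m).hasFDerivAt.sub_const _)
  have hΨ' : ∀ q, fderiv ℝ Ψ q = (fderiv ℝ Φ q).prod (sl_GL L m) := fun q => (hΨ q).fderiv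
  have hLΨ : LipschitzOnWith Λ (fderiv ℝ Ψ) (Metric.closedBall (0, r₀) 1) := by
    refine LipschitzOnWith.of_dist_le_mul fun q hq q' hq' => ?_
    rw [hΨ', hΨ', dist_eq_norm]
    exact (norm_prod_sub_GL _ _ _).trans ((dist_eq_norm _ _).symm.trans_le
      (hL.dist_le_mul q hq q' hq'))
  have d2 : ∀ u r ξ, Pth x z u → Rep 2 ξ (u - w) → toW 1 (kr J X r u) = fderiv ℝ Φ (ξ, r) (0, 1) :=
    fun u r ξ hu hξ => by
      have h1 := hF.rep_d2 hJ.1 hX hw.bdd.1 hw.per hξ (hu.bdd.1.sub hw.bdd.1)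
        (per_sub_GL hu.per hw.per) r 1
      rw [add_sub_cancel] at h1
      exact h1.toW_eq
  have key : ∀ u r ξ c', Pth x z u → Rep 2 ξ (u - w) →
      (Bij (frm (Du J (X r) u) ![kr J X r u] ![L] ![![m]]) c' ↔ Bij (fderiv ℝ Ψ (ξ, r)) c') :=
    fun u r ξ c' hu hξ => by
      have h0 := coef_fld hJ (hR r).1 hu.bdd hu.per
      have h1 := hF.d1_eq hJ.1 hX hw.bdd.1 hw.per hξ (hu.bdd.1.sub hw.bdd.1)
        (per_sub_GL hu.per hw.per) (a := r) (by rw [add_sub_cancel]; exact h0.bj)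
        (by rw [add_sub_cancel]; exact h0.bS)
      rw [add_sub_cancel] at h1
      rw [hΨ']
      refine bij_GL fun ζ μ => ?_
      rw [split_GL, d2 u r ξ hu hξ, ← h1]
      rfl
  have r0 : Rep 2 (0 : W 2 V) (w - w) := by
    rw [sub_self]
    exact rep_zero 2
  have hcΛ : 0 ≤ c * Λ * ε := by positivity
  obtain ⟨n1, n2, n3⟩ := newton (fun q => (hΨ q).differentiableAt) hc
    ((key w r₀ 0 c hw r0).1 hb) hLΨ hε hε1 (by linarith)
  have mem : ∀ u r, Pth x z u → nrm 2 (u - w) univ ≤ ENNReal.ofReal (ε ^ 2) → |r - r₀| ≤ ε →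
      Rep 2 (toW 2 (u - w)) (u - w) ∧ (toW 2 (u - w), r) ∈ Metric.closedBall (0, r₀) ε :=
    fun u r hu h1 h2 => ⟨rep_toW le_rfl (hu.bdd.1.sub hw.bdd.1) (per_sub_GL hu.per hw.per)
      (h1.trans_lt ENNReal.ofReal_lt_top), by
        rw [Metric.mem_closedBall, Prod.dist_eq, dist_zero_right, Real.dist_eq]
        exact max_le (norm_toW_le le_rfl (hu.bdd.1.sub hw.bdd.1) (per_sub_GL hu.per hw.per) hε h1)
          h2⟩
  refine ⟨fun u r hu h1 h2 => ?_, fun u r u' r' hu hu' h1 h2 h1' h2' h3 => ?_,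
    fun t ε' h1 h2 => ?_⟩
  · obtain ⟨a, b⟩ := mem u r hu h1 h2
    exact ((key u r _ _ hu a).2 (n1 _ b)).1
  · obtain ⟨a, b⟩ := mem u r hu.pth h1 h2
    obtain ⟨a', b'⟩ := mem u' r' hu'.pth h1' h2'
    have z1 : ∀ u r, Nice J (X r) x z u → Rep 2 (toW 2 (u - w)) (u - w) →
        Φ (toW 2 (u - w), r) = 0 := fun u r hu a => by
      rw [hF.eq_zero_iff hJ.1 hX hw.bdd.1 hw.per a (hu.bdd.1.sub hw.bdd.1)
        (per_sub_GL hu.per hw.per), add_sub_cancel]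
      exact hu.eq
    have h4 := n2 b b' (Prod.ext ((z1 u r hu a).trans (z1 u' r' hu' a').symm) (by
      change sl_GL L m _ - _ = sl_GL L m _ - _
      rw [sl_apply_GL, sl_apply_GL, a.prW hl, a'.prW hl, h3]))
    obtain ⟨h5, h6⟩ := Prod.mk.inj h4
    rw [h5] at a
    exact ⟨sub_left_injective (a.eq_fun a' (hu.bdd.1.sub hw.bdd.1).continuous
      (per_sub_GL hu.per hw.per) (hu'.bdd.1.sub hw.bdd.1).continuous
      (per_sub_GL hu'.per hw.per)), h6⟩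
  · have h3 : Φ (0, r₀) = toW 1 (cr J (X r₀) w) := by
      have h4 := hF.rep hw.bdd.1 (rep_zero 2) contDiff_const (fun _ _ => rfl) r₀
      rw [add_zero] at h4
      exact h4.toW_eq.symm
    have h4 : ‖Ψ (0, r₀) - (0, t)‖ = ‖(toW 1 (cr J (X r₀) w), t)‖ := by
      simp [Ψ, h3, sl_apply_GL, Prod.norm_def]
    obtain ⟨⟨ξ, r⟩, hq, h5⟩ := n3 (0, t) (by rw [h4]; exact h2.trans h1)
    rw [h4] at hq
    have hq' : (ξ, r) ∈ Metric.closedBall ((0 : W 2 V), r₀) ε' :=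
      Metric.closedBall_subset_closedBall h2 hq
    have hq'' : (ξ, r) ∈ Metric.closedBall ((0 : W 2 V), r₀) ε :=
      Metric.closedBall_subset_closedBall h1 hq'
    obtain ⟨h6, h7⟩ := Prod.mk.inj h5
    let T : W 2 V × ℝ →L[ℝ] W 1 V := (d1 Φ (ξ, r)).coprod
      (ContinuousLinearMap.smulRight (1 : ℝ →L[ℝ] ℝ) (toW 1 (kr J X r₀ w)))
    have hT : ‖T - fderiv ℝ Φ (ξ, r)‖ ≤ Λ * ε := by
      have h8 : ‖fderiv ℝ Φ (0, r₀) - fderiv ℝ Φ (ξ, r)‖ ≤ Λ * ε := by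
        refine ((dist_eq_norm _ _).symm.trans_le (hL.dist_le_mul _
          (Metric.mem_closedBall_self zero_le_one) _
          (Metric.closedBall_subset_closedBall hε1 hq''))).trans ?_
        exact mul_le_mul_of_nonneg_left (Metric.mem_closedBall'.1 hq'') Λ.2
      refine ContinuousLinearMap.opNorm_le_bound _ (by positivity) fun ⟨ζ, μ⟩ => ?_
      have h9 : (T - fderiv ℝ Φ (ξ, r)) (ζ, μ) =
          μ • (fderiv ℝ Φ (0, r₀) - fderiv ℝ Φ (ξ, r)) (0, 1) := by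
        rw [ContinuousLinearMap.sub_apply, split_GL (fderiv ℝ Φ (ξ, r)),
          ContinuousLinearMap.sub_apply, ← d2 w r₀ 0 hw r0, smul_sub]
        change (fderiv ℝ Φ (ξ, r) (ζ, 0) + μ • toW 1 (kr J X r₀ w)) - _ = _
        abel
      rw [h9, norm_smul, mul_comm]
      refine mul_le_mul (((fderiv ℝ Φ (0, r₀) - fderiv ℝ Φ (ξ, r)).le_opNorm _).trans ?_)
        (norm_snd_le (ζ, μ)) (norm_nonneg _) (by positivity)
      simpa using h8
    have hT' : Bij (T.prod (sl_GL L m)) (2 * (2 * c)) := by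
      have h8 := n1 _ hq''
      rw [hΨ'] at h8
      refine h8.perturb (by positivity) ?_
      refine (mul_le_mul_of_nonneg_left ((norm_prod_sub_GL _ _ _).trans hT)
        (by positivity)).trans ?_
      linarith
    have hn : Nice J (X r) x z (w + fn ξ) :=
      hF.nice hJ.1 (hR r).1 (hR r).2.1 (hR r).2.2 hw h6 (K := ![kr J X r₀ w]) (l := ![L])
        (M := ![![m]]) (fun i => by rw [Subsingleton.elim i 0]; exact hl)
        ((bij_GL (T := T) fun _ _ => rfl).2 hT').1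
    have hs : ContDiff ℝ ∞ (fn ξ) := by
      have h8 : ContDiff ℝ ∞ (w + fn ξ - w) := hn.bdd.1.sub hw.bdd.1
      rwa [add_sub_cancel_left] at h8
    rw [Metric.mem_closedBall, Prod.dist_eq, dist_zero_right, Real.dist_eq, max_le_iff] at hq'
    refine ⟨w + fn ξ, r, hn, ?_, hq'.2, ?_⟩
    · rw [add_sub_cancel_left, (rep_fn ξ).nrm_eq le_rfl hs (per_fn ξ)]
      exact ENNReal.ofReal_le_ofReal (pow_le_pow_left₀ (norm_nonneg _) hq'.1 2)
    · rw [add_sub_cancel_left, ← (rep_fn ξ).prW hl, ← h7, sl_apply_GL]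
      ring

theorem glue_nl {C : Type} [NormedAddCommGroup C] [NormedSpace ℝ C] [FiniteDimensional ℝ C]
    {J : ℝ → V → V →L[ℝ] V} (hJ : ACS Ω0 J) {𝕏 : ℝ → (ℝ × C) × V → V} (hX : SP 𝕏) {N : Type}
    {l : Filter N} {X : N → ℝ → Pl → V → V} {κ : N → Pl → C} {w L : N → Pl → V} {s₀ t : N → ℝ}
    {x z : ℝ → V} {r₀ m A c : ℝ} (e : ∀ n r, X n r = ctl 𝕏 fun p => (r, κ n p))
    (h : ∀ n, Bdd (κ n) ∧ Per (κ n) ∧ Cn 2 (κ n) univ A ∧ Pth x z (w n) ∧ Cn 3 (w n) univ A ∧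
      L n ∈ Dsub V ∧ (∀ r (p : Pl) v, A ≤ |p.1 - s₀ n| → X n r p v = X n r₀ p v) ∧
        ∃ R, ∀ r, Fld (X n r) R ∧ Orb 1 (frz (X n r) (-R)) x ∧ Orb 1 (frz (X n r) R) z)
    (h0 : Tendsto (fun n => nrm 1 (cr J (X n r₀) (w n)) univ) l (𝓝 0)) (hc : 0 < c)
    (hb : ∀ᶠ n in l, Bij (frm (Du J (X n r₀) (w n)) ![kr J (X n) r₀ (w n)] ![L n] ![![m]]) c)
    (ht : Tendsto t l (𝓝 0)) : ∃ ε > 0,
      (∀ᶠ n in l, ∀ u r, Pth x z u → nrm 2 (u - w n) univ ≤ ENNReal.ofReal (ε ^ 2) →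
        |r - r₀| ≤ ε → Function.Bijective
          (frm (Du J (X n r) u) ![kr J (X n) r u] ![L n] ![![m]])) ∧
      (∀ᶠ n in l, ∀ u r u' r', Nice J (X n r) x z u → Nice J (X n r') x z u' →
        nrm 2 (u - w n) univ ≤ ENNReal.ofReal (ε ^ 2) → |r - r₀| ≤ ε →
        nrm 2 (u' - w n) univ ≤ ENNReal.ofReal (ε ^ 2) → |r' - r₀| ≤ ε →
        pair Ω0 (u - w n) (L n) + m * r = pair Ω0 (u' - w n) (L n) + m * r' → u = u' ∧ r = r') ∧
      ∀ ε' > 0, ∀ᶠ n in l, ∃ u r, Nice J (X n r) x z u ∧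
        nrm 2 (u - w n) univ ≤ ENNReal.ofReal (ε' ^ 2) ∧ |r - r₀| ≤ ε' ∧
          pair Ω0 (u - w n) (L n) + m * (r - r₀) = t n := by
  obtain ⟨Λ, hΛ⟩ := exists_F_unif hJ.1 hX (max A ‖r₀‖)
  have hΛ0 : (0 : ℝ) ≤ Λ := Λ.2
  obtain ⟨ε, hε, hε1, hε2⟩ : ∃ ε : ℝ, 0 < ε ∧ ε ≤ 1 ∧ 4 * c * Λ * ε ≤ 1 := by
    refine ⟨1 / (4 * c * Λ + 1), by positivity, ?_, ?_⟩
    · rw [div_le_one (by positivity)]
      have : 0 ≤ 4 * c * Λ := by positivity
      linarith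
    · rw [mul_one_div, div_le_one (by positivity)]
      linarith
  have sm : ∀ n, SmX (X n) := fun n => by
    rw [show X n = fun a => ctl 𝕏 fun p => (a, κ n p) from funext (e n)]
    exact smX_ctl hX (h n).1.1 (h n).2.1
  have main := (hb.and (h0.eventually (gt_mem_nhds ENNReal.zero_lt_top))).mono
    fun n ⟨hb, hn⟩ => by
      obtain ⟨h1, h2, h3, h4, h5, h6, h7, R, h8⟩ := h n
      obtain ⟨Φ, hF, hL⟩ := hΛ (κ n) (w n) r₀ (s₀ n) h1 h2 h4.bdd h4.per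
        (h3.mono le_rfl subset_rfl (le_max_left _ _)) (h5.mono le_rfl subset_rfl (le_max_left _ _))
        (le_max_right _ _) (fun a p hp => by
          have := h7 a p (w n p) ((le_max_left _ _).trans hp)
          rwa [e, e] at this) (by rw [← e]; exact hn)
      rw [← show X n = fun a => ctl 𝕏 fun p => (a, κ n p) from funext (e n)] at hF
      exact one_GL hJ (sm n) hF hL h4 h6 h8 hc hb hε.le hε1 hε2
  refine ⟨ε, hε, main.mono fun n h => h.1, main.mono fun n h => h.2.1, fun ε' hε' => ?_⟩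
  have h1 : Tendsto (fun n => toW 1 (cr J (X n r₀) (w n))) l (𝓝 0) :=
    tendsto_toW one_le_two
      (fun n => (contDiff_cr hJ.1 (sm n) (h n).2.2.2.1.bdd.1).comp
        (contDiff_const.prodMk contDiff_id))
      (fun n => per_cr hJ.1 ((sm n).2 r₀) (h n).2.2.2.1.per) h0
  have h2 : Tendsto (fun n => 2 * c * ‖(toW 1 (cr J (X n r₀) (w n)), t n)‖) l (𝓝 0) := by
    have := ((h1.prodMk_nhds ht).norm).const_mul (2 * c)
    simpa using this
  filter_upwards [main, h2.eventually (ge_mem_nhds (lt_min hε hε'))] with n hn h3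
  obtain ⟨u, r, a1, a2, a3, a4⟩ := hn.2.2 (t n) _ (min_le_left _ _) h3
  exact ⟨u, r, a1, a2.trans (ENNReal.ofReal_le_ofReal
    (pow_le_pow_left₀ (lt_min hε hε').le (min_le_right _ _) 2)), a3.trans (min_le_right _ _), a4⟩

end

end Pool.Agent.P.MP_de3acd_gt.FH
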