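import Pool.Agent.P.MP_de3acd_gt.FH.Defs6
import Pool.Agent.P.MP_de3acd_gt.FH.JetC
import Pool.Agent.P.MP_de3acd_gt.FH.Cpt

/-! Calculus of gauge transformations.
Sketch: lin γ v = γ v - γ 0, so Aff γ means γ z = L z + γ 0. twP: subtract tw at z = γ₁-argument v and 0. tw_deriv: differentiate tw in t (HasDerivAt.unique,
HasDerivAt.comp_add_const). ds_upu, dt_upu: hasDerivAt_ds, hasDerivAt_dt, HasDerivAt.clm_apply. gorb_iff: the derivative of c.pY Y t at z is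
Q ∘ (fderiv (Y t) (pt) ∘ P - deriv P); ξ ↦ P ξ maps solutions to solutions; differentiate symp in t (form₂). cyl_iff: P and Q are bounded on Icc 0 1.
op_lop: Op.mk.injEq or congr, funext; fderiv of z ↦ Q (J (pt z) (P w - X (pt z) + x0' + P' z)) by the chain and product rules. -/

set_option linter.unusedSectionVars false

open Set Filter Topology MeasureTheory
open scoped ContDiff NNReal ENNReal RealInnerProductSpace

namespace Pool.Agent.P.MP_de3acd_gt.FH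

noncomputable section

variable {F₁ F₂ : Type} [NormedAddCommGroup F₁] [NormedSpace ℝ F₁] [FiniteDimensional ℝ F₁]
  [NormedAddCommGroup F₂] [NormedSpace ℝ F₂] [FiniteDimensional ℝ F₂]
  {Ω₁ : F₁ → F₁ → ℝ} {Ω₂ : F₂ → F₂ → ℝ} {γ₁ : Equiv.Perm F₁} {γ₂ : Equiv.Perm F₂}
  {Γ₁ : Subgroup (Equiv.Perm F₁)} {Γ₂ : Subgroup (Equiv.Perm F₂)}
variable {Λ : Type} [NormedAddCommGroup Λ] [NormedSpace ℝ Λ] [FiniteDimensional ℝ Λ]

variable (c : Gau Ω₁ Ω₂ γ₁ γ₂) {J : ℝ → F₂ → F₂ →L[ℝ] F₂} {X Z : Pl → F₂ → F₂} {Y : ℝ → F₂ → F₂}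
  {x y : ℝ → F₁} {u ξ η : Pl → F₁}

theorem Aff.map_sub_GauA (h : Aff γ₁) (z z' : F₁) : γ₁ z - γ₁ z' = lin γ₁ (z - z') := by
  obtain ⟨L, hL⟩ := h
  rw [hL, map_sub, ← hL, ← hL, lin, lin, sub_sub_sub_cancel_right]

theorem Aff.lin_sub_GauA (h : Aff γ₁) (z z' : F₁) : lin γ₁ (z - z') = lin γ₁ z - lin γ₁ z' := by
  obtain ⟨L, hL⟩ := h
  rw [hL, hL, hL, map_sub]

theorem Aff.map_add (h : Aff γ₁) (z v : F₁) : γ₁ (z + v) = γ₁ z + lin γ₁ v := by
  have e := h.map_sub_GauA (z + v) z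
  rw [add_sub_cancel_left] at e
  rw [← e, add_sub_cancel]

theorem Aff.map_sub (h : Aff γ₁) (z z' : F₁) : γ₁ z - γ₁ z' = lin γ₁ (z - z') := h.map_sub_GauA z z'

theorem aff_one : Aff (1 : Equiv.Perm F₁) := ⟨ContinuousLinearMap.id ℝ F₁, fun v => by simp [lin]⟩

theorem lin_one' (v : F₁) : lin 1 v = v := by simp [lin]

namespace Gau

theorem up_dn (x : ℝ → F₂) : c.up (c.dn x) = x := funext fun t => by simp [up, dn, pt, c.PQ]

theorem dn_up (x : ℝ → F₁) : c.dn (c.up x) = x := funext fun t => by simp [up, dn, pt, c.QP]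

theorem upu_dnu (u : Pl → F₂) : c.upu (c.dnu u) = u := funext fun t => by simp [upu, dnu, pt, c.PQ]

theorem dnu_upu (u : Pl → F₁) : c.dnu (c.upu u) = u := funext fun t => by simp [upu, dnu, pt, c.QP]

theorem up_bijective : Function.Bijective c.up := 
  Function.bijective_iff_has_inverse.2 ⟨c.dn, c.dn_up, c.up_dn⟩

theorem upu_bijective : Function.Bijective c.upu := 
  Function.bijective_iff_has_inverse.2 ⟨c.dnu, c.dnu_upu, c.upu_dnu⟩

theorem vec_bijective : Function.Bijective c.vec := 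
  Function.bijective_iff_has_inverse.2 ⟨fun ξ p => c.Q p.2 (ξ p),
    fun _ => funext fun _ => c.QP _ _, fun _ => funext fun _ => c.PQ _ _⟩

theorem vec_zero : c.vec 0 = 0 := funext fun p => by simp [vec]

theorem P_inj_GauA (t : ℝ) : Function.Injective (c.P t) := Function.LeftInverse.injective (c.QP t)

theorem pt_inj_GauA (t : ℝ) : Function.Injective (c.pt t) :=
  fun _ _ h => c.P_inj_GauA t (add_left_cancel h)

theorem dx_GauA (t : ℝ) : HasDerivAt c.x0 (deriv c.x0 t) t :=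
  (c.sx.differentiable (by simp) t).hasDerivAt

theorem dP_GauA (t : ℝ) : HasDerivAt c.P (deriv c.P t) t :=
  (c.sP.differentiable (by simp) t).hasDerivAt

theorem dQ_GauA (t : ℝ) : HasDerivAt c.Q (deriv c.Q t) t :=
  (c.sQ.differentiable (by simp) t).hasDerivAt

theorem sdx_GauA : ContDiff ℝ ∞ (deriv c.x0) := (contDiff_infty_iff_deriv.1 c.sx).2

theorem sdP_GauA : ContDiff ℝ ∞ (deriv c.P) := (contDiff_infty_iff_deriv.1 c.sP).2

theorem dvec_GauA {t : ℝ} {v : F₁} (h : HasDerivAt x v t) :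
    HasDerivAt (fun t => c.P t (x t)) (deriv c.P t (x t) + c.P t v) t := (c.dP_GauA t).clm_apply h

theorem dup_GauA {t : ℝ} {v : F₁} (h : HasDerivAt x v t) :
    HasDerivAt (c.up x) (deriv c.x0 t + deriv c.P t (x t) + c.P t v) t := by
  rw [add_assoc]
  exact (c.dx_GauA t).add (c.dvec_GauA h)

theorem dvec_iff_GauA {t : ℝ} {w : F₂} : HasDerivAt (fun t => c.P t (x t)) w t ↔
    HasDerivAt x (c.Q t (w - deriv c.P t (x t))) t := by
  refine ⟨fun h => ?_, fun h => ?_⟩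
  · have h1 := (c.dQ_GauA t).clm_apply h
    simp only [c.QP] at h1
    have h2 := h.unique (c.dvec_GauA h1)
    rwa [h2, add_sub_cancel_left, c.QP]
  · have h1 := c.dvec_GauA h
    rwa [c.PQ, add_sub_cancel] at h1

theorem dup_iff_GauA {t : ℝ} {w : F₂} : HasDerivAt (c.up x) w t ↔
    HasDerivAt x (c.Q t (w - deriv c.x0 t - deriv c.P t (x t))) t := by
  rw [← c.dvec_iff_GauA]
  refine ⟨fun h => ?_, fun h => ?_⟩
  · refine (h.sub (c.dx_GauA t)).congr_of_eventuallyEq (Eventually.of_forall fun s => ?_)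
    simp [up, pt]
  · have h1 := (c.dx_GauA t).add h
    rwa [add_sub_cancel] at h1

theorem twP (t : ℝ) (v : F₁) : c.P (t + 1) (lin γ₁ v) = lin γ₂ (c.P t v) := by
  have h1 := c.tw t v
  have h2 := c.tw t 0
  have h3 := c.aff₂.map_sub (c.x0 t + c.P t v) (c.x0 t + c.P t 0)
  rw [← h1, ← h2, add_sub_add_left_eq_sub, add_sub_add_left_eq_sub, map_zero (c.P t), sub_zero,
    ← map_sub] at h3
  exact h3

theorem tw_deriv (t : ℝ) (z : F₁) : deriv c.x0 (t + 1) + deriv c.P (t + 1) (γ₁ z) =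
    lin γ₂ (deriv c.x0 t + deriv c.P t z) := by
  obtain ⟨L, hL⟩ := c.aff₂
  have h1 : HasDerivAt (fun t => c.x0 (t + 1) + c.P (t + 1) (γ₁ z))
      (deriv c.x0 (t + 1) + deriv c.P (t + 1) (γ₁ z)) t := by
    have := (c.dup_GauA (hasDerivAt_const (t + 1) (γ₁ z))).comp_add_const t 1
    rwa [map_zero, add_zero] at this
  have h2 : HasDerivAt (fun t => L (c.x0 t + c.P t z) + γ₂ 0)
      (L (deriv c.x0 t + deriv c.P t z)) t := by
    have := c.dup_GauA (hasDerivAt_const t z)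
    rw [map_zero, add_zero] at this
    exact (L.hasFDerivAt.comp_hasDerivAt t this).add_const _
  rw [hL]
  refine h1.unique (h2.congr_of_eventuallyEq (Eventually.of_forall fun s => ?_))
  beta_reduce
  rw [c.tw, ← hL, lin, sub_add_cancel]

theorem bound : ∃ A, 1 ≤ A ∧ ∀ t ∈ Icc (0 : ℝ) 1, ‖c.P t‖ ≤ A ∧ ‖c.Q t‖ ≤ A ∧ ‖deriv c.P t‖ ≤ A ∧
    ‖c.x0 t‖ ≤ A ∧ ‖deriv c.x0 t‖ ≤ A := by
  have h : Continuous fun t => ‖c.P t‖ + ‖c.Q t‖ + ‖deriv c.P t‖ + ‖c.x0 t‖ + ‖deriv c.x0 t‖ :=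
    (((c.sP.continuous.norm.add c.sQ.continuous.norm).add c.sdP_GauA.continuous.norm).add
      c.sx.continuous.norm).add c.sdx_GauA.continuous.norm
  obtain ⟨A, hA⟩ := (isCompact_Icc (a := (0 : ℝ)) (b := 1)).bddAbove_image h.continuousOn
  refine ⟨max A 1, le_max_right _ _, fun t ht => ?_⟩
  have h0 := (hA (mem_image_of_mem _ ht)).trans (le_max_left A 1)
  have h1 := norm_nonneg (c.P t)
  have h2 := norm_nonneg (c.Q t)
  have h3 := norm_nonneg (deriv c.P t)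
  have h4 := norm_nonneg (c.x0 t)
  have h5 := norm_nonneg (deriv c.x0 t)
  refine ⟨?_, ?_, ?_, ?_, ?_⟩ <;> linarith

theorem contDiff_up_iff : ContDiff ℝ ∞ (c.up x) ↔ ContDiff ℝ ∞ x := by
  refine ⟨fun h => ?_, fun h => c.sx.add (c.sP.clm_apply h)⟩
  rw [← c.dn_up x]
  exact c.sQ.clm_apply (h.sub c.sx)

theorem contDiff_upu_iff : ContDiff ℝ ∞ (c.upu u) ↔ ContDiff ℝ ∞ u := by
  refine ⟨fun h => ?_, fun h => (c.sx.comp contDiff_snd).add ((c.sP.comp contDiff_snd).clm_apply h)⟩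
  rw [← c.dnu_upu u]
  exact (c.sQ.comp contDiff_snd).clm_apply (h.sub (c.sx.comp contDiff_snd))

theorem contDiff_vec_iff : ContDiff ℝ ∞ (c.vec ξ) ↔ ContDiff ℝ ∞ ξ := by
  refine ⟨fun h => ?_, fun h => (c.sP.comp contDiff_snd).clm_apply h⟩
  have e : ξ = fun p => c.Q p.2 (c.vec ξ p) := funext fun p => (c.QP _ _).symm
  rw [e]
  exact (c.sQ.comp contDiff_snd).clm_apply h

theorem pt_tw_GauA (t : ℝ) (z : F₁) : c.pt (t + 1) (γ₁ z) = γ₂ (c.pt t z) := c.tw t z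

theorem pt_tw_iff_GauA (t : ℝ) (z z' : F₁) : c.pt (t + 1) z' = γ₂ (c.pt t z) ↔ z' = γ₁ z := by
  rw [← c.pt_tw_GauA, (c.pt_inj_GauA _).eq_iff]

theorem per_up_iff : (∀ t, c.up x (t + 1) = γ₂ (c.up x t)) ↔ ∀ t, x (t + 1) = γ₁ (x t) := 
  forall_congr' fun t => c.pt_tw_iff_GauA t _ _

theorem per_upu_iff :
    (∀ s t, c.upu u (s, t + 1) = γ₂ (c.upu u (s, t))) ↔ ∀ s t, u (s, t + 1) = γ₁ (u (s, t)) := 
  forall_congr' fun _ => forall_congr' fun t => c.pt_tw_iff_GauA t _ _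

theorem deriv_up (hx : ContDiff ℝ ∞ x) (t : ℝ) :
    deriv (c.up x) t = deriv c.x0 t + deriv c.P t (x t) + c.P t (deriv x t) := 
  (c.dup_GauA (hx.differentiable (by simp) t).hasDerivAt).deriv

theorem deriv_up_sub (hx : ContDiff ℝ ∞ x) (Y : ℝ → F₂ → F₂) (t : ℝ) :
    deriv (c.up x) t - Y t (c.up x t) = c.P t (deriv x t - c.pY Y t (x t)) := by
  rw [c.deriv_up hx, map_sub, pY, c.PQ, up]
  abel

theorem ds_upu (hu : ContDiff ℝ ∞ u) : ds (c.upu u) = c.vec (ds u) := funext fun p => by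
  have h1 := hasDerivAt_ds (s := p.1) (t := p.2) (hu.differentiable (by simp) _)
  have h2 := hasDerivAt_ds (s := p.1) (t := p.2)
    ((c.contDiff_upu_iff.2 hu).differentiable (by simp) _)
  exact h2.unique (((c.P p.2).hasFDerivAt.comp_hasDerivAt p.1 h1).const_add (c.x0 p.2))

theorem dt_upu (hu : ContDiff ℝ ∞ u) (p : Pl) :
    dt (c.upu u) p = deriv c.x0 p.2 + deriv c.P p.2 (u p) + c.P p.2 (dt u p) := by
  have h1 := hasDerivAt_dt (s := p.1) (t := p.2) (hu.differentiable (by simp) _)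
  have h2 := hasDerivAt_dt (s := p.1) (t := p.2)
    ((c.contDiff_upu_iff.2 hu).differentiable (by simp) _)
  exact h2.unique (c.dup_GauA h1)

theorem cr_upu (hu : ContDiff ℝ ∞ u) : cr J X (c.upu u) = c.vec (cr (c.pJ J) (c.pX X) u) := 
  funext fun p => by
    simp only [cr, c.ds_upu hu, c.dt_upu hu, vec, pJ, pX, pY, frz, upu, map_add, c.PQ,
      ContinuousLinearMap.comp_apply, map_sub (c.P p.2)]
    congr 2
    abel

theorem tsl_upu (s : ℝ) (u : Pl → F₁) : tsl (s, 0) (c.upu u) = c.upu (tsl (s, 0) u) := 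
  funext fun p => by simp [tsl, upu]

theorem upu_lp (x : ℝ → F₁) : c.upu (lp x) = lp (c.up x) := rfl

theorem gj_P (J : ℝ → F₂ → F₂ →L[ℝ] F₂) (t : ℝ) (z v : F₁) :
    gj Ω₂ J t (c.pt t z) (c.P t v) = gj Ω₁ (c.pJ J) t z v := by
  rw [gj, gj, ← c.symp t, pJ, ContinuousLinearMap.comp_apply, c.PQ]
  rfl

theorem pair_vec (ξ η : Pl → F₁) : pair Ω₂ (c.vec ξ) (c.vec η) = pair Ω₁ ξ η := by
  simp only [pair, vec, c.symp]

theorem en_upu (hu : ContDiff ℝ ∞ u) : en Ω₂ J (c.upu u) = en Ω₁ (c.pJ J) u := by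
  rw [en, en, c.ds_upu hu, ← c.pair_vec]
  congr 1
  funext p
  exact (c.PQ _ _).symm

theorem orb_iff : Orb γ₂ Y (c.up x) ↔ Orb γ₁ (c.pY Y) x := 
  and_congr (forall_congr' fun _ => c.dup_iff_GauA) c.per_up_iff

theorem twQ_GauA (t : ℝ) (w : F₂) : c.Q (t + 1) (lin γ₂ w) = lin γ₁ (c.Q t w) := by
  conv_lhs => rw [← c.PQ t w, ← c.twP, c.QP]

theorem dpt_GauA (t : ℝ) (z : F₁) : HasFDerivAt (c.pt t) (c.P t) z :=
  (c.P t).hasFDerivAt.const_add _

theorem dpY_GauA {t : ℝ} {z : F₁} {A : F₂ →L[ℝ] F₂} (h : HasFDerivAt (Y t) A (c.pt t z)) :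
    HasFDerivAt (c.pY Y t) ((c.Q t).comp (A.comp (c.P t) - deriv c.P t)) z :=
  (c.Q t).hasFDerivAt.comp z
    (((h.comp z (c.dpt_GauA t z)).sub_const _).sub (deriv c.P t).hasFDerivAt)

theorem dsymp_GauA (t : ℝ) (a b : F₁) :
    Ω₂ (deriv c.P t a) (c.P t b) + Ω₂ (c.P t a) (deriv c.P t b) = 0 := by
  obtain ⟨B, hB, -⟩ := c.form₂
  have h1 : ∀ a, HasDerivAt (fun t => c.P t a) (deriv c.P t a) t := fun a => by
    simpa using c.dvec_GauA (hasDerivAt_const t a)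
  have h2 := (B.hasFDerivAt.comp_hasDerivAt t (h1 a)).clm_apply (h1 b)
  have h3 : HasDerivAt (fun t => B (c.P t a) (c.P t b)) 0 t :=
    (hasDerivAt_const t (Ω₁ a b)).congr_of_eventuallyEq
      (Eventually.of_forall fun s => (hB _ _).symm.trans (c.symp s a b))
  rw [hB, hB]
  exact h2.unique h3

theorem gorb_iff (hY : ∀ t, Differentiable ℝ (Y t)) :
    GOrb Ω₂ γ₂ Y (c.up x) ↔ GOrb Ω₁ γ₁ (c.pY Y) x := by
  have hd : ∀ t v, fderiv ℝ (c.pY Y t) (x t) v =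
      c.Q t (fderiv ℝ (Y t) (c.up x t) (c.P t v) - deriv c.P t v) := fun t v => by
    rw [(c.dpY_GauA (hY t (c.pt t (x t))).hasFDerivAt).fderiv]
    rfl
  refine and_congr c.orb_iff (and_congr (forall_congr' fun t => ?_) ?_)
  · have key : ∀ a b, Ω₁ (fderiv ℝ (c.pY Y t) (x t) a) b + Ω₁ a (fderiv ℝ (c.pY Y t) (x t) b) =
        Ω₂ (fderiv ℝ (Y t) (c.up x t) (c.P t a)) (c.P t b) +
          Ω₂ (c.P t a) (fderiv ℝ (Y t) (c.up x t) (c.P t b)) := fun a b => by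
      have h1 := c.dsymp_GauA t a b
      rw [hd, hd, ← c.symp t, ← c.symp t, c.PQ, c.PQ]
      obtain ⟨B, hB, -⟩ := c.form₂
      simp only [hB, map_sub, sub_apply] at h1 ⊢
      linarith
    refine ⟨fun h a b => (key a b).trans (h _ _), fun h a b => ?_⟩
    have := (key (c.Q t a) (c.Q t b)).symm.trans (h _ _)
    rwa [c.PQ, c.PQ] at this
  · refine ⟨fun h ξ h1 h2 => ?_, fun h η h1 h2 => ?_⟩
    · have h3 := h (fun t => c.P t (ξ t)) (fun t => c.dvec_iff_GauA.2 (hd t _ ▸ h1 t))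
        fun t => by rw [h2, c.twP]
      funext t
      exact c.P_inj_GauA t ((congrFun h3 t).trans (map_zero _).symm)
    · have e : η = fun t => c.P t (c.Q t (η t)) := funext fun t => (c.PQ _ _).symm
      have h3 := h (fun t => c.Q t (η t)) (fun t => ?_) fun t => ?_
      · funext t
        rw [← c.PQ t (η t), congrFun h3 t]
        exact map_zero _
      · rw [hd, ← c.dvec_iff_GauA (x := fun t => c.Q t (η t)), ← e, c.PQ]
        exact h1 t
      · rw [h2, c.twQ_GauA]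

theorem unif_GauA {l : Filter ℝ} :
    TendstoUniformlyOn (fun s t => c.upu u (s, t)) (c.up x) l (Icc 0 1) ↔
      TendstoUniformlyOn (fun s t => u (s, t)) x l (Icc 0 1) := by
  obtain ⟨A, hA, hb⟩ := c.bound
  have hA0 : 0 < A := by linarith
  have e : ∀ s t, c.up x t - c.upu u (s, t) = c.P t (x t - u (s, t)) := fun s t => by
    simp [up, upu, pt]
  simp only [Metric.tendstoUniformlyOn_iff, dist_eq_norm, e]
  refine ⟨fun h ε hε => ?_, fun h ε hε => ?_⟩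
  · filter_upwards [h (ε / A) (div_pos hε hA0)] with s hs t ht
    rw [← c.QP t (x t - u (s, t))]
    refine ((c.Q t).le_of_opNorm_le (hb t ht).2.1 _).trans_lt ?_
    rw [mul_comm]
    exact (lt_div_iff₀ hA0).1 (hs t ht)
  · filter_upwards [h (ε / A) (div_pos hε hA0)] with s hs t ht
    refine ((c.P t).le_of_opNorm_le (hb t ht).1 _).trans_lt ?_
    rw [mul_comm]
    exact (lt_div_iff₀ hA0).1 (hs t ht)

theorem cyl_iff :
    Cyl Ω₂ γ₂ J X (c.up x) (c.up y) (c.upu u) ↔ Cyl Ω₁ γ₁ (c.pJ J) (c.pX X) x y u := by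
  have h1 : ContDiff ℝ ∞ u →
      ((∀ p, ds (c.upu u) p + J p.2 (c.upu u p) (dt (c.upu u) p - X p (c.upu u p)) = 0) ↔
        ∀ p, ds u p + c.pJ J p.2 (u p) (dt u p - c.pX X p (u p)) = 0) := fun hu =>
    forall_congr' fun p => by
      change cr J X (c.upu u) p = 0 ↔ cr (c.pJ J) (c.pX X) u p = 0
      rw [c.cr_upu hu, vec, map_eq_zero_iff _ (c.P_inj_GauA _)]
  have h2 : ContDiff ℝ ∞ u →
      (fun p : Pl => Ω₂ (ds (c.upu u) p) (J p.2 (c.upu u p) (ds (c.upu u) p))) =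
        fun p => Ω₁ (ds u p) (c.pJ J p.2 (u p) (ds u p)) := fun hu => funext fun p => by
    rw [c.ds_upu hu]
    exact c.gj_P J _ _ _
  refine ⟨fun h => ?_, fun h => ?_⟩
  · have hu := c.contDiff_upu_iff.1 h.smooth
    exact ⟨hu, c.per_upu_iff.1 h.tw, (h1 hu).1 h.eq, h2 hu ▸ h.en, c.unif_GauA.1 h.left,
      c.unif_GauA.1 h.right⟩
  · exact ⟨c.contDiff_upu_iff.2 h.smooth, c.per_upu_iff.2 h.tw, (h1 h.smooth).2 h.eq,
      (h2 h.smooth).symm ▸ h.en, c.unif_GauA.2 h.left, c.unif_GauA.2 h.right⟩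

theorem var_upu (J : ℝ → F₂ → F₂ →L[ℝ] F₂) (Z : Pl → F₂ → F₂) (u : Pl → F₁) :
    var J Z (c.upu u) = c.vec (var (c.pJ J) (c.pZ Z) u) := funext fun p => by
  simp [var, vec, pJ, pZ, upu, c.PQ]

theorem kr_upu {X : ℝ → Pl → F₂ → F₂} {r : ℝ} (hX : ∀ p z, DifferentiableAt ℝ (fun r => X r p z) r)
    (u : Pl → F₁) : kr J X r (c.upu u) = c.vec (kr (c.pJ J) (fun r => c.pX (X r)) r u) := by
  rw [kr, kr, c.var_upu]
  congr 2
  funext p z
  have h := ((c.Q p.2).hasFDerivAt.comp r (((hX p (c.pt p.2 z)).hasFDerivAt.sub_const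
    (deriv c.x0 p.2)).sub_const (deriv c.P p.2 z))).fderiv
  exact (congrArg (fun T : ℝ →L[ℝ] F₁ => T 1) h).symm

theorem op_lop (hJ : ∀ t, Differentiable ℝ (J t)) (hX : ∀ p, Differentiable ℝ (X p))
    (hu : ContDiff ℝ ∞ u) {a b : ℕ} (K : Fin a → Pl → F₁) (l : Fin b → Pl → F₁)
    (M : Fin b → Fin a → ℝ) : c.op (lop γ₁ (c.pJ J) (c.pX X) x y u K l M) =
      lop γ₂ J X (c.up x) (c.up y) (c.upu u) (fun i => c.vec (K i)) (fun i => c.vec (l i)) M := by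
  have e1 : ∀ p : Pl, (c.P p.2).comp ((c.pJ J p.2 (u p)).comp (c.Q p.2)) = J p.2 (c.upu u p) :=
    fun p => by
      ext v
      simp [pJ, c.PQ, upu]
  have e2 : ∀ p : Pl, (c.P p.2).comp ((fderiv ℝ (fun z => c.pJ J p.2 z (dt u p - c.pX X p z)) (u p) -
      (c.pJ J p.2 (u p)).comp ((c.Q p.2).comp (deriv c.P p.2))).comp (c.Q p.2)) =
      fderiv ℝ (fun z => J p.2 z (dt (c.upu u) p - X p z)) (c.upu u p) := fun p => by
    have h1 : DifferentiableAt ℝ (fun z => J p.2 z (dt (c.upu u) p - X p z)) (c.pt p.2 (u p)) :=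
      (hJ _ _).clm_apply ((hX _ _).const_sub _)
    have h2 := ((hJ p.2 (c.pt p.2 (u p))).hasFDerivAt.comp (u p) (c.dpt_GauA p.2 (u p))).clm_apply
      ((deriv c.P p.2).hasFDerivAt.sub_const (deriv c.P p.2 (u p)))
    have h3 := (c.Q p.2).hasFDerivAt.comp (u p)
      ((h1.hasFDerivAt.comp (u p) (c.dpt_GauA p.2 (u p))).add h2)
    have h4 := h3.congr_of_eventuallyEq (f₁ := fun z => c.pJ J p.2 z (dt u p - c.pX X p z))
      (Eventually.of_forall fun z => by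
        simp only [pJ, pX, pY, frz, c.dt_upu hu, Function.comp_apply, Pi.add_apply,
          ContinuousLinearMap.comp_apply, map_sub (c.P p.2), c.PQ, ← map_add]
        congr 2
        abel)
    rw [h4.fderiv]
    ext v
    simp [pJ, c.PQ, upu]
  simp only [op, lop, e1, e2]

theorem pX_add (X Z : Pl → F₂ → F₂) : c.pX (X + Z) = c.pX X + c.pZ Z := by
  funext p z
  simp only [pX, pY, pZ, frz, Pi.add_apply, ← map_add]
  congr 1
  abel

theorem pZ_smul (r : ℝ) (Z : Pl → F₂ → F₂) : c.pZ (r • Z) = r • c.pZ Z := by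
  funext p z
  simp [pZ]

theorem pX_tsl (s : ℝ) (X : Pl → F₂ → F₂) : c.pX (tsl (s, 0) X) = tsl (s, 0) (c.pX X) := by
  funext p z
  simp [pX, pY, frz, tsl, Prod.add_def]

theorem pX_nk (X₁ X₂ : Pl → F₂ → F₂) (Y : ℝ → F₂ → F₂) (a b : ℝ) :
    c.pX (nk X₁ X₂ Y a b) = nk (c.pX X₁) (c.pX X₂) (c.pY Y) a b := by
  rw [nk, nk, ← c.pX_tsl, ← c.pX_tsl]
  funext p z
  simp only [pX, pY, frz, sta, Pi.add_apply, Pi.sub_apply, ← map_add, ← map_sub]
  congr 1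
  abel

theorem pX_pert {ι : Type} [Fintype ι] (X : ℝ → Pl → F₂ → F₂) (Z : ι → ℝ → Pl → F₂ → F₂)
    (q : ℝ × (ι → ℝ)) :
    c.pX (pert X Z q) = pert (fun r => c.pX (X r)) (fun i r => c.pZ (Z i r)) q := by
  rw [pert, pert, c.pX_add]
  congr 1
  funext p z
  simp [pZ, Finset.sum_apply]

end Gau

variable {c : Gau Ω₁ Ω₂ 1 γ₂}

theorem Gau.pt_one_GauA (t : ℝ) (z : F₁) : c.pt (t + 1) z = γ₂ (c.pt t z) := c.tw t z

theorem Gau.spt_GauA {f : Λ → ℝ} {g : Λ → F₁} (hf : ContDiff ℝ ∞ f) (hg : ContDiff ℝ ∞ g) :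
    ContDiff ℝ ∞ fun a => c.pt (f a) (g a) := (c.sx.comp hf).add ((c.sP.comp hf).clm_apply hg)

theorem Gau.sfld_GauA {f : Λ → ℝ} {g : Λ → F₁} {w : Λ → F₂} (hf : ContDiff ℝ ∞ f)
    (hg : ContDiff ℝ ∞ g) (hw : ContDiff ℝ ∞ w) :
    ContDiff ℝ ∞ fun a => c.Q (f a) (w a - deriv c.x0 (f a) - deriv c.P (f a) (g a)) :=
  (c.sQ.comp hf).clm_apply ((hw.sub (c.sdx_GauA.comp hf)).sub ((c.sdP_GauA.comp hf).clm_apply hg))

theorem Gau.perZ_GauA (hγ : γ₂ ∈ Γ₂) {W : F₂ → F₂} (hW : Ivf Γ₂ W) (t : ℝ) (z : F₁) :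
    c.Q (t + 1) (W (c.pt (t + 1) z)) = c.Q t (W (c.pt t z)) := by
  rw [c.pt_one_GauA, hW _ hγ, c.twQ_GauA, lin_one']

theorem Gau.perY_GauA (hγ : γ₂ ∈ Γ₂) {W : F₂ → F₂} (hW : Ivf Γ₂ W) (t : ℝ) (z : F₁) :
    c.Q (t + 1) (W (c.pt (t + 1) z) - deriv c.x0 (t + 1) - deriv c.P (t + 1) z) =
      c.Q t (W (c.pt t z) - deriv c.x0 t - deriv c.P t z) := by
  have h : deriv c.x0 (t + 1) + deriv c.P (t + 1) z = _ := c.tw_deriv t z
  rw [sub_sub, sub_sub, h, c.pt_one_GauA, hW _ hγ, ← c.aff₂.lin_sub_GauA, c.twQ_GauA, lin_one']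

theorem Gau.acs (hγ : γ₂ ∈ Γ₂) (hJ : IJ Ω₂ Γ₂ J) : ACS Ω₁ (c.pJ J) := by
  have hs := hJ.1.1.1
  refine ⟨⟨?_, fun t => ?_⟩, fun t z => ⟨fun v => ?_, fun a b => ?_, fun v hv => ?_⟩⟩
  · exact (c.sQ.comp contDiff_fst).clm_comp ((hs.comp (contDiff_fst.prodMk
      (c.spt_GauA contDiff_fst contDiff_snd))).clm_comp (c.sP.comp contDiff_fst))
  · ext z v
    have h1 := c.twP t v
    rw [lin_one'] at h1
    simp only [Gau.pJ, ContinuousLinearMap.comp_apply]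
    rw [c.pt_one_GauA, h1, hJ.1.1.2, hJ.2 _ hγ, c.twQ_GauA, lin_one']
  · simp only [Gau.pJ, ContinuousLinearMap.comp_apply, c.PQ, (hJ.1.2 _ _).1, map_neg, c.QP]
  · rw [← c.symp t, ← c.symp t a]
    simp only [Gau.pJ, ContinuousLinearMap.comp_apply, c.PQ, (hJ.1.2 _ _).2.1]
  · have := (hJ.1.2 t (c.pt t z)).2.2 (c.P t v) fun h =>
      hv (c.P_inj_GauA t (h.trans (map_zero _).symm))
    exact this.trans_eq (c.gj_P J t z v)

theorem Gau.sp (hγ : γ₂ ∈ Γ₂) (hY : IY Γ₂ Y) : SP (c.pY Y) := by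
  refine ⟨c.sfld_GauA contDiff_fst contDiff_snd (hY.1.1.comp (contDiff_fst.prodMk
    (c.spt_GauA contDiff_fst contDiff_snd))), fun t => funext fun z => ?_⟩
  rw [Gau.pY, hY.1.2]
  exact c.perY_GauA hγ (hY.2 t) t z

theorem Gau.fam {X : Λ → Pl → F₂ → F₂} {R : ℝ} (hγ : γ₂ ∈ Γ₂) (h : Fam X R)
    (inv : ∀ a q, Ivf Γ₂ (X a q)) : Fam (fun a => c.pX (X a)) R := by
  refine ⟨h.nonneg, c.sfld_GauA contDiff_snd.fst.snd contDiff_snd.snd
    (h.smooth.comp (contDiff_fst.prodMk (contDiff_snd.fst.prodMk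
      (c.spt_GauA contDiff_snd.fst.snd contDiff_snd.snd)))), fun a s t => funext fun z => ?_,
    fun a s hs => ?_, fun a s hs => ?_⟩
  · change c.Q (t + 1) (X a (s, t + 1) _ - _ - _) = _
    rw [h.per]
    exact c.perY_GauA hγ (inv a (s, t)) t z
  · rw [c.frz_pX, c.frz_pX, h.left a s hs]
  · rw [c.frz_pX, c.frz_pX, h.right a s hs]

theorem Gau.famZ {X : Λ → Pl → F₂ → F₂} {R : ℝ} (hγ : γ₂ ∈ Γ₂) (h : Fam X R)
    (inv : ∀ a q, Ivf Γ₂ (X a q)) : Fam (fun a => c.pZ (X a)) R := by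
  refine ⟨h.nonneg, (c.sQ.comp contDiff_snd.fst.snd).clm_apply
    (h.smooth.comp (contDiff_fst.prodMk (contDiff_snd.fst.prodMk
      (c.spt_GauA contDiff_snd.fst.snd contDiff_snd.snd)))), fun a s t => funext fun z => ?_,
    fun a s hs => funext fun t => funext fun z => ?_,
    fun a s hs => funext fun t => funext fun z => ?_⟩
  · change c.Q (t + 1) (X a (s, t + 1) _) = _
    rw [h.per]
    exact c.perZ_GauA hγ (inv a (s, t)) t z
  · exact congrArg (fun W : ℝ → F₂ → F₂ => c.Q t (W t (c.pt t z))) (h.left a s hs)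
  · exact congrArg (fun W : ℝ → F₂ → F₂ => c.Q t (W t (c.pt t z))) (h.right a s hs)

theorem Gau.ndA {V : Type} [NormedAddCommGroup V] [InnerProductSpace ℝ V] [Sym V]
    {c : Gau (Ω0 : V → V → ℝ) Ω₂ 1 γ₂} (hγ : γ₂ ∈ Γ₂) (hY : EndF Ω₂ Γ₂ Y) : NdA (c.pY Y) := 
  fun x hx => (c.gorb_iff fun t => (hY.1.1.1.comp (contDiff_const.prodMk contDiff_id)).differentiable
    (by simp)).1 (hY.2 _ hγ _ (c.orb_iff.2 hx))

end

end Pool.Agent.P.MP_de3acd_gt.FH
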