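import Pool.Agent.P.MP_de3acd_gt.FH.GauA
import Pool.Agent.P.MP_de3acd_gt.FH.JetN

/-! Gauge transformations of framed operators.
Sketch: the inverse gauge has x0' t = -Q t (x0 t), P' = Q, Q' = P; (Q P)' = 0 gives symm.op (op T) = T. So it is enough to prove one implication in each iff.
bdd: functions with all derivatives bounded on St are closed under products (ContinuousLinearMap.norm_iteratedFDeriv_le_of_bilinear) and contain the smooth functions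
of p.2 (continuity of iteratedFDeriv on the compact set {0} ×ˢ Icc 0 1 and translation invariance in s, or norm_iteratedFDeriv_comp_le with snd). lim: j ↦ P j Q,
B ↦ (P B + P') Q. Sec: MemLp.of_le_mul with Gau.bound. coh: an element of ⊥ is 1; cont with δ / (const); inv: T' = T. -/

open Set Filter Topology MeasureTheory
open scoped ContDiff NNReal ENNReal RealInnerProductSpace

namespace Pool.Agent.P.MP_de3acd_gt.FH

noncomputable section

variable {F₁ F₂ : Type} [NormedAddCommGroup F₁] [NormedSpace ℝ F₁] [FiniteDimensional ℝ F₁]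
  [NormedAddCommGroup F₂] [NormedSpace ℝ F₂] [FiniteDimensional ℝ F₂]
  {Ω₁ : F₁ → F₁ → ℝ} {Ω₂ : F₂ → F₂ → ℝ} {γ₁ : Equiv.Perm F₁} {γ₂ : Equiv.Perm F₂}
  {Γ₁ : Subgroup (Equiv.Perm F₁)} {Γ₂ : Subgroup (Equiv.Perm F₂)}

section

variable {U V W : Type} [NormedAddCommGroup U] [NormedSpace ℝ U] [NormedAddCommGroup V]
  [NormedSpace ℝ V] [NormedAddCommGroup W] [NormedSpace ℝ W]

/-- Smooth functions with bounded derivatives on the strip. -/
def BS_GauB (f : Pl → U) : Prop :=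
  ContDiff ℝ ∞ f ∧ ∀ k, ∃ C, ∀ p ∈ St, ‖iteratedFDeriv ℝ k f p‖ ≤ C

theorem le_GauB (k : ℕ) : (k : WithTop ℕ∞) ≤ (⊤ : ℕ∞) := by exact_mod_cast le_top

theorem BS_GauB.bil {f : Pl → U} {g : Pl → V} (B : U →L[ℝ] V →L[ℝ] W) (hf : BS_GauB f)
    (hg : BS_GauB g) : BS_GauB fun p => B (f p) (g p) := by
  choose C hC using hf.2
  choose D hD using hg.2
  refine ⟨(B.contDiff.comp hf.1).clm_apply hg.1, fun k => ⟨‖B‖ *
    ∑ i ∈ Finset.range (k + 1), (k.choose i : ℝ) * C i * D (k - i), fun p hp => ?_⟩⟩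
  refine (B.norm_iteratedFDeriv_le_of_bilinear hf.1 hg.1 p (le_GauB k)).trans
    (mul_le_mul_of_nonneg_left (Finset.sum_le_sum fun i _ => ?_) (norm_nonneg B))
  exact mul_le_mul (mul_le_mul_of_nonneg_left (hC i p hp) (Nat.cast_nonneg _)) (hD _ p hp)
    (norm_nonneg _) (mul_nonneg (Nat.cast_nonneg _) ((norm_nonneg _).trans (hC i p hp)))

theorem BS_GauB.comp {f : Pl → V →L[ℝ] W} {g : Pl → U →L[ℝ] V} (hf : BS_GauB f)
    (hg : BS_GauB g) : BS_GauB fun p => (f p).comp (g p) :=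
  hf.bil (ContinuousLinearMap.compL ℝ U V W) hg

theorem BS_GauB.clm {f : Pl → U} (L : U →L[ℝ] V) (hf : BS_GauB f) : BS_GauB fun p => L (f p) := by
  refine ⟨L.contDiff.comp hf.1, fun k => ?_⟩
  obtain ⟨C, hC⟩ := hf.2 k
  exact ⟨‖L‖ * C, fun p hp => (L.norm_iteratedFDeriv_comp_left hf.1.contDiffAt (le_GauB k)).trans
    (mul_le_mul_of_nonneg_left (hC p hp) (norm_nonneg _))⟩

theorem BS_GauB.sub {f g : Pl → U} (hf : BS_GauB f) (hg : BS_GauB g) :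
    BS_GauB fun p => f p - g p := by
  refine ⟨hf.1.sub hg.1, fun k => ?_⟩
  obtain ⟨C, hC⟩ := hf.2 k
  obtain ⟨D, hD⟩ := hg.2 k
  refine ⟨C + D, fun p hp => ?_⟩
  rw [fun_iteratedFDeriv_sub_apply (hf.1.of_le (le_GauB k)).contDiffAt
    (hg.1.of_le (le_GauB k)).contDiffAt]
  exact norm_sub_le_of_le (hC p hp) (hD p hp)

theorem BS_GauB.prod {f : Pl → U} {g : Pl → V} (hf : BS_GauB f) (hg : BS_GauB g) :
    BS_GauB fun p => (f p, g p) := by
  refine ⟨hf.1.prodMk hg.1, fun k => ?_⟩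
  obtain ⟨C, hC⟩ := hf.2 k
  obtain ⟨D, hD⟩ := hg.2 k
  refine ⟨max C D, fun p hp => ?_⟩
  rw [iteratedFDeriv_prodMk hf.1.contDiffAt hg.1.contDiffAt (le_GauB k),
    ContinuousMultilinearMap.opNorm_prod]
  exact max_le_max (hC p hp) (hD p hp)

theorem snd_GauB {g : ℝ → U} (hg : ContDiff ℝ ∞ g) : BS_GauB fun p : Pl => g p.2 := by
  refine ⟨hg.comp contDiff_snd, fun k => ?_⟩
  obtain ⟨C, hC⟩ := (isCompact_Icc (a := (0 : ℝ)) (b := 1)).exists_bound_of_continuousOn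
    (hg.continuous_iteratedFDeriv (le_GauB k)).continuousOn
  refine ⟨C * ∏ _i : Fin k, ‖ContinuousLinearMap.snd ℝ ℝ ℝ‖, fun p hp => ?_⟩
  have h := (ContinuousLinearMap.snd ℝ ℝ ℝ).iteratedFDeriv_comp_right hg p (le_GauB k)
  refine (congrArg norm h).trans_le
    ((ContinuousMultilinearMap.norm_compContinuousLinearMap_le _ _).trans ?_)
  exact mul_le_mul_of_nonneg_right (hC _ hp.2) (Finset.prod_nonneg fun _ _ => norm_nonneg _)

theorem ext_GauB {a b : ℕ} {T T' : Op U a b} (h1 : T.γ = T'.γ) (h2 : T.x = T'.x) (h3 : T.y = T'.y)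
    (h4 : ∀ p v, T.j p v = T'.j p v) (h5 : ∀ p v, T.S p v = T'.S p v) (h6 : T.K = T'.K)
    (h7 : T.l = T'.l) (h8 : T.M = T'.M) : T = T' := by
  have h4' : T.j = T'.j := funext fun p => ContinuousLinearMap.ext (h4 p)
  have h5' : T.S = T'.S := funext fun p => ContinuousLinearMap.ext (h5 p)
  cases T
  cases T'
  congr

theorem ae_GauB {q : Pl → Prop} (h : ∀ p ∈ St, q p) : ∀ᵐ p ∂volume.restrict St, q p :=
  ae_restrict_of_forall_mem (MeasurableSet.univ.prod measurableSet_Icc) h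

end

variable (c : Gau Ω₁ Ω₂ γ₁ γ₂) {a b a' b' : ℕ} {T : Op F₁ a b} {ξ : Pl → F₁}

namespace Gau

section

omit [FiniteDimensional ℝ F₁] [FiniteDimensional ℝ F₂]

theorem dP_GauB (t : ℝ) : HasDerivAt c.P (deriv c.P t) t :=
  (c.sP.differentiable (by simp) t).hasDerivAt

theorem dQ_GauB (t : ℝ) : HasDerivAt c.Q (deriv c.Q t) t :=
  (c.sQ.differentiable (by simp) t).hasDerivAt

theorem dQP_GauB (t : ℝ) (v : F₁) : deriv c.Q t (c.P t v) + c.Q t (deriv c.P t v) = 0 := by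
  have h := (c.dQ_GauB t).clm_apply ((c.dP_GauB t).clm_apply (hasDerivAt_const t v))
  simp only [c.QP, map_zero, add_zero] at h
  exact h.unique (hasDerivAt_const t v)

theorem dsymp_GauB (t : ℝ) (u v : F₁) :
    Ω₂ (deriv c.P t u) (c.P t v) + Ω₂ (c.P t u) (deriv c.P t v) = 0 := by
  obtain ⟨B, hB, -⟩ := c.form₂
  have h1 := (c.dP_GauB t).clm_apply (hasDerivAt_const t u)
  have h := (B.hasFDerivAt.comp_hasDerivAt t h1).clm_apply
    ((c.dP_GauB t).clm_apply (hasDerivAt_const t v))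
  simp only [Function.comp_def, map_zero, add_zero, ← hB, c.symp] at h
  exact h.unique (hasDerivAt_const t _)

/-- The inverse gauge transformation. -/
def inv_GauB : Gau Ω₂ Ω₁ γ₂ γ₁ where
  x0 t := -c.Q t (c.x0 t)
  P := c.Q
  Q := c.P
  sx := (c.sQ.clm_apply c.sx).neg
  sP := c.sQ
  sQ := c.sP
  PQ := c.QP
  QP := c.PQ
  form₁ := c.form₂
  form₂ := c.form₁
  symp t u v := by rw [← c.symp t, c.PQ, c.PQ]
  aff₁ := c.aff₂
  aff₂ := c.aff₁
  tw t z := by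
    have h := c.tw t (-c.Q t (c.x0 t) + c.Q t z)
    rw [map_add (c.P t), map_neg (c.P t), c.PQ, c.PQ, add_neg_cancel_left] at h
    rw [← h, map_add, c.QP, neg_add_cancel_left]

theorem op_op_GauB (c' : Gau Ω₂ Ω₁ γ₂ γ₁) (h1 : c'.P = c.Q) (h2 : c'.Q = c.P)
    (h3 : ∀ t z, c'.pt t (c.pt t z) = z) (hT : T.γ = γ₁) : c'.op (c.op T) = T := by
  have hv : ∀ ξ, c'.vec (c.vec ξ) = ξ := fun ξ => funext fun p => by
    rw [vec, vec, h1, c.QP]
  refine ext_GauB hT.symm (funext fun t => h3 t _) (funext fun t => h3 t _) (fun p v => ?_)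
    (fun p v => ?_) (funext fun i => hv _) (funext fun i => hv _) rfl
  · simp only [op, h1, h2, ContinuousLinearMap.comp_apply, c.QP]
  · have h := congrArg (T.j p) (c.dQP_GauB p.2 v)
    simp only [op, h1, h2, ContinuousLinearMap.comp_apply, c.QP, sub_apply,
      map_sub]
    rw [map_add, map_zero] at h
    rw [sub_sub, add_comm, h, sub_zero]

theorem fd_GauB (hξ : ContDiff ℝ ∞ ξ) (p v : Pl) :
    fderiv ℝ (c.vec ξ) p v = v.2 • deriv c.P p.2 (ξ p) + c.P p.2 (fderiv ℝ ξ p v) := by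
  have h1 : HasFDerivAt (fun q : Pl => c.P q.2) _ p :=
    (c.dP_GauB p.2).hasFDerivAt.comp p hasFDerivAt_snd
  have h2 : HasFDerivAt (c.vec ξ) _ p :=
    h1.clm_apply (hξ.differentiable (by simp) p).hasFDerivAt
  rw [h2.fderiv, add_comm]
  simp

/-- The action on the coefficients. -/
def co_GauB (t : ℝ) (q : (F₁ →L[ℝ] F₁) × (F₁ →L[ℝ] F₁)) : (F₂ →L[ℝ] F₂) × (F₂ →L[ℝ] F₂) :=
  ((c.P t).comp (q.1.comp (c.Q t)),
    (c.P t).comp ((q.2 - q.1.comp ((c.Q t).comp (deriv c.P t))).comp (c.Q t)))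

theorem cont_GauB (t : ℝ) : Continuous (c.co_GauB t) :=
  (continuous_const.clm_comp (continuous_fst.clm_comp continuous_const)).prodMk
    (continuous_const.clm_comp ((continuous_snd.sub
      (continuous_fst.clm_comp continuous_const)).clm_comp continuous_const))

theorem co_sub_GauB (T T' : Op F₁ a b) (p : Pl) :
    ((c.op T').j p - (c.op T).j p, (c.op T').S p - (c.op T).S p) =
      c.co_GauB p.2 (T'.j p - T.j p, T'.S p - T.S p) := by
  refine Prod.ext (ContinuousLinearMap.ext fun v => ?_) (ContinuousLinearMap.ext fun v => ?_)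
  · simp only [op, co_GauB, ContinuousLinearMap.comp_apply, sub_apply, map_sub]
  · simp only [op, co_GauB, ContinuousLinearMap.comp_apply, sub_apply, map_sub]
    abel

theorem nd_GauB {B : ℝ → F₁ →L[ℝ] F₁} (h : Nd γ₁ B)
    (tw : ∀ t v, c.Q (t + 1) (lin γ₂ v) = lin γ₁ (c.Q t v)) :
    Nd γ₂ fun t => ((c.P t).comp (B t) + deriv c.P t).comp (c.Q t) := fun ξ h1 h2 => by
  have h3 := h (fun t => c.Q t (ξ t)) (fun t => ?_) fun t => by simp only [h2, tw]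
  · funext t
    rw [← c.PQ t (ξ t), congrFun h3 t]
    exact map_zero _
  · refine ((c.dQ_GauB t).clm_apply (h1 t)).congr_deriv ?_
    have h4 := c.dQP_GauB t (c.Q t (ξ t))
    rw [c.PQ] at h4
    simp only [ContinuousLinearMap.comp_apply, add_apply, map_add, c.QP]
    rw [add_left_comm, h4, add_zero]

end

theorem twQ_GauB (t : ℝ) (v : F₂) : c.Q (t + 1) (lin γ₂ v) = lin γ₁ (c.Q t v) :=
  c.inv_GauB.twP t v

theorem twD_GauB (t : ℝ) (v : F₁) : deriv c.P (t + 1) (lin γ₁ v) = lin γ₂ (deriv c.P t v) := by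
  obtain ⟨L, hL⟩ := c.aff₂
  have h1 := c.tw_deriv t v
  have h2 := c.tw_deriv t 0
  rw [hL, map_add] at h1 h2
  rw [map_zero (deriv c.P t), map_zero L] at h2
  rw [hL, lin, map_sub]
  linear_combination (norm := module) h1 - h2

theorem sec_GauB (h : Sec γ₁ ξ) : Sec γ₂ (c.vec ξ) := by
  obtain ⟨A, -, hA⟩ := c.bound
  have h1 := c.contDiff_vec_iff.2 h.1
  refine ⟨h1, fun s t => ?_, h.2.2.of_le_mul (c := A) h1.continuous.aestronglyMeasurable
    (ae_GauB fun p hp => (c.P p.2).le_of_opNorm_le (hA _ hp.2).1 _)⟩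
  rw [vec, h.2.1]
  exact c.twP t _

theorem tst_GauB (h : Tst γ₁ ξ) : Tst γ₂ (c.vec ξ) := by
  obtain ⟨R, hR⟩ := h.2
  exact ⟨c.sec_GauB h.1, R, fun p hp => by rw [vec, hR p hp, map_zero]⟩

omit [FiniteDimensional ℝ F₁] [FiniteDimensional ℝ F₂] in
theorem vec_vec_GauB (ξ : Pl → F₁) : c.inv_GauB.vec (c.vec ξ) = ξ := funext fun p => c.QP p.2 _

theorem adm_GauB (h₂ : γ₂ ∈ Γ₂) (hT : T.γ = γ₁) (h : Adm Ω₁ Γ₁ T) : Adm Ω₂ Γ₂ (c.op T) := by
  subst hT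
  have b0 : BS_GauB fun p => (T.j p, T.S p) := ⟨h.smooth, h.bdd⟩
  have b1 : BS_GauB T.j := b0.clm (ContinuousLinearMap.fst ℝ _ _)
  have b2 : BS_GauB T.S := b0.clm (ContinuousLinearMap.snd ℝ _ _)
  have bP := snd_GauB c.sP
  have bQ := snd_GauB c.sQ
  have bD := snd_GauB (contDiff_infty_iff_deriv.1 c.sP).2
  have b3 : BS_GauB fun p => ((c.op T).j p, (c.op T).S p) :=
    (bP.comp (b1.comp bQ)).prod (bP.comp ((b2.sub (b1.comp (bQ.comp bD))).comp bQ))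
  have sy : ∀ t u v, Ω₁ (c.Q t u) (c.Q t v) = Ω₂ u v := c.inv_GauB.symp
  refine ⟨h₂, fun t => ⟨c.per_up_iff.2 (fun t => (h.tw t).1) t,
    c.per_up_iff.2 (fun t => (h.tw t).2) t⟩, b3.1, b3.2, fun s t v => ?_, fun p => ?_,
    fun e he => ?_, fun i => c.tst_GauB (h.tst.1 i), fun i => c.tst_GauB (h.tst.2 i)⟩
  · obtain ⟨L, hL⟩ := c.aff₁
    have e : ∀ u v, lin T.γ u - lin T.γ v = lin T.γ (u - v) := fun u v => by
      rw [hL, hL, hL, map_sub]
    simp only [op, ContinuousLinearMap.comp_apply, sub_apply, c.twQ_GauB,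
      c.twD_GauB, (h.eqv s t _).1, (h.eqv s t _).2, e, c.twP, and_self]
  · obtain ⟨h1, h2, h3⟩ := h.cpt p
    refine ⟨fun v => ?_, fun u v => ?_, fun v hv => ?_⟩
    · simp only [op, ContinuousLinearMap.comp_apply, c.QP, h1, map_neg, c.PQ]
    · simp only [op, ContinuousLinearMap.comp_apply, c.symp, h2, sy]
    · have h4 := h3 (c.Q p.2 v) fun h0 => hv (by rw [← c.PQ p.2 v, h0, map_zero])
      rwa [← c.symp p.2, c.PQ] at h4
  · obtain ⟨j, B, h1, h2, h3⟩ := h.lim e he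
    refine ⟨fun t => (c.P t).comp ((j t).comp (c.Q t)),
      fun t => ((c.P t).comp (B t) + deriv c.P t).comp (c.Q t), fun t => ?_, fun t u v => ?_,
      c.nd_GauB h3 c.twQ_GauB⟩
    · refine (((c.cont_GauB t).tendsto _).comp (h1 t)).trans (le_of_eq (congrArg 𝓝 ?_))
      refine Prod.ext rfl (ContinuousLinearMap.ext fun v => ?_)
      simp only [co_GauB, ContinuousLinearMap.comp_apply, sub_apply,
        neg_apply, add_apply, map_sub, map_neg, map_add,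
        c.QP]
      abel
    · obtain ⟨G, hG, -⟩ := c.form₂
      have h4 := h2 t (c.Q t u) (c.Q t v)
      have h5 := c.dsymp_GauB t (c.Q t u) (c.Q t v)
      rw [← c.symp t, ← c.symp t] at h4
      simp only [c.PQ, hG] at h4 h5
      simp only [hG, ContinuousLinearMap.comp_apply, add_apply, map_add]
      linarith

theorem exists_symm : ∃ c' : Gau Ω₂ Ω₁ γ₂ γ₁, c'.P = c.Q ∧ c'.Q = c.P ∧
    (∀ t z, c'.pt t (c.pt t z) = z) ∧ (∀ t z, c.pt t (c'.pt t z) = z) ∧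
    (∀ a b (T : Op F₁ a b), T.γ = γ₁ → c'.op (c.op T) = T) ∧
      ∀ a b (T : Op F₂ a b), T.γ = γ₂ → c.op (c'.op T) = T := by
  have h1 : ∀ t z, c.inv_GauB.pt t (c.pt t z) = z := fun t z => by
    simp only [pt, inv_GauB, map_add, c.QP, neg_add_cancel_left]
  have h2 : ∀ t z, c.pt t (c.inv_GauB.pt t z) = z := fun t z => by
    simp only [pt, inv_GauB, map_add, map_neg, c.PQ, add_neg_cancel_left]
  exact ⟨c.inv_GauB, rfl, rfl, h1, h2, fun _ _ _ hT => c.op_op_GauB _ rfl rfl h1 hT,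
    fun _ _ _ hT => c.inv_GauB.op_op_GauB c rfl rfl h2 hT⟩

theorem sec_iff : Sec γ₂ (c.vec ξ) ↔ Sec γ₁ ξ :=
  ⟨fun h => c.vec_vec_GauB ξ ▸ c.inv_GauB.sec_GauB h, c.sec_GauB⟩

theorem tst_iff : Tst γ₂ (c.vec ξ) ↔ Tst γ₁ ξ :=
  ⟨fun h => c.vec_vec_GauB ξ ▸ c.inv_GauB.tst_GauB h, c.tst_GauB⟩

theorem D_op (T : Op F₁ a b) (hξ : ContDiff ℝ ∞ ξ) : (c.op T).D (c.vec ξ) = c.vec (T.D ξ) := by
  funext p
  simp only [Op.D, ds, dt, c.fd_GauB hξ, op, vec, ContinuousLinearMap.comp_apply,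
    sub_apply, map_add, map_sub, c.QP, zero_smul, one_smul, zero_add]
  abel

theorem onto_GauB (hT : T.γ = γ₁) (h : Onto Ω₁ T) : Onto Ω₂ (c.op T) := fun η ν h1 h2 h3 => by
  subst hT
  obtain ⟨η, rfl⟩ := c.vec_bijective.2 η
  obtain ⟨h4, h5⟩ := h η ν (c.sec_iff.1 h1) (fun ξ hξ => by
    have h6 := h2 _ (c.tst_GauB hξ)
    rw [c.D_op T hξ.1.1] at h6
    simpa only [op, c.pair_vec] using h6) fun i => by simpa only [op, c.pair_vec] using h3 i
  exact ⟨by rw [h4, c.vec_zero], h5⟩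

theorem ok_GauB (h₂ : γ₂ ∈ Γ₂) (hT : T.γ = γ₁) (h : Ok Ω₁ Γ₁ T) : Ok Ω₂ Γ₂ (c.op T) := by
  refine ⟨c.adm_GauB h₂ hT h.1, c.onto_GauB hT h.2.1, fun ξ μ h1 h2 h3 => ?_⟩
  subst hT
  obtain ⟨ξ, rfl⟩ := c.vec_bijective.2 ξ
  have h6 := c.sec_iff.1 h1
  obtain ⟨h4, h5⟩ := h.2.2 ξ μ h6 (fun p => by
    have h7 := congrArg (c.Q p.2) (h2 p)
    rw [c.D_op T h6.1] at h7
    simpa only [op, vec, map_add, map_sum, map_smul, c.QP, map_zero] using h7)
    fun i => by simpa only [op, c.pair_vec] using h3 i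
  exact ⟨by rw [h4, c.vec_zero], h5⟩

omit [FiniteDimensional ℝ F₁] [FiniteDimensional ℝ F₂] in
theorem int_GauB {A δ : ℝ} (hA : ∀ t ∈ Icc (0 : ℝ) 1, ‖c.P t‖ ≤ A) {η : Pl → F₁} (h : Sec γ₁ ξ)
    (h' : Sec γ₁ η) (hδ : ∫ p in St, ‖ξ p - η p‖ ^ 2 ≤ δ) :
    ∫ p in St, ‖c.vec ξ p - c.vec η p‖ ^ 2 ≤ A ^ 2 * δ := by
  have h1 : MemLp (fun p => ξ p - η p) 2 (volume.restrict St) := h.2.2.sub h'.2.2
  refine le_trans ?_ (mul_le_mul_of_nonneg_left hδ (sq_nonneg A))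
  rw [← integral_const_mul]
  refine integral_mono_of_nonneg (Eventually.of_forall fun p => sq_nonneg _)
    (((memLp_two_iff_integrable_sq_norm h1.1).1 h1).const_mul _) (ae_GauB fun p hp => ?_)
  beta_reduce
  rw [vec, vec, ← map_sub, ← mul_pow]
  exact pow_le_pow_left₀ (norm_nonneg _) ((c.P p.2).le_of_opNorm_le (hA _ hp.2) _) 2

omit [FiniteDimensional ℝ F₁] [FiniteDimensional ℝ F₂] in
theorem co_le_GauB {A δ t : ℝ} (h1 : 1 ≤ A) (hP : ‖c.P t‖ ≤ A) (hQ : ‖c.Q t‖ ≤ A)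
    (hD : ‖deriv c.P t‖ ≤ A) {q : (F₁ →L[ℝ] F₁) × (F₁ →L[ℝ] F₁)} (hj : ‖q.1‖ ≤ δ)
    (hS : ‖q.2‖ ≤ δ) : ‖(c.co_GauB t q).1‖ ≤ 2 * A ^ 4 * δ ∧ ‖(c.co_GauB t q).2‖ ≤ 2 * A ^ 4 * δ := by
  have h0 : 0 ≤ A := zero_le_one.trans h1
  have hδ : 0 ≤ δ := (norm_nonneg _).trans hj
  have key : ∀ {U V W : Type} [NormedAddCommGroup U] [NormedSpace ℝ U] [NormedAddCommGroup V]
      [NormedSpace ℝ V] [NormedAddCommGroup W] [NormedSpace ℝ W] {f : V →L[ℝ] W} {g : U →L[ℝ] V}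
      {x y : ℝ}, ‖f‖ ≤ x → ‖g‖ ≤ y → ‖f.comp g‖ ≤ x * y := fun hf hg =>
    (ContinuousLinearMap.opNorm_comp_le _ _).trans
      (mul_le_mul hf hg (norm_nonneg _) ((norm_nonneg _).trans hf))
  have h2 : A ^ 2 * δ ≤ A ^ 4 * δ :=
    mul_le_mul_of_nonneg_right (pow_le_pow_right₀ h1 (by norm_num)) hδ
  have h3 : 0 ≤ A ^ 4 * δ := by positivity
  exact ⟨(key hP (key hj hQ)).trans (by linarith),
    (key hP (key (norm_sub_le_of_le hS (key hj (key hQ hD))) hQ)).trans (by linarith)⟩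

theorem adm_iff (h₁ : γ₁ ∈ Γ₁) (h₂ : γ₂ ∈ Γ₂) (hT : T.γ = γ₁) :
    Adm Ω₂ Γ₂ (c.op T) ↔ Adm Ω₁ Γ₁ T := by
  obtain ⟨c', -, -, -, -, h1, -⟩ := c.exists_symm
  exact ⟨fun h => h1 a b T hT ▸ c'.adm_GauB h₁ rfl h, c.adm_GauB h₂ hT⟩

theorem onto_iff (hT : T.γ = γ₁) : Onto Ω₂ (c.op T) ↔ Onto Ω₁ T := by
  obtain ⟨c', -, -, -, -, h1, -⟩ := c.exists_symm
  exact ⟨fun h => h1 a b T hT ▸ c'.onto_GauB rfl h, c.onto_GauB hT⟩

theorem ok_iff (h₁ : γ₁ ∈ Γ₁) (h₂ : γ₂ ∈ Γ₂) (hT : T.γ = γ₁) :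
    Ok Ω₂ Γ₂ (c.op T) ↔ Ok Ω₁ Γ₁ T := by
  obtain ⟨c', -, -, -, -, h1, -⟩ := c.exists_symm
  exact ⟨fun h => h1 a b T hT ▸ c'.ok_GauB h₁ rfl h, c.ok_GauB h₂ hT⟩

theorem op_glue (R : ℝ) (T : Op F₁ a b) (T' : Op F₁ a' b') :
    c.op (glue R T T') = glue R (c.op T) (c.op T') := by
  refine ext_GauB rfl rfl rfl (fun p v => ?_) (fun p v => ?_) (funext fun i => ?_)
    (funext fun i => ?_) rfl
  · simp only [op, glue]
    split_ifs <;> rfl
  · simp only [op, glue]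
    split_ifs <;> rfl
  · refine Fin.addCases (fun i => ?_) (fun i => ?_) i
    · simp only [op, glue, Fin.append_left]
      rfl
    · simp only [op, glue, Fin.append_right]
      rfl
  · refine Fin.addCases (fun i => ?_) (fun i => ?_) i
    · simp only [op, glue, Fin.append_left]
      rfl
    · simp only [op, glue, Fin.append_right]
      rfl

end Gau

theorem Gau.glu (c : Gau Ω₁ Ω₂ 1 γ₂) (hγ : γ₂ ∈ Γ₂) {o : ∀ a b, Op F₂ a b → ℤˣ}
    {η : ℕ → ℕ → ℕ → ℕ → ℤˣ} (h : Glu Ω₂ Γ₂ o η) : Glu Ω₁ ⊥ (c.po o) η := by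
  rintro a b a' b' T T' hT hT' - hy ⟨R, hR⟩
  have h1 := h a b a' b' (c.op T) (c.op T') (c.ok_GauB hγ (Subgroup.mem_bot.1 hT.1.mem) hT)
    (c.ok_GauB hγ (Subgroup.mem_bot.1 hT'.1.mem) hT') rfl (congrArg c.up hy)
    ⟨R, fun s hs s' hs' t => by
      simp only [Gau.op, (hR s hs s' hs' t).1, (hR s hs s' hs' t).2, and_self]⟩
  simpa only [Gau.po, c.op_glue] using h1

theorem Gau.coh (c : Gau Ω₁ Ω₂ 1 γ₂) (hγ : γ₂ ∈ Γ₂) {o : ∀ a b, Op F₂ a b → ℤˣ} (h : Coh Ω₂ Γ₂ o) :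
    Coh Ω₁ ⊥ (c.po o) := by
  refine ⟨fun a b T hT => ?_, fun a b T i hT => ?_, ?_,
    fun g hg a b T T' hT h1 h2 h3 h4 h5 h6 h7 => ?_⟩
  · have e := Subgroup.mem_bot.1 hT.1.mem
    obtain ⟨δ, hδ, H⟩ := h.cont a b (c.op T) (c.ok_GauB hγ e hT)
    obtain ⟨A, hA, hb⟩ := c.bound
    have h0 : 0 < 2 * A ^ 4 := by positivity
    have k0 : 0 < δ / (2 * A ^ 4) := div_pos hδ h0
    have k1 : 2 * A ^ 4 * (δ / (2 * A ^ 4)) = δ := mul_div_cancel₀ _ h0.ne'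
    have k2 : A ^ 2 * (δ / (2 * A ^ 4)) ≤ δ := by
      refine le_trans (mul_le_mul_of_nonneg_right ?_ k0.le) k1.le
      linarith [pow_le_pow_right₀ hA (by norm_num : 2 ≤ 4)]
    have k3 : δ / (2 * A ^ 4) ≤ δ := (le_mul_of_one_le_left k0.le (one_le_pow₀ hA)).trans k2
    refine ⟨_, k0, fun T' h1 h2 h3 h4 h5 h6 h7 h8 h9 => ?_⟩
    have e' := h2.trans e
    refine H (c.op T') (c.adm_GauB hγ e' h1) rfl (congrArg c.up h3) (congrArg c.up h4)
      (fun t => ?_) (fun p hp => ?_) (fun i => ?_) (fun i => ?_) (h9.trans k3)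
    · simp only [c.co_sub_GauB]
      refine (((c.cont_GauB t).tendsto _).comp (h5 t)).trans (le_of_eq (congrArg 𝓝 ?_))
      simp [Gau.co_GauB]
    · have h10 := c.co_le_GauB (q := (T'.j p - T.j p, T'.S p - T.S p)) hA (hb _ hp.2).1
        (hb _ hp.2).2.1 (hb _ hp.2).2.2.1 (h6 p hp).1 (h6 p hp).2
      rwa [← c.co_sub_GauB, k1] at h10
    · exact (c.int_GauB (fun t ht => (hb t ht).1) (e' ▸ (h1.tst.1 i).1) (e ▸ (hT.1.tst.1 i).1)
        (h7 i)).trans k2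
    · exact (c.int_GauB (fun t ht => (hb t ht).1) (e' ▸ (h1.tst.2 i).1) (e ▸ (hT.1.tst.2 i).1)
        (h8 i)).trans k2
  · refine (congrArg (o a b) ?_).trans
      (h.neg a b (c.op T) i (c.ok_GauB hγ (Subgroup.mem_bot.1 hT.1.mem) hT))
    refine ext_GauB rfl rfl rfl (fun _ _ => rfl) (fun _ _ => rfl) rfl (funext fun i' => ?_) rfl
    refine (Function.apply_update (fun _ => c.vec) T.l i (-T.l i) i').trans ?_
    exact congrArg (Function.update _ i · i') (funext fun p => map_neg (c.P p.2) _)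
  · obtain ⟨η, hη⟩ := Coh.exists_glu h
    exact ⟨η, c.glu hγ hη⟩
  · obtain rfl := Subgroup.mem_bot.1 hg
    simp only [lin_one'] at h4
    exact congrArg _ (ext_GauB (by simpa using h1) h2 h3 (fun p v => (h4 p v).1)
      (fun p v => (h4 p v).2) (funext fun i => (h5 i).trans (funext fun p => lin_one' _))
      (funext fun i => (h6 i).trans (funext fun p => lin_one' _)) h7)

end

end Pool.Agent.P.MP_de3acd_gt.FH
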