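import Pool.Agent.P.MP_de3acd_gt.FH.Defs7
import Pool.Agent.P.MP_de3acd_gt.FH.GauB

/-! Glued operators are admissible.
Sketch: for R larger than the constant R₀ of Mat the pair (j, S) of glue R T T' equals the pair of T at p + (R, 0) on the open set p.1 < R - R₀ and the pair of T' at p + (-R, 0) on the open set R₀ - R < p.1.
Filter.EventuallyEq.iteratedFDeriv, iteratedFDeriv_comp_add_right, ContDiffAt.congr_of_eventuallyEq; tendsto_atBot_add_const_right, Tendsto.congr'. Tst.tsl: the translation preserves volume.restrict St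
(MeasurePreserving.restrict_preimage, MemLp.comp_measurePreserving), Fin.addCases. -/

open Set Filter Topology MeasureTheory
open scoped ContDiff NNReal ENNReal RealInnerProductSpace

namespace Pool.Agent.P.MP_de3acd_gt.FH

noncomputable section

variable {F : Type} [NormedAddCommGroup F] [NormedSpace ℝ F] {Ω : F → F → ℝ}
  {Γ : Subgroup (Equiv.Perm F)} {γ : Equiv.Perm F} {a b a' b' : ℕ} {T : Op F a b} {T' : Op F a' b'}

theorem Tst.tsl {ξ : Pl → F} (h : Tst γ ξ) (r : ℝ) : Tst γ fun p => ξ (p.1 + r, p.2) := by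
  obtain ⟨⟨h1, h2, h3⟩, R, h4⟩ := h
  refine ⟨⟨h1.comp (f := fun p : Pl => (p.1 + r, p.2)) (by fun_prop), fun s t => h2 (s + r) t, ?_⟩,
    R + |r|, fun p hp => h4 _ ?_⟩
  · have h5 := ((measurePreserving_add_right volume r).prod
      (MeasurePreserving.id (volume : Measure ℝ))).restrict_preimage
        (MeasurableSet.univ.prod (measurableSet_Icc (a := (0 : ℝ)) (b := 1)))
    rw [preimage_prod_map_prod, preimage_univ, preimage_id] at h5
    exact h3.comp_measurePreserving h5
  · have h5 := abs_sub (p.1 + r) r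
    rw [add_sub_cancel_right] at h5
    linarith

theorem Mat.glue (h : Mat T T') : ∃ R₀, ∀ R, R₀ < R → ∀ p : Pl,
    (p.1 ≤ 0 → (glue R T T').j =ᶠ[𝓝 p] tsl (R, 0) T.j ∧ (glue R T T').S =ᶠ[𝓝 p] tsl (R, 0) T.S) ∧
      (0 ≤ p.1 → (glue R T T').j =ᶠ[𝓝 p] tsl (-R, 0) T'.j ∧
        (glue R T T').S =ᶠ[𝓝 p] tsl (-R, 0) T'.S) := by
  obtain ⟨R₀, h⟩ := h
  refine ⟨R₀, fun R hR p => ⟨fun hp => eventually_and.1 ?_, fun hp => eventually_and.1 ?_⟩⟩
  · filter_upwards [(isOpen_lt continuous_fst continuous_const).mem_nhds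
      (show p.1 < R - R₀ by linarith)] with q hq
    have e : q + (R, 0) = (q.1 + R, q.2) := Prod.ext rfl (add_zero _)
    simp only [MP_de3acd_gt.glue, tsl, e]
    split_ifs with h1
    · exact ⟨rfl, rfl⟩
    · have h2 := h (q.1 + R) (by linarith) (R - q.1) (by linarith) q.2
      rw [neg_sub] at h2
      exact ⟨h2.1.symm, h2.2.symm⟩
  · filter_upwards [(isOpen_lt continuous_const continuous_fst).mem_nhds
      (show R₀ - R < p.1 by linarith)] with q hq
    have e : q + (-R, 0) = (q.1 - R, q.2) := Prod.ext (sub_eq_add_neg _ _).symm (add_zero _)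
    simp only [MP_de3acd_gt.glue, tsl, e]
    split_ifs with h1
    · have h2 := h (q.1 + R) (by linarith) (R - q.1) (by linarith) q.2
      rwa [neg_sub] at h2
    · exact ⟨rfl, rfl⟩

theorem Adm.glue (h : Adm Ω Γ T) (h' : Adm Ω Γ T') (e : T.γ = T'.γ) (hM : Mat T T') :
    ∀ᶠ R in atTop, Adm Ω Γ (glue R T T') := by
  obtain ⟨R₀, h0⟩ := hM.glue
  filter_upwards [eventually_gt_atTop R₀] with R hR
  have h1 : ∀ p : Pl, p.1 ≤ 0 → (fun q => ((MP_de3acd_gt.glue R T T').j q, (MP_de3acd_gt.glue R T T').S q)) =ᶠ[𝓝 p]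
      fun q => (fun q => (T.j q, T.S q)) (q + (R, 0)) := fun p hp =>
    ((h0 R hR p).1 hp).1.prodMk ((h0 R hR p).1 hp).2
  have h2 : ∀ p : Pl, 0 ≤ p.1 → (fun q => ((MP_de3acd_gt.glue R T T').j q, (MP_de3acd_gt.glue R T T').S q)) =ᶠ[𝓝 p]
      fun q => (fun q => (T'.j q, T'.S q)) (q + (-R, 0)) := fun p hp =>
    ((h0 R hR p).2 hp).1.prodMk ((h0 R hR p).2 hp).2
  have h3 : ∀ {ξ : Pl → F}, Tst T'.γ ξ → Tst T.γ fun p => ξ (p.1 - R, p.2) := fun hξ => by
    simpa only [e, sub_eq_add_neg] using Tst.tsl hξ (-R)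
  refine ⟨h.mem, fun t => ⟨(h.tw t).1, (h'.tw t).2.trans (by rw [← e]; rfl)⟩,
    contDiff_iff_contDiffAt.2 fun p => ?_, fun k => ?_, fun s t v => ?_, fun p => ?_,
    fun l hl => ?_, fun i => ?_, fun i => ?_⟩
  · rcases le_total p.1 0 with hp | hp
    · exact (h.smooth.comp (contDiff_id.add contDiff_const)).contDiffAt.congr_of_eventuallyEq
        (h1 p hp)
    · exact (h'.smooth.comp (contDiff_id.add contDiff_const)).contDiffAt.congr_of_eventuallyEq
        (h2 p hp)
  · obtain ⟨C, hC⟩ := h.bdd k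
    obtain ⟨C', hC'⟩ := h'.bdd k
    refine ⟨max C C', fun p hs => ?_⟩
    have h4 : ∀ r : ℝ, p + (r, 0) ∈ St := fun r => ⟨trivial, by simpa using hs.2⟩
    rcases le_total p.1 0 with hp | hp
    · rw [((h1 p hp).iteratedFDeriv ℝ k).eq_of_nhds,
        iteratedFDeriv_comp_add_right (f := fun q => (T.j q, T.S q))]
      exact (hC _ (h4 _)).trans (le_max_left _ _)
    · rw [((h2 p hp).iteratedFDeriv ℝ k).eq_of_nhds,
        iteratedFDeriv_comp_add_right (f := fun q => (T'.j q, T'.S q))]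
      exact (hC' _ (h4 _)).trans (le_max_right _ _)
  · simp only [MP_de3acd_gt.glue]
    split_ifs
    · exact h.eqv _ t v
    · rw [e]
      exact h'.eqv _ t v
  · simp only [MP_de3acd_gt.glue]
    split_ifs
    · exact h.cpt _
    · exact h'.cpt _
  · rcases hl with rfl | rfl
    · obtain ⟨j, B, h4, h5, h6⟩ := h.lim _ (Or.inl rfl)
      refine ⟨j, B, fun t => ((h4 t).comp (tendsto_atBot_add_const_right _ R tendsto_id)).congr' ?_,
        h5, h6⟩
      filter_upwards [eventually_le_atBot 0] with s hs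
      simp only [MP_de3acd_gt.glue, if_pos hs]
      rfl
    · obtain ⟨j, B, h4, h5, h6⟩ := h'.lim _ (Or.inr rfl)
      refine ⟨j, B, fun t =>
        ((h4 t).comp (tendsto_atTop_add_const_right _ (-R) tendsto_id)).congr' ?_, h5, e ▸ h6⟩
      filter_upwards [eventually_gt_atTop 0] with s hs
      simp only [MP_de3acd_gt.glue, if_neg hs.not_ge, sub_eq_add_neg]
      rfl
  · refine Fin.addCases (fun i => ?_) (fun i => ?_) i
    · simp only [MP_de3acd_gt.glue, Fin.append_left]
      exact Tst.tsl (h.tst.1 i) R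
    · simp only [MP_de3acd_gt.glue, Fin.append_right]
      exact h3 (h'.tst.1 i)
  · refine Fin.addCases (fun i => ?_) (fun i => ?_) i
    · simp only [MP_de3acd_gt.glue, Fin.append_left]
      exact Tst.tsl (h.tst.2 i) R
    · simp only [MP_de3acd_gt.glue, Fin.append_right]
      exact h3 (h'.tst.2 i)

end

end Pool.Agent.P.MP_de3acd_gt.FH
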