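import Pool.Agent.P.MP_de3acd_gt.FH.FinA

/-! The oriented one-manifold.
Sketch: Φ from PData.exists_F; O = {q | ∃ a (K l : Fin a → Pl → V) M, TF l ∧ Bijective (frm (d1 Φ q) K l M)} is open (bijective_open, IsF.continuous_d1);
nice_of_zero, fderiv_xi, hasIdx_of_frm, Ell.exists_frame, HasIdx.unique. reg: Good1, surjective_kmap_one, fderiv_eq_coprod, HasIdx.coprod.
Pos q τ = ∃ u l m, Nice J (X q.2) x z u ∧ q.1 = xi x z u ∧ l ∈ Dsub V ∧ 0 < prW l τ.1 + m * τ.2 ∧ Ok (lop ..) ∧ o 1 1 (lop .. ![kr] ![l] ![![m]]) = 1.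
A frame (l, m) is Ok iff it does not vanish on the kernel vector (frm_one, HasIdx.bijective_prod, ker_one); two frames that are positive on τ have the same sign
(sign_path along the segment of frames); (l, m) ↦ (-l, -m) reverses the sign (Coh.neg; Function.update on Fin 1). Frames that are positive on τ exist:
exists_prW_pos if τ.1 ≠ 0, else l = 0, m = τ.2. cont: along the filter 𝓝 (q, τ) ⊓ 𝓟 {..} choose the solutions u p (ref x z + fn p.1.1); wc_iff, apb,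
cn_of_wc, var_tendsto, sign_near. -/

open Set Filter Topology MeasureTheory
open scoped ContDiff NNReal ENNReal RealInnerProductSpace

namespace Pool.Agent.P.MP_de3acd_gt.FH

noncomputable section

variable {V : Type} [NormedAddCommGroup V] [InnerProductSpace ℝ V] [Sym V]

variable {J : ℝ → V → V →L[ℝ] V} {X : ℝ → Pl → V → V} {R B : ℝ} {Y Y' : ℝ → V → V} {x z : ℝ → V}
  {o : ∀ a b, Op V a b → ℤˣ}

theorem continuous_blk_Hom1 {E F A C : Type} [NormedAddCommGroup E] [NormedSpace ℝ E]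
    [NormedAddCommGroup F] [NormedSpace ℝ F] [NormedAddCommGroup A] [NormedSpace ℝ A]
    [NormedAddCommGroup C] [NormedSpace ℝ C] (K : A →L[ℝ] F) (l : E →L[ℝ] C) (M : A →L[ℝ] C) :
    Continuous fun D : E →L[ℝ] F => blk D K l M := by
  have e : ∀ D : E →L[ℝ] F, blk D K l M = (ContinuousLinearMap.inl ℝ F C).comp
      (D.comp (ContinuousLinearMap.fst ℝ E A)) + blk 0 K l M := fun D =>
    ContinuousLinearMap.ext fun q => by simp
  rw [funext e]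
  exact (continuous_const.clm_comp (continuous_id.clm_comp continuous_const)).add continuous_const

/-- The points at which the derivative has index zero. -/
def O_Hom1 (Φ : W 2 V × ℝ → W 1 V) : Set (W 2 V × ℝ) :=
  {q | ∃ (a : ℕ) (K l : Fin a → Pl → V) (M : Fin a → Fin a → ℝ), TF l ∧
    Function.Bijective (frm (d1 Φ q) K l M)}

/-- The positive tangent vectors. -/
def Pos_Hom1 (o : ∀ a b, Op V a b → ℤˣ) (J : ℝ → V → V →L[ℝ] V) (X : ℝ → Pl → V → V)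
    (x z : ℝ → V) (q τ : W 2 V × ℝ) : Prop :=
  ∃ (u l : Pl → V) (m : ℝ), Nice J (X q.2) x z u ∧ q.1 = xi x z u ∧ 0 < prW l τ.1 + m * τ.2 ∧
    Ok Ω0 ⊥ (lop 1 J (X q.2) x z u ![kr J X q.2 u] ![l] ![![m]]) ∧
      o 1 1 (lop 1 J (X q.2) x z u ![kr J X q.2 u] ![l] ![![m]]) = 1

variable {Φ : W 2 V × ℝ → W 1 V} {u l l' : Pl → V} {r m m' : ℝ} {τ : W 2 V × ℝ}

omit [Sym V] in
theorem tf_Hom1 (h : l ∈ Dsub V) : TF ![l] := fun i => by
  fin_cases i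
  exact h

theorem fderiv_Hom1 (h : PData J X R Y Y' x z) (hΦ : IsF J X (ref x z) Φ) (hu : Pth x z u) (r : ℝ)
    (τ : W 2 V × ℝ) :
    fderiv ℝ Φ (xi x z u, r) τ = Du J (X r) u τ.1 + τ.2 • toW 1 (kr J X r u) := by
  obtain ⟨h1, h2⟩ := h.fderiv_xi hΦ hu r
  have e : τ = (τ.1, 0) + τ.2 • ((0 : W 2 V), (1 : ℝ)) := by simp
  conv_lhs => rw [e, map_add, map_smul, h2 0 1, map_zero, zero_add]
  rw [← h1]
  rfl

theorem eq_Hom1 (h : PData J X R Y Y' x z) (hΦ : IsF J X (ref x z) Φ) :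
    {q ∈ O_Hom1 Φ | Φ q = 0} = Z0 J X x z := by
  ext ⟨ξ, r⟩
  constructor
  · rintro ⟨⟨a, K, l, M, h1, h2⟩, h3⟩
    obtain ⟨h4, h5⟩ := h.nice_of_zero hΦ h3 h1 h2
    refine ⟨_, h4, h5.symm, ?_⟩
    have h6 := hasIdx_of_frm h2
    have h7 := (h.fderiv_xi hΦ h4.pth r).1
    rw [h5] at h7
    rwa [sub_self, h7] at h6
  · rintro ⟨u, h1, rfl, h3⟩
    obtain ⟨a, b, K, l, M, -, h4, h5⟩ := (h.ell h1.pth r).exists_frame
    have h6 := (hasIdx_of_frm h5).unique h3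
    rw [Fintype.card_fin, Fintype.card_fin] at h6
    obtain rfl : a = b := by omega
    exact ⟨⟨a, K, l, M, h4, by rwa [(h.fderiv_xi hΦ h1.pth r).1]⟩, (h.zero_iff hΦ h1.pth r).2 h1⟩

theorem reg_Hom1 (h : PData J X R Y Y' x z) (good : Good1 J X x z) (hΦ : IsF J X (ref x z) Φ)
    (hu : Nice J (X r) x z u) (h0 : HasIdx (Du J (X r) u) 0) :
    Function.Surjective (fderiv ℝ Φ (xi x z u, r)) ∧ HasIdx (fderiv ℝ Φ (xi x z u, r)) 1 := by
  constructor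
  · rw [funext (fderiv_Hom1 h hΦ hu.pth r)]
    exact (surjective_kmap_one _ _).1 (good r u 0 hu h0 le_rfl)
  · rw [fderiv_eq_coprod, (h.fderiv_xi hΦ hu.pth r).1]
    simpa using h0.coprod ((fderiv ℝ Φ (xi x z u, r)).comp (ContinuousLinearMap.inr ℝ _ _))

theorem ok_iff_Hom1 (h : PData J X R Y Y' x z) (hΦ : IsF J X (ref x z) Φ) (hu : Pth x z u) :
    Ok Ω0 ⊥ (lop 1 J (X r) x z u ![kr J X r u] ![l] ![![m]]) ↔ l ∈ Dsub V ∧
      Function.Bijective fun q => (fderiv ℝ Φ (xi x z u, r) q, prW l q.1 + m * q.2) := by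
  rw [ok_lop_iff h.acs (h.fam.fld r) (h.gorb r).1 (h.gorb r).2 hu, frm_one]
  simp only [fderiv_Hom1 h hΦ hu r]
  exact ⟨fun H => ⟨H.2.1 0, H.2.2⟩, fun H => ⟨tf_Hom1 (h.var_mem hu r 1), tf_Hom1 H.1, H.2⟩⟩

theorem ok_Hom1 (h : PData J X R Y Y' x z) (good : Good1 J X x z) (hΦ : IsF J X (ref x z) Φ)
    (hu : Nice J (X r) x z u) (h0 : HasIdx (Du J (X r) u) 0) (e : fderiv ℝ Φ (xi x z u, r) τ = 0)
    (hl : l ∈ Dsub V) (hp : prW l τ.1 + m * τ.2 ≠ 0) :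
    Ok Ω0 ⊥ (lop 1 J (X r) x z u ![kr J X r u] ![l] ![![m]]) := by
  obtain ⟨h1, h2⟩ := reg_Hom1 h good hΦ hu h0
  exact (ok_iff_Hom1 h hΦ hu.pth).2 ⟨hl, h2.bijective_prod h1 e
    (f := (prW l).comp (ContinuousLinearMap.fst ℝ (W 2 V) ℝ) +
      m • ContinuousLinearMap.snd ℝ (W 2 V) ℝ) hp⟩

theorem idx_Hom1 (h : PData J X R Y Y' x z) (hu : Pth x z u)
    (H : Ok Ω0 ⊥ (lop 1 J (X r) x z u ![kr J X r u] ![l] ![![m]])) : HasIdx (Du J (X r) u) 0 := by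
  have h1 := hasIdx_of_frm
    ((ok_lop_iff h.acs (h.fam.fld r) (h.gorb r).1 (h.gorb r).2 hu _ _ _).1 H).2.2
  rwa [sub_self] at h1

theorem sign_Hom1 (ho : Coh Ω0 ⊥ o) (h : PData J X R Y Y' x z) (good : Good1 J X x z)
    (hΦ : IsF J X (ref x z) Φ) (hu : Nice J (X r) x z u) (h0 : HasIdx (Du J (X r) u) 0)
    (e : fderiv ℝ Φ (xi x z u, r) τ = 0) (hl : l ∈ Dsub V) (hl' : l' ∈ Dsub V)
    (hp : 0 < prW l τ.1 + m * τ.2) (hp' : 0 < prW l' τ.1 + m' * τ.2) :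
    o 1 1 (lop 1 J (X r) x z u ![kr J X r u] ![l'] ![![m']]) =
      o 1 1 (lop 1 J (X r) x z u ![kr J X r u] ![l] ![![m]]) := by
  refine h.sign_path ho hu.pth hu.pth (K := fun _ => ![kr J X r u])
    (fun _ => tf_Hom1 (h.var_mem hu.pth r 1)) (tf_Hom1 hl) (tf_Hom1 hl')
    (fun _ i => by simpa only [sub_self, nrm_zero_fun] using tendsto_const_nhds) fun s hs => ?_
  have e1 : ![l] + s • (![l'] - ![l]) = ![(1 - s) • l + s • l'] := by
    ext i p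
    fin_cases i
    simp [sub_smul, smul_sub]
    abel
  have e2 : ![![m]] + s • (![![m']] - ![![m]]) = ![![(1 - s) * m + s * m']] := by
    ext i j
    fin_cases i
    fin_cases j
    simp
    ring
  have m1 := (Dsub V).smul_mem (1 - s) hl
  have m2 := (Dsub V).smul_mem s hl'
  simp only [sub_self, smul_zero, add_zero, e1, e2]
  refine ((ok_lop_iff h.acs (h.fam.fld r) (h.gorb r).1 (h.gorb r).2 hu.pth _ _ _).1
    (ok_Hom1 h good hΦ hu h0 e ((Dsub V).add_mem m1 m2) (ne_of_gt ?_))).2.2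
  rw [prW_add m1 m2, prW_smul _ hl, prW_smul _ hl']
  change 0 < (1 - s) * prW l τ.1 + s * prW l' τ.1 + _
  rcases hs.1.eq_or_lt with rfl | h1
  · linarith
  · nlinarith [mul_pos h1 hp', mul_nonneg (sub_nonneg.2 hs.2) hp.le]

theorem pos_iff_Hom1 (ho : Coh Ω0 ⊥ o) (h : PData J X R Y Y' x z) (good : Good1 J X x z)
    (hΦ : IsF J X (ref x z) Φ) (hu : Nice J (X r) x z u) (h0 : HasIdx (Du J (X r) u) 0)
    (e : fderiv ℝ Φ (xi x z u, r) τ = 0) (hl : l ∈ Dsub V) (hp : 0 < prW l τ.1 + m * τ.2) :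
    Pos_Hom1 o J X x z (xi x z u, r) τ ↔
      o 1 1 (lop 1 J (X r) x z u ![kr J X r u] ![l] ![![m]]) = 1 := by
  refine ⟨?_, fun H => ⟨u, l, m, hu, rfl, hp, ok_Hom1 h good hΦ hu h0 e hl hp.ne', H⟩⟩
  rintro ⟨u', l', m', h1, h2, h3, h4, h5⟩
  obtain rfl : u = u' := by
    rw [← (h.rep_xi hu.pth).2, ← (h.rep_xi h1.pth).2]
    exact congrArg (fun ξ => ref x z + fn ξ) h2
  exact (sign_Hom1 ho h good hΦ hu h0 e ((ok_iff_Hom1 h hΦ hu.pth).1 h4).1 hl h3 hp).trans h5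

theorem neg_Hom1 (ho : Coh Ω0 ⊥ o) (h : PData J X R Y Y' x z) (good : Good1 J X x z)
    (hΦ : IsF J X (ref x z) Φ) (hu : Nice J (X r) x z u) (h0 : HasIdx (Du J (X r) u) 0)
    (hτ : τ ≠ 0) (e : fderiv ℝ Φ (xi x z u, r) τ = 0) :
    Pos_Hom1 o J X x z (xi x z u, r) τ ↔ ¬Pos_Hom1 o J X x z (xi x z u, r) (-τ) := by
  obtain ⟨l, m, hl, hp⟩ : ∃ (l : Pl → V) (m : ℝ), l ∈ Dsub V ∧ 0 < prW l τ.1 + m * τ.2 := by
    by_cases h1 : τ.1 = 0
    · refine ⟨0, τ.2, (Dsub V).zero_mem, ?_⟩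
      rw [h1, map_zero, zero_add]
      exact mul_self_pos.2 fun h2 => hτ (Prod.ext h1 h2)
    · obtain ⟨l, hl, hp⟩ := exists_prW_pos h1
      exact ⟨l, 0, hl, by simpa using hp⟩
  have hp' : 0 < prW (-l) (-τ).1 + -m * (-τ).2 := by
    rw [← neg_one_smul ℝ l, prW_smul _ hl]
    simpa using hp
  have h1 := ho.neg 1 1 _ 0 (ok_Hom1 h good hΦ hu h0 e hl hp.ne')
  have e1 : Function.update ![l] 0 (-![l] 0) = ![-l] := by
    ext i p
    fin_cases i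
    simp
  have e2 : Function.update ![![m]] 0 (-![![m]] 0) = ![![-m]] := by
    ext i j
    fin_cases i
    fin_cases j
    simp
  have h2 : o 1 1 (lop 1 J (X r) x z u ![kr J X r u] ![-l] ![![-m]]) =
      -o 1 1 (lop 1 J (X r) x z u ![kr J X r u] ![l] ![![m]]) := by
    rw [← e1, ← e2]
    exact h1
  rw [pos_iff_Hom1 ho h good hΦ hu h0 e hl hp,
    pos_iff_Hom1 ho h good hΦ hu h0 (by rw [map_neg, e, neg_zero]) ((Dsub V).neg_mem hl) hp', h2]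
  rcases Int.units_eq_one_or (o 1 1 (lop 1 J (X r) x z u ![kr J X r u] ![l] ![![m]])) with
    h3 | h3 <;> rw [h3] <;> decide

theorem cont_Hom1 (ho : Coh Ω0 ⊥ o) (h : PData J X R Y Y' x z) (good : Good1 J X x z)
    (hB : ∀ r u, Nice J (X r) x z u → Bnd B u) (hΦ : IsF J X (ref x z) Φ) {q : W 2 V × ℝ}
    (H : Pos_Hom1 o J X x z q τ) : ∀ᶠ p : (W 2 V × ℝ) × W 2 V × ℝ in 𝓝 (q, τ), p.1 ∈ Z0 J X x z →
      fderiv ℝ Φ p.1 p.2 = 0 → Pos_Hom1 o J X x z p.1 p.2 := by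
  obtain ⟨u, l, m, hu, h2, hp, h4, h5⟩ := H
  have hl := ((ok_iff_Hom1 h hΦ hu.pth).1 h4).1
  obtain ⟨f, f1, f2⟩ : ∃ f : (W 2 V × ℝ) × W 2 V × ℝ → Pl → V, (∀ p, Pth x z (f p)) ∧
      ∀ p, p.1 ∈ Z0 J X x z → Nice J (X p.1.2) x z (f p) ∧ p.1.1 = xi x z (f p) ∧
        HasIdx (Du J (X p.1.2) (f p)) 0 := by
    have : ∀ p : (W 2 V × ℝ) × W 2 V × ℝ, ∃ v, Pth x z v ∧ (p.1 ∈ Z0 J X x z →
        Nice J (X p.1.2) x z v ∧ p.1.1 = xi x z v ∧ HasIdx (Du J (X p.1.2) v) 0) := fun p => by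
      by_cases hp : p.1 ∈ Z0 J X x z
      · obtain ⟨v, hv⟩ := hp
        exact ⟨v, hv.1.pth, fun _ => hv⟩
      · exact ⟨u, hu.pth, fun hp' => absurd hp' hp⟩
    choose f hf using this
    exact ⟨f, fun p => (hf p).1, fun p => (hf p).2⟩
  set F : Filter ((W 2 V × ℝ) × W 2 V × ℝ) := 𝓝 (q, τ) ⊓ 𝓟 {p | p.1 ∈ Z0 J X x z} with hF
  have a0 : ∀ᶠ p in F, p.1 ∈ Z0 J X x z := mem_inf_of_right (mem_principal_self _)
  have a1 : Tendsto (fun p : (W 2 V × ℝ) × W 2 V × ℝ => p.1.2) F (𝓝 q.2) :=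
    (continuous_fst.snd.tendsto (q, τ)).mono_left inf_le_left
  have a2 : WC F f fun _ => u := by
    refine (h.wc_iff f1 fun _ => hu.pth).2 (Tendsto.congr' (a0.mono fun p hp => ?_)
      (((continuous_fst.fst.dist continuous_const).tendsto' (q, τ) 0
        (dist_self q.1)).mono_left inf_le_left))
    exact congrArg₂ dist (f2 p hp).2.1 h2
  have a3 := fun k ε hε => h.cn_of_wc a1
    (a0.mono fun p hp => ⟨(f2 p hp).1, (hB _ _ (f2 p hp).1).1⟩) hu.pth a2 k (ε := ε) hε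
  have a4 := h.sign_near ho hu.pth h4 (u' := f) (K' := fun p => ![kr J X p.1.2 (f p)])
    (L' := fun _ => ![l]) (M' := fun _ => ![![m]]) a1
    (Eventually.of_forall fun p => ⟨f1 p, tf_Hom1 (h.var_mem (f1 p) _ 1), tf_Hom1 hl⟩) (a3 1)
    (fun i => by
      fin_cases i
      exact h.var_tendsto a1 (fun p => (f1 p).bdd.1) hu.pth (a3 0) 1)
    (fun i => by simpa only [sub_self, nrm_zero_fun] using tendsto_const_nhds) tendsto_const_nhds
  have a5 : ∀ᶠ p : (W 2 V × ℝ) × W 2 V × ℝ in 𝓝 (q, τ), 0 < prW l p.2.1 + m * p.2.2 :=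
    (by fun_prop : Continuous fun p : (W 2 V × ℝ) × W 2 V × ℝ =>
      prW l p.2.1 + m * p.2.2).continuousAt.eventually_const_lt hp
  filter_upwards [eventually_inf_principal.1 a4, a5] with p b1 b2 b3 b4
  obtain ⟨c1, c2, c3⟩ := f2 p b3
  exact ⟨f p, l, m, c1, c2, b2, ok_Hom1 h good hΦ c1 c3 (by rw [← c2]; exact b4) hl b2.ne',
    (b1 b3).trans h5⟩

theorem exists_ori (ho : Coh Ω0 ⊥ o) (h : PData J X R Y Y' x z) (good : Good1 J X x z)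
    (hB : ∀ r u, Nice J (X r) x z u → Bnd B u) : ∃ Φ O Pos, Ori o J X x z Φ O Pos := by
  obtain ⟨Φ, hΦ⟩ := h.exists_F
  have hZ : ∀ {q}, q ∈ O_Hom1 Φ → Φ q = 0 → q ∈ Z0 J X x z := fun h1 h2 =>
    eq_Hom1 h hΦ ▸ mem_sep h1 h2
  refine ⟨Φ, O_Hom1 Φ, Pos_Hom1 o J X x z, hΦ.1, isOpen_iff_mem_nhds.2 ?_, eq_Hom1 h hΦ, ?_, ?_, ?_,
    fun q _ _ τ _ _ H => ?_, fun u r l m hu H τ hτ e => ⟨fun h1 => hτ ?_, fun hp => ?_⟩⟩
  · rintro q ⟨a, K, l, M, h1, h2⟩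
    filter_upwards [((continuous_blk_Hom1 (kmap K) (lmap l) (mmap M)).comp
      hΦ.continuous_d1).continuousAt.eventually (bijective_open h2)] with q' hq'
    exact ⟨a, K, l, M, h1, hq'⟩
  · rintro ⟨ξ, r⟩ h1 h2
    obtain ⟨u, hu, rfl, h0⟩ := hZ h1 h2
    exact reg_Hom1 h good hΦ hu h0
  · rintro ⟨ξ, r⟩ h1 h2 τ hτ e
    obtain ⟨u, hu, rfl, h0⟩ := hZ h1 h2
    exact neg_Hom1 ho h good hΦ hu h0 hτ e
  · rintro q τ r hr ⟨u, l, m, h1, h2, h3, h4⟩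
    refine ⟨u, l, m, h1, h2, (mul_pos hr h3).trans_eq ?_, h4⟩
    rw [Prod.smul_fst, Prod.smul_snd, map_smul, smul_eq_mul, smul_eq_mul]
    ring
  · exact (cont_Hom1 ho h good hB hΦ H).mono fun p hp h1 h2 => hp (hZ h1 h2)
  · refine ((ok_iff_Hom1 h hΦ hu.pth).1 H).2.1 ?_
    simp [e, h1]
  · exact pos_iff_Hom1 ho h good hΦ hu (idx_Hom1 h hu.pth H) e
      ((ok_iff_Hom1 h hΦ hu.pth).1 H).1 hp

end

end Pool.Agent.P.MP_de3acd_gt.FH
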