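import Pool.Agent.P.MP_de3acd_gt.FH.IEL
import Pool.Agent.P.MP_de3acd_gt.FH.JetC

/-! From a C¹ bound to a C² bound for a linear first order elliptic system whose coefficients have the
regularity of a composition with the solution.
Sketch: let d be ds or dt, words of length m, v = d^m u. Differentiating ds u + j dt u = f gives
ds v + j dt v = d^m f - (commutator terms), by ds_bil / dt_bil and ds_dt_comm. Write |u|_m q for the maximum of the norms of the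
derivatives of order exactly m (or ‖iteratedFDeriv m u q‖). m = 1: the right side is at most A + A A.
m = 2: at most C (1 + |u|_2). m = 3: at most C (1 + |u|_2 + |u|_2^2 + |u|_3). With radii r > r₁ > r₂ > r₃ > r₄: ell_loc gives
∫_{r₁} |u|_2^2 ≤ C, then ∫_{r₂} |u|_3^2 ≤ C, l4_loc gives ∫_{r₃} |u|_2^4 ≤ C, ell_loc gives ∫_{r₄} |u|_4^2 ≤ C, and sup_loc for
the second derivatives finishes. A convenient way to organise it: prove a lemma for ONE differentiation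
(if ds v + j dt v = g on the ball then ds (d v) + j dt (d v) = d g - (d j) (dt v) on the ball) and iterate it by hand.
c2_of_c1 follows with j = 𝕁 ∘ w, f = 𝔽 ∘ w, w = (κ, u), by the chain rule up to order three (all derivatives of 𝕁, 𝔽 up to
order three are bounded on the closed ball of radius A); e.g. fderiv (g ∘ w) = (fderiv g ∘ w) (fderiv w) and
norm_iteratedFDeriv_clm_apply-type bilinear bounds, or norm_iteratedFDeriv_comp_le for the orders where it suffices. -/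

open Set Filter Topology MeasureTheory
open scoped ContDiff NNReal ENNReal RealInnerProductSpace

namespace Pool.Agent.P.MP_de3acd_gt.FH

noncomputable section

variable {F F₁ F₂ : Type} [NormedAddCommGroup F] [NormedSpace ℝ F] [NormedAddCommGroup F₁]
  [NormedSpace ℝ F₁] [NormedAddCommGroup F₂] [NormedSpace ℝ F₂]
variable {C Λ : Type} [NormedAddCommGroup C] [NormedSpace ℝ C] [FiniteDimensional ℝ C]
  [NormedAddCommGroup Λ] [NormedSpace ℝ Λ] [FiniteDimensional ℝ Λ]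

section pointwise

/-- The norm of the derivative of order `k`. -/
def dn_IE1 (k : ℕ) (f : Pl → F) (q : Pl) : ℝ := ‖iteratedFDeriv ℝ k f q‖

/-- A directional derivative. -/
def dd_IE1 (e : Pl) (f : Pl → F) (q : Pl) : F := fderiv ℝ f q e

/-- The operator. -/
def lo_IE1 (j : Pl → F →L[ℝ] F) (v : Pl → F) (q : Pl) : F := ds v q + j q (dt v q)

theorem top_IE1 (k : ℕ) : (k : WithTop ℕ∞) ≤ ((⊤ : ℕ∞) : WithTop ℕ∞) := by
  exact_mod_cast le_top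

theorem dn_nonneg_IE1 (k : ℕ) (f : Pl → F) (q : Pl) : 0 ≤ dn_IE1 k f q := norm_nonneg _

theorem dn_zero_IE1 (f : Pl → F) (q : Pl) : dn_IE1 0 f q = ‖f q‖ := norm_iteratedFDeriv_zero

theorem dn_one_IE1 (f : Pl → F) (q : Pl) : dn_IE1 1 f q = ‖fderiv ℝ f q‖ :=
  norm_iteratedFDeriv_one f

theorem dn_fderiv_IE1 (k : ℕ) (f : Pl → F) (q : Pl) :
    dn_IE1 k (fderiv ℝ f) q = dn_IE1 (k + 1) f q := norm_iteratedFDeriv_fderiv

theorem dn_cont_IE1 (k : ℕ) {f : Pl → F} (hf : ContDiff ℝ ∞ f) : Continuous (dn_IE1 k f) :=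
  (hf.continuous_iteratedFDeriv (top_IE1 k)).norm

theorem dd_smooth_IE1 (e : Pl) {f : Pl → F} (hf : ContDiff ℝ ∞ f) : ContDiff ℝ ∞ (dd_IE1 e f) :=
  (hf.fderiv_right (m := ∞) le_rfl).clm_apply contDiff_const

theorem lo_smooth_IE1 {j : Pl → F →L[ℝ] F} {v : Pl → F} (hj : ContDiff ℝ ∞ j)
    (hv : ContDiff ℝ ∞ v) : ContDiff ℝ ∞ (lo_IE1 j v) :=
  (contDiff_ds hv).add (hj.clm_apply (contDiff_dt hv))

theorem dn_dd_IE1 (k : ℕ) {e : Pl} (he : ‖e‖ ≤ 1) {f : Pl → F} (hf : ContDiff ℝ ∞ f) (q : Pl) :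
    dn_IE1 k (dd_IE1 e f) q ≤ dn_IE1 (k + 1) f q := by
  refine (norm_iteratedFDeriv_clm_apply_const (N := ∞)
    (hf.fderiv_right (m := ∞) le_rfl).contDiffAt (top_IE1 k)).trans ?_
  rw [norm_iteratedFDeriv_fderiv]
  exact mul_le_of_le_one_left (norm_nonneg _) he

theorem dn_add_IE1 (k : ℕ) {f g : Pl → F} (hf : ContDiff ℝ ∞ f) (hg : ContDiff ℝ ∞ g) (q : Pl) :
    dn_IE1 k (f + g) q ≤ dn_IE1 k f q + dn_IE1 k g q := by
  rw [dn_IE1, iteratedFDeriv_add_apply (hf.of_le (top_IE1 k)).contDiffAt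
    (hg.of_le (top_IE1 k)).contDiffAt]
  exact norm_add_le _ _

theorem dn_sub_IE1 (k : ℕ) {f g : Pl → F} (hf : ContDiff ℝ ∞ f) (hg : ContDiff ℝ ∞ g) (q : Pl) :
    dn_IE1 k (f - g) q ≤ dn_IE1 k f q + dn_IE1 k g q := by
  rw [dn_IE1, iteratedFDeriv_sub_apply (hf.of_le (top_IE1 k)).contDiffAt
    (hg.of_le (top_IE1 k)).contDiffAt]
  exact norm_sub_le _ _

theorem dn_succ_IE1 (k : ℕ) {f : Pl → F} (hf : ContDiff ℝ ∞ f) (q : Pl) :
    dn_IE1 (k + 1) f q ≤ dn_IE1 k (dd_IE1 (1, 0) f) q + dn_IE1 k (dd_IE1 (0, 1) f) q := by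
  have key : ∀ (l : Pl →L[ℝ] ℝ) (g : Pl → F), ‖l‖ ≤ 1 → ContDiff ℝ ∞ g →
      dn_IE1 k (ContinuousLinearMap.smulRightL ℝ Pl F l ∘ g) q ≤ dn_IE1 k g q := by
    intro l g hl hg
    refine ((ContinuousLinearMap.smulRightL ℝ Pl F l).norm_iteratedFDeriv_comp_left (N := ∞)
      hg.contDiffAt (top_IE1 k)).trans ?_
    have h1 : ‖ContinuousLinearMap.smulRightL ℝ Pl F l‖ ≤ 1 :=
      ContinuousLinearMap.opNorm_le_bound _ zero_le_one fun v => by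
        rw [ContinuousLinearMap.smulRightL_apply_apply, ContinuousLinearMap.norm_smulRight_apply]
        exact mul_le_mul_of_nonneg_right hl (norm_nonneg _)
    exact mul_le_of_le_one_left (norm_nonneg _) h1
  have e : fderiv ℝ f =
      (ContinuousLinearMap.smulRightL ℝ Pl F (ContinuousLinearMap.fst ℝ ℝ ℝ) ∘ ds f) +
        ContinuousLinearMap.smulRightL ℝ Pl F (ContinuousLinearMap.snd ℝ ℝ ℝ) ∘ dt f :=
    funext fun q => ContinuousLinearMap.ext fun a => fderiv_eq_ds_dt f q a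
  rw [← dn_fderiv_IE1, e]
  exact (dn_add_IE1 k ((ContinuousLinearMap.contDiff _).comp (contDiff_ds hf))
    ((ContinuousLinearMap.contDiff _).comp (contDiff_dt hf)) q).trans (add_le_add
      (key _ _ (ContinuousLinearMap.norm_fst_le ..) (contDiff_ds hf))
      (key _ _ (ContinuousLinearMap.norm_snd_le ..) (contDiff_dt hf)))

theorem dn_prod_IE1 (k : ℕ) {f : Pl → F} {g : Pl → F₁} (hf : ContDiff ℝ ∞ f)
    (hg : ContDiff ℝ ∞ g) (q : Pl) :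
    dn_IE1 k (fun q => (f q, g q)) q = max (dn_IE1 k f q) (dn_IE1 k g q) := by
  rw [dn_IE1, iteratedFDeriv_prodMk hf.contDiffAt hg.contDiffAt (top_IE1 k),
    ContinuousMultilinearMap.opNorm_prod]
  rfl

theorem dd_comm_IE1 (a b : Pl) {f : Pl → F} (h : ContDiff ℝ ∞ f) :
    dd_IE1 a (dd_IE1 b f) = dd_IE1 b (dd_IE1 a f) := funext fun p => by
  have h2 : DifferentiableAt ℝ (fderiv ℝ f) p :=
    (h.fderiv_right (m := ∞) le_rfl).differentiable (by simp) p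
  have e : ∀ v w : Pl, dd_IE1 w (dd_IE1 v f) p = fderiv ℝ (fderiv ℝ f) p w v := fun v w => by
    change fderiv ℝ (fun p => fderiv ℝ f p v) p w = _
    rw [fderiv_clm_apply h2 (differentiableAt_const _)]
    simp
  rw [e, e]
  exact (h.contDiffAt.isSymmSndFDerivAt (by simpa using top_IE1 2)).eq _ _

theorem lo_dd_IE1 (e : Pl) {j : Pl → F →L[ℝ] F} {v : Pl → F} (hj : ContDiff ℝ ∞ j)
    (hv : ContDiff ℝ ∞ v) : lo_IE1 j (dd_IE1 e v) =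
      dd_IE1 e (lo_IE1 j v) - fun q => dd_IE1 e j q (dd_IE1 (0, 1) v q) := funext fun q => by
  have h1 : ds (dd_IE1 e v) = dd_IE1 e (ds v) := dd_comm_IE1 (1, 0) e hv
  have h2 : dt (dd_IE1 e v) = dd_IE1 e (dt v) := dd_comm_IE1 (0, 1) e hv
  have h3 : HasFDerivAt (lo_IE1 j v) _ q :=
    ((contDiff_ds hv).differentiable (by simp) q).hasFDerivAt.add
      ((hj.differentiable (by simp) q).hasFDerivAt.clm_apply
        ((contDiff_dt hv).differentiable (by simp) q).hasFDerivAt)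
  rw [Pi.sub_apply, lo_IE1, h1, h2, eq_sub_iff_add_eq]
  change _ = fderiv ℝ (lo_IE1 j v) q e
  rw [h3.fderiv, add_assoc]
  rfl

theorem dn_lo_IE1 (k : ℕ) {e : Pl} (he : ‖e‖ ≤ 1) {j : Pl → F →L[ℝ] F} {v : Pl → F}
    (hj : ContDiff ℝ ∞ j) (hv : ContDiff ℝ ∞ v) (q : Pl) :
    dn_IE1 k (lo_IE1 j (dd_IE1 e v)) q ≤ dn_IE1 (k + 1) (lo_IE1 j v) q +
      ∑ i ∈ Finset.range (k + 1), k.choose i * dn_IE1 (i + 1) j q * dn_IE1 (k - i + 1) v q := by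
  rw [lo_dd_IE1 e hj hv]
  refine (dn_sub_IE1 k (dd_smooth_IE1 e (lo_smooth_IE1 hj hv))
    ((dd_smooth_IE1 e hj).clm_apply (dd_smooth_IE1 _ hv)) q).trans
      (add_le_add (dn_dd_IE1 k he (lo_smooth_IE1 hj hv) q) ?_)
  refine (norm_iteratedFDeriv_clm_apply (dd_smooth_IE1 e hj) (dd_smooth_IE1 _ hv) q
    (top_IE1 k)).trans (Finset.sum_le_sum fun i _ => ?_)
  exact mul_le_mul (mul_le_mul_of_nonneg_left (dn_dd_IE1 i he hj q) (Nat.cast_nonneg _))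
    (dn_dd_IE1 _ (by simp) hv q) (norm_nonneg _)
    (mul_nonneg (Nat.cast_nonneg _) (norm_nonneg _))

theorem dn_lo0_IE1 {e : Pl} (he : ‖e‖ ≤ 1) {j : Pl → F →L[ℝ] F} {v : Pl → F}
    (hj : ContDiff ℝ ∞ j) (hv : ContDiff ℝ ∞ v) (q : Pl) :
    dn_IE1 0 (lo_IE1 j (dd_IE1 e v)) q ≤ dn_IE1 1 (lo_IE1 j v) q +
      dn_IE1 1 j q * dn_IE1 1 v q := by
  simpa using dn_lo_IE1 0 he hj hv q

theorem dn_lo1_IE1 {e : Pl} (he : ‖e‖ ≤ 1) {j : Pl → F →L[ℝ] F} {v : Pl → F}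
    (hj : ContDiff ℝ ∞ j) (hv : ContDiff ℝ ∞ v) (q : Pl) :
    dn_IE1 1 (lo_IE1 j (dd_IE1 e v)) q ≤ dn_IE1 2 (lo_IE1 j v) q +
      (dn_IE1 1 j q * dn_IE1 2 v q + dn_IE1 2 j q * dn_IE1 1 v q) := by
  simpa [Finset.sum_range_succ] using dn_lo_IE1 1 he hj hv q

theorem dn_lo2_IE1 {e : Pl} (he : ‖e‖ ≤ 1) {j : Pl → F →L[ℝ] F} {v : Pl → F}
    (hj : ContDiff ℝ ∞ j) (hv : ContDiff ℝ ∞ v) (q : Pl) :
    dn_IE1 2 (lo_IE1 j (dd_IE1 e v)) q ≤ dn_IE1 3 (lo_IE1 j v) q +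
      (dn_IE1 1 j q * dn_IE1 3 v q + 2 * dn_IE1 2 j q * dn_IE1 2 v q +
        dn_IE1 3 j q * dn_IE1 1 v q) := by
  simpa [Finset.sum_range_succ] using dn_lo_IE1 2 he hj hv q

theorem dn_lo00_IE1 {e e' : Pl} (he : ‖e‖ ≤ 1) (he' : ‖e'‖ ≤ 1) {j : Pl → F →L[ℝ] F}
    {v : Pl → F} (hj : ContDiff ℝ ∞ j) (hv : ContDiff ℝ ∞ v) (q : Pl) :
    dn_IE1 0 (lo_IE1 j (dd_IE1 e' (dd_IE1 e v))) q ≤ dn_IE1 2 (lo_IE1 j v) q +
      (2 * dn_IE1 1 j q * dn_IE1 2 v q + dn_IE1 2 j q * dn_IE1 1 v q) := by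
  have h1 := dn_lo0_IE1 he' hj (dd_smooth_IE1 e hv) q
  have h2 := dn_lo1_IE1 he hj hv q
  have h3 := mul_le_mul_of_nonneg_left (dn_dd_IE1 1 he hv q) (dn_nonneg_IE1 1 j q)
  linarith

theorem dn_lo000_IE1 {e e' e'' : Pl} (he : ‖e‖ ≤ 1) (he' : ‖e'‖ ≤ 1) (he'' : ‖e''‖ ≤ 1)
    {j : Pl → F →L[ℝ] F} {v : Pl → F} (hj : ContDiff ℝ ∞ j) (hv : ContDiff ℝ ∞ v) (q : Pl) :
    dn_IE1 0 (lo_IE1 j (dd_IE1 e'' (dd_IE1 e' (dd_IE1 e v)))) q ≤ dn_IE1 3 (lo_IE1 j v) q +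
      (3 * dn_IE1 1 j q * dn_IE1 3 v q + 3 * dn_IE1 2 j q * dn_IE1 2 v q +
        dn_IE1 3 j q * dn_IE1 1 v q) := by
  have h1 := dn_lo00_IE1 he' he'' hj (dd_smooth_IE1 e hv) q
  have h2 := dn_lo2_IE1 he hj hv q
  have h3 := mul_le_mul_of_nonneg_left (dn_dd_IE1 2 he hv q) (dn_nonneg_IE1 1 j q)
  have h4 := mul_le_mul_of_nonneg_left (dn_dd_IE1 1 he hv q) (dn_nonneg_IE1 2 j q)
  linarith

end pointwise

section chain

variable {G : Type} [NormedAddCommGroup G] [NormedSpace ℝ G]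

theorem dn_comp_IE1 (k : ℕ) {g : G → F} (hg : ContDiff ℝ ∞ g) {w : Pl → G}
    (hw : ContDiff ℝ ∞ w) (q : Pl) : dn_IE1 (k + 1) (fun q => g (w q)) q ≤
      ∑ i ∈ Finset.range (k + 1), k.choose i * dn_IE1 i (fun q => fderiv ℝ g (w q)) q *
        dn_IE1 (k - i + 1) w q := by
  have e : fderiv ℝ (fun q => g (w q)) =
      fun q => ContinuousLinearMap.compL ℝ Pl G F (fderiv ℝ g (w q)) (fderiv ℝ w q) :=
    funext fun q => fderiv_comp q (hg.differentiable (by simp) _) (hw.differentiable (by simp) _)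
  rw [← dn_fderiv_IE1, e]
  refine ((ContinuousLinearMap.compL ℝ Pl G F).norm_iteratedFDeriv_le_of_bilinear_of_le_one
    ((hg.fderiv_right (m := ∞) le_rfl).comp hw) (hw.fderiv_right (m := ∞) le_rfl) q (top_IE1 k)
    (ContinuousLinearMap.norm_compL_le ..)).trans (Finset.sum_le_sum fun i _ => ?_)
  rw [norm_iteratedFDeriv_fderiv]
  exact le_rfl

variable [FiniteDimensional ℝ G]

theorem comp0_IE1 {g : G → F} (hg : ContDiff ℝ ∞ g) (A : ℝ) : ∃ M, 0 ≤ M ∧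
    ∀ (w : Pl → G) (q : Pl), ‖w q‖ ≤ A → dn_IE1 0 (fun q => g (w q)) q ≤ M := by
  have := FiniteDimensional.proper_real G
  obtain ⟨M, hM⟩ :=
    (isCompact_closedBall (0 : G) A).exists_bound_of_continuousOn hg.continuous.continuousOn
  refine ⟨max M 0, le_max_right _ _, fun w q h => ?_⟩
  rw [dn_zero_IE1]
  exact (hM _ (mem_closedBall_zero_iff.2 h)).trans (le_max_left _ _)

theorem comp1_IE1 {g : G → F} (hg : ContDiff ℝ ∞ g) {A : ℝ} (hA : 0 ≤ A) : ∃ M, 0 ≤ M ∧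
    ∀ (w : Pl → G) (q : Pl), ContDiff ℝ ∞ w → ‖w q‖ ≤ A → dn_IE1 1 w q ≤ A →
      dn_IE1 1 (fun q => g (w q)) q ≤ M := by
  obtain ⟨M, h0, hM⟩ := comp0_IE1 (hg.fderiv_right (m := ∞) le_rfl) A
  refine ⟨M * A, mul_nonneg h0 hA, fun w q hw h h1 => ?_⟩
  have k := dn_comp_IE1 0 hg hw q
  simp only [zero_add, Finset.range_one, Finset.sum_singleton, Nat.choose_self, Nat.cast_one,
    one_mul, tsub_self] at k
  exact k.trans (mul_le_mul (hM w q h) h1 (dn_nonneg_IE1 ..) h0)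

theorem comp2_IE1 {g : G → F} (hg : ContDiff ℝ ∞ g) {A : ℝ} (hA : 0 ≤ A) : ∃ M, 0 ≤ M ∧
    ∀ (w : Pl → G) (q : Pl), ContDiff ℝ ∞ w → ‖w q‖ ≤ A → dn_IE1 1 w q ≤ A →
      dn_IE1 2 (fun q => g (w q)) q ≤ M * (1 + dn_IE1 2 w q) := by
  obtain ⟨M, h0, hM⟩ := comp0_IE1 (hg.fderiv_right (m := ∞) le_rfl) A
  obtain ⟨N, n0, hN⟩ := comp1_IE1 (hg.fderiv_right (m := ∞) le_rfl) hA
  refine ⟨M + N * A, by positivity, fun w q hw h h1 => ?_⟩
  have k : dn_IE1 2 (fun q => g (w q)) q ≤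
      dn_IE1 0 (fun q => fderiv ℝ g (w q)) q * dn_IE1 2 w q +
        dn_IE1 1 (fun q => fderiv ℝ g (w q)) q * dn_IE1 1 w q := by
    simpa [Finset.sum_range_succ] using dn_comp_IE1 1 hg hw q
  have k0 := dn_nonneg_IE1 2 w q
  have k1 := mul_le_mul_of_nonneg_right (hM w q h) k0
  have k2 := mul_le_mul (hN w q hw h h1) h1 (dn_nonneg_IE1 ..) n0
  have k3 := mul_nonneg (mul_nonneg n0 hA) k0
  linarith

theorem comp3_IE1 {g : G → F} (hg : ContDiff ℝ ∞ g) {A : ℝ} (hA : 0 ≤ A) : ∃ M, 0 ≤ M ∧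
    ∀ (w : Pl → G) (q : Pl), ContDiff ℝ ∞ w → ‖w q‖ ≤ A → dn_IE1 1 w q ≤ A →
      dn_IE1 3 (fun q => g (w q)) q ≤ M * (1 + dn_IE1 2 w q + dn_IE1 3 w q) := by
  obtain ⟨M, h0, hM⟩ := comp0_IE1 (hg.fderiv_right (m := ∞) le_rfl) A
  obtain ⟨N, n0, hN⟩ := comp1_IE1 (hg.fderiv_right (m := ∞) le_rfl) hA
  obtain ⟨P, p0, hP⟩ := comp2_IE1 (hg.fderiv_right (m := ∞) le_rfl) hA
  refine ⟨M + 2 * N + P * A, by positivity, fun w q hw h h1 => ?_⟩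
  have k : dn_IE1 3 (fun q => g (w q)) q ≤
      dn_IE1 0 (fun q => fderiv ℝ g (w q)) q * dn_IE1 3 w q +
        2 * dn_IE1 1 (fun q => fderiv ℝ g (w q)) q * dn_IE1 2 w q +
          dn_IE1 2 (fun q => fderiv ℝ g (w q)) q * dn_IE1 1 w q := by
    simpa [Finset.sum_range_succ] using dn_comp_IE1 2 hg hw q
  have k0 := dn_nonneg_IE1 2 w q
  have k0' := dn_nonneg_IE1 3 w q
  have k1 := mul_le_mul_of_nonneg_right (hM w q h) k0'
  have k2 := mul_le_mul_of_nonneg_right (hN w q hw h h1) k0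
  have k3 := mul_le_mul (hP w q hw h h1) h1 (dn_nonneg_IE1 ..) (by positivity)
  have k4 := mul_nonneg (mul_nonneg p0 hA) k0'
  have k5 := mul_nonneg h0 k0
  have k6 := mul_nonneg n0 k0'
  linarith

end chain

section family

variable {ι : Type} {p : ι → Pl} {r r' : ℝ} {φ ψ : ι → Pl → ℝ}

/-- Families of functions that are uniformly bounded in the mean square on balls. -/
def Bd_IE1 (p : ι → Pl) (r : ℝ) (φ : ι → Pl → ℝ) : Prop :=
  ∃ c : ℝ≥0∞, c ≠ ⊤ ∧ ∀ x, ∫⁻ q in Metric.ball (p x) r, ENNReal.ofReal (φ x q) ^ 2 ≤ c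

theorem Bd_IE1.mono (h : Bd_IE1 p r ψ) (hr : r' ≤ r)
    (e : ∀ x, ∀ q ∈ Metric.ball (p x) r', φ x q ≤ ψ x q) : Bd_IE1 p r' φ := by
  obtain ⟨c, h0, hc⟩ := h
  refine ⟨c, h0, fun x => le_trans ?_ (hc x)⟩
  refine (setLIntegral_mono' measurableSet_ball fun q hq => ?_).trans
    (lintegral_mono_set (Metric.ball_subset_ball hr))
  exact pow_le_pow_left' (ENNReal.ofReal_le_ofReal (e x q hq)) 2

theorem bd_one_IE1 (p : ι → Pl) (r : ℝ) : Bd_IE1 p r fun _ _ => 1 :=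
  ⟨volume (Metric.ball (0 : Pl) r), measure_ball_lt_top.ne, fun x => by
    simp [Measure.addHaar_ball_center volume (p x) r]⟩

theorem Bd_IE1.mul (h : Bd_IE1 p r φ) {a : ℝ} (ha : 0 ≤ a) : Bd_IE1 p r fun x q => a * φ x q := by
  obtain ⟨c, h0, hc⟩ := h
  refine ⟨ENNReal.ofReal a ^ 2 * c, by finiteness, fun x => ?_⟩
  simp only [ENNReal.ofReal_mul ha, mul_pow]
  rw [lintegral_const_mul' _ _ (by finiteness)]
  exact mul_le_mul_right (hc x) _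

theorem meas_IE1 {f : Pl → ℝ} (h : Continuous f) : Measurable fun q => ENNReal.ofReal (f q) ^ 2 :=
  h.measurable.ennreal_ofReal.pow_const 2

theorem Bd_IE1.add (h : Bd_IE1 p r φ) (h' : Bd_IE1 p r ψ) (hm : ∀ x, Continuous (φ x)) :
    Bd_IE1 p r fun x q => φ x q + ψ x q := by
  obtain ⟨c, h0, hc⟩ := h
  obtain ⟨c', h0', hc'⟩ := h'
  refine ⟨4 * (c + c'), by finiteness, fun x => ?_⟩
  refine le_trans ?_ (mul_le_mul_right (add_le_add (hc x) (hc' x)) _)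
  rw [← lintegral_add_left (meas_IE1 (hm x)), ← lintegral_const_mul' _ _ (by finiteness)]
  refine lintegral_mono fun q => (pow_le_pow_left' ENNReal.ofReal_add_le 2).trans ?_
  generalize ENNReal.ofReal (φ x q) = a
  generalize ENNReal.ofReal (ψ x q) = b
  have k : ∀ a b : ℝ≥0∞, a ≤ b → (a + b) ^ 2 ≤ 4 * (a ^ 2 + b ^ 2) := fun a b hab =>
    calc (a + b) ^ 2 ≤ (b + b) ^ 2 := by gcongr
      _ = 4 * b ^ 2 := by ring
      _ ≤ _ := mul_le_mul_right le_add_self _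
  rcases le_total a b with hab | hab
  · exact k a b hab
  · rw [add_comm a, add_comm (a ^ 2)]
    exact k b a hab

theorem Bd_IE1.sum (h : Bd_IE1 p r φ) {f : ι → Pl → ℝ≥0∞} {n : ℕ}
    (e : ∀ x q, f x q ≤ n * ENNReal.ofReal (φ x q) ^ 2) :
    ∃ c : ℝ≥0∞, c ≠ ⊤ ∧ ∀ x, ∫⁻ q in Metric.ball (p x) r, f x q ≤ c := by
  obtain ⟨c, h0, hc⟩ := h
  refine ⟨n * c, by finiteness, fun x => (lintegral_mono (e x)).trans ?_⟩
  rw [lintegral_const_mul' _ _ (by finiteness)]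
  exact mul_le_mul_right (hc x) _

omit [NormedSpace ℝ F] in
theorem sq_le_IE1 {a : F} {b : ℝ} (h : ‖a‖ ≤ b) : ‖a‖ₑ ^ 2 ≤ ENNReal.ofReal b ^ 2 := by
  rw [← ofReal_norm]
  exact pow_le_pow_left' (ENNReal.ofReal_le_ofReal h) 2

theorem lift_IE1 {v : ι → Pl → F} (hv : ∀ x, ContDiff ℝ ∞ (v x)) {k : ℕ}
    (h : ∀ e : Pl, ‖e‖ ≤ 1 → Bd_IE1 p r fun x => dn_IE1 k (dd_IE1 e (v x))) :
    Bd_IE1 p r fun x => dn_IE1 (k + 1) (v x) :=
  ((h (1, 0) (by simp)).add (h (0, 1) (by simp))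
    fun x => dn_cont_IE1 k (dd_smooth_IE1 _ (hv x))).mono le_rfl
      fun x q _ => dn_succ_IE1 k (hv x) q

variable [FiniteDimensional ℝ F]

theorem ell_IE1 (h0 : 0 < r') (h : r' < r) {c₀ : ℝ≥0} {A : ℝ} {j : ι → Pl → F →L[ℝ] F}
    {v : ι → Pl → F} (hj : ∀ x, ContDiff ℝ ∞ (j x)) (hv : ∀ x, ContDiff ℝ ∞ (v x))
    (he : ∀ x, PlEll (j x) (Metric.ball (p x) r) c₀)
    (hA : ∀ x, ∀ q ∈ Metric.ball (p x) r, ‖j x q‖ ≤ A)
    (h1 : Bd_IE1 p r fun x => dn_IE1 0 (lo_IE1 (j x) (v x)))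
    (h2 : Bd_IE1 p r fun x => dn_IE1 0 (v x)) : Bd_IE1 p r' fun x => dn_IE1 1 (v x) := by
  obtain ⟨c, hc⟩ := ell_loc (F := F) h0 h c₀ A
  obtain ⟨d, d0, hd⟩ := (h1.add h2 fun x => dn_cont_IE1 0 (lo_smooth_IE1 (hj x) (hv x))).sum
    (n := 2) (f := fun x q => ‖lo_IE1 (j x) (v x) q‖ₑ ^ 2 + ‖v x q‖ₑ ^ 2) fun x q => by
      rw [Nat.cast_ofNat, two_mul, dn_zero_IE1, dn_zero_IE1]
      exact add_le_add (sq_le_IE1 (le_add_of_nonneg_right (norm_nonneg _)))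
        (sq_le_IE1 (le_add_of_nonneg_left (norm_nonneg _)))
  have k : ∀ x, ∫⁻ q in Metric.ball (p x) r', ‖ds (v x) q‖ₑ ^ 2 + ‖dt (v x) q‖ₑ ^ 2 ≤ c * d :=
    fun x => (hc (j x) (p x) (v x) (hj x).continuous (he x) (hA x) (hv x)).trans
      (mul_le_mul_right (hd x) _)
  have k1 : Bd_IE1 p r' fun x => dn_IE1 0 (dd_IE1 (1, 0) (v x)) :=
    ⟨c * d, by finiteness, fun x => le_trans (lintegral_mono fun q => by
      dsimp only
      rw [dn_zero_IE1, ofReal_norm]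
      exact le_self_add) (k x)⟩
  have k2 : Bd_IE1 p r' fun x => dn_IE1 0 (dd_IE1 (0, 1) (v x)) :=
    ⟨c * d, by finiteness, fun x => le_trans (lintegral_mono fun q => by
      dsimp only
      rw [dn_zero_IE1, ofReal_norm]
      exact le_add_self) (k x)⟩
  exact (k1.add k2 fun x => dn_cont_IE1 0 (dd_smooth_IE1 _ (hv x))).mono le_rfl
    fun x q _ => dn_succ_IE1 0 (hv x) q

theorem l4_IE1 (h0 : 0 < r') (h : r' < r) {v : ι → Pl → F} (hv : ∀ x, ContDiff ℝ ∞ (v x))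
    (h1 : Bd_IE1 p r fun x => dn_IE1 0 (v x)) (h2 : Bd_IE1 p r fun x => dn_IE1 1 (v x)) :
    Bd_IE1 p r' fun x q => dn_IE1 0 (v x) q ^ 2 := by
  obtain ⟨c, hc⟩ := l4_loc (F := F) h0 h
  obtain ⟨d, d0, hd⟩ := (h1.add h2 fun x => dn_cont_IE1 0 (hv x)).sum (n := 3)
    (f := fun x q => ‖v x q‖ₑ ^ 2 + ‖ds (v x) q‖ₑ ^ 2 + ‖dt (v x) q‖ₑ ^ 2) fun x q => by
      have e : ∀ a : ℝ≥0∞, ((3 : ℕ) : ℝ≥0∞) * a = a + a + a := fun a => by
        push_cast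
        ring
      have k : ∀ e : Pl, ‖e‖ ≤ 1 → ‖dd_IE1 e (v x) q‖ ≤ dn_IE1 0 (v x) q + dn_IE1 1 (v x) q :=
        fun e he => ((dn_zero_IE1 _ _).symm.trans_le (dn_dd_IE1 0 he (hv x) q)).trans
          (le_add_of_nonneg_left (dn_nonneg_IE1 ..))
      rw [e]
      exact add_le_add (add_le_add (sq_le_IE1 ((dn_zero_IE1 _ _).symm.trans_le
        (le_add_of_nonneg_right (dn_nonneg_IE1 ..)))) (sq_le_IE1 (k (1, 0) (by simp))))
        (sq_le_IE1 (k (0, 1) (by simp)))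
  refine ⟨c * d ^ 2, by finiteness, fun x => le_trans (le_of_eq ?_) ((hc (p x) (v x) (hv x)).trans
    (mul_le_mul_right (pow_le_pow_left' (hd x) 2) _))⟩
  refine lintegral_congr fun q => ?_
  dsimp only
  rw [dn_zero_IE1, ENNReal.ofReal_pow (norm_nonneg _), ofReal_norm, ← pow_mul]

theorem sup_IE1 (h0 : 0 < r) {v : ι → Pl → F} (hv : ∀ x, ContDiff ℝ ∞ (v x))
    (h1 : Bd_IE1 p r fun x => dn_IE1 0 (v x)) (h2 : Bd_IE1 p r fun x => dn_IE1 1 (v x))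
    (h3 : Bd_IE1 p r fun x => dn_IE1 2 (v x)) : ∃ A', ∀ x, dn_IE1 0 (v x) (p x) ≤ A' := by
  obtain ⟨c, hc⟩ := sup_loc (F := F) h0
  obtain ⟨d, d0, hd⟩ := (h1.add (h2.add h3 fun x => dn_cont_IE1 1 (hv x))
    fun x => dn_cont_IE1 0 (hv x)).sum (n := 4) (f := fun x q => ‖v x q‖ₑ ^ 2 +
      ‖ds (v x) q‖ₑ ^ 2 + ‖dt (v x) q‖ₑ ^ 2 + ‖ds (dt (v x)) q‖ₑ ^ 2) fun x q => by
      have e : ∀ a : ℝ≥0∞, ((4 : ℕ) : ℝ≥0∞) * a = a + a + a + a := fun a => by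
        push_cast
        ring
      have n0 := dn_nonneg_IE1 0 (v x) q
      have n1 := dn_nonneg_IE1 1 (v x) q
      have n2 := dn_nonneg_IE1 2 (v x) q
      have k : ∀ e : Pl, ‖e‖ ≤ 1 → ‖dd_IE1 e (v x) q‖ ≤ dn_IE1 1 (v x) q :=
        fun e he => (dn_zero_IE1 _ _).symm.trans_le (dn_dd_IE1 0 he (hv x) q)
      have k1 : ‖ds (v x) q‖ ≤ _ := k (1, 0) (by simp)
      have k2 : ‖dt (v x) q‖ ≤ _ := k (0, 1) (by simp)
      have k3 : ‖ds (dt (v x)) q‖ ≤ dn_IE1 2 (v x) q :=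
        ((dn_zero_IE1 (dd_IE1 (1, 0) (dd_IE1 (0, 1) (v x))) q).symm.trans_le
          (dn_dd_IE1 0 (by simp) (dd_smooth_IE1 _ (hv x)) q)).trans
            (dn_dd_IE1 1 (by simp) (hv x) q)
      have k0 := dn_zero_IE1 (v x) q
      rw [e]
      exact add_le_add (add_le_add (add_le_add (sq_le_IE1 (by linarith))
        (sq_le_IE1 (by linarith))) (sq_le_IE1 (by linarith))) (sq_le_IE1 (by linarith))
  refine ⟨1 + ((c : ℝ≥0∞) * d).toReal, fun x => ?_⟩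
  have k := ENNReal.toReal_mono (by finiteness)
    ((hc (p x) (v x) (hv x)).trans (mul_le_mul_right (hd x) _))
  rw [ENNReal.toReal_pow, toReal_enorm] at k
  rw [dn_zero_IE1]
  nlinarith [sq_nonneg (‖v x (p x)‖ - 1), norm_nonneg (v x (p x))]

theorem main_IE1 (hr : 0 < r) {c₀ : ℝ≥0} {A : ℝ} (A0 : 0 ≤ A) {j : ι → Pl → F →L[ℝ] F}
    {u : ι → Pl → F} (hj : ∀ x, ContDiff ℝ ∞ (j x)) (hu : ∀ x, ContDiff ℝ ∞ (u x))
    (he : ∀ x, PlEll (j x) (Metric.ball (p x) r) c₀)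
    (hA : ∀ x, ∀ q ∈ Metric.ball (p x) r, ‖j x q‖ ≤ A)
    (h : ∀ x, ∀ q ∈ Metric.ball (p x) r, dn_IE1 1 (u x) q ≤ A ∧
      max (dn_IE1 1 (j x) q) (dn_IE1 1 (lo_IE1 (j x) (u x)) q) ≤ A ∧
      max (dn_IE1 2 (j x) q) (dn_IE1 2 (lo_IE1 (j x) (u x)) q) ≤ A * (1 + dn_IE1 2 (u x) q) ∧
      max (dn_IE1 3 (j x) q) (dn_IE1 3 (lo_IE1 (j x) (u x)) q) ≤
        A * (1 + dn_IE1 2 (u x) q + dn_IE1 3 (u x) q)) :
    ∃ A', ∀ x, dn_IE1 2 (u x) (p x) ≤ A' := by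
  simp only [max_le_iff] at h
  have ell : ∀ {s' s : ℝ}, 0 < s' → s' < s → s ≤ r → ∀ {v : ι → Pl → F},
      (∀ x, ContDiff ℝ ∞ (v x)) → (Bd_IE1 p s fun x => dn_IE1 0 (lo_IE1 (j x) (v x))) →
      (Bd_IE1 p s fun x => dn_IE1 0 (v x)) → Bd_IE1 p s' fun x => dn_IE1 1 (v x) :=
    fun h0 h1 h2 v hv => ell_IE1 h0 h1 hj hv
      (fun x => (he x).mono (Metric.ball_subset_ball h2))
      fun x q hq => hA x q (Metric.ball_subset_ball h2 hq)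
  have d1 := fun (e : Pl) x => dd_smooth_IE1 e (hu x)
  have d2 := fun (e e' : Pl) x => dd_smooth_IE1 e' (d1 e x)
  have d3 := fun (e e' e'' : Pl) x => dd_smooth_IE1 e'' (d2 e e' x)
  have b2 : Bd_IE1 p (r / 2) fun x => dn_IE1 2 (u x) := lift_IE1 hu fun e he =>
    ell (by positivity) (by linarith) le_rfl (d1 e)
      (((bd_one_IE1 p r).mul (a := A + A * A) (by positivity)).mono le_rfl fun x q hq => by
        obtain ⟨a1, ⟨j1, g1⟩, -⟩ := h x q hq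
        have k1 := dn_lo0_IE1 he (hj x) (hu x) q
        have k2 := mul_le_mul j1 a1 (dn_nonneg_IE1 ..) A0
        linarith)
      (((bd_one_IE1 p r).mul A0).mono le_rfl fun x q hq =>
        ((dn_dd_IE1 0 he (hu x) q).trans (h x q hq).1).trans_eq (mul_one A).symm)
  have c2 : Bd_IE1 p (r / 2) fun x q => 1 + dn_IE1 2 (u x) q :=
    (bd_one_IE1 p _).add b2 fun _ => continuous_const
  have b3 : Bd_IE1 p (r / 4) fun x => dn_IE1 3 (u x) := lift_IE1 hu fun e he =>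
    lift_IE1 (d1 e) fun e' he' => ell (s := r / 2) (by positivity) (by linarith) (by linarith)
      (d2 e e')
      ((c2.mul (a := 3 * A + A * A) (by positivity)).mono le_rfl fun x q hq => by
        obtain ⟨a1, ⟨j1, g1⟩, ⟨j2, g2⟩, -⟩ := h x q (Metric.ball_subset_ball (by linarith) hq)
        have n2 := dn_nonneg_IE1 2 (u x) q
        have k1 := dn_lo00_IE1 he he' (hj x) (hu x) q
        have k2 := mul_le_mul_of_nonneg_right j1 n2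
        have k3 := mul_le_mul j2 a1 (dn_nonneg_IE1 ..) (by positivity)
        linarith)
      (b2.mono le_rfl fun x q _ =>
        (dn_dd_IE1 0 he' (d1 e x) q).trans (dn_dd_IE1 1 he (hu x) q))
  have hv : ∀ x, ContDiff ℝ ∞ (fderiv ℝ (fderiv ℝ (u x))) := fun x =>
    ((hu x).fderiv_right (m := ∞) le_rfl).fderiv_right (m := ∞) le_rfl
  have ev : ∀ k x q, dn_IE1 k (fderiv ℝ (fderiv ℝ (u x))) q = dn_IE1 (k + 2) (u x) q :=
    fun k x q => by rw [dn_fderiv_IE1, dn_fderiv_IE1]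
  have q2 : Bd_IE1 p (r / 8) fun x q => dn_IE1 2 (u x) q ^ 2 :=
    (l4_IE1 (r := r / 4) (r' := r / 8) (by positivity) (by linarith) hv
      (b2.mono (by linarith) fun x q _ => (ev 0 x q).le)
      (b3.mono le_rfl fun x q _ => (ev 1 x q).le)).mono le_rfl fun x q _ => by rw [ev]
  have c3 : Bd_IE1 p (r / 8) fun x q =>
      1 + dn_IE1 2 (u x) q + (dn_IE1 3 (u x) q + dn_IE1 2 (u x) q ^ 2) :=
    (c2.mono (by linarith) fun _ _ _ => le_rfl).add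
      ((b3.mono (by linarith) fun _ _ _ => le_rfl).add q2 fun x => dn_cont_IE1 3 (hu x))
      fun x => continuous_const.add (dn_cont_IE1 2 (hu x))
  have b4 : Bd_IE1 p (r / 16) fun x => dn_IE1 4 (u x) := lift_IE1 hu fun e he =>
    lift_IE1 (d1 e) fun e' he' => lift_IE1 (d2 e e') fun e'' he'' =>
      ell (s := r / 8) (by positivity) (by linarith) (by linarith) (d3 e e' e'')
      ((c3.mul (a := 4 * A + A * A) (by positivity)).mono le_rfl fun x q hq => by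
        obtain ⟨a1, ⟨j1, g1⟩, ⟨j2, g2⟩, j3, g3⟩ :=
          h x q (Metric.ball_subset_ball (by linarith) hq)
        have n2 := dn_nonneg_IE1 2 (u x) q
        have n3 := dn_nonneg_IE1 3 (u x) q
        have k1 := dn_lo000_IE1 he he' he'' (hj x) (hu x) q
        have k2 := mul_le_mul_of_nonneg_right j1 n3
        have k3 := mul_le_mul_of_nonneg_right j2 n2
        have k4 := mul_le_mul j3 a1 (dn_nonneg_IE1 ..) (by positivity)
        have k5 : 0 ≤ A * dn_IE1 2 (u x) q ^ 2 := by positivity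
        have k6 : 0 ≤ A * A * dn_IE1 2 (u x) q ^ 2 := by positivity
        linarith)
      (b3.mono (by linarith) fun x q _ => ((dn_dd_IE1 0 he'' (d2 e e' x) q).trans
        (dn_dd_IE1 1 he' (d1 e x) q)).trans (dn_dd_IE1 2 he (hu x) q))
  obtain ⟨A', hA'⟩ := sup_IE1 (p := p) (r := r / 16) (by positivity) hv
    (b2.mono (by linarith) fun x q _ => (ev 0 x q).le)
    (b3.mono (by linarith) fun x q _ => (ev 1 x q).le)
    (b4.mono le_rfl fun x q _ => (ev 2 x q).le)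
  exact ⟨A', fun x => (ev 0 x _).symm.trans_le (hA' x)⟩

end family

variable [FiniteDimensional ℝ F]

theorem c2_lin {r : ℝ} (hr : 0 < r) (c₀ : ℝ≥0) (A : ℝ) : ∃ A', ∀ (j : Pl → F →L[ℝ] F)
    (f u : Pl → F) (p : Pl), ContDiff ℝ ∞ j → ContDiff ℝ ∞ f → ContDiff ℝ ∞ u →
      PlEll j (Metric.ball p r) c₀ → (∀ q ∈ Metric.ball p r, ds u q + j q (dt u q) = f q ∧
        ‖fderiv ℝ u q‖ ≤ A ∧ ‖j q‖ ≤ A ∧ ‖fderiv ℝ (fun q => (j q, f q)) q‖ ≤ A ∧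
        ‖iteratedFDeriv ℝ 2 (fun q => (j q, f q)) q‖ ≤ A * (1 + ‖iteratedFDeriv ℝ 2 u q‖) ∧
        ‖iteratedFDeriv ℝ 3 (fun q => (j q, f q)) q‖ ≤
          A * (1 + ‖iteratedFDeriv ℝ 2 u q‖ + ‖iteratedFDeriv ℝ 3 u q‖)) →
      ‖iteratedFDeriv ℝ 2 u p‖ ≤ A' := by
  rcases lt_or_ge A 0 with A0 | A0
  · exact ⟨0, fun j f u p _ _ _ _ h =>
      absurd ((norm_nonneg _).trans (h p (Metric.mem_ball_self hr)).2.1) A0.not_ge⟩
  obtain ⟨A', h⟩ := main_IE1 (ι := {x : (Pl → F →L[ℝ] F) × (Pl → F) × Pl //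
      ContDiff ℝ ∞ x.1 ∧ ContDiff ℝ ∞ x.2.1 ∧ PlEll x.1 (Metric.ball x.2.2 r) c₀ ∧
      (∀ q ∈ Metric.ball x.2.2 r, ‖x.1 q‖ ≤ A) ∧ ∀ q ∈ Metric.ball x.2.2 r,
        dn_IE1 1 x.2.1 q ≤ A ∧ max (dn_IE1 1 x.1 q) (dn_IE1 1 (lo_IE1 x.1 x.2.1) q) ≤ A ∧
        max (dn_IE1 2 x.1 q) (dn_IE1 2 (lo_IE1 x.1 x.2.1) q) ≤ A * (1 + dn_IE1 2 x.2.1 q) ∧
        max (dn_IE1 3 x.1 q) (dn_IE1 3 (lo_IE1 x.1 x.2.1) q) ≤
          A * (1 + dn_IE1 2 x.2.1 q + dn_IE1 3 x.2.1 q)})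
    (p := fun x => x.1.2.2) (j := fun x => x.1.1) (u := fun x => x.1.2.1) hr A0
    (fun x => x.2.1) (fun x => x.2.2.1) (fun x => x.2.2.2.1) (fun x => x.2.2.2.2.1)
    fun x => x.2.2.2.2.2
  refine ⟨A', fun j f u p hj hf hu he H =>
    h ⟨(j, u, p), hj, hu, he, fun q hq => (H q hq).2.2.1, fun q hq => ?_⟩⟩
  have e : ∀ k, max (dn_IE1 k j q) (dn_IE1 k (lo_IE1 j u) q) =
      dn_IE1 k (fun q => (j q, f q)) q := fun k => by
    have e1 : lo_IE1 j u =ᶠ[𝓝 q] f :=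
      eventually_of_mem (Metric.isOpen_ball.mem_nhds hq) fun q hq => (H q hq).1
    rw [dn_prod_IE1 k hj hf, dn_IE1, dn_IE1, (e1.iteratedFDeriv ℝ k).self_of_nhds]
    rfl
  obtain ⟨-, h1, -, h2, h3, h4⟩ := H q hq
  dsimp only
  rw [e, e, e, dn_one_IE1, dn_one_IE1]
  exact ⟨h1, h2, h3, h4⟩

theorem comp_three {g : C × F → F₁} (hg : ContDiff ℝ ∞ g) (A : ℝ) : ∃ A', ∀ (κ : Pl → C)
    (u : Pl → F) (q : Pl), ContDiff ℝ ∞ κ → ContDiff ℝ ∞ u →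
      (∀ i ≤ 3, ‖iteratedFDeriv ℝ i κ q‖ ≤ A) → ‖u q‖ ≤ A → ‖fderiv ℝ u q‖ ≤ A →
        ‖g (κ q, u q)‖ ≤ A' ∧ ‖fderiv ℝ (fun q => g (κ q, u q)) q‖ ≤ A' ∧
        ‖iteratedFDeriv ℝ 2 (fun q => g (κ q, u q)) q‖ ≤ A' * (1 + ‖iteratedFDeriv ℝ 2 u q‖) ∧
        ‖iteratedFDeriv ℝ 3 (fun q => g (κ q, u q)) q‖ ≤
          A' * (1 + ‖iteratedFDeriv ℝ 2 u q‖ + ‖iteratedFDeriv ℝ 3 u q‖) := by
  rcases lt_or_ge A 0 with A0 | A0
  · exact ⟨0, fun κ u q _ _ _ h => absurd ((norm_nonneg _).trans h) A0.not_ge⟩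
  obtain ⟨M0, n0, h0⟩ := comp0_IE1 hg A
  obtain ⟨M1, n1, h1⟩ := comp1_IE1 hg A0
  obtain ⟨M2, n2, h2⟩ := comp2_IE1 hg A0
  obtain ⟨M3, n3, h3⟩ := comp3_IE1 hg A0
  refine ⟨M0 + M1 + (M2 + M3) * (1 + 2 * A), fun κ u q hκ hu k a0 a1 => ?_⟩
  have e := fun i => dn_prod_IE1 i hκ hu q
  have w0 : ‖(κ q, u q)‖ ≤ A := max_le ((dn_zero_IE1 κ q).symm.trans_le (k 0 (by omega))) a0
  have w1 : dn_IE1 1 (fun q => (κ q, u q)) q ≤ A :=
    (e 1).trans_le (max_le (k 1 (by omega)) ((dn_one_IE1 u q).trans_le a1))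
  have w : ∀ i ≤ 3, dn_IE1 i (fun q => (κ q, u q)) q ≤ A + dn_IE1 i u q := fun i hi =>
    (e i).trans_le (max_le ((k i hi).trans (le_add_of_nonneg_right (dn_nonneg_IE1 ..)))
      (le_add_of_nonneg_left A0))
  have b0 := h0 (fun q => (κ q, u q)) q w0
  have b1 := h1 _ q (hκ.prodMk hu) w0 w1
  have b2 := (h2 _ q (hκ.prodMk hu) w0 w1).trans
    (mul_le_mul_of_nonneg_left (add_le_add_right (w 2 (by omega)) 1) n2)
  have b3 := (h3 _ q (hκ.prodMk hu) w0 w1).trans (mul_le_mul_of_nonneg_left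
    (add_le_add (add_le_add_right (w 2 (by omega)) 1) (w 3 le_rfl)) n3)
  rw [dn_zero_IE1] at b0
  rw [dn_one_IE1] at b1
  have m2 := dn_nonneg_IE1 2 u q
  have m3 := dn_nonneg_IE1 3 u q
  have m : 0 ≤ (M2 + M3) * (1 + 2 * A) := by positivity
  refine ⟨by linarith, by linarith, b2.trans ?_, b3.trans ?_⟩
  · change _ ≤ _ * (1 + dn_IE1 2 u q)
    generalize dn_IE1 2 u q = a at *
    have : 0 ≤ (M0 + M1 + M3 * (1 + 2 * A)) * (1 + a) + M2 * A * (1 + 2 * a) := by positivity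
    linarith
  · change _ ≤ _ * (1 + dn_IE1 2 u q + dn_IE1 3 u q)
    generalize dn_IE1 2 u q = a at *
    generalize dn_IE1 3 u q = b at *
    have : 0 ≤ (M0 + M1 + M2 * (1 + 2 * A)) * (1 + a + b) + M3 * A * (2 * a + 2 * b) := by
      positivity
    linarith

theorem c2_of_c1 {𝕁 : C × F → F →L[ℝ] F} {𝔽 : C × F → F} (hJ : ContDiff ℝ ∞ 𝕁)
    (hF : ContDiff ℝ ∞ 𝔽) {r : ℝ} (hr : 0 < r) (c₀ : ℝ≥0) (A : ℝ) : ∃ A', ∀ (κ : Pl → C)
      (u : Pl → F) (p : Pl), ContDiff ℝ ∞ κ → ContDiff ℝ ∞ u →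
        PlEll (fun q => 𝕁 (κ q, u q)) (Metric.ball p r) c₀ → (∀ q ∈ Metric.ball p r,
          ds u q + 𝕁 (κ q, u q) (dt u q) = 𝔽 (κ q, u q) ∧ ‖u q‖ ≤ A ∧ ‖fderiv ℝ u q‖ ≤ A ∧
            ∀ i ≤ 3, ‖iteratedFDeriv ℝ i κ q‖ ≤ A) → ‖iteratedFDeriv ℝ 2 u p‖ ≤ A' := by
  obtain ⟨B, hB⟩ := comp_three (hJ.prodMk hF) A
  obtain ⟨A', h⟩ := c2_lin (F := F) hr c₀ (max A B)
  refine ⟨A', fun κ u p hκ hu he H => h _ (fun q => 𝔽 (κ q, u q)) u p (hJ.comp (hκ.prodMk hu))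
    (hF.comp (hκ.prodMk hu)) hu he fun q hq => ?_⟩
  obtain ⟨e, a0, a1, k⟩ := H q hq
  obtain ⟨b0, b1, b2, b3⟩ := hB κ u q hκ hu k a0 a1
  exact ⟨e, a1.trans (le_max_left _ _), ((le_max_left _ _).trans b0).trans (le_max_right _ _),
    b1.trans (le_max_right _ _),
    b2.trans (mul_le_mul_of_nonneg_right (le_max_right _ _) (by positivity)),
    b3.trans (mul_le_mul_of_nonneg_right (le_max_right _ _) (by positivity))⟩

end

end Pool.Agent.P.MP_de3acd_gt.FH
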