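import Pool.Agent.P.MP_de3acd_gt.FH.L4
import Pool.Agent.P.MP_de3acd_gt.FH.Defs2

/-! Local estimates in the plane (balls of the sup norm are squares).
Sketch: fix a smooth bump χ₀ : Pl → ℝ with χ₀ = 1 on ball 0 r' and tsupport inside ball 0 r (ContDiffBump needs a
HasContDiffBump instance, available in finite dimension; or a product of two one-variable bumps), χ q = χ₀ (q - p); all bounds for
χ, ds χ, dt χ, ds dt χ are independent of p. Apply PlEll, l4_plane, sob_plane to χ • v; on ball p r' the derivatives of χ • v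
are those of v. For sup_loc use Cauchy-Schwarz on the ball (finite volume) or a ≤ 1 + a^2 after scaling. -/

open Set Filter Topology MeasureTheory
open scoped ContDiff NNReal ENNReal RealInnerProductSpace

namespace Pool.Agent.P.MP_de3acd_gt.FH

noncomputable section

variable {F F₁ F₂ : Type} [NormedAddCommGroup F] [NormedSpace ℝ F] [NormedAddCommGroup F₁]
  [NormedSpace ℝ F₁] [NormedAddCommGroup F₂] [NormedSpace ℝ F₂]

private theorem loc_IEL {f g : Pl → F} {q : Pl} (h : f =ᶠ[𝓝 q] g) :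
    ds f q = ds g q ∧ dt f q = dt g q ∧ ds (dt f) q = ds (dt g) q := by
  have e : dt f =ᶠ[𝓝 q] dt g := (h.fderiv (𝕜 := ℝ)).mono fun x hx => by
    simp only [dt, hx]
  refine ⟨?_, ?_, ?_⟩
  · simp only [ds, h.fderiv_eq]
  · simp only [dt, h.fderiv_eq]
  · simp only [ds, e.fderiv_eq]

private theorem zero_IEL {f : Pl → F} {q : Pl} (h : q ∉ tsupport f) :
    f q = 0 ∧ ds f q = 0 ∧ dt f q = 0 ∧ ds (dt f) q = 0 := by
  have e : f =ᶠ[𝓝 q] fun _ => 0 := notMem_tsupport_iff_eventuallyEq.1 h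
  obtain ⟨h1, h2, h3⟩ := loc_IEL e
  have e1 : dt (fun _ : Pl => (0 : F)) = fun _ => 0 := funext fun p => by simp [dt]
  have e2 : ds (fun _ : Pl => (0 : F)) = fun _ => 0 := funext fun p => by simp [ds]
  rw [e1] at h2 h3
  rw [e2] at h1 h3
  exact ⟨e.self_of_nhds, h1, h2, h3⟩

private theorem bump_IEL {r' r : ℝ} (h0 : 0 < r') (h : r' < r) : ∃ M : ℝ≥0, ∀ p : Pl,
    ∃ χ : Pl → ℝ, ContDiff ℝ ∞ χ ∧ HasCompactSupport χ ∧ tsupport χ ⊆ Metric.ball p r ∧
      (∀ q ∈ Metric.ball p r', χ q = 1) ∧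
        ∀ q, ‖χ q‖ ≤ M ∧ ‖ds χ q‖ ≤ M ∧ ‖dt χ q‖ ≤ M ∧ ‖ds (dt χ) q‖ ≤ M := by
  let b : ContDiffBump (0 : Pl) := ⟨r', (r' + r) / 2, h0, by linarith⟩
  have hb : ContDiff ℝ ∞ (b : Pl → ℝ) := b.contDiff
  have hc : HasCompactSupport (b : Pl → ℝ) := b.hasCompactSupport
  have hcs : HasCompactSupport (ds (b : Pl → ℝ)) := hc.fderiv_apply ℝ _
  have hct : HasCompactSupport (dt (b : Pl → ℝ)) := hc.fderiv_apply ℝ _
  have hcst : HasCompactSupport (ds (dt (b : Pl → ℝ))) := hct.fderiv_apply ℝ _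
  obtain ⟨A, hA⟩ := hb.continuous.bounded_above_of_compact_support hc
  obtain ⟨B, hB⟩ := (contDiff_ds hb).continuous.bounded_above_of_compact_support hcs
  obtain ⟨C, hC⟩ := (contDiff_dt hb).continuous.bounded_above_of_compact_support hct
  obtain ⟨D, hD⟩ :=
    (contDiff_ds (contDiff_dt hb)).continuous.bounded_above_of_compact_support hcst
  have hA0 := (norm_nonneg _).trans (hA 0)
  have hB0 := (norm_nonneg _).trans (hB 0)
  have hC0 := (norm_nonneg _).trans (hC 0)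
  have hD0 := (norm_nonneg _).trans (hD 0)
  refine ⟨⟨A + B + C + D, by positivity⟩, fun p => ?_⟩
  have hs : tsupport (tsl (-p) (b : Pl → ℝ)) ⊆ Metric.closedBall p ((r' + r) / 2) := by
    refine closure_minimal (fun q hq => ?_) Metric.isClosed_closedBall
    have h1 : q + -p ∈ Function.support (b : Pl → ℝ) := hq
    rw [b.support_eq, mem_ball_zero_iff, ← sub_eq_add_neg] at h1
    exact mem_closedBall_iff_norm.2 h1.le
  refine ⟨tsl (-p) b, contDiff_tsl hb _,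
    (isCompact_closedBall _ _).of_isClosed_subset (isClosed_tsupport _) hs,
    hs.trans (Metric.closedBall_subset_ball (by linarith)), fun q hq => ?_, fun q => ?_⟩
  · refine b.one_of_mem_closedBall ?_
    rw [mem_closedBall_zero_iff, ← sub_eq_add_neg]
    exact (mem_ball_iff_norm.1 hq).le
  · rw [dt_tsl, ds_tsl, ds_tsl]
    refine ⟨(hA _).trans ?_, (hB _).trans ?_, (hC _).trans ?_, (hD _).trans ?_⟩ <;>
      (change _ ≤ A + B + C + D; linarith)

private theorem ds_smul_IEL {χ : Pl → ℝ} {v : Pl → F} (hχ : ContDiff ℝ ∞ χ)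
    (hv : ContDiff ℝ ∞ v) : ds (fun q => χ q • v q) = fun q => ds χ q • v q + χ q • ds v q :=
  funext fun q => ds_bil (ContinuousLinearMap.lsmul ℝ ℝ) (hχ.differentiable (by simp) q)
    (hv.differentiable (by simp) q)

private theorem dt_smul_IEL {χ : Pl → ℝ} {v : Pl → F} (hχ : ContDiff ℝ ∞ χ)
    (hv : ContDiff ℝ ∞ v) : dt (fun q => χ q • v q) = fun q => dt χ q • v q + χ q • dt v q :=
  funext fun q => dt_bil (ContinuousLinearMap.lsmul ℝ ℝ) (hχ.differentiable (by simp) q)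
    (hv.differentiable (by simp) q)

private theorem dst_smul_IEL {χ : Pl → ℝ} {v : Pl → F} (hχ : ContDiff ℝ ∞ χ)
    (hv : ContDiff ℝ ∞ v) (q : Pl) : ds (dt fun q => χ q • v q) q =
      ds (dt χ) q • v q + dt χ q • ds v q + ds χ q • dt v q + χ q • ds (dt v) q := by
  have e := ds_add (f := fun q => dt χ q • v q) (g := fun q => χ q • dt v q)
    ((contDiff_dt hχ).smul hv) (hχ.smul (contDiff_dt hv))
  rw [ds_smul_IEL (contDiff_dt hχ) hv, ds_smul_IEL hχ (contDiff_dt hv)] at e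
  rw [dt_smul_IEL hχ hv]
  exact (congrFun e q).trans (by simp only [Pi.add_apply, add_assoc])

private theorem conv_IEL {x a b c d : F} {K : ℝ≥0} (h : ‖x‖ ≤ K * (‖a‖ + ‖b‖ + ‖c‖ + ‖d‖)) :
    ‖x‖ₑ ^ 2 ≤ (4 * K ^ 2 : ℝ≥0) * (‖a‖ₑ ^ 2 + ‖b‖ₑ ^ 2 + ‖c‖ₑ ^ 2 + ‖d‖ₑ ^ 2) := by
  have h1 : ‖x‖₊ ^ 2 ≤ 4 * K ^ 2 * (‖a‖₊ ^ 2 + ‖b‖₊ ^ 2 + ‖c‖₊ ^ 2 + ‖d‖₊ ^ 2) := by
    rw [← NNReal.coe_le_coe]
    push_cast
    have h2 := pow_le_pow_left₀ (norm_nonneg _) h 2
    rw [mul_pow] at h2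
    refine h2.trans ?_
    rw [mul_comm 4, mul_assoc]
    refine mul_le_mul_of_nonneg_left ?_ (by positivity)
    nlinarith [sq_nonneg (‖a‖ - ‖b‖), sq_nonneg (‖a‖ - ‖c‖), sq_nonneg (‖a‖ - ‖d‖),
      sq_nonneg (‖b‖ - ‖c‖), sq_nonneg (‖b‖ - ‖d‖), sq_nonneg (‖c‖ - ‖d‖)]
  simp only [enorm_eq_nnnorm]
  exact_mod_cast h1

private theorem sm_IEL {a : ℝ} {M : ℝ≥0} (h : ‖a‖ ≤ M) (v : F) : ‖a • v‖ ≤ M * ‖v‖ := by
  rw [norm_smul]
  exact mul_le_mul_of_nonneg_right h (norm_nonneg _)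

private theorem int_IEL {G H : Pl → ℝ≥0∞} {D : Set Pl} (hD : MeasurableSet D) {c : ℝ≥0}
    (h1 : ∀ q ∈ D, G q ≤ c * H q) (h2 : ∀ q ∉ D, G q = 0) : ∫⁻ q, G q ≤ c * ∫⁻ q in D, H q := by
  rw [← setLIntegral_eq_of_support_subset (s := D) fun q hq => by_contra fun e => hq (h2 q e),
    ← lintegral_const_mul' _ _ ENNReal.coe_ne_top]
  exact setLIntegral_mono' hD h1

private theorem cs_IEL {μ : Measure Pl} {h : Pl → ℝ≥0∞} (hh : Measurable h) :
    (∫⁻ s, h s ∂μ) ^ 2 ≤ μ univ * ∫⁻ s, h s ^ 2 ∂μ := by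
  have h1 := ENNReal.lintegral_mul_le_Lp_mul_Lq μ Real.HolderConjugate.two_two
    (f := fun _ => (1 : ℝ≥0∞)) (g := h) aemeasurable_const hh.aemeasurable
  simp only [Pi.mul_apply, lintegral_const, ENNReal.rpow_two, one_pow, one_mul] at h1
  refine (pow_le_pow_left' h1 2).trans_eq ?_
  have e : ∀ x : ℝ≥0∞, (x ^ (1 / 2 : ℝ)) ^ 2 = x := fun x => by
    rw [← ENNReal.rpow_two, ← ENNReal.rpow_mul]
    norm_num
  rw [mul_pow, e, e]

private theorem same_IEL {χ : Pl → ℝ} {v : Pl → F} {p q : Pl} {r : ℝ}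
    (h : ∀ q ∈ Metric.ball p r, χ q = 1) (hq : q ∈ Metric.ball p r) :
    (fun q => χ q • v q) =ᶠ[𝓝 q] v :=
  (eventually_of_mem (Metric.isOpen_ball.mem_nhds hq) h).mono fun x hx => by
    simp only [hx, one_smul]

variable [FiniteDimensional ℝ F]

theorem PlEll.mono {j : Pl → F →L[ℝ] F} {D D' : Set Pl} {c : ℝ≥0} (h : PlEll j D c) (e : D' ⊆ D) :
    PlEll j D' c := fun φ h1 h2 h3 => h φ h1 h2 (h3.trans e)

theorem ell_loc {r' r : ℝ} (h0 : 0 < r') (h : r' < r) (c₀ : ℝ≥0) (A : ℝ) : ∃ c : ℝ≥0,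
    ∀ (j : Pl → F →L[ℝ] F) (p : Pl) (v : Pl → F), Continuous j → PlEll j (Metric.ball p r) c₀ →
      (∀ q ∈ Metric.ball p r, ‖j q‖ ≤ A) → ContDiff ℝ ∞ v →
        ∫⁻ q in Metric.ball p r', ‖ds v q‖ₑ ^ 2 + ‖dt v q‖ₑ ^ 2 ≤
          c * ∫⁻ q in Metric.ball p r, ‖ds v q + j q (dt v q)‖ₑ ^ 2 + ‖v q‖ₑ ^ 2 := by
  obtain ⟨M, hM⟩ := bump_IEL h0 h
  refine ⟨c₀ * (4 * (M * (1 + ‖A‖₊)) ^ 2), fun j p v _ hj hA hv => ?_⟩
  obtain ⟨χ, h1, h2, h3, h4, h5⟩ := hM p
  have hs : tsupport (fun q => χ q • v q) ⊆ Metric.ball p r :=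
    (tsupport_smul_subset_left χ v).trans h3
  have h6 := hj (fun q => χ q • v q) (h1.smul hv) h2.smul_right hs
  calc _ = ∫⁻ q in Metric.ball p r', ‖ds (fun q => χ q • v q) q‖ₑ ^ 2 +
        ‖dt (fun q => χ q • v q) q‖ₑ ^ 2 := by
        refine setLIntegral_congr_fun measurableSet_ball fun q hq => ?_
        obtain ⟨e1, e2, -⟩ := loc_IEL (same_IEL (v := v) h4 hq)
        simp only [e1, e2]
    _ ≤ _ := (setLIntegral_le_lintegral _ _).trans h6
    _ ≤ _ := by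
        rw [ENNReal.coe_mul, mul_assoc]
        refine mul_le_mul' le_rfl (int_IEL measurableSet_ball (fun q hq => ?_) fun q hq => ?_)
        · have e : ‖ds (fun q => χ q • v q) q + j q (dt (fun q => χ q • v q) q)‖ ≤
              (M * (1 + ‖A‖₊) : ℝ≥0) *
                (‖ds v q + j q (dt v q)‖ + ‖v q‖ + ‖(0 : F)‖ + ‖(0 : F)‖) := by
            have e1 : ds (fun q => χ q • v q) q + j q (dt (fun q => χ q • v q) q) =
                χ q • (ds v q + j q (dt v q)) + ds χ q • v q + dt χ q • j q (v q) := by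
              rw [ds_smul_IEL h1 hv, dt_smul_IEL h1 hv]
              simp only [map_add, map_smul, smul_add]
              abel
            have e2 : ‖j q (v q)‖ ≤ ‖A‖ * ‖v q‖ := ((j q).le_opNorm _).trans
              (mul_le_mul_of_nonneg_right ((hA q hq).trans (le_abs_self A)) (norm_nonneg _))
            have e3 := (sm_IEL (h5 q).2.2.1 (j q (v q))).trans
              (mul_le_mul_of_nonneg_left e2 M.coe_nonneg)
            rw [e1]
            refine (norm_add₃_le).trans ((add_le_add (add_le_add (sm_IEL (h5 q).1 _)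
              (sm_IEL (h5 q).2.1 _)) e3).trans ?_)
            push_cast
            rw [norm_zero, add_zero, add_zero]
            have : 0 ≤ M * (‖A‖ * ‖ds v q + j q (dt v q)‖) := by positivity
            nlinarith
          have e4 := conv_IEL e
          rwa [enorm_zero, zero_pow two_ne_zero, add_zero, add_zero] at e4
        · obtain ⟨-, e1, e2, -⟩ := zero_IEL fun e => hq (hs e)
          rw [e1, e2, map_zero, add_zero, enorm_zero, zero_pow two_ne_zero]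

theorem l4_loc {r' r : ℝ} (h0 : 0 < r') (h : r' < r) : ∃ c : ℝ≥0, ∀ (p : Pl) (v : Pl → F),
    ContDiff ℝ ∞ v → ∫⁻ q in Metric.ball p r', ‖v q‖ₑ ^ 4 ≤
      c * (∫⁻ q in Metric.ball p r, ‖v q‖ₑ ^ 2 + ‖ds v q‖ₑ ^ 2 + ‖dt v q‖ₑ ^ 2) ^ 2 := by
  obtain ⟨M, hM⟩ := bump_IEL h0 h
  obtain ⟨c, hc⟩ := l4_plane (F := F)
  refine ⟨c * (4 * M ^ 2 + 4 * M ^ 2 + 4 * M ^ 2) ^ 2, fun p v hv => ?_⟩
  obtain ⟨χ, h1, h2, h3, h4, h5⟩ := hM p
  have hs : tsupport (fun q => χ q • v q) ⊆ Metric.ball p r :=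
    (tsupport_smul_subset_left χ v).trans h3
  have h6 := hc (fun q => χ q • v q) (h1.smul hv) h2.smul_right
  calc _ = ∫⁻ q in Metric.ball p r', ‖χ q • v q‖ₑ ^ 4 := by
        refine setLIntegral_congr_fun measurableSet_ball fun q hq => ?_
        simp only [h4 q hq, one_smul]
    _ ≤ _ := (setLIntegral_le_lintegral _ _).trans h6
    _ ≤ _ := by
        rw [ENNReal.coe_mul, mul_assoc, ENNReal.coe_pow, ← mul_pow]
        refine mul_le_mul' le_rfl (pow_le_pow_left'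
          (int_IEL measurableSet_ball (fun q _ => ?_) fun q hq => ?_) 2)
        · have p1 : 0 ≤ M * ‖v q‖ := by positivity
          have p2 : 0 ≤ M * ‖ds v q‖ := by positivity
          have p3 : 0 ≤ M * ‖dt v q‖ := by positivity
          have e1 : ‖χ q • v q‖ ≤ M * (‖v q‖ + ‖ds v q‖ + ‖dt v q‖ + ‖(0 : F)‖) := by
            have := sm_IEL (h5 q).1 (v q)
            rw [norm_zero]
            linarith
          have e2 : ‖ds (fun q => χ q • v q) q‖ ≤
              M * (‖v q‖ + ‖ds v q‖ + ‖dt v q‖ + ‖(0 : F)‖) := by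
            rw [ds_smul_IEL h1 hv, norm_zero]
            have := (norm_add_le _ _).trans
              (add_le_add (sm_IEL (h5 q).2.1 (v q)) (sm_IEL (h5 q).1 (ds v q)))
            linarith
          have e3 : ‖dt (fun q => χ q • v q) q‖ ≤
              M * (‖v q‖ + ‖ds v q‖ + ‖dt v q‖ + ‖(0 : F)‖) := by
            rw [dt_smul_IEL h1 hv, norm_zero]
            have := (norm_add_le _ _).trans
              (add_le_add (sm_IEL (h5 q).2.2.1 (v q)) (sm_IEL (h5 q).1 (dt v q)))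
            linarith
          have e4 := add_le_add (add_le_add (conv_IEL e1) (conv_IEL e2)) (conv_IEL e3)
          rw [enorm_zero, zero_pow two_ne_zero, add_zero, ← add_mul, ← add_mul] at e4
          rw [ENNReal.coe_add, ENNReal.coe_add]
          exact e4
        · obtain ⟨e0, e1, e2, -⟩ := zero_IEL fun e => hq (hs e)
          rw [e0, e1, e2, enorm_zero, zero_pow two_ne_zero, add_zero, add_zero]

theorem sup_loc {r : ℝ} (h0 : 0 < r) : ∃ c : ℝ≥0, ∀ (p : Pl) (v : Pl → F), ContDiff ℝ ∞ v →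
    ‖v p‖ₑ ^ 2 ≤ c * ∫⁻ q in Metric.ball p r,
      ‖v q‖ₑ ^ 2 + ‖ds v q‖ₑ ^ 2 + ‖dt v q‖ₑ ^ 2 + ‖ds (dt v) q‖ₑ ^ 2 := by
  obtain ⟨M, hM⟩ := bump_IEL (half_pos h0) (half_lt_self h0)
  have hV : volume (Metric.ball (0 : Pl) r) ≠ ⊤ := measure_ball_lt_top.ne
  refine ⟨(volume (Metric.ball (0 : Pl) r)).toNNReal * (4 * M ^ 2), fun p v hv => ?_⟩
  obtain ⟨χ, h1, h2, h3, h4, h5⟩ := hM p
  have hs : tsupport (fun q => χ q • v q) ⊆ Metric.ball p r :=
    (tsupport_smul_subset_left χ v).trans h3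
  have h6 := sob_plane (fun q => χ q • v q) (h1.smul hv) h2.smul_right p
  have h7 : ∫⁻ q, ‖ds (dt fun q => χ q • v q) q‖ₑ =
      ∫⁻ q in Metric.ball p r, ‖ds (dt fun q => χ q • v q) q‖ₑ :=
    (setLIntegral_eq_of_support_subset fun q hq => by_contra fun e => hq (by
      rw [(zero_IEL fun e' => e (hs e')).2.2.2, enorm_zero])).symm
  rw [h4 p (Metric.mem_ball_self (half_pos h0)), one_smul, h7] at h6
  refine (pow_le_pow_left' h6 2).trans
    ((cs_IEL (contDiff_ds (contDiff_dt (f := fun q => χ q • v q)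
      (h1.smul hv))).continuous.enorm.measurable).trans ?_)
  rw [Measure.restrict_apply_univ, Measure.addHaar_ball_center, ENNReal.coe_mul,
    ENNReal.coe_toNNReal hV, mul_assoc, ← lintegral_const_mul' _ _ ENNReal.coe_ne_top]
  refine mul_le_mul' le_rfl (lintegral_mono fun q => conv_IEL ?_)
  rw [dst_smul_IEL h1 hv, mul_add, mul_add, mul_add]
  exact norm_add₄_le.trans (add_le_add (add_le_add (add_le_add (sm_IEL (h5 q).2.2.2 _)
    (sm_IEL (h5 q).2.2.1 _)) (sm_IEL (h5 q).2.1 _)) (sm_IEL (h5 q).1 _))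

end

end Pool.Agent.P.MP_de3acd_gt.FH
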