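import Pool.Agent.P.MP_de3acd_gt.FH.GauC
import Pool.Agent.P.MP_de3acd_gt.FH.FrG

/-! Invariance under the group.
Sketch: the gauge with x0 = g 0, P = lin g (Fr.aff), Q = lin g⁻¹ constant in t; deriv of constants vanishes; Coh.inv. The corollaries follow from the lemmas on Gau
with c.up x = g ∘ x, c.upu u = g ∘ u, c.pX X = X. -/

open Set Filter Topology MeasureTheory
open scoped ContDiff NNReal ENNReal RealInnerProductSpace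

namespace Pool.Agent.P.MP_de3acd_gt.FH

noncomputable section

variable {Γ : Subgroup (Equiv.Perm E)} {B : ℝ → E →L[ℝ] E} {J : ℝ → E → E →L[ℝ] E}
  {H G K K' : ℝ → E → ℝ} {Y Y' Z : ℝ → E → E} {γ g : Equiv.Perm E} {x y w : ℝ → E} {u : Pl → E}

variable {X : Pl → E → E} {o : ∀ a b, Op E a b → ℤˣ}

theorem Fr.gau (h : Fr Γ B) (hg : g ∈ Γ) (hγ : γ ∈ Γ) : ∃ c : Gau om om γ (g * γ * g⁻¹),
    (∀ t z, c.pt t z = g z) ∧ (∀ t v, c.P t v = lin g v) ∧ (∀ J, IJ om Γ J → c.pJ J = J) ∧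
    (∀ Y : ℝ → E → E, (∀ t, Ivf Γ (Y t)) → c.pY Y = Y) ∧
    (∀ X : Pl → E → E, (∀ q, Ivf Γ (X q)) → c.pX X = X) ∧
      ∀ o, Coh om Γ o → ∀ a b (T : Op E a b), T.γ = γ → Ok om Γ T → o a b (c.op T) = o a b T := by
  obtain ⟨L, hL⟩ := h.aff hg
  obtain ⟨L', hL'⟩ := h.aff (Γ.inv_mem hg)
  have PQ : ∀ v, L (L' v) = v := fun v => by
    rw [← hL', ← hL, ← h.lin_mul hg, mul_inv_cancel, lin_one']
  have QP : ∀ v, L' (L v) = v := fun v => by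
    rw [← hL, ← hL', ← h.lin_mul (Γ.inv_mem hg), inv_mul_cancel, lin_one']
  have pt : ∀ z, g 0 + L z = g z := fun z => by rw [← hL, lin, add_sub_cancel]
  obtain ⟨c, c0, cP, cQ⟩ : ∃ c : Gau om om γ (g * γ * g⁻¹),
      c.x0 = (fun _ => g 0) ∧ c.P = (fun _ => L) ∧ c.Q = fun _ => L' :=
    ⟨⟨fun _ => g 0, fun _ => L, fun _ => L', contDiff_const, contDiff_const, contDiff_const,
      fun _ => PQ, fun _ => QP, form_om, form_om, fun _ u v => by rw [← hL, ← hL, h.om_lin hg],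
      h.aff hγ, h.aff (Γ.mul_mem (Γ.mul_mem hg hγ) (Γ.inv_mem hg)), fun _ z => by
        rw [pt, pt]
        simp⟩, rfl, rfl, rfl⟩
  have e : ∀ t z, c.pt t z = g z := fun t z => by rw [Gau.pt, c0, cP, pt]
  have eY : ∀ Y : ℝ → E → E, (∀ t, Ivf Γ (Y t)) → c.pY Y = Y := fun Y hY => by
    funext t z
    rw [Gau.pY, e, c0, cP, cQ, deriv_const, deriv_const, hY t g hg, hL, sub_zero]
    simp [QP]
  refine ⟨c, e, fun t v => by rw [cP, hL], fun J hJ => ?_, eY,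
    fun X hX => funext fun p => congrFun (eY (frz X p.1) fun t => hX _) p.2,
    fun o ho a b T hT ok => ho.inv g hg a b T (c.op T) ok (by rw [hT]; rfl)
      (funext fun t => e t _) (funext fun t => e t _) (fun p v => ?_)
      (fun i => funext fun p => ?_) (fun i => funext fun p => ?_) rfl⟩
  · funext t z
    refine ContinuousLinearMap.ext fun v => ?_
    simp only [Gau.pJ, e, cP, cQ, ContinuousLinearMap.comp_apply]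
    rw [← hL, hJ.2 g hg, hL, QP]
  · simp [Gau.op, cP, cQ, hL, QP]
  · simp [Gau.op, Gau.vec, cP, hL]
  · simp [Gau.op, Gau.vec, cP, hL]

theorem Fr.gau_InvE (h : Fr Γ B) (hg : g ∈ Γ) (hγ : γ ∈ Γ) : ∃ c : Gau om om γ (g * γ * g⁻¹),
    (∀ x, g ∘ x = c.up x) ∧ (∀ u, g ∘ u = c.upu u) ∧ (∀ J, IJ om Γ J → c.pJ J = J) ∧
    (∀ Y : ℝ → E → E, (∀ t, Ivf Γ (Y t)) → c.pY Y = Y) ∧
    (∀ X : Pl → E → E, (∀ q, Ivf Γ (X q)) → c.pX X = X) ∧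
      ∀ o, Coh om Γ o → ∀ a b (T : Op E a b), T.γ = γ → Ok om Γ T → o a b (c.op T) = o a b T := by
  obtain ⟨c, e, -, H⟩ := h.gau hg hγ
  exact ⟨c, fun x => funext fun t => (e t _).symm, fun u => funext fun p => (e p.2 _).symm, H⟩

theorem mem_InvE (hg : g ∈ Γ) (hγ : γ ∈ Γ) : g * γ * g⁻¹ ∈ Γ :=
  Γ.mul_mem (Γ.mul_mem hg hγ) (Γ.inv_mem hg)

variable (h : Fr Γ B) (hg : g ∈ Γ) (hγ : γ ∈ Γ)
include h hg hγ

theorem Fr.orb_iff (hY : ∀ t, Ivf Γ (Y t)) : Orb (g * γ * g⁻¹) Y (g ∘ x) ↔ Orb γ Y x := by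
  obtain ⟨c, ex, eu, eJ, eY, eX, eo⟩ := h.gau_InvE hg hγ
  rw [ex, c.orb_iff, eY Y hY]

theorem Fr.tw_iff : Tw (g * γ * g⁻¹) (g ∘ x) ↔ Tw γ x := by
  obtain ⟨c, ex, eu, eJ, eY, eX, eo⟩ := h.gau_InvE hg hγ
  rw [ex]
  exact and_congr c.contDiff_up_iff c.per_up_iff

theorem Fr.cyl_iff (hJ : IJ om Γ J) (hX : ∀ q, Ivf Γ (X q)) :
    Cyl om (g * γ * g⁻¹) J X (g ∘ x) (g ∘ y) (g ∘ u) ↔ Cyl om γ J X x y u := by
  obtain ⟨c, ex, eu, eJ, eY, eX, eo⟩ := h.gau_InvE hg hγ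
  rw [ex, ex, eu, c.cyl_iff, eJ J hJ, eX X hX]

theorem Fr.en_smul (hJ : IJ om Γ J) (hu : ContDiff ℝ ∞ u) : en om J (g ∘ u) = en om J u := by
  obtain ⟨c, ex, eu, eJ, eY, eX, eo⟩ := h.gau_InvE hg hγ
  rw [eu, c.en_upu hu, eJ J hJ]

theorem Fr.eg1_iff (hJ : IJ om Γ J) {X : ℝ → Pl → E → E} (hs : SmX X) (hX : ∀ r q, Ivf Γ (X r q)) :
    EG1 om Γ (g * γ * g⁻¹) J X (g ∘ x) (g ∘ y) ↔ EG1 om Γ γ J X x y := by
  obtain ⟨c, ex, eu, eJ, eY, eX, eo⟩ := h.gau_InvE hg hγ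
  rw [ex, ex, c.eg1_iff hγ (mem_InvE hg hγ) hJ.diff hs, eJ J hJ,
    show (fun r => c.pX (X r)) = X from funext fun r => eX _ (hX r)]

theorem Fr.nT0_smul (hJ : IJ om Γ J) (ho : Coh om Γ o) (hs : ∀ p, Differentiable ℝ (X p))
    (hX : ∀ q, Ivf Γ (X q)) :
    nT0 om Γ o (g * γ * g⁻¹) J X (g ∘ x) (g ∘ y) = nT0 om Γ o γ J X x y := by
  obtain ⟨c, ex, eu, eJ, eY, eX, eo⟩ := h.gau_InvE hg hγ
  rw [ex, ex, c.nT0_eq hγ (mem_InvE hg hγ) hJ.diff (eo o ho) hs, eJ J hJ, eX X hX]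

theorem Fr.nT1_smul (hJ : IJ om Γ J) (ho : Coh om Γ o) (hs : ∀ p, Differentiable ℝ (X p))
    (hX : ∀ q, Ivf Γ (X q)) :
    nT1 om Γ o (g * γ * g⁻¹) J X (g ∘ x) (g ∘ y) = nT1 om Γ o γ J X x y := by
  obtain ⟨c, ex, eu, eJ, eY, eX, eo⟩ := h.gau_InvE hg hγ
  rw [ex, ex, c.nT1_eq hγ (mem_InvE hg hγ) hJ.diff (eo o ho) hs, eJ J hJ, eX X hX]

theorem Fr.nK_smul (hJ : IJ om Γ J) (ho : Coh om Γ o) {X : ℝ → Pl → E → E} (hs : SmX X)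
    (hX : ∀ r q, Ivf Γ (X r q)) :
    nK om Γ o (g * γ * g⁻¹) J X (g ∘ x) (g ∘ y) = nK om Γ o γ J X x y := by
  obtain ⟨c, ex, eu, eJ, eY, eX, eo⟩ := h.gau_InvE hg hγ
  rw [ex, ex, c.nK_eq hγ (mem_InvE hg hγ) hJ.diff (eo o ho) hs, eJ J hJ,
    show (fun r => c.pX (X r)) = X from funext fun r => eX _ (hX r)]

theorem Fr.nN_smul (hJ : IJ om Γ J) (ho : Coh om Γ o) (hY : IY Γ Y) :
    nN om Γ o (g * γ * g⁻¹) J Y (g ∘ x) (g ∘ y) = nN om Γ o γ J Y x y := by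
  obtain ⟨c, ex, eu, eJ, eY, eX, eo⟩ := h.gau_InvE hg hγ
  rw [ex, ex, c.nN_eq hγ (mem_InvE hg hγ) hJ.diff (eo o ho) hY.diff, eJ J hJ, eY Y hY.2]

theorem Fr.solN_iff (hJ : IJ om Γ J) (ho : Coh om Γ o) (hY : IY Γ Y) (σ : ℤˣ) :
    g ∘ u ∈ SolN om Γ o (g * γ * g⁻¹) J Y (g ∘ x) (g ∘ y) σ ↔ u ∈ SolN om Γ o γ J Y x y σ := by
  obtain ⟨c, ex, eu, eJ, eY, eX, eo⟩ := h.gau_InvE hg hγ
  rw [ex, ex, eu, c.solN_iff hγ (mem_InvE hg hγ) hJ.diff (eo o ho) hY.diff, eJ J hJ, eY Y hY.2]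

end

end Pool.Agent.P.MP_de3acd_gt.FH
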