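import Pool.Agent.P.MP_de3acd_gt.FH.Cay

/-! Smooth extensions of the inverse and paths of compatible structures.
Sketch: exists_inv_ext: the invertible maps form an open set U on which the inverse is smooth (contDiffAt_map_inverse, or ContinuousLinearMap.IsInvertible.contDiffAt_map_inverse); take a smooth function χ that is
one on K and has tsupport χ ⊆ U (exists_contMDiffMap_one_nhds_of_subset_interior, exists_contMDiff_zero_iff_one_iff_of_isClosed after shrinking U by exists_compact_between, or finitely many bumps from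
exists_contDiff_tsupport_subset), G A = χ A • A.inverse, contDiff_of_tsupport. isCompact_cpt: closed by cpt_of_tendsto (isSeqClosed_iff_isClosed), bounded, finite-dimensional.
exists_jpath: G₀ from exists_pji, Q (r, j, j') = (1 - r) • G₀ j + r • G₀ j' = 1 + ((1 - r) • (G₀ j - 1) + r • (G₀ j' - 1)), Cpt.SA_pj, SA.comb, SA.cay, inv_of_norm; G₁ from exists_inv_ext on the compact image of
Icc 0 1 ×ˢ K ×ˢ K under Q; G q = Q q ∘ J0 ∘ G₁ (Q q). G (r, j, j) = j by Cpt.pj_comm, and G is Lipschitz on a closed ball (Convex.norm_image_sub_le_of_norm_fderiv_le, the derivative is bounded on compact sets). -/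

open Set Filter Topology MeasureTheory
open scoped ContDiff NNReal ENNReal RealInnerProductSpace

namespace Pool.Agent.P.MP_de3acd_gt.FH

noncomputable section

variable {V : Type} [NormedAddCommGroup V] [InnerProductSpace ℝ V] [Sym V]

theorem exists_inv_ext {K : Set (V →L[ℝ] V)} (hK : IsCompact K) (h : ∀ A ∈ K, A.IsInvertible) :
    ∃ G : (V →L[ℝ] V) → V →L[ℝ] V, ContDiff ℝ ∞ G ∧ ∀ A ∈ K, G A = A.inverse := by
  have hU : IsOpen {A : V →L[ℝ] V | A.IsInvertible} := ContinuousLinearEquiv.isOpen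
  obtain ⟨f, h0, h1, -⟩ := exists_contMDiffMap_zero_one_nhds_of_isClosed
    (modelWithCornersSelf ℝ (V →L[ℝ] V)) (n := ⊤) hU.isClosed_compl hK.isClosed
    (disjoint_left.2 fun A hA hA' => hA (h A hA'))
  have hf : ContDiff ℝ ∞ f := f.contMDiff.contDiff
  refine ⟨fun A => f A • A.inverse, contDiff_iff_contDiffAt.2 fun A => ?_, fun A hA => ?_⟩
  · by_cases hA : A.IsInvertible
    · exact hf.contDiffAt.smul hA.contDiffAt_map_inverse
    · refine (contDiffAt_const (c := 0)).congr_of_eventuallyEq ?_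
      filter_upwards [eventually_nhdsSet_iff_forall.1 h0 A hA] with B hB
      rw [hB, zero_smul]
  · show f A • A.inverse = _
    rw [h1.self_of_nhdsSet A hA, one_smul]

theorem isCompact_cpt (A : ℝ) : IsCompact {j : V →L[ℝ] V | Cpt Ω0 j ∧ ‖j‖ ≤ A} := by
  have := FiniteDimensional.proper_real (V →L[ℝ] V)
  have hc : IsClosed {j : V →L[ℝ] V | Cpt Ω0 j} :=
    isSeqClosed_iff_isClosed.1 fun _ _ hj e => cpt_of_tendsto form_Ω0 hj e
  refine (isCompact_closedBall (0 : V →L[ℝ] V) A).of_isClosed_subset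
    (hc.inter (isClosed_le continuous_norm continuous_const)) fun j hj => ?_
  exact mem_closedBall_zero_iff.2 hj.2

theorem pj_JP : ContDiff ℝ ∞ (pj : (V →L[ℝ] V) → V →L[ℝ] V) :=
  (contDiff_const.sub (contDiff_const.clm_comp contDiff_id)).const_smul (1 / 2 : ℝ)

theorem exists_pji (A : ℝ) : ∃ G : (V →L[ℝ] V) → V →L[ℝ] V, ContDiff ℝ ∞ G ∧
    ∀ j, Cpt Ω0 j → ‖j‖ ≤ A → G j = (pj j).inverse := by
  obtain ⟨G, hG, e⟩ := exists_inv_ext ((isCompact_cpt (V := V) A).image pj_JP.continuous)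
    (by rintro _ ⟨j, hj, rfl⟩; exact (Cpt.pj_inv hj.1).1)
  exact ⟨fun j => G (pj j), hG.comp pj_JP, fun j h1 h2 => e _ ⟨j, ⟨h1, h2⟩, rfl⟩⟩

theorem conj_JP {j : V →L[ℝ] V} (h : Cpt Ω0 j) :
    (pj j).inverse.comp ((Sym.J0 : V →L[ℝ] V).comp (pj j).inverse.inverse) = j := by
  rw [(Cpt.pj_inv h).1.inverse_inverse]
  ext v
  rw [ContinuousLinearMap.comp_apply, ContinuousLinearMap.comp_apply, ← Cpt.pj_comm h,
    Cpt.pj_left h]

theorem comb_JP {j j' : V →L[ℝ] V} (h : Cpt Ω0 j) (h' : Cpt Ω0 j') {r : ℝ}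
    (hr : r ∈ Icc (0 : ℝ) 1) : ∃ A : V →L[ℝ] V, SA A ∧ ‖A‖ < 1 ∧
      (1 - r) • (pj j).inverse + r • (pj j').inverse = 1 + A := by
  obtain ⟨a1, a2⟩ := Cpt.SA_pj h
  obtain ⟨b1, b2⟩ := Cpt.SA_pj h'
  refine ⟨_, a1.comb b1 (1 - r) r, ?_, by module⟩
  exact mem_ball_zero_iff.1 (convex_ball (0 : V →L[ℝ] V) 1 (mem_ball_zero_iff.2 a2)
    (mem_ball_zero_iff.2 b2) (sub_nonneg.2 hr.2) hr.1 (sub_add_cancel 1 r))

theorem exists_jpath (A : ℝ) : ∃ (G : ℝ × (V →L[ℝ] V) × (V →L[ℝ] V) → V →L[ℝ] V) (L : ℝ),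
    ContDiff ℝ ∞ G ∧ 0 ≤ L ∧ ∀ j j', Cpt Ω0 j → Cpt Ω0 j' → ‖j‖ ≤ A → ‖j'‖ ≤ A →
      G (0, j, j') = j ∧ G (1, j, j') = j' ∧ ∀ r ∈ Icc (0 : ℝ) 1,
        Cpt Ω0 (G (r, j, j')) ∧ ‖G (r, j, j') - j‖ ≤ L * ‖j' - j‖ := by
  obtain ⟨G0, h0, e0⟩ := exists_pji (V := V) A
  obtain ⟨Q, hQ⟩ : ∃ Q : ℝ × (V →L[ℝ] V) × (V →L[ℝ] V) → V →L[ℝ] V,
      Q = fun q => (1 - q.1) • G0 q.2.1 + q.1 • G0 q.2.2 := ⟨_, rfl⟩
  have cQ : ContDiff ℝ ∞ Q := by
    rw [hQ]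
    exact ((contDiff_const.sub contDiff_fst).smul (h0.comp contDiff_snd.fst)).add
      (contDiff_fst.smul (h0.comp contDiff_snd.snd))
  have hK := isCompact_cpt (V := V) A
  have hS := (isCompact_Icc (a := (0 : ℝ)) (b := 1)).prod (hK.prod hK)
  have eQ : ∀ (r : ℝ) j j', Cpt Ω0 j → Cpt Ω0 j' → ‖j‖ ≤ A → ‖j'‖ ≤ A →
      Q (r, j, j') = (1 - r) • (pj j).inverse + r • (pj j').inverse := fun r j j' a b c d => by
    rw [hQ, ← e0 j a c, ← e0 j' b d]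
  obtain ⟨G1, h1, e1⟩ := exists_inv_ext (hS.image cQ.continuous) (by
    rintro _ ⟨⟨r, j, j'⟩, ⟨hr, hj, hj'⟩, rfl⟩
    obtain ⟨B, -, b2, b3⟩ := comb_JP hj.1 hj'.1 hr
    rw [eQ r j j' hj.1 hj'.1 hj.2 hj'.2, b3]
    exact inv_of_norm b2)
  obtain ⟨G, hG⟩ : ∃ G : ℝ × (V →L[ℝ] V) × (V →L[ℝ] V) → V →L[ℝ] V,
      G = fun q => (Q q).comp ((Sym.J0 : V →L[ℝ] V).comp (G1 (Q q))) := ⟨_, rfl⟩
  have cG : ContDiff ℝ ∞ G := by
    rw [hG]
    exact cQ.clm_comp (contDiff_const.clm_comp (h1.comp cQ))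
  have eG : ∀ r ∈ Icc (0 : ℝ) 1, ∀ j j', Cpt Ω0 j → Cpt Ω0 j' → ‖j‖ ≤ A → ‖j'‖ ≤ A →
      G (r, j, j') = ((1 - r) • (pj j).inverse + r • (pj j').inverse).comp
        ((Sym.J0 : V →L[ℝ] V).comp ((1 - r) • (pj j).inverse + r • (pj j').inverse).inverse) :=
    fun r hr j j' a b c d => by
      rw [hG, ← eQ r j j' a b c d, ← e1 _ ⟨(r, j, j'), ⟨hr, ⟨a, c⟩, ⟨b, d⟩⟩, rfl⟩]
  obtain ⟨L, hL⟩ := ((cG.of_le (m := 1) (by simp)).locallyLipschitz.locallyLipschitzOn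
    ).exists_lipschitzOnWith_of_compact hS
  refine ⟨G, L, cG, L.2, fun j j' a b c d => ⟨?_, ?_, fun r hr => ⟨?_, ?_⟩⟩⟩
  · rw [eG 0 ⟨le_rfl, zero_le_one⟩ j j' a b c d, sub_zero, one_smul, zero_smul, add_zero,
      conj_JP a]
  · rw [eG 1 ⟨zero_le_one, le_rfl⟩ j j' a b c d, sub_self, one_smul, zero_smul, zero_add,
      conj_JP b]
  · obtain ⟨B, b1, b2, b3⟩ := comb_JP a b hr
    rw [eG r hr j j' a b c d, b3]
    exact (b1.cay b2).2.1
  · have e2 : G (r, j, j) = j := by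
      rw [eG r hr j j a a c c, ← add_smul, sub_add_cancel, one_smul, conj_JP a]
    have := hL.dist_le_mul (r, j, j') ⟨hr, ⟨a, c⟩, ⟨b, d⟩⟩ (r, j, j) ⟨hr, ⟨a, c⟩, ⟨a, c⟩⟩
    rwa [e2, dist_prod_same_left, dist_prod_same_left, dist_eq_norm, dist_eq_norm] at this

end

end Pool.Agent.P.MP_de3acd_gt.FH
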