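import Pool.Agent.P.MP_de3acd_gt.FH.VL

/-! Kernels on lifted orbits.
Sketch: exists_smul: Fr.orb_iff; the inverse is given by g⁻¹. ker: for x the representative σ (π x) has the same projection, so x = g ∘ σ (π x) (Fr.lift; orbits are continuous), the twisting elements are conjugate
(Fr.col at x 1 = γ (x 0)); e is the action of g on LO Γ Y₁; gap_smul. low_E, energy_le, fin_y (Set.Finite.preimage or of_injOn along q ↦ q.1.2 on the fibre q.1.1 = γ). -/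

open Set Filter Topology MeasureTheory
open scoped ContDiff NNReal ENNReal RealInnerProductSpace

namespace Pool.Agent.P.MP_de3acd_gt.FH

noncomputable section

variable {Γ : Subgroup (Equiv.Perm E)} {B : ℝ → E →L[ℝ] E} {J : ℝ → E → E →L[ℝ] E}
  {H G K K' : ℝ → E → ℝ} {Y Y' Z : ℝ → E → E} {γ g : Equiv.Perm E} {x y w : ℝ → E} {u : Pl → E}
variable {X p p₁ p₂ : Pl → E → E} {Y₀ Y₁ : ℝ → E → E} {d R β₀ β₁ v η L b : ℝ}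
  {o : ∀ a b, Op E a b → ℤˣ}

variable {n n' : Equiv.Perm E → (ℝ → E) → (ℝ → E) → ℤ} {Y₂ : ℝ → E → E}

/-- The action on lifted orbits. -/
def smul_KerE (h : Fr Γ B) (hY : IY Γ Y) (hg : g ∈ Γ) (q : LO Γ Y) : LO Γ Y :=
  ⟨(g * q.1.1 * g⁻¹, g ∘ q.1.2), mem_InvE hg q.2.1, (h.orb_iff hg q.2.1 hY.2).2 q.2.2⟩

theorem lk_KerE {q₀ : LO Γ Y₀} {q₁ : LO Γ Y₁} (h : lk n q₀ q₁ ≠ 0) :
    q₀.1.1 = q₁.1.1 ∧ n q₀.1.1 q₀.1.2 q₁.1.2 ≠ 0 := by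
  unfold lk at h
  split_ifs at h with e
  · exact ⟨e, h⟩
  · exact absurd rfl h

theorem Fr.exists_smul (h : Fr Γ B) (hY : IY Γ Y) (hg : g ∈ Γ) :
    ∃ e : LO Γ Y ≃ LO Γ Y, ∀ q, (e q).1 = (g * q.1.1 * g⁻¹, g ∘ q.1.2) := by
  refine ⟨⟨smul_KerE h hY hg, smul_KerE h hY (Γ.inv_mem hg), fun q => ?_, fun q => ?_⟩,
    fun q => rfl⟩
  · refine Subtype.ext (Prod.ext ?_ (funext fun t => g.symm_apply_apply _))
    change g⁻¹ * (g * q.1.1 * g⁻¹) * g⁻¹⁻¹ = q.1.1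
    group
  · refine Subtype.ext (Prod.ext ?_ (funext fun t => g.apply_symm_apply _))
    change g * (g⁻¹ * q.1.1 * g⁻¹⁻¹) * g⁻¹ = q.1.1
    group

theorem lk_smul (hg : g ∈ Γ) (inv : ∀ g ∈ Γ, ∀ γ ∈ Γ, ∀ x y, n (g * γ * g⁻¹) (g ∘ x) (g ∘ y) = n γ x y)
    {q₀ q₀' : LO Γ Y₀} {q₁ q₁' : LO Γ Y₁} (e₀ : q₀'.1 = (g * q₀.1.1 * g⁻¹, g ∘ q₀.1.2))
    (e₁ : q₁'.1 = (g * q₁.1.1 * g⁻¹, g ∘ q₁.1.2)) : lk n q₀' q₁' = lk n q₀ q₁ := by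
  unfold lk
  rw [e₀, e₁]
  by_cases e : q₀.1.1 = q₁.1.1
  · rw [if_pos e, if_pos (by rw [e])]
    exact inv g hg _ q₀.2.1 _ _
  · rw [if_neg e, if_neg fun e' => e (mul_left_cancel (mul_right_cancel e'))]

theorem Fr.rel_of_pr (h : Fr Γ B) (q q' : LO Γ Y) (e : pr Γ ∘ q.1.2 = pr Γ ∘ q'.1.2) :
    ∃ g ∈ Γ, q'.1 = (g * q.1.1 * g⁻¹, g ∘ q.1.2) := by
  obtain ⟨g, hg, eg⟩ := h.lift
    (continuous_iff_continuousAt.2 fun t => (q.2.2.1 t).continuousAt)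
    (continuous_iff_continuousAt.2 fun t => (q'.2.2.1 t).continuousAt) e
  refine ⟨g, hg, Prod.ext ?_ eg⟩
  refine h.col q'.2.1 (mem_InvE hg q.2.1) (z := q'.1.2 0) ?_
  rw [← q'.2.2.2 0, eg, Function.comp_apply, q.2.2.2 0]
  simp

theorem exists_pi (h : ∀ γ ∈ Γ, ∀ x, Orb γ Y x ↔ Orb γ (ham K) x) :
    ∃ (π : LO Γ Y → gens Γ K) (σ : gens Γ K → LO Γ Y), (∀ q, (π q).1 = pr Γ ∘ q.1.2) ∧
      ∀ c, π (σ c) = c := by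
  let π : LO Γ Y → gens Γ K := fun q =>
    ⟨pr Γ ∘ q.1.2, q.1.1, q.2.1, q.1.2, (h _ q.2.1 _).1 q.2.2, rfl⟩
  have hs : Function.Surjective π := by
    rintro ⟨c, γ, hγ, x, hx, rfl⟩
    exact ⟨⟨(γ, x), hγ, (h γ hγ x).2 hx⟩, rfl⟩
  exact ⟨π, Function.surjInv hs, fun _ => rfl, Function.surjInv_eq hs⟩

theorem finsum_lk (hγ : γ ∈ Γ) (c : Ch γ) {q : LO Γ Y₀} {q' : LO Γ Y₂} (e : q.1.1 = γ)
    (e' : q'.1.1 = γ) (T : Finset (ℝ → V6)) (hT : ∀ y ∈ T, Orb 1 (c.pY Y₁) y)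
    (h0 : ∀ y, Orb 1 (c.pY Y₁) y → y ∉ T → n γ q.1.2 (c.up y) * n' γ (c.up y) q'.1.2 = 0) :
    ∑ᶠ y : LO Γ Y₁, lk n q y * lk n' y q' =
      ∑ y ∈ T, n γ q.1.2 (c.up y) * n' γ (c.up y) q'.1.2 := by
  let ι : T ↪ LO Γ Y₁ := ⟨fun y => ⟨(γ, c.up y.1), hγ, c.orb_iff.2 (hT y.1 y.2)⟩, fun y y' e'' => by
    have := congrArg (fun q : LO Γ Y₁ => c.dn q.1.2) e''
    exact Subtype.ext (by simpa only [c.dn_up] using this)⟩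
  rw [finsum_eq_sum_of_support_subset (s := T.attach.map ι), Finset.sum_map,
    ← Finset.sum_attach T]
  · refine Finset.sum_congr rfl fun y _ => ?_
    have e1 : lk n q (ι y) = n q.1.1 q.1.2 (c.up y) := if_pos e
    have e2 : lk n' (ι y) q' = n' γ (c.up y) q'.1.2 := if_pos e'.symm
    rw [e1, e2, e]
  · intro y hy
    obtain ⟨h1, h2⟩ := mul_ne_zero_iff.1 hy
    obtain ⟨e1, h1⟩ := lk_KerE h1
    obtain ⟨-, h2⟩ := lk_KerE h2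
    have e2 : y.1.1 = γ := e1.symm.trans e
    have ho : Orb 1 (c.pY Y₁) (c.dn y.1.2) := c.orb_iff.1 (by rw [c.up_dn, ← e2]; exact y.2.2)
    have hm : c.dn y.1.2 ∈ T := by
      by_contra hn
      have := h0 _ ho hn
      rw [c.up_dn] at this
      rw [e] at h1
      rw [e2] at h2
      exact mul_ne_zero h1 h2 this
    exact Finset.mem_coe.2 (Finset.mem_map.2 ⟨⟨_, hm⟩, Finset.mem_attach _ _,
      Subtype.ext (Prod.ext e2.symm (c.up_dn _))⟩)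

theorem finsum_lk_ne {q : LO Γ Y₀} {q' : LO Γ Y₂} (e : q.1.1 ≠ q'.1.1) :
    ∑ᶠ y : LO Γ Y₁, lk n q y * lk n' y q' = 0 := by
  refine finsum_eq_zero_of_forall_eq_zero fun y => ?_
  by_contra hy
  obtain ⟨h1, h2⟩ := mul_ne_zero_iff.1 hy
  exact e ((lk_KerE h1).1.trans (lk_KerE h2).1)

theorem Dat.ker (D : Dat Γ B J H G d) (hY : ClY Γ J G Y) {X : ℝ → Pl → E → E} (hX : Fam X R)
    (inv : ∀ r q, Ivf Γ (X r q)) (hc : ∀ r, Cls J H G Y (X r) β₀ β₁ v η L) (h₀ : EndF om Γ Y₀)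
    (h₁ : EndF om Γ Y₁) {w : ℝ} (hw : v * d + 8 * η ≤ w) (e₀ : K = mix H G β₀) (e₁ : K' = mix H G β₁)
    (hn : ∀ g ∈ Γ, ∀ γ ∈ Γ, ∀ x y, n (g * γ * g⁻¹) (g ∘ x) (g ∘ y) = n γ x y)
    (ex : ∀ γ x y, n γ x y ≠ 0 → ∃ r ∈ Icc (0 : ℝ) 1, ∃ u, Cyl om γ J (X r) x y u) {C D' : Type}
    {π : LO Γ Y₀ → C} {σ : C → LO Γ Y₀} {π' : LO Γ Y₁ → D'} (hσ : ∀ c, π (σ c) = c)
    (hπ : ∀ q q', π q = π q' → pr Γ ∘ q.1.2 = pr Γ ∘ q'.1.2)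
    (hπ' : ∀ q q', pr Γ ∘ q.1.2 = pr Γ ∘ q'.1.2 → π' q = π' q') (b : ℝ) :
    Ker π σ π' (la K) (la K') (lk n) w b := by
  subst e₀ e₁
  have tw : ∀ {x : LO Γ Y₀} {y : LO Γ Y₁}, x.1.1 = y.1.1 → Tw x.1.1 x.1.2 ∧ Tw x.1.1 y.1.2 :=
    fun {x y} e => ⟨Orb.tw h₀.1.1 x.2.2, e ▸ Orb.tw h₁.1.1 y.2.2⟩
  refine ⟨fun x y hxy => ?_, fun x => ?_, fun x => ?_⟩
  · obtain ⟨e, h1⟩ := lk_KerE hxy
    obtain ⟨r, -, u, hu⟩ := ex _ _ _ h1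
    have := D.low_E hY (hc r) (hX.fld r) x.2.1 (tw e).1 (tw e).2 hu
    simp only [la, ← e]
    linarith
  · refine Set.Finite.of_finite_image (f := fun y : LO Γ Y₁ => y.1.2)
      ((D.fin_y hX inv h₁ x.2.1 x.1.2 (max 1 (4 * b)) L).subset ?_) fun y hy y' hy' e => ?_
    · rintro _ ⟨y, ⟨hxy, hb⟩, rfl⟩
      obtain ⟨e, h1⟩ := lk_KerE hxy
      obtain ⟨r, hr, u, hu⟩ := ex _ _ _ h1
      have := D.energy_le hY (hc r) (hX.fld r) x.2.1 (tw e).1 (tw e).2 hu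
      simp only [la, ← e] at hb
      refine ⟨e ▸ y.2.2, r, Y, u, β₀, β₁, v, η, le_max_of_le_left ?_, hY, hc r, hu,
        le_max_of_le_right (by linarith)⟩
      rw [Real.norm_of_nonneg hr.1]
      exact hr.2
    · exact Subtype.ext (Prod.ext ((lk_KerE hy.1).1.symm.trans (lk_KerE hy'.1).1) e)
  · obtain ⟨g, hg, eg⟩ := D.fr.rel_of_pr (σ (π x)) x (hπ _ _ (hσ _))
    obtain ⟨e, he⟩ := D.fr.exists_smul h₁.1 hg
    refine ⟨e, fun y => ⟨hπ' _ _ ?_, lk_smul hg hn eg (he y), fun h1 => ?_⟩⟩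
    · rw [he]
      exact funext fun t => pr_eq_iff.2 ⟨g, hg, rfl⟩
    · obtain ⟨e1, -⟩ := lk_KerE h1
      have := D.fr.gap_smul hg (σ (π x)).2.1 ((Reg.ih D.reg).mix D.ih β₀)
        ((Reg.ih D.reg).mix D.ih β₁) (tw e1).1 (tw e1).2
      unfold la
      rw [he y, ← e1, ← this]
      conv_lhs => rw [eg]

end

end Pool.Agent.P.MP_de3acd_gt.FH
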