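import Pool.Agent.P.MP_de3acd_gt.FH.Defs7
import Pool.Agent.P.MP_de3acd_gt.FH.Dict

/-! Injectivity is stable under perturbations that are small in the supremum norm.
Sketch: est_zero, by duality. The adjoint framed operator T' = blk (Dop 1 (-1) (adJ j) (adS j S)) (kmap fun i p => -J0 (l i p)) (lmap fun i p => J0 (K i p)) (mmap of the transpose of M) is onto by Ell.surjective_blk for h.adj
(adJ_adJ, adS_adS, neg_neg; the condition is the injectivity of hil T, test with Pi.single). ContinuousLinearMap.exists_preimage_norm_le gives (ζ, ν) with T' (ζ, ν) = (inc 1 ξ, μ) and norm at most C ‖(inc 1 ξ, μ)‖. By inner_Dop₁,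
‖to0 2 ξ‖² + ∑ μ i ² = ⟪to0 1 (hil T z).1, to0 2 ζ⟫ + ∑ ν i * (hil T z).2 i. est1 for inc 1 ξ (inc_Dop) bounds ‖inc 1 ξ‖ by ‖inc 0 (hil T z).1‖, ‖μ‖ and ‖to0 2 ξ‖; finish as in bound_Fred.
inj_near: if hil T' z = 0 then hil T z = (hil T - hil T') z; inc_Dop, norm_Dop_sub_le with k = 0 (Per.int moves points into St), inc 0 (toW 1 K) = toW 0 K (toW_co, inc_co), ‖co 0 φ‖ ^ 2 = ip 0 φ φ = ∫ ‖φ‖ ^ 2,
prW_apply or prW_add and norm_prW_le at the level of to0 2 ξ, norm_mmap_sub_le; inc_injective. -/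

open Set Filter Topology MeasureTheory
open scoped ContDiff NNReal ENNReal RealInnerProductSpace

namespace Pool.Agent.P.MP_de3acd_gt.FH

noncomputable section

variable {V : Type} [NormedAddCommGroup V] [InnerProductSpace ℝ V] [Sym V]
variable {a b a' b' : ℕ}

variable {T : Op V a b}

/-- The adjoint framed operator. -/
def adj_L0 (T : Op V a b) : W 2 V × (Fin b → ℝ) →L[ℝ] W 1 V × (Fin a → ℝ) :=
  frm (Dop 1 (-1) (adJ T.j) (adS T.j T.S)) (fun i p => -Sym.J0 (T.l i p))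
    (fun i p => Sym.J0 (T.K i p)) fun i i' => T.M i' i

theorem mem_L0 {K : Pl → V} (h : K ∈ Dsub V) : (fun p => Sym.J0 (K p)) ∈ Dsub V := by
  obtain ⟨h1, h2, R, h3⟩ := h
  exact ⟨(Sym.J0 : V →L[ℝ] V).contDiff.comp h1, fun s t => by simp only [h2 s t], R,
    fun p hp => by simp only [h3 p hp, map_zero]⟩

theorem JJ_L0 (K : Pl → V) : (fun p => -Sym.J0 (Sym.J0 (K p))) = K := funext fun p => by
  rw [Sym.sq, neg_neg]

theorem prW_J_L0 {K : Pl → V} (h : K ∈ Dsub V) (ζ : W 2 V) :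
    prW (fun p => Sym.J0 (K p)) ζ = ⟪to0 1 (toW 1 K), to0 2 ζ⟫ := by
  have e : (⟨_, J0_mem (mem_L0 h)⟩ : Dsub V) = ⟨K, h⟩ := Subtype.ext (JJ_L0 K)
  rw [prW_apply (mem_L0 h), e, toW_co 1 ⟨K, h⟩, to0_co, real_inner_comm]

theorem prW_L0 {l : Pl → V} (h : l ∈ Dsub V) (ξ : W 2 V) :
    prW l ξ = ⟪to0 2 ξ, to0 1 (toW 1 fun p => -Sym.J0 (l p))⟫ := by
  rw [prW_apply h, toW_co 1 ⟨_, J0_mem h⟩, to0_co]

theorem pair_L0 (h : Coef 1 T.j T.S) (hK : TF T.K) (hl : TF T.l) (z : W 2 V × (Fin a → ℝ))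
    (w : W 2 V × (Fin b → ℝ)) :
    ⟪to0 1 (hil T z).1, to0 2 w.1⟫ + ∑ i, w.2 i * (hil T z).2 i =
      ⟪to0 2 z.1, to0 1 (adj_L0 T w).1⟫ + ∑ i, z.2 i * (adj_L0 T w).2 i := by
  have e : ∑ i, ∑ i', w.2 i * (T.M i i' * z.2 i') = ∑ i', ∑ i, z.2 i' * (T.M i i' * w.2 i) := by
    rw [Finset.sum_comm]
    exact Finset.sum_congr rfl fun _ _ => Finset.sum_congr rfl fun _ _ => by ring
  rw [hil, adj_L0, frm_apply, frm_apply]
  simp only [map_add, map_sum, map_smul, inner_add_left, inner_add_right, sum_inner, inner_sum,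
    real_inner_smul_left, real_inner_smul_right, inner_Dop₁ h, mul_add, Finset.sum_add_distrib,
    Finset.mul_sum, prW_J_L0 (hK _), prW_L0 (hl _), e]
  ring

theorem surj_L0 (h : Ell 1 T.j T.S) (hK : TF T.K) (hl : TF T.l)
    (hi : Function.Injective (hil T)) : Function.Surjective (adj_L0 T) := by
  classical
  refine h.adj.surjective_blk _ (fun i => mem_L0 (hK i)) _ fun ζ ν e1 e2 => ?_
  refine Prod.mk_eq_zero.1 (hi (Eq.trans ?_ (map_zero _).symm))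
  rw [hil, frm_apply, Prod.mk_eq_zero]
  refine ⟨?_, funext fun i => ?_⟩
  · rw [neg_neg, adJ_adJ, adS_adS h.bj.1] at e1
    simpa only [JJ_L0] using e1
  · have := e2 (Pi.single i 1)
    rw [kmap_apply, Finset.sum_eq_single i (fun i' _ hi' => by
      rw [Pi.single_eq_of_ne hi', zero_smul]) (by simp), Pi.single_eq_same, one_smul,
      real_inner_comm, ← prW_L0 (hl i)] at this
    rw [Pi.zero_apply, ← this]
    refine congrArg _ (Finset.sum_congr rfl fun i' _ => ?_)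
    rw [mmap_apply, Finset.sum_eq_single i (fun i' _ hi' => by
      rw [Pi.single_eq_of_ne hi', mul_zero]) (by simp), Pi.single_eq_same, mul_one, mul_comm]

theorem sq_le_L0 (μ : Fin a → ℝ) : ‖μ‖ ^ 2 ≤ ∑ i, μ i * μ i := by
  have h0 : 0 ≤ ∑ i, μ i * μ i := Finset.sum_nonneg fun i _ => mul_self_nonneg _
  have h1 : ‖μ‖ ≤ √(∑ i, μ i * μ i) :=
    (pi_norm_le_iff_of_nonneg (Real.sqrt_nonneg _)).2 fun i => Real.abs_le_sqrt (by
      rw [sq]
      exact Finset.single_le_sum (f := fun i => μ i * μ i) (fun i _ => mul_self_nonneg _)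
        (Finset.mem_univ i))
  exact (pow_le_pow_left₀ (norm_nonneg _) h1 2).trans (Real.sq_sqrt h0).le

theorem sum_le_L0 (ν y : Fin b → ℝ) : ∑ i, ν i * y i ≤ b * (‖ν‖ * ‖y‖) := by
  refine (Finset.sum_le_card_nsmul _ _ (‖ν‖ * ‖y‖) fun i _ => ?_).trans ?_
  · refine (le_abs_self _).trans ?_
    rw [abs_mul]
    exact mul_le_mul (norm_le_pi_norm ν i) (norm_le_pi_norm y i) (abs_nonneg _) (norm_nonneg _)
  · rw [Finset.card_univ, Fintype.card_fin, nsmul_eq_mul]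

theorem est_zero (h : Ell 1 T.j T.S) (hK : TF T.K) (hl : TF T.l) (hi : Function.Injective (hil T)) :
    ∃ c > 0, ∀ z : W 2 V × (Fin a → ℝ),
      ‖inc 1 z.1‖ + ‖z.2‖ ≤ c * (‖inc 0 (hil T z).1‖ + ‖(hil T z).2‖) := by
  obtain ⟨C, hC, h1⟩ := (adj_L0 T).exists_preimage_norm_le (surj_L0 h hK hl hi)
  obtain ⟨c, hc, h2⟩ := est1 h.toCoef
  have hk := norm_nonneg (kmap T.K)
  have hb : (0 : ℝ) ≤ b := Nat.cast_nonneg b
  obtain ⟨L, hL⟩ : ∃ L : ℝ, L = 2 * (1 + b) * C + 1 := ⟨_, rfl⟩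
  obtain ⟨K, hK'⟩ : ∃ K : ℝ, K = c * (1 + ‖kmap T.K‖) + 1 := ⟨_, rfl⟩
  have L1 : 1 ≤ L := by
    rw [hL]
    exact le_add_of_nonneg_left (by positivity)
  have K0 : 0 < K := by
    rw [hK']
    positivity
  refine ⟨(4 * K + K ^ 2) * L, by positivity, fun z => ?_⟩
  obtain ⟨w, hw, hw'⟩ := h1 (inc 1 z.1, z.2)
  have e1 := pair_L0 h.toCoef hK hl z w
  rw [hw] at e1
  change ⟪inc 0 (hil T z).1, to0 2 w.1⟫ + _ = ⟪to0 2 z.1, to0 2 z.1⟫ + ∑ i, z.2 i * z.2 i at e1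
  rw [real_inner_self_eq_norm_sq] at e1
  have e2 : Dop 0 1 T.j T.S (inc 1 z.1) = inc 0 (hil T z).1 - inc 0 (kmap T.K z.2) := by
    rw [← inc_Dop, ← map_sub]
    exact congrArg _ (add_sub_cancel_right _ _).symm
  have a1 := h2 (inc 1 z.1)
  rw [e2] at a1
  have a2 := (norm_inc_le 0 (kmap T.K z.2)).trans ((kmap T.K).le_opNorm z.2)
  have a3 := norm_sub_le (inc 0 (hil T z).1) (inc 0 (kmap T.K z.2))
  have a4 := real_inner_le_norm (inc 0 (hil T z).1) (to0 2 w.1)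
  have a5 := sum_le_L0 w.2 (hil T z).2
  have a6 := sq_le_L0 z.2
  have a7 : ‖(inc 1 z.1, z.2)‖ ≤ ‖inc 1 z.1‖ + ‖z.2‖ :=
    max_le (le_add_of_nonneg_right (norm_nonneg _)) (le_add_of_nonneg_left (norm_nonneg _))
  have a8 := ((norm_to0_le 2 w.1).trans (norm_fst_le w)).trans
    (hw'.trans (mul_le_mul_of_nonneg_left a7 hC.le))
  have a9 := (norm_snd_le w).trans (hw'.trans (mul_le_mul_of_nonneg_left a7 hC.le))
  change ‖inc 1 z.1‖ ≤ c * (_ + ‖to0 2 z.1‖) at a1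
  have n1 := norm_nonneg (inc 1 z.1)
  have n2 := norm_nonneg z.2
  have n3 := norm_nonneg (inc 0 (hil T z).1)
  have n4 := norm_nonneg (hil T z).2
  have n5 := norm_nonneg (to0 2 z.1)
  generalize ‖inc 1 z.1‖ = x1 at *
  generalize ‖z.2‖ = x2 at *
  generalize ‖inc 0 (hil T z).1‖ = y1 at *
  generalize ‖(hil T z).2‖ = y2 at *
  generalize ‖to0 2 z.1‖ = x0 at *
  have b1 : x0 ^ 2 + x2 ^ 2 ≤ y1 * (C * (x1 + x2)) + b * (C * (x1 + x2) * y2) := by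
    have := mul_le_mul_of_nonneg_left a8 n3
    have := mul_le_mul_of_nonneg_left (mul_le_mul_of_nonneg_right a9 n4) hb
    linarith
  have b2 : (x0 + x2) ^ 2 ≤ L * (y1 + y2) * (x1 + x2) := by
    have p1 : 0 ≤ y2 * (C * (x1 + x2)) := by positivity
    have p2 : 0 ≤ b * (C * (x1 + x2) * y1) := by positivity
    have p3 : 0 ≤ (y1 + y2) * (x1 + x2) := by positivity
    rw [hL]
    linarith [sq_nonneg (x0 - x2)]
  have b3 : x1 + x2 ≤ K * (2 * (L * (y1 + y2)) + (x0 + x2)) := by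
    have p1 : y1 ≤ 2 * (L * (y1 + y2)) := by
      linarith [mul_le_mul_of_nonneg_right L1 (add_nonneg n3 n4)]
    have p2 : x1 ≤ c * (y1 + ‖kmap T.K‖ * x2 + x0) :=
      a1.trans (mul_le_mul_of_nonneg_left (by linarith) hc.le)
    have p3 : y1 + ‖kmap T.K‖ * x2 + x0 ≤ (1 + ‖kmap T.K‖) * (2 * (L * (y1 + y2)) + (x0 + x2)) := by
      have : 0 ≤ ‖kmap T.K‖ * (2 * (L * (y1 + y2)) + x0) := mul_nonneg hk (by linarith)
      linarith
    have p4 := mul_le_mul_of_nonneg_left p3 hc.le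
    rw [hK']
    linarith
  have := bound_Fred (by positivity) (by positivity) b2 b3
  linarith

theorem cn_L0 {F : Type} [NormedAddCommGroup F] [NormedSpace ℝ F] {f g : Pl → F} (hf : Per f)
    (hg : Per g) {ε : ℝ} (h : ∀ p ∈ St, ‖g p - f p‖ ≤ ε) : Cn 0 (f - g) univ ε := fun p _ => by
  have h1 := hf.int p.1 (Int.fract p.2) ⌊p.2⌋
  have h2 := hg.int p.1 (Int.fract p.2) ⌊p.2⌋
  rw [Int.fract_add_floor] at h1 h2
  change ‖f (p.1, p.2) - g (p.1, p.2)‖ ≤ ε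
  rw [h1, h2, norm_sub_rev]
  exact h _ ⟨mem_univ _, Int.fract_nonneg _, (Int.fract_lt_one _).le⟩

omit [Sym V] in
theorem toW_L0 {f g : Pl → V} (hf : f ∈ Dsub V) (hg : g ∈ Dsub V) {ε : ℝ} (h0 : 0 ≤ ε)
    (h : ∫ p in St, ‖g p - f p‖ ^ 2 ≤ ε ^ 2) : ‖toW 0 f - toW 0 g‖ ≤ ε := by
  refine le_of_sq_le_sq ?_ h0
  rw [norm_sub_rev, toW_co 0 ⟨f, hf⟩, toW_co 0 ⟨g, hg⟩, ← map_sub, norm_co_sq, ip_zero]
  simp only [real_inner_self_eq_norm_sq]
  exact h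

omit [Sym V] in
theorem inc_toW_L0 {f : Pl → V} (hf : f ∈ Dsub V) : inc 0 (toW 1 f) = toW 0 f := by
  rw [toW_co 1 ⟨f, hf⟩, toW_co 0 ⟨f, hf⟩, inc_co]

theorem prW_sub_L0 {l l' : Pl → V} (hl : l ∈ Dsub V) (hl' : l' ∈ Dsub V) {ε : ℝ} (h0 : 0 ≤ ε)
    (h : ∫ p in St, ‖l' p - l p‖ ^ 2 ≤ ε ^ 2) (ξ : W 2 V) :
    ‖prW l ξ - prW l' ξ‖ ≤ ε * ‖inc 1 ξ‖ := by
  have h1 := toW_L0 (J0_mem hl) (J0_mem hl') h0 (by
    refine le_of_eq_of_le (integral_congr_ae (Eventually.of_forall fun p => ?_)) h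
    simp only [neg_sub_neg, ← map_sub, norm_J0]
    rw [norm_sub_rev])
  rw [prW_apply hl, prW_apply hl', ← inner_sub_right, ← toW_co, ← toW_co, mul_comm]
  exact (norm_inner_le_norm _ _).trans
    (mul_le_mul (norm_to0_le 1 (inc 1 ξ)) h1 (norm_nonneg _) (norm_nonneg _))

theorem inj_near (h : Ok Ω0 ⊥ T) :
    ∃ δ > 0, ∀ T' : Op V a b, CT T' → Clo T T' δ → Function.Injective (hil T') := by
  obtain ⟨-, -, hc, -, hK, hl⟩ := adm_iff.1 h.1
  obtain ⟨c, c0, hz⟩ := est_zero (Adm.ell h.1) hK hl ((Adm.ok_iff h.1).1 h).1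
  have ha : (0 : ℝ) ≤ a := Nat.cast_nonneg a
  obtain ⟨ε, ε0, ε1, ε2⟩ : ∃ ε : ℝ, 0 < ε ∧ ε ≤ 1 ∧ c * (19 + 2 * a) * ε ≤ 1 / 2 := by
    have p : 0 < c * (19 + 2 * a) := by positivity
    refine ⟨min 1 (1 / 2 / (c * (19 + 2 * a))), by positivity, min_le_left _ _, ?_⟩
    exact (mul_le_mul_of_nonneg_left (min_le_right _ _) p.le).trans (mul_div_cancel₀ _ p.ne').le
  have ε3 : ε ^ 2 ≤ ε := pow_le_of_le_one ε0.le ε1 two_ne_zero
  refine ⟨ε ^ 2, by positivity, fun T' ⟨hc', hK', hl'⟩ ⟨k1, k2, k3, k4⟩ =>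
    (injective_iff_map_eq_zero _).2 fun z e => ?_⟩
  have n1 := norm_nonneg (inc 1 z.1)
  have n2 := norm_nonneg z.2
  have e1 : inc 0 (hil T z).1 = (Dop 0 1 T.j T.S - Dop 0 1 T'.j T'.S) (inc 1 z.1) +
      ∑ i, z.2 i • (toW 0 (T.K i) - toW 0 (T'.K i)) := by
    have : inc 0 (hil T' z).1 = 0 := by rw [e, Prod.fst_zero, map_zero]
    rw [← sub_zero (inc 0 (hil T z).1), ← this, hil, hil, frm_apply, frm_apply]
    simp only [map_add, map_sum, map_smul, inc_Dop, inc_toW_L0 (hK _), inc_toW_L0 (hK' _),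
      sub_apply, smul_sub, Finset.sum_sub_distrib]
    abel
  have e2 : ∀ i, (hil T z).2 i = prW (T.l i) z.1 - prW (T'.l i) z.1 +
      (mmap T.M - mmap T'.M) z.2 i := fun i => by
    have : prW (T'.l i) z.1 + mmap T'.M z.2 i = 0 := congrFun (congrArg Prod.snd e) i
    change prW (T.l i) z.1 + mmap T.M z.2 i = _ + (mmap T.M z.2 i - mmap T'.M z.2 i)
    linarith
  have a1 : ‖inc 0 (hil T z).1‖ ≤ 18 * ε * ‖inc 1 z.1‖ + a * (‖z.2‖ * ε) := by
    rw [e1]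
    refine norm_add_le_of_le ((ContinuousLinearMap.le_opNorm _ _).trans
      (mul_le_mul_of_nonneg_right (norm_Dop_sub_le zero_le_one hc hc'
        (cn_L0 hc.pj hc'.pj fun p hp => (k1 p hp).1.trans ε3)
        (cn_L0 hc.pS hc'.pS fun p hp => (k1 p hp).2.trans ε3)) n1)) ?_
    refine (norm_sum_le_of_le (n := fun _ => ‖z.2‖ * ε) _ fun i _ => ?_).trans ?_
    · rw [norm_smul]
      exact mul_le_mul (norm_le_pi_norm z.2 i) (toW_L0 (hK i) (hK' i) ε0.le (k2 i))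
        (norm_nonneg _) n2
    · rw [Finset.sum_const, Finset.card_univ, Fintype.card_fin, nsmul_eq_mul]
  have a2 : ‖(hil T z).2‖ ≤ ε * ‖inc 1 z.1‖ + a * ε * ‖z.2‖ := by
    refine (pi_norm_le_iff_of_nonneg (by positivity)).2 fun i => ?_
    rw [e2]
    refine norm_add_le_of_le (prW_sub_L0 (hl i) (hl' i) ε0.le (k3 i) z.1)
      ((norm_le_pi_norm _ i).trans ((ContinuousLinearMap.le_opNorm _ _).trans
        (mul_le_mul_of_nonneg_right ((norm_mmap_sub_le _ _).trans ?_) n2)))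
    rw [Fintype.card_fin, norm_sub_rev]
    exact mul_le_mul_of_nonneg_left (k4.trans ε3) ha
  have a3 : ‖inc 0 (hil T z).1‖ + ‖(hil T z).2‖ ≤ (19 + 2 * a) * ε * (‖inc 1 z.1‖ + ‖z.2‖) := by
    have p1 : 0 ≤ ε * ‖z.2‖ := by positivity
    have p2 : 0 ≤ a * ε * ‖inc 1 z.1‖ := by positivity
    linarith
  have a4 := (hz z).trans (mul_le_mul_of_nonneg_left a3 c0.le)
  have a5 := mul_le_mul_of_nonneg_right ε2 (add_nonneg n1 n2)
  have a6 : ‖inc 1 z.1‖ + ‖z.2‖ ≤ 0 := by linarith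
  exact Prod.ext (inc_injective 1 ((norm_le_zero_iff.1 (by linarith)).trans (map_zero _).symm))
    (norm_le_zero_iff.1 (by linarith))

end

end Pool.Agent.P.MP_de3acd_gt.FH
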