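import Pool.Agent.P.MP_de3acd_gt.FH.JetN

/-! The Ladyzhenskaya inequality on the cylinder and in the plane.
Sketch: h = ‖φ‖^2 is C^1 (inner product space) with |ds h| ≤ 2 ‖φ‖ ‖ds φ‖. h (s,t) ≤ A t := ∫ |ds h (σ,t)| dσ and
h (s,t) ≤ B s := ∫_0^1 (h + |dt h|) (s,τ) dτ (in the plane B s = ∫ |dt h|), so ∫∫ h^2 ≤ (∫ A)(∫ B) by
lintegral_prod_mul, and Cauchy-Schwarz (ENNReal.lintegral_mul_le_Lp_mul_Lq or 2ab ≤ a^2 + b^2).
General finite-dimensional F: transport along toEuclidean / ContinuousLinearEquiv.ofFinrankEq.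
Mathlib also has eLpNorm_le_eLpNorm_fderiv_of_le for the plane. -/

open Set Filter Topology MeasureTheory
open scoped ContDiff NNReal ENNReal RealInnerProductSpace

namespace Pool.Agent.P.MP_de3acd_gt.FH

noncomputable section

variable {U U₁ U₂ : Type} [NormedAddCommGroup U] [InnerProductSpace ℝ U] [NormedAddCommGroup U₁]
  [InnerProductSpace ℝ U₁] [NormedAddCommGroup U₂] [InnerProductSpace ℝ U₂]
variable {F F₁ F₂ : Type} [NormedAddCommGroup F] [NormedSpace ℝ F] [NormedAddCommGroup F₁]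
  [NormedSpace ℝ F₁] [NormedAddCommGroup F₂] [NormedSpace ℝ F₂]

theorem sub_le_L4 {g g' : ℝ → F} (hg : ContDiff ℝ 1 g) (hd : ∀ z, HasDerivAt g (g' z) z)
    (x y : ℝ) : ‖g x - g y‖ₑ ≤ ∫⁻ z in uIcc x y, ‖g' z‖ₑ := by
  have e : g' = deriv g := funext fun z => (hd z).deriv.symm
  subst e
  rcases le_total x y with h | h
  · rw [uIcc_of_le h, enorm_sub_rev]
    exact enorm_sub_le_lintegral_deriv_of_contDiffOn_Icc hg.contDiffOn h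
  · rw [uIcc_of_ge h]
    exact enorm_sub_le_lintegral_deriv_of_contDiffOn_Icc hg.contDiffOn h

theorem sq_le_L4 {g g' : ℝ → F} (hg : ContDiff ℝ 1 g) (hd : ∀ z, HasDerivAt g (g' z) z)
    (x y : ℝ) : ‖g x‖ₑ ^ 2 ≤ ‖g y‖ₑ ^ 2 + ∫⁻ z in uIcc x y, ‖g z‖ₑ ^ 2 + ‖g' z‖ₑ ^ 2 := by
  obtain ⟨l, hl, hx⟩ := exists_dual_vector'' ℝ (g x)
  have hb : ∀ v, |l v| ≤ ‖v‖ := fun v =>
    (l.le_opNorm v).trans (mul_le_of_le_one_left (norm_nonneg _) hl)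
  have h1 : ContDiff ℝ 1 fun z => l (g z) ^ 2 := (l.contDiff.comp hg).pow 2
  have h2 : ∀ z, HasDerivAt (fun z => l (g z) ^ 2) (2 * l (g z) * l (g' z)) z := fun z => by
    have := (l.hasFDerivAt.comp_hasDerivAt z (hd z)).fun_pow 2
    simpa using this
  have h3 := sub_le_L4 h1 h2 x y
  have e : ∀ v : F, ‖v‖ₑ ^ 2 = ENNReal.ofReal (‖v‖ ^ 2) := fun v => by
    rw [ENNReal.ofReal_pow (norm_nonneg _), ofReal_norm]
  have h4 : ∀ z, ‖2 * l (g z) * l (g' z)‖ₑ ≤ ‖g z‖ₑ ^ 2 + ‖g' z‖ₑ ^ 2 := fun z => by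
    rw [e, e, ← ENNReal.ofReal_add (by positivity) (by positivity), ← ofReal_norm]
    refine ENNReal.ofReal_le_ofReal ?_
    rw [Real.norm_eq_abs, abs_mul, abs_mul, abs_two]
    have := mul_le_mul (hb (g z)) (hb (g' z)) (abs_nonneg _) (norm_nonneg _)
    nlinarith [sq_nonneg (‖g z‖ - ‖g' z‖)]
  refine le_trans ?_ (add_le_add le_rfl (h3.trans (lintegral_mono h4)))
  rw [e, e, ← ofReal_norm, ← ENNReal.ofReal_add (by positivity) (by positivity)]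
  refine ENNReal.ofReal_le_ofReal ?_
  have h5 : l (g y) ^ 2 ≤ ‖g y‖ ^ 2 := by
    rw [← sq_abs]
    exact pow_le_pow_left₀ (abs_nonneg _) (hb _) 2
  have h6 : l (g x) = ‖g x‖ := by simpa using hx
  rw [Real.norm_eq_abs, h6]
  linarith [le_abs_self (‖g x‖ ^ 2 - l (g y) ^ 2)]

theorem hasDerivAt_ds_L4 {φ : Pl → F} (h : ContDiff ℝ ∞ φ) (t s : ℝ) :
    HasDerivAt (fun σ => φ (σ, t)) (ds φ (s, t)) s :=
  (h.differentiable (by simp) (s, t)).hasFDerivAt.comp_hasDerivAt s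
    ((hasDerivAt_id s).prodMk (hasDerivAt_const s t))

theorem hasDerivAt_dt_L4 {φ : Pl → F} (h : ContDiff ℝ ∞ φ) (s t : ℝ) :
    HasDerivAt (fun τ => φ (s, τ)) (dt φ (s, t)) t :=
  (h.differentiable (by simp) (s, t)).hasFDerivAt.comp_hasDerivAt t
    ((hasDerivAt_const t s).prodMk (hasDerivAt_id t))

theorem contDiff_s_L4 {φ : Pl → F} (h : ContDiff ℝ ∞ φ) (t : ℝ) :
    ContDiff ℝ 1 fun σ => φ (σ, t) :=
  (h.of_le (by exact_mod_cast le_top)).comp (contDiff_id.prodMk contDiff_const)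

theorem contDiff_t_L4 {φ : Pl → F} (h : ContDiff ℝ ∞ φ) (s : ℝ) :
    ContDiff ℝ 1 fun τ => φ (s, τ) :=
  (h.of_le (by exact_mod_cast le_top)).comp (contDiff_const.prodMk contDiff_id)

theorem meas_L4 {φ : Pl → F} (h : ContDiff ℝ ∞ φ) : Measurable fun p => ‖φ p‖ₑ ^ 2 :=
  h.continuous.enorm.measurable.pow_const 2

theorem sq_s_L4 {φ : Pl → F} (h : ContDiff ℝ ∞ φ) (s t : ℝ) {y : ℝ} (hy : φ (y, t) = 0) :
    ‖φ (s, t)‖ₑ ^ 2 ≤ ∫⁻ σ, ‖φ (σ, t)‖ₑ ^ 2 + ‖ds φ (σ, t)‖ₑ ^ 2 := by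
  have := sq_le_L4 (contDiff_s_L4 h t) (hasDerivAt_ds_L4 h t) s y
  rw [hy, enorm_zero, zero_pow two_ne_zero, zero_add] at this
  exact this.trans (setLIntegral_le_lintegral _ _)

theorem sq_t_L4 {φ : Pl → F} (h : ContDiff ℝ ∞ φ) (s t : ℝ) {y : ℝ} (hy : φ (s, y) = 0) :
    ‖φ (s, t)‖ₑ ^ 2 ≤ ∫⁻ τ, ‖φ (s, τ)‖ₑ ^ 2 + ‖dt φ (s, τ)‖ₑ ^ 2 := by
  have := sq_le_L4 (contDiff_t_L4 h s) (hasDerivAt_dt_L4 h s) t y
  rw [hy, enorm_zero, zero_pow two_ne_zero, zero_add] at this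
  exact this.trans (setLIntegral_le_lintegral _ _)

theorem sq_Icc_L4 {φ : Pl → F} (h : ContDiff ℝ ∞ φ) (s : ℝ) {t : ℝ} (ht : t ∈ Icc (0 : ℝ) 1) :
    ‖φ (s, t)‖ₑ ^ 2 ≤
      ∫⁻ τ in Icc 0 1, ‖φ (s, τ)‖ₑ ^ 2 + (‖φ (s, τ)‖ₑ ^ 2 + ‖dt φ (s, τ)‖ₑ ^ 2) := by
  have hm : Measurable fun τ => ‖φ (s, τ)‖ₑ ^ 2 := (meas_L4 h).comp measurable_prodMk_left
  calc ‖φ (s, t)‖ₑ ^ 2 = ∫⁻ _ in Icc (0 : ℝ) 1, ‖φ (s, t)‖ₑ ^ 2 := by simp
    _ ≤ ∫⁻ y in Icc (0 : ℝ) 1, (‖φ (s, y)‖ₑ ^ 2 +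
        ∫⁻ τ in Icc (0 : ℝ) 1, ‖φ (s, τ)‖ₑ ^ 2 + ‖dt φ (s, τ)‖ₑ ^ 2) := by
      refine setLIntegral_mono' measurableSet_Icc fun y hy => ?_
      exact (sq_le_L4 (contDiff_t_L4 h s) (hasDerivAt_dt_L4 h s) t y).trans
        (add_le_add le_rfl (lintegral_mono_set (uIcc_subset_Icc ht hy)))
    _ = _ := by
      rw [lintegral_add_left hm, lintegral_add_left hm (fun τ => ‖φ (s, τ)‖ₑ ^ 2 + _)]
      simp

theorem prod_L4 {T : Set ℝ} (hT : MeasurableSet T) {u v A B : Pl → ℝ≥0∞} (hA : Measurable A)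
    (hB : Measurable B) (hu : ∀ s, ∀ t ∈ T, u (s, t) ≤ ∫⁻ σ, A (σ, t))
    (hv : ∀ s, ∀ t ∈ T, v (s, t) ≤ ∫⁻ τ in T, B (s, τ)) :
    ∫⁻ p in univ ×ˢ T, u p * v p ≤ (∫⁻ p in univ ×ˢ T, A p) * ∫⁻ p in univ ×ˢ T, B p := by
  have e : (volume : Measure Pl).restrict (univ ×ˢ T) = volume.prod (volume.restrict T) := by
    rw [Measure.volume_eq_prod, ← Measure.prod_restrict, Measure.restrict_univ]
  calc ∫⁻ p in univ ×ˢ T, u p * v p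
      ≤ ∫⁻ p in univ ×ˢ T, (∫⁻ τ in T, B (p.1, τ)) * ∫⁻ σ, A (σ, p.2) := by
        refine setLIntegral_mono' (MeasurableSet.univ.prod hT) fun p hp => ?_
        rw [mul_comm]
        exact mul_le_mul' (hv p.1 p.2 hp.2) (hu p.1 p.2 hp.2)
    _ = _ := by
        rw [e, lintegral_prod_mul (f := fun s => ∫⁻ τ in T, B (s, τ))
          (g := fun t => ∫⁻ σ, A (σ, t)) hB.lintegral_prod_right'.aemeasurable
          hA.lintegral_prod_left'.aemeasurable, lintegral_prod _ hB.aemeasurable,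
          lintegral_prod_symm _ hA.aemeasurable, mul_comm]

theorem bil_L4 {φ : Pl → F} {ψ : Pl → F₁} (hφ : φ ∈ Dsub F) (hψ : ψ ∈ Dsub F₁) :
    ∫⁻ p in univ ×ˢ Icc 0 1, ‖φ p‖ₑ ^ 2 * ‖ψ p‖ₑ ^ 2 ≤ 2 * nrm 1 φ univ * nrm 1 ψ univ := by
  obtain ⟨h1, -, R, h3⟩ := hφ
  have g1 := hψ.1
  have := prod_L4 (T := Icc 0 1) measurableSet_Icc (u := fun p => ‖φ p‖ₑ ^ 2)
    (v := fun p => ‖ψ p‖ₑ ^ 2) (A := fun p => ‖φ p‖ₑ ^ 2 + ‖ds φ p‖ₑ ^ 2)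
    (B := fun p => ‖ψ p‖ₑ ^ 2 + (‖ψ p‖ₑ ^ 2 + ‖dt ψ p‖ₑ ^ 2))
    ((meas_L4 h1).add (meas_L4 (contDiff_ds h1)))
    ((meas_L4 g1).add ((meas_L4 g1).add (meas_L4 (contDiff_dt g1))))
    (fun s t _ => sq_s_L4 h1 s t (h3 (R, t) (le_abs_self R)))
    (fun s t ht => sq_Icc_L4 g1 s ht)
  refine this.trans ?_
  rw [lintegral_add_left (meas_L4 h1), lintegral_add_left (meas_L4 g1),
    lintegral_add_left (meas_L4 g1), mul_comm 2, mul_assoc]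
  refine mul_le_mul' le_self_add ?_
  rw [two_mul]
  exact add_le_add (le_self_add.trans le_self_add) (add_le_add le_self_add le_rfl)

theorem l4_cyl : ∃ c : ℝ≥0, ∀ φ ∈ Dsub U, ∫⁻ p in St, ‖φ p‖ₑ ^ 4 ≤ c * nrm 1 φ univ ^ 2 := by
  refine ⟨2, fun φ hφ => ?_⟩
  have := bil_L4 hφ hφ
  simp only [← pow_add] at this
  rw [mul_assoc, ← sq] at this
  exact this

theorem l4_bil : ∃ c : ℝ≥0, ∀ (B : U →L[ℝ] U₁ →L[ℝ] U₂), ∀ φ ∈ Dsub U, ∀ ψ ∈ Dsub U₁,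
    nrm 0 (fun p => B (φ p) (ψ p)) univ ≤ c * ‖B‖ₑ ^ 2 * nrm 1 φ univ * nrm 1 ψ univ := by
  refine ⟨2, fun B φ hφ ψ hψ => ?_⟩
  calc nrm 0 (fun p => B (φ p) (ψ p)) univ
      ≤ ∫⁻ p in univ ×ˢ Icc 0 1, ‖B‖ₑ ^ 2 * (‖φ p‖ₑ ^ 2 * ‖ψ p‖ₑ ^ 2) := by
        refine lintegral_mono fun p => ?_
        rw [← mul_pow, ← mul_pow]
        refine pow_le_pow_left' ?_ 2
        rw [← mul_assoc]
        exact ((B (φ p)).le_opENorm _).trans (mul_le_mul' (B.le_opENorm _) le_rfl)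
    _ ≤ ‖B‖ₑ ^ 2 * (2 * nrm 1 φ univ * nrm 1 ψ univ) := by
        rw [lintegral_const_mul' _ _ (ENNReal.pow_ne_top enorm_ne_top)]
        exact mul_le_mul' le_rfl (bil_L4 hφ hψ)
    _ = _ := by
        push_cast
        ring

theorem l4_plane [FiniteDimensional ℝ F] : ∃ c : ℝ≥0, ∀ φ : Pl → F, ContDiff ℝ ∞ φ →
    HasCompactSupport φ → ∫⁻ p, ‖φ p‖ₑ ^ 4 ≤
      c * (∫⁻ p, ‖φ p‖ₑ ^ 2 + ‖ds φ p‖ₑ ^ 2 + ‖dt φ p‖ₑ ^ 2) ^ 2 := by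
  refine ⟨1, fun φ h hc => ?_⟩
  obtain ⟨R, -, hR⟩ := hc.exists_pos_le_norm
  have := prod_L4 (T := univ) MeasurableSet.univ (u := fun p => ‖φ p‖ₑ ^ 2)
    (v := fun p => ‖φ p‖ₑ ^ 2) (A := fun p => ‖φ p‖ₑ ^ 2 + ‖ds φ p‖ₑ ^ 2)
    (B := fun p => ‖φ p‖ₑ ^ 2 + ‖dt φ p‖ₑ ^ 2)
    ((meas_L4 h).add (meas_L4 (contDiff_ds h))) ((meas_L4 h).add (meas_L4 (contDiff_dt h)))
    (fun s t _ => sq_s_L4 h s t (hR (R, t) ((le_abs_self R).trans (norm_fst_le (R, t)))))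
    (fun s t _ => by
      rw [Measure.restrict_univ]
      exact sq_t_L4 h s t (hR (s, R) ((le_abs_self R).trans (norm_snd_le (s, R)))))
  simp only [← pow_add, univ_prod_univ, Measure.restrict_univ] at this
  refine this.trans ?_
  rw [ENNReal.coe_one, one_mul, sq]
  exact mul_le_mul' (lintegral_mono fun p => le_self_add)
    (lintegral_mono fun p => add_le_add le_self_add le_rfl)

theorem sob_plane [FiniteDimensional ℝ F] (φ : Pl → F) (h : ContDiff ℝ ∞ φ)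
    (hc : HasCompactSupport φ) (p : Pl) : ‖φ p‖ₑ ≤ ∫⁻ q, ‖ds (dt φ) q‖ₑ := by
  obtain ⟨s, t⟩ := p
  obtain ⟨R, -, hR⟩ := hc.exists_pos_le_norm
  obtain ⟨R', -, hR'⟩ := (hc.fderiv_apply ℝ ((0 : ℝ), (1 : ℝ))).exists_pos_le_norm
  have h1 := sub_le_L4 (contDiff_t_L4 h s) (hasDerivAt_dt_L4 h s) t R
  rw [hR (s, R) ((le_abs_self R).trans (norm_snd_le (s, R))), sub_zero] at h1
  refine h1.trans ((setLIntegral_le_lintegral _ _).trans ?_)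
  rw [Measure.volume_eq_prod, lintegral_prod_symm _
    (contDiff_ds (contDiff_dt h)).continuous.enorm.measurable.aemeasurable]
  refine lintegral_mono fun τ => ?_
  have h2 := sub_le_L4 (contDiff_s_L4 (contDiff_dt h) τ) (hasDerivAt_ds_L4 (contDiff_dt h) τ) s R'
  have h3 : dt φ (R', τ) = 0 := hR' (R', τ) ((le_abs_self R').trans (norm_fst_le (R', τ)))
  rw [h3, sub_zero] at h2
  exact h2.trans (setLIntegral_le_lintegral _ _)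

end

end Pool.Agent.P.MP_de3acd_gt.FH
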