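import Pool.Agent.P.MP_de3acd_gt.FH.Frm
import Pool.Agent.P.MP_de3acd_gt.FH.Defs3

/-! Linear gluing of finitely many framed operators.
Sketch: T i n = the frame of piece i translated to σ n i; by frm_tsl and bij_of_bijective all T i n are Bij with one
constant c₀; let Q i n be the inverses. Fix ε, take S from PrC (both), L ≥ 1 large, ρ a support radius of all K, l.
With the midpoints μ i = (σ i + σ (i+1)) / 2 put b i = stp (μ (i-1)) L - stp (μ i) L (the first term is 1 for i = 0, the second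
0 for the last i; it may be simpler to use e i = 1, stp (μ (i-1)) L, ..., 0 indexed by Fin (k+1), b i = e i.castSucc - e i.succ)
and χ i = stp (μ (i-1) - L) L - stp (μ i + L) L, so ∑ b i = 1, χ i * b i = b i, both vanish outside the closed set reg (σ n) i S and
equal δ_{i i'} on the supports of the translated K i', l i' once the gaps are large. Define
Q (η, ν) = (∑ i, sc 2 (χ i) ξ i, μ) with (ξ i, μ i) = Q i n (sc 1 (b i) η, ν i). Then Q T - 1 and T Q - 1 have norm at most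
C (ε + 1 / L) by Dop_sc, norm_sc_Dop_sub_le, norm_sc_le, cn_stp, prW_sc, sc_toW, sc_sc; bij_of_approx, ‖Q‖ ≤ C. -/

open Set Filter Topology MeasureTheory
open scoped ContDiff NNReal ENNReal RealInnerProductSpace

namespace Pool.Agent.P.MP_de3acd_gt.FH

noncomputable section

theorem bij_LG {X Y : Type} [NormedAddCommGroup X] [NormedSpace ℝ X] [NormedAddCommGroup Y]
    [NormedSpace ℝ Y] [CompleteSpace X] {T : X →L[ℝ] Y} {c : ℝ} (h : ∀ x, ‖x‖ ≤ c * ‖T x‖)
    (h' : ∀ y, ∃ x, ‖T x - y‖ ≤ 1 / 2 * ‖y‖) : Bij T c := by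
  refine ⟨⟨inj_Idx h, ?_⟩, h⟩
  have ha : AntilipschitzWith c.toNNReal T := T.antilipschitz_of_bound fun x =>
    (h x).trans (mul_le_mul_of_nonneg_right (Real.le_coe_toNNReal c) (norm_nonneg _))
  have hcl : IsClosed ((T.range : Submodule ℝ Y) : Set Y) :=
    ha.isClosed_range T.uniformContinuous
  by_contra hs
  have hF : ∃ y : Y, y ∉ (T.range : Submodule ℝ Y) := by
    by_contra hn
    push Not at hn
    exact hs fun y => hn y
  obtain ⟨y, hy, hy'⟩ := riesz_lemma hcl hF (r := 3 / 4) (by norm_num)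
  obtain ⟨x, hx⟩ := h' y
  have h1 := hy' (T x) ⟨x, rfl⟩
  rw [norm_sub_rev] at h1
  have h2 : 0 < ‖y‖ := norm_pos_iff.2 fun h0 => hy (h0 ▸ Submodule.zero_mem _)
  linarith

/-- Admissible cut-off functions. -/
structure Good_LG (A δ : ℝ) (χ : Pl → ℝ) : Prop where
  bdd : Bdd χ
  per : Per χ
  dt0 : dt χ = 0
  cn : Cn 2 χ univ A
  cs : Cn 1 (ds χ) univ δ

theorem Good_LG.sub {A δ : ℝ} {χ χ' : Pl → ℝ} (h : Good_LG A δ χ) (h' : Good_LG A δ χ') :
    Good_LG (2 * A) (2 * δ) (χ - χ') := by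
  refine ⟨h.bdd.sub h'.bdd, per_sub_DopA h.per h'.per, ?_, ?_, ?_⟩
  · rw [dt_sub_JetC h.bdd.1 h'.bdd.1, h.dt0, h'.dt0, sub_zero]
  · rw [two_mul]
    exact h.cn.sub h.bdd.1 h'.bdd.1 h'.cn
  · rw [two_mul, ds_sub_JetC h.bdd.1 h'.bdd.1]
    exact h.cs.sub h.bdd.ds.1 h'.bdd.ds.1 h'.cs

theorem good_const_LG {A δ r : ℝ} (hr : ‖r‖ ≤ A) (hδ : 0 ≤ δ) : Good_LG A δ fun _ => r := by
  refine ⟨bdd_const r, fun _ _ => rfl, ?_, (cn_const 2 r univ).up_JetC hr, ?_⟩
  · funext p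
    simp [dt]
  · have : ds (fun _ : Pl => r) = fun _ => (0 : ℝ) := by
      funext p
      simp [ds]
    rw [this]
    exact (cn_const 1 (0 : ℝ) univ).up_JetC (by simpa using hδ)

/-- The steps between the pieces. -/
def stpE_LG {k : ℕ} (σ : Fin k → ℝ) (L s : ℝ) (j : ℕ) : Pl → ℝ :=
  if h : 0 < j ∧ j < k then stp (σ ⟨j - 1, by omega⟩ + s) L else if j = 0 then fun _ => 1
    else fun _ => 0

theorem stpE_one_LG {k : ℕ} {σ : Fin k → ℝ} {L s : ℝ} (hL : 0 < L) {j : ℕ} (hj : j < k) {p : Pl}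
    (h : ∀ i : Fin k, i.val + 1 = j → σ i + s + L ≤ p.1) : stpE_LG σ L s j p = 1 := by
  unfold stpE_LG
  split_ifs with h1 h2
  · exact stp_eq_one hL (h _ (by simp only; omega))
  · rfl
  · omega

theorem stpE_zero_LG {k : ℕ} {σ : Fin k → ℝ} {L s : ℝ} (hL : 0 < L) {j : ℕ} (hj : 0 < j) {p : Pl}
    (h : ∀ i : Fin k, i.val + 1 = j → j < k → p.1 ≤ σ i + s) : stpE_LG σ L s j p = 0 := by
  unfold stpE_LG
  split_ifs with h1 h2
  · exact stp_eq_zero hL (h _ (by simp only; omega) h1.2)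
  · omega
  · rfl

theorem cut_LG : ∃ A, 1 ≤ A ∧ ∀ {k : ℕ} (σ : Fin k → ℝ) (L P : ℝ), 0 < k → 1 ≤ L → 0 ≤ P →
    (∀ i i', i < i' → σ i + (2 * P + 3 * L) ≤ σ i') → ∃ b χ : Fin k → Pl → ℝ,
      (∀ i, Good_LG A (A / L) (b i) ∧ Good_LG A (A / L) (χ i)) ∧ ∑ i, b i = 1 ∧
      (∀ i, χ i * b i = b i) ∧ (∀ i (p : Pl), p.1 ∉ reg σ i P → b i p = 0 ∧ χ i p = 0) ∧
      ∀ i i' (p : Pl), |p.1 - σ i'| ≤ P →
        b i p = (if i = i' then 1 else 0) ∧ χ i p = if i = i' then 1 else 0 := by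
  obtain ⟨A, hA, hs⟩ := cn_stp 2
  refine ⟨2 * A, by linarith, fun {k} σ L P hk hL hP hg => ?_⟩
  have hL0 : 0 < L := by linarith
  have hmono : ∀ i i' : Fin k, i.val ≤ i'.val → σ i ≤ σ i' := by
    intro i i' h
    rcases eq_or_lt_of_le h with h | h
    · rw [Fin.ext h]
    · linarith [hg i i' h]
  have good : ∀ s j, Good_LG A (A / L) (stpE_LG σ L s j) := by
    intro s j
    unfold stpE_LG
    split_ifs
    · exact ⟨bdd_stp _ _, per_stp _ _, dt_stp _ _, (hs _ L hL).1,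
        (hs _ L hL).2.mono (by norm_num) subset_rfl le_rfl⟩
    · exact good_const_LG (by simpa using hA) (by positivity)
    · exact good_const_LG (by simp only [norm_zero]; linarith) (by positivity)
  -- a difference of two steps vanishes far away
  have far : ∀ (s s' : ℝ) (i : Fin k) (p : Pl), s ≤ s' →
      ((∃ i' : Fin k, i'.val + 1 = i.val ∧ p.1 ≤ σ i' + s) ∨
        (i.val + 1 < k ∧ σ i + s' + L ≤ p.1)) →
      stpE_LG σ L s i p - stpE_LG σ L s' (i + 1) p = 0 := by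
    rintro s s' i p hss (⟨i', h1, h2⟩ | ⟨h1, h2⟩)
    · rw [stpE_zero_LG hL0 (by omega), stpE_zero_LG hL0 (by omega), sub_zero]
      · intro i'' h3 _
        linarith [hmono i' i'' (by omega)]
      · intro i'' h3 _
        linarith [hmono i' i'' (by omega)]
    · rw [stpE_one_LG hL0 h1, stpE_one_LG hL0 i.2, sub_self]
      · intro i'' h3
        linarith [hmono i'' i (by omega)]
      · intro i'' h3
        linarith [hmono i'' i (by omega)]
  -- the value near a piece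
  have near : ∀ (s : ℝ) (j : ℕ) (i' : Fin k) (p : Pl), P ≤ s → s ≤ P + 2 * L → |p.1 - σ i'| ≤ P →
      stpE_LG σ L s j p = if j ≤ i'.val then 1 else 0 := by
    intro s j i' p h1 h2 h3
    obtain ⟨h4, h5⟩ := abs_le.1 h3
    split_ifs with h
    · refine stpE_one_LG hL0 (by omega) fun i hi => ?_
      linarith [hg i i' (show i.val < i'.val by omega)]
    · refine stpE_zero_LG hL0 (by omega) fun i hi _ => ?_
      linarith [hmono i' i (by omega)]
  refine ⟨fun i => stpE_LG σ L (P + L) i - stpE_LG σ L (P + L) (i + 1),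
    fun i => stpE_LG σ L P i - stpE_LG σ L (P + 2 * L) (i + 1), fun i => ?_, ?_, fun i => ?_,
    fun i p hp => ?_, fun i i' p hp => ?_⟩
  · rw [mul_div_assoc]
    exact ⟨(good _ _).sub (good _ _), (good _ _).sub (good _ _)⟩
  · rw [Fin.sum_univ_eq_sum_range
      (fun i => stpE_LG σ L (P + L) i - stpE_LG σ L (P + L) (i + 1)) k, Finset.sum_range_sub']
    funext p
    rw [Pi.sub_apply, stpE_one_LG hL0 hk fun i hi => by omega,
      stpE_zero_LG hL0 hk fun i _ hi => by omega, sub_zero, Pi.one_apply]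
  · funext p
    simp only [Pi.mul_apply, Pi.sub_apply]
    by_cases h : (∃ i' : Fin k, i'.val + 1 = i.val ∧ p.1 ≤ σ i' + (P + L)) ∨
        (i.val + 1 < k ∧ σ i + (P + L) + L ≤ p.1)
    · rw [far _ _ i p le_rfl h, mul_zero]
    · push Not at h
      rw [stpE_one_LG (s := P) hL0 i.2, stpE_zero_LG (s := P + 2 * L) hL0 (by omega), sub_zero,
        one_mul]
      · intro i' h1 h2
        have : i' = i := Fin.ext (by omega)
        rw [this]
        linarith [h.2 h2]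
      · intro i' h1
        linarith [h.1 i' h1]
  · simp only [Pi.sub_apply]
    simp only [reg, mem_setOf_eq, not_forall, not_and_or, Classical.not_imp, not_le] at hp
    obtain ⟨i', ⟨h1, h2⟩ | ⟨h1, h2⟩⟩ := hp
    · have h1' : i'.val < i.val := h1
      have h3 := hmono i' ⟨i.val - 1, by omega⟩ (by simp only; omega)
      exact ⟨far _ _ i p le_rfl (Or.inl ⟨⟨i.val - 1, by omega⟩, by simp only; omega, by linarith⟩),
        far _ _ i p (by linarith)
          (Or.inl ⟨⟨i.val - 1, by omega⟩, by simp only; omega, by linarith⟩)⟩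
    · have h1' : i.val < i'.val := h1
      have h3 := hg i i' h1
      exact ⟨far _ _ i p le_rfl (Or.inr ⟨by omega, by linarith⟩),
        far _ _ i p (by linarith) (Or.inr ⟨by omega, by linarith⟩)⟩
  · simp only [Pi.sub_apply]
    rw [near _ _ i' p (by linarith) (by linarith) hp, near _ _ i' p (by linarith) (by linarith) hp,
      near _ _ i' p (by linarith) (by linarith) hp, near _ _ i' p (by linarith) (by linarith) hp]
    simp only [Fin.ext_iff, and_self]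
    split_ifs <;> first | omega | norm_num

theorem closed_reg_LG {k : ℕ} (σ : Fin k → ℝ) (i : Fin k) (S : ℝ) : IsClosed (reg σ i S) := by
  unfold reg
  simp only [setOf_forall, setOf_and]
  exact isClosed_iInter fun i' => (isClosed_iInter fun _ => isClosed_Ici).inter
    (isClosed_iInter fun _ => isClosed_Iic)

theorem reg_mono_LG {k : ℕ} (σ : Fin k → ℝ) (i : Fin k) {S S' : ℝ} (h : S ≤ S') :
    reg σ i S' ⊆ reg σ i S := fun _ hs i' =>
  ⟨fun h1 => by linarith [(hs i').1 h1], fun h1 => by linarith [(hs i').2 h1]⟩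

variable {V : Type} [NormedAddCommGroup V] [InnerProductSpace ℝ V] [Sym V]

theorem comm_LG {j S j' S' : Pl → V →L[ℝ] V} (h : Coef 1 j S) (h' : Coef 1 j' S') {A δ ε : ℝ}
    {χ : Pl → ℝ} (g : Good_LG A δ χ) {I : Set ℝ} (hI : IsClosed I)
    (h0 : ∀ p : Pl, p.1 ∉ I → χ p = 0) (hε : 0 ≤ ε) (e : Cn 1 (j' - j) I ε)
    (e' : Cn 1 (S' - S) I ε) (ξ : W 2 V) :
    ‖sc 1 χ (Dop 1 1 j' S' ξ) - Dop 1 1 j S (sc 2 χ ξ)‖ ≤ (36 * A * ε + 9 * δ) * ‖ξ‖ ∧
      ‖Dop 1 1 j' S' (sc 2 χ ξ) - sc 1 χ (Dop 1 1 j S ξ)‖ ≤ (36 * A * ε + 9 * δ) * ‖ξ‖ := by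
  have h1 := norm_sc_Dop_sub_le le_rfl h' h g.bdd g.per g.cn.pred_JetC hI h0 hε e e' ξ
  have h2 : ‖sc 1 (ds χ) (inc 1 ξ)‖ ≤ 9 * δ * ‖ξ‖ :=
    (norm_sc_le one_le_two g.bdd.ds g.per.ds g.cs _).trans
      (mul_le_mul_of_nonneg_left (norm_inc_le 1 ξ) (by linarith [nonneg_Mul g.cs]))
  rw [map_sub] at h1
  rw [Dop_sc le_rfl 1 j S g.bdd g.per g.dt0, Dop_sc le_rfl 1 j' S' g.bdd g.per g.dt0, one_smul,
    ← sub_sub, add_sub_right_comm, add_mul]
  exact ⟨(norm_sub_le _ _).trans (add_le_add h1 h2), (norm_add_le _ _).trans (add_le_add h1 h2)⟩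

omit [Sym V] in
theorem sc_sum_LG {ι : Type} {m : ℕ} (s : Finset ι) {b : ι → Pl → ℝ} (hb : ∀ i, Bdd (b i))
    (hp : ∀ i, Per (b i)) : Bdd (∑ i ∈ s, b i) ∧ Per (∑ i ∈ s, b i) ∧
      ∀ ξ : W m V, sc m (∑ i ∈ s, b i) ξ = ∑ i ∈ s, sc m (b i) ξ := by
  classical
  induction s using Finset.induction_on with
  | empty => exact ⟨bdd_const 0, fun _ _ => rfl, fun ξ => sc_zero ξ⟩
  | insert a s ha ih =>
    simp only [Finset.sum_insert ha]
    refine ⟨(hb a).add ih.1, fun x t => ?_, fun ξ => ?_⟩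
    · rw [Pi.add_apply, Pi.add_apply, hp a x t, ih.2.1 x t]
    · rw [sc_add (hb a) (hp a) ih.1 ih.2.1, ih.2.2]

theorem blk_sum_LG {k : ℕ} {α β : Fin k → Type} [∀ i, Fintype (α i)]
    (M : ∀ i, Matrix (β i) (α i) ℝ) (μ : (Σ i, α i) → ℝ) (i : Fin k) (b : β i) :
    ∑ a, Matrix.blockDiagonal' M ⟨i, b⟩ a * μ a = ∑ a, M i b a * μ ⟨i, a⟩ := by
  rw [Fintype.sum_sigma, Finset.sum_eq_single i]
  · simp only [Matrix.blockDiagonal'_apply_eq]
  · intro i' _ h
    simp only [Matrix.blockDiagonal'_apply_ne M _ _ h.symm, zero_mul, Finset.sum_const_zero]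
  · intro h
    exact absurd (Finset.mem_univ i) h

theorem core_LG {k : ℕ} {α β : Fin k → Type} [∀ i, Fintype (α i)] [∀ i, Fintype (β i)]
    {D' : W 2 V →L[ℝ] W 1 V} {D : Fin k → W 2 V →L[ℝ] W 1 V} {K : ∀ i, α i → Pl → V}
    {L : ∀ i, β i → Pl → V} (hK : ∀ i, TF (K i)) (hL : ∀ i, TF (L i))
    {M : ∀ i, Matrix (β i) (α i) ℝ} {c A δ θ : ℝ} (hc : 0 ≤ c) (hA : 1 ≤ A) (hθ0 : 0 ≤ θ)
    (hb : ∀ i, Bij (frm (D i) (K i) (L i) (M i)) c) {b χ : Fin k → Pl → ℝ}
    (g : ∀ i, Good_LG A δ (b i) ∧ Good_LG A δ (χ i)) (hsum : ∑ i, b i = 1)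
    (hmul : ∀ i, χ i * b i = b i)
    (sK : ∀ i i' a p, K i' a p ≠ 0 →
      b i p = (if i = i' then 1 else 0) ∧ χ i p = if i = i' then 1 else 0)
    (sL : ∀ i i' a p, L i' a p ≠ 0 →
      b i p = (if i = i' then 1 else 0) ∧ χ i p = if i = i' then 1 else 0)
    (e1 : ∀ i ξ, ‖sc 1 (b i) (D' ξ) - D i (sc 2 (b i) ξ)‖ ≤ θ * ‖ξ‖)
    (e2 : ∀ i ξ, ‖D' (sc 2 (χ i) ξ) - sc 1 (χ i) (D i ξ)‖ ≤ θ * ‖ξ‖)
    (hθ : k * c * (9 * A) * θ ≤ 1 / 2) :
    Bij (frm D' (fun a : Σ i, α i => K a.1 a.2) (fun a : Σ i, β i => L a.1 a.2)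
      (Matrix.blockDiagonal' M)) (2 * (k * c * (9 * A))) := by
  have hpart : ∀ (m : ℕ) (_ : m ≤ 2) (ξ : W m V), ∑ i, sc m (b i) ξ = ξ := by
    intro m hm ξ
    rw [← (sc_sum_LG Finset.univ (fun i => (g i).1.bdd) fun i => (g i).1.per).2.2, hsum,
      sc_one hm]
  have hcut : ∀ (y : W 1 V × ((Σ i, β i) → ℝ)) (i : Fin k),
      ‖((sc 1 (b i) y.1, fun a => y.2 ⟨i, a⟩) : W 1 V × (β i → ℝ))‖ ≤ 9 * A * ‖y‖ := by
    intro y i
    refine norm_prod_le_iff.2 ⟨?_, ?_⟩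
    · exact (norm_sc_le one_le_two (g i).1.bdd (g i).1.per (g i).1.cn.pred_JetC _).trans
        (mul_le_mul_of_nonneg_left (norm_fst_le y) (by linarith))
    · refine (pi_norm_le_iff_of_nonneg (by positivity)).2 fun a => ?_
      refine (norm_le_pi_norm y.2 _).trans ((norm_snd_le y).trans ?_)
      nlinarith [norm_nonneg y]
  refine bij_LG (fun x => ?_) fun y => ?_
  · set T := frm D' (fun a : Σ i, α i => K a.1 a.2) (fun a : Σ i, β i => L a.1 a.2)
      (Matrix.blockDiagonal' M) with hT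
    let z : ∀ i, W 2 V × (α i → ℝ) := fun i => (sc 2 (b i) x.1, fun a => x.2 ⟨i, a⟩)
    have key : ∀ i, frm (D i) (K i) (L i) (M i) (z i) =
        (sc 1 (b i) (T x).1, fun a => (T x).2 ⟨i, a⟩) -
          (sc 1 (b i) (D' x.1) - D i (sc 2 (b i) x.1), 0) := by
      intro i
      rw [hT, frm_apply, frm_apply]
      refine Prod.ext ?_ ?_
      · have : sc 1 (b i) (∑ a : Σ i, α i, x.2 a • toW 1 (K a.1 a.2)) =
            ∑ a, x.2 ⟨i, a⟩ • toW 1 (K i a) := by
          rw [map_sum, Fintype.sum_sigma, Finset.sum_eq_single i]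
          · refine Finset.sum_congr rfl fun a _ => ?_
            rw [map_smul, sc_toW one_le_two (hK i a) (g i).1.bdd (g i).1.per
              fun p hp => (sK i i a p hp).1, if_pos rfl, one_smul]
          · intro i' _ h
            refine Finset.sum_eq_zero fun a _ => ?_
            rw [map_smul, sc_toW one_le_two (hK i' a) (g i).1.bdd (g i).1.per
              fun p hp => (sK i i' a p hp).1, if_neg h.symm, zero_smul, smul_zero]
          · intro h
            exact absurd (Finset.mem_univ i) h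
        simp only [z, Prod.fst_sub, map_add, this]
        abel
      · funext a
        simp only [z, Prod.snd_sub, sub_zero, blk_sum_LG]
        rw [prW_sc (hL i a) (g i).1.bdd (g i).1.per fun p hp => (sL i i a p hp).1, if_pos rfl,
          one_mul]
    have hz : ∀ i, ‖z i‖ ≤ c * (9 * A * ‖T x‖ + θ * ‖x‖) := by
      intro i
      refine ((hb i).2 (z i)).trans (mul_le_mul_of_nonneg_left ?_ hc)
      rw [key i]
      refine (norm_sub_le _ _).trans (add_le_add (hcut _ i) ?_)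
      refine norm_prod_le_iff.2 ⟨(e1 i x.1).trans ?_, ?_⟩
      · exact mul_le_mul_of_nonneg_left (norm_fst_le x) hθ0
      · rw [norm_zero]
        positivity
    have hx : ‖x‖ ≤ ∑ i, ‖z i‖ := by
      refine norm_prod_le_iff.2 ⟨?_, ?_⟩
      · rw [← hpart 2 le_rfl x.1]
        exact norm_sum_le_of_le _ fun i _ => norm_fst_le (z i)
      · refine (pi_norm_le_iff_of_nonneg (by positivity)).2 fun a => ?_
        refine ((norm_le_pi_norm (z a.1).2 a.2).trans (norm_snd_le (z a.1))).trans ?_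
        exact Finset.single_le_sum (f := fun i => ‖z i‖) (fun i _ => norm_nonneg _)
          (Finset.mem_univ a.1)
    have h1 : ∑ i, ‖z i‖ ≤ k * (c * (9 * A * ‖T x‖ + θ * ‖x‖)) := by
      refine (Finset.sum_le_sum fun i _ => hz i).trans ?_
      simp
    have h2 : k * c * θ * ‖x‖ ≤ 1 / 2 * ‖x‖ := by
      refine mul_le_mul_of_nonneg_right (le_trans ?_ hθ) (norm_nonneg x)
      have : 0 ≤ k * c * θ := by positivity
      nlinarith
    linarith
  · have hex : ∀ i, ∃ z : W 2 V × (α i → ℝ), frm (D i) (K i) (L i) (M i) z =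
        (sc 1 (b i) y.1, fun a => y.2 ⟨i, a⟩) := fun i => (hb i).1.2 _
    choose z hz using hex
    have hzn : ∀ i, ‖(z i).1‖ ≤ c * (9 * A * ‖y‖) := by
      intro i
      refine (norm_fst_le _).trans (((hb i).2 (z i)).trans (mul_le_mul_of_nonneg_left ?_ hc))
      rw [hz i]
      exact hcut y i
    refine ⟨(∑ i, sc 2 (χ i) (z i).1, fun a => (z a.1).2 a.2), ?_⟩
    have hz1 : ∀ i, D i (z i).1 + ∑ a, (z i).2 a • toW 1 (K i a) = sc 1 (b i) y.1 := by
      intro i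
      have := congrArg Prod.fst (hz i)
      rwa [frm_apply] at this
    have hz2 : ∀ i a, prW (L i a) (z i).1 + ∑ a', M i a a' * (z i).2 a' = y.2 ⟨i, a⟩ := by
      intro i a
      have := congrFun (congrArg Prod.snd (hz i)) a
      rwa [frm_apply] at this
    have key : frm D' (fun a : Σ i, α i => K a.1 a.2) (fun a : Σ i, β i => L a.1 a.2)
        (Matrix.blockDiagonal' M) (∑ i, sc 2 (χ i) (z i).1, fun a => (z a.1).2 a.2) - y =
        (∑ i, (D' (sc 2 (χ i) (z i).1) - sc 1 (χ i) (D i (z i).1)), 0) := by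
      rw [frm_apply]
      refine Prod.ext ?_ ?_
      · simp only [Prod.fst_sub]
        rw [map_sum, Fintype.sum_sigma, ← hpart 1 one_le_two y.1, ← Finset.sum_add_distrib,
          ← Finset.sum_sub_distrib]
        refine Finset.sum_congr rfl fun i _ => ?_
        have h1 : sc 1 (χ i) (∑ a, (z i).2 a • toW 1 (K i a)) =
            ∑ a, (z i).2 a • toW 1 (K i a) := by
          rw [map_sum]
          refine Finset.sum_congr rfl fun a _ => ?_
          rw [map_smul, sc_toW one_le_two (hK i a) (g i).2.bdd (g i).2.per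
            fun p hp => (sK i i a p hp).2, if_pos rfl, one_smul]
        have h2 := congrArg (sc 1 (χ i)) (hz1 i)
        rw [map_add, h1, sc_sc one_le_two (g i).2.bdd (g i).2.per (g i).1.bdd (g i).1.per,
          hmul i] at h2
        rw [← h2]
        abel
      · funext ⟨i, a⟩
        simp only [Prod.snd_sub, Pi.sub_apply, Pi.zero_apply, blk_sum_LG]
        rw [← hz2 i a, map_sum, Finset.sum_eq_single i,
          prW_sc (hL i a) (g i).2.bdd (g i).2.per fun p hp => (sL i i a p hp).2, if_pos rfl,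
          one_mul, sub_self]
        · intro i' _ h
          rw [prW_sc (hL i a) (g i').2.bdd (g i').2.per fun p hp => (sL i' i a p hp).2, if_neg h,
            zero_mul]
        · intro h
          exact absurd (Finset.mem_univ i) h
    rw [key]
    refine norm_prod_le_iff.2 ⟨?_, ?_⟩
    · have h1 : ‖∑ i, (D' (sc 2 (χ i) (z i).1) - sc 1 (χ i) (D i (z i).1))‖ ≤
          k * (θ * (c * (9 * A * ‖y‖))) := by
        refine (norm_sum_le_of_le _ fun i _ =>
          (e2 i _).trans (mul_le_mul_of_nonneg_left (hzn i) hθ0)).trans ?_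
        simp
      have h2 := mul_le_mul_of_nonneg_right hθ (norm_nonneg y)
      refine h1.trans ?_
      linarith
    · rw [norm_zero]
      positivity

omit [Sym V] in
theorem supp_LG {k : ℕ} {α : Fin k → Type} [∀ i, Fintype (α i)] {K : ∀ i, α i → Pl → V}
    (hK : ∀ i, TF (K i)) : ∃ ρ, ∀ i a (p : Pl), K i a p ≠ 0 → |p.1| ≤ ρ := by
  choose R hR using fun a : Σ i, α i => (hK a.1 a.2).2.2
  obtain ⟨ρ, hρ⟩ := (Set.finite_range R).bddAbove
  refine ⟨ρ, fun i a p hp => ?_⟩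
  by_contra h
  exact hp (hR ⟨i, a⟩ p ((hρ ⟨⟨i, a⟩, rfl⟩).trans (not_le.1 h).le))

theorem linGlue {N : Type} {l : Filter N} {k : ℕ} (hk : 0 < k) {σ : N → Fin k → ℝ} (hσ : Gap l σ)
    {α β : Fin k → Type} [∀ i, Fintype (α i)] [∀ i, Fintype (β i)] {j S : Fin k → Pl → V →L[ℝ] V}
    (hc : ∀ i, Coef 1 (j i) (S i)) {K : ∀ i, α i → Pl → V} {L : ∀ i, β i → Pl → V}
    (hK : ∀ i, TF (K i)) (hL : ∀ i, TF (L i)) {M : ∀ i, Matrix (β i) (α i) ℝ}
    (hb : ∀ i, Function.Bijective (frm (Dop 1 1 (j i) (S i)) (K i) (L i) (M i)))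
    {j' S' : N → Pl → V →L[ℝ] V} (hc' : ∀ n, Coef 1 (j' n) (S' n)) (ej : PrC 1 l σ j' j)
    (eS : PrC 1 l σ S' S) : ∃ c > 0, ∀ᶠ n in l,
      Bij (frm (Dop 1 1 (j' n) (S' n)) (gl (σ n) K) (gl (σ n) L) (Matrix.blockDiagonal' M)) c := by
  choose c₀ _ hc₀ using fun i => bij_of_bijective (hb i)
  obtain ⟨c₁, hc₁⟩ := (Set.finite_range c₀).bddAbove
  set c := max c₁ 1 with hcd
  have hc1 : 1 ≤ c := le_max_right _ _
  have hbc : ∀ i, Bij (frm (Dop 1 1 (j i) (S i)) (K i) (L i) (M i)) c := fun i =>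
    (hc₀ i).mono ((hc₁ ⟨i, rfl⟩).trans (le_max_left _ _))
  obtain ⟨A, hA, hcut⟩ := cut_LG
  have hk' : (1 : ℝ) ≤ k := by exact_mod_cast hk
  set B : ℝ := k * c * (9 * A) with hB
  have hB1 : 1 ≤ B := by
    have : 1 ≤ k * c := one_le_mul_of_one_le_of_one_le hk' hc1
    nlinarith
  refine ⟨2 * B, by positivity, ?_⟩
  have hε : 0 < 1 / (144 * A * B) := by positivity
  obtain ⟨S₁, h₁⟩ := ej _ hε
  obtain ⟨S₂, h₂⟩ := eS _ hε
  obtain ⟨ρ₁, hρ₁⟩ := supp_LG hK
  obtain ⟨ρ₂, hρ₂⟩ := supp_LG hL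
  obtain ⟨P, hP0, hP1, hP2, hP3, hP4⟩ : ∃ P : ℝ, 0 ≤ P ∧ S₁ ≤ P ∧ S₂ ≤ P ∧ ρ₁ ≤ P ∧ ρ₂ ≤ P :=
    ⟨max 0 (max (max S₁ S₂) (max ρ₁ ρ₂)), by simp, by simp, by simp, by simp, by simp⟩
  have hL1 : 1 ≤ 36 * A * B := by nlinarith
  have hgap : ∀ᶠ n in l, ∀ i i', i < i' → σ n i + (2 * P + 3 * (36 * A * B)) ≤ σ n i' := by
    rw [eventually_all]
    intro i
    rw [eventually_all]
    intro i'
    by_cases h : i < i'
    · filter_upwards [(hσ i i' h).eventually_ge_atTop (2 * P + 3 * (36 * A * B))] with n hn _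
      linarith
    · exact Eventually.of_forall fun n h' => absurd h' h
  filter_upwards [h₁, h₂, hgap] with n hn₁ hn₂ hn₃
  obtain ⟨b, χ, g, hsum, hmul, hfar, hnear⟩ := hcut (σ n) _ P hk hL1 hP0 hn₃
  have hcm := fun (i : Fin k) (f : Pl → ℝ) (gf : Good_LG A (A / (36 * A * B)) f)
      (hf : ∀ p : Pl, p.1 ∉ reg (σ n) i P → f p = 0) =>
    comm_LG ((hc i).tsl (-σ n i, 0)) (hc' n) gf (closed_reg_LG (σ n) i P) hf hε.le
      ((hn₁ i).mono le_rfl (reg_mono_LG _ _ hP1) le_rfl)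
      ((hn₂ i).mono le_rfl (reg_mono_LG _ _ hP2) le_rfl)
  refine core_LG (K := fun i a => tsl (-σ n i, 0) (K i a))
    (L := fun i a => tsl (-σ n i, 0) (L i a)) (fun i a => tsl_mem (hK i a) _)
    (fun i a => tsl_mem (hL i a) _) (by linarith) hA (by positivity)
    (fun i => frm_tsl (hc i) (hK i) (hL i) (M i) (-σ n i, 0) (hbc i)) g hsum hmul
    (fun i i' a p hp => hnear i i' p ?_) (fun i i' a p hp => hnear i i' p ?_)
    (fun i ξ => (hcm i _ (g i).1 (fun p hp => (hfar i p hp).1) ξ).1)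
    (fun i ξ => (hcm i _ (g i).2 (fun p hp => (hfar i p hp).2) ξ).2) (le_of_eq ?_)
  · exact (hρ₁ i' a _ hp).trans hP3
  · exact (hρ₂ i' a _ hp).trans hP4
  · rw [← hB]
    field_simp
    norm_num

end

end Pool.Agent.P.MP_de3acd_gt.FH
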