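import Pool.Agent.P.MP_de3acd_gt.FH.Est
import Pool.Agent.P.MP_de3acd_gt.FH.Inj

/-! The regularised Laplacian is onto.
Sketch: D' = Dop 0 (-σ) (adJ j) (adS j S) : W 1 → W 0. The form a ψ φ = ⟪D' ψ, D' φ⟫ + ε ⟪inc ψ, inc φ⟫ on W 1 is coercive
by est1 for Coef.adj; IsCoercive.continuousLinearEquivOfBilin gives ψ with a ψ φ = ⟪η, inc φ⟫. For δ = trW b ψ - ψ:
a (trW b ψ) φ = a' ψ (trW (-b) φ), a' the form with coefficients translated by -b (trW_Dop, inner_trW), and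
|a' - a| ≤ C ‖b‖ (norm_Dop_tsl_sub_le); ⟪η, inc (trW (-b) φ) - inc φ⟫ ≤ C ‖b‖ ‖φ‖ (norm_trW_sub_le). So a δ φ ≤ C ‖b‖ ‖φ‖,
‖δ‖ ≤ C ‖b‖, exists_inc_of_dq gives ψ = inc 1 ψ₂. Then inner_Dop (with inc_Dop) and denseRange_inc. -/

open Set Filter Topology MeasureTheory
open scoped ContDiff NNReal ENNReal RealInnerProductSpace

namespace Pool.Agent.P.MP_de3acd_gt.FH

noncomputable section

variable {V : Type} [NormedAddCommGroup V] [InnerProductSpace ℝ V] [Sym V]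

theorem solve_LaxM {X Y : Type} [NormedAddCommGroup X] [InnerProductSpace ℝ X] [CompleteSpace X]
    [NormedAddCommGroup Y] [InnerProductSpace ℝ Y] [CompleteSpace Y] (D I : X →L[ℝ] Y) {c ε : ℝ}
    (hc : 0 < c) (hε : 0 < ε) (h : ∀ u, ‖u‖ ≤ c * (‖D u‖ + ‖I u‖)) (η : Y) :
    (∃ C, 0 < C ∧ ∀ u, C * ‖u‖ * ‖u‖ ≤ ⟪D u, D u⟫ + ε * ⟪I u, I u⟫) ∧
      ∃ ψ, ∀ φ, ⟪D ψ, D φ⟫ + ε * ⟪I ψ, I φ⟫ = ⟪η, I φ⟫ := by
  have hm : 0 < min 1 ε := lt_min one_pos hε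
  have h1 : ∃ C, 0 < C ∧ ∀ u, C * ‖u‖ * ‖u‖ ≤ ⟪D u, D u⟫ + ε * ⟪I u, I u⟫ := by
    refine ⟨min 1 ε / (2 * c ^ 2), by positivity, fun u => ?_⟩
    rw [real_inner_self_eq_norm_sq, real_inner_self_eq_norm_sq, mul_assoc, div_mul_eq_mul_div,
      div_le_iff₀ (by positivity)]
    have h2 : ‖u‖ * ‖u‖ ≤ (c * (‖D u‖ + ‖I u‖)) * (c * (‖D u‖ + ‖I u‖)) :=
      mul_self_le_mul_self (norm_nonneg _) (h u)
    have h3 : ‖u‖ * ‖u‖ ≤ (‖D u‖ ^ 2 + ‖I u‖ ^ 2) * (2 * c ^ 2) := by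
      nlinarith [mul_nonneg (sq_nonneg c) (sq_nonneg (‖D u‖ - ‖I u‖))]
    have h4 : min 1 ε * (‖D u‖ ^ 2 + ‖I u‖ ^ 2) ≤ ‖D u‖ ^ 2 + ε * ‖I u‖ ^ 2 := by
      nlinarith [mul_le_mul_of_nonneg_right (min_le_left 1 ε) (sq_nonneg ‖D u‖),
        mul_le_mul_of_nonneg_right (min_le_right 1 ε) (sq_nonneg ‖I u‖)]
    calc min 1 ε * (‖u‖ * ‖u‖) ≤ min 1 ε * ((‖D u‖ ^ 2 + ‖I u‖ ^ 2) * (2 * c ^ 2)) :=
          mul_le_mul_of_nonneg_left h3 hm.le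
      _ = min 1 ε * (‖D u‖ ^ 2 + ‖I u‖ ^ 2) * (2 * c ^ 2) := by ring
      _ ≤ _ := mul_le_mul_of_nonneg_right h4 (by positivity)
  refine ⟨h1, ?_⟩
  let P : Y →L[ℝ] Y →L[ℝ] ℝ := innerSL ℝ
  let B : X →L[ℝ] X →L[ℝ] ℝ := P.bilinearComp D D + ε • P.bilinearComp I I
  have hB : ∀ u v, B u v = ⟪D u, D v⟫ + ε * ⟪I u, I v⟫ := fun u v => rfl
  have hco : IsCoercive B := h1
  refine ⟨hco.continuousLinearEquivOfBilin.symm (ContinuousLinearMap.adjoint I η), fun φ => ?_⟩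
  rw [← hB, ← hco.continuousLinearEquivOfBilin_apply, ContinuousLinearEquiv.apply_symm_apply,
    ContinuousLinearMap.adjoint_inner_left]

theorem laxM {σ : ℝ} {j S : Pl → V →L[ℝ] V} (h : Coef σ j S) {ε : ℝ} (hε : 0 < ε) (η : W 0 V) :
    ∃ ψ : W 2 V, Dop 0 σ j S (Dop 1 (-σ) (adJ j) (adS j S) ψ) + ε • to0 2 ψ = η := by
  obtain ⟨c, hc, he⟩ := est1 h.adj
  obtain ⟨A, hA⟩ := norm_Dop_tsl_sub_le (k := 0) zero_le_one h.adj
  have ht := fun a ξ => trW_Dop (k := 0) zero_le_one h.adj a ξ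
  have hi := inner_Dop h
  have hinc := inc_Dop (-σ) (adJ j) (adS j S)
  generalize Dop 0 (-σ) (adJ j) (adS j S) = D at he hA ht hi hinc
  obtain ⟨⟨C, hC, hco⟩, ψ, hψ⟩ := solve_LaxM D (inc 0) hc hε he η
  have key : ∀ b : Pl, ‖trW 1 b ψ - ψ‖ ≤
      (|A| * ‖ψ‖ * ‖D‖ + ‖D ψ‖ * |A| + ‖η‖ * 2) / C * ‖b‖ := fun b => by
    have hA' := (hA b).trans (mul_le_mul_of_nonneg_right (le_abs_self A) (norm_nonneg b))
    have ht' := ht b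
    generalize Dop 0 (-σ) (tsl b (adJ j)) (tsl b (adS j S)) = E at hA' ht'
    have hE : ∀ u, ‖D u - E u‖ ≤ |A| * ‖b‖ * ‖u‖ := fun u => by
      rw [norm_sub_rev]
      exact (E - D).le_of_opNorm_le hA' u
    set u := trW 1 b ψ with hu
    have est : ∀ φ, ⟪D (u - ψ), D φ⟫ + ε * ⟪inc 0 (u - ψ), inc 0 φ⟫ ≤
        (|A| * ‖ψ‖ * ‖D‖ + ‖D ψ‖ * |A| + ‖η‖ * 2) * ‖b‖ * ‖φ‖ := fun φ => by
      have e0 : trW 1 b (trW 1 (-b) φ) = φ := by rw [← trW_add, add_neg_cancel, trW_zero]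
      have e1 := hψ (trW 1 (-b) φ)
      rw [← inner_trW 0 b (D ψ), ← inner_trW 0 b (inc 0 ψ), ht', ht', ← inc_trW, ← inc_trW, e0,
        ← hu, inc_trW 0 (-b)] at e1
      have e2 := hψ φ
      have e3 : ⟪D (u - ψ), D φ⟫ + ε * ⟪inc 0 (u - ψ), inc 0 φ⟫ = ⟪D u - E u, D φ⟫ +
          ⟪E u, D φ - E φ⟫ + ⟪η, trW 0 (-b) (inc 0 φ) - inc 0 φ⟫ := by
        simp only [map_sub, inner_sub_left, inner_sub_right]
        linarith
      have n1 : ⟪D u - E u, D φ⟫ ≤ |A| * ‖b‖ * ‖ψ‖ * (‖D‖ * ‖φ‖) := by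
        refine (real_inner_le_norm _ _).trans (mul_le_mul ?_ (D.le_opNorm φ) (norm_nonneg _)
          (by positivity))
        have := hE u
        rwa [hu, norm_trW] at this
      have n2 : ⟪E u, D φ - E φ⟫ ≤ ‖D ψ‖ * (|A| * ‖b‖ * ‖φ‖) := by
        refine (real_inner_le_norm _ _).trans (mul_le_mul ?_ (hE φ) (norm_nonneg _) (norm_nonneg _))
        rw [hu, ← ht', norm_trW]
      have n3 : ⟪η, trW 0 (-b) (inc 0 φ) - inc 0 φ⟫ ≤ ‖η‖ * (‖b‖ * ‖φ‖ + ‖b‖ * ‖φ‖) := by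
        refine (real_inner_le_norm _ _).trans (mul_le_mul_of_nonneg_left ?_ (norm_nonneg _))
        refine (norm_trW_sub_le 0 φ (-b)).trans (add_le_add ?_ ?_)
        · refine mul_le_mul ?_ (norm_dS_le 0 φ) (norm_nonneg _) (norm_nonneg _)
          rw [← norm_neg b]
          exact norm_fst_le (-b)
        · refine mul_le_mul ?_ (norm_dT_le 0 φ) (norm_nonneg _) (norm_nonneg _)
          rw [← norm_neg b]
          exact norm_snd_le (-b)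
      rw [e3]
      linarith
    have h1 := (hco (u - ψ)).trans (est (u - ψ))
    rcases (norm_nonneg (u - ψ)).eq_or_lt with h0 | h0
    · rw [← h0]
      positivity
    · rw [div_mul_eq_mul_div, le_div_iff₀ hC, mul_comm]
      exact le_of_mul_le_mul_right h1 h0
  obtain ⟨ζ, rfl⟩ := exists_inc_of_dq (ξ := ψ)
    (M := (|A| * ‖ψ‖ * ‖D‖ + ‖D ψ‖ * |A| + ‖η‖ * 2) / C) fun r hr _ =>
      ⟨by simpa [hr.le, abs_of_pos hr] using key (r, 0),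
        by simpa [hr.le, abs_of_pos hr] using key (0, r)⟩
  refine ⟨ζ, (denseRange_inc (U := V) 0).eq_of_inner_left ℝ fun φ => ?_⟩
  rw [← hψ φ, inner_add_left, hi, hinc, real_inner_smul_left]
  rfl

end

end Pool.Agent.P.MP_de3acd_gt.FH
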