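import Pool.Agent.P.MP_de3acd_gt.FH.Defs7
import Pool.Agent.P.MP_de3acd_gt.FH.FF
import Pool.Agent.P.MP_de3acd_gt.FH.PD

/-! Multiplication operators along a variable map; the Floer map is bounded on bounded sets.
Sketch: exists_isM as in exists_FF: with c = toCb w, e = stdOrthonormalBasis, M ξ = mul 1 id (nemC A c) + ∑ i, prd 1 (B i) (nem (f i) (c, ξ)), f i t (w, v) = (A t (w + v) - A t w) (e i),
B i u η = ⟪e i, η⟫ • u; BS by BSC, bs_nem. On test functions prd_co, mul_co, nem_co, rep_co. In general Rep.tendsto for ξ and η, joint continuity of (ξ, η) ↦ M ξ η, and for a test function ψ the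
functions agree on the support of ψ when T is large (ip_cut_FDer; see IsF.rep). IsM.eq_mop: W.ext_co, Rep.unique, Rep.mul, fn_toCb, Bdd.comp.
exists_F_bs: exists_FF with C = ℝ, c₀ = toCb (0, w, dt w), w = ref x y, F ξ = G (c₀, ξ) + toW 1 (cr J (sta Y) w), cr_ref_mem with fld_sta (see exists_F_unif). -/

open Set Filter Topology MeasureTheory
open scoped ContDiff NNReal ENNReal RealInnerProductSpace

namespace Pool.Agent.P.MP_de3acd_gt.FH

noncomputable section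

variable {V : Type} [NormedAddCommGroup V] [InnerProductSpace ℝ V] [Sym V]

variable {A : ℝ → V → V →L[ℝ] V} {w : Pl → V} {M : W 2 V → W 1 V →L[ℝ] W 1 V}

theorem rep_Mop {k : ℕ} (hk : k ≤ 2) {P : Pl → V →L[ℝ] V} (hP : Bdd P) (pP : Per P) {ξ : W k V}
    {f : Pl → V} (h : Rep k ξ f) : Rep k (mop k P ξ) fun p => P p (f p) := by
  have := h.mul hk (ContinuousLinearMap.id ℝ (V →L[ℝ] V)) (toCb P)
  rw [fn_toCb hP pP] at this
  exact this

theorem exists_isM (hA : SP A) (hw : Bdd w) (pw : Per w) : ∃ M, IsM A w M := by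
  let e := stdOrthonormalBasis ℝ V
  let f : Fin (Module.finrank ℝ V) → ℝ → V × V → V := fun i t a =>
    (A t (a.1 + a.2) - A t a.1) (e i)
  let B : Fin (Module.finrank ℝ V) → V →L[ℝ] V →L[ℝ] V := fun i =>
    ContinuousLinearMap.smulRightL ℝ V V (innerSL ℝ (e i))
  have s1 : ContDiff ℝ ∞ fun q : ℝ × V × V => (q.1, q.2.1 + q.2.2) := by fun_prop
  have s0 : ContDiff ℝ ∞ fun q : ℝ × V × V => (q.1, q.2.1) := by fun_prop
  have hf : ∀ i, SP (f i) := fun i =>
    ⟨((hA.1.comp s1).sub (hA.1.comp s0)).clm_apply contDiff_const,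
      fun t => by simp only [f, hA.2 t]⟩
  have hf0 : ∀ i t c, f i t (c, 0) = 0 := fun i t c => by simp [f]
  have hs : ∀ (L : V →L[ℝ] V) (v : V), ∑ i, ⟪e i, v⟫ • L (e i) = L v := fun L v => by
    conv_rhs => rw [← e.sum_repr' v, map_sum]
    simp only [map_smul]
  let M : W 2 V → W 1 V →L[ℝ] W 1 V := fun ξ =>
    mul 1 (ContinuousLinearMap.id ℝ (V →L[ℝ] V)) (nemC A (toCb w)) +
      ∑ i, prd 1 (B i) (nem (f i) (toCb w, ξ))
  have hM : BS M := fun n =>
    (bsn_const n _).add (BSn.sum _ fun i _ => ((bs_nem (hf i) (hf0 i) n).comp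
      ((bsn_const n _).prod (bsn_clm n (ContinuousLinearMap.id ℝ (W 2 V))))).clm (prd 1 (B i)))
  have key : ∀ (φ : Dsub V) (η : W 1 V) (g : Pl → V), Rep 1 η g → Continuous g →
      Rep 1 (M (co 2 φ) η) fun p => A p.2 (w p + φ.1 p) (g p) := fun φ η g r cg => by
    have m := fun i => nem_mem (hf i) (hf0 i) (toCb w).bdd.1 (toCb w).per φ.2
    have c : ∀ {F : Type} [NormedAddCommGroup F] [NormedSpace ℝ F] (L : F →L[ℝ] V →L[ℝ] V)
        (c : Cb F), Continuous fun p => L (Cb.fn c p) (g p) := fun L c =>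
      (L.continuous.comp c.bdd.1.continuous).clm_apply cg
    have r1 := (r.mul one_le_two (ContinuousLinearMap.id ℝ (V →L[ℝ] V)) (nemC A (toCb w))).add
      (Rep.sum Finset.univ (fun i _ => r.mul one_le_two (B i)
        (toCb fun p => f i p.2 (Cb.fn (toCb w) p, φ.1 p))) fun i _ => c _ _) (c _ _)
      (by rw [Finset.sum_fn]; exact continuous_finsetSum _ fun i _ => c _ _)
    simp only [M, add_apply, sum_apply,
      nem_co (hf _) (hf0 _), prd_co_left (Or.inl rfl)]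
    refine (congrArg (Rep 1 _) (funext fun p => ?_)).mp r1
    simp only [Pi.add_apply, Finset.sum_apply, fn_nemC hA, ContinuousLinearMap.id_apply,
      fun i => fn_toCb (bdd_of_mem (m i)) (m i).2.1]
    simp only [fn_toCb hw pw, B, ContinuousLinearMap.smulRightL_apply_apply,
      ContinuousLinearMap.smulRight_apply, innerSL_apply_apply, f, hs]
    rw [sub_apply, add_sub_cancel]
  refine ⟨M, hM, fun ξ f η g r hf pf r' hg _ ψ => ?_⟩
  obtain ⟨R, hR⟩ := ψ.2.2.2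
  have c : Continuous fun ζ : W 2 V => ⟪to0 1 (M ζ η), co 0 ψ⟫ :=
    ((to0 1).continuous.comp (hM.contDiff.continuous.clm_apply continuous_const)).inner
      continuous_const
  refine tendsto_nhds_unique ((c.tendsto ξ).comp (r.tendsto le_rfl hf pf))
    (tendsto_const_nhds.congr' ?_)
  filter_upwards [eventually_ge_atTop R] with T hT
  refine ((key _ η g r' hg.continuous ψ).trans (ip_cut_FDer hR fun p hp => ?_)).symm
  have hq := abs_lt.1 (hp.trans_le hT)
  simp only [plat_eq_one one_pos ⟨hq.1.le, hq.2.le⟩, one_smul]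

theorem IsM.eq_mop (h : IsM A w M) (hA : SP A) {ξ : W 2 V} {f : Pl → V} (e : Rep 2 ξ f)
    (hf : ContDiff ℝ ∞ f) (pf : Per f) (hb : Bdd (w + f)) (pb : Per (w + f)) :
    M ξ = mop 1 fun p => A p.2 (w p + f p) :=
  W.ext_co fun φ => (h.2 ξ f _ φ.1 e hf pf (rep_co 1 φ) φ.2.1 φ.2.2.1).unique
    (rep_Mop one_le_two (Bdd.comp hA hb) (hA.per_comp pb) (rep_co 1 φ))

theorem exists_F_bs {J : ℝ → V → V →L[ℝ] V} {Y : ℝ → V → V} {x y : ℝ → V} (hJ : SP J) (hY : SP Y)
    (hx : Orb 1 Y x) (hy : Orb 1 Y y) : ∃ F : W 2 V → W 1 V, BS F ∧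
      IsF J (fun _ : ℝ => sta Y) (ref x y) fun z => F z.1 := by
  have hJ' : SP fun (t : ℝ) (q : ℝ × V) => J t q.2 :=
    ⟨hJ.1.comp (contDiff_fst.prodMk contDiff_snd.snd), fun t => by simp only [hJ.2 t]⟩
  have hY' : SP fun (t : ℝ) (q : ℝ × V) => Y t q.2 :=
    ⟨hY.1.comp (contDiff_fst.prodMk contDiff_snd.snd), fun t => by simp only [hY.2 t]⟩
  obtain ⟨G, hG, hG'⟩ := exists_FF hJ' hY'
  obtain ⟨bw, pw, -, -⟩ := bdd_ref (Orb.contDiff hY.1 hx) (Orb.contDiff hY.1 hy) hx.2 hy.2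
  have m : cr J (sta Y) (ref x y) ∈ Dsub V := cr_ref_mem hJ (fld_sta hY le_rfl) hx hy
  generalize ref x y = w at bw pw m
  have b1 : Bdd fun p => ((0 : ℝ), w p, dt w p) := (bdd_const 0).prod (bw.prod bw.dt)
  have p1 : Per fun p => ((0 : ℝ), w p, dt w p) := fun s t => by simp only [pw s t, pw.dt s t]
  have hF : BS fun ξ => toW 1 (cr J (sta Y) w) + G (toCb fun p => ((0 : ℝ), w p, dt w p), ξ) :=
    fun n => (bsn_const n _).add ((hG n).comp
      ((bsn_const n _).prod (bsn_clm n (ContinuousLinearMap.id ℝ (W 2 V)))))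
  refine ⟨_, hF, hF.contDiff.comp contDiff_fst, fun φ _ => ?_⟩
  have r := (rep_toW_of_mem 1 m).add (hG' (toCb fun p => ((0 : ℝ), w p, dt w p)) φ) m.1.continuous
    (continuous_ffn_UF hJ' hY' (toCb _).bdd.1.continuous φ.2.1)
  refine (congrArg (Rep 1 _) (funext fun p => ?_)).mp r
  simp only [Pi.add_apply, fn_toCb b1 p1, cr, sta, ffn, ds_add bw.1 φ.2.1, dt_add bw.1 φ.2.1]
  abel

theorem Rep.mop {k : ℕ} (hk : k ≤ 2) {P : Pl → V →L[ℝ] V} (hP : Bdd P) (pP : Per P) {ξ : W k V}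
    {f : Pl → V} (h : Rep k ξ f) : Rep k (mop k P ξ) fun p => P p (f p) := rep_Mop hk hP pP h

theorem mop_mop {k : ℕ} (hk : k ≤ 2) {P Q : Pl → V →L[ℝ] V} (hP : Bdd P) (pP : Per P) (hQ : Bdd Q)
    (pQ : Per Q) (e : ∀ p v, P p (Q p v) = v) (ξ : W k V) : mop k P (mop k Q ξ) = ξ := by
  have : (mop k P).comp (mop k Q) = ContinuousLinearMap.id ℝ _ := W.ext_co fun φ => by
    have r := ((rep_co k φ).mop hk hQ pQ).mop hk hP pP
    simp only [e] at r
    exact r.unique (rep_co k φ)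
  exact congrArg (fun T : W k V →L[ℝ] W k V => T ξ) this

theorem exists_mop_equiv {k : ℕ} (hk : k ≤ 2) {P Q : Pl → V →L[ℝ] V} (hP : Bdd P) (pP : Per P)
    (hQ : Bdd Q) (pQ : Per Q) (e : ∀ p v, P p (Q p v) = v) (e' : ∀ p v, Q p (P p v) = v) :
    ∃ f : W k V ≃L[ℝ] W k V, (∀ ξ, f ξ = mop k P ξ) ∧ ∀ ξ, f.symm ξ = mop k Q ξ :=
  ⟨ContinuousLinearEquiv.equivOfInverse (mop k P) (mop k Q) (mop_mop hk hQ pQ hP pP e')
    (mop_mop hk hP pP hQ pQ e), fun _ => rfl, fun _ => rfl⟩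

end

end Pool.Agent.P.MP_de3acd_gt.FH
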