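import Pool.Agent.P.MP_de3acd_gt.FH.FrA

/-! No concentration of area.
Sketch: green_le: with w₀ = w (r, r), Ω (ds w) (dt w) is half the divergence of (Ω (w - w₀) (dt w), -Ω (w - w₀) (ds w)) (ds_bil, dt_bil, ds_dt_comm, Form.anti);
closedBall 0 r = Icc (-r) r ×ˢ Icc (-r) r (closedBall_prod_same); integral2_divergence_prod_of_hasFDerivAt or integral_divergence_prod_Icc_of_hasFDerivAt_of_le,
or Fubini and the fundamental theorem of calculus in each variable; on the boundary ‖w - w₀‖ ≤ 2 ℓ. nc: f = the integrand; m r = ∫ t in -r..r of f over the four sides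
is continuous with ∫ r in 1..ρ, m r ≤ 4 A (Fubini: integral_prod or setIntegral_prod; bound the inner interval by -ρ..ρ first: use M r = ∫ t in -ρ..ρ only for
the estimate of the integral). If m r > k / r on Icc 1 ρ then k log ρ ≤ 4 A (integral_one_div); so some r has r * m r ≤ k. Cauchy-Schwarz (or a ≤ (a² / θ + θ) / 2) bounds
the length in the invariant norm by √(8 k) ≤ 1. tau varies by at most 2 on the boundary (base_le); apply green_le to B (-tau (v (r, r))) ∘ v (symp, nm_near). -/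

open Set Filter Topology MeasureTheory
open scoped ContDiff NNReal ENNReal RealInnerProductSpace

namespace Pool.Agent.P.MP_de3acd_gt.FH

noncomputable section

variable {Γ : Subgroup (Equiv.Perm E)} {B : ℝ → E →L[ℝ] E} {J : ℝ → E → E →L[ℝ] E}
  {H G K K' : ℝ → E → ℝ} {Y Y' Z : ℝ → E → E} {γ g : Equiv.Perm E} {x y w : ℝ → E} {u : Pl → E}
variable {F F₁ F₂ : Type} [NormedAddCommGroup F] [NormedSpace ℝ F] [NormedAddCommGroup F₁]
  [NormedSpace ℝ F₁] [NormedAddCommGroup F₂] [NormedSpace ℝ F₂]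

theorem path_NC {c c' : ℝ → F} (hc : ∀ t, HasDerivAt c (c' t) t) {m : ℝ → ℝ} (hm : Continuous m)
    (h : ∀ t, ‖c' t‖ ≤ m t) {a b t : ℝ} (ht : t ∈ Icc a b) : ‖c t - c b‖ ≤ ∫ s in a..b, m s := by
  rw [norm_sub_rev]
  refine (norm_sub_le_integral_of_norm_deriv_le_of_le ht.2
    (fun s _ => (hc s).continuousAt.continuousWithinAt)
    (fun s _ => (hc s).differentiableAt.differentiableWithinAt)
    (Eventually.of_forall fun s _ => by rw [(hc s).deriv]; exact h s)
    (hm.intervalIntegrable _ _)).trans ?_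
  exact intervalIntegral.integral_mono_interval ht.1 ht.2 le_rfl
    (Eventually.of_forall fun s => (norm_nonneg _).trans (h s)) (hm.intervalIntegrable _ _)

theorem bd_NC {w : Pl → F} (hw : ContDiff ℝ ∞ w) {r ℓ : ℝ} (hr : 0 < r) {m : ℝ → ℝ}
    (hm : Continuous m)
    (h : ∀ t, ‖ds w (t, r)‖ + ‖ds w (t, -r)‖ + ‖dt w (r, t)‖ + ‖dt w (-r, t)‖ ≤ m t)
    (hℓ : ∫ t in -r..r, m t ≤ ℓ) {t : ℝ} (ht : t ∈ Icc (-r) r) :
    ‖w (t, r) - w (r, r)‖ ≤ 2 * ℓ ∧ ‖w (t, -r) - w (r, r)‖ ≤ 2 * ℓ ∧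
      ‖w (r, t) - w (r, r)‖ ≤ 2 * ℓ ∧ ‖w (-r, t) - w (r, r)‖ ≤ 2 * ℓ := by
  have hd := hw.differentiable (by simp)
  have n := fun (v : F) => norm_nonneg v
  have h1 : ∀ t ∈ Icc (-r) r, ‖w (t, r) - w (r, r)‖ ≤ ℓ := fun t ht =>
    (path_NC (fun s => hasDerivAt_ds (hd (s, r))) hm (fun s => by
      linarith [h s, n (ds w (s, -r)), n (dt w (r, s)), n (dt w (-r, s))]) ht).trans hℓ
  have h2 : ‖w (t, -r) - w (r, -r)‖ ≤ ℓ :=
    (path_NC (fun s => hasDerivAt_ds (hd (s, -r))) hm (fun s => by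
      linarith [h s, n (ds w (s, r)), n (dt w (r, s)), n (dt w (-r, s))]) ht).trans hℓ
  have h3 : ∀ t ∈ Icc (-r) r, ‖w (r, t) - w (r, r)‖ ≤ ℓ := fun t ht =>
    (path_NC (fun s => hasDerivAt_dt (hd (r, s))) hm (fun s => by
      linarith [h s, n (ds w (s, -r)), n (ds w (s, r)), n (dt w (-r, s))]) ht).trans hℓ
  have h4 : ‖w (-r, t) - w (-r, r)‖ ≤ ℓ :=
    (path_NC (fun s => hasDerivAt_dt (hd (-r, s))) hm (fun s => by
      linarith [h s, n (ds w (s, -r)), n (ds w (s, r)), n (dt w (r, s))]) ht).trans hℓ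
  have hm' : -r ∈ Icc (-r) r := ⟨le_rfl, by linarith⟩
  have h0 := (n _).trans h2
  refine ⟨by linarith [h1 t ht], ?_, by linarith [h3 t ht], ?_⟩
  · linarith [norm_sub_le_norm_sub_add_norm_sub (w (t, -r)) (w (r, -r)) (w (r, r)), h3 _ hm']
  · linarith [norm_sub_le_norm_sub_add_norm_sub (w (-r, t)) (w (-r, r)) (w (r, r)), h1 _ hm']

theorem ball_NC (r : ℝ) : Metric.closedBall (0 : Pl) r = Icc (-r) r ×ˢ Icc (-r) r := by
  rw [← Prod.mk_zero_zero, ← closedBall_prod_same, Real.closedBall_eq_Icc, zero_sub, zero_add]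

theorem green_le {Ω : F → F → ℝ} (hΩ : Form Ω) : ∃ D, 0 ≤ D ∧ ∀ (w : Pl → F) (r ℓ : ℝ),
    ContDiff ℝ ∞ w → 0 < r →
      ∫ t in -r..r, (‖ds w (t, r)‖ + ‖ds w (t, -r)‖ + ‖dt w (r, t)‖ + ‖dt w (-r, t)‖) ≤ ℓ →
        |∫ p in Metric.closedBall 0 r, Ω (ds w p) (dt w p)| ≤ D * ℓ ^ 2 := by
  obtain ⟨L, hL, -⟩ := id hΩ
  refine ⟨‖L‖, norm_nonneg L, fun w r ℓ hw hr hℓ => ?_⟩
  have cs := (contDiff_ds hw).continuous
  have ct := (contDiff_dt hw).continuous
  have hm : Continuous fun t => ‖ds w (t, r)‖ + ‖ds w (t, -r)‖ + ‖dt w (r, t)‖ + ‖dt w (-r, t)‖ := by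
    fun_prop
  have hrr : -r ≤ r := by linarith
  have hℓ0 : 0 ≤ ℓ := (intervalIntegral.integral_nonneg hrr fun t _ => by positivity).trans hℓ
  let φ : Pl → F := fun p => w p - w (r, r)
  have hφ : ContDiff ℝ ∞ φ := hw.sub contDiff_const
  have e1 : ds φ = ds w := funext fun p => by simp only [ds, φ, fderiv_sub_const]
  have e2 : dt φ = dt w := funext fun p => by simp only [dt, φ, fderiv_sub_const]
  have s1 := contDiff_bil_JetC L hφ (contDiff_dt hw)
  have s2 := contDiff_bil_JetC (-L) hφ (contDiff_ds hw)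
  have key := integral_divergence_prod_Icc_of_hasFDerivAt_of_le _ _ _ _ (-r, -r) (r, r) ⟨hrr, hrr⟩
    s1.continuous.continuousOn s2.continuous.continuousOn
    (fun p _ => (s1.differentiable (by simp) p).hasFDerivAt)
    (fun p _ => (s2.differentiable (by simp) p).hasFDerivAt)
    (((contDiff_ds s1).continuous.add (contDiff_dt s2).continuous).continuousOn.integrableOn_compact
      isCompact_Icc)
  have e : ∀ p, fderiv ℝ (fun p => L (φ p) (dt w p)) p (1, 0) +
      fderiv ℝ (fun p => (-L) (φ p) (ds w p)) p (0, 1) = 2 * Ω (ds w p) (dt w p) := fun p => by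
    change ds _ p + dt _ p = _
    rw [ds_bil L (hφ.differentiable (by simp) p) ((contDiff_dt hw).differentiable (by simp) p),
      dt_bil (-L) (hφ.differentiable (by simp) p) ((contDiff_ds hw).differentiable (by simp) p),
      ds_dt_comm hw, e1, e2]
    simp only [neg_apply]
    rw [← hL (ds w p), ← hL (dt w p), hΩ.anti (dt w p)]
    ring
  have c1 := s1.continuous
  have c2 := s2.continuous
  simp only [e] at key
  rw [integral_const_mul, Icc_prod_eq, ← ball_NC, ← intervalIntegral.integral_sub,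
    ← intervalIntegral.integral_add, ← intervalIntegral.integral_sub] at key
  rotate_left
  iterate 6 exact Continuous.intervalIntegrable (by fun_prop) _ _
  have hb := intervalIntegral.norm_integral_le_of_norm_le (μ := volume) hrr
    (f := fun t => (-L) (φ (t, r)) (ds w (t, r)) - (-L) (φ (t, -r)) (ds w (t, -r)) +
      L (φ (r, t)) (dt w (r, t)) - L (φ (-r, t)) (dt w (-r, t)))
    (g := fun t => ‖L‖ * (2 * ℓ) *
      (‖ds w (t, r)‖ + ‖ds w (t, -r)‖ + ‖dt w (r, t)‖ + ‖dt w (-r, t)‖))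
    (Eventually.of_forall fun t ht => ?_) ((continuous_const.mul hm).intervalIntegrable _ _)
  · rw [← key, intervalIntegral.integral_const_mul, Real.norm_eq_abs, abs_mul, abs_two] at hb
    have := mul_le_mul_of_nonneg_left hℓ (show 0 ≤ ‖L‖ * (2 * ℓ) by positivity)
    linarith
  · obtain ⟨b1, b2, b3, b4⟩ := bd_NC hw hr hm (fun _ => le_rfl) hℓ (Ioc_subset_Icc_self ht)
    have q : ∀ a v : F, ‖a‖ ≤ 2 * ℓ → |L a v| ≤ ‖L‖ * (2 * ℓ) * ‖v‖ := fun a v ha =>
      L.le_of_opNorm₂_le_of_le le_rfl ha le_rfl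
    have q1 := abs_le.1 (q _ (ds w (t, r)) b1)
    have q2 := abs_le.1 (q _ (ds w (t, -r)) b2)
    have q3 := abs_le.1 (q _ (dt w (r, t)) b3)
    have q4 := abs_le.1 (q _ (dt w (-r, t)) b4)
    simp only [neg_apply, φ, Real.norm_eq_abs]
    rw [abs_le]
    constructor <;> linarith [q1.1, q1.2, q2.1, q2.2, q3.1, q3.2, q4.1, q4.2]

theorem fub_NC {f : Pl → ℝ} (hf : Continuous f) {ρ : ℝ} (hρ : 0 ≤ ρ) :
    ∫ x in -ρ..ρ, ∫ y in -ρ..ρ, f (x, y) = ∫ p in Metric.closedBall 0 ρ, f p ∧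
      ∫ y in -ρ..ρ, ∫ x in -ρ..ρ, f (x, y) = ∫ p in Metric.closedBall 0 ρ, f p := by
  have hi : IntegrableOn f (Icc (-ρ) ρ ×ˢ Icc (-ρ) ρ) (volume.prod volume) :=
    hf.continuousOn.integrableOn_compact (isCompact_Icc.prod isCompact_Icc)
  have h : -ρ ≤ ρ := by linarith
  simp only [intervalIntegral.integral_of_le h, ← integral_Icc_eq_integral_Ioc, ball_NC]
  rw [Measure.volume_eq_prod]
  refine ⟨(setIntegral_prod f hi).symm, ?_⟩
  rw [IntegrableOn, ← Measure.prod_restrict] at hi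
  rw [← Measure.prod_restrict, integral_prod_symm f hi]

theorem exists_radius (A : ℝ) {k : ℝ} (hk : 0 < k) : ∃ ρ, 1 ≤ ρ ∧ ∀ f : Pl → ℝ, Continuous f →
    (∀ p, 0 ≤ f p) → ∫ p in Metric.closedBall 0 ρ, f p ≤ A → ∃ r ∈ Icc 1 ρ,
      r * ∫ t in -r..r, (f (t, r) + f (t, -r) + f (r, t) + f (-r, t)) ≤ k := by
  have h1 : 1 ≤ Real.exp (4 * |A| / k + 1) := Real.one_le_exp (by positivity)
  refine ⟨_, h1, fun f hf h0 hA => ?_⟩
  have hlog := Real.log_exp (4 * |A| / k + 1)
  generalize Real.exp (4 * |A| / k + 1) = ρ at h1 hA hlog ⊢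
  by_contra hcon
  push Not at hcon
  have hρ : -ρ ≤ ρ := by linarith
  let G : ℝ → ℝ := fun x => ∫ y in -ρ..ρ, f (x, y)
  let H : ℝ → ℝ := fun y => ∫ x in -ρ..ρ, f (x, y)
  have cG : Continuous G :=
    intervalIntegral.continuous_parametric_intervalIntegral_of_continuous' (by fun_prop) _ _
  have cH : Continuous H :=
    intervalIntegral.continuous_parametric_intervalIntegral_of_continuous' (by fun_prop) _ _
  have G0 : ∀ x, 0 ≤ G x := fun x => intervalIntegral.integral_nonneg hρ fun _ _ => h0 _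
  have H0 : ∀ x, 0 ≤ H x := fun x => intervalIntegral.integral_nonneg hρ fun _ _ => h0 _
  have cM : Continuous fun r => H r + H (-r) + G r + G (-r) := by fun_prop
  have b1 : ∫ r in (1 : ℝ)..ρ, k * (1 / r) ≤ ∫ r in (1 : ℝ)..ρ, H r + H (-r) + G r + G (-r) := by
    refine intervalIntegral.integral_mono_on h1 (ContinuousOn.intervalIntegrable_of_Icc h1
      (continuousOn_const.mul (continuousOn_const.div continuousOn_id fun r hr =>
        (by linarith [hr.1] : (0 : ℝ) < r).ne'))) (cM.intervalIntegrable _ _) fun r hr => ?_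
    have r0 : 0 < r := by linarith [hr.1]
    rw [mul_one_div, div_le_iff₀' r0]
    refine (hcon r hr).le.trans (mul_le_mul_of_nonneg_left ?_ r0.le)
    simp only [G, H]
    rw [← intervalIntegral.integral_add, ← intervalIntegral.integral_add,
      ← intervalIntegral.integral_add]
    · exact intervalIntegral.integral_mono_interval (by linarith [hr.2]) (by linarith) hr.2
        (Eventually.of_forall fun t => add_nonneg (add_nonneg (add_nonneg (h0 _) (h0 _)) (h0 _))
          (h0 _)) (Continuous.intervalIntegrable (by fun_prop) _ _)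
    all_goals exact Continuous.intervalIntegrable (by fun_prop) _ _
  have b2 := intervalIntegral.integral_mono_interval (μ := volume) (c := -ρ) (by linarith) h1 le_rfl
    (Eventually.of_forall fun t => add_nonneg (add_nonneg (add_nonneg (H0 _) (H0 _)) (G0 _))
      (G0 _)) (cM.intervalIntegrable _ _)
  obtain ⟨f1, f2⟩ := fub_NC hf (ρ := ρ) (by linarith)
  have b3 := b1.trans b2
  rw [intervalIntegral.integral_add, intervalIntegral.integral_add, intervalIntegral.integral_add,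
    intervalIntegral.integral_comp_neg, intervalIntegral.integral_comp_neg, neg_neg, f1, f2,
    intervalIntegral.integral_const_mul, integral_one_div_of_pos one_pos (by linarith), div_one,
    hlog, mul_add, mul_div_cancel₀ _ hk.ne'] at b3
  · linarith [le_abs_self A]
  all_goals exact Continuous.intervalIntegrable (by fun_prop) _ _

theorem Fr.nc (h : Fr Γ B) (A : ℝ) {e : ℝ} (he : 0 < e) : ∃ ρ, 1 ≤ ρ ∧ ∀ v : Pl → E,
    ContDiff ℝ ∞ v →
      ∫ p in Metric.closedBall 0 ρ, (nm B (v p) (ds v p) ^ 2 + nm B (v p) (dt v p) ^ 2) ≤ A →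
        ∃ r ∈ Icc 1 ρ, |∫ p in Metric.closedBall 0 r, om (ds v p) (dt v p)| ≤ e := by
  obtain ⟨D, hD, hg⟩ := green_le form_om
  obtain ⟨D', hD', hn⟩ := h.nm_near 2
  obtain ⟨c, c0, c1, c2⟩ : ∃ c : ℝ, 0 < c ∧ 5 * c ≤ 1 ∧ D * (D' * (5 * c)) ^ 2 ≤ e := by
    have h1 : 0 < 5 * (D * D' ^ 2) + 1 := by positivity
    have h2 := min_le_left (1 / 5) (e / (5 * (D * D' ^ 2) + 1))
    have h3 := (le_div_iff₀ h1).1 (min_le_right (1 / 5) (e / (5 * (D * D' ^ 2) + 1)))
    have h4 : 0 < min (1 / 5) (e / (5 * (D * D' ^ 2) + 1)) := by positivity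
    generalize min (1 / 5) (e / (5 * (D * D' ^ 2) + 1)) = c at h2 h3 h4
    refine ⟨c, h4, by linarith, ?_⟩
    have h5 : 0 ≤ D * D' ^ 2 * c := by positivity
    nlinarith
  obtain ⟨ρ, hρ, hr⟩ := exists_radius A (pow_pos c0 2)
  refine ⟨ρ, hρ, fun v hv hA => ?_⟩
  have cs : Continuous fun p => nm B (v p) (ds v p) :=
    h.continuous_nm.comp (hv.continuous.prodMk (contDiff_ds hv).continuous)
  have ct : Continuous fun p => nm B (v p) (dt v p) :=
    h.continuous_nm.comp (hv.continuous.prodMk (contDiff_dt hv).continuous)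
  obtain ⟨r, hr1, hr2⟩ := hr _ (by fun_prop) (fun p => by positivity) hA
  refine ⟨r, hr1, ?_⟩
  have r0 : 0 < r := by linarith [hr1.1]
  have hrr : -r ≤ r := by linarith
  let m : ℝ → ℝ := fun t => nm B (v (t, r)) (ds v (t, r)) + nm B (v (t, -r)) (ds v (t, -r)) +
    nm B (v (r, t)) (dt v (r, t)) + nm B (v (-r, t)) (dt v (-r, t))
  have cm : Continuous m := (((cs.comp (by fun_prop)).add (cs.comp (by fun_prop))).add
    (ct.comp (by fun_prop))).add (ct.comp (by fun_prop))
  have hm : ∫ t in -r..r, m t ≤ 5 * c := by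
    obtain ⟨f, hF⟩ : ∃ f, (fun p => nm B (v p) (ds v p) ^ 2 + nm B (v p) (dt v p) ^ 2) = f := ⟨_, rfl⟩
    have cf : Continuous f := hF ▸ (cs.pow 2).add (ct.pow 2)
    have h1 := intervalIntegral.integral_mono_on (μ := volume) hrr (f := fun t => 2 * c * r * m t)
      (g := fun t => r ^ 2 * (f (t, r) + f (t, -r) + f (r, t) + f (-r, t)) + 4 * c ^ 2)
      (Continuous.intervalIntegrable (by fun_prop) _ _)
      (Continuous.intervalIntegrable (by fun_prop) _ _) fun t _ => by
        simp only [← hF, m]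
        nlinarith [sq_nonneg (r * nm B (v (t, r)) (ds v (t, r)) - c),
          sq_nonneg (r * nm B (v (t, -r)) (ds v (t, -r)) - c),
          sq_nonneg (r * nm B (v (r, t)) (dt v (r, t)) - c),
          sq_nonneg (r * nm B (v (-r, t)) (dt v (-r, t)) - c),
          sq_nonneg (r * nm B (v (t, r)) (dt v (t, r))),
          sq_nonneg (r * nm B (v (t, -r)) (dt v (t, -r))),
          sq_nonneg (r * nm B (v (r, t)) (ds v (r, t))),
          sq_nonneg (r * nm B (v (-r, t)) (ds v (-r, t)))]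
    rw [intervalIntegral.integral_add (Continuous.intervalIntegrable (by fun_prop) _ _)
      (by simp), intervalIntegral.integral_const_mul, intervalIntegral.integral_const_mul,
      intervalIntegral.integral_const, smul_eq_mul] at h1
    subst hF
    have h2 := mul_le_mul_of_nonneg_left hr2 r0.le
    refine le_of_mul_le_mul_left ?_ (show 0 < 2 * c * r by positivity)
    have h3 : 0 < r * c ^ 2 := by positivity
    linarith
  let P : E →L[ℝ] Pl := (ContinuousLinearMap.fst ℝ _ _).comp (ContinuousLinearMap.snd ℝ _ _)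
  have d : ∀ {F : Type} [NormedAddCommGroup F] [NormedSpace ℝ F] (L : E →L[ℝ] F) (p : Pl),
      ds (L ∘ v) p = L (ds v p) ∧ dt (L ∘ v) p = L (dt v p) := fun L p => by
    simp only [ds, dt, (L.hasFDerivAt.comp p (hv.differentiable (by simp) p).hasFDerivAt).fderiv]
    exact ⟨rfl, rfl⟩
  have ta : ∀ z z' : E, ‖P z - P z'‖ ≤ 2 * 1 → |tau z' - tau z| ≤ 2 := fun z z' hz => by
    have h1 := abs_tau_le (0, P z' - P z, 0)
    have h2 : tau (0, P z' - P z, 0) = tau z' - tau z := by
      simp only [tau, P]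
      simp
      ring
    rw [h2] at h1
    rw [norm_sub_rev] at hz
    refine h1.trans ?_
    simpa using hz
  have key := hg (B (-tau (v (r, r))) ∘ v) r (D' * (5 * c))
    ((B _).contDiff.comp hv) r0 ?_
  · simp only [d, h.symp] at key
    exact key.trans c2
  refine le_trans ?_ (mul_le_mul_of_nonneg_left hm (by linarith))
  rw [← intervalIntegral.integral_const_mul]
  have cs' := (contDiff_ds hv).continuous
  have ct' := (contDiff_dt hv).continuous
  simp only [d]
  refine intervalIntegral.integral_mono_on hrr (Continuous.intervalIntegrable (by fun_prop) _ _)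
    (Continuous.intervalIntegrable (by fun_prop) _ _) fun t ht => ?_
  obtain ⟨b1, b2, b3, b4⟩ := bd_NC (P.contDiff.comp hv) r0 cm (fun t => by
    simp only [d]
    exact add_le_add (add_le_add (add_le_add (h.base_le _ _).2 (h.base_le _ _).2)
      (h.base_le _ _).2) (h.base_le _ _).2) (hm.trans c1) ht
  simp only [m, mul_add]
  exact add_le_add (add_le_add (add_le_add (hn _ _ _ (ta _ _ b1)) (hn _ _ _ (ta _ _ b2)))
    (hn _ _ _ (ta _ _ b3))) (hn _ _ _ (ta _ _ b4))

end

end Pool.Agent.P.MP_de3acd_gt.FH
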