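import Pool.Agent.P.MP_de3acd_gt.FH.GL
import Pool.Agent.P.MP_de3acd_gt.FH.SgnG
import Pool.Agent.P.MP_de3acd_gt.FH.FinA

/-! Gluing along the neck, for one pair.
Sketch: glue_nl with N = ℝ, atTop, families X n r = nk X₁ X₂ Y n n independent of r (kr_const; 𝕏' t ((r, κ), z) = 𝕏 t (κ, z) with 𝕏 from nk_ctl; fld_nk for n;
A large), L = 0, m = 1, t = 0, r₀ = 0; cr_pre, cn_pre, pth_pre. sign_glue with the empty frame on g₁ and the trivial frame on g₂ (Fin.append, tsl of 0; frm_empty, frm_triv,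
ok_lop_iff); sign_path along the segment from the preglued map to u (pData_fld, pth_seg, nrm_smul). neck_sep: by contradiction, WC.tendsto, locC_pre,
Pth.unique. -/

open Set Filter Topology MeasureTheory
open scoped ContDiff NNReal ENNReal RealInnerProductSpace

namespace Pool.Agent.P.MP_de3acd_gt.FH

noncomputable section

variable {V : Type} [NormedAddCommGroup V] [InnerProductSpace ℝ V] [Sym V]

variable {J : ℝ → V → V →L[ℝ] V} {X₁ X₂ : Pl → V → V} {Y : ℝ → V → V} {R : ℝ} {x y z : ℝ → V}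
  {g₁ g₂ : Pl → V} {o : ∀ a b, Op V a b → ℤˣ} {η : ℕ → ℕ → ℕ → ℕ → ℤˣ}

omit [Sym V] in
theorem appK_NeckA (v w : Pl) : (Fin.append (fun i => tsl v ((![] : Fin 0 → Pl → V) i))
    fun i => tsl w ((![0] : Fin 1 → Pl → V) i)) = (![0] : Fin 1 → Pl → V) := by
  funext i
  fin_cases i
  rfl

theorem appM_NeckA : (Fin.append (fun i => Fin.append ((![] : Fin 0 → Fin 0 → ℝ) i) 0)
    fun i => Fin.append (0 : Fin 0 → ℝ) ((![![1]] : Fin 1 → Fin 1 → ℝ) i)) =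
      (![![1]] : Fin 1 → Fin 1 → ℝ) := by
  funext i j
  fin_cases i
  fin_cases j
  rfl

omit [Sym V] in
theorem tf_NeckA : TF (![0] : Fin 1 → Pl → V) := fun i => by
  fin_cases i
  exact (Dsub V).zero_mem

theorem neck_glue (ho : Coh Ω0 ⊥ o) (hη : Glu Ω0 ⊥ o η) (hJ : ACS Ω0 J) (h₁ : Fld X₁ R)
    (h₂ : Fld X₂ R) (e₁ : frz X₁ R = Y) (e₂ : frz X₂ (-R) = Y) (hx : GOrb Ω0 1 (frz X₁ (-R)) x)
    (hy : GOrb Ω0 1 Y y) (hz : GOrb Ω0 1 (frz X₂ R) z) (n₁ : Nice J X₁ x y g₁)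
    (n₂ : Nice J X₂ y z g₂) (b₁ : Function.Bijective (Du J X₁ g₁))
    (b₂ : Function.Bijective (Du J X₂ g₂)) : ∃ ε > 0,
      (∀ᶠ r in atTop, ∀ u, Pth x z u → nrm 2 (u - pre r r g₁ g₂ y) univ ≤ ENNReal.ofReal (ε ^ 2) →
        Function.Bijective (Du J (nk X₁ X₂ Y r r) u) ∧
          o 1 1 (lop 1 J (nk X₁ X₂ Y r r) x z u ![0] ![0] ![![1]]) =
            η 0 0 1 1 * o 0 0 (lop 1 J X₁ x y g₁ ![] ![] ![]) *
              o 1 1 (lop 1 J X₂ y z g₂ ![0] ![0] ![![1]])) ∧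
      (∀ᶠ r in atTop, ∀ u u', Nice J (nk X₁ X₂ Y r r) x z u → Nice J (nk X₁ X₂ Y r r) x z u' →
        nrm 2 (u - pre r r g₁ g₂ y) univ ≤ ENNReal.ofReal (ε ^ 2) →
        nrm 2 (u' - pre r r g₁ g₂ y) univ ≤ ENNReal.ofReal (ε ^ 2) → u = u') ∧
      ∀ ε' > 0, ∀ᶠ r in atTop, ∃ u, Nice J (nk X₁ X₂ Y r r) x z u ∧
        nrm 2 (u - pre r r g₁ g₂ y) univ ≤ ENNReal.ofReal (ε' ^ 2) := by
  have hy₁ : GOrb Ω0 1 (frz X₁ R) y := e₁ ▸ hy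
  have hy₂ : GOrb Ω0 1 (frz X₂ (-R)) y := e₂ ▸ hy
  obtain ⟨sx, sy, px, py⟩ := (pData_fld (Λ := ℝ) hJ h₁ hx hy₁).loops
  obtain ⟨-, sz, -, pz⟩ := (pData_fld (Λ := ℝ) hJ h₂ hy₂ hz).loops
  have hw := fun r₁ r₂ => pth_pre n₁.pth n₂.pth sx sy sz py r₁ r₂
  have hf := fld_nk h₁ h₂ e₁ e₂
  have hx' : ∀ r, GOrb Ω0 1 (frz (nk X₁ X₂ Y r r) (-(R + |r| + |r|))) x := fun r =>
    (hf r r).2.1 ▸ hx
  have hz' : ∀ r, GOrb Ω0 1 (frz (nk X₁ X₂ Y r r) (R + |r| + |r|)) z := fun r =>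
    (hf r r).2.2 ▸ hz
  have hϱ : Tendsto (fun n : ℝ => n + n) atTop atTop := tendsto_id.atTop_add_atTop tendsto_id
  obtain ⟨c, hc, hs⟩ := sign_glue (ϱ₁ := fun n : ℝ => n) (ϱ₂ := fun n => n) ho hη hJ h₁ h₂ e₁ e₂
    hx hy hz n₁.pth n₂.pth
    ((ok_lop_iff hJ h₁ hx hy₁ n₁.pth ![] ![] ![]).2
      ⟨fun i => i.elim0, fun i => i.elim0, (frm_empty _ _ _ _).2.2 b₁⟩)
    ((ok_lop_iff hJ h₂ hy₂ hz n₂.pth ![0] ![0] ![![1]]).2
      ⟨tf_NeckA, tf_NeckA, (frm_triv _).2 b₂⟩) hϱ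
  simp only [appK_NeckA, appM_NeckA] at hs
  obtain ⟨𝕏, ρ, hX, bρ, -, -, k0, -, -⟩ := nk_ctl h₁ h₂ e₁ e₂
  obtain ⟨A₀, -, cρ⟩ := bρ.cn 2
  obtain ⟨A₃, cw⟩ := cn_pre n₁.bdd n₂.bdd sy py 3
  have bt : ∀ r : ℝ, Bdd (fun p : Pl => ρ (p.1 + r)) ∧
      Cn 2 (fun p : Pl => ρ (p.1 + r)) univ (max A₀ A₃) :=
    fun r => ⟨bρ.tsl (r, 0), (cn_tsl (f := fun p : Pl => ρ p.1) (I := univ) (r, 0)).2
      (cρ.up_JetC (le_max_left _ _))⟩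
  obtain ⟨ε, hε, H₁, H₂, H₃⟩ := glue_nl (C := ℝ × ℝ) hJ (𝕏 := fun t q => 𝕏 t (q.1.2, q.2))
    ⟨hX.1.comp (contDiff_fst.prodMk (contDiff_snd.fst.snd.prodMk contDiff_snd.snd)),
      fun t => funext fun q => congrFun (hX.2 t) _⟩ (l := atTop)
    (X := fun n _ : ℝ => nk X₁ X₂ Y n n) (κ := fun n p => (ρ (p.1 + n), ρ (p.1 + -n)))
    (w := fun n => pre n n g₁ g₂ y) (L := fun _ => 0) (s₀ := fun _ => 0) (t := fun _ => 0)
    (x := x) (z := z) (r₀ := 0) (m := 1) (A := max A₀ A₃) (c := c)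
    (fun n _ => (k0 n n).trans (by simp only [sub_eq_add_neg]; rfl))
    (fun n => ⟨(bt _).1.prod (bt _).1, fun _ _ => rfl,
      Cn.prod (bt _).1.1 (bt _).1.1 (bt _).2 (bt _).2, hw n n,
      (cw n n).up_JetC (le_max_right _ _), (Dsub V).zero_mem, fun _ _ _ _ => rfl,
      _, fun _ => ⟨(hf n n).1, (hx' n).1, (hz' n).1⟩⟩)
    (cr_pre hJ.1 h₁ h₂ e₁ e₂ n₁ n₂ sx sy sz py hϱ) hc
    (hs.mono fun n hn => by rw [kr_const]; exact hn.1) tendsto_const_nhds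
  have h0 : |(0 : ℝ) - 0| ≤ ε := by simpa using hε.le
  have hp : ∀ f : Pl → V, pair Ω0 f 0 = 0 := fun f => by simp [pair, Ω0]
  refine ⟨ε, hε, ?_, ?_, fun ε' hε' => ?_⟩
  · filter_upwards [H₁, hs] with n a₁ a₂ u hu hn
    simp only [kr_const] at a₁
    refine ⟨(frm_triv _).1 (a₁ u 0 hu hn h0), ?_⟩
    have hP := pData_fld (Λ := ℝ) hJ (hf n n).1 (hx' n) (hz' n)
    refine (hP.sign_path ho (p := 0) (p' := 0) (hw n n) hu (K := fun _ => ![0]) (M := ![![1]])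
      (fun _ => tf_NeckA) tf_NeckA tf_NeckA (fun _ i => ?_) fun τ hτ => ?_).trans a₂.2
    · simp only [sub_self, nrm_zero_fun]
      exact tendsto_const_nhds
    · simp only [sub_self, smul_zero, add_zero]
      refine a₁ _ 0 (hP.pth_seg (hw n n) hu τ) ?_ h0
      rw [add_sub_cancel_left, nrm_smul 2 τ (hu.bdd.sub (hw n n).bdd).1]
      refine (mul_le_of_le_one_left' ?_).trans hn
      rw [ENNReal.ofReal_le_one]
      nlinarith [hτ.1, hτ.2]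
  · filter_upwards [H₂] with n a u u' m m' b b'
    exact (a u 0 u' 0 m m' b h0 b' h0 (by rw [hp, hp])).1
  · filter_upwards [H₃ ε' hε'] with n ⟨u, _, m, b, _⟩
    exact ⟨u, m, b⟩

theorem sep_NeckA {w w' : ℝ → Pl → V} {σ : ℝ → ℝ} {g g' : Pl → V}
    (hw : ∀ r, ContDiff ℝ ∞ (w r) ∧ Per (w r)) (hw' : ∀ r, ContDiff ℝ ∞ (w' r) ∧ Per (w' r))
    (e : LocC atTop (fun r => tsl (σ r, 0) (w r)) g)
    (e' : LocC atTop (fun r => tsl (σ r, 0) (w' r)) g') (hn : g ≠ g') :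
    ∃ ε > 0, ∀ᶠ r in atTop, ∀ u : Pl → V, ContDiff ℝ ∞ u →
      nrm 2 (u - w r) univ ≤ ENNReal.ofReal (ε ^ 2) →
        ¬nrm 2 (u - w' r) univ ≤ ENNReal.ofReal (ε ^ 2) := by
  obtain ⟨p, hp⟩ := Function.ne_iff.1 hn
  have hδ : 0 < ‖g p - g' p‖ / 4 := div_pos (norm_pos_iff.2 (sub_ne_zero.2 hp)) four_pos
  have h1 := WC.tendsto (l := comap (fun r => nrm 2 (w r - w' r) univ) (𝓝 0)) (f := w) (g := w')
    tendsto_comap hw hw' hδ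
  obtain ⟨a, ha, h2⟩ := ENNReal.nhds_zero_basis_Iic.eventually_iff.1 (eventually_comap.1 h1)
  have h3 : Tendsto (fun ε : ℝ => ENNReal.ofReal (4 * ε ^ 2)) (𝓝[>] 0) (𝓝 0) :=
    ((ENNReal.continuous_ofReal.comp (by fun_prop : Continuous fun ε : ℝ => 4 * ε ^ 2)).tendsto' 0 0
      (by simp)).mono_left nhdsWithin_le_nhds
  obtain ⟨ε, h4, hε⟩ := ((h3.eventually_le_const ha).and self_mem_nhdsWithin).exists
  refine ⟨ε, hε, ?_⟩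
  filter_upwards [e 0 |p.1| _ hδ, e' 0 |p.1| _ hδ] with r c c' u hu b b'
  have h5 : nrm 2 (w r - w' r) univ ≤ a := by
    rw [show w r - w' r = (u - w' r) - (u - w r) by abel]
    refine (nrm_sub_le 2 (hu.sub (hw' r).1) (hu.sub (hw r).1) univ).trans (le_trans ?_ h4)
    rw [ENNReal.ofReal_mul (by norm_num), show ENNReal.ofReal 4 = 2 + 2 by norm_num, add_mul]
    exact add_le_add (mul_le_mul_right b' _) (mul_le_mul_right b _)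
  have h6 := h2 h5 r rfl (p + (σ r, 0))
  have m : p.1 ∈ Icc (-|p.1|) |p.1| := ⟨neg_abs_le _, le_abs_self _⟩
  have h7 : ‖w r (p + (σ r, 0)) - g p‖ ≤ _ := c p m
  have h8 : ‖w' r (p + (σ r, 0)) - g' p‖ ≤ _ := c' p m
  have h9 := norm_sub_le_norm_sub_add_norm_sub (g p) (w r (p + (σ r, 0))) (g' p)
  have h10 := norm_sub_le_norm_sub_add_norm_sub (w r (p + (σ r, 0))) (w' r (p + (σ r, 0))) (g' p)
  rw [norm_sub_rev] at h7
  linarith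

theorem neck_sep {y' : ℝ → V} {g₁' g₂' : Pl → V} (h₁ : Pth x y g₁) (h₂ : Pth y z g₂)
    (h₁' : Pth x y' g₁') (h₂' : Pth y' z g₂') (hx : ContDiff ℝ ∞ x) (hy : ContDiff ℝ ∞ y)
    (hy' : ContDiff ℝ ∞ y') (hz : ContDiff ℝ ∞ z) (px : ∀ t, x (t + 1) = x t)
    (py : ∀ t, y (t + 1) = y t) (py' : ∀ t, y' (t + 1) = y' t) (pz : ∀ t, z (t + 1) = z t)
    (hn : (y, g₁, g₂) ≠ (y', g₁', g₂')) : ∃ ε > 0, ∀ᶠ r in atTop, ∀ u : Pl → V, ContDiff ℝ ∞ u →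
      nrm 2 (u - pre r r g₁ g₂ y) univ ≤ ENNReal.ofReal (ε ^ 2) →
        ¬nrm 2 (u - pre r r g₁' g₂' y') univ ≤ ENNReal.ofReal (ε ^ 2) := by
  have hϱ : Tendsto (fun n : ℝ => n + n) atTop atTop := tendsto_id.atTop_add_atTop tendsto_id
  have hw := fun r => pth_pre h₁ h₂ hx hy hz py r r
  have hw' := fun r => pth_pre h₁' h₂' hx hy' hz py' r r
  have e := locC_pre (ϱ₁ := fun n : ℝ => n) (ϱ₂ := fun n => n) h₁ h₂ hx hy hz px py pz hϱ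
  have e' := locC_pre (ϱ₁ := fun n : ℝ => n) (ϱ₂ := fun n => n) h₁' h₂' hx hy' hz px py' pz hϱ
  by_cases a₁ : g₁ = g₁'
  · refine sep_NeckA (fun r => ⟨(hw r).bdd.1, (hw r).per⟩) (fun r => ⟨(hw' r).bdd.1, (hw' r).per⟩)
      e.2 e'.2 fun a₂ => hn ?_
    subst a₁ a₂
    rw [(h₁.unique h₁' hx hy px py hx hy' px py').2]
  · exact sep_NeckA (fun r => ⟨(hw r).bdd.1, (hw r).per⟩) (fun r => ⟨(hw' r).bdd.1, (hw' r).per⟩)
      e.1 e'.1 a₁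

end

end Pool.Agent.P.MP_de3acd_gt.FH
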