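import Pool.Agent.P.MP_de3acd_gt.FH.Sob
import Pool.Agent.P.MP_de3acd_gt.FH.L4

/-! The Moser bound for composition in W 2.
Sketch: put a p = (p.2, c p, φ p) and f̃ the uncurried map; ‖φ p‖ ≤ A₁ by sob (nrm_co, fn_co), so a takes values (mod the
period) in a compact set. g = f̃ ∘ a and g₀ = f̃ ∘ a₀ = 0 with a₀ p = (p.2, c p, 0). Chain rule twice:
ds g = Df̃(a) (ds a), ds ds g = D²f̃(a)(ds a, ds a) + Df̃(a) (ds ds a); subtract the same expressions for a₀ (which vanish) and use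
that Df̃, D²f̃ are bounded and Lipschitz on the compact set: every entry of jet2 g is at most
C (‖φ‖ + ‖dφ‖ + ‖d²φ‖ + ‖dφ‖^2) pointwise. Integrate; l4_cyl for ds φ, dt φ. -/

open Set Filter Topology MeasureTheory
open scoped ContDiff NNReal ENNReal RealInnerProductSpace

namespace Pool.Agent.P.MP_de3acd_gt.FH

noncomputable section

section aux

variable {X Y Z : Type} [NormedAddCommGroup X] [NormedSpace ℝ X] [NormedAddCommGroup Y]
  [NormedSpace ℝ Y] [NormedAddCommGroup Z] [NormedSpace ℝ Z]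

/-- The directional derivative. -/
def D_Nem0 (v : Pl) (u : Pl → X) (p : Pl) : X := fderiv ℝ u p v

theorem smooth_Nem0 (v : Pl) {u : Pl → X} (h : ContDiff ℝ ∞ u) : ContDiff ℝ ∞ (D_Nem0 v u) :=
  (h.fderiv_right (m := ∞) le_rfl).clm_apply contDiff_const

theorem comp_Nem0 {G : X → Y} (hG : ContDiff ℝ ∞ G) {a : Pl → X} (ha : ContDiff ℝ ∞ a) (v : Pl) :
    D_Nem0 v (fun p => G (a p)) = fun p => fderiv ℝ G (a p) (D_Nem0 v a p) := funext fun p =>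
  congrArg (fun T : Pl →L[ℝ] Y => T v) ((hG.differentiable (by simp) (a p)).hasFDerivAt.comp p
    (ha.differentiable (by simp) p).hasFDerivAt).fderiv

theorem clm_Nem0 (T : X →L[ℝ] Y) {a : Pl → X} (ha : ContDiff ℝ ∞ a) (v : Pl) :
    D_Nem0 v (fun p => T (a p)) = fun p => T (D_Nem0 v a p) := funext fun p =>
  congrArg (fun T : Pl →L[ℝ] Y => T v)
    (T.hasFDerivAt.comp p (ha.differentiable (by simp) p).hasFDerivAt).fderiv

theorem add_Nem0 {a b : Pl → X} (ha : ContDiff ℝ ∞ a) (hb : ContDiff ℝ ∞ b) (v : Pl) :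
    D_Nem0 v (fun p => a p + b p) = fun p => D_Nem0 v a p + D_Nem0 v b p := funext fun p =>
  congrArg (fun T : Pl →L[ℝ] X => T v) ((ha.differentiable (by simp) p).hasFDerivAt.add
    (hb.differentiable (by simp) p).hasFDerivAt).fderiv

theorem const_Nem0 (x : X) (v : Pl) : D_Nem0 v (fun _ => x) = fun _ => 0 := funext fun p => by
  simp [D_Nem0]

theorem comp2_Nem0 {G : X → Y} (hG : ContDiff ℝ ∞ G) {a : Pl → X} (ha : ContDiff ℝ ∞ a)
    (v w p : Pl) : D_Nem0 w (D_Nem0 v fun p => G (a p)) p =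
      fderiv ℝ (fderiv ℝ G) (a p) (D_Nem0 w a p) (D_Nem0 v a p) +
        fderiv ℝ G (a p) (D_Nem0 w (D_Nem0 v a) p) := by
  have hG' : ContDiff ℝ ∞ (fderiv ℝ G) := hG.fderiv_right (m := ∞) le_rfl
  have h1 := ((hG'.differentiable (by simp) (a p)).hasFDerivAt.comp p
    (ha.differentiable (by simp) p).hasFDerivAt).clm_apply
    ((smooth_Nem0 v ha).differentiable (by simp) p).hasFDerivAt
  rw [comp_Nem0 hG ha]
  refine (congrArg (fun T : Pl →L[ℝ] Y => T w) h1.fderiv).trans ?_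
  exact add_comm _ _

theorem lip_Nem0 [FiniteDimensional ℝ X] {G : X → Y} (hG : ContDiff ℝ ∞ G) (R : ℝ) :
    ∃ L, 0 ≤ L ∧ ∀ x y, ‖x‖ ≤ R → ‖y‖ ≤ R → ‖G x‖ ≤ L ∧ ‖G x - G y‖ ≤ L * ‖x - y‖ := by
  have := FiniteDimensional.proper_real X
  have hK := isCompact_closedBall (0 : X) R
  obtain ⟨K, hL⟩ := hG.contDiffOn.exists_lipschitzOnWith (by simp) (convex_closedBall _ _) hK
  obtain ⟨B, hB⟩ := hK.exists_bound_of_continuousOn hG.continuous.continuousOn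
  refine ⟨max K B, le_max_of_le_left K.2, fun x y hx hy =>
    ⟨(hB x (mem_closedBall_zero_iff.2 hx)).trans (le_max_right _ _), ?_⟩⟩
  have := hL.dist_le_mul x (mem_closedBall_zero_iff.2 hx) y (mem_closedBall_zero_iff.2 hy)
  rw [dist_eq_norm, dist_eq_norm] at this
  exact this.trans (mul_le_mul_of_nonneg_right (le_max_left _ _) (norm_nonneg _))

theorem alg1_Nem0 {P Q : X →L[ℝ] Y} {b e : X} {L M d : ℝ} (hL : 0 ≤ L) (hM : 1 ≤ M)
    (h1 : ‖P‖ ≤ L) (h2 : ‖P - Q‖ ≤ L * d) (hb : ‖b‖ ≤ M) (h0 : Q b = 0) :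
    ‖P (b + e)‖ ≤ L * M * (d + ‖e‖) := by
  have e1 : P (b + e) = (P - Q) b + P e := by
    rw [sub_apply, h0, sub_zero, map_add]
  have k1 := (P - Q).le_of_opNorm_le_of_le h2 hb
  have k2 := P.le_of_opNorm_le h1 e
  have k3 : L * ‖e‖ ≤ L * M * ‖e‖ :=
    mul_le_mul_of_nonneg_right (le_mul_of_one_le_right hL hM) (norm_nonneg _)
  rw [e1]
  refine (norm_add_le _ _).trans ?_
  nlinarith

theorem alg2_Nem0 {P Q : X →L[ℝ] Y} {S T : X →L[ℝ] X →L[ℝ] Y} {b b' b'' e e' e'' : X} {L M d : ℝ}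
    (hL : 0 ≤ L) (hM : 1 ≤ M) (hd : 0 ≤ d) (h1 : ‖P‖ ≤ L) (h2 : ‖P - Q‖ ≤ L * d) (h3 : ‖S‖ ≤ L)
    (h4 : ‖S - T‖ ≤ L * d) (hb : ‖b‖ ≤ M) (hb' : ‖b'‖ ≤ M) (hb'' : ‖b''‖ ≤ M)
    (h0 : T b b' + Q b'' = 0) : ‖S (b + e) (b' + e') + P (b'' + e'')‖ ≤
      2 * L * M ^ 2 * (d + ‖e‖ + ‖e'‖ + ‖e‖ * ‖e'‖ + ‖e''‖) := by
  have e1 : S (b + e) (b' + e') + P (b'' + e'') =
      (S - T) b b' + S e b' + S b e' + S e e' + (P - Q) b'' + P e'' + (T b b' + Q b'') := by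
    simp only [map_add, sub_apply, add_apply]
    abel
  have k1 := ((S - T) b).le_of_opNorm_le_of_le ((S - T).le_of_opNorm_le_of_le h4 hb) hb'
  have k2 := (S e).le_of_opNorm_le_of_le (S.le_of_opNorm_le h3 e) hb'
  have k3 := (S b).le_of_opNorm_le (S.le_of_opNorm_le_of_le h3 hb) e'
  have k4 := (S e).le_of_opNorm_le (S.le_of_opNorm_le h3 e) e'
  have k5 := (P - Q).le_of_opNorm_le_of_le h2 hb''
  have k6 := P.le_of_opNorm_le h1 e''
  have m1 : M ≤ M ^ 2 := by nlinarith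
  have m2 : L * M ≤ L * M ^ 2 := mul_le_mul_of_nonneg_left m1 hL
  have m3 : L ≤ L * M := le_mul_of_one_le_right hL hM
  have n1 := norm_nonneg e
  have n2 := norm_nonneg e'
  have n3 := norm_nonneg e''
  have n4 := mul_nonneg n1 n2
  rw [e1, h0, add_zero]
  refine (norm_add_le_of_le (norm_add_le_of_le (norm_add_le_of_le (norm_add_le_of_le
    (norm_add_le_of_le k1 k2) k3) k4) k5) k6).trans ?_
  have t1 := mul_le_mul_of_nonneg_right m2 hd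
  have t2 := mul_le_mul_of_nonneg_right m2 n1
  have t3 := mul_le_mul_of_nonneg_right m2 n2
  have t4 := mul_le_mul_of_nonneg_right (m3.trans m2) n4
  have t5 := mul_le_mul_of_nonneg_right (m3.trans m2) n3
  have m4 : 0 ≤ L * M ^ 2 := hL.trans (m3.trans m2)
  have u2 := mul_nonneg m4 n1
  have u3 := mul_nonneg m4 n2
  have u4 := mul_nonneg m4 n4
  have u5 := mul_nonneg m4 n3
  nlinarith

theorem int_Nem0 {h : Pl → Y} {φ ψ χ ζ : Pl → X} (hφ : φ ∈ Dsub X) (hψ : ψ ∈ Dsub X)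
    (hχ : χ ∈ Dsub X) {N : ℝ≥0∞} (nφ : nrm 0 φ univ ≤ N) (nψ : nrm 1 ψ univ ≤ N)
    (nχ : nrm 1 χ univ ≤ N) (nζ : nrm 0 ζ univ ≤ N) {K : ℝ}
    (hb : ∀ p : Pl, p.2 ∈ Icc (0 : ℝ) 1 →
      ‖h p‖ ≤ K * (‖φ p‖ + ‖ψ p‖ + ‖χ p‖ + ‖ψ p‖ * ‖χ p‖ + ‖ζ p‖)) :
    nrm 0 h univ ≤ ENNReal.ofReal (5 * K ^ 2) * (N + N + N + 2 * N * N + N) := by
  have h1 : ∀ p ∈ (univ ×ˢ Icc 0 1 : Set Pl), ‖h p‖ₑ ^ 2 ≤ ENNReal.ofReal (5 * K ^ 2) *
      (‖φ p‖ₑ ^ 2 + ‖ψ p‖ₑ ^ 2 + ‖χ p‖ₑ ^ 2 + ‖ψ p‖ₑ ^ 2 * ‖χ p‖ₑ ^ 2 + ‖ζ p‖ₑ ^ 2) := by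
    intro p hp
    have h2 := pow_le_pow_left₀ (norm_nonneg _) (hb p hp.2) 2
    simp only [← ofReal_norm]
    rw [← ENNReal.ofReal_pow (norm_nonneg _), ← ENNReal.ofReal_pow (norm_nonneg _),
      ← ENNReal.ofReal_pow (norm_nonneg _), ← ENNReal.ofReal_pow (norm_nonneg _),
      ← ENNReal.ofReal_pow (norm_nonneg _), ← ENNReal.ofReal_mul (by positivity),
      ← ENNReal.ofReal_add (by positivity) (by positivity),
      ← ENNReal.ofReal_add (by positivity) (by positivity),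
      ← ENNReal.ofReal_add (by positivity) (by positivity),
      ← ENNReal.ofReal_add (by positivity) (by positivity), ← ENNReal.ofReal_mul (by positivity)]
    refine ENNReal.ofReal_le_ofReal (h2.trans ?_)
    rw [mul_pow, mul_comm 5, mul_assoc, ← mul_pow ‖ψ p‖]
    refine mul_le_mul_of_nonneg_left ?_ (sq_nonneg K)
    generalize ‖ψ p‖ * ‖χ p‖ = x4
    generalize ‖φ p‖ = x1
    generalize ‖ψ p‖ = x2
    generalize ‖χ p‖ = x3
    generalize ‖ζ p‖ = x5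
    nlinarith [sq_nonneg (x1 - x2), sq_nonneg (x1 - x3), sq_nonneg (x1 - x4), sq_nonneg (x1 - x5),
      sq_nonneg (x2 - x3), sq_nonneg (x2 - x4), sq_nonneg (x2 - x5), sq_nonneg (x3 - x4),
      sq_nonneg (x3 - x5), sq_nonneg (x4 - x5)]
  have m1 := meas_L4 hφ.1
  have m2 := meas_L4 hψ.1
  have m3 := meas_L4 hχ.1
  refine (setLIntegral_mono' (MeasurableSet.univ.prod measurableSet_Icc) h1).trans ?_
  rw [lintegral_const_mul' _ _ ENNReal.ofReal_ne_top,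
    lintegral_add_left (((m1.fun_add m2).fun_add m3).fun_add (m2.fun_mul m3)),
    lintegral_add_left ((m1.fun_add m2).fun_add m3), lintegral_add_left (m1.fun_add m2),
    lintegral_add_left m1]
  refine mul_le_mul_right (add_le_add (add_le_add (add_le_add (add_le_add nφ ?_) ?_) ?_) nζ) _
  · exact (nrm_mono ψ zero_le_one subset_rfl).trans nψ
  · exact (nrm_mono χ zero_le_one subset_rfl).trans nχ
  · exact (bil_L4 hψ hχ).trans (mul_le_mul' (mul_le_mul_right nψ _) nχ)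

theorem main_Nem0 [FiniteDimensional ℝ X] {G : X → Y} (hG : ContDiff ℝ ∞ G) {M : ℝ} (hM : 1 ≤ M) :
    ∃ K, 0 ≤ K ∧ ∀ b e : Pl → X, ContDiff ℝ ∞ b → ContDiff ℝ ∞ e → (∀ p, G (b p) = 0) →
      ∀ p, ‖b p‖ ≤ M → ‖b p + e p‖ ≤ M → ‖G (b p + e p)‖ ≤ K * ‖e p‖ ∧
        ∀ v, ‖D_Nem0 v b p‖ ≤ M →
          ‖D_Nem0 v (fun p => G (b p + e p)) p‖ ≤ K * (‖e p‖ + ‖D_Nem0 v e p‖) ∧
          ∀ w, ‖D_Nem0 w b p‖ ≤ M → ‖D_Nem0 w (D_Nem0 v b) p‖ ≤ M →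
            ‖D_Nem0 w (D_Nem0 v fun p => G (b p + e p)) p‖ ≤
              K * (‖e p‖ + ‖D_Nem0 w e p‖ + ‖D_Nem0 v e p‖ + ‖D_Nem0 w e p‖ * ‖D_Nem0 v e p‖ +
                ‖D_Nem0 w (D_Nem0 v e) p‖) := by
  have hG1 : ContDiff ℝ ∞ (fderiv ℝ G) := hG.fderiv_right (m := ∞) le_rfl
  have hG2 : ContDiff ℝ ∞ (fderiv ℝ (fderiv ℝ G)) := hG1.fderiv_right (m := ∞) le_rfl
  obtain ⟨L0, p0, k0⟩ := lip_Nem0 hG M
  obtain ⟨L1, -, k1⟩ := lip_Nem0 hG1 M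
  obtain ⟨L2, -, k2⟩ := lip_Nem0 hG2 M
  set L := max L0 (max L1 L2) with hL
  have q0 : L0 ≤ L := le_max_left _ _
  have q1 : L1 ≤ L := le_max_of_le_right (le_max_left _ _)
  have q2 : L2 ≤ L := le_max_of_le_right (le_max_right _ _)
  have pL : 0 ≤ L := p0.trans q0
  have m1 : M ≤ M ^ 2 := by nlinarith
  have m2 : L * M ≤ L * M ^ 2 := mul_le_mul_of_nonneg_left m1 pL
  have m3 : L ≤ L * M := le_mul_of_one_le_right pL hM
  refine ⟨2 * L * M ^ 2, by positivity, fun b e hb he h0 p n1 n2 => ?_⟩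
  have z0 : (fun p => G (b p)) = fun _ => 0 := funext h0
  have j0 := (k0 _ _ n2 n1).2
  have j1 := k1 _ _ n2 n1
  have j2 := k2 _ _ n2 n1
  rw [add_sub_cancel_left] at j0 j1 j2
  have nn := norm_nonneg (e p)
  have i1 := j1.2.trans (mul_le_mul_of_nonneg_right q1 nn)
  have i2 := j2.2.trans (mul_le_mul_of_nonneg_right q2 nn)
  refine ⟨?_, fun v hv => ⟨?_, fun w hw hwv => ?_⟩⟩
  · rw [h0, sub_zero] at j0
    exact j0.trans (mul_le_mul_of_nonneg_right (by linarith) nn)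
  · have z1 := congrFun (comp_Nem0 hG hb v) p
    rw [z0, const_Nem0] at z1
    rw [comp_Nem0 hG (hb.add he), add_Nem0 hb he]
    refine (alg1_Nem0 pL hM (j1.1.trans q1) i1 hv z1.symm).trans ?_
    exact mul_le_mul_of_nonneg_right (by linarith) (by positivity)
  · have z2 := comp2_Nem0 hG hb v w p
    rw [z0, const_Nem0, const_Nem0] at z2
    rw [comp2_Nem0 hG (hb.add he), add_Nem0 hb he, add_Nem0 hb he,
      add_Nem0 (smooth_Nem0 v hb) (smooth_Nem0 v he)]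
    exact alg2_Nem0 pL hM nn (j1.1.trans q1) i1 (j2.1.trans q2) i2 hw hv hwv z2.symm

end aux

variable {U₁ U₂ C : Type} [NormedAddCommGroup U₁] [InnerProductSpace ℝ U₁] [FiniteDimensional ℝ U₁]
  [NormedAddCommGroup U₂] [InnerProductSpace ℝ U₂] [FiniteDimensional ℝ U₂]
  [NormedAddCommGroup C] [NormedSpace ℝ C] [FiniteDimensional ℝ C] {f : ℝ → C × U₁ → U₂}

theorem nem_mem (hf : SP f) (h0 : ∀ t c, f t (c, 0) = 0) {c : Pl → C} (hc : ContDiff ℝ ∞ c)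
    (pc : Per c) {φ : Pl → U₁} (hφ : φ ∈ Dsub U₁) : (fun p : Pl => f p.2 (c p, φ p)) ∈ Dsub U₂ := by
  obtain ⟨h1, h2, R, h3⟩ := hφ
  refine ⟨hf.1.comp (contDiff_snd.prodMk (hc.prodMk h1)), fun s t => ?_, R, fun p hp => ?_⟩
  · simp only [pc s t, h2 s t, hf.2 t]
  · simp only [h3 p hp, h0]

theorem nem_bound (hf : SP f) (h0 : ∀ t c, f t (c, 0) = 0) (A : ℝ) : ∃ A', ∀ (c : Cb C)
    (φ : Dsub U₁), ‖c‖ ≤ A → ‖co 2 φ‖ ≤ A → ‖co 2 ⟨_, nem_mem hf h0 c.bdd.1 c.per φ.2⟩‖ ≤ A' := by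
  obtain ⟨c0, hc0, hs⟩ := sob (U := U₁)
  set M := max 1 (max A (c0 * A)) with hM
  have M1 : 1 ≤ M := le_max_left _ _
  have M2 : A ≤ M := le_max_of_le_right (le_max_left _ _)
  have M3 : c0 * A ≤ M := le_max_of_le_right (le_max_right _ _)
  obtain ⟨K, hK, hm⟩ := main_Nem0 hf.1 M1
  set N := ENNReal.ofReal (A ^ 2) with hN
  set B := ENNReal.ofReal (5 * K ^ 2) * (N + N + N + 2 * N * N + N) with hB
  have hN' : N ≠ ⊤ := ENNReal.ofReal_ne_top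
  have hB' : B + (B + B + B) + (B + B + B) ≠ ⊤ := by
    have : B ≠ ⊤ := by
      rw [hB]
      finiteness
    finiteness
  refine ⟨√(B + (B + B + B) + (B + B + B)).toReal, fun c φ hc hφ => ?_⟩
  refine Real.le_sqrt_of_sq_le ((ENNReal.ofReal_le_iff_le_toReal hB').1 ?_)
  rw [← nrm_co]
  let ι : U₁ →L[ℝ] ℝ × C × U₁ :=
    (ContinuousLinearMap.inr ℝ ℝ (C × U₁)).comp (ContinuousLinearMap.inr ℝ C U₁)
  let κ : C →L[ℝ] ℝ × C × U₁ :=
    (ContinuousLinearMap.inr ℝ ℝ (C × U₁)).comp (ContinuousLinearMap.inl ℝ C U₁)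
  let τ : Pl →L[ℝ] ℝ × C × U₁ :=
    (ContinuousLinearMap.inl ℝ ℝ (C × U₁)).comp (ContinuousLinearMap.snd ℝ ℝ ℝ)
  have nι : ∀ u, ‖ι u‖ = ‖u‖ := fun u => by simp [ι]
  have nκ : ∀ u, ‖κ u‖ = ‖u‖ := fun u => by simp [κ]
  have nτ : ∀ (v : Pl) (u : C), ‖v.2‖ ≤ 1 → ‖u‖ ≤ A → ‖τ v + κ u‖ ≤ M := fun v u h1 h2 => by
    have : τ v + κ u = (v.2, u, 0) := by simp [τ, κ]
    rw [this, Prod.norm_mk, Prod.norm_mk, norm_zero]
    exact max_le (h1.trans M1) (max_le (h2.trans M2) (zero_le_one.trans M1))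
  have sc := c.bdd.1
  have sφ := φ.2.1
  have sκ : ∀ {u : Pl → C}, ContDiff ℝ ∞ u → ContDiff ℝ ∞ fun p => κ (u p) := fun h =>
    κ.contDiff.comp h
  have d1 : ∀ v, D_Nem0 v (fun p => τ p + κ (Cb.fn c p)) =
      fun p => τ v + κ (D_Nem0 v (Cb.fn c) p) := fun v => by
    rw [add_Nem0 τ.contDiff (sκ sc), clm_Nem0 κ sc]
    funext p
    rw [D_Nem0, τ.fderiv]
  have d2 : ∀ v w, D_Nem0 w (D_Nem0 v fun p => τ p + κ (Cb.fn c p)) =
      fun p => κ (D_Nem0 w (D_Nem0 v (Cb.fn c)) p) := fun v w => by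
    rw [d1, add_Nem0 contDiff_const (sκ (smooth_Nem0 v sc)), const_Nem0,
      clm_Nem0 κ (smooth_Nem0 v sc)]
    funext p
    rw [zero_add]
  have eg : (fun p : Pl => f p.2 (Cb.fn c p, φ.1 p)) = fun p : Pl =>
      f (τ p + κ (Cb.fn c p) + ι (φ.1 p)).1 (τ p + κ (Cb.fn c p) + ι (φ.1 p)).2 := by
    funext p
    simp [τ, κ, ι]
  have cn := c.cn
  have key := fun (p : Pl) (hp : p.2 ∈ Icc (0 : ℝ) 1) =>
    hm (fun p => τ p + κ (Cb.fn c p)) (fun p => ι (φ.1 p)) (τ.contDiff.add (sκ sc))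
      (ι.contDiff.comp sφ) (fun p => by simp [τ, κ, h0]) p
      (nτ p _ (abs_le.2 ⟨by linarith [hp.1], hp.2⟩) ((cn.1 p trivial).trans hc)) (by
        have e : τ p + κ (Cb.fn c p) + ι (φ.1 p) = (p.2, Cb.fn c p, φ.1 p) := by simp [τ, κ, ι]
        have h1 := (hs (co 2 φ) p p).1
        rw [fn_co] at h1
        rw [e, Prod.norm_mk, Prod.norm_mk]
        exact max_le ((abs_le.2 ⟨by linarith [hp.1], hp.2⟩).trans M1)
          (max_le (((cn.1 p trivial).trans hc).trans M2)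
            ((h1.trans (mul_le_mul_of_nonneg_left hφ hc0.le)).trans M3)))
  simp only [← eg, d2, nι, nκ, clm_Nem0 ι sφ, clm_Nem0 ι (smooth_Nem0 _ sφ)] at key
  simp only [d1] at key
  have n2 : nrm 2 φ.1 univ ≤ N := by
    rw [nrm_co]
    exact ENNReal.ofReal_le_ofReal (pow_le_pow_left₀ (norm_nonneg _) hφ 2)
  have n0 : nrm 0 φ.1 univ ≤ N := (nrm_mono _ zero_le_two subset_rfl).trans n2
  have ns : nrm 1 (ds φ.1) univ ≤ N := (le_add_self.trans le_self_add).trans n2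
  have nt : nrm 1 (dt φ.1) univ ≤ N := le_add_self.trans n2
  have ms := ds_mem φ.2
  have mt := dt_mem φ.2
  have bs : ∀ p, ‖τ (1, 0) + κ (D_Nem0 (1, 0) (Cb.fn c) p)‖ ≤ M := fun p =>
    nτ _ _ (by simp) ((cn.2.1.1 p trivial).trans hc)
  have bt : ∀ p, ‖τ (0, 1) + κ (D_Nem0 (0, 1) (Cb.fn c) p)‖ ≤ M := fun p =>
    nτ _ _ (by simp) ((cn.2.2.1 p trivial).trans hc)
  refine add_le_add (add_le_add ?_ (add_le_add (add_le_add ?_ ?_) ?_))
    (add_le_add (add_le_add ?_ ?_) ?_)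
  · refine int_Nem0 (K := K) φ.2 ms ms n0 ns ns n0 fun p hp =>
      ((congrArg norm (congrFun eg p)).trans_le (key p hp).1).trans
        (mul_le_mul_of_nonneg_left ?_ hK)
    have := norm_nonneg (φ.1 p)
    have := norm_nonneg (ds φ.1 p)
    have := mul_self_nonneg ‖ds φ.1 p‖
    linarith
  · exact int_Nem0 φ.2 ms ms n0 ns ns n0 fun p hp => ((key p hp).2 _ (bs p)).1.trans
      (mul_le_mul_of_nonneg_left (by
        have := norm_nonneg (φ.1 p)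
        have := norm_nonneg (ds φ.1 p)
        change ‖φ.1 p‖ + ‖ds φ.1 p‖ ≤ _
        nlinarith) hK)
  · exact int_Nem0 φ.2 ms ms n0 ns ns ((le_add_self.trans le_self_add).trans ns) fun p hp =>
      ((key p hp).2 _ (bs p)).2 _ (bs p) (((cn.2.1.2.1 p trivial).trans hc).trans M2)
  · exact int_Nem0 φ.2 mt ms n0 nt ns (le_add_self.trans ns) fun p hp =>
      ((key p hp).2 _ (bs p)).2 _ (bt p) (((cn.2.1.2.2 p trivial).trans hc).trans M2)
  · exact int_Nem0 φ.2 mt mt n0 nt nt n0 fun p hp => ((key p hp).2 _ (bt p)).1.trans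
      (mul_le_mul_of_nonneg_left (by
        have := norm_nonneg (φ.1 p)
        have := norm_nonneg (dt φ.1 p)
        change ‖φ.1 p‖ + ‖dt φ.1 p‖ ≤ _
        nlinarith) hK)
  · exact int_Nem0 φ.2 ms mt n0 ns nt ((le_add_self.trans le_self_add).trans nt) fun p hp =>
      ((key p hp).2 _ (bt p)).2 _ (bs p) (((cn.2.2.2.1 p trivial).trans hc).trans M2)
  · exact int_Nem0 φ.2 mt mt n0 nt nt (le_add_self.trans nt) fun p hp =>
      ((key p hp).2 _ (bt p)).2 _ (bt p) (((cn.2.2.2.2 p trivial).trans hc).trans M2)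

end

end Pool.Agent.P.MP_de3acd_gt.FH
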