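import Pool.Agent.P.MP_de3acd_gt.FH.Sob
import Pool.Agent.P.MP_de3acd_gt.FH.L4
import Pool.Agent.P.MP_de3acd_gt.FH.Mul

/-! W 2 acts on W 1 and W 2 by multiplication.
Sketch: for test functions c, φ: nrm k (B c φ) ≤ C ‖B‖^2 nrm 2 c * nrm k φ for k = 1, 2. Expand the derivatives;
a term with an underived factor in W 2 is bounded by the sup norm (sob, fn_co, nrm_bil at k = 0), a term with a factor
in W 1 times a factor in W 1 by l4_bil. Then extend twice with exists_ext (first in φ, then in c with values in the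
complete space of operators). Identities by density (W.induction twice). -/

open Set Filter Topology MeasureTheory
open scoped ContDiff NNReal ENNReal RealInnerProductSpace

namespace Pool.Agent.P.MP_de3acd_gt.FH

noncomputable section

variable {U U₁ U₂ : Type} [NormedAddCommGroup U] [InnerProductSpace ℝ U] [NormedAddCommGroup U₁]
  [InnerProductSpace ℝ U₁] [NormedAddCommGroup U₂] [InnerProductSpace ℝ U₂]
variable {F F₁ F₂ : Type} [NormedAddCommGroup F] [NormedSpace ℝ F] [NormedAddCommGroup F₁]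
  [NormedSpace ℝ F₁] [NormedAddCommGroup F₂] [NormedSpace ℝ F₂]

/-- The product of two test functions. -/
def bl_Prd (B : U →L[ℝ] U₁ →L[ℝ] U₂) (c : Dsub U) (φ : Dsub U₁) : Dsub U₂ :=
  ⟨fun p => B (c.1 p) (φ.1 p), bil_mem c.2.1 c.2.2.1 φ.2 B⟩

/-- Product estimates. -/
def Est_Prd (B : U →L[ℝ] U₁ →L[ℝ] U₂) (i j k : ℕ) (A : ℝ) : Prop :=
  ∀ (c : Dsub U) (φ : Dsub U₁), ‖co k (bl_Prd B c φ)‖ ≤ A * ‖B‖ * ‖co i c‖ * ‖co j φ‖

/-- Test functions as bounded functions. -/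
def dC_Prd : Dsub F →ₗ[ℝ] Cb F where
  toFun c := Cb.mk c.1 (bdd_of_mem c.2) c.2.2.1
  map_add' _ _ := rfl
  map_smul' _ _ := rfl

theorem mul_dC_Prd {k : ℕ} (hk : k ≤ 2) (B : U →L[ℝ] U₁ →L[ℝ] U₂) (c : Dsub U) (φ : Dsub U₁) :
    mul k B (dC_Prd c) (co k φ) = co k (bl_Prd B c φ) := mul_co hk B _ φ

theorem co_le_Prd (k : ℕ) (φ : Dsub U) : ‖co k φ‖ ≤ ‖co (k + 1) φ‖ := by
  rw [← inc_co]; exact norm_inc_le k _

theorem ds_le_Prd (k : ℕ) (φ : Dsub U) : ‖co k ⟨ds φ.1, ds_mem φ.2⟩‖ ≤ ‖co (k + 1) φ‖ := by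
  rw [← dS_co]; exact norm_dS_le k _

theorem dt_le_Prd (k : ℕ) (φ : Dsub U) : ‖co k ⟨dt φ.1, dt_mem φ.2⟩‖ ≤ ‖co (k + 1) φ‖ := by
  rw [← dT_co]; exact norm_dT_le k _

theorem succ_le_Prd (k : ℕ) (φ : Dsub U) : ‖co (k + 1) φ‖ ≤
    ‖co 0 φ‖ + ‖co k ⟨ds φ.1, ds_mem φ.2⟩‖ + ‖co k ⟨dt φ.1, dt_mem φ.2⟩‖ := by
  have h := norm_sq_succ k (co (k + 1) φ)
  rw [to0_co, dS_co, dT_co] at h
  have a := norm_nonneg (co 0 φ)
  have b := norm_nonneg (co k (⟨ds φ.1, ds_mem φ.2⟩ : Dsub U))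
  have c := norm_nonneg (co k (⟨dt φ.1, dt_mem φ.2⟩ : Dsub U))
  refine le_of_sq_le_sq ?_ (by positivity)
  nlinarith only [h, mul_nonneg a b, mul_nonneg a c, mul_nonneg b c]

theorem Est_Prd.mono {B : U →L[ℝ] U₁ →L[ℝ] U₂} {i j k : ℕ} {A A' : ℝ} (h : Est_Prd B i j k A)
    (hA : A ≤ A') : Est_Prd B i j k A' := fun c φ => (h c φ).trans (by gcongr)

theorem Est_Prd.left {B : U →L[ℝ] U₁ →L[ℝ] U₂} {i j k : ℕ} {A : ℝ} (h : Est_Prd B i j k A)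
    (hA : 0 ≤ A) : Est_Prd B (i + 1) j k A := fun c φ =>
  (h c φ).trans (by gcongr; exact co_le_Prd i c)

theorem Est_Prd.right {B : U →L[ℝ] U₁ →L[ℝ] U₂} {i j k : ℕ} {A : ℝ} (h : Est_Prd B i j k A)
    (hA : 0 ≤ A) : Est_Prd B i (j + 1) k A := fun c φ =>
  (h c φ).trans (by gcongr; exact co_le_Prd j φ)

theorem Est_Prd.step {B : U →L[ℝ] U₁ →L[ℝ] U₂} {i j k : ℕ} {A : ℝ} (hA : 0 ≤ A)
    (h0 : Est_Prd B (i + 1) (j + 1) 0 A) (h1 : Est_Prd B i (j + 1) k A)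
    (h2 : Est_Prd B (i + 1) j k A) : Est_Prd B (i + 1) (j + 1) (k + 1) (5 * A) := fun c φ => by
  have dc : ∀ p, DifferentiableAt ℝ c.1 p := fun p => c.2.1.differentiable (by simp) p
  have dφ : ∀ p, DifferentiableAt ℝ φ.1 p := fun p => φ.2.1.differentiable (by simp) p
  have e1 : (⟨ds (bl_Prd B c φ).1, ds_mem (bl_Prd B c φ).2⟩ : Dsub U₂) =
      bl_Prd B ⟨ds c.1, ds_mem c.2⟩ φ + bl_Prd B c ⟨ds φ.1, ds_mem φ.2⟩ :=
    Subtype.ext (funext fun p => ds_bil B (dc p) (dφ p))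
  have e2 : (⟨dt (bl_Prd B c φ).1, dt_mem (bl_Prd B c φ).2⟩ : Dsub U₂) =
      bl_Prd B ⟨dt c.1, dt_mem c.2⟩ φ + bl_Prd B c ⟨dt φ.1, dt_mem φ.2⟩ :=
    Subtype.ext (funext fun p => dt_bil B (dc p) (dφ p))
  have s := succ_le_Prd k (bl_Prd B c φ)
  rw [e1, e2, map_add, map_add] at s
  have a1 : ‖co k (bl_Prd B ⟨ds c.1, ds_mem c.2⟩ φ)‖ ≤
      A * ‖B‖ * ‖co (i + 1) c‖ * ‖co (j + 1) φ‖ := (h1 _ φ).trans (by gcongr; exact ds_le_Prd i c)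
  have a2 : ‖co k (bl_Prd B c ⟨ds φ.1, ds_mem φ.2⟩)‖ ≤
      A * ‖B‖ * ‖co (i + 1) c‖ * ‖co (j + 1) φ‖ := (h2 c _).trans (by gcongr; exact ds_le_Prd j φ)
  have a3 : ‖co k (bl_Prd B ⟨dt c.1, dt_mem c.2⟩ φ)‖ ≤
      A * ‖B‖ * ‖co (i + 1) c‖ * ‖co (j + 1) φ‖ := (h1 _ φ).trans (by gcongr; exact dt_le_Prd i c)
  have a4 : ‖co k (bl_Prd B c ⟨dt φ.1, dt_mem φ.2⟩)‖ ≤
      A * ‖B‖ * ‖co (i + 1) c‖ * ‖co (j + 1) φ‖ := (h2 c _).trans (by gcongr; exact dt_le_Prd j φ)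
  have b1 := norm_add_le (co k (bl_Prd B ⟨ds c.1, ds_mem c.2⟩ φ))
    (co k (bl_Prd B c ⟨ds φ.1, ds_mem φ.2⟩))
  have b2 := norm_add_le (co k (bl_Prd B ⟨dt c.1, dt_mem c.2⟩ φ))
    (co k (bl_Prd B c ⟨dt φ.1, dt_mem φ.2⟩))
  linarith only [s, h0 c φ, a1, a2, a3, a4, b1, b2]

theorem est11_Prd : ∃ A, 0 < A ∧ ∀ B : U →L[ℝ] U₁ →L[ℝ] U₂, Est_Prd B 1 1 0 A := by
  obtain ⟨c4, h⟩ := l4_bil (U := U) (U₁ := U₁) (U₂ := U₂)
  refine ⟨c4 + 1, by positivity, fun B c φ => ?_⟩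
  have h1 := h B c.1 c.2 φ.1 φ.2
  have h2 := nrm_co 0 (bl_Prd B c φ)
  rw [nrm_co, nrm_co, ← ENNReal.ofReal_coe_nnreal, ← ofReal_norm,
    ← ENNReal.ofReal_pow (norm_nonneg _), ← ENNReal.ofReal_mul (by positivity),
    ← ENNReal.ofReal_mul (by positivity), ← ENNReal.ofReal_mul (by positivity)] at h1
  have h3 := (ENNReal.ofReal_le_ofReal_iff (by positivity)).1 (h2.ge.trans h1)
  refine le_of_sq_le_sq (h3.trans ?_) (by positivity)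
  rw [mul_pow, mul_pow, mul_pow]
  gcongr
  nlinarith only [c4.coe_nonneg]

theorem est20_Prd [CompleteSpace U] :
    ∃ A, 0 < A ∧ ∀ B : U →L[ℝ] U₁ →L[ℝ] U₂, Est_Prd B 2 0 0 A := by
  obtain ⟨c0, hc, h⟩ := sob (U := U)
  refine ⟨9 * c0, by positivity, fun B c φ => ?_⟩
  rw [← mul_dC_Prd (by norm_num)]
  refine (norm_mul_le (by norm_num) B (dC_Prd c) (a := c0 * ‖co 2 c‖) (fun p _ => ?_) _).trans
    (le_of_eq (by ring))
  have h1 := (h (co 2 c) p p).1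
  rwa [fn_co] at h1

theorem Est_Prd.flip {B : U →L[ℝ] U₁ →L[ℝ] U₂} {i j k : ℕ} {A : ℝ} (h : Est_Prd B.flip j i k A) :
    Est_Prd B i j k A := fun c φ => by
  have h1 := h φ c
  rw [ContinuousLinearMap.opNorm_flip, mul_right_comm] at h1
  exact h1

variable [CompleteSpace U] [CompleteSpace U₁] [CompleteSpace U₂]

omit [CompleteSpace U₂] in
theorem est_Prd : ∃ A, 0 < A ∧ ∀ k, k = 1 ∨ k = 2 → ∀ B : U →L[ℝ] U₁ →L[ℝ] U₂,
    Est_Prd B 2 k k A := by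
  obtain ⟨a, ha, h11⟩ := est11_Prd (U := U) (U₁ := U₁) (U₂ := U₂)
  obtain ⟨b, hb, h20⟩ := est20_Prd (U := U) (U₁ := U₁) (U₂ := U₂)
  obtain ⟨c, hc, h02⟩ := est20_Prd (U := U₁) (U₁ := U) (U₂ := U₂)
  have hA : 0 ≤ a + b + c := by positivity
  refine ⟨5 * (5 * (a + b + c)), by positivity, fun k hk B => ?_⟩
  have e11 : Est_Prd B 1 1 0 (a + b + c) := (h11 B).mono (by linarith)
  have e20 : Est_Prd B 2 0 0 (a + b + c) := (h20 B).mono (by linarith)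
  have e02 : Est_Prd B 0 2 0 (a + b + c) := (h02 B.flip).flip.mono (by linarith)
  have f21 : Est_Prd B 2 1 1 (5 * (a + b + c)) := .step hA (e11.left hA) e11 e20
  have f12 : Est_Prd B 1 2 1 (5 * (a + b + c)) := .step hA (e11.right hA) e02 e11
  rcases hk with rfl | rfl
  · exact f21.mono (by linarith)
  · exact .step (by linarith) (((e11.left hA).right hA).mono (by linarith)) f12 f21

omit [CompleteSpace U₂] in
theorem spec_Prd : ∃ A, 0 < A ∧ ∀ k, k = 1 ∨ k = 2 → ∀ B : U →L[ℝ] U₁ →L[ℝ] U₂,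
    (∀ c : Dsub U, prd k B (co 2 c) = mul k B (dC_Prd c)) ∧ ‖prd k B‖ ≤ A * ‖B‖ := by
  obtain ⟨A, hA, h⟩ := est_Prd (U := U) (U₁ := U₁) (U₂ := U₂)
  refine ⟨A, hA, fun k hk B => ?_⟩
  have hk2 : k ≤ 2 := by omega
  obtain ⟨T, hT, hn⟩ := exists_ext 2 ((mul k B).toLinearMap ∘ₗ dC_Prd) (C := A * ‖B‖)
    (by positivity) fun c => ContinuousLinearMap.opNorm_le_bound _ (by positivity) fun ξ => by
      refine W.induction (P := fun ξ => ‖mul k B (dC_Prd c) ξ‖ ≤ A * ‖B‖ * ‖co 2 c‖ * ‖ξ‖)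
        (isClosed_le (by fun_prop) (by fun_prop)) (fun φ => ?_) ξ
      rw [mul_dC_Prd hk2]
      exact h k hk B c φ
  have hs : ∀ (c : Dsub U) (φ : Dsub U₁) (ψ : Dsub U₂), (∀ p, ψ.1 p = B (c.1 p) (φ.1 p)) →
      prd k B (co _ c) (co _ φ) = co _ ψ :=
    Classical.epsilon_spec (p := fun T : W 2 U →L[ℝ] W k U₁ →L[ℝ] W k U₂ =>
      ∀ (c : Dsub U) (φ : Dsub U₁) (ψ : Dsub U₂), (∀ p, ψ.1 p = B (c.1 p) (φ.1 p)) →
        T (co _ c) (co _ φ) = co _ ψ) ⟨T, fun c φ ψ e => by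
      rw [hT, show ψ = bl_Prd B c φ from Subtype.ext (funext e)]
      exact mul_dC_Prd hk2 B c φ⟩
  have h1 : ∀ c : Dsub U, prd k B (co 2 c) = mul k B (dC_Prd c) := fun c =>
    W.ext_co fun φ => (hs c φ _ fun _ => rfl).trans (mul_dC_Prd hk2 B c φ).symm
  refine ⟨h1, ?_⟩
  rwa [show prd k B = T from W.ext_co fun c => (h1 c).trans (hT c).symm]

theorem prd_co {k : ℕ} (hk : k = 1 ∨ k = 2) (B : U →L[ℝ] U₁ →L[ℝ] U₂) (c : Dsub U) (φ : Dsub U₁) :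
    prd k B (co 2 c) (co k φ) = co k ⟨fun p => B (c.1 p) (φ.1 p), bil_mem c.2.1 c.2.2.1 φ.2 B⟩ := by
  obtain ⟨A, -, h⟩ := spec_Prd (U := U) (U₁ := U₁) (U₂ := U₂)
  rw [(h k hk B).1]
  exact mul_dC_Prd (by omega) B c φ

theorem norm_prd_le : ∃ A, 0 < A ∧ ∀ k, k = 1 ∨ k = 2 → ∀ B : U →L[ℝ] U₁ →L[ℝ] U₂,
    ‖prd k B‖ ≤ A * ‖B‖ := by
  obtain ⟨A, hA, h⟩ := spec_Prd (U := U) (U₁ := U₁) (U₂ := U₂)
  exact ⟨A, hA, fun k hk B => (h k hk B).2⟩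

theorem prd_co_left {k : ℕ} (hk : k = 1 ∨ k = 2) (B : U →L[ℝ] U₁ →L[ℝ] U₂) (c : Dsub U) :
    prd k B (co 2 c) = mul k B (toCb c.1) := by
  obtain ⟨A, -, h⟩ := spec_Prd (U := U) (U₁ := U₁) (U₂ := U₂)
  rw [(h k hk B).1]
  exact congrArg (mul k B) (toCb_fn (dC_Prd c)).symm

theorem inc_prd (B : U →L[ℝ] U₁ →L[ℝ] U₂) (ξ : W 2 U) (η : W 2 U₁) :
    inc 1 (prd 2 B ξ η) = prd 1 B ξ (inc 1 η) := by
  refine W.induction (P := fun ξ => inc 1 (prd 2 B ξ η) = prd 1 B ξ (inc 1 η))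
    (isClosed_eq (by fun_prop) (by fun_prop)) (fun c => ?_) ξ
  rw [prd_co_left (Or.inr rfl), prd_co_left (Or.inl rfl)]
  exact inc_mul le_rfl B _ η

omit [CompleteSpace U] in
theorem fn_mul_Prd (B : F →L[ℝ] U₁ →L[ℝ] U₂) (c : Cb F) (η : W 2 U₁) (p : Pl) :
    fn (mul 2 B c η) p = B (Cb.fn c p) (fn η p) := by
  refine W.induction (P := fun η => ev p (mul 2 B c η) = B (Cb.fn c p) (ev p η))
    (isClosed_eq (by fun_prop) (by fun_prop)) (fun φ => ?_) η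
  rw [mul_co le_rfl, ev_co, ev_co]

theorem fn_prd (B : U →L[ℝ] U₁ →L[ℝ] U₂) (ξ : W 2 U) (η : W 2 U₁) (p : Pl) :
    fn (prd 2 B ξ η) p = B (fn ξ p) (fn η p) := by
  refine W.induction (P := fun ξ => ev p (prd 2 B ξ η) = B (ev p ξ) (ev p η))
    (isClosed_eq (by fun_prop) (by fun_prop)) (fun c => ?_) ξ
  have h := fn_mul_Prd B (toCb c.1) η p
  rw [fn_toCb (bdd_of_mem c.2) c.2.2.1] at h
  rw [prd_co_left (Or.inr rfl), ev_co]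
  exact h

theorem fn_mul (B : F →L[ℝ] U₁ →L[ℝ] U₂) (c : Cb F) (η : W 2 U₁) (p : Pl) :
    fn (mul 2 B c η) p = B (Cb.fn c p) (fn η p) := fn_mul_Prd B c η p

end

end Pool.Agent.P.MP_de3acd_gt.FH
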