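import Pool.Agent.P.MP_de3acd_gt.FH.Nem0
import Pool.Agent.P.MP_de3acd_gt.FH.Prd
import Pool.Agent.P.MP_de3acd_gt.FH.CbFam
import Pool.Agent.P.MP_de3acd_gt.FH.BSC

/-! The composition operator on W 2: existence and continuity.
Sketch: hasDerivAt_nem: contDiff_toW with Λ = ℝ (uniform support: that of φ and ψ). Lipschitz bound on bounded sets by the
mean value inequality along segments; the derivative is the test function p ↦ Df(c, φ)(h, ψ) =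
∑ i, (coord i (h p)) • fᵢ(c, φ) + ∂_v f(c, 0) ψ + ∑ j, ⟪e j, ψ⟫ • gⱼ(c, φ), with fᵢ t a = fderiv (f t) a (bᵢ, 0),
gⱼ t (c, v) = (fderiv (f t) (c, v) - fderiv (f t) (c, 0)) (0, e j), both SP and vanishing at v = 0; bound the three terms
by nem_bound with norm_mul_le (mul_co), cn_comp with norm_mul_le, and norm_prd_le (prd_co). exists_continuous_ext with
e = Prod.map id (co 2) gives a continuous N, then epsilon_spec. fn_nem by density (ev p is continuous). -/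

set_option linter.unusedSectionVars false

open Set Filter Topology MeasureTheory
open scoped ContDiff NNReal ENNReal RealInnerProductSpace

namespace Pool.Agent.P.MP_de3acd_gt.FH

noncomputable section

variable {U₁ U₂ C : Type} [NormedAddCommGroup U₁] [InnerProductSpace ℝ U₁] [FiniteDimensional ℝ U₁]
  [NormedAddCommGroup U₂] [InnerProductSpace ℝ U₂] [FiniteDimensional ℝ U₂]
  [NormedAddCommGroup C] [NormedSpace ℝ C] [FiniteDimensional ℝ C] {f : ℝ → C × U₁ → U₂}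

omit [FiniteDimensional ℝ U₁] [FiniteDimensional ℝ U₂] [FiniteDimensional ℝ C] in
theorem diff_Nem1 (hf : SP f) (t : ℝ) : Differentiable ℝ (f t) :=
  (hf.1.comp (contDiff_const.prodMk contDiff_id)).differentiable (by simp)

theorem hasDerivAt_nem (hf : SP f) (h0 : ∀ t c, f t (c, 0) = 0) (c h : Cb C) (φ ψ : Dsub U₁)
    (τ : ℝ) : HasDerivAt (fun τ : ℝ => toW 2 fun p : Pl =>
      f p.2 (Cb.fn c p + τ • Cb.fn h p, φ.1 p + τ • ψ.1 p)) (toW 2 fun p : Pl =>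
        fderiv ℝ (f p.2) (Cb.fn c p + τ • Cb.fn h p, φ.1 p + τ • ψ.1 p) (Cb.fn h p, ψ.1 p)) τ := by
  obtain ⟨R, hR⟩ := φ.2.2.2
  obtain ⟨R', hR'⟩ := ψ.2.2.2
  obtain ⟨h1, h2⟩ := contDiff_toW (k := 2) le_rfl (f := fun (τ : ℝ) (p : Pl) =>
      f p.2 (Cb.fn c p + τ • Cb.fn h p, φ.1 p + τ • ψ.1 p))
    (hf.1.comp (contDiff_snd.snd.prodMk (((c.bdd.1.comp contDiff_snd).add
      (contDiff_fst.smul (h.bdd.1.comp contDiff_snd))).prodMk ((φ.2.1.comp contDiff_snd).add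
        (contDiff_fst.smul (ψ.2.1.comp contDiff_snd))))))
    (fun a s t => by simp only [hf.2 t, c.per s t, h.per s t, φ.2.2.1 s t, ψ.2.2.1 s t])
    (R := max R R') fun a p hp => by
      rw [hR p (le_of_max_le_left hp), hR' p (le_of_max_le_right hp), smul_zero, add_zero, h0]
  have h3 := (h1.differentiable (by simp) τ).hasFDerivAt.hasDerivAt
  rw [h2] at h3
  refine h3.congr_deriv (congrArg _ (funext fun p => ?_))
  have h4 : HasDerivAt (fun τ : ℝ => (Cb.fn c p + τ • Cb.fn h p, φ.1 p + τ • ψ.1 p))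
      (Cb.fn h p, ψ.1 p) τ := by
    have a1 := ((hasDerivAt_id τ).smul_const (Cb.fn h p)).const_add (Cb.fn c p)
    have a2 := ((hasDerivAt_id τ).smul_const (ψ.1 p)).const_add (φ.1 p)
    rw [one_smul] at a1 a2
    exact a1.prodMk a2
  exact ((diff_Nem1 hf p.2 _).hasFDerivAt.comp_hasDerivAt τ h4).deriv

/-- A linear map applied to a test function. -/
def clm_Nem1 (A : U₁ →L[ℝ] U₂) (φ : Dsub U₁) : Dsub U₂ :=
  ⟨fun p => A (φ.1 p), bil_mem (contDiff_const (c := A)) (fun _ _ => rfl) φ.2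
    (ContinuousLinearMap.id ℝ (U₁ →L[ℝ] U₂))⟩

omit [FiniteDimensional ℝ U₁] [FiniteDimensional ℝ U₂] in
theorem norm_clm_Nem1 (A : U₁ →L[ℝ] U₂) (φ : Dsub U₁) :
    ‖co 2 (clm_Nem1 A φ)‖ ≤ ‖A‖ * ‖co 2 φ‖ := by
  have h1 := nrm_clm 2 A φ.2.1 univ
  have h2 : nrm 2 (fun p => A (φ.1 p)) univ = ENNReal.ofReal (‖co 2 (clm_Nem1 A φ)‖ ^ 2) :=
    nrm_co 2 (clm_Nem1 A φ)
  rw [h2, nrm_co, ← ENNReal.ofReal_mul (by positivity),
    ENNReal.ofReal_le_ofReal_iff (by positivity), ← mul_pow] at h1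
  exact le_of_pow_le_pow_left₀ two_ne_zero (by positivity) h1

theorem dbound_Nem1 (hf : SP f) (h0 : ∀ t c, f t (c, 0) = 0) (A : ℝ) : ∃ L, ∀ (c h : Cb C)
    (φ ψ : Dsub U₁), ‖c‖ ≤ A → ‖h‖ ≤ 1 → ‖co 2 φ‖ ≤ A → ‖co 2 ψ‖ ≤ 1 → ‖toW 2 fun p : Pl =>
      fderiv ℝ (f p.2) (Cb.fn c p, φ.1 p) (Cb.fn h p, ψ.1 p)‖ ≤ L := by
  obtain ⟨E⟩ : Nonempty (WithLp 2 (U₁ × U₁) ≃L[ℝ] U₁ × U₁) :=
    ⟨WithLp.prodContinuousLinearEquiv 2 ℝ U₁ U₁⟩
  obtain ⟨g, hg⟩ : ∃ g : ℝ → (C × C) × WithLp 2 (U₁ × U₁) → U₂, g = fun t x =>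
    fderiv ℝ (f t) (x.1.1, (E x.2).1) (x.1.2, (E x.2).2) := ⟨_, rfl⟩
  have hE : ContDiff ℝ ∞ fun q : ℝ × (C × C) × WithLp 2 (U₁ × U₁) => E q.2.2 :=
    E.contDiff.comp contDiff_snd.snd
  have sg : SP g := by
    rw [hg]
    exact ⟨(hf.fderiv.1.comp (contDiff_fst.prodMk (contDiff_snd.fst.fst.prodMk hE.fst))).clm_apply
      (contDiff_snd.fst.snd.prodMk hE.snd), fun t => by simp only [hf.2 t]⟩
  have g0 : ∀ t c, g t (c, 0) = 0 := fun t c => by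
    have h1 := (diff_Nem1 hf t (c.1, 0)).hasFDerivAt.comp c.1
      (hasFDerivAt_prodMk_left (𝕜 := ℝ) c.1 (0 : U₁))
    have h2 : (f t ∘ fun e : C => (e, (0 : U₁))) = fun _ => 0 := funext (h0 t)
    rw [h2] at h1
    have h3 := congrArg (fun T : C →L[ℝ] U₂ => T c.2) (h1.unique (hasFDerivAt_const _ _))
    rw [hg]
    simp only [map_zero]
    exact h3
  obtain ⟨I, hI⟩ : ∃ I : U₁ →L[ℝ] WithLp 2 (U₁ × U₁), ∀ v, E (I v) = (v, 0) :=
    ⟨E.symm.toContinuousLinearMap.comp (ContinuousLinearMap.inl ℝ _ _),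
      fun _ => E.apply_symm_apply _⟩
  obtain ⟨J, hJ⟩ : ∃ J : U₁ →L[ℝ] WithLp 2 (U₁ × U₁), ∀ v, E (J v) = (0, v) :=
    ⟨E.symm.toContinuousLinearMap.comp (ContinuousLinearMap.inr ℝ _ _),
      fun _ => E.apply_symm_apply _⟩
  obtain ⟨L, hL⟩ := nem_bound sg g0 (max (max A 1) (‖I‖ * A + ‖J‖ * 1))
  refine ⟨L, fun c h φ ψ hc hh hφ hψ => ?_⟩
  have h1 := hL (Cb.mk (fun p => (Cb.fn c p, Cb.fn h p)) (c.bdd.prod h.bdd)
      fun s t => Prod.ext (c.per s t) (h.per s t)) (clm_Nem1 I φ + clm_Nem1 J ψ)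
    (le_max_of_le_left (Cb.norm_le _ (le_max_of_le_right zero_le_one)
      (Cn.prod c.bdd.1 h.bdd.1 (c.cn.mono le_rfl subset_rfl (le_max_of_le_left hc))
        (h.cn.mono le_rfl subset_rfl (le_max_of_le_right hh)))))
    (le_max_of_le_right (by
      rw [map_add]
      exact norm_add_le_of_le
        ((norm_clm_Nem1 I φ).trans (mul_le_mul_of_nonneg_left hφ (norm_nonneg _)))
        ((norm_clm_Nem1 J ψ).trans (mul_le_mul_of_nonneg_left hψ (norm_nonneg _)))))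
  rw [← toW_co] at h1
  refine le_of_eq_of_le (congrArg (fun u => ‖toW 2 u‖) (funext fun p => ?_)) h1
  change _ = g p.2 ((Cb.fn c p, Cb.fn h p), I (φ.1 p) + J (ψ.1 p))
  rw [hg]
  simp only [map_add, hI, hJ, Prod.mk_add_mk, add_zero, zero_add]

theorem scale_Nem1 {X : Type} [NormedAddCommGroup X] [NormedSpace ℝ X] {x y : X} {R δ τ : ℝ}
    (hx : ‖x‖ ≤ R) (hy : ‖y‖ ≤ R) (hδ : ‖x - y‖ < δ) (hτ : τ ∈ Ico 0 δ) :
    ‖δ⁻¹ • (x - y)‖ ≤ 1 ∧ ‖y + τ • δ⁻¹ • (x - y)‖ ≤ 3 * R := by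
  have h0 : 0 < δ := (norm_nonneg _).trans_lt hδ
  constructor
  · rw [norm_smul, Real.norm_of_nonneg (inv_pos.2 h0).le, inv_mul_le_iff₀ h0, mul_one]
    exact hδ.le
  · have h1 : τ * δ⁻¹ ≤ 1 := by
      rw [mul_inv_le_iff₀ h0, one_mul]
      exact hτ.2.le
    have h2 : ‖τ • δ⁻¹ • (x - y)‖ ≤ ‖x - y‖ := by
      rw [smul_smul, norm_smul, Real.norm_of_nonneg (mul_nonneg hτ.1 (inv_pos.2 h0).le)]
      exact mul_le_of_le_one_left (norm_nonneg _) h1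
    linarith [norm_add_le y (τ • δ⁻¹ • (x - y)), norm_sub_le x y]

theorem le_mul_Nem1 {x L N : ℝ} (h : ∀ δ, N < δ → x ≤ L * δ) : x ≤ L * N :=
  ge_of_tendsto (((continuous_const_mul L).tendsto N).mono_left
    (nhdsWithin_le_nhds (s := Ioi N))) (eventually_nhdsWithin_of_forall h)

theorem lip_Nem1 (hf : SP f) (h0 : ∀ t c, f t (c, 0) = 0) (R : ℝ) : ∃ L,
    ∀ a b : Cb C × Dsub U₁, ‖((a.1, co 2 a.2) : Cb C × W 2 U₁)‖ ≤ R →
      ‖((b.1, co 2 b.2) : Cb C × W 2 U₁)‖ ≤ R →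
        ‖(toW 2 fun p : Pl => f p.2 (Cb.fn a.1 p, a.2.1 p)) -
          toW 2 fun p : Pl => f p.2 (Cb.fn b.1 p, b.2.1 p)‖ ≤
            L * ‖((a.1, co 2 a.2) : Cb C × W 2 U₁) - (b.1, co 2 b.2)‖ := by
  obtain ⟨L, hL⟩ := dbound_Nem1 hf h0 (3 * R)
  refine ⟨L, ?_⟩
  rintro ⟨c', φ'⟩ ⟨c, φ⟩ ha hb
  rw [Prod.norm_mk, max_le_iff] at ha hb
  refine le_mul_Nem1 fun δ hδ => ?_
  rw [Prod.mk_sub_mk, Prod.norm_mk, max_lt_iff] at hδ
  have hp : 0 < δ := (norm_nonneg _).trans_lt hδ.1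
  have h1 := norm_image_sub_le_of_norm_deriv_le_segment' (a := 0) (b := δ) (C := L)
    (fun τ _ => (hasDerivAt_nem hf h0 c (δ⁻¹ • (c' - c)) φ (δ⁻¹ • (φ' - φ)) τ).hasDerivWithinAt)
    (fun τ hτ => by
      have e1 := scale_Nem1 ha.1 hb.1 hδ.1 hτ
      have e2 := scale_Nem1 ha.2 hb.2 hδ.2 hτ
      rw [← map_sub, ← map_smul, ← map_smul, ← map_add] at e2
      exact hL (c + τ • δ⁻¹ • (c' - c)) _ (φ + τ • δ⁻¹ • (φ' - φ)) _ e1.2 e1.1 e2.2 e2.1)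
    δ ⟨hp.le, le_rfl⟩
  rw [sub_zero] at h1
  refine le_of_eq_of_le (congrArg norm (congrArg₂ _ (congrArg _ (funext fun p => ?_))
    (congrArg _ (funext fun p => ?_)))) h1
  · change _ = f p.2 (Cb.fn c p + δ • δ⁻¹ • (Cb.fn c' p - Cb.fn c p),
      φ.1 p + δ • δ⁻¹ • (φ'.1 p - φ.1 p))
    rw [smul_inv_smul₀ hp.ne', smul_inv_smul₀ hp.ne', add_sub_cancel, add_sub_cancel]
  · rw [zero_smul, zero_smul, add_zero, add_zero]

theorem spec_Nem1 (hf : SP f) (h0 : ∀ t c, f t (c, 0) = 0) : Continuous (nem f) ∧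
    ∀ (c : Cb C) (φ : Dsub U₁) (ψ : Dsub U₂),
      (∀ p, ψ.1 p = f p.2 (Cb.fn c p, φ.1 p)) → nem f (c, co _ φ) = co _ ψ := by
  obtain ⟨G, h1, h2⟩ := exists_continuous_ext
    (e := fun a : Cb C × Dsub U₁ => ((a.1, co 2 a.2) : Cb C × W 2 U₁))
    (denseRange_id.prodMap (denseRange_co 2))
    (g := fun a => toW 2 fun p : Pl => f p.2 (Cb.fn a.1 p, a.2.1 p)) (lip_Nem1 hf h0)
  refine Classical.epsilon_spec (p := fun N : Cb C × W 2 U₁ → W 2 U₂ => Continuous N ∧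
    ∀ (c : Cb C) (φ : Dsub U₁) (ψ : Dsub U₂),
      (∀ p, ψ.1 p = f p.2 (Cb.fn c p, φ.1 p)) → N (c, co _ φ) = co _ ψ) ⟨G, h1, fun c φ ψ e => ?_⟩
  rw [← toW_co 2 ψ, funext e]
  exact h2 (c, φ)

theorem nem_co (hf : SP f) (h0 : ∀ t c, f t (c, 0) = 0) (c : Cb C) (φ : Dsub U₁) :
    nem f (c, co 2 φ) = co 2 ⟨_, nem_mem hf h0 c.bdd.1 c.per φ.2⟩ :=
  (spec_Nem1 hf h0).2 c φ _ fun _ => rfl

theorem bsn_zero_nem (hf : SP f) (h0 : ∀ t c, f t (c, 0) = 0) : BSn 0 (nem f) := by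
  have hc := (spec_Nem1 hf h0).1
  refine bsn_zero_iff.2 ⟨hc, fun R => ?_⟩
  obtain ⟨A, hA⟩ := nem_bound hf h0 (R + 1)
  refine ⟨A, ?_⟩
  rintro ⟨c, ξ⟩ hx
  rw [Prod.norm_mk, max_le_iff] at hx
  refine (W.induction (P := fun ξ : W 2 U₁ => R + 1 ≤ ‖ξ‖ ∨ ‖nem f (c, ξ)‖ ≤ A)
    ((isClosed_le continuous_const continuous_norm).union (isClosed_le
      (hc.comp (continuous_const.prodMk continuous_id)).norm continuous_const))
    (fun φ => (le_total _ _).imp_right fun h => ?_) ξ).resolve_left (by linarith [hx.2])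
  rw [nem_co hf h0]
  exact hA c φ (by linarith [hx.1]) h

theorem fn_nem (hf : SP f) (h0 : ∀ t c, f t (c, 0) = 0) (c : Cb C) (ξ : W 2 U₁) (p : Pl) :
    fn (nem f (c, ξ)) p = f p.2 (Cb.fn c p, fn ξ p) := by
  have := FiniteDimensional.complete ℝ U₁
  have := FiniteDimensional.complete ℝ U₂
  refine W.induction (P := fun ξ : W 2 U₁ => ev p (nem f (c, ξ)) = f p.2 (Cb.fn c p, ev p ξ))
    (isClosed_eq ((ev p).continuous.comp ((spec_Nem1 hf h0).1.comp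
      (continuous_const.prodMk continuous_id))) ((diff_Nem1 hf p.2).continuous.comp
        (continuous_const.prodMk (ev p).continuous))) (fun φ => ?_) ξ
  rw [nem_co hf h0, ev_co, ev_co]

end

end Pool.Agent.P.MP_de3acd_gt.FH
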