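import Pool.Agent.P.MP_de3acd_gt.FH.BSC
import Pool.Agent.P.MP_de3acd_gt.FH.JetC

/-! Composition operators on Cb.
Sketch: cbil: existence by LinearMap.mk₂ and mkContinuous₂ with Cn.bil (k = 2), Cb.cn, Cb.norm_le.
bs_nemC: induction on n for all F and g. n = 0: cn_comp, cn_comp_sub. Step: HasFDerivAt (nemC g)
(cbil (id) (nemC (fun t a => fderiv (g t) a) c)) c, and this derivative is BSn n by the induction hypothesis
(SP.fderiv, BSn.clm). Remainder: g(t, c+h) - g(t, c) - Dg(t, c) h; either apply hasFDerivAt_of_dense with P = univ and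
a one-parameter argument, or write it as r(t, (c, h)) with r SP on C × C, r and its derivative in h vanishing at h = 0,
and bound Cn 2 by C ‖h‖^2, or ε ‖h‖: r = ∫_0^1 (Dg(t, c + τ h) - Dg(t, c)) h dτ; alternatively mean value inequality for
τ ↦ jet2 (...) p pointwise in p with the bounds cn_comp_sub and Cn.bil. -/

open Set Filter Topology MeasureTheory
open scoped ContDiff NNReal ENNReal RealInnerProductSpace

namespace Pool.Agent.P.MP_de3acd_gt.FH

noncomputable section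

variable {F F₁ F₂ : Type} [NormedAddCommGroup F] [NormedSpace ℝ F] [NormedAddCommGroup F₁]
  [NormedSpace ℝ F₁] [NormedAddCommGroup F₂] [NormedSpace ℝ F₂]
variable {C Λ : Type} [NormedAddCommGroup C] [NormedSpace ℝ C] [FiniteDimensional ℝ C]
  [NormedAddCommGroup Λ] [NormedSpace ℝ Λ] [FiniteDimensional ℝ Λ]

theorem nonneg_NemC {k : ℕ} {f : Pl → F} {a : ℝ} (h : Cn k f univ a) : 0 ≤ a :=
  (norm_nonneg _).trans (h.le (p := 0) (mem_univ _))

theorem exists_cbil_NemC (B : F →L[ℝ] F₁ →L[ℝ] F₂) : ∃ T : Cb F →L[ℝ] Cb F₁ →L[ℝ] Cb F₂,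
    ∀ (c : Cb F) (d : Cb F₁) (p : Pl), Cb.fn (T c d) p = B (Cb.fn c p) (Cb.fn d p) := by
  let m : Cb F → Cb F₁ → Cb F₂ := fun c d => Cb.mk (fun p => B (Cb.fn c p) (Cb.fn d p))
    (c.bdd.bil d.bdd B) fun s t => by simp only [c.per s t, d.per s t]
  have hm : ∀ c d p, Cb.fn (m c d) p = B (Cb.fn c p) (Cb.fn d p) := fun _ _ _ => rfl
  let L : Cb F →ₗ[ℝ] Cb F₁ →ₗ[ℝ] Cb F₂ := LinearMap.mk₂ ℝ m
    (fun c c' d => Cb.ext (funext fun p => by
      simp only [hm, map_add, Pi.add_apply, ContinuousLinearMap.add_apply]))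
    (fun r c d => Cb.ext (funext fun p => by
      simp only [hm, map_smul, Pi.smul_apply, ContinuousLinearMap.smul_apply]))
    (fun c d d' => Cb.ext (funext fun p => by simp only [hm, map_add, Pi.add_apply]))
    (fun r c d => Cb.ext (funext fun p => by simp only [hm, map_smul, Pi.smul_apply]))
  refine ⟨L.mkContinuous₂ (2 ^ 2 * ‖B‖) fun c d => ?_, fun c d p => hm c d p⟩
  exact Cb.norm_le (m c d) (by positivity) (Cn.bil B c.bdd.1 d.bdd.1 c.cn d.cn)

theorem fn_cbil (B : F →L[ℝ] F₁ →L[ℝ] F₂) (c : Cb F) (d : Cb F₁) (p : Pl) :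
    Cb.fn (cbil B c d) p = B (Cb.fn c p) (Cb.fn d p) :=
  Classical.epsilon_spec (exists_cbil_NemC B) c d p

theorem exists_cst (A : F →L[ℝ] F₁) : ∃ ι : F →L[ℝ] Cb F₁, ∀ a p, Cb.fn (ι a) p = A a := by
  let m : F → Cb F₁ := fun a => Cb.mk (fun _ => A a) (bdd_const _) fun _ _ => rfl
  have hm : ∀ a p, Cb.fn (m a) p = A a := fun _ _ => rfl
  let L : F →ₗ[ℝ] Cb F₁ :=
    { toFun := m
      map_add' := fun a b => Cb.ext (funext fun p => by simp only [hm, map_add, Pi.add_apply])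
      map_smul' := fun r a => Cb.ext (funext fun p => by
        simp only [hm, map_smul, Pi.smul_apply, RingHom.id_apply]) }
  refine ⟨L.mkContinuous ‖A‖ fun a => ?_, fun a p => hm a p⟩
  exact Cb.norm_le (m a) (by positivity) ((cn_const 2 (A a) univ).up_JetC (A.le_opNorm a))

theorem exists_cmap (A : F →L[ℝ] F₁) :
    ∃ T : Cb F →L[ℝ] Cb F₁, ∀ c p, Cb.fn (T c) p = A (Cb.fn c p) := by
  let m : Cb F → Cb F₁ := fun c => Cb.mk (fun p => A (Cb.fn c p)) (c.bdd.clm A)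
    fun s t => by simp only [c.per s t]
  have hm : ∀ c p, Cb.fn (m c) p = A (Cb.fn c p) := fun _ _ => rfl
  let L : Cb F →ₗ[ℝ] Cb F₁ :=
    { toFun := m
      map_add' := fun a b => Cb.ext (funext fun p => by simp only [hm, map_add, Pi.add_apply])
      map_smul' := fun r a => Cb.ext (funext fun p => by
        simp only [hm, map_smul, Pi.smul_apply, RingHom.id_apply]) }
  refine ⟨L.mkContinuous ‖A‖ fun c => ?_, fun c p => hm c p⟩
  exact Cb.norm_le (m c) (by positivity) (Cn.clm A c.bdd.1 c.cn)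

theorem fn_nemC_NemC {g : ℝ → C → F} (hg : SP g) (c : Cb C) :
    Cb.fn (nemC g c) = fun p => g p.2 (Cb.fn c p) :=
  fn_toCb (Bdd.comp hg c.bdd) (hg.per_comp c.per)

theorem fn_nemC {g : ℝ → C → F} (hg : SP g) (c : Cb C) (p : Pl) :
    Cb.fn (nemC g c) p = g p.2 (Cb.fn c p) := congrFun (fn_nemC_NemC hg c) p

theorem tot_NemC {g : ℝ → C → F} (hg : SP g) (t : ℝ) (a w : C) :
    fderiv ℝ (g t) a w = tot_JetC g t a (0, w) := by
  have h1 : HasFDerivAt (fun a : C => (t, a)) (ContinuousLinearMap.inr ℝ ℝ C) a :=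
    hasFDerivAt_prodMk_right t a
  exact congrArg (fun T : C →L[ℝ] F => T w) (HasFDerivAt.comp a (g := fun q : ℝ × C => g q.1 q.2)
    (hg.1.differentiable (by simp) _).hasFDerivAt h1).fderiv

theorem symm_NemC {g : ℝ → C → F} (hg : SP g) (t : ℝ) (a : C) (v w : ℝ × C) :
    tot_JetC (tot_JetC g) t a v w = tot_JetC (tot_JetC g) t a w v :=
  (hg.1.contDiffAt (x := (t, a))).isSymmSndFDerivAt (by
    simp only [minSmoothness_of_isRCLikeNormedField]
    exact WithTop.coe_le_coe.2 le_top) v w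

theorem taylor_NemC {g : ℝ → C → F} (hg : SP g) (A : ℝ) : ∃ M, 0 ≤ M ∧ ∀ t a h, ‖a‖ ≤ A →
    ‖a + h‖ ≤ A → ‖g t (a + h) - g t a - tot_JetC g t a (0, h)‖ ≤ M * ‖h‖ * ‖h‖ := by
  obtain ⟨M, h0, hM⟩ := hg.fderiv.lip_JetC A
  refine ⟨M, h0, fun t a h ha ha' => ?_⟩
  have h4 := ((convex_closedBall (0 : C) A).inter
    (convex_closedBall a ‖h‖)).norm_image_sub_le_of_norm_fderiv_le' (𝕜 := ℝ) (f := g t)
    (φ := fderiv ℝ (g t) a) (C := M * ‖h‖) (x := a) (y := a + h)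
    (fun x _ => (hg.1.comp (contDiff_const.prodMk contDiff_id)).differentiable (by simp) x)
    (fun x hx => (hM t x a (mem_closedBall_zero_iff.1 hx.1) ha).trans
      (mul_le_mul_of_nonneg_left (mem_closedBall_iff_norm.1 hx.2) h0))
    ⟨mem_closedBall_zero_iff.2 ha, Metric.mem_closedBall_self (norm_nonneg _)⟩
    ⟨mem_closedBall_zero_iff.2 ha', by simp⟩
  rwa [add_sub_cancel_left, tot_NemC hg] at h4

theorem fd_rem_NemC {g : ℝ → C → F} (hg : SP g) {c h : Pl → C} (hc : ContDiff ℝ ∞ c)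
    (hh : ContDiff ℝ ∞ h) (v : Pl) :
    (fun p => fderiv ℝ (fun p : Pl => g p.2 (c p + h p) - g p.2 (c p) -
      tot_JetC g p.2 (c p) (0, h p)) p v) =
      (fun p : Pl => (tot_JetC g p.2 (c p + h p) - tot_JetC g p.2 (c p) -
        tot_JetC (tot_JetC g) p.2 (c p) (0, h p)) (v.2, fderiv ℝ c p v)) +
      fun p : Pl => (tot_JetC g p.2 (c p + h p) - tot_JetC g p.2 (c p)) (0, fderiv ℝ h p v) := by
  funext p
  have d1 := (hg.contDiff_comp (hc.add hh)).differentiable (by simp) p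
  have d2 := (hg.contDiff_comp hc).differentiable (by simp) p
  have d3 := (hg.tot_JetC.contDiff_comp hc).differentiable (by simp) p
  have d4 : HasFDerivAt (fun p : Pl => ((0 : ℝ), h p))
      ((0 : Pl →L[ℝ] ℝ).prod (fderiv ℝ h p)) p :=
    (hasFDerivAt_const _ _).prodMk (hh.differentiable (by simp) p).hasFDerivAt
  have e1 := congrFun (fd_comp_JetC hg (hc.add hh) v) p
  have e2 := congrFun (fd_comp_JetC hg hc v) p
  have e3 := congrFun (fd_comp_JetC hg.tot_JetC hc v) p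
  have e4 : fderiv ℝ (fun p => c p + h p) p v = fderiv ℝ c p v + fderiv ℝ h p v := by
    rw [((hc.differentiable (by simp) p).hasFDerivAt.fun_add
      (hh.differentiable (by simp) p).hasFDerivAt).fderiv]
    rfl
  simp only [e4] at e1 e2 e3
  rw [((d1.hasFDerivAt.fun_sub d2.hasFDerivAt).fun_sub (d3.hasFDerivAt.clm_apply d4)).fderiv]
  have e5 : (v.2, fderiv ℝ c p v + fderiv ℝ h p v) =
      (v.2, fderiv ℝ c p v) + ((0 : ℝ), fderiv ℝ h p v) := by simp
  simp only [ContinuousLinearMap.sub_apply, ContinuousLinearMap.add_apply,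
    ContinuousLinearMap.comp_apply, ContinuousLinearMap.flip_apply, ContinuousLinearMap.prod_apply,
    ContinuousLinearMap.zero_apply, Pi.add_apply, e1, e2, e3]
  rw [e5, map_add, symm_NemC hg p.2 (c p) (0, h p)]
  abel

theorem rem_NemC (A : ℝ) (k : ℕ) : ∀ (F : Type) [NormedAddCommGroup F] [NormedSpace ℝ F]
    (g : ℝ → C → F), SP g → ∃ L, 0 ≤ L ∧ ∀ (c h : Pl → C) (ε : ℝ), ContDiff ℝ ∞ c →
      ContDiff ℝ ∞ h → Cn k c univ A → Cn k (c + h) univ A → Cn k h univ ε →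
        Cn k (fun p : Pl => g p.2 (c p + h p) - g p.2 (c p) - tot_JetC g p.2 (c p) (0, h p)) univ
          (L * ε * ε) := by
  have base : ∀ (F : Type) [NormedAddCommGroup F] [NormedSpace ℝ F]
      (g : ℝ → C → F), SP g → ∃ L, 0 ≤ L ∧ ∀ (c h : Pl → C) (ε : ℝ), Cn 0 c univ A →
        Cn 0 (c + h) univ A → Cn 0 h univ ε →
        Cn 0 (fun p : Pl => g p.2 (c p + h p) - g p.2 (c p) - tot_JetC g p.2 (c p) (0, h p)) univ
          (L * ε * ε) := by
    intro F _ _ g hg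
    obtain ⟨M, h0, hM⟩ := taylor_NemC hg A
    refine ⟨M, h0, fun c h ε h1 h2 h3 p hp => (hM _ _ _ (h1 p hp) (h2 p hp)).trans ?_⟩
    have := h3 p hp
    have := nonneg_NemC h3
    gcongr
  induction k with
  | zero =>
    intro F _ _ g hg
    obtain ⟨M, h0, hM⟩ := base F g hg
    exact ⟨M, h0, fun c h ε _ _ => hM c h ε⟩
  | succ k ih =>
    intro F _ _ g hg
    obtain ⟨M, h0, hM⟩ := base F g hg
    obtain ⟨L₁, hL₁, H₁⟩ := ih _ _ hg.tot_JetC
    obtain ⟨L₂, hL₂, H₂⟩ := cn_comp_sub hg.tot_JetC k A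
    set B := ContinuousLinearMap.id ℝ (ℝ × C →L[ℝ] F) with hB
    refine ⟨max M (2 ^ k * ‖B‖ * L₁ * max A 1 + 2 ^ k * ‖B‖ * L₂), le_max_of_le_left h0,
      fun c h ε hc hh b1 b2 b3 => ?_⟩
    have hε : 0 ≤ ε := nonneg_NemC b3
    have s1 := hg.tot_JetC.contDiff_comp (hc.add hh)
    have s2 := hg.tot_JetC.contDiff_comp hc
    have s3 : ContDiff ℝ ∞ fun p : Pl => tot_JetC (tot_JetC g) p.2 (c p) (0, h p) :=
      (hg.tot_JetC.tot_JetC.contDiff_comp hc).clm_apply (contDiff_const.prodMk hh)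
    have key : ∀ (τ : ℝ) (d d' : Pl → C), ‖τ‖ ≤ 1 → ContDiff ℝ ∞ d → ContDiff ℝ ∞ d' →
        Cn k d univ A → Cn k d' univ ε →
        Cn k ((fun p : Pl => (tot_JetC g p.2 (c p + h p) - tot_JetC g p.2 (c p) -
          tot_JetC (tot_JetC g) p.2 (c p) (0, h p)) (τ, d p)) +
          fun p : Pl => (tot_JetC g p.2 (c p + h p) - tot_JetC g p.2 (c p)) (0, d' p)) univ
          (max M (2 ^ k * ‖B‖ * L₁ * max A 1 + 2 ^ k * ‖B‖ * L₂) * ε * ε) := by
      intro τ d d' hτ hd hd' c1 c2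
      have s4 : ContDiff ℝ ∞ fun p => (τ, d p) := contDiff_const.prodMk hd
      have s5 : ContDiff ℝ ∞ fun p => ((0 : ℝ), d' p) := contDiff_const.prodMk hd'
      have k1 := Cn.bil B ((s1.sub s2).sub s3) s4
        (H₁ c h ε hc hh b1.pred_JetC b2.pred_JetC b3.pred_JetC) (cn_pair_JetC hτ hd c1)
      have k2 := Cn.bil B (s1.sub s2) s5
        (H₂ (c + h) c univ ε (hc.add hh) hc b2.pred_JetC b1.pred_JetC
          (by rw [add_sub_cancel_left]; exact b3.pred_JetC))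
        (Cn.prod contDiff_const hd' ((cn_const k (0 : ℝ) univ).up_JetC (by simpa using hε)) c2)
      have k3 := Cn.add (contDiff_bil_JetC B ((s1.sub s2).sub s3) s4)
        (contDiff_bil_JetC B (s1.sub s2) s5) k1 k2
      refine k3.up_JetC (le_trans (le_of_eq ?_)
        (mul_le_mul_of_nonneg_right (mul_le_mul_of_nonneg_right (le_max_right _ _) hε) hε))
      ring
    refine ⟨(hM c h ε b1.1 b2.1 b3.1).up_JetC
      (mul_le_mul_of_nonneg_right (mul_le_mul_of_nonneg_right (le_max_left _ _) hε) hε), ?_, ?_⟩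
    · rw [show ds (fun p : Pl => g p.2 (c p + h p) - g p.2 (c p) - tot_JetC g p.2 (c p) (0, h p))
        = _ from fd_rem_NemC hg hc hh (1, 0)]
      exact key 0 _ _ (by simp) (contDiff_ds hc) (contDiff_ds hh) b1.2.1 b3.2.1
    · rw [show dt (fun p : Pl => g p.2 (c p + h p) - g p.2 (c p) - tot_JetC g p.2 (c p) (0, h p))
        = _ from fd_rem_NemC hg hc hh (0, 1)]
      exact key 1 _ _ (by simp) (contDiff_dt hc) (contDiff_dt hh) b1.2.2 b3.2.2

theorem hasFDerivAt_NemC {g : ℝ → C → F} (hg : SP g) (c : Cb C) :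
    HasFDerivAt (nemC g) (cbil (ContinuousLinearMap.id ℝ (C →L[ℝ] F))
      (nemC (fun t a => fderiv ℝ (g t) a) c)) c := by
  obtain ⟨L, hL, H⟩ := rem_NemC (‖c‖ + 1) 2 F g hg
  rw [hasFDerivAt_iff_isLittleO_nhds_zero]
  refine Asymptotics.IsBigO.trans_isLittleO ?_ (Asymptotics.isLittleO_norm_pow_id one_lt_two)
  refine Asymptotics.IsBigO.of_bound L ?_
  filter_upwards [Metric.closedBall_mem_nhds (0 : Cb C) one_pos] with h hh
  rw [Real.norm_of_nonneg (sq_nonneg _)]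
  refine Cb.norm_le _ (mul_nonneg hL (sq_nonneg _)) ?_
  have h1 : ‖h‖ ≤ 1 := mem_closedBall_zero_iff.1 hh
  have h2 := H (Cb.fn c) (Cb.fn h) ‖h‖ c.bdd.1 h.bdd.1 (c.cn.up_JetC (by linarith))
    (by
      rw [← map_add]
      exact (c + h).cn.up_JetC ((norm_add_le _ _).trans (by linarith))) h.cn
  rw [mul_assoc, ← sq] at h2
  convert h2 using 1
  funext p
  simp only [map_sub, Pi.sub_apply, fn_nemC hg, fn_cbil, fn_nemC hg.fderiv, map_add, Pi.add_apply,
    ContinuousLinearMap.id_apply, tot_NemC hg]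

theorem bsn_NemC (n : ℕ) : ∀ (F : Type) [NormedAddCommGroup F] [NormedSpace ℝ F]
    (g : ℝ → C → F), SP g → BSn n (nemC g) := by
  induction n with
  | zero =>
    intro F _ _ g hg
    refine bsn_zero_iff.2 ⟨continuous_iff_continuousAt.2 fun c =>
      (hasFDerivAt_NemC hg c).continuousAt, fun R => ?_⟩
    obtain ⟨A, h0, hA⟩ := comp_JetC R 2 F g hg
    refine ⟨A, fun c hc => Cb.norm_le _ h0 ?_⟩
    rw [fn_nemC_NemC hg]
    exact hA _ univ c.bdd.1 (c.cn.up_JetC hc)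
  | succ n ih =>
    intro F _ _ g hg
    exact bsn_succ_of_hasFDerivAt (hasFDerivAt_NemC hg)
      ((ih _ _ hg.fderiv).clm (cbil (ContinuousLinearMap.id ℝ (C →L[ℝ] F))))

theorem bs_nemC {g : ℝ → C → F} (hg : SP g) : BS (nemC g) := fun n => bsn_NemC n F g hg

end

end Pool.Agent.P.MP_de3acd_gt.FH
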