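import Pool.Agent.P.MP_de3acd_gt.FH.Nem1
import Pool.Agent.P.MP_de3acd_gt.FH.NemC

/-! The composition operator on W 2 is smooth and bounded on bounded sets.
Sketch: induction on n for all f (U₁, U₂, C fixed); n = 0 is bsn_zero_nem. Define
N' (c, ξ) (h, ζ) = ∑ i, mul 2 Bᵢ h (nem fᵢ (c, ξ)) + mul 2 id (nemC g₀ c) ζ + ∑ j, prd 2 Bⱼ (nem gⱼ (c, ξ)) ζ
(names as in Nem1; Bᵢ a u = coord i a • u, Bⱼ u v = ⟪e j, v⟫ • u, g₀ t c = (fderiv (f t) (c, 0)).comp inr) as a continuous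
linear map in (h, ζ), which is a continuous linear expression in nem fᵢ, nemC g₀ c, nem gⱼ; so N' is BSn n
(bs_nemC, BSn.clm, BSn.sum). hasFDerivAt_of_dense with P = range (Prod.map id (co 2)), hasDerivAt_nem, nem_co, toW_co,
mul_co, prd_co; bsn_succ_of_hasFDerivAt. -/

open Set Filter Topology MeasureTheory
open scoped ContDiff NNReal ENNReal RealInnerProductSpace

namespace Pool.Agent.P.MP_de3acd_gt.FH

noncomputable section

variable {U₁ U₂ C : Type} [NormedAddCommGroup U₁] [InnerProductSpace ℝ U₁] [FiniteDimensional ℝ U₁]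
  [NormedAddCommGroup U₂] [InnerProductSpace ℝ U₂] [FiniteDimensional ℝ U₂]
  [NormedAddCommGroup C] [NormedSpace ℝ C] [FiniteDimensional ℝ C] {f : ℝ → C × U₁ → U₂}

theorem pre_Nem2 {X A B Y Z : Type} [NormedAddCommGroup X] [NormedSpace ℝ X] [NormedAddCommGroup A]
    [NormedSpace ℝ A] [NormedAddCommGroup B] [NormedSpace ℝ B] [NormedAddCommGroup Y]
    [NormedSpace ℝ Y] [NormedAddCommGroup Z] [NormedSpace ℝ Z] {n : ℕ} {g : X → Y} (hg : BSn n g)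
    (L : Y →L[ℝ] A →L[ℝ] Z) (P : B →L[ℝ] A) : BSn n fun x => (L (g x)).comp P :=
  (hg.clm L).clm ((ContinuousLinearMap.compL ℝ B A Z).flip P)

theorem bil_Nem2 {A B Y Z : Type} [NormedAddCommGroup A]
    [NormedSpace ℝ A] [NormedAddCommGroup B] [NormedSpace ℝ B] [NormedAddCommGroup Y]
    [NormedSpace ℝ Y] [NormedAddCommGroup Z] [NormedSpace ℝ Z]
    (L : Y →L[ℝ] A →L[ℝ] Z) (P : B →L[ℝ] A) :
    ∃ T : Y →L[ℝ] B →L[ℝ] Z, ∀ y b, T y b = L y (P b) :=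
  ⟨(L.flip.comp P).flip, fun _ _ => rfl⟩

omit [FiniteDimensional ℝ U₁] [FiniteDimensional ℝ U₂] [FiniteDimensional ℝ C] in
theorem zero_Nem2 (hf : SP f) (h0 : ∀ t c, f t (c, 0) = 0) (t : ℝ) (c h : C) :
    fderiv ℝ (f t) (c, 0) (h, 0) = 0 := by
  have h1 : DifferentiableAt ℝ (f t) (c, 0) :=
    (hf.1.comp (contDiff_const.prodMk contDiff_id)).differentiable (by simp) _
  have h2 := h1.hasFDerivAt.comp c (hasFDerivAt_prodMk_left (𝕜 := ℝ) c (0 : U₁))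
  have h3 : (f t ∘ fun c : C => (c, (0 : U₁))) = fun _ => 0 := funext (h0 t)
  rw [h3] at h2
  exact congrArg (fun T : C →L[ℝ] U₂ => T h) (h2.unique (hasFDerivAt_const 0 c))

theorem step_Nem2 {V : Type} [NormedAddCommGroup V] [InnerProductSpace ℝ V] [FiniteDimensional ℝ V]
    (hf : SP f) (h0 : ∀ t c, f t (c, 0) = 0) {n : ℕ} {D : ℝ → C × U₁ → V} (hD : SP D)
    (L : V →L[ℝ] C × U₁ →L[ℝ] U₂) (hL : ∀ t a, L (D t a) = fderiv ℝ (f t) a)
    (ih : ∀ g : ℝ → C × U₁ → V, SP g → (∀ t c, g t (c, 0) = 0) → BSn n (nem g)) :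
    BSn (n + 1) (nem f) := by
  haveI : CompleteSpace V := FiniteDimensional.complete ℝ V
  haveI : CompleteSpace U₁ := FiniteDimensional.complete ℝ U₁
  haveI : CompleteSpace U₂ := FiniteDimensional.complete ℝ U₂
  have s0 : SP fun t (c : C) => D t (c, 0) :=
    ⟨hD.1.comp (contDiff_fst.prodMk (contDiff_snd.prodMk contDiff_const)),
      fun t => by simp only [hD.2 t]⟩
  have s1 : SP fun t (a : C × U₁) => D t a - D t (a.1, 0) :=
    ⟨hD.1.sub (s0.1.comp (contDiff_fst.prodMk contDiff_snd.fst)),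
      fun t => by simp only [hD.2 t]⟩
  have z1 : ∀ t (c : C), D t (c, 0) - D t (c, 0) = 0 := fun t c => sub_self _
  obtain ⟨B₁, hB₁⟩ := bil_Nem2 L (ContinuousLinearMap.inl ℝ C U₁)
  obtain ⟨B₂, hB₂⟩ := bil_Nem2 L (ContinuousLinearMap.inr ℝ C U₁)
  have b1 := ih _ s1 z1
  have b0 := (bs_nemC s0 n).comp (bsn_clm n (ContinuousLinearMap.fst ℝ (Cb C) (W 2 U₁)))
  have b := ((pre_Nem2 b1 (mul 2 B₁.flip).flip (ContinuousLinearMap.fst ℝ (Cb C) (W 2 U₁))).add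
    (pre_Nem2 b1 (prd 2 B₂) (ContinuousLinearMap.snd ℝ (Cb C) (W 2 U₁)))).add
    (pre_Nem2 b0 (mul 2 B₂) (ContinuousLinearMap.snd ℝ (Cb C) (W 2 U₁)))
  refine bsn_succ_of_hasFDerivAt (hasFDerivAt_of_dense (bsn_zero_iff.1 (bsn_zero_nem hf h0)).1
    b.1.continuous (P := range (Prod.map id (co 2)))
    (denseRange_id.prodMap (denseRange_co 2)) ?_) b
  rintro _ ⟨⟨c, φ⟩, rfl⟩ _ ⟨⟨c', φ'⟩, rfl⟩ τ
  have e1 : Prod.map id (co 2) (c', φ') - Prod.map id (co 2) (c, φ) = (c' - c, co 2 (φ' - φ)) :=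
    Prod.ext rfl (map_sub (co 2) φ' φ).symm
  rw [e1]
  generalize c' - c = h
  generalize φ' - φ = ψ
  have e2 : ∀ τ : ℝ, Prod.map id (co 2) (c, φ) + τ • (h, co 2 ψ) =
      (c + τ • h, co 2 (φ + τ • ψ)) := fun τ =>
    Prod.ext rfl (by rw [map_add, map_smul]; rfl)
  have e3 : ∀ (τ : ℝ) (p : Pl), Cb.fn (c + τ • h) p = Cb.fn c p + τ • Cb.fn h p := fun τ p => by
    rw [map_add, map_smul]
    rfl
  simp only [e2]
  refine ((hasDerivAt_nem hf h0 c h φ ψ τ).congr_deriv ?_).congr_of_eventuallyEq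
    (Eventually.of_forall fun τ => ?_)
  · change _ = mul 2 B₁.flip h (nem _ (c + τ • h, co 2 (φ + τ • ψ))) +
      prd 2 B₂ (nem _ (c + τ • h, co 2 (φ + τ • ψ))) (co 2 ψ) +
      mul 2 B₂ (nemC _ (c + τ • h)) (co 2 ψ)
    rw [nem_co s1 z1, mul_co le_rfl, prd_co (Or.inr rfl), mul_co le_rfl, ← map_add, ← map_add,
      ← toW_co]
    refine congrArg (toW 2) (funext fun p => ?_)
    change _ = B₁ (D _ _ - D _ _) (Cb.fn h p) + B₂ (D _ _ - D _ _) (ψ.1 p) +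
      B₂ (Cb.fn (nemC _ (c + τ • h)) p) (ψ.1 p)
    rw [fn_nemC s0, hB₁, hB₂, hB₂, map_sub, hL, hL, ContinuousLinearMap.inl_apply,
      ContinuousLinearMap.inr_apply, ← map_add, Prod.mk_add_mk, add_zero, zero_add,
      ContinuousLinearMap.sub_apply, e3]
    have e4 := zero_Nem2 hf h0 p.2 (Cb.fn c p + τ • Cb.fn h p) (Cb.fn h p)
    have e5 := map_add (fderiv ℝ (f p.2) (Cb.fn c p + τ • Cb.fn h p, 0)) (Cb.fn h p, 0) (0, ψ.1 p)
    rw [e4, Prod.mk_add_mk, add_zero, zero_add, zero_add] at e5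
    rw [← e5, sub_add_cancel]
    rfl
  · dsimp only
    rw [nem_co hf h0, ← toW_co]
    exact congrArg (toW 2) (funext fun p => by rw [← e3]; rfl)

theorem enc_Nem2 {F A : Type} [NormedAddCommGroup F] [NormedSpace ℝ F] [FiniteDimensional ℝ F]
    [NormedAddCommGroup A] [NormedSpace ℝ A] {g : ℝ → A → F} (hg : SP g) :
    ∃ (m : ℕ) (D : ℝ → A → EuclideanSpace ℝ (Fin m)) (L : EuclideanSpace ℝ (Fin m) →L[ℝ] F),
      SP D ∧ ∀ t a, L (D t a) = g t a :=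
  ⟨_, fun t a => toEuclidean (g t a), toEuclidean.symm.toContinuousLinearMap,
    ⟨toEuclidean.contDiff.comp hg.1, fun t => by simp only [hg.2 t]⟩,
    fun _ _ => toEuclidean.symm_apply_apply _⟩

theorem bsn_Nem2 (n : ℕ) : ∀ (U : Type) [NormedAddCommGroup U] [InnerProductSpace ℝ U]
    [FiniteDimensional ℝ U] (g : ℝ → C × U₁ → U), SP g → (∀ t c, g t (c, 0) = 0) →
      BSn n (nem g) := by
  induction n with
  | zero => exact fun U _ _ _ g hg h0 => bsn_zero_nem hg h0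
  | succ n ih =>
    intro U _ _ _ g hg h0
    obtain ⟨m, D, L, hD, hL⟩ := enc_Nem2 hg.fderiv
    exact step_Nem2 hg h0 hD L hL (ih _)

theorem bs_nem (hf : SP f) (h0 : ∀ t c, f t (c, 0) = 0) : BS (nem f) := fun n =>
  bsn_Nem2 n U₂ f hf h0

end

end Pool.Agent.P.MP_de3acd_gt.FH
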