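import Pool.Agent.P.MP_de3acd_gt.FH.JP
import Pool.Agent.P.MP_de3acd_gt.FH.JetC

/-! The coefficients of the normalised operator.
Sketch: with G from exists_pji the inverse is G (j p); cn_comp, cn_comp_sub, Bdd.comp for the maps fun _ => pj and fun _ => G, which satisfy SP. ds (pj ∘ j) = -(1 / 2) • J0 ∘ ds j, likewise dt, so
nS j S p = g (j p, ds j p, dt j p, S p) for a smooth g that depends only on A; the jet is controlled by Cn.prod and cn_succ (ds_add, ds_smul or fderiv_sub for ds (j - j')). -/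

open Set Filter Topology MeasureTheory
open scoped ContDiff NNReal ENNReal RealInnerProductSpace

namespace Pool.Agent.P.MP_de3acd_gt.FH

noncomputable section

variable {V : Type} [NormedAddCommGroup V] [InnerProductSpace ℝ V] [Sym V]

variable {σ : ℝ} {j S : Pl → V →L[ℝ] V}

theorem sp_NzA {C F : Type} [NormedAddCommGroup C] [NormedSpace ℝ C] [NormedAddCommGroup F]
    [NormedSpace ℝ F] {g : C → F} (hg : ContDiff ℝ ∞ g) : SP fun _ : ℝ => g :=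
  ⟨hg.comp contDiff_snd, fun _ => rfl⟩

theorem pj_NzA : ContDiff ℝ ∞ (pj : (V →L[ℝ] V) → V →L[ℝ] V) :=
  (contDiff_const.sub (contDiff_const.clm_comp contDiff_id)).const_smul _

theorem up_NzA {F F₁ : Type} [NormedAddCommGroup F] [NormedSpace ℝ F] [NormedAddCommGroup F₁]
    [NormedSpace ℝ F₁] {k k' : ℕ} {f : Pl → F} {d : Pl → F₁} {I : Set ℝ} {L L' ε : ℝ}
    (h : Cn k f I (L * ε)) (hd : Cn k' d I ε) (hL : L ≤ L') : Cn k f I (L' * ε) := by
  rcases I.eq_empty_or_nonempty with rfl | ⟨s, hs⟩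
  · exact cn_empty_JetC _ _ _
  · exact h.up_JetC (mul_le_mul_of_nonneg_right hL
      ((norm_nonneg _).trans (hd.le (p := (s, 0)) hs)))

theorem pj_bound (k : ℕ) (A : ℝ) : ∃ A', ∀ j : Pl → V →L[ℝ] V, ContDiff ℝ ∞ j →
    (∀ p, Cpt Ω0 (j p)) → Cn k j univ A → Cn k (fun p => pj (j p)) univ A' ∧
      Cn k (fun p => (pj (j p)).inverse) univ A' := by
  obtain ⟨G, hG, e⟩ := exists_pji (V := V) A
  obtain ⟨A₁, h1⟩ := cn_comp (sp_NzA (pj_NzA (V := V))) k A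
  obtain ⟨A₂, h2⟩ := cn_comp (sp_NzA hG) k A
  refine ⟨max A₁ A₂, fun j hj hc hA => ⟨(h1 j _ hj hA).up_JetC (le_max_left _ _), ?_⟩⟩
  simp only [← fun p => e (j p) (hc p) (hA.le (mem_univ _))]
  exact (h2 j _ hj hA).up_JetC (le_max_right _ _)

theorem pj_lip (k : ℕ) (A : ℝ) : ∃ L, 0 ≤ L ∧ ∀ (j j' : Pl → V →L[ℝ] V) (I : Set ℝ) (ε : ℝ),
    ContDiff ℝ ∞ j → ContDiff ℝ ∞ j' → (∀ p, Cpt Ω0 (j p)) → (∀ p, Cpt Ω0 (j' p)) →
      Cn k j univ A → Cn k j' univ A → Cn k (j - j') I ε →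
        Cn k (fun p => pj (j p) - pj (j' p)) I (L * ε) ∧
          Cn k (fun p => (pj (j p)).inverse - (pj (j' p)).inverse) I (L * ε) := by
  obtain ⟨G, hG, e⟩ := exists_pji (V := V) A
  obtain ⟨L₁, a1, h1⟩ := cn_comp_sub (sp_NzA (pj_NzA (V := V))) k A
  obtain ⟨L₂, -, h2⟩ := cn_comp_sub (sp_NzA hG) k A
  refine ⟨max L₁ L₂, le_max_of_le_left a1, fun j j' I ε hj hj' hc hc' hA hA' hd => ?_⟩
  have b1 := hA.mono le_rfl (subset_univ I) le_rfl
  have b2 := hA'.mono le_rfl (subset_univ I) le_rfl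
  refine ⟨up_NzA (h1 j j' I ε hj hj' b1 b2 hd) hd (le_max_left _ _), ?_⟩
  simp only [← fun p => e (j p) (hc p) (hA.le (mem_univ _)),
    ← fun p => e (j' p) (hc' p) (hA'.le (mem_univ _))]
  exact up_NzA (h2 j j' I ε hj hj' b1 b2 hd) hd (le_max_right _ _)

theorem Coef.bdd_pj (h : Coef σ j S) : Bdd (fun p => FH.pj (j p)) ∧ Per (fun p => FH.pj (j p)) ∧
    Bdd (fun p => (FH.pj (j p)).inverse) ∧ Per fun p => (FH.pj (j p)).inverse := by
  obtain ⟨A, hA⟩ := (bdd_iff.1 h.bj).2 0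
  obtain ⟨G, hG, e⟩ := exists_pji (V := V) A
  refine ⟨Bdd.comp (sp_NzA pj_NzA) h.bj, fun s t => congrArg FH.pj (h.pj s t), ?_,
    fun s t => congrArg (fun a => (FH.pj a).inverse) (h.pj s t)⟩
  simp only [← fun p => e (j p) (h.cpt p) (hA.le (mem_univ _))]
  exact Bdd.comp (sp_NzA hG) h.bj

/-- The normalised zero order term as a function of the jet. -/
def g_NzA (q : (V →L[ℝ] V) × (V →L[ℝ] V) × (V →L[ℝ] V) × (V →L[ℝ] V) × (V →L[ℝ] V)) :
    V →L[ℝ] V := (q.1.comp q.2.1 - q.2.2.1 - Sym.J0.comp q.2.2.2.1).comp q.2.2.2.2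

theorem gs_NzA : ContDiff ℝ ∞ (g_NzA (V := V)) :=
  (((contDiff_fst.clm_comp contDiff_snd.fst).sub contDiff_snd.snd.fst).sub
    (contDiff_const.clm_comp contDiff_snd.snd.snd.fst)).clm_comp contDiff_snd.snd.snd.snd

/-- The jet that determines the normalised zero order term. -/
def jet_NzA (j S : Pl → V →L[ℝ] V) (p : Pl) :
    (V →L[ℝ] V) × (V →L[ℝ] V) × (V →L[ℝ] V) × (V →L[ℝ] V) × (V →L[ℝ] V) :=
  (pj (j p), S p, ds (fun q => pj (j q)) p, dt (fun q => pj (j q)) p, (pj (j p)).inverse)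

theorem eq_NzA (j S : Pl → V →L[ℝ] V) : nS j S = fun p => g_NzA (jet_NzA j S p) :=
  funext fun _ => rfl

theorem bdd_NzA (h : Coef σ j S) : Bdd (jet_NzA j S) :=
  h.bdd_pj.1.prod (h.bS.prod (h.bdd_pj.1.ds.prod (h.bdd_pj.1.dt.prod h.bdd_pj.2.2.1)))

theorem prod_NzA {F : Type} [NormedAddCommGroup F] [NormedSpace ℝ F] {a b c d e : Pl → F}
    (ha : Bdd a) (hb : Bdd b) (hc : Bdd c) (hd : Bdd d) (he : Bdd e) {k : ℕ} {I : Set ℝ} {A : ℝ}
    (a' : Cn k a I A) (b' : Cn k b I A) (c' : Cn k c I A) (d' : Cn k d I A) (e' : Cn k e I A) :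
    Cn k (fun p => (a p, b p, c p, d p, e p)) I A :=
  a'.prod ha.1 (hb.prod (hc.prod (hd.prod he))).1 (b'.prod hb.1 (hc.prod (hd.prod he)).1
    (c'.prod hc.1 (hd.prod he).1 (d'.prod hd.1 he.1 e')))

theorem Coef.nS (h : Coef 1 j S) : Coef 1 j0 (nS j S) := by
  obtain ⟨-, h2, -⟩ := h.bdd_pj
  have h3 := Bdd.comp (sp_NzA gs_NzA) (bdd_NzA h)
  refine ⟨.inl rfl, bdd_const _, fun _ _ => rfl, ?_, fun s t => ?_, fun _ => cpt_J0⟩
  · rw [eq_NzA]
    exact h3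
  · rw [FH.nS, FH.nS, h2.ds s t, h2.dt s t, h.pj s t, h.pS s t]

theorem nS_lip (A : ℝ) : ∃ L, 0 ≤ L ∧ ∀ (j S j' S' : Pl → V →L[ℝ] V) (I : Set ℝ) (ε : ℝ),
    Coef 1 j S → Coef 1 j' S' → Cn 2 j univ A → Cn 2 j' univ A → Cn 1 S univ A → Cn 1 S' univ A →
      Cn 2 (j - j') I ε → Cn 1 (S - S') I ε → Cn 1 (nS j S - nS j' S') I (L * ε) := by
  obtain ⟨A', h1⟩ := pj_bound (V := V) 2 A
  obtain ⟨L', -, h2⟩ := pj_lip (V := V) 2 A
  obtain ⟨L, hL, h3⟩ := cn_comp_sub (sp_NzA (gs_NzA (V := V))) 1 (max A' A)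
  refine ⟨L * max L' 1, by positivity, fun j S j' S' I ε c c' a a' b b' d e => ?_⟩
  have key : ∀ j S : Pl → V →L[ℝ] V, Coef 1 j S → Cn 2 j univ A → Cn 1 S univ A →
      Cn 1 (jet_NzA j S) I (max A' A) := fun j S c a b => by
    obtain ⟨x1, -, x3, -⟩ := c.bdd_pj
    obtain ⟨y1, y2⟩ := h1 j c.bj.1 c.cpt a
    exact prod_NzA x1 c.bS x1.ds x1.dt x3 (y1.mono one_le_two (subset_univ I) (le_max_left _ _))
      (b.mono le_rfl (subset_univ I) (le_max_right _ _))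
      (y1.2.1.mono le_rfl (subset_univ I) (le_max_left _ _))
      (y1.2.2.mono le_rfl (subset_univ I) (le_max_left _ _))
      (y2.mono one_le_two (subset_univ I) (le_max_left _ _))
  obtain ⟨x1, -, x3, -⟩ := c.bdd_pj
  obtain ⟨z1, -, z3, -⟩ := c'.bdd_pj
  obtain ⟨y1, y2⟩ := h2 j j' I ε c.bj.1 c'.bj.1 c.cpt c'.cpt a a' d
  have y3 : Cn 2 ((fun p => pj (j p)) - fun p => pj (j' p)) I (max L' 1 * ε) :=
    up_NzA y1 d (le_max_left L' 1)
  have y4 := y3.2.1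
  have y5 := y3.2.2
  rw [ds_sub_JetC x1.1 z1.1] at y4
  rw [dt_sub_JetC x1.1 z1.1] at y5
  have y6 : Cn 1 (S - S') I (max L' 1 * ε) := up_NzA (by rwa [one_mul]) e (le_max_right L' 1)
  have y7 : Cn 2 ((fun p => (pj (j p)).inverse) - fun p => (pj (j' p)).inverse) I
      (max L' 1 * ε) := up_NzA y2 d (le_max_left L' 1)
  have y8 : Cn 1 (jet_NzA j S - jet_NzA j' S') I (max L' 1 * ε) :=
    prod_NzA (x1.sub z1) (c.bS.sub c'.bS) (x1.ds.sub z1.ds) (x1.dt.sub z1.dt) (x3.sub z3)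
      y3.pred_JetC y6 y4 y5 y7.pred_JetC
  rw [mul_assoc, eq_NzA, eq_NzA]
  exact h3 (jet_NzA j S) (jet_NzA j' S') I _ (bdd_NzA c).1 (bdd_NzA c').1 (key j S c a b)
    (key j' S' c' a' b') y8

theorem nS_congr {j' S' : Pl → V →L[ℝ] V} {p : Pl} (h : j =ᶠ[𝓝 p] j') (h' : S p = S' p) :
    nS j S p = nS j' S' p := by
  have e : fderiv ℝ (fun q => pj (j q)) p = fderiv ℝ (fun q => pj (j' q)) p :=
    (h.fun_comp pj).fderiv_eq
  simp only [nS, ds, dt, e, h.eq_of_nhds, h']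

theorem nS_tsl (v : Pl) (j S : Pl → V →L[ℝ] V) : nS (tsl v j) (tsl v S) = tsl v (nS j S) :=
  funext fun p => by
    change g_NzA (pj (j (p + v)), S (p + v), ds (tsl v fun q => pj (j q)) p,
      dt (tsl v fun q => pj (j q)) p, (pj (j (p + v))).inverse) = _
    rw [ds_tsl, dt_tsl]
    rfl

theorem nS_lp (x y : ℝ → V →L[ℝ] V) : nS (lp x) (lp y) = lp fun t => nS (lp x) (lp y) (0, t) :=
  funext fun p => by
    have e : ∀ z : ℝ → V →L[ℝ] V, tsl (p.1, 0) (lp z) = lp z := fun z =>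
      funext fun q => congrArg z (add_zero q.2)
    have h := congrFun (nS_tsl (p.1, 0) (lp x) (lp y)) (0, p.2)
    rw [e, e] at h
    exact (congrArg _ (Prod.ext (zero_add _).symm (add_zero _).symm)).trans h.symm

end

end Pool.Agent.P.MP_de3acd_gt.FH
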