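import Pool.Agent.P.MP_de3acd_gt.FH.NzA
import Pool.Agent.P.MP_de3acd_gt.FH.Mop
import Pool.Agent.P.MP_de3acd_gt.FH.Frm

/-! The normalised operator is conjugate to the given one.
Sketch: Dop_nS: W.ext_co or W.induction, mul_co, Dop_co, ds_bil, dt_bil, Cpt.pj_comm, Cpt.pj_left; or Rep.Dop, Rep.mop, Rep.unique. exists_hil_nz: exists_mop_equiv, ContinuousLinearEquiv.prodCongr, frm_apply;
toW 1 (P K) = mop 1 P (toW 1 K) (Rep.mop, rep_toW_of_mem, Rep.toW_eq); prW l' (mop 2 P ξ) = prW l ξ (Rep.prW, Rep.mop, rep_fn, Cpt.pj_symm, inner_J0_left, Sym.sq). SC.nz: nS_lip, pj_bound, pj_lip with A + 1;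
P' K' - P K = P' (K' - K) + (P' - P) K, nrm_add_le, nrm_bil, nrm_clm, nrm_lt_top_of_mem, ENNReal.tendsto_nhds_zero. -/

open Set Filter Topology MeasureTheory
open scoped ContDiff NNReal ENNReal RealInnerProductSpace

namespace Pool.Agent.P.MP_de3acd_gt.FH

noncomputable section

variable {V : Type} [NormedAddCommGroup V] [InnerProductSpace ℝ V] [Sym V]
variable {a b a' b' : ℕ}

variable {j S : Pl → V →L[ℝ] V} {T : Op V a b}

omit [Sym V] in
theorem mem_NzB {P : Pl → V →L[ℝ] V} (hP : Bdd P) (pP : Per P) {φ : Pl → V} (h : φ ∈ Dsub V) :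
    (fun p => P p (φ p)) ∈ Dsub V :=
  bil_mem hP.1 pP h (ContinuousLinearMap.id ℝ (V →L[ℝ] V))

theorem J_NzB {φ : Pl → V} (h : φ ∈ Dsub V) : (fun p => Sym.J0 (φ p)) ∈ Dsub V :=
  bil_mem (f := j0) contDiff_const (fun _ _ => rfl) h (ContinuousLinearMap.id ℝ (V →L[ℝ] V))

theorem Dop_nS (h : Coef 1 j S) (ξ : W 2 V) :
    Dop 1 1 j0 (nS j S) (mop 2 (fun p => pj (j p)) ξ) =
      mop 1 (fun p => pj (j p)) (Dop 1 1 j S ξ) := by
  obtain ⟨b1, p1, -, -⟩ := h.bdd_pj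
  have : (Dop 1 1 j0 (nS j S)).comp (mop 2 fun p => pj (j p)) =
      (mop 1 fun p => pj (j p)).comp (Dop 1 1 j S) := W.ext_co fun φ => by
    have m := mem_NzB b1 p1 φ.2
    have r1 := ((rep_co 2 φ).mop le_rfl b1 p1).Dop le_rfl h.nS m.1 m.2.1
    have r2 := ((rep_co 2 φ).Dop le_rfl h φ.2.1 φ.2.2.1).mop one_le_two b1 p1
    refine r1.unique ?_
    have e : dop 1 j0 (nS j S) (fun p => pj (j p) (φ.1 p)) =
        fun p => pj (j p) (dop 1 j S φ.1 p) := funext fun p => by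
      have d1 := b1.1.differentiable (by simp) p
      have d2 := φ.2.1.differentiable (by simp) p
      have e1 := ds_bil (ContinuousLinearMap.id ℝ (V →L[ℝ] V)) d1 d2
      have e2 := dt_bil (ContinuousLinearMap.id ℝ (V →L[ℝ] V)) d1 d2
      simp only [ContinuousLinearMap.id_apply] at e1 e2
      simp only [dop, e1, e2, j0, nS, one_smul, map_add, ContinuousLinearMap.comp_apply,
        sub_apply, Cpt.pj_left (h.cpt p), Cpt.pj_comm (h.cpt p)]
      abel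
    rw [e]
    exact r2
  exact congrArg (fun T : W 2 V →L[ℝ] W 1 V => T ξ) this


theorem equiv_NzB (h : Coef 1 j S) {k : ℕ} (hk : k ≤ 2) :
    ∃ f : W k V ≃L[ℝ] W k V, ∀ ξ, f ξ = mop k (fun p => pj (j p)) ξ := by
  obtain ⟨b1, p1, b2, p2⟩ := h.bdd_pj
  obtain ⟨f, hf, -⟩ := exists_mop_equiv hk b1 p1 b2 p2 (fun p => Cpt.pj_right (h.cpt p))
    fun p => Cpt.pj_left (h.cpt p)
  exact ⟨f, hf⟩

theorem inj_NzB {X Y : Type} {f g : X → Y} (e : X ≃ X) (e' : Y ≃ Y) (h : ∀ z, f (e z) = e' (g z)) :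
    (Function.Injective f ↔ Function.Injective g) ∧
      (Function.Bijective f ↔ Function.Bijective g) := by
  have : f ∘ e = e' ∘ g := funext h
  exact ⟨by rw [← e.injective_comp f, this, e'.comp_injective],
    by rw [← e.bijective_comp f, this, e'.comp_bijective]⟩

theorem bij_nS (h : Coef 1 j S) :
    Function.Bijective (Dop 1 1 j0 (nS j S)) ↔ Function.Bijective (Dop 1 1 j S) := by
  obtain ⟨f, hf⟩ := equiv_NzB h (k := 2) le_rfl
  obtain ⟨g, hg⟩ := equiv_NzB h (k := 1) one_le_two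
  exact (inj_NzB f.toEquiv g.toEquiv fun z =>
    (congrArg _ (hf z)).trans ((Dop_nS h z).trans (hg _).symm)).2


theorem CT.nz (h : CT T) : NA (nz T) := by
  obtain ⟨b1, p1, b2, p2⟩ := h.1.bdd_pj
  exact ⟨rfl, h.1.nS, fun i => mem_NzB b1 p1 (h.2.1 i),
    fun i => J0_mem (mem_NzB b2 p2 (J_NzB (h.2.2 i)))⟩


theorem CT.exists_hil_nz (h : CT T) :
    ∃ (e : (W 2 V × (Fin a → ℝ)) ≃L[ℝ] W 2 V × (Fin a → ℝ))
      (e' : (W 1 V × (Fin b → ℝ)) ≃L[ℝ] W 1 V × (Fin b → ℝ)),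
      ∀ z, hil (FH.nz T) (e z) = e' (hil T z) := by
  obtain ⟨f, hf⟩ := equiv_NzB h.1 (k := 2) le_rfl
  obtain ⟨g, hg⟩ := equiv_NzB h.1 (k := 1) one_le_two
  obtain ⟨b1, p1, -, -⟩ := h.1.bdd_pj
  refine ⟨f.prodCongr (ContinuousLinearEquiv.refl ℝ _), g.prodCongr (ContinuousLinearEquiv.refl ℝ _),
    fun z => ?_⟩
  have e1 : ∀ i, toW 1 (fun p => pj (T.j p) (T.K i p)) = g (toW 1 (T.K i)) := fun i =>
    (((rep_toW_of_mem 1 (h.2.1 i)).mop one_le_two b1 p1).toW_eq).trans (hg _).symm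
  have e2 : ∀ i, prW ((FH.nz T).l i) (f z.1) = prW (T.l i) z.1 := fun i => by
    rw [hf, ((rep_fn z.1).mop le_rfl b1 p1).prW (h.nz.2.2.2 i), (rep_fn z.1).prW (h.2.2 i), pair,
      pair]
    refine integral_congr_ae (Eventually.of_forall fun p => ?_)
    simp only [FH.nz, Ω0, inner_neg_right, Sym.iso]
    rw [(Cpt.pj_symm (h.1.cpt p) _ _).1, Cpt.pj_right (h.1.cpt p), inner_J0_left]
  rw [hil, hil, frm_apply, frm_apply]
  refine Prod.ext ?_ (funext fun i => congrArg (· + _) (e2 i))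
  change Dop 1 1 j0 (nS T.j T.S) (f z.1) + ∑ i, z.2 i • toW 1 (fun p => pj (T.j p) (T.K i p)) =
    g (_ + _)
  rw [map_add, map_sum, hf, Dop_nS h.1, hg]
  simp only [e1, map_smul]


theorem CT.bij_nz (h : CT T) :
    Function.Bijective (hil (FH.nz T)) ↔ Function.Bijective (hil T) := by
  obtain ⟨e, e', he⟩ := h.exists_hil_nz
  exact (inj_NzB e.toEquiv e'.toEquiv he).2


theorem CT.inj_nz (h : CT T) :
    Function.Injective (hil (FH.nz T)) ↔ Function.Injective (hil T) := by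
  obtain ⟨e, e', he⟩ := h.exists_hil_nz
  exact (inj_NzB e.toEquiv e'.toEquiv he).1


theorem nz_ngt (i : Fin b) (T : Op V a b) : nz (ngt i T) = ngt i (nz T) := by
  simp only [nz, ngt, Op.mk.injEq, true_and, and_true]
  funext i'
  by_cases e : i' = i
  · subst e
    funext p
    simp only [Function.update_self, Pi.neg_apply, map_neg]
  · simp only [Function.update_of_ne e]


omit [Sym V] in
theorem clm_NzB {N : Type} {l : Filter N} {k : ℕ} {f : N → Pl → V} {g : Pl → V} (A : V →L[ℝ] V)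
    (hf : ∀ᶠ n in l, ContDiff ℝ ∞ (f n)) (hg : ContDiff ℝ ∞ g)
    (h : Tendsto (fun n => nrm k (f n - g) univ) l (𝓝 0)) :
    Tendsto (fun n => nrm k ((fun p => A (f n p)) - fun p => A (g p)) univ) l (𝓝 0) := by
  have := ENNReal.Tendsto.const_mul (a := ENNReal.ofReal (‖A‖ ^ 2)) h
    (Or.inr ENNReal.ofReal_ne_top)
  rw [mul_zero] at this
  refine tendsto_of_tendsto_of_tendsto_of_le_of_le' tendsto_const_nhds this
    (Eventually.of_forall fun _ => zero_le) (hf.mono fun n hn => ?_)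
  have e : ((fun p => A (f n p)) - fun p => A (g p)) = fun p => A ((f n - g) p) :=
    funext fun p => (map_sub A _ _).symm
  rw [e]
  exact nrm_clm k A (f := f n - g) (hn.sub hg) univ

omit [Sym V] in
theorem bil_NzB {N : Type} {l : Filter N} {k : ℕ} {f : N → Pl → V} {g : Pl → V} {A : ℝ}
    {P : N → Pl → V →L[ℝ] V} {Q : Pl → V →L[ℝ] V}
    (hf : ∀ᶠ n in l, ContDiff ℝ ∞ (f n) ∧ ContDiff ℝ ∞ (P n) ∧ Cn k (P n) univ A)
    (hg : g ∈ Dsub V) (hQ : ContDiff ℝ ∞ Q)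
    (hP : ∀ ε > 0, ∀ᶠ n in l, Cn k (fun p => P n p - Q p) univ ε)
    (h : Tendsto (fun n => nrm k (f n - g) univ) l (𝓝 0)) :
    Tendsto (fun n => nrm k ((fun p => P n p (f n p)) - fun p => Q p (g p)) univ) l (𝓝 0) := by
  let B := ContinuousLinearMap.id ℝ (V →L[ℝ] V)
  have h1 := ENNReal.Tendsto.const_mul (a := ENNReal.ofReal (9 ^ k * (‖B‖ * A) ^ 2)) h
    (Or.inr ENNReal.ofReal_ne_top)
  have h2 : Tendsto (fun n => nrm k (fun p => (P n p - Q p) (g p)) univ) l (𝓝 0) := by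
    refine ENNReal.tendsto_nhds_zero.2 fun ε hε => ?_
    have c : Continuous fun δ : ℝ => (9 : ℝ) ^ k * (‖B‖ * δ) ^ 2 := by fun_prop
    have t := ENNReal.Tendsto.mul_const (b := nrm k g univ)
      (ENNReal.tendsto_ofReal (c.tendsto' 0 0 (by simp))) (Or.inr (nrm_lt_top_of_mem k hg).ne)
    rw [ENNReal.ofReal_zero, zero_mul] at t
    obtain ⟨δ, h3, h4⟩ := (((ENNReal.tendsto_nhds_zero.1 t ε hε).filter_mono
      (nhdsWithin_le_nhds (s := Ioi 0))).and self_mem_nhdsWithin).exists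
    filter_upwards [hP δ h4, hf] with n hn hn'
    exact (nrm_bil k B MeasurableSet.univ (hn'.2.1.sub hQ) hg.1 hn).trans h3
  have h3 := (ENNReal.Tendsto.const_mul (a := 2) h1 (Or.inr (by simp))).add
    (ENNReal.Tendsto.const_mul (a := 2) h2 (Or.inr (by simp)))
  simp only [mul_zero, add_zero] at h3
  refine tendsto_of_tendsto_of_tendsto_of_le_of_le' tendsto_const_nhds h3
    (Eventually.of_forall fun _ => zero_le) (hf.mono fun n hn => ?_)
  have e : ((fun p => P n p (f n p)) - fun p => Q p (g p)) =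
      (fun p => P n p ((f n - g) p)) + fun p => (P n p - Q p) (g p) := funext fun p => by
    simp only [Pi.sub_apply, Pi.add_apply, map_sub, sub_apply]
    abel
  have s1 : ContDiff ℝ ∞ (f n - g) := hn.1.sub hg.1
  rw [e]
  refine (nrm_add_le k (hn.2.1.clm_apply s1) ((hn.2.1.sub hQ).clm_apply hg.1) univ).trans ?_
  gcongr
  exact nrm_bil k B MeasurableSet.univ hn.2.1 s1 hn.2.2

theorem near_NzB {F : Type} [NormedAddCommGroup F] [NormedSpace ℝ F] {k : ℕ} {f g : Pl → F} {A : ℝ}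
    (hf : ContDiff ℝ ∞ f) (hg : ContDiff ℝ ∞ g) (h : Cn k (f - g) univ 1) (h' : Cn k g univ A) :
    Cn k f univ (1 + A) := by
  have := Cn.add (f := f - g) (hf.sub hg) hg h h'
  rwa [sub_add_cancel] at this

theorem small_NzB {L ε : ℝ} (hL : 0 ≤ L) (hε : 0 < ε) : ∃ δ > 0, L * δ ≤ ε :=
  ⟨ε / (L + 1), by positivity, by
    rw [← mul_div_assoc, div_le_iff₀ (by positivity)]
    nlinarith⟩

theorem SC.nz {N : Type} {l : Filter N} {U : N → Op V a b} (h : SC l U T) (hT : CT T)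
    (hU : ∀ᶠ n in l, CT (U n)) : SC l (fun n => nz (U n)) (nz T) := by
  obtain ⟨A, -, hA⟩ := hT.1.bj.cn 2
  obtain ⟨C, -, hC⟩ := hT.1.bS.cn 1
  let D := 1 + max A C
  have a1 : A ≤ D := (le_max_left A C).trans (le_add_of_nonneg_left zero_le_one)
  have a2 : C ≤ D := (le_max_right A C).trans (le_add_of_nonneg_left zero_le_one)
  have t1 := hA.mono le_rfl subset_rfl a1
  have t2 := hC.mono le_rfl subset_rfl a2
  have hb : ∀ᶠ n in l, CT (U n) ∧ Cn 2 (U n).j univ D ∧ Cn 1 (U n).S univ D := by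
    filter_upwards [hU, h.j 1 one_pos, h.S 1 one_pos] with n h1 h2 h3
    exact ⟨h1, near_NzB h1.1.bj.1 hT.1.bj.1 h2 (hA.mono le_rfl subset_rfl (le_max_left A C)),
      near_NzB h1.1.bS.1 hT.1.bS.1 h3 (hC.mono le_rfl subset_rfl (le_max_right A C))⟩
  obtain ⟨A', hA'⟩ := pj_bound (V := V) 2 D
  obtain ⟨L, L0, hL⟩ := pj_lip (V := V) 2 D
  obtain ⟨L', L0', hL'⟩ := nS_lip (V := V) D
  have hp : ∀ ε > 0, ∀ᶠ n in l, Cn 2 (fun p => pj ((U n).j p) - pj (T.j p)) univ ε ∧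
      Cn 2 (fun p => (pj ((U n).j p)).inverse - (pj (T.j p)).inverse) univ ε := fun ε hε => by
    obtain ⟨δ, d1, d2⟩ := small_NzB L0 hε
    filter_upwards [hb, h.j δ d1] with n h1 h2
    have := hL _ _ _ _ h1.1.1.bj.1 hT.1.bj.1 h1.1.1.cpt hT.1.cpt h1.2.1 t1 h2
    exact ⟨this.1.mono le_rfl subset_rfl d2, this.2.mono le_rfl subset_rfl d2⟩
  refine ⟨fun ε hε => Eventually.of_forall fun n => ?_, fun ε hε => ?_, fun i => ?_, fun i => ?_,
    h.M⟩
  · change Cn 2 (j0 - j0) univ ε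
    rw [sub_self]
    exact (cn_const 2 0 univ).mono le_rfl subset_rfl (norm_zero.trans_le hε.le)
  · obtain ⟨δ, d1, d2⟩ := small_NzB L0' hε
    filter_upwards [hb, h.j δ d1, h.S δ d1] with n h1 h2 h3
    exact (hL' _ _ _ _ _ _ h1.1.1 hT.1 h1.2.1 t1 h1.2.2 t2 h2 h3).mono le_rfl subset_rfl d2
  · exact bil_NzB (A := A') (P := fun n p => pj ((U n).j p)) (hb.mono fun n hn =>
      ⟨(hn.1.2.1 i).1, hn.1.1.bdd_pj.1.1, (hA' _ hn.1.1.bj.1 hn.1.1.cpt hn.2.1).1.mono one_le_two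
        subset_rfl le_rfl⟩) (hT.2.1 i) hT.1.bdd_pj.1.1
      (fun ε hε => (hp ε hε).mono fun n hn => hn.1.mono one_le_two subset_rfl le_rfl) (h.K i)
  · have m := fun {T : Op V a b} (h : CT T) =>
      mem_NzB h.1.bdd_pj.2.2.1 h.1.bdd_pj.2.2.2 (J_NzB (h.2.2 i))
    exact clm_NzB (-Sym.J0) (hU.mono fun n hn => (m hn).1) (m hT).1
      (bil_NzB (A := A') (P := fun n p => (pj ((U n).j p)).inverse) (hb.mono fun n hn =>
        ⟨(J_NzB (hn.1.2.2 i)).1, hn.1.1.bdd_pj.2.2.1.1, (hA' _ hn.1.1.bj.1 hn.1.1.cpt hn.2.1).2.mono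
          zero_le_two subset_rfl le_rfl⟩) (J_NzB (hT.2.2 i)) hT.1.bdd_pj.2.2.1.1
        (fun ε hε => (hp ε hε).mono fun n hn => hn.2.mono zero_le_two subset_rfl le_rfl)
        (clm_NzB Sym.J0 (hU.mono fun n hn => (hn.2.2 i).1) (hT.2.2 i).1 (h.l' i)))


end

end Pool.Agent.P.MP_de3acd_gt.FH
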