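import Pool.Agent.P.MP_de3acd_gt.FH.NzB
import Pool.Agent.P.MP_de3acd_gt.FH.AA
import Pool.Agent.P.MP_de3acd_gt.FH.Dict

/-! The ends of the normalised operator.
Sketch: cn_of_tendsto: unif_EndB and cn_interp. cn_of_cocompact: cocompact_eq_atBot_atTop, cn_of_forall. lim_smooth: aa for the translates tsl (± n, 0) f (cn_tsl, bdd_iff), LocC.tendsto; g t is the limit at (0, t).
sim_nS: nS_lip with I = {s | R ≤ |s|}. exists_ends: for the end e with limits j', B the loops j' and S' = -j' B are smooth (lim_smooth), Coef 1 (lp j') (lp S') (bdd_lp, cpt_of_tendsto), α t = nS (lp j') (lp S') (0, t)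
(nS_lp, Coef.nS), est_const, bijective_of_est, bij_nS; for s ≤ -R the function ref α β is locally lp α, for R ≤ s it is lp β (Cn.congr, Cn.union), nS_lip, cn_of_tendsto, cn_of_forall. -/

open Set Filter Topology MeasureTheory
open scoped ContDiff NNReal ENNReal RealInnerProductSpace

namespace Pool.Agent.P.MP_de3acd_gt.FH

noncomputable section

variable {V : Type} [NormedAddCommGroup V] [InnerProductSpace ℝ V] [Sym V]
variable {a b a' b' : ℕ}

section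

variable {F : Type} [NormedAddCommGroup F] [NormedSpace ℝ F] {f : Pl → F} {e : Filter ℝ}

theorem nbhd_NzC {P : ℝ → Prop} (he : e = atBot ∨ e = atTop) (h : ∀ᶠ s in e, P s) :
    ∀ᶠ s in e, ∀ s', |s' - s| ≤ 1 → P s' := by
  rcases he with rfl | rfl
  · obtain ⟨R, hR⟩ := eventually_atBot.1 h
    exact (eventually_le_atBot (R - 1)).mono fun s hs s' h' =>
      hR s' (by linarith [(abs_le.1 h').2])
  · obtain ⟨R, hR⟩ := eventually_atTop.1 h
    exact (eventually_ge_atTop (R + 1)).mono fun s hs s' h' =>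
      hR s' (by linarith [(abs_le.1 h').1])

theorem far_NzC {P : ℝ → Prop} (h : ∀ᶠ s in atBot, P s) (h' : ∀ᶠ s in atTop, P s) :
    ∃ R, ∀ s, R ≤ |s| → P s := by
  obtain ⟨R, hR⟩ := eventually_atBot.1 h
  obtain ⟨R', hR'⟩ := eventually_atTop.1 h'
  refine ⟨max (-R) R', fun s hs => ?_⟩
  rcases le_total 0 s with h0 | h0
  · rw [abs_of_nonneg h0] at hs
    exact hR' s ((le_max_right _ _).trans hs)
  · rw [abs_of_nonpos h0] at hs
    exact hR s (neg_le_neg_iff.1 ((le_max_left _ _).trans hs))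

theorem cn_of_tendsto (hf : Bdd f) (pf : Per f) (he : e = atBot ∨ e = atTop)
    (h : ∀ t, Tendsto (fun s => f (s, t)) e (𝓝 0)) (k : ℕ) {ε : ℝ} (hε : 0 < ε) :
    ∀ᶠ s in e, Cn k f {s} ε := by
  have : e.NeBot := by rcases he with rfl | rfl <;> infer_instance
  obtain ⟨A, -, hA⟩ := hf.cn (k + 1)
  obtain ⟨δ, hδ, H⟩ := cn_interp (F := F) k A hε
  refine (nbhd_NzC he ((unif_EndB hf pf h).2.2 δ hδ)).mono fun s hs => H f _ hf.1 hA ?_
  rintro p ⟨_, rfl, hp⟩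
  simpa using hs p.1 hp p.2

theorem cn_of_cocompact (hf : Bdd f) (pf : Per f)
    (h : ∀ t, Tendsto (fun s => f (s, t)) (cocompact ℝ) (𝓝 0)) (k : ℕ) {ε : ℝ} (hε : 0 < ε) :
    ∃ R, Cn k f {s | R ≤ |s|} ε := by
  rw [cocompact_eq_atBot_atTop] at h
  exact (far_NzC
    (cn_of_tendsto hf pf (Or.inl rfl) (fun t => (h t).mono_left le_sup_left) k hε)
    (cn_of_tendsto hf pf (Or.inr rfl) (fun t => (h t).mono_left le_sup_right) k hε)).imp
    fun R hR => cn_of_forall hR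

theorem lim_smooth [FiniteDimensional ℝ F] (hf : Bdd f) (pf : Per f) (he : e = atBot ∨ e = atTop)
    {g : ℝ → F} (h : ∀ t, Tendsto (fun s => f (s, t)) e (𝓝 (g t))) :
    ContDiff ℝ ∞ g ∧ ∀ t, g (t + 1) = g t := by
  obtain ⟨c, hc⟩ : ∃ c : ℕ → ℝ, Tendsto c atTop e := by
    rcases he with rfl | rfl
    · exact ⟨_, tendsto_neg_atTop_atBot.comp tendsto_natCast_atTop_atTop⟩
    · exact ⟨_, tendsto_natCast_atTop_atTop⟩
  obtain ⟨φ, G, hφ, bG, pG, hl⟩ := aa (f := fun n => tsl (c n, 0) f)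
    (fun n => ⟨contDiff_tsl hf.1 _, pf.tsl _⟩) fun k => by
      obtain ⟨A, -, hA⟩ := hf.cn k
      exact ⟨A, fun n => (cn_tsl _).2 hA⟩
  have e1 : g = fun t => G (0, t) := funext fun t =>
    tendsto_nhds_unique ((h t).comp (hc.comp hφ.tendsto_atTop))
      ((hl.tendsto (0, t)).congr fun n => by simp [tsl])
  rw [e1]
  exact ⟨bG.1.comp (contDiff_const.prodMk contDiff_id), pG 0⟩

theorem sub_NzC [FiniteDimensional ℝ F] (hf : Bdd f) (pf : Per f) (he : e = atBot ∨ e = atTop)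
    {g : ℝ → F} (h : ∀ t, Tendsto (fun s => f (s, t)) e (𝓝 (g t))) (k : ℕ) {ε : ℝ} (hε : 0 < ε) :
    ∀ᶠ s in e, Cn k (f - lp g) {s} ε := by
  have h1 := lim_smooth hf pf he h
  have h2 := bdd_lp h1.1 h1.2
  exact cn_of_tendsto (hf.sub h2.1) (per_sub_DopA pf h2.2.1) he
    (fun t => tendsto_sub_nhds_zero_iff.2 (h t)) k hε

end

variable {j S : Pl → V →L[ℝ] V} {T : Op V a b} {T' : Op V a' b'}

theorem lip_NzC {j' S' : Pl → V →L[ℝ] V} (h : Coef 1 j S) (h' : Coef 1 j' S') {ε : ℝ}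
    (hε : 0 < ε) : ∃ δ > 0, ∀ I, Cn 2 (j - j') I δ → Cn 1 (S - S') I δ →
      Cn 1 (nS j S - nS j' S') I ε := by
  obtain ⟨A₁, p1, h1⟩ := h.bj.cn 2
  obtain ⟨A₂, p2, h2⟩ := h'.bj.cn 2
  obtain ⟨A₃, p3, h3⟩ := h.bS.cn 1
  obtain ⟨A₄, p4, h4⟩ := h'.bS.cn 1
  obtain ⟨L, hL, H⟩ := nS_lip (V := V) (A₁ + A₂ + A₃ + A₄)
  refine ⟨ε / (L + 1), by positivity, fun I e1 e2 => (H j S j' S' I _ h h'
    (h1.mono le_rfl Subset.rfl (by linarith)) (h2.mono le_rfl Subset.rfl (by linarith))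
    (h3.mono le_rfl Subset.rfl (by linarith)) (h4.mono le_rfl Subset.rfl (by linarith))
    e1 e2).mono le_rfl Subset.rfl ?_⟩
  rw [← mul_div_assoc, div_le_iff₀ (by positivity)]
  linarith

theorem end_NzC (h : Coef 1 j S) {e : Filter ℝ} (he : e = atBot ∨ e = atTop)
    {j' B : ℝ → V →L[ℝ] V}
    (hl : ∀ t, Tendsto (fun s => (j (s, t), S (s, t))) e (𝓝 (j' t, -(j' t).comp (B t))))
    (hB : SNd Ω0 1 B) : ∃ α, GoodE α ∧ ∀ ε > 0, ∀ᶠ s in e, Cn 1 (nS j S - lp α) {s} ε := by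
  have : e.NeBot := by rcases he with rfl | rfl <;> infer_instance
  have lj := fun t => (hl t).fst_nhds
  have lS := fun t => (hl t).snd_nhds
  have sj := lim_smooth h.bj h.pj he lj
  have sS := lim_smooth h.bS h.pS he lS
  have bj := bdd_lp sj.1 sj.2
  have bS := bdd_lp sS.1 sS.2
  have hc : Coef 1 (lp j') (lp fun t => -(j' t).comp (B t)) :=
    ⟨Or.inl rfl, bj.1, bj.2.1, bS.1, bS.2.1,
      fun p => cpt_of_tendsto form_Ω0 (fun s => h.cpt (s, p.2)) (lj p.2)⟩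
  obtain ⟨c, est⟩ := est_const hc hB
  refine ⟨fun t => nS (lp j') (lp fun t => -(j' t).comp (B t)) (0, t),
    ⟨hc.nS.bS.1.comp (contDiff_const.prodMk contDiff_id), hc.nS.pS 0, ?_⟩, fun ε hε => ?_⟩
  · rw [← nS_lp]
    exact (bij_nS hc).2 (bijective_of_est hc est).2
  · rw [← nS_lp]
    obtain ⟨δ, hδ, H⟩ := lip_NzC h hc hε
    exact ((sub_NzC h.bj h.pj he lj 2 hδ).and (sub_NzC h.bS h.pS he lS 1 hδ)).mono
      fun s hs => H _ hs.1 hs.2

theorem sim_nz (h : CT T) (h' : CT T') (e : Asy T T') : Sim (nz T).S (nz T').S := by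
  intro ε hε
  obtain ⟨δ, hδ, H⟩ := lip_NzC h'.1 h.1 hε
  obtain ⟨R, hR⟩ := cn_of_cocompact (h'.1.bj.sub h.1.bj) (per_sub_DopA h'.1.pj h.1.pj)
    (fun t => (e t).fst_nhds) 2 hδ
  obtain ⟨R', hR'⟩ := cn_of_cocompact (h'.1.bS.sub h.1.bS) (per_sub_DopA h'.1.pS h.1.pS)
    (fun t => (e t).snd_nhds) 1 hδ
  have := (H {s | max R R' ≤ |s|}
    (hR.mono le_rfl (fun s hs => le_trans (le_max_left R R') hs) le_rfl)
    (hR'.mono le_rfl (fun s hs => le_trans (le_max_right R R') hs) le_rfl)).neg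
  rw [neg_sub] at this
  exact ⟨_, this⟩

theorem exists_ends (h : Coef 1 j S) (e : Ends Ω0 j S) :
    ∃ α β, GoodE α ∧ GoodE β ∧ Sim (nS j S) (ref α β) := by
  obtain ⟨j₁, B₁, l₁, n₁⟩ := e atBot (Or.inl rfl)
  obtain ⟨j₂, B₂, l₂, n₂⟩ := e atTop (Or.inr rfl)
  obtain ⟨α, gα, hα⟩ := end_NzC h (Or.inl rfl) l₁ n₁
  obtain ⟨β, gβ, hβ⟩ := end_NzC h (Or.inr rfl) l₂ n₂
  refine ⟨α, β, gα, gβ, fun ε hε => (far_NzC (P := fun s => Cn 1 (nS j S - ref α β) {s} ε)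
    ?_ ?_).imp fun R hR => cn_of_forall hR⟩
  · filter_upwards [hα ε hε, eventually_lt_atBot 0] with s h1 h2
    refine h1.congr fun p hp => ?_
    have h3 : p.1 < 0 := by rwa [mem_singleton_iff.1 hp]
    filter_upwards [(continuous_fst.tendsto p).eventually (gt_mem_nhds h3)] with q hq
    simp [ref, lp, Real.smoothTransition.zero_of_nonpos hq.le]
  · filter_upwards [hβ ε hε, eventually_gt_atTop 1] with s h1 h2
    refine h1.congr fun p hp => ?_
    have h3 : 1 < p.1 := by rwa [mem_singleton_iff.1 hp]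
    filter_upwards [(continuous_fst.tendsto p).eventually (lt_mem_nhds h3)] with q hq
    simp [ref, lp, Real.smoothTransition.one_of_one_le hq.le]

theorem Adm.ct (h : Adm Ω0 ⊥ T) : CT T :=
  ⟨(adm_iff.1 h).2.2.1, (adm_iff.1 h).2.2.2.2⟩

theorem Ok.ng (h : Ok Ω0 ⊥ T) : ∃ α β, NG α β (nz T) := by
  have hc := Adm.ct h.1
  obtain ⟨α, β, gα, gβ, hs⟩ := exists_ends hc.1 (adm_iff.1 h.1).2.2.2.1
  exact ⟨α, β, ⟨hc.nz, hc.bij_nz.2 ((Adm.ok_iff h.1).1 h)⟩, gα, gβ, hs⟩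

end

end Pool.Agent.P.MP_de3acd_gt.FH
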