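import Pool.Agent.P.MP_de3acd_gt.FH.ParA
import Pool.Agent.P.MP_de3acd_gt.FH.Mop
import Pool.Agent.P.MP_de3acd_gt.FH.Rell
import Pool.Agent.P.MP_de3acd_gt.FH.Frm

/-! Operators with the same asymptotics differ by compact operators.
Sketch: apx_cut: apx_of_cauchy; η n = sc 2 χ (ξ n) is bounded in W 2, to0 2 (η n) = sc 0 χ (to0 2 (ξ n)) has a Cauchy subsequence (rellich, to0_mul); for η in W 2,
‖inc 1 η‖² ≤ 3 ‖to0 2 η‖ ‖η‖ (norm_sq_succ, inner_dS, inner_dT, inc_dS, inc_dT); inc_mul. apx_mop: with χ = plat (-R) R 1, mop c inc = sc χ (mop c inc) + sc (1 - χ) (mop c inc); the first is mop c ∘ (sc χ inc)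
(sc_mul), the second is small (norm_sc_mul_DopA, cn_plat). apx_Dop: Dop_sub_DopA. NOk.idx: hasIdx_of_frm, HasIdx.apx, HasIdx.unique. -/

open Set Filter Topology MeasureTheory
open scoped ContDiff NNReal ENNReal RealInnerProductSpace

namespace Pool.Agent.P.MP_de3acd_gt.FH

noncomputable section

variable {V : Type} [NormedAddCommGroup V] [InnerProductSpace ℝ V] [Sym V]
variable {a b a' b' m n : ℕ}

section

variable {F : Type} [NormedAddCommGroup F] [NormedSpace ℝ F] {S S' S'' : Pl → F}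
  {α β α' β' : ℝ → F}

theorem c0_RhB (h : Sim S S') : ∀ ε > 0, ∃ R, ∀ p : Pl, R ≤ |p.1| → ‖S p - S' p‖ ≤ ε :=
  fun ε hε => (h ε hε).imp fun _ hR _ hp => hR.le hp

omit [NormedSpace ℝ F] in
theorem left_RhB (h : ∀ ε > 0, ∃ R, ∀ p : Pl, R ≤ |p.1| → ‖S p - S' p‖ ≤ ε) (e : FlL α S)
    (e' : FlL α' S') : α = α' := by
  obtain ⟨R₁, h₁⟩ := e
  obtain ⟨R₂, h₂⟩ := e'
  refine funext fun t => eq_of_forall_dist_le fun ε hε => ?_
  obtain ⟨R, hR⟩ := h ε hε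
  have h3 := hR (-max R (max R₁ R₂), t)
    (((le_max_left _ _).trans (le_abs_self _)).trans_eq (abs_neg _).symm)
  rw [h₁ _ (neg_le_neg ((le_max_left _ _).trans (le_max_right _ _))),
    h₂ _ (neg_le_neg ((le_max_right _ _).trans (le_max_right _ _)))] at h3
  rwa [dist_eq_norm]

omit [NormedSpace ℝ F] in
theorem right_RhB (h : ∀ ε > 0, ∃ R, ∀ p : Pl, R ≤ |p.1| → ‖S p - S' p‖ ≤ ε) (e : FlR β S)
    (e' : FlR β' S') : β = β' := by
  obtain ⟨R₁, h₁⟩ := e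
  obtain ⟨R₂, h₂⟩ := e'
  refine funext fun t => eq_of_forall_dist_le fun ε hε => ?_
  obtain ⟨R, hR⟩ := h ε hε
  have h3 := hR (max R (max R₁ R₂), t) ((le_max_left _ _).trans (le_abs_self _))
  rw [h₁ _ ((le_max_left _ _).trans (le_max_right _ _)),
    h₂ _ ((le_max_right _ _).trans (le_max_right _ _))] at h3
  rwa [dist_eq_norm]

theorem Sim.refl (S : Pl → F) : Sim S S := fun ε hε => ⟨0, by
  rw [sub_self]
  exact (cn_const 1 (0 : F) _).mono le_rfl subset_rfl (by rw [norm_zero]; exact hε.le)⟩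

theorem Sim.symm (h : Sim S S') : Sim S' S := fun ε hε => (h ε hε).imp fun _ hR => by
  rw [← neg_sub]
  exact hR.neg

theorem Sim.trans (h : Sim S S') (h' : Sim S' S'') (hS : ContDiff ℝ ∞ S) (hS' : ContDiff ℝ ∞ S')
    (hS'' : ContDiff ℝ ∞ S'') : Sim S S'' := fun ε hε => by
  obtain ⟨R, hR⟩ := h (ε / 2) (half_pos hε)
  obtain ⟨R', hR'⟩ := h' (ε / 2) (half_pos hε)
  refine ⟨max R R', ?_⟩
  have h3 := Cn.add (hS.sub hS') (hS'.sub hS'')
    (hR.mono (I' := {s | max R R' ≤ |s|}) le_rfl (fun s hs => (le_max_left R R').trans hs) le_rfl)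
    (hR'.mono (I' := {s | max R R' ≤ |s|}) le_rfl (fun s hs => (le_max_right R R').trans hs)
      le_rfl)
  rw [add_halves] at h3
  rw [← sub_add_sub_cancel S S' S'']
  exact h3

theorem flL_ref (α β : ℝ → F) : FlL α (ref α β) := ⟨0, fun p hp => by
  rw [ref, Real.smoothTransition.zero_of_nonpos (by simpa using hp), zero_smul, add_zero]⟩

theorem flR_ref (α β : ℝ → F) : FlR β (ref α β) := ⟨1, fun p hp => by
  rw [ref, Real.smoothTransition.one_of_one_le hp, one_smul, add_sub_cancel]⟩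

theorem Sim.unique (h : Sim S (ref α β)) (h' : Sim S (ref α' β')) : α = α' ∧ β = β' := by
  have k : ∀ ε > 0, ∃ R, ∀ p : Pl, R ≤ |p.1| → ‖ref α β p - ref α' β' p‖ ≤ ε := fun ε hε => by
    obtain ⟨R, hR⟩ := c0_RhB h.symm (ε / 2) (half_pos hε)
    obtain ⟨R', hR'⟩ := c0_RhB h' (ε / 2) (half_pos hε)
    refine ⟨max R R', fun p hp => ?_⟩
    rw [← sub_add_sub_cancel _ (S p), ← add_halves ε]
    exact norm_add_le_of_le (hR p ((le_max_left _ _).trans hp))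
      (hR' p ((le_max_right _ _).trans hp))
  exact ⟨left_RhB k (flL_ref α β) (flL_ref α' β'), right_RhB k (flR_ref α β) (flR_ref α' β')⟩

theorem Sim.eq_left (h : Sim S (ref α β)) (h' : FlL α' S) : α' = α :=
  left_RhB (c0_RhB h) h' (flL_ref α β)

theorem Sim.eq_right (h : Sim S (ref α β)) (h' : FlR β' S) : β' = β :=
  right_RhB (c0_RhB h) h' (flR_ref α β)

end

variable {j S S' : Pl → V →L[ℝ] V}

theorem coef_j0 (h : Bdd S) (hp : Per S) : Coef 1 j0 S :=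
  ⟨Or.inl rfl, bdd_const _, fun _ _ => rfl, h, hp, fun _ => cpt_J0⟩

omit [Sym V] in
theorem interp_RhB (η : W 2 V) : ‖inc 1 η‖ ^ 2 ≤ 3 * (‖to0 2 η‖ * ‖η‖) := by
  have e0 : inc 0 (inc 1 η) = to0 2 η := rfl
  have e1 : to0 1 (inc 1 η) = to0 2 η := rfl
  have h0 : ‖to0 2 η‖ ^ 2 ≤ ‖to0 2 η‖ * ‖η‖ := by
    rw [sq]
    exact mul_le_mul_of_nonneg_left (norm_to0_le 2 η) (norm_nonneg _)
  have h1 : ‖dS 0 (inc 1 η)‖ ^ 2 ≤ ‖to0 2 η‖ * ‖η‖ := by
    have := inner_dS (inc 1 η) (dS 1 η)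
    rw [inc_dS 0 η, real_inner_self_eq_norm_sq, e0] at this
    rw [this]
    refine (neg_le_abs _).trans ((abs_real_inner_le_norm _ _).trans ?_)
    exact mul_le_mul_of_nonneg_left ((norm_dS_le 0 _).trans (norm_dS_le 1 η)) (norm_nonneg _)
  have h2 : ‖dT 0 (inc 1 η)‖ ^ 2 ≤ ‖to0 2 η‖ * ‖η‖ := by
    have := inner_dT (inc 1 η) (dT 1 η)
    rw [inc_dT 0 η, real_inner_self_eq_norm_sq, e0] at this
    rw [this]
    refine (neg_le_abs _).trans ((abs_real_inner_le_norm _ _).trans ?_)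
    exact mul_le_mul_of_nonneg_left ((norm_dT_le 0 _).trans (norm_dT_le 1 η)) (norm_nonneg _)
  rw [norm_sq_succ 0 (inc 1 η), e1]
  linarith

theorem apx_cut {χ : Pl → ℝ} (hχ : χ ∈ Dsub ℝ) :
    Apx ((sc 1 χ).comp (inc 1) : W 2 V →L[ℝ] W 1 V) := by
  refine apx_of_cauchy fun x M hx => ?_
  obtain ⟨φ, hφ, hc⟩ := rellich hχ x hx
  refine ⟨φ, hφ, ?_⟩
  rw [cauchySeq_iff_tendsto_dist_atTop_0] at hc ⊢
  have k : ∀ ξ η : W 2 V, ‖ξ‖ ≤ M → ‖η‖ ≤ M →
      dist (((sc 1 χ).comp (inc 1) : W 2 V →L[ℝ] W 1 V) ξ) ((sc 1 χ).comp (inc 1) η) ≤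
        √(3 * (dist (sc 0 χ (to0 2 ξ)) (sc 0 χ (to0 2 η)) *
          (‖(sc 2 χ : W 2 V →L[ℝ] W 2 V)‖ * (M + M)))) := fun ξ η h1 h2 => by
    refine Real.le_sqrt_of_sq_le ?_
    rw [dist_eq_norm, dist_eq_norm, ← map_sub, ← map_sub, ← map_sub]
    have e1 : ((sc 1 χ).comp (inc 1) : W 2 V →L[ℝ] W 1 V) (ξ - η) = inc 1 (sc 2 χ (ξ - η)) :=
      (inc_mul le_rfl _ _ _).symm
    have e2 : sc 0 χ (to0 2 (ξ - η)) = to0 2 (sc 2 χ (ξ - η)) := (to0_mul le_rfl _ _ _).symm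
    rw [e1, e2]
    refine (interp_RhB _).trans ?_
    have h3 := (sc 2 χ : W 2 V →L[ℝ] W 2 V).le_opNorm_of_le (norm_sub_le_of_le h1 h2)
    gcongr
  refine squeeze_zero (fun _ => dist_nonneg) (fun q => k _ _ (hx _) (hx _)) ?_
  have h4 := ((hc.mul_const (‖(sc 2 χ : W 2 V →L[ℝ] W 2 V)‖ * (M + M))).const_mul 3).sqrt
  rwa [zero_mul, mul_zero, Real.sqrt_zero] at h4

theorem apx_mop (h : Bdd S) (hp : Per S) (e : Sim S 0) : Apx ((mop 1 S).comp (inc 1)) := by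
  refine apx_of_close fun ε hε => ?_
  obtain ⟨A, hA, hc⟩ := cn_plat 1
  obtain ⟨R, hR⟩ := e (ε / (18 * (1 + A))) (by positivity)
  rw [sub_zero] at hR
  have b1 : Bdd (1 - plat (-R) R 1) := (bdd_const (1 : ℝ)).sub (bdd_plat _ _ _)
  have p1 : Per (1 - plat (-R) R 1) := fun _ _ => rfl
  have c1 : Cn 1 (1 - plat (-R) R 1) univ (1 + A) := by
    have := Cn.sub contDiff_const (bdd_plat (-R) R 1).1 (cn_const 1 (1 : ℝ) univ)
      (hc (-R) R 1 le_rfl).1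
    rwa [norm_one] at this
  refine ⟨_, (apx_cut (plat_mem_Dsub (-R) R one_pos)).post (mop 1 S),
    ContinuousLinearMap.opNorm_le_bound _ hε.le fun ξ => ?_⟩
  have e1 : ((mop 1 S).comp (inc 1) - (mop 1 S).comp ((sc 1 (plat (-R) R 1)).comp (inc 1))) ξ =
      sc 1 (1 - plat (-R) R 1) (mop 1 S (inc 1 ξ)) := by
    have e2 := sc_add (k := 1) (bdd_plat (-R) R 1) (per_plat _ _ _) b1 p1 (mop 1 S (inc 1 ξ))
    rw [add_sub_cancel, sc_one one_le_two] at e2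
    have e3 : sc 1 (plat (-R) R 1) (mop 1 S (inc 1 ξ)) =
        mop 1 S (sc 1 (plat (-R) R 1) (inc 1 ξ)) :=
      sc_mul one_le_two (bdd_plat _ _ _) (per_plat _ _ _) _ _ _
    rw [e3] at e2
    exact sub_eq_of_eq_add' e2
  rw [e1]
  refine (norm_sc_mul_DopA le_rfl h hp b1 p1 c1 (isClosed_le continuous_const continuous_abs)
    (fun p hp' => ?_) (by positivity) hR (inc 1 ξ)).trans ?_
  · have h3 := abs_lt.1 (not_le.1 (show ¬R ≤ |p.1| from hp'))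
    rw [Pi.sub_apply, plat_eq_one one_pos ⟨h3.1.le, h3.2.le⟩, Pi.one_apply, sub_self]
  · rw [mul_div_cancel₀ _ (by positivity)]
    exact mul_le_mul_of_nonneg_left (norm_inc_le 1 ξ) hε.le

theorem apx_Dop (h : Coef 1 j S) (h' : Coef 1 j S') (e : Sim S S') :
    Apx (Dop 1 1 j S' - Dop 1 1 j S) := by
  have e1 : Dop 1 1 j S' - Dop 1 1 j S = (mop 1 (S' - S)).comp (inc 1) :=
    ContinuousLinearMap.ext fun ξ => by
      rw [sub_apply, Dop_sub_DopA 1 h' h, toCb_sub h.bj h.pj h.bj h.pj,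
        sub_self, map_zero, zero_apply, zero_add]
      rfl
  rw [e1]
  refine apx_mop (h'.bS.sub h.bS) (per_sub_DopA h'.pS h.pS) fun ε hε => ?_
  rw [sub_zero]
  exact e.symm ε hε

theorem NA.apx {T T' : Op V a b} (h : NA T) (h' : NA T') (e : Sim T.S T'.S) :
    Apx (hil T' - hil T) := by
  have e1 : T'.j = T.j := h'.1.trans h.1.symm
  have e2 := apx_Dop h.2.1 (e1 ▸ h'.2.1) e
  unfold hil frm
  rw [e1]
  exact apx_blk e2 _ _ _ _ _ _

theorem NOk.rl {T T' : Op V a b} (h : NOk T) (h' : NOk T') (e : Sim T.S T'.S) :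
    Rl (hil T) (hil T') :=
  ⟨h.2, h'.2, h.1.apx h'.1 e⟩

theorem NOk.idx {T : Op V a b} {T' : Op V a' b'} (h : NOk T) (h' : NOk T') (e : Sim T.S T'.S) :
    a + b' = b + a' := by
  have e1 : T'.j = T.j := h'.1.1.trans h.1.1.symm
  have i1 := hasIdx_of_frm h.2
  have i2 := hasIdx_of_frm h'.2
  rw [e1] at i2
  have i3 := (i1.apx (apx_Dop h.1.2.1 (e1 ▸ h'.1.2.1) e)).unique i2
  simp only [Fintype.card_fin] at i3
  omega

theorem NG.sim' {α β : ℝ → V →L[ℝ] V} {T : Op V a b} {T' : Op V a' b'} (h : NG α β T)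
    (h' : NG α β T') : Sim T.S T'.S :=
  h.sim.trans h'.sim.symm h.ok.1.2.1.bS.1
    (bdd_ref h.left.1 h.right.1 h.left.2.1 h.right.2.1).1.1 h'.ok.1.2.1.bS.1

end

end Pool.Agent.P.MP_de3acd_gt.FH
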