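import Pool.Agent.P.MP_de3acd_gt.FH.ScA
import Pool.Agent.P.MP_de3acd_gt.FH.RhB
import Pool.Agent.P.MP_de3acd_gt.FH.LG2

/-! Gluing of normalised operators.
Sketch: ag_bij: linGlue₂ along far (tendsto_comap) with j n = j0; PrC holds because the differences vanish on the regions reg (Cn.congr with cn_const, or Cn on the set where the function is locally zero).
ag3_bij: linGlue with k = 3, σ q = ![-q.1, 0, q.2], α = fun i => Fin (![a, a', a''] i), and frm_reindex (finSigmaFinEquiv or an explicit equivalence); alternatively copy the proof of linGlue₂.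
sim_ag: far on the left the difference from ref α δ is tsl (ϱ₁, 0) (T.S - ref α β), far on the right tsl (-ϱ₂, 0) (T'.S - ref β δ); cn_tsl, Cn.congr, Cn.union. -/

open Set Filter Topology MeasureTheory
open scoped ContDiff NNReal ENNReal RealInnerProductSpace

namespace Pool.Agent.P.MP_de3acd_gt.FH

noncomputable section

variable {V : Type} [NormedAddCommGroup V] [InnerProductSpace ℝ V] [Sym V]
variable {a b a' b' m n : ℕ}

variable {a'' b'' : ℕ} {T : Op V a b} {T' : Op V a' b'} {T'' : Op V a'' b''}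
  {α β δ : ℝ → V →L[ℝ] V}

theorem ag_S_RhE (ϱ₁ ϱ₂ : ℝ) (β : ℝ → V →L[ℝ] V) (T : Op V a b) (T' : Op V a' b') (p : Pl) :
    (ag ϱ₁ ϱ₂ β T T').S p = T.S (p.1 + ϱ₁, p.2) + T'.S (p.1 - ϱ₂, p.2) - β p.2 := by
  obtain ⟨s, t⟩ := p
  simp [ag, pre, tsl, lp, sub_eq_add_neg]

theorem tsl_RhE {γ : Type} (r : ℝ) (f : Pl → γ) (p : Pl) : tsl (r, 0) f p = f (p.1 + r, p.2) := by
  obtain ⟨s, t⟩ := p
  simp [tsl]

/-- Functions that agree over an open set have the same bounds there. -/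
theorem cn_open_RhE {F : Type} [NormedAddCommGroup F] [NormedSpace ℝ F] {k : ℕ} {f g : Pl → F}
    {I U : Set ℝ} {ε : ℝ} (h : Cn k f I ε) (hU : IsOpen U) (hI : I ⊆ U)
    (e : ∀ p : Pl, p.1 ∈ U → f p = g p) : Cn k g I ε :=
  h.congr fun _ hp =>
    Filter.mem_of_superset ((hU.preimage continuous_fst).mem_nhds (hI hp)) fun q hq => e q hq

theorem cn_van_RhE {F : Type} [NormedAddCommGroup F] [NormedSpace ℝ F] {k : ℕ} {g : Pl → F}
    {I U : Set ℝ} {ε : ℝ} (hε : 0 < ε) (hU : IsOpen U) (hI : I ⊆ U)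
    (e : ∀ p : Pl, p.1 ∈ U → g p = 0) : Cn k g I ε :=
  cn_open_RhE ((cn_const k (0 : F) I).up_JetC (by simpa using hε.le)) hU hI
    fun p hp => (e p hp).symm

theorem prC_j0_RhE {N : Type} {l : Filter N} {k : ℕ} (σ : N → Fin k → ℝ)
    {g : Fin k → Pl → V →L[ℝ] V} (hg : ∀ i, g i = j0) : PrC 1 l σ (fun _ => j0) g :=
  fun ε hε => ⟨0, Eventually.of_forall fun n i =>
    cn_van_RhE hε isOpen_univ (subset_univ _) fun p _ => by simp [hg, tsl, j0]⟩

theorem ref_left_RhE {F : Type} [NormedAddCommGroup F] [NormedSpace ℝ F] (x y : ℝ → F) {p : Pl}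
    (h : p.1 ≤ 0) : ref x y p = x p.2 := by
  simp [ref, Real.smoothTransition.zero_of_nonpos h]

theorem ref_right_RhE {F : Type} [NormedAddCommGroup F] [NormedSpace ℝ F] (x y : ℝ → F) {p : Pl}
    (h : 1 ≤ p.1) : ref x y p = y p.2 := by
  simp [ref, Real.smoothTransition.one_of_one_le h]

/-- Three summands as a sigma type. -/
def sum_RhE (a a' a'' : ℕ) : (Fin a ⊕ Fin a') ⊕ Fin a'' ≃ Σ i : Fin 3, Fin (![a, a', a''] i) where
  toFun := Sum.elim (Sum.elim (fun x => ⟨0, x⟩) fun x => ⟨1, x⟩) fun x => ⟨2, x⟩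
  invFun := fun
    | ⟨0, x⟩ => .inl (.inl x)
    | ⟨1, x⟩ => .inl (.inr x)
    | ⟨2, x⟩ => .inr x
  left_inv := by rintro ((x | x) | x) <;> rfl
  right_inv := fun
    | ⟨0, _⟩ => rfl
    | ⟨1, _⟩ => rfl
    | ⟨2, _⟩ => rfl

/-- Three blocks as a sigma type. -/
def sig_RhE (a a' a'' : ℕ) : Fin (a + a' + a'') ≃ Σ i : Fin 3, Fin (![a, a', a''] i) :=
  finSumFinEquiv.symm.trans
    ((finSumFinEquiv.symm.sumCongr (Equiv.refl _)).trans (sum_RhE a a' a''))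

theorem sig0_RhE (a a' a'' : ℕ) (i : Fin a) :
    sig_RhE a a' a'' (Fin.castAdd a'' (Fin.castAdd a' i)) = ⟨0, i⟩ := by
  rw [sig_RhE, Equiv.trans_apply, finSumFinEquiv_symm_apply_castAdd, Equiv.trans_apply,
    Equiv.sumCongr_apply, Sum.map_inl, finSumFinEquiv_symm_apply_castAdd]; rfl

theorem sig1_RhE (a a' a'' : ℕ) (i : Fin a') :
    sig_RhE a a' a'' (Fin.castAdd a'' (Fin.natAdd a i)) = ⟨1, i⟩ := by
  rw [sig_RhE, Equiv.trans_apply, finSumFinEquiv_symm_apply_castAdd, Equiv.trans_apply,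
    Equiv.sumCongr_apply, Sum.map_inl, finSumFinEquiv_symm_apply_natAdd]; rfl

theorem sig2_RhE (a a' a'' : ℕ) (i : Fin a'') :
    sig_RhE a a' a'' (Fin.natAdd (a + a') i) = ⟨2, i⟩ := by
  rw [sig_RhE, Equiv.trans_apply, finSumFinEquiv_symm_apply_natAdd]; rfl

theorem cases_RhE {P : Fin (a + a' + a'') → Prop}
    (h₀ : ∀ i, P (Fin.castAdd a'' (Fin.castAdd a' i)))
    (h₁ : ∀ i, P (Fin.castAdd a'' (Fin.natAdd a i))) (h₂ : ∀ i, P (Fin.natAdd (a + a') i)) (i) :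
    P i :=
  Fin.addCases (fun i => Fin.addCases h₀ h₁ i) h₂ i

omit [NormedAddCommGroup V] [InnerProductSpace ℝ V] [Sym V] in
/-- The frames of the triple gluing. -/
theorem frame_RhE (r s : ℝ) (K : Fin a → Pl → V) (K' : Fin a' → Pl → V) (K'' : Fin a'' → Pl → V) :
    Fin.append (fun i => tsl (0, 0) (Fin.append (fun i => tsl (r, 0) (K i))
      (fun i => tsl (-0, 0) (K' i)) i)) (fun i => tsl (-s, 0) (K'' i)) =
    gl (α := fun i => Fin (![a, a', a''] i)) ![-r, 0, s] (fun | 0 => K | 1 => K' | 2 => K'') ∘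
      sig_RhE a a' a'' := by
  funext i
  refine cases_RhE (P := fun i => _ = _) (fun i => ?_) (fun i => ?_) (fun i => ?_) i
  · rw [Fin.append_left, Fin.append_left, Function.comp_apply, sig0_RhE]
    funext p
    show _ = tsl (- -r, 0) (K i) p
    simp [tsl_RhE]
  · rw [Fin.append_left, Fin.append_right, Function.comp_apply, sig1_RhE]
    funext p
    show _ = tsl (-0, 0) (K' i) p
    simp [tsl_RhE]
  · rw [Fin.append_right, Function.comp_apply, sig2_RhE]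
    rfl

theorem FlL.ag (h : FlL α T.S) (h' : FlL β T'.S) (ϱ₁ ϱ₂ : ℝ) : FlL α (ag ϱ₁ ϱ₂ β T T').S := by
  obtain ⟨R, h⟩ := h
  obtain ⟨R', h'⟩ := h'
  refine ⟨max (R + ϱ₁) (R' - ϱ₂), fun p hp => ?_⟩
  have h1 := le_max_left (R + ϱ₁) (R' - ϱ₂)
  have h2 := le_max_right (R + ϱ₁) (R' - ϱ₂)
  rw [ag_S_RhE, h _ (by simp only; linarith), h' _ (by simp only; linarith), add_sub_cancel_right]

theorem FlR.ag (h : FlR β T.S) (h' : FlR δ T'.S) (ϱ₁ ϱ₂ : ℝ) : FlR δ (ag ϱ₁ ϱ₂ β T T').S := by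
  obtain ⟨R, h⟩ := h
  obtain ⟨R', h'⟩ := h'
  refine ⟨max (R - ϱ₁) (R' + ϱ₂), fun p hp => ?_⟩
  have h1 := le_max_left (R - ϱ₁) (R' + ϱ₂)
  have h2 := le_max_right (R - ϱ₁) (R' + ϱ₂)
  rw [ag_S_RhE, h _ (by simp only; linarith), h' _ (by simp only; linarith), add_sub_cancel_left]

theorem ag_bij (h : NOk T) (h' : NOk T') (hβ : ContDiff ℝ ∞ β) (pβ : ∀ t, β (t + 1) = β t)
    (e : FlR β T.S) (e' : FlL β T'.S) : ∃ c > 0, ∀ᶠ q in far, Bij (hil (ag q.1 q.2 β T T')) c := by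
  obtain ⟨R, e⟩ := e
  obtain ⟨R', e'⟩ := e'
  refine linGlue₂ (l := far) (ϱ₁ := fun q => q.1) (ϱ₂ := fun q => q.2) tendsto_comap h.1.2.1
    h'.1.2.1 h.1.2.2.1 h.1.2.2.2 h'.1.2.2.1 h'.1.2.2.2 h.2 h'.2 (j := fun _ => j0)
    (S := fun q => (ag q.1 q.2 β T T').S) (fun q => (h.1.2.ag h'.1.2 hβ pβ q.1 q.2).2.1)
    (prC_j0_RhE _ fun | 0 => h.1.1 | 1 => h'.1.1) fun ε hε => ?_
  have h1 := le_max_left R R'
  have h2 := le_max_right R R'
  refine ⟨max R R' + 1, Eventually.of_forall fun q => fun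
    | 0 => cn_van_RhE hε (isOpen_Iio (a := q.2 - R')) (fun s hs => ?_) fun p hp => ?_
    | 1 => cn_van_RhE hε (isOpen_Ioi (a := R - q.1)) (fun s hs => ?_) fun p hp => ?_⟩
  · have : s ≤ q.2 - (max R R' + 1) := (hs 1).2 (by decide)
    show s < _
    linarith
  · have hp : p.1 < q.2 - R' := hp
    show (ag q.1 q.2 β T T').S p - tsl (- -q.1, 0) T.S p = 0
    rw [ag_S_RhE, tsl_RhE, e' _ (by simp only; linarith), neg_neg]
    simp
  · have : -q.1 + (max R R' + 1) ≤ s := (hs 0).1 (by decide)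
    show _ < s
    linarith
  · have hp : R - q.1 < p.1 := hp
    show (ag q.1 q.2 β T T').S p - tsl (-q.2, 0) T'.S p = 0
    rw [ag_S_RhE, tsl_RhE, e _ (by simp only; linarith), ← sub_eq_add_neg]
    simp

theorem sim_ag (h : Sim T.S (ref α β)) (h' : Sim T'.S (ref β δ)) (e : FlR β T.S) (e' : FlL β T'.S)
    (ϱ₁ ϱ₂ : ℝ) : Sim (ag ϱ₁ ϱ₂ β T T').S (ref α δ) := by
  obtain ⟨R, e⟩ := e
  obtain ⟨R', e'⟩ := e'
  intro ε hε
  obtain ⟨P, h⟩ := h ε hε
  obtain ⟨P', h'⟩ := h' ε hε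
  obtain ⟨G, hG⟩ : ∃ G : ℝ, |R| + |R'| + |P| + |P'| + |ϱ₁| + |ϱ₂| + 2 ≤ G := ⟨_, le_rfl⟩
  have := abs_nonneg R
  have := abs_nonneg R'
  have := abs_nonneg P
  have := abs_nonneg P'
  have := abs_nonneg ϱ₁
  have := abs_nonneg ϱ₂
  have := le_abs_self R
  have := le_abs_self R'
  have := le_abs_self P
  have := le_abs_self P'
  have := le_abs_self ϱ₁
  have := le_abs_self ϱ₂
  have := neg_abs_le ϱ₁
  have := neg_abs_le ϱ₂
  have hl : Cn 1 ((ag ϱ₁ ϱ₂ β T T').S - ref α δ) (Iic (-G)) ε := by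
    refine cn_open_RhE (((cn_tsl (ϱ₁, 0)).2 h).mono le_rfl (fun s hs => ?_) le_rfl)
      (isOpen_Iio (a := -G + 1)) (Iic_subset_Iio.2 (by linarith)) fun p hp => ?_
    · have hs : s ≤ -G := hs
      show P ≤ |s + ϱ₁|
      exact le_abs.2 (.inr (by linarith))
    · have hp : p.1 < -G + 1 := hp
      rw [tsl_RhE, Pi.sub_apply, Pi.sub_apply, ag_S_RhE, e' _ (by simp only; linarith),
        ref_left_RhE _ _ (by simp only; linarith), ref_left_RhE _ _ (by linarith),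
        add_sub_cancel_right]
  have hr : Cn 1 ((ag ϱ₁ ϱ₂ β T T').S - ref α δ) (Ici G) ε := by
    refine cn_open_RhE (((cn_tsl (-ϱ₂, 0)).2 h').mono le_rfl (fun s hs => ?_) le_rfl)
      (isOpen_Ioi (a := G - 1)) (Ici_subset_Ioi.2 (by linarith)) fun p hp => ?_
    · have hs : G ≤ s := hs
      show P' ≤ |s + -ϱ₂|
      exact le_abs.2 (.inl (by linarith))
    · have hp : G - 1 < p.1 := hp
      rw [tsl_RhE, Pi.sub_apply, Pi.sub_apply, ag_S_RhE, e _ (by simp only; linarith),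
        ref_right_RhE _ _ (by simp only; linarith), ref_right_RhE _ _ (by linarith),
        add_sub_cancel_left, ← sub_eq_add_neg]
  refine ⟨G, (hl.union hr).mono le_rfl (fun s hs => ?_) le_rfl⟩
  rcases le_abs.1 (show G ≤ |s| from hs) with hs | hs
  · exact .inr hs
  · exact .inl (le_neg.1 hs)

theorem NG.ag (h : NG α β T) (h' : NG β δ T') (e : FlR β T.S) (e' : FlL β T'.S) :
    ∀ᶠ q in far, NG α δ (ag q.1 q.2 β T T') := by
  obtain ⟨c, -, H⟩ := ag_bij h.ok h'.ok h.right.1 h.right.2.1 e e'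
  exact H.mono fun q hq => ⟨⟨h.ok.1.2.ag h'.ok.1.2 h.right.1 h.right.2.1 _ _, hq.1⟩, h.left,
    h'.right, sim_ag h.sim h'.sim e e' _ _⟩

theorem ag3_bij (h : NOk T) (h' : NOk T') (h'' : NOk T'') (hβ : ContDiff ℝ ∞ β)
    (pβ : ∀ t, β (t + 1) = β t) (hδ : ContDiff ℝ ∞ δ) (pδ : ∀ t, δ (t + 1) = δ t) (e₁ : FlR β T.S)
    (e₂ : FlL β T'.S) (e₃ : FlR δ T'.S) (e₄ : FlL δ T''.S) : ∀ᶠ q : ℝ × ℝ in atTop ×ˢ atTop,
      Function.Bijective (hil (ag 0 q.2 δ (ag q.1 0 β T T') T'')) := by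
  obtain ⟨R₁, e₁⟩ := e₁
  obtain ⟨R₂, e₂⟩ := e₂
  obtain ⟨R₃, e₃⟩ := e₃
  obtain ⟨R₄, e₄⟩ := e₄
  have t₁ : Tendsto (fun q : ℝ × ℝ => q.1) (atTop ×ˢ atTop) atTop := tendsto_fst
  have t₂ : Tendsto (fun q : ℝ × ℝ => q.2) (atTop ×ˢ atTop) atTop := tendsto_snd
  have hσ : Gap (atTop ×ˢ atTop) fun q : ℝ × ℝ => ![-q.1, 0, q.2] := by
    intro i i' hi
    fin_cases i <;> fin_cases i' <;> simp at hi
    · exact t₁.congr fun n => by simp
    · exact (t₂.atTop_add_atTop t₁).congr fun n => by simp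
    · exact t₂.congr fun n => by simp
  have hS : ∀ (q : ℝ × ℝ) (p : Pl), (ag 0 q.2 δ (ag q.1 0 β T T') T'').S p =
      T.S (p.1 + q.1, p.2) + T'.S p - β p.2 + T''.S (p.1 - q.2, p.2) - δ p.2 := fun q p => by
    simp only [ag_S_RhE, add_zero, sub_zero]
  obtain ⟨G, hG⟩ : ∃ G : ℝ, |R₁| + |R₂| + |R₃| + |R₄| ≤ G := ⟨_, le_rfl⟩
  have := abs_nonneg R₁
  have := abs_nonneg R₂
  have := abs_nonneg R₃
  have := abs_nonneg R₄
  have := le_abs_self R₁
  have := le_abs_self R₂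
  have := le_abs_self R₃
  have := le_abs_self R₄
  obtain ⟨c, -, H⟩ := linGlue three_pos hσ (α := fun i => Fin (![a, a', a''] i))
    (β := fun i => Fin (![b, b', b''] i)) (j := ![T.j, T'.j, T''.j]) (S := ![T.S, T'.S, T''.S])
    (fun | 0 => h.1.2.1 | 1 => h'.1.2.1 | 2 => h''.1.2.1)
    (K := fun | 0 => T.K | 1 => T'.K | 2 => T''.K) (L := fun | 0 => T.l | 1 => T'.l | 2 => T''.l)
    (fun | 0 => h.1.2.2.1 | 1 => h'.1.2.2.1 | 2 => h''.1.2.2.1)
    (fun | 0 => h.1.2.2.2 | 1 => h'.1.2.2.2 | 2 => h''.1.2.2.2)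
    (M := fun | 0 => T.M | 1 => T'.M | 2 => T''.M) (fun | 0 => h.2 | 1 => h'.2 | 2 => h''.2)
    (j' := fun _ => j0) (S' := fun q => (ag 0 q.2 δ (ag q.1 0 β T T') T'').S)
    (fun q => ((h.1.2.ag h'.1.2 hβ pβ q.1 0).2.ag h''.1.2 hδ pδ 0 q.2).2.1)
    (prC_j0_RhE _ fun | 0 => h.1.1 | 1 => h'.1.1 | 2 => h''.1.1) fun ε hε => by
      refine ⟨G + 1, ((t₁.eventually_ge_atTop 0).and (t₂.eventually_ge_atTop 0)).mono
        fun q hq => fun
        | 0 => cn_van_RhE hε (isOpen_Iio (a := -G)) (fun s hs => ?_) fun p hp => ?_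
        | 1 => cn_van_RhE hε (isOpen_Ioo (a := G - q.1) (b := q.2 - G)) (fun s hs => ?_)
            fun p hp => ?_
        | 2 => cn_van_RhE hε (isOpen_Ioi (a := G)) (fun s hs => ?_) fun p hp => ?_⟩
      · have : s ≤ 0 - (G + 1) := (hs 1).2 (by decide)
        show s < _
        linarith
      · have hp : p.1 < -G := hp
        show (ag 0 q.2 δ (ag q.1 0 β T T') T'').S p - tsl (- -q.1, 0) T.S p = 0
        rw [hS, tsl_RhE, e₂ _ (by linarith), e₄ _ (by simp only; linarith [hq.2]), neg_neg]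
        simp
      · have h1 : -q.1 + (G + 1) ≤ s := (hs 0).1 (by decide)
        have h2 : s ≤ q.2 - (G + 1) := (hs 2).2 (by decide)
        exact ⟨by linarith, by linarith⟩
      · show (ag 0 q.2 δ (ag q.1 0 β T T') T'').S p - tsl (-0, 0) T'.S p = 0
        rw [hS, tsl_RhE, e₁ _ (by simp only; linarith [hp.1]),
          e₄ _ (by simp only; linarith [hp.2])]
        simp
      · have : 0 + (G + 1) ≤ s := (hs 1).1 (by decide)
        show _ < s
        linarith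
      · have hp : G < p.1 := hp
        show (ag 0 q.2 δ (ag q.1 0 β T T') T'').S p - tsl (-q.2, 0) T''.S p = 0
        rw [hS, tsl_RhE, e₁ _ (by simp only; linarith [hq.1]), e₃ _ (by linarith),
          ← sub_eq_add_neg]
        simp
  refine H.mono fun q hq => And.left (b := _) (?_ : Bij _ c)
  refine congr_LG2 ((frm_reindex (sig_RhE a a' a'') (sig_RhE b b' b'') _ _ _ _ _).2 hq)
    (frame_RhE _ _ _ _ _) (frame_RhE _ _ _ _ _) ?_
  funext i i'
  induction i using cases_RhE <;> induction i' using cases_RhE <;>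
    simp only [ag, Fin.append_left, Fin.append_right, sig0_RhE, sig1_RhE, sig2_RhE] <;> rfl

theorem far_iff {P : ℝ × ℝ → Prop} : (∀ᶠ q in far, P q) ↔ ∃ G, ∀ q : ℝ × ℝ, G ≤ q.1 + q.2 → P q := by
  rw [far, eventually_comap, eventually_atTop]
  exact exists_congr fun G => ⟨fun h q hq => h _ hq q rfl, fun h _ hs q hq => h q (hq ▸ hs)⟩

end

end Pool.Agent.P.MP_de3acd_gt.FH
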