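import Pool.Agent.P.MP_de3acd_gt.FH.NzC
import Pool.Agent.P.MP_de3acd_gt.FH.GlA
import Pool.Agent.P.MP_de3acd_gt.FH.RhE

/-! Normalisation commutes with gluing.
Sketch: with R₀ from Mat put x t = T.j (R₀, t), y t = T.S (R₀, t), β t = nS (lp x) (lp y) (0, t); nS_congr, nS_lp, nS_tsl, Mat.glue. The frames vanish for |s| large (TF), so on the wrong side of s = 0 both sides are zero;
ext_GauB, Fin.addCases. Ok.glue: Adm.glue, Adm.ok_iff, CT.bij_nz, Ok.ng, Sim.eq_right, ag_bij, far_iff. -/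

open Set Filter Topology MeasureTheory
open scoped ContDiff NNReal ENNReal RealInnerProductSpace

namespace Pool.Agent.P.MP_de3acd_gt.FH

noncomputable section

variable {V : Type} [NormedAddCommGroup V] [InnerProductSpace ℝ V] [Sym V]
variable {a b a' b' : ℕ}

variable {T : Op V a b} {T' : Op V a' b'}

omit [Sym V] in
theorem van_NzD {K : Fin a → Pl → V} (h : TF K) :
    ∀ᶠ R in atTop, ∀ i, ∀ p : Pl, R ≤ |p.1| → K i p = 0 := eventually_all.2 fun i => by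
  obtain ⟨-, -, R, hR⟩ := h i
  exact (eventually_ge_atTop R).mono fun r hr p hp => hR p (hr.trans hp)

omit [Sym V] in
theorem frame_NzD (Φ : (V →L[ℝ] V) → V → V) (h0 : ∀ j, Φ j 0 = 0) {K : Fin a → Pl → V}
    {K' : Fin a' → Pl → V} (h : TF K) (h' : TF K') (j j' : Pl → V →L[ℝ] V) : ∀ᶠ R in atTop,
    (fun i (p : Pl) => Φ (if p.1 ≤ 0 then j (p.1 + R, p.2) else j' (p.1 - R, p.2))
      (Fin.append (fun i (p : Pl) => K i (p.1 + R, p.2)) (fun i p => K' i (p.1 - R, p.2)) i p)) =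
    Fin.append (fun i => tsl (R, 0) fun p => Φ (j p) (K i p))
      fun i => tsl (-R, 0) fun p => Φ (j' p) (K' i p) := by
  filter_upwards [van_NzD h, van_NzD h'] with R h1 h2
  funext i p
  refine Fin.addCases (fun i => ?_) (fun i => ?_) i
  · simp only [Fin.append_left, tsl_RhE]
    split_ifs with e
    · rfl
    · rw [h1 i _ (le_abs.2 (Or.inl (by linarith))), h0, h0]
  · simp only [Fin.append_right, tsl_RhE, ← sub_eq_add_neg]
    split_ifs with e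
    · rw [h2 i _ (le_abs.2 (Or.inr (by linarith))), h0, h0]
    · rfl

theorem nz_glue (h : CT T) (h' : CT T') (hM : Mat T T') : ∃ β, FlR β (nz T).S ∧ FlL β (nz T').S ∧
    ∀ᶠ R in atTop, nz (glue R T T') = ag R R β (nz T) (nz T') := by
  obtain ⟨R₁, h1⟩ := hM.glue
  obtain ⟨R₀, h0⟩ := hM
  obtain ⟨β, hβ⟩ : ∃ β : ℝ → V →L[ℝ] V, ∀ p : Pl,
      nS (lp fun t => T.j (R₀, t)) (lp fun t => T.S (R₀, t)) p = β p.2 :=
    ⟨fun t => nS (lp fun t => T.j (R₀, t)) (lp fun t => T.S (R₀, t)) (0, t), congrFun (nS_lp _ _)⟩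
  have e : ∀ p : Pl, R₀ + 1 ≤ p.1 → (nz T).S p = β p.2 := fun p hp =>
    (nS_congr (((continuous_fst.tendsto p).eventually (lt_mem_nhds (by linarith : R₀ < p.1))).mono
      fun q hq => (h0 _ hq.le _ le_rfl q.2).1.trans (h0 _ le_rfl _ le_rfl q.2).1.symm)
      ((h0 _ (by linarith) _ le_rfl p.2).2.trans (h0 _ le_rfl _ le_rfl p.2).2.symm)).trans (hβ p)
  have h2 : ∀ q : Pl, q.1 ≤ -R₀ → T.j (R₀, q.2) = T'.j q ∧ T.S (R₀, q.2) = T'.S q := fun q hq => by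
    simpa using h0 _ le_rfl (-q.1) (le_neg.1 hq) q.2
  have e' : ∀ p : Pl, p.1 ≤ -(R₀ + 1) → (nz T').S p = β p.2 := fun p hp =>
    (nS_congr (((continuous_fst.tendsto p).eventually (gt_mem_nhds (by linarith : p.1 < -R₀))).mono
      fun q hq => (h2 q hq.le).1.symm) (h2 p (by linarith)).2.symm).trans (hβ p)
  refine ⟨β, ⟨_, e⟩, ⟨_, e'⟩, ?_⟩
  filter_upwards [eventually_gt_atTop R₁, eventually_ge_atTop (R₀ + 1),
    frame_NzD (fun j v => pj j v) (fun _ => map_zero _) h.2.1 h'.2.1 T.j T'.j,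
    frame_NzD (fun j v => -Sym.J0 ((pj j).inverse (Sym.J0 v))) (fun _ => by simp) h.2.2 h'.2.2
      T.j T'.j] with R a1 a2 a3 a4
  refine ext_GauB rfl rfl rfl (fun _ _ => rfl) (fun p => DFunLike.congr_fun ?_) a3 a4 rfl
  rw [ag_S_RhE]
  rcases le_total p.1 0 with hp | hp
  · obtain ⟨b1, b2⟩ := (h1 R a1 p).1 hp
    rw [e' _ (by linarith), add_sub_cancel_right]
    exact (nS_congr b1 b2.self_of_nhds).trans ((congrFun (nS_tsl _ _ _) p).trans (tsl_RhE _ _ _))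
  · obtain ⟨b1, b2⟩ := (h1 R a1 p).2 hp
    rw [e _ (by linarith), add_sub_cancel_left]
    exact (nS_congr b1 b2.self_of_nhds).trans ((congrFun (nS_tsl _ _ _) p).trans (tsl_RhE _ _ _))

theorem Ok.glue (h : Ok Ω0 ⊥ T) (h' : Ok Ω0 ⊥ T') (hM : Mat T T') :
    ∀ᶠ R in atTop, Ok Ω0 ⊥ (glue R T T') := by
  obtain ⟨β, e, e', h1⟩ := nz_glue (Adm.ct h.1) (Adm.ct h'.1) hM
  obtain ⟨α, β', h2⟩ := Ok.ng h
  obtain ⟨_, _, h3⟩ := Ok.ng h'
  obtain rfl := h2.sim.eq_right e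
  obtain ⟨c, -, h4⟩ := ag_bij h2.ok h3.ok h2.right.1 h2.right.2.1 e e'
  obtain ⟨G, hG⟩ := far_iff.1 h4
  filter_upwards [h1, eventually_ge_atTop (G / 2), Adm.glue h.1 h'.1
    ((Subgroup.mem_bot.1 h.1.mem).trans (Subgroup.mem_bot.1 h'.1.mem).symm) hM] with R a1 a2 a3
  exact (Adm.ok_iff a3).2 ((Adm.ct a3).bij_nz.1 (a1 ▸ (hG (R, R) (by linarith)).1))

end

end Pool.Agent.P.MP_de3acd_gt.FH
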