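import Pool.Agent.P.MP_de3acd_gt.FH.RhB
import Pool.Agent.P.MP_de3acd_gt.FH.FrOnto

/-! Representatives with prescribed ends.
Sketch: hasIdx_ref: hasIdx_of_param with χ = stp 0 1, Q = sc 2 (1 - χ) ∘ Dα⁻¹ + sc 2 χ ∘ Dβ⁻¹, Q' = Dα⁻¹ ∘ sc 1 (1 - χ) + Dβ⁻¹ ∘ sc 1 χ (equiv_IFT); Dop_sc, Dop_sub_DopA; the errors are sc 1 (ds χ) ∘ inc (apx_cut,
ds χ is a test function) and multiplications by (1 - χ) (ref α β - lp α), χ (ref α β - lp β), which vanish for |s| ≥ 1 (apx_mop; mul_mul). HasIdx.frame: bijective_open; the columns K (single i) are limits of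
co 1 φ (denseRange_co, toW_co); the functionals prW l form a subspace (prW_add, prW_smul) that is dense in the dual of W 2 V: under InnerProductSpace.toDual its orthogonal complement is zero by exists_prW_pos
(Submodule.topologicalClosure_eq_top_iff); exists_mmap; norm_blk_sub_le. -/

open Set Filter Topology MeasureTheory
open scoped ContDiff NNReal ENNReal RealInnerProductSpace

namespace Pool.Agent.P.MP_de3acd_gt.FH

noncomputable section

variable {V : Type} [NormedAddCommGroup V] [InnerProductSpace ℝ V] [Sym V]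

variable {α β : ℝ → V →L[ℝ] V}

theorem cut_RhH {S S' : Pl → V →L[ℝ] V} (h : Bdd S) (hp : Per S) (h' : Bdd S') (hp' : Per S')
    {χ : Pl → ℝ} (hχ : Bdd χ) (pχ : Per χ) (ht : dt χ = 0) (hs : ds χ ∈ Dsub ℝ)
    (e : ∀ p : Pl, 1 ≤ |p.1| → χ p • (S - S') p = 0) :
    Apx ((Dop 1 1 j0 S).comp (sc 2 χ) - (sc 1 χ).comp (Dop 1 1 j0 S')) := by
  have b : Bdd fun p => χ p • (S - S') p := hχ.bil (h.sub h') (ContinuousLinearMap.lsmul ℝ ℝ)
  have q : Per fun p => χ p • (S - S') p := fun s t => by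
    simp only [pχ s t, per_sub_DopA hp hp' s t]
  have e1 : (Dop 1 1 j0 S).comp (sc 2 χ) - (sc 1 χ).comp (Dop 1 1 j0 S') =
      (mop 1 fun p => χ p • (S - S') p).comp (inc 1) + (sc 1 (ds χ)).comp (inc 1) :=
    ContinuousLinearMap.ext fun ξ => by
      have e2 := Dop_sub_DopA 1 (coef_j0 h hp) (coef_j0 h' hp') ξ
      rw [toCb_sub (coef_j0 h hp).bj (coef_j0 h hp).pj (coef_j0 h hp).bj (coef_j0 h hp).pj,
        sub_self, map_zero, zero_apply, zero_add] at e2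
      have e3 : sc 1 χ (mop 1 (S - S') (inc 1 ξ)) = mop 1 (fun p => χ p • (S - S') p) (inc 1 ξ) :=
        mul_mul one_le_two (fun p v => by
          rw [fn_toCb hχ pχ, fn_toCb (h.sub h') (per_sub_DopA hp hp'), fn_toCb b q]
          rfl) _
      change Dop 1 1 j0 S (sc 2 χ ξ) - sc 1 χ (Dop 1 1 j0 S' ξ) =
        mop 1 (fun p => χ p • (S - S') p) (inc 1 ξ) + sc 1 (ds χ) (inc 1 ξ)
      rw [Dop_sc le_rfl 1 j0 S hχ pχ ht, one_smul, add_sub_right_comm, ← map_sub, e2, ← e3]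
      rfl
  rw [e1]
  refine (apx_mop b q fun ε hε => ⟨2, ?_⟩).add (apx_cut hs)
  refine ((cn_const 1 (0 : V →L[ℝ] V) _).mono le_rfl subset_rfl
    (by rw [norm_zero]; exact hε.le)).congr fun p hq => ?_
  have : ∀ᶠ r : Pl in 𝓝 p, 1 < |r.1| :=
    (continuous_fst.abs.tendsto p).eventually (lt_mem_nhds (lt_of_lt_of_le one_lt_two hq))
  exact this.mono fun r hr => ((sub_zero _).trans (e r hr.le)).symm

theorem hasIdx_ref (hα : GoodE α) (hβ : GoodE β) : ∃ n, HasIdx (Dop 1 1 j0 (ref α β)) n := by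
  obtain ⟨b, q, l, r⟩ := bdd_ref hα.1 hβ.1 hα.2.1 hβ.2.1
  obtain ⟨bα, qα, -⟩ := bdd_lp hα.1 hα.2.1
  obtain ⟨bβ, qβ, -⟩ := bdd_lp hβ.1 hβ.2.1
  obtain ⟨A, hA⟩ := equiv_IFT hα.2.2
  obtain ⟨B, hB⟩ := equiv_IFT hβ.2.2
  have b1 := bdd_stp 0 1
  have q1 := per_stp 0 1
  have b2 : Bdd (1 - stp 0 1) := (bdd_const (1 : ℝ)).sub b1
  have q2 : Per (1 - stp 0 1) := fun _ _ => rfl
  have s1 : ds (stp 0 1) ∈ Dsub ℝ := ⟨b1.ds.1, q1.ds, 1, fun p hp => ds_stp_eq_zero one_pos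
    fun h => by rw [abs_of_pos h.1] at hp; linarith [h.2]⟩
  have z : ∀ v : Pl, (fun p => fderiv ℝ (1 - stp 0 1 : Pl → ℝ) p v) =
      -fun p => fderiv ℝ (stp 0 1) p v := fun v => funext fun p => by
    rw [show (1 - stp 0 1 : Pl → ℝ) = fun p => 1 - stp 0 1 p from rfl, fderiv_const_sub]
    rfl
  have s2 : ds (1 - stp 0 1) ∈ Dsub ℝ := by
    rw [show ds (1 - stp 0 1) = -ds (stp 0 1) from z _]
    exact neg_mem s1
  have t2 : dt (1 - stp 0 1) = 0 := by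
    rw [show dt (1 - stp 0 1) = -dt (stp 0 1) from z _, dt_stp, neg_zero]
  have eβ : ∀ p : Pl, 1 ≤ |p.1| → stp 0 1 p = 0 ∨ ref α β p = lp β p := fun p hp =>
    (le_abs.1 hp).symm.imp (fun h => stp_eq_zero one_pos (by linarith)) (r p)
  have eα : ∀ p : Pl, 1 ≤ |p.1| → (1 - stp 0 1 : Pl → ℝ) p = 0 ∨ ref α β p = lp α p := fun p hp =>
    (le_abs.1 hp).imp (fun h => sub_eq_zero.2 (stp_eq_one one_pos (by linarith)).symm)
      fun h => l p (by linarith)
  have u : ∀ {χ : Pl → ℝ} {S S' : Pl → V →L[ℝ] V},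
      (∀ p : Pl, 1 ≤ |p.1| → χ p = 0 ∨ S p = S' p) →
      (∀ p : Pl, 1 ≤ |p.1| → χ p • (S - S') p = 0) ∧
        ∀ p : Pl, 1 ≤ |p.1| → χ p • (S' - S) p = 0 := fun h =>
    ⟨fun p hp => (h p hp).elim (fun e => by rw [e, zero_smul])
      fun e => by rw [Pi.sub_apply, e, sub_self, smul_zero],
    fun p hp => (h p hp).elim (fun e => by rw [e, zero_smul])
      fun e => by rw [Pi.sub_apply, e, sub_self, smul_zero]⟩
  have o : ∀ {k : ℕ}, k ≤ 2 → ∀ ξ : W k V, sc k (1 - stp 0 1) ξ + sc k (stp 0 1) ξ = ξ :=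
    fun hk ξ => by rw [← sc_add b2 q2 b1 q1, sub_add_cancel, sc_one hk]
  refine hasIdx_of_param
    (Q := (sc 2 (1 - stp 0 1)).comp (A.symm : W 1 V →L[ℝ] W 2 V) +
      (sc 2 (stp 0 1)).comp (B.symm : W 1 V →L[ℝ] W 2 V))
    (Q' := (A.symm : W 1 V →L[ℝ] W 2 V).comp (sc 1 (1 - stp 0 1)) +
      (B.symm : W 1 V →L[ℝ] W 2 V).comp (sc 1 (stp 0 1))) ?_ ?_
  · have := ((cut_RhH b q bα qα b2 q2 t2 s2 (u eα).1).pre (A.symm : W 1 V →L[ℝ] W 2 V)).add
      ((cut_RhH b q bβ qβ b1 q1 (dt_stp 0 1) s1 (u eβ).1).pre (B.symm : W 1 V →L[ℝ] W 2 V))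
    refine (congrArg Apx (ContinuousLinearMap.ext fun η => ?_)).mp this
    rw [← hA, ← hB]
    simp only [add_apply, sub_apply,
      ContinuousLinearMap.comp_apply, ContinuousLinearEquiv.coe_coe,
      ContinuousLinearEquiv.apply_symm_apply, one_apply_eq_self, map_add]
    rw [← add_sub_add_comm, o one_le_two]
  · have := ((cut_RhH bα qα b q b2 q2 t2 s2 (u eα).2).post (A.symm : W 1 V →L[ℝ] W 2 V)).add
      ((cut_RhH bβ qβ b q b1 q1 (dt_stp 0 1) s1 (u eβ).2).post (B.symm : W 1 V →L[ℝ] W 2 V))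
    refine (congrArg Apx (ContinuousLinearMap.ext fun η => ?_)).mp this.neg
    rw [← hA, ← hB]
    simp only [add_apply, sub_apply,
      ContinuousLinearMap.comp_apply, ContinuousLinearEquiv.coe_coe, neg_apply,
      ContinuousLinearEquiv.symm_apply_apply, one_apply_eq_self, map_sub]
    rw [← add_sub_add_comm, o le_rfl, neg_sub]

theorem HasIdx.frame {D : W 2 V →L[ℝ] W 1 V} {n : ℤ} (h : HasIdx D n) :
    ∃ (a b : ℕ) (K : Fin a → Pl → V) (l : Fin b → Pl → V) (M : Fin b → Fin a → ℝ),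
      TF K ∧ TF l ∧ Function.Bijective (frm D K l M) := by
  classical
  obtain ⟨a, b₀, K₀, l₀, M₀, h₀, -⟩ := id h
  set Φ : (Fin a → W 1 V) → W 2 V × (Fin a → ℝ) →L[ℝ] W 1 V := fun y =>
    D.comp (ContinuousLinearMap.fst ℝ _ _) + (∑ i, (ContinuousLinearMap.proj i :
      (Fin a → ℝ) →L[ℝ] ℝ).smulRight (y i)).comp (ContinuousLinearMap.snd ℝ _ _) with hΦ
  have c : Continuous Φ := continuous_const.add ((continuous_finsetSum _ fun i _ =>
    (ContinuousLinearMap.smulRightL ℝ (Fin a → ℝ) (W 1 V)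
      (ContinuousLinearMap.proj i)).continuous.comp (continuous_apply i)).clm_comp continuous_const)
  have s₀ : Function.Surjective (Φ fun i => K₀ (Pi.single i 1)) := fun y => by
    obtain ⟨z, hz⟩ := surjective_coprod_of_blk h₀.2 y
    refine ⟨z, Eq.trans ?_ hz⟩
    have : z.2 = ∑ i, z.2 i • (Pi.single i 1 : Fin a → ℝ) := pi_eq_sum_univ' z.2
    change D z.1 + (∑ i, (ContinuousLinearMap.proj i : (Fin a → ℝ) →L[ℝ] ℝ).smulRight
      (K₀ (Pi.single i 1))) z.2 = D z.1 + K₀ z.2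
    conv_rhs => rw [this, map_sum]
    simp only [sum_apply, map_smul, ContinuousLinearMap.smulRight_apply,
      ContinuousLinearMap.proj_apply]
  obtain ⟨φ, hφ⟩ := (DenseRange.piMap fun _ : Fin a => denseRange_co (U := V) 1).mem_nhds
    ((c.tendsto _).eventually (surjective_open s₀))
  have e : Function.Surjective (D.coprod (kmap fun i => (φ i).1)) := by
    refine (congrArg (fun T : W 2 V × (Fin a → ℝ) →L[ℝ] W 1 V => Function.Surjective T)
      (ContinuousLinearMap.ext fun z => ?_)).mp hφ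
    simp only [kmap, toW_co]
    rfl
  have := (h.coprod (kmap fun i => (φ i).1)).finiteDimensional
  obtain ⟨b, f, hf, hb⟩ := exists_functionals e (P := {f | ∃ l ∈ Dsub V, ∃ m : Fin a → ℝ,
      ∀ z, f z = prW l z.1 + ∑ i, m i * z.2 i}) fun z hz => by
    by_cases h1 : z.1 = 0
    · obtain ⟨i, hi⟩ : ∃ i, z.2 i ≠ 0 :=
        Function.ne_iff.1 fun h2 => hz (Prod.ext h1 h2)
      refine ⟨(ContinuousLinearMap.proj i).comp (ContinuousLinearMap.snd ℝ _ _),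
        ⟨0, zero_mem _, Pi.single i 1, fun z => ?_⟩, hi⟩
      rw [prW_zero]
      simp [Pi.single_apply]
    · obtain ⟨l, hl, hp⟩ := exists_prW_pos h1
      exact ⟨(prW l).comp (ContinuousLinearMap.fst ℝ _ _), ⟨l, hl, 0, fun z => by simp⟩, hp.ne'⟩
  choose l hl M hM using hf
  refine ⟨a, b, fun i => (φ i).1, l, M, fun i => (φ i).2, hl, ?_⟩
  have e' : frm D (fun i => (φ i).1) l M =
      (D.coprod (kmap fun i => (φ i).1)).prod (ContinuousLinearMap.pi f) := by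
    refine ContinuousLinearMap.ext fun z => Prod.ext rfl (funext fun i => ?_)
    change prW (l i) z.1 + mmap M z.2 i = f i z
    rw [mmap_apply, hM]
  rw [e']
  exact hb

theorem exists_rep (hα : GoodE α) (hβ : GoodE β) :
    ∃ (a b : ℕ) (T : Op V a b), NG α β T ∧ T.S = ref α β := by
  obtain ⟨n, hn⟩ := hasIdx_ref hα hβ
  obtain ⟨a, b, K, l, M, hK, hl, h⟩ := hn.frame
  obtain ⟨b', q, -⟩ := bdd_ref hα.1 hβ.1 hα.2.1 hβ.2.1
  exact ⟨a, b, ⟨1, 0, 0, j0, ref α β, K, l, M⟩,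
    ⟨⟨⟨rfl, coef_j0 b' q, hK, hl⟩, h⟩, hα, hβ, Sim.refl _⟩, rfl⟩

end

end Pool.Agent.P.MP_de3acd_gt.FH
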