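import Pool.Agent.P.MP_de3acd_gt.FH.RhG
import Pool.Agent.P.MP_de3acd_gt.FH.RhH

/-! Coherent signs of normalised operators exist.
Sketch: choose for good α, β a representative P α β : Σ a b, Op V a b (exists_rep, Classical.epsilon or choose with dite), flat on both ends (flL_ref, flR_ref). τ α β δ is the eventual value along far of
kap (P α β) (P β δ) * rho (ag q.1 q.2 β (P α β) (P β δ)) (P α δ) (exists_tau). (G1) for T₁ from α to β, T₂ from β to δ, flat in the middle, eventually along far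
rho (ag T₁ T₂) (P α δ) = kap a₁ a₂ b₂ * rho T₁ (P α β) * rho T₂ (P β δ) * τ α β δ (rho_trans, rho_ag, NG.ag). (G2) τ α β δ * τ α δ ε = τ β δ ε * τ α β ε: apply G1 to (ag p 0 β P₁ P₂, P₃) with shifts (0, q), p fixed large, q larger,
and to (P₁, ag 0 q δ P₂ P₃) with shifts (p, 0), q fixed large, p larger; stb_ag_assoc, rho_congr, rho_ag3, kap_cocycle, rho_self. α₀ = Classical.epsilon GoodE; the ends (α, β) of T are chosen with NG α β T and are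
unique (Sim.unique); o T = rho T (P α β) * τ α₀ α β. rel: rho_trans, rho_same, par_symm. Units of ℤ: u * u = 1 (Int.units_mul_self). -/

open Set Filter Topology MeasureTheory
open scoped ContDiff NNReal ENNReal RealInnerProductSpace

namespace Pool.Agent.P.MP_de3acd_gt.FH

noncomputable section

variable {V : Type} [NormedAddCommGroup V] [InnerProductSpace ℝ V] [Sym V]

section

variable {G : Type} {v : G → ℝ → V →L[ℝ] V} {A B : G → G → ℕ} {P : ∀ α β, Op V (A α β) (B α β)}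
  (hP : ∀ α β, NG (v α) (v β) (P α β) ∧ (P α β).S = ref (v α) (v β))
include hP

theorem exists_tau_ON : ∃ τ : G → G → G → ℤˣ, ∀ α β δ {a b a' b'} {T : Op V a b}
    {T' : Op V a' b'}, NG (v α) (v β) T → NG (v β) (v δ) T' → FlR (v β) T.S → FlL (v β) T'.S →
      ∃ C, ∀ p q, C ≤ p + q → NG (v α) (v δ) (ag p q (v β) T T') ∧
        rho (ag p q (v β) T T') (P α δ) = kap a a' b' * rho T (P α β) * rho T' (P β δ) * τ α β δ := by
  have fR : ∀ α β, FlR (v β) (P α β).S := fun α β => (hP α β).2 ▸ flR_ref _ _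
  have fL : ∀ α β, FlL (v α) (P α β).S := fun α β => (hP α β).2 ▸ flL_ref _ _
  choose τ hτ using fun α β δ => exists_tau (hP α β).1 (hP β δ).1 (fR α β) (fL β δ) (hP α δ).1
  refine ⟨fun α β δ => kap (A α β) (A β δ) (B β δ) * τ α β δ, fun α β δ a b a' b' T T' h h' f f' =>
    ?_⟩
  simp only [← Prod.forall']
  refine far_iff.1 ?_
  filter_upwards [hτ α β δ, rho_ag h (hP α β).1 h' (hP β δ).1 f (fR α β) f' (fL β δ), h.ag h' f f',
    (hP α β).1.ag (hP β δ).1 (fR α β) (fL β δ)] with q h1 h2 h3 h4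
  refine ⟨h3, ?_⟩
  rw [rho_trans h3 h4 (hP α δ).1, h1, h2]
  ac_rfl

theorem cocycle_ON {τ : G → G → G → ℤˣ} (hτ : ∀ α β δ {a b a' b'} {T : Op V a b}
    {T' : Op V a' b'}, NG (v α) (v β) T → NG (v β) (v δ) T' → FlR (v β) T.S → FlL (v β) T'.S →
      ∃ C, ∀ p q, C ≤ p + q → NG (v α) (v δ) (ag p q (v β) T T') ∧
        rho (ag p q (v β) T T') (P α δ) = kap a a' b' * rho T (P α β) * rho T' (P β δ) * τ α β δ)
    (α β δ ε : G) : τ α β δ * τ α δ ε = τ α β ε * τ β δ ε := by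
  have fR : ∀ α β, FlR (v β) (P α β).S := fun α β => (hP α β).2 ▸ flR_ref _ _
  have fL : ∀ α β, FlL (v α) (P α β).S := fun α β => (hP α β).2 ▸ flL_ref _ _
  obtain ⟨t, C, ht⟩ := rho_ag3 (hP α β).1 (hP β δ).1 (hP δ ε).1 (fR α β) (fL β δ) (fR β δ) (fL δ ε)
    (hP α ε).1
  obtain ⟨C₁, h₁⟩ := hτ α β δ (hP α β).1 (hP β δ).1 (fR α β) (fL β δ)
  obtain ⟨C₂, h₂⟩ := hτ β δ ε (hP β δ).1 (hP δ ε).1 (fR β δ) (fL δ ε)
  obtain ⟨k₁, e₁⟩ := h₁ (max C C₁) 0 (by simp)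
  obtain ⟨k₂, e₂⟩ := h₂ 0 (max C C₂) (by simp)
  obtain ⟨C₃, h₃⟩ := hτ α δ ε k₁ (hP δ ε).1 ((fR α β).ag (fR β δ) _ _) (fL δ ε)
  obtain ⟨C₄, h₄⟩ := hτ α β ε (hP α β).1 k₂ (fR α β) ((fL β δ).ag (fL δ ε) _ _)
  have e₃ := (h₃ 0 (max C C₃) (by simp)).2
  have e₄ := (h₄ (max C C₄) 0 (by simp)).2
  rw [ht _ _ (le_max_left _ _) (le_max_left _ _), e₁] at e₃
  rw [← rho_congr (add_assoc _ _ _) (add_assoc _ _ _) fun m n => stb_ag_assoc m n _ _ _ _ _ _ _,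
    ht _ _ (le_max_left _ _) (le_max_left _ _), e₂, e₃] at e₄
  simp only [rho_self (hP _ _).1.ok, mul_one] at e₄
  refine mul_left_cancel (a := kap (A α β + A β δ) (A δ ε) (B δ ε) * kap (A α β) (A β δ) (B β δ)) ?_
  rw [← mul_assoc, mul_assoc (kap _ _ _), e₄, kap_cocycle]
  ac_rfl

end

theorem exists_ncoh : ∃ o : ∀ a b, Op V a b → ℤˣ, NCoh o := by
  rcases isEmpty_or_nonempty {α : ℝ → V →L[ℝ] V // GoodE α} with hG | ⟨⟨α₀⟩⟩
  · exact ⟨fun _ _ _ => 1, fun _ _ _ _ α _ h _ => hG.elim ⟨α, h.left⟩,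
      fun _ _ _ _ _ _ α _ _ h => hG.elim ⟨α, h.left⟩⟩
  choose A B P hP using fun α β : {α : ℝ → V →L[ℝ] V // GoodE α} => exists_rep α.2 β.2
  obtain ⟨τ, hτ⟩ := exists_tau_ON hP
  have : Nonempty {α : ℝ → V →L[ℝ] V // GoodE α} := ⟨α₀⟩
  obtain ⟨o, ho⟩ : ∃ o : ∀ a b, Op V a b → ℤˣ, ∀ {a b} {T : Op V a b} {α β} (h : NG α β T),
      o a b T = rho T (P ⟨α, h.left⟩ ⟨β, h.right⟩) * τ α₀ ⟨α, h.left⟩ ⟨β, h.right⟩ := by
    have k : ∀ a b (T : Op V a b), ∃ u : ℤˣ, ∀ α β (h : NG α β T),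
        u = rho T (P ⟨α, h.left⟩ ⟨β, h.right⟩) * τ α₀ ⟨α, h.left⟩ ⟨β, h.right⟩ := fun a b T => by
      by_cases h : ∃ α β, NG α β T
      · obtain ⟨α, β, h⟩ := h
        refine ⟨rho T (P ⟨α, h.left⟩ ⟨β, h.right⟩) * τ α₀ ⟨α, h.left⟩ ⟨β, h.right⟩,
          fun α' β' h' => ?_⟩
        obtain ⟨rfl, rfl⟩ := h.sim.unique h'.sim
        rfl
      · exact ⟨1, fun α β h' => (h ⟨α, β, h'⟩).elim⟩
    choose o ho using k
    exact ⟨o, fun h => ho _ _ _ _ _ h⟩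
  refine ⟨o, fun a b T T' α β h h' => ?_, fun a b a' b' T T' α β δ h h' f f' => ?_⟩
  · rw [ho h, ho h', rho_trans h' h (hP ⟨α, h.left⟩ ⟨β, h.right⟩).1,
      rho_same h'.ok h.ok (h'.sim' h), par_symm (h.ok.rl h'.ok (h.sim' h')), mul_assoc]
  · obtain ⟨C, hC⟩ := hτ ⟨α, h.left⟩ ⟨β, h.right⟩ ⟨δ, h'.right⟩ h h' f f'
    filter_upwards [eventually_ge_atTop (C / 2)] with R hR
    obtain ⟨k, e⟩ := hC R R (by linarith)
    have e' := cocycle_ON hP hτ α₀ ⟨α, h.left⟩ ⟨β, h.right⟩ ⟨δ, h'.right⟩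
    rw [ho k, ho h, ho h']
    refine (congrArg (· * _) e).trans ?_
    rw [mul_assoc, mul_comm (τ _ _ _), ← e']
    ac_rfl

end

end Pool.Agent.P.MP_de3acd_gt.FH
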