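import Pool.Agent.P.MP_de3acd_gt.FH.JP
import Pool.Agent.P.MP_de3acd_gt.FH.JetN

/-! Paths between close operators.
Sketch: A bounds ‖T.j p‖ + 1; G, L from exists_jpath A; P r = ⟨1, 0, 0, fun p => G (r, T.j p, T'.j p), T.S + r • (T'.S - T.S), T.K + r • (T'.K - T.K), T.l + r • (T'.l - T.l), T.M + r • (T'.M - T.M)⟩.
The bounds of Clo hold for all p (Per.int). Bdd.comp and cn_comp_sub for the map fun _ => G and c r p = (r, T.j p, T'.j p) (Bdd.prod, bdd_const, cn_const); nrm_smul, nrm_lt_top_of_mem, seg_SgnA, cn_smul_SgnA as patterns;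
integral_const_mul; squeeze_zero_norm for Asy. -/

open Set Filter Topology MeasureTheory
open scoped ContDiff NNReal ENNReal RealInnerProductSpace

namespace Pool.Agent.P.MP_de3acd_gt.FH

noncomputable section

variable {V : Type} [NormedAddCommGroup V] [InnerProductSpace ℝ V] [Sym V]
variable {a b a' b' : ℕ}

theorem nz_congr_OPath {T T' : Op V a b} (hj : T.j = T'.j) (hS : T.S = T'.S) (hK : T.K = T'.K)
    (hl : T.l = T'.l) (hM : T.M = T'.M) : nz T = nz T' := by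
  simp only [nz, hj, hS, hK, hl, hM]

theorem seg_OPath {E : Type} [AddCommGroup E] [Module ℝ E] (v w : E) (τ τ₀ : ℝ) :
    v + τ • w - (v + τ₀ • w) = (τ - τ₀) • w := by
  rw [add_sub_add_left_eq_sub, sub_smul]

theorem small_OPath (C r : ℝ) {ε : ℝ} (hε : 0 < ε) : ∀ᶠ r' in 𝓝 r, C * |r' - r| ≤ ε := by
  have hc : Continuous fun r' : ℝ => C * |r' - r| := by fun_prop
  exact (hc.tendsto' r 0 (by simp)).eventually (ge_mem_nhds hε)

section

variable {F : Type} [NormedAddCommGroup F] [NormedSpace ℝ F]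

theorem nrm_seg_OPath (k : ℕ) {K K' : Pl → F} (hK : K ∈ Dsub F) (hK' : K' ∈ Dsub F) (τ₀ : ℝ) :
    Tendsto (fun τ : ℝ => nrm k (K + τ • (K' - K) - (K + τ₀ • (K' - K))) univ) (𝓝 τ₀) (𝓝 0) := by
  have hm := (Dsub F).sub_mem hK' hK
  have hc : Continuous fun τ : ℝ => ENNReal.ofReal ((τ - τ₀) ^ 2) :=
    ENNReal.continuous_ofReal.comp (by fun_prop)
  have h1 := ENNReal.Tendsto.mul_const (hc.tendsto' τ₀ 0 (by simp))
    (Or.inr (nrm_lt_top_of_mem k hm).ne)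
  rw [zero_mul] at h1
  refine h1.congr fun τ => ?_
  rw [seg_OPath, nrm_smul k _ hm.1]

theorem cn_seg_OPath (k : ℕ) {S S' : Pl → F} (hS : Bdd S) (hS' : Bdd S') (τ₀ : ℝ) {ε : ℝ}
    (hε : 0 < ε) : ∀ᶠ τ in 𝓝 τ₀, Cn k (S + τ • (S' - S) - (S + τ₀ • (S' - S))) univ ε := by
  obtain ⟨A, h0, hA⟩ := (hS'.sub hS).cn k
  refine (small_OPath A τ₀ hε).mono fun τ hτ => ?_
  rw [seg_OPath]
  refine (Cn.clm ((τ - τ₀) • ContinuousLinearMap.id ℝ F) (hS'.sub hS).1 hA).up_JetC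
    (le_trans ?_ hτ)
  rw [mul_comm, norm_smul, Real.norm_eq_abs]
  exact mul_le_mul_of_nonneg_left
    (mul_le_of_le_one_right (abs_nonneg _) ContinuousLinearMap.norm_id_le) h0

theorem norm_seg_OPath (v w : F) {r δ : ℝ} (hr : r ∈ Icc (0 : ℝ) 1) (h : ‖w - v‖ ≤ δ) :
    ‖v + r • (w - v) - v‖ ≤ δ := by
  rw [add_sub_cancel_left, norm_smul, Real.norm_of_nonneg hr.1]
  exact (mul_le_of_le_one_left (norm_nonneg _) hr.2).trans h

theorem int_seg_OPath (K K' : Pl → F) {r δ : ℝ} (hr : r ∈ Icc (0 : ℝ) 1)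
    (h : ∫ p in St, ‖K' p - K p‖ ^ 2 ≤ δ) : ∫ p in St, ‖(K + r • (K' - K)) p - K p‖ ^ 2 ≤ δ := by
  have e : ∀ p, ‖(K + r • (K' - K)) p - K p‖ ^ 2 = r ^ 2 * ‖K' p - K p‖ ^ 2 := fun p => by
    rw [Pi.add_apply, add_sub_cancel_left, Pi.smul_apply, norm_smul, mul_pow, Real.norm_eq_abs,
      sq_abs, Pi.sub_apply]
  simp only [e]
  rw [integral_const_mul]
  exact (mul_le_of_le_one_left (integral_nonneg fun p => by positivity)
    (pow_le_one₀ hr.1 hr.2)).trans h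

omit [NormedSpace ℝ F] in
theorem all_OPath {f g : Pl → F} (hf : Per f) (hg : Per g) {δ : ℝ}
    (h : ∀ p ∈ St, ‖f p - g p‖ ≤ δ) (p : Pl) : ‖f p - g p‖ ≤ δ := by
  have := h (p.1, Int.fract p.2) ⟨mem_univ _, Int.fract_nonneg _, (Int.fract_lt_one _).le⟩
  rwa [← hf.int _ _ ⌊p.2⌋, ← hg.int _ _ ⌊p.2⌋, Int.fract_add_floor] at this

end

theorem exists_opath {T : Op V a b} (h : CT T) : ∃ L > 0, ∀ (T' : Op V a b) (δ : ℝ), CT T' → δ ≤ 1 →
    Clo T T' δ → Asy T T' → ∃ P : ℝ → Op V a b, nz (P 0) = nz T ∧ nz (P 1) = nz T' ∧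
      ∀ r ∈ Icc (0 : ℝ) 1, CT (P r) ∧ Asy T (P r) ∧ Clo T (P r) (L * δ) ∧
        SC (𝓝[Icc 0 1] r) P (P r) := by
  obtain ⟨A, hA⟩ := h.1.bj.bound
  obtain ⟨G, L, hG, hL, H⟩ := exists_jpath (V := V) (A + 1)
  refine ⟨L + 1, by linarith, fun T' δ h' hδ hc ha => ?_⟩
  have h0 : 0 ≤ δ := (norm_nonneg _).trans hc.2.2.2
  have h1 : δ ≤ (L + 1) * δ := le_mul_of_one_le_left h0 (by linarith)
  have hj : ∀ p, ‖T'.j p - T.j p‖ ≤ δ := all_OPath h'.1.pj h.1.pj fun p hp => (hc.1 p hp).1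
  have H' := fun p => H (T.j p) (T'.j p) (h.1.cpt p) (h'.1.cpt p) ((hA p).trans (by linarith)) (by
    have := norm_add_le (T.j p) (T'.j p - T.j p)
    rw [add_sub_cancel] at this
    linarith [hA p, hj p])
  have hg : SP fun _ : ℝ => G := ⟨hG.comp contDiff_snd, fun _ => rfl⟩
  have hd := h.1.bj.prod h'.1.bj
  refine ⟨fun r => ⟨1, 0, 0, fun p => G (r, T.j p, T'.j p), T.S + r • (T'.S - T.S),
    fun i => T.K i + r • (T'.K i - T.K i), fun i => T.l i + r • (T'.l i - T.l i),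
    T.M + r • (T'.M - T.M)⟩,
    nz_congr_OPath (funext fun p => (H' p).1) (by simp) (by simp) (by simp) (by simp),
    nz_congr_OPath (funext fun p => (H' p).2.1) (by simp) (by simp) (by simp) (by simp),
    fun r hr => ⟨⟨⟨.inl rfl, Bdd.comp hg ((bdd_const r).prod hd), fun s t => ?_,
      h.1.bS.add ((h'.1.bS.sub h.1.bS).smul r), fun s t => ?_, fun p => ((H' p).2.2 r hr).1⟩,
      fun i => (Dsub V).add_mem (h.2.1 i) ((Dsub V).smul_mem r
        ((Dsub V).sub_mem (h'.2.1 i) (h.2.1 i))),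
      fun i => (Dsub V).add_mem (h.2.2 i) ((Dsub V).smul_mem r
        ((Dsub V).sub_mem (h'.2.2 i) (h.2.2 i)))⟩, fun t => ?_,
      ⟨fun p hp => ⟨?_, (norm_seg_OPath _ _ hr (hc.1 p hp).2).trans h1⟩,
        fun i => (int_seg_OPath _ _ hr (hc.2.1 i)).trans h1,
        fun i => (int_seg_OPath _ _ hr (hc.2.2.1 i)).trans h1,
        (norm_seg_OPath _ _ hr hc.2.2.2).trans h1⟩,
      fun ε hε => ?_, fun ε hε => (cn_seg_OPath 1 h.1.bS h'.1.bS r hε).filter_mono nhdsWithin_le_nhds,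
      fun i => (nrm_seg_OPath 1 (h.2.1 i) (h'.2.1 i) r).mono_left nhdsWithin_le_nhds,
      fun i => (nrm_seg_OPath 0 (h.2.2 i) (h'.2.2 i) r).mono_left nhdsWithin_le_nhds, ?_⟩⟩
  · simp only [h.1.pj s t, h'.1.pj s t]
  · simp only [Pi.add_apply, Pi.smul_apply, Pi.sub_apply, h.1.pS s t, h'.1.pS s t]
  · have e₁ := (continuous_fst.tendsto _).comp (ha t)
    have e₂ := (continuous_snd.tendsto _).comp (ha t)
    refine Tendsto.prodMk_nhds (squeeze_zero_norm (fun s => ((H' _).2.2 r hr).2) ?_) ?_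
    · simpa using e₁.norm.const_mul L
    · have := e₂.const_smul r
      rw [Prod.snd_zero, smul_zero] at this
      exact this.congr fun s => (add_sub_cancel_left _ _).symm
  · refine ((H' p).2.2 r hr).2.trans ((mul_le_mul_of_nonneg_left (hj p) hL).trans ?_)
    exact mul_le_mul_of_nonneg_right (by linarith) h0
  · obtain ⟨B, -, hB⟩ := hd.cn 2
    obtain ⟨C, -, hC⟩ := cn_comp_sub hg 2 (max B 1)
    have hb : ∀ τ ∈ Icc (0 : ℝ) 1, Cn 2 (fun p => (τ, T.j p, T'.j p)) univ (max B 1) :=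
      fun τ hτ => cn_pair_JetC (by rw [Real.norm_of_nonneg hτ.1]; exact hτ.2) hd.1 hB
    filter_upwards [(small_OPath C r hε).filter_mono nhdsWithin_le_nhds, self_mem_nhdsWithin]
      with τ h2 hτ
    refine (hC (fun p => (τ, T.j p, T'.j p)) (fun p => (r, T.j p, T'.j p)) univ |τ - r|
      ((bdd_const τ).prod hd).1 ((bdd_const r).prod hd).1 (hb τ hτ) (hb r hr) ?_).up_JetC h2
    have e : ((fun p => (τ, T.j p, T'.j p)) - fun p => (r, T.j p, T'.j p)) =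
        fun _ : Pl => (τ - r, (0 : (V →L[ℝ] V) × (V →L[ℝ] V))) := by
      funext p
      simp
    rw [e]
    exact (cn_const 2 _ univ).up_JetC (by simp [Prod.norm_def])
  · have hc : Continuous fun τ : ℝ => T.M + τ • (T'.M - T.M) := by fun_prop
    exact (hc.tendsto r).mono_left nhdsWithin_le_nhds

end

end Pool.Agent.P.MP_de3acd_gt.FH
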