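import Pool.Agent.P.MP_de3acd_gt.FH.ON
import Pool.Agent.P.MP_de3acd_gt.FH.NzD
import Pool.Agent.P.MP_de3acd_gt.FH.L0
import Pool.Agent.P.MP_de3acd_gt.FH.OPath

/-! Coherent orientations on Euclidean space.
Sketch: o a b T = o₀ a b (nz T) with o₀ from exists_ncoh, η a b a' b' = kap a a' b'. cont: δ = min 1 (δ₀ / L) with δ₀ from inj_near and L from exists_opath; hil (nz (P r)) is injective (CT.inj_nz), NA.apx, sim_nz,
rl_of_injective; r ↦ hil (nz (P r)) is continuous on Icc 0 1 (SC.nz, SC.hil, self_mem_nhdsWithin), par_const, par_self; NG α β (nz T') by Sim.symm, Sim.trans (bdd_ref); NCoh.rel. neg: nz_ngt, par_ngt, CT.ngt, NCoh.rel.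
glu: nz_glue, Ok.ng, Sim.eq_left, Sim.eq_right, NCoh.glu. inv: Subgroup.mem_bot, lin_one, ext_GauB give T' = T, as in Gau.coh. -/

open Set Filter Topology MeasureTheory
open scoped ContDiff NNReal ENNReal RealInnerProductSpace

namespace Pool.Agent.P.MP_de3acd_gt.FH

noncomputable section

variable {V : Type} [NormedAddCommGroup V] [InnerProductSpace ℝ V] [Sym V]

theorem exists_coh_V : ∃ o : ∀ a b, Op V a b → ℤˣ, Coh Ω0 ⊥ o := by
  obtain ⟨o, ho⟩ := exists_ncoh (V := V)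
  refine ⟨fun a b T => o a b (nz T), fun a b T hT => ?_, fun a b T i hT => ?_,
    ⟨fun a _ a' b' => kap a a' b', fun a b a' b' T T' hT hT' _ _ hM => ?_⟩,
    fun g hg a b T T' _ _ _ _ h4 h5 h6 h7 => ?_⟩
  · obtain ⟨δ, hδ, H⟩ := inj_near hT
    obtain ⟨L, hL, hP⟩ := exists_opath (Adm.ct hT.1)
    obtain ⟨α, β, hN⟩ := Ok.ng hT
    refine ⟨min 1 (δ / L), lt_min one_pos (div_pos hδ hL), fun T' h1 _ _ _ h5 h6 h7 h8 h9 => ?_⟩
    obtain ⟨P, e0, e1, hr⟩ := hP T' _ (Adm.ct h1) (min_le_left _ _) ⟨h6, h7, h8, h9⟩ h5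
    have hd : L * min 1 (δ / L) ≤ δ := (le_div_iff₀' hL).1 (min_le_right _ _)
    have rl : ∀ r ∈ Icc (0 : ℝ) 1, Rl (hil (nz T)) (hil (nz (P r))) := fun r h => by
      obtain ⟨k1, k2, ⟨k3, k4, k5, k6⟩, -⟩ := hr r h
      exact rl_of_injective hN.ok.2 (hN.ok.1.apx k1.nz (sim_nz (Adm.ct hT.1) k1 k2))
        (k1.inj_nz.2 (H _ k1 ⟨fun p hp => ⟨(k3 p hp).1.trans hd, (k3 p hp).2.trans hd⟩,
          fun i => (k4 i).trans hd, fun i => (k5 i).trans hd, k6.trans hd⟩))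
    have hc : ContinuousOn (fun r => hil (nz (P r))) (Icc 0 1) := fun r h => by
      have k : ∀ᶠ s in 𝓝[Icc (0 : ℝ) 1] r, CT (P s) :=
        eventually_mem_nhdsWithin.mono fun s hs => (hr s hs).1
      exact ((hr r h).2.2.2.nz (hr r h).1 k).hil (hr r h).1.nz.2 (k.mono fun s hs => hs.nz.2)
    have e := par_const isPreconnected_Icc hc rl (right_mem_Icc.2 zero_le_one)
      (left_mem_Icc.2 zero_le_one)
    have b := (rl 1 (right_mem_Icc.2 zero_le_one)).2.1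
    rw [e1] at b
    rw [e0, e1, par_self hN.ok.2] at e
    have hN' : NG α β (nz T') := ⟨⟨(Adm.ct h1).nz, b⟩, hN.left, hN.right,
      (sim_nz (Adm.ct hT.1) (Adm.ct h1) h5).symm.trans hN.sim (Adm.ct h1).nz.2.1.bS.1
        hN.ok.1.2.1.bS.1 (bdd_ref hN.left.1 hN.right.1 hN.left.2.1 hN.right.2.1).1.1⟩
    rw [ho.rel _ _ _ _ α β hN hN', e, one_mul]
  · obtain ⟨α, β, hN⟩ := Ok.ng hT
    obtain ⟨h1, h2⟩ := par_ngt hN.ok.2 hN.ok.1.2.2.2 i
    change o a b (nz (ngt i T)) = _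
    rw [nz_ngt, ho.rel a b _ (ngt i (nz T)) α β hN
      ⟨⟨⟨rfl, hN.ok.1.2.ngt i⟩, h1.2.1⟩, hN.left, hN.right, hN.sim⟩, h2, neg_one_mul]
  · obtain ⟨α, β, hN⟩ := Ok.ng hT
    obtain ⟨β', δ, hN'⟩ := Ok.ng hT'
    obtain ⟨β₀, f, f', e⟩ := nz_glue (Adm.ct hT.1) (Adm.ct hT'.1) hM
    obtain rfl := hN.sim.eq_right f
    obtain rfl := hN'.sim.eq_left f'
    filter_upwards [e, ho.glu a b a' b' _ _ α β₀ δ hN hN' f f'] with R e1 e2
    rw [e1, e2]
  · obtain rfl := Subgroup.mem_bot.1 hg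
    simp only [lin_one] at h4
    have e1 : T'.j = T.j := funext fun p => ContinuousLinearMap.ext fun v => (h4 p v).1
    have e2 : T'.S = T.S := funext fun p => ContinuousLinearMap.ext fun v => (h4 p v).2
    have e3 : T'.K = T.K := funext fun i => (h5 i).trans (funext fun p => lin_one _)
    have e4 : T'.l = T.l := funext fun i => (h6 i).trans (funext fun p => lin_one _)
    simp only [nz, e1, e2, e3, e4, h7]

end

end Pool.Agent.P.MP_de3acd_gt.FH
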