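import Pool.Agent.P.MP_de3acd_gt.FH.Sp

/-! Operators on the Sobolev spaces, framed operators, the Floer equation on the cylinder. -/

open Set Filter Topology MeasureTheory
open scoped ContDiff NNReal ENNReal RealInnerProductSpace

namespace Pool.Agent.P.MP_de3acd_gt.FH

noncomputable section

/-- Translation of a function. -/
def tsl {α : Type} (a : Pl) (f : Pl → α) : Pl → α := fun p => f (p + a)

section calculus

variable {F F₁ F₂ : Type} [NormedAddCommGroup F] [NormedSpace ℝ F] [NormedAddCommGroup F₁]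
  [NormedSpace ℝ F₁] [NormedAddCommGroup F₂] [NormedSpace ℝ F₂]

theorem ds_tsl (a : Pl) (f : Pl → F) : ds (tsl a f) = tsl a (ds f) := funext fun _ =>
  congrArg (fun A : Pl →L[ℝ] F => A (1, 0)) (fderiv_comp_add_right a)

theorem dt_tsl (a : Pl) (f : Pl → F) : dt (tsl a f) = tsl a (dt f) := funext fun _ =>
  congrArg (fun A : Pl →L[ℝ] F => A (0, 1)) (fderiv_comp_add_right a)

theorem tsl_tsl {α : Type} (a b : Pl) (f : Pl → α) : tsl a (tsl b f) = tsl (a + b) f :=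
  funext fun p => congrArg f (add_assoc p a b)

theorem tsl_zero {α : Type} (f : Pl → α) : tsl 0 f = f := funext fun p => congrArg f (add_zero p)

theorem Per.tsl {α : Type} {f : Pl → α} (h : Per f) (a : Pl) : Per (tsl a f) := fun s t => by
  have := h (s + a.1) (t + a.2)
  rw [add_right_comm] at this
  exact this

theorem Per.int {α : Type} {f : Pl → α} (h : Per f) (s t : ℝ) (m : ℤ) :
    f (s, t + m) = f (s, t) := by
  have : Function.Periodic (fun t => f (s, t)) 1 := h s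
  simpa using this.int_mul m t

theorem contDiff_tsl {f : Pl → F} (h : ContDiff ℝ ∞ f) (a : Pl) : ContDiff ℝ ∞ (tsl a f) :=
  h.comp (contDiff_id.add contDiff_const)

theorem tsl_mem {φ : Pl → F} (h : φ ∈ Dsub F) (a : Pl) : tsl a φ ∈ Dsub F := by
  obtain ⟨h1, h2, R, h3⟩ := h
  refine ⟨contDiff_tsl h1 a, h2.tsl a, R + |a.1|, fun p hp => h3 _ ?_⟩
  have := abs_add_le (p.1 + a.1) (-a.1)
  rw [add_neg_cancel_right, abs_neg] at this
  change R ≤ |p.1 + a.1|
  linarith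

theorem ds_dt_comm {f : Pl → F} (h : ContDiff ℝ ∞ f) : ds (dt f) = dt (ds f) := funext fun p => by
  have h2 : DifferentiableAt ℝ (fderiv ℝ f) p :=
    (h.fderiv_right (m := ∞) le_rfl).differentiable (by simp) p
  have e : ∀ v w : Pl, fderiv ℝ (fun p => fderiv ℝ f p v) p w = fderiv ℝ (fderiv ℝ f) p w v :=
    fun v w => by
      rw [fderiv_clm_apply h2 (differentiableAt_const _)]
      simp
  exact (e _ _).trans (((h.contDiffAt.isSymmSndFDerivAt (by
    rw [minSmoothness_of_isRCLikeNormedField]; exact WithTop.coe_le_coe.2 le_top)).eq _ _).trans (e _ _).symm)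

theorem hasDerivAt_ds {f : Pl → F} {s t : ℝ} (h : DifferentiableAt ℝ f (s, t)) :
    HasDerivAt (fun s => f (s, t)) (ds f (s, t)) s :=
  h.hasFDerivAt.comp_hasDerivAt s ((hasDerivAt_id s).prodMk (hasDerivAt_const s t))

theorem hasDerivAt_dt {f : Pl → F} {s t : ℝ} (h : DifferentiableAt ℝ f (s, t)) :
    HasDerivAt (fun t => f (s, t)) (dt f (s, t)) t :=
  h.hasFDerivAt.comp_hasDerivAt t ((hasDerivAt_const t s).prodMk (hasDerivAt_id t))

theorem fderiv_eq_ds_dt (f : Pl → F) (p a : Pl) :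
    fderiv ℝ f p a = a.1 • ds f p + a.2 • dt f p := by
  rw [ds, dt, ← map_smul, ← map_smul, ← map_add]
  exact congrArg _ (Prod.ext (by simp) (by simp))

theorem ds_bil (B : F →L[ℝ] F₁ →L[ℝ] F₂) {f : Pl → F} {g : Pl → F₁} {p : Pl}
    (hf : DifferentiableAt ℝ f p) (hg : DifferentiableAt ℝ g p) :
    ds (fun p => B (f p) (g p)) p = B (ds f p) (g p) + B (f p) (ds g p) := by
  rw [ds, (B.hasFDerivAt_of_bilinear hf.hasFDerivAt hg.hasFDerivAt).fderiv]
  exact add_comm _ _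

theorem dt_bil (B : F →L[ℝ] F₁ →L[ℝ] F₂) {f : Pl → F} {g : Pl → F₁} {p : Pl}
    (hf : DifferentiableAt ℝ f p) (hg : DifferentiableAt ℝ g p) :
    dt (fun p => B (f p) (g p)) p = B (dt f p) (g p) + B (f p) (dt g p) := by
  rw [dt, (B.hasFDerivAt_of_bilinear hf.hasFDerivAt hg.hasFDerivAt).fderiv]
  exact add_comm _ _

end calculus

section ops

variable {U U₁ U₂ : Type} [NormedAddCommGroup U] [InnerProductSpace ℝ U] [NormedAddCommGroup U₁]
  [InnerProductSpace ℝ U₁] [NormedAddCommGroup U₂] [InnerProductSpace ℝ U₂]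
  {F C : Type} [NormedAddCommGroup F] [NormedSpace ℝ F] [NormedAddCommGroup C] [NormedSpace ℝ C]

/-- The inclusion. -/
def inc (k : ℕ) : W (k + 1) U →L[ℝ] W k U :=
  Classical.epsilon fun T => ∀ φ, T (co _ φ) = co _ φ

/-- The derivative in `s`. -/
def dS (k : ℕ) : W (k + 1) U →L[ℝ] W k U :=
  Classical.epsilon fun T => ∀ φ, T (co _ φ) = co _ ⟨ds φ.1, ds_mem φ.2⟩

/-- The derivative in `t`. -/
def dT (k : ℕ) : W (k + 1) U →L[ℝ] W k U :=
  Classical.epsilon fun T => ∀ φ, T (co _ φ) = co _ ⟨dt φ.1, dt_mem φ.2⟩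

/-- The inclusion into `L²`. -/
def to0 : (k : ℕ) → (W k U →L[ℝ] W 0 U)
  | 0 => ContinuousLinearMap.id ℝ _
  | k + 1 => (to0 k).comp (inc k)

/-- Translation. -/
def trW (k : ℕ) (a : Pl) : W k U →L[ℝ] W k U :=
  Classical.epsilon fun T => ∀ φ ψ : Dsub U, ψ.1 = tsl a φ.1 → T (co _ φ) = co _ ψ

/-- Multiplication by bounded smooth functions (`k ≤ 2`). -/
def mul (k : ℕ) (B : F →L[ℝ] U₁ →L[ℝ] U₂) : Cb F →L[ℝ] W k U₁ →L[ℝ] W k U₂ :=
  Classical.epsilon fun T => ∀ (c : Cb F) (φ : Dsub U₁) (ψ : Dsub U₂),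
    (∀ p, ψ.1 p = B (Cb.fn c p) (φ.1 p)) → T c (co _ φ) = co _ ψ

/-- Multiplication by elements of `W 2` (`k = 1, 2`). -/
def prd (k : ℕ) (B : U →L[ℝ] U₁ →L[ℝ] U₂) : W 2 U →L[ℝ] W k U₁ →L[ℝ] W k U₂ :=
  Classical.epsilon fun T => ∀ (c : Dsub U) (φ : Dsub U₁) (ψ : Dsub U₂),
    (∀ p, ψ.1 p = B (c.1 p) (φ.1 p)) → T (co _ c) (co _ φ) = co _ ψ

/-- Evaluation at a point. -/
def ev (p : Pl) : W 2 U →L[ℝ] U := Classical.epsilon fun T => ∀ φ, T (co _ φ) = φ.1 p

/-- The continuous function given by an element of `W 2`. -/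
def fn (ξ : W 2 U) (p : Pl) : U := ev p ξ

/-- `ξ` is represented by the function `f`. -/
def Rep (k : ℕ) (ξ : W k U) (f : Pl → U) : Prop :=
  ∀ ψ : Dsub U, ⟪to0 k ξ, co 0 ψ⟫ = ip 0 f ψ.1

/-- The element represented by a function. -/
def toW (k : ℕ) (f : Pl → U) : W k U := Classical.epsilon fun ξ => Rep k ξ f

open Classical in
/-- The element of `Cb` given by a function. -/
def toCb (f : Pl → F) : Cb F := if h : Bdd f ∧ Per f then Cb.mk f h.1 h.2 else 0

theorem fn_toCb {f : Pl → F} (h : Bdd f) (h' : Per f) : Cb.fn (toCb f) = f := by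
  rw [toCb, dif_pos ⟨h, h'⟩, Cb.fn_mk]

theorem toCb_fn (c : Cb F) : toCb (Cb.fn c) = c := Cb.ext (fn_toCb c.bdd c.per)

/-- Smooth in all variables and one-periodic in the first. -/
def SP {A : Type} [NormedAddCommGroup A] [NormedSpace ℝ A] (g : ℝ → A → F) : Prop :=
  ContDiff ℝ ∞ (fun q : ℝ × A => g q.1 q.2) ∧ ∀ t, g (t + 1) = g t

/-- Composition operator on `Cb`. -/
def nemC (g : ℝ → C → F) (c : Cb C) : Cb F := toCb fun p => g p.2 (Cb.fn c p)

/-- Composition operator on `W 2`, for `f` vanishing at `v = 0`. -/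
def nem (f : ℝ → C × U₁ → U₂) : Cb C × W 2 U₁ → W 2 U₂ :=
  Classical.epsilon fun N => Continuous N ∧ ∀ (c : Cb C) (φ : Dsub U₁) (ψ : Dsub U₂),
    (∀ p, ψ.1 p = f p.2 (Cb.fn c p, φ.1 p)) → N (c, co _ φ) = co _ ψ

/-- Multiplication by a real function. -/
def sc (k : ℕ) (χ : Pl → ℝ) : W k U →L[ℝ] W k U :=
  mul k (ContinuousLinearMap.lsmul ℝ ℝ) (toCb χ)

/-- A step: `0` for `s ≤ a`, `1` for `s ≥ a + L`. -/
def stp (a L : ℝ) (p : Pl) : ℝ := Real.smoothTransition ((p.1 - a) / L)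

/-- A plateau: `1` on `[a, b]`, `0` outside `(a - L, b + L)`. -/
def plat (a b L : ℝ) (p : Pl) : ℝ := stp (a - L) L p * (1 - stp b L p)

theorem per_stp (a L : ℝ) : Per (stp a L) := fun _ _ => rfl

theorem per_plat (a b L : ℝ) : Per (plat a b L) := fun _ _ => rfl

/-- Smooth families of bounded periodic functions. -/
structure SFam (f : C → Pl → F) : Prop where
  smooth : ContDiff ℝ ∞ fun q : C × Pl => f q.1 q.2
  per : ∀ a, Per (f a)
  bdd : ∀ (k : ℕ) (R : ℝ), ∃ A, ∀ q : C × Pl, ‖q.1‖ ≤ R →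
    ‖iteratedFDeriv ℝ k (fun q : C × Pl => f q.1 q.2) q‖ ≤ A

end ops

section abstract

variable {X Y A B : Type} [NormedAddCommGroup X] [NormedSpace ℝ X] [NormedAddCommGroup Y]
  [NormedSpace ℝ Y] [NormedAddCommGroup A] [NormedSpace ℝ A] [NormedAddCommGroup B]
  [NormedSpace ℝ B]

/-- Block operators. -/
def blk (D : X →L[ℝ] Y) (K : A →L[ℝ] Y) (l : X →L[ℝ] B) (M : A →L[ℝ] B) : X × A →L[ℝ] Y × B :=
  (D.coprod K).prod (l.coprod M)

@[simp] theorem blk_apply (D : X →L[ℝ] Y) (K : A →L[ℝ] Y) (l : X →L[ℝ] B) (M : A →L[ℝ] B)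
    (z : X × A) : blk D K l M z = (D z.1 + K z.2, l z.1 + M z.2) := rfl

/-- Bijective with a bound for the inverse. -/
def Bij (T : X →L[ℝ] Y) (c : ℝ) : Prop := Function.Bijective T ∧ ∀ x, ‖x‖ ≤ c * ‖T x‖

/-- Fredholm of index `n`. -/
def HasIdx (D : X →L[ℝ] Y) (n : ℤ) : Prop :=
  ∃ (a b : ℕ) (K : (Fin a → ℝ) →L[ℝ] Y) (l : X →L[ℝ] (Fin b → ℝ))
    (M : (Fin a → ℝ) →L[ℝ] (Fin b → ℝ)), Function.Bijective (blk D K l M) ∧ n = (b : ℤ) - a

end abstract

/-- A finite-dimensional Euclidean space with an orthogonal complex structure. -/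
class Sym (V : Type) [NormedAddCommGroup V] [InnerProductSpace ℝ V] where
  J0 : V →L[ℝ] V
  sq : ∀ v, J0 (J0 v) = -v
  iso : ∀ u v, ⟪J0 u, J0 v⟫ = ⟪u, v⟫
  fd : FiniteDimensional ℝ V

section lin

variable {V : Type} [NormedAddCommGroup V] [InnerProductSpace ℝ V] [Sym V]

instance : FiniteDimensional ℝ V := Sym.fd

instance : CompleteSpace V := FiniteDimensional.complete ℝ V

/-- The symplectic form. -/
def Ω0 (u v : V) : ℝ := ⟪Sym.J0 u, v⟫

/-- The operator `σ ∂_s + j ∂_t + S` on functions. -/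
def dop (σ : ℝ) (j S : Pl → V →L[ℝ] V) (ξ : Pl → V) (p : Pl) : V :=
  σ • ds ξ p + j p (dt ξ p) + S p (ξ p)

/-- The operator `σ ∂_s + j ∂_t + S` on Sobolev spaces. -/
def Dop (k : ℕ) (σ : ℝ) (j S : Pl → V →L[ℝ] V) : W (k + 1) V →L[ℝ] W k V :=
  σ • dS k + (mul k (ContinuousLinearMap.id ℝ (V →L[ℝ] V)) (toCb j)).comp (dT k) +
    (mul k (ContinuousLinearMap.id ℝ (V →L[ℝ] V)) (toCb S)).comp (inc k)

/-- First order coefficient of the formal adjoint. -/
def adJ (j : Pl → V →L[ℝ] V) (p : Pl) : V →L[ℝ] V := -ContinuousLinearMap.adjoint (j p)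

/-- Zero order coefficient of the formal adjoint. -/
def adS (j S : Pl → V →L[ℝ] V) (p : Pl) : V →L[ℝ] V :=
  ContinuousLinearMap.adjoint (S p) - ContinuousLinearMap.adjoint (dt j p)

/-- The estimate on the ends. -/
def EndEst (σ : ℝ) (j S : Pl → V →L[ℝ] V) : Prop :=
  ∃ (R : ℝ) (c : ℝ≥0), ∀ φ ∈ Dsub V, (∀ p : Pl, |p.1| ≤ R → φ p = 0) →
    nrm 1 φ univ ≤ c * nrm 0 (dop σ j S φ) univ

/-- Bounded smooth periodic coefficients, `j` compatible. -/
structure Coef (σ : ℝ) (j S : Pl → V →L[ℝ] V) : Prop where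
  sgn : σ = 1 ∨ σ = -1
  bj : Bdd j
  pj : Per j
  bS : Bdd S
  pS : Per S
  cpt : ∀ p, Cpt Ω0 (j p)

/-- Elliptic operators with invertible ends. -/
structure Ell (σ : ℝ) (j S : Pl → V →L[ℝ] V) : Prop extends Coef σ j S where
  est : EndEst σ j S
  est' : EndEst (-σ) (adJ j) (adS j S)

/-- The pairing with a test function. -/
def prW (l : Pl → V) : W 2 V →L[ℝ] ℝ :=
  (innerSL ℝ (toW 0 fun p => -Sym.J0 (l p))).comp (to0 2)

variable {α β : Type} [Fintype α] [Fintype β]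

/-- Linear combinations of test functions. -/
def kmap (K : α → Pl → V) : (α → ℝ) →L[ℝ] W 1 V :=
  ∑ i, (ContinuousLinearMap.proj i : (α → ℝ) →L[ℝ] ℝ).smulRight (toW 1 (K i))

/-- Pairings with test functions. -/
def lmap (l : β → Pl → V) : W 2 V →L[ℝ] (β → ℝ) := ContinuousLinearMap.pi fun i => prW (l i)

/-- A matrix as an operator. -/
def mmap (M : β → α → ℝ) : (α → ℝ) →L[ℝ] (β → ℝ) :=
  ContinuousLinearMap.pi fun i => ∑ i', M i i' • (ContinuousLinearMap.proj i' : (α → ℝ) →L[ℝ] ℝ)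

/-- The framed operator. -/
def frm (D : W 2 V →L[ℝ] W 1 V) (K : α → Pl → V) (l : β → Pl → V) (M : β → α → ℝ) :
    W 2 V × (α → ℝ) →L[ℝ] W 1 V × (β → ℝ) := blk D (kmap K) (lmap l) (mmap M)

/-- The operator on Sobolev spaces given by a framed operator. -/
def hil {a b : ℕ} (T : Op V a b) : W 2 V × (Fin a → ℝ) →L[ℝ] W 1 V × (Fin b → ℝ) :=
  frm (Dop 1 1 T.j T.S) T.K T.l T.M

end lin

section floer

variable {F : Type} [NormedAddCommGroup F] [NormedSpace ℝ F]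

/-- The Floer operator. -/
def cr (J : ℝ → F → F →L[ℝ] F) (X : Pl → F → F) (u : Pl → F) (p : Pl) : F :=
  ds u p + J p.2 (u p) (dt u p - X p (u p))

/-- First order coefficient of the linearisation. -/
def cJ (J : ℝ → F → F →L[ℝ] F) (u : Pl → F) (p : Pl) : F →L[ℝ] F := J p.2 (u p)

/-- Zero order coefficient of the linearisation. -/
def cS (J : ℝ → F → F →L[ℝ] F) (X : Pl → F → F) (u : Pl → F) (p : Pl) : F →L[ℝ] F :=
  fderiv ℝ (fun z => J p.2 z (dt u p - X p z)) (u p)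

/-- The variation of the Floer operator when the field is varied by `Y`. -/
def var (J : ℝ → F → F →L[ℝ] F) (Y : Pl → F → F) (u : Pl → F) (p : Pl) : F :=
  -J p.2 (u p) (Y p (u p))

/-- Smooth periodic compatible almost complex structures. -/
def ACS (Ω : F → F → ℝ) (J : ℝ → F → F →L[ℝ] F) : Prop := SP J ∧ ∀ t z, Cpt Ω (J t z)

/-- A time-dependent field as a field on the cylinder. -/
def sta (Y : ℝ → F → F) : Pl → F → F := fun p => Y p.2

/-- The field at a fixed `s`. -/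
def frz (X : Pl → F → F) (s : ℝ) : ℝ → F → F := fun t => X (s, t)

/-- Smooth families of fields, periodic in `t` and independent of `s` for `|s| ≥ R`. -/
structure Fam {Λ : Type} [NormedAddCommGroup Λ] [NormedSpace ℝ Λ] (X : Λ → Pl → F → F) (R : ℝ) :
    Prop where
  nonneg : 0 ≤ R
  smooth : ContDiff ℝ ∞ fun q : Λ × Pl × F => X q.1 q.2.1 q.2.2
  per : ∀ a, Per (X a)
  left : ∀ a s, s ≤ -R → frz (X a) s = frz (X a) (-R)
  right : ∀ a s, R ≤ s → frz (X a) s = frz (X a) R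

/-- A single field. -/
def Fld (X : Pl → F → F) (R : ℝ) : Prop := Fam (fun _ : ℝ => X) R

/-- Nondegenerate orbits with symplectic linearisation. -/
def GOrb (Ω : F → F → ℝ) (γ : Equiv.Perm F) (Y : ℝ → F → F) (x : ℝ → F) : Prop :=
  Orb γ Y x ∧ (∀ t u v, Ω (fderiv ℝ (Y t) (x t) u) v + Ω u (fderiv ℝ (Y t) (x t) v) = 0) ∧
    Nd γ fun t => fderiv ℝ (Y t) (x t)

/-- A loop as a function on the cylinder. -/
def lp (x : ℝ → F) : Pl → F := fun p => x p.2

/-- Solutions with bounded derivatives that are `W²`-close to `x`, `y` on the ends. -/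
structure Nice (J : ℝ → F → F →L[ℝ] F) (X : Pl → F → F) (x y : ℝ → F) (u : Pl → F) : Prop where
  bdd : Bdd u
  per : Per u
  eq : ∀ p, cr J X u p = 0
  left : nrm 2 (u - lp x) (Iic 0) < ⊤
  right : nrm 2 (u - lp y) (Ici 0) < ⊤

/-- The reference path from `x` to `y`. -/
def ref (x y : ℝ → F) (p : Pl) : F := x p.2 + Real.smoothTransition p.1 • (y p.2 - x p.2)

/-- The region that belongs to the piece `i`. -/
def reg {k : ℕ} (σ : Fin k → ℝ) (i : Fin k) (S : ℝ) : Set ℝ :=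
  {s | ∀ i', (i' < i → σ i' + S ≤ s) ∧ (i < i' → s ≤ σ i' - S)}

/-- The shifts drift apart. -/
def Gap {N : Type} {k : ℕ} (l : Filter N) (σ : N → Fin k → ℝ) : Prop :=
  ∀ i i', i < i' → Tendsto (fun n => σ n i' - σ n i) l atTop

/-- Convergence to the pieces `g i` in `C^m`. -/
def PrC {N : Type} {k : ℕ} (m : ℕ) (l : Filter N) (σ : N → Fin k → ℝ) (f : N → Pl → F)
    (g : Fin k → Pl → F) : Prop :=
  ∀ ε > 0, ∃ S, ∀ᶠ n in l, ∀ i, Cn m (f n - tsl (-σ n i, 0) (g i)) (reg (σ n) i S) ε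

/-- Convergence to the pieces `g i` in `W²`. -/
def PrW {N : Type} {k : ℕ} (l : Filter N) (σ : N → Fin k → ℝ) (f : N → Pl → F)
    (g : Fin k → Pl → F) : Prop :=
  ∀ ε > 0, ∃ S, ∀ᶠ n in l, ∀ i, nrm 2 (f n - tsl (-σ n i, 0) (g i)) (reg (σ n) i S) ≤ ε

end floer

section isF

variable {V : Type} [NormedAddCommGroup V] [InnerProductSpace ℝ V] [Sym V]
  {Λ : Type} [NormedAddCommGroup Λ] [NormedSpace ℝ Λ]

/-- `Φ` is the Floer map of the family `X` at the base `w`. -/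
def IsF (J : ℝ → V → V →L[ℝ] V) (X : Λ → Pl → V → V) (w : Pl → V) (Φ : W 2 V × Λ → W 1 V) :
    Prop :=
  ContDiff ℝ ∞ Φ ∧ ∀ (φ : Dsub V) (a : Λ), Rep 1 (Φ (co 2 φ, a)) (cr J (X a) (w + φ.1))

/-- The linearised operator along `u`. -/
def Du (J : ℝ → V → V →L[ℝ] V) (X : Pl → V → V) (u : Pl → V) : W 2 V →L[ℝ] W 1 V :=
  Dop 1 1 (cJ J u) (cS J X u)

end isF

end

end Pool.Agent.P.MP_de3acd_gt.FH
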