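import Pool.Agent.P.MP_de3acd_gt.FH.Ibp

/-! The basic operators on the spaces W k.
Sketch: all operators are Classical.epsilon of a property; get existence from exists_ext (Sp) with the bound C = 1
(norm_co_sq, ip_succ, ip_nonneg; ip k φ φ ≤ ip (k+1) φ φ by induction, using ds_dt_comm only where needed), then
Classical.epsilon_spec. Identities between continuous maps follow on test functions and extend by
denseRange_co (DenseRange.induction_on, isClosed_eq). For trW: ip k (tsl a φ) (tsl a ψ) = ip k φ ψ by integral_tsl. -/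

open Set Filter Topology MeasureTheory
open scoped ContDiff NNReal ENNReal RealInnerProductSpace

namespace Pool.Agent.P.MP_de3acd_gt.FH

noncomputable section

variable {U U₁ U₂ : Type} [NormedAddCommGroup U] [InnerProductSpace ℝ U] [NormedAddCommGroup U₁]
  [InnerProductSpace ℝ U₁] [NormedAddCommGroup U₂] [InnerProductSpace ℝ U₂]
variable {X Y Z : Type} [NormedAddCommGroup X] [NormedSpace ℝ X] [NormedAddCommGroup Y]
  [NormedSpace ℝ Y] [NormedAddCommGroup Z] [NormedSpace ℝ Z]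

theorem W.ext_co {k : ℕ} {S T : W k U →L[ℝ] Y} (h : ∀ φ, S (co k φ) = T (co k φ)) : S = T :=
  ContinuousLinearMap.ext fun ξ =>
    (denseRange_co k).induction_on ξ (isClosed_eq S.continuous T.continuous) h

theorem W.induction {k : ℕ} {P : W k U → Prop} (hP : IsClosed {ξ | P ξ}) (h : ∀ φ, P (co k φ))
    (ξ : W k U) : P ξ := (denseRange_co k).induction_on ξ hP h

theorem exists_op_OpsA {k k' : ℕ} (L : Dsub U →ₗ[ℝ] Dsub U)
    (h : ∀ φ : Dsub U, ip k' (L φ).1 (L φ).1 ≤ ip k φ.1 φ.1) :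
    ∃ T : W k U →L[ℝ] W k' U, ∀ φ, T (co k φ) = co k' (L φ) := by
  obtain ⟨T, hT, -⟩ := exists_ext k ((co k').comp L) (C := 1) zero_le_one fun φ => by
    rw [one_mul]
    refine le_of_sq_le_sq ?_ (norm_nonneg _)
    rw [LinearMap.comp_apply, norm_co_sq, norm_co_sq]
    exact h φ
  exact ⟨T, hT⟩

theorem ip_le_succ_OpsA (k : ℕ) (f : Pl → U) : ip k f f ≤ ip (k + 1) f f := by
  induction k generalizing f with
  | zero =>
    rw [ip_succ]
    linarith [ip_nonneg 0 (ds f), ip_nonneg 0 (dt f)]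
  | succ k ih =>
    rw [ip_succ (k + 1), ip_succ k f]
    linarith [ih (ds f), ih (dt f)]

theorem ip_tsl_OpsA (k : ℕ) (a : Pl) {f g : Pl → U} (hf : f ∈ Dsub U) (hg : g ∈ Dsub U) :
    ip k (tsl a f) (tsl a g) = ip k f g := by
  have h0 : ∀ {f g : Pl → U}, f ∈ Dsub U → g ∈ Dsub U → ip 0 (tsl a f) (tsl a g) = ip 0 f g :=
    fun {f g} hf hg => integral_tsl (f := fun p => ⟪f p, g p⟫)
      (hf.1.continuous.inner hg.1.continuous) (fun s t => by simp only [hf.2.1 s t, hg.2.1 s t]) a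
  induction k generalizing f g with
  | zero => exact h0 hf hg
  | succ k ih =>
    rw [ip_succ, ip_succ, h0 hf hg, ds_tsl, ds_tsl, dt_tsl, dt_tsl, ih (ds_mem hf) (ds_mem hg),
      ih (dt_mem hf) (dt_mem hg)]

theorem inc_co (k : ℕ) (φ : Dsub U) : inc k (co (k + 1) φ) = co k φ :=
  Classical.epsilon_spec (p := fun T : W (k + 1) U →L[ℝ] W k U => ∀ φ, T (co _ φ) = co _ φ)
    (exists_op_OpsA LinearMap.id fun φ => ip_le_succ_OpsA k φ.1) φ

theorem dS_co (k : ℕ) (φ : Dsub U) : dS k (co (k + 1) φ) = co k ⟨ds φ.1, ds_mem φ.2⟩ :=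
  Classical.epsilon_spec
    (p := fun T : W (k + 1) U →L[ℝ] W k U => ∀ φ, T (co _ φ) = co _ ⟨ds φ.1, ds_mem φ.2⟩)
    (exists_op_OpsA
      { toFun := fun φ => ⟨ds φ.1, ds_mem φ.2⟩
        map_add' := fun φ ψ => Subtype.ext (ds_add φ.2.1 ψ.2.1)
        map_smul' := fun c φ => Subtype.ext (ds_smul c φ.2.1) } fun φ => by
      change ip k (ds φ.1) (ds φ.1) ≤ _
      rw [ip_succ]
      linarith [ip_nonneg 0 φ.1, ip_nonneg k (dt φ.1)]) φ

theorem dT_co (k : ℕ) (φ : Dsub U) : dT k (co (k + 1) φ) = co k ⟨dt φ.1, dt_mem φ.2⟩ :=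
  Classical.epsilon_spec
    (p := fun T : W (k + 1) U →L[ℝ] W k U => ∀ φ, T (co _ φ) = co _ ⟨dt φ.1, dt_mem φ.2⟩)
    (exists_op_OpsA
      { toFun := fun φ => ⟨dt φ.1, dt_mem φ.2⟩
        map_add' := fun φ ψ => Subtype.ext (dt_add φ.2.1 ψ.2.1)
        map_smul' := fun c φ => Subtype.ext (dt_smul c φ.2.1) } fun φ => by
      change ip k (dt φ.1) (dt φ.1) ≤ _
      rw [ip_succ]
      linarith [ip_nonneg 0 φ.1, ip_nonneg k (ds φ.1)]) φ

theorem to0_co (k : ℕ) (φ : Dsub U) : to0 k (co k φ) = co 0 φ := by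
  induction k with
  | zero => rfl
  | succ k ih =>
    change to0 k (inc k (co (k + 1) φ)) = _
    rw [inc_co, ih]

theorem trW_co (k : ℕ) (a : Pl) (φ : Dsub U) :
    trW k a (co k φ) = co k ⟨tsl a φ.1, tsl_mem φ.2 a⟩ := by
  refine Classical.epsilon_spec (p := fun T : W k U →L[ℝ] W k U =>
    ∀ φ ψ : Dsub U, ψ.1 = tsl a φ.1 → T (co _ φ) = co _ ψ) ?_ φ _ rfl
  obtain ⟨T, hT⟩ := exists_op_OpsA (k := k) (k' := k)
    { toFun := fun φ : Dsub U => ⟨tsl a φ.1, tsl_mem φ.2 a⟩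
      map_add' := fun φ ψ => rfl
      map_smul' := fun c φ => rfl } fun φ => (ip_tsl_OpsA k a φ.2 φ.2).le
  exact ⟨T, fun φ ψ e => (hT φ).trans (congrArg (co k) (Subtype.ext e.symm))⟩

theorem norm_inc_le (k : ℕ) (ξ : W (k + 1) U) : ‖inc k ξ‖ ≤ ‖ξ‖ := by
  refine W.induction (P := fun ξ => ‖inc k ξ‖ ≤ ‖ξ‖) (isClosed_le (by fun_prop) (by fun_prop))
    (fun φ => le_of_sq_le_sq ?_ (norm_nonneg _)) ξ
  rw [inc_co, norm_co_sq, norm_co_sq]
  exact ip_le_succ_OpsA k φ.1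

theorem norm_dS_le (k : ℕ) (ξ : W (k + 1) U) : ‖dS k ξ‖ ≤ ‖ξ‖ := by
  refine W.induction (P := fun ξ => ‖dS k ξ‖ ≤ ‖ξ‖) (isClosed_le (by fun_prop) (by fun_prop))
    (fun φ => le_of_sq_le_sq ?_ (norm_nonneg _)) ξ
  rw [dS_co, norm_co_sq, norm_co_sq, ip_succ]
  linarith [ip_nonneg 0 φ.1, ip_nonneg k (dt φ.1)]

theorem norm_dT_le (k : ℕ) (ξ : W (k + 1) U) : ‖dT k ξ‖ ≤ ‖ξ‖ := by
  refine W.induction (P := fun ξ => ‖dT k ξ‖ ≤ ‖ξ‖) (isClosed_le (by fun_prop) (by fun_prop))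
    (fun φ => le_of_sq_le_sq ?_ (norm_nonneg _)) ξ
  rw [dT_co, norm_co_sq, norm_co_sq, ip_succ]
  linarith [ip_nonneg 0 φ.1, ip_nonneg k (ds φ.1)]

theorem norm_to0_le (k : ℕ) (ξ : W k U) : ‖to0 k ξ‖ ≤ ‖ξ‖ := by
  induction k with
  | zero => exact le_rfl
  | succ k ih => exact (ih (inc k ξ)).trans (norm_inc_le k ξ)

theorem W.induction₂_OpsA {k k' : ℕ} {f g : W k U → W k' U → ℝ}
    (hf : Continuous fun q : W k U × W k' U => f q.1 q.2)
    (hg : Continuous fun q : W k U × W k' U => g q.1 q.2)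
    (h : ∀ φ ψ, f (co k φ) (co k' ψ) = g (co k φ) (co k' ψ)) (ξ : W k U) (η : W k' U) :
    f ξ η = g ξ η :=
  ((denseRange_co k).prodMap (denseRange_co k')).induction_on (p := fun q => f q.1 q.2 = g q.1 q.2)
    (ξ, η) (isClosed_eq hf hg) fun q => h q.1 q.2

theorem inner_succ (k : ℕ) (ξ η : W (k + 1) U) :
    ⟪ξ, η⟫ = ⟪to0 (k + 1) ξ, to0 (k + 1) η⟫ + ⟪dS k ξ, dS k η⟫ + ⟪dT k ξ, dT k η⟫ := by
  refine W.induction₂_OpsA (f := fun ξ η => ⟪ξ, η⟫) (g := fun ξ η =>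
    ⟪to0 (k + 1) ξ, to0 (k + 1) η⟫ + ⟪dS k ξ, dS k η⟫ + ⟪dT k ξ, dT k η⟫) (by fun_prop)
    (by fun_prop) (fun φ ψ => ?_) ξ η
  simp only [to0_co, dS_co, dT_co, inner_co]
  rfl

theorem norm_sq_succ (k : ℕ) (ξ : W (k + 1) U) :
    ‖ξ‖ ^ 2 = ‖to0 (k + 1) ξ‖ ^ 2 + ‖dS k ξ‖ ^ 2 + ‖dT k ξ‖ ^ 2 := by
  simp only [← real_inner_self_eq_norm_sq]
  exact inner_succ k ξ ξ

theorem to0_succ (k : ℕ) (ξ : W (k + 1) U) : to0 (k + 1) ξ = to0 k (inc k ξ) := rfl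

theorem to0_zero (ξ : W 0 U) : to0 0 ξ = ξ := rfl

theorem inc_dS (k : ℕ) (ξ : W (k + 2) U) : inc k (dS (k + 1) ξ) = dS k (inc (k + 1) ξ) := by
  refine W.induction (P := fun ξ => inc k (dS (k + 1) ξ) = dS k (inc (k + 1) ξ))
    (isClosed_eq (by fun_prop) (by fun_prop)) (fun φ => ?_) ξ
  simp only [inc_co, dS_co]

theorem inc_dT (k : ℕ) (ξ : W (k + 2) U) : inc k (dT (k + 1) ξ) = dT k (inc (k + 1) ξ) := by
  refine W.induction (P := fun ξ => inc k (dT (k + 1) ξ) = dT k (inc (k + 1) ξ))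
    (isClosed_eq (by fun_prop) (by fun_prop)) (fun φ => ?_) ξ
  simp only [inc_co, dT_co]

theorem dS_dT (k : ℕ) (ξ : W (k + 2) U) : dS k (dT (k + 1) ξ) = dT k (dS (k + 1) ξ) := by
  refine W.induction (P := fun ξ => dS k (dT (k + 1) ξ) = dT k (dS (k + 1) ξ))
    (isClosed_eq (by fun_prop) (by fun_prop)) (fun φ => ?_) ξ
  simp only [dS_co, dT_co]
  exact congrArg (co k) (Subtype.ext (ds_dt_comm φ.2.1))

theorem inner_dS (ξ η : W 1 U) : ⟪dS 0 ξ, inc 0 η⟫ = -⟪inc 0 ξ, dS 0 η⟫ := by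
  refine W.induction₂_OpsA (f := fun ξ η => ⟪dS 0 ξ, inc 0 η⟫)
    (g := fun ξ η => -⟪inc 0 ξ, dS 0 η⟫) (by fun_prop) (by fun_prop) (fun φ ψ => ?_) ξ η
  simp only [inc_co, dS_co, inner_co]
  exact ip_ds φ.2 ψ.2.1

theorem inner_dT (ξ η : W 1 U) : ⟪dT 0 ξ, inc 0 η⟫ = -⟪inc 0 ξ, dT 0 η⟫ := by
  refine W.induction₂_OpsA (f := fun ξ η => ⟪dT 0 ξ, inc 0 η⟫)
    (g := fun ξ η => -⟪inc 0 ξ, dT 0 η⟫) (by fun_prop) (by fun_prop) (fun φ ψ => ?_) ξ η
  simp only [inc_co, dT_co, inner_co]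
  exact ip_dt φ.2 ψ.2.1 ψ.2.2.1

theorem inner_trW (k : ℕ) (a : Pl) (ξ η : W k U) : ⟪trW k a ξ, trW k a η⟫ = ⟪ξ, η⟫ := by
  refine W.induction₂_OpsA (f := fun ξ η => ⟪trW k a ξ, trW k a η⟫) (g := fun ξ η => ⟪ξ, η⟫)
    (by fun_prop) (by fun_prop) (fun φ ψ => ?_) ξ η
  simp only [trW_co, inner_co]
  exact ip_tsl_OpsA k a φ.2 ψ.2

theorem norm_trW (k : ℕ) (a : Pl) (ξ : W k U) : ‖trW k a ξ‖ = ‖ξ‖ := by
  rw [← sq_eq_sq₀ (norm_nonneg _) (norm_nonneg _), ← real_inner_self_eq_norm_sq,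
    ← real_inner_self_eq_norm_sq, inner_trW]

theorem trW_zero (k : ℕ) (ξ : W k U) : trW k 0 ξ = ξ := by
  refine W.induction (P := fun ξ => trW k 0 ξ = ξ) (isClosed_eq (by fun_prop) (by fun_prop))
    (fun φ => ?_) ξ
  rw [trW_co]
  exact congrArg (co k) (Subtype.ext (tsl_zero φ.1))

theorem trW_add (k : ℕ) (a b : Pl) (ξ : W k U) : trW k (a + b) ξ = trW k a (trW k b ξ) := by
  refine W.induction (P := fun ξ => trW k (a + b) ξ = trW k a (trW k b ξ))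
    (isClosed_eq (by fun_prop) (by fun_prop)) (fun φ => ?_) ξ
  rw [trW_co, trW_co, trW_co]
  exact congrArg (co k) (Subtype.ext (tsl_tsl a b φ.1).symm)

theorem inner_trW_left (k : ℕ) (a : Pl) (ξ η : W k U) : ⟪trW k a ξ, η⟫ = ⟪ξ, trW k (-a) η⟫ := by
  rw [← inner_trW k (-a), ← trW_add, neg_add_cancel, trW_zero]

theorem inc_trW (k : ℕ) (a : Pl) (ξ : W (k + 1) U) : inc k (trW (k + 1) a ξ) = trW k a (inc k ξ) := by
  refine W.induction (P := fun ξ => inc k (trW (k + 1) a ξ) = trW k a (inc k ξ))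
    (isClosed_eq (by fun_prop) (by fun_prop)) (fun φ => ?_) ξ
  simp only [inc_co, trW_co]

theorem dS_trW (k : ℕ) (a : Pl) (ξ : W (k + 1) U) : dS k (trW (k + 1) a ξ) = trW k a (dS k ξ) := by
  refine W.induction (P := fun ξ => dS k (trW (k + 1) a ξ) = trW k a (dS k ξ))
    (isClosed_eq (by fun_prop) (by fun_prop)) (fun φ => ?_) ξ
  simp only [dS_co, trW_co]
  exact congrArg (co k) (Subtype.ext (ds_tsl a φ.1))

theorem dT_trW (k : ℕ) (a : Pl) (ξ : W (k + 1) U) : dT k (trW (k + 1) a ξ) = trW k a (dT k ξ) := by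
  refine W.induction (P := fun ξ => dT k (trW (k + 1) a ξ) = trW k a (dT k ξ))
    (isClosed_eq (by fun_prop) (by fun_prop)) (fun φ => ?_) ξ
  simp only [dT_co, trW_co]
  exact congrArg (co k) (Subtype.ext (dt_tsl a φ.1))

theorem to0_trW (k : ℕ) (a : Pl) (ξ : W k U) : to0 k (trW k a ξ) = trW 0 a (to0 k ξ) := by
  refine W.induction (P := fun ξ => to0 k (trW k a ξ) = trW 0 a (to0 k ξ))
    (isClosed_eq (by fun_prop) (by fun_prop)) (fun φ => ?_) ξ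
  simp only [to0_co, trW_co]

end

end Pool.Agent.P.MP_de3acd_gt.FH
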