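import Pool.Agent.P.MP_de3acd_gt.FH.Defs7
import Pool.Agent.P.MP_de3acd_gt.FH.Idx

/-! Limits of operators of finite rank.
Sketch: apx_fin: A ≃L (Fin m → ℝ) (ContinuousLinearEquiv.ofFinrankEq). add: K.coprod K' on a product, apx_fin. apx_of_cauchy: the image of the unit ball is totally bounded (otherwise a separated sequence,
Metric.totallyBounded_iff, or IsSeqCompact of the closure); project orthogonally onto the span N of a finite ε-net: ‖y - proj y‖ ≤ dist y N. HasIdx.apx: D' = D'' + K' Λ' with D'' near D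
(HasIdx.eventually); if blk D'' K l M is bijective, so is (x, μ, μ') ↦ (D' x + K μ + K' μ', l x + M μ, Λ' x + μ') (substitute μ'' = Λ' x + μ'); hasIdx_of_bij. hasIdx_of_param: D Q and Q' D have index zero;
so D.coprod K is onto for some K, its kernel is finite-dimensional (it maps to Fin a → ℝ with kernel inside ker (Q' D)); exists_functionals with P = univ (SeparatingDual.exists_ne_zero); split the functionals as l.coprod M. -/

open Set Filter Topology MeasureTheory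
open scoped ContDiff NNReal ENNReal RealInnerProductSpace

namespace Pool.Agent.P.MP_de3acd_gt.FH

noncomputable section

variable {X Y X' Y' : Type} [NormedAddCommGroup X] [NormedSpace ℝ X] [NormedAddCommGroup Y]
  [NormedSpace ℝ Y] [NormedAddCommGroup X'] [NormedSpace ℝ X'] [NormedAddCommGroup Y']
  [NormedSpace ℝ Y']
variable {A B : Type} [NormedAddCommGroup A] [NormedSpace ℝ A] [FiniteDimensional ℝ A]
  [NormedAddCommGroup B] [NormedSpace ℝ B] [FiniteDimensional ℝ B]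

variable {C C' D D' T₀ T₁ T₂ : X →L[ℝ] Y} {n : ℤ}

theorem close_ParA (h : ∀ ε > 0, ∃ C', Apx C' ∧ ‖C - C'‖ ≤ ε) : Apx C := fun ε hε => by
  obtain ⟨C', hC', h1⟩ := h (ε / 2) (half_pos hε)
  obtain ⟨m, K, Λ, h2⟩ := hC' (ε / 2) (half_pos hε)
  exact ⟨m, K, Λ, (norm_sub_le_norm_sub_add_norm_sub C C' _).trans (by linarith)⟩

theorem div_ParA {r ε : ℝ} (hr : 0 ≤ r) (hε : 0 < ε) : r * (ε / (r + 1)) ≤ ε := by
  rw [← mul_div_assoc, div_le_iff₀ (by linarith)]
  linarith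

theorem post_ParA (h : Apx C) (L : Y →L[ℝ] Y') : Apx (L.comp C) := fun ε hε => by
  obtain ⟨m, K, Λ, h1⟩ := h (ε / (‖L‖ + 1)) (by positivity)
  refine ⟨m, L.comp K, Λ, ?_⟩
  rw [ContinuousLinearMap.comp_assoc, ← ContinuousLinearMap.comp_sub]
  exact (L.opNorm_comp_le _).trans
    ((mul_le_mul_of_nonneg_left h1 (norm_nonneg _)).trans (div_ParA (norm_nonneg _) hε))

theorem apx_fin (K : A →L[ℝ] Y) (Λ : X →L[ℝ] A) : Apx (K.comp Λ) := fun ε hε => by
  let e : A ≃L[ℝ] (Fin (Module.finrank ℝ A) → ℝ) := (Module.finBasis ℝ A).equivFunL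
  refine ⟨Module.finrank ℝ A, K.comp (e.symm : _ →L[ℝ] A), (e : A →L[ℝ] _).comp Λ, ?_⟩
  refine le_of_eq_of_le (norm_eq_zero.2 (ContinuousLinearMap.ext fun x => ?_)) hε.le
  simp

theorem apx_zero : Apx (0 : X →L[ℝ] Y) := fun ε hε => ⟨0, 0, 0, by simpa using hε.le⟩

theorem apx_left (K : A →L[ℝ] Y) : Apx K := apx_fin K (ContinuousLinearMap.id ℝ A)

theorem apx_right (Λ : X →L[ℝ] A) : Apx Λ := apx_fin (ContinuousLinearMap.id ℝ A) Λ

theorem Apx.add (h : Apx C) (h' : Apx C') : Apx (C + C') := close_ParA fun ε hε => by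
  obtain ⟨m, K, Λ, h1⟩ := h (ε / 2) (half_pos hε)
  obtain ⟨m', K', Λ', h2⟩ := h' (ε / 2) (half_pos hε)
  refine ⟨_, apx_fin (K.coprod K') (Λ.prod Λ'), ?_⟩
  rw [show (K.coprod K').comp (Λ.prod Λ') = K.comp Λ + K'.comp Λ' from rfl, add_sub_add_comm]
  exact (norm_add_le _ _).trans (by linarith)

theorem Apx.neg (h : Apx C) : Apx (-C) := by
  simpa using post_ParA h (-ContinuousLinearMap.id ℝ Y)

theorem Apx.sub (h : Apx C) (h' : Apx C') : Apx (C - C') := by
  rw [sub_eq_add_neg]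
  exact h.add h'.neg

theorem Apx.smul (h : Apx C) (r : ℝ) : Apx (r • C) := post_ParA h (r • ContinuousLinearMap.id ℝ Y)

theorem Apx.post (h : Apx C) (L : Y →L[ℝ] Y') : Apx (L.comp C) := post_ParA h L

theorem Apx.pre (h : Apx C) (L : X' →L[ℝ] X) : Apx (C.comp L) := fun ε hε => by
  obtain ⟨m, K, Λ, h1⟩ := h (ε / (‖L‖ + 1)) (by positivity)
  refine ⟨m, K, Λ.comp L, ?_⟩
  rw [← ContinuousLinearMap.comp_assoc, ← ContinuousLinearMap.sub_comp]
  refine (ContinuousLinearMap.opNorm_comp_le _ L).trans ?_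
  rw [mul_comm]
  exact (mul_le_mul_of_nonneg_left h1 (norm_nonneg _)).trans (div_ParA (norm_nonneg _) hε)

theorem apx_of_close (h : ∀ ε > 0, ∃ C', Apx C' ∧ ‖C - C'‖ ≤ ε) : Apx C := close_ParA h

theorem apx_blk (h : Apx (D' - D)) (K K' : A →L[ℝ] Y) (l l' : X →L[ℝ] B) (M M' : A →L[ℝ] B) :
    Apx (blk D' K' l' M' - blk D K l M) := by
  have := (((h.pre (ContinuousLinearMap.fst ℝ X A)).add
    ((apx_left (K' - K)).pre (ContinuousLinearMap.snd ℝ X A))).post
      (ContinuousLinearMap.inl ℝ Y B)).add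
    ((apx_right ((l' - l).coprod (M' - M))).post (ContinuousLinearMap.inr ℝ Y B))
  convert this using 1
  refine ContinuousLinearMap.ext fun z => Prod.ext ?_ ?_ <;> simp [add_sub_add_comm]

theorem apx_of_cauchy {U : Type} [NormedAddCommGroup U] [InnerProductSpace ℝ U] {C : X →L[ℝ] U}
    (h : ∀ (x : ℕ → X) (M : ℝ), (∀ n, ‖x n‖ ≤ M) →
      ∃ φ : ℕ → ℕ, StrictMono φ ∧ CauchySeq fun n => C (x (φ n))) : Apx C := close_ParA fun ε hε => by
  obtain ⟨t, ht, hn⟩ : ∃ t : Set X, t.Finite ∧ ∀ x, ‖x‖ ≤ 1 → ∃ y ∈ t, ‖C x - C y‖ ≤ ε := by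
    by_contra hc
    push Not at hc
    obtain ⟨u, hu⟩ := seq_of_forall_finite_exists
      (P := fun x t => ‖x‖ ≤ 1 ∧ ∀ y ∈ t, ε < ‖C x - C y‖) hc
    obtain ⟨φ, hφ, hs⟩ := h u 1 fun n => (hu n).1
    obtain ⟨N, hN⟩ := Metric.cauchySeq_iff'.1 hs ε hε
    have h1 := hN (N + 1) (Nat.le_succ N)
    rw [dist_eq_norm] at h1
    exact h1.not_gt ((hu _).2 _ ⟨φ N, hφ (Nat.lt_succ_self N), rfl⟩)
  let N := Submodule.span ℝ (C '' t)
  have : FiniteDimensional ℝ N := FiniteDimensional.span_of_finite ℝ (ht.image C)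
  have : CompleteSpace N := FiniteDimensional.complete ℝ N
  refine ⟨_, (apx_fin N.subtypeL N.orthogonalProjectionOnto).pre C,
    ContinuousLinearMap.opNorm_le_of_unit_norm hε.le fun x hx => ?_⟩
  obtain ⟨y, hy, h1⟩ := hn x hx.le
  refine (Submodule.starProjection_minimal (U := N) (C x)).le.trans (le_trans ?_ h1)
  exact ciInf_le (f := fun w : N => ‖C x - w‖) ⟨0, by rintro _ ⟨w, rfl⟩; exact norm_nonneg _⟩
    ⟨C y, Submodule.subset_span ⟨y, hy, rfl⟩⟩

theorem Rl.refl (h : Function.Bijective T₀) : Rl T₀ T₀ :=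
  ⟨h, h, by rw [sub_self]; exact apx_zero⟩

theorem Rl.symm (h : Rl T₀ T₁) : Rl T₁ T₀ := ⟨h.2.1, h.1, by simpa using h.2.2.neg⟩

theorem Rl.trans (h : Rl T₀ T₁) (h' : Rl T₁ T₂) : Rl T₀ T₂ :=
  ⟨h.1, h'.2.1, by simpa using h'.2.2.add h.2.2⟩

variable [CompleteSpace X] [CompleteSpace Y]

theorem HasIdx.apx (h : HasIdx D n) (e : Apx (D' - D)) : HasIdx D' n := by
  obtain ⟨ε, hε, hb⟩ := Metric.eventually_nhds_iff.1 h.eventually
  obtain ⟨m, K', Λ, h1⟩ := e (ε / 2) (half_pos hε)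
  obtain ⟨a, b, K, l, M, h2, rfl⟩ := hb (y := D' - K'.comp Λ) (by
    rw [dist_eq_norm, sub_right_comm]
    linarith)
  have h3 : Function.Bijective (blk D' (K.coprod K') (l.prod Λ)
      ((M.comp (ContinuousLinearMap.fst ℝ _ _)).prod (ContinuousLinearMap.snd ℝ _ _))) := by
    refine ⟨(injective_iff_map_eq_zero _).2 fun z hz => ?_, fun w => ?_⟩
    · have e1 : D' z.1 + (K z.2.1 + K' z.2.2) = 0 := congrArg Prod.fst hz
      have e2 : l z.1 + M z.2.1 = 0 := congrArg (fun w => w.2.1) hz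
      have e3 : Λ z.1 + z.2.2 = 0 := congrArg (fun w => w.2.2) hz
      have e4 : (z.1, z.2.1) = 0 := (injective_iff_map_eq_zero _).1 h2.1 _ (Prod.ext (by
        change D' z.1 - K' (Λ z.1) + K z.2.1 = 0
        rw [← e1, eq_neg_of_add_eq_zero_left e3, map_neg]
        abel) e2)
      have e5 : z.1 = 0 := congrArg Prod.fst e4
      rw [e5, map_zero, zero_add] at e3
      exact Prod.ext e5 (Prod.ext (congrArg Prod.snd e4) e3)
    · obtain ⟨z, hz⟩ := h2.2 (w.1 - K' w.2.2, w.2.1)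
      have e1 : D' z.1 - K' (Λ z.1) + K z.2 = w.1 - K' w.2.2 := congrArg Prod.fst hz
      refine ⟨(z.1, z.2, w.2.2 - Λ z.1), Prod.ext ?_
        (Prod.ext (congrArg Prod.snd hz) (add_sub_cancel _ _))⟩
      change D' z.1 + (K z.2 + K' (w.2.2 - Λ z.1)) = w.1
      rw [map_sub, ← sub_add_cancel w.1 (K' w.2.2), ← e1]
      abel
  have := hasIdx_of_bij h3
  simp only [Module.finrank_prod, Module.finrank_fin_fun] at this
  convert this using 1
  push_cast
  ring

theorem hasIdx_of_param {Q Q' : Y →L[ℝ] X} (h : Apx (D.comp Q - 1)) (h' : Apx (Q'.comp D - 1)) :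
    ∃ n, HasIdx D n := by
  obtain ⟨a, b, K, l, M, h1, -⟩ :=
    (hasIdx_zero_of_bijective (D := (1 : Y →L[ℝ] Y)) Function.bijective_id).apx h
  have hs : Function.Surjective (D.coprod K) := fun y => by
    obtain ⟨z, hz⟩ := surjective_coprod_of_blk h1.2 y
    exact ⟨(Q z.1, z.2), hz⟩
  have h2 := (((hasIdx_zero_of_bijective (D := (1 : X →L[ℝ] X)) Function.bijective_id).apx
    h').coprod (Q'.comp K)).finiteDimensional
  have : FiniteDimensional ℝ (D.coprod K).ker :=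
    Submodule.finiteDimensional_of_le (S₂ := ((Q'.comp D).coprod (Q'.comp K)).ker) fun z hz => by
      have h3 : D z.1 + K z.2 = 0 := hz
      change Q' (D z.1) + Q' (K z.2) = 0
      rw [← map_add, h3, map_zero]
  obtain ⟨c, f, -, h3⟩ := exists_functionals hs (P := univ) fun z hz =>
    let ⟨f, hf⟩ := SeparatingDual.exists_ne_zero (R := ℝ) hz
    ⟨f, mem_univ _, hf⟩
  refine ⟨_, a, c, K, (ContinuousLinearMap.pi f).comp (ContinuousLinearMap.inl ℝ _ _),
    (ContinuousLinearMap.pi f).comp (ContinuousLinearMap.inr ℝ _ _), ?_, rfl⟩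
  rwa [blk, ContinuousLinearMap.coprod_comp_inl_inr]

theorem rl_of_injective (h : Function.Bijective T₀) (e : Apx (T₁ - T₀))
    (h' : Function.Injective T₁) : Rl T₀ T₁ :=
  ⟨h, ((hasIdx_zero_of_bijective h).apx e).bijective_iff.2.1 h', e⟩

end

end Pool.Agent.P.MP_de3acd_gt.FH
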