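import Pool.Agent.P.MP_de3acd_gt.FH.ParA
import Pool.Agent.P.MP_de3acd_gt.FH.IFT

/-! The parity of a pair of isomorphisms.
Sketch: T₀.inverse is the inverse of T₀ (equiv_IFT, ContinuousLinearMap.inverse_equiv). If c ‖T₁ - T₀ - K Λ‖ < 1 then T₀ + K Λ is injective, so 1 + Λ T₀⁻¹ K is injective and its determinant is not zero.
Two approximations (K, Λ, c), (K', Λ', c') with the same c (replace c, c' by their minimum): on A × A' the maps K.coprod K' and Λ r = ((1 - r) Λ).prod (r Λ') satisfy the same inequality for r ∈ [0, 1], so the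
determinant d r does not vanish and is continuous (ContinuousLinearMap.continuous_det); d 0 and d 1 are the two determinants (block triangular: LinearMap.det_toMatrix with Basis.prod,
Matrix.det_fromBlocks_zero₁₂, det_fromBlocks_zero₂₁); intermediate value theorem. To pass from A to Fin m → ℝ use LinearMap.det_conj.
par_trans: fix (K', Λ') for T₂ - T₁ with 2 c ‖..‖ < 1; T ↦ det (1 + Λ' T⁻¹ K') is continuous at T₁ and not zero there; choose (K, Λ) for T₁ - T₀ so close that T₁' = T₀ + K Λ gives the same sign. With N = T₀⁻¹,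
the block matrix [[1 + Λ N K, Λ N K'], [Λ' N K, 1 + Λ' N K']] equals [[1 + Λ N K, 0], [Λ' N K, 1]] * [[1, Λ N' K'], [0, 1 + Λ' N' K']] with N' = T₁'⁻¹, because N = N' + N K Λ N'. -/

open Set Filter Topology MeasureTheory
open scoped ContDiff NNReal ENNReal RealInnerProductSpace

namespace Pool.Agent.P.MP_de3acd_gt.FH

noncomputable section

variable {X Y X' Y' : Type} [NormedAddCommGroup X] [NormedSpace ℝ X] [NormedAddCommGroup Y]
  [NormedSpace ℝ Y] [NormedAddCommGroup X'] [NormedSpace ℝ X'] [NormedAddCommGroup Y']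
  [NormedSpace ℝ Y']
variable {A B : Type} [NormedAddCommGroup A] [NormedSpace ℝ A] [FiniteDimensional ℝ A]
  [NormedAddCommGroup B] [NormedSpace ℝ B] [FiniteDimensional ℝ B]

variable [CompleteSpace X] [CompleteSpace Y] {T₀ T₁ T₂ : X →L[ℝ] Y}

theorem sgn_mul {r s : ℝ} (hr : r ≠ 0) (hs : s ≠ 0) : sgn (r * s) = sgn r * sgn s := by
  unfold sgn
  rcases hr.lt_or_gt with a | a <;> rcases hs.lt_or_gt with b | b
  · simp [a, b, (mul_pos_of_neg_of_neg a b).not_gt]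
  · simp [a, b.not_gt, mul_neg_of_neg_of_pos a b]
  · simp [b, a.not_gt, mul_neg_of_pos_of_neg a b]
  · simp [a.not_gt, b.not_gt, (mul_pos a b).not_gt]

theorem sgn_eventually {r : ℝ} (hr : r ≠ 0) : ∀ᶠ s in 𝓝 r, sgn s = sgn r := by
  unfold sgn
  rcases hr.lt_or_gt with a | a
  · filter_upwards [gt_mem_nhds a] with s hs
    rw [if_pos hs, if_pos a]
  · filter_upwards [lt_mem_nhds a] with s hs
    rw [if_neg hs.not_gt, if_neg a.not_gt]

theorem sgn_units (u : ℤˣ) : sgn ((u : ℤ) : ℝ) = u := by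
  rcases Int.units_eq_one_or u with rfl | rfl <;> simp [sgn]

theorem det_comm_ParB (f : B →L[ℝ] A) (g : A →L[ℝ] B) :
    (1 + f.comp g).det = (1 + g.comp f).det := by
  have key : ∀ {A B : Type} [NormedAddCommGroup A] [NormedSpace ℝ A] [FiniteDimensional ℝ A]
      [NormedAddCommGroup B] [NormedSpace ℝ B] [FiniteDimensional ℝ B] (f : B →L[ℝ] A)
      (g : A →L[ℝ] B), (1 + f.comp g).det =
        (1 + LinearMap.toMatrix (Module.finBasis ℝ B) (Module.finBasis ℝ A) f.toLinearMap *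
          LinearMap.toMatrix (Module.finBasis ℝ A) (Module.finBasis ℝ B) g.toLinearMap).det := by
    intro A B _ _ _ _ _ _ f g
    rw [← LinearMap.toMatrix_comp, ← LinearMap.toMatrix_one (Module.finBasis ℝ A), ← map_add,
      LinearMap.det_toMatrix]
    rfl
  rw [key f g, key g f, Matrix.det_one_add_mul_comm]

theorem inv_ParB (h : Function.Bijective T₀) :
    (∀ y, T₀ (T₀.inverse y) = y) ∧ ∀ x, T₀.inverse (T₀ x) = x := by
  obtain ⟨e, rfl⟩ := equiv_IFT h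
  simp

theorem ne_ParB (h₀ : Function.Bijective T₀) {c : ℝ} (hc : 0 ≤ c) (h₁ : Bij T₁ c) {K : A →L[ℝ] Y}
    {Λ : X →L[ℝ] A} (e : c * ‖T₁ - T₀ - K.comp Λ‖ < 1) :
    (1 + Λ.comp (T₀.inverse.comp K)).det ≠ 0 := by
  refine (LinearMap.isUnit_det _ ((LinearMap.isUnit_iff_ker_eq_bot _).2
    (LinearMap.ker_eq_bot'.2 fun a ha => ?_))).ne_zero
  have ha : a + Λ (T₀.inverse (K a)) = 0 := ha
  have h2 : (T₁ - T₀ - K.comp Λ) (T₀.inverse (K a)) = T₁ (T₀.inverse (K a)) := by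
    have h3 := congrArg K ha
    rw [map_add, map_zero] at h3
    rw [sub_apply, sub_apply, ContinuousLinearMap.comp_apply, (inv_ParB h₀).1, sub_sub, h3,
      sub_zero]
  have h4 := h₁.2 (T₀.inverse (K a))
  have h5 := mul_le_mul_of_nonneg_left ((T₁ - T₀ - K.comp Λ).le_opNorm (T₀.inverse (K a))) hc
  rw [h2] at h5
  have h6 : ‖T₀.inverse (K a)‖ ≤ 0 := by
    by_contra h7
    nlinarith [mul_lt_mul_of_pos_right e (not_le.1 h7)]
  rwa [norm_le_zero_iff.1 h6, map_zero, add_zero] at ha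

theorem two_ParB (h₀ : Function.Bijective T₀) {c c' : ℝ} (hc : 0 ≤ c) (hc' : 0 ≤ c')
    (h₁ : Bij T₁ c) (h₁' : Bij T₁ c') {K : A →L[ℝ] Y} {Λ : X →L[ℝ] A} {K' : B →L[ℝ] Y}
    {Λ' : X →L[ℝ] B} (e : c * ‖T₁ - T₀ - K.comp Λ‖ < 1) (e' : c' * ‖T₁ - T₀ - K'.comp Λ'‖ < 1)
    (h : (1 + Λ.comp (T₀.inverse.comp K)).det < 0) :
    (1 + Λ'.comp (T₀.inverse.comp K')).det < 0 := by
  have m0 : 0 ≤ min c c' := le_min hc hc'
  have m1 : Bij T₁ (min c c') := by
    rcases min_choice c c' with m | m <;> rwa [m]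
  have m2 := (mul_le_mul_of_nonneg_right (min_le_left c c') (norm_nonneg _)).trans_lt e
  have m3 := (mul_le_mul_of_nonneg_right (min_le_right c c') (norm_nonneg _)).trans_lt e'
  generalize min c c' = b at m0 m1 m2 m3
  let P := (ContinuousLinearMap.inl ℝ A B).comp Λ
  let Q := (ContinuousLinearMap.inr ℝ A B).comp Λ'
  let d : ℝ → ℝ := fun r => (1 + ((1 - r) • P + r • Q).comp (T₀.inverse.comp (K.coprod K'))).det
  have dc : Continuous d := ContinuousLinearMap.continuous_det.comp (by fun_prop)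
  have d0 : d 0 = (1 + Λ.comp (T₀.inverse.comp K)).det := by
    simp only [d, P, sub_zero, one_smul, zero_smul, add_zero, ContinuousLinearMap.comp_assoc]
    rw [det_comm_ParB]
    simp only [ContinuousLinearMap.comp_assoc, ContinuousLinearMap.coprod_comp_inl]
  have d1 : d 1 = (1 + Λ'.comp (T₀.inverse.comp K')).det := by
    simp only [d, Q, sub_self, one_smul, zero_smul, zero_add, ContinuousLinearMap.comp_assoc]
    rw [det_comm_ParB]
    simp only [ContinuousLinearMap.comp_assoc, ContinuousLinearMap.coprod_comp_inr]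
  by_contra hn
  obtain ⟨r, hr, h0⟩ := intermediate_value_Icc zero_le_one dc.continuousOn
    (show (0 : ℝ) ∈ Icc (d 0) (d 1) from ⟨d0 ▸ h.le, d1 ▸ not_lt.1 hn⟩)
  refine ne_ParB h₀ m0 m1 ?_ h0
  have e1 : T₁ - T₀ - (K.coprod K').comp ((1 - r) • P + r • Q) =
      (1 - r) • (T₁ - T₀ - K.comp Λ) + r • (T₁ - T₀ - K'.comp Λ') := by
    ext x
    simp [P, Q]
    module
  have e2 := norm_add_le ((1 - r) • (T₁ - T₀ - K.comp Λ)) (r • (T₁ - T₀ - K'.comp Λ'))
  rw [← e1, norm_smul, norm_smul, Real.norm_of_nonneg hr.1,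
    Real.norm_of_nonneg (sub_nonneg.2 hr.2)] at e2
  refine (mul_le_mul_of_nonneg_left e2 m0).trans_lt ?_
  rcases hr.1.eq_or_lt with rfl | r0
  · linarith
  · nlinarith [mul_lt_mul_of_pos_left m3 r0, mul_le_mul_of_nonneg_left m2.le (sub_nonneg.2 hr.2)]

theorem apx_ParB {C : X →L[ℝ] Y} (h : Apx C) {c : ℝ} (hc : 0 < c) :
    ∃ (m : ℕ) (K : (Fin m → ℝ) →L[ℝ] Y) (Λ : X →L[ℝ] (Fin m → ℝ)), c * ‖C - K.comp Λ‖ < 1 := by
  obtain ⟨m, K, Λ, e⟩ := h (1 / (2 * c)) (by positivity)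
  refine ⟨m, K, Λ, (mul_le_mul_of_nonneg_left e hc.le).trans_lt ?_⟩
  field_simp
  norm_num

theorem mul_ParB (h₀ : Function.Bijective T₀) {K : A →L[ℝ] Y} {Λ : X →L[ℝ] A}
    (h₁ : Function.Bijective (T₀ + K.comp Λ)) (K' : B →L[ℝ] Y) (Λ' : X →L[ℝ] B) :
    (1 + (Λ.prod Λ').comp (T₀.inverse.comp (K.coprod K'))).det =
      (1 + Λ.comp (T₀.inverse.comp K)).det *
        (1 + Λ'.comp ((T₀ + K.comp Λ).inverse.comp K')).det := by
  have e : ∀ y, T₀.inverse y = (T₀ + K.comp Λ).inverse y +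
      T₀.inverse (K (Λ ((T₀ + K.comp Λ).inverse y))) := fun y => by
    have h := congrArg T₀.inverse ((inv_ParB h₁).1 y)
    rw [add_apply, map_add, (inv_ParB h₀).2] at h
    exact h.symm
  generalize (T₀ + K.comp Λ).inverse = N at e
  have a1 := det_comm_ParB ((Λ.prod Λ').comp (T₀.inverse.comp K)) (ContinuousLinearMap.fst ℝ A B)
  have a2 := det_comm_ParB ((Λ.prod Λ').comp (N.comp K')) (ContinuousLinearMap.snd ℝ A B)
  rw [← ContinuousLinearMap.comp_assoc (ContinuousLinearMap.fst ℝ A B),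
    ContinuousLinearMap.fst_comp_prod] at a1
  rw [← ContinuousLinearMap.comp_assoc (ContinuousLinearMap.snd ℝ A B),
    ContinuousLinearMap.snd_comp_prod] at a2
  rw [← a1, ← a2, ← map_mul]
  refine congrArg LinearMap.det (LinearMap.ext fun z => ?_)
  refine Prod.ext ?_ ?_ <;> simp [e (K' z.2)] <;> abel

theorem par_spec (h₀ : Function.Bijective T₀) {c : ℝ} (hc : 0 ≤ c) (h₁ : Bij T₁ c) {K : A →L[ℝ] Y}
    {Λ : X →L[ℝ] A} (e : c * ‖T₁ - T₀ - K.comp Λ‖ < 1) :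
    (1 + Λ.comp (T₀.inverse.comp K)).det ≠ 0 ∧
      par T₀ T₁ = sgn (1 + Λ.comp (T₀.inverse.comp K)).det := by
  classical
  refine ⟨ne_ParB h₀ hc h₁ e, ?_⟩
  unfold par sgn
  refine if_congr ⟨?_, fun h => ?_⟩ rfl rfl
  · rintro ⟨m, K', Λ', c', hc', h₁', e', h⟩
    exact two_ParB h₀ hc' hc h₁' h₁ e' e h
  · let u : A ≃L[ℝ] (Fin (Module.finrank ℝ A) → ℝ) := ContinuousLinearEquiv.ofFinrankEq (by simp)
    have e' : c * ‖T₁ - T₀ - (K.comp u.symm.toContinuousLinearMap).comp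
        (u.toContinuousLinearMap.comp Λ)‖ < 1 := by
      refine lt_of_eq_of_lt ?_ e
      congr 3
      ext x
      simp
    exact ⟨_, _, _, c, hc, h₁, e', two_ParB h₀ hc hc h₁ h₁ e e' h⟩

theorem par_self (h : Function.Bijective T₀) : par T₀ T₀ = 1 := by
  obtain ⟨c, hc, hb⟩ := bij_of_bijective h
  rw [(par_spec (A := ℝ) (K := 0) (Λ := 0) h hc.le hb (by simp)).2]
  simp [sgn, ContinuousLinearMap.det]

theorem par_eventually (h : Rl T₀ T₁) : ∀ᶠ T in 𝓝 T₁, par T₀ T = par T₀ T₁ := by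
  obtain ⟨c, hc, hb⟩ := bij_of_bijective h.2.1
  have hc2 : 0 < 2 * c := by positivity
  obtain ⟨m, K, Λ, e⟩ := apx_ParB h.2.2 hc2
  have e1 : ∀ᶠ T in 𝓝 T₁, 2 * c * ‖T - T₀ - K.comp Λ‖ < 1 :=
    ContinuousAt.eventually_lt (by fun_prop) continuousAt_const e
  have e2 : ∀ᶠ T in 𝓝 T₁, 2 * c * ‖T - T₁‖ < 1 :=
    ContinuousAt.eventually_lt (by fun_prop) continuousAt_const (by simp)
  filter_upwards [e1, e2] with T a b
  rw [(par_spec h.1 hc2.le (hb.perturb hc.le b.le) a).2,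
    (par_spec h.1 hc2.le (hb.mono (by linarith)) e).2]

theorem par_const {Z : Type} [TopologicalSpace Z] {s : Set Z} (hs : IsPreconnected s)
    {T : Z → X →L[ℝ] Y} (hT : ContinuousOn T s) (h : ∀ z ∈ s, Rl T₀ (T z)) {z z' : Z} (hz : z ∈ s)
    (hz' : z' ∈ s) : par T₀ (T z) = par T₀ (T z') := by
  refine hs.induction₂' (fun x y => par T₀ (T x) = par T₀ (T y)) (fun x hx => ?_)
    (fun _ _ _ _ _ _ => Eq.trans) hz hz'
  exact ((hT x hx).eventually (par_eventually (h x hx))).mono fun y hy => ⟨hy.symm, hy⟩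

theorem par_trans (h : Rl T₀ T₁) (h' : Rl T₁ T₂) : par T₀ T₂ = par T₀ T₁ * par T₁ T₂ := by
  obtain ⟨c, hc, hb⟩ := bij_of_bijective h.2.1
  obtain ⟨c', hc', hb'⟩ := bij_of_bijective h'.2.1
  obtain ⟨m', K', Λ', e'⟩ := apx_ParB h'.2.2 hc'
  obtain ⟨n', p'⟩ := par_spec h'.1 hc'.le hb' e'
  have ci : ContinuousAt (fun T : X →L[ℝ] Y => T.inverse) T₁ := by
    obtain ⟨u, rfl⟩ := equiv_IFT h.2.1
    exact (contDiffAt_map_inverse (n := 0) u).continuousAt
  have cd : ContinuousAt (fun T : X →L[ℝ] Y => (1 + Λ'.comp (T.inverse.comp K')).det) T₁ :=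
    ContinuousLinearMap.continuous_det.continuousAt.comp (by fun_prop)
  have e1 : ∀ᶠ T in 𝓝 T₁, c' * ‖T₂ - T - K'.comp Λ'‖ < 1 :=
    ContinuousAt.eventually_lt (by fun_prop) continuousAt_const e'
  have e2 : ∀ᶠ T in 𝓝 T₁, c * ‖T₁ - T‖ < 1 :=
    ContinuousAt.eventually_lt (by fun_prop) continuousAt_const (by simp)
  obtain ⟨δ, hδ, k⟩ := Metric.eventually_nhds_iff.1
    ((e1.and e2).and ((cd.eventually (sgn_eventually n')).and (bijective_open h.2.1)))
  obtain ⟨m, K, Λ, e⟩ := h.2.2 (δ / 2) (half_pos hδ)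
  obtain ⟨⟨k1, k2⟩, k3, k4⟩ := k (y := T₀ + K.comp Λ) (by
    rw [dist_comm, dist_eq_norm, ← sub_sub]
    linarith)
  rw [← sub_sub] at k2
  obtain ⟨n, p⟩ := par_spec h.1 hc.le hb k2
  have e3 : c' * ‖T₂ - T₀ - (K.coprod K').comp (Λ.prod Λ')‖ < 1 := by
    refine lt_of_eq_of_lt ?_ k1
    congr 2
    ext x
    simp
    abel
  rw [(par_spec h.1 hc'.le hb' e3).2, mul_ParB h.1 k4,
    sgn_mul n (par_spec k4 hc'.le hb' k1).1, p, p', k3]

theorem par_symm (h : Rl T₀ T₁) : par T₁ T₀ = par T₀ T₁ := by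
  have e := par_trans h.symm h
  rw [par_self h.2.1] at e
  rw [← mul_one (par T₁ T₀), ← Int.units_mul_self (par T₀ T₁), ← mul_assoc, ← e, one_mul]

end

end Pool.Agent.P.MP_de3acd_gt.FH
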