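import Pool.Agent.P.MP_de3acd_gt.FH.ParB

/-! Invariance properties of the parity.
Sketch: everything follows from par_spec. par_conj: approximate T₁ - T₀ by K Λ very well, use e' K and Λ e. par_prod: inl K and Λ fst. par_fin: first k = 1: T' - T = (T ∘ inr ∘ (g - 1)) ∘ snd, and
1 + snd T⁻¹ T inr (g - 1) = g; then g = 1: T' - T = inr ∘ ((k - 1) ∘ snd ∘ T), and 1 + (k - 1) snd T T⁻¹ inr = k; par_trans. par_glue: choose K Λ with c₁ ε < 1 and c A² ε < 1; then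
par (U₀ n) (U₁ n) = sgn det (1 + Λ (π n) (U₀ n)⁻¹ (ι n) K), and π n ((U₀ n)⁻¹ (ι n y)) → T₀⁻¹ y for every y: for x ∈ D near T₀⁻¹ y the difference from x is π n (U₀ n)⁻¹ (ι n (y - T₀ x)).
Pointwise convergence on Fin m → ℝ gives convergence in norm (or of the matrix entries); sgn_eventually. -/

open Set Filter Topology MeasureTheory
open scoped ContDiff NNReal ENNReal RealInnerProductSpace

namespace Pool.Agent.P.MP_de3acd_gt.FH

noncomputable section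

variable {X Y X' Y' : Type} [NormedAddCommGroup X] [NormedSpace ℝ X] [NormedAddCommGroup Y]
  [NormedSpace ℝ Y] [NormedAddCommGroup X'] [NormedSpace ℝ X'] [NormedAddCommGroup Y']
  [NormedSpace ℝ Y']
variable {A B : Type} [NormedAddCommGroup A] [NormedSpace ℝ A] [FiniteDimensional ℝ A]
  [NormedAddCommGroup B] [NormedSpace ℝ B] [FiniteDimensional ℝ B]

variable [CompleteSpace X] [CompleteSpace Y] [CompleteSpace X'] [CompleteSpace Y']
  {T₀ T₁ : X →L[ℝ] Y}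

theorem inv_ParC (h : Function.Bijective T₀) (y : Y) : T₀ (T₀.inverse y) = y := by
  obtain ⟨e, rfl⟩ := equiv_IFT h
  simp

theorem inv'_ParC (h : Function.Bijective T₀) (x : X) : T₀.inverse (T₀ x) = x :=
  h.1 (inv_ParC h _)

theorem det_ParC {N : Type} {l : Filter N} {m : ℕ} {M : N → (Fin m → ℝ) →L[ℝ] (Fin m → ℝ)}
    {M₀ : (Fin m → ℝ) →L[ℝ] (Fin m → ℝ)} (h : ∀ v, Tendsto (fun n => M n v) l (𝓝 (M₀ v))) :
    Tendsto (fun n => (M n).det) l (𝓝 M₀.det) := by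
  simp only [ContinuousLinearMap.det, ← LinearMap.det_toMatrix']
  refine (continuous_id.matrix_det.tendsto _).comp
    (tendsto_pi_nhds.2 fun i => tendsto_pi_nhds.2 fun j => ?_)
  simp only [LinearMap.toMatrix'_apply]
  exact tendsto_pi_nhds.1 (h _) i

theorem par_glue {N : Type} {l : Filter N} (h : Rl T₀ T₁) {U₀ U₁ : N → X' →L[ℝ] Y'}
    {ι : N → Y →L[ℝ] Y'} {π : N → X' →L[ℝ] X} {j : N → X → X'} {c a : ℝ} (hc : 0 ≤ c)
    (hU : ∀ᶠ n in l, Bij (U₀ n) c ∧ Bij (U₁ n) c ∧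
      U₁ n - U₀ n = (ι n).comp ((T₁ - T₀).comp (π n)) ∧ ‖ι n‖ ≤ a ∧ ‖π n‖ ≤ a ∧ ∀ x, π n (j n x) = x)
    {D : Set X} (hD : Dense D) (e : ∀ x ∈ D, ∀ᶠ n in l, U₀ n (j n x) = ι n (T₀ x)) :
    ∀ᶠ n in l, par (U₀ n) (U₁ n) = par T₀ T₁ := by
  obtain ⟨c₁, hc₁, hb⟩ := bij_of_bijective h.2.1
  have h0 : 0 ≤ c * (a * a) := mul_nonneg hc (mul_self_nonneg a)
  have h1 : 0 < c₁ + c * (a * a) + 1 := by positivity
  obtain ⟨m, K, Λ, hK⟩ := h.2.2 _ (inv_pos.2 h1)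
  rw [← one_div, le_div_iff₀ h1] at hK
  have h2 := norm_nonneg (T₁ - T₀ - K.comp Λ)
  have h3 : 0 < c₁ * ‖T₁ - T₀ - K.comp Λ‖ + c * (a * a) * ‖T₁ - T₀ - K.comp Λ‖ → c₁ *
      ‖T₁ - T₀ - K.comp Λ‖ + c * (a * a) * ‖T₁ - T₀ - K.comp Λ‖ < 1 := fun h3 => by
    have : 0 < ‖T₁ - T₀ - K.comp Λ‖ := h2.lt_of_ne fun h4 => by simp [← h4] at h3
    linarith
  have h4 : c₁ * ‖T₁ - T₀ - K.comp Λ‖ + c * (a * a) * ‖T₁ - T₀ - K.comp Λ‖ < 1 := by
    by_contra h4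
    exact h4 (h3 (by linarith))
  obtain ⟨hd, hp⟩ := par_spec h.1 hc₁.le hb (K := K) (Λ := Λ) (by linarith [mul_nonneg h0 h2])
  have h5 : ∀ y, Tendsto (fun n => π n ((U₀ n).inverse (ι n y))) l (𝓝 (T₀.inverse y)) := by
    intro y
    refine Metric.tendsto_nhds.2 fun ε hε => ?_
    have h6 : 0 < c * (a * a) * ‖T₀‖ + 1 := by positivity
    obtain ⟨x, hx, h7⟩ := hD.exists_dist_lt (T₀.inverse y) (div_pos hε h6)
    rw [lt_div_iff₀ h6, dist_eq_norm] at h7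
    filter_upwards [hU, e x hx] with n ⟨b0, _, _, b1, b2, b3⟩ b4
    have h8 : π n ((U₀ n).inverse (ι n y)) - T₀.inverse y =
        π n ((U₀ n).inverse (ι n (T₀ (T₀.inverse y - x)))) - (T₀.inverse y - x) := by
      rw [map_sub, map_sub, map_sub, map_sub, inv_ParC h.1, ← b4, inv'_ParC b0.1, b3]
      abel
    have ha : 0 ≤ a := (norm_nonneg _).trans b1
    have h9 := b0.2 ((U₀ n).inverse (ι n (T₀ (T₀.inverse y - x))))
    rw [inv_ParC b0.1] at h9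
    have h10 : ‖π n ((U₀ n).inverse (ι n (T₀ (T₀.inverse y - x))))‖ ≤
        a * (c * (a * (‖T₀‖ * ‖T₀.inverse y - x‖))) :=
      (π n).le_of_opNorm_le_of_le b2 (h9.trans (mul_le_mul_of_nonneg_left
        ((ι n).le_of_opNorm_le_of_le b1 (T₀.le_opNorm _)) hc))
    rw [dist_eq_norm, h8]
    linarith [norm_sub_le (π n ((U₀ n).inverse (ι n (T₀ (T₀.inverse y - x))))) (T₀.inverse y - x)]
  have h6 := det_ParC (M₀ := 1 + Λ.comp (T₀.inverse.comp K))
    (M := fun n => 1 + (Λ.comp (π n)).comp ((U₀ n).inverse.comp ((ι n).comp K)))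
    fun v => ((Λ.continuous.tendsto _).comp (h5 (K v))).const_add v
  filter_upwards [hU, h6.eventually (sgn_eventually hd)] with n ⟨b0, b5, b6, b1, b2, _⟩ b7
  rw [hp, ← b7]
  refine (par_spec b0.1 hc b5 ?_).2
  have ha : 0 ≤ a := (norm_nonneg _).trans b1
  have h7 : U₁ n - U₀ n - ((ι n).comp K).comp (Λ.comp (π n)) =
      (ι n).comp ((T₁ - T₀ - K.comp Λ).comp (π n)) := by
    rw [b6]
    ext x
    simp
  have h8 : ‖(ι n).comp ((T₁ - T₀ - K.comp Λ).comp (π n))‖ ≤ a * (‖T₁ - T₀ - K.comp Λ‖ * a) :=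
    ((ι n).opNorm_comp_le _).trans (mul_le_mul b1 ((ContinuousLinearMap.opNorm_comp_le _ _).trans
      (mul_le_mul_of_nonneg_left b2 h2)) (norm_nonneg _) ha)
  rw [h7]
  linarith [mul_le_mul_of_nonneg_left h8 hc, mul_nonneg hc₁.le h2]

theorem gen_ParC (h : Rl T₀ T₁) {U₀ U₁ : X' →L[ℝ] Y'} (h₀ : Function.Bijective U₀)
    (h₁ : Function.Bijective U₁) (ι : Y →L[ℝ] Y') (π : X' →L[ℝ] X) (j : X → X')
    (e : U₁ - U₀ = ι.comp ((T₁ - T₀).comp π)) (e' : ∀ x, π (j x) = x)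
    (e'' : ∀ x, U₀ (j x) = ι (T₀ x)) : Rl U₀ U₁ ∧ par U₀ U₁ = par T₀ T₁ := by
  obtain ⟨c₀, hc₀, b₀⟩ := bij_of_bijective h₀
  obtain ⟨c₁, -, b₁⟩ := bij_of_bijective h₁
  refine ⟨⟨h₀, h₁, e ▸ (h.2.2.pre π).post ι⟩, ?_⟩
  exact eventually_pure.1 (par_glue (l := pure ()) h (U₀ := fun _ => U₀) (U₁ := fun _ => U₁)
    (ι := fun _ => ι) (π := fun _ => π) (j := fun _ => j) (a := max ‖ι‖ ‖π‖)
    (hc₀.le.trans (le_max_left c₀ c₁)) (eventually_pure.2 ⟨b₀.mono (le_max_left _ _),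
      b₁.mono (le_max_right _ _), e, le_max_left _ _, le_max_right _ _, e'⟩) dense_univ
    fun x _ => eventually_pure.2 (e'' x))

theorem ex_ParC (h₀ : Function.Bijective T₀) (h₁ : Function.Bijective T₁) (K : A →L[ℝ] Y)
    (Λ : X →L[ℝ] A) (e : T₁ - T₀ = K.comp Λ) {g : A →L[ℝ] A}
    (e' : 1 + Λ.comp (T₀.inverse.comp K) = g) : Rl T₀ T₁ ∧ par T₀ T₁ = sgn g.det := by
  obtain ⟨c, hc, b⟩ := bij_of_bijective h₁
  exact ⟨⟨h₀, h₁, e ▸ apx_fin K Λ⟩, e' ▸ (par_spec h₀ hc.le b (by simp [e])).2⟩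

theorem par_conj (h : Rl T₀ T₁) (e : X' ≃L[ℝ] X) (e' : Y ≃L[ℝ] Y') {U₀ U₁ : X' →L[ℝ] Y'}
    (h₀ : ∀ x, U₀ x = e' (T₀ (e x))) (h₁ : ∀ x, U₁ x = e' (T₁ (e x))) :
    Rl U₀ U₁ ∧ par U₀ U₁ = par T₀ T₁ := by
  refine gen_ParC h ?_ ?_ e' e e.symm ?_ e.apply_symm_apply fun x => by simp [h₀]
  · rw [show ⇑U₀ = e' ∘ T₀ ∘ e from funext h₀]
    exact e'.bijective.comp (h.1.comp e.bijective)
  · rw [show ⇑U₁ = e' ∘ T₁ ∘ e from funext h₁]
    exact e'.bijective.comp (h.2.1.comp e.bijective)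
  · ext x
    simp [h₀, h₁]

theorem par_prod (h : Rl T₀ T₁) :
    Rl (T₀.prodMap (ContinuousLinearMap.id ℝ A)) (T₁.prodMap (ContinuousLinearMap.id ℝ A)) ∧
      par (T₀.prodMap (ContinuousLinearMap.id ℝ A)) (T₁.prodMap (ContinuousLinearMap.id ℝ A)) =
        par T₀ T₁ := by
  have := FiniteDimensional.complete ℝ A
  refine gen_ParC h (h.1.prodMap Function.bijective_id) (h.2.1.prodMap Function.bijective_id)
    (ContinuousLinearMap.inl ℝ Y A) (ContinuousLinearMap.fst ℝ X A) (fun x => (x, 0)) ?_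
    (fun _ => rfl) fun _ => rfl
  refine ContinuousLinearMap.ext fun x => ?_
  ext <;> simp

theorem par_fin {T T' : X × A →L[ℝ] Y × B} (h : Function.Bijective T) {g : A →L[ℝ] A}
    {k : B →L[ℝ] B} (hg : g.det ≠ 0) (hk : k.det ≠ 0)
    (e : ∀ x a, T' (x, a) = ((T (x, g a)).1, k (T (x, g a)).2)) :
    Rl T T' ∧ par T T' = sgn g.det * sgn k.det := by
  have := FiniteDimensional.complete ℝ A
  have := FiniteDimensional.complete ℝ B
  have bg : Function.Bijective g := (g.toContinuousLinearEquivOfDetNeZero hg).bijective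
  have bk : Function.Bijective k := (k.toContinuousLinearEquivOfDetNeZero hk).bijective
  set S := T.comp ((ContinuousLinearMap.id ℝ X).prodMap g) with hS
  have bS : Function.Bijective S := h.comp (Function.bijective_id.prodMap bg)
  have e1 : T' = ((ContinuousLinearMap.id ℝ Y).prodMap k).comp S :=
    ContinuousLinearMap.ext fun x => e x.1 x.2
  have bT : Function.Bijective T' := e1 ▸ (Function.bijective_id.prodMap bk).comp bS
  obtain ⟨r1, p1⟩ := ex_ParC h bS (T.comp ((ContinuousLinearMap.inr ℝ X A).comp (g - 1)))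
    (ContinuousLinearMap.snd ℝ X A) (ContinuousLinearMap.ext fun x => by
      simp [hS, ← map_sub, Prod.map, Prod.sub_def]) (g := g)
    (ContinuousLinearMap.ext fun x => by simp [inv'_ParC h])
  obtain ⟨r2, p2⟩ := ex_ParC bS bT (ContinuousLinearMap.inr ℝ Y B)
    ((k - 1).comp ((ContinuousLinearMap.snd ℝ Y B).comp S)) (ContinuousLinearMap.ext fun x => by
      rw [e1]
      ext <;> simp) (g := k)
    (ContinuousLinearMap.ext fun x => by simp [inv_ParC bS])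
  exact ⟨r1.trans r2, by rw [par_trans r1 r2, p1, p2]⟩



end

end Pool.Agent.P.MP_de3acd_gt.FH
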