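import Pool.Agent.P.MP_de3acd_gt.FH.EndB
import Pool.Agent.P.MP_de3acd_gt.FH.Sob
import Pool.Agent.P.MP_de3acd_gt.FH.Cut
import Pool.Agent.P.MP_de3acd_gt.FH.Defs3

/-! Paths between nondegenerate orbits and their linearised operators.
Sketch: Orb.contDiff: x' = Y t (x t), induction on n (contDiff_succ_iff_deriv). cn_left: nrm_tail and sob_loc give
uniform smallness, cn_interp the derivatives. cS J X u p = g p.2 (κ p, u p, dt u p) for an SP function g when X = ctl 𝕏 κ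
(SP.fderiv, or ContDiff.fderiv directly), Bdd.comp. For Fld use bdd of (p ↦ X (ρ p.1, p.2)): repeat the short argument of
Fam.ctl (exists_clamp), do not import UF. Ends: as s → -∞, u → x, dt u → x' = Y x, so cJ → J t (x t) and
cS → fderiv (z ↦ J z (Y x - Y z)) x = -(J x) ∘ fderiv Y x, by continuity of (z, w) ↦ fderiv (z ↦ J z (w - Y z)) z. -/

open Set Filter Topology MeasureTheory
open scoped ContDiff NNReal ENNReal RealInnerProductSpace

namespace Pool.Agent.P.MP_de3acd_gt.FH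

noncomputable section

variable {F F₁ F₂ : Type} [NormedAddCommGroup F] [NormedSpace ℝ F] [NormedAddCommGroup F₁]
  [NormedSpace ℝ F₁] [NormedAddCommGroup F₂] [NormedSpace ℝ F₂]
variable {V : Type} [NormedAddCommGroup V] [InnerProductSpace ℝ V] [Sym V]
variable {C Λ : Type} [NormedAddCommGroup C] [NormedSpace ℝ C] [FiniteDimensional ℝ C]
  [NormedAddCommGroup Λ] [NormedSpace ℝ Λ] [FiniteDimensional ℝ Λ]

theorem Orb.contDiff {γ : Equiv.Perm F} {Y : ℝ → F → F}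
    (hY : ContDiff ℝ ∞ fun q : ℝ × F => Y q.1 q.2) {x : ℝ → F} (h : Orb γ Y x) : ContDiff ℝ ∞ x := by
  have e : deriv x = fun t => Y t (x t) := funext fun t => (h.1 t).deriv
  have hd : Differentiable ℝ x := fun t => (h.1 t).differentiableAt
  refine contDiff_infty.2 fun n => ?_
  induction n with
  | zero => exact contDiff_zero.2 hd.continuous
  | succ n ih =>
    rw [Nat.cast_succ, contDiff_succ_iff_deriv, e]
    exact ⟨hd, by simp, (contDiff_infty.1 hY n).comp (contDiff_id.prodMk ih)⟩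

theorem Orb.per {Y : ℝ → F → F} {x : ℝ → F} (h : Orb 1 Y x) (t : ℝ) : x (t + 1) = x t := h.2 t

theorem lp_Pth {x : ℝ → F} (hx : ContDiff ℝ ∞ x) : ContDiff ℝ ∞ (lp x) := hx.comp contDiff_snd

theorem ds_lp_Pth {x : ℝ → F} (hx : ContDiff ℝ ∞ x) : ds (lp x) = 0 := funext fun p =>
  (hasDerivAt_ds ((lp_Pth hx).differentiable (by simp) (p.1, p.2))).unique
    (hasDerivAt_const p.1 (x p.2))

theorem fin_Pth {k : ℕ} {f : Pl → F} {I J K : Set ℝ} (h : nrm k f I < ⊤) (h' : nrm k f J < ⊤)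
    (e : ∀ r ∈ K, r ∈ I ∨ r ∈ J) : nrm k f K < ⊤ :=
  lt_of_le_of_lt ((nrm_mono f le_rfl e).trans (nrm_union_le k f I J))
    (ENNReal.add_lt_top.2 ⟨h, h'⟩)

theorem two_Pth {a b : ℝ≥0∞} (ha : a < ⊤) (hb : b < ⊤) : 2 * a + 2 * b < ⊤ :=
  ENNReal.add_lt_top.2 ⟨ENNReal.mul_lt_top (by simp) ha, ENNReal.mul_lt_top (by simp) hb⟩

theorem nrm_tsl_Pth (k : ℕ) (s : ℝ) (f : Pl → F) (I : Set ℝ) :
    nrm k (tsl (s, 0) f) ((fun r => r + s) ⁻¹' I) = nrm k f I := by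
  have h0 : ∀ f : Pl → F, nrm 0 (tsl (s, 0) f) ((fun r => r + s) ⁻¹' I) = nrm 0 f I := by
    intro f
    have e : ((fun r => r + s) ⁻¹' I) ×ˢ Icc (0 : ℝ) 1 =
        (fun p : Pl => p + (s, 0)) ⁻¹' (I ×ˢ Icc (0 : ℝ) 1) := by
      ext p
      simp
    rw [nrm_zero, nrm_zero, e]
    exact (measurePreserving_add_right (volume : Measure Pl) (s, 0)).setLIntegral_comp_preimage_emb
      (measurableEmbedding_addRight _) (fun p => ‖f p‖ₑ ^ 2) _
  induction k generalizing f with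
  | zero => exact h0 f
  | succ k ih => rw [nrm_succ, nrm_succ, ds_tsl, dt_tsl, h0, ih, ih]

theorem tail_Pth {x y : ℝ → F} {u : Pl → F} (h : Pth x y u) (hx : ContDiff ℝ ∞ x)
    (hy : ContDiff ℝ ∞ y) : Tendsto (fun s => nrm 2 (u - lp x) (Iic (-s))) atTop (𝓝 0) ∧
      Tendsto (fun s => nrm 2 (u - lp y) (Ici s)) atTop (𝓝 0) := by
  constructor
  · refine tendsto_of_tendsto_of_tendsto_of_le_of_le' tendsto_const_nhds
      (nrm_tail 2 (h.bdd.1.sub (lp_Pth hx)) measurableSet_Iic h.left)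
      (Eventually.of_forall fun _ => zero_le) ?_
    filter_upwards [eventually_ge_atTop 0] with s hs
    refine nrm_mono _ le_rfl fun r hr => ?_
    rw [mem_Iic] at hr
    exact ⟨mem_Iic.2 (by linarith), (le_neg.1 hr).trans (neg_le_abs r)⟩
  · refine tendsto_of_tendsto_of_tendsto_of_le_of_le' tendsto_const_nhds
      (nrm_tail 2 (h.bdd.1.sub (lp_Pth hy)) measurableSet_Ici h.right)
      (Eventually.of_forall fun _ => zero_le) ?_
    filter_upwards [eventually_ge_atTop 0] with s hs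
    exact nrm_mono _ le_rfl fun r hr => ⟨hs.trans hr, le_trans hr (le_abs_self r)⟩

theorem dt_lp_Pth {Y : ℝ → F → F} (hY : SP Y) {x : ℝ → F} (hx : Orb 1 Y x) (p : Pl) :
    dt (lp x) p = Y p.2 (x p.2) := by
  rw [(bdd_lp (Orb.contDiff hY.1 hx) hx.2).2.2.2]
  exact (hx.1 p.2).deriv

theorem cr_lp_Pth {J : ℝ → F → F →L[ℝ] F} {X : Pl → F → F} {Y : ℝ → F → F} (hY : SP Y)
    {x : ℝ → F} (hx : Orb 1 Y x) {u : Pl → F} {p : Pl} (e : u =ᶠ[𝓝 p] lp x) (e' : X p = Y p.2) :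
    cr J X u p = 0 := by
  have h1 : ds u p = 0 := by
    rw [ds, e.fderiv_eq]
    exact congrFun (ds_lp_Pth (Orb.contDiff hY.1 hx)) p
  have h2 : dt u p = Y p.2 (x p.2) := by
    rw [dt, e.fderiv_eq]
    exact dt_lp_Pth hY hx p
  rw [cr, h1, h2, e', e.self_of_nhds]
  simp [lp]

theorem lim_Pth {J : ℝ → F → F →L[ℝ] F} (hJ : SP J) {X : Pl → F → F} {Y : ℝ → F → F} (hY : SP Y)
    {x : ℝ → F} (hx : Orb 1 Y x) {u : Pl → F} (hu : ContDiff ℝ ∞ u) {e : Filter ℝ}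
    (hX : ∀ᶠ s in e, frz X s = Y) (H : ∀ ε > 0, ∃ I ∈ e, Cn 1 (u - lp x) I ε) (t : ℝ) :
    Tendsto (fun s => (cJ J u (s, t), cS J X u (s, t))) e
      (𝓝 (J t (x t), -(J t (x t)).comp (fderiv ℝ (Y t) (x t)))) := by
  have cJ' : ContDiff ℝ ∞ (J t) := hJ.1.comp (contDiff_const.prodMk contDiff_id)
  have cY : ContDiff ℝ ∞ (Y t) := hY.1.comp (contDiff_const.prodMk contDiff_id)
  have h1 : Tendsto (fun s => (u (s, t), dt u (s, t))) e (𝓝 (x t, Y t (x t))) := by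
    refine Tendsto.prodMk_nhds ?_ ?_
    · refine Metric.tendsto_nhds.2 fun ε hε => ?_
      obtain ⟨I, hI, c⟩ := H (ε / 2) (half_pos hε)
      filter_upwards [hI] with s hs
      rw [dist_eq_norm]
      exact (c.1 (s, t) hs).trans_lt (half_lt_self hε)
    · refine Metric.tendsto_nhds.2 fun ε hε => ?_
      obtain ⟨I, hI, c⟩ := H (ε / 2) (half_pos hε)
      filter_upwards [hI] with s hs
      have := c.2.2 (s, t) hs
      rw [dt_sub_JetC hu (lp_Pth (Orb.contDiff hY.1 hx)), Pi.sub_apply, dt_lp_Pth hY hx] at this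
      rw [dist_eq_norm]
      exact this.trans_lt (half_lt_self hε)
  have h2 : Continuous fun q : F × F => fderiv ℝ (fun z => J t z (q.2 - Y t z)) q.1 := by
    refine (ContDiff.fderiv (m := ∞) (n := ∞)
      (f := fun (q : F × F) (z : F) => J t z (q.2 - Y t z)) ?_ contDiff_fst le_rfl).continuous
    exact (cJ'.comp contDiff_snd).clm_apply (contDiff_fst.snd.sub (cY.comp contDiff_snd))
  have h3 : fderiv ℝ (fun z => J t z (Y t (x t) - Y t z)) (x t) =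
      -(J t (x t)).comp (fderiv ℝ (Y t) (x t)) := by
    rw [((cJ'.differentiable (by simp) (x t)).hasFDerivAt.clm_apply
      ((cY.differentiable (by simp) (x t)).hasFDerivAt.const_sub (Y t (x t)))).fderiv]
    simp
  refine Tendsto.prodMk_nhds ((cJ'.continuous.tendsto _).comp ((continuous_fst.tendsto _).comp h1))
    ?_
  rw [← h3]
  refine ((h2.tendsto _).comp h1).congr' ?_
  filter_upwards [hX] with s hs
  rw [← hs]
  rfl

theorem Fam.sp_frz {X : Λ → Pl → F → F} {R : ℝ} (h : Fam X R) (a : Λ) (s : ℝ) :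
    SP (frz (X a) s) :=
  ⟨h.smooth.comp (contDiff_const.prodMk ((contDiff_const.prodMk contDiff_fst).prodMk contDiff_snd)),
    fun t => h.per a s t⟩

theorem Fam.fld {X : Λ → Pl → F → F} {R : ℝ} (h : Fam X R) (a : Λ) : Fld (X a) R :=
  ⟨h.nonneg, h.smooth.comp (contDiff_const.prodMk contDiff_snd), fun _ => h.per a,
    fun _ => h.left a, fun _ => h.right a⟩

theorem Fam.mono {X : Λ → Pl → F → F} {R R' : ℝ} (h : Fam X R) (e : R ≤ R') : Fam X R' ∧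
    ∀ a, frz (X a) (-R') = frz (X a) (-R) ∧ frz (X a) R' = frz (X a) R :=
  ⟨⟨h.nonneg.trans e, h.smooth, h.per,
    fun a s hs => (h.left a s (by linarith)).trans (h.left a _ (by linarith)).symm,
    fun a s hs => (h.right a s (by linarith)).trans (h.right a _ e).symm⟩,
    fun a => ⟨h.left a _ (by linarith), h.right a _ e⟩⟩

theorem fld_sta {Y : ℝ → F → F} (h : SP Y) {R : ℝ} (hR : 0 ≤ R) : Fld (sta Y) R :=
  ⟨hR, h.1.comp (contDiff_snd.fst.snd.prodMk contDiff_snd.snd), fun _ _ t => h.2 t,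
    fun _ _ _ => rfl, fun _ _ _ => rfl⟩

theorem frz_sta (Y : ℝ → F → F) (s : ℝ) : frz (sta Y) s = Y := rfl

theorem fld_ctl {𝕏 : ℝ → C × F → F} (h : SP 𝕏) {κ : Pl → C} (hκ : ContDiff ℝ ∞ κ) (pκ : Per κ)
    {R : ℝ} (hR : 0 ≤ R) {a b : C} (e : ∀ p : Pl, (p.1 ≤ -R → κ p = a) ∧ (R ≤ p.1 → κ p = b)) :
    Fld (ctl 𝕏 κ) R ∧ frz (ctl 𝕏 κ) (-R) = cfz 𝕏 a ∧ frz (ctl 𝕏 κ) R = cfz 𝕏 b := by
  have h1 : ∀ s, s ≤ -R → frz (ctl 𝕏 κ) s = cfz 𝕏 a := fun s hs => by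
    funext t z
    simp only [frz, ctl, cfz, (e (s, t)).1 hs]
  have h2 : ∀ s, R ≤ s → frz (ctl 𝕏 κ) s = cfz 𝕏 b := fun s hs => by
    funext t z
    simp only [frz, ctl, cfz, (e (s, t)).2 hs]
  refine ⟨⟨hR, h.1.comp (contDiff_snd.fst.snd.prodMk
    ((hκ.comp contDiff_snd.fst).prodMk contDiff_snd.snd)), fun _ s t => ?_,
    fun _ s hs => (h1 s hs).trans (h1 _ le_rfl).symm,
    fun _ s hs => (h2 s hs).trans (h2 _ le_rfl).symm⟩, h1 _ le_rfl, h2 _ le_rfl⟩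
  funext z
  simp only [ctl, pκ s t, h.2 t]

section

variable {x y : ℝ → V} {u u' : Pl → V} {J : ℝ → V → V →L[ℝ] V} {X : Pl → V → V} {R : ℝ}

theorem Pth.cn (h : Pth x y u) (hx : ContDiff ℝ ∞ x) (hy : ContDiff ℝ ∞ y)
    (px : ∀ t, x (t + 1) = x t) (py : ∀ t, y (t + 1) = y t) (k : ℕ) {ε : ℝ} (hε : 0 < ε) :
    ∃ R, Cn k (u - lp x) (Iic (-R)) ε ∧ Cn k (u - lp y) (Ici R) ε := by
  have b1 := h.bdd.sub (bdd_lp hx px).1
  have b2 := h.bdd.sub (bdd_lp hy py).1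
  have p1 : Per (u - lp x) := fun s t => by
    simp only [Pi.sub_apply, h.per s t, (bdd_lp hx px).2.1 s t]
  have p2 : Per (u - lp y) := fun s t => by
    simp only [Pi.sub_apply, h.per s t, (bdd_lp hy py).2.1 s t]
  obtain ⟨A₁, -, c1⟩ := b1.cn (k + 1)
  obtain ⟨A₂, -, c2⟩ := b2.cn (k + 1)
  obtain ⟨δ, hδ, H⟩ := cn_interp (F := V) k (max A₁ A₂) hε
  obtain ⟨c, hc⟩ := sob_loc (F := V)
  have key : ∀ {f : Pl → V} {I : Set ℝ} (p : Pl) (a : ℝ), ContDiff ℝ ∞ f → Per f →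
      c * nrm 2 f I < ENNReal.ofReal (δ ^ 2) → p.1 ∈ Icc a (a + 1) → Icc a (a + 1) ⊆ I →
        ‖f p‖ ≤ δ := by
    intro f I p a hf pf h1 h2 h3
    have h4 := ((hc f p a hf pf h2).trans (mul_le_mul_right (nrm_mono f le_rfl h3) _)).trans h1.le
    rw [en_EstL, ENNReal.ofReal_le_ofReal_iff (by positivity)] at h4
    exact (pow_le_pow_iff_left₀ (norm_nonneg _) hδ.le two_ne_zero).1 h4
  have sm : ∀ {g : ℝ → ℝ≥0∞}, Tendsto g atTop (𝓝 0) →
      ∀ᶠ s in atTop, c * g s < ENNReal.ofReal (δ ^ 2) := by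
    intro g hg
    have := ENNReal.Tendsto.const_mul (a := c) hg (Or.inr ENNReal.coe_ne_top)
    rw [mul_zero] at this
    exact this.eventually (gt_mem_nhds (ENNReal.ofReal_pos.2 (by positivity)))
  obtain ⟨t1, t2⟩ := tail_Pth h hx hy
  obtain ⟨S, h1, h2⟩ := ((sm t1).and (sm t2)).exists
  refine ⟨S + 1, H _ _ b1.1 (c1.up_JetC (le_max_left _ _)) ?_,
    H _ _ b2.1 (c2.up_JetC (le_max_right _ _)) ?_⟩
  · rintro p ⟨s, hs, hs'⟩
    rw [mem_Iic] at hs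
    have := (abs_le.1 hs').2
    exact key p (p.1 - 1) b1.1 p1 h1 ⟨by linarith, by linarith⟩
      fun r hr => mem_Iic.2 (by linarith [hr.2])
  · rintro p ⟨s, hs, hs'⟩
    rw [mem_Ici] at hs
    have := (abs_le.1 hs').1
    exact key p p.1 b2.1 p2 h2 ⟨le_rfl, by linarith⟩ fun r hr => mem_Ici.2 (by linarith [hr.1])

theorem Pth.nrm_ends (h : Pth x y u) (hx : ContDiff ℝ ∞ x) (hy : ContDiff ℝ ∞ y) (s : ℝ) :
    nrm 2 (u - lp x) (Iic s) < ⊤ ∧ nrm 2 (u - lp y) (Ici s) < ⊤ :=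
  ⟨fin_Pth (J := Icc 0 s) h.left (nrm_Icc_lt_top 2 (h.bdd.1.sub (lp_Pth hx)) _ _)
      fun r hr => (le_total r 0).imp id fun e => ⟨e, hr⟩,
    fin_Pth (J := Icc s 0) h.right (nrm_Icc_lt_top 2 (h.bdd.1.sub (lp_Pth hy)) _ _)
      fun r hr => (le_total 0 r).imp id fun e => ⟨hr, e⟩⟩

theorem Pth.tail (h : Pth x y u) (hx : ContDiff ℝ ∞ x) (hy : ContDiff ℝ ∞ y) :
    Tendsto (fun s => nrm 2 (u - lp x) (Iic (-s))) atTop (𝓝 0) ∧
      Tendsto (fun s => nrm 2 (u - lp y) (Ici s)) atTop (𝓝 0) := tail_Pth h hx hy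

theorem Pth.tsl (h : Pth x y u) (hx : ContDiff ℝ ∞ x) (hy : ContDiff ℝ ∞ y) (s : ℝ) :
    Pth x y (tsl (s, 0) u) := by
  obtain ⟨h1, h2⟩ := h.nrm_ends hx hy s
  have e : ∀ z : ℝ → V, FH.tsl (s, 0) u - lp z = FH.tsl (s, 0) (u - lp z) := fun z => by
    funext p
    simp only [FH.tsl, lp, Pi.sub_apply, Prod.snd_add, add_zero]
  refine ⟨h.bdd.tsl _, h.per.tsl _, ?_, ?_⟩
  · rw [← nrm_tsl_Pth 2 s] at h1
    rw [e]
    exact lt_of_le_of_lt (nrm_mono _ le_rfl fun r hr => by simpa using hr) h1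
  · rw [← nrm_tsl_Pth 2 s] at h2
    rw [e]
    exact lt_of_le_of_lt (nrm_mono _ le_rfl fun r hr => by simpa using hr) h2

theorem Pth.nrm_sub (h : Pth x y u) (h' : Pth x y u') (hx : ContDiff ℝ ∞ x) (hy : ContDiff ℝ ∞ y) :
    nrm 2 (u - u') univ < ⊤ := by
  have key : ∀ {z : ℝ → V} {I : Set ℝ}, ContDiff ℝ ∞ z → nrm 2 (u - lp z) I < ⊤ →
      nrm 2 (u' - lp z) I < ⊤ → nrm 2 (u - u') I < ⊤ := by
    intro z I hz h1 h2
    rw [← sub_sub_sub_cancel_right u u' (lp z)]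
    exact lt_of_le_of_lt (nrm_sub_le 2 (h.bdd.1.sub (lp_Pth hz)) (h'.bdd.1.sub (lp_Pth hz)) I)
      (two_Pth h1 h2)
  exact fin_Pth (key hx h.left h'.left) (key hy h.right h'.right) fun r _ => le_total r 0

theorem Pth.add (h : Pth x y u) (hx : ContDiff ℝ ∞ x) (hy : ContDiff ℝ ∞ y) {f : Pl → V}
    (hf : Bdd f) (pf : Per f) (e : nrm 2 f univ < ⊤) : Pth x y (u + f) := by
  have key : ∀ {z : ℝ → V} {I : Set ℝ}, ContDiff ℝ ∞ z → nrm 2 (u - lp z) I < ⊤ →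
      nrm 2 (u + f - lp z) I < ⊤ := by
    intro z I hz h1
    rw [add_sub_right_comm]
    exact lt_of_le_of_lt (nrm_add_le 2 (h.bdd.1.sub (lp_Pth hz)) hf.1 I)
      (two_Pth h1 (lt_of_le_of_lt (nrm_mono f le_rfl (subset_univ I)) e))
  exact ⟨h.bdd.add hf, fun s t => by simp only [Pi.add_apply, h.per s t, pf s t],
    key hx h.left, key hy h.right⟩

theorem Pth.nrm_ds (h : Pth x y u) (hx : ContDiff ℝ ∞ x) (hy : ContDiff ℝ ∞ y) :
    nrm 1 (ds u) univ < ⊤ := by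
  have key : ∀ {z : ℝ → V} {I : Set ℝ}, ContDiff ℝ ∞ z → nrm 2 (u - lp z) I < ⊤ →
      nrm 1 (ds u) I < ⊤ := by
    intro z I hz h1
    rw [nrm_succ, ds_sub_JetC h.bdd.1 (lp_Pth hz), ds_lp_Pth hz, sub_zero] at h1
    exact lt_of_le_of_lt (le_add_self.trans le_self_add) h1
  exact fin_Pth (key hx h.left) (key hy h.right) fun r _ => le_total r 0

theorem Pth.inB (h : Pth x y u) (hx : ContDiff ℝ ∞ x) (hy : ContDiff ℝ ∞ y)
    (px : ∀ t, x (t + 1) = x t) (py : ∀ t, y (t + 1) = y t) {A : ℝ} (e : ∀ p, ‖u p‖ ≤ A) :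
    InB A x ∧ InB A y := by
  have key : ∀ (a b : V) (ε : ℝ), ‖a‖ ≤ A → ‖a - b‖ ≤ ε → ‖b‖ ≤ A + ε := fun a b ε h1 h2 => by
    have := norm_sub_le a (a - b)
    rw [sub_sub_cancel] at this
    linarith
  refine ⟨fun t => le_of_forall_pos_le_add fun ε hε => ?_,
    fun t => le_of_forall_pos_le_add fun ε hε => ?_⟩
  · obtain ⟨R, h1, -⟩ := h.cn hx hy px py 0 hε
    exact key _ _ _ (e (-R, t)) (h1 (-R, t) self_mem_Iic)
  · obtain ⟨R, -, h1⟩ := h.cn hx hy px py 0 hε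
    exact key _ _ _ (e (R, t)) (h1 (R, t) self_mem_Ici)

theorem Pth.eq_of_ds (h : Pth x y u) (hx : ContDiff ℝ ∞ x) (hy : ContDiff ℝ ∞ y)
    (px : ∀ t, x (t + 1) = x t) (py : ∀ t, y (t + 1) = y t) (e : ds u = 0) : u = lp x ∧ x = y := by
  have hc : ∀ s s' t, u (s, t) = u (s', t) := fun s s' t => by
    have hd : ∀ r, HasDerivAt (fun s => u (s, t)) 0 r := fun r => by
      have := hasDerivAt_ds (h.bdd.1.differentiable (by simp) (r, t))
      rwa [e] at this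
    exact is_const_of_deriv_eq_zero (fun r => (hd r).differentiableAt) (fun r => (hd r).deriv) s s'
  have h1 : ∀ s t, u (s, t) = x t := fun s t => by
    refine sub_eq_zero.1 (norm_le_zero_iff.1 (le_of_forall_pos_le_add fun ε hε => ?_))
    obtain ⟨R, h1, -⟩ := h.cn hx hy px py 0 hε
    rw [zero_add, hc s (-R)]
    exact h1 (-R, t) self_mem_Iic
  have h2 : ∀ s t, u (s, t) = y t := fun s t => by
    refine sub_eq_zero.1 (norm_le_zero_iff.1 (le_of_forall_pos_le_add fun ε hε => ?_))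
    obtain ⟨R, -, h1⟩ := h.cn hx hy px py 0 hε
    rw [zero_add, hc s R]
    exact h1 (R, t) self_mem_Ici
  exact ⟨funext fun p => h1 p.1 p.2, funext fun t => (h1 0 t).symm.trans (h2 0 t)⟩

theorem pth_ref (hx : ContDiff ℝ ∞ x) (hy : ContDiff ℝ ∞ y) (px : ∀ t, x (t + 1) = x t)
    (py : ∀ t, y (t + 1) = y t) : Pth x y (ref x y) := by
  obtain ⟨h1, h2, h3, h4⟩ := bdd_ref hx hy px py
  have key : ∀ {z : ℝ → V} {I : Set ℝ}, IsOpen I → (∀ p : Pl, p.1 ∈ I → ref x y p = z p.2) →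
      nrm 2 (ref x y - lp z) I < ⊤ := by
    intro z I hI e
    rw [nrm_congr 2 (g := 0) hI.measurableSet fun p hp => ?_, nrm_zero_fun]
    · exact ENNReal.zero_lt_top
    · filter_upwards [(hI.preimage continuous_fst).mem_nhds hp] with q hq
      exact sub_eq_zero.2 (e q hq)
  refine ⟨h1, h2, fin_Pth (key isOpen_Iio fun p hp => h3 p (le_of_lt hp))
    (nrm_Icc_lt_top 2 (h1.1.sub (lp_Pth hx)) 0 0) fun r hr => ?_,
    fin_Pth (key isOpen_Ioi fun p hp => h4 p (le_of_lt hp))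
      (nrm_Icc_lt_top 2 (h1.1.sub (lp_Pth hy)) 0 1) fun r hr => ?_⟩
  · exact (lt_or_ge r 0).imp id fun e => ⟨e, hr⟩
  · exact (lt_or_ge 1 r).imp id fun e => ⟨hr, e⟩

theorem nice_lp {Y : ℝ → V → V} (hY : SP Y) (hx : Orb 1 Y x) : Nice J (sta Y) x x (lp x) := by
  obtain ⟨h1, h2, -⟩ := bdd_lp (Orb.contDiff hY.1 hx) hx.2
  refine ⟨h1, h2, fun p => cr_lp_Pth hY hx EventuallyEq.rfl rfl, ?_, ?_⟩ <;>
  · rw [sub_self, nrm_zero_fun]
    exact ENNReal.zero_lt_top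

theorem Nice.tsl {Y : ℝ → V → V} (h : Nice J (sta Y) x y u) (hx : ContDiff ℝ ∞ x)
    (hy : ContDiff ℝ ∞ y) (s : ℝ) : Nice J (sta Y) x y (tsl (s, 0) u) := by
  refine (h.pth.tsl hx hy s).nice fun p => ?_
  have := h.eq (p + (s, 0))
  simpa only [cr, ds_tsl, dt_tsl, FH.tsl, sta, Prod.snd_add, add_zero] using this

theorem cJ_tsl (J : ℝ → V → V →L[ℝ] V) (u : Pl → V) (s : ℝ) :
    cJ J (tsl (s, 0) u) = tsl (s, 0) (cJ J u) := by
  funext p
  simp only [cJ, tsl, Prod.snd_add, add_zero]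

theorem cS_tsl (J : ℝ → V → V →L[ℝ] V) (X : Pl → V → V) (u : Pl → V) (s : ℝ) :
    cS J (tsl (s, 0) X) (tsl (s, 0) u) = tsl (s, 0) (cS J X u) := by
  funext p
  simp only [cS, dt_tsl, tsl, Prod.snd_add, add_zero]

theorem cr_tsl (J : ℝ → V → V →L[ℝ] V) (X : Pl → V → V) (u : Pl → V) (s : ℝ) :
    cr J (tsl (s, 0) X) (tsl (s, 0) u) = tsl (s, 0) (cr J X u) := by
  funext p
  simp only [cr, ds_tsl, dt_tsl, tsl, Prod.snd_add, add_zero]

theorem tsl_sta (Y : ℝ → V → V) (s : ℝ) : tsl (s, 0) (sta Y) = sta Y := by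
  funext p
  simp only [sta, tsl, Prod.snd_add, add_zero]

theorem cr_ref_mem (hJ : SP J) (hX : Fld X R) (hx : Orb 1 (frz X (-R)) x) (hy : Orb 1 (frz X R) y) :
    cr J X (ref x y) ∈ Dsub V := by
  have sx := hX.sp_frz 0 (-R)
  have sy := hX.sp_frz 0 R
  obtain ⟨h1, h2, h3, h4⟩ := bdd_ref (Orb.contDiff sx.1 hx) (Orb.contDiff sy.1 hy) hx.2 hy.2
  have hR := hX.nonneg
  refine ⟨(contDiff_ds h1.1).add ((hJ.contDiff_comp h1.1).clm_apply ((contDiff_dt h1.1).sub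
    (hX.smooth.comp ((contDiff_const (c := (0 : ℝ))).prodMk (contDiff_id.prodMk h1.1))))),
    fun s t => ?_, R + 2, fun p hp => ?_⟩
  · simp only [cr, h2.ds s t, h2.dt s t, h2 s t, hX.per 0 s t, hJ.2 t]
  · rcases le_abs.1 hp with hp | hp
    · refine cr_lp_Pth sy hy ?_ (congrFun (hX.right 0 p.1 (by linarith)) p.2)
      filter_upwards [(isOpen_Ioi.preimage continuous_fst).mem_nhds
        (show p.1 ∈ Ioi (1 : ℝ) from mem_Ioi.2 (by linarith))] with q hq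
      exact h4 q (le_of_lt hq)
    · refine cr_lp_Pth sx hx ?_ (congrFun (hX.left 0 p.1 (by linarith)) p.2)
      filter_upwards [(isOpen_Iio.preimage continuous_fst).mem_nhds
        (show p.1 ∈ Iio (0 : ℝ) from mem_Iio.2 (by linarith))] with q hq
      exact h3 q (le_of_lt hq)

theorem exists_cS {𝕏 : ℝ → C × V → V} (hJ : SP J) (h : SP 𝕏) :
    ∃ g : ℝ → C × V × V → V →L[ℝ] V, SP g ∧ ∀ (κ : Pl → C) (u : Pl → V),
      cS J (ctl 𝕏 κ) u = fun p => g p.2 (κ p, u p, dt u p) := by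
  refine ⟨fun t q => fderiv ℝ (fun z => J t z (q.2.2 - 𝕏 t (q.1, z))) q.2.1, ⟨?_, fun t => ?_⟩,
    fun _ _ => rfl⟩
  · refine ContDiff.fderiv (m := ∞) (n := ∞)
      (f := fun (r : ℝ × C × V × V) (z : V) => J r.1 z (r.2.2.2 - 𝕏 r.1 (r.2.1, z)))
      ?_ contDiff_snd.snd.fst le_rfl
    exact (hJ.1.comp (contDiff_fst.fst.prodMk contDiff_snd)).clm_apply
      (contDiff_fst.snd.snd.snd.sub (h.1.comp (contDiff_fst.fst.prodMk
        (contDiff_fst.snd.fst.prodMk contDiff_snd))))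
  · simp only [hJ.2 t, h.2 t]

theorem coef_ctl (hJ : ACS Ω0 J) {𝕏 : ℝ → C × V → V} (h : SP 𝕏) {κ : Pl → C} (hκ : Bdd κ)
    (pκ : Per κ) (hu : Bdd u) (pu : Per u) : Coef 1 (cJ J u) (cS J (ctl 𝕏 κ) u) := by
  obtain ⟨g, hg, e⟩ := exists_cS hJ.1 h
  rw [e]
  exact ⟨Or.inl rfl, Bdd.comp hJ.1 hu, hJ.1.per_comp pu, Bdd.comp hg (hκ.prod (hu.prod hu.dt)),
    hg.per_comp fun s t => by simp only [pκ s t, pu s t, pu.dt s t], fun p => hJ.2 _ _⟩

theorem coef_fld (hJ : ACS Ω0 J) (hX : Fld X R) (hu : Bdd u) (pu : Per u) :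
    Coef 1 (cJ J u) (cS J X u) := by
  obtain ⟨ρ, h1, h2, h3, h4, -⟩ := exists_clamp hX.nonneg
  have e : X = ctl (fun t (q : ℝ × V) => X (q.1, t) q.2) fun p => ρ p.1 := by
    funext p
    change X (p.1, p.2) = X (ρ p.1, p.2)
    rcases le_total R p.1 with e | e
    · exact congrFun ((hX.right 0 _ e).trans (hX.right 0 _ (h3 _ e)).symm) p.2
    rcases le_total p.1 (-R) with e' | e'
    · exact congrFun ((hX.left 0 _ e').trans (hX.left 0 _ (h4 _ e')).symm) p.2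
    · rw [h2 _ (abs_le.2 ⟨e', e⟩)]
  rw [e]
  refine coef_ctl hJ ⟨hX.smooth.comp ((contDiff_const (c := (0 : ℝ))).prodMk
    ((contDiff_snd.fst.prodMk contDiff_fst).prodMk contDiff_snd.snd)), fun t => ?_⟩ h1
    (fun _ _ => rfl) hu pu
  funext q
  exact congrFun (hX.per 0 q.1 t) q.2

theorem tendsto_coef (hJ : SP J) (hX : Fld X R) (hx : Orb 1 (frz X (-R)) x)
    (hy : Orb 1 (frz X R) y) (h : Pth x y u) (t : ℝ) :
    Tendsto (fun s => (cJ J u (s, t), cS J X u (s, t))) atBot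
      (𝓝 (J t (x t), -(J t (x t)).comp (fderiv ℝ (frz X (-R) t) (x t)))) ∧
    Tendsto (fun s => (cJ J u (s, t), cS J X u (s, t))) atTop
      (𝓝 (J t (y t), -(J t (y t)).comp (fderiv ℝ (frz X R t) (y t)))) := by
  have sx := hX.sp_frz 0 (-R)
  have sy := hX.sp_frz 0 R
  have H := fun {ε : ℝ} (hε : 0 < ε) =>
    h.cn (Orb.contDiff sx.1 hx) (Orb.contDiff sy.1 hy) hx.2 hy.2 1 hε
  refine ⟨lim_Pth hJ sx hx h.bdd.1 ((eventually_le_atBot (-R)).mono (hX.left 0)) (fun ε hε => ?_) t,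
    lim_Pth hJ sy hy h.bdd.1 ((eventually_ge_atTop R).mono (hX.right 0)) (fun ε hε => ?_) t⟩
  · obtain ⟨S, h1, -⟩ := H hε
    exact ⟨_, Iic_mem_atBot _, h1⟩
  · obtain ⟨S, -, h1⟩ := H hε
    exact ⟨_, Ici_mem_atTop _, h1⟩

theorem ends_fld (hJ : SP J) (hX : Fld X R) (hx : GOrb Ω0 1 (frz X (-R)) x)
    (hy : GOrb Ω0 1 (frz X R) y) (h : Pth x y u) : Ends Ω0 (cJ J u) (cS J X u) := by
  rintro e (rfl | rfl)
  · exact ⟨_, _, fun t => (tendsto_coef hJ hX hx.1 hy.1 h t).1, hx.2⟩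
  · exact ⟨_, _, fun t => (tendsto_coef hJ hX hx.1 hy.1 h t).2, hy.2⟩

theorem ell_fld (hJ : ACS Ω0 J) (hX : Fld X R) (hx : GOrb Ω0 1 (frz X (-R)) x)
    (hy : GOrb Ω0 1 (frz X R) y) (h : Pth x y u) : Ell 1 (cJ J u) (cS J X u) :=
  ell_of_ends (coef_fld hJ hX h.bdd h.per) (ends_fld hJ.1 hX hx hy h)

end

end

end Pool.Agent.P.MP_de3acd_gt.FH
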