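import Pool.Agent.P.MP_de3acd_gt.FH.Dict
import Pool.Agent.P.MP_de3acd_gt.FH.Pth
import Pool.Agent.P.MP_de3acd_gt.FH.UF
import Pool.Agent.P.MP_de3acd_gt.FH.FDer

/-! Regularity of W² solutions; linearisations along solutions.
Sketch of IsF.nice: restrict to the constant family at a (IsF.comp), write X a = ctl 𝕏 κ (Fam.ctl for the constant
family), change the base to w₀ = ref x y (ξ₀ = toW 2 (w - w₀), Pth.nrm_sub, rep_toW, IsF.shift with -ξ₀), η₀ = co 1 (cr J X w₀)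
(cr_ref_mem). Let G be the universal map (exists_FF) for the control space ℝ × C', 𝕁 t ((τ, κ), z) = J (t + τ) z,
𝕏' t ((τ, κ), z) = 𝕏 (t + τ) (κ, z), and c b = toCb (p ↦ ((b.2, κ (p + b)), w₀ (p + b), dt w₀ (p + b))), smooth in b (SFam). By density
trW 1 b (Φ₀ ζ) = trW 1 b η₀ + G (c b, trW 2 b ζ) for all ζ. Apply trIFT to
(b, (ζ, μ)) ↦ (trW 1 b η₀ + G (c b, ζ) + kmap K μ, lmap l ζ + mmap M μ - lmap l (trW 2 b ζ₀)) and γ b = (trW 2 b ζ₀, 0),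
ζ₀ = ξ₀ + ξ. bdd_fn, rep_fn, Rep.nrm_eq, IsF.eq_zero_iff, Pth.add. bijective_const: est_const, bijective_of_est.
ds_ker: dop_ds, Pth.nrm_ds, nrm_two_lt_top, rep_toW, Rep.Dop. -/

open Set Filter Topology MeasureTheory
open scoped ContDiff NNReal ENNReal RealInnerProductSpace

namespace Pool.Agent.P.MP_de3acd_gt.FH

noncomputable section

variable {V : Type} [NormedAddCommGroup V] [InnerProductSpace ℝ V] [Sym V]
variable {C Λ : Type} [NormedAddCommGroup C] [NormedSpace ℝ C] [FiniteDimensional ℝ C]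
  [NormedAddCommGroup Λ] [NormedSpace ℝ Λ] [FiniteDimensional ℝ Λ]
variable {α β : Type} [Fintype α] [Fintype β]

variable {x y : ℝ → V} {u w : Pl → V} {J : ℝ → V → V →L[ℝ] V} {R : ℝ}

theorem lmap_trW_RegNl {l : β → Pl → V} (hl : TF l) (ζ : W 2 V) :
    ContDiff ℝ ∞ fun b : Pl => lmap l (trW 2 b ζ) := by
  refine contDiff_pi.2 fun i => ?_
  have e : (fun b : Pl => lmap l (trW 2 b ζ) i) =
      fun b : Pl => innerSL ℝ (to0 2 ζ) (trW 0 (-b) (co 0 ⟨_, J0_mem (hl i)⟩)) := funext fun b => by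
    rw [lmap_apply, prW_apply (hl i), to0_trW, inner_trW_left, innerSL_apply_apply]
  rw [e]
  exact (innerSL ℝ (to0 2 ζ)).contDiff.comp ((contDiff_trW_co 0 _).comp contDiff_neg)

theorem univ_RegNl (hJ : SP J) {𝕏 : ℝ → C × V → V} (hX : SP 𝕏) {κ : Pl → C} (bκ : Bdd κ)
    (pκ : Per κ) (sm : SmX fun _ : ℝ => ctl 𝕏 κ) (bw : Bdd w) (pw : Per w)
    (hη : cr J (ctl 𝕏 κ) w ∈ Dsub V) {Φ : W 2 V → W 1 V} (hc : Continuous Φ)
    (hΦ : ∀ φ : Dsub V, Rep 1 (Φ (co 2 φ)) (cr J (ctl 𝕏 κ) (w + φ.1))) :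
    ∃ G : Pl × W 2 V → W 1 V, ContDiff ℝ ∞ G ∧ ∀ b ζ, trW 1 b (Φ ζ) = G (b, trW 2 b ζ) := by
  have hJ' : SP fun (t : ℝ) (q : (Pl × C) × V) => J (t + q.1.1.2) q.2 :=
    ⟨hJ.1.comp ((contDiff_fst.add contDiff_snd.fst.fst.snd).prodMk contDiff_snd.snd),
      fun t => funext fun q => by dsimp only; rw [add_right_comm, hJ.2]⟩
  have hX' : SP fun (t : ℝ) (q : (Pl × C) × V) => 𝕏 (t + q.1.1.2) (q.1.2, q.2) :=
    ⟨hX.1.comp ((contDiff_fst.add contDiff_snd.fst.fst.snd).prodMk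
      (contDiff_snd.fst.snd.prodMk contDiff_snd.snd)),
      fun t => funext fun q => by dsimp only; rw [add_right_comm, hX.2]⟩
  obtain ⟨G, hG, hG'⟩ := exists_FF hJ' hX'
  have hs : SFam fun (b : Pl) (p : Pl) => ((b, tsl b κ p), tsl b w p, tsl b (dt w) p) :=
    (sfam_param.prod (sfam_tsl bκ pκ)).prod ((sfam_tsl bw pw).prod (sfam_tsl bw.dt pw.dt))
  refine ⟨fun q => trW 1 q.1 (co 1 ⟨_, hη⟩) +
    G (toCb fun p => ((q.1, tsl q.1 κ p), tsl q.1 w p, tsl q.1 (dt w) p), q.2),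
    ((contDiff_trW_co 1 _).comp contDiff_fst).add
      (hG.contDiff.comp ((hs.contDiff.comp contDiff_fst).prodMk contDiff_snd)), fun b ζ => ?_⟩
  refine W.induction (P := fun ζ : W 2 V => trW 1 b (Φ ζ) = trW 1 b (co 1 ⟨_, hη⟩) +
    G (toCb fun p => ((b, tsl b κ p), tsl b w p, tsl b (dt w) p), trW 2 b ζ))
    (isClosed_eq ((trW 1 b).continuous.comp hc) (continuous_const.add (hG.contDiff.continuous.comp
      (continuous_const.prodMk (trW 2 b).continuous)))) (fun φ => ?_) ζ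
  have s1 : ContDiff ℝ ∞ (w + φ.1) := bw.1.add φ.2.1
  have p1 : Per (w + φ.1) := fun s t => by simp only [Pi.add_apply, pw s t, φ.2.2.1 s t]
  have c1 : ContDiff ℝ ∞ (cr J (ctl 𝕏 κ) (w + φ.1)) :=
    (contDiff_cr hJ sm s1).comp ((contDiff_const (c := (0 : ℝ))).prodMk contDiff_id)
  have r1 := (hΦ φ).trW c1.continuous (per_cr hJ (sm.2 0) p1) b
  have r2 := hG' (toCb fun p => ((b, tsl b κ p), tsl b w p, tsl b (dt w) p))
    ⟨tsl b φ.1, tsl_mem φ.2 b⟩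
  rw [fn_toCb (hs.bdd_at b) (hs.per b)] at r2
  have r3 := (rep_co 1 ⟨_, tsl_mem hη b⟩).add r2 (tsl_mem hη b).1.continuous
    (continuous_ffn_UF hJ' hX' (hs.bdd_at b).1.continuous (tsl_mem φ.2 b).1)
  change trW 1 b (Φ (co 2 φ)) = trW 1 b (co 1 ⟨_, hη⟩) + G (_, trW 2 b (co 2 φ))
  rw [trW_co, trW_co]
  refine r1.unique (Eq.subst (motive := fun f => Rep 1 _ f) (funext fun p => ?_) r3)
  simp only [Pi.add_apply, ffn, ds_tsl, dt_tsl, tsl, cr, ctl, ds_add bw.1 φ.2.1,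
    dt_add bw.1 φ.2.1, Prod.snd_add]
  abel

theorem reg_RegNl {Φ : W 2 V → W 1 V} {G : Pl × W 2 V → W 1 V} (hG : ContDiff ℝ ∞ G)
    (h : ∀ b ζ, trW 1 b (Φ ζ) = G (b, trW 2 b ζ)) {ζ : W 2 V} (e : Φ ζ = 0)
    {D : W 2 V →L[ℝ] W 1 V} (hD : HasFDerivAt Φ D ζ) {K : α → Pl → V} {l : β → Pl → V} (hl : TF l)
    {M : β → α → ℝ} (hb : Function.Bijective (frm D K l M)) : Bdd (fn ζ) := by
  let H : Pl × W 2 V × (α → ℝ) → W 1 V × (β → ℝ) := fun q =>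
    (G (q.1, q.2.1) + kmap K q.2.2, lmap l q.2.1 + mmap M q.2.2 - lmap l (trW 2 q.1 ζ))
  have hH : ContDiff ℝ ∞ H :=
    ((hG.comp (contDiff_fst.prodMk contDiff_snd.fst)).add
      ((kmap K).contDiff.comp contDiff_snd.snd)).prodMk
      ((((lmap l).contDiff.comp contDiff_snd.fst).add
        ((mmap M).contDiff.comp contDiff_snd.snd)).sub ((lmap_trW_RegNl hl ζ).comp contDiff_fst))
  have h1 : HasFDerivAt (fun z => H (0, z)) ((fderiv ℝ H (0, trW 2 0 ζ, 0)).comp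
      (ContinuousLinearMap.inr ℝ Pl (W 2 V × (α → ℝ)))) (trW 2 0 ζ, 0) :=
    (hH.differentiable (by simp) _).hasFDerivAt.comp _ (hasFDerivAt_prodMk_right _ _)
  have h2 : HasFDerivAt (fun z => H (0, z)) (frm D K l M) (trW 2 0 ζ, 0) := by
    have e0 : ∀ ζ', G (0, ζ') = Φ ζ' := fun ζ' => by
      have := h 0 ζ'
      rw [trW_zero, trW_zero] at this
      exact this.symm
    simp only [H, e0]
    rw [trW_zero]
    exact ((hD.comp (ζ, (0 : α → ℝ)) hasFDerivAt_fst).add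
      ((kmap K).hasFDerivAt.comp _ hasFDerivAt_snd)).prodMk
      ((((lmap l).hasFDerivAt.comp _ hasFDerivAt_fst).add
        ((mmap M).hasFDerivAt.comp _ hasFDerivAt_snd)).sub_const _)
  refine bdd_fn fun n => (trIFT hH (γ := fun b => (trW 2 b ζ, 0)) (a₀ := 0) (y := 0)
    ((continuous_trW 2 ζ).prodMk continuous_const).continuousAt
    (Eventually.of_forall fun b => ?_) (h1.unique h2 ▸ hb) n).fst
  simp only [H, ← h, e, map_zero, add_zero, sub_self]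
  rfl

theorem IsF.nice {X : Λ → Pl → V → V} {Φ : W 2 V × Λ → W 1 V} (h : IsF J X w Φ) (hJ : SP J)
    {a : Λ} (hX : Fld (X a) R) (hx : Orb 1 (frz (X a) (-R)) x) (hy : Orb 1 (frz (X a) R) y)
    (hw : Pth x y w) {ξ : W 2 V} (e : Φ (ξ, a) = 0) {K : α → Pl → V} {l : β → Pl → V} (hl : TF l)
    {M : β → α → ℝ} (hb : Function.Bijective (frm (d1 Φ (ξ, a)) K l M)) :
    Nice J (X a) x y (w + fn ξ) := by
  have sx := Orb.contDiff (hX.sp_frz 0 (-R)).1 hx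
  have sy := Orb.contDiff (hX.sp_frz 0 R).1 hy
  have h₁ : IsF J (fun _ : ℝ => X a) w fun z => Φ (z.1, a) := h.comp (g := fun _ => a) contDiff_const
  have hw₀ := pth_ref sx sy (Orb.per hx) (Orb.per hy)
  have s₀ : ContDiff ℝ ∞ (ref x y - w) := hw₀.bdd.1.sub hw.bdd.1
  have p₀ : Per (ref x y - w) := fun s t => by simp only [Pi.sub_apply, hw₀.per s t, hw.per s t]
  have r₀ := rep_toW le_rfl s₀ p₀ (hw₀.nrm_sub hw sx sy)
  have h₀ := h₁.shift hw.bdd.1 r₀ s₀ p₀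
  rw [add_sub_cancel] at h₀
  have hη := cr_ref_mem hJ hX hx hy
  have sm := hX.smX
  obtain ⟨𝕏, ρ, h𝕏, hρ, -, -, -, hc⟩ := Fam.ctl hX
  have hc0 : X a = ctl 𝕏 fun p => ((0 : ℝ), ρ p.1) := hc 0
  obtain ⟨G, hG, hG'⟩ := univ_RegNl hJ h𝕏 ((bdd_const (0 : ℝ)).prod hρ) (fun _ _ => rfl)
    (hc0 ▸ sm) hw₀.bdd hw₀.per (hc0 ▸ hη) (Φ := fun ζ => Φ (toW 2 (ref x y - w) + ζ, a))
    (h.1.continuous.comp ((continuous_const.add continuous_id).prodMk continuous_const))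
    fun φ => hc0 ▸ h₀.2 φ 0
  have e1 : toW 2 (ref x y - w) + (ξ - toW 2 (ref x y - w)) = ξ := add_sub_cancel _ _
  have hD : HasFDerivAt (fun ζ => Φ (toW 2 (ref x y - w) + ζ, a)) (d1 Φ (ξ, a))
      (ξ - toW 2 (ref x y - w)) := by
    refine HasFDerivAt.comp (g := Φ) _ ?_
      (((hasFDerivAt_id _).const_add (toW 2 (ref x y - w))).prodMk (hasFDerivAt_const a _))
    simp only [id, e1]
    exact (h.1.differentiable (by simp) _).hasFDerivAt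
  have b1 := (reg_RegNl hG hG' (by rw [e1, e]) hD hl hb).add (hw₀.bdd.sub hw.bdd)
  rw [fn_sub, r₀.eq_fn s₀.continuous p₀, sub_add_cancel] at b1
  refine (hw.add sx sy b1 (per_fn ξ) ?_).nice ((h₁.eq_zero_iff hJ sm hw.bdd.1 hw.per (rep_fn ξ) b1.1
    (per_fn ξ) 0).1 e)
  rw [(rep_fn ξ).nrm_eq le_rfl b1.1 (per_fn ξ)]
  exact ENNReal.ofReal_lt_top

theorem hil_lop {a b : ℕ} (γ : Equiv.Perm V) (X : Pl → V → V) (K : Fin a → Pl → V)
    (l : Fin b → Pl → V) (M : Fin b → Fin a → ℝ) :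
    hil (lop γ J X x y u K l M) = frm (Du J X u) K l M := rfl

theorem adm_lop {X : Pl → V → V} (hJ : ACS Ω0 J) (hX : Fld X R) (hx : GOrb Ω0 1 (frz X (-R)) x)
    (hy : GOrb Ω0 1 (frz X R) y) (h : Pth x y u) {a b : ℕ} {K : Fin a → Pl → V}
    {l : Fin b → Pl → V} (hK : TF K) (hl : TF l) (M : Fin b → Fin a → ℝ) :
    Adm Ω0 ⊥ (lop 1 J X x y u K l M) :=
  adm_iff.2 ⟨rfl, fun t => ⟨hx.1.2 t, hy.1.2 t⟩, coef_fld hJ hX h.bdd h.per,
    ends_fld hJ.1 hX hx hy h, hK, hl⟩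

theorem ok_lop_iff {X : Pl → V → V} (hJ : ACS Ω0 J) (hX : Fld X R) (hx : GOrb Ω0 1 (frz X (-R)) x)
    (hy : GOrb Ω0 1 (frz X R) y) (h : Pth x y u) {a b : ℕ} (K : Fin a → Pl → V)
    (l : Fin b → Pl → V) (M : Fin b → Fin a → ℝ) : Ok Ω0 ⊥ (lop 1 J X x y u K l M) ↔
      TF K ∧ TF l ∧ Function.Bijective (frm (Du J X u) K l M) :=
  ⟨fun e => ⟨(adm_iff.1 e.1).2.2.2.2.1, (adm_iff.1 e.1).2.2.2.2.2, (Adm.ok_iff e.1).1 e⟩,
    fun e => (Adm.ok_iff (adm_lop hJ hX hx hy h e.1 e.2.1 M)).2 e.2.2⟩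

theorem eIdx_iff {X : Pl → V → V} (hJ : ACS Ω0 J) (hX : Fld X R) (hx : GOrb Ω0 1 (frz X (-R)) x)
    (hy : GOrb Ω0 1 (frz X R) y) (h : Pth x y u) (d : ℤ) :
    EIdx Ω0 ⊥ 1 J X x y u d ↔ HasIdx (Du J X u) d := by
  constructor
  · rintro ⟨a, b, K, l, M, e, rfl⟩
    simpa only [Fintype.card_fin] using hasIdx_of_frm ((ok_lop_iff hJ hX hx hy h K l M).1 e).2.2
  · intro e
    obtain ⟨a, b, K, l, M, hK, hl, hb⟩ := (ell_fld hJ hX hx hy h).exists_frame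
    refine ⟨a, b, K, l, M, (ok_lop_iff hJ hX hx hy h K l M).2 ⟨hK, hl, hb⟩, ?_⟩
    simpa only [Fintype.card_fin] using e.unique (hasIdx_of_frm hb)

theorem onto_lop_iff {X : Pl → V → V} (hJ : ACS Ω0 J) (hX : Fld X R)
    (hx : GOrb Ω0 1 (frz X (-R)) x) (hy : GOrb Ω0 1 (frz X R) y) (h : Pth x y u) {a : ℕ}
    {K : Fin a → Pl → V} (hK : TF K) : Onto Ω0 (lop 1 J X x y u K ![] ![]) ↔
      Function.Surjective ((Du J X u).coprod (kmap K)) := by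
  refine (Adm.onto_iff (adm_lop hJ hX hx hy h hK (fun i => i.elim0) ![])).trans
    ⟨surjective_coprod_of_blk, fun e q => ?_⟩
  obtain ⟨z, hz⟩ := e q.1
  exact ⟨z, Prod.ext hz (Subsingleton.elim _ _)⟩

theorem bijective_const {Y : ℝ → V → V} (hJ : ACS Ω0 J) (hY : SP Y) (hx : GOrb Ω0 1 Y x) :
    Function.Bijective (Du J (sta Y) (lp x)) := by
  have hn := nice_lp (J := J) hY hx.1
  have hc := coef_fld hJ (fld_sta hY le_rfl) hn.bdd hn.per
  have e : cS J (sta Y) (lp x) = lp fun t => -(J t (x t)).comp (fderiv ℝ (Y t) (x t)) := by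
    funext p
    have h1 := (tendsto_coef hJ.1 (fld_sta hY le_rfl) hx.1 hx.1 hn.pth p.2).2.snd_nhds
    refine tendsto_nhds_unique (tendsto_const_nhds.congr fun s => ?_) h1
    simp only [cS, (bdd_lp (Orb.contDiff hY.1 hx.1) (Orb.per hx.1)).2.2.2]
    rfl
  rw [Du]
  rw [e] at hc ⊢
  obtain ⟨c, h1⟩ := est_const (j := fun t => J t (x t)) hc hx.2
  exact (bijective_of_est hc h1).2

theorem ds_ker {Y : ℝ → V → V} (hJ : ACS Ω0 J) (hY : SP Y) (hx : Orb 1 Y x) (hy : Orb 1 Y y)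
    (h : Nice J (sta Y) x y u) : nrm 2 (ds u) univ < ⊤ ∧ Rep 2 (toW 2 (ds u)) (ds u) ∧
      Du J (sta Y) u (toW 2 (ds u)) = 0 := by
  have hc := coef_fld hJ (fld_sta hY le_rfl) h.bdd h.per
  have s := contDiff_ds h.bdd.1
  have e : dop 1 (cJ J u) (cS J (sta Y) u) (ds u) = 0 := funext (dop_ds hJ.1 hY h.bdd.1 h.eq)
  have h2 : nrm 2 (ds u) univ < ⊤ := by
    refine nrm_two_lt_top hc s h.per.ds ((nrm_mono _ zero_le_one Subset.rfl).trans_lt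
      (h.pth.nrm_ds (Orb.contDiff hY.1 hx) (Orb.contDiff hY.1 hy))) ?_
    rw [e, nrm_zero_fun]
    exact ENNReal.zero_lt_top
  have r := rep_toW le_rfl s h.per.ds h2
  have r' := r.Dop le_rfl hc s h.per.ds
  rw [e] at r'
  exact ⟨h2, r, r'.unique (rep_zero 1)⟩

theorem one_le_idx {Y : ℝ → V → V} (hJ : ACS Ω0 J) (hY : SP Y) (hx : Orb 1 Y x) (hy : Orb 1 Y y)
    (h : Nice J (sta Y) x y u) (h0 : ds u ≠ 0) (hs : Function.Surjective (Du J (sta Y) u)) {d : ℤ}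
    (hd : HasIdx (Du J (sta Y) u) d) : 1 ≤ d := by
  obtain ⟨-, r, e⟩ := ds_ker hJ hY hx hy h
  exact hd.one_le hs (mt (r.eq_zero (contDiff_ds h.bdd.1).continuous h.per.ds).1 h0) e

omit [Sym V] in
theorem bij_trW_RegNl (k : ℕ) (a : Pl) : Function.Bijective (trW k a : W k V → W k V) :=
  Function.bijective_iff_has_inverse.2 ⟨trW k (-a),
    fun ξ => by rw [← trW_add, neg_add_cancel, trW_zero],
    fun ξ => by rw [← trW_add, add_neg_cancel, trW_zero]⟩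

theorem Du_tsl {X : Pl → V → V} (hc : Coef 1 (cJ J u) (cS J X u)) (s : ℝ) :
    (∀ d, HasIdx (Du J (tsl (s, 0) X) (tsl (s, 0) u)) d ↔ HasIdx (Du J X u) d) ∧
      (Function.Surjective (Du J (tsl (s, 0) X) (tsl (s, 0) u)) ↔
        Function.Surjective (Du J X u)) := by
  rw [Du, Du, cJ_tsl, cS_tsl]
  refine ⟨fun d => hasIdx_tsl hc _, ?_⟩
  exact (Function.Surjective.of_comp_iff _ (bij_trW_RegNl 2 (s, 0)).2).symm.trans
    ((iff_of_eq (congrArg _ (funext fun ξ => (trW_Dop le_rfl hc (s, 0) ξ).symm))).trans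
      (Function.Surjective.of_comp_iff' (bij_trW_RegNl 1 (s, 0)) _))

end

end Pool.Agent.P.MP_de3acd_gt.FH
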