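import Pool.Agent.P.MP_de3acd_gt.FH.Defs6
import Pool.Agent.P.MP_de3acd_gt.FH.UC
import Pool.Agent.P.MP_de3acd_gt.FH.Pth

/-! Unique continuation for solutions, and overlapping solutions.
Sketch: uc_sol: w = u - u' satisfies ds w + J (u) (dt w) = -(G p (u p) - G p (u' p)) with G p z = J p.2 z (dt u' p - Y p.2 z), smooth, so Lipschitz in z on bounded sets; uc_gen with e6, om_e6.
dense_ds: if ds u vanishes near p₀ then u agrees with tsl (s, 0) u near p₀ for small s, so everywhere (cr_tsl is stated for V; redo it with ds_tsl, dt_tsl), so ds u = 0.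
rigid: differentiate u p = u' (σ p, p.2): ds u = σ_s a, dt u = σ_t a + dt u' with a = ds u' (σ p, p.2); the two equations give (σ_s - 1) a + σ_t J a = 0, Cpt.indep form_om; a function with
derivative fst on a ball is p.1 + const (Convex.is_const_of_fderivWithin_eq_zero). overlap: ℓ a functional with ℓ (ds u p₁) ≠ 0; Ψ p = (ℓ (u p), p.2), Ψ' q = (ℓ (u' q), q.2). On a closed ball O'
around p₁ the map Ψ is open (HasStrictFDerivAt.map_nhds_eq_of_equiv at interior points). A₀ = the points of O' with a witness s at which ℓ (ds u') = 0: closed (compactness of Icc), Ψ '' A₀ is null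
(addHaar_image_eq_zero_of_det_fderivWithin_eq_zero), so it has empty interior. The regular points of Ψ' are covered by countably many closed balls D k inside sources of local inverses
(ContDiffAt.toOpenPartialHomeomorph, countable_cover_nhdsWithin); A k likewise. Baire (dense_iUnion_interior_of_closed after adding the complement of the open ball, or
nonempty_interior_of_iUnion_of_closed). -/

open Set Filter Topology MeasureTheory
open scoped ContDiff NNReal ENNReal RealInnerProductSpace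

namespace Pool.Agent.P.MP_de3acd_gt.FH

noncomputable section

variable {Γ : Subgroup (Equiv.Perm E)} {B : ℝ → E →L[ℝ] E} {J : ℝ → E → E →L[ℝ] E}
  {H G K K' : ℝ → E → ℝ} {Y Y' Z : ℝ → E → E} {γ g : Equiv.Perm E} {x y w : ℝ → E} {u : Pl → E}

variable {u' : Pl → E}

theorem line_RegP1 {F : Type} [NormedAddCommGroup F] [NormedSpace ℝ F] {f : Pl → F}
    (hf : ContDiff ℝ ∞ f) (p : Pl) (τ : ℝ) :
    HasDerivAt (fun τ : ℝ => f (p + (τ, 0))) (ds f (p + (τ, 0))) τ :=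
  (hf.differentiable (by simp) _).hasFDerivAt.comp_hasDerivAt τ
    (((hasDerivAt_id τ).prodMk (hasDerivAt_const τ (0 : ℝ))).const_add p)

theorem slice_RegP1 {F : Type} [NormedAddCommGroup F] [NormedSpace ℝ F] {f : Pl → F}
    (hf : ContDiff ℝ ∞ f) (s t : ℝ) : HasDerivAt (fun τ : ℝ => f (τ, t)) (ds f (s, t)) s :=
  (hf.differentiable (by simp) _).hasFDerivAt.comp_hasDerivAt s
    ((hasDerivAt_id s).prodMk (hasDerivAt_const s t))

theorem locinv_RegP1 {f : Pl → ℝ} (hf : ContDiff ℝ ∞ f) {q₀ : Pl} (h : ds f q₀ ≠ 0) :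
    ∃ (Φ : Pl → ℝ) (D : Set Pl), IsClosed D ∧ D ∈ 𝓝 q₀ ∧ ∀ q ∈ D, ds f q ≠ 0 ∧
      Φ (f q, q.2) = q.1 ∧ DifferentiableAt ℝ Φ (f q, q.2) := by
  have hΨ : ContDiff ℝ 1 fun q : Pl => (f q, q.2) :=
    (hf.of_le (by simp)).prodMk contDiff_snd
  let L : Pl →L[ℝ] Pl := (fderiv ℝ f q₀).prod (ContinuousLinearMap.snd ℝ ℝ ℝ)
  have hL : Function.Injective (L : Pl →ₗ[ℝ] Pl) := by
    refine (injective_iff_map_eq_zero _).2 fun v hv => ?_
    have h1 : fderiv ℝ f q₀ v = 0 := congrArg Prod.fst hv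
    have h2 : v.2 = 0 := congrArg Prod.snd hv
    have h3 : v = v.1 • ((1, 0) : Pl) := by
      ext <;> simp [h2]
    rw [h3, map_smul, smul_eq_mul] at h1
    have h4 : v.1 = 0 := (mul_eq_zero.1 h1).resolve_right h
    exact Prod.ext h4 h2
  let T : Pl ≃L[ℝ] Pl := (LinearEquiv.ofInjectiveEndo _ hL).toContinuousLinearEquiv
  have hT : HasFDerivAt (fun q : Pl => (f q, q.2)) (T : Pl →L[ℝ] Pl) q₀ := by
    have : (T : Pl →L[ℝ] Pl) = L := ContinuousLinearMap.ext fun _ => rfl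
    rw [this]
    exact (hf.differentiable (by simp) q₀).hasFDerivAt.prodMk hasFDerivAt_snd
  have c1 := (hΨ.contDiffAt.to_localInverse hT one_ne_zero).eventually (by simp)
  have c2 := (hΨ.contDiffAt.hasStrictFDerivAt' hT one_ne_zero).eventually_left_inverse
  have c3 := hΨ.continuous.continuousAt.eventually c1
  have c4 := (contDiff_ds hf).continuous.continuousAt.eventually_ne h
  obtain ⟨D, hD, hc, hs⟩ := exists_mem_nhds_isClosed_subset (c4.and (c2.and c3))
  refine ⟨fun y => (hΨ.contDiffAt.localInverse hT one_ne_zero y).1, D, hc, hD, fun q hq => ?_⟩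
  obtain ⟨d1, d2, d3⟩ := hs hq
  exact ⟨d1, congrArg Prod.fst d2, (d3.differentiableAt one_ne_zero).fst⟩

theorem crit_RegP1 {f f' : Pl → ℝ} (hf : ContDiff ℝ ∞ f) (hf' : ContDiff ℝ ∞ f') {p : Pl}
    (h : ds f p ≠ 0) (hc : ∀ᶠ q in 𝓝 p, ∃ s, f q = f' (s, q.2) ∧ ds f' (s, q.2) = 0) : False := by
  have h1 : HasStrictDerivAt (fun τ : ℝ => f (τ, p.2)) (ds f p) p.1 :=
    (hf.comp (contDiff_id.prodMk contDiff_const)).contDiffAt.hasStrictDerivAt'
      (slice_RegP1 hf p.1 p.2) (by simp)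
  have h2 : volume ((fun τ : ℝ => f' (τ, p.2)) '' {s | ds f' (s, p.2) = 0}) = 0 := by
    refine addHaar_image_eq_zero_of_det_fderivWithin_eq_zero volume (f' := fun _ => 0)
      (fun s hs => ?_) fun _ _ => ?_
    · have := (slice_RegP1 hf' s p.2).hasFDerivAt
      rw [show ds f' (s, p.2) = 0 from hs] at this
      simpa using this.hasFDerivWithinAt
    · simp [ContinuousLinearMap.det]
  have h3 : (fun τ : ℝ => f' (τ, p.2)) '' {s | ds f' (s, p.2) = 0} ∈ 𝓝 (f (p.1, p.2)) := by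
    rw [← h1.map_nhds_eq h, mem_map]
    have h4 : Tendsto (fun τ : ℝ => (τ, p.2)) (𝓝 p.1) (𝓝 p) :=
      (continuous_id.prodMk continuous_const).tendsto' _ _ rfl
    filter_upwards [h4.eventually hc] with τ ⟨s, e1, e2⟩
    exact ⟨s, e2, e1.symm⟩
  exact (Measure.measure_pos_of_mem_nhds volume h3).ne' h2

theorem wit_RegP1 (hu : Continuous u) (hu' : Continuous u') {A : Set (Pl × ℝ)} (hA : IsClosed A)
    (S : ℝ) {D : Set Pl} (hD : IsClosed D) :
    IsClosed {p : Pl | ∃ s ∈ Icc (-S) S, (p, s) ∈ A ∧ u p = u' (s, p.2) ∧ (s, p.2) ∈ D} := by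
  have h : IsClosed {z : Pl × Icc (-S) S | (z.1, z.2.1) ∈ A ∧ u z.1 = u' (z.2.1, z.1.2) ∧
      (z.2.1, z.1.2) ∈ D} :=
    (hA.preimage (by fun_prop)).inter ((isClosed_eq (by fun_prop) (by fun_prop)).inter
      (hD.preimage (by fun_prop)))
  have h2 := isClosedMap_fst_of_compactSpace _ h
  have h3 : Prod.fst '' {z : Pl × Icc (-S) S | (z.1, z.2.1) ∈ A ∧ u z.1 = u' (z.2.1, z.1.2) ∧
      (z.2.1, z.1.2) ∈ D} =
      {p : Pl | ∃ s ∈ Icc (-S) S, (p, s) ∈ A ∧ u p = u' (s, p.2) ∧ (s, p.2) ∈ D} := by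
    ext p
    constructor
    · rintro ⟨z, hz, rfl⟩
      exact ⟨z.2.1, z.2.2, hz⟩
    · rintro ⟨s, hs, hz⟩
      exact ⟨(p, ⟨s, hs⟩), hz, rfl⟩
  rwa [h3] at h2

theorem uc_sol (hJ : ACS om J) (hY : SP Y) (hu : ContDiff ℝ ∞ u) (hu' : ContDiff ℝ ∞ u')
    (e : ∀ p, cr J (sta Y) u p = 0) (e' : ∀ p, cr J (sta Y) u' p = 0) {p₀ : Pl}
    (h : u =ᶠ[𝓝 p₀] u') : u = u' := by
  have hG : ContDiff ℝ ∞ fun q : Pl × E => J q.1.2 q.2 (dt u' q.1 - Y q.1.2 q.2) :=
    (hJ.1.1.comp (contDiff_fst.snd.prodMk contDiff_snd)).clm_apply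
      (((contDiff_dt hu').comp contDiff_fst).sub (hY.1.comp (contDiff_fst.snd.prodMk contDiff_snd)))
  have key : u - u' = 0 := by
    refine uc_gen e6 om_e6 (j := fun p => J p.2 (u p)) (hJ.1.1.comp (contDiff_snd.prodMk hu))
      (fun p => hJ.2 _ _) (hu.sub hu') (fun R => ?_) (p₀ := p₀)
      (h.mono fun p hp => sub_eq_zero.2 hp)
    have hK : IsCompact (((fun p => (p, u p)) '' Metric.closedBall (0 : Pl) R) ∪
        ((fun p => (p, u' p)) '' Metric.closedBall (0 : Pl) R)) :=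
      ((isCompact_closedBall _ _).image (continuous_id.prodMk hu.continuous)).union
        ((isCompact_closedBall _ _).image (continuous_id.prodMk hu'.continuous))
    obtain ⟨A, hA⟩ := ((hG.of_le (by simp)).locallyLipschitz.locallyLipschitzOn
      ).exists_lipschitzOnWith_of_compact hK
    refine ⟨A, fun p hp => ?_⟩
    have hp' : p ∈ Metric.closedBall (0 : Pl) R := mem_closedBall_zero_iff.2 hp
    have h1 := hA.dist_le_mul (p, u' p) (Or.inr ⟨p, hp', rfl⟩) (p, u p) (Or.inl ⟨p, hp', rfl⟩)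
    rw [dist_prod_same_left, dist_eq_norm, dist_comm, dist_eq_norm] at h1
    refine le_of_eq_of_le (congrArg norm ?_) h1
    have e1 := e p
    have e2 := e' p
    simp only [cr, sta, map_sub] at e1 e2
    simp only [ds_sub_JetC hu hu', dt_sub_JetC hu hu', Pi.sub_apply, map_sub]
    linear_combination (exp := 1) e1 - e2
  exact sub_eq_zero.1 key

theorem cr_sta_tsl (e : ∀ p, cr J (sta Y) u p = 0) (s : ℝ) (p : Pl) :
    cr J (sta Y) (tsl (s, 0) u) p = 0 := by
  have := e (p + (s, 0))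
  simpa only [cr, ds_tsl, dt_tsl, tsl, sta, Prod.snd_add, add_zero] using this

theorem dense_ds (hJ : ACS om J) (hY : SP Y) (hu : ContDiff ℝ ∞ u) (e : ∀ p, cr J (sta Y) u p = 0)
    (h0 : ds u ≠ 0) : Dense {p | ds u p ≠ 0} := by
  intro p₀
  rw [mem_closure_iff_frequently]
  intro hn
  obtain ⟨r, hr, hb⟩ := Metric.eventually_nhds_iff_ball.1 hn
  have h1 : ∀ s ∈ Metric.ball (0 : ℝ) (r / 2), tsl (s, 0) u = u := fun s hs => by
    refine uc_sol hJ hY (contDiff_tsl hu _) hu (cr_sta_tsl e s) e (p₀ := p₀) ?_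
    filter_upwards [Metric.ball_mem_nhds p₀ (half_pos hr)] with p hp
    have h2 := Metric.isOpen_ball.is_const_of_deriv_eq_zero (f := fun τ : ℝ => u (p + (τ, 0)))
      (convex_ball (0 : ℝ) (r / 2)).isPreconnected
      (fun τ _ => (line_RegP1 hu p τ).differentiableAt.differentiableWithinAt)
      (fun τ hτ => ?_) hs (Metric.mem_ball_self (half_pos hr))
    · simpa [tsl, Prod.mk_zero_zero] using h2
    · rw [(line_RegP1 hu p τ).deriv]
      refine not_not.1 (hb _ ?_)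
      have h3 : dist (p + (τ, 0)) p < r / 2 := by
        simpa [dist_eq_norm, Prod.norm_def] using mem_ball_zero_iff.1 hτ
      exact (dist_triangle _ p _).trans_lt ((add_lt_add h3 hp).trans_eq (add_halves r))
  refine h0 (funext fun p => ?_)
  have h4 : (fun τ : ℝ => u (p + (τ, 0))) =ᶠ[𝓝 0] fun _ => u p := by
    filter_upwards [Metric.ball_mem_nhds (0 : ℝ) (half_pos hr)] with s hs
    exact congrFun (h1 s hs) p
  have h5 := (line_RegP1 hu p 0).unique ((hasDerivAt_const (0 : ℝ) (u p)).congr_of_eventuallyEq h4)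
  simpa [Prod.mk_zero_zero] using h5

theorem rigid (hJ : ACS om J) (hu : ContDiff ℝ ∞ u) (hu' : ContDiff ℝ ∞ u')
    (e : ∀ p, cr J (sta Y) u p = 0) (e' : ∀ p, cr J (sta Y) u' p = 0) {σ : Pl → ℝ} {p₀ : Pl}
    (h : ∀ᶠ p in 𝓝 p₀, DifferentiableAt ℝ σ p ∧ u p = u' (σ p, p.2) ∧ ds u' (σ p, p.2) ≠ 0) :
    u =ᶠ[𝓝 p₀] tsl (σ p₀ - p₀.1, 0) u' := by
  have h1 : ∀ᶠ p in 𝓝 p₀, HasFDerivAt (fun p : Pl => σ p - p.1) (0 : Pl →L[ℝ] ℝ) p := by
    filter_upwards [h.eventually_nhds] with p hp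
    obtain ⟨d, e1, n⟩ := hp.self_of_nhds
    have h2 : HasFDerivAt u ((fderiv ℝ u' (σ p, p.2)).comp
        ((fderiv ℝ σ p).prod (ContinuousLinearMap.snd ℝ ℝ ℝ))) p :=
      ((hu'.differentiable (by simp) _).hasFDerivAt.comp p
        (d.hasFDerivAt.prodMk hasFDerivAt_snd)).congr_of_eventuallyEq (hp.mono fun q hq => hq.2.1)
    have h3 : ds u p = ds σ p • ds u' (σ p, p.2) := by
      rw [ds, h2.fderiv, ds, ds, ← map_smul]
      exact congrArg (fderiv ℝ u' (σ p, p.2)) (by ext <;> simp)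
    have h4 : dt u p = dt σ p • ds u' (σ p, p.2) + dt u' (σ p, p.2) := by
      rw [dt, h2.fderiv, dt, dt, ds, ← map_smul, ← map_add]
      exact congrArg (fderiv ℝ u' (σ p, p.2)) (by ext <;> simp)
    have e2 := e p
    have e3 := e' (σ p, p.2)
    simp only [cr, sta, h3, h4, ← e1, map_sub, map_add, map_smul] at e2 e3
    obtain ⟨a, b⟩ := Cpt.indep form_om (hJ.2 p.2 (u p)) n (a := ds σ p - 1) (b := dt σ p)
      (by rw [sub_smul, one_smul]; linear_combination (exp := 1) e2 - e3)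
    have h5 : fderiv ℝ σ p - ContinuousLinearMap.fst ℝ ℝ ℝ = 0 := by
      ext
      · simpa [ds] using a
      · simpa [dt] using b
    rw [← h5]
    exact d.hasFDerivAt.sub hasFDerivAt_fst
  obtain ⟨r, hr, hb⟩ := Metric.eventually_nhds_iff_ball.1 h1
  filter_upwards [h, Metric.ball_mem_nhds p₀ hr] with p hp hp'
  have h6 : σ p - p.1 = σ p₀ - p₀.1 :=
    Metric.isOpen_ball.is_const_of_fderiv_eq_zero (𝕜 := ℝ) (f := fun p : Pl => σ p - p.1)
      (convex_ball p₀ r).isPreconnected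
      (fun q hq => (hb q hq).differentiableAt.differentiableWithinAt)
      (fun q hq => (hb q hq).fderiv) hp' (Metric.mem_ball_self hr)
  rw [hp.2.1, ← h6, tsl]
  exact congrArg _ (by ext <;> simp)

theorem overlap (hJ : ACS om J) (hY : SP Y) (hu : ContDiff ℝ ∞ u) (hu' : ContDiff ℝ ∞ u')
    (e : ∀ p, cr J (sta Y) u p = 0) (e' : ∀ p, cr J (sta Y) u' p = 0) {O : Set Pl} (hO : IsOpen O)
    (hne : O.Nonempty) (hd : ∀ p ∈ O, ds u p ≠ 0) {A : Set (Pl × ℝ)} (hA : IsClosed A) {S : ℝ}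
    (h : ∀ p ∈ O, ∃ s ∈ Icc (-S) S, (p, s) ∈ A ∧ u p = u' (s, p.2)) :
    ∃ p ∈ O, ∃ s, (p, s) ∈ A ∧ u = tsl (s - p.1, 0) u' := by
  obtain ⟨p₁, hp₁⟩ := hne
  obtain ⟨l, hl⟩ := SeparatingDual.exists_ne_zero (R := ℝ) (hd p₁ hp₁)
  have hf : ContDiff ℝ ∞ fun p => l (u p) := l.contDiff.comp hu
  have hf' : ContDiff ℝ ∞ fun p => l (u' p) := l.contDiff.comp hu'
  have d1 : ∀ p, ds (fun p => l (u p)) p = l (ds u p) := fun p =>
    congrFun (fd_clm_JetC l hu _) p
  have d2 : ∀ p, ds (fun p => l (u' p)) p = l (ds u' p) := fun p =>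
    congrFun (fd_clm_JetC l hu' _) p
  have hU : IsOpen (O ∩ {p | ds (fun p => l (u p)) p ≠ 0}) :=
    hO.inter (isOpen_ne_fun (contDiff_ds hf).continuous continuous_const)
  have hC : IsClosed {q | ds (fun p => l (u' p)) q = 0} :=
    isClosed_eq (contDiff_ds hf').continuous continuous_const
  choose! Φ D hD hD' hΦ using fun (q : Pl) (hq : ds (fun p => l (u' p)) q ≠ 0) => locinv_RegP1 hf' hq
  obtain ⟨t, ht, htc, hcov⟩ := TopologicalSpace.countable_cover_nhdsWithin (f := D)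
    (s := {q | ds (fun p => l (u' p)) q ≠ 0}) fun q hq => mem_nhdsWithin_of_mem_nhds (hD' q hq)
  have := htc.to_subtype
  let W : Set Pl → Set Pl := fun D =>
    {p : Pl | ∃ s ∈ Icc (-S) S, (p, s) ∈ A ∧ u p = u' (s, p.2) ∧ (s, p.2) ∈ D}
  let Z : Option t → Set Pl := fun o => o.elim
    ((O ∩ {p | ds (fun p => l (u p)) p ≠ 0})ᶜ ∪ W {q | ds (fun p => l (u' p)) q = 0})
    fun q => W (D q)
  have hZ : ∀ o, IsClosed (Z o) := by
    rintro (_ | q)
    · exact hU.isClosed_compl.union (wit_RegP1 hu.continuous hu'.continuous hA S hC)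
    · exact wit_RegP1 hu.continuous hu'.continuous hA S (hD q (ht q.2))
  have hZ' : ⋃ o, Z o = univ := by
    refine eq_univ_of_forall fun p => mem_iUnion.2 ?_
    by_cases hp : p ∈ O
    · obtain ⟨s, hs, a1, a2⟩ := h p hp
      by_cases hq : ds (fun p => l (u' p)) (s, p.2) = 0
      · exact ⟨none, Or.inr ⟨s, hs, a1, a2, hq⟩⟩
      · obtain ⟨q, hq', a3⟩ := mem_iUnion₂.1 (hcov hq)
        exact ⟨some ⟨q, hq'⟩, s, hs, a1, a2, a3⟩
    · exact ⟨none, Or.inl fun h => hp h.1⟩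
  obtain ⟨p, hp, hp'⟩ := (dense_iUnion_interior_of_closed hZ hZ').inter_open_nonempty _ hU
    ⟨p₁, hp₁, fun h => hl ((d1 p₁).symm.trans h)⟩
  obtain ⟨o, ho⟩ := mem_iUnion.1 hp'
  have ho' := mem_interior_iff_mem_nhds.1 ho
  rcases o with _ | q
  · refine (crit_RegP1 hf hf' hp.2 ?_).elim
    filter_upwards [ho', hU.mem_nhds hp] with p' a1 a2
    obtain ⟨s, -, -, a3, a4⟩ := a1.resolve_left (not_not.2 a2)
    exact ⟨s, congrArg l a3, a4⟩
  · have k : ∀ p' ∈ W (D q), (p', Φ q (l (u p'), p'.2)) ∈ A ∧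
        DifferentiableAt ℝ (fun p => Φ q (l (u p), p.2)) p' ∧
        u p' = u' (Φ q (l (u p'), p'.2), p'.2) ∧ ds u' (Φ q (l (u p'), p'.2), p'.2) ≠ 0 := by
      rintro p' ⟨s, -, a1, a2, a3⟩
      obtain ⟨b1, b2, b3⟩ := hΦ q (ht q.2) _ a3
      simp only [← a2] at b2 b3
      rw [b2]
      refine ⟨a1, b3.comp p' ((hf.differentiable (by simp) p').prodMk differentiableAt_snd), a2,
        fun h => b1 ?_⟩
      rw [d2, h, map_zero]
    refine ⟨p, hp.1, Φ q (l (u p), p.2), (k p (mem_of_mem_nhds ho')).1, ?_⟩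
    exact uc_sol hJ hY hu (contDiff_tsl hu' _) e (cr_sta_tsl e' _)
      (rigid hJ hu hu' e e' (σ := fun p => Φ q (l (u p), p.2)) (p₀ := p)
        (mem_of_superset ho' fun p' hp' => (k p' hp').2))

end

end Pool.Agent.P.MP_de3acd_gt.FH
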