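import Pool.Agent.P.MP_de3acd_gt.FH.ParC
import Pool.Agent.P.MP_de3acd_gt.FH.Frm

/-! Stabilisation, permutation and negation of frames.
Sketch: stb_self, stb_stb: Op.mk.injEq, funext, split_ifs, omega. exists_hil_stb: subst; (Fin (a + k) → ℝ) ≃L (Fin a → ℝ) × (Fin k → ℝ) by Fin.append / Fin.appendEquiv or sumPiEquivProdPi with finSumFinEquiv;
frm_apply, Fin.sum_univ_add, toW of 0 is 0 (rep_zero, Rep.toW_eq), prW_zero. par_stb: par_prod, par_conj. par_prm: par_fin with g μ = μ ∘ σ.symm, k ν = ν ∘ τ (Equiv.sum_comp; the determinant of a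
permutation of coordinates is the sign: LinearMap.det_toLin', Matrix.det_permutation, or Matrix.det_permute'), sgn_units. par_ngt: k = the reflection in the coordinate i (a diagonal matrix), prW_smul. -/

open Set Filter Topology MeasureTheory
open scoped ContDiff NNReal ENNReal RealInnerProductSpace

namespace Pool.Agent.P.MP_de3acd_gt.FH

noncomputable section

variable {V : Type} [NormedAddCommGroup V] [InnerProductSpace ℝ V] [Sym V]
variable {a b a' b' m n : ℕ}

/-- Splitting of coordinates. -/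
def spl_RhA (a k : ℕ) : (Fin (a + k) → ℝ) ≃L[ℝ] (Fin a → ℝ) × (Fin k → ℝ) :=
  LinearEquiv.toContinuousLinearEquiv
    { toFun := fun μ => (fun i => μ (Fin.castAdd k i), fun i => μ (Fin.natAdd a i))
      invFun := fun p => Fin.append p.1 p.2
      map_add' := fun _ _ => rfl
      map_smul' := fun _ _ => rfl
      left_inv := fun μ => Fin.append_castAdd_natAdd
      right_inv := fun p => Prod.ext (funext fun i => Fin.append_left _ _ i)
        (funext fun i => Fin.append_right _ _ i) }

/-- Permutation of coordinates. -/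
def pm_RhA (τ : Equiv.Perm (Fin n)) : (Fin n → ℝ) →L[ℝ] (Fin n → ℝ) :=
  ContinuousLinearMap.pi fun i => ContinuousLinearMap.proj (τ i)

theorem det_pm_RhA (τ : Equiv.Perm (Fin n)) :
    (pm_RhA τ).det = ((Equiv.Perm.sign τ : ℤ) : ℝ) := by
  have e : (pm_RhA τ : (Fin n → ℝ) →ₗ[ℝ] (Fin n → ℝ)) = Matrix.toLin' (τ.permMatrix ℝ) :=
    LinearMap.ext fun v => by
      rw [Matrix.toLin'_apply, Matrix.permMatrix_mulVec]
      rfl
  rw [ContinuousLinearMap.det, e, LinearMap.det_toLin', Matrix.det_permutation]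

/-- Reflection in one coordinate. -/
def rf_RhA (i : Fin n) : (Fin n → ℝ) →L[ℝ] (Fin n → ℝ) :=
  LinearMap.toContinuousLinearMap
    (Matrix.toLin' (Matrix.diagonal fun j => if j = i then (-1 : ℝ) else 1))

theorem rf_apply_RhA (i j : Fin n) (v : Fin n → ℝ) :
    rf_RhA i v j = (if j = i then (-1 : ℝ) else 1) * v j :=
  Matrix.mulVec_diagonal (fun j => if j = i then (-1 : ℝ) else 1) v j

theorem det_rf_RhA (i : Fin n) : (rf_RhA i).det = -1 := by
  have e : (rf_RhA i : (Fin n → ℝ) →ₗ[ℝ] (Fin n → ℝ)) =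
      Matrix.toLin' (Matrix.diagonal fun j => if j = i then (-1 : ℝ) else 1) := rfl
  rw [ContinuousLinearMap.det, e, LinearMap.det_toLin', Matrix.det_diagonal,
    Finset.prod_ite_eq', if_pos (Finset.mem_univ i)]

theorem stb_self {F : Type} [NormedAddCommGroup F] [NormedSpace ℝ F] (T : Op F a b) :
    stb a b T = T := by
  cases T
  simp only [stb, Op.mk.injEq, true_and]
  exact ⟨funext fun i => dif_pos i.2, funext fun i => dif_pos i.2,
    funext fun i => funext fun i' => dif_pos ⟨i.2, i'.2⟩⟩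

theorem stb_stb {F : Type} [NormedAddCommGroup F] [NormedSpace ℝ F] (T : Op F a b) (h : a ≤ m)
    (e : m + b = n + a) (m' n' : ℕ) : stb m' n' (stb m n T) = stb m' n' T := by
  simp only [stb, Op.mk.injEq, true_and]
  refine ⟨funext fun i => ?_, funext fun i => ?_, funext fun i => funext fun i' => ?_⟩
  · split_ifs <;> first | rfl | omega
  · split_ifs <;> first | rfl | omega
  · split_ifs <;> first | rfl | omega

variable {T T' : Op V a b}

theorem CT.stb (h : CT T) (m n : ℕ) : CT (stb m n T) := by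
  refine ⟨h.1, fun i => ?_, fun i => ?_⟩
  · show (if h : i.1 < a then T.K ⟨i, h⟩ else 0) ∈ Dsub V
    split_ifs
    · exact h.2.1 _
    · exact (Dsub V).zero_mem
  · show (if h : i.1 < b then T.l ⟨i, h⟩ else 0) ∈ Dsub V
    split_ifs
    · exact h.2.2 _
    · exact (Dsub V).zero_mem

theorem NA.stb (h : NA T) (m n : ℕ) : NA (stb m n T) := ⟨h.1, h.2.stb m n⟩

theorem exists_hil_stb {k : ℕ} (hm : m = a + k) (hn : n = b + k) :
    ∃ (e : (W 2 V × (Fin m → ℝ)) ≃L[ℝ] (W 2 V × (Fin a → ℝ)) × (Fin k → ℝ))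
      (e' : ((W 1 V × (Fin b → ℝ)) × (Fin k → ℝ)) ≃L[ℝ] W 1 V × (Fin n → ℝ)),
      ∀ (T : Op V a b) (z : W 2 V × (Fin m → ℝ)), hil (stb m n T) z =
        e' (((hil T).prodMap (ContinuousLinearMap.id ℝ (Fin k → ℝ))) (e z)) := by
  subst hm hn
  refine ⟨((ContinuousLinearEquiv.refl ℝ (W 2 V)).prodCongr (spl_RhA a k)).trans
      (ContinuousLinearEquiv.prodAssoc ℝ _ _ _).symm,
    (ContinuousLinearEquiv.prodAssoc ℝ _ _ _).trans
      ((ContinuousLinearEquiv.refl ℝ (W 1 V)).prodCongr (spl_RhA b k).symm), fun T z => ?_⟩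
  have K1 : ∀ i, (stb (a + k) (b + k) T).K (Fin.castAdd k i) = T.K i := fun i => dif_pos i.2
  have K2 : ∀ i, (stb (a + k) (b + k) T).K (Fin.natAdd a i) = 0 := fun i =>
    dif_neg (Nat.not_lt.2 (Nat.le_add_right a i))
  have l1 : ∀ i, (stb (a + k) (b + k) T).l (Fin.castAdd k i) = T.l i := fun i => dif_pos i.2
  have l2 : ∀ i, (stb (a + k) (b + k) T).l (Fin.natAdd b i) = 0 := fun i =>
    dif_neg (Nat.not_lt.2 (Nat.le_add_right b i))
  have M1 : ∀ i i', (stb (a + k) (b + k) T).M (Fin.castAdd k i) (Fin.castAdd k i') = T.M i i' :=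
    fun i i' => dif_pos ⟨i.2, i'.2⟩
  have M2 : ∀ i i', (stb (a + k) (b + k) T).M (Fin.castAdd k i) (Fin.natAdd a i') = 0 :=
    fun i i' => (dif_neg fun h => Nat.not_lt.2 (Nat.le_add_right a i') h.2).trans (if_neg (by
      have := i.2
      simp only [Fin.val_castAdd, Fin.val_natAdd]
      omega))
  have M3 : ∀ i i', (stb (a + k) (b + k) T).M (Fin.natAdd b i) (Fin.castAdd k i') = 0 :=
    fun i i' => (dif_neg fun h => Nat.not_lt.2 (Nat.le_add_right b i) h.1).trans (if_neg (by
      have := i'.2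
      simp only [Fin.val_castAdd, Fin.val_natAdd]
      omega))
  have M4 : ∀ i i', (stb (a + k) (b + k) T).M (Fin.natAdd b i) (Fin.natAdd a i') =
      if i = i' then 1 else 0 :=
    fun i i' => (dif_neg fun h => Nat.not_lt.2 (Nat.le_add_right b i) h.1).trans (if_congr (by
      simp only [Fin.val_natAdd, Fin.ext_iff]
      omega) rfl rfl)
  have t0 : toW 1 (0 : Pl → V) = 0 := (rep_zero 1).toW_eq
  show frm (Dop 1 1 T.j T.S) _ _ _ z = ((hil T (z.1, fun i => z.2 (Fin.castAdd k i))).1,
    Fin.append (hil T (z.1, fun i => z.2 (Fin.castAdd k i))).2 fun i => z.2 (Fin.natAdd a i))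
  rw [hil, frm_apply, frm_apply]
  refine Prod.ext ?_ (funext fun i => ?_)
  · simp only [Fin.sum_univ_add, K1, K2, t0, smul_zero, Finset.sum_const_zero, add_zero]
  · refine Fin.addCases (fun i => ?_) (fun i => ?_) i
    · simp only [Fin.append_left, Fin.sum_univ_add, l1, M1, M2, zero_mul, Finset.sum_const_zero,
        add_zero]
    · simp only [Fin.append_right, Fin.sum_univ_add, l2, M3, M4, zero_mul, Finset.sum_const_zero,
        prW_zero, ContinuousLinearMap.zero_apply, zero_add, ite_mul, one_mul, Finset.sum_ite_eq,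
        Finset.mem_univ, if_true]

theorem bij_stb (h : a ≤ m) (e : m + b = n + a) :
    Function.Bijective (hil (stb m n T)) ↔ Function.Bijective (hil T) := by
  obtain ⟨k, hk⟩ := Nat.exists_eq_add_of_le h
  obtain ⟨e₁, e₂, he⟩ := exists_hil_stb (V := V) (a := a) (b := b) (m := m) (n := n) hk (by omega)
  have : ⇑(hil (stb m n T)) = e₂ ∘ Prod.map (hil T) id ∘ e₁ := funext fun z => he T z
  rw [this, Function.Bijective.of_comp_iff' e₂.bijective, Function.Bijective.of_comp_iff _ e₁.bijective,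
    Prod.map_bijective]
  exact and_iff_left Function.bijective_id

theorem NOk.stb (hT : NOk T) (h : a ≤ m) (e : m + b = n + a) : NOk (stb m n T) :=
  ⟨hT.1.stb m n, (bij_stb h e).2 hT.2⟩

theorem par_stb (hT : Rl (hil T) (hil T')) (h : a ≤ m) (e : m + b = n + a) :
    Rl (hil (stb m n T)) (hil (stb m n T')) ∧
      par (hil (stb m n T)) (hil (stb m n T')) = par (hil T) (hil T') := by
  obtain ⟨k, hk⟩ := Nat.exists_eq_add_of_le h
  obtain ⟨e₁, e₂, he⟩ := exists_hil_stb (V := V) (a := a) (b := b) (m := m) (n := n) hk (by omega)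
  obtain ⟨h1, h2⟩ := par_prod (A := Fin k → ℝ) hT
  obtain ⟨h3, h4⟩ := par_conj h1 e₁ e₂ (he T) (he T')
  exact ⟨h3, h4.trans h2⟩

theorem par_prm (h : Function.Bijective (hil T)) (σ : Equiv.Perm (Fin a)) (τ : Equiv.Perm (Fin b)) :
    Rl (hil T) (hil (prm σ τ T)) ∧
      par (hil T) (hil (prm σ τ T)) = Equiv.Perm.sign σ * Equiv.Perm.sign τ := by
  have := par_fin (T' := hil (prm σ τ T)) h (g := pm_RhA σ.symm) (k := pm_RhA τ)
    (by rw [det_pm_RhA]; exact Int.cast_ne_zero.2 (Units.ne_zero _))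
    (by rw [det_pm_RhA]; exact Int.cast_ne_zero.2 (Units.ne_zero _)) fun x μ => by
      show frm (Dop 1 1 T.j T.S) (fun i => T.K (σ i)) (fun i => T.l (τ i))
        (fun i i' => T.M (τ i) (σ i')) (x, μ) =
          ((hil T (x, fun i => μ (σ.symm i))).1, fun i => (hil T (x, fun i => μ (σ.symm i))).2 (τ i))
      rw [hil, frm_apply, frm_apply]
      refine Prod.ext ?_ (funext fun i => ?_)
      · simp only [← Equiv.sum_comp σ (fun i => μ (σ.symm i) • toW 1 (T.K i)),
          Equiv.symm_apply_apply]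
      · simp only [← Equiv.sum_comp σ (fun i' => T.M (τ i) i' * μ (σ.symm i')),
          Equiv.symm_apply_apply]
  rwa [det_pm_RhA, det_pm_RhA, sgn_units, sgn_units, Equiv.Perm.sign_symm] at this

theorem par_ngt (h : Function.Bijective (hil T)) (hl : TF T.l) (i : Fin b) :
    Rl (hil T) (hil (ngt i T)) ∧ par (hil T) (hil (ngt i T)) = -1 := by
  have d1 : (1 : (Fin a → ℝ) →L[ℝ] (Fin a → ℝ)).det = 1 := map_one LinearMap.det
  have := par_fin (T' := hil (ngt i T)) h (g := 1) (k := rf_RhA i)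
    (by rw [d1]; exact one_ne_zero) (by rw [det_rf_RhA]; norm_num) fun x μ => by
      show frm (Dop 1 1 T.j T.S) T.K (Function.update T.l i (-T.l i))
        (Function.update T.M i (-T.M i)) (x, μ) = ((hil T (x, μ)).1, rf_RhA i (hil T (x, μ)).2)
      rw [hil, frm_apply, frm_apply]
      refine Prod.ext rfl (funext fun j => ?_)
      simp only [rf_apply_RhA]
      by_cases hj : j = i
      · subst hj
        rw [Function.update_self, Function.update_self, if_pos rfl, ← neg_one_smul ℝ (T.l j),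
          prW_smul _ (hl j)]
        simp only [Pi.neg_apply, neg_mul, Finset.sum_neg_distrib, ContinuousLinearMap.smul_apply,
          smul_eq_mul]
        ring
      · rw [Function.update_of_ne hj, Function.update_of_ne hj, if_neg hj, one_mul]
  rw [d1, det_rf_RhA] at this
  refine ⟨this.1, this.2.trans ?_⟩
  simp [sgn]

theorem CT.ngt (h : CT T) (i : Fin b) : CT (ngt i T) := by
  refine ⟨h.1, h.2.1, fun j => ?_⟩
  show Function.update T.l i (-T.l i) j ∈ Dsub V
  by_cases hj : j = i
  · subst hj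
    rw [Function.update_self]
    exact (Dsub V).neg_mem (h.2.2 j)
  · rw [Function.update_of_ne hj]
    exact h.2.2 j

end

end Pool.Agent.P.MP_de3acd_gt.FH
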