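import Pool.Agent.P.MP_de3acd_gt.FH.RhA
import Pool.Agent.P.MP_de3acd_gt.FH.RhB

/-! The relative sign of two normalised operators.
Sketch: rho_eq: compare the sizes (m, n) and (a + a', b + a') with a common larger size through stb_stb and par_stb; NOk.idx. (stb m n T).S = T.S by rfl. rho_const: rho (T z) Q = par (hil (T z₀)) (hil (T z)) * rho (T z₀) Q, par_const. -/

open Set Filter Topology MeasureTheory
open scoped ContDiff NNReal ENNReal RealInnerProductSpace

namespace Pool.Agent.P.MP_de3acd_gt.FH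

noncomputable section

variable {V : Type} [NormedAddCommGroup V] [InnerProductSpace ℝ V] [Sym V]
variable {a b a' b' m n : ℕ}

variable {a'' b'' : ℕ} {T : Op V a b} {T' : Op V a' b'} {T'' : Op V a'' b''} {α β : ℝ → V →L[ℝ] V}

theorem par_up_RhC (h : NOk T) (h' : NOk T') (e : Sim T.S T'.S) (hm : a ≤ m) (hm' : a' ≤ m)
    (hn : m + b = n + a) {M N : ℕ} (hM : m ≤ M) (hN : M + n = N + m) :
    Rl (hil (stb m n T)) (hil (stb m n T')) ∧ par (hil (stb M N T)) (hil (stb M N T')) =
      par (hil (stb m n T)) (hil (stb m n T')) := by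
  have hi := h.idx h' e
  have hn' : m + b' = n + a' := by omega
  have h1 := (h.stb hm hn).rl (h'.stb hm' hn') e
  have h2 := (par_stb h1 hM hN).2
  rw [stb_stb T hm hn, stb_stb T' hm' hn'] at h2
  exact ⟨h1, h2⟩

theorem rho_eq (h : NOk T) (h' : NOk T') (e : Sim T.S T'.S) (hm : a ≤ m) (hm' : a' ≤ m)
    (hn : m + b = n + a) : Rl (hil (stb m n T)) (hil (stb m n T')) ∧
      rho T T' = par (hil (stb m n T)) (hil (stb m n T')) := by
  obtain ⟨h1, h2⟩ := par_up_RhC h h' e hm hm' hn (M := m + (a + a')) (N := n + (a + a'))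
    (by omega) (by omega)
  exact ⟨h1, (par_up_RhC h h' e (m := a + a') (n := b + a') (by omega) (by omega) (by omega)
    (by omega) (by omega)).2.symm.trans h2⟩

theorem rho_same {T' : Op V a b} (h : NOk T) (h' : NOk T') (e : Sim T.S T'.S) :
    rho T T' = par (hil T) (hil T') := by
  rw [(rho_eq h h' e le_rfl le_rfl (add_comm a b)).2, stb_self, stb_self]

theorem NG.stb (h : NG α β T) (hm : a ≤ m) (e : m + b = n + a) : NG α β (stb m n T) :=
  ⟨h.ok.stb hm e, h.left, h.right, h.sim⟩

theorem rho_self (h : NOk T) : rho T T = 1 :=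
  (rho_same h h (Sim.refl _)).trans (par_self h.2)

theorem rho_trans (h : NG α β T) (h' : NG α β T') (h'' : NG α β T'') :
    rho T T'' = rho T T' * rho T' T'' := by
  have hi := h.ok.idx h'.ok (h.sim' h')
  obtain ⟨h1, h2⟩ := rho_eq h.ok h'.ok (h.sim' h') (m := a + a' + a'') (n := b + a' + a'')
    (by omega) (by omega) (by omega)
  obtain ⟨h3, h4⟩ := rho_eq h'.ok h''.ok (h'.sim' h'') (m := a + a' + a'') (n := b + a' + a'')
    (by omega) (by omega) (by omega)
  rw [h2, h4, ← par_trans h1 h3]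
  exact (rho_eq h.ok h''.ok (h.sim' h'') (by omega) (by omega) (by omega)).2

theorem rho_congr (ea : a = a') (eb : b = b') (e : ∀ m n, stb m n T = stb m n T') :
    rho T T'' = rho T' T'' := by
  subst ea eb
  rw [rho, rho, e]

theorem NG.congr (h : NG α β T) (ea : a = a') (eb : b = b') (e : ∀ m n, FH.stb m n T = FH.stb m n T') :
    NG α β T' := by
  subst ea eb
  have h1 := e a b
  rw [stb_self, stb_self] at h1
  exact h1 ▸ h

theorem rho_const {Z : Type} [TopologicalSpace Z] {s : Set Z} (hs : IsPreconnected s)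
    {T : Z → Op V a b} (hT : ContinuousOn (fun z => hil (T z)) s) (h : ∀ z ∈ s, NG α β (T z))
    (h' : NG α β T') {z z' : Z} (hz : z ∈ s) (hz' : z' ∈ s) : rho (T z) T' = rho (T z') T' := by
  have h1 := par_const hs hT (fun w hw => (h z hz).ok.rl (h w hw).ok ((h z hz).sim' (h w hw)))
    hz' hz
  rw [rho_trans (h z hz) (h z' hz') h', rho_same (h z hz).ok (h z' hz').ok
    ((h z hz).sim' (h z' hz')), h1, par_self (h z hz).ok.2, one_mul]

end

end Pool.Agent.P.MP_de3acd_gt.FH
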