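import Pool.Agent.P.MP_de3acd_gt.FH.RhE
import Pool.Agent.P.MP_de3acd_gt.FH.ParC

/-! The parity of glued operators.
Sketch: par_glue with l = far. Left: π q (ξ, μ) = (trW 2 (-q.1, 0) ξ, μ ∘ Fin.castAdd), ι q (η, ν) = (trW 1 (q.1, 0) η, Fin.append ν 0), j q (ξ, μ) = (trW 2 (q.1, 0) ξ, Fin.append μ 0), D = {(co 2 φ, μ)}.
The difference of the zero order terms is tsl (q.1, 0) (T₁'.S - T₁.S): trW_Dop, Dop_sub_DopA, trW_mul, toW_tsl, prW_tsl, frm_apply, Fin.sum_univ_add. On a translated test function the glued operator acts as the translate of T₁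
when q.1 + q.2 is large (Dop_co, trW_co; the supports of tsl (q.1, 0) φ and tsl (-q.2, 0) (T₂.l i) are disjoint, Rep.prW). Right: symmetric, with Fin.natAdd and trW (-q.2, 0). -/

open Set Filter Topology MeasureTheory
open scoped ContDiff NNReal ENNReal RealInnerProductSpace

namespace Pool.Agent.P.MP_de3acd_gt.FH

noncomputable section

variable {V : Type} [NormedAddCommGroup V] [InnerProductSpace ℝ V] [Sym V]
variable {a b a' b' m n : ℕ}

variable {β : ℝ → V →L[ℝ] V}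

theorem back_RhF (k : ℕ) (σ : Pl) (ξ : W k V) : trW k σ (trW k (-σ) ξ) = ξ := by
  rw [← trW_add, add_neg_cancel, trW_zero]

theorem back'_RhF (k : ℕ) (σ : Pl) (ξ : W k V) : trW k (-σ) (trW k σ ξ) = ξ := by
  rw [← trW_add, neg_add_cancel, trW_zero]

theorem prw_RhF {l : Pl → V} (hl : l ∈ Dsub V) (σ : Pl) (ξ : W 2 V) :
    prW (tsl σ l) ξ = prW l (trW 2 (-σ) ξ) := by
  rw [← prW_tsl hl σ (trW 2 (-σ) ξ), back_RhF]

theorem diff_RhF {S S' R R' : Pl → V →L[ℝ] V} (h : Coef 1 j0 S) (h' : Coef 1 j0 S')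
    (g : Coef 1 j0 R) (g' : Coef 1 j0 R') (σ : Pl)
    (e : ∀ p, R' p - R p = S' (p + σ) - S (p + σ)) (ξ : W 2 V) :
    Dop 1 1 j0 R' ξ - Dop 1 1 j0 R ξ =
      trW 1 σ (Dop 1 1 j0 S' (trW 2 (-σ) ξ)) - trW 1 σ (Dop 1 1 j0 S (trW 2 (-σ) ξ)) := by
  rw [trW_Dop le_rfl h, trW_Dop le_rfl h', back_RhF, Dop_sub_DopA 1 g' g,
    Dop_sub_DopA 1 (h'.tsl σ) (h.tsl σ), show R' - R = tsl σ S' - tsl σ S from funext e]
  rfl

theorem act_RhF {S R : Pl → V →L[ℝ] V} (h : Coef 1 j0 S) (g : Coef 1 j0 R) (σ : Pl) (φ : Dsub V)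
    (e : ∀ p, φ.1 (p + σ) = 0 ∨ R p = S (p + σ)) :
    Dop 1 1 j0 R (trW 2 σ (co 2 φ)) = trW 1 σ (Dop 1 1 j0 S (co 2 φ)) := by
  rw [trW_Dop le_rfl h, trW_co, Dop_co le_rfl g, Dop_co le_rfl (h.tsl σ)]
  refine congrArg (co 1) (Subtype.ext (funext fun p => ?_))
  rcases e p with e | e
  · simp only [dop, tsl, e, map_zero]
    rfl
  · simp only [dop, tsl, e]
    rfl

theorem van_RhF {l : Pl → V} (hl : l ∈ Dsub V) (σ : Pl) (φ : Dsub V)
    (e : ∀ p, φ.1 (p + σ) = 0 ∨ l p = 0) : prW l (trW 2 σ (co 2 φ)) = 0 := by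
  rw [trW_co, (rep_co 2 _).prW hl, pair]
  refine (congrArg (fun f : Pl → ℝ => ∫ p in St, f p) (funext fun p => ?_)).trans
    (integral_zero _ _)
  rcases e p with e | e <;> simp [Ω0, tsl, e]

theorem hil_RhF {T : Op V a b} (h : NA T) (z : W 2 V × (Fin a → ℝ)) : hil T z =
    (Dop 1 1 j0 T.S z.1 + ∑ i, z.2 i • toW 1 (T.K i),
      fun i => prW (T.l i) z.1 + ∑ i', T.M i i' * z.2 i') := by
  rw [hil, frm_apply, h.1]

theorem hil_ag_RhF {T : Op V a b} {T' : Op V a' b'} (h : CT T) (h' : CT T') (r s : ℝ)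
    (z : W 2 V × (Fin (a + a') → ℝ)) : hil (ag r s β T T') z =
    (Dop 1 1 j0 (ag r s β T T').S z.1 +
        (trW 1 (r, 0) (∑ i, z.2 (Fin.castAdd a' i) • toW 1 (T.K i)) +
          trW 1 (-s, 0) (∑ i, z.2 (Fin.natAdd a i) • toW 1 (T'.K i))),
      Fin.append
        (fun i => prW (T.l i) (trW 2 (-(r, 0)) z.1) + ∑ i', T.M i i' * z.2 (Fin.castAdd a' i'))
        fun i => prW (T'.l i) (trW 2 (-(-s, 0)) z.1) + ∑ i', T'.M i i' * z.2 (Fin.natAdd a i')) := by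
  rw [hil, frm_apply]
  refine Prod.ext ?_ (funext fun i => ?_)
  · simp only [ag, Fin.sum_univ_add, Fin.append_left, Fin.append_right, map_sum, map_smul,
      toW_tsl 1 (h.2.1 _), toW_tsl 1 (h'.2.1 _)]
  · refine Fin.addCases (fun i => ?_) (fun i => ?_) i
    · simp only [ag, Fin.sum_univ_add, Fin.append_left, Fin.append_right, Pi.zero_apply, zero_mul,
        Finset.sum_const_zero, add_zero, prw_RhF (h.2.2 _)]
    · simp only [ag, Fin.sum_univ_add, Fin.append_left, Fin.append_right, Pi.zero_apply, zero_mul,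
        Finset.sum_const_zero, zero_add, prw_RhF (h'.2.2 _)]

theorem norm_RhF (k : ℕ) (σ : Pl) (f : (Fin m → ℝ) →L[ℝ] (Fin n → ℝ)) {A : ℝ} (h1 : 1 ≤ A)
    (h : ‖f‖ ≤ A) : ‖(trW k σ : W k V →L[ℝ] W k V).prodMap f‖ ≤ A := by
  refine ContinuousLinearMap.opNorm_le_bound _ (zero_le_one.trans h1) fun z => ?_
  refine max_le ?_ ((f.le_opNorm z.2).trans ?_)
  · show ‖trW k σ z.1‖ ≤ _
    rw [norm_trW]
    exact (norm_fst_le z).trans (le_mul_of_one_le_left (norm_nonneg _) h1)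
  · exact mul_le_mul h (norm_snd_le z) (norm_nonneg _) (zero_le_one.trans h1)

theorem gen_RhF {N : Type} {l : Filter N} {T₀ T₁ : W 2 V × (Fin a → ℝ) →L[ℝ] W 1 V × (Fin b → ℝ)}
    (h : Rl T₀ T₁) {U₀ U₁ : N → W 2 V × (Fin m → ℝ) →L[ℝ] W 1 V × (Fin n → ℝ)} (σ : N → Pl)
    (f : Fin a → Fin m) (s : (Fin a → ℝ) → Fin m → ℝ) (hs : ∀ μ i, s μ (f i) = μ i)
    (g : (Fin b → ℝ) →ₗ[ℝ] Fin n → ℝ) (h₀ : ∃ c > 0, ∀ᶠ q in l, Bij (U₀ q) c)
    (h₁ : ∃ c > 0, ∀ᶠ q in l, Bij (U₁ q) c)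
    (e : ∀ q z, U₁ q z - U₀ q z = Prod.map (trW 1 (σ q)) g
      (T₁ (trW 2 (-σ q) z.1, fun i => z.2 (f i)) - T₀ (trW 2 (-σ q) z.1, fun i => z.2 (f i))))
    (e' : ∀ φ μ, ∀ᶠ q in l,
      U₀ q (trW 2 (σ q) (co 2 φ), s μ) = Prod.map (trW 1 (σ q)) g (T₀ (co 2 φ, μ))) :
    ∀ᶠ q in l, par (U₀ q) (U₁ q) = par T₀ T₁ := by
  obtain ⟨c₀, p₀, h₀⟩ := h₀
  obtain ⟨c₁, -, h₁⟩ := h₁
  obtain ⟨r, hr⟩ : ∃ r : (Fin m → ℝ) →L[ℝ] Fin a → ℝ, ∀ μ, r μ = fun i => μ (f i) :=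
    ⟨ContinuousLinearMap.pi fun i => ContinuousLinearMap.proj (f i), fun _ => rfl⟩
  refine par_glue h (ι := fun q => (trW 1 (σ q)).prodMap (LinearMap.toContinuousLinearMap g))
    (π := fun q => (trW 2 (-σ q)).prodMap r) (j := fun q z => (trW 2 (σ q) z.1, s z.2))
    (c := max c₀ c₁) (a := max 1 (max ‖LinearMap.toContinuousLinearMap g‖ ‖r‖))
    (p₀.le.trans (le_max_left _ _)) ?_ (D := range (co 2) ×ˢ univ)
    ((denseRange_co 2).prod dense_univ) ?_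
  · filter_upwards [h₀, h₁] with q h₀ h₁
    refine ⟨⟨h₀.1, fun x => (h₀.2 x).trans ?_⟩, ⟨h₁.1, fun x => (h₁.2 x).trans ?_⟩,
      ContinuousLinearMap.ext fun z => ?_,
      norm_RhF _ _ _ (le_max_left _ _) ((le_max_left _ _).trans (le_max_right _ _)),
      norm_RhF _ _ _ (le_max_left _ _) ((le_max_right _ _).trans (le_max_right _ _)), fun z => ?_⟩
    · exact mul_le_mul_of_nonneg_right (le_max_left _ _) (norm_nonneg _)
    · exact mul_le_mul_of_nonneg_right (le_max_right _ _) (norm_nonneg _)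
    · rw [ContinuousLinearMap.sub_apply, e, ← hr]
      rfl
    · refine Prod.ext (back'_RhF 2 _ _) ((hr _).trans (funext fun i => hs _ i))
  · rintro ⟨_, μ⟩ ⟨⟨φ, rfl⟩, -⟩
    exact e' φ μ

/-- Extension by zero on the right. -/
def exL_RhF (b b' : ℕ) : (Fin b → ℝ) →ₗ[ℝ] Fin (b + b') → ℝ where
  toFun ν := Fin.append ν 0
  map_add' _ _ := funext fun i => Fin.addCases (fun i => by simp) (fun i => by simp) i
  map_smul' _ _ := funext fun i => Fin.addCases (fun i => by simp) (fun i => by simp) i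

/-- Extension by zero on the left. -/
def exR_RhF (b b' : ℕ) : (Fin b' → ℝ) →ₗ[ℝ] Fin (b + b') → ℝ where
  toFun ν := Fin.append 0 ν
  map_add' _ _ := funext fun i => Fin.addCases (fun i => by simp) (fun i => by simp) i
  map_smul' _ _ := funext fun i => Fin.addCases (fun i => by simp) (fun i => by simp) i

theorem supp_RhF {K : Fin m → Pl → V} (h : TF K) : ∃ R, ∀ i, ∀ p : Pl, R ≤ |p.1| → K i p = 0 := by
  choose R hR using fun i => (h i).2.2
  obtain ⟨B, hB⟩ := (finite_range R).bddAbove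
  exact ⟨B, fun i p hp => hR i p ((hB ⟨i, rfl⟩).trans hp)⟩

theorem NA.coef_RhF {T : Op V a b} (h : NA T) : Coef 1 j0 T.S := h.1 ▸ h.2.1

theorem par_ag_left {T₁ T₁' : Op V a b} {T₂ : Op V a' b'} (h₁ : NOk T₁) (h₁' : NOk T₁') (h₂ : NOk T₂)
    (e : Sim T₁.S T₁'.S) (hβ : ContDiff ℝ ∞ β) (pβ : ∀ t, β (t + 1) = β t) (f₁ : FlR β T₁.S)
    (f₁' : FlR β T₁'.S) (f₂ : FlL β T₂.S) : ∀ᶠ q in far,
      par (hil (ag q.1 q.2 β T₁ T₂)) (hil (ag q.1 q.2 β T₁' T₂)) = par (hil T₁) (hil T₁') := by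
  refine gen_RhF (h₁.rl h₁' e) (fun q : ℝ × ℝ => (q.1, 0)) (Fin.castAdd a')
    (fun μ => Fin.append μ 0) (fun μ i => Fin.append_left _ _ _) (exL_RhF b b')
    (ag_bij h₁ h₂ hβ pβ f₁ f₂) (ag_bij h₁' h₂ hβ pβ f₁' f₂) (fun q z => ?_) fun φ μ => ?_
  · rw [hil_ag_RhF h₁.1.2 h₂.1.2, hil_ag_RhF h₁'.1.2 h₂.1.2, hil_RhF h₁.1, hil_RhF h₁'.1]
    refine Prod.ext ?_ (funext fun i => Fin.addCases (fun i => ?_) (fun i => ?_) i)
    · have := diff_RhF h₁.1.coef_RhF h₁'.1.coef_RhF (h₁.1.2.ag h₂.1.2 hβ pβ q.1 q.2).coef_RhF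
        (h₁'.1.2.ag h₂.1.2 hβ pβ q.1 q.2).coef_RhF (q.1, 0) (fun p => by
          rw [ag_S_RhE, ag_S_RhE, ← tsl_RhE q.1 T₁.S, ← tsl_RhE q.1 T₁'.S]
          simp only [tsl]
          abel) z.1
      simp only [Prod.fst_sub, Prod.map_fst, map_sub, map_add]
      rw [sub_eq_iff_eq_add] at this
      rw [this]
      abel
    · simp [exL_RhF]
    · simp [exL_RhF]
  · obtain ⟨R, hR⟩ := φ.2.2.2
    obtain ⟨R', hR'⟩ := f₂
    obtain ⟨R'', hR''⟩ := supp_RhF h₂.1.2.2.2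
    have ev : ∀ r : ℝ, ∀ᶠ q : ℝ × ℝ in far, r ≤ q.1 + q.2 := fun r =>
      (tendsto_comap (f := fun q : ℝ × ℝ => q.1 + q.2)).eventually_ge_atTop r
    filter_upwards [ev (R + R'), ev (R + R'')] with q q1 q2
    rw [hil_ag_RhF h₁.1.2 h₂.1.2, hil_RhF h₁.1]
    refine Prod.ext ?_ (funext fun i => Fin.addCases (fun i => ?_) (fun i => ?_) i)
    · have := act_RhF h₁.1.coef_RhF (h₁.1.2.ag h₂.1.2 hβ pβ q.1 q.2).coef_RhF (q.1, 0) φ fun p => by
        rcases le_total R (p.1 + q.1) with hp | hp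
        · exact .inl (hR _ (hp.trans (le_abs_self _)))
        · right
          rw [ag_S_RhE, hR' _ (by simp only; linarith), add_sub_cancel_right, ← tsl_RhE q.1 T₁.S]
          rfl
      simp [this]
    · simp only [exL_RhF, Fin.append_left, back'_RhF, Prod.map_snd, LinearMap.coe_mk,
        AddHom.coe_mk]
    · simp only [exL_RhF, Fin.append_right, Prod.map_snd, LinearMap.coe_mk, AddHom.coe_mk,
        Pi.zero_apply, mul_zero, Finset.sum_const_zero, add_zero, ← trW_add]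
      refine van_RhF (h₂.1.2.2.2 i) _ φ fun p => ?_
      rcases le_total R'' (-p.1) with hp | hp
      · exact .inr (hR'' i p (hp.trans (neg_le_abs _)))
      · refine .inl (hR _ (le_trans ?_ (le_abs_self _)))
        simp only [Prod.fst_add, Prod.fst_neg]
        linarith

theorem par_ag_right {T₁ : Op V a b} {T₂ T₂' : Op V a' b'} (h₁ : NOk T₁) (h₂ : NOk T₂) (h₂' : NOk T₂')
    (e : Sim T₂.S T₂'.S) (hβ : ContDiff ℝ ∞ β) (pβ : ∀ t, β (t + 1) = β t) (f₁ : FlR β T₁.S)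
    (f₂ : FlL β T₂.S) (f₂' : FlL β T₂'.S) : ∀ᶠ q in far,
      par (hil (ag q.1 q.2 β T₁ T₂)) (hil (ag q.1 q.2 β T₁ T₂')) = par (hil T₂) (hil T₂') := by
  refine gen_RhF (h₂.rl h₂' e) (fun q : ℝ × ℝ => (-q.2, 0)) (Fin.natAdd a)
    (fun μ => Fin.append 0 μ) (fun μ i => Fin.append_right _ _ _) (exR_RhF b b')
    (ag_bij h₁ h₂ hβ pβ f₁ f₂) (ag_bij h₁ h₂' hβ pβ f₁ f₂') (fun q z => ?_) fun φ μ => ?_
  · rw [hil_ag_RhF h₁.1.2 h₂.1.2, hil_ag_RhF h₁.1.2 h₂'.1.2, hil_RhF h₂.1, hil_RhF h₂'.1]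
    refine Prod.ext ?_ (funext fun i => Fin.addCases (fun i => ?_) (fun i => ?_) i)
    · have := diff_RhF h₂.1.coef_RhF h₂'.1.coef_RhF (h₁.1.2.ag h₂.1.2 hβ pβ q.1 q.2).coef_RhF
        (h₁.1.2.ag h₂'.1.2 hβ pβ q.1 q.2).coef_RhF (-q.2, 0) (fun p => by
          rw [ag_S_RhE, ag_S_RhE, sub_eq_add_neg p.1, ← tsl_RhE (-q.2) T₂.S,
            ← tsl_RhE (-q.2) T₂'.S]
          simp only [tsl]
          abel) z.1
      simp only [Prod.fst_sub, Prod.map_fst, map_sub, map_add]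
      rw [sub_eq_iff_eq_add] at this
      rw [this]
      abel
    · simp [exR_RhF]
    · simp [exR_RhF]
  · obtain ⟨R, hR⟩ := φ.2.2.2
    obtain ⟨R', hR'⟩ := f₁
    obtain ⟨R'', hR''⟩ := supp_RhF h₁.1.2.2.2
    have ev : ∀ r : ℝ, ∀ᶠ q : ℝ × ℝ in far, r ≤ q.1 + q.2 := fun r =>
      (tendsto_comap (f := fun q : ℝ × ℝ => q.1 + q.2)).eventually_ge_atTop r
    filter_upwards [ev (R + R'), ev (R + R'')] with q q1 q2
    rw [hil_ag_RhF h₁.1.2 h₂.1.2, hil_RhF h₂.1]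
    refine Prod.ext ?_ (funext fun i => Fin.addCases (fun i => ?_) (fun i => ?_) i)
    · have := act_RhF h₂.1.coef_RhF (h₁.1.2.ag h₂.1.2 hβ pβ q.1 q.2).coef_RhF (-q.2, 0) φ
        fun p => by
          rcases le_total R (-(p.1 + -q.2)) with hp | hp
          · exact .inl (hR _ (hp.trans (neg_le_abs _)))
          · right
            rw [ag_S_RhE, hR' _ (by simp only; linarith), add_sub_cancel_left, sub_eq_add_neg p.1,
              ← tsl_RhE (-q.2) T₂.S]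
            rfl
      simp [this]
    · simp only [exR_RhF, Fin.append_left, Prod.map_snd, LinearMap.coe_mk, AddHom.coe_mk,
        Pi.zero_apply, mul_zero, Finset.sum_const_zero, add_zero, ← trW_add]
      refine van_RhF (h₁.1.2.2.2 i) _ φ fun p => ?_
      rcases le_total R'' p.1 with hp | hp
      · exact .inr (hR'' i p (hp.trans (le_abs_self _)))
      · refine .inl (hR _ (le_trans ?_ (neg_le_abs _)))
        simp only [Prod.fst_add, Prod.fst_neg]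
        linarith
    · simp only [exR_RhF, Fin.append_right, back'_RhF, Prod.map_snd, LinearMap.coe_mk,
        AddHom.coe_mk]

end

end Pool.Agent.P.MP_de3acd_gt.FH
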