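import Pool.Agent.P.MP_de3acd_gt.FH.Defs7

/-! Stabilisation and gluing commute up to a permutation; gluing is associative.
Sketch: exists_swap: the permutation exchanges a block of length p with a block of length k; induction on k, moving one index at a time by a cycle of length p + 1
(Fin.cycleRange, Fin.sign_cycleRange, Fin.cycleIcc and Fin.sign_cycleIcc_of_le), or induction on both with swaps of neighbours. stb_ag: k = m - a = n - b, σ from exists_swap a a' k, τ from exists_swap b b' k; compare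
the entries through their values on ℕ (a formula for Fin.append f g i as if h : i < m then f ⟨i, h⟩ else g ⟨i - m, _⟩: Fin.append, Fin.addCases), split_ifs and omega. -/

open Set Filter Topology MeasureTheory
open scoped ContDiff NNReal ENNReal RealInnerProductSpace

namespace Pool.Agent.P.MP_de3acd_gt.FH

noncomputable section

variable {V : Type} [NormedAddCommGroup V] [InnerProductSpace ℝ V] [Sym V]
variable {a b a' b' m n : ℕ}

theorem cyc_RhP {N : ℕ} (u v i : Fin N) (h : u ≤ v) : (Fin.cycleIcc u v i : ℕ) =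
    if (u : ℕ) ≤ i ∧ (i : ℕ) < v then (i : ℕ) + 1 else if (i : ℕ) = v then (u : ℕ) else i := by
  have : NeZero N := ⟨by have := i.2; omega⟩
  have h' : (u : ℕ) ≤ v := h
  split_ifs with h1 h2
  · rw [Fin.cycleIcc_of_ge_of_lt h1.1 h1.2, Fin.val_add_one_of_lt' (by have := v.2; omega)]
  · rw [Fin.ext h2, Fin.cycleIcc_of_last h]
  · rcases lt_or_ge (i : ℕ) u with h3 | h3
    · rw [Fin.cycleIcc_of_lt h3]
    · rw [Fin.cycleIcc_of_gt (show (v : ℕ) < i by omega)]

theorem exists_swap (N a p k : ℕ) (h : a + p + k ≤ N) : ∃ σ : Equiv.Perm (Fin N),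
    Equiv.Perm.sign σ = (-1) ^ (k * p) ∧ ∀ i : Fin N, (σ i : ℕ) =
      if a ≤ i ∧ i < a + p then i + k else if a + p ≤ i ∧ i < a + p + k then i - p else i := by
  induction k with
  | zero =>
    refine ⟨1, by simp, fun i => ?_⟩
    rw [Equiv.Perm.one_apply]
    split_ifs <;> omega
  | succ k ih =>
    obtain ⟨σ, h1, h2⟩ := ih (by omega)
    have h3 : (⟨a + k, by omega⟩ : Fin N) ≤ ⟨a + k + p, by omega⟩ := Nat.le_add_right _ _
    refine ⟨Fin.cycleIcc ⟨a + k, by omega⟩ ⟨a + k + p, by omega⟩ * σ, ?_, fun i => ?_⟩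
    · rw [map_mul, h1, Fin.sign_cycleIcc_of_le h3, add_mul, one_mul, pow_add, mul_comm]
      simp
    · have h4 := h2 i
      rw [Equiv.Perm.mul_apply, cyc_RhP _ _ _ h3]
      simp only
      split_ifs at h4 ⊢ <;> omega

section

variable {α : Type} [Zero α] {a a' b b' m m' n : ℕ}

/-- Extension of a finite family by zero. -/
def xt_RhP (f : Fin a → α) (i : ℕ) : α := if h : i < a then f ⟨i, h⟩ else 0

theorem xt_ge_RhP (f : Fin a → α) {i : ℕ} (h : a ≤ i) : xt_RhP f i = 0 := dif_neg h.not_gt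

theorem xt_val_RhP (f : Fin a → α) (i : Fin a) : xt_RhP f i = f i := dif_pos i.2

theorem xt_fun_RhP (f : ℕ → α) (i : ℕ) :
    xt_RhP (fun j : Fin a => f j) i = if i < a then f i else 0 := by
  unfold xt_RhP
  split_ifs <;> rfl

theorem xt_app_RhP (f : Fin a → α) (g : Fin a' → α) (i : ℕ) :
    xt_RhP (Fin.append f g) i = if i < a then xt_RhP f i else xt_RhP g (i - a) := by
  unfold xt_RhP
  split_ifs with h1 h2 h3 h2 h3
  · exact Fin.append_left f g ⟨i, h2⟩
  · exact (congrArg _ (Fin.ext (by simp only [Fin.val_natAdd]; omega))).trans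
      (Fin.append_right f g ⟨i - a, h3⟩)
  all_goals first | omega | rfl

theorem xt_map_RhP {β : Type} [Zero β] (φ : α → β) (h : φ 0 = 0) (f : Fin a → α) (i : ℕ) :
    xt_RhP (fun j => φ (f j)) i = φ (xt_RhP f i) := by
  unfold xt_RhP
  split_ifs
  exacts [rfl, h.symm]

theorem blk_RhP (φ ψ : α → α) (h1 : φ 0 = 0) (h2 : ψ 0 = 0) (f : Fin a → α) (g : Fin a' → α)
    {k i : ℕ} (hk : a + k = m) (j : Fin (m + m')) (hj : (j : ℕ) =
      if a ≤ i ∧ i < a + a' then i + k else if a + a' ≤ i ∧ i < a + a' + k then i - a' else i) :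
    xt_RhP (Fin.append (fun i => φ (f i)) fun i => ψ (g i)) i =
      Fin.append (fun i : Fin m => φ (xt_RhP f i)) (fun i : Fin m' => ψ (xt_RhP g i)) j := by
  have := j.2
  rw [← xt_val_RhP (Fin.append _ _) j, xt_app_RhP, xt_app_RhP, xt_map_RhP φ h1, xt_map_RhP ψ h2,
    xt_fun_RhP fun i => φ (xt_RhP f i), xt_fun_RhP fun i => ψ (xt_RhP g i)]
  generalize (j : ℕ) = l at *
  split_ifs at hj ⊢ <;> first
    | omega
    | exact congrArg _ (congrArg _ (by omega))
    | rw [xt_ge_RhP f (by omega), xt_ge_RhP g (by omega), h1, h2]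
    | rw [xt_ge_RhP g (by omega), xt_ge_RhP g (by omega)]

/-- Extension of a matrix by zero. -/
def xm_RhP (M : Fin b → Fin a → ℝ) (i i' : ℕ) : ℝ := xt_RhP (xt_RhP M i) i'

theorem xm_val_RhP (M : Fin b → Fin a → ℝ) (i : Fin b) (i' : Fin a) : xm_RhP M i i' = M i i' := by
  rw [xm_RhP, xt_val_RhP, xt_val_RhP]

theorem xt_zero_RhP (i : ℕ) : xt_RhP (0 : Fin a → α) i = 0 := by
  unfold xt_RhP
  split_ifs <;> rfl

theorem xm_app_RhP (M : Fin b → Fin a → ℝ) (M' : Fin b' → Fin a' → ℝ) (i i' : ℕ) :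
    xm_RhP (Fin.append (fun i => Fin.append (M i) 0) fun i => Fin.append 0 (M' i)) i i' =
      if i < b then (if i' < a then xm_RhP M i i' else 0)
      else if i' < a then 0 else xm_RhP M' (i - b) (i' - a) := by
  have h0 : Fin.append (0 : Fin a → ℝ) (0 : Fin a' → ℝ) = 0 := funext fun j => by
    rw [← xt_val_RhP (Fin.append _ _) j, xt_app_RhP, xt_zero_RhP, xt_zero_RhP, ite_self]
    rfl
  rw [xm_RhP, xt_app_RhP, xt_map_RhP (fun x => Fin.append x (0 : Fin a' → ℝ)) h0,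
    xt_map_RhP (fun x => Fin.append (0 : Fin a → ℝ) x) h0]
  split_ifs with h1 h2 h2 <;> rw [xt_app_RhP] <;> simp only [h2, if_true, if_false, xt_zero_RhP] <;>
    rfl

theorem xm_stb_RhP (M : Fin b → Fin a → ℝ) (i i' : ℕ) :
    xm_RhP (fun (i : Fin n) (i' : Fin m) => if h : i.1 < b ∧ i'.1 < a then M ⟨i, h.1⟩ ⟨i', h.2⟩
      else if i.1 + a = i'.1 + b then 1 else 0) i i' = if i < n ∧ i' < m then
        (if i < b ∧ i' < a then xm_RhP M i i' else if i + a = i' + b then 1 else 0) else 0 := by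
  by_cases h1 : i < n
  · by_cases h2 : i' < m
    · rw [if_pos ⟨h1, h2⟩]
      refine (xm_val_RhP _ ⟨i, h1⟩ ⟨i', h2⟩).trans ?_
      split_ifs with h
      exacts [(xm_val_RhP M ⟨i, h.1⟩ ⟨i', h.2⟩).symm, rfl, rfl]
    · rw [if_neg fun h => h2 h.2, xm_RhP, xt_ge_RhP _ (not_lt.1 h2)]
  · rw [if_neg fun h => h1 h.1, xm_RhP, xt_ge_RhP _ (not_lt.1 h1), xt_zero_RhP]

theorem cas_RhP {a p k i j : ℕ} (hj : j = if a ≤ i ∧ i < a + p then i + k
      else if a + p ≤ i ∧ i < a + p + k then i - p else i) :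
    (i < a ∧ j = i) ∨ (a ≤ i ∧ i < a + p ∧ j = i + k) ∨ (a + p ≤ i ∧ i < a + p + k ∧ i = j + p) ∨
      (a + p + k ≤ i ∧ j = i) := by
  split_ifs at hj <;> omega

theorem mat_RhP {a b a' b' m' n' k i i' j j' : ℕ} (A A' : ℕ → ℕ → ℝ)
    (h' : a' ≤ m') (e' : m' + b' = n' + a') (hi : i < b + k + n') (hi' : i' < a + k + m')
    (hj : j = if b ≤ i ∧ i < b + b' then i + k
      else if b + b' ≤ i ∧ i < b + b' + k then i - b' else i)
    (hj' : j' = if a ≤ i' ∧ i' < a + a' then i' + k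
      else if a + a' ≤ i' ∧ i' < a + a' + k then i' - a' else i') :
    (if i < b + k + n' ∧ i' < a + k + m' then (if i < b + b' ∧ i' < a + a' then
      (if i < b then (if i' < a then A i i' else 0) else if i' < a then 0 else A' (i - b) (i' - a))
      else if i + (a + a') = i' + (b + b') then 1 else 0) else 0) =
    if j < b + k then (if j' < a + k then (if j < b + k ∧ j' < a + k then
        (if j < b ∧ j' < a then A j j' else if j + a = j' + b then 1 else 0) else 0) else 0)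
      else if j' < a + k then 0 else if j - (b + k) < n' ∧ j' - (a + k) < m' then
        (if j - (b + k) < b' ∧ j' - (a + k) < a' then A' (j - (b + k)) (j' - (a + k))
          else if j - (b + k) + a' = j' - (a + k) + b' then 1 else 0) else 0 := by
  have h1 := cas_RhP hj
  have h2 := cas_RhP hj'
  clear hj hj'
  rcases h1 with ⟨h1, rfl⟩ | ⟨h1, h3, rfl⟩ | ⟨h1, h3, rfl⟩ | ⟨h1, rfl⟩ <;>
    rcases h2 with ⟨h2, rfl⟩ | ⟨h2, h4, rfl⟩ | ⟨h2, h4, rfl⟩ | ⟨h2, rfl⟩ <;>
    simp (disch := omega) only [↓if_pos, ↓if_neg] <;>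
    first
    | exact if_congr (by omega) rfl rfl
    | exact congrArg₂ _ (by omega) (by omega)

theorem app_assoc_RhP {a'' : ℕ} (f : Fin a → α) (g : Fin a' → α) (h : Fin a'' → α) (i : ℕ) :
    xt_RhP (Fin.append (Fin.append f g) h) i = xt_RhP (Fin.append f (Fin.append g h)) i := by
  simp only [xt_app_RhP, Nat.sub_sub]
  split_ifs <;> first | omega | rfl

theorem tri_RhP (b b' i : ℕ) : i < b ∨ (b ≤ i ∧ i < b + b') ∨ b + b' ≤ i := by omega

theorem tsl_zero_RhP {β : Type} (f : Pl → β) : tsl (0, 0) f = f :=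
  funext fun p => congrArg f (add_zero p)

end

theorem stb_ag {m' n' : ℕ} (h : a ≤ m) (e : m + b = n + a) (h' : a' ≤ m') (e' : m' + b' = n' + a') :
    ∃ (σ : Equiv.Perm (Fin (m + m'))) (τ : Equiv.Perm (Fin (n + n'))),
      Equiv.Perm.sign σ * Equiv.Perm.sign τ = kap (m - a) a' b' ∧
        ∀ (ϱ₁ ϱ₂ : ℝ) (β : ℝ → V →L[ℝ] V) (T : Op V a b) (T' : Op V a' b'),
          stb (m + m') (n + n') (ag ϱ₁ ϱ₂ β T T') =
            prm σ τ (ag ϱ₁ ϱ₂ β (stb m n T) (stb m' n' T')) := by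
  obtain ⟨k, rfl⟩ := Nat.exists_eq_add_of_le h
  obtain rfl : n = b + k := by omega
  obtain ⟨σ, s1, s2⟩ := exists_swap (a + k + m') a a' k (by omega)
  obtain ⟨τ, t1, t2⟩ := exists_swap (b + k + n') b b' k (by omega)
  refine ⟨σ, τ, by rw [s1, t1, kap, Nat.add_sub_cancel_left, mul_add, pow_add],
    fun ϱ₁ ϱ₂ β T T' => ?_⟩
  simp only [stb, prm, ag, Op.mk.injEq, true_and]
  refine ⟨funext fun i => ?_, funext fun i => ?_, funext fun i => funext fun i' => ?_⟩
  · exact blk_RhP (tsl (ϱ₁, 0)) (tsl (-ϱ₂, 0)) rfl rfl T.K T'.K rfl (σ i) (s2 i)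
  · exact blk_RhP (tsl (ϱ₁, 0)) (tsl (-ϱ₂, 0)) rfl rfl T.l T'.l rfl (τ i) (t2 i)
  · refine (xm_val_RhP _ i i').symm.trans ((xm_stb_RhP _ _ _).trans
      (Eq.trans ?_ (xm_val_RhP _ (τ i) (σ i'))))
    rw [xm_app_RhP, xm_app_RhP, xm_stb_RhP, xm_stb_RhP]
    exact mat_RhP _ _ h' e' i.2 i'.2 (t2 i) (s2 i')

theorem stb_ag_assoc {a'' b'' : ℕ} (m n : ℕ) (p q : ℝ) (β δ : ℝ → V →L[ℝ] V) (T₁ : Op V a b)
    (T₂ : Op V a' b') (T₃ : Op V a'' b'') : stb m n (ag 0 q δ (ag p 0 β T₁ T₂) T₃) =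
      stb m n (ag p 0 β T₁ (ag 0 q δ T₂ T₃)) := by
  simp only [stb, ag, pre, Op.mk.injEq, true_and, neg_zero, tsl_zero_RhP]
  refine ⟨by abel, funext fun i => app_assoc_RhP _ _ _ i, funext fun i => app_assoc_RhP _ _ _ i,
    funext fun i => funext fun i' => ?_⟩
  refine (xm_val_RhP _ i i').symm.trans ((xm_stb_RhP _ _ _).trans
    (Eq.trans ?_ ((xm_stb_RhP _ _ _).symm.trans (xm_val_RhP _ i i'))))
  refine if_congr Iff.rfl (if_congr (by omega) ?_ (if_congr (by omega) rfl rfl)) rfl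
  simp only [xm_app_RhP, Nat.sub_sub]
  rcases tri_RhP b b' i with h1 | ⟨h1, h3⟩ | h1 <;>
    rcases tri_RhP a a' i' with h2 | ⟨h2, h4⟩ | h2 <;>
    simp (disch := omega) only [↓if_pos, ↓if_neg]

theorem kap_congr (a : ℕ) {c d c' d' : ℕ} (h : c + d' = d + c') : kap a c d = kap a c' d' := by
  refine neg_one_pow_congr ?_
  rw [Nat.even_mul, Nat.even_mul, Nat.even_iff (n := c + d), Nat.even_iff (n := c' + d')]
  exact or_congr Iff.rfl (by omega)

theorem kap_cocycle (a₁ a₂ b₂ a₃ b₃ : ℕ) :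
    kap (a₁ + a₂) a₃ b₃ * kap a₁ a₂ b₂ = kap a₁ (a₂ + a₃) (b₂ + b₃) * kap a₂ a₃ b₃ := by
  simp only [kap, ← pow_add]
  exact congrArg _ (by ring)

end

end Pool.Agent.P.MP_de3acd_gt.FH
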