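import Pool.Agent.P.MP_de3acd_gt.FH.RhF
import Pool.Agent.P.MP_de3acd_gt.FH.RhC
import Pool.Agent.P.MP_de3acd_gt.FH.RhP

/-! The relative sign of glued operators.
Sketch: m₁ = a₁ + a₁', n₁ = b₁ + a₁', m₂ = a₂ + a₂', n₂ = b₂ + a₂', U = stb of the four operators (NG.stb), G = ag U₁ U₂, G' = ag U₁' U₂'. rho_eq at size (m₁ + m₂, n₁ + n₂), stb_ag twice, par_prm, par_trans, par_symm:
rho = s * s' * par G G' with s = kap a₁' a₂ b₂, s' = kap a₁ a₂' b₂'; kap_congr with NOk.idx; par G G' = par G (ag U₁' U₂) * par (ag U₁' U₂) G'; par_ag_left, par_ag_right.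
exists_tau: far_iff, the half plane is convex, rho_const, continuous_ag. rho_ag3: the quadrant G ≤ q.1, G ≤ q.2 is convex; ag3_bij, sim_ag twice, FlR.ag, CT.ag, continuous_ag3. -/

open Set Filter Topology MeasureTheory
open scoped ContDiff NNReal ENNReal RealInnerProductSpace

namespace Pool.Agent.P.MP_de3acd_gt.FH

noncomputable section

variable {V : Type} [NormedAddCommGroup V] [InnerProductSpace ℝ V] [Sym V]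

variable {a₁ b₁ a₁' b₁' a₂ b₂ a₂' b₂' a₃ b₃ a b : ℕ} {α β δ ε : ℝ → V →L[ℝ] V} {T₁ : Op V a₁ b₁}
  {T₁' : Op V a₁' b₁'} {T₂ : Op V a₂ b₂} {T₂' : Op V a₂' b₂'} {T₃ : Op V a₃ b₃} {Q : Op V a b}

theorem rho_ag (h₁ : NG α β T₁) (h₁' : NG α β T₁') (h₂ : NG β δ T₂) (h₂' : NG β δ T₂')
    (f₁ : FlR β T₁.S) (f₁' : FlR β T₁'.S) (f₂ : FlL β T₂.S) (f₂' : FlL β T₂'.S) : ∀ᶠ q in far,
      rho (ag q.1 q.2 β T₁ T₂) (ag q.1 q.2 β T₁' T₂') =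
        kap a₁ a₂ b₂ * kap a₁' a₂' b₂' * rho T₁ T₁' * rho T₂ T₂' := by
  have i₁ := h₁.ok.idx h₁'.ok (h₁.sim' h₁')
  have i₂ := h₂.ok.idx h₂'.ok (h₂.sim' h₂')
  have u₁ : NG α β (stb (a₁ + a₁') (b₁ + a₁') T₁) := h₁.stb (by omega) (by omega)
  have u₁' : NG α β (stb (a₁ + a₁') (b₁ + a₁') T₁') := h₁'.stb (by omega) (by omega)
  have u₂ : NG β δ (stb (a₂ + a₂') (b₂ + a₂') T₂) := h₂.stb (by omega) (by omega)
  have u₂' : NG β δ (stb (a₂ + a₂') (b₂ + a₂') T₂') := h₂'.stb (by omega) (by omega)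
  obtain ⟨σ, τ, s, e⟩ := stb_ag (V := V) (a := a₁) (b := b₁) (a' := a₂) (b' := b₂) (m := a₁ + a₁')
    (n := b₁ + a₁') (m' := a₂ + a₂') (n' := b₂ + a₂') (by omega) (by omega) (by omega) (by omega)
  obtain ⟨σ', τ', s', e'⟩ := stb_ag (V := V) (a := a₁') (b := b₁') (a' := a₂') (b' := b₂')
    (m := a₁ + a₁') (n := b₁ + a₁') (m' := a₂ + a₂') (n' := b₂ + a₂') (by omega) (by omega)
    (by omega) (by omega)
  rw [Nat.add_sub_cancel_left, kap_congr a₁' i₂] at s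
  rw [Nat.add_sub_cancel, ← kap_congr a₁ i₂] at s'
  filter_upwards [h₁.ag h₂ f₁ f₂, h₁'.ag h₂' f₁' f₂', u₁.ag u₂ f₁ f₂, u₁'.ag u₂ f₁' f₂,
    u₁'.ag u₂' f₁' f₂',
    par_ag_left u₁.ok u₁'.ok u₂.ok (u₁.sim' u₁') h₁.right.1 h₁.right.2.1 f₁ f₁' f₂,
    par_ag_right u₁'.ok u₂.ok u₂'.ok (u₂.sim' u₂') h₁.right.1 h₁.right.2.1 f₁' f₂ f₂']
    with q A A' G G'' G' pl pr
  obtain ⟨r, p⟩ := par_prm G.ok.2 σ τ
  obtain ⟨r', p'⟩ := par_prm G'.ok.2 σ' τ'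
  have k := G.ok.rl G''.ok (G.sim' G'')
  have k' := G''.ok.rl G'.ok (G''.sim' G')
  rw [(rho_eq (m := a₁ + a₁' + (a₂ + a₂')) (n := b₁ + a₁' + (b₂ + a₂')) A.ok A'.ok (A.sim' A')
    (by omega) (by omega) (by omega)).2, e, e', par_trans r.symm ((k.trans k').trans r'),
    par_symm r, par_trans (k.trans k') r', par_trans k k', p, p', pl, pr, s, s', rho, rho]
  ac_rfl

theorem exists_tau (h₁ : NG α β T₁) (h₂ : NG β δ T₂) (f₁ : FlR β T₁.S) (f₂ : FlL β T₂.S)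
    (hQ : NG α δ Q) : ∃ τ : ℤˣ, ∀ᶠ q in far, rho (ag q.1 q.2 β T₁ T₂) Q = τ := by
  obtain ⟨G, hG⟩ := far_iff.1 (h₁.ag h₂ f₁ f₂)
  have hc : Convex ℝ {q : ℝ × ℝ | G ≤ q.1 + q.2} :=
    convex_halfSpace_ge (f := fun q : ℝ × ℝ => q.1 + q.2)
      (LinearMap.fst ℝ ℝ ℝ + LinearMap.snd ℝ ℝ ℝ).isLinear G
  exact ⟨rho (ag G 0 β T₁ T₂) Q, far_iff.2 ⟨G, fun q hq => rho_const hc.isPreconnected
    (continuous_ag h₁.ok.1.2 h₂.ok.1.2 h₁.right.1 h₁.right.2.1).continuousOn hG hQ (z := q)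
    (z' := (G, 0)) hq (add_zero G).ge⟩⟩

theorem rho_ag3 (h₁ : NG α β T₁) (h₂ : NG β δ T₂) (h₃ : NG δ ε T₃) (f₁ : FlR β T₁.S)
    (f₂ : FlL β T₂.S) (f₂' : FlR δ T₂.S) (f₃ : FlL δ T₃.S) (hQ : NG α ε Q) : ∃ (τ : ℤˣ) (G : ℝ),
      ∀ p q, G ≤ p → G ≤ q → rho (ag 0 q δ (ag p 0 β T₁ T₂) T₃) Q = τ := by
  have h := ag3_bij h₁.ok h₂.ok h₃.ok h₁.right.1 h₁.right.2.1 h₂.right.1 h₂.right.2.1 f₁ f₂ f₂' f₃
  rw [prod_atTop_atTop_eq, eventually_atTop] at h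
  obtain ⟨c, hc⟩ := h
  have hs : Convex ℝ (Ici (max c.1 c.2) ×ˢ Ici (max c.1 c.2)) := (convex_Ici _).prod (convex_Ici _)
  refine ⟨rho (ag 0 (max c.1 c.2) δ (ag (max c.1 c.2) 0 β T₁ T₂) T₃) Q, max c.1 c.2,
    fun p q hp hq => rho_const hs.isPreconnected (continuous_ag3 h₁.ok.1.2 h₂.ok.1.2 h₃.ok.1.2
      h₁.right.1 h₁.right.2.1 h₂.right.1 h₂.right.2.1).continuousOn (fun z hz => ?_) hQ
      (z := (p, q)) (z' := (max c.1 c.2, max c.1 c.2)) ⟨hp, hq⟩ ⟨self_mem_Ici, self_mem_Ici⟩⟩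
  exact ⟨⟨(h₁.ok.1.2.ag h₂.ok.1.2 h₁.right.1 h₁.right.2.1 _ _).2.ag h₃.ok.1.2 h₂.right.1
    h₂.right.2.1 _ _, hc z ⟨(le_max_left _ _).trans hz.1, (le_max_right _ _).trans hz.2⟩⟩, h₁.left,
    h₃.right, sim_ag (sim_ag h₁.sim h₂.sim f₁ f₂ _ _) h₃.sim (f₁.ag f₂' _ _) f₃ _ _⟩

end

end Pool.Agent.P.MP_de3acd_gt.FH
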