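import Pool.Agent.P.MP_de3acd_gt.FH.Mop
import Pool.Agent.P.MP_de3acd_gt.FH.Ser

/-! The universal Floer map for variations of the almost complex structure.
Sketch: w = ref x y, F₀ from exists_F_bs for J₀, M i from exists_isM for Z i, η ξ = 2 • (toW 1 (ds w) + dS 1 ξ) - F₀ ξ (ds w is a test function), Ψ i ξ = M i ξ (η ξ), Φ (ξ, a) = F₀ ξ + L ξ a with L from
exists_series. δ is the minimum of the weights for Ψ and of those for (t, z) ↦ Z i t z (bs_of_contDiff), which give a summable bound on bounded sets.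
If Rep 2 ξ f with f smooth periodic and u = w + f, then η ξ is represented by ds u - J₀ (dt u - Y) and L ξ a by Za (u) of it (pair with a test function; HasSum.mapL and
hasSum_integral_of_summable_norm or dominated convergence on the compact support). Za anticommutes with J₀, so by PJ.eq Φ (ξ, a) is represented by (1 + Za) (cr J (sta Y) u).
Hence Φ (ξ, a) = Ma ξ (Fa ξ) for all ξ (W.induction, Rep.unique) with Ma from exists_isM for 1 + Za, Fa from exists_F_bs for J. Differentiate at ξ = xi x y u, where Fa vanishes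
(pData_fld with fld_sta, PData.rep_xi, PData.zero_iff, PData.fderiv_xi, IsM.eq_mop). L ξ (single i) = ε i • Ψ i ξ; dt u - Y = J (ds u) by the equation. -/

open Set Filter Topology MeasureTheory
open scoped ContDiff NNReal ENNReal RealInnerProductSpace

namespace Pool.Agent.P.MP_de3acd_gt.FH

noncomputable section

variable {V : Type} [NormedAddCommGroup V] [InnerProductSpace ℝ V] [Sym V]
variable {J₀ : ℝ → V → V →L[ℝ] V} {Z : ℕ → ℝ → V → V →L[ℝ] V} {Y : ℝ → V → V} {x y : ℝ → V}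

omit [Sym V] in
theorem rep_hasSum_RvA {c v : ℕ → ℝ} {ξ : ℕ → W 1 V} {S : W 1 V}
    (hs : HasSum (fun i => c i • ξ i) S) {A : ℕ → Pl → V →L[ℝ] V} {B : Pl → V →L[ℝ] V}
    {g : Pl → V} (hA : ∀ i, Continuous (A i)) (hg : Continuous g)
    (hr : ∀ i, Rep 1 (ξ i) fun p => A i p (g p)) (hB : ∀ p, HasSum (fun i => c i • A i p) (B p))
    (hv : Summable v) (hb : ∀ i, ∀ p ∈ St, ‖c i • A i p‖ ≤ v i) :
    Rep 1 S fun p => B p (g p) := fun ψ => by
  obtain ⟨h1, -, R, h3⟩ := ψ.2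
  have hm : MeasurableSet St := MeasurableSet.univ.prod measurableSet_Icc
  have a1 : HasSum (fun i => ∫ p in St, ⟪(c i • A i p) (g p), ψ.1 p⟫) ⟪to0 1 S, co 0 ψ⟫ := by
    have := hs.mapL ((innerSL ℝ (co 0 ψ)).comp (to0 1))
    simp only [ContinuousLinearMap.comp_apply, innerSL_apply_apply,
      real_inner_comm _ (co 0 ψ)] at this
    exact (funext fun i => (hr i).smul (c i) ψ) ▸ this
  have i1 : ∀ i, IntegrableOn (fun p => ⟪(c i • A i p) (g p), ψ.1 p⟫) St := fun i =>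
    integrableOn_St ((((hA i).const_smul (c i)).clm_apply hg).inner h1.continuous)
      fun p hp => by rw [h3 p hp, inner_zero_right]
  have i2 : IntegrableOn (fun p => ‖g p‖ * ‖ψ.1 p‖) St :=
    integrableOn_St (hg.norm.mul h1.continuous.norm) fun p hp => by
      rw [h3 p hp, norm_zero, mul_zero]
  have a2 := hasSum_integral_of_summable_integral_norm i1
    (Summable.of_nonneg_of_le (fun i => integral_nonneg fun _ => norm_nonneg _)
      (fun i => by
        rw [← integral_const_mul]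
        refine setIntegral_mono_on (i1 i).norm (i2.const_mul _) hm fun p hp => ?_
        refine (norm_inner_le_norm _ _).trans ?_
        rw [← mul_assoc]
        exact mul_le_mul_of_nonneg_right (((c i • A i p).le_opNorm _).trans
          (mul_le_mul_of_nonneg_right (hb i p hp) (norm_nonneg _))) (norm_nonneg _))
      (hv.mul_right (∫ p in St, ‖g p‖ * ‖ψ.1 p‖)))
  rw [a1.unique a2, ip_zero]
  refine integral_congr_ae (Eventually.of_forall fun p => ?_)
  have := ((hB p).mapL ((innerSL ℝ (ψ.1 p)).comp (ContinuousLinearMap.apply ℝ V (g p)))).tsum_eq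
  simpa only [ContinuousLinearMap.comp_apply, innerSL_apply_apply, ContinuousLinearMap.apply_apply,
    real_inner_comm _ (ψ.1 p)] using this

/-- The conjugate of the Floer operator. -/
def etaRvA (J : ℝ → V → V →L[ℝ] V) (Y : ℝ → V → V) (u : Pl → V) (p : Pl) : V :=
  ds u p - J p.2 (u p) (dt u p - Y p.2 (u p))

omit [Sym V] in
theorem eta_eq_RvA (J : ℝ → V → V →L[ℝ] V) (Y : ℝ → V → V) (u : Pl → V) :
    etaRvA J Y u = (2 : ℝ) • ds u - cr J (sta Y) u := funext fun p => by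
  simp only [etaRvA, cr, sta, Pi.sub_apply, Pi.add_apply, two_smul]
  abel

omit [Sym V] in
theorem cr_smooth_RvA {J : ℝ → V → V →L[ℝ] V} (hJ : SP J) (hY : SP Y) {u : Pl → V}
    (hu : ContDiff ℝ ∞ u) (pu : Per u) : ContDiff ℝ ∞ (cr J (sta Y) u) ∧ Per (cr J (sta Y) u) :=
  ⟨(contDiff_cr_FDer hJ (fld_sta hY le_rfl).smX hu).comp
    ((contDiff_const (c := (0 : ℝ))).prodMk contDiff_id),
    per_cr_FDer hJ ((fld_sta hY le_rfl).per 0) pu⟩

omit [Sym V] in
theorem eta_smooth_RvA {J : ℝ → V → V →L[ℝ] V} (hJ : SP J) (hY : SP Y) {u : Pl → V}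
    (hu : ContDiff ℝ ∞ u) (pu : Per u) : ContDiff ℝ ∞ (etaRvA J Y u) ∧ Per (etaRvA J Y u) := by
  obtain ⟨h1, h2⟩ := cr_smooth_RvA hJ hY hu pu
  rw [eta_eq_RvA]
  exact ⟨((contDiff_ds hu).const_smul (2 : ℝ)).sub h1, fun s t => by
    simp only [Pi.sub_apply, Pi.smul_apply, h2 s t, pu.ds s t]⟩

omit [Sym V] in
theorem anti_RvA (hZ : ∀ i, Anti J₀ (Z i)) {ε : ℕ → ℝ} {a : Lam} {J Za Zi : ℝ → V → V →L[ℝ] V}
    (h : PJ J₀ Z ε a J Za Zi) : Anti J₀ Za := fun t z v => by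
  have h1 := (h.sum t z).mapL (ContinuousLinearMap.apply ℝ V (J₀ t z v))
  have h2 := (((h.sum t z).mapL (ContinuousLinearMap.apply ℝ V v)).mapL (J₀ t z)).neg
  simp only [ContinuousLinearMap.apply_apply, hZ _ t z v, map_smul, smul_neg] at h1 h2
  exact h1.unique h2

omit [Sym V] in
theorem alg_RvA (hZ : ∀ i, Anti J₀ (Z i)) {ε : ℕ → ℝ} {a : Lam} {J Za Zi : ℝ → V → V →L[ℝ] V}
    (h : PJ J₀ Z ε a J Za Zi) (t : ℝ) (z s v : V) :
    s + J₀ t z v + Za t z (s - J₀ t z v) = (1 + Za t z) (s + J t z v) := by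
  have h1 := h.eq t z v
  rw [map_add] at h1
  rw [map_sub, anti_RvA hZ h t z v, _root_.add_apply, one_apply_eq_self, map_add,
    add_add_add_comm s (J t z v), h1]
  abel

theorem exists_univ (hJ : ACS Ω0 J₀) (hZ : ∀ i, SP (Z i) ∧ Anti J₀ (Z i)) (hY : SP Y)
    (hx : GOrb Ω0 1 Y x) (hy : GOrb Ω0 1 Y y) : ∃ δ : ℕ → ℝ, (∀ i, 0 < δ i) ∧ ∀ ε, Sml δ ε →
      ∃ Φ : W 2 V × Lam → W 1 V, ContDiff ℝ ∞ Φ ∧ ∀ (a : Lam) (J Za Zi : ℝ → V → V →L[ℝ] V)
        (u : Pl → V), ACS Ω0 J → PJ J₀ Z ε a J Za Zi → Nice J (sta Y) x y u →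
          Φ (xi x y u, a) = 0 ∧
          d1 Φ (xi x y u, a) = (mop 1 fun p => 1 + Za p.2 (u p)).comp (Du J (sta Y) u) ∧
            ∀ i, Rep 1 (fderiv ℝ Φ (xi x y u, a) (0, _root_.lp.single 2 i (1 : ℝ))) fun p =>
              ε i • Z i p.2 (u p) (ds u p - J₀ p.2 (u p) (J p.2 (u p) (ds u p))) := by
  have P := fun (J : ℝ → V → V →L[ℝ] V) (h : ACS Ω0 J) =>
    pData_fld (Λ := ℝ) (x := x) (y := y) h (fld_sta hY le_rfl) hx hy
  have r := ref_PD (P J₀ hJ)
  obtain ⟨F₀, b₀, f₀⟩ := exists_F_bs hJ.1 hY hx.1 hy.1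
  choose M hM using fun i => exists_isM (hZ i).1 r.bdd r.per
  obtain ⟨η, bη, rη⟩ : ∃ η : W 2 V → W 1 V, BS η ∧ ∀ ξ f, Rep 2 ξ f → ContDiff ℝ ∞ f → Per f →
      Rep 1 (η ξ) (etaRvA J₀ Y (ref x y + f)) := by
    refine ⟨fun ξ => ((2 : ℝ) • toW 1 (ds (ref x y)) + ((2 : ℝ) • dS 1) ξ) - F₀ ξ, fun n =>
      ((bsn_const n _).add (bsn_clm n _)).sub (b₀ n), fun ξ f e hf pf => ?_⟩
    have a1 := rep_toW (k := 1) one_le_two r.bdd.ds.1 r.per.ds
      (r.nrm_ds (P J₀ hJ).loops.1 (P J₀ hJ).loops.2.1)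
    have a2 := (a1.add (e.dS hf) r.bdd.ds.1.continuous (contDiff_ds hf).continuous).smul 2
    rw [← ds_add r.bdd.1 hf, smul_add] at a2
    rw [eta_eq_RvA]
    exact a2.sub (f₀.rep r.bdd.1 e hf pf 0)
      ((contDiff_ds (r.bdd.1.add hf)).continuous.const_smul (2 : ℝ))
      (cr_smooth_RvA hJ.1 hY (r.bdd.1.add hf) (per_add_FDer r.per pf)).1.continuous
  have rΨ : ∀ i ξ f, Rep 2 ξ f → ContDiff ℝ ∞ f → Per f → Rep 1 (M i ξ (η ξ)) fun p =>
      Z i p.2 (ref x y p + f p) (etaRvA J₀ Y (ref x y + f) p) := fun i ξ f e hf pf =>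
    have s := eta_smooth_RvA hJ.1 hY (r.bdd.1.add hf) (per_add_FDer r.per pf)
    (hM i).2 ξ f _ _ e hf pf (rη ξ f e hf pf) s.1 s.2
  obtain ⟨δ₁, p₁, h₁⟩ := exists_series (Ψ := fun i ξ => M i ξ (η ξ))
    fun i n => ((hM i).1 n).clm_apply (bη n)
  obtain ⟨δ₂, p₂, h₂⟩ := exists_series (Ψ := fun i (q : ℝ × V) => Z i q.1 q.2)
    fun i => bs_of_contDiff (hZ i).1.1
  refine ⟨fun i => min (δ₁ i) (δ₂ i), fun i => lt_min (p₁ i) (p₂ i), fun ε hε => ?_⟩
  obtain ⟨L, sL, hL, -⟩ := h₁ ε hε.min.1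
  obtain ⟨-, -, -, hv⟩ := h₂ ε hε.min.2
  have sΦ : ContDiff ℝ ∞ fun z : W 2 V × Lam => F₀ z.1 + L z.1 z.2 :=
    (b₀.contDiff.comp contDiff_fst).add ((sL.comp contDiff_fst).clm_apply contDiff_snd)
  refine ⟨_, sΦ, fun a J Za Zi u hJ' hP hu => ?_⟩
  have sA : SP fun t z => 1 + Za t z :=
    ⟨contDiff_const.add hP.sa.1, fun t => by simp only [hP.sa.2 t]⟩
  obtain ⟨Ma, hMa⟩ := exists_isM sA r.bdd r.per
  obtain ⟨Fa, ba, fa⟩ := exists_F_bs hJ'.1 hY hx.1 hy.1
  have key : ∀ ξ, F₀ ξ + L ξ a = Ma ξ (Fa ξ) := by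
    refine W.induction (isClosed_eq (b₀.contDiff.continuous.add
      (sL.continuous.clm_apply continuous_const))
      (hMa.1.contDiff.continuous.clm_apply ba.contDiff.continuous)) fun φ => ?_
    have su := r.bdd.add (bdd_of_mem φ.2)
    have pu := per_add_FDer r.per φ.2.2.1
    obtain ⟨C, hC⟩ := su.bound
    obtain ⟨v, v1, v2⟩ := hv (max 1 C)
    have se := (eta_smooth_RvA hJ.1 hY su.1 pu).1.continuous
    have cu : Continuous fun p : Pl => (p.2, ref x y p + φ.1 p) :=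
      continuous_snd.prodMk su.1.continuous
    have a1 := rep_hasSum_RvA (hL (co 2 φ) a) (A := fun i p => Z i p.2 (ref x y p + φ.1 p))
      (fun i => (hZ i).1.1.continuous.comp cu) se
      (fun i => rΨ i _ _ (rep_co 2 φ) φ.2.1 φ.2.2.1) (fun p => hP.sum _ _) (v1.mul_left ‖a‖)
      fun i p hp => by
        rw [norm_smul, Real.norm_eq_abs, abs_mul, abs_of_pos (hε.1 i), mul_assoc]
        refine mul_le_mul (abs_apply_le a i) (v2 i (p.2, ref x y p + φ.1 p) ?_)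
          (mul_nonneg (hε.1 i).le (norm_nonneg _)) (norm_nonneg _)
        exact max_le_max (by rw [Real.norm_eq_abs, abs_of_nonneg hp.2.1]; exact hp.2.2) (hC p)
    have sc := cr_smooth_RvA hJ'.1 hY su.1 pu
    have a2 := hMa.2 _ _ _ _ (rep_co 2 φ) φ.2.1 φ.2.2.1 (fa.2 φ 0) sc.1 sc.2
    have a3 := (f₀.2 φ 0).add a1 (cr_smooth_RvA hJ.1 hY su.1 pu).1.continuous
      ((hP.sa.1.continuous.comp cu).clm_apply se)
    have e : (cr J₀ (sta Y) (ref x y + φ.1) + fun p => Za p.2 (ref x y p + φ.1 p)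
        (etaRvA J₀ Y (ref x y + φ.1) p)) = fun p => (1 + Za p.2 (ref x y p + φ.1 p))
          (cr J (sta Y) (ref x y + φ.1) p) :=
      funext fun p => alg_RvA (fun i => (hZ i).2) hP _ _ _ _
    exact a3.unique (e ▸ a2)
  have e0 : ref x y + (u - ref x y) = u := add_sub_cancel _ _
  have e1 : ∀ p, ref x y p + (u - ref x y) p = u p := congrFun e0
  have rx := ((P J hJ').rep_xi hu.pth).1
  have sx : ContDiff ℝ ∞ (u - ref x y) := hu.bdd.1.sub r.bdd.1
  have px := per_sub_PD hu.per r.per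
  have z0 : Fa (xi x y u) = 0 := ((P J hJ').zero_iff fa hu.pth 0).2 hu
  have dΦ := (sΦ.differentiable (by simp) (xi x y u, a)).hasFDerivAt
  refine ⟨by rw [key, z0, map_zero], ?_, fun i => ?_⟩
  · have d0 := dΦ.comp (xi x y u) (hasFDerivAt_prodMk_left (𝕜 := ℝ) (xi x y u) a)
    have d2 := (fa.1.differentiable (by simp) (xi x y u, 0)).hasFDerivAt.comp (xi x y u)
      (hasFDerivAt_prodMk_left (𝕜 := ℝ) (xi x y u) (0 : ℝ))
    have d3 := (hMa.1.contDiff.differentiable (by simp) (xi x y u)).hasFDerivAt.clm_apply d2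
    have d4 := d0.unique ((funext key : _ = _) ▸ d3)
    have d5 := hMa.eq_mop sA rx sx px (e0.symm ▸ hu.bdd) (e0.symm ▸ hu.per)
    simp only [e1] at d5
    rw [← d5, ← ((P J hJ').fderiv_xi fa hu.pth 0).1]
    refine d4.trans ?_
    rw [Function.comp_apply, z0, map_zero, add_zero]
    rfl
  · have d0 := dΦ.comp a (hasFDerivAt_prodMk_right (𝕜 := ℝ) (xi x y u) a)
    have d2 := congrArg (fun T : Lam →L[ℝ] W 1 V => T (_root_.lp.single 2 i (1 : ℝ)))
      (d0.unique ((L (xi x y u)).hasFDerivAt.const_add (F₀ (xi x y u))))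
    have d3 : L (xi x y u) (_root_.lp.single 2 i (1 : ℝ)) = ε i • M i (xi x y u) (η (xi x y u)) := by
      refine (hL _ _).unique ?_
      have := hasSum_single (f := fun j => ((_root_.lp.single 2 i (1 : ℝ) : Lam) j * ε j) •
        M j (xi x y u) (η (xi x y u))) i fun j hj => by
          rw [_root_.lp.single_apply_ne _ _ _ hj, zero_mul, zero_smul]
      rwa [_root_.lp.single_apply_self, one_mul] at this
    have d4 := (rΨ i _ _ rx sx px).smul (ε i)
    simp only [e0, e1] at d4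
    have d5 : ∀ p, etaRvA J₀ Y u p = ds u p - J₀ p.2 (u p) (J p.2 (u p) (ds u p)) := fun p => by
      have h1 := congrArg (J p.2 (u p)) (hu.eq p)
      rw [cr, map_add, (hJ'.2 _ _).1, map_zero, add_neg_eq_zero] at h1
      rw [h1]
      rfl
    simp only [d5] at d4
    exact (d2.trans d3).symm ▸ d4

end

end Pool.Agent.P.MP_de3acd_gt.FH
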