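import Pool.Agent.P.MP_de3acd_gt.FH.Sard0

/-! Sard theorem for dim A ≤ dim B + 1.
Sketch: it suffices to find for each critical x₀ a neighbourhood whose critical points of the same rank have null image
(measure_null_of_locally_null or a countable cover; stratify by the rank r of fderiv f x). Let D = fderiv f x₀,
B₁ = range D, B₂ a complement (nontrivial), A₂ = ker D, A₁ a complement, π₁, π₂ the projections of B.
ψ x = (π₁ (f x), proj A₂ x) is a local diffeomorphism A → B₁ × A₂; h = f ∘ ψ⁻¹ has π₁ h (y₁, y₂) = y₁; put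
g = π₂ ∘ h. At a point where fderiv f has rank r = dim B₁, the derivative of g (y₁, ·) vanishes. On a compact
neighbourhood N the set Z = {y ∈ N | fderiv g y ∘ inr = 0} is compact, its image under y ↦ (y.1, g y) is compact, hence
measurable, with null slices by sard_zero (dim A₂ ≤ dim B₂ + 1); measure_prod_null, and transport of Haar measures
along B ≃L B₁ × B₂. An induction on dim B that splits off one coordinate at a time is an alternative. -/

open Set Filter Topology MeasureTheory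
open scoped ContDiff NNReal ENNReal RealInnerProductSpace

namespace Pool.Agent.P.MP_de3acd_gt.FH

noncomputable section

variable {A B : Type} [NormedAddCommGroup A] [NormedSpace ℝ A] [FiniteDimensional ℝ A]
  [NormedAddCommGroup B] [NormedSpace ℝ B] [FiniteDimensional ℝ B] [MeasurableSpace B]
  [BorelSpace B]

omit [FiniteDimensional ℝ B] in
theorem slice_Sard1 {B₁ B₂ A₂ : Type} [NormedAddCommGroup B₁] [NormedSpace ℝ B₁]
    [FiniteDimensional ℝ B₁] [NormedAddCommGroup B₂] [NormedSpace ℝ B₂] [FiniteDimensional ℝ B₂]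
    [NormedAddCommGroup A₂] [NormedSpace ℝ A₂] [FiniteDimensional ℝ A₂] [Nontrivial B₂]
    (μ : Measure B) [μ.IsAddHaarMeasure] (e : B ≃L[ℝ] B₁ × B₂)
    (hd : Module.finrank ℝ A₂ ≤ Module.finrank ℝ B₂ + 1) {g : B₁ × A₂ → B₂} {V K : Set (B₁ × A₂)}
    (hV : IsOpen V) (hK : IsCompact K) (hKV : K ⊆ V) (hg : ContDiffOn ℝ ∞ g V) :
    μ (e ⁻¹' ((fun y => (y.1, g y)) ''
      {y ∈ K | (fderiv ℝ g y).comp (ContinuousLinearMap.inr ℝ B₁ A₂) = 0})) = 0 := by
  borelize B₁ B₂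
  set Z := {y ∈ K | (fderiv ℝ g y).comp (ContinuousLinearMap.inr ℝ B₁ A₂) = 0} with hZ
  have c1 : ContinuousOn (fun y => (fderiv ℝ g y).comp (ContinuousLinearMap.inr ℝ B₁ A₂)) K :=
    ((hg.continuousOn_fderiv_of_isOpen hV (by simp)).mono hKV).clm_comp continuousOn_const
  have hZc : IsCompact Z :=
    hK.of_isClosed_subset (c1.preimage_isClosed_of_isClosed hK.isClosed isClosed_singleton)
      fun y hy => hy.1
  have hT : IsCompact ((fun y => (y.1, g y)) '' Z) :=
    hZc.image_of_continuousOn (continuousOn_fst.prodMk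
      (hg.continuousOn.mono fun y hy => hKV hy.1))
  have h0 : ((Measure.addHaar : Measure B₁).prod (Measure.addHaar : Measure B₂))
      ((fun y => (y.1, g y)) '' Z) = 0 := by
    refine Measure.measure_prod_null_of_ae_null hT.measurableSet (Eventually.of_forall fun a => ?_)
    have hc : Continuous fun w : A₂ => (a, w) := by fun_prop
    have h1 := sard_zero (Measure.addHaar : Measure B₂) hd (f := fun w => g (a, w))
      (hV.preimage hc) (hg.comp (contDiff_const.prodMk contDiff_id).contDiffOn fun w hw => hw)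
    refine measure_mono_null ?_ h1
    rintro b ⟨⟨y₁, y₂⟩, hy, h2⟩
    obtain ⟨rfl, rfl⟩ := Prod.mk.inj h2
    refine ⟨y₂, ⟨hKV hy.1, ?_⟩, rfl⟩
    have h3 : DifferentiableAt ℝ g (y₁, y₂) :=
      (hg.contDiffAt (hV.mem_nhds (hKV hy.1))).differentiableAt (by simp)
    exact (h3.hasFDerivAt.comp y₂ (hasFDerivAt_prodMk_right y₁ y₂)).fderiv.trans hy.2
  have h4 := Measure.absolutelyContinuous_isAddHaarMeasure (μ.map e)
    ((Measure.addHaar : Measure B₁).prod (Measure.addHaar : Measure B₂)) h0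
  exact le_antisymm ((Measure.le_map_apply e.continuous.aemeasurable _).trans h4.le) zero_le

omit [FiniteDimensional ℝ B] in
theorem loc_Sard1 {B₁ B₂ A₂ : Type} [NormedAddCommGroup B₁] [NormedSpace ℝ B₁]
    [FiniteDimensional ℝ B₁] [NormedAddCommGroup B₂] [NormedSpace ℝ B₂] [FiniteDimensional ℝ B₂]
    [NormedAddCommGroup A₂] [NormedSpace ℝ A₂] [FiniteDimensional ℝ A₂] [Nontrivial B₂]
    (μ : Measure B) [μ.IsAddHaarMeasure] (e : B ≃L[ℝ] B₁ × B₂)
    (hd : Module.finrank ℝ A₂ ≤ Module.finrank ℝ B₂ + 1) {f : A → B} {U : Set A} (hU : IsOpen U)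
    (hf : ContDiffOn ℝ ∞ f U) {x₀ : A} (hx : x₀ ∈ U) (P : A →L[ℝ] A₂) (L₀ : A ≃L[ℝ] B₁ × A₂)
    (hL : ∀ v, L₀ v = ((e (fderiv ℝ f x₀ v)).1, P v)) :
    ∃ N ∈ 𝓝 x₀, μ (f '' {x ∈ N | Module.finrank ℝ B₁ =
      Module.finrank ℝ (LinearMap.range (fderiv ℝ f x).toLinearMap)}) = 0 := by
  let π₁ : B →L[ℝ] B₁ := (ContinuousLinearMap.fst ℝ B₁ B₂).comp (e : B →L[ℝ] B₁ × B₂)
  let π₂ : B →L[ℝ] B₂ := (ContinuousLinearMap.snd ℝ B₁ B₂).comp (e : B →L[ℝ] B₁ × B₂)
  let ψ : A → B₁ × A₂ := fun x => (π₁ (f x), P x)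
  have hψ : ContDiffOn ℝ ∞ ψ U := (π₁.contDiff.comp_contDiffOn hf).prodMk P.contDiff.contDiffOn
  have hfd : ∀ x ∈ U, HasFDerivAt f (fderiv ℝ f x) x := fun x hx =>
    ((hf.contDiffAt (hU.mem_nhds hx)).differentiableAt (by simp)).hasFDerivAt
  have hψd : ∀ x ∈ U, HasFDerivAt ψ ((π₁.comp (fderiv ℝ f x)).prod P) x := fun x hx =>
    (π₁.hasFDerivAt.comp x (hfd x hx)).prodMk P.hasFDerivAt
  have hL' : (L₀ : A →L[ℝ] B₁ × A₂) = (π₁.comp (fderiv ℝ f x₀)).prod P :=
    ContinuousLinearMap.ext hL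
  let Φ := (hψ.contDiffAt (hU.mem_nhds hx)).toOpenPartialHomeomorph ψ (hL' ▸ hψd x₀ hx) (by simp)
  have hΦ : (Φ : A → B₁ × A₂) = ψ := rfl
  have hx0 : x₀ ∈ Φ.source := ContDiffAt.mem_toOpenPartialHomeomorph_source _ _ _
  let W : Set A := Φ.source ∩ (U ∩ fderiv ℝ ψ ⁻¹' range ((↑) : (A ≃L[ℝ] B₁ × A₂) → A →L[ℝ] B₁ × A₂))
  have hW : IsOpen W := Φ.open_source.inter
    ((hψ.continuousOn_fderiv_of_isOpen hU (by simp)).isOpen_inter_preimage hU
      ContinuousLinearEquiv.isOpen)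
  have hxW : x₀ ∈ W := ⟨hx0, hx, L₀, hL'.trans (hψd x₀ hx).fderiv.symm⟩
  let V : Set (B₁ × A₂) := Φ.target ∩ Φ.symm ⁻¹' W
  have hV : IsOpen V := Φ.isOpen_inter_preimage_symm hW
  have hs : ContDiffOn ℝ ∞ Φ.symm V := by
    rintro y ⟨hy, -, hy2, L, hy3⟩
    refine (Φ.contDiffAt_symm (f₀' := L) hy ?_ (hψ.contDiffAt (hU.mem_nhds hy2))).contDiffWithinAt
    rw [hy3]
    exact (hψd _ hy2).differentiableAt.hasFDerivAt
  have hg : ContDiffOn ℝ ∞ (fun y => π₂ (f (Φ.symm y))) V :=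
    π₂.contDiff.comp_contDiffOn (hf.comp hs fun y hy => hy.2.2.1)
  obtain ⟨N, hN, hNW, hNc⟩ := local_compact_nhds (hW.mem_nhds hxW)
  have hK : IsCompact (ψ '' N) :=
    hNc.image_of_continuousOn (hψ.continuousOn.mono fun x hx => (hNW hx).2.1)
  have hKV : ψ '' N ⊆ V := by
    rintro _ ⟨x, hx, rfl⟩
    refine ⟨Φ.map_source (hNW hx).1, ?_⟩
    show Φ.symm (Φ x) ∈ W
    rw [Φ.left_inv (hNW hx).1]
    exact hNW hx
  refine ⟨N, hN, measure_mono_null ?_ (slice_Sard1 μ e hd hV hK hKV hg)⟩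
  rintro _ ⟨x, ⟨hxN, hr⟩, rfl⟩
  obtain ⟨hx1, hx2, L, hx3⟩ := hNW hxN
  have hi : Φ.symm (ψ x) = x := Φ.left_inv hx1
  refine ⟨ψ x, ⟨mem_image_of_mem _ hxN, ?_⟩, ?_⟩
  · have hL2 : (L : A →L[ℝ] B₁ × A₂) = (π₁.comp (fderiv ℝ f x)).prod P :=
      hx3.trans (hψd x hx2).fderiv
    have d1 : HasFDerivAt Φ.symm (L.symm : B₁ × A₂ →L[ℝ] A) (ψ x) :=
      Φ.hasFDerivAt_symm (Φ.map_source hx1) (by rw [hi, hL2]; exact hψd x hx2)
    have d2 : HasFDerivAt f (fderiv ℝ f x) (Φ.symm (ψ x)) := by rw [hi]; exact hfd x hx2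
    have d3 : HasFDerivAt (fun y => π₂ (f (Φ.symm y)))
        (π₂.comp ((fderiv ℝ f x).comp (L.symm : B₁ × A₂ →L[ℝ] A))) (ψ x) :=
      π₂.hasFDerivAt.comp _ (d2.comp _ d1)
    rw [d3.fderiv]
    have hLv : ∀ v, (L v).1 = π₁ (fderiv ℝ f x v) := fun v =>
      congrArg Prod.fst (DFunLike.congr_fun hL2 v)
    have k1 : LinearMap.range (π₁.comp (fderiv ℝ f x)).toLinearMap = ⊤ :=
      LinearMap.range_eq_top.2 fun b => ⟨L.symm (b, 0), by
        have := hLv (L.symm (b, 0))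
        rw [L.apply_symm_apply] at this
        exact this.symm⟩
    have k2 := (π₁.comp (fderiv ℝ f x)).toLinearMap.finrank_range_add_finrank_ker
    have k3 := (fderiv ℝ f x).toLinearMap.finrank_range_add_finrank_ker
    rw [k1, finrank_top] at k2
    have k4 : LinearMap.ker (fderiv ℝ f x).toLinearMap =
        LinearMap.ker (π₁.comp (fderiv ℝ f x)).toLinearMap :=
      Submodule.eq_of_le_of_finrank_eq (fun v hv => by
        have hv' : fderiv ℝ f x v = 0 := hv
        show π₁ (fderiv ℝ f x v) = 0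
        rw [hv', map_zero]) (by omega)
    ext w
    have k5 : L.symm (0, w) ∈ LinearMap.ker (π₁.comp (fderiv ℝ f x)).toLinearMap := by
      have := hLv (L.symm (0, w))
      rw [L.apply_symm_apply] at this
      exact this.symm
    rw [← k4] at k5
    have k6 : fderiv ℝ f x (L.symm (0, w)) = 0 := k5
    show π₂ (fderiv ℝ f x (L.symm (0, w))) = 0
    rw [k6, map_zero]
  · show (π₁ (f x), π₂ (f (Φ.symm (ψ x)))) = e (f x)
    rw [hi]
    rfl

theorem sard (μ : Measure B) [μ.IsAddHaarMeasure]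
    (hd : Module.finrank ℝ A ≤ Module.finrank ℝ B + 1) {f : A → B} {U : Set A} (hU : IsOpen U)
    (hf : ContDiffOn ℝ ∞ f U) :
    μ (f '' {x ∈ U | ¬Function.Surjective (fderiv ℝ f x)}) = 0 := by
  have key : ∀ r : ℕ, μ (f '' {x ∈ U | ¬Function.Surjective (fderiv ℝ f x) ∧
      r = Module.finrank ℝ (LinearMap.range (fderiv ℝ f x).toLinearMap)}) = 0 := by
    intro r
    refine measure_null_of_locally_null (μ := OuterMeasure.comap f μ.toOuterMeasure) _ ?_
    rintro x₀ ⟨hx, hs, rfl⟩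
    set D := (fderiv ℝ f x₀).toLinearMap with hD
    obtain ⟨B₂, hB⟩ := (LinearMap.range D).exists_isCompl
    obtain ⟨A₁, hA⟩ := (LinearMap.ker D).exists_isCompl
    have k1 := Submodule.finrank_add_eq_of_isCompl hB
    have k2 := D.finrank_range_add_finrank_ker
    have k3 : Module.finrank ℝ (LinearMap.range D) < Module.finrank ℝ B :=
      Submodule.finrank_lt fun h => hs (LinearMap.range_eq_top.1 h)
    have : Nontrivial B₂ := Module.nontrivial_of_finrank_pos (R := ℝ) (by omega)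
    let e := ((LinearMap.range D).prodEquivOfIsCompl B₂ hB).symm.toContinuousLinearEquiv
    let P := (LinearMap.ker D).projectionOnto A₁ hA
    have inj : Function.Injective (D.rangeRestrict.prod P) := by
      refine (injective_iff_map_eq_zero _).2 fun v hv => ?_
      have h1 : D v = 0 := congrArg (fun z => (z.1 : B)) hv
      have h2 : P v = 0 := congrArg Prod.snd hv
      have h3 : P v = ⟨v, h1⟩ := Submodule.projectionOnto_apply_left hA ⟨v, h1⟩
      exact congrArg Subtype.val (h3.symm.trans h2)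
    let L₀ := ((D.rangeRestrict.prod P).linearEquivOfInjective inj
      (by rw [Module.finrank_prod, k2])).toContinuousLinearEquiv
    obtain ⟨N, hN, h0⟩ := loc_Sard1 μ e (A₂ := LinearMap.ker D) (by omega) hU hf hx
      (LinearMap.toContinuousLinearMap P) L₀ fun v => Prod.ext
        (congrArg Prod.fst
          (Submodule.prodEquivOfIsCompl_symm_apply_left _ _ hB (D.rangeRestrict v))).symm rfl
    refine ⟨N ∩ _, inter_mem (mem_nhdsWithin_of_mem_nhds hN) self_mem_nhdsWithin, ?_⟩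
    refine measure_mono_null (μ := μ) (image_mono fun x hx => ?_) h0
    exact ⟨hx.1, hx.2.2.2⟩
  refine measure_mono_null ?_ (measure_iUnion_null key)
  rintro _ ⟨x, hx, rfl⟩
  exact mem_iUnion.2 ⟨_, x, ⟨hx.1, hx.2, rfl⟩, rfl⟩

end

end Pool.Agent.P.MP_de3acd_gt.FH
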