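import Pool.Agent.P.MP_de3acd_gt.FH.Sard1
import Pool.Agent.P.MP_de3acd_gt.FH.IFT

/-! The Sard-Smale theorem for index at most one.
Sketch: Z = {z ∈ O | Φ z = 0}. At z ∈ Z, fderiv Φ z = coprod (D₁) (D₂) has index d + dim Λ (HasIdx.coprod), which is a natural
number ≤ dim Λ + 1 (HasIdx.nonneg); exists_chart_zero gives ψ, π, U, O'. f = snd ∘ ψ : U → Λ is smooth. If fderiv f a is onto,
then D₁ at ψ a is onto: range of fderiv ψ a lies in the kernel of fderiv Φ (ψ a); for y pick (x, v) with D₁ x + D₂ v = y and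
(x', v) in the kernel; D₁ (x - x') = y. So the bad parameters from O' lie in the null set of sard. X × Λ is second
countable: countably many O' cover Z (TopologicalSpace.countable_cover_nhdsWithin). A null set has dense complement
(Measure.dense_of_ae, borel σ-algebra, Measure.addHaar). -/

open Set Filter Topology MeasureTheory
open scoped ContDiff NNReal ENNReal RealInnerProductSpace

namespace Pool.Agent.P.MP_de3acd_gt.FH

noncomputable section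

variable {X Y Z : Type} [NormedAddCommGroup X] [NormedSpace ℝ X] [NormedAddCommGroup Y]
  [NormedSpace ℝ Y] [NormedAddCommGroup Z] [NormedSpace ℝ Z]

theorem loc_SardS [CompleteSpace X] [CompleteSpace Y]
    {Λ : Type} [NormedAddCommGroup Λ] [NormedSpace ℝ Λ] [FiniteDimensional ℝ Λ] {Φ : X × Λ → Y}
    (hΦ : ContDiff ℝ ∞ Φ) {z : X × Λ} (hs : Function.Surjective (fderiv ℝ Φ z)) {d : ℤ}
    (hd1 : d ≤ 1) (hd : HasIdx ((fderiv ℝ Φ z).comp (ContinuousLinearMap.inl ℝ X Λ)) d)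
    [MeasurableSpace Λ] [BorelSpace Λ] (μ : Measure Λ) [μ.IsAddHaarMeasure] :
    ∃ O ∈ 𝓝 z, ∃ N : Set Λ, μ N = 0 ∧ ∀ w ∈ O, Φ w = Φ z →
      ¬Function.Surjective ((fderiv ℝ Φ w).comp (ContinuousLinearMap.inl ℝ X Λ)) → w.2 ∈ N := by
  have : CompleteSpace Λ := FiniteDimensional.complete ℝ Λ
  have h1 := hd.coprod ((fderiv ℝ Φ z).comp (ContinuousLinearMap.inr ℝ X Λ))
  rw [ContinuousLinearMap.coprod_comp_inl_inr] at h1
  obtain ⟨m, hm⟩ := Int.eq_ofNat_of_zero_le (h1.nonneg hs)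
  rw [hm] at h1
  obtain ⟨ψ, π, U, O, hU, hO, hz, hψ, h2, h3⟩ := exists_chart_zero hΦ hs h1
  have hf : ContDiffOn ℝ ∞ (fun a => (ψ a).2) U := contDiff_snd.comp_contDiffOn hψ
  have hdim : Module.finrank ℝ (Fin m → ℝ) ≤ Module.finrank ℝ Λ + 1 := by
    rw [Module.finrank_fin_fun]
    omega
  refine ⟨O, hO.mem_nhds hz, _, sard μ hdim hU hf, fun w hw hw0 hns => ?_⟩
  obtain ⟨ha, hψa⟩ := h3 w hw hw0
  refine ⟨π w, ⟨ha, fun hsur => hns fun y => ?_⟩, by simp only [hψa]⟩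
  have hdψ : HasFDerivAt ψ (fderiv ℝ ψ (π w)) (π w) :=
    ((hψ.contDiffAt (hU.mem_nhds ha)).differentiableAt (by simp)).hasFDerivAt
  have hdΦ : HasFDerivAt Φ (fderiv ℝ Φ w) (ψ (π w)) := by
    rw [hψa]
    exact (hΦ.differentiable (by simp) w).hasFDerivAt
  have h4 : (fderiv ℝ Φ w).comp (fderiv ℝ ψ (π w)) = 0 := by
    refine (hdΦ.comp _ hdψ).unique ((hasFDerivAt_const (Φ z) (π w)).congr_of_eventuallyEq ?_)
    filter_upwards [hU.mem_nhds ha] with a ha' using (h2 a ha').2.1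
  have h5 := (h2 _ ha).2.2.2.2
  rw [hψa] at h5
  obtain ⟨u, hu⟩ := h5 (y, 0)
  have hu1 : fderiv ℝ Φ w u = y := congrArg Prod.fst hu
  rw [hdψ.snd.fderiv] at hsur
  obtain ⟨b, hb⟩ := hsur u.2
  have hb1 : (fderiv ℝ ψ (π w) b).2 = u.2 := hb
  have hb2 : fderiv ℝ Φ w (fderiv ℝ ψ (π w) b) = 0 := congrArg (fun T => T b) h4
  refine ⟨u.1 - (fderiv ℝ ψ (π w) b).1, ?_⟩
  have h6 : ((u.1 - (fderiv ℝ ψ (π w) b).1, 0) : X × Λ) = u - fderiv ℝ ψ (π w) b :=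
    Prod.ext rfl (by rw [Prod.snd_sub, hb1, sub_self])
  change fderiv ℝ Φ w (u.1 - (fderiv ℝ ψ (π w) b).1, 0) = y
  rw [h6, map_sub, hb2, sub_zero, hu1]

theorem sard_smale [CompleteSpace X] [CompleteSpace Y] [TopologicalSpace.SeparableSpace X]
    {Λ : Type} [NormedAddCommGroup Λ] [NormedSpace ℝ Λ] [FiniteDimensional ℝ Λ] {Φ : X × Λ → Y}
    (hΦ : ContDiff ℝ ∞ Φ) {Z : Set (X × Λ)} (hZ : ∀ z ∈ Z, Φ z = 0 ∧
      Function.Surjective (fderiv ℝ Φ z) ∧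
        ∃ d ≤ 1, HasIdx ((fderiv ℝ Φ z).comp (ContinuousLinearMap.inl ℝ X Λ)) d)
    [MeasurableSpace Λ] [BorelSpace Λ] (μ : Measure Λ) [μ.IsAddHaarMeasure] :
    ∀ᵐ a ∂μ, ∀ x, (x, a) ∈ Z →
      Function.Surjective ((fderiv ℝ Φ (x, a)).comp (ContinuousLinearMap.inl ℝ X Λ)) := by
  have := UniformSpace.secondCountable_of_separable X
  have := FiniteDimensional.proper_real Λ
  have h1 : ∀ z, z ∈ Z → ∃ O ∈ 𝓝 z, ∃ N : Set Λ, μ N = 0 ∧ ∀ w ∈ O, Φ w = Φ z →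
      ¬Function.Surjective ((fderiv ℝ Φ w).comp (ContinuousLinearMap.inl ℝ X Λ)) → w.2 ∈ N :=
    fun z hz => by
      obtain ⟨-, hs, d, hd1, hd⟩ := hZ z hz
      exact loc_SardS hΦ hs hd1 hd μ
  choose! O hO N hN hON using h1
  obtain ⟨t, htZ, ht, hcov⟩ := TopologicalSpace.countable_cover_nhdsWithin (f := O) (s := Z)
    fun z hz => mem_nhdsWithin_of_mem_nhds (hO z hz)
  have h2 : μ (⋃ z ∈ t, N z) = 0 := (measure_biUnion_null_iff ht).2 fun z hz => hN z (htZ hz)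
  filter_upwards [measure_eq_zero_iff_ae_notMem.1 h2] with a ha x hx
  by_contra hns
  obtain ⟨z, hz, hxz⟩ := mem_iUnion₂.1 (hcov hx)
  exact ha (mem_iUnion₂.2 ⟨z, hz, hON z (htZ hz) _ hxz
    ((hZ _ hx).1.trans (hZ _ (htZ hz)).1.symm) hns⟩)

end

end Pool.Agent.P.MP_de3acd_gt.FH
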