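import Pool.Agent.P.MP_de3acd_gt.FH.SardG0
import Pool.Agent.P.MP_de3acd_gt.FH.Sard1
import Pool.Agent.P.MP_de3acd_gt.FH.SardS

/-! Sard and Sard-Smale without restriction on the dimension.
Sketch: copy the proofs of Sard1 and SardS, drop the hypotheses on the dimension and use sard_zero' (do not edit those files; reuse their lemmas that have no such hypothesis). -/

open Set Filter Topology MeasureTheory
open scoped ContDiff NNReal ENNReal RealInnerProductSpace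

namespace Pool.Agent.P.MP_de3acd_gt.FH

noncomputable section

variable {A B : Type} [NormedAddCommGroup A] [NormedSpace ℝ A] [FiniteDimensional ℝ A]
  [NormedAddCommGroup B] [NormedSpace ℝ B] [FiniteDimensional ℝ B] [MeasurableSpace B]
  [BorelSpace B]
variable {X Y Z : Type} [NormedAddCommGroup X] [NormedSpace ℝ X] [NormedAddCommGroup Y]
  [NormedSpace ℝ Y] [NormedAddCommGroup Z] [NormedSpace ℝ Z]

omit [FiniteDimensional ℝ B] in
theorem slice_SardG1 {B₁ B₂ A₂ : Type} [NormedAddCommGroup B₁] [NormedSpace ℝ B₁]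
    [FiniteDimensional ℝ B₁] [NormedAddCommGroup B₂] [NormedSpace ℝ B₂] [FiniteDimensional ℝ B₂]
    [NormedAddCommGroup A₂] [NormedSpace ℝ A₂] [FiniteDimensional ℝ A₂] [Nontrivial B₂]
    (μ : Measure B) [μ.IsAddHaarMeasure] (e : B ≃L[ℝ] B₁ × B₂)
    {g : B₁ × A₂ → B₂} {V K : Set (B₁ × A₂)}
    (hV : IsOpen V) (hK : IsCompact K) (hKV : K ⊆ V) (hg : ContDiffOn ℝ ∞ g V) :
    μ (e ⁻¹' ((fun y => (y.1, g y)) ''
      {y ∈ K | (fderiv ℝ g y).comp (ContinuousLinearMap.inr ℝ B₁ A₂) = 0})) = 0 := by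
  borelize B₁ B₂
  set Z := {y ∈ K | (fderiv ℝ g y).comp (ContinuousLinearMap.inr ℝ B₁ A₂) = 0} with hZ
  have c1 : ContinuousOn (fun y => (fderiv ℝ g y).comp (ContinuousLinearMap.inr ℝ B₁ A₂)) K :=
    ((hg.continuousOn_fderiv_of_isOpen hV (by simp)).mono hKV).clm_comp continuousOn_const
  have hZc : IsCompact Z :=
    hK.of_isClosed_subset (c1.preimage_isClosed_of_isClosed hK.isClosed isClosed_singleton)
      fun y hy => hy.1
  have hT : IsCompact ((fun y => (y.1, g y)) '' Z) :=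
    hZc.image_of_continuousOn (continuousOn_fst.prodMk
      (hg.continuousOn.mono fun y hy => hKV hy.1))
  have h0 : ((Measure.addHaar : Measure B₁).prod (Measure.addHaar : Measure B₂))
      ((fun y => (y.1, g y)) '' Z) = 0 := by
    refine Measure.measure_prod_null_of_ae_null hT.measurableSet (Eventually.of_forall fun a => ?_)
    have hc : Continuous fun w : A₂ => (a, w) := by fun_prop
    have h1 := sard_zero' (Measure.addHaar : Measure B₂) (f := fun w => g (a, w))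
      (hV.preimage hc) (hg.comp (contDiff_const.prodMk contDiff_id).contDiffOn fun w hw => hw)
    refine measure_mono_null ?_ h1
    rintro b ⟨⟨y₁, y₂⟩, hy, h2⟩
    obtain ⟨rfl, rfl⟩ := Prod.mk.inj h2
    refine ⟨y₂, ⟨hKV hy.1, ?_⟩, rfl⟩
    have h3 : DifferentiableAt ℝ g (y₁, y₂) :=
      (hg.contDiffAt (hV.mem_nhds (hKV hy.1))).differentiableAt (by simp)
    exact (h3.hasFDerivAt.comp y₂ (hasFDerivAt_prodMk_right y₁ y₂)).fderiv.trans hy.2
  have h4 := Measure.absolutelyContinuous_isAddHaarMeasure (μ.map e)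
    ((Measure.addHaar : Measure B₁).prod (Measure.addHaar : Measure B₂)) h0
  exact le_antisymm ((Measure.le_map_apply e.continuous.aemeasurable _).trans h4.le) zero_le

omit [FiniteDimensional ℝ B] in
theorem loc_SardG1 {B₁ B₂ A₂ : Type} [NormedAddCommGroup B₁] [NormedSpace ℝ B₁]
    [FiniteDimensional ℝ B₁] [NormedAddCommGroup B₂] [NormedSpace ℝ B₂] [FiniteDimensional ℝ B₂]
    [NormedAddCommGroup A₂] [NormedSpace ℝ A₂] [FiniteDimensional ℝ A₂] [Nontrivial B₂]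
    (μ : Measure B) [μ.IsAddHaarMeasure] (e : B ≃L[ℝ] B₁ × B₂)
    {f : A → B} {U : Set A} (hU : IsOpen U)
    (hf : ContDiffOn ℝ ∞ f U) {x₀ : A} (hx : x₀ ∈ U) (P : A →L[ℝ] A₂) (L₀ : A ≃L[ℝ] B₁ × A₂)
    (hL : ∀ v, L₀ v = ((e (fderiv ℝ f x₀ v)).1, P v)) :
    ∃ N ∈ 𝓝 x₀, μ (f '' {x ∈ N | Module.finrank ℝ B₁ =
      Module.finrank ℝ (LinearMap.range (fderiv ℝ f x).toLinearMap)}) = 0 := by
  let π₁ : B →L[ℝ] B₁ := (ContinuousLinearMap.fst ℝ B₁ B₂).comp (e : B →L[ℝ] B₁ × B₂)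
  let π₂ : B →L[ℝ] B₂ := (ContinuousLinearMap.snd ℝ B₁ B₂).comp (e : B →L[ℝ] B₁ × B₂)
  let ψ : A → B₁ × A₂ := fun x => (π₁ (f x), P x)
  have hψ : ContDiffOn ℝ ∞ ψ U := (π₁.contDiff.comp_contDiffOn hf).prodMk P.contDiff.contDiffOn
  have hfd : ∀ x ∈ U, HasFDerivAt f (fderiv ℝ f x) x := fun x hx =>
    ((hf.contDiffAt (hU.mem_nhds hx)).differentiableAt (by simp)).hasFDerivAt
  have hψd : ∀ x ∈ U, HasFDerivAt ψ ((π₁.comp (fderiv ℝ f x)).prod P) x := fun x hx =>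
    (π₁.hasFDerivAt.comp x (hfd x hx)).prodMk P.hasFDerivAt
  have hL' : (L₀ : A →L[ℝ] B₁ × A₂) = (π₁.comp (fderiv ℝ f x₀)).prod P :=
    ContinuousLinearMap.ext hL
  let Φ := (hψ.contDiffAt (hU.mem_nhds hx)).toOpenPartialHomeomorph ψ (hL' ▸ hψd x₀ hx) (by simp)
  have hΦ : (Φ : A → B₁ × A₂) = ψ := rfl
  have hx0 : x₀ ∈ Φ.source := ContDiffAt.mem_toOpenPartialHomeomorph_source _ _ _
  let W : Set A := Φ.source ∩ (U ∩ fderiv ℝ ψ ⁻¹' range ((↑) : (A ≃L[ℝ] B₁ × A₂) → A →L[ℝ] B₁ × A₂))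
  have hW : IsOpen W := Φ.open_source.inter
    ((hψ.continuousOn_fderiv_of_isOpen hU (by simp)).isOpen_inter_preimage hU
      ContinuousLinearEquiv.isOpen)
  have hxW : x₀ ∈ W := ⟨hx0, hx, L₀, hL'.trans (hψd x₀ hx).fderiv.symm⟩
  let V : Set (B₁ × A₂) := Φ.target ∩ Φ.symm ⁻¹' W
  have hV : IsOpen V := Φ.isOpen_inter_preimage_symm hW
  have hs : ContDiffOn ℝ ∞ Φ.symm V := by
    rintro y ⟨hy, -, hy2, L, hy3⟩
    refine (Φ.contDiffAt_symm (f₀' := L) hy ?_ (hψ.contDiffAt (hU.mem_nhds hy2))).contDiffWithinAt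
    rw [hy3]
    exact (hψd _ hy2).differentiableAt.hasFDerivAt
  have hg : ContDiffOn ℝ ∞ (fun y => π₂ (f (Φ.symm y))) V :=
    π₂.contDiff.comp_contDiffOn (hf.comp hs fun y hy => hy.2.2.1)
  obtain ⟨N, hN, hNW, hNc⟩ := local_compact_nhds (hW.mem_nhds hxW)
  have hK : IsCompact (ψ '' N) :=
    hNc.image_of_continuousOn (hψ.continuousOn.mono fun x hx => (hNW hx).2.1)
  have hKV : ψ '' N ⊆ V := by
    rintro _ ⟨x, hx, rfl⟩
    refine ⟨Φ.map_source (hNW hx).1, ?_⟩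
    show Φ.symm (Φ x) ∈ W
    rw [Φ.left_inv (hNW hx).1]
    exact hNW hx
  refine ⟨N, hN, measure_mono_null ?_ (slice_SardG1 μ e hV hK hKV hg)⟩
  rintro _ ⟨x, ⟨hxN, hr⟩, rfl⟩
  obtain ⟨hx1, hx2, L, hx3⟩ := hNW hxN
  have hi : Φ.symm (ψ x) = x := Φ.left_inv hx1
  refine ⟨ψ x, ⟨mem_image_of_mem _ hxN, ?_⟩, ?_⟩
  · have hL2 : (L : A →L[ℝ] B₁ × A₂) = (π₁.comp (fderiv ℝ f x)).prod P :=
      hx3.trans (hψd x hx2).fderiv
    have d1 : HasFDerivAt Φ.symm (L.symm : B₁ × A₂ →L[ℝ] A) (ψ x) :=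
      Φ.hasFDerivAt_symm (Φ.map_source hx1) (by rw [hi, hL2]; exact hψd x hx2)
    have d2 : HasFDerivAt f (fderiv ℝ f x) (Φ.symm (ψ x)) := by rw [hi]; exact hfd x hx2
    have d3 : HasFDerivAt (fun y => π₂ (f (Φ.symm y)))
        (π₂.comp ((fderiv ℝ f x).comp (L.symm : B₁ × A₂ →L[ℝ] A))) (ψ x) :=
      π₂.hasFDerivAt.comp _ (d2.comp _ d1)
    rw [d3.fderiv]
    have hLv : ∀ v, (L v).1 = π₁ (fderiv ℝ f x v) := fun v =>
      congrArg Prod.fst (DFunLike.congr_fun hL2 v)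
    have k1 : LinearMap.range (π₁.comp (fderiv ℝ f x)).toLinearMap = ⊤ :=
      LinearMap.range_eq_top.2 fun b => ⟨L.symm (b, 0), by
        have := hLv (L.symm (b, 0))
        rw [L.apply_symm_apply] at this
        exact this.symm⟩
    have k2 := (π₁.comp (fderiv ℝ f x)).toLinearMap.finrank_range_add_finrank_ker
    have k3 := (fderiv ℝ f x).toLinearMap.finrank_range_add_finrank_ker
    rw [k1, finrank_top] at k2
    have k4 : LinearMap.ker (fderiv ℝ f x).toLinearMap =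
        LinearMap.ker (π₁.comp (fderiv ℝ f x)).toLinearMap :=
      Submodule.eq_of_le_of_finrank_eq (fun v hv => by
        have hv' : fderiv ℝ f x v = 0 := hv
        show π₁ (fderiv ℝ f x v) = 0
        rw [hv', map_zero]) (by omega)
    ext w
    have k5 : L.symm (0, w) ∈ LinearMap.ker (π₁.comp (fderiv ℝ f x)).toLinearMap := by
      have := hLv (L.symm (0, w))
      rw [L.apply_symm_apply] at this
      exact this.symm
    rw [← k4] at k5
    have k6 : fderiv ℝ f x (L.symm (0, w)) = 0 := k5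
    show π₂ (fderiv ℝ f x (L.symm (0, w))) = 0
    rw [k6, map_zero]
  · show (π₁ (f x), π₂ (f (Φ.symm (ψ x)))) = e (f x)
    rw [hi]
    rfl

theorem sard' (μ : Measure B) [μ.IsAddHaarMeasure] {f : A → B} {U : Set A} (hU : IsOpen U)
    (hf : ContDiffOn ℝ ∞ f U) :
    μ (f '' {x ∈ U | ¬Function.Surjective (fderiv ℝ f x)}) = 0 := by
  have key : ∀ r : ℕ, μ (f '' {x ∈ U | ¬Function.Surjective (fderiv ℝ f x) ∧
      r = Module.finrank ℝ (LinearMap.range (fderiv ℝ f x).toLinearMap)}) = 0 := by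
    intro r
    refine measure_null_of_locally_null (μ := OuterMeasure.comap f μ.toOuterMeasure) _ ?_
    rintro x₀ ⟨hx, hs, rfl⟩
    set D := (fderiv ℝ f x₀).toLinearMap with hD
    obtain ⟨B₂, hB⟩ := (LinearMap.range D).exists_isCompl
    obtain ⟨A₁, hA⟩ := (LinearMap.ker D).exists_isCompl
    have k1 := Submodule.finrank_add_eq_of_isCompl hB
    have k2 := D.finrank_range_add_finrank_ker
    have k3 : Module.finrank ℝ (LinearMap.range D) < Module.finrank ℝ B :=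
      Submodule.finrank_lt fun h => hs (LinearMap.range_eq_top.1 h)
    have : Nontrivial B₂ := Module.nontrivial_of_finrank_pos (R := ℝ) (by omega)
    let e := ((LinearMap.range D).prodEquivOfIsCompl B₂ hB).symm.toContinuousLinearEquiv
    let P := (LinearMap.ker D).projectionOnto A₁ hA
    have inj : Function.Injective (D.rangeRestrict.prod P) := by
      refine (injective_iff_map_eq_zero _).2 fun v hv => ?_
      have h1 : D v = 0 := congrArg (fun z => (z.1 : B)) hv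
      have h2 : P v = 0 := congrArg Prod.snd hv
      have h3 : P v = ⟨v, h1⟩ := Submodule.projectionOnto_apply_left hA ⟨v, h1⟩
      exact congrArg Subtype.val (h3.symm.trans h2)
    let L₀ := ((D.rangeRestrict.prod P).linearEquivOfInjective inj
      (by rw [Module.finrank_prod, k2])).toContinuousLinearEquiv
    obtain ⟨N, hN, h0⟩ := loc_SardG1 μ e (A₂ := LinearMap.ker D) hU hf hx
      (LinearMap.toContinuousLinearMap P) L₀ fun v => Prod.ext
        (congrArg Prod.fst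
          (Submodule.prodEquivOfIsCompl_symm_apply_left _ _ hB (D.rangeRestrict v))).symm rfl
    refine ⟨N ∩ _, inter_mem (mem_nhdsWithin_of_mem_nhds hN) self_mem_nhdsWithin, ?_⟩
    refine measure_mono_null (μ := μ) (image_mono fun x hx => ?_) h0
    exact ⟨hx.1, hx.2.2.2⟩
  refine measure_mono_null ?_ (measure_iUnion_null key)
  rintro _ ⟨x, hx, rfl⟩
  exact mem_iUnion.2 ⟨_, x, ⟨hx.1, hx.2, rfl⟩, rfl⟩

theorem locS_SardG1 [CompleteSpace X] [CompleteSpace Y]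
    {Λ : Type} [NormedAddCommGroup Λ] [NormedSpace ℝ Λ] [FiniteDimensional ℝ Λ] {Φ : X × Λ → Y}
    (hΦ : ContDiff ℝ ∞ Φ) {z : X × Λ} (hs : Function.Surjective (fderiv ℝ Φ z)) {d : ℤ}
    (hd : HasIdx ((fderiv ℝ Φ z).comp (ContinuousLinearMap.inl ℝ X Λ)) d)
    [MeasurableSpace Λ] [BorelSpace Λ] (μ : Measure Λ) [μ.IsAddHaarMeasure] :
    ∃ O ∈ 𝓝 z, ∃ N : Set Λ, μ N = 0 ∧ ∀ w ∈ O, Φ w = Φ z →
      ¬Function.Surjective ((fderiv ℝ Φ w).comp (ContinuousLinearMap.inl ℝ X Λ)) → w.2 ∈ N := by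
  have : CompleteSpace Λ := FiniteDimensional.complete ℝ Λ
  have h1 := hd.coprod ((fderiv ℝ Φ z).comp (ContinuousLinearMap.inr ℝ X Λ))
  rw [ContinuousLinearMap.coprod_comp_inl_inr] at h1
  obtain ⟨m, hm⟩ := Int.eq_ofNat_of_zero_le (h1.nonneg hs)
  rw [hm] at h1
  obtain ⟨ψ, π, U, O, hU, hO, hz, hψ, h2, h3⟩ := exists_chart_zero hΦ hs h1
  have hf : ContDiffOn ℝ ∞ (fun a => (ψ a).2) U := contDiff_snd.comp_contDiffOn hψ
  refine ⟨O, hO.mem_nhds hz, _, sard' μ hU hf, fun w hw hw0 hns => ?_⟩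
  obtain ⟨ha, hψa⟩ := h3 w hw hw0
  refine ⟨π w, ⟨ha, fun hsur => hns fun y => ?_⟩, by simp only [hψa]⟩
  have hdψ : HasFDerivAt ψ (fderiv ℝ ψ (π w)) (π w) :=
    ((hψ.contDiffAt (hU.mem_nhds ha)).differentiableAt (by simp)).hasFDerivAt
  have hdΦ : HasFDerivAt Φ (fderiv ℝ Φ w) (ψ (π w)) := by
    rw [hψa]
    exact (hΦ.differentiable (by simp) w).hasFDerivAt
  have h4 : (fderiv ℝ Φ w).comp (fderiv ℝ ψ (π w)) = 0 := by
    refine (hdΦ.comp _ hdψ).unique ((hasFDerivAt_const (Φ z) (π w)).congr_of_eventuallyEq ?_)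
    filter_upwards [hU.mem_nhds ha] with a ha' using (h2 a ha').2.1
  have h5 := (h2 _ ha).2.2.2.2
  rw [hψa] at h5
  obtain ⟨u, hu⟩ := h5 (y, 0)
  have hu1 : fderiv ℝ Φ w u = y := congrArg Prod.fst hu
  rw [hdψ.snd.fderiv] at hsur
  obtain ⟨b, hb⟩ := hsur u.2
  have hb1 : (fderiv ℝ ψ (π w) b).2 = u.2 := hb
  have hb2 : fderiv ℝ Φ w (fderiv ℝ ψ (π w) b) = 0 := congrArg (fun T => T b) h4
  refine ⟨u.1 - (fderiv ℝ ψ (π w) b).1, ?_⟩
  have h6 : ((u.1 - (fderiv ℝ ψ (π w) b).1, 0) : X × Λ) = u - fderiv ℝ ψ (π w) b :=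
    Prod.ext rfl (by rw [Prod.snd_sub, hb1, sub_self])
  change fderiv ℝ Φ w (u.1 - (fderiv ℝ ψ (π w) b).1, 0) = y
  rw [h6, map_sub, hb2, sub_zero, hu1]

theorem sard_smale' [CompleteSpace X] [CompleteSpace Y] [TopologicalSpace.SeparableSpace X]
    {Λ : Type} [NormedAddCommGroup Λ] [NormedSpace ℝ Λ] [FiniteDimensional ℝ Λ] {Φ : X × Λ → Y}
    (hΦ : ContDiff ℝ ∞ Φ) {O : Set (X × Λ)} (hO : ∀ z ∈ O, Φ z = 0 ∧
      Function.Surjective (fderiv ℝ Φ z) ∧
        ∃ d, HasIdx ((fderiv ℝ Φ z).comp (ContinuousLinearMap.inl ℝ X Λ)) d)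
    [MeasurableSpace Λ] [BorelSpace Λ] (μ : Measure Λ) [μ.IsAddHaarMeasure] :
    ∀ᵐ a ∂μ, ∀ x, (x, a) ∈ O →
      Function.Surjective ((fderiv ℝ Φ (x, a)).comp (ContinuousLinearMap.inl ℝ X Λ)) := by
  have := UniformSpace.secondCountable_of_separable X
  have := FiniteDimensional.proper_real Λ
  have h1 : ∀ z, z ∈ O → ∃ Q ∈ 𝓝 z, ∃ N : Set Λ, μ N = 0 ∧ ∀ w ∈ Q, Φ w = Φ z →
      ¬Function.Surjective ((fderiv ℝ Φ w).comp (ContinuousLinearMap.inl ℝ X Λ)) → w.2 ∈ N :=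
    fun z hz => by
      obtain ⟨-, hs, d, hd⟩ := hO z hz
      exact locS_SardG1 hΦ hs hd μ
  choose! Q hQ N hN hQN using h1
  obtain ⟨t, htO, ht, hcov⟩ := TopologicalSpace.countable_cover_nhdsWithin (f := Q) (s := O)
    fun z hz => mem_nhdsWithin_of_mem_nhds (hQ z hz)
  have h2 : μ (⋃ z ∈ t, N z) = 0 := (measure_biUnion_null_iff ht).2 fun z hz => hN z (htO hz)
  filter_upwards [measure_eq_zero_iff_ae_notMem.1 h2] with a ha x hx
  by_contra hns
  obtain ⟨z, hz, hxz⟩ := mem_iUnion₂.1 (hcov hx)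
  exact ha (mem_iUnion₂.2 ⟨z, hz, hQN z (htO hz) _ hxz
    ((hO _ hx).1.trans (hO _ (htO hz)).1.symm) hns⟩)

end

end Pool.Agent.P.MP_de3acd_gt.FH
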