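import Pool.Agent.P.MP_de3acd_gt.FH.SSI1
import Pool.Agent.P.MP_de3acd_gt.FH.SardG1

/-! The Sard-Smale theorem for Banach spaces of parameters.
Sketch: loc_dense: with blk D K l M bijective write K (e j) = D (x j) + D₂ (v j); L μ = ∑ μ j • v j; then D.coprod (D₂ ∘ L) is onto, and this and HasIdx persist for w near z
(surjective_open, HasIdx.eventually, continuity of fderiv). For any a apply sard_smale' to Φ' (x, μ) = Φ (x, a + L μ): almost every μ is regular, so regular μ accumulate at 0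
(Measure.dense_of_ae). Main theorem: for z ∈ Z take a closed ball N around z inside both neighbourhoods; C = N ∩ {w | derivative in x not onto} is closed; the complement of the closed set
snd '' {w ∈ C | Φ w = 0} is open and dense, so residual (residual_of_dense_open). Countably many N cover Z (TopologicalSpace.countable_cover_nhdsWithin; X × Λ is second countable),
eventually_countable_ball or countable_bInter_mem. -/

open Set Filter Topology MeasureTheory
open scoped ContDiff NNReal ENNReal RealInnerProductSpace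

namespace Pool.Agent.P.MP_de3acd_gt.FH

noncomputable section

variable {X Y Λ : Type} [NormedAddCommGroup X] [NormedSpace ℝ X] [CompleteSpace X]
  [NormedAddCommGroup Y] [NormedSpace ℝ Y] [CompleteSpace Y] [NormedAddCommGroup Λ]
  [NormedSpace ℝ Λ] [CompleteSpace Λ] {Φ : X × Λ → Y} {z : X × Λ}

theorem loc_dense [TopologicalSpace.SeparableSpace X] (hΦ : ContDiff ℝ ∞ Φ)
    (hs : Function.Surjective (fderiv ℝ Φ z)) {d : ℤ}
    (hd : HasIdx ((fderiv ℝ Φ z).comp (ContinuousLinearMap.inl ℝ X Λ)) d) :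
    ∃ O ∈ 𝓝 z, Dense {a | ∀ x, (x, a) ∈ O → Φ (x, a) = 0 →
      Function.Surjective ((fderiv ℝ Φ (x, a)).comp (ContinuousLinearMap.inl ℝ X Λ))} := by
  have hc : Continuous (fderiv ℝ Φ) := hΦ.continuous_fderiv (by simp)
  have h1 := ((hc.clm_comp_const (ContinuousLinearMap.inl ℝ X Λ)).tendsto z).eventually
    hd.eventually
  obtain ⟨m, b, K, l, M, hb, -⟩ := hd
  obtain ⟨P, hP⟩ := Module.projective_lifting_property (fderiv ℝ Φ z).toLinearMap K.toLinearMap hs
  obtain ⟨L, hL⟩ : ∃ L : (Fin m → ℝ) →L[ℝ] Λ, ∀ μ, L μ = (P μ).2 :=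
    ⟨(ContinuousLinearMap.snd ℝ X Λ).comp (LinearMap.toContinuousLinearMap P), fun _ => rfl⟩
  obtain ⟨J, hJ⟩ : ∃ J : X × (Fin m → ℝ) →L[ℝ] X × Λ, ∀ q, J q = (q.1, L q.2) :=
    ⟨(ContinuousLinearMap.id ℝ X).prodMap L, fun _ => rfl⟩
  have hJs : Function.Surjective ((fderiv ℝ Φ z).comp J) := fun y => by
    obtain ⟨q, hq⟩ := surjective_coprod_of_blk hb.2 y
    refine ⟨(q.1 + (P q.2).1, q.2), ?_⟩
    have e1 : fderiv ℝ Φ z (P q.2) = K q.2 := LinearMap.congr_fun hP q.2
    have e2 : J (q.1 + (P q.2).1, q.2) = (q.1, 0) + P q.2 := by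
      rw [hJ, hL]
      exact Prod.ext rfl (zero_add _).symm
    rw [ContinuousLinearMap.comp_apply, e2, map_add, e1]
    exact hq
  have h2 := ((hc.clm_comp_const J).tendsto z).eventually (surjective_open hJs)
  refine ⟨_, h1.and h2, fun a => ?_⟩
  have hi : J.comp (ContinuousLinearMap.inl ℝ X (Fin m → ℝ)) = ContinuousLinearMap.inl ℝ X Λ :=
    ContinuousLinearMap.ext fun x => by simp [hJ]
  have hD : ∀ q, fderiv ℝ (fun q => Φ ((0, a) + J q)) q = (fderiv ℝ Φ ((0, a) + J q)).comp J :=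
    fun q => ((hΦ.differentiable (by simp) _).hasFDerivAt.comp q
      (J.hasFDerivAt.const_add (0, a))).fderiv
  have h3 := sard_smale' (Φ := fun q => Φ ((0, a) + J q))
    (hΦ.comp (contDiff_const.add J.contDiff))
    (O := {q | Φ ((0, a) + J q) = 0 ∧
      HasIdx ((fderiv ℝ Φ ((0, a) + J q)).comp (ContinuousLinearMap.inl ℝ X Λ)) d ∧
        Function.Surjective ((fderiv ℝ Φ ((0, a) + J q)).comp J)})
    (fun q hq => ⟨hq.1, by rw [hD]; exact hq.2.2, d, by
      rw [hD, ContinuousLinearMap.comp_assoc, hi]; exact hq.2.1⟩) volume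
  have h4 := map_mem_closure (f := fun μ => a + L μ) (by fun_prop) (Measure.dense_of_ae h3 0)
    (t := {a | ∀ x, (x, a) ∈ {w | HasIdx ((fderiv ℝ Φ w).comp (ContinuousLinearMap.inl ℝ X Λ)) d ∧
      Function.Surjective ((fderiv ℝ Φ w).comp J)} → Φ (x, a) = 0 →
      Function.Surjective ((fderiv ℝ Φ (x, a)).comp (ContinuousLinearMap.inl ℝ X Λ))})
    fun μ hμ x hx h0 => by
      have e : ((0, a) : X × Λ) + J (x, μ) = (x, a + L μ) := by simp [hJ]
      have h5 := hμ x (by rw [mem_setOf_eq, e]; exact ⟨h0, hx⟩)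
      rwa [hD, ContinuousLinearMap.comp_assoc, hi, e] at h5
  simpa using h4

theorem sard_smale_inf [TopologicalSpace.SeparableSpace X] [TopologicalSpace.SeparableSpace Λ]
    (hΦ : ContDiff ℝ ∞ Φ) {Z : Set (X × Λ)} (hZ : ∀ z ∈ Z, Φ z = 0 ∧
      Function.Surjective (fderiv ℝ Φ z) ∧
        ∃ d, HasIdx ((fderiv ℝ Φ z).comp (ContinuousLinearMap.inl ℝ X Λ)) d) :
    ∀ᶠ a in residual Λ, ∀ x, (x, a) ∈ Z →
      Function.Surjective ((fderiv ℝ Φ (x, a)).comp (ContinuousLinearMap.inl ℝ X Λ)) := by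
  have := UniformSpace.secondCountable_of_separable X
  have := UniformSpace.secondCountable_of_separable Λ
  have hc : Continuous fun w => (fderiv ℝ Φ w).comp (ContinuousLinearMap.inl ℝ X Λ) :=
    (hΦ.continuous_fderiv (by simp)).clm_comp_const _
  have ho : IsOpen {w | Function.Surjective
      ((fderiv ℝ Φ w).comp (ContinuousLinearMap.inl ℝ X Λ))} :=
    isOpen_iff_mem_nhds.2 fun w hw => (hc.tendsto w).eventually (surjective_open hw)
  have h1 : ∀ z, z ∈ Z → ∃ N ∈ 𝓝 z, ∀ᶠ a in residual Λ, ∀ x, (x, a) ∈ N → Φ (x, a) = 0 →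
      Function.Surjective ((fderiv ℝ Φ (x, a)).comp (ContinuousLinearMap.inl ℝ X Λ)) := by
    intro z hz
    obtain ⟨-, hs, d, hd⟩ := hZ z hz
    obtain ⟨O, hO, h2⟩ := loc_dense hΦ hs hd
    obtain ⟨O', hO', h3⟩ := loc_closed hΦ hd
    obtain ⟨N, hN, hNc, hNO⟩ := exists_mem_nhds_isClosed_subset (inter_mem hO hO')
    have h4 := h3 _ (hNc.inter ho.isClosed_compl) fun w hw => (hNO hw.1).2
    refine ⟨N, hN, mem_of_superset (residual_of_dense_open h4.isOpen_compl (h2.mono ?_)) ?_⟩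
    · rintro a ha ⟨⟨x, a'⟩, ⟨hw, h0⟩, rfl⟩
      exact hw.2 (ha x (hNO hw.1).1 h0)
    · intro a ha x hx h0
      by_contra hn
      exact ha ⟨(x, a), ⟨⟨hx, hn⟩, h0⟩, rfl⟩
  choose! N hN hres using h1
  obtain ⟨t, htZ, ht, hcov⟩ := TopologicalSpace.countable_cover_nhdsWithin (f := N) (s := Z)
    fun z hz => mem_nhdsWithin_of_mem_nhds (hN z hz)
  filter_upwards [(eventually_countable_ball ht).2 fun z hz => hres z (htZ hz)] with a ha x hx
  obtain ⟨z, hz, hxz⟩ := mem_iUnion₂.1 (hcov hx)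
  exact ha z hz x hxz (hZ _ hx).1

end

end Pool.Agent.P.MP_de3acd_gt.FH
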