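import Pool.Agent.P.MP_de3acd_gt.FH.RvA
import Pool.Agent.P.MP_de3acd_gt.FH.SSI2
import Pool.Agent.P.MP_de3acd_gt.FH.UC
import Pool.Agent.P.MP_de3acd_gt.FH.Rell
import Pool.Agent.P.MP_de3acd_gt.FH.Cay

/-! Generic almost complex structures are regular, in a chart and for fixed ends.
Sketch: sard_smale_inf for Φ of exists_univ and the set of all (xi x y u, a) with J, Za, Zi, u as in the statement (second_Rell, sep_Lam). m = mop 1 (1 + Za (u)) is an equivalence with inverse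
mop 1 (Zi (u)) (exists_mop_equiv), so d1 Φ has the index of Du (ell_fld, Ell.exists_hasIdx, HasIdx.conj) and is onto iff Du is. fderiv Φ is onto: Ell.exists_finset for
k i = m⁻¹ (fderiv Φ (0, single i)), represented by ε i • Zi (Z i η), η = ds u - J₀ (J (ds u)). For ζ ≠ 0 in the kernel of the adjoint, fn ζ is Bdd and solves the adjoint equation
(Ell.regular for h.adj with ψ = 0), so it is nonzero on a dense set (uc_dop); ⟪to0 1 (k i), to0 2 ζ⟫ = ε i * ip 0 (Z i η) (adjoint Zi (fn ζ)) (rep_to0, Rep.inner, rep_fn).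
ds u ≠ 0 by Pth.eq_of_ds, dense by dop_ds and uc_dop; Cpt.sub_ne. -/

open Set Filter Topology MeasureTheory
open scoped ContDiff NNReal ENNReal RealInnerProductSpace

namespace Pool.Agent.P.MP_de3acd_gt.FH

noncomputable section

variable {V : Type} [NormedAddCommGroup V] [InnerProductSpace ℝ V] [Sym V]
variable {J₀ : ℝ → V → V →L[ℝ] V} {Z : ℕ → ℝ → V → V →L[ℝ] V} {Y : ℝ → V → V} {x y : ℝ → V}

theorem onto_RvB (hJ : ACS Ω0 J₀) (hZ : ∀ i, SP (Z i)) (hY : SP Y) (hx : GOrb Ω0 1 Y x)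
    (hy : GOrb Ω0 1 Y y) (hxy : x ≠ y) {ε : ℕ → ℝ} (hε : ∀ i, 0 < ε i) {a : Lam}
    {J Za Zi : ℝ → V → V →L[ℝ] V} (aJ : ACS Ω0 J) (pj : PJ J₀ Z ε a J Za Zi)
    (kill : KillV J Z Y x y) {u : Pl → V} (hu : Nice J (sta Y) x y u)
    {D : W 2 V × Lam →L[ℝ] W 1 V} (h1 : D.comp (ContinuousLinearMap.inl ℝ _ _) =
      (mop 1 fun p => 1 + Za p.2 (u p)).comp (Du J (sta Y) u))
    (h2 : ∀ i, Rep 1 (D (0, _root_.lp.single 2 i (1 : ℝ))) fun p =>
      ε i • Z i p.2 (u p) (ds u p - J₀ p.2 (u p) (J p.2 (u p) (ds u p)))) :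
    Function.Surjective D ∧ (∃ d, HasIdx (D.comp (ContinuousLinearMap.inl ℝ _ _)) d) ∧
      (Function.Surjective (D.comp (ContinuousLinearMap.inl ℝ _ _)) →
        Function.Surjective (Du J (sta Y) u)) := by
  have el : Ell 1 (cJ J u) (cS J (sta Y) u) := ell_fld aJ (fld_sta hY le_rfl) hx hy hu.pth
  have bP : Bdd fun p : Pl => 1 + Za p.2 (u p) := (bdd_const 1).add (Bdd.comp pj.sa hu.bdd)
  have pP : Per fun p : Pl => 1 + Za p.2 (u p) := fun s t =>
    congrArg (1 + ·) (pj.sa.per_comp hu.per s t)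
  have bQ := Bdd.comp pj.si hu.bdd
  have pQ := pj.si.per_comp hu.per
  obtain ⟨m, m1, m2⟩ := exists_mop_equiv (k := 1) one_le_two bP pP bQ pQ
    (fun p v => pj.right _ _ v) fun p v => pj.left _ _ v
  have he : ∀ ξ, D.comp (ContinuousLinearMap.inl ℝ _ _) ξ = m (Du J (sta Y) u ξ) := fun ξ => by
    rw [h1, m1, ContinuousLinearMap.comp_apply]
  refine ⟨fun η => ?_, el.exists_hasIdx.imp fun d hd =>
    hd.conj (ContinuousLinearEquiv.refl ℝ _) m he, fun hs η => ?_⟩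
  · have su := hu.bdd.ds.1
    have cu := hu.bdd.1
    have d1 : Dense {p | ds u p ≠ 0} := uc_dop el.toCoef su (dop_ds aJ.1 hY cu hu.eq) fun e =>
      hxy (hu.pth.eq_of_ds (Orb.contDiff hY.1 hx.1) (Orb.contDiff hY.1 hy.1) hx.1.2 hy.1.2 e).2
    have sη : ContDiff ℝ ∞ fun p : Pl => ds u p - J₀ p.2 (u p) (J p.2 (u p) (ds u p)) :=
      su.sub ((hJ.1.contDiff_comp cu).clm_apply ((aJ.1.contDiff_comp cu).clm_apply su))
    obtain ⟨s, H⟩ := el.exists_finset (fun i => m.symm (D (0, _root_.lp.single 2 i (1 : ℝ))))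
      fun ζ e h0 => by
        obtain ⟨b1, b2⟩ := el.adj.regular (ψ := 0) (e.trans (map_zero _).symm)
        have d2 := uc_dop el.adj.toCoef b1.1 (congrFun b2)
          fun e0 => h0 (((rep_fn ζ).eq_zero (continuous_fn ζ) (per_fn ζ)).2 e0)
        obtain ⟨i, hi⟩ := kill u hu _
          (fun p => ContinuousLinearMap.adjoint (Zi p.2 (u p)) (fn ζ p)) sη.continuous
          ((ContinuousLinearMap.adjoint.continuous.comp bQ.1.continuous).clm_apply
            (continuous_fn ζ))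
          (d1.mono fun p hp => Cpt.sub_ne (hJ.2 _ _) (aJ.2 _ _) hp)
          (d2.mono fun p (hp : fn ζ p ≠ 0) e0 => hp (by
            rw [← inner_self_eq_zero (𝕜 := ℝ)]
            nth_rewrite 1 [← pj.left p.2 (u p) (fn ζ p)]
            rw [← ContinuousLinearMap.adjoint_inner_right, e0, inner_zero_right]))
        refine ⟨i, ?_⟩
        rw [m2, Rep.inner (rep_to0.2 ((h2 i).mop one_le_two bQ pQ)) (rep_to0.2 (rep_fn ζ))
          (bQ.1.clm_apply ((((hZ i).contDiff_comp cu).clm_apply sη).const_smul (ε i)))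
          (fun s t => by
            simp only [pj.si.2 t, (hZ i).2 t, hJ.1.2 t, aJ.1.2 t, hu.per s t, hu.per.ds s t])
          b1.1 (per_fn ζ)]
        refine ne_of_eq_of_ne ?_ (mul_ne_zero (hε i).ne' hi)
        rw [ip_zero, ip_zero, ← integral_const_mul]
        simp only [map_smul, real_inner_smul_left, ContinuousLinearMap.adjoint_inner_right]
    obtain ⟨ξ, μ, e⟩ := H (m.symm η)
    refine ⟨(ξ, 0) + ∑ i ∈ s, μ i • (0, _root_.lp.single 2 i (1 : ℝ)), ?_⟩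
    rw [← m.apply_symm_apply η, ← e, map_add, map_add, map_sum, map_sum]
    simp only [map_smul, ContinuousLinearEquiv.apply_symm_apply]
    exact congrArg (· + _) (he ξ)
  · obtain ⟨ξ, e⟩ := hs (m η)
    exact ⟨ξ, m.injective ((he ξ).symm.trans e)⟩

theorem rv (hJ : ACS Ω0 J₀) (hZ : ∀ i, SP (Z i) ∧ Anti J₀ (Z i)) (hY : SP Y) (hx : GOrb Ω0 1 Y x)
    (hy : GOrb Ω0 1 Y y) (hxy : x ≠ y) : ∃ δ : ℕ → ℝ, (∀ i, 0 < δ i) ∧ ∀ ε, Sml δ ε →
      ∀ᶠ a in residual Lam, ∀ J Za Zi : ℝ → V → V →L[ℝ] V, ACS Ω0 J → PJ J₀ Z ε a J Za Zi →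
        KillV J Z Y x y → ∀ u, Nice J (sta Y) x y u → Function.Surjective (Du J (sta Y) u) := by
  obtain ⟨δ, h0, H⟩ := exists_univ hJ hZ hY hx hy
  refine ⟨δ, h0, fun ε hε => ?_⟩
  obtain ⟨Φ, hΦ, K⟩ := H ε hε
  have := sep_Lam
  have key := sard_smale_inf hΦ (Z := {z | ∃ J Za Zi u, ACS Ω0 J ∧ PJ J₀ Z ε z.2 J Za Zi ∧
      KillV J Z Y x y ∧ Nice J (sta Y) x y u ∧ z.1 = xi x y u}) (by
    rintro ⟨_, a⟩ ⟨J, Za, Zi, u, aJ, pj, kill, hu, rfl⟩
    obtain ⟨k1, k2, k3⟩ := K a J Za Zi u aJ pj hu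
    obtain ⟨r1, r2, -⟩ := onto_RvB hJ (fun i => (hZ i).1) hY hx hy hxy hε.1 aJ pj kill hu k2 k3
    exact ⟨k1, r1, r2⟩)
  filter_upwards [key] with a ha J Za Zi aJ pj kill u hu
  obtain ⟨-, k2, k3⟩ := K a J Za Zi u aJ pj hu
  exact (onto_RvB hJ (fun i => (hZ i).1) hY hx hy hxy hε.1 aJ pj kill hu k2 k3).2.2
    (ha _ ⟨J, Za, Zi, u, aJ, pj, kill, hu, rfl⟩)

end

end Pool.Agent.P.MP_de3acd_gt.FH
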