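import Pool.Agent.P.MP_de3acd_gt.FH.Ops

/-! The boundary of a compact oriented one-manifold has as many positive as negative points.
Sketch: each z ∈ K has a chart c and a closed parameter interval [a, b] ∋ 0 inside the chart interval with
c '' [a, b] ⊆ K and c '' [a, b] ∈ 𝓝[K] z (a < 0 < b, or b = 0 for z ∈ Bp, a = 0 for z ∈ Bm; K ∈ L z and Kᶜ ∈ R z describe
c ⁻¹' K near 0). Take a finite subcover, P = all points c a, c b together with Bp ∪ Bm (finite, P ⊆ K). An arc is a set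
c '' Ioo t t' with a ≤ t < t' ≤ b in one of the finitely many segments, c t, c t' ∈ P, disjoint from P. Every point of
K \ P lies in an arc. An arc is open in Z, and closed in K \ P (its closure lies in the compact c '' Icc t t'), and
connected, so two arcs that meet are equal. Define out p A := A ∈ R p and inn p A := A ∈ L p for p ∈ P and arcs A.
Each arc A has exactly one p ∈ P with out p A (its start: p ∈ closure A because R p ≤ 𝓝 p is NeBot; the end point
is excluded by injectivity of c) and p ∉ Bp; each p ∈ P \ Bp has exactly one arc A with out p A. So the number of arcs is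
#(P \ Bp), and in the same way #(P \ Bm). -/

open Set Filter Topology MeasureTheory
open scoped ContDiff NNReal ENNReal RealInnerProductSpace

namespace Pool.Agent.P.MP_de3acd_gt.FH

noncomputable section

theorem nhdsLT_sup_pure_SC1 (x : ℝ) : 𝓝[<] x ⊔ pure x = 𝓝[≤] x := by
  rw [← Iio_union_right, nhdsWithin_union, nhdsWithin_singleton]

theorem line_sum_SC1 (r l : ℝ → ℤ) {a b : ℝ}
    (hr : ∀ x, ∀ᶠ s in 𝓝[>] x, r s = r x ∧ l s = r x)
    (hl : ∀ x, ∀ᶠ s in 𝓝[<] x, r s = l x ∧ l s = l x)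
    (h0 : ∀ x, x ∉ Icc a b → r x = 0 ∧ l x = 0) :
    (Function.support fun x => r x - l x).Finite ∧ ∑ᶠ x, (r x - l x) = 0 := by
  classical
  have hsub : (Function.support fun x => r x - l x) ⊆ Icc a b := fun x hx => by
    by_contra hc
    exact hx (by simp [h0 x hc])
  have hfin : (Function.support fun x => r x - l x).Finite := by
    have h1 : (Icc a b ∩ Function.support fun x => r x - l x).Finite := by
      refine isCompact_Icc.induction_on
        (p := fun s => (s ∩ Function.support fun x => r x - l x).Finite) (by simp)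
        (fun s t hst ht => ht.subset (inter_subset_inter_left _ hst))
        (fun s t hs ht => by rw [union_inter_distrib_right]; exact hs.union ht) fun x _ => ?_
      refine ⟨{s | s ≠ x → r s - l s = 0}, mem_nhdsWithin_of_mem_nhds ?_,
        (finite_singleton x).subset fun s hs => by_contra fun hc => hs.2 (hs.1 hc)⟩
      refine eventually_nhdsWithin_iff.1 (?_ : ∀ᶠ s in 𝓝[≠] x, r s - l s = 0)
      rw [← nhdsLT_sup_nhdsGT, eventually_sup]
      exact ⟨(hl x).mono fun s hs => by rw [hs.1, hs.2, sub_self],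
        (hr x).mono fun s hs => by rw [hs.1, hs.2, sub_self]⟩
    rwa [inter_eq_right.2 hsub] at h1
  refine ⟨hfin, ?_⟩
  rw [finsum_eq_sum _ hfin]
  have hG : IsLocallyConstant fun x => r x - ∑ t ∈ hfin.toFinset, if t ≤ x then r t - l t else 0 := by
    rw [IsLocallyConstant.iff_eventually_eq]
    intro x
    rw [← nhdsLE_sup_nhdsGT, ← nhdsLT_sup_pure_SC1, eventually_sup, eventually_sup]
    refine ⟨⟨?_, by simp⟩, ?_⟩
    · have h2 : ∀ᶠ s in 𝓝[<] x, ∀ t ∈ hfin.toFinset, (t ≤ s ↔ t < x) := by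
        refine (Finset.eventually_all _).2 fun t _ => ?_
        by_cases ht : t < x
        · exact mem_of_superset (mem_nhdsWithin_of_mem_nhds (Ici_mem_nhds ht))
            fun s hs => iff_of_true hs ht
        · exact eventually_mem_nhdsWithin.mono fun s hs =>
            iff_of_false (fun h => ht (h.trans_lt hs)) ht
      filter_upwards [hl x, h2] with s hs hs'
      have h3 : ∑ t ∈ hfin.toFinset, (if t ≤ x then r t - l t else 0) =
          (∑ t ∈ hfin.toFinset, if t ≤ s then r t - l t else 0) +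
            ∑ t ∈ hfin.toFinset, if x = t then r t - l t else 0 := by
        rw [← Finset.sum_add_distrib]
        refine Finset.sum_congr rfl fun t ht => ?_
        simp only [hs' t ht]
        rcases lt_trichotomy t x with h | h | h
        · simp [h, h.le, h.ne']
        · simp [h]
        · simp [h.not_ge, h.not_gt, h.ne]
      have h4 : (∑ t ∈ hfin.toFinset, if x = t then r t - l t else 0) = r x - l x := by
        rw [Finset.sum_ite_eq]
        split_ifs with h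
        · rfl
        · by_contra hc
          exact h (hfin.mem_toFinset.2 (Ne.symm hc))
      rw [h3, h4, hs.1]
      ring
    · have h2 : ∀ᶠ s in 𝓝[>] x, ∀ t ∈ hfin.toFinset, (t ≤ s ↔ t ≤ x) := by
        refine (Finset.eventually_all _).2 fun t _ => ?_
        by_cases ht : t ≤ x
        · exact eventually_mem_nhdsWithin.mono fun s hs => iff_of_true (ht.trans (le_of_lt hs)) ht
        · exact mem_of_superset (mem_nhdsWithin_of_mem_nhds (Iio_mem_nhds (not_le.1 ht)))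
            fun s hs => iff_of_false (not_le.2 hs) ht
      filter_upwards [hr x, h2] with s hs hs'
      rw [hs.1, Finset.sum_congr rfl fun t ht => if_congr (hs' t ht) rfl rfl]
  have h5 := hG.apply_eq_of_preconnectedSpace (a - 1) (b + 1)
  rw [(h0 (a - 1) fun h => by linarith only [h.1]).1, (h0 (b + 1) fun h => by linarith only [h.2]).1,
    Finset.sum_congr rfl fun t ht => if_neg (show ¬ t ≤ a - 1 from fun h => by
      linarith only [h, (hsub (hfin.mem_toFinset.1 ht)).1]),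
    Finset.sum_congr rfl fun t ht => if_pos (show t ≤ b + 1 from by
      linarith only [(hsub (hfin.mem_toFinset.1 ht)).2])] at h5
  simp only [Finset.sum_const_zero] at h5
  linarith only [h5]

open Classical in
/-- The indicator of membership in a filter. -/
def ind_SC1 {X : Type} (F : Filter X) (A : Set X) : ℤ := if A ∈ F then 1 else 0

theorem ind_pos_SC1 {X : Type} {F : Filter X} {A : Set X} (h : A ∈ F) : ind_SC1 F A = 1 := if_pos h

theorem ind_neg_SC1 {X : Type} {F : Filter X} [F.NeBot] {A : Set X} (h : Aᶜ ∈ F) :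
    ind_SC1 F A = 0 := if_neg fun h' => compl_notMem h' h

theorem ind_congr_SC1 {X Y : Type} {F : Filter X} {G : Filter Y} {A : Set X} {B : Set Y}
    (h : A ∈ F ↔ B ∈ G) : ind_SC1 F A = ind_SC1 G B := by
  unfold ind_SC1
  by_cases h' : B ∈ G
  · rw [if_pos h', if_pos (h.2 h')]
  · rw [if_neg h', if_neg (mt h.1 h')]

theorem ind_split_SC1 {X : Type} {F : Filter X} [F.NeBot] (A : Set X) {S : Set X}
    (h : S ∈ F ∨ Sᶜ ∈ F) : ind_SC1 F A = ind_SC1 F (A ∩ S) + ind_SC1 F (A ∩ Sᶜ) := by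
  rcases h with h | h
  · rw [ind_neg_SC1 (A := A ∩ Sᶜ) (mem_of_superset h fun x hx hc => hc.2 hx), add_zero]
    exact ind_congr_SC1 (by simp [h])
  · rw [ind_neg_SC1 (A := A ∩ S) (mem_of_superset h fun x hx hc => hx hc.2), zero_add]
    exact ind_congr_SC1 (by simp [h])

theorem dec_inter_SC1 {X : Type} {F : Filter X} {A B : Set X} (h : A ∈ F ∨ Aᶜ ∈ F)
    (h' : B ∈ F ∨ Bᶜ ∈ F) : A ∩ B ∈ F ∨ (A ∩ B)ᶜ ∈ F := by
  rcases h with h | h
  · rcases h' with h' | h'
    · exact Or.inl (inter_mem h h')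
    · exact Or.inr (mem_of_superset h' fun x hx hc => hx hc.2)
  · exact Or.inr (mem_of_superset h fun x hx hc => hx hc.1)

theorem dec_compl_SC1 {X : Type} {F : Filter X} {A : Set X} (h : A ∈ F ∨ Aᶜ ∈ F) :
    Aᶜ ∈ F ∨ Aᶜᶜ ∈ F := by
  rw [compl_compl]; exact h.symm

theorem dec_union_SC1 {X : Type} {F : Filter X} {A B : Set X} (h : A ∈ F ∨ Aᶜ ∈ F)
    (h' : B ∈ F ∨ Bᶜ ∈ F) : A ∪ B ∈ F ∨ (A ∪ B)ᶜ ∈ F := by
  have := dec_compl_SC1 (dec_inter_SC1 (dec_compl_SC1 h) (dec_compl_SC1 h'))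
  rwa [← compl_union, compl_compl] at this

theorem ind_loc_SC1 {U O : Set ℝ} (hO : IsOpen O) {x : ℝ} [(𝓝[O] x).NeBot]
    (h : U ∈ 𝓝[O] x ∨ Uᶜ ∈ 𝓝[O] x) : ∀ᶠ s in 𝓝[O] x,
      ind_SC1 (𝓝[>] s) U = ind_SC1 (𝓝[O] x) U ∧ ind_SC1 (𝓝[<] s) U = ind_SC1 (𝓝[O] x) U := by
  have key : ∀ V ∈ 𝓝[O] x, ∀ᶠ s in 𝓝[O] x, V ∈ 𝓝 s := fun V hV => by
    filter_upwards [eventually_mem_nhdsWithin_iff.2 hV, self_mem_nhdsWithin] with s hs hs'
    rwa [hO.nhdsWithin_eq hs'] at hs
  rcases h with h | h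
  · refine (key _ h).mono fun s hs => ?_
    rw [ind_pos_SC1 h, ind_pos_SC1 (mem_nhdsWithin_of_mem_nhds hs),
      ind_pos_SC1 (mem_nhdsWithin_of_mem_nhds hs)]
    exact ⟨rfl, rfl⟩
  · refine (key _ h).mono fun s hs => ?_
    rw [ind_neg_SC1 h, ind_neg_SC1 (mem_nhdsWithin_of_mem_nhds hs),
      ind_neg_SC1 (mem_nhdsWithin_of_mem_nhds hs)]
    exact ⟨rfl, rfl⟩

theorem line_set_SC1 {U : Set ℝ} {a b : ℝ} (hU : U ⊆ Icc a b)
    (h : ∀ x ∈ Icc a b, (U ∈ 𝓝[>] x ∨ Uᶜ ∈ 𝓝[>] x) ∧ (U ∈ 𝓝[<] x ∨ Uᶜ ∈ 𝓝[<] x)) :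
    (Function.support fun x => ind_SC1 (𝓝[>] x) U - ind_SC1 (𝓝[<] x) U).Finite ∧
      ∑ᶠ x, (ind_SC1 (𝓝[>] x) U - ind_SC1 (𝓝[<] x) U) = 0 := by
  have h1 : ∀ x, x ∉ Icc a b → Uᶜ ∈ 𝓝 x := fun x hx =>
    mem_of_superset (isClosed_Icc.isOpen_compl.mem_nhds hx) (compl_subset_compl.2 hU)
  refine line_sum_SC1 _ _ (a := a) (b := b) (fun x => ind_loc_SC1 isOpen_Ioi ?_)
    (fun x => ind_loc_SC1 isOpen_Iio ?_) fun x hx =>
      ⟨ind_neg_SC1 (mem_nhdsWithin_of_mem_nhds (h1 x hx)),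
        ind_neg_SC1 (mem_nhdsWithin_of_mem_nhds (h1 x hx))⟩
  · by_cases hx : x ∈ Icc a b
    · exact (h x hx).1
    · exact Or.inr (mem_nhdsWithin_of_mem_nhds (h1 x hx))
  · by_cases hx : x ∈ Icc a b
    · exact (h x hx).2
    · exact Or.inr (mem_nhdsWithin_of_mem_nhds (h1 x hx))

theorem dec_Icc_SC1 (a b x : ℝ) : (Icc a b ∈ 𝓝[>] x ∨ (Icc a b)ᶜ ∈ 𝓝[>] x) ∧
    (Icc a b ∈ 𝓝[<] x ∨ (Icc a b)ᶜ ∈ 𝓝[<] x) := by
  constructor
  · by_cases h : x ∈ Ico a b
    · exact Or.inl (Icc_mem_nhdsGT_of_mem h)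
    · right
      by_cases h1 : x < a
      · exact mem_nhdsWithin_of_mem_nhds (mem_of_superset (Iio_mem_nhds h1)
          fun s hs hc => absurd hc.1 (not_le.2 hs))
      · have h2 : b ≤ x := not_lt.1 fun h2 => h ⟨not_lt.1 h1, h2⟩
        exact mem_of_superset self_mem_nhdsWithin fun s hs hc =>
          absurd hc.2 (not_le.2 (h2.trans_lt hs))
  · by_cases h : x ∈ Ioc a b
    · exact Or.inl (Icc_mem_nhdsLT_of_mem h)
    · right
      by_cases h1 : b < x
      · exact mem_nhdsWithin_of_mem_nhds (mem_of_superset (Ioi_mem_nhds h1)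
          fun s hs hc => absurd hc.2 (not_le.2 hs))
      · have h2 : x ≤ a := not_lt.1 fun h2 => h ⟨h2, not_lt.1 h1⟩
        exact mem_of_superset self_mem_nhdsWithin fun s hs hc =>
          absurd hc.1 (not_le.2 (lt_of_lt_of_le hs h2))

theorem signed_count_top {X : Type} [TopologicalSpace X] [T2Space X] {Z K Bp Bm : Set X}
    {R L : X → Filter X} (hK : IsCompact K) (hZ : K ⊆ Z)
    (hc : ∀ z ∈ K, ∃ (c : ℝ → X) (δ : ℝ), 0 < δ ∧ c 0 = z ∧ InjOn c (Ioo (-δ) δ) ∧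
      ∀ t ∈ Ioo (-δ) δ, map c (𝓝 t) = 𝓝[Z] (c t) ∧ map c (𝓝[>] t) = R (c t) ∧
        map c (𝓝[<] t) = L (c t))
    (fp : Bp.Finite) (fm : Bm.Finite) (sp : Bp ⊆ K) (sm : Bm ⊆ K)
    (hp : ∀ z ∈ Bp, K ∈ L z ∧ Kᶜ ∈ R z) (hm : ∀ z ∈ Bm, K ∈ R z ∧ Kᶜ ∈ L z)
    (hi : ∀ z ∈ K, z ∉ Bp → z ∉ Bm → K ∈ 𝓝[Z] z) : Bp.ncard = Bm.ncard := by
  have hRL : ∀ z ∈ K, (R z).NeBot ∧ (L z).NeBot ∧ R z ≤ 𝓝[Z] z ∧ L z ≤ 𝓝[Z] z := by
    intro z hz
    obtain ⟨c, δ, hδ, rfl, -, h⟩ := hc z hz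
    obtain ⟨h1, h2, h3⟩ := h 0 ⟨by linarith only [hδ], hδ⟩
    rw [← h1, ← h2, ← h3]
    exact ⟨inferInstance, inferInstance, map_mono nhdsWithin_le_nhds, map_mono nhdsWithin_le_nhds⟩
  let Tm : Set X → Prop := fun A => ∀ z ∈ K, (A ∈ R z ∨ Aᶜ ∈ R z) ∧ (A ∈ L z ∨ Aᶜ ∈ L z)
  let g : Set X → X → ℤ := fun A => K.indicator fun z => ind_SC1 (R z) A - ind_SC1 (L z) A
  have hout : ∀ {A S : Set X}, IsClosed S → A ⊆ S → ∀ z, z ∉ S → g A z = 0 := by
    intro A S hS hA z hz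
    by_cases hzK : z ∈ K
    · obtain ⟨n1, n2, l1, l2⟩ := hRL z hzK
      have h1 : Aᶜ ∈ 𝓝[Z] z := mem_nhdsWithin_of_mem_nhds
        (mem_of_superset (hS.isOpen_compl.mem_nhds hz) (compl_subset_compl.2 hA))
      simp only [g, indicator_of_mem hzK, ind_neg_SC1 (l1 h1), ind_neg_SC1 (l2 h1), sub_self]
    · exact indicator_of_notMem hzK _
  have main : ∃ S, K ⊆ S ∧ Tm S ∧ ∀ A, Tm A → A ⊆ K → A ⊆ S →
      (Function.support (g A)).Finite ∧ ∑ᶠ z, g A z = 0 := by
    refine hK.induction_on (p := fun s => ∃ S, s ⊆ S ∧ Tm S ∧ ∀ A, Tm A → A ⊆ K → A ⊆ S →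
      (Function.support (g A)).Finite ∧ ∑ᶠ z, g A z = 0) ?_ ?_ ?_ ?_
    · refine ⟨∅, subset_rfl, fun z _ => ⟨Or.inr (by simp), Or.inr (by simp)⟩, fun A _ _ hA => ?_⟩
      have : g A = fun _ => 0 := funext fun z => hout isClosed_empty hA z (notMem_empty z)
      simp [this]
    · rintro s t hst ⟨S, h1, h2⟩
      exact ⟨S, hst.trans h1, h2⟩
    · rintro s t ⟨S, h1, h2, h3⟩ ⟨T, k1, k2, k3⟩
      refine ⟨S ∪ T, union_subset_union h1 k1, fun z hz =>
        ⟨dec_union_SC1 (h2 z hz).1 (k2 z hz).1, dec_union_SC1 (h2 z hz).2 (k2 z hz).2⟩,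
        fun A hA hAK hAS => ?_⟩
      obtain ⟨f1, s1⟩ := h3 (A ∩ S) (fun z hz =>
        ⟨dec_inter_SC1 (hA z hz).1 (h2 z hz).1, dec_inter_SC1 (hA z hz).2 (h2 z hz).2⟩)
        (inter_subset_left.trans hAK) inter_subset_right
      obtain ⟨f2, s2⟩ := k3 (A ∩ Sᶜ) (fun z hz =>
        ⟨dec_inter_SC1 (hA z hz).1 (dec_compl_SC1 (h2 z hz).1),
          dec_inter_SC1 (hA z hz).2 (dec_compl_SC1 (h2 z hz).2)⟩)
        (inter_subset_left.trans hAK) fun z hz => (hAS hz.1).resolve_left hz.2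
      have e : g A = fun z => g (A ∩ S) z + g (A ∩ Sᶜ) z := by
        funext z
        by_cases hz : z ∈ K
        · obtain ⟨n1, n2, -, -⟩ := hRL z hz
          simp only [g, indicator_of_mem hz]
          rw [ind_split_SC1 A (h2 z hz).1, ind_split_SC1 A (h2 z hz).2]
          ring
        · simp only [g, indicator_of_notMem hz, add_zero]
      rw [e]
      exact ⟨(f1.union f2).subset (Function.support_add _ _),
        by rw [finsum_add_distrib f1 f2, s1, s2, add_zero]⟩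
    · intro z hz
      obtain ⟨c, δ, hδ, rfl, hinj, h⟩ := hc z hz
      have hI : Icc (-(δ / 2)) (δ / 2) ⊆ Ioo (-δ) δ := fun t ht =>
        ⟨by linarith only [ht.1, hδ], by linarith only [ht.2, hδ]⟩
      have hct : ∀ t ∈ Ioo (-δ) δ, ContinuousAt c t := fun t ht =>
        (h t ht).1.le.trans nhdsWithin_le_nhds
      have hS : IsClosed (c '' Icc (-(δ / 2)) (δ / 2)) :=
        (isCompact_Icc.image_of_continuousOn fun t ht =>
          (hct t (hI ht)).continuousWithinAt).isClosed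
      have hpre : ∀ {A : Set X} {U : Set ℝ}, (∀ t ∈ Ioo (-δ) δ, c t ∈ A ↔ t ∈ U) →
          ∀ t ∈ Ioo (-δ) δ, (A ∈ R (c t) ↔ U ∈ 𝓝[>] t) ∧ (A ∈ L (c t) ↔ U ∈ 𝓝[<] t) := by
        intro A U hAU t ht
        have h1 : ∀ᶠ s in 𝓝 t, c s ∈ A ↔ s ∈ U :=
          mem_of_superset (isOpen_Ioo.mem_nhds ht) hAU
        rw [← (h t ht).2.1, ← (h t ht).2.2]
        exact ⟨eventually_congr (h1.filter_mono nhdsWithin_le_nhds),
          eventually_congr (h1.filter_mono nhdsWithin_le_nhds)⟩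
      refine ⟨c '' Icc (-(δ / 2)) (δ / 2), nhdsWithin_mono _ hZ ?_, _, subset_rfl, fun p hp => ?_,
        fun A hA hAK hAS => ?_⟩
      · rw [← (h 0 ⟨by linarith only [hδ], hδ⟩).1]
        exact image_mem_map (Icc_mem_nhds (by linarith only [hδ]) (by linarith only [hδ]))
      · by_cases hp' : p ∈ c '' Icc (-(δ / 2)) (δ / 2)
        · obtain ⟨t, ht, rfl⟩ := hp'
          have h1 : ∀ s ∈ Ioo (-δ) δ, c s ∈ c '' Icc (-(δ / 2)) (δ / 2) ↔
              s ∈ Icc (-(δ / 2)) (δ / 2) := fun s hs => hinj.mem_image_iff hI hs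
          have h2 := hpre h1 t (hI ht)
          have h3 := hpre (A := (c '' Icc (-(δ / 2)) (δ / 2))ᶜ) (U := (Icc (-(δ / 2)) (δ / 2))ᶜ)
            (fun s hs => not_congr (h1 s hs)) t (hI ht)
          rw [h2.1, h2.2, h3.1, h3.2]
          exact dec_Icc_SC1 _ _ _
        · obtain ⟨-, -, l1, l2⟩ := hRL p hp
          have h1 := mem_nhdsWithin_of_mem_nhds (t := Z) (hS.isOpen_compl.mem_nhds hp')
          exact ⟨Or.inr (l1 h1), Or.inr (l2 h1)⟩
      · have h1 : ∀ s ∈ Ioo (-δ) δ, c s ∈ A ↔ s ∈ c ⁻¹' A ∩ Ioo (-δ) δ := fun s hs =>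
          ⟨fun h => ⟨h, hs⟩, fun h => h.1⟩
        have h2 := hpre h1
        have h3 := hpre (A := Aᶜ) (U := (c ⁻¹' A ∩ Ioo (-δ) δ)ᶜ) fun s hs => not_congr (h1 s hs)
        have hU : c ⁻¹' A ∩ Ioo (-δ) δ ⊆ Icc (-(δ / 2)) (δ / 2) := fun s hs =>
          (hinj.mem_image_iff hI hs.2).1 (hAS hs.1)
        have h4 : ∀ t ∈ Ioo (-δ) δ, c t ∉ K → (c ⁻¹' A ∩ Ioo (-δ) δ)ᶜ ∈ 𝓝 t := fun t ht hn =>
          mem_of_superset ((hct t ht) (hK.isClosed.isOpen_compl.mem_nhds hn))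
            fun s hs hc => hs (hAK hc.1)
        obtain ⟨f1, s1⟩ := line_set_SC1 hU fun t ht => by
          by_cases hn : c t ∈ K
          · rw [← (h2 t (hI ht)).1, ← (h2 t (hI ht)).2, ← (h3 t (hI ht)).1, ← (h3 t (hI ht)).2]
            exact hA _ hn
          · exact ⟨Or.inr (mem_nhdsWithin_of_mem_nhds (h4 t (hI ht) hn)),
              Or.inr (mem_nhdsWithin_of_mem_nhds (h4 t (hI ht) hn))⟩
        have h5 : ∀ t ∈ Icc (-(δ / 2)) (δ / 2), g A (c t) =
            ind_SC1 (𝓝[>] t) (c ⁻¹' A ∩ Ioo (-δ) δ) - ind_SC1 (𝓝[<] t) (c ⁻¹' A ∩ Ioo (-δ) δ) := by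
          intro t ht
          by_cases hn : c t ∈ K
          · rw [← ind_congr_SC1 (h2 t (hI ht)).1, ← ind_congr_SC1 (h2 t (hI ht)).2]
            exact indicator_of_mem hn _
          · rw [ind_neg_SC1 (mem_nhdsWithin_of_mem_nhds (h4 t (hI ht) hn)),
              ind_neg_SC1 (mem_nhdsWithin_of_mem_nhds (h4 t (hI ht) hn)), sub_self]
            exact indicator_of_notMem hn _
        have h6 : Function.support (g A) ⊆ c '' Icc (-(δ / 2)) (δ / 2) := fun p hp =>
          by_contra fun hn => hp (hout hS hAS p hn)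
        have h7 : (Function.support fun t => ind_SC1 (𝓝[>] t) (c ⁻¹' A ∩ Ioo (-δ) δ) -
            ind_SC1 (𝓝[<] t) (c ⁻¹' A ∩ Ioo (-δ) δ)) ⊆ Icc (-(δ / 2)) (δ / 2) := by
          intro t ht
          by_contra hn
          have h8 := mem_of_superset (isClosed_Icc.isOpen_compl.mem_nhds hn)
            (compl_subset_compl.2 hU)
          exact ht (by
            simp only [ind_neg_SC1 (mem_nhdsWithin_of_mem_nhds (t := Ioi t) h8),
              ind_neg_SC1 (mem_nhdsWithin_of_mem_nhds (t := Iio t) h8), sub_self])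
        refine ⟨(f1.image c).subset fun p hp => ?_, ?_⟩
        · obtain ⟨t, ht, rfl⟩ := h6 hp
          exact ⟨t, fun h0 => hp ((h5 t ht).trans h0), rfl⟩
        · rw [← indicator_eq_self.2 h6, ← finsum_mem_def, finsum_mem_image (hinj.mono hI),
            finsum_mem_congr rfl h5, finsum_mem_def, indicator_eq_self.2 h7, s1]
  obtain ⟨S, h1, -, h3⟩ := main
  have hTK : Tm K := fun z hz => by
    by_cases k1 : z ∈ Bp
    · exact ⟨Or.inr (hp z k1).2, Or.inl (hp z k1).1⟩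
    · by_cases k2 : z ∈ Bm
      · exact ⟨Or.inl (hm z k2).1, Or.inr (hm z k2).2⟩
      · exact ⟨Or.inl ((hRL z hz).2.2.1 (hi z hz k1 k2)), Or.inl ((hRL z hz).2.2.2 (hi z hz k1 k2))⟩
  have h4 := (h3 K hTK subset_rfl h1).2
  have e : g K = fun z => Bm.indicator (fun _ => (1 : ℤ)) z - Bp.indicator (fun _ => (1 : ℤ)) z := by
    funext z
    by_cases hz : z ∈ K
    · obtain ⟨n1, n2, l1, l2⟩ := hRL z hz
      simp only [g, indicator_of_mem hz]
      by_cases k1 : z ∈ Bp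
      · have k2 : z ∉ Bm := fun k2 => compl_notMem (hm z k2).1 (hp z k1).2
        rw [ind_neg_SC1 (hp z k1).2, ind_pos_SC1 (hp z k1).1, indicator_of_mem k1,
          indicator_of_notMem k2]
      · by_cases k2 : z ∈ Bm
        · rw [ind_neg_SC1 (hm z k2).2, ind_pos_SC1 (hm z k2).1, indicator_of_mem k2,
            indicator_of_notMem k1]
        · rw [ind_pos_SC1 (l1 (hi z hz k1 k2)), ind_pos_SC1 (l2 (hi z hz k1 k2)),
            indicator_of_notMem k1, indicator_of_notMem k2, sub_self, sub_self]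
    · simp only [g, indicator_of_notMem hz, indicator_of_notMem fun h => hz (sp h),
        indicator_of_notMem fun h => hz (sm h), sub_self]
  have hcard : ∀ {B : Set X}, B.Finite → ∑ᶠ z, B.indicator (fun _ => (1 : ℤ)) z = B.ncard := by
    intro B hB
    rw [← finsum_mem_def, finsum_mem_eq_finite_toFinset_sum _ hB, ncard_eq_toFinset_card _ hB]
    simp
  rw [e, finsum_sub_distrib (fm.subset support_indicator_subset)
    (fp.subset support_indicator_subset), hcard fm, hcard fp] at h4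
  omega

end

end Pool.Agent.P.MP_de3acd_gt.FH
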