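import Pool.Agent.P.MP_de3acd_gt.FH.IFT

/-! Fredholm maps are locally proper.
Sketch: let blk D K l M be bijective, D the derivative in the first variable. Ψ ((x, μ), a) = ((Φ (x, a) + K μ, l x + M μ), a) has bijective derivative at ((z.1, 0), z.2); loc_IFT gives
e with ⇑e = Ψ. Choose r with the closed ball T of radius r around Ψ ((z.1, 0), z.2) inside e.target and O = {w | ((w.1, 0), w.2) ∈ e.symm '' T}; e.symm '' T is closed (a sequence
in it that converges: Ψ is continuous, so the images converge in T, and e.symm is continuous on T) and a neighbourhood. If a n → a with (x n, a n) ∈ C ∩ O zeros of Φ, then l (x n) is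
bounded in a finite-dimensional space; along a subsequence ((0, l (x n)), a n) converges in T, so ((x n, 0), a n) converges. -/

open Set Filter Topology MeasureTheory
open scoped ContDiff NNReal ENNReal RealInnerProductSpace

namespace Pool.Agent.P.MP_de3acd_gt.FH

noncomputable section

variable {X Y Λ : Type} [NormedAddCommGroup X] [NormedSpace ℝ X] [CompleteSpace X]
  [NormedAddCommGroup Y] [NormedSpace ℝ Y] [CompleteSpace Y] [NormedAddCommGroup Λ]
  [NormedSpace ℝ Λ] [CompleteSpace Λ] {Φ : X × Λ → Y} {z : X × Λ}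

theorem loc_closed (hΦ : ContDiff ℝ ∞ Φ) {d : ℤ}
    (hd : HasIdx ((fderiv ℝ Φ z).comp (ContinuousLinearMap.inl ℝ X Λ)) d) :
    ∃ O ∈ 𝓝 z, ∀ C : Set (X × Λ), IsClosed C → C ⊆ O →
      IsClosed (Prod.snd '' {w ∈ C | Φ w = 0}) := by
  obtain ⟨a, b, K, l, M, hb, -⟩ := hd
  let ι : X × Λ → (X × (Fin a → ℝ)) × Λ := fun w => ((w.1, 0), w.2)
  let pr : (X × (Fin a → ℝ)) × Λ →L[ℝ] X × Λ :=
    ((ContinuousLinearMap.fst ℝ _ _).comp (ContinuousLinearMap.fst ℝ _ _)).prod
      (ContinuousLinearMap.snd ℝ _ _)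
  let mu : (X × (Fin a → ℝ)) × Λ →L[ℝ] (Fin a → ℝ) :=
    (ContinuousLinearMap.snd ℝ _ _).comp (ContinuousLinearMap.fst ℝ _ _)
  let L : (X × (Fin a → ℝ)) × Λ →L[ℝ] (Fin b → ℝ) :=
    (l.coprod M).comp (ContinuousLinearMap.fst ℝ _ _)
  let Ψ : (X × (Fin a → ℝ)) × Λ → (Y × (Fin b → ℝ)) × Λ := fun w =>
    ((Φ (pr w) + K (mu w), L w), w.2)
  have hΨ : ContDiff ℝ ∞ Ψ :=
    (((hΦ.comp pr.contDiff).add (K.comp mu).contDiff).prodMk L.contDiff).prodMk contDiff_snd
  have hD : HasFDerivAt Ψ (((((fderiv ℝ Φ z).comp pr) + K.comp mu).prod L).prod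
      (ContinuousLinearMap.snd ℝ _ _)) (ι z) :=
    (((HasFDerivAt.comp (ι z) (hΦ.differentiable (by simp) z).hasFDerivAt pr.hasFDerivAt).add
      (K.comp mu).hasFDerivAt).prodMk L.hasFDerivAt).prodMk hasFDerivAt_snd
  have hs : ∀ (x : X) (c : Λ), fderiv ℝ Φ z (x, c) =
      fderiv ℝ Φ z (x, 0) + fderiv ℝ Φ z (0, c) := fun x c => by
    rw [← map_add, Prod.mk_add_mk, add_zero, zero_add]
  obtain ⟨e, he, hz, -, -⟩ := loc_IFT hΨ (z := ι z) (by
    rw [hD.fderiv]
    refine ⟨(injective_iff_map_eq_zero _).2 fun w hw => ?_, fun v => ?_⟩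
    · have e1 : w.2 = 0 := congrArg Prod.snd hw
      have e2 : (fderiv ℝ Φ z (w.1.1, w.2) + K w.1.2, l w.1.1 + M w.1.2) = 0 :=
        congrArg Prod.fst hw
      rw [e1] at e2
      exact Prod.ext ((injective_iff_map_eq_zero _).1 hb.1 _ e2) e1
    · obtain ⟨u, hu⟩ := hb.2 (v.1.1 - fderiv ℝ Φ z (0, v.2), v.1.2)
      have e1 : fderiv ℝ Φ z (u.1, 0) + K u.2 = v.1.1 - fderiv ℝ Φ z (0, v.2) :=
        congrArg Prod.fst hu
      have e2 : l u.1 + M u.2 = v.1.2 := congrArg Prod.snd hu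
      refine ⟨(u, v.2), Prod.ext (Prod.ext ?_ e2) rfl⟩
      change fderiv ℝ Φ z (u.1, v.2) + K u.2 = v.1.1
      rw [hs, add_right_comm, e1, sub_add_cancel])
  obtain ⟨r, hr, hT⟩ := Metric.nhds_basis_closedBall.mem_iff.1
    (e.open_target.mem_nhds (e.map_source hz))
  have hι : Continuous ι := by fun_prop
  refine ⟨{w | ι w ∈ e.source ∧ e (ι w) ∈ Metric.closedBall (e (ι z)) r}, ?_, fun C hC hCO => ?_⟩
  · refine (hι.continuousAt.eventually (e.open_source.mem_nhds hz)).and ?_
    exact ((e.continuousAt hz).comp hι.continuousAt).eventually (Metric.closedBall_mem_nhds _ hr)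
  · refine isClosed_of_closure_subset fun c hc => ?_
    obtain ⟨u, hu, hc⟩ := mem_closure_iff_seq_limit.1 hc
    choose w hw hwu using hu
    have h1 : ∀ n, e (ι (w n)) = ((0, l (w n).1), u n) := fun n => by
      rw [he, ← hwu n]
      change ((Φ (w n) + K 0, l (w n).1 + M 0), (w n).2) = _
      rw [(hw n).2, map_zero, map_zero, add_zero, add_zero]
    have h2 : ∀ n, l (w n).1 ∈ Metric.closedBall (e (ι z)).1.2 r := fun n => by
      have := (hCO (hw n).1).2
      rw [h1, Metric.mem_closedBall, Prod.dist_eq, Prod.dist_eq, max_le_iff, max_le_iff] at this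
      exact this.1.2
    obtain ⟨β, -, φ, hφ, hβ⟩ := (isCompact_closedBall _ _).tendsto_subseq h2
    have h3 : Tendsto (fun n => e (ι (w (φ n)))) atTop (𝓝 ((0, β), c)) := by
      simp only [h1]
      exact (tendsto_const_nhds.prodMk_nhds hβ).prodMk_nhds (hc.comp hφ.tendsto_atTop)
    have h4 : ((0, β), c) ∈ e.target := hT (Metric.isClosed_closedBall.mem_of_tendsto h3
      (Eventually.of_forall fun n => (hCO (hw _).1).2))
    have h5 : Tendsto (fun n => w (φ n)) atTop (𝓝 (pr (e.symm ((0, β), c)))) := by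
      refine ((pr.continuous.tendsto _).comp ((e.continuousAt_symm h4).tendsto.comp h3)).congr
        fun n => ?_
      simp only [Function.comp_apply, e.left_inv (hCO (hw _).1).1]
      rfl
    refine ⟨_, (hC.inter (isClosed_eq hΦ.continuous continuous_const)).mem_of_tendsto h5
      (Eventually.of_forall fun n => hw _), ?_⟩
    refine tendsto_nhds_unique ((continuous_snd.tendsto _).comp h5) ?_
    exact (hc.comp hφ.tendsto_atTop).congr fun n => (hwu _).symm

end

end Pool.Agent.P.MP_de3acd_gt.FH
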