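import Pool.Agent.P.MP_de3acd_gt.FH.Ops

/-! Sard: the image of the set where the derivative vanishes, for dim A ≤ dim B + 1.
Sketch: m = dim B ≥ 1, n = dim A ≤ m + 1 < 3 m. Cover U by countably many closed balls inside U. Split the set into
S₂ (second derivative zero too) and the rest. On S₂ Taylor gives ‖f y - f x‖ ≤ C ‖y - x‖^3 for x ∈ S₂, y in the ball, so f is
HolderOnWith C 3 on S₂ ∩ ball and dimH of the image is at most n / 3 < m (HolderOnWith.dimH_image_le,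
Real.dimH_univ_eq_finrank; measure zero by hausdorffMeasure_of_dimH_lt and isAddHaarMeasure_hausdorffMeasure,
absolutelyContinuous_isAddHaarMeasure). For m ≥ 2 the Hoelder exponent 2 on the whole set already suffices
(n / 2 < m). For m = 1, n ≤ 2: at x with second derivative nonzero, some real function g = ℓ (fderiv f · v) has
nonzero derivative and vanishes on the set, so near x the set lies in the image of a C^1 map ψ from ker (fderiv g x)
(dimension n - 1 ≤ 1; implicit function theorem); f ∘ ψ has derivative zero there; again Hoelder exponent 2, dimH ≤ 1/2. -/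

open Set Filter Topology MeasureTheory
open scoped ContDiff NNReal ENNReal RealInnerProductSpace

namespace Pool.Agent.P.MP_de3acd_gt.FH

noncomputable section

variable {A B : Type} [NormedAddCommGroup A] [NormedSpace ℝ A] [FiniteDimensional ℝ A]
  [NormedAddCommGroup B] [NormedSpace ℝ B] [FiniteDimensional ℝ B] [MeasurableSpace B]
  [BorelSpace B]

section

variable {E F : Type} [NormedAddCommGroup E] [NormedSpace ℝ E] [NormedAddCommGroup F]
  [NormedSpace ℝ F]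

theorem step_sard0 {g : E → F} {s : Set E} (hs : Convex ℝ s) (hg : ∀ z ∈ s, DifferentiableAt ℝ g z)
    {x : E} (hx : x ∈ s) {K : ℝ} (hK : 0 ≤ K) {k : ℕ}
    (h : ∀ z ∈ s, ‖fderiv ℝ g z‖ ≤ K * ‖z - x‖ ^ k) :
    ∀ y ∈ s, ‖g y - g x‖ ≤ K * ‖y - x‖ ^ (k + 1) := by
  intro y hy
  have := (hs.inter (convex_closedBall x ‖y - x‖)).norm_image_sub_le_of_norm_fderiv_le
    (C := K * ‖y - x‖ ^ k) (fun z hz => hg z hz.1) (fun z hz => (h z hz.1).trans (by
      have := mem_closedBall_iff_norm.1 hz.2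
      gcongr)) ⟨hx, Metric.mem_closedBall_self (norm_nonneg _)⟩
    ⟨hy, mem_closedBall_iff_norm.2 le_rfl⟩
  rwa [mul_assoc, ← pow_succ] at this

theorem lip_sard0 {g : E → F} {U : Set E} (hU : IsOpen U) {x : E} (hx : x ∈ U)
    (hg : ContDiffAt ℝ 1 g x) : ∃ K : ℝ≥0, ∃ r > 0, Metric.ball x r ⊆ U ∧
      ∀ y ∈ Metric.ball x r, g y = 0 → ∀ z ∈ Metric.ball x r, ‖g z‖ ≤ K * ‖z - y‖ ^ 1 := by
  obtain ⟨K, t, ht, hK⟩ := hg.exists_lipschitzOnWith
  obtain ⟨r, hr, hb⟩ := Metric.mem_nhds_iff.1 (inter_mem ht (hU.mem_nhds hx))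
  refine ⟨K, r, hr, fun y hy => (hb hy).2, fun y hy h0 z hz => ?_⟩
  have := hK.norm_sub_le (hb hz).1 (hb hy).1
  rwa [h0, sub_zero, ← pow_one ‖z - y‖] at this

theorem holder_sard0 {g : E → F} {s : Set E} {K : ℝ≥0} {k : ℕ}
    (h : ∀ x ∈ s, ∀ y ∈ s, ‖g y - g x‖ ≤ K * ‖y - x‖ ^ k) : HolderOnWith K k g s := by
  intro x hx y hy
  rw [edist_dist, edist_dist, dist_eq_norm, dist_eq_norm, NNReal.coe_natCast, ENNReal.rpow_natCast,
    ← ENNReal.ofReal_pow (norm_nonneg _), ← ENNReal.ofReal_coe_nnreal,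
    ← ENNReal.ofReal_mul K.coe_nonneg]
  exact ENNReal.ofReal_le_ofReal (h y hy x hx)

theorem level_sard0 [FiniteDimensional ℝ E] {g : E → ℝ} {x : E} {l : E →L[ℝ] ℝ}
    (hg : HasStrictFDerivAt g l x) (hl : l ≠ 0) :
    ∃ t ∈ 𝓝 x, dimH (t ∩ {y | g y = 0}) ≤ (Module.finrank ℝ E - 1 : ℕ) := by
  obtain ⟨w, hw⟩ : ∃ w, l w ≠ 0 := by
    by_contra h
    push Not at h
    exact hl (ContinuousLinearMap.ext h)
  set v := (l w)⁻¹ • w with hv
  have lv : l v = 1 := by rw [hv, map_smul, smul_eq_mul, inv_mul_cancel₀ hw]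
  have c0 : 0 < 1 / (2 * (‖v‖ + 1)) := by positivity
  obtain ⟨t, ht, ha⟩ := hg.approximates_deriv_on_nhds (c := ⟨_, c0.le⟩) (Or.inr c0)
  refine ⟨t, ht, ?_⟩
  let p : E →L[ℝ] LinearMap.ker (l : E →ₗ[ℝ] ℝ) :=
    (ContinuousLinearMap.id ℝ E - l.smulRight v).codRestrict _ fun y => by
      simp [LinearMap.mem_ker, lv]
  have hp : AntilipschitzWith 2 fun y : ↥(t ∩ {y | g y = 0}) => p y := by
    refine AntilipschitzWith.of_le_mul_dist fun y z => ?_
    have h1 := ha y y.2.1 z z.2.1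
    have y0 : g y = 0 := y.2.2
    have z0 : g z = 0 := z.2.2
    rw [y0, z0, sub_self, zero_sub, norm_neg] at h1
    have e : (y : E) - z = (p y - p z : E) + l (y - z) • v := by
      simp only [p, ContinuousLinearMap.coe_codRestrict_apply, ContinuousLinearMap.sub_apply,
        ContinuousLinearMap.id_apply, ContinuousLinearMap.smulRight_apply, map_sub, sub_smul]
      abel
    have h2 : ‖(y : E) - z‖ ≤ ‖(p y - p z : E)‖ + ‖l (y - z)‖ * ‖v‖ := by
      conv_lhs => rw [e]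
      exact (norm_add_le _ _).trans (by rw [norm_smul])
    have h3 : ‖l (y - z)‖ * ‖v‖ ≤ 1 / (2 * (‖v‖ + 1)) * ‖(y : E) - z‖ * (‖v‖ + 1) :=
      mul_le_mul h1 (by linarith) (norm_nonneg _) (by positivity)
    have h4 : 1 / (2 * (‖v‖ + 1)) * ‖(y : E) - z‖ * (‖v‖ + 1) = ‖(y : E) - z‖ / 2 := by
      field_simp
    rw [Subtype.dist_eq, Subtype.dist_eq, dist_eq_norm, dist_eq_norm, NNReal.coe_ofNat]
    linarith
  have e1 := (isometry_subtype_coe (s := t ∩ {y | g y = 0})).dimH_image univ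
  rw [image_univ, Subtype.range_coe] at e1
  rw [e1]
  refine (hp.le_dimH_image univ).trans ((dimH_mono (subset_univ _)).trans (le_of_eq ?_))
  rw [Real.dimH_univ_eq_finrank]
  have := Module.Dual.finrank_ker_add_one_of_ne_zero (f := (l : E →ₗ[ℝ] ℝ))
    fun h => hw (LinearMap.congr_fun h w)
  congr 1
  omega

end

theorem sard_zero [Nontrivial B] (μ : Measure B) [μ.IsAddHaarMeasure]
    (hd : Module.finrank ℝ A ≤ Module.finrank ℝ B + 1) {f : A → B} {U : Set A} (hU : IsOpen U)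
    (hf : ContDiffOn ℝ ∞ f U) : μ (f '' {x ∈ U | fderiv ℝ f x = 0}) = 0 := by
  have ca : ∀ x ∈ U, ContDiffAt ℝ ∞ f x := fun x hx => hf.contDiffAt (hU.mem_nhds hx)
  have c1 : ∀ x ∈ U, ContDiffAt ℝ ∞ (fderiv ℝ f) x := fun x hx =>
    (ca x hx).fderiv_right (by simp)
  have c2 : ∀ x ∈ U, ContDiffAt ℝ ∞ (fderiv ℝ (fderiv ℝ f)) x := fun x hx =>
    (c1 x hx).fderiv_right (by simp)
  have m1 : 0 < Module.finrank ℝ B := Module.finrank_pos
  set Z1 := {x ∈ U | fderiv ℝ f x = 0 ∧ fderiv ℝ (fderiv ℝ f) x ≠ 0} with hZ1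
  set Z2 := {x ∈ U | fderiv ℝ f x = 0 ∧ fderiv ℝ (fderiv ℝ f) x = 0} with hZ2
  have d1 : dimH Z1 ≤ (Module.finrank ℝ A - 1 : ℕ) := by
    by_contra hlt
    obtain ⟨x, hx, h⟩ := exists_mem_nhdsWithin_lt_dimH_of_lt_dimH (not_le.1 hlt)
    obtain ⟨φ, -, hφ⟩ : ∃ φ : (A →L[ℝ] B) →L[ℝ] ℝ, True ∧
        φ.comp (fderiv ℝ (fderiv ℝ f) x) ≠ 0 := by
      obtain ⟨w, hw⟩ : ∃ w, fderiv ℝ (fderiv ℝ f) x w ≠ 0 := by
        by_contra h
        push Not at h
        exact hx.2.2 (ContinuousLinearMap.ext h)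
      obtain ⟨φ, hφ⟩ := SeparatingDual.exists_ne_zero (R := ℝ) hw
      exact ⟨φ, trivial, fun h => hφ (congrArg (fun L : A →L[ℝ] ℝ => L w) h)⟩
    obtain ⟨t, ht, hd⟩ := level_sard0 (φ.hasStrictFDerivAt.comp x
      ((c1 x hx.1).hasStrictFDerivAt (by simp))) hφ
    refine (h (t ∩ Z1) (inter_mem (mem_nhdsWithin_of_mem_nhds ht) self_mem_nhdsWithin)).not_ge ((dimH_mono fun y hy => ?_).trans hd)
    exact ⟨hy.1, by simp [hy.2.2.1]⟩
  have i1 : dimH (f '' Z1) ≤ dimH Z1 / ((2 : ℕ) : ℝ≥0) := by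
    refine dimH_image_le_of_locally_holder_on (by norm_num) fun x hx => ?_
    obtain ⟨K, r, hr, hb, hK⟩ := lip_sard0 hU hx.1 ((c1 x hx.1).of_le (by simp))
    refine ⟨K, Metric.ball x r ∩ Z1, inter_mem
      (mem_nhdsWithin_of_mem_nhds (Metric.ball_mem_nhds x hr)) self_mem_nhdsWithin,
      holder_sard0 fun y hy z hz => ?_⟩
    exact step_sard0 (convex_ball x r) (fun z hz => (ca z (hb hz)).differentiableAt (by simp))
      hy.1 K.coe_nonneg (hK y hy.1 hy.2.2.1) z hz.1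
  have i2 : dimH (f '' Z2) ≤ dimH Z2 / ((3 : ℕ) : ℝ≥0) := by
    refine dimH_image_le_of_locally_holder_on (by norm_num) fun x hx => ?_
    obtain ⟨K, r, hr, hb, hK⟩ := lip_sard0 hU hx.1 ((c2 x hx.1).of_le (by simp))
    refine ⟨K, Metric.ball x r ∩ Z2, inter_mem
      (mem_nhdsWithin_of_mem_nhds (Metric.ball_mem_nhds x hr)) self_mem_nhdsWithin,
      holder_sard0 fun y hy z hz => ?_⟩
    refine step_sard0 (convex_ball x r) (fun z hz => (ca z (hb hz)).differentiableAt (by simp))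
      hy.1 K.coe_nonneg (fun w hw => ?_) z hz.1
    have := step_sard0 (convex_ball x r) (fun z hz => (c1 z (hb hz)).differentiableAt (by simp))
      hy.1 K.coe_nonneg (hK y hy.1 hy.2.2.2) w hw
    rwa [hy.2.2.1, sub_zero] at this
  have d2 : dimH Z2 ≤ (Module.finrank ℝ A : ℕ) :=
    (dimH_mono (subset_univ _)).trans (Real.dimH_univ_eq_finrank A).le
  have key : ∀ (S : Set A) (n k : ℕ), 0 < k → n < Module.finrank ℝ B * k → dimH S ≤ n →
      dimH (f '' S) ≤ dimH S / (k : ℝ≥0) → μ (f '' S) = 0 := fun S n k hk hn h1 h2 => by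
    refine measure_zero_of_dimH_lt (d := (Module.finrank ℝ B : ℕ)) ?_ (h2.trans_lt ?_)
    · rw [NNReal.coe_natCast]
      exact Measure.absolutelyContinuous_isAddHaarMeasure μ _
    · refine ENNReal.div_lt_of_lt_mul (h1.trans_lt ?_)
      exact_mod_cast hn
  refine measure_mono_null (t := f '' Z1 ∪ f '' Z2) ?_ (measure_union_null
    (key Z1 _ 2 two_pos (by omega) d1 i1) (key Z2 _ 3 three_pos (by omega) d2 i2))
  rintro _ ⟨x, hx, rfl⟩
  by_cases h : fderiv ℝ (fderiv ℝ f) x = 0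
  · exact Or.inr ⟨x, ⟨hx.1, hx.2, h⟩, rfl⟩
  · exact Or.inl ⟨x, ⟨hx.1, hx.2, h⟩, rfl⟩

end

end Pool.Agent.P.MP_de3acd_gt.FH
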