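import Pool.Agent.P.MP_de3acd_gt.FH.Sard0

/-! Sard in all dimensions: the image of the set where the derivative vanishes.
Sketch (Milnor): induction on n = dim A, quantified over A, f, U. Let C k be the set of x ∈ U at which the derivatives of orders 1, ..., k + 1 vanish.
For k + 2 > n the map f is locally Hoelder of exponent k + 2 on C k (iterate step_sard0 with iteratedFDeriv, norm_iteratedFDeriv_fderiv, or iterate fderiv with a changing target),
so dimH (f '' C k) ≤ n / (k + 2) < 1 ≤ dim B as in sard_zero. At x ∈ C k outside C (k + 1) some real function g = φ ∘ iteratedFDeriv (k + 1) f vanishes on C k and has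
nonzero derivative l at x; by the inverse or implicit function theorem a neighbourhood of x in the zero set of g is ψ '' U' with ψ smooth on an open U' ⊆ ker l (dimension n - 1;
for instance y ↦ (g y, proj y) is a local diffeomorphism, ContDiffAt.toOpenPartialHomeomorph, smooth inverse on a smaller open set as in loc_Sard1 or loc_IFT);
f ∘ ψ has derivative zero at the points over C 0. Countable covers: measure_null_of_locally_null. -/

open Set Filter Topology MeasureTheory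
open scoped ContDiff NNReal ENNReal RealInnerProductSpace

namespace Pool.Agent.P.MP_de3acd_gt.FH

noncomputable section

variable {A B : Type} [NormedAddCommGroup A] [NormedSpace ℝ A] [FiniteDimensional ℝ A]
  [NormedAddCommGroup B] [NormedSpace ℝ B] [FiniteDimensional ℝ B] [MeasurableSpace B]
  [BorelSpace B]

/-- the derivatives of orders `0, ..., k` vanish at `y` -/
def van_SardG0 {E : Type} [NormedAddCommGroup E] [NormedSpace ℝ E] :
    (k : ℕ) → {F : Type} → [NormedAddCommGroup F] → [NormedSpace ℝ F] → (E → F) → E → Prop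
  | 0, _, _, _, g, y => g y = 0
  | k + 1, _, _, _, g, y => g y = 0 ∧ van_SardG0 k (fderiv ℝ g) y

theorem zero_SardG0 {E : Type} [NormedAddCommGroup E] [NormedSpace ℝ E] {k : ℕ} {F : Type}
    [NormedAddCommGroup F] [NormedSpace ℝ F] {g : E → F} {y : E} (h : van_SardG0 k g y) :
    g y = 0 := by
  cases k with
  | zero => exact h
  | succ k => exact h.1

theorem der_SardG0 {E F : Type} [NormedAddCommGroup E] [NormedSpace ℝ E] [NormedAddCommGroup F]
    [NormedSpace ℝ F] {g : E → F} {U : Set E} (hU : IsOpen U) (hg : ContDiffOn ℝ ∞ g U) :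
    ContDiffOn ℝ ∞ (fderiv ℝ g) U := fun _ hx =>
  ((hg.contDiffAt (hU.mem_nhds hx)).fderiv_right (by simp)).contDiffWithinAt

theorem hold_SardG0 {E : Type} [NormedAddCommGroup E] [NormedSpace ℝ E] {U : Set E}
    (hU : IsOpen U) {x : E} (hx : x ∈ U) (k : ℕ) :
    ∀ {F : Type} [NormedAddCommGroup F] [NormedSpace ℝ F] {g : E → F}, ContDiffOn ℝ ∞ g U →
      ∃ K : ℝ≥0, ∃ r > 0, Metric.ball x r ⊆ U ∧ ∀ y ∈ Metric.ball x r, van_SardG0 k g y →
        ∀ z ∈ Metric.ball x r, ‖g z‖ ≤ K * ‖z - y‖ ^ (k + 1) := by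
  induction k with
  | zero =>
    intro F _ _ g hg
    exact lip_sard0 hU hx ((hg.contDiffAt (hU.mem_nhds hx)).of_le (by simp))
  | succ k ih =>
    intro F _ _ g hg
    obtain ⟨K, r, hr, hb, hK⟩ := ih (der_SardG0 hU hg)
    refine ⟨K, r, hr, hb, fun y hy hv z hz => ?_⟩
    have := step_sard0 (convex_ball x r)
      (fun w hw => (hg.contDiffAt (hU.mem_nhds (hb hw))).differentiableAt (by simp)) hy
      K.coe_nonneg (hK y hy hv.2) z hz
    rwa [hv.1, sub_zero] at this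

theorem fun_SardG0 {E : Type} [NormedAddCommGroup E] [NormedSpace ℝ E] {U : Set E}
    (hU : IsOpen U) {x : E} (hx : x ∈ U) (k : ℕ) :
    ∀ {F : Type} [NormedAddCommGroup F] [NormedSpace ℝ F] {g : E → F}, ContDiffOn ℝ ∞ g U →
      van_SardG0 k g x → ¬ van_SardG0 (k + 1) g x →
      ∃ h : E → ℝ, ContDiffOn ℝ ∞ h U ∧ fderiv ℝ h x ≠ 0 ∧ ∀ y, van_SardG0 k g y → h y = 0 := by
  induction k with
  | zero =>
    intro F _ _ g hg h0 h1
    obtain ⟨w, hw⟩ : ∃ w, fderiv ℝ g x w ≠ 0 := by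
      by_contra h
      push Not at h
      exact h1 ⟨h0, ContinuousLinearMap.ext h⟩
    obtain ⟨φ, hφ⟩ := SeparatingDual.exists_ne_zero (R := ℝ) hw
    have hd : HasFDerivAt (fun y => φ (g y)) (φ.comp (fderiv ℝ g x)) x :=
      φ.hasFDerivAt.comp x ((hg.contDiffAt (hU.mem_nhds hx)).differentiableAt (by simp)).hasFDerivAt
    refine ⟨fun y => φ (g y), φ.contDiff.comp_contDiffOn hg, fun h => hφ ?_, fun y hy => ?_⟩
    · rw [hd.fderiv] at h
      exact congrArg (fun L : E →L[ℝ] ℝ => L w) h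
    · have e : g y = 0 := hy
      simp only [e, map_zero]
  | succ k ih =>
    intro F _ _ g hg h0 h1
    obtain ⟨h, h2, h3, h4⟩ := ih (der_SardG0 hU hg) h0.2 fun h => h1 ⟨h0.1, h⟩
    exact ⟨h, h2, h3, fun y hy => h4 y hy.2⟩

theorem chart_SardG0 {E : Type} [NormedAddCommGroup E] [NormedSpace ℝ E] [FiniteDimensional ℝ E]
    {h : E → ℝ} {U : Set E} (hU : IsOpen U) (hh : ContDiffOn ℝ ∞ h U) {x₀ : E} (hx : x₀ ∈ U)
    {l : E →L[ℝ] ℝ} (hl : fderiv ℝ h x₀ = l) (hl0 : l ≠ 0) :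
    ∃ N ∈ 𝓝 x₀, ∃ (ψ : LinearMap.ker (l : E →ₗ[ℝ] ℝ) → E)
      (U' : Set (LinearMap.ker (l : E →ₗ[ℝ] ℝ))), IsOpen U' ∧ ContDiffOn ℝ ∞ ψ U' ∧
        MapsTo ψ U' U ∧ ∀ y ∈ N, h y = 0 → y ∈ ψ '' U' := by
  obtain ⟨w, hw⟩ : ∃ w, l w ≠ 0 := by
    by_contra h
    push Not at h
    exact hl0 (ContinuousLinearMap.ext h)
  obtain ⟨v, lv⟩ : ∃ v, l v = 1 :=
    ⟨(l w)⁻¹ • w, by rw [map_smul, smul_eq_mul, inv_mul_cancel₀ hw]⟩
  let P : E →L[ℝ] LinearMap.ker (l : E →ₗ[ℝ] ℝ) :=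
    (ContinuousLinearMap.id ℝ E - l.smulRight v).codRestrict _ fun y => by
      simp [LinearMap.mem_ker, lv]
  have hP : ∀ y, (P y : E) = y - l y • v := fun y => rfl
  have inj : Function.Injective (l.prod P).toLinearMap := by
    refine (injective_iff_map_eq_zero _).2 fun y hy => ?_
    have h1 : l y = 0 := congrArg Prod.fst hy
    have h2 : P y = 0 := congrArg Prod.snd hy
    have h3 := hP y
    rw [h2, h1, zero_smul, sub_zero] at h3
    exact h3.symm
  have fr := Module.Dual.finrank_ker_add_one_of_ne_zero (f := (l : E →ₗ[ℝ] ℝ))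
    fun h => hw (LinearMap.congr_fun h w)
  let L₀ := (LinearMap.linearEquivOfInjective _ inj
    (by rw [Module.finrank_prod, Module.finrank_self]; omega)).toContinuousLinearEquiv
  let ψ : E → ℝ × LinearMap.ker (l : E →ₗ[ℝ] ℝ) := fun x => (h x, P x)
  have hψ : ContDiffOn ℝ ∞ ψ U := hh.prodMk P.contDiff.contDiffOn
  have hψd : ∀ x ∈ U, HasFDerivAt ψ ((fderiv ℝ h x).prod P) x := fun x hx =>
    ((hh.contDiffAt (hU.mem_nhds hx)).differentiableAt (by simp)).hasFDerivAt.prodMk P.hasFDerivAt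
  have hL' : (L₀ : E →L[ℝ] ℝ × LinearMap.ker (l : E →ₗ[ℝ] ℝ)) = (fderiv ℝ h x₀).prod P := by
    rw [hl]
    exact ContinuousLinearMap.ext fun _ => rfl
  let Φ := (hψ.contDiffAt (hU.mem_nhds hx)).toOpenPartialHomeomorph ψ (hL' ▸ hψd x₀ hx) (by simp)
  have hx0 : x₀ ∈ Φ.source := ContDiffAt.mem_toOpenPartialHomeomorph_source _ _ _
  let W : Set E := Φ.source ∩ (U ∩ fderiv ℝ ψ ⁻¹' range
    ((↑) : (E ≃L[ℝ] ℝ × LinearMap.ker (l : E →ₗ[ℝ] ℝ)) →
      E →L[ℝ] ℝ × LinearMap.ker (l : E →ₗ[ℝ] ℝ)))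
  have hW : IsOpen W := Φ.open_source.inter
    ((hψ.continuousOn_fderiv_of_isOpen hU (by simp)).isOpen_inter_preimage hU
      ContinuousLinearEquiv.isOpen)
  have hxW : x₀ ∈ W := ⟨hx0, hx, L₀, hL'.trans (hψd x₀ hx).fderiv.symm⟩
  let V : Set (ℝ × LinearMap.ker (l : E →ₗ[ℝ] ℝ)) := Φ.target ∩ Φ.symm ⁻¹' W
  have hV : IsOpen V := Φ.isOpen_inter_preimage_symm hW
  have hs : ContDiffOn ℝ ∞ Φ.symm V := by
    rintro y ⟨hy, -, hy2, L, hy3⟩
    refine (Φ.contDiffAt_symm (f₀' := L) hy ?_ (hψ.contDiffAt (hU.mem_nhds hy2))).contDiffWithinAt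
    rw [hy3]
    exact (hψd _ hy2).differentiableAt.hasFDerivAt
  have hc : Continuous fun a : LinearMap.ker (l : E →ₗ[ℝ] ℝ) => ((0 : ℝ), a) := by fun_prop
  refine ⟨W, hW.mem_nhds hxW, fun a => Φ.symm (0, a), (fun a => ((0 : ℝ), a)) ⁻¹' V,
    hV.preimage hc, hs.comp (contDiff_const.prodMk contDiff_id).contDiffOn fun a ha => ha,
    fun a ha => ha.2.2.1, fun y hy h0 => ?_⟩
  have e : Φ y = (0, P y) := Prod.ext h0 rfl
  have e2 : Φ.symm (0, P y) = y := by rw [← e, Φ.left_inv hy.1]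
  have e3 : ((0 : ℝ), P y) ∈ Φ.target := by
    rw [← e]
    exact Φ.map_source hy.1
  refine ⟨P y, ⟨e3, ?_⟩, e2⟩
  show Φ.symm (0, P y) ∈ W
  rw [e2]
  exact hy

theorem ind_SardG0 [Nontrivial B] (μ : Measure B) [μ.IsAddHaarMeasure] (n : ℕ) :
    ∀ {E : Type} [NormedAddCommGroup E] [NormedSpace ℝ E] [FiniteDimensional ℝ E],
      Module.finrank ℝ E = n → ∀ {f : E → B} {U : Set E}, IsOpen U → ContDiffOn ℝ ∞ f U →
        μ (f '' {x ∈ U | fderiv ℝ f x = 0}) = 0 := by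
  induction n using Nat.strong_induction_on with
  | _ n ih =>
  intro E _ _ _ hn f U hU hf
  have m1 : 0 < Module.finrank ℝ B := Module.finrank_pos
  have ca : ∀ x ∈ U, DifferentiableAt ℝ f x := fun x hx =>
    (hf.contDiffAt (hU.mem_nhds hx)).differentiableAt (by simp)
  have i2 : dimH (f '' {x ∈ U | van_SardG0 n (fderiv ℝ f) x}) ≤
      dimH {x ∈ U | van_SardG0 n (fderiv ℝ f) x} / ((n + 1 + 1 : ℕ) : ℝ≥0) := by
    refine dimH_image_le_of_locally_holder_on (by positivity) fun x hx => ?_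
    obtain ⟨K, r, hr, hb, hK⟩ := hold_SardG0 hU hx.1 n (der_SardG0 hU hf)
    refine ⟨K, Metric.ball x r ∩ _, inter_mem
      (mem_nhdsWithin_of_mem_nhds (Metric.ball_mem_nhds x hr)) self_mem_nhdsWithin,
      holder_sard0 fun y hy z hz => ?_⟩
    exact step_sard0 (convex_ball x r) (fun w hw => ca w (hb hw)) hy.1 K.coe_nonneg
      (hK y hy.1 hy.2.2) z hz.1
  have d2 : dimH {x ∈ U | van_SardG0 n (fderiv ℝ f) x} ≤ (n : ℕ) :=
    (dimH_mono (subset_univ _)).trans (hn ▸ (Real.dimH_univ_eq_finrank E).le)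
  have k1 : μ (f '' {x ∈ U | van_SardG0 n (fderiv ℝ f) x}) = 0 := by
    refine measure_zero_of_dimH_lt (d := (Module.finrank ℝ B : ℕ)) ?_ (i2.trans_lt ?_)
    · rw [NNReal.coe_natCast]
      exact Measure.absolutelyContinuous_isAddHaarMeasure μ _
    · refine ENNReal.div_lt_of_lt_mul (d2.trans_lt ?_)
      have : n < Module.finrank ℝ B * (n + 1 + 1) := by nlinarith
      exact_mod_cast this
  have k2 : ∀ k : ℕ, μ (f '' {x ∈ U | van_SardG0 k (fderiv ℝ f) x ∧
      ¬ van_SardG0 (k + 1) (fderiv ℝ f) x}) = 0 := by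
    intro k
    refine measure_null_of_locally_null (μ := OuterMeasure.comap f μ.toOuterMeasure) _ ?_
    rintro x₀ ⟨hx, h0, h1⟩
    obtain ⟨h, h2, h3, h4⟩ := fun_SardG0 hU hx k (der_SardG0 hU hf) h0 h1
    obtain ⟨N, hN, ψ, U', hU', hψ, hm, hy⟩ := chart_SardG0 hU h2 hx rfl h3
    have fr := Module.Dual.finrank_ker_add_one_of_ne_zero (f := (fderiv ℝ h x₀ : E →ₗ[ℝ] ℝ))
      fun h => h3 (ContinuousLinearMap.ext fun w => LinearMap.congr_fun h w)
    have h5 := ih _ (by omega) rfl hU' (hf.comp hψ hm)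
    refine ⟨N ∩ _, inter_mem (mem_nhdsWithin_of_mem_nhds hN) self_mem_nhdsWithin, ?_⟩
    refine measure_mono_null (μ := μ) ?_ h5
    rintro _ ⟨y, ⟨hyN, hyU, hv, -⟩, rfl⟩
    obtain ⟨a, ha, rfl⟩ := hy y hyN (h4 y hv)
    refine ⟨a, ⟨ha, ?_⟩, rfl⟩
    rw [fderiv_comp a (ca _ hyU) ((hψ.contDiffAt (hU'.mem_nhds ha)).differentiableAt (by simp)),
      zero_SardG0 hv, ContinuousLinearMap.zero_comp]
  refine measure_mono_null ?_ (measure_union_null k1 (measure_iUnion_null k2))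
  rintro _ ⟨x, hx, rfl⟩
  by_cases h : ∃ k : ℕ, van_SardG0 k (fderiv ℝ f) x ∧ ¬ van_SardG0 (k + 1) (fderiv ℝ f) x
  · obtain ⟨k, hk⟩ := h
    exact Or.inr (mem_iUnion.2 ⟨k, x, ⟨hx.1, hk⟩, rfl⟩)
  · have : ∀ k : ℕ, van_SardG0 k (fderiv ℝ f) x := fun k => by
      induction k with
      | zero => exact hx.2
      | succ k ihk => exact not_not.1 fun h1 => h ⟨k, ihk, h1⟩
    exact Or.inl ⟨x, ⟨hx.1, this n⟩, rfl⟩

theorem sard_zero' [Nontrivial B] (μ : Measure B) [μ.IsAddHaarMeasure] {f : A → B} {U : Set A}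
    (hU : IsOpen U) (hf : ContDiffOn ℝ ∞ f U) : μ (f '' {x ∈ U | fderiv ℝ f x = 0}) = 0 :=
  ind_SardG0 μ _ rfl hU hf

end

end Pool.Agent.P.MP_de3acd_gt.FH
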