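import Pool.Agent.P.MP_de3acd_gt.FH.Defs7
import Pool.Agent.P.MP_de3acd_gt.FH.Frm
import Pool.Agent.P.MP_de3acd_gt.FH.TrCont

/-! Strong convergence of framed operators.
Sketch: SC.hil: norm_blk_sub_le, norm_Dop_sub_le, norm_kmap_sub_le, norm_lmap_sub_le, norm_mmap_sub_le, tendsto_toW (toW of a difference of test functions is the difference, toW_co). SC.ag: tsl a' S' - tsl a S =
tsl a' (S' - S) + tsl a (tsl (a' - a) S - S), cn_tsl, cn_tsl_sub_DopA; for the frames nrm_tsl, nrm_add_le, Cn.nrm_le or continuous_trW with nrm_co; Fin.addCases. -/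

open Set Filter Topology MeasureTheory
open scoped ContDiff NNReal ENNReal RealInnerProductSpace

namespace Pool.Agent.P.MP_de3acd_gt.FH

noncomputable section

variable {V : Type} [NormedAddCommGroup V] [InnerProductSpace ℝ V] [Sym V]
variable {a b a' b' m n : ℕ}

variable {N : Type} {l : Filter N} {T : Op V a b} {T' : Op V a' b'} {U : N → Op V a b}
  {U' : N → Op V a' b'} {β : ℝ → V →L[ℝ] V}

theorem cn_zero_ScA {F : Type} [NormedAddCommGroup F] [NormedSpace ℝ F] (k : ℕ) (f : Pl → F)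
    {ε : ℝ} (hε : 0 < ε) : Cn k (f - f) univ ε := by
  rw [sub_self]
  exact (cn_const k (0 : F) univ).mono le_rfl Subset.rfl (by rw [norm_zero]; exact hε.le)

omit [Sym V] in
theorem nrm_ScA (k : ℕ) {φ ψ : Pl → V} (h : φ ∈ Dsub V) (h' : ψ ∈ Dsub V) :
    nrm k (φ - ψ) univ = ENNReal.ofReal (‖toW k φ - toW k ψ‖ ^ 2) := by
  rw [toW_co k ⟨φ, h⟩, toW_co k ⟨ψ, h'⟩, ← map_sub]
  exact nrm_co k ((⟨φ, h⟩ : Dsub V) - ⟨ψ, h'⟩)

omit [Sym V] in
theorem toW_iff_ScA (k : ℕ) {f : N → Pl → V} {g : Pl → V} (hf : ∀ᶠ n in l, f n ∈ Dsub V)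
    (hg : g ∈ Dsub V) : Tendsto (fun n => nrm k (f n - g) univ) l (𝓝 0) ↔
      Tendsto (fun n => toW k (f n)) l (𝓝 (toW k g)) := by
  rw [tendsto_congr' (hf.mono fun n hn => nrm_ScA k hn hg), tendsto_iff_norm_sub_tendsto_zero]
  constructor
  · intro h
    have h1 := ((ENNReal.tendsto_toReal ENNReal.zero_ne_top).comp h).sqrt
    rw [ENNReal.toReal_zero, Real.sqrt_zero] at h1
    refine h1.congr fun n => ?_
    rw [Function.comp_apply, ENNReal.toReal_ofReal (sq_nonneg _), Real.sqrt_sq (norm_nonneg _)]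
  · intro h
    simpa using ENNReal.tendsto_ofReal (h.pow 2)

theorem nrm_tsl_ScA (k : ℕ) {f : N → Pl → V} {g : Pl → V} (hf : ∀ᶠ n in l, f n ∈ Dsub V)
    (hg : g ∈ Dsub V) (h : Tendsto (fun n => nrm k (f n - g) univ) l (𝓝 0)) {c : N → Pl} {c₀ : Pl}
    (e : Tendsto c l (𝓝 c₀)) :
    Tendsto (fun n => nrm k (tsl (c n) (f n) - tsl c₀ g) univ) l (𝓝 0) := by
  rw [toW_iff_ScA k (hf.mono fun n hn => tsl_mem hn _) (tsl_mem hg _), toW_tsl k hg]
  refine (((continuous_trW₂ k).tendsto (c₀, toW k g)).comp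
    (e.prodMk_nhds ((toW_iff_ScA k hf hg).1 h))).congr' (hf.mono fun n hn => ?_)
  exact (toW_tsl k hn _).symm

theorem cn_tsl_ScA {F : Type} [NormedAddCommGroup F] [NormedSpace ℝ F] (k : ℕ) {f : N → Pl → F}
    {g : Pl → F} (hf : ∀ᶠ n in l, Bdd (f n)) (hg : Bdd g)
    (h : ∀ ε > 0, ∀ᶠ n in l, Cn k (f n - g) univ ε) {c : N → Pl} {c₀ : Pl}
    (e : Tendsto c l (𝓝 c₀)) {ε : ℝ} (hε : 0 < ε) :
    ∀ᶠ n in l, Cn k (tsl (c n) (f n) - tsl c₀ g) univ ε := by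
  obtain ⟨A, hA⟩ := cn_tsl_sub_DopA k (hg.tsl c₀)
  have h1 := (tendsto_iff_norm_sub_tendsto_zero.1 e).const_mul A
  rw [mul_zero] at h1
  filter_upwards [hf, h _ (half_pos hε), h1.eventually (ge_mem_nhds (half_pos hε))]
    with n h2 h3 h4
  have e1 : tsl (c n) (f n) - tsl c₀ g =
      tsl (c n) (f n - g) + (tsl (c n - c₀) (tsl c₀ g) - tsl c₀ g) := by
    rw [tsl_tsl, sub_add_cancel]
    exact (sub_add_sub_cancel (tsl (c n) (f n)) (tsl (c n) g) _).symm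
  rw [e1, ← add_halves ε]
  exact Cn.add ((h2.sub hg).tsl _).1 (((hg.tsl _).tsl _).sub (hg.tsl _)).1 ((cn_tsl _).2 h3)
    ((hA _).mono le_rfl Subset.rfl h4)

theorem append_ScA {α : Type} [TopologicalSpace α] {f : N → Fin a → α} {g : N → Fin a' → α}
    {f₀ : Fin a → α} {g₀ : Fin a' → α} (hf : Tendsto f l (𝓝 f₀)) (hg : Tendsto g l (𝓝 g₀)) :
    Tendsto (fun n => Fin.append (f n) (g n)) l (𝓝 (Fin.append f₀ g₀)) := by
  refine tendsto_pi_nhds.2 fun i => Fin.addCases (fun i => ?_) (fun i => ?_) i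
  · simp only [Fin.append_left]
    exact tendsto_pi_nhds.1 hf i
  · simp only [Fin.append_right]
    exact tendsto_pi_nhds.1 hg i

theorem frame_ScA (k : ℕ) {K : N → Fin a → Pl → V} {K' : N → Fin a' → Pl → V}
    {L : Fin a → Pl → V} {L' : Fin a' → Pl → V} (hK : ∀ᶠ n in l, TF (K n))
    (hK' : ∀ᶠ n in l, TF (K' n)) (hL : TF L) (hL' : TF L')
    (h : ∀ i, Tendsto (fun n => nrm k (K n i - L i) univ) l (𝓝 0))
    (h' : ∀ i, Tendsto (fun n => nrm k (K' n i - L' i) univ) l (𝓝 0)) {c c' : N → Pl} {d d' : Pl}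
    (e : Tendsto c l (𝓝 d)) (e' : Tendsto c' l (𝓝 d')) (i : Fin (a + a')) :
    Tendsto (fun n => nrm k
      (Fin.append (fun i => tsl (c n) (K n i)) (fun i => tsl (c' n) (K' n i)) i -
        Fin.append (fun i => tsl d (L i)) (fun i => tsl d' (L' i)) i) univ) l (𝓝 0) := by
  induction i using Fin.addCases with
  | left i =>
    simp only [Fin.append_left]
    exact nrm_tsl_ScA k (hK.mono fun n hn => hn i) (hL i) (h i) e
  | right i =>
    simp only [Fin.append_right]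
    exact nrm_tsl_ScA k (hK'.mono fun n hn => hn i) (hL' i) (h' i) e'

theorem tendsto_le_ScA {X Y : Type} [NormedAddCommGroup X] [NormedSpace ℝ X]
    [NormedAddCommGroup Y] [NormedSpace ℝ Y] {f : N → X →L[ℝ] Y} {g : X →L[ℝ] Y} {c : N → ℝ}
    (h : ∀ᶠ n in l, ‖f n - g‖ ≤ c n) (hc : Tendsto c l (𝓝 0)) : Tendsto f l (𝓝 g) :=
  tendsto_iff_norm_sub_tendsto_zero.2
    (squeeze_zero' (Eventually.of_forall fun _ => norm_nonneg _) h hc)

omit [Sym V] in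
theorem tf_append_ScA {K : Fin a → Pl → V} {K' : Fin a' → Pl → V} (h : TF K) (h' : TF K')
    (c c' : Pl) : TF (Fin.append (fun i => tsl c (K i)) fun i => tsl c' (K' i)) := by
  refine fun i => Fin.addCases (fun i => ?_) (fun i => ?_) i
  · rw [Fin.append_left]
    exact tsl_mem (h i) c
  · rw [Fin.append_right]
    exact tsl_mem (h' i) c'

theorem sc_const (h : CT T) : SC l (fun _ => T) T := by
  refine ⟨fun ε hε => Eventually.of_forall fun _ => cn_zero_ScA 2 _ hε,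
    fun ε hε => Eventually.of_forall fun _ => cn_zero_ScA 1 _ hε, fun i => ?_, fun i => ?_,
    tendsto_const_nhds⟩ <;> simp only [sub_self, nrm_zero_fun] <;> exact tendsto_const_nhds

theorem SC.hil (h : SC l U T) (hT : CT T) (hU : ∀ᶠ n in l, CT (U n)) :
    Tendsto (fun n => hil (U n)) l (𝓝 (hil T)) := by
  have h1 : Tendsto (fun n => ‖Dop 1 1 (U n).j (U n).S - Dop 1 1 T.j T.S‖) l (𝓝 0) := by
    refine Metric.tendsto_nhds.2 fun ε hε => ?_
    have hε' : 0 < ε / 36 := by positivity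
    filter_upwards [hU, h.j _ hε', h.S _ hε'] with n h1 h2 h3
    rw [dist_zero_right, norm_norm]
    exact (norm_Dop_sub_le le_rfl h1.1 hT.1 (h2.mono one_le_two Subset.rfl le_rfl) h3).trans_lt
      (by linarith)
  have h2 := tendsto_finsetSum Finset.univ fun i _ => tendsto_iff_norm_sub_tendsto_zero.1
    ((toW_iff_ScA 1 (hU.mono fun n hn => hn.2.1 i) (hT.2.1 i)).1 (h.K i))
  have h3 := tendsto_finsetSum Finset.univ fun i _ => tendsto_iff_norm_sub_tendsto_zero.1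
    ((toW_iff_ScA 0 (hU.mono fun n hn => hn.2.2 i) (hT.2.2 i)).1 (h.l' i))
  have h4 := (tendsto_iff_norm_sub_tendsto_zero.1 h.M).const_mul (Fintype.card (Fin a) : ℝ)
  have h5 := ((h1.add h2).add h3).add h4
  simp only [Finset.sum_const_zero, add_zero, mul_zero] at h5
  refine tendsto_le_ScA (hU.mono fun n hn => ?_) h5
  exact (norm_blk_sub_le _ _ _ _ _ _ _ _).trans (add_le_add (add_le_add (add_le_add le_rfl
    (norm_kmap_sub_le _ _)) (norm_lmap_sub_le hn.2.2 hT.2.2)) (norm_mmap_sub_le _ _))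

theorem CT.ag (h : CT T) (h' : CT T') (hβ : ContDiff ℝ ∞ β) (pβ : ∀ t, β (t + 1) = β t) (ϱ₁ ϱ₂ : ℝ) :
    NA (ag ϱ₁ ϱ₂ β T T') := by
  refine ⟨rfl, ⟨Or.inl rfl, bdd_const _, fun _ _ => rfl,
    ((h.1.bS.tsl _).add (h'.1.bS.tsl _)).sub (bdd_lp hβ pβ).1, per_sub_DopA (fun s t => ?_)
      (bdd_lp hβ pβ).2.1, fun _ => cpt_J0⟩,
    tf_append_ScA h.2.1 h'.2.1 _ _, tf_append_ScA h.2.2 h'.2.2 _ _⟩
  rw [Pi.add_apply, Pi.add_apply, h.1.pS.tsl _ s t, h'.1.pS.tsl _ s t]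

theorem SC.ag (h : SC l U T) (h' : SC l U' T') (hT : CT T) (hT' : CT T') (hU : ∀ᶠ n in l, CT (U n))
    (hU' : ∀ᶠ n in l, CT (U' n)) (hβ : ContDiff ℝ ∞ β) {ϱ₁ ϱ₂ : N → ℝ} {r₁ r₂ : ℝ}
    (e₁ : Tendsto ϱ₁ l (𝓝 r₁)) (e₂ : Tendsto ϱ₂ l (𝓝 r₂)) :
    SC l (fun n => ag (ϱ₁ n) (ϱ₂ n) β (U n) (U' n)) (ag r₁ r₂ β T T') := by
  have c₁ : Tendsto (fun n => ((ϱ₁ n, 0) : Pl)) l (𝓝 (r₁, 0)) := e₁.prodMk_nhds tendsto_const_nhds
  have c₂ : Tendsto (fun n => ((-ϱ₂ n, 0) : Pl)) l (𝓝 (-r₂, 0)) :=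
    e₂.neg.prodMk_nhds tendsto_const_nhds
  refine ⟨fun ε hε => Eventually.of_forall fun _ => cn_zero_ScA 2 _ hε, fun ε hε => ?_,
    frame_ScA 1 (hU.mono fun n hn => hn.2.1) (hU'.mono fun n hn => hn.2.1) hT.2.1 hT'.2.1 h.K h'.K
      c₁ c₂,
    frame_ScA 0 (hU.mono fun n hn => hn.2.2) (hU'.mono fun n hn => hn.2.2) hT.2.2 hT'.2.2 h.l' h'.l'
      c₁ c₂, ?_⟩
  · filter_upwards [hU, hU',
      cn_tsl_ScA 1 (hU.mono fun n hn => hn.1.bS) hT.1.bS h.S c₁ (half_pos hε),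
      cn_tsl_ScA 1 (hU'.mono fun n hn => hn.1.bS) hT'.1.bS h'.S c₂ (half_pos hε)] with n a1 a2 a3 a4
    have e : pre (ϱ₁ n) (ϱ₂ n) (U n).S (U' n).S β - pre r₁ r₂ T.S T'.S β =
        (tsl (ϱ₁ n, 0) (U n).S - tsl (r₁, 0) T.S) +
          (tsl (-ϱ₂ n, 0) (U' n).S - tsl (-r₂, 0) T'.S) := by
      unfold pre
      abel
    have := Cn.add ((a1.1.bS.tsl _).sub (hT.1.bS.tsl _)).1
      ((a2.1.bS.tsl _).sub (hT'.1.bS.tsl _)).1 a3 a4
    rwa [← e, add_halves] at this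
  · simp only [FH.ag]
    exact append_ScA
      (tendsto_pi_nhds.2 fun i => append_ScA (tendsto_pi_nhds.1 h.M i) tendsto_const_nhds)
      (tendsto_pi_nhds.2 fun i => append_ScA tendsto_const_nhds (tendsto_pi_nhds.1 h'.M i))

theorem continuous_ag (h : CT T) (h' : CT T') (hβ : ContDiff ℝ ∞ β) (pβ : ∀ t, β (t + 1) = β t) :
    Continuous fun q : ℝ × ℝ => hil (ag q.1 q.2 β T T') :=
  continuous_iff_continuousAt.2 fun q =>
    ((sc_const h).ag (sc_const h') h h' (Eventually.of_forall fun _ => h)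
      (Eventually.of_forall fun _ => h') hβ (continuous_fst.tendsto q)
      (continuous_snd.tendsto q)).hil (h.ag h' hβ pβ _ _).2
      (Eventually.of_forall fun _ => (h.ag h' hβ pβ _ _).2)

theorem continuous_ag3 {a'' b'' : ℕ} {T'' : Op V a'' b''} {δ : ℝ → V →L[ℝ] V} (h : CT T) (h' : CT T')
    (h'' : CT T'') (hβ : ContDiff ℝ ∞ β) (pβ : ∀ t, β (t + 1) = β t) (hδ : ContDiff ℝ ∞ δ)
    (pδ : ∀ t, δ (t + 1) = δ t) :
    Continuous fun q : ℝ × ℝ => hil (ag 0 q.2 δ (ag q.1 0 β T T') T'') :=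
  continuous_iff_continuousAt.2 fun q =>
    (((sc_const h).ag (sc_const h') h h' (Eventually.of_forall fun _ => h)
      (Eventually.of_forall fun _ => h') hβ (continuous_fst.tendsto q) tendsto_const_nhds).ag
      (sc_const h'') (h.ag h' hβ pβ _ _).2 h''
      (Eventually.of_forall fun _ => (h.ag h' hβ pβ _ _).2) (Eventually.of_forall fun _ => h'') hδ
      tendsto_const_nhds (continuous_snd.tendsto q)).hil
      ((h.ag h' hβ pβ _ _).2.ag h'' hδ pδ _ _).2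
      (Eventually.of_forall fun _ => ((h.ag h' hβ pβ _ _).2.ag h'' hδ pδ _ _).2)

end

end Pool.Agent.P.MP_de3acd_gt.FH
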