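import Pool.Agent.P.MP_de3acd_gt.FH.Defs7
import Pool.Agent.P.MP_de3acd_gt.FH.GauB

/-! Gauge transformations that depend on both variables.
Sketch: follow GauB. SG.bs: for |s| ≥ R + 1 the iterated derivative at (s, t) is the one at (± (R + 1), t) (iteratedFDeriv_comp_add_right, Filter.EventuallyEq.iteratedFDeriv), and Icc (-(R + 1)) (R + 1) ×ˢ Icc 0 1 is compact;
ds and dt of such functions are again such functions (norm_iteratedFDeriv_fderiv, as in Bdd.fderiv_apply). The derivative of Q P = 1 vanishes (ds_bil, dt_bil with compL, or fderiv_clm_apply).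
adm, lim: on an end P (s, t) = P₀ t, ds P = 0, dt P (s, t) = deriv P₀ t (hasDerivAt_dt), j ↦ P₀ j Q₀, B ↦ (P₀ B + P₀') Q₀, as in nd_GauB, dsymp_GauB, adm_GauB. eqv: differentiate SG.tw. -/

open Set Filter Topology MeasureTheory
open scoped ContDiff NNReal ENNReal RealInnerProductSpace

namespace Pool.Agent.P.MP_de3acd_gt.FH

noncomputable section

variable {F₁ F₂ : Type} [NormedAddCommGroup F₁] [NormedSpace ℝ F₁] [FiniteDimensional ℝ F₁]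
  [NormedAddCommGroup F₂] [NormedSpace ℝ F₂] [FiniteDimensional ℝ F₂]
  {Ω₁ : F₁ → F₁ → ℝ} {Ω₂ : F₂ → F₂ → ℝ} {γ₁ : Equiv.Perm F₁} {γ₂ : Equiv.Perm F₂}
  {Γ₁ : Subgroup (Equiv.Perm F₁)} {Γ₂ : Subgroup (Equiv.Perm F₂)}
variable {P : Pl → F₁ →L[ℝ] F₂} {Q : Pl → F₂ →L[ℝ] F₁} {a b : ℕ} {T T' : Op F₁ a b} {ξ : Pl → F₁}
  {γ : Equiv.Perm F₂} {x y : ℝ → F₂}

section

variable {U : Type} [NormedAddCommGroup U] [NormedSpace ℝ U]

theorem shift_SgA {f : Pl → U} {p a : Pl} (h : ∀ᶠ q in 𝓝 p, f (q + a) = f q) (k : ℕ) :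
    iteratedFDeriv ℝ k f (p + a) = iteratedFDeriv ℝ k f p := by
  rw [← iteratedFDeriv_comp_add_right]
  exact (Filter.EventuallyEq.iteratedFDeriv ℝ h k).eq_of_nhds

theorem bs_SgA {f : Pl → U} (hf : ContDiff ℝ ∞ f) {R : ℝ}
    (hR : ∀ s t, (R ≤ s → f (s, t) = f (R, t)) ∧ (s ≤ -R → f (s, t) = f (-R, t))) :
    BS_GauB f := by
  refine ⟨hf, fun k => ?_⟩
  obtain ⟨C, hC⟩ := ((isCompact_Icc (a := -(|R| + 1)) (b := |R| + 1)).prod
    (isCompact_Icc (a := (0 : ℝ)) (b := 1))).exists_bound_of_continuousOn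
    (hf.continuous_iteratedFDeriv (le_GauB k)).continuousOn
  have h0 := abs_nonneg R
  have h1 := le_abs_self R
  refine ⟨C, fun p hp => ?_⟩
  by_cases h2 : |R| + 1 ≤ p.1
  · have e : p = (|R| + 1, p.2) + (p.1 - (|R| + 1), 0) := Prod.ext (by simp) (by simp)
    rw [e, shift_SgA]
    · exact hC _ ⟨⟨by linarith, le_rfl⟩, hp.2⟩
    · filter_upwards [continuous_fst.continuousAt.eventually
        (lt_mem_nhds (show R < ((|R| + 1, p.2) : Pl).1 by linarith))] with q hq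
      have e' : q + (p.1 - (|R| + 1), 0) = (q.1 + (p.1 - (|R| + 1)), q.2) :=
        Prod.ext rfl (by simp)
      rw [e', (hR _ _).1 (by linarith)]
      exact ((hR q.1 q.2).1 hq.le).symm
  by_cases h3 : p.1 ≤ -(|R| + 1)
  · have e : p = (-(|R| + 1), p.2) + (p.1 + (|R| + 1), 0) :=
      Prod.ext (by simp only [Prod.fst_add]; ring) (by simp)
    rw [e, shift_SgA]
    · exact hC _ ⟨⟨le_rfl, by linarith⟩, hp.2⟩
    · filter_upwards [continuous_fst.continuousAt.eventually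
        (gt_mem_nhds (show ((-(|R| + 1), p.2) : Pl).1 < -R by linarith))] with q hq
      have e' : q + (p.1 + (|R| + 1), 0) = (q.1 + (p.1 + (|R| + 1)), q.2) :=
        Prod.ext rfl (by simp)
      rw [e', (hR _ _).2 (by linarith)]
      exact ((hR q.1 q.2).2 hq.le).symm
  · exact hC _ ⟨⟨(not_le.1 h3).le, (not_le.1 h2).le⟩, hp.2⟩

theorem fd_SgA {f : Pl → U} (hf : BS_GauB f) (v : Pl) : BS_GauB fun p => fderiv ℝ f p v := by
  have h : BS_GauB (fderiv ℝ f) := by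
    refine ⟨hf.1.fderiv_right (m := ∞) le_rfl, fun k => ?_⟩
    obtain ⟨C, hC⟩ := hf.2 (k + 1)
    exact ⟨C, fun p hp => norm_iteratedFDeriv_fderiv.trans_le (hC p hp)⟩
  exact h.clm (ContinuousLinearMap.apply ℝ U v)

end

section

omit [FiniteDimensional ℝ F₁] [FiniteDimensional ℝ F₂]

theorem SG.eqQ_SgA (h : SG Ω₁ Ω₂ γ₁ γ₂ P Q) {p q : Pl} (e : P p = P q) : Q p = Q q :=
  ContinuousLinearMap.ext fun v => by
    have h1 := h.QP p (Q q v)
    rwa [e, h.PQ] at h1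

theorem SG.dP_SgA (h : SG Ω₁ Ω₂ γ₁ γ₂ P Q) (p : Pl) : DifferentiableAt ℝ P p :=
  h.sP.differentiable (by simp) p

theorem SG.dQ_SgA (h : SG Ω₁ Ω₂ γ₁ γ₂ P Q) (p : Pl) : DifferentiableAt ℝ Q p :=
  h.sQ.differentiable (by simp) p

theorem SG.dsQP_SgA (h : SG Ω₁ Ω₂ γ₁ γ₂ P Q) (p : Pl) (v : F₁) :
    ds Q p (P p v) + Q p (ds P p v) = 0 := by
  have h1 := (hasDerivAt_ds (s := p.1) (t := p.2) (h.dQ_SgA _)).clm_apply
    ((hasDerivAt_ds (s := p.1) (t := p.2) (h.dP_SgA _)).clm_apply (hasDerivAt_const p.1 v))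
  simp only [h.QP, map_zero, add_zero] at h1
  exact h1.unique (hasDerivAt_const p.1 v)

theorem SG.dtQP_SgA (h : SG Ω₁ Ω₂ γ₁ γ₂ P Q) (p : Pl) (v : F₁) :
    dt Q p (P p v) + Q p (dt P p v) = 0 := by
  have h1 := (hasDerivAt_dt (s := p.1) (t := p.2) (h.dQ_SgA _)).clm_apply
    ((hasDerivAt_dt (s := p.1) (t := p.2) (h.dP_SgA _)).clm_apply (hasDerivAt_const p.2 v))
  simp only [h.QP, map_zero, add_zero] at h1
  exact h1.unique (hasDerivAt_const p.2 v)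

theorem SG.dsymp_SgA (h : SG Ω₁ Ω₂ γ₁ γ₂ P Q) (s t : ℝ) (u v : F₁) :
    Ω₂ (dt P (s, t) u) (P (s, t) v) + Ω₂ (P (s, t) u) (dt P (s, t) v) = 0 := by
  obtain ⟨B, hB, -⟩ := h.form₂
  have h0 := hasDerivAt_dt (s := s) (t := t) (h.dP_SgA _)
  have h1 := h0.clm_apply (hasDerivAt_const t u)
  have h2 := (B.hasFDerivAt.comp_hasDerivAt t h1).clm_apply (h0.clm_apply (hasDerivAt_const t v))
  simp only [Function.comp_def, map_zero, add_zero, ← hB, h.symp] at h2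
  exact h2.unique (hasDerivAt_const t _)

theorem SG.twQ_SgA (h : SG Ω₁ Ω₂ γ₁ γ₂ P Q) (s t : ℝ) (v : F₂) :
    Q (s, t + 1) (lin γ₂ v) = lin γ₁ (Q (s, t) v) := by
  have h1 := h.tw s t (Q (s, t) v)
  rw [h.PQ] at h1
  rw [← h1, h.QP]

theorem SG.twS_SgA (h : SG Ω₁ Ω₂ γ₁ γ₂ P Q) (s t : ℝ) (v : F₁) :
    ds P (s, t + 1) (lin γ₁ v) = lin γ₂ (ds P (s, t) v) := by
  obtain ⟨L, hL⟩ := h.aff₂
  have h1 := (hasDerivAt_ds (s := s) (t := t + 1) (h.dP_SgA _)).clm_apply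
    (hasDerivAt_const s (lin γ₁ v))
  have h2 := L.hasFDerivAt.comp_hasDerivAt s
    ((hasDerivAt_ds (s := s) (t := t) (h.dP_SgA _)).clm_apply (hasDerivAt_const s v))
  simp only [Function.comp_def, map_zero, add_zero, h.tw, ← hL] at h1 h2
  exact h1.unique h2

theorem SG.twT_SgA (h : SG Ω₁ Ω₂ γ₁ γ₂ P Q) (s t : ℝ) (v : F₁) :
    dt P (s, t + 1) (lin γ₁ v) = lin γ₂ (dt P (s, t) v) := by
  obtain ⟨L, hL⟩ := h.aff₂
  have h1 := ((hasDerivAt_dt (s := s) (t := t + 1) (h.dP_SgA _)).comp_add_const t 1).clm_apply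
    (hasDerivAt_const t (lin γ₁ v))
  have h2 := L.hasFDerivAt.comp_hasDerivAt t
    ((hasDerivAt_dt (s := s) (t := t) (h.dP_SgA _)).clm_apply (hasDerivAt_const t v))
  simp only [Function.comp_def, map_zero, add_zero, h.tw, ← hL] at h1 h2
  exact h1.unique h2

theorem SG.end_SgA (h : SG Ω₁ Ω₂ γ₁ γ₂ P Q) {e : Filter ℝ} (he : e = atBot ∨ e = atTop) :
    ∃ s₀, ∀ᶠ s in e, ∀ t, P (s, t) = P (s₀, t) ∧ Q (s, t) = Q (s₀, t) ∧ ds P (s, t) = 0 ∧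
      dt P (s, t) = dt P (s₀, t) := by
  obtain ⟨s₀, h0⟩ : ∃ s₀, ∀ᶠ s in e, ∀ᶠ s' in 𝓝 s, ∀ t, P (s', t) = P (s₀, t) := by
    obtain ⟨R, hR⟩ := h.ends
    rcases he with rfl | rfl
    · refine ⟨-R, (eventually_lt_atBot (-R)).mono fun s hs => ?_⟩
      filter_upwards [gt_mem_nhds hs] with s' hs' t using (hR s' t).2 hs'.le
    · refine ⟨R, (eventually_gt_atTop R).mono fun s hs => ?_⟩
      filter_upwards [lt_mem_nhds hs] with s' hs' t using (hR s' t).1 hs'.le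
  refine ⟨s₀, h0.mono fun s hs t => ?_⟩
  have h1 := hs.self_of_nhds
  refine ⟨h1 t, h.eqQ_SgA (h1 t), ?_, ?_⟩
  · exact (hasDerivAt_ds (h.dP_SgA _)).unique
      ((hasDerivAt_const s (P (s₀, t))).congr_of_eventuallyEq (hs.mono fun s' hs' => hs' t))
  · have h2 := hasDerivAt_dt (s := s) (t := t) (h.dP_SgA _)
    simp only [h1] at h2
    exact h2.unique (hasDerivAt_dt (h.dP_SgA _))

theorem SG.nd_SgA (h : SG Ω₁ Ω₂ γ₁ γ₂ P Q) (s : ℝ) {B : ℝ → F₁ →L[ℝ] F₁} (hB : Nd γ₁ B) :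
    Nd γ₂ fun t => ((P (s, t)).comp (B t) + dt P (s, t)).comp (Q (s, t)) := fun ξ h1 h2 => by
  have h3 := hB (fun t => Q (s, t) (ξ t)) (fun t => ?_) fun t => by simp only [h2, h.twQ_SgA]
  · funext t
    rw [← h.PQ (s, t) (ξ t), congrFun h3 t]
    exact map_zero _
  · refine ((hasDerivAt_dt (h.dQ_SgA _)).clm_apply (h1 t)).congr_deriv ?_
    have h4 := h.dtQP_SgA (s, t) (Q (s, t) (ξ t))
    rw [h.PQ] at h4
    simp only [ContinuousLinearMap.comp_apply, add_apply, map_add, h.QP]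
    rw [add_left_comm, h4, add_zero]

theorem SG.pair_SgA (h : SG Ω₁ Ω₂ γ₁ γ₂ P Q) (ξ η : Pl → F₁) :
    pair Ω₂ (fun p => P p (ξ p)) (fun p => P p (η p)) = pair Ω₁ ξ η := by
  simp only [pair, h.symp]

end

theorem SG.symm (h : SG Ω₁ Ω₂ γ₁ γ₂ P Q) : SG Ω₂ Ω₁ γ₂ γ₁ Q P := by
  obtain ⟨R, hR⟩ := h.ends
  exact ⟨h.sQ, h.sP, h.QP, h.PQ, h.form₂, h.form₁, fun p u v => by rw [← h.symp p, h.PQ, h.PQ],
    h.aff₂, h.aff₁, h.twQ_SgA, R, fun s t =>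
      ⟨fun hs => h.eqQ_SgA ((hR s t).1 hs), fun hs => h.eqQ_SgA ((hR s t).2 hs)⟩⟩

theorem SG.bs (h : SG Ω₁ Ω₂ γ₁ γ₂ P Q) :
    BS_GauB P ∧ BS_GauB Q ∧ BS_GauB (ds P) ∧ BS_GauB (dt P) := by
  obtain ⟨R, hR⟩ := h.ends
  obtain ⟨R', hR'⟩ := h.symm.ends
  have h1 := bs_SgA h.sP hR
  exact ⟨h1, bs_SgA h.sQ hR', fd_SgA h1 _, fd_SgA h1 _⟩

theorem SG.sg_sg (h : SG Ω₁ Ω₂ γ₁ γ₂ P Q) (γ : Equiv.Perm F₂) (x y : ℝ → F₂) (T : Op F₁ a b) :
    sg T.γ T.x T.y Q P (sg γ x y P Q T) = T := by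
  refine ext_GauB rfl rfl rfl (fun p v => ?_) (fun p v => ?_)
    (funext fun i => funext fun p => h.QP p _) (funext fun i => funext fun p => h.QP p _) rfl
  · simp only [sg, ContinuousLinearMap.comp_apply, h.QP]
  · have h1 := congrArg (T.j p) (h.dtQP_SgA p v)
    have h2 := h.dsQP_SgA p v
    simp only [sg, ContinuousLinearMap.comp_apply, h.QP, sub_apply, map_sub]
    rw [map_add, map_zero] at h1
    linear_combination (norm := module) -h1 - h2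

theorem SG.D_sg (h : SG Ω₁ Ω₂ γ₁ γ₂ P Q) (hξ : ContDiff ℝ ∞ ξ) (p : Pl) :
    (sg γ x y P Q T).D (fun p => P p (ξ p)) p = P p (T.D ξ p) := by
  have h0 : DifferentiableAt ℝ ξ p := hξ.differentiable (by simp) p
  have h1 : ds (fun p => P p (ξ p)) p = ds P p (ξ p) + P p (ds ξ p) :=
    ds_bil (ContinuousLinearMap.id ℝ (F₁ →L[ℝ] F₂)) (h.dP_SgA p) h0
  have h2 : dt (fun p => P p (ξ p)) p = dt P p (ξ p) + P p (dt ξ p) :=
    dt_bil (ContinuousLinearMap.id ℝ (F₁ →L[ℝ] F₂)) (h.dP_SgA p) h0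
  simp only [Op.D, h1, h2, sg, ContinuousLinearMap.comp_apply, sub_apply, map_add, h.QP]
  abel

theorem SG.sec (h : SG Ω₁ Ω₂ γ₁ γ₂ P Q) (hξ : Sec γ₁ ξ) : Sec γ₂ fun p => P p (ξ p) := by
  obtain ⟨A, hA⟩ := h.bs.1.2 0
  simp only [norm_iteratedFDeriv_zero] at hA
  have h1 : ContDiff ℝ ∞ fun p => P p (ξ p) := h.sP.clm_apply hξ.1
  refine ⟨h1, fun s t => ?_, hξ.2.2.of_le_mul (c := A) h1.continuous.aestronglyMeasurable
    (ae_GauB fun p hp => (P p).le_of_opNorm_le (hA _ hp) _)⟩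
  beta_reduce
  rw [hξ.2.1]
  exact h.tw s t _

theorem SG.tst (h : SG Ω₁ Ω₂ γ₁ γ₂ P Q) (hξ : Tst γ₁ ξ) : Tst γ₂ fun p => P p (ξ p) := by
  obtain ⟨R, hR⟩ := hξ.2
  exact ⟨h.sec hξ.1, R, fun p hp => by simp only [hR p hp, map_zero]⟩

theorem SG.adm (h : SG Ω₁ Ω₂ γ₁ γ₂ P Q) (h₂ : γ₂ ∈ Γ₂)
    (tw : ∀ t, x (t + 1) = γ₂ (x t) ∧ y (t + 1) = γ₂ (y t)) (e : T.γ = γ₁) (hT : Adm Ω₁ Γ₁ T) :
    Adm Ω₂ Γ₂ (sg γ₂ x y P Q T) := by
  subst e
  have b0 : BS_GauB fun p => (T.j p, T.S p) := ⟨hT.smooth, hT.bdd⟩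
  have b1 : BS_GauB T.j := b0.clm (ContinuousLinearMap.fst ℝ _ _)
  have b2 : BS_GauB T.S := b0.clm (ContinuousLinearMap.snd ℝ _ _)
  obtain ⟨bP, bQ, bS, bD⟩ := h.bs
  have b3 : BS_GauB fun p => ((sg γ₂ x y P Q T).j p, (sg γ₂ x y P Q T).S p) :=
    (bP.comp (b1.comp bQ)).prod
      ((((bP.comp b2).sub bS).sub (bP.comp (b1.comp (bQ.comp bD)))).comp bQ)
  have sy : ∀ p u v, Ω₁ (Q p u) (Q p v) = Ω₂ u v := h.symm.symp
  refine ⟨h₂, tw, b3.1, b3.2, fun s t v => ?_, fun p => ?_,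
    fun e he => ?_, fun i => h.tst (hT.tst.1 i), fun i => h.tst (hT.tst.2 i)⟩
  · obtain ⟨L, hL⟩ := h.aff₂
    have e : ∀ u v, lin γ₂ u - lin γ₂ v = lin γ₂ (u - v) := fun u v => by
      rw [hL, hL, hL, map_sub]
    simp only [sg, ContinuousLinearMap.comp_apply, sub_apply, h.twQ_SgA, h.twS_SgA,
      h.twT_SgA, (hT.eqv s t _).1, (hT.eqv s t _).2, e, h.tw, and_self]
  · obtain ⟨h1, h2, h3⟩ := hT.cpt p
    refine ⟨fun v => ?_, fun u v => ?_, fun v hv => ?_⟩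
    · simp only [sg, ContinuousLinearMap.comp_apply, h.QP, h1, map_neg, h.PQ]
    · simp only [sg, ContinuousLinearMap.comp_apply, h.symp, h2, sy]
    · have h4 := h3 (Q p v) fun h0 => hv (by rw [← h.PQ p v, h0, map_zero])
      rwa [← h.symp p, h.PQ] at h4
  · obtain ⟨j, B, h1, h2, h3⟩ := hT.lim e he
    obtain ⟨s₀, h0⟩ := h.end_SgA he
    refine ⟨fun t => (P (s₀, t)).comp ((j t).comp (Q (s₀, t))),
      fun t => ((P (s₀, t)).comp (B t) + dt P (s₀, t)).comp (Q (s₀, t)), fun t => ?_,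
      fun t u v => ?_, h.nd_SgA s₀ h3⟩
    · have hc : Continuous fun q : (F₁ →L[ℝ] F₁) × (F₁ →L[ℝ] F₁) =>
          ((P (s₀, t)).comp (q.1.comp (Q (s₀, t))), ((P (s₀, t)).comp q.2 - 0 -
            (P (s₀, t)).comp (q.1.comp ((Q (s₀, t)).comp (dt P (s₀, t))))).comp (Q (s₀, t))) :=
        (continuous_const.clm_comp (continuous_fst.clm_comp continuous_const)).prodMk
          ((((continuous_const.clm_comp continuous_snd).sub continuous_const).sub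
            (continuous_const.clm_comp (continuous_fst.clm_comp continuous_const))).clm_comp
              continuous_const)
      refine ((((hc.tendsto _).comp (h1 t)).congr' (h0.mono fun s hs => ?_)).trans
        (le_of_eq (congrArg 𝓝 ?_)))
      · obtain ⟨k1, k2, k3, k4⟩ := hs t
        simp only [Function.comp_def, sg, k1, k2, k3, k4]
      · refine Prod.ext rfl (ContinuousLinearMap.ext fun v => ?_)
        simp only [ContinuousLinearMap.comp_apply, sub_apply, neg_apply, add_apply, map_neg,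
          map_add, h.QP, sub_zero]
        abel
    · obtain ⟨G, hG, -⟩ := h.form₂
      have h4 := h2 t (Q (s₀, t) u) (Q (s₀, t) v)
      have h5 := h.dsymp_SgA s₀ t (Q (s₀, t) u) (Q (s₀, t) v)
      rw [← h.symp (s₀, t), ← h.symp (s₀, t)] at h4
      simp only [h.PQ, hG] at h4 h5
      simp only [hG, ContinuousLinearMap.comp_apply, add_apply, map_add]
      linarith

theorem SG.ok (h : SG Ω₁ Ω₂ γ₁ γ₂ P Q) (h₂ : γ₂ ∈ Γ₂)
    (tw : ∀ t, x (t + 1) = γ₂ (x t) ∧ y (t + 1) = γ₂ (y t)) (e : T.γ = γ₁) (hT : Ok Ω₁ Γ₁ T) :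
    Ok Ω₂ Γ₂ (sg γ₂ x y P Q T) := by
  have key : ∀ η, Sec γ₂ η → ∃ η', Sec γ₁ η' ∧ η = fun p => P p (η' p) := fun η hη =>
    ⟨_, h.symm.sec hη, funext fun p => (h.PQ p _).symm⟩
  refine ⟨h.adm h₂ tw e hT.1, fun η ν h1 h2 h3 => ?_, fun ξ μ h1 h2 h3 => ?_⟩
  · subst e
    obtain ⟨η, h0, rfl⟩ := key η h1
    obtain ⟨h4, h5⟩ := hT.2.1 η ν h0 (fun ξ hξ => by
      have h6 := h2 _ (h.tst hξ)
      rw [funext (h.D_sg hξ.1.1)] at h6
      simpa only [sg, h.pair_SgA] using h6) fun i => by simpa only [sg, h.pair_SgA] using h3 i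
    exact ⟨funext fun p => by simp [h4], h5⟩
  · subst e
    obtain ⟨ξ, h0, rfl⟩ := key ξ h1
    obtain ⟨h4, h5⟩ := hT.2.2 ξ μ h0 (fun p => by
      have h7 := congrArg (Q p) (h2 p)
      rw [h.D_sg h0.1] at h7
      simpa only [sg, map_add, map_sum, map_smul, h.QP, map_zero] using h7)
      fun i => by simpa only [sg, h.pair_SgA] using h3 i
    exact ⟨funext fun p => by simp [h4], h5⟩

end

end Pool.Agent.P.MP_de3acd_gt.FH
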