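import Pool.Agent.P.MP_de3acd_gt.FH.FDefs

/-! Function spaces on the cylinder: test functions, Sobolev spaces, bounded smooth functions. -/

open Set Filter Topology MeasureTheory
open scoped ContDiff NNReal ENNReal RealInnerProductSpace BoundedContinuousFunction

namespace Pool.Agent.P.MP_de3acd_gt.FH

noncomputable section

section normed

variable {F : Type} [NormedAddCommGroup F] [NormedSpace ℝ F]

/-- One-periodic in `t`. -/
def Per {α : Type} (f : Pl → α) : Prop := ∀ s t, f (s, t + 1) = f (s, t)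

/-- The squared Sobolev norm of order `k` over `I × [0, 1]`. -/
def nrm : ℕ → (Pl → F) → Set ℝ → ℝ≥0∞
  | 0, f, I => ∫⁻ p in I ×ˢ Icc 0 1, ‖f p‖ₑ ^ 2
  | k + 1, f, I => (∫⁻ p in I ×ˢ Icc 0 1, ‖f p‖ₑ ^ 2) + nrm k (ds f) I + nrm k (dt f) I

theorem nrm_zero (f : Pl → F) (I : Set ℝ) : nrm 0 f I = ∫⁻ p in I ×ˢ Icc 0 1, ‖f p‖ₑ ^ 2 := rfl

theorem nrm_succ (k : ℕ) (f : Pl → F) (I : Set ℝ) :
    nrm (k + 1) f I = nrm 0 f I + nrm k (ds f) I + nrm k (dt f) I := rfl

/-- All partial derivatives of order at most `k` are at most `ε` on `I × ℝ`. -/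
def Cn : ℕ → (Pl → F) → Set ℝ → ℝ → Prop
  | 0, f, I, ε => ∀ p : Pl, p.1 ∈ I → ‖f p‖ ≤ ε
  | k + 1, f, I, ε => (∀ p : Pl, p.1 ∈ I → ‖f p‖ ≤ ε) ∧ Cn k (ds f) I ε ∧ Cn k (dt f) I ε

theorem cn_zero (f : Pl → F) (I : Set ℝ) (ε : ℝ) :
    Cn 0 f I ε ↔ ∀ p : Pl, p.1 ∈ I → ‖f p‖ ≤ ε := Iff.rfl

theorem cn_succ (k : ℕ) (f : Pl → F) (I : Set ℝ) (ε : ℝ) :
    Cn (k + 1) f I ε ↔ Cn 0 f I ε ∧ Cn k (ds f) I ε ∧ Cn k (dt f) I ε := Iff.rfl

/-- Smooth with all derivatives bounded. -/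
def Bdd (f : Pl → F) : Prop := ContDiff ℝ ∞ f ∧ ∀ k, ∃ C, ∀ p, ‖iteratedFDeriv ℝ k f p‖ ≤ C

theorem contDiff_ds {f : Pl → F} (h : ContDiff ℝ ∞ f) : ContDiff ℝ ∞ (ds f) :=
  (h.fderiv_right (m := ∞) le_rfl).clm_apply contDiff_const

theorem contDiff_dt {f : Pl → F} (h : ContDiff ℝ ∞ f) : ContDiff ℝ ∞ (dt f) :=
  (h.fderiv_right (m := ∞) le_rfl).clm_apply contDiff_const

theorem Per.fderiv {f : Pl → F} (h : Per f) : Per (fderiv ℝ f) := fun s t => by
  have e : f = fun p => f (p + (0, 1)) := funext fun p => by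
    rw [← h p.1 p.2]
    exact congrArg f (Prod.ext (by simp) rfl)
  conv_rhs => rw [e, fderiv_comp_add_right]
  exact congrArg _ (Prod.ext (by simp) rfl)

theorem Per.ds {f : Pl → F} (h : Per f) : Per (ds f) := fun s t =>
  congrArg (fun A : Pl →L[ℝ] F => A (1, 0)) (h.fderiv s t)

theorem Per.dt {f : Pl → F} (h : Per f) : Per (dt f) := fun s t =>
  congrArg (fun A : Pl →L[ℝ] F => A (0, 1)) (h.fderiv s t)

theorem ds_add {f g : Pl → F} (hf : ContDiff ℝ ∞ f) (hg : ContDiff ℝ ∞ g) :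
    ds (f + g) = ds f + ds g := funext fun p => by
  simp only [ds, Pi.add_apply]
  rw [fderiv_add (hf.differentiable (by simp) p) (hg.differentiable (by simp) p)]
  rfl

theorem dt_add {f g : Pl → F} (hf : ContDiff ℝ ∞ f) (hg : ContDiff ℝ ∞ g) :
    dt (f + g) = dt f + dt g := funext fun p => by
  simp only [dt, Pi.add_apply]
  rw [fderiv_add (hf.differentiable (by simp) p) (hg.differentiable (by simp) p)]
  rfl

theorem ds_smul (c : ℝ) {f : Pl → F} (hf : ContDiff ℝ ∞ f) : ds (c • f) = c • ds f :=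
  funext fun p => by
    simp only [ds, Pi.smul_apply]
    rw [fderiv_const_smul (hf.differentiable (by simp) p)]
    rfl

theorem dt_smul (c : ℝ) {f : Pl → F} (hf : ContDiff ℝ ∞ f) : dt (c • f) = c • dt f :=
  funext fun p => by
    simp only [dt, Pi.smul_apply]
    rw [fderiv_const_smul (hf.differentiable (by simp) p)]
    rfl

theorem fderiv_eq_zero_of_supp {f : Pl → F} {R : ℝ} (h : ∀ p : Pl, R ≤ |p.1| → f p = 0) (p : Pl)
    (hp : R + 1 ≤ |p.1|) : fderiv ℝ f p = 0 := by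
  have : f =ᶠ[𝓝 p] fun _ => 0 := by
    have : ∀ᶠ q : Pl in 𝓝 p, R < |q.1| :=
      (continuous_fst.abs.tendsto p).eventually (lt_mem_nhds (by linarith))
    exact this.mono fun q hq => h q hq.le
  rw [this.fderiv_eq]
  simp

variable (F) in
/-- Test functions on the cylinder. -/
def Dsub : Submodule ℝ (Pl → F) where
  carrier := {φ | ContDiff ℝ ∞ φ ∧ Per φ ∧ ∃ R, ∀ p : Pl, R ≤ |p.1| → φ p = 0}
  zero_mem' := ⟨contDiff_const, fun _ _ => rfl, 0, fun _ _ => rfl⟩
  add_mem' := by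
    rintro f g ⟨f1, f2, R, f3⟩ ⟨g1, g2, R', g3⟩
    refine ⟨f1.add g1, fun s t => by simp only [Pi.add_apply, f2 s t, g2 s t], max R R',
      fun p hp => ?_⟩
    simp only [Pi.add_apply, f3 p ((le_max_left _ _).trans hp), g3 p ((le_max_right _ _).trans hp),
      add_zero]
  smul_mem' := by
    rintro c f ⟨f1, f2, R, f3⟩
    exact ⟨f1.const_smul c, fun s t => by simp only [Pi.smul_apply, f2 s t], R,
      fun p hp => by simp only [Pi.smul_apply, f3 p hp, smul_zero]⟩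

theorem ds_mem {φ : Pl → F} (h : φ ∈ Dsub F) : ds φ ∈ Dsub F := by
  obtain ⟨h1, h2, R, h3⟩ := h
  exact ⟨contDiff_ds h1, h2.ds, R + 1, fun p hp => by
    simp [ds, fderiv_eq_zero_of_supp h3 p hp]⟩

theorem dt_mem {φ : Pl → F} (h : φ ∈ Dsub F) : dt φ ∈ Dsub F := by
  obtain ⟨h1, h2, R, h3⟩ := h
  exact ⟨contDiff_dt h1, h2.dt, R + 1, fun p hp => by
    simp [dt, fderiv_eq_zero_of_supp h3 p hp]⟩

/-- The two-jet. -/
def jet2 (f : Pl → F) (p : Pl) : F × (F × F × F) × (F × F × F) :=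
  (f p, (ds f p, ds (ds f) p, dt (ds f) p), (dt f p, ds (dt f) p, dt (dt f) p))

theorem Bdd.fderiv {f : Pl → F} (h : Bdd f) : Bdd (fderiv ℝ f) :=
  ⟨h.1.fderiv_right (m := ∞) le_rfl, fun k => by
    obtain ⟨C, hC⟩ := h.2 (k + 1)
    exact ⟨C, fun p => by rw [norm_iteratedFDeriv_fderiv]; exact hC p⟩⟩

theorem Bdd.bound {f : Pl → F} (h : Bdd f) : ∃ C, ∀ p, ‖f p‖ ≤ C := by
  obtain ⟨C, hC⟩ := h.2 0
  exact ⟨C, fun p => by simpa using hC p⟩

theorem Bdd.fderiv_apply {f : Pl → F} (h : Bdd f) (v : Pl) : Bdd fun p => _root_.fderiv ℝ f p v :=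
  ⟨h.fderiv.1.clm_apply contDiff_const, fun k => by
    obtain ⟨C, hC⟩ := h.fderiv.2 k
    refine ⟨‖v‖ * C, fun p => ?_⟩
    exact (norm_iteratedFDeriv_clm_apply_const (N := ∞) h.fderiv.1.contDiffAt
      (by exact_mod_cast le_top)).trans (mul_le_mul_of_nonneg_left (hC p) (norm_nonneg _))⟩

theorem Bdd.ds {f : Pl → F} (h : Bdd f) : Bdd (ds f) := h.fderiv_apply _

theorem Bdd.dt {f : Pl → F} (h : Bdd f) : Bdd (dt f) := h.fderiv_apply _

theorem Bdd.cn {f : Pl → F} (h : Bdd f) (k : ℕ) : ∃ C, 0 ≤ C ∧ Cn k f univ C := by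
  have mono : ∀ (k : ℕ) (f : Pl → F) (C C' : ℝ), C ≤ C' → Cn k f univ C → Cn k f univ C' := by
    intro k
    induction k with
    | zero => exact fun f C C' h h' p hp => (h' p hp).trans h
    | succ k ih =>
      exact fun f C C' h h' => ⟨fun p hp => (h'.1 p hp).trans h, ih _ _ _ h h'.2.1,
        ih _ _ _ h h'.2.2⟩
  induction k generalizing f with
  | zero =>
    obtain ⟨C, hC⟩ := h.bound
    exact ⟨C, (norm_nonneg _).trans (hC 0), fun p _ => hC p⟩
  | succ k ih =>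
    obtain ⟨C, hC⟩ := h.bound
    obtain ⟨C1, p1, h1⟩ := ih h.ds
    obtain ⟨C2, p2, h2⟩ := ih h.dt
    exact ⟨max C (max C1 C2), le_max_of_le_right (le_max_of_le_left p1),
      fun p _ => (hC p).trans (le_max_left _ _),
      mono _ _ _ _ (le_max_of_le_right (le_max_left _ _)) h1,
      mono _ _ _ _ (le_max_of_le_right (le_max_right _ _)) h2⟩

theorem cn_two_iff {f : Pl → F} {C : ℝ} : Cn 2 f univ C ↔ ∀ p, ‖jet2 f p‖ ≤ C := by
  simp only [Cn, jet2, Prod.norm_mk, max_le_iff, mem_univ, forall_true_left, forall_and]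

variable (F) in
/-- Smooth periodic functions with bounded derivatives, as a submodule. -/
def Cbs : Submodule ℝ (Pl → F) where
  carrier := {f | Bdd f ∧ Per f}
  zero_mem' := ⟨⟨contDiff_const, fun k => ⟨0, fun p => by
    rw [show (0 : Pl → F) = fun _ => 0 from rfl, iteratedFDeriv_fun_zero]; simp⟩⟩, fun _ _ => rfl⟩
  add_mem' := by
    rintro f g ⟨⟨f1, f2⟩, f3⟩ ⟨⟨g1, g2⟩, g3⟩
    refine ⟨⟨f1.add g1, fun k => ?_⟩, fun s t => by simp only [Pi.add_apply, f3 s t, g3 s t]⟩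
    obtain ⟨C, hC⟩ := f2 k
    obtain ⟨C', hC'⟩ := g2 k
    refine ⟨C + C', fun p => ?_⟩
    rw [iteratedFDeriv_add_apply (f1.of_le (by exact_mod_cast le_top)).contDiffAt
      (g1.of_le (by exact_mod_cast le_top)).contDiffAt]
    exact norm_add_le_of_le (hC p) (hC' p)
  smul_mem' := by
    rintro c f ⟨⟨f1, f2⟩, f3⟩
    refine ⟨⟨f1.const_smul c, fun k => ?_⟩, fun s t => by simp only [Pi.smul_apply, f3 s t]⟩
    obtain ⟨C, hC⟩ := f2 k
    refine ⟨‖c‖ * C, fun p => ?_⟩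
    rw [iteratedFDeriv_const_smul_apply (f1.of_le (by exact_mod_cast le_top)).contDiffAt, norm_smul]
    exact mul_le_mul_of_nonneg_left (hC p) (norm_nonneg _)

variable (F) in
/-- Smooth periodic functions with bounded derivatives, with the `C²` norm. -/
def Cb : Type := Cbs F

instance : AddCommGroup (Cb F) := inferInstanceAs (AddCommGroup (Cbs F))

instance : Module ℝ (Cb F) := inferInstanceAs (Module ℝ (Cbs F))

/-- The underlying function. -/
def Cb.fn : Cb F →ₗ[ℝ] Pl → F := (Cbs F).subtype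

theorem Cb.bdd (f : Cb F) : Bdd (Cb.fn f) := (show Cbs F from f).2.1

theorem Cb.per (f : Cb F) : Per (Cb.fn f) := (show Cbs F from f).2.2

theorem Cb.ext {f g : Cb F} (h : Cb.fn f = Cb.fn g) : f = g := Subtype.ext h

/-- The element given by a function. -/
def Cb.mk (f : Pl → F) (h : Bdd f) (h' : Per f) : Cb F := (⟨f, h, h'⟩ : Cbs F)

@[simp] theorem Cb.fn_mk (f : Pl → F) (h : Bdd f) (h' : Per f) : Cb.fn (Cb.mk f h h') = f := rfl

theorem Cb.jet_bound (f : Cb F) : ∃ C, ∀ p, ‖jet2 (Cb.fn f) p‖ ≤ C := by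
  obtain ⟨C, -, hC⟩ := f.bdd.cn 2
  exact ⟨C, cn_two_iff.1 hC⟩

/-- The two-jet as a bounded continuous function. -/
def Cb.jet : Cb F →ₗ[ℝ] (Pl →ᵇ (F × (F × F × F) × (F × F × F))) where
  toFun f := BoundedContinuousFunction.ofNormedAddCommGroup (jet2 (Cb.fn f))
    (f.bdd.1.continuous.prodMk ((f.bdd.ds.1.continuous.prodMk (f.bdd.ds.ds.1.continuous.prodMk
      f.bdd.ds.dt.1.continuous)).prodMk (f.bdd.dt.1.continuous.prodMk
        (f.bdd.dt.ds.1.continuous.prodMk f.bdd.dt.dt.1.continuous))))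
    _ f.jet_bound.choose_spec
  map_add' f g := by
    ext1 p
    change jet2 (Cb.fn (f + g)) p = jet2 (Cb.fn f) p + jet2 (Cb.fn g) p
    rw [map_add, jet2, ds_add f.bdd.1 g.bdd.1, dt_add f.bdd.1 g.bdd.1,
      ds_add f.bdd.ds.1 g.bdd.ds.1, dt_add f.bdd.ds.1 g.bdd.ds.1, ds_add f.bdd.dt.1 g.bdd.dt.1,
      dt_add f.bdd.dt.1 g.bdd.dt.1]
    rfl
  map_smul' c f := by
    ext1 p
    change jet2 (Cb.fn (c • f)) p = c • jet2 (Cb.fn f) p
    rw [map_smul, jet2, ds_smul c f.bdd.1, dt_smul c f.bdd.1, ds_smul c f.bdd.ds.1,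
      dt_smul c f.bdd.ds.1, ds_smul c f.bdd.dt.1, dt_smul c f.bdd.dt.1]
    rfl

theorem Cb.jet_inj : Function.Injective (Cb.jet : Cb F → _) := fun _ _ h =>
  Cb.ext (funext fun p => congrArg (fun u : Pl →ᵇ _ => (u p).1) h)

instance : NormedAddCommGroup (Cb F) := NormedAddCommGroup.induced _ _ Cb.jet Cb.jet_inj

instance : NormedSpace ℝ (Cb F) := NormedSpace.induced ℝ _ _ Cb.jet

theorem Cb.cn (f : Cb F) : Cn 2 (Cb.fn f) univ ‖f‖ :=
  cn_two_iff.2 fun p => (Cb.jet f).norm_coe_le_norm p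

theorem Cb.norm_le (f : Cb F) {C : ℝ} (hC : 0 ≤ C) (h : Cn 2 (Cb.fn f) univ C) : ‖f‖ ≤ C :=
  (BoundedContinuousFunction.norm_le hC).2 (cn_two_iff.1 h)

end normed

section inner

variable {U : Type} [NormedAddCommGroup U] [InnerProductSpace ℝ U]

/-- The Sobolev inner product of order `k`. -/
def ip : ℕ → (Pl → U) → (Pl → U) → ℝ
  | 0, f, g => ∫ p in St, ⟪f p, g p⟫
  | k + 1, f, g => (∫ p in St, ⟪f p, g p⟫) + ip k (ds f) (ds g) + ip k (dt f) (dt g)

theorem ip_zero (f g : Pl → U) : ip 0 f g = ∫ p in St, ⟪f p, g p⟫ := rfl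

theorem ip_succ (k : ℕ) (f g : Pl → U) :
    ip (k + 1) f g = ip 0 f g + ip k (ds f) (ds g) + ip k (dt f) (dt g) := rfl

theorem integrableOn_St {G : Type} [NormedAddCommGroup G] {f : Pl → G} (hf : Continuous f) {R : ℝ}
    (h : ∀ p : Pl, R ≤ |p.1| → f p = 0) : IntegrableOn f St := by
  have h1 : IntegrableOn f (Icc (-R) R ×ˢ Icc 0 1) :=
    hf.continuousOn.integrableOn_compact (isCompact_Icc.prod isCompact_Icc)
  refine h1.of_forall_sdiff_eq_zero (MeasurableSet.univ.prod measurableSet_Icc) fun p hp => ?_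
  refine h p (le_of_not_gt fun hlt => hp.2 ⟨?_, hp.1.2⟩)
  exact ⟨(abs_lt.1 hlt).1.le, (abs_lt.1 hlt).2.le⟩

theorem integrableOn_inner {f g : Pl → U} (hf : f ∈ Dsub U) (hg : Continuous g) :
    IntegrableOn (fun p => ⟪f p, g p⟫) St := by
  obtain ⟨h1, -, R, h3⟩ := hf
  exact integrableOn_St (h1.continuous.inner hg) fun p hp => by rw [h3 p hp, inner_zero_left]

theorem ip_comm (k : ℕ) (f g : Pl → U) : ip k f g = ip k g f := by
  induction k generalizing f g with
  | zero => simp only [ip, real_inner_comm]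
  | succ k ih => simp only [ip, real_inner_comm, ih (ds f), ih (dt f)]

theorem ip_nonneg (k : ℕ) (f : Pl → U) : 0 ≤ ip k f f := by
  have h0 : ∀ f : Pl → U, 0 ≤ ip 0 f f := fun f => integral_nonneg fun p => real_inner_self_nonneg
  induction k generalizing f with
  | zero => exact h0 f
  | succ k ih => exact add_nonneg (add_nonneg (h0 f) (ih _)) (ih _)

theorem ip_add (k : ℕ) {f g h : Pl → U} (hf : f ∈ Dsub U) (hg : g ∈ Dsub U) (hh : h ∈ Dsub U) :
    ip k (f + g) h = ip k f h + ip k g h := by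
  have h0 : ∀ {f g h : Pl → U}, f ∈ Dsub U → g ∈ Dsub U → h ∈ Dsub U →
      ip 0 (f + g) h = ip 0 f h + ip 0 g h := fun hf hg hh => by
    simp only [ip, Pi.add_apply, inner_add_left]
    exact integral_add (integrableOn_inner hf hh.1.continuous)
      (integrableOn_inner hg hh.1.continuous)
  induction k generalizing f g h with
  | zero => exact h0 hf hg hh
  | succ k ih =>
    rw [ip_succ, ip_succ, ip_succ, h0 hf hg hh, ds_add hf.1 hg.1, dt_add hf.1 hg.1,
      ih (ds_mem hf) (ds_mem hg) (ds_mem hh), ih (dt_mem hf) (dt_mem hg) (dt_mem hh)]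
    ring

theorem ip_smul (k : ℕ) (c : ℝ) {f : Pl → U} (hf : f ∈ Dsub U) (h : Pl → U) :
    ip k (c • f) h = c * ip k f h := by
  have h0 : ∀ f h : Pl → U, ip 0 (c • f) h = c * ip 0 f h := fun f h => by
    simp only [ip, Pi.smul_apply, real_inner_smul_left, integral_const_mul]
  induction k generalizing f h with
  | zero => exact h0 f h
  | succ k ih =>
    rw [ip_succ, ip_succ, h0, ds_smul c hf.1, dt_smul c hf.1, ih (ds_mem hf), ih (dt_mem hf)]
    ring

/-- Test functions with the Sobolev norm of order `k`. -/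
def DD (_ : ℕ) (U : Type) [NormedAddCommGroup U] [InnerProductSpace ℝ U] : Type := Dsub U

instance (k : ℕ) : AddCommGroup (DD k U) := inferInstanceAs (AddCommGroup (Dsub U))

instance (k : ℕ) : Module ℝ (DD k U) := inferInstanceAs (Module ℝ (Dsub U))

/-- The inner product on test functions. -/
@[reducible] def ddCore (k : ℕ) : PreInnerProductSpace.Core ℝ (DD k U) where
  inner f g := ip k (show Dsub U from f).1 (show Dsub U from g).1
  conj_inner_symm _ _ := ip_comm k _ _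
  re_inner_nonneg _ := ip_nonneg k _
  add_left f g h := ip_add k (show Dsub U from f).2 (show Dsub U from g).2 (show Dsub U from h).2
  smul_left f _ c := ip_smul k c (show Dsub U from f).2 _

instance (k : ℕ) : SeminormedAddCommGroup (DD k U) :=
  @InnerProductSpace.Core.toSeminormedAddCommGroup ℝ _ _ _ _ (ddCore k)

instance (k : ℕ) : InnerProductSpace ℝ (DD k U) := InnerProductSpace.ofCore (ddCore k)

/-- The Sobolev space of order `k` on the cylinder. -/
def W (k : ℕ) (U : Type) [NormedAddCommGroup U] [InnerProductSpace ℝ U] : Type :=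
  UniformSpace.Completion (DD k U)

instance (k : ℕ) : NormedAddCommGroup (W k U) :=
  inferInstanceAs (NormedAddCommGroup (UniformSpace.Completion (DD k U)))

instance (k : ℕ) : InnerProductSpace ℝ (W k U) :=
  inferInstanceAs (InnerProductSpace ℝ (UniformSpace.Completion (DD k U)))

instance (k : ℕ) : CompleteSpace (W k U) :=
  inferInstanceAs (CompleteSpace (UniformSpace.Completion (DD k U)))

/-- Test functions as elements of the Sobolev space. -/
def co (k : ℕ) : Dsub U →ₗ[ℝ] W k U :=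
  (UniformSpace.Completion.toComplₗᵢ (𝕜 := ℝ) (E := DD k U)).toLinearMap

theorem denseRange_co (k : ℕ) : DenseRange (co k : Dsub U → W k U) :=
  UniformSpace.Completion.denseRange_coe (α := DD k U)

theorem inner_co (k : ℕ) (φ ψ : Dsub U) : ⟪co k φ, co k ψ⟫ = ip k φ.1 ψ.1 :=
  UniformSpace.Completion.inner_coe (𝕜 := ℝ) (E := DD k U) φ ψ

theorem norm_co_sq (k : ℕ) (φ : Dsub U) : ‖co k φ‖ ^ 2 = ip k φ.1 φ.1 := by
  rw [← inner_co, real_inner_self_eq_norm_sq]

/-- Extension of bounded linear maps from test functions. -/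
theorem exists_ext {Y : Type} [NormedAddCommGroup Y] [NormedSpace ℝ Y] [CompleteSpace Y] (k : ℕ)
    (f : Dsub U →ₗ[ℝ] Y) {C : ℝ} (hC : 0 ≤ C) (h : ∀ φ, ‖f φ‖ ≤ C * ‖co k φ‖) :
    ∃ T : W k U →L[ℝ] Y, (∀ φ, T (co k φ) = f φ) ∧ ‖T‖ ≤ C := by
  have e : ∀ φ : DD k U, ‖co k φ‖ = ‖φ‖ := fun φ => UniformSpace.Completion.norm_coe φ
  let g : DD k U →L[ℝ] Y := LinearMap.mkContinuous (E := DD k U) f C fun φ => e φ ▸ h φ
  have hg : ∀ φ, (g.fromCompletion : W k U →L[ℝ] Y) (co k φ) = f φ := fun φ =>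
    g.fromCompletion_apply_coe φ
  refine ⟨g.fromCompletion, hg, ContinuousLinearMap.opNorm_le_bound _ hC fun ξ => ?_⟩
  refine (denseRange_co k).induction_on ξ (isClosed_le (by fun_prop) (by fun_prop)) fun φ => ?_
  rw [hg]
  exact h φ

end inner

end

end Pool.Agent.P.MP_de3acd_gt.FH
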