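import Pool.Agent.P.MP_de3acd_gt.FH.StY

/-! Perturbation of the continuation fields.
Sketch: step_C: in a chart apply tv_step with the constant family c.pX X, Z i r = c.pZ i.1, 𝒮 = {0} (tsl_zero); the Z i vanish on the ends; seqC_cont for the family a ↦ c.pX (X + ∑ a i • Z i) (Gau.fData, fam_pert), Dat.low, monotonicity of Lo,
Dat.eg1_iff and good1_const, Dat.bnd with Cls.add (κ = 1) and sz_small; kill_dep. stage_C: stage on P = Pl → E → E, cls = {p | SupX Γ R p ∧ ∃ η' < η, Sz J η' p}, good p = EG1 for X + p, ι = triples with gap in Icc (-b) b;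
Cls for X + p by Cls.add with κ large; Sz.add with κ small and sz_small for op. exists_cdat: stage_Y, stage_C twice (fld_xF, cls_xF with p = 0, mix_zero, mix_one, Dat.endA). -/

open Set Filter Topology MeasureTheory
open scoped ContDiff NNReal ENNReal RealInnerProductSpace

namespace Pool.Agent.P.MP_de3acd_gt.FH

noncomputable section

variable {Γ : Subgroup (Equiv.Perm E)} {B : ℝ → E →L[ℝ] E} {J : ℝ → E → E →L[ℝ] E}
  {H G K K' : ℝ → E → ℝ} {Y Y' Z : ℝ → E → E} {γ g : Equiv.Perm E} {x y w : ℝ → E} {u : Pl → E}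
variable {X p p₁ p₂ : Pl → E → E} {Y₀ Y₁ : ℝ → E → E} {d R β₀ β₁ v η L b : ℝ}
  {o : ∀ a b, Op E a b → ℤˣ}

theorem fld_StC (h : Fr Γ B) (hX : Fld X R) (inv : ∀ q, Ivf Γ (X q)) (hp : SupX Γ R p) :
    Fld (X + p) R ∧ (∀ q, Ivf Γ ((X + p) q)) ∧ frz (X + p) (-R) = frz X (-R) ∧
      frz (X + p) R = frz X R := by
  refine ⟨⟨hX.nonneg, hX.smooth.add hp.1.smooth, fun a s t => ?_, fun a s hs => ?_,
    fun a s hs => ?_⟩, fun q => ivf_add_ClsL h (inv q) (hp.2.1 q), funext fun t => ?_,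
    funext fun t => ?_⟩
  · simp only [Pi.add_apply, hp.1.per a s t, hX.per a s t]
  · exact congrArg₂ (· + ·) (hX.left a s hs) (hp.1.left a s hs)
  · exact congrArg₂ (· + ·) (hX.right a s hs) (hp.1.right a s hs)
  · exact add_eq_left.2 (hp.2.2 (-R, t) (neg_le_abs (-R) |>.trans' (neg_neg R).ge))
  · exact add_eq_left.2 (hp.2.2 (R, t) (le_abs_self R))

theorem fam_StC (h : Fr Γ B) (hX : Fld X R) (inv : ∀ q, Ivf Γ (X q)) {ι : Type} [Fintype ι]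
    {Z : ι → Pl → E → E} (hZ : ∀ i, SupX Γ R (Z i)) :
    Fam (fun a : ι → ℝ => X + ∑ i, a i • Z i) R := by
  have f := fun a => (fld_StC h hX inv (SupX.sum h hX.nonneg hZ a)).1
  refine ⟨hX.nonneg, ?_, fun a => (f a).per 0, fun a => (f a).left 0, fun a => (f a).right 0⟩
  simp only [Pi.add_apply, Finset.sum_apply, Pi.smul_apply]
  have k : ContDiff ℝ ∞ fun q : (ι → ℝ) × Pl × E => ((0 : ℝ), q.2) :=
    contDiff_const.prodMk contDiff_snd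
  exact (hX.smooth.comp k).add (ContDiff.sum fun i _ =>
    ((contDiff_apply ℝ ℝ i).comp contDiff_fst).smul ((hZ i).1.smooth.comp k))

theorem eg1_StC (D : Dat Γ B J H G d) (hY : ClY Γ J G Y) (hX : Fld X R) (inv : ∀ q, Ivf Γ (X q))
    (e₀ : frz X (-R) = Y₀) (e₁ : frz X R = Y₁) (hc : Cls J H G Y X β₀ β₁ v η L)
    (h₀ : EndF om Γ Y₀) (h₁ : EndF om Γ Y₁) (hγ : γ ∈ Γ) (c : Ch γ) {x y : ℝ → V6}
    (hx : Orb 1 (c.pY Y₀) x) (hy : Orb 1 (c.pY Y₁) y) :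
    EG1 om Γ γ J (fun _ => X) (c.up x) (c.up y) ↔ Good0 (c.pJ J) (c.pX X) x y :=
  (D.eg1_iff c hY hX (fun _ => inv) (fun _ => hc) hγ (fun _ => ⟨e₀, e₁⟩) h₀ h₁ hx hy).trans
    (good1_const _ _ _ _)

theorem small_StC {η' : ℝ} (h : η' < η) : ∃ κ > 0, (1 + κ) * η' < η := by
  have : ∀ᶠ κ in 𝓝 (0 : ℝ), (1 + κ) * η' < η :=
    ContinuousAt.eventually_lt (by fun_prop) continuousAt_const (by simpa using h)
  exact ((eventually_mem_nhdsWithin (a := (0 : ℝ)) (s := Ioi 0)).and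
    (this.filter_mono nhdsWithin_le_nhds)).exists

theorem op_StC (D : Dat Γ B J H G d) (hR : 0 ≤ R) (hp : SupX Γ R p ∧ ∃ η' < η, Sz J η' p)
    {ι : Type} [Fintype ι] {Z : ι → Pl → E → E} (hZ : ∀ i, SupX Γ R (Z i)) :
    ∀ᶠ a : ι → ℝ in 𝓝 0, SupX Γ R (p + ∑ i, a i • Z i) ∧
      ∃ η' < η, Sz J η' (p + ∑ i, a i • Z i) := by
  obtain ⟨hp, η', e, hs⟩ := hp
  obtain ⟨κ, hκ, e'⟩ := small_StC e
  have k : 0 < 1 + κ⁻¹ := by positivity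
  obtain ⟨δ, hδ, hz⟩ := sz_small D.fr D.ij hZ (div_pos (half_pos (sub_pos.2 e')) k)
  filter_upwards [Metric.closedBall_mem_nhds 0 hδ] with a ha
  refine ⟨hp.add D.fr (SupX.sum D.fr hR hZ a), _, ?_,
    hs.add D.ij.1 (hz a (mem_closedBall_zero_iff.1 ha)) hκ⟩
  rw [mul_div_cancel₀ _ k.ne']
  linarith

theorem cls_StC (D : Dat Γ B J H G d) (hR : 0 ≤ R) (hc : Cls J H G Y X β₀ β₁ v 0 L) (hL : 0 ≤ L)
    (hp : SupX Γ R p ∧ ∃ η' < η, Sz J η' p) : Cls J H G Y (X + p) β₀ β₁ v η (L + 2 * R) := by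
  obtain ⟨hp, η', e, hs⟩ := hp
  obtain ⟨κ, hκ, e'⟩ := small_StC e
  refine (hc.add D.ij.1 hL hR hp.2.2 hs (inv_pos.2 hκ)).mono ?_ le_rfl
  rw [inv_inv]
  linarith

open Classical in
theorem Dat.step_C (D : Dat Γ B J H G d) (hY : ClY Γ J G Y) (hX : Fld X R) (hR : 0 < R)
    (inv : ∀ q, Ivf Γ (X q)) (e₀ : frz X (-R) = Y₀) (e₁ : frz X R = Y₁)
    (hc : Cls J H G Y X β₀ β₁ v η L) (hL : 0 ≤ L) (h₀ : EndA Γ J Y₀ (mix H G β₀) (2 * b))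
    (h₁ : EndA Γ J Y₁ (mix H G β₁) (2 * b)) (hb : v * d + 8 * η ≤ b) (hγ : γ ∈ Γ) (hx : Orb γ Y₀ x)
    (hy : Orb γ Y₁ y) (hg : act γ (mix H G β₀) x - act γ (mix H G β₁) y ≤ b)
    (below : ∀ x' y', Orb γ Y₀ x' → Orb γ Y₁ y' → act γ (mix H G β₀) x' - act γ (mix H G β₁) y' <
      act γ (mix H G β₀) x - act γ (mix H G β₁) y → EG1 om Γ γ J (fun _ => X) x' y') :
    ∃ s : Finset {Z // SupX Γ R Z}, ((¬∃ u, Cyl om γ J X x y u) → s = ∅) ∧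
      ∀ s', s ⊆ s' → ∃ U ∈ 𝓝 (0 : s' → ℝ), ∀ᵐ a : s' → ℝ, a ∈ U →
        EG1 om Γ γ J (fun _ => X + ∑ i : s', a i • i.1.1) x y := by
  obtain ⟨c⟩ := D.fr.chart hγ
  obtain ⟨x, rfl⟩ := c.up_bijective.2 x
  obtain ⟨y, rfl⟩ := c.up_bijective.2 y
  have ox := c.orb_iff.1 hx
  have oy := c.orb_iff.1 hy
  have tx := Orb.tw h₀.1.1.1 hx
  have ty := Orb.tw h₁.1.1.1 hy
  have fl := fun (s : Finset {Z // SupX Γ R Z}) (a : s → ℝ) =>
    SupX.sum D.fr hR.le (fun i : s => i.1.2) a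
  have pe : ∀ (s : Finset {Z // SupX Γ R Z}) (q : ℝ × (s → ℝ)),
      pert (fun _ => c.pX X) (fun (i : s) _ => c.pZ i.1.1) q = c.pX (X + ∑ i : s, q.2 i • i.1.1) :=
    fun s q => (c.pX_pert (fun _ => X) (fun (i : s) _ => i.1.1) q).symm
  obtain ⟨s, hs, hs'⟩ := tv_step (Z := fun (i : {Z // SupX Γ R Z}) _ => c.pZ i.1) (𝒮 := {0})
    ((c.fData hγ D.ij hX (fun _ => inv) (fun _ => ⟨e₀, e₁⟩) h₀.1 h₁.1).pData ox oy)
    (fun i => ⟨c.famZ hγ i.2.1 fun _ => i.2.2.1, ⟨1, one_pos, fun _ t z _ => by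
      simp [frz, Gau.pZ, i.2.2.2 (-R, t) (by simp [le_abs_self])]⟩, ⟨1, one_pos, fun _ t z _ => by
      simp [frz, Gau.pZ, i.2.2.2 (R, t) (le_abs_self R)]⟩⟩)
    (fun _ => ⟨fun _ => ⟨rfl, fun _ => rfl⟩, fun _ => ⟨rfl, fun _ => rfl⟩⟩)
    (by
      rintro _ rfl r
      exact ⟨tsl_zero _, fun _ => tsl_zero _⟩)
    (fun s => by
      have hW := fam_StC D.fr hX inv fun i : s => i.1.2
      have f := fun a => fld_StC D.fr hX inv (fl s a)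
      have z : X + ∑ i : s, (0 : s → ℝ) i • i.1.1 = X := by simp
      obtain ⟨A', hA⟩ := D.bnd c hW (fun a => (f a).2.1) hγ tx β₀ β₁ v
        ((1 + 1) * η + (1 + 1⁻¹) * 1) (L + 2 * R) 1 b
      obtain ⟨δ, hδ, hz⟩ := sz_small D.fr D.ij (fun i : s => i.1.2) one_pos
      rw [funext (pe s)]
      refine seqC_cont (X := fun a : s → ℝ => c.pX (X + ∑ i : s, a i • i.1.1)) (B := A') (c := b)
        (c.fData hγ D.ij hW (fun a => (f a).2.1)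
          (fun a => ⟨(f a).2.2.1.trans e₀, (f a).2.2.2.trans e₁⟩) h₀.1 h₁.1)
        (by rw [z, c.frz_pX, e₀]) (by rw [z, c.frz_pX, e₁]) ox oy (h₀.2 γ hγ c).1 (h₁.2 γ hγ c).1
        (by rw [z]; exact D.low c hY hc hX hγ h₀.1.1 h₁.1.1 hb)
        (fun x' y' u n a1 a2 a3 a4 a5 => (h₀.2 γ hγ c).2 x' y' u n a1 a2 a3 a4
          (a5.trans (by unfold Gau.pA; linarith)))
        (fun x' y' u n a1 a2 a3 a4 a5 => (h₁.2 γ hγ c).2 x' y' u n a1 a2 a3 a4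
          (a5.trans (by unfold Gau.pA; linarith)))
        (fun x' y' a1 a2 a3 => ?_) ?_
      · rw [z]
        exact (eg1_StC D hY hX inv e₀ e₁ hc h₀.1 h₁.1 hγ c a1 a2).1
          (below _ _ (c.orb_iff.2 a1) (c.orb_iff.2 a2) a3)
      · filter_upwards [Metric.closedBall_mem_nhds 0 hδ, Metric.closedBall_mem_nhds 0 one_pos]
          with a ha ha' u hu
        exact hA a Y y u (mem_closedBall_zero_iff.1 ha') hY (hc.add D.ij.1 hL hR.le (fl s a).2.2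
          (hz a (mem_closedBall_zero_iff.1 ha)) one_pos) ty hu hg)
    (fun r _ u n hu _ _ _ ζ hζ _ hd => by
      obtain ⟨Z, hZ, e⟩ := D.fr.kill_dep D.ij hγ c hR hu.bdd.1.continuous hζ.continuous hd
      exact ⟨⟨Z, hZ⟩, e⟩)
  refine ⟨s, fun h => hs fun ⟨_, u, hu⟩ => h ⟨_, c.cyl_of_nice hγ D.ij tx ty hu⟩, fun s' e => ?_⟩
  obtain ⟨U, hU, h⟩ := hs' s' e
  refine ⟨U, hU, h.mono fun a ha h' => ?_⟩
  have f := fld_StC D.fr hX inv (fl s' a)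
  obtain ⟨η', hz⟩ := (fl s' a).sz D.fr D.ij
  have k := ha h'
  simp only [pe] at k
  exact (eg1_StC D hY f.1 f.2.1 (f.2.2.1.trans e₀) (f.2.2.2.trans e₁)
    (hc.add D.ij.1 hL hR.le (fl s' a).2.2 hz one_pos) h₀.1 h₁.1 hγ c ox oy).2
      ((good1_const _ _ _ _).1 k)

theorem Dat.stage_C (D : Dat Γ B J H G d) (hY : ClY Γ J G Y) (hX : Fld X R) (hR : 0 < R)
    (inv : ∀ q, Ivf Γ (X q)) (e₀ : frz X (-R) = Y₀) (e₁ : frz X R = Y₁)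
    (hc : Cls J H G Y X β₀ β₁ v 0 L) (hL : 0 ≤ L) (h₀ : EndA Γ J Y₀ (mix H G β₀) (2 * b))
    (h₁ : EndA Γ J Y₁ (mix H G β₁) (2 * b)) (hη : 0 < η) (hb : v * d + 8 * η ≤ b) :
    ∃ p, (SupX Γ R p ∧ Sz J η p) ∧ GoodA Γ J (X + p) Y₀ Y₁ (mix H G β₀) (mix H G β₁) b := by
  classical
  have K₀ := (Reg.ih D.reg).mix D.ih β₀
  have K₁ := (Reg.ih D.reg).mix D.ih β₁
  have fl := fun (p : Pl → E → E) (hp : SupX Γ R p) => fld_StC D.fr hX inv hp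
  let gp : Equiv.Perm E × (ℝ → E) × (ℝ → E) → ℝ := fun τ =>
    act τ.1 (mix H G β₀) τ.2.1 - act τ.1 (mix H G β₁) τ.2.2
  let ι : Type := {τ : Equiv.Perm E × (ℝ → E) × (ℝ → E) //
    τ.1 ∈ Γ ∧ Orb τ.1 Y₀ τ.2.1 ∧ Orb τ.1 Y₁ τ.2.2 ∧ gp τ ∈ Icc (-b) b}
  have low : ∀ p, (SupX Γ R p ∧ ∃ η' < η, Sz J η' p) → ∀ γ ∈ Γ, ∀ x y, Orb γ Y₀ x → Orb γ Y₁ y →
      (-b ≤ gp (γ, x, y) → EG1 om Γ γ J (fun _ => X + p) x y) →
        EG1 om Γ γ J (fun _ => X + p) x y := fun p hp γ hγ x y hx hy h r u n hu =>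
    h (by
      have := D.low_E hY (cls_StC D hR.le hc hL hp) (fl p hp.1).1 hγ (Orb.tw h₀.1.1.1 hx)
        (Orb.tw h₁.1.1.1 hy) hu
      simp only [gp]
      linarith) r u n hu
  obtain ⟨p, hp, h⟩ := stage (ι := ι) (fun Z : {Z // SupX Γ R Z} => Z.1)
    {p | SupX Γ R p ∧ ∃ η' < η, Sz J η' p} (fun i => gp i.1)
    (fun p i => EG1 om Γ i.1.1 J (fun _ => X + p) i.1.2.1 i.1.2.2)
    (fun p i => ∃ u, Cyl om i.1.1 J (X + p) i.1.2.1 i.1.2.2 u)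
    (fun j i => ∃ g ∈ Γ, i.1.1 = g * j.1.1 * g⁻¹ ∧ i.1.2.1 = g ∘ j.1.2.1 ∧ i.1.2.2 = g ∘ j.1.2.2)
    ((D.fr.gap_fin h₀.1 h₁.1 K₀ K₁ (-b) b).subset (by
      rintro _ ⟨i, rfl⟩
      exact ⟨i.2.2.2.2, _, i.2.1, _, _, i.2.2.1, i.2.2.2.1, rfl⟩))
    ⟨supX_zero D.fr hR.le, 0, hη, sz_zero J⟩ (fun p hp s => op_StC D hR.le hp fun i : s => i.1.2)
    (fun p _ i h r u n hu => absurd ⟨u, hu⟩ h)
    (fun p hp i j ⟨g, hg, a1, a2, a3⟩ h => by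
      beta_reduce
      rw [a1, a2, a3]
      exact (D.fr.eg1_iff hg j.2.1 D.ij (fl p hp.1).1.smX fun _ => (fl p hp.1).2.1).2 h)
    (fun p hp s => by
      have f := fl p hp.1
      obtain ⟨T, hT, h1, h2⟩ := D.rel_fin (fam_StC D.fr f.1 f.2.1 fun i : s => i.1.2)
        (fun a => (fld_StC D.fr f.1 f.2.1 (SupX.sum D.fr hR.le (fun i : s => i.1.2) a)).2.1)
        h₀.1 h₁.1 (max 1 (8 * b)) (L + 2 * R)
      refine ⟨Subtype.val ⁻¹' T, hT.preimage Subtype.val_injective.injOn, ?_⟩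
      filter_upwards [op_StC D hR.le hp fun i : s => i.1.2, Metric.closedBall_mem_nhds 0 one_pos]
        with a ha ha' i ⟨u, hu⟩
      have k := cls_StC D hR.le hc hL ha
      have en := D.energy_le hY k (fl _ ha.1).1 i.2.1 (Orb.tw h₀.1.1.1 i.2.2.1)
        (Orb.tw h₁.1.1.1 i.2.2.2.1) hu
      have hi := i.2.2.2.2
      rw [← add_assoc] at k hu
      obtain ⟨τ, hτ, g, hg, a1, a2, a3⟩ := h2 a Y β₀ β₁ v η
        ((mem_closedBall_zero_iff.1 ha').trans (le_max_left _ _)) hY k _ i.2.1 _ _ u i.2.2.1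
        i.2.2.2.1 hu (le_max_of_le_right (by
          have := hi.2
          simp only [gp] at this
          linarith))
      obtain ⟨b1, b2, b3⟩ := h1 τ hτ
      have e : gp τ = gp i.1 := by
        simp only [gp]
        rw [a1, a2, a3]
        exact (D.fr.gap_smul hg b1 K₀ K₁ (Orb.tw h₀.1.1.1 b2) (Orb.tw h₁.1.1.1 b3)).symm
      exact ⟨⟨τ, b1, b2, b3, e ▸ hi⟩, hτ, ⟨g, hg, a1, a2, a3⟩, e⟩)
    (fun p hp i h => by
      have f := fl p hp.1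
      simpa only [add_assoc] using D.step_C hY f.1 hR f.2.1 (f.2.2.1.trans e₀) (f.2.2.2.trans e₁)
        (cls_StC D hR.le hc hL hp) (by positivity) h₀ h₁ hb i.2.1 i.2.2.1 i.2.2.2.1 i.2.2.2.2.2
        fun x' y' a1 a2 a3 => low p hp _ i.2.1 x' y' a1 a2 fun a4 =>
          h ⟨(_, x', y'), i.2.1, a1, a2, a4, a3.le.trans i.2.2.2.2.2⟩ a3)
  have f := fl p hp.1
  obtain ⟨η', e, hs⟩ := hp.2
  refine ⟨p, ⟨hp.1, hs.mono e.le⟩, fun γ hγ c x y hx hy hg => ?_⟩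
  have a1 := c.orb_iff.2 hx
  have a2 := c.orb_iff.2 hy
  exact (eg1_StC D hY f.1 f.2.1 (f.2.2.1.trans e₀) (f.2.2.2.trans e₁) (cls_StC D hR.le hc hL hp)
    h₀.1 h₁.1 hγ c hx hy).1 (low p hp γ hγ _ _ a1 a2 fun a4 => h ⟨(γ, _, _), hγ, a1, a2, a4, hg⟩)

theorem Dat.exists_cdat (D : Dat Γ B J H G d) (hη : 0 < η) (hb : 2 * d + 40 * η ≤ b) :
    ∃ Y p₁ p₂, CDat Γ J H G B d Y p₁ p₂ η b := by
  obtain ⟨Y, hY, hE⟩ := D.stage_Y (2 * b)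
  have z := supX_zero D.fr (R := 2) zero_le_two
  have f₁ := fld_xF D.fr D.endH.1 D.endG.1 hY.1.1 z
  have f₂ := fld_xB D.fr D.endH.1 D.endG.1 hY.1.1 z
  have c₁ := cls_xF (H := H) (G := G) (Y := Y) z.2.2 (sz_zero J)
  have c₂ := cls_xB (H := H) (G := G) (Y := Y) z.2.2 (sz_zero J)
  have k : 1 * d + 8 * η ≤ b := by linarith [D.nonneg]
  have a₀ : EndA Γ J (ham H) (mix H G 0) (2 * b) := (mix_zero H G).symm ▸ D.endA _
  have a₁ : EndA Γ J (ham G + Y) (mix H G 1) (2 * b) := (mix_one H G).symm ▸ hE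
  rw [add_zero] at f₁ f₂ c₁ c₂
  obtain ⟨p₁, s₁, g₁⟩ := D.stage_C hY f₁.1 two_pos f₁.2.1 f₁.2.2.1 f₁.2.2.2 c₁ (by norm_num) a₀ a₁
    hη k
  obtain ⟨p₂, s₂, g₂⟩ := D.stage_C hY f₂.1 two_pos f₂.2.1 f₂.2.2.1 f₂.2.2.2 c₂ (by norm_num) a₁ a₀
    hη k
  rw [mix_zero, mix_one] at g₁ g₂
  exact ⟨Y, p₁, p₂, D, hY, hE, s₁, s₂, hη, hb, g₁, g₂⟩

end

end Pool.Agent.P.MP_de3acd_gt.FH
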