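import Pool.Agent.P.MP_de3acd_gt.FH.VL
import Pool.Agent.P.MP_de3acd_gt.FH.Kill
import Pool.Agent.P.MP_de3acd_gt.FH.Stage

/-! Perturbation of the field of `G`.
Sketch: lo_of_eg1: Dat.decG gives x ≠ y; Dat.eg1_iff for the constant family sta (ham G + Y) (fld_sta, cls_G, ClY.endF, R = 0), good1_const, one_le_idx. step_Y: in a chart c apply tv_step with
X r = c.pX (sta (ham G + Y)), Z i r = c.pZ (sta i.1), R = 0, 𝒮 = univ (Gau.famZ, SupY.agr, tsl_sta); pert X Z (r, a) = sta (c.pY (ham G + (Y + ∑ a i • Z i))) (pX_pert); seqC_sta with FData.pert, lo_of_eg1,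
Dat.bnd for the family a ↦ sta (ham G + (Y + ∑ ..)) (fam_pert and composition with a ↦ (0, a)), ClY.isOpen; kill_sta; back with Dat.eg1_iff (shrink U so that ClY holds).
stage_Y: stage with ι = the triples (γ, x, y) of orbits of ham G with x ≠ y and gap in Icc 0 b (gap_fin), rel = existence of a cylinder, sim = related by g ∈ Γ (Fr.eg1_iff, gap_smul); fin from rel_fin with
energy_le (members of T that are not in ι are irrelevant: take the preimage under Subtype.val); triples with negative gap carry no cylinder (low_E). -/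

open Set Filter Topology MeasureTheory
open scoped ContDiff NNReal ENNReal RealInnerProductSpace

namespace Pool.Agent.P.MP_de3acd_gt.FH

noncomputable section

variable {Γ : Subgroup (Equiv.Perm E)} {B : ℝ → E →L[ℝ] E} {J : ℝ → E → E →L[ℝ] E}
  {H G K K' : ℝ → E → ℝ} {Y Y' Z : ℝ → E → E} {γ g : Equiv.Perm E} {x y w : ℝ → E} {u : Pl → E}
variable {X p p₁ p₂ : Pl → E → E} {Y₀ Y₁ : ℝ → E → E} {d R β₀ β₁ v η L b : ℝ}
  {o : ∀ a b, Op E a b → ℤˣ}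

theorem tw_StY (hY : IY Γ Y) (hx : Orb γ Y x) : Tw γ x := ⟨Orb.contDiff hY.1.1 hx, hx.2⟩

theorem Dat.iff_StY (D : Dat Γ B J H G d) (hY : ClY Γ J G Y) (hγ : γ ∈ Γ) (c : Ch γ)
    {x y : ℝ → V6} (hx : Orb γ (ham G) (c.up x)) (hy : Orb γ (ham G) (c.up y)) :
    EG1 om Γ γ J (fun _ => sta (ham G + Y)) (c.up x) (c.up y) ↔
      Good1 (c.pJ J) (fun _ => sta (c.pY (ham G + Y))) x y :=
  have hE := hY.endF D.fr D.ij D.endG
  D.eg1_iff c hY (R := 0) (fld_sta hE.1.1 le_rfl) (fun _ q => hE.1.2 q.2) (fun _ => cls_G J H G Y)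
    hγ (fun _ => ⟨rfl, rfl⟩) hE hE (c.orb_iff.1 ((hY.orb_iff D.fr D.ij D.endG.1 hγ).2 hx))
    (c.orb_iff.1 ((hY.orb_iff D.fr D.ij D.endG.1 hγ).2 hy))

theorem Dat.neg_StY (D : Dat Γ B J H G d) (hY : ClY Γ J G Y) (hγ : γ ∈ Γ) (hx : Orb γ (ham G) x)
    (hy : Orb γ (ham G) y) (h : ¬0 ≤ act γ G x - act γ G y) :
    EG1 om Γ γ J (fun _ => sta (ham G + Y)) x y := fun _ u _ hu => by
  have := D.low_E hY (cls_G J H G Y) (fld_sta (hY.endF D.fr D.ij D.endG).1.1 le_rfl) hγ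
    (tw_StY D.endG.1 hx) (tw_StY D.endG.1 hy) hu
  rw [mix_one] at this
  exact (h (by linarith)).elim

theorem Fr.fam_StY (h : Fr Γ B) (h₀ : IY Γ Y₀) (hY : IY Γ Y) {ι : Type} [Fintype ι]
    {Z : ι → ℝ → E → E} (hZ : ∀ i, IY Γ (Z i)) :
    Fam (fun a : ι → ℝ => sta (Y₀ + (Y + ∑ i, a i • Z i))) 0 ∧
      ∀ (a : ι → ℝ) q, Ivf Γ (sta (Y₀ + (Y + ∑ i, a i • Z i)) q) := by
  have h1 : ∀ a : ι → ℝ, IY Γ (Y₀ + (Y + ∑ i, a i • Z i)) := fun a =>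
    h₀.add h (hY.add h (Finset.sum_induction _ (IY Γ) (fun _ _ => IY.add h) (iy_zero h)
      fun i _ => (hZ i).smul h _))
  refine ⟨⟨le_rfl, ?_, fun a s t => (h1 a).1.2 t, fun _ _ _ => rfl, fun _ _ _ => rfl⟩,
    fun a q => (h1 a).2 q.2⟩
  simp only [sta, Pi.add_apply, Finset.sum_apply, Pi.smul_apply]
  have c : ContDiff ℝ ∞ fun q : (ι → ℝ) × Pl × E => (q.2.1.2, q.2.2) := by fun_prop
  exact (h₀.1.1.comp c).add ((hY.1.1.comp c).add (ContDiff.sum fun i _ =>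
    (by fun_prop : ContDiff ℝ ∞ fun q : (ι → ℝ) × Pl × E => q.1 i).smul ((hZ i).1.1.comp c)))

theorem FData.comp_StY {Λ Λ' : Type} [NormedAddCommGroup Λ] [NormedSpace ℝ Λ]
    [NormedAddCommGroup Λ'] [NormedSpace ℝ Λ'] {J : ℝ → V6 → V6 →L[ℝ] V6} {X : Λ → Pl → V6 → V6}
    {Y Y' : ℝ → V6 → V6} (h : FData J X R Y Y') {f : Λ' → Λ} (hf : ContDiff ℝ ∞ f) :
    FData J (fun a => X (f a)) R Y Y' :=
  ⟨h.acs, ⟨h.fam.nonneg, h.fam.smooth.comp ((hf.comp contDiff_fst).prodMk contDiff_snd),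
    fun _ => h.fam.per _, fun _ => h.fam.left _, fun _ => h.fam.right _⟩, h.spl, h.spr, h.ndl,
    h.ndr, fun x hx => (h.agl x hx).imp fun _ hδ => ⟨hδ.1, fun a => hδ.2 (f a)⟩,
    fun x hx => (h.agr x hx).imp fun _ hδ => ⟨hδ.1, fun a => hδ.2 (f a)⟩⟩

theorem pert_StY (c : Ch γ) {ι : Type} [Fintype ι] (Z : ι → ℝ → E → E) (q : ℝ × (ι → ℝ)) :
    pert (fun _ => c.pX (sta (Y₀ + Y))) (fun i _ => c.pZ (sta (Z i))) q =
      sta (c.pY (Y₀ + (Y + ∑ i, q.2 i • Z i))) := by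
  rw [← c.pX_pert (fun _ => sta (Y₀ + Y)) (fun i _ => sta (Z i)) q, ← c.pX_sta]
  congr 1
  funext p z
  simp only [pert, sta, Pi.add_apply, Finset.sum_apply, Pi.smul_apply, add_assoc]

theorem Dat.lo_of_eg1 (D : Dat Γ B J H G d) (hY : ClY Γ J G Y) (hγ : γ ∈ Γ) (c : Ch γ)
    (h : ∀ x y, Orb γ (ham G) x → Orb γ (ham G) y → x ≠ y → act γ G x - act γ G y ≤ b →
      EG1 om Γ γ J (fun _ => sta (ham G + Y)) x y) :
    Lo (c.pJ J) (c.pY (ham G + Y)) (c.pA G) b := by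
  intro x y u n hx hy hu h0 hb hn
  have hE := hY.endF D.fr D.ij D.endG
  have h1 := D.decG c hY hγ x y u hx hy hu h0
  have ox := (hY.orb_iff D.fr D.ij D.endG.1 hγ).1 (c.orb_iff.2 hx)
  have oy := (hY.orb_iff D.fr D.ij D.endG.1 hγ).1 (c.orb_iff.2 hy)
  have h2 := (good1_const _ _ _ _).1 ((D.iff_StY hY hγ c ox oy).1
    (h _ _ ox oy (fun e => h1.ne (congrArg (act γ G) e.symm)) hb))
  by_contra h3
  exact h3 (one_le_idx (Gau.acs hγ D.ij) (Gau.sp hγ hE.1) hx hy hu h0 (h2 u n hu hn (by omega)) hn)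

open Classical in
theorem Dat.step_Y (D : Dat Γ B J H G d) (hY : ClY Γ J G Y) (hγ : γ ∈ Γ) (hx : Orb γ (ham G) x)
    (hy : Orb γ (ham G) y) (hxy : x ≠ y) (below : ∀ x' y', Orb γ (ham G) x' → Orb γ (ham G) y' →
      x' ≠ y' → act γ G x' - act γ G y' < act γ G x - act γ G y →
        EG1 om Γ γ J (fun _ => sta (ham G + Y)) x' y') :
    ∃ s : Finset {Z // SupY Γ G Z}, ((¬∃ u, Cyl om γ J (sta (ham G + Y)) x y u) → s = ∅) ∧
      ∀ s', s ⊆ s' → ∃ U ∈ 𝓝 (0 : s' → ℝ), ∀ᵐ a : s' → ℝ, a ∈ U →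
        EG1 om Γ γ J (fun _ => sta (ham G + (Y + ∑ i : s', a i • i.1.1))) x y := by
  obtain ⟨c⟩ := D.fr.chart hγ
  obtain ⟨x, rfl⟩ := c.up_bijective.2 x
  obtain ⟨y, rfl⟩ := c.up_bijective.2 y
  have hE := hY.endF D.fr D.ij D.endG
  have oi : ∀ x, Orb 1 (c.pY (ham G + Y)) x ↔ Orb γ (ham G) (c.up x) := fun x =>
    c.orb_iff.symm.trans (hY.orb_iff D.fr D.ij D.endG.1 hγ)
  have ox := (oi x).2 hx
  have oy := (oi y).2 hy
  have ne : x ≠ y := fun e => hxy (congrArg c.up e)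
  have tx := tw_StY D.endG.1 hx
  have ty := tw_StY D.endG.1 hy
  have F0 : FData (c.pJ J) (fun _ : ℝ => c.pX (sta (ham G + Y))) 0 (c.pY (ham G + Y))
      (c.pY (ham G + Y)) :=
    c.fData hγ D.ij (fld_sta hE.1.1 le_rfl) (fun _ q => hE.1.2 q.2) (fun _ => ⟨rfl, rfl⟩) hE hE
  have f1 : ∀ i : {Z // SupY Γ G Z}, Fam (fun _ : ℝ => c.pZ (sta i.1)) 0 := fun i =>
    Gau.famZ hγ (fld_sta i.2.1.1 le_rfl) fun _ q => i.2.1.2 q.2
  have f2 : ∀ (i : {Z // SupY Γ G Z}) (s : ℝ) x, Orb 1 (c.pY (ham G + Y)) x →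
      Agr (fun _ : ℝ => frz (c.pZ (sta i.1)) s) 0 x := fun i s x hx =>
    (i.2.agr hγ c ((oi x).1 hx)).imp fun _ hδ => ⟨hδ.1, fun _ t z hz => hδ.2 (s, t) z hz⟩
  have op : ∀ s : Finset {Z // SupY Γ G Z}, ∀ᶠ a : s → ℝ in 𝓝 0,
      ClY Γ J G (Y + ∑ i, a i • i.1.1) := fun s => hY.isOpen D.fr D.ij D.endG fun i => i.1.2
  obtain ⟨s, h1, h2⟩ := tv_step (Z := fun (i : {Z // SupY Γ G Z}) (_ : ℝ) => c.pZ (sta i.1))
    (𝒮 := univ) (F0.pData ox oy) (fun i => ⟨f1 i, f2 i _ x ox, f2 i _ y oy⟩)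
    (fun _ => ⟨fun _ => ⟨rfl, fun _ => rfl⟩, fun _ => ⟨rfl, fun _ => rfl⟩⟩)
    (fun s _ _ => ⟨tsl_sta (c.pY (ham G + Y)) s,
      fun i => tsl_sta (fun t => c.pZ (sta i.1) (0, t)) s⟩) (fun s => by
      obtain ⟨g1, g2⟩ := D.fr.fam_StY D.endG.1 hY.1.1 fun i : s => i.1.2.1
      obtain ⟨A, hA⟩ := D.bnd c g1 g2 hγ tx 1 1 0 0 0 1 (c.pA G x - c.pA G y)
      have e0 : Y + ∑ i : s, (0 : s → ℝ) i • i.1.1 = Y := by simp
      have F1 := (F0.pert (Z := fun (i : s) (_ : ℝ) => c.pZ (sta i.1.1))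
        fun i => ⟨f1 i, f2 i _, f2 i _⟩).comp_StY
        (f := fun a : s → ℝ => ((0 : ℝ), a)) (by fun_prop)
      simp only [pert_StY] at F1
      rw [funext (pert_StY c fun i : s => i.1.1)]
      refine seqC_sta (Z := fun a : s → ℝ => c.pY (ham G + (Y + ∑ i, a i • i.1.1))) (A := c.pA G)
        (B := A) ?_ ?_ ?_ ne ?_ ?_ ?_
      · rwa [e0]
      · rwa [e0]
      · rwa [e0]
      · rw [e0]
        exact D.decG c hY hγ
      · rw [e0]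
        exact fun b hb => D.lo_of_eg1 hY hγ c fun x' y' hx' hy' h3 h4 =>
          below x' y' hx' hy' h3 (h4.trans_lt hb)
      · filter_upwards [op s, Metric.closedBall_mem_nhds 0 one_pos] with a h3 h4 u hu
        exact hA a _ y u (mem_closedBall_zero_iff.1 h4) h3 (cls_G J H G _) ty hu
          (by rw [mix_one]))
    fun _ _ u _ hu _ _ _ ζ hζ _ hd =>
      (D.fr.kill_sta D.ij D.endG hY hγ c ox oy ne hu hζ.continuous hd).elim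
        fun Z hZ => ⟨⟨Z, hZ.1⟩, hZ.2⟩
  refine ⟨s, fun hn => h1 fun ⟨_, u, hu⟩ => hn ⟨_, c.cyl_of_nice hγ D.ij tx ty hu⟩,
    fun s' hs' => ?_⟩
  obtain ⟨U, hU, ha⟩ := h2 s' hs'
  refine ⟨_, inter_mem hU (op s'), ha.mono fun a h3 h4 => (D.iff_StY h4.2 hγ c hx hy).2 ?_⟩
  simpa only [pert_StY] using h3 h4.1

theorem Dat.stage_Y (D : Dat Γ B J H G d) (b : ℝ) : ∃ Y, ClY Γ J G Y ∧ EndA Γ J (ham G + Y) G b := by
  classical
  have tw : ∀ {γ x}, Orb γ (ham G) x → Tw γ x := tw_StY D.endG.1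
  have op : ∀ p, ClY Γ J G p → ∀ s : Finset {Z // SupY Γ G Z}, ∀ᶠ a : s → ℝ in 𝓝 0,
      ClY Γ J G (p + ∑ i, a i • i.1.1) := fun p hp s => hp.isOpen D.fr D.ij D.endG fun i => i.1.2
  obtain ⟨Y, hY, h⟩ := stage (ι := {τ : Equiv.Perm E × (ℝ → E) × (ℝ → E) // τ.1 ∈ Γ ∧
      Orb τ.1 (ham G) τ.2.1 ∧ Orb τ.1 (ham G) τ.2.2 ∧ τ.2.1 ≠ τ.2.2 ∧
        act τ.1 G τ.2.1 - act τ.1 G τ.2.2 ∈ Icc 0 b})
    (fun i : {Z // SupY Γ G Z} => i.1) {p | ClY Γ J G p}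
    (fun τ => act τ.1.1 G τ.1.2.1 - act τ.1.1 G τ.1.2.2)
    (fun p τ => EG1 om Γ τ.1.1 J (fun _ => sta (ham G + p)) τ.1.2.1 τ.1.2.2)
    (fun p τ => ∃ u, Cyl om τ.1.1 J (sta (ham G + p)) τ.1.2.1 τ.1.2.2 u)
    (fun j i => ∃ g ∈ Γ, i.1.1 = g * j.1.1 * g⁻¹ ∧ i.1.2.1 = g ∘ j.1.2.1 ∧ i.1.2.2 = g ∘ j.1.2.2)
    ((D.fr.gap_fin D.endG D.endG D.ih D.ih 0 b).subset (by
      rintro _ ⟨τ, rfl⟩
      exact ⟨τ.2.2.2.2.2, _, τ.2.1, _, _, τ.2.2.1, τ.2.2.2.1, rfl⟩))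
    (clY_zero D.fr) op (fun p _ i hn _ u _ hu => (hn ⟨u, hu⟩).elim)
    (by
      rintro p hp i j ⟨g, hg, e1, e2, e3⟩ h
      have hE := ClY.endF D.fr D.ij D.endG hp
      rw [e1, e2, e3]
      exact (D.fr.eg1_iff hg j.2.1 D.ij (Fam.smX (fld_sta hE.1.1 le_rfl))
        fun _ q => hE.1.2 q.2).2 h)
    (fun p hp s => by
      obtain ⟨g1, g2⟩ := D.fr.fam_StY D.endG.1 hp.1.1 fun i : s => i.1.2.1
      obtain ⟨T, hT, t1, t2⟩ := D.rel_fin g1 g2 D.endG D.endG (max 1 (4 * b)) 0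
      refine ⟨_, hT.preimage Subtype.val_injective.injOn, ?_⟩
      filter_upwards [op p hp s, Metric.closedBall_mem_nhds 0 one_pos] with a h3 h4
      rintro ⟨⟨γ, x, y⟩, hγ, hx, hy, ne, hb⟩ ⟨u, hu⟩
      have h5 := D.energy_le h3 (cls_G J H G _) (g1.fld a) hγ (tw hx) (tw hy) hu
      rw [mix_one] at h5
      obtain ⟨τ, hτ, g, hg, rfl, rfl, rfl⟩ := t2 a _ 1 1 0 0
        ((mem_closedBall_zero_iff.1 h4).trans (le_max_left _ _)) h3 (cls_G J H G _) γ hγ x y u hx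
        hy hu (le_max_of_le_right (by linarith [hb.2]))
      obtain ⟨k1, k2, k3⟩ := t1 τ hτ
      have e := D.fr.gap_smul hg k1 D.ih D.ih (tw k2) (tw k3)
      exact ⟨⟨τ, k1, k2, k3, fun e' => ne (congrArg (g ∘ ·) e'), e ▸ hb⟩, hτ,
        ⟨g, hg, rfl, rfl, rfl⟩, e.symm⟩)
    fun p hp i hi => D.step_Y hp i.2.1 i.2.2.1 i.2.2.2.1 i.2.2.2.2.1 fun x y hx hy ne lt => by
      by_cases h0 : 0 ≤ act i.1.1 G x - act i.1.1 G y
      · exact hi ⟨(i.1.1, x, y), i.2.1, hx, hy, ne, h0, lt.le.trans i.2.2.2.2.2.2⟩ lt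
      · exact D.neg_StY hp i.2.1 hx hy h0
  refine ⟨Y, hY, ClY.endF D.fr D.ij D.endG hY, fun γ hγ c => ⟨D.decG c hY hγ,
    D.lo_of_eg1 hY hγ c fun x y hx hy ne le => ?_⟩⟩
  by_cases h0 : 0 ≤ act γ G x - act γ G y
  · exact h ⟨(γ, x, y), hγ, hx, hy, ne, h0, le⟩
  · exact D.neg_StY hY hγ hx hy h0

end

end Pool.Agent.P.MP_de3acd_gt.FH
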