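import Pool.Agent.P.MP_de3acd_gt.FH.TVseq
import Pool.Agent.P.MP_de3acd_gt.FH.SardS

/-! Openness and density of regularity.
Sketch: tv_open: by contradiction a n → 0 (exists_seq_forall_of_frequently) with bad (r n, u n, d n); replace r n by its projection to [0, 1] (Clamp; the variations at
r ≤ 0 agree with those at r = 0: dX X (r, a) (1, 0) = 0 as in kr_eq_zero, dX X (r, a) (0, v) is the derivative of a ↦ X (r, a) p z); not surjective with kr alone (kr_eq);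
SeqC; the translates are solutions (cr_tsl, Pth.tsl); the limit has an index (PData.ell, Ell.exists_hasIdx), equal to d n for large n (tendsto_Du,
HasIdx.eventually, Du_tsl); surjective_open, surjective_tsl, toW_tsl, var of translates (dX is invariant as well).
tv_dense: sard_smale on X = W 2 V × ℝ with Φ' ((ξ, r), a) = Φ (ξ, (r, a)), Z = {((xi x y u, r), a) | Nice, index ≤ 0, GoodV at a}; fderiv_xi, HasIdx.coprod,
separable_W. -/

open Set Filter Topology MeasureTheory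
open scoped ContDiff NNReal ENNReal RealInnerProductSpace

namespace Pool.Agent.P.MP_de3acd_gt.FH

noncomputable section

variable {V : Type} [NormedAddCommGroup V] [InnerProductSpace ℝ V] [Sym V]
variable {Λ : Type} [NormedAddCommGroup Λ] [NormedSpace ℝ Λ] [FiniteDimensional ℝ Λ]

variable {α : Type} [Fintype α] {J : ℝ → V → V →L[ℝ] V} {X : ℝ × Λ → Pl → V → V} {R : ℝ}
  {Y Y' : ℝ → V → V} {x y : ℝ → V} {v : α → Λ}

theorem surj_TVop {β : Type} [Fintype β] {D : W 2 V →L[ℝ] W 1 V} {K : α → Pl → V}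
    {K' : β → Pl → V} (f : α → β) (e : ∀ i, K i = K' (f i))
    (h : Function.Surjective (D.coprod (kmap K))) : Function.Surjective (D.coprod (kmap K')) := by
  classical
  intro w
  obtain ⟨⟨ξ, μ⟩, rfl⟩ := h w
  have h1 : kmap K μ ∈ (kmap K').range := by
    rw [kmap_apply]
    refine Submodule.sum_mem _ fun i _ => Submodule.smul_mem _ _ ⟨Pi.single (f i) 1, ?_⟩
    change kmap K' _ = _
    rw [kmap_apply, Finset.sum_eq_single (f i) (fun b _ hb => by simp [hb]) (by simp), e]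
    simp
  obtain ⟨μ', h2⟩ := h1
  exact ⟨(ξ, μ'), congrArg (fun z => D ξ + z) h2⟩

omit [FiniteDimensional ℝ Λ] in
theorem fderiv_TVop {F : Type} [NormedAddCommGroup F] [NormedSpace ℝ F] {f : ℝ × Λ → F}
    (hf : Differentiable ℝ f) {I : Set ℝ} (hI : UniqueDiffOn ℝ I) {c : ℝ} (hc : c ∈ I)
    (e : ∀ r ∈ I, ∀ a, f (r, a) = f (c, a)) {r : ℝ} (hr : r ∈ I) (a : Λ) :
    fderiv ℝ f (r, a) = fderiv ℝ f (c, a) := by
  have key : ∀ r ∈ I, fderiv ℝ f (r, a) = (fderiv ℝ f (c, a)).comp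
      ((0 : ℝ × Λ →L[ℝ] ℝ).prod (ContinuousLinearMap.snd ℝ ℝ Λ)) := fun r hr => by
    have h1 : HasFDerivAt (fun q : ℝ × Λ => f (c, q.2)) ((fderiv ℝ f (c, a)).comp
        ((0 : ℝ × Λ →L[ℝ] ℝ).prod (ContinuousLinearMap.snd ℝ ℝ Λ))) (r, a) :=
      HasFDerivAt.comp (r, a) (g := f) (f := fun q : ℝ × Λ => (c, q.2)) (hf _).hasFDerivAt
        ((hasFDerivAt_const c _).prodMk hasFDerivAt_snd)
    refine ((hI.prod uniqueDiffOn_univ) (r, a) ⟨hr, trivial⟩).eq
      (hf _).hasFDerivAt.hasFDerivWithinAt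
      (h1.hasFDerivWithinAt.congr (fun q hq => e q.1 hq.1 q.2) (e r hr a))
  rw [key r hr, ← key c hc]

omit [Sym V] [FiniteDimensional ℝ Λ] in
theorem clamp_TVop (h : SmX X) (cl : Clamp X) (r : ℝ) (a : Λ) :
    ∃ r' ∈ Icc (0 : ℝ) 1, X (r, a) = X (r', a) ∧ dX X (r, a) = dX X (r', a) := by
  have hd : ∀ p z, Differentiable ℝ fun q => X q p z := fun p z =>
    (h.1.comp (contDiff_id.prodMk (contDiff_const (c := (p, z))))).differentiable (by simp)
  rcases le_total r 0 with h0 | h0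
  · refine ⟨0, ⟨le_rfl, zero_le_one⟩, (cl r a).1 h0, ?_⟩
    funext w p z
    exact congrArg (fun T : ℝ × Λ →L[ℝ] V => T w) (fderiv_TVop (hd p z) (uniqueDiffOn_Iic 0)
      (mem_Iic.2 le_rfl) (fun r hr a => by rw [(cl r a).1 hr]) h0 a)
  rcases le_total 1 r with h1 | h1
  · refine ⟨1, ⟨zero_le_one, le_rfl⟩, (cl r a).2 h1, ?_⟩
    funext w p z
    exact congrArg (fun T : ℝ × Λ →L[ℝ] V => T w) (fderiv_TVop (hd p z) (uniqueDiffOn_Ici 1)
      (mem_Ici.2 le_rfl) (fun r hr a => by rw [(cl r a).2 hr]) h1 a)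
  · exact ⟨r, ⟨h0, h1⟩, rfl, rfl⟩

theorem lim_TVop {D : ℕ → W 2 V →L[ℝ] W 1 V} {D₀ : W 2 V →L[ℝ] W 1 V} {K : ℕ → α → Pl → V}
    {K₀ : α → Pl → V} (hD : Tendsto D atTop (𝓝 D₀))
    (hK : ∀ i, Tendsto (fun n => toW 1 (K n i)) atTop (𝓝 (toW 1 (K₀ i)))) :
    Tendsto (fun n => (D n).coprod (kmap (K n))) atTop (𝓝 (D₀.coprod (kmap K₀))) := by
  have h1 : Tendsto (fun n => kmap (K n)) atTop (𝓝 (kmap K₀)) := by
    refine tendsto_iff_norm_sub_tendsto_zero.2 (squeeze_zero (fun _ => norm_nonneg _)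
      (fun n => norm_kmap_sub_le _ _) ?_)
    simpa using tendsto_finsetSum Finset.univ fun i _ =>
      tendsto_iff_norm_sub_tendsto_zero.1 (hK i)
  have h2 : Continuous fun q : (W 2 V →L[ℝ] W 1 V) × ((α → ℝ) →L[ℝ] W 1 V) => q.1.coprod q.2 := by
    simp only [← ContinuousLinearMap.comp_fst_add_comp_snd]
    exact (continuous_fst.clm_comp continuous_const).add (continuous_snd.clm_comp continuous_const)
  exact (h2.tendsto (D₀, kmap K₀)).comp (hD.prodMk_nhds h1)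

omit [Sym V] [FiniteDimensional ℝ Λ] in
theorem var_TVop {s : ℝ} (inv : ∀ q, tsl (s, 0) (X q) = X q) (q w : ℝ × Λ) (u : Pl → V) :
    var J (dX X q w) (tsl (s, 0) u) = tsl (s, 0) (var J (dX X q w) u) := by
  funext p
  have h1 : ∀ q, X q (p + (s, 0)) = X q p := fun q => congrFun (inv q) p
  simp only [var, tsl, dX, h1, Prod.snd_add, add_zero]

theorem tsl_TVop (h : PData J X R Y Y' x y) {s : ℝ} (inv : ∀ q, tsl (s, 0) (X q) = X q) {u : Pl → V}
    (hu : Pth x y u) (q : ℝ × Λ) (w : α → ℝ × Λ)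
    (e : Function.Surjective ((Du J (X q) (tsl (s, 0) u)).coprod
      (kmap fun i => var J (dX X q (w i)) (tsl (s, 0) u)))) :
    Function.Surjective ((Du J (X q) u).coprod (kmap fun i => var J (dX X q (w i)) u)) := by
  have h1 : (kmap fun i => var J (dX X q (w i)) (tsl (s, 0) u)) =
      (trW 1 (s, 0)).comp (kmap fun i => var J (dX X q (w i)) u) := by
    refine ContinuousLinearMap.ext fun μ => ?_
    rw [ContinuousLinearMap.comp_apply, kmap_apply, kmap_apply, map_sum]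
    refine Finset.sum_congr rfl fun i _ => ?_
    rw [map_smul, var_TVop inv, toW_tsl 1 (h.var_mem hu q _)]
  have h2 : Du J (X q) (tsl (s, 0) u) =
      Dop 1 1 (tsl (s, 0) (cJ J u)) (tsl (s, 0) (cS J (X q) u)) := by
    rw [← cJ_tsl, ← cS_tsl, inv q]
    rfl
  rw [h1, h2] at e
  exact (surjective_tsl (h.ell hu q).toCoef _ _).1 e

theorem tv_open {𝒮 : Set ℝ} (h : PData J X R Y Y' x y) (cl : Clamp X)
    (inv : ∀ s ∈ 𝒮, ∀ q, tsl (s, 0) (X q) = X q) (seq : SeqC J X 𝒮 x y) (h0 : GoodV J X v x y 0) :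
    ∀ᶠ a in 𝓝 0, GoodV J X v x y a := by
  by_contra hc
  obtain ⟨a, ha, hbad⟩ := exists_seq_forall_of_frequently (not_eventually.1 hc)
  have h1 : ∀ n, ∃ r u d, r ∈ Icc (0 : ℝ) 1 ∧ Nice J (X (r, a n)) x y u ∧
      HasIdx (Du J (X (r, a n)) u) d ∧ d ≤ 0 ∧ ¬Function.Surjective ((Du J (X (r, a n)) u).coprod
        (kmap fun i : Option α =>
          var J (dX X (r, a n) (i.elim (1, 0) fun i => (0, v i))) u)) := fun n => by
    have h2 := hbad n
    simp only [GoodV, not_forall] at h2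
    obtain ⟨r, u, d, h3, h4, h5, h6⟩ := h2
    obtain ⟨r', hr', e1, e2⟩ := clamp_TVop h.fam.smX cl r (a n)
    rw [e1] at h3 h4 h6
    rw [e2] at h6
    exact ⟨r', u, d, hr', h3, h4, h5, h6⟩
  choose r u d hr hn hi hd hs using h1
  obtain ⟨φ, s, r₀, g, hφ, hs𝒮, hr₀, hg, hw⟩ := seq r a u d ha fun n =>
    ⟨hr n, hn n, hi n, hd n, fun e => hs n (surj_TVop (fun _ => none) (fun i => by
      rw [Subsingleton.elim i 0]
      exact kr_eq h.fam.smX _ _ _) e)⟩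
  obtain ⟨t1, t2⟩ := h.tendsto_Du (a := fun n => (r (φ n), a (φ n))) (a₀ := (r₀, 0))
    (hr₀.prodMk_nhds (ha.comp hφ.tendsto_atTop))
    (fun n => (hn (φ n)).pth.tsl h.loops.1 h.loops.2.1 (s n)) hg.pth hw
  obtain ⟨d₀, hd₀⟩ := (h.ell hg.pth (r₀, 0)).exists_hasIdx
  obtain ⟨n, e1⟩ := (t1.eventually (HasIdx.eventually (D := Du J (X (r₀, 0)) g) hd₀)).exists
  have e2 := (Du_tsl (h.ell (hn (φ n)).pth (r (φ n), a (φ n))).toCoef (s n)).1 d₀
  rw [inv _ (hs𝒮 n)] at e2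
  have e3 : d₀ ≤ 0 := ((e2.1 e1).unique (hi _)).trans_le (hd _)
  obtain ⟨m, e4⟩ := ((lim_TVop t1 fun i : Option α => t2 (i.elim (1, 0) fun i => (0, v i))).eventually
    (surjective_open (h0 r₀ g d₀ hg hd₀ e3))).exists
  exact hs _ (tsl_TVop h (inv _ (hs𝒮 m)) (hn (φ m)).pth _ _ e4)

theorem goodV_empty [IsEmpty α] (h : SmX X) (a : Λ) :
    GoodV J X v x y a ↔ Good1 J (fun r => X (r, a)) x y := by
  refine forall₃_congr fun r u d => forall₃_congr fun _ _ _ => ⟨surj_TVop (fun _ => 0) ?_,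
    surj_TVop (fun _ => none) fun i => ?_⟩
  · rintro (_ | i)
    · exact (kr_eq h _ _ _).symm
    · exact isEmptyElim i
  · rw [Subsingleton.elim i 0]
    exact kr_eq h _ _ _

theorem tv_dense (h : PData J X R Y Y' x y) [MeasurableSpace Λ] [BorelSpace Λ] (μ : Measure Λ)
    [μ.IsAddHaarMeasure] : ∀ᵐ a ∂μ, GoodV J X v x y a → Good1 J (fun r => X (r, a)) x y := by
  obtain ⟨Φ, hΦ⟩ := h.exists_F
  obtain ⟨L, hL⟩ : ∃ L : (W 2 V × ℝ) × Λ →L[ℝ] W 2 V × ℝ × Λ, ∀ z, L z = (z.1.1, z.1.2, z.2) :=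
    ⟨(ContinuousLinearEquiv.prodAssoc ℝ (W 2 V) ℝ Λ : _ →L[ℝ] _), fun _ => rfl⟩
  have hd : ∀ z, fderiv ℝ (Φ ∘ L) z = (fderiv ℝ Φ (L z)).comp L := fun z =>
    ((hΦ.1.differentiable (by simp) _).hasFDerivAt.comp z L.hasFDerivAt).fderiv
  have key := sard_smale (Φ := Φ ∘ L) (hΦ.1.comp L.contDiff)
    (Z := {z | GoodV J X v x y z.2 ∧ ∃ u d, Nice J (X (z.1.2, z.2)) x y u ∧ z.1.1 = xi x y u ∧
      HasIdx (Du J (X (z.1.2, z.2)) u) d ∧ d ≤ 0}) (by
      rintro ⟨⟨ξ, r⟩, a⟩ ⟨hG, u, d, hu, rfl, hi, hd0⟩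
      obtain ⟨e1, e2⟩ := h.fderiv_xi hΦ hu.pth (r, a)
      refine ⟨?_, ?_, d + Module.finrank ℝ ℝ, by rw [Module.finrank_self]; omega, ?_⟩
      · rw [Function.comp_apply, hL]
        exact (h.zero_iff hΦ hu.pth (r, a)).2 hu
      · rw [hd, hL]
        intro w
        obtain ⟨⟨ζ, ν⟩, rfl⟩ := hG r u d hu hi hd0 w
        have h1 : ∀ ζ w, fderiv ℝ Φ (xi x y u, r, a) (ζ, w) ∈
            ((fderiv ℝ Φ (xi x y u, r, a)).comp L).range := fun ζ w =>
          ⟨((ζ, w.1), w.2), congrArg (fderiv ℝ Φ (xi x y u, r, a)) (hL _)⟩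
        have h3 : Du J (X (r, a)) u ζ ∈ ((fderiv ℝ Φ (xi x y u, r, a)).comp L).range := by
          rw [← e1]
          exact h1 ζ 0
        have h4 : kmap (fun i : Option α => var J (dX X (r, a) (i.elim (1, 0) fun i => (0, v i))) u)
            ν ∈ ((fderiv ℝ Φ (xi x y u, r, a)).comp L).range := by
          rw [kmap_apply]
          refine Submodule.sum_mem _ fun i _ => Submodule.smul_mem _ _ ?_
          have h2 := h1 0 (i.elim (1, 0) fun i => (0, v i))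
          rwa [e2, map_zero, zero_add] at h2
        exact Submodule.add_mem _ h3 h4
      · have h1 := hi.coprod (((fderiv ℝ (Φ ∘ L) ((xi x y u, r), a)).comp
          (ContinuousLinearMap.inl ℝ (W 2 V × ℝ) Λ)).comp (ContinuousLinearMap.inr ℝ (W 2 V) ℝ))
        have h2 : Du J (X (r, a)) u = ((fderiv ℝ (Φ ∘ L) ((xi x y u, r), a)).comp
            (ContinuousLinearMap.inl ℝ (W 2 V × ℝ) Λ)).comp
              (ContinuousLinearMap.inl ℝ (W 2 V) ℝ) := by
          rw [← e1, hd, hL]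
          exact ContinuousLinearMap.ext fun ζ =>
            (congrArg (fderiv ℝ Φ (xi x y u, r, a)) (hL ((ζ, 0), 0))).symm
        rwa [h2, ContinuousLinearMap.coprod_comp_inl_inr] at h1) μ
  filter_upwards [key] with a ha hG r u d hu hi hd0
  have h1 := ha (xi x y u, r) ⟨hG, u, d, hu, rfl, hi, hd0⟩
  obtain ⟨e1, e2⟩ := h.fderiv_xi hΦ hu.pth (r, a)
  rw [surjective_kmap_one, kr_eq h.fam.smX]
  intro w
  obtain ⟨⟨ζ, ρ⟩, rfl⟩ := h1 w
  refine ⟨(ζ, ρ), ?_⟩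
  have h2 : L ((ζ, ρ), 0) = (ζ, 0) + ρ • ((0, 1, 0) : W 2 V × ℝ × Λ) := by
    rw [hL]
    simp
  have h3 : fderiv ℝ Φ (xi x y u, r, a) (ζ, 0) = Du J (X (r, a)) u ζ := by
    rw [← e1]
    rfl
  rw [hd, hL]
  change _ = fderiv ℝ Φ (xi x y u, r, a) (L ((ζ, ρ), 0))
  rw [h2, map_add, map_smul, h3, e2, map_zero, zero_add]

end

end Pool.Agent.P.MP_de3acd_gt.FH
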