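import Pool.Agent.P.MP_de3acd_gt.FH.BL
import Pool.Agent.P.MP_de3acd_gt.FH.FinA

/-! Compactness of the irregular solutions.
Sketch: subsequence with r converging; drop finitely many terms so that the bound holds; bl1 at a₀ = (r₀, 0) with m = -1 resp. m = 0, or bl0. In seqC_hom the second
alternative contradicts irregularity: the piece g has a smaller gap (Dec), good gives surjectivity with K = kr g (var_mem), var_tendsto_loc with v = (1, 0);
kr J (fun r => X (r, a)) r u = var J (dX X (r, a) (1, 0)) u by the chain rule (kr_eq). -/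

open Set Filter Topology MeasureTheory
open scoped ContDiff NNReal ENNReal RealInnerProductSpace

namespace Pool.Agent.P.MP_de3acd_gt.FH

noncomputable section

variable {V : Type} [NormedAddCommGroup V] [InnerProductSpace ℝ V] [Sym V]
variable {Λ : Type} [NormedAddCommGroup Λ] [NormedSpace ℝ Λ] [FiniteDimensional ℝ Λ]

variable {J : ℝ → V → V →L[ℝ] V} {R B c : ℝ} {Y Y' : ℝ → V → V} {x y : ℝ → V} {A A' : (ℝ → V) → ℝ}

theorem sub_TVseq {r : ℕ → ℝ} (hr : ∀ n, r n ∈ Icc (0 : ℝ) 1) {P : ℕ → Prop}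
    (hP : ∀ᶠ n in atTop, P n) : ∃ (ψ : ℕ → ℕ) (r₀ : ℝ), StrictMono ψ ∧
      Tendsto (fun n => r (ψ n)) atTop (𝓝 r₀) ∧ ∀ n, P (ψ n) := by
  obtain ⟨r₀, -, φ, hφ, h⟩ := isCompact_Icc.tendsto_subseq hr
  obtain ⟨N, hN⟩ := eventually_atTop.1 (hφ.tendsto_atTop.eventually hP)
  exact ⟨fun n => φ (n + N), r₀, hφ.comp (strictMono_id.add_const N),
    h.comp (tendsto_add_atTop_nat N), fun n => hN _ (Nat.le_add_left _ _)⟩

omit [Sym V] [FiniteDimensional ℝ Λ] in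
theorem dX_TVseq {X : Λ → Pl → V → V} (h : Fam X R) (e : ∀ q, frz (X q) (-R) = Y)
    (e' : ∀ q, frz (X q) R = Y') (v a : Λ) (p : Pl) (z : V) (hp : R ≤ |p.1|) :
    dX X a v p z = 0 := by
  have key : ∃ w : V, (fun a => X a p z) = fun _ => w := by
    rcases le_abs'.1 hp with h1 | h1
    · exact ⟨Y p.2 z, funext fun a => congrFun (congrFun ((h.left a _ h1).trans (e a)) p.2) z⟩
    · exact ⟨Y' p.2 z, funext fun a => congrFun (congrFun ((h.right a _ h1).trans (e' a)) p.2) z⟩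
  obtain ⟨w, hw⟩ := key
  rw [dX, hw, fderiv_fun_const]
  rfl

theorem kr_eq {X : ℝ × Λ → Pl → V → V} (h : SmX X) (r : ℝ) (a : Λ) (u : Pl → V) :
    kr J (fun r => X (r, a)) r u = var J (dX X (r, a) (1, 0)) u := by
  have e : dX (fun r => X (r, a)) r 1 = dX X (r, a) (1, 0) := by
    funext p z
    have h1 : DifferentiableAt ℝ (fun q : ℝ × Λ => X q p z) (r, a) :=
      (h.1.comp (contDiff_id.prodMk (contDiff_const (c := (p, z))))).differentiable (by simp) _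
    have h2 := h1.hasFDerivAt.comp_hasDerivAt r ((hasDerivAt_id r).prodMk (hasDerivAt_const r a))
    exact h2.deriv
  rw [kr, e]

theorem seqC_hom {X : ℝ × Λ → Pl → V → V} (h : FData J X R Y Y') (e : ∀ q, frz (X q) (-R) = Y)
    (e' : ∀ q, frz (X q) R = Y') (hx : Orb 1 Y x) (hy : Orb 1 Y' y) (dec : Dec J Y A)
    (dec' : Dec J Y' A') (reg : RegA J Y) (reg' : RegA J Y') (low : ∀ r, Low J (X (r, 0)) Y Y' A A' c)
    (good : ∀ x' y', Orb 1 Y x' → Orb 1 Y' y' → A x' - A' y' < A x - A' y →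
      Good1 J (fun r => X (r, 0)) x' y')
    (hB : ∀ᶠ a in 𝓝 0, ∀ r u, Nice J (X (r, a)) x y u → Bnd B u) : SeqC J X {0} x y := by
  intro r a u d ha hu
  obtain ⟨ψ, r₀, hψ, hr, hb⟩ := sub_TVseq (fun n => (hu n).1) (ha.eventually hB)
  have ha' : Tendsto (fun n => (r (ψ n), a (ψ n))) atTop (𝓝 (r₀, 0)) :=
    hr.prodMk_nhds (ha.comp hψ.tendsto_atTop)
  obtain ⟨φ, hφ, H⟩ := bl1 (u := fun n => u (ψ n)) (d := fun n => d (ψ n)) (m := -1) h (e (r₀, 0))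
    (e' _) hx hy dec dec' (low r₀) (reg.lo h.acs h.spl _ _) (reg'.lo h.acs h.spr _ _)
    (fun x' y' g n hx' hy' hg lt hn => by
      by_contra h0
      have h1 := (hn.coprod _).nonneg (good x' y' hx' hy' lt r₀ g n hg hn (by omega))
      rw [Module.finrank_fin_fun] at h1
      omega) ha'
    (fun n => ⟨(hu _).2.1, hb n _ _ (hu _).2.1, (hu _).2.2.1, (hu _).2.2.2.1⟩)
  rcases H with ⟨g, hg, hw, -⟩ | ⟨-, x', v, g, ϱ, -, hv, hi, hl, hs, H⟩
  · exact ⟨fun n => ψ (φ n), fun _ => 0, r₀, g, hψ.comp hφ, fun _ => rfl,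
      hr.comp hφ.tendsto_atTop, hg, by simpa only [(tsl0_BL rfl _).1] using hw⟩
  · have key : ∃ x₁ y₁, Orb 1 Y x₁ ∧ Orb 1 Y' y₁ ∧ A x₁ - A' y₁ < A x - A' y ∧
        Nice J (X (r₀, 0)) x₁ y₁ g := by
      rcases H with ⟨h1, h2, -, h3, -⟩ | ⟨h1, h2, -, h3, -⟩
      · exact ⟨x', y, h1, hy, by linarith [dec _ _ _ hx h1 h2 hv], h3⟩
      · exact ⟨x, x', hx, h1, by linarith [dec' _ _ _ h1 hy h2 hv], h3⟩
    obtain ⟨x₁, y₁, h1, h2, lt, hg⟩ := key
    have h3 := good x₁ y₁ h1 h2 lt r₀ g _ hg hi (by omega)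
    rw [kr_eq h.fam.smX] at h3
    obtain ⟨n, hn⟩ := (hs _ _ ((h.pData h1 h2).var_mem hg.pth _ _) reg reg' h3
      (var_tendsto_loc h.acs.1 h.fam (dX_TVseq h.fam e e' (1, 0)) (ha'.comp hφ.tendsto_atTop)
        (fun n => ⟨(hu _).2.1.bdd.1, (hu _).2.1.per⟩) hg.bdd hg.per hl)).exists
    refine ((hu (ψ (φ n))).2.2.2.2 ?_).elim
    rw [kr_eq h.fam.smX]
    exact hn

theorem seqC_cont {X : Λ → Pl → V → V} (h : FData J X R Y Y') (e : frz (X 0) (-R) = Y)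
    (e' : frz (X 0) R = Y') (hx : Orb 1 Y x) (hy : Orb 1 Y' y) (dec : Dec J Y A)
    (dec' : Dec J Y' A') (low : Low J (X 0) Y Y' A A' c) (lo : Lo J Y A (A x - A' y + c))
    (lo' : Lo J Y' A' (A x - A' y + c))
    (good : ∀ x' y', Orb 1 Y x' → Orb 1 Y' y' → A x' - A' y' < A x - A' y → Good0 J (X 0) x' y')
    (hB : ∀ᶠ a in 𝓝 0, ∀ u, Nice J (X a) x y u → Bnd B u) :
    SeqC J (fun q : ℝ × Λ => X q.2) {0} x y := by
  intro r a u d ha hu
  obtain ⟨ψ, r₀, hψ, hr, hb⟩ := sub_TVseq (fun n => (hu n).1) (ha.eventually hB)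
  obtain ⟨φ, hφ, H⟩ := bl1 (u := fun n => u (ψ n)) (d := fun n => d (ψ n)) (m := 0) h e e' hx hy
    dec dec' low lo lo' (fun x' y' g n hx' hy' hg lt hn => by
      by_contra h0
      exact h0 (hn.nonneg (good x' y' hx' hy' lt g n hg hn (by omega))))
    (ha.comp hψ.tendsto_atTop)
    (fun n => ⟨(hu _).2.1, hb n _ (hu _).2.1, (hu _).2.2.1, (hu _).2.2.2.1.trans (by norm_num)⟩)
  rcases H with ⟨g, hg, hw, -⟩ | ⟨H, -⟩
  · exact ⟨fun n => ψ (φ n), fun _ => 0, r₀, g, hψ.comp hφ, fun _ => rfl,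
      hr.comp hφ.tendsto_atTop, hg, by simpa only [(tsl0_BL rfl _).1] using hw⟩
  · obtain ⟨n, hn⟩ := H.exists
    have := (hu (ψ (φ n))).2.2.2.1
    omega

theorem seqC_sta {Z : Λ → ℝ → V → V} (h : FData J (fun a => sta (Z a)) 0 (Z 0) (Z 0))
    (hx : Orb 1 (Z 0) x) (hy : Orb 1 (Z 0) y) (hxy : x ≠ y) (dec : Dec J (Z 0) A)
    (lo : ∀ b < A x - A y, Lo J (Z 0) A b)
    (hB : ∀ᶠ a in 𝓝 0, ∀ u, Nice J (sta (Z a)) x y u → Bnd B u) :
    SeqC J (fun q : ℝ × Λ => sta (Z q.2)) univ x y := by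
  intro r a u d ha hu
  obtain ⟨ψ, r₀, hψ, hr, hb⟩ := sub_TVseq (fun n => (hu n).1) (ha.eventually hB)
  obtain ⟨φ, s, g, hφ, hg, hw, -⟩ := bl0 (u := fun n => u (ψ n)) (d := fun n => d (ψ n)) h hx hy hxy
    dec lo (ha.comp hψ.tendsto_atTop)
    (fun n => ⟨(hu _).2.1, hb n _ (hu _).2.1, (hu _).2.2.1, (hu _).2.2.2.1.trans (by norm_num)⟩)
  exact ⟨fun n => ψ (φ n), s, r₀, g, hψ.comp hφ, fun _ => mem_univ _, hr.comp hφ.tendsto_atTop,
    hg, hw⟩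

end

end Pool.Agent.P.MP_de3acd_gt.FH
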