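import Pool.Agent.P.MP_de3acd_gt.FH.SgA
import Pool.Agent.P.MP_de3acd_gt.FH.FrA

/-! Trivialisations along the frame `B`.
Sketch: Fr.lin_eq: Fr.wind at z = 0, tau 0 = 0. Fr.sg: Fr.add, Fr.zero, Fr.symp, om_e6, form_om, form_Ω0, Fr.aff, aff_one. tv_ok_iff: SG.ok, SG.symm, SG.sg_sg. tv_smul: tau (T'.γ 0) = tau (T.γ 0) by Fr.tau_eq, and
gP B m (τ + k) p = (gP B m τ p).comp (B (-k)), gQ B m (τ + k) p = (B k).comp (gQ B m τ p) with lin g = B k; ds and dt commute with the composition by a constant map (fderiv_clm_comp or ContinuousLinearMap.fderiv_comp); ext_GauB.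
tv_glue: for R large the gauge of the glued profile is locally the translate of the first gauge near p.1 ≤ 0 and of the second near 0 ≤ p.1 (ds_tsl, dt_tsl, Filter.EventuallyEq.fderiv_eq); the frames vanish on the wrong side (Tst). -/

open Set Filter Topology MeasureTheory
open scoped ContDiff NNReal ENNReal RealInnerProductSpace

namespace Pool.Agent.P.MP_de3acd_gt.FH

noncomputable section

variable {Γ : Subgroup (Equiv.Perm E)} {B : ℝ → E →L[ℝ] E} {J : ℝ → E → E →L[ℝ] E}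
  {H G : ℝ → E → ℝ} {Y : ℝ → E → E} {γ g : Equiv.Perm E}
variable {a b a' b' : ℕ} {T : Op E a b} {τ τ' τ₁ τ₂ : ℝ → ℝ} {c d e : ℝ}

theorem Fr.lin_eq (h : Fr Γ B) (hγ : γ ∈ Γ) (v : E) : lin γ v = B (tau (γ 0)) v := by
  obtain ⟨m, h1, h2⟩ := h.wind γ hγ
  rw [h2, tau_zero_FrA, zero_add, h1]


theorem Fr.tau_eq (h : Fr Γ B) (hγ : γ ∈ Γ) (z : E) : tau (γ z) = tau z + tau (γ 0) := by
  obtain ⟨m, -, h2⟩ := h.wind γ hγ
  rw [h2, h2, tau_zero_FrA, zero_add]


theorem prf_step (c d : ℝ) : Prf (fun s => c + Real.smoothTransition s * (d - c)) c d :=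
  ⟨contDiff_const.add (Real.smoothTransition.contDiff.mul contDiff_const), 1, fun s =>
    ⟨fun hs => by simp [Real.smoothTransition.zero_of_nonpos (show s ≤ 0 by linarith)],
      fun hs => by simp [Real.smoothTransition.one_of_one_le hs]⟩⟩


theorem Prf.seg (h : Prf τ c d) (h' : Prf τ' c d) (r : ℝ) :
    Prf (fun s => τ s + r * (τ' s - τ s)) c d := by
  obtain ⟨h1, R, h2⟩ := h
  obtain ⟨h3, R', h4⟩ := h'
  have := le_max_left R R'
  have := le_max_right R R'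
  exact ⟨h1.add (contDiff_const.mul (h3.sub h1)), max R R', fun s =>
    ⟨fun hs => by simp [(h2 s).1 (by linarith), (h4 s).1 (by linarith)],
      fun hs => by simp [(h2 s).2 (by linarith), (h4 s).2 (by linarith)]⟩⟩


theorem Prf.glue (h : Prf τ₁ c d) (h' : Prf τ₂ d e) (R : ℝ) :
    Prf (fun s => τ₁ (s + R) + τ₂ (s - R) - d) c e := by
  obtain ⟨h1, R₁, h2⟩ := h
  obtain ⟨h3, R₂, h4⟩ := h'
  have := le_max_left R₁ R₂
  have := le_max_right R₁ R₂
  have := le_abs_self R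
  have := neg_abs_le R
  exact ⟨((h1.comp (contDiff_id.add contDiff_const)).add
    (h3.comp (contDiff_id.sub contDiff_const))).sub contDiff_const, max R₁ R₂ + |R|, fun s =>
    ⟨fun hs => by simp [(h2 (s + R)).1 (by linarith), (h4 (s - R)).1 (by linarith)],
      fun hs => by simp [(h2 (s + R)).2 (by linarith), (h4 (s - R)).2 (by linarith)]⟩⟩


theorem Fr.inv_TvA (h : Fr Γ B) (r : ℝ) (v : E) : B (-r) (B r v) = v ∧ B r (B (-r) v) = v := by
  rw [← h.add, ← h.add, neg_add_cancel, add_neg_cancel, h.zero, and_self]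

theorem Fr.sP_TvA (h : Fr Γ B) (m : ℝ) (hτ : ContDiff ℝ ∞ τ) : ContDiff ℝ ∞ (gP B m τ) :=
  contDiff_const.clm_comp (h.smooth.comp
    ((contDiff_const.mul contDiff_snd).add (hτ.comp contDiff_fst)).neg)

theorem Fr.sg (h : Fr Γ B) (hγ : γ ∈ Γ) (hτ : Prf τ c d) :
    SG om Ω0 γ 1 (gP B (tau (γ 0)) τ) (gQ B (tau (γ 0)) τ) := by
  obtain ⟨h1, R, h2⟩ := hτ
  refine ⟨h.sP_TvA _ h1, (h.smooth.comp
    ((contDiff_const.mul contDiff_snd).add (h1.comp contDiff_fst))).clm_comp contDiff_const,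
    fun p v => ?_, fun p v => ?_, form_om, form_Ω0, fun p u v => ?_, h.aff hγ, aff_one,
    fun s t v => ?_, R, fun s t => ⟨fun hs => ?_, fun hs => ?_⟩⟩
  · simp only [gP, gQ, ContinuousLinearMap.comp_apply, (h.inv_TvA _ _).1,
      ContinuousLinearEquiv.coe_coe, ContinuousLinearEquiv.symm_apply_apply]
  · simp only [gP, gQ, ContinuousLinearMap.comp_apply, ContinuousLinearEquiv.coe_coe,
      ContinuousLinearEquiv.apply_symm_apply, (h.inv_TvA _ _).2]
  · simp only [gP, ← om_e6, ContinuousLinearMap.comp_apply, ContinuousLinearEquiv.coe_coe,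
      ContinuousLinearEquiv.apply_symm_apply, h.symp]
  · simp only [gP, ContinuousLinearMap.comp_apply, lin_one', h.lin_eq hγ, ← h.add]
    congr 3
    ring
  · simp only [gP, (h2 s).2 hs, (h2 R).2 le_rfl]
  · simp only [gP, (h2 s).1 hs, (h2 (-R)).1 le_rfl]


theorem Fr.tv_adm (h : Fr Γ B) (hτ : Prf τ c d) (hT : Adm om Γ T) : Adm Ω0 ⊥ (tv B τ T) :=
  (h.sg hT.mem hτ).adm (one_mem _) (fun _ => ⟨rfl, rfl⟩) rfl hT


theorem Fr.tv_ok_iff (h : Fr Γ B) (hτ : Prf τ c d) (hT : Adm om Γ T) :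
    Ok Ω0 ⊥ (tv B τ T) ↔ Ok om Γ T := by
  refine ⟨fun h1 => ?_, (h.sg hT.mem hτ).ok (one_mem _) (fun _ => ⟨rfl, rfl⟩) rfl⟩
  have := (h.sg hT.mem hτ).symm.ok hT.mem hT.tw rfl h1
  rwa [tv, (h.sg hT.mem hτ).sg_sg] at this


theorem Fr.tv_smul (h : Fr Γ B) (hg : g ∈ Γ) (hτ : ContDiff ℝ ∞ τ) (hT : T.γ ∈ Γ) {T' : Op E a b}
    (e₁ : T'.γ = g * T.γ * g⁻¹)
    (e₂ : ∀ p v, T'.j p (lin g v) = lin g (T.j p v) ∧ T'.S p (lin g v) = lin g (T.S p v))
    (e₃ : ∀ i, T'.K i = lin g ∘ T.K i) (e₄ : ∀ i, T'.l i = lin g ∘ T.l i) (e₅ : T'.M = T.M) :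
    tv B (fun s => τ s + tau (g 0)) T' = tv B τ T := by
  have h1 : tau (T'.γ 0) = tau (T.γ 0) := by
    have := h.tau_eq hg (g⁻¹ 0)
    rw [show g (g⁻¹ 0) = 0 from g.apply_symm_apply 0, tau_zero_FrA] at this
    rw [e₁, Equiv.Perm.mul_apply, Equiv.Perm.mul_apply, h.tau_eq hg, h.tau_eq hT]
    linarith
  simp only [h.lin_eq hg] at e₂
  have hP : gP B (tau (T.γ 0)) (fun s => τ s + tau (g 0)) =
      fun p => (gP B (tau (T.γ 0)) τ p).comp (B (-tau (g 0))) := by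
    funext p
    refine ContinuousLinearMap.ext fun v => ?_
    simp only [gP, ContinuousLinearMap.comp_apply, ← h.add]
    congr 3
    ring
  have hQ : ∀ p v, gQ B (tau (T.γ 0)) (fun s => τ s + tau (g 0)) p v =
      B (tau (g 0)) (gQ B (tau (T.γ 0)) τ p v) := fun p v => by
    simp only [gQ, ContinuousLinearMap.comp_apply, ← h.add]
    congr 2
    ring
  have hd : ∀ p w, fderiv ℝ (fun p => (gP B (tau (T.γ 0)) τ p).comp (B (-tau (g 0)))) p w =
      (fderiv ℝ (gP B (tau (T.γ 0)) τ) p w).comp (B (-tau (g 0))) := fun p w =>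
    congrArg (fun L : Pl →L[ℝ] E →L[ℝ] V6 => L w)
      (((ContinuousLinearMap.compL ℝ E E V6).flip (B (-tau (g 0)))).hasFDerivAt.comp p
        ((h.sP_TvA _ hτ).differentiable (by simp) p).hasFDerivAt).fderiv
  refine ext_GauB rfl rfl rfl (fun p v => ?_) (fun p v => ?_) ?_ ?_ e₅
  · simp only [tv, FH.sg, h1, hP, hQ, ContinuousLinearMap.comp_apply, (e₂ _ _).1, (h.inv_TvA _ _).1]
  · simp only [tv, FH.sg, h1, hP, hQ, ds, dt, hd, ContinuousLinearMap.comp_apply,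
      sub_apply, (e₂ _ _).1, (e₂ _ _).2, (h.inv_TvA _ _).1]
  · funext i p
    simp only [tv, FH.sg, h1, hP, e₃, ContinuousLinearMap.comp_apply, Function.comp, h.lin_eq hg,
      (h.inv_TvA _ _).1]
  · funext i p
    simp only [tv, FH.sg, h1, hP, e₄, ContinuousLinearMap.comp_apply, Function.comp, h.lin_eq hg,
      (h.inv_TvA _ _).1]


theorem loc_TvA {T' : Op E a' b'} {s s' t : ℝ} (hγ : T.γ = T'.γ)
    (h : ∀ᶠ r in 𝓝 (0 : ℝ), τ (s + r) = τ' (s' + r)) (hj : T.j (s, t) = T'.j (s', t))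
    (hS : T.S (s, t) = T'.S (s', t)) :
    (tv B τ T).j (s, t) = (tv B τ' T').j (s', t) ∧ (tv B τ T).S (s, t) = (tv B τ' T').S (s', t) := by
  have h0 : τ s = τ' s' := by simpa using h.self_of_nhds
  have h1 : ∀ m, fderiv ℝ (gP B m τ) (s, t) = fderiv ℝ (gP B m τ') (s', t) := fun m => by
    rw [← add_zero (s, t), ← add_zero (s', t), ← fderiv_comp_add_left, ← fderiv_comp_add_left]
    refine Filter.EventuallyEq.fderiv_eq ?_
    filter_upwards [(continuous_fst.tendsto (0 : Pl)).eventually h] with z hz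
    simp only [gP, Prod.fst_add, Prod.snd_add, hz]
  simp only [tv, sg, ds, dt, h1, gP, gQ, h0, hj, hS, hγ, and_self]

theorem app_TvA {u : Fin a → Pl → E} {v : Fin a' → Pl → E} {P P₁ P₂ : Pl → E →L[ℝ] V6}
    (h₁ : ∀ i p, P p (u i p) = P₁ p (u i p)) (h₂ : ∀ i p, P p (v i p) = P₂ p (v i p)) :
    (fun i p => P p (Fin.append u v i p)) =
      Fin.append (fun i p => P₁ p (u i p)) fun i p => P₂ p (v i p) := by
  funext i p
  refine Fin.addCases (fun i => ?_) (fun i => ?_) i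
  · simp only [Fin.append_left, h₁]
  · simp only [Fin.append_right, h₂]

theorem frame_TvA {n : ℕ} {u : Fin n → Pl → E} (h : ∀ i, Tst γ (u i)) (A : ℝ) :
    ∀ᶠ R in atTop, ∀ i (p : Pl), R - A ≤ |p.1| → u i p = 0 :=
  eventually_all.2 fun i => by
    obtain ⟨R, hR⟩ := (h i).2
    filter_upwards [eventually_ge_atTop (R + A)] with r hr p hp using hR p (by linarith)

theorem tv_glue {T' : Op E a' b'} (h₁ : Prf τ₁ c d) (h₂ : Prf τ₂ d e) (hT : Adm om Γ T)
    (hT' : Adm om Γ T') (hγ : T.γ = T'.γ) (hM : Mat T T') :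
    Mat (tv B τ₁ T) (tv B τ₂ T') ∧ ∀ᶠ R in atTop,
      tv B (fun s => τ₁ (s + R) + τ₂ (s - R) - d) (glue R T T') =
        glue R (tv B τ₁ T) (tv B τ₂ T') := by
  obtain ⟨-, R₁, a1⟩ := h₁
  obtain ⟨-, R₂, a2⟩ := h₂
  have hn : ∀ᶠ r in 𝓝 (0 : ℝ), -1 < r ∧ r < 1 := Ioo_mem_nhds (by norm_num) one_pos
  refine ⟨?_, ?_⟩
  · obtain ⟨R, hR⟩ := hM
    refine ⟨max R (max R₁ R₂ + 1), fun s hs s' hs' t => ?_⟩
    simp only [ge_iff_le, max_le_iff] at hs hs'
    have := le_max_left R₁ R₂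
    have := le_max_right R₁ R₂
    refine loc_TvA hγ (hn.mono fun r hr => ?_) (hR s hs.1 s' hs'.1 t).1 (hR s hs.1 s' hs'.1 t).2
    rw [(a1 _).2 (by linarith), (a2 _).1 (by linarith)]
  filter_upwards [eventually_ge_atTop (R₁ + 1), eventually_ge_atTop (R₂ + 1),
    frame_TvA hT.tst.1 0, frame_TvA hT.tst.2 0, frame_TvA hT'.tst.1 0, frame_TvA hT'.tst.2 0]
    with R b1 b2 b3 b4 b5 b6
  have c1 : ∀ s, s ≤ 1 → τ₁ (s + R) + τ₂ (s - R) - d = τ₁ (s + R) := fun s hs => by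
    rw [(a2 _).1 (by linarith), add_sub_cancel_right]
  have c2 : ∀ s, -1 ≤ s → τ₁ (s + R) + τ₂ (s - R) - d = τ₂ (s - R) := fun s hs => by
    rw [(a1 _).2 (by linarith), add_sub_cancel_left]
  have c3 : ∀ p : Pl, (tv B (fun s => τ₁ (s + R) + τ₂ (s - R) - d) (glue R T T')).j p =
      (glue R (tv B τ₁ T) (tv B τ₂ T')).j p ∧
      (tv B (fun s => τ₁ (s + R) + τ₂ (s - R) - d) (glue R T T')).S p =
      (glue R (tv B τ₁ T) (tv B τ₂ T')).S p := fun ⟨s, t⟩ => by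
    by_cases c : s ≤ 0
    · simp only [glue, if_pos c]
      refine loc_TvA rfl (hn.mono fun r hr => ?_) (if_pos c) (if_pos c)
      rw [c1 _ (by linarith), add_right_comm]
    · simp only [glue, if_neg c]
      refine loc_TvA hγ (hn.mono fun r hr => ?_) (if_neg c) (if_neg c)
      rw [c2 _ (by linarith), add_sub_right_comm]
  have d1 : ∀ u : Pl → E, (∀ p : Pl, R - 0 ≤ |p.1| → u p = 0) → ∀ p : Pl,
      gP B (tau (T.γ 0)) (fun s => τ₁ (s + R) + τ₂ (s - R) - d) p (u (p.1 + R, p.2)) =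
        gP B (tau (T.γ 0)) τ₁ (p.1 + R, p.2) (u (p.1 + R, p.2)) := fun u hu p => by
    rcases le_total p.1 1 with c | c
    · simp only [gP, c1 _ c]
    · rw [hu _ (le_trans (by linarith) (le_abs_self _)), map_zero, map_zero]
  have d2 : ∀ u : Pl → E, (∀ p : Pl, R - 0 ≤ |p.1| → u p = 0) → ∀ p : Pl,
      gP B (tau (T.γ 0)) (fun s => τ₁ (s + R) + τ₂ (s - R) - d) p (u (p.1 - R, p.2)) =
        gP B (tau (T'.γ 0)) τ₂ (p.1 - R, p.2) (u (p.1 - R, p.2)) := fun u hu p => by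
    rcases le_total (-1) p.1 with c | c
    · simp only [gP, c2 _ c, hγ]
    · rw [hu _ (le_trans (by linarith) (neg_le_abs _)), map_zero, map_zero]
  exact ext_GauB rfl rfl rfl (fun p v => by rw [(c3 p).1]) (fun p v => by rw [(c3 p).2])
    (app_TvA (fun i => d1 _ (b3 i)) fun i => d2 _ (b5 i))
    (app_TvA (fun i => d1 _ (b4 i)) fun i => d2 _ (b6 i)) rfl


end

end Pool.Agent.P.MP_de3acd_gt.FH
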